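import Pool.Agent.Lib.IS2.Blue

/-! Block A1: derivatives, measurability and real values of the two Bessel kernels. -/

open scoped ContDiff ComplexConjugate Topology Real
open Complex MeasureTheory Set Filter

noncomputable section

namespace Pool.Agent.Lib.IS2

open Pool.Agent.Lib.ISO

namespace A1

def wt (a u : ℝ) : ℂ := ((Real.exp (-u) * u ^ a : ℝ) : ℂ)
def f (a b : ℝ) (z : ℂ) (u : ℝ) : ℂ := wt a u * ((u : ℂ) + 2 * z) ^ (b : ℂ)
def J (a b : ℝ) (z : ℂ) : ℂ := ∫ u in Ioi (0 : ℝ), f a b z u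

lemma K0_eq (z : ℂ) : K0 z = exp (-z) * J (-(1 / 2)) (-(1 / 2)) z := by
  simp only [K0, J, f, wt]; push_cast; rfl
lemma L1_eq (z : ℂ) : L1 z = exp (-z) * J (1 / 2) (1 / 2) z := by
  simp only [L1, J, f, wt]; push_cast; rfl

lemma mwt (a : ℝ) : Measurable (wt a) := by unfold wt; fun_prop
lemma norm_wt (a : ℝ) {u : ℝ} (hu : 0 < u) : ‖wt a u‖ = Real.exp (-u) * u ^ a := by
  rw [wt, norm_real, Real.norm_of_nonneg (by positivity)]
lemma gint {a : ℝ} (ha : -1 < a) : IntegrableOn (fun u : ℝ => Real.exp (-u) * u ^ a) (Ioi 0) := by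
  simpa using Real.GammaIntegral_convergent (s := a + 1) (by linarith)
lemma gval {a : ℝ} (ha : -1 < a) : ∫ u in Ioi (0 : ℝ), Real.exp (-u) * u ^ a = Real.Gamma (a + 1) := by
  rw [Real.Gamma_eq_integral (by linarith)]; simp

/-- the majorant of a weighted integrand -/
lemma maj {a p q c d : ℝ} {G : ℝ → ℂ} (h : ∀ u > 0, ‖G u‖ ≤ c * u ^ p + d * u ^ q) {u : ℝ}
    (hu : 0 < u) : ‖wt a u * G u‖ ≤
      c * (Real.exp (-u) * u ^ (a + p)) + d * (Real.exp (-u) * u ^ (a + q)) := by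
  rw [norm_mul, norm_wt a hu, Real.rpow_add hu, Real.rpow_add hu]
  have := mul_le_mul_of_nonneg_left (h u hu) (show 0 ≤ Real.exp (-u) * u ^ a by positivity)
  linarith

lemma gen {a p q c d : ℝ} (hp : -1 < a + p) (hq : -1 < a + q) {G : ℝ → ℂ} (hG : Measurable G)
    (h : ∀ u > 0, ‖G u‖ ≤ c * u ^ p + d * u ^ q) :
    IntegrableOn (fun u => wt a u * G u) (Ioi 0) ∧
      ‖∫ u in Ioi (0 : ℝ), wt a u * G u‖ ≤ c * Real.Gamma (a + p + 1) + d * Real.Gamma (a + q + 1) := by
  have hi : Integrable (fun u : ℝ => c * (Real.exp (-u) * u ^ (a + p)) +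
      d * (Real.exp (-u) * u ^ (a + q))) (volume.restrict (Ioi 0)) :=
    ((gint hp).const_mul c).add ((gint hq).const_mul d)
  have hb : ∀ᵐ u ∂volume.restrict (Ioi (0 : ℝ)), ‖wt a u * G u‖ ≤
      c * (Real.exp (-u) * u ^ (a + p)) + d * (Real.exp (-u) * u ^ (a + q)) :=
    (ae_restrict_iff' measurableSet_Ioi).2 (.of_forall fun u hu => maj h hu)
  refine ⟨hi.mono' ((mwt a).mul hG).aestronglyMeasurable hb, ?_⟩
  refine (norm_integral_le_of_norm_le hi hb).trans_eq ?_
  rw [integral_add ((gint hp).const_mul c) ((gint hq).const_mul d), integral_const_mul,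
    integral_const_mul, gval hp, gval hq]

lemma slit {z : ℂ} (hz : z ∈ slitPlane) {u : ℝ} (hu : 0 ≤ u) : (u : ℂ) + 2 * z ∈ slitPlane := by
  rcases hz with h | h
  · left; simp; linarith
  · right; simpa using h

lemma loc {z : ℂ} (hz : z ∈ slitPlane) : ∃ c > 0, ∀ w ∈ Metric.ball z c, w ∈ slitPlane ∧
    ∀ u : ℝ, 0 ≤ u → c ≤ ‖(u : ℂ) + 2 * w‖ := by
  rcases hz with h | h
  · refine ⟨z.re / 2, by positivity, fun w hw => ?_⟩
    have h1 := abs_re_le_norm (w - z)
    rw [Metric.mem_ball, dist_eq_norm] at hw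
    rw [sub_re] at h1
    have h2 := neg_abs_le (w.re - z.re)
    refine ⟨Or.inl (by linarith), fun u hu => le_trans ?_ (re_le_norm _)⟩
    simp; linarith
  · have h0 := abs_pos.2 h
    refine ⟨|z.im| / 2, by positivity, fun w hw => ?_⟩
    have h1 := abs_im_le_norm (w - z)
    rw [Metric.mem_ball, dist_eq_norm] at hw
    rw [sub_im] at h1
    have h2 := abs_sub_abs_le_abs_sub z.im w.im
    rw [abs_sub_comm] at h2
    refine ⟨Or.inr (abs_pos.1 (by linarith)), fun u hu => le_trans ?_ (abs_im_le_norm _)⟩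
    simp [abs_mul]; linarith

lemma bd {z : ℂ} (hz : z ∈ slitPlane) {b : ℝ} (hb : b ≤ 1) : ∃ c > 0, ∃ C, ∀ w ∈ Metric.ball z c,
    w ∈ slitPlane ∧ ∀ u : ℝ, u > 0 → ‖((u : ℂ) + 2 * w) ^ (b : ℂ)‖ ≤ C * u ^ (0 : ℝ) + 1 * u ^ (1 : ℝ) := by
  obtain ⟨c, hc, h⟩ := loc hz
  refine ⟨c, hc, c ^ b + 1 + 2 * (‖z‖ + c), fun w hw => ⟨(h w hw).1, fun u hu => ?_⟩⟩
  rw [norm_cpow_real, Real.rpow_zero, Real.rpow_one]
  have h1 := (h w hw).2 u hu.le
  have h2 : ‖(u : ℂ) + 2 * w‖ ≤ u + 2 * (‖z‖ + c) := by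
    have h3 : ‖w‖ ≤ ‖z‖ + c := by
      have := norm_le_insert' w z
      rw [Metric.mem_ball, dist_eq_norm] at hw
      linarith
    refine (norm_add_le _ _).trans ?_
    rw [norm_mul, norm_real, Real.norm_of_nonneg hu.le]; simp; linarith
  have h4 : 0 < c ^ b := Real.rpow_pos_of_pos hc b
  have h5 := norm_nonneg z
  rcases le_total b 0 with h0 | h0
  · have := Real.rpow_le_rpow_of_nonpos hc h1 h0
    linarith
  · rcases le_total ‖(u : ℂ) + 2 * w‖ 1 with h6 | h6
    · have := Real.rpow_le_one (norm_nonneg _) h6 h0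
      linarith
    · have := Real.rpow_le_rpow_of_exponent_le h6 hb
      rw [Real.rpow_one] at this
      linarith

lemma mG (b : ℝ) (z : ℂ) : Measurable fun u : ℝ => ((u : ℂ) + 2 * z) ^ (b : ℂ) := by fun_prop

lemma fint {a b : ℝ} (ha : -1 < a) (hb : b ≤ 1) {z : ℂ} (hz : z ∈ slitPlane) :
    IntegrableOn (f a b z) (Ioi 0) := by
  obtain ⟨c, hc, C, h⟩ := bd hz hb
  exact (gen (by linarith) (by linarith) (mG b z) (h z (Metric.mem_ball_self hc)).2).1

lemma hasD {a b : ℝ} (ha : -1 < a) (hb : b ≤ 1) {z : ℂ} (hz : z ∈ slitPlane) :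
    HasDerivAt (J a b) (2 * b * J a (b - 1) z) z := by
  obtain ⟨c, hc, C, h⟩ := bd hz (show b - 1 ≤ 1 by linarith)
  have key := hasDerivAt_integral_of_dominated_loc_of_deriv_le (μ := volume.restrict (Ioi (0 : ℝ)))
    (F := fun w u => f a b w u) (F' := fun w u => 2 * b * f a (b - 1) w u) (x₀ := z)
    (bound := fun u => ‖(2 * b : ℂ)‖ * (C * (Real.exp (-u) * u ^ (a + 0)) +
      1 * (Real.exp (-u) * u ^ (a + 1)))) (Metric.ball_mem_nhds z hc)
    (.of_forall fun w => ((mwt a).mul (mG b w)).aestronglyMeasurable) (fint ha hb hz)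
    (((mwt a).mul (mG (b - 1) z)).const_mul _).aestronglyMeasurable
    ((ae_restrict_iff' measurableSet_Ioi).2 (.of_forall fun u hu w hw => by
      rw [norm_mul]
      exact mul_le_mul_of_nonneg_left (maj (h w hw).2 hu) (norm_nonneg _)))
    ((((gint (by linarith)).const_mul C).add ((gint (by linarith)).const_mul 1)).const_mul _)
    ((ae_restrict_iff' measurableSet_Ioi).2 (.of_forall fun u hu w hw => by
      have h1 : HasDerivAt (fun w : ℂ => (u : ℂ) + 2 * w) 2 w := by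
        simpa using ((hasDerivAt_id w).const_mul 2).const_add (u : ℂ)
      have h2 := (h1.cpow_const (c := (b : ℂ)) (slit (h w hw).1 (le_of_lt hu))).const_mul (wt a u)
      refine h2.congr_deriv ?_
      simp only [f]; push_cast; ring))
  have h3 := key.2
  rw [integral_const_mul] at h3
  exact h3

lemma R1 {a b : ℝ} (ha : -1 < a) (hb : b ≤ 1) {z : ℂ} (hz : z ∈ slitPlane) :
    J a (b + 1) z = J (a + 1) b z + 2 * z * J a b z := by
  simp only [J]
  rw [← integral_const_mul, ← integral_add (fint (by linarith) hb hz) ((fint ha hb hz).const_mul _)]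
  refine setIntegral_congr_fun measurableSet_Ioi fun u hu => ?_
  have h0 := slitPlane_ne_zero (slit hz (le_of_lt hu))
  simp only [f, wt]
  rw [Real.rpow_add_one (ne_of_gt hu)]
  push_cast
  rw [cpow_add _ _ h0, cpow_one]; ring

lemma R2 {a b : ℝ} (ha : 0 < a) (hb : b ≤ 1) {z : ℂ} (hz : z ∈ slitPlane) :
    J a b z = a * J (a - 1) b z + b * J a (b - 1) z := by
  have hG : ∀ u : ℝ, 0 ≤ u → HasDerivAt (fun u : ℝ => ((u : ℂ) + 2 * z) ^ (b : ℂ))
      (b * ((u : ℂ) + 2 * z) ^ ((b : ℂ) - 1)) u := fun u hu => by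
    have h1 : HasDerivAt (fun w : ℂ => w + 2 * z) 1 u := (hasDerivAt_id _).add_const _
    simpa using (h1.cpow_const (c := (b : ℂ)) (slit hz hu)).comp_ofReal
  have hD : ∀ u ∈ Ioi (0 : ℝ), HasDerivAt (f a b z)
      (-f a b z u + (a * f (a - 1) b z u + b * f a (b - 1) z u)) u := fun u hu => by
    have h1 : HasDerivAt (fun u : ℝ => Real.exp (-u) * u ^ a)
        (Real.exp (-u) * -1 * u ^ a + Real.exp (-u) * (a * u ^ (a - 1))) u :=
      (hasDerivAt_neg u).exp.mul (Real.hasDerivAt_rpow_const (Or.inl (ne_of_gt hu)))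
    have h2 := h1.ofReal_comp.mul (hG u (le_of_lt hu))
    refine h2.congr_deriv ?_
    simp only [f, wt]; push_cast; ring
  have i1 := fint (by linarith : -1 < a) hb hz
  have i2 := (fint (by linarith : -1 < a - 1) hb hz).const_mul (a : ℂ)
  have i3 := (fint (by linarith : -1 < a) (by linarith : b - 1 ≤ 1) hz).const_mul (b : ℂ)
  have hi : IntegrableOn (fun u => -f a b z u + (a * f (a - 1) b z u + b * f a (b - 1) z u))
      (Ioi 0) := i1.neg.add (i2.add i3)
  have hc : ContinuousWithinAt (f a b z) (Ici 0) 0 := by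
    refine ContinuousAt.continuousWithinAt (ContinuousAt.mul ?_ (hG 0 le_rfl).continuousAt)
    unfold wt
    refine continuous_ofReal.continuousAt.comp (ContinuousAt.mul (by fun_prop) ?_)
    exact Real.continuousAt_rpow_const _ _ (Or.inr ha.le)
  have h := integral_Ioi_of_hasDerivAt_of_tendsto hc hD hi
    (tendsto_zero_of_hasDerivAt_of_integrableOn_Ioi hD hi i1)
  have i4 : Integrable (fun u => -f a b z u) (volume.restrict (Ioi 0)) := i1.neg
  have i5 : Integrable (fun u => a * f (a - 1) b z u + b * f a (b - 1) z u)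
      (volume.restrict (Ioi 0)) := i2.add i3
  rw [integral_add i4 i5, integral_add i2 i3, integral_neg, integral_const_mul,
    integral_const_mul] at h
  have h0 : f a b z 0 = 0 := by simp [f, wt, Real.zero_rpow ha.ne']
  rw [h0] at h
  simp only [J]; linear_combination -h

lemma E1 {z : ℂ} (hz : z ∈ slitPlane) :
    J (1 / 2) (1 / 2) z = J (1 / 2) (-(1 / 2)) z + z * J (-(1 / 2)) (-(1 / 2)) z := by
  have h1 := R2 (a := 1 / 2) (b := 1 / 2) (by norm_num) (by norm_num) hz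
  have h2 := R1 (a := -(1 / 2)) (b := -(1 / 2)) (by norm_num) (by norm_num) hz
  norm_num at h1 h2 ⊢
  linear_combination h1 + h2 / 2

lemma E2 {z : ℂ} (hz : z ∈ slitPlane) :
    J (1 / 2) (-(1 / 2)) z = z * J (-(1 / 2)) (-(3 / 2)) z := by
  have h1 := R2 (a := 1 / 2) (b := -(1 / 2)) (by norm_num) (by norm_num) hz
  have h2 := R1 (a := -(1 / 2)) (b := -(3 / 2)) (by norm_num) (by norm_num) hz
  norm_num at h1 h2 ⊢
  linear_combination h1 + h2 / 2

lemma hK {z : ℂ} (hz : z ∈ slitPlane) : HasDerivAt K0 (-(L1 z / z)) z := by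
  have h := (hasDerivAt_neg z).cexp.mul
    (hasD (a := -(1 / 2)) (b := -(1 / 2)) (by norm_num) (by norm_num) hz)
  have h0 := slitPlane_ne_zero hz
  rw [show K0 = _ from funext K0_eq]
  refine h.congr_deriv ?_
  rw [L1_eq, E1 hz, E2 hz]
  norm_num
  field_simp
  ring

lemma hL {z : ℂ} (hz : z ∈ slitPlane) : HasDerivAt L1 (-(z * K0 z)) z := by
  have h := (hasDerivAt_neg z).cexp.mul
    (hasD (a := 1 / 2) (b := 1 / 2) (by norm_num) (by norm_num) hz)
  rw [show L1 = _ from funext L1_eq]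
  refine h.congr_deriv ?_
  rw [K0_eq, E1 hz]
  norm_num
  ring

lemma mJ (a b : ℝ) : Measurable (J a b) := by
  have h : Measurable (Function.uncurry (f a b)) := by
    unfold Function.uncurry f wt; fun_prop
  exact (h.stronglyMeasurable.integral_prod_right (ν := volume.restrict (Ioi (0 : ℝ)))).measurable

lemma J0 : J (1 / 2) (1 / 2) 0 = 1 := by
  have h : J (1 / 2) (1 / 2) 0 = ∫ u in Ioi (0 : ℝ), ((Real.exp (-u) * u ^ (1 : ℝ) : ℝ) : ℂ) := by
    refine setIntegral_congr_fun measurableSet_Ioi fun u hu => ?_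
    simp only [f, wt]
    rw [mul_zero, add_zero, ← ofReal_cpow (le_of_lt hu), ← ofReal_mul, mul_assoc,
      ← Real.rpow_add hu]
    norm_num
  rw [h, integral_complex_ofReal, gval (by norm_num), Real.Gamma_add_one one_ne_zero]
  simp

lemma Jpos {a b : ℝ} (ha : -1 < a) (hb : b ≤ 1) {x : ℝ} (hx : 0 < x) :
    ∃ r : ℝ, 0 < r ∧ J a b x = r := by
  have e : ∀ u ∈ Ioi (0 : ℝ), f a b x u = ((Real.exp (-u) * u ^ a * (u + 2 * x) ^ b : ℝ) : ℂ) :=
    fun u hu => by
      have : 0 < u := hu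
      rw [ofReal_mul, ofReal_cpow (by positivity)]; simp [f, wt]
  have hi := (fint ha hb (z := x) (Or.inl (by simpa using hx))).congr_fun e measurableSet_Ioi
  refine ⟨∫ u in Ioi (0 : ℝ), Real.exp (-u) * u ^ a * (u + 2 * x) ^ b, ?_, ?_⟩
  · have hp : ∀ u ∈ Ioi (0 : ℝ), 0 < Real.exp (-u) * u ^ a * (u + 2 * x) ^ b := fun u hu => by
      have : 0 < u := hu
      positivity
    rw [setIntegral_pos_iff_support_of_nonneg_ae
      ((ae_restrict_iff' measurableSet_Ioi).2 (.of_forall fun u hu => (hp u hu).le))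
      hi.re]
    rw [inter_eq_right.2 fun u hu => Function.mem_support.2 (hp u hu).ne']
    simp
  · rw [← integral_complex_ofReal]
    exact setIntegral_congr_fun measurableSet_Ioi e

end A1

open A1 in
theorem st_a1 : St_A1 := by
  refine ⟨fun z hz => ⟨hK hz, hL hz⟩, ?_, ?_, by rw [L1_eq, J0]; simp, fun x hx => ?_⟩
  · rw [show K0 = _ from funext K0_eq]
    exact (measurable_exp.comp measurable_neg).mul (mJ _ _)
  · rw [show L1 = _ from funext L1_eq]
    exact (measurable_exp.comp measurable_neg).mul (mJ _ _)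
  · obtain ⟨r, hr, e⟩ := Jpos (a := -(1 / 2)) (b := -(1 / 2)) (by norm_num) (by norm_num) hx
    obtain ⟨r', hr', e'⟩ := Jpos (a := 1 / 2) (b := 1 / 2) (by norm_num) (by norm_num) hx
    have h1 : K0 x = (Real.exp (-x) * r : ℝ) := by rw [K0_eq, e]; push_cast; rfl
    have h2 : L1 x = (Real.exp (-x) * r' : ℝ) := by rw [L1_eq, e']; push_cast; rfl
    simp only [k0, l1, h1, h2, ofReal_re]
    exact ⟨trivial, trivial, by positivity, by positivity⟩

end Pool.Agent.Lib.IS2
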