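import Pool.Agent.Lib.IS2.B_A1

/-! Block A2: bounds and first order asymptotics of the two Bessel kernels on the sector. -/

open scoped ContDiff ComplexConjugate Topology Real
open Complex MeasureTheory Set Filter

noncomputable section

namespace Pool.Agent.Lib.IS2

open Pool.Agent.Lib.ISO

namespace A2

open A1

lemma sslit {z : ℂ} (h : Sec z) : z ∈ slitPlane := by
  by_contra hc
  rw [mem_slitPlane_iff, not_or, not_lt, not_not] at hc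
  have h1 : ‖z‖ = |z.re| := by rw [← re_add_im z, hc.2]; simp
  have h2 := h.2
  have h3 := norm_pos_iff.2 h.1
  rw [abs_of_nonpos hc.1] at h1
  linarith

lemma low {z : ℂ} (h : Sec z) {u : ℝ} (hu : 0 ≤ u) :
    ‖z‖ ≤ ‖(u : ℂ) + 2 * z‖ ∧ u / 2 ≤ ‖(u : ℂ) + 2 * z‖ := by
  have h1 : ‖(u : ℂ) + 2 * z‖ ^ 2 = u ^ 2 + 4 * u * z.re + 4 * ‖z‖ ^ 2 := by
    rw [Complex.sq_norm, Complex.sq_norm, normSq_apply, normSq_apply]; simp; ring
  have h2 := mul_le_mul_of_nonneg_left h.2 hu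
  exact ⟨le_of_sq_le_sq (by nlinarith [sq_nonneg (u - ‖z‖), sq_nonneg ‖z‖]) (norm_nonneg _),
    le_of_sq_le_sq (by nlinarith [sq_nonneg (u - 2 * ‖z‖), sq_nonneg u]) (norm_nonneg _)⟩

lemma pw1 {r : ℝ} (hr : 0 ≤ r) : r ^ (-(1 / 2) : ℝ) = (√r)⁻¹ := by
  rw [Real.rpow_neg hr, Real.sqrt_eq_rpow]
lemma pw3 {r : ℝ} (hr : 0 < r) : r ^ (-(1 / 2) - 1 : ℝ) = (r * √r)⁻¹ := by
  rw [Real.rpow_sub_one hr.ne', pw1 hr.le, mul_inv]; ring

lemma c1 : ∃ C, ∀ z, Sec z → ‖J (-(1 / 2)) (-(1 / 2)) z‖ ≤ C * ‖z‖ ^ (-(1 / 4) : ℝ) := by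
  refine ⟨Real.Gamma (-(1 / 2) + -(1 / 4) + 1) / 2 ^ (-(1 / 4) : ℝ), fun z hz => ?_⟩
  have h := (gen (a := -(1 / 2)) (p := -(1 / 4)) (q := 0) (c := ‖z‖ ^ (-(1 / 4) : ℝ) / 2 ^ (-(1 / 4) : ℝ))
    (d := 0) (by norm_num) (by norm_num) (mG (-(1 / 2)) z) fun u hu => by
      have h0 := norm_pos_iff.2 hz.1
      obtain ⟨h1, h2⟩ := low hz hu.le
      have h3 := Real.rpow_le_rpow_of_nonpos h0 h1 (show (-(1 / 4) : ℝ) ≤ 0 by norm_num)
      have h4 := Real.rpow_le_rpow_of_nonpos (by positivity) h2 (show (-(1 / 4) : ℝ) ≤ 0 by norm_num)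
      rw [Real.div_rpow hu.le (by norm_num)] at h4
      rw [norm_cpow_real, show (-(1 / 2) : ℝ) = -(1 / 4) + -(1 / 4) by norm_num,
        Real.rpow_add (h0.trans_le h1)]
      refine (mul_le_mul h3 h4 (by positivity) (by positivity)).trans_eq (by ring)).2
  exact h.trans_eq (by ring)

lemma c2 : ∃ C, ∀ z, Sec z → ‖J (-(1 / 2)) (-(1 / 2)) z‖ ≤ C * (√‖z‖)⁻¹ := by
  refine ⟨Real.Gamma (-(1 / 2) + 0 + 1), fun z hz => ?_⟩
  have h := (gen (a := -(1 / 2)) (p := 0) (q := 0) (c := (√‖z‖)⁻¹)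
    (d := 0) (by norm_num) (by norm_num) (mG (-(1 / 2)) z) fun u hu => by
      have h3 := Real.rpow_le_rpow_of_nonpos (norm_pos_iff.2 hz.1) (low hz hu.le).1
        (show (-(1 / 2) : ℝ) ≤ 0 by norm_num)
      rw [pw1 (norm_nonneg z)] at h3
      rw [norm_cpow_real]; simpa using h3).2
  exact h.trans_eq (by ring)

lemma up (z : ℂ) (u : ℝ) (hu : u > 0) : ‖((u : ℂ) + 2 * z) ^ ((1 / 2 : ℝ) : ℂ)‖ ≤
    2 * √‖z‖ * u ^ (0 : ℝ) + 1 * u ^ (1 / 2 : ℝ) := by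
  rw [norm_cpow_real, ← Real.sqrt_eq_rpow, ← Real.sqrt_eq_rpow, Real.rpow_zero]
  have h1 : ‖(u : ℂ) + 2 * z‖ ≤ u + 2 * ‖z‖ := by
    refine (norm_add_le _ _).trans_eq ?_
    rw [norm_mul, norm_real, Real.norm_of_nonneg hu.le]; simp
  refine Real.sqrt_le_iff.2 ⟨by positivity, h1.trans ?_⟩
  nlinarith [Real.sq_sqrt hu.le, Real.sq_sqrt (norm_nonneg z), norm_nonneg z,
    mul_nonneg (Real.sqrt_nonneg u) (Real.sqrt_nonneg ‖z‖)]

lemma c3 : ∃ C, ∀ z, ‖J (1 / 2) (1 / 2) z‖ ≤ C * (1 + √‖z‖) := by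
  refine ⟨2 * Real.Gamma (1 / 2 + 0 + 1) + Real.Gamma (1 / 2 + 1 / 2 + 1), fun z => ?_⟩
  have h := (gen (a := 1 / 2) (by norm_num) (by norm_num) (mG (1 / 2) z) (up z)).2
  have h1 := Real.Gamma_pos_of_pos (show (0 : ℝ) < 1 / 2 + 0 + 1 by norm_num)
  have h2 := Real.Gamma_pos_of_pos (show (0 : ℝ) < 1 / 2 + 1 / 2 + 1 by norm_num)
  refine h.trans ?_
  nlinarith [mul_nonneg h2.le (Real.sqrt_nonneg ‖z‖)]

lemma asy {a b : ℝ} (ha : -1 < a) (hb : b ≤ 1) {z : ℂ} (hz : Sec z) :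
    ‖J a b z - Real.Gamma (a + 1) * (2 * z) ^ (b : ℂ)‖ ≤
      |b| * Real.Gamma (a + 1 + 1) * ‖z‖ ^ (b - 1) := by
  have hG : ∀ u : ℝ, 0 ≤ u → HasDerivAt (fun u : ℝ => ((u : ℂ) + 2 * z) ^ (b : ℂ))
      (b * ((u : ℂ) + 2 * z) ^ ((b - 1 : ℝ) : ℂ)) u := fun u hu => by
    have h1 : HasDerivAt (fun w : ℂ => w + 2 * z) 1 u := (hasDerivAt_id _).add_const _
    simpa using (h1.cpow_const (c := (b : ℂ)) (slit (sslit hz) hu)).comp_ofReal
  have h := (gen (a := a) (p := 1) (q := 0) (c := |b| * ‖z‖ ^ (b - 1)) (d := 0) (by linarith)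
    (by linarith) ((mG b z).sub_const ((2 * z) ^ (b : ℂ))) fun u hu => by
      have h1 := norm_image_sub_le_of_norm_deriv_right_le_segment (a := 0) (b := u)
        (C := |b| * ‖z‖ ^ (b - 1)) (fun t ht => (hG t ht.1).continuousAt.continuousWithinAt)
        (fun t ht => (hG t ht.1).hasDerivWithinAt) (fun t ht => by
          rw [norm_mul, norm_cpow_real, norm_real, Real.norm_eq_abs]
          exact mul_le_mul_of_nonneg_left (Real.rpow_le_rpow_of_nonpos (norm_pos_iff.2 hz.1)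
            (low hz ht.1).1 (by linarith)) (abs_nonneg b)) u ⟨hu.le, le_rfl⟩
      simpa using h1).2
  have i1 : IntegrableOn (fun u : ℝ => wt a u * ((u : ℂ) + 2 * z) ^ (b : ℂ)) (Ioi 0) :=
    fint ha hb (sslit hz)
  have i2 : IntegrableOn (wt a) (Ioi 0) := (gint ha).ofReal
  have e : ∫ u in Ioi (0 : ℝ), wt a u * (((u : ℂ) + 2 * z) ^ (b : ℂ) - (2 * z) ^ (b : ℂ)) =
      J a b z - Real.Gamma (a + 1) * (2 * z) ^ (b : ℂ) := by
    simp only [mul_sub]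
    rw [integral_sub i1 (i2.mul_const _), integral_mul_const, ← gval ha, ← integral_complex_ofReal]
    rfl
  rw [e] at h
  exact h.trans_eq (by ring)

lemma c4 : ∃ C, ∀ z, Sec z → ‖J (-(1 / 2)) (-(1 / 2)) z - √π * (2 * z) ^ (-(1 / 2) : ℂ)‖ ≤
    C * (‖z‖ * √‖z‖)⁻¹ := by
  refine ⟨|-(1 / 2)| * Real.Gamma (1 / 2 + 1), fun z hz => ?_⟩
  have h := asy (a := -(1 / 2)) (b := -(1 / 2)) (by norm_num) (by norm_num) hz
  rw [pw3 (norm_pos_iff.2 hz.1), show (-(1 / 2) + 1 : ℝ) = 1 / 2 by norm_num,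
    Real.Gamma_one_half_eq] at h
  push_cast at h
  exact h

lemma c5 : ∃ C, ∀ z, Sec z → ‖J (1 / 2) (1 / 2) z - z * √π * (2 * z) ^ (-(1 / 2) : ℂ)‖ ≤
    C * (√‖z‖)⁻¹ := by
  refine ⟨|1 / 2| * Real.Gamma (1 / 2 + 1 + 1), fun z hz => ?_⟩
  have h := asy (a := 1 / 2) (b := 1 / 2) (by norm_num) (by norm_num) hz
  have h0 : 2 * z ≠ 0 := mul_ne_zero two_ne_zero hz.1
  have e : ((Real.Gamma (1 / 2 + 1) : ℝ) : ℂ) * (2 * z) ^ ((1 / 2 : ℝ) : ℂ) =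
      z * √π * (2 * z) ^ (-(1 / 2) : ℂ) := by
    rw [Real.Gamma_add_one (by norm_num), Real.Gamma_one_half_eq,
      show ((1 / 2 : ℝ) : ℂ) = -(1 / 2) + 1 by norm_num, cpow_add _ _ h0, cpow_one]
    push_cast; ring
  rw [e, show (1 / 2 - 1 : ℝ) = -(1 / 2) by norm_num, pw1 (norm_nonneg z)] at h
  exact h

lemma cont0 : ContinuousAt L1 0 := by
  rw [show L1 = _ from funext L1_eq]
  refine ContinuousAt.mul (by fun_prop) ?_
  refine continuousAt_of_dominated (F := fun w u => f (1 / 2) (1 / 2) w u)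
    (bound := fun u => 2 * (Real.exp (-u) * u ^ (1 / 2 + 0 : ℝ)) +
      1 * (Real.exp (-u) * u ^ (1 / 2 + 1 / 2 : ℝ)))
    (.of_forall fun w => ((mwt _).mul (mG _ w)).aestronglyMeasurable) ?_
    (((gint (by norm_num)).const_mul 2).add ((gint (by norm_num)).const_mul 1)) ?_
  · filter_upwards [Metric.ball_mem_nhds (0 : ℂ) one_pos] with w hw
    refine (ae_restrict_iff' measurableSet_Ioi).2 (.of_forall fun u hu =>
      maj (G := fun u : ℝ => ((u : ℂ) + 2 * w) ^ ((1 / 2 : ℝ) : ℂ)) (fun u hu => ?_) hu)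
    have h1 : √‖w‖ ≤ 1 := Real.sqrt_le_one.2 (mem_ball_zero_iff.1 hw).le
    refine (up w u hu).trans ?_
    rw [Real.rpow_zero]; linarith
  · refine (ae_restrict_iff' measurableSet_Ioi).2 (.of_forall fun u hu => ?_)
    refine continuousAt_const.mul (ContinuousAt.cpow (by fun_prop) continuousAt_const ?_)
    left; simpa using hu

lemma c6 : ∃ C, ∀ z, Sec z → ‖z‖ ≤ 1 → ‖L1 z - 1‖ ≤ C * (‖z‖ * √‖z‖) := by
  obtain ⟨C, hC⟩ := c2
  refine ⟨|C| * Real.exp 1, fun z hz h1 => ?_⟩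
  have hs : ∀ s ∈ Ico (0 : ℝ) 1, Sec (((1 - s : ℝ) : ℂ) * z) ∧ ‖((1 - s : ℝ) : ℂ) * z‖ ≤ ‖z‖ :=
    fun s hs => by
      have h2 : 0 < 1 - s := by linarith [hs.2]
      have h3 : ‖((1 - s : ℝ) : ℂ) * z‖ = (1 - s) * ‖z‖ := by
        rw [norm_mul, norm_real, Real.norm_of_nonneg h2.le]
      refine ⟨⟨mul_ne_zero (ofReal_ne_zero.2 h2.ne') hz.1, ?_⟩, ?_⟩
      · rw [h3, re_ofReal_mul]
        nlinarith [mul_le_mul_of_nonneg_left hz.2 h2.le]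
      · rw [h3]; nlinarith [mul_nonneg hs.1 (norm_nonneg z)]
  have hD : ∀ s ∈ Ico (0 : ℝ) 1, HasDerivAt (fun s : ℝ => L1 (((1 - s : ℝ) : ℂ) * z))
      (((1 - s : ℝ) : ℂ) * z * K0 (((1 - s : ℝ) : ℂ) * z) * z) s := fun s h => by
    have h2 : HasDerivAt (fun w : ℂ => (1 - w) * z) (-z) s := by
      simpa using ((hasDerivAt_id (s : ℂ)).const_sub 1).mul_const z
    have h3 := hL (sslit (hs s h).1)
    push_cast at h3 ⊢
    refine ((h3.comp (s : ℂ) h2).comp_ofReal).congr_deriv ?_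
    ring
  have h := norm_image_sub_le_of_norm_deriv_right_le_segment (a := 0) (b := 1)
    (C := |C| * Real.exp 1 * (‖z‖ * √‖z‖)) (f := fun s : ℝ => L1 (((1 - s : ℝ) : ℂ) * z))
    (fun s h => by
      rcases h.2.eq_or_lt with rfl | h'
      · refine ContinuousAt.continuousWithinAt (ContinuousAt.comp_of_eq cont0 (by fun_prop) ?_)
        simp
      · exact (hD s ⟨h.1, h'⟩).continuousAt.continuousWithinAt)
    (fun s h => (hD s h).hasDerivWithinAt) (fun s h => by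
      obtain ⟨h2, h3⟩ := hs s h
      generalize ((1 - s : ℝ) : ℂ) * z = w at h2 h3
      have h4 := (hC w h2).trans (mul_le_mul_of_nonneg_right (le_abs_self C) (by positivity))
      have h5 : ‖exp (-w)‖ ≤ Real.exp 1 :=
        (norm_exp_le_exp_norm _).trans (Real.exp_le_exp.2 (by rw [norm_neg]; linarith))
      have h6 := Real.sqrt_le_sqrt h3
      have h7 : 0 < √‖w‖ := Real.sqrt_pos.2 (norm_pos_iff.2 h2.1)
      have h8 : ‖w‖ * (√‖w‖)⁻¹ = √‖w‖ := by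
        field_simp; exact (Real.sq_sqrt (norm_nonneg w)).symm
      rw [K0_eq, norm_mul, norm_mul, norm_mul]
      calc _ ≤ ‖w‖ * (Real.exp 1 * (|C| * (√‖w‖)⁻¹)) * ‖z‖ := by gcongr
        _ = |C| * Real.exp 1 * (‖z‖ * (‖w‖ * (√‖w‖)⁻¹)) := by ring
        _ ≤ _ := by rw [h8]; gcongr) 1 ⟨zero_le_one, le_rfl⟩
  rw [norm_sub_rev]
  simpa [st_a1.2.2.2.1] using h

lemma fin {x : ℂ} {C D g : ℝ} (e : ℂ) (h : ‖x‖ ≤ C * g) (hg : 0 ≤ g) (hC : C ≤ D) :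
    ‖e * x‖ ≤ D * g * ‖e‖ := by
  rw [norm_mul, mul_comm]
  exact mul_le_mul_of_nonneg_right (h.trans (mul_le_mul_of_nonneg_right hC hg)) (norm_nonneg e)

end A2

open A1 A2 in
theorem st_a2 : St_A2 := by
  obtain ⟨C1, h1⟩ := c1
  obtain ⟨C2, h2⟩ := c2
  obtain ⟨C3, h3⟩ := c3
  obtain ⟨C4, h4⟩ := c4
  obtain ⟨C5, h5⟩ := c5
  obtain ⟨C6, h6⟩ := c6
  refine ⟨max (max (max C1 C2) (max C3 C4)) (max C5 C6), fun z hz => ?_⟩
  refine ⟨?_, ?_, ?_, ?_, ?_, fun h => (h6 z hz h).trans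
    (mul_le_mul_of_nonneg_right (by simp) (by positivity))⟩
  · rw [K0_eq]; exact fin _ (h1 z hz) (by positivity) (by simp)
  · rw [K0_eq]; exact fin _ (h2 z hz) (by positivity) (by simp)
  · rw [L1_eq]; exact fin _ (h3 z) (by positivity) (by simp)
  · rw [K0_eq, ← mul_sub]; exact fin _ (h4 z hz) (by positivity) (by simp)
  · rw [L1_eq, ← mul_sub]; exact fin _ (h5 z hz) (by positivity) (by simp)

end Pool.Agent.Lib.IS2
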