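import Pool.Agent.Lib.IS2.Blue

/-! Block A3: the Bessel kernels on the real half line. -/

open scoped ContDiff Topology
open Complex MeasureTheory Set Filter

noncomputable section

namespace Pool.Agent.Lib.IS2

namespace A3

lemma sm {f : ℂ → ℂ} (h : ∀ z ∈ slitPlane, DifferentiableAt ℂ f z) :
    ContDiffOn ℝ ∞ (fun x : ℝ => (f x).re) (Ioi 0) := by
  have h1 : ContDiffOn ℂ ∞ f slitPlane :=
    DifferentiableOn.contDiffOn (fun z hz => (h z hz).differentiableWithinAt) isOpen_slitPlane
  exact reCLM.contDiff.comp_contDiffOn ((h1.restrict_scalars ℝ).comp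
    ofRealCLM.contDiff.contDiffOn fun x hx => ofReal_mem_slitPlane.2 hx)

lemma k00 : K0 0 = 0 := by
  rw [K0, integral_undef, mul_zero]
  intro h
  have h1 : IntegrableOn (fun u : ℝ => u ^ (-1 : ℝ)) (Ioo 0 1) := by
    refine Integrable.mono' ((h.mono_measure (Measure.restrict_mono Ioo_subset_Ioi_self le_rfl)
      ).norm.const_mul (Real.exp 1)) (by fun_prop) ?_
    filter_upwards [ae_restrict_mem measurableSet_Ioo] with u hu
    have u0 := hu.1
    have e : (u : ℂ) ^ (-(1 / 2) : ℂ) = (u ^ (-(1 / 2) : ℝ) : ℝ) := by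
      rw [ofReal_cpow u0.le]; push_cast; rfl
    rw [mul_zero, add_zero, e, ← ofReal_mul, norm_real, Real.norm_of_nonneg (by positivity),
      Real.norm_of_nonneg (by positivity), mul_assoc, ← Real.rpow_add u0, ← mul_assoc,
      ← Real.exp_add]
    norm_num
    exact le_mul_of_one_le_left (by positivity) (Real.one_le_exp (by linarith [hu.2]))
  exact lt_irrefl _ ((intervalIntegral.integrableOn_Ioo_rpow_iff one_pos).1 h1)

end A3

open A3 in
theorem st_a3 (h1 : St_A1) (h2 : St_A2) : St_A3 := by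
  obtain ⟨hd, m0, m1, l0, hr⟩ := h1
  obtain ⟨C, hC⟩ := h2
  have s0 : ContDiffOn ℝ ∞ k0 (Ioi 0) := sm fun z hz => (hd z hz).1.differentiableAt
  have s1 : ContDiffOn ℝ ∞ l1 (Ioi 0) := sm fun z hz => (hd z hz).2.differentiableAt
  have d0 : ∀ x > 0, HasDerivAt k0 (-(l1 x / x)) x := fun x hx => by
    have := (hd x (ofReal_mem_slitPlane.2 hx)).1.real_of_complex
    rwa [(hr x hx).2.1, ← ofReal_div, ← ofReal_neg, ofReal_re] at this
  have d1 : ∀ x > 0, HasDerivAt l1 (-(x * k0 x)) x := fun x hx => by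
    have := (hd x (ofReal_mem_slitPlane.2 hx)).2.real_of_complex
    rwa [(hr x hx).1, ← ofReal_mul, ← ofReal_neg, ofReal_re] at this
  have sec : ∀ x : ℝ, 0 < x → Sec x := fun x hx =>
    ⟨ofReal_ne_zero.2 hx.ne', by rw [ofReal_re]; linarith [norm_nonneg (x : ℂ)]⟩
  have nx : ∀ x : ℝ, 0 < x → ‖(x : ℂ)‖ = x := fun x hx => by rw [norm_real, Real.norm_of_nonneg hx.le]
  have l00 : l1 0 = 1 := by simp [l1, l0]
  have b1 : ∀ x > 0, x ≤ 1 → |l1 x - 1| ≤ |C| * (x * √x) := fun x hx h => by
    have := (hC x (sec x hx)).2.2.2.2.2 (by rwa [nx x hx])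
    rw [nx x hx, (hr x hx).2.1, ← ofReal_one, ← ofReal_sub, norm_real, Real.norm_eq_abs] at this
    exact this.trans (mul_le_mul_of_nonneg_right (le_abs_self C) (by positivity))
  have c1 : ContinuousOn l1 (Ici 0) := fun x hx => by
    rcases (mem_Ici.1 hx).eq_or_lt with rfl | hx
    · rw [← continuousWithinAt_Ioi_iff_Ici, ContinuousWithinAt, l00, tendsto_iff_norm_sub_tendsto_zero]
      have t : Tendsto (fun x : ℝ => |C| * (x * √x)) (𝓝[>] 0) (𝓝 0) := by
        have : Continuous fun x : ℝ => |C| * (x * √x) := by fun_prop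
        simpa using (this.tendsto 0).mono_left nhdsWithin_le_nhds
      refine squeeze_zero' (Eventually.of_forall fun _ => norm_nonneg _) ?_ t
      filter_upwards [Ioc_mem_nhdsGT one_pos] with x hx using b1 x hx.1 hx.2
    · exact (d1 x hx).continuousAt.continuousWithinAt
  have le1 : ∀ x > 0, l1 x ≤ 1 := fun x hx => l00 ▸ antitoneOn_of_deriv_nonpos (convex_Ici 0) c1
    (fun y hy => (d1 y (by simpa using hy)).differentiableAt.differentiableWithinAt)
    (fun y hy => by
      have hy : 0 < y := by simpa using hy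
      rw [(d1 y hy).deriv]
      exact neg_nonpos.2 (mul_pos hy (hr y hy).2.2.1).le) self_mem_Ici hx.le hx.le
  have b2 : ∀ x > 0, |l1 x - 1| ≤ (|C| + 1) * (x * √x) := fun x hx => by
    have p : 0 ≤ x * √x := by positivity
    rcases le_total x 1 with h | h
    · nlinarith [b1 x hx h]
    · have : 1 ≤ x * √x := one_le_mul_of_one_le_of_one_le h (Real.one_le_sqrt.2 h)
      rw [abs_le]
      constructor <;> nlinarith [le1 x hx, (hr x hx).2.2.2, abs_nonneg C]
  let f : ℝ → ℝ := fun x => k0 x + Real.log x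
  have df : ∀ x > 0, HasDerivAt f ((1 - l1 x) / x) x := fun x hx =>
    ((d0 x hx).add (Real.hasDerivAt_log hx.ne')).congr_deriv (by field_simp; ring)
  have mv : ∀ y > 0, ∀ x, y ≤ x → f y ≤ f x ∧ f x - f y ≤ (|C| + 1) * (x * √x) := fun y hy x h => by
    have p : ∀ t ∈ Icc y x, 0 < t := fun t ht => hy.trans_le ht.1
    have ct : ContinuousOn f (Icc y x) := fun t ht => (df t (p t ht)).continuousAt.continuousWithinAt
    have dt : DifferentiableOn ℝ f (interior (Icc y x)) := fun t ht =>
      (df t (p t (interior_subset ht))).differentiableAt.differentiableWithinAt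
    have a := (convex_Icc y x).mul_sub_le_image_sub_of_le_deriv ct dt (C := 0) (fun t ht => by
      have t0 := p t (interior_subset ht)
      rw [(df t t0).deriv]
      exact div_nonneg (sub_nonneg.2 (le1 t t0)) t0.le) y (left_mem_Icc.2 h) x (right_mem_Icc.2 h) h
    have b := (convex_Icc y x).image_sub_le_mul_sub_of_deriv_le ct dt (C := (|C| + 1) * √x)
      (fun t ht => by
        have ht := interior_subset ht
        have t0 := p t ht
        rw [(df t t0).deriv, div_le_iff₀ t0]
        have := mul_le_mul_of_nonneg_left (Real.sqrt_le_sqrt ht.2)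
          (show 0 ≤ (|C| + 1) * t by positivity)
        linarith [(abs_le.1 (b2 t t0)).1]) y (left_mem_Icc.2 h) x (right_mem_Icc.2 h) h
    have : 0 ≤ (|C| + 1) * √x * y := by positivity
    exact ⟨by linarith, by linarith⟩
  have lo : ∀ x > 0, ∀ y > 0, f x - (|C| + 1) * (x * √x) ≤ f y := fun x hx y hy => by
    rcases le_total y x with h | h
    · linarith [(mv y hy x h).2]
    · have : 0 ≤ (|C| + 1) * (x * √x) := by positivity
      linarith [(mv x hx y h).1]
  refine ⟨s0, s1, c1, by simp [k0, k00], l00, measurable_re.comp (m0.comp measurable_ofReal),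
    measurable_re.comp (m1.comp measurable_ofReal),
    fun x hx => ⟨d0 x hx, d1 x hx, (hr x hx).2.2.1, (hr x hx).2.2.2, le1 x hx⟩,
    |C| + 1, sInf (f '' Ioi 0), fun x hx => ⟨?_, b2 x hx, fun _ => ?_⟩⟩
  · have := (hC x (sec x hx)).1
    rw [nx x hx, (hr x hx).1, norm_real, norm_exp, neg_re, ofReal_re] at this
    refine ((le_abs_self _).trans this).trans ?_
    gcongr
    linarith [le_abs_self C]
  · have a : sInf (f '' Ioi 0) ≤ f x :=
      csInf_le ⟨_, forall_mem_image.2 fun y hy => lo 1 one_pos y hy⟩ ⟨x, hx, rfl⟩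
    have b : f x - (|C| + 1) * (x * √x) ≤ sInf (f '' Ioi 0) :=
      le_csInf ⟨_, x, hx, rfl⟩ (forall_mem_image.2 fun y hy => lo x hx y hy)
    have : 0 ≤ (|C| + 1) * (x * √x) := by positivity
    exact abs_le.2 ⟨by linarith, by linarith⟩

end Pool.Agent.Lib.IS2
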