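import Pool.Agent.Lib.IS2.Defs

/-! Elementary facts on the distance on the circle and on the `C²` norm. -/

open scoped ContDiff ComplexConjugate Topology Real
open Complex MeasureTheory Set Filter

noncomputable section

namespace Pool.Agent.Lib.IS2

open Pool.Agent.Lib.ISO

lemma dc_nonneg (s t : ℝ) : 0 ≤ dc s t := norm_nonneg _
lemma dc_self (s : ℝ) : dc s s = 0 := by simp [dc]
lemma dc_comm (s t : ℝ) : dc s t = dc t s := by
  rw [dc, dc, ← norm_neg, ← AddCircle.coe_neg, neg_sub]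
lemma dc_triangle (s t u : ℝ) : dc s u ≤ dc s t + dc t u := by
  rw [dc, dc, dc, show s - u = (s - t) + (t - u) by ring, AddCircle.coe_add]
  exact norm_add_le _ _
lemma dc_le_abs (s t : ℝ) : dc s t ≤ |s - t| := QuotientAddGroup.norm_mk_le_norm
lemma dc_le_pi (s t : ℝ) : dc s t ≤ π := by
  have := AddCircle.norm_le_half_period (2 * π) (x := ((s - t : ℝ) : AddCircle (2 * π)))
    Real.two_pi_pos.ne'
  rw [abs_of_pos Real.two_pi_pos] at this
  exact this.trans_eq (by ring)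
lemma dc_add_left (s t : ℝ) (k : ℤ) : dc (s + k * (2 * π)) t = dc s t := by
  have : (((k : ℝ) * (2 * π) : ℝ) : AddCircle (2 * π)) = 0 :=
    (AddCircle.coe_eq_zero_iff _).2 ⟨k, by simp⟩
  rw [dc, dc, show s + k * (2 * π) - t = s - t + k * (2 * π) by ring, AddCircle.coe_add, this, add_zero]
lemma dc_add_right (s t : ℝ) (k : ℤ) : dc s (t + k * (2 * π)) = dc s t := by
  rw [dc_comm, dc_add_left, dc_comm]
lemma exists_dc (s t : ℝ) : ∃ k : ℤ, |s - (t + k * (2 * π))| = dc s t :=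
  ⟨round ((2 * π)⁻¹ * (s - t)), by rw [dc, AddCircle.norm_eq]; congr 1; ring⟩
lemma dc_eq_abs {s t : ℝ} (h : |s - t| ≤ π) : dc s t = |s - t| :=
  (AddCircle.norm_coe_eq_abs_iff _ Real.two_pi_pos.ne').2 (by
    rw [abs_of_pos Real.two_pi_pos]; linarith)
lemma continuous_dc : Continuous fun p : ℝ × ℝ => dc p.1 p.2 :=
  ((AddCircle.continuous_mk' _).comp (continuous_fst.sub continuous_snd)).norm
lemma dc_eq_zero {s t : ℝ} (h : dc s t = 0) : ∃ k : ℤ, s = t + k * (2 * π) := by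
  obtain ⟨k, hk⟩ := exists_dc s t
  exact ⟨k, sub_eq_zero.1 (abs_eq_zero.1 (hk.trans h))⟩

namespace Nc

variable {j : ℝ} {γ : ℝ → ℂ} (h : Nc j γ)
include h

lemma pos : 0 < j := one_pos.trans_le h.one_le
lemma hd (s : ℝ) : HasDerivAt γ (deriv γ s) s := (h.smooth.differentiable (by simp) s).hasDerivAt
lemma s1 : ContDiff ℝ ∞ (deriv γ) := (contDiff_infty_iff_deriv.1 h.smooth).2
lemma hd1 (s : ℝ) : HasDerivAt (deriv γ) (deriv (deriv γ) s) s :=
  (h.s1.differentiable (by simp) s).hasDerivAt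
lemma b2 (s : ℝ) : ‖deriv (deriv γ) s‖ ≤ j := by
  have := h.bd 2 (by norm_num) (by norm_num) s
  rwa [iteratedDeriv_succ, iteratedDeriv_one] at this
lemma bk (s : ℝ) : |kp γ s| ≤ j := by simpa using h.kb 0 (by norm_num) s
lemma inj {s t : ℝ} (e : γ s = γ t) : ∃ k : ℤ, t = s + k * (2 * π) :=
  dc_eq_zero (le_antisymm (by simpa [e] using h.arc t s) (dc_nonneg _ _))
lemma c0_le_abs (s t : ℝ) : c0 γ s t ≤ |s - t| := by
  simpa [c0] using (convex_univ (𝕜 := ℝ) (E := ℝ)).norm_image_sub_le_of_norm_deriv_le (C := 1)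
    (fun x _ => (h.hd x).differentiableAt) (fun x _ => (h.unit x).le) (mem_univ t) (mem_univ s)
lemma c0_le (s t : ℝ) : c0 γ s t ≤ dc s t := by
  obtain ⟨k, hk⟩ := exists_dc s t
  have := h.c0_le_abs s (t + k * (2 * π))
  rwa [hk, c0, h.per.int_mul k t] at this
lemma abs_le_two {s t : ℝ} (hd : |s - t| ≤ j⁻¹) : |s - t| ≤ 2 * c0 γ s t := by
  have h1 : ∀ x, ‖deriv γ x - deriv γ t‖ ≤ j * |x - t| := fun x => by
    simpa using (convex_univ (𝕜 := ℝ) (E := ℝ)).norm_image_sub_le_of_norm_deriv_le (C := j)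
      (fun x _ => (h.hd1 x).differentiableAt) (fun x _ => h.b2 x) (mem_univ t) (mem_univ x)
  have h2 : γ s - γ t - (s - t : ℝ) * deriv γ t = ∫ x in t..s, (deriv γ x - deriv γ t) := by
    rw [intervalIntegral.integral_sub (h.s1.continuous.intervalIntegrable _ _)
      intervalIntegrable_const, intervalIntegral.integral_eq_sub_of_hasDerivAt (fun x _ => h.hd x)
      (h.s1.continuous.intervalIntegrable _ _)]
    simp
  have h3 : ‖∫ x in t..s, (deriv γ x - deriv γ t)‖ ≤ j * (s - t) ^ 2 / 2 := by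
    refine (intervalIntegral.norm_integral_le_abs_of_norm_le (g := fun x => j * |x - t|)
      (Eventually.of_forall h1) ((by fun_prop : Continuous fun x => j * |x - t|).intervalIntegrable _ _)).trans_eq ?_
    rw [intervalIntegral.integral_const_mul, intervalIntegral.integral_comp_sub_right (fun x => |x|),
      sub_self, abs_mul, abs_of_pos h.pos, mul_div_assoc]
    congr 1
    rcases le_total 0 (s - t) with a | a
    · rw [intervalIntegral.integral_congr (g := fun x => x) fun x hx => abs_of_nonneg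
        (by rw [uIcc_of_le a] at hx; exact hx.1), integral_id, abs_of_nonneg (by nlinarith)]
      ring
    · rw [intervalIntegral.integral_congr (g := fun x => -x) fun x hx => abs_of_nonpos
        (by rw [uIcc_of_ge a] at hx; exact hx.2), intervalIntegral.integral_neg, integral_id, abs_neg,
        abs_of_nonneg (by nlinarith)]
      ring
  have h4 : |s - t| ≤ c0 γ s t + j * (s - t) ^ 2 / 2 := by
    have : ‖((s - t : ℝ) : ℂ) * deriv γ t‖ = |s - t| := by
      rw [norm_mul, h.unit, norm_real, Real.norm_eq_abs, mul_one]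
    rw [← this, show ((s - t : ℝ) : ℂ) * deriv γ t = (γ s - γ t) -
      (γ s - γ t - (s - t : ℝ) * deriv γ t) by ring]
    exact (norm_sub_le _ _).trans (add_le_add le_rfl (h2 ▸ h3))
  have h5 : j * |s - t| ≤ 1 := by
    have := mul_le_mul_of_nonneg_left hd h.pos.le
    rwa [mul_inv_cancel₀ h.pos.ne'] at this
  rw [← sq_abs] at h4
  nlinarith [abs_nonneg (s - t)]
lemma dc_le_two {s t : ℝ} (hd : dc s t ≤ j⁻¹) : dc s t ≤ 2 * c0 γ s t := by
  obtain ⟨k, hk⟩ := exists_dc s t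
  have := h.abs_le_two (hk.trans_le hd)
  rwa [hk, c0, h.per.int_mul k t] at this

end Nc

lemma per_deriv' {E : Type} [NormedAddCommGroup E] [NormedSpace ℝ E] {f : ℝ → E} {L : ℝ}
    (h : Function.Periodic f L) : Function.Periodic (deriv f) L := fun s => by
  rw [← deriv_comp_add_const, funext h]

lemma hasDerivAt_cp {γ : ℝ → ℂ} {s : ℝ} {v : ℂ} (h : HasDerivAt γ v s) :
    HasDerivAt (cp γ) (v, conj v) s := h.prodMk (conjCLE.hasFDerivAt.comp_hasDerivAt s h)
lemma deriv_cp {γ : ℝ → ℂ} (h : Differentiable ℝ γ) : deriv (cp γ) = cp (deriv γ) :=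
  funext fun s => (hasDerivAt_cp (h s).hasDerivAt).deriv
lemma norm_cp (γ : ℝ → ℂ) (s : ℝ) : ‖cp γ s‖ = ‖γ s‖ := by simp [cp]
lemma cp_mem {γ : ℝ → ℂ} (h : ContDiff ℝ ∞ γ) (hp : Function.Periodic γ (2 * π)) : cp γ ∈ SP :=
  ⟨h.prodMk (conjCLE.contDiff.comp h), fun s => by simp only [cp, hp s]⟩

lemma SP.s1 {Q : ℝ → C2} (h : Q ∈ SP) : deriv Q ∈ SP :=
  ⟨(contDiff_infty_iff_deriv.1 h.1).2, per_deriv' h.2⟩
lemma SP.diff {Q : ℝ → C2} (h : Q ∈ SP) : Differentiable ℝ Q := h.1.differentiable (by simp)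

lemma le_nm {Q : ℝ → C2} (h : Q ∈ SP) (s : ℝ) :
    ‖Q s‖ + ‖deriv Q s‖ + ‖deriv (deriv Q) s‖ ≤ nm Q := by
  have h1 := SP.s1 h
  have h2 := SP.s1 h1
  have hp : Function.Periodic (fun s => ‖Q s‖ + ‖deriv Q s‖ + ‖deriv (deriv Q) s‖) (2 * π) :=
    fun s => by simp only [h.2 s, h1.2 s, h2.2 s]
  exact le_ciSup (hp.isBounded_of_continuous Real.two_pi_pos.ne' ((h.1.continuous.norm.add
    h1.1.continuous.norm).add h2.1.continuous.norm)).bddAbove s
lemma nm_le {Q : ℝ → C2} {r : ℝ} (h : ∀ s, ‖Q s‖ + ‖deriv Q s‖ + ‖deriv (deriv Q) s‖ ≤ r) :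
    nm Q ≤ r := ciSup_le h

lemma sn_nm : Sn SP nm where
  nn x hx := le_trans (by positivity) (le_nm hx 0)
  add x hx y hy := nm_le fun s => by
    have e : deriv (x + y) = deriv x + deriv y := funext fun s => deriv_add (SP.diff hx s) (SP.diff hy s)
    rw [e, deriv_add (SP.diff (SP.s1 hx) s) (SP.diff (SP.s1 hy) s)]
    linarith [le_nm hx s, le_nm hy s, norm_add_le (x s) (y s), norm_add_le (deriv x s) (deriv y s),
      norm_add_le (deriv (deriv x) s) (deriv (deriv y) s),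
      show ‖(x + y) s‖ = ‖x s + y s‖ from rfl,
      show ‖(deriv x + deriv y) s‖ = ‖deriv x s + deriv y s‖ from rfl]
  smul c x hx := nm_le fun s => by
    have e : deriv (c • x) = c • deriv x := funext fun s => deriv_const_smul c (SP.diff hx s)
    rw [e, deriv_const_smul c (SP.diff (SP.s1 hx) s)]
    simp only [Pi.smul_apply, norm_smul, ← mul_add]
    exact mul_le_mul_of_nonneg_left (le_nm hx s) (norm_nonneg _)

lemma smul_mem_SP {φ : ℝ → ℝ} (hφ : Per (2 * π) φ) {Q : ℝ → C2} (h : Q ∈ SP) :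
    (fun s => φ s • Q s) ∈ SP := ⟨hφ.smooth.smul h.1, fun s => by simp only [hφ.per s, h.2 s]⟩

lemma nm_smul_le {φ : ℝ → ℝ} (hφ : Per (2 * π) φ) {Q : ℝ → C2} (h : Q ∈ SP) {L : ℝ}
    (h0 : ∀ s, |φ s| ≤ L) (h1 : ∀ s, |deriv φ s| ≤ L) (h2 : ∀ s, |deriv (deriv φ) s| ≤ L) :
    nm (fun s => φ s • Q s) ≤ 4 * L * nm Q := nm_le fun s => by
  have d0 : Differentiable ℝ φ := hφ.smooth.differentiable (by simp)
  have d1 : Differentiable ℝ (deriv φ) :=
    (contDiff_infty_iff_deriv.1 hφ.smooth).2.differentiable (by simp)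
  have q0 := SP.diff h
  have q1 := SP.diff (SP.s1 h)
  have e : deriv (fun s => φ s • Q s) = fun s => φ s • deriv Q s + deriv φ s • Q s :=
    funext fun s => ((d0 s).hasDerivAt.fun_smul (q0 s).hasDerivAt).deriv
  have e2 := (((d0 s).hasDerivAt.fun_smul (q1 s).hasDerivAt).fun_add
    ((d1 s).hasDerivAt.fun_smul (q0 s).hasDerivAt)).deriv
  rw [e, e2]
  have b : ∀ (a : ℝ) (v : C2), |a| ≤ L → ‖a • v‖ ≤ L * ‖v‖ := fun a v ha => by
    rw [norm_smul]; exact mul_le_mul_of_nonneg_right ha (norm_nonneg _)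
  have L0 : 0 ≤ L := (abs_nonneg _).trans (h0 0)
  have n := mul_le_mul_of_nonneg_left (le_nm h s) L0
  have a1 := norm_add_le (φ s • deriv Q s) (deriv φ s • Q s)
  have a2 := norm_add_le (φ s • deriv (deriv Q) s + deriv φ s • deriv Q s)
    (deriv φ s • deriv Q s + deriv (deriv φ) s • Q s)
  have a3 := norm_add_le (φ s • deriv (deriv Q) s) (deriv φ s • deriv Q s)
  have a4 := norm_add_le (deriv φ s • deriv Q s) (deriv (deriv φ) s • Q s)
  nlinarith [b _ (Q s) (h0 s), b _ (Q s) (h1 s), b _ (Q s) (h2 s), b _ (deriv Q s) (h0 s),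
    b _ (deriv Q s) (h1 s), b _ (deriv (deriv Q) s) (h0 s), mul_nonneg L0 (norm_nonneg (Q s)),
    mul_nonneg L0 (norm_nonneg (deriv Q s)), mul_nonneg L0 (norm_nonneg (deriv (deriv Q) s))]

end Pool.Agent.Lib.IS2
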