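import Pool.Agent.Lib.IS2.BlueG
import Pool.Agent.Lib.IS2.Base

/-! The domain with the boundary pushed in is again bounded by one regular curve. -/

open scoped ContDiff ComplexConjugate Topology Real
open Complex MeasureTheory Set Filter

noncomputable section

namespace Pool.Agent.Lib.IS2

open Pool.Agent.Lib.ISO Pool.Agent.Lib.MP_312682_mp

namespace B0

/-- a two sided chart of width `δ` -/
structure Ch (Ω : Set ℂ) (γ : ℝ → ℂ) (φ : ℂ → ℝ) (δ : ℝ) : Prop where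
  g : G1 Ω γ φ
  pos : 0 < δ
  sg : ∀ p : ℂ, |p.im| < δ → (0 < p.im → φ (Phi γ p) < 0) ∧ (p.im < 0 → 0 < φ (Phi γ p))
  ij : ∀ p q : ℂ, |p.im| < δ → |q.im| < δ → Phi γ p = Phi γ q →
    ∃ n : ℤ, q = p + n * (2 * π : ℝ)
  jp : ∀ p : ℂ, |p.im| < δ → 0 < Jf (kap γ) p

lemma exists_ch {Ω : Set ℂ} {γ : ℝ → ℂ} {φ : ℂ → ℝ} (h : G1 Ω γ φ) : ∃ δ, Ch Ω γ φ δ := by
  obtain ⟨a, ha, h1⟩ := Metric.eventually_nhds_iff.1 (Geo.sign h 0)
  obtain ⟨b, hb, h2⟩ := Metric.eventually_nhds_iff.1 (Geo.inj2 h 0 0)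
  obtain ⟨K, hK⟩ := (Geo.cv h 0).exists_kap
  have K1 := hK.one_le
  refine ⟨min (min a b) K⁻¹, h, by positivity, fun p hp => ?_, fun p q hp hq e => ?_, fun p hp => ?_⟩
  · exact h1 (y := p.im) (by
      simpa using hp.trans_le ((min_le_left _ _).trans (min_le_left _ _))) p rfl
  · have db : min (min a b) K⁻¹ ≤ b := (min_le_left _ _).trans (min_le_right _ _)
    exact (h2 (y := (p.im, q.im)) (by
      simp only [dist_zero_right, Prod.norm_mk, Real.norm_eq_abs]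
      exact max_lt (hp.trans_le db) (hq.trans_le db)) p q rfl rfl e).2
  · have a1 : |p.im| < K⁻¹ := hp.trans_le (min_le_right _ _)
    have a2 : K * |p.im| < 1 := by
      have := mul_lt_mul_of_pos_left a1 (one_pos.trans_le K1)
      rwa [mul_inv_cancel₀ (one_pos.trans_le K1).ne'] at this
    have a3 : |kap γ p.re * p.im| ≤ K * |p.im| := by
      rw [abs_mul]; exact mul_le_mul_of_nonneg_right (hK.b0 _) (abs_nonneg _)
    have := le_abs_self (kap γ p.re * p.im)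
    rw [Jf]
    linarith

lemma phi_eq (γ : ℝ → ℂ) (s r : ℝ) : Phi γ (s + r * I) = γ s + r * nr γ s := by simp [Phi, nr]

namespace Ch

variable {Ω : Set ℂ} {γ : ℝ → ℂ} {φ : ℂ → ℝ} {δ : ℝ} (h : Ch Ω γ φ δ)
include h

lemma cv : Cv γ (2 * π) := Geo.cv h.g 0

lemma nh {p : ℂ} (hp : |p.im| < δ) {U : Set ℂ} (hU : U ∈ 𝓝 p) : Phi γ '' U ∈ 𝓝 (Phi γ p) := by
  obtain ⟨g, g1, g2, g3, -⟩ := h.cv.toCv0.local_inv (h.jp p hp).ne'
  filter_upwards [g3, g1.continuousAt.eventually (g2.symm ▸ hU)] with y e1 e2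
  exact ⟨_, e2, e1⟩

variable {η : ℝ} {ρ : ℝ → ℝ} (hη : η < δ) (hρ : Sml η ρ)
include hη hρ

lemma mem_iff {p : ℂ} (hp : |p.im| < δ) : Phi γ p ∈ Sh Ω γ ρ ↔ ρ p.re < p.im := by
  constructor
  · rintro ⟨h1, h2⟩
    have a1 := (Geo.mem h.g).1 h1
    have a2 : 0 ≤ p.im := not_lt.1 fun a => a1.not_gt ((h.sg p hp).2 a)
    exact not_le.1 fun a => h2 ⟨p.re, p.im, a2, a, rfl⟩
  · intro h1
    refine ⟨(Geo.mem h.g).2 ((h.sg p hp).1 ((hρ.2 _).1.trans_lt h1)), ?_⟩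
    rintro ⟨s, r, r0, r1, e⟩
    rw [← phi_eq] at e
    obtain ⟨n, hn⟩ := h.ij p _ hp (by
      simpa [abs_of_nonneg r0] using (r1.trans (hρ.2 s).2.1).trans_lt hη) e
    have e1 : s = p.re + n * (2 * π) := by simpa using congrArg re hn
    have e2 : r = p.im := by simpa using congrArg im hn
    rw [e1, Function.Periodic.int_mul hρ.1.per n, e2] at r1
    exact h1.not_ge r1

lemma not_cl {p : ℂ} (hp : |p.im| < δ) (h1 : p.im < ρ p.re) : Phi γ p ∉ closure (Sh Ω γ ρ) := by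
  intro h2
  have c := hρ.1.smooth.continuous
  have o : IsOpen {q : ℂ | |q.im| < δ ∧ q.im < ρ q.re} :=
    (isOpen_lt continuous_im.abs continuous_const).inter
      (isOpen_lt continuous_im (c.comp continuous_re))
  obtain ⟨_, ⟨q, hq, rfl⟩, h3⟩ := mem_closure_iff_nhds.1 h2 _ (h.nh hp (o.mem_nhds ⟨hp, h1⟩))
  exact hq.2.not_gt ((h.mem_iff hη hρ hq.1).1 h3)

omit hη in
lemma opn : IsOpen (Sh Ω γ ρ) := by
  have c := hρ.1.smooth.continuous
  have k : IsCompact {p : ℂ | p ∈ Icc 0 (2 * π) ×ℂ Icc 0 η ∧ p.im ≤ ρ p.re} :=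
    (isCompact_Icc.reProdIm isCompact_Icc).inter_right
      (isClosed_le continuous_im (c.comp continuous_re))
  refine (Geo.opn h.g).sdiff ?_
  have e : {z | ∃ s r : ℝ, 0 ≤ r ∧ r ≤ ρ s ∧ z = γ s + r * nr γ s} =
      Phi γ '' {p : ℂ | p ∈ Icc 0 (2 * π) ×ℂ Icc 0 η ∧ p.im ≤ ρ p.re} := by
    apply Subset.antisymm
    · rintro _ ⟨s, r, r0, r1, rfl⟩
      obtain ⟨t, ht, n, hn⟩ := h.cv.reduce (s + r * I)
      have e1 : s = t + n * (2 * π) := by simpa using congrArg re hn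
      have e2 : ρ s = ρ t := by rw [e1, Function.Periodic.int_mul hρ.1.per n]
      refine ⟨t + r * I, ⟨⟨by simpa using ht, by
        simpa using ⟨r0, r1.trans (hρ.2 s).2.1⟩⟩, by simpa [← e2] using r1⟩, ?_⟩
      rw [← phi_eq, hn, h.cv.Phi_per']
      simp
    · rintro _ ⟨p, ⟨h1, h2⟩, rfl⟩
      exact ⟨p.re, p.im, h1.2.1, h2, rfl⟩
  rw [e]
  exact (k.image h.cv.sPhi.continuous).isClosed

omit h in
lemma lt (s : ℝ) : |((s : ℂ) + ρ s * I).im| < δ := by
  simpa [abs_of_nonneg (hρ.2 s).1] using (hρ.2 s).2.1.trans_lt hη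

omit hη in
lemma hd (s : ℝ) : HasDerivAt (cs γ ρ)
    ((Jf (kap γ) (s + ρ s * I) + deriv ρ s * I) * deriv γ s) s := by
  have r := (hρ.1.smooth.differentiable (by simp) s).hasDerivAt.ofReal_comp
  refine ((h.cv.hd0 s).fun_add (r.fun_mul ((h.cv.hd1' s).const_mul I))).congr_deriv ?_
  simp only [Jf, add_re, ofReal_re, mul_re, I_re, mul_zero, ofReal_im, I_im, mul_one, sub_self,
    add_zero, add_im, mul_im, zero_add]
  push_cast
  linear_combination (ρ s * kap γ s * deriv γ s) * I_mul_I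

lemma side (s : ℝ) : ∃ d > 0, ∀ r : ℝ, 0 < r → r < d → cs γ ρ s + r * nr (cs γ ρ) s ∈ Sh Ω γ ρ ∧
    cs γ ρ s - r * nr (cs γ ρ) s ∉ closure (Sh Ω γ ρ) := by
  have hp := lt hη hρ s
  have hJ := h.jp _ hp
  obtain ⟨g, g1, g2, g3, -⟩ := h.cv.toCv0.local_inv hJ.ne'
  have e0 : Phi γ (s + ρ s * I) = cs γ ρ s := phi_eq γ s _
  rw [e0] at g1 g2 g3
  set n := nr (cs γ ρ) s with hn
  have l : HasDerivAt (fun r : ℝ => cs γ ρ s + r * n) n 0 := by
    simpa using ((hasDerivAt_id (0 : ℝ)).ofReal_comp.mul_const n).const_add (cs γ ρ s)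
  have l0 : cs γ ρ s + (0 : ℝ) * n = cs γ ρ s := by simp
  have lt : Tendsto (fun r : ℝ => cs γ ρ s + r * n) (𝓝 0) (𝓝 (cs γ ρ s)) := by
    have := l.continuousAt.tendsto
    rwa [l0] at this
  obtain ⟨w, hw⟩ : ∃ w, HasDerivAt (fun r : ℝ => g (cs γ ρ s + r * n)) w 0 :=
    ⟨_, (g1.differentiableAt (by simp)).hasFDerivAt.comp_hasDerivAt_of_eq 0 l l0.symm⟩
  have c0 : g (cs γ ρ s + (0 : ℝ) * n) = s + ρ s * I := by rw [l0, g2]
  have e1 : fderiv ℝ (Phi γ) (s + ρ s * I) w = n :=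
    ((h.cv.dPhi _).hasFDerivAt.comp_hasDerivAt_of_eq 0 hw c0.symm).unique
      (l.congr_of_eventuallyEq (lt.eventually g3))
  rw [fderiv_eq_d, h.cv.d1Phi, h.cv.d2Phi, hn, nr, (h.hd hρ s).deriv] at e1
  have u : deriv γ s ≠ 0 := fun a => by simpa [a] using h.cv.unit s
  have rr : ((s : ℂ) + ρ s * I).re = s := by simp
  rw [rr] at e1
  set J := Jf (kap γ) (s + ρ s * I)
  have e2 : (w.re * J + w.im * I : ℂ) = I * (J + deriv ρ s * I) :=
    mul_right_cancel₀ u (by linear_combination e1)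
  have e3 : w.re * J = -deriv ρ s := by simpa using congrArg re e2
  have e4 : w.im = J := by simpa using congrArg im e2
  have r := (hρ.1.smooth.differentiable (by simp) s).hasDerivAt
  have f : HasDerivAt (fun r : ℝ => (g (cs γ ρ s + r * n)).im - ρ (g (cs γ ρ s + r * n)).re)
      (w.im - deriv ρ s * w.re) 0 :=
    (imCLM.hasFDerivAt.comp_hasDerivAt 0 hw).fun_sub (r.comp_of_eq 0
      (reCLM.hasFDerivAt.comp_hasDerivAt 0 hw) (by simp [g2]))
  have f0 : 0 < w.im - deriv ρ s * w.re := by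
    have : deriv ρ s * w.re = -(w.re ^ 2 * J) := by linear_combination w.re * e3
    rw [this, e4, sub_neg_eq_add]
    positivity
  have t1 := eventually_nhdsWithin_iff.1 (f.tendsto_slope_zero.eventually (lt_mem_nhds f0))
  have t2 : ∀ᶠ r : ℝ in 𝓝 0, |(g (cs γ ρ s + r * n)).im| < δ :=
    (continuous_im.abs.continuousAt.comp hw.continuousAt).eventually_lt continuousAt_const
      (by simpa only [Function.comp_apply, c0] using hp)
  obtain ⟨d, d0, hd⟩ := Metric.eventually_nhds_iff.1 (t1.and (t2.and (lt.eventually g3)))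
  refine ⟨d, d0, fun r r0 r1 => ⟨?_, ?_⟩⟩
  · obtain ⟨a1, a2, a3⟩ := hd (y := r) (by simpa [abs_of_pos r0] using r1)
    have a4 := a1 r0.ne'
    simp only [c0, zero_add, smul_eq_mul] at a4
    have a5 := (mul_pos_iff_of_pos_left (inv_pos.2 r0)).1 a4
    rw [← a3]
    refine (h.mem_iff hη hρ a2).2 ?_
    simp at a5
    linarith
  · obtain ⟨a1, a2, a3⟩ := hd (y := -r) (by simpa [abs_of_pos r0] using r1)
    have a4 := a1 (neg_ne_zero.2 r0.ne')
    simp only [c0, zero_add, smul_eq_mul] at a4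
    have a5 := (neg_of_mul_pos_right a4 (inv_neg''.2 (neg_lt_zero.2 r0)).le)
    rw [show cs γ ρ s - r * n = cs γ ρ s + (-r : ℝ) * n by push_cast; ring, ← a3]
    refine h.not_cl hη hρ a2 ?_
    simp only [add_re, ofReal_re, mul_re, I_re, mul_zero, ofReal_im, I_im, mul_one, sub_self,
      add_zero, add_im, mul_im, zero_add, sub_zero] at a5
    linarith

lemma fr : frontier (Sh Ω γ ρ) = range (cs γ ρ) := by
  rw [(h.opn hρ).frontier_eq]
  apply Subset.antisymm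
  · rintro z ⟨h1, h2⟩
    obtain ⟨s, r, r0, r1, e⟩ : ∃ s r : ℝ, 0 ≤ r ∧ r ≤ ρ s ∧ z = γ s + r * nr γ s := by
      by_contra h3
      have a1 : φ z ≤ 0 := closure_minimal (t := {z | φ z ≤ 0})
        (fun z hz => ((Geo.mem h.g).1 hz.1).le)
        (isClosed_le (Geo.smooth h.g).continuous continuous_const) h1
      have a2 : φ z = 0 := a1.antisymm (not_lt.1 fun a => h2 ⟨(Geo.mem h.g).2 a, h3⟩)
      obtain ⟨_, s, e⟩ := (Geo.zero h.g z).1 a2
      exact h3 ⟨s, 0, le_rfl, (hρ.2 s).1, by simpa using e.symm⟩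
    rcases r1.eq_or_lt with a | a
    · exact ⟨s, by rw [e, a]; rfl⟩
    · rw [e, ← phi_eq] at h1
      exact absurd h1 (h.not_cl hη hρ (by
        simpa [abs_of_nonneg r0] using (r1.trans (hρ.2 s).2.1).trans_lt hη) (by simpa using a))
  · rintro _ ⟨s, rfl⟩
    refine ⟨?_, fun a => ?_⟩
    · obtain ⟨d, d0, hd⟩ := h.side hη hρ s
      have c : Continuous fun r : ℝ => cs γ ρ s + r * nr (cs γ ρ) s := by fun_prop
      refine mem_closure_of_tendsto (b := 𝓝[>] (0 : ℝ))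
        ((c.tendsto' 0 _ (by simp)).mono_left nhdsWithin_le_nhds) ?_
      filter_upwards [Ioo_mem_nhdsGT d0] with r hr
      exact (hd r hr.1 hr.2).1
    · have e0 : Phi γ (s + ρ s * I) = cs γ ρ s := phi_eq γ s _
      rw [← e0, h.mem_iff hη hρ (lt hη hρ s)] at a
      simp at a

lemma cd (hd : ∀ X : ℂ → ℂ, ContDiff ℝ 1 X →
    ∫ z in Sh Ω γ ρ, ((fderiv ℝ X z 1).re + (fderiv ℝ X z I).im) =
      ∫ s in (0 : ℝ)..(2 * π), rdot (X (cs γ ρ s)) (-nr (cs γ ρ) s)) :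
    CD (Sh Ω γ ρ) (cs γ ρ) where
  opn := h.opn hρ
  bdd := (Geo.bdd h.g).subset sdiff_subset
  smooth := h.cv.smooth.add ((ofRealCLM.contDiff.comp hρ.1.smooth).mul
    (contDiff_const.mul h.cv.s1))
  per s := by simp only [cs, nr, h.cv.per, h.cv.per1, hρ.1.per]
  reg s := by
    rw [(h.hd hρ s).deriv]
    refine mul_ne_zero (fun a => ?_) fun a => by simpa [a] using h.cv.unit s
    exact (h.jp _ (lt hη hρ s)).ne' (by simpa using congrArg re a)
  inj s t e := by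
    obtain ⟨n, hn⟩ := h.ij _ _ (lt hη hρ s) (lt hη hρ t)
      ((phi_eq γ s _).trans (e.trans (phi_eq γ t _).symm))
    exact ⟨n, by simpa using congrArg re hn⟩
  fr := h.fr hη hρ
  side := h.side hη hρ
  div := hd

end Ch

end B0

theorem st_b0 (hD : St_DIV) : St_B0 := by
  intro Ω γ φ h
  obtain ⟨δ, c⟩ := B0.exists_ch h
  obtain ⟨η, η0, hη⟩ := hD Ω γ φ h
  have d0 := c.pos
  have p : 0 < min η (δ / 2) := by positivity
  have l : min η (δ / 2) < δ := (min_le_right _ _).trans_lt (by linarith)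
  have k : ∀ ρ, Sml (min η (δ / 2)) ρ → CD (Sh Ω γ ρ) (cs γ ρ) := fun ρ hρ =>
    c.cd l hρ (hη ρ ⟨hρ.1, fun s => ⟨(hρ.2 s).1, (hρ.2 s).2.1.trans (min_le_left _ _),
      (hρ.2 s).2.2.trans (min_le_left _ _)⟩⟩)
  refine ⟨_, p, ?_, k, fun ρ hρ s r r0 r1 => ?_⟩
  · have := k (fun _ => 0) ⟨⟨contDiff_const, fun _ => rfl⟩, fun s => by simpa using p.le⟩
    have e1 : cs γ (fun _ => 0) = γ := funext fun s => by simp [cs]
    have e2 : Sh Ω γ (fun _ => 0) = Ω := by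
      refine sdiff_eq_left.2 (disjoint_left.2 ?_)
      rintro z hz ⟨s, r, r0, r1, rfl⟩
      obtain rfl : r = 0 := le_antisymm r1 r0
      have := (Geo.mem h).1 hz
      simp [Geo.z0 h 0 s] at this
    rwa [e1, e2] at this
  · rw [← B0.phi_eq]
    exact (c.mem_iff l hρ (by
      simpa [abs_of_nonneg ((hρ.2 s).1.trans r0.le)] using r1.trans_lt l)).2 (by simpa using r0)

end Pool.Agent.Lib.IS2
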