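import Pool.Agent.Lib.IS2.Blue

/-! Derivatives of a curve whose curvature carries a tone. -/

open scoped ContDiff ComplexConjugate Topology Real
open Complex MeasureTheory Set Filter

noncomputable section

namespace Pool.Agent.Lib.IS2

open Pool.Agent.Lib.ISO

namespace H0

variable {j : ℝ} {γ : ℝ → ℂ}

theorem le_inf (n : ℕ) : (n : WithTop ℕ∞) ≤ ∞ := mod_cast le_top

theorem sm1 (h : Nc j γ) : ContDiff ℝ ∞ (deriv γ) := (contDiff_infty_iff_deriv.1 h.smooth).2

theorem sm2 (h : Nc j γ) : ContDiff ℝ ∞ (deriv (deriv γ)) := (contDiff_infty_iff_deriv.1 (sm1 h)).2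

theorem smk (h : Nc j γ) : ContDiff ℝ ∞ (kp γ) :=
  imCLM.contDiff.comp ((sm2 h).mul (conjCLE.contDiff.comp (sm1 h)))

theorem mul_cj (h : Nc j γ) (s : ℝ) : deriv γ s * conj (deriv γ s) = 1 := by
  rw [mul_conj, normSq_eq_norm_sq, h.unit]
  simp

/-- The Frenet equation. -/
theorem frenet (h : Nc j γ) (s : ℝ) : deriv (deriv γ) s = I * (kp γ s * deriv γ s) := by
  have h1 : HasDerivAt (deriv γ) (deriv (deriv γ) s) s :=
    ((contDiff_infty_iff_deriv.1 (sm1 h)).1 s).hasDerivAt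
  have h2 : HasDerivAt (fun s => conj (deriv γ s)) (conj (deriv (deriv γ) s)) s :=
    conjCLE.hasFDerivAt.comp_hasDerivAt s h1
  have h3 := h1.mul h2
  have h4 : (deriv γ * fun s => conj (deriv γ s)) = fun _ => 1 := funext fun s => mul_cj h s
  rw [h4] at h3
  have h5 := h3.unique (hasDerivAt_const s 1)
  have h6 : deriv (deriv γ) s * conj (deriv γ s) = I * kp γ s := by
    have := congrArg re h5
    refine Complex.ext ?_ (by simp [kp])
    simp only [add_re, mul_re, conj_re, conj_im, zero_re, I_re, I_im, ofReal_re, ofReal_im] at this ⊢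
    linarith
  linear_combination (deriv γ s) * h6 - deriv (deriv γ) s * mul_cj h s

theorem iter_ofReal {f : ℝ → ℝ} (hf : ContDiff ℝ ∞ f) (n : ℕ) (s : ℝ) :
    iteratedDeriv n (fun s => (f s : ℂ)) s = (iteratedDeriv n f s : ℝ) := by
  have := iteratedDeriv_smul_const (n := n) (x := s) (hf.of_le (le_inf _)).contDiffAt (1 : ℂ)
  simpa using this

/-- Leibniz rule without the top term. -/
theorem leib {f : ℝ → ℝ} {g : ℝ → ℂ} (hf : ContDiff ℝ ∞ f) (hg : ContDiff ℝ ∞ g) (n : ℕ)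
    (s B : ℝ) (hB : 0 ≤ B)
    (h : ∀ k < n, |iteratedDeriv k f s| * ‖iteratedDeriv (n - k) g s‖ ≤ B) :
    ‖iteratedDeriv n (fun s => (f s : ℂ) * g s) s - (iteratedDeriv n f s : ℝ) * g s‖ ≤
      2 ^ n * B := by
  have hf' : ContDiff ℝ ∞ fun s => (f s : ℂ) := ofRealCLM.contDiff.comp hf
  rw [iteratedDeriv_fun_mul (hf'.of_le (le_inf _)).contDiffAt
    (hg.of_le (le_inf _)).contDiffAt, Finset.sum_range_succ]
  simp only [iter_ofReal hf, Nat.choose_self, Nat.cast_one, one_mul, Nat.sub_self,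
    iteratedDeriv_zero, add_sub_cancel_right]
  refine (norm_sum_le _ _).trans ?_
  calc _ ≤ ∑ k ∈ Finset.range n, (n.choose k : ℝ) * B := Finset.sum_le_sum fun k hk => by
        rw [mul_assoc, norm_mul, norm_mul, norm_natCast, norm_real, Real.norm_eq_abs]
        exact mul_le_mul_of_nonneg_left (h k (Finset.mem_range.1 hk)) (Nat.cast_nonneg _)
    _ ≤ ∑ k ∈ Finset.range (n + 1), (n.choose k : ℝ) * B := by
        rw [Finset.sum_range_succ]
        exact le_add_of_nonneg_right (by positivity)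
    _ = 2 ^ n * B := by
        rw [← Finset.sum_mul, ← Nat.cast_sum, Nat.sum_range_choose]
        push_cast
        rfl

theorem tn_iter (M W : ℕ) (a0 : ℂ) (k : ℕ) : iteratedDeriv k (tn M W a0 0) = fun s : ℝ =>
    2 * amp M W * ((I * (W : ℂ) ^ 2) ^ k * (a0 * exp (I * (W : ℂ) ^ 2 * s))).re := by
  induction k with
  | zero =>
    funext s
    simp [tn]
  | succ k ih =>
    rw [iteratedDeriv_succ, ih]
    funext s
    have b : HasDerivAt (fun s : ℝ => I * (W : ℂ) ^ 2 * (s : ℂ)) (I * (W : ℂ) ^ 2 * 1) s :=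
      ((hasDerivAt_id s).ofReal_comp).const_mul _
    have c := (reCLM.hasFDerivAt.comp_hasDerivAt s
      ((b.cexp.const_mul a0).const_mul ((I * (W : ℂ) ^ 2) ^ k))).const_mul (2 * amp M W)
    refine c.deriv.trans ?_
    rw [reCLM_apply]
    congr 2
    ring

theorem tn_sm (M W : ℕ) (a0 : ℂ) : ContDiff ℝ ∞ (tn M W a0 0) := by
  have e : ContDiff ℝ ∞ fun s : ℝ => (s : ℂ) := ofRealCLM.contDiff
  unfold tn
  exact contDiff_const.mul (reCLM.contDiff.comp ((contDiff_const.add (contDiff_const.mul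
    (contDiff_const.mul e).cexp)).mul (contDiff_const.mul e).cexp))

theorem amp_nn (M W : ℕ) : 0 ≤ amp M W := by
  unfold amp
  positivity

theorem tn_le (M W : ℕ) {a0 : ℂ} (h : ‖a0‖ ≤ 2) (k : ℕ) (s : ℝ) :
    |iteratedDeriv k (tn M W a0 0) s| ≤ 4 * amp M W * ((W : ℝ) ^ 2) ^ k := by
  have ha := amp_nn M W
  have e : ‖exp (I * (W : ℂ) ^ 2 * s)‖ = 1 := by
    rw [show I * (W : ℂ) ^ 2 * s = (((W : ℝ) ^ 2 * s : ℝ) : ℂ) * I by push_cast; ring,
      norm_exp_ofReal_mul_I]
  rw [tn_iter, abs_mul, abs_of_nonneg (by positivity)]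
  refine (mul_le_mul_of_nonneg_left (abs_re_le_norm _) (by positivity)).trans ?_
  rw [norm_mul, norm_mul, e, norm_pow, norm_mul, norm_I, norm_pow, norm_natCast, one_mul, mul_one]
  have : (0 : ℝ) ≤ amp M W * ((W : ℝ) ^ 2) ^ k := by positivity
  nlinarith

theorem tn_top (M W : ℕ) (a0 : ℂ) (s : ℝ) : iteratedDeriv (2 * M + 4) (tn M W a0 0) s =
    (-1) ^ M * ((W : ℝ) ^ 2) ^ (2 * M + 4) * tn M W a0 0 s := by
  have e : (I * (W : ℂ) ^ 2) ^ (2 * M + 4) = (((-1) ^ M * ((W : ℝ) ^ 2) ^ (2 * M + 4) : ℝ) : ℂ) := by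
    rw [mul_pow, pow_add I, pow_mul, I_sq, I_pow_four]
    push_cast
    ring
  rw [tn_iter]
  simp only [e, re_ofReal_mul, tn, zero_mul, add_zero]
  ring

variable {M W : ℕ}

theorem one_le_lam (hW : 1 ≤ W) : 1 ≤ lam M W :=
  Real.one_le_rpow (by exact_mod_cast hW) (by positivity)

theorem lam_le (hM : 2 ≤ M) (hW : 1 ≤ W) : lam M W ≤ (W : ℝ) ^ 2 := by
  rw [lam, ← Real.rpow_natCast]
  refine Real.rpow_le_rpow_of_exponent_le (by exact_mod_cast hW) ?_
  rw [div_le_iff₀ (by positivity)]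
  have : (2 : ℝ) ≤ M := by exact_mod_cast hM
  push_cast
  linarith

theorem lam_pow (hW : 1 ≤ W) : lam M W ^ (2 * M + 1) * (W : ℝ) ^ 2 = XX M W := by
  have h0 : (0 : ℝ) < W := by exact_mod_cast hW
  rw [lam, ← Real.rpow_natCast, ← Real.rpow_mul h0.le, div_mul_cancel₀ _ (by positivity),
    Real.rpow_natCast, XX, amp]
  field_simp
  ring

theorem g_le {K : ℝ} {a0 : ℂ} (hW : 1 ≤ W) (h : Nc j γ) (hT : Ton M K W a0 0 (kp γ)) (l : ℕ) :
    l ≤ 2 * M + 4 → ∀ s, ‖iteratedDeriv l (deriv γ) s‖ ≤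
      (2 ^ (2 * M + 5) * (|K| + 1)) ^ l * lam M W ^ (l - 3) := by
  have hl := one_le_lam (M := M) hW
  set D : ℝ := 2 ^ (2 * M + 5) * (|K| + 1) with hD
  have hD1 : 1 ≤ D := one_le_mul_of_one_le_of_one_le (one_le_pow₀ one_le_two)
    (by linarith [abs_nonneg K])
  induction l using Nat.strong_induction_on with
  | _ l ih =>
    intro hle s
    rcases l with _ | l
    · simp [h.unit]
    have key : ∀ k ≤ l, |iteratedDeriv k (kp γ) s| * ‖iteratedDeriv (l - k) (deriv γ) s‖ ≤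
        |K| * D ^ l * lam M W ^ (l + 1 - 3) := fun k hk => by
      have a1 := (hT.sup k (by omega) s).trans
        (mul_le_mul_of_nonneg_right (le_abs_self K) (by positivity))
      have a2 := ih (l - k) (by omega) (by omega) s
      have a3 : D ^ (l - k) ≤ D ^ l := pow_le_pow_right₀ hD1 (by omega)
      have a4 : lam M W ^ (k - 2) * lam M W ^ (l - k - 3) ≤ lam M W ^ (l + 1 - 3) := by
        rw [← pow_add]
        exact pow_le_pow_right₀ hl (by omega)
      calc _ ≤ |K| * lam M W ^ (k - 2) * (D ^ (l - k) * lam M W ^ (l - k - 3)) := by gcongr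
        _ = |K| * D ^ (l - k) * (lam M W ^ (k - 2) * lam M W ^ (l - k - 3)) := by ring
        _ ≤ _ := by gcongr
    have e : deriv (deriv γ) = fun s => I * (kp γ s * deriv γ s) := funext (frenet h)
    rw [iteratedDeriv_succ', e, iteratedDeriv_const_mul_field, norm_mul, norm_I, one_mul]
    have b1 := leib (smk h) (sm1 h) l s _ (by positivity) fun k hk => key k hk.le
    have b2 := key l le_rfl
    rw [Nat.sub_self, iteratedDeriv_zero, ← Real.norm_eq_abs, ← norm_real, ← norm_mul] at b2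
    have b3 := (norm_le_norm_sub_add _ _).trans (add_le_add b1 b2)
    refine b3.trans ?_
    have b4 : (2 : ℝ) ^ l + 1 ≤ 2 ^ (2 * M + 5) := by
      have : (2 : ℝ) ^ l ≤ 2 ^ (2 * M + 4) := pow_le_pow_right₀ one_le_two (by omega)
      have : (1 : ℝ) ≤ 2 ^ (2 * M + 4) := one_le_pow₀ one_le_two
      rw [pow_succ _ (2 * M + 4)]
      linarith
    calc _ = (2 ^ l + 1) * |K| * (D ^ l * lam M W ^ (l + 1 - 3)) := by ring
      _ ≤ D * (D ^ l * lam M W ^ (l + 1 - 3)) := by
        rw [hD]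
        gcongr
        linarith
      _ = _ := by ring

/-- An integral bound from a pointwise one. -/
theorem int_le {F : ℝ → ℂ} {u : ℝ → ℝ} (hF : Continuous F) (hu : Continuous u) {A B : ℝ}
    (h : ∀ s, ‖F s‖ ≤ |u s| + A) (hB : ∫ s in (0 : ℝ)..(2 * π), u s ^ 2 ≤ B) :
    ∫ s in (0 : ℝ)..(2 * π), ‖F s‖ ^ 2 ≤ 2 * B + 16 * A ^ 2 := by
  have h1 : ∫ s in (0 : ℝ)..(2 * π), ‖F s‖ ^ 2 ≤ ∫ s in (0 : ℝ)..(2 * π), (2 * u s ^ 2 + 2 * A ^ 2) :=
    intervalIntegral.integral_mono_on (by positivity) ((hF.norm.pow 2).intervalIntegrable _ _)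
      (Continuous.intervalIntegrable (by fun_prop) _ _) fun s _ => by
        have := pow_le_pow_left₀ (norm_nonneg _) (h s) 2
        nlinarith [sq_abs (u s), sq_nonneg (|u s| - A)]
  rw [intervalIntegral.integral_add (Continuous.intervalIntegrable (by fun_prop) _ _)
    (by simp), intervalIntegral.integral_const_mul, intervalIntegral.integral_const] at h1
  simp only [sub_zero, smul_eq_mul] at h1
  nlinarith [Real.pi_le_four, sq_nonneg A]

end H0

open H0 in
theorem st_h0 : St_H0 := by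
  intro j K M hM
  set D : ℝ := 2 ^ (2 * M + 5) * (|K| + 1) with hD
  have hD1 : 1 ≤ D := one_le_mul_of_one_le_of_one_le (one_le_pow₀ one_le_two)
    (by linarith [abs_nonneg K])
  set E := D ^ (2 * M + 4) with hE
  have hE1 : 1 ≤ E := one_le_pow₀ hD1
  set A := 2 ^ (2 * M + 4) * ((|K| + 4) * E) + 4 with hA
  refine ⟨E + 2 * |K| + 16 * A ^ 2, fun W γ a0 hW h hT => ?_⟩
  have hl := one_le_lam (M := M) hW
  have hW1 : (1 : ℝ) ≤ W := by exact_mod_cast hW
  have ho : (1 : ℝ) ≤ (W : ℝ) ^ 2 := one_le_pow₀ hW1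
  have hX : 0 ≤ XX M W := by
    rw [← lam_pow hW]
    positivity
  have hg : ∀ l ≤ 2 * M + 4, ∀ s, ‖iteratedDeriv l (deriv γ) s‖ ≤ E * lam M W ^ (l - 3) :=
    fun l hl' s => (g_le hW h hT l hl' s).trans
      (mul_le_mul_of_nonneg_right (pow_le_pow_right₀ hD1 hl') (by positivity))
  have k1 : ∀ s, ∀ k < 2 * M + 4, |iteratedDeriv k (kp γ) s| *
      ‖iteratedDeriv (2 * M + 4 - k) (deriv γ) s‖ ≤ |K| * E * (XX M W / (W : ℝ) ^ 2) := by
    intro s k hk
    have a1 := (hT.sup k (by omega) s).trans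
      (mul_le_mul_of_nonneg_right (le_abs_self K) (by positivity))
    have a2 := hg (2 * M + 4 - k) (by omega) s
    have a4 : lam M W ^ (k - 2) * lam M W ^ (2 * M + 4 - k - 3) ≤ XX M W / (W : ℝ) ^ 2 := by
      rw [← pow_add, ← lam_pow hW, mul_div_cancel_right₀ _ (by positivity)]
      exact pow_le_pow_right₀ hl (by omega)
    calc _ ≤ |K| * lam M W ^ (k - 2) * (E * lam M W ^ (2 * M + 4 - k - 3)) := by gcongr
      _ = |K| * E * (lam M W ^ (k - 2) * lam M W ^ (2 * M + 4 - k - 3)) := by ring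
      _ ≤ _ := by gcongr
  have k2 : ∀ s, ∀ k < 2 * M + 4, |iteratedDeriv k (tn M W a0 0) s| *
      ‖iteratedDeriv (2 * M + 4 - k) (deriv γ) s‖ ≤ 4 * E * (XX M W / (W : ℝ) ^ 2) := by
    intro s k hk
    have a1 := tn_le M W hT.b0 k s
    have a2 := hg (2 * M + 4 - k) (by omega) s
    have ha := amp_nn M W
    have a4 : ((W : ℝ) ^ 2) ^ k * lam M W ^ (2 * M + 4 - k - 3) ≤ ((W : ℝ) ^ 2) ^ (2 * M + 3) :=
      calc _ ≤ ((W : ℝ) ^ 2) ^ k * ((W : ℝ) ^ 2) ^ (2 * M + 4 - k - 3) := by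
            gcongr
            exact lam_le hM hW
        _ ≤ _ := by
            rw [← pow_add]
            exact pow_le_pow_right₀ ho (by omega)
    calc _ ≤ 4 * amp M W * ((W : ℝ) ^ 2) ^ k * (E * lam M W ^ (2 * M + 4 - k - 3)) := by gcongr
      _ = 4 * E * (amp M W * (((W : ℝ) ^ 2) ^ k * lam M W ^ (2 * M + 4 - k - 3))) := by ring
      _ ≤ 4 * E * (amp M W * ((W : ℝ) ^ 2) ^ (2 * M + 3)) := by gcongr
      _ = _ := by
        rw [XX, pow_succ _ (2 * M + 3)]
        field_simp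
  have hu : Continuous fun s => iteratedDeriv (2 * M + 4) (kp γ) s -
      (-1) ^ M * ((W : ℝ) ^ 2) ^ (2 * M + 4) * tn M W a0 0 s :=
    ((smk h).continuous_iteratedDeriv _ (le_inf _)).sub
      (continuous_const.mul (tn_sm M W a0).continuous)
  have hK : K * XX M W ^ 2 / W ≤ |K| * (XX M W ^ 2 / W) := by
    rw [mul_div_assoc]
    exact mul_le_mul_of_nonneg_right (le_abs_self K) (by positivity)
  have hXW : XX M W / (W : ℝ) ^ 2 ≤ XX M W := div_le_self hX ho
  refine ⟨fun l hl' s => ?_, ?_, ?_⟩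
  · rw [iteratedDeriv_succ']
    refine (hg l hl' s).trans (mul_le_mul_of_nonneg_right ?_ (by positivity))
    nlinarith [abs_nonneg K, sq_nonneg A]
  · refine (int_le (A := A * XX M W) (h.smooth.continuous_iteratedDeriv _ (le_inf _)) hu
      (fun s => ?_) (hT.l2.trans hK)).trans ?_
    · have e : deriv (deriv γ) = fun s => I * (kp γ s * deriv γ s) := funext (frenet h)
      rw [iteratedDeriv_succ', iteratedDeriv_succ', e, iteratedDeriv_const_mul_field, norm_mul,
        norm_I, one_mul]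
      have b1 := leib (smk h) (sm1 h) _ s _ (by positivity) (k1 s)
      have b2 := tn_le M W hT.b0 (2 * M + 4) s
      rw [tn_top, mul_assoc 4, ← XX] at b2
      refine (norm_le_norm_sub_add _ _).trans ((add_le_add b1 le_rfl).trans ?_)
      rw [norm_mul, h.unit, mul_one, norm_real, Real.norm_eq_abs]
      have b3 := abs_sub_abs_le_abs_sub (iteratedDeriv (2 * M + 4) (kp γ) s)
        ((-1) ^ M * ((W : ℝ) ^ 2) ^ (2 * M + 4) * tn M W a0 0 s)
      have b4 : 2 ^ (2 * M + 4) * (|K| * E * (XX M W / (W : ℝ) ^ 2)) ≤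
          2 ^ (2 * M + 4) * ((|K| + 4) * E * XX M W) := by
        gcongr
        linarith
      rw [hA]
      linarith
    · have : XX M W ^ 2 / W ≤ XX M W ^ 2 := div_le_self (by positivity) hW1
      nlinarith [abs_nonneg K, sq_nonneg (XX M W), mul_le_mul_of_nonneg_left this (abs_nonneg K)]
  · have hs : ContDiff ℝ ∞ fun s => kp γ s - tn M W a0 0 s := (smk h).sub (tn_sm M W a0)
    have hsub : ∀ k s, iteratedDeriv k (fun s => kp γ s - tn M W a0 0 s) s =
        iteratedDeriv k (kp γ) s - iteratedDeriv k (tn M W a0 0) s := fun k s =>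
      iteratedDeriv_fun_sub ((smk h).of_le (le_inf _)).contDiffAt
        ((tn_sm M W a0).of_le (le_inf _)).contDiffAt
    refine (int_le (A := A * (XX M W / (W : ℝ) ^ 2))
      (((ofRealCLM.contDiff.comp hs).mul (sm1 h)).continuous_iteratedDeriv _ (le_inf _)) hu
      (fun s => ?_) (hT.l2.trans hK)).trans ?_
    · have b1 := leib hs (sm1 h) (2 * M + 4) s ((|K| + 4) * E * (XX M W / (W : ℝ) ^ 2))
        (by positivity) fun k hk => by
          rw [hsub]
          have := mul_le_mul_of_nonneg_right (abs_sub (iteratedDeriv k (kp γ) s)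
            (iteratedDeriv k (tn M W a0 0) s))
            (norm_nonneg (iteratedDeriv (2 * M + 4 - k) (deriv γ) s))
          linarith [k1 s k hk, k2 s k hk]
      refine (norm_le_norm_sub_add _ _).trans ((add_le_add b1 le_rfl).trans ?_)
      rw [norm_mul, h.unit, mul_one, norm_real, Real.norm_eq_abs, hsub, tn_top, hA]
      have : 0 ≤ XX M W / (W : ℝ) ^ 2 := by positivity
      linarith
    · have a1 : (XX M W / (W : ℝ) ^ 2) ^ 2 ≤ XX M W ^ 2 / W := by
        rw [div_pow]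
        refine div_le_div_of_nonneg_left (by positivity) (by positivity) ?_
        rw [← pow_mul]
        exact le_self_pow₀ hW1 (by norm_num)
      have a2 : 0 ≤ XX M W ^ 2 / W := by positivity
      rw [mul_div_assoc, mul_pow]
      nlinarith [mul_le_mul_of_nonneg_left a1 (sq_nonneg A)]

end Pool.Agent.Lib.IS2
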