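import Pool.Agent.Lib.IS2.B_B341
import Pool.Agent.Lib.IS2.B_H0

/-! Testing the branch identity against one branch. -/

open scoped ContDiff ComplexConjugate Topology Real
open Complex MeasureTheory Set Filter

noncomputable section

namespace Pool.Agent.Lib.IS2

open Pool.Agent.Lib.ISO

namespace B34

variable {c1 c2 j σ σ0 : ℝ} {κ κ0 u v : ℝ → ℝ} {x : ℝ} {a0 a1 : ℂ}

def al (a0 a1 : ℂ) (t : ℝ) : ℂ := a0 + a1 * exp (I * t)

theorem al_bd (h0 : ‖a0‖ ≤ 2) (h1 : ‖a1‖ ≤ 2) (t : ℝ) :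
    (DifferentiableAt ℝ (al a0 a1) t ∧ ‖al a0 a1 t‖ ≤ 4 ∧ ‖deriv (al a0 a1) t‖ ≤ 4) ∧
    DifferentiableAt ℝ (fun t => conj (al a0 a1 t)) t ∧ ‖conj (al a0 a1 t)‖ ≤ 4 ∧
      ‖deriv (fun t => conj (al a0 a1 t)) t‖ ≤ 4 := by
  have d : HasDerivAt (al a0 a1) (a1 * (exp (I * t) * (I * (1 : ℝ)))) t :=
    ((((hasDerivAt_id t).ofReal_comp.const_mul I).cexp).const_mul a1).const_add a0
  have d2 : HasDerivAt (fun t => conj (al a0 a1 t)) (conj (a1 * (exp (I * t) * (I * (1 : ℝ))))) t :=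
    conjCLE.hasFDerivAt.comp_hasDerivAt t d
  have n1 : ‖al a0 a1 t‖ ≤ 4 := (norm_add_le _ _).trans (by
    rw [norm_mul, norm_exp_I_mul_ofReal]
    linarith)
  have n2 : ‖a1 * (exp (I * t) * (I * (1 : ℝ)))‖ ≤ 4 := by
    rw [norm_mul, norm_mul, norm_exp_I_mul_ofReal]
    simp only [ofReal_one, mul_one, norm_I]
    linarith
  exact ⟨⟨d.differentiableAt, n1, d.deriv ▸ n2⟩, d2.differentiableAt, by rwa [norm_conj],
    by rwa [d2.deriv, norm_conj]⟩

/-- one half of the tested tone -/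
def Pm (n : ℕ) (o : ℝ) (κ κ0 u v : ℝ → ℝ) (G : ℝ → ℂ) (ε x : ℝ) : ℂ :=
  ((sl κ (u x) * |deriv κ0 (v x)| : ℝ) : ℂ) ^ n * G (u x) * exp (I * o * (ε * u x - v x : ℝ))

theorem cPm (h : B1 j c1 c2 κ u σ) (h0 : B1 j c1 c2 κ0 v σ0) (n : ℕ) (o ε : ℝ) {G : ℝ → ℂ}
    (hG : Continuous G) : ContinuousOn (Pm n o κ κ0 u v G ε) (Icc c1 c2) := by
  have a := h.cont
  have b := h0.cont
  have c := h.csl
  have d := h0.s1.continuous
  unfold Pm
  fun_prop

theorem cal (a0 a1 : ℂ) : Continuous (al a0 a1) := by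
  unfold al
  fun_prop

theorem cal' (a0 a1 : ℂ) : Continuous fun t => conj (al a0 a1 t) :=
  continuous_conj.comp (cal a0 a1)

/-- the alternatives for a branch -/
def Alt (j c1 c2 : ℝ) (W : ℕ) (κ κ0 u v : ℝ → ℝ) (a0 a1 : ℂ) (ρ : ℝ → ℂ) : Prop :=
  (ρ = 0 ∧ ∀ x ∈ Icc c1 c2, j⁻¹ ≤ |sl κ (u x) - sl κ0 (v x)|) ∨
    ∃ τ β : ℝ, (ρ = fun x => res W a0 a1 τ β (v x)) ∧
      ∀ x ∈ Icc c1 c2, (τ = 1 ∨ τ = -1) ∧ u x = τ * v x + β

theorem weak (n : ℕ) (j : ℝ) : ∃ C, 0 ≤ C ∧ ∀ (c1 c2 σ σ0 : ℝ) (W : ℕ) (κ κ0 u v : ℝ → ℝ)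
    (a0 a1 : ℂ) (ρ : ℝ → ℂ), B1 j c1 c2 κ u σ → B1 j c1 c2 κ0 v σ0 → c1 < c2 → 1 ≤ W →
    ‖a0‖ ≤ 2 → ‖a1‖ ≤ 2 → Alt j c1 c2 W κ κ0 u v a0 a1 ρ → ContinuousOn ρ (Icc c1 c2) ∧
    ‖∫ x in c1..c2, (ρ x - (Pm n (W ^ 2) κ κ0 u v (al a0 a1) 1 x +
      Pm n (W ^ 2) κ κ0 u v (fun t => conj (al a0 a1 t)) (-1) x))‖ ≤ 2 * C / W ^ 2 := by
  obtain ⟨C, C0, hC⟩ := osc n j
  refine ⟨C, C0, fun c1 c2 σ σ0 W κ κ0 u v a0 a1 ρ h h0 hc hW b0 b1 hA => ?_⟩
  have o0 : (0 : ℝ) < W ^ 2 := by positivity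
  have p1 := hC c1 c2 σ σ0 1 _ κ κ0 u v _ h h0 hc.le (.inl rfl) o0 fun t => (al_bd b0 b1 t).1
  have p2 := hC c1 c2 σ σ0 (-1) _ κ κ0 u v _ h h0 hc.le (.inr rfl) o0 fun t => (al_bd b0 b1 t).2
  have i1 := ii hc.le (cPm h h0 n (W ^ 2) 1 (cal a0 a1))
  have i2 := ii hc.le (cPm h h0 n (W ^ 2) (-1) (cal' a0 a1))
  have hh : C / W ^ 2 ≤ 2 * C / W ^ 2 := div_le_div_of_nonneg_right (by linarith) o0.le
  rcases hA with ⟨rfl, hn⟩ | ⟨τ, β, rfl, hr⟩
  · refine ⟨continuousOn_const, ?_⟩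
    have k : ∀ ε : ℝ, |ε| = 1 → ∀ x ∈ Icc c1 c2,
        j⁻¹ ≤ |ε * (deriv κ (u x))⁻¹ - (deriv κ0 (v x))⁻¹| := fun ε hε x hx =>
      (hn x hx).trans (by
        simpa only [abs_mul, hε, one_mul, abs_inv, sl] using
          abs_abs_sub_abs_le_abs_sub (ε * (deriv κ (u x))⁻¹) (deriv κ0 (v x))⁻¹)
    simp only [Pi.zero_apply, zero_sub, intervalIntegral.integral_neg, norm_neg]
    rw [intervalIntegral.integral_add i1 i2, two_mul, add_div]
    exact (norm_add_le _ _).trans (add_le_add (p1 (k 1 abs_one)) (p2 (k (-1) (by simp))))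
  have hτ := (hr c1 (left_mem_Icc.2 hc.le)).1
  have q : ∀ x ∈ Icc c1 c2, (deriv κ (u x))⁻¹ = τ * (deriv κ0 (v x))⁻¹ := fun x hx =>
    (uniqueDiffOn_Icc hc x hx).eq_deriv _ (h.der x hx).hasDerivWithinAt
      ((((h0.der x hx).const_mul τ).add_const β).hasDerivWithinAt.congr (fun y hy => (hr y hy).2)
        (hr x hx).2)
  have q1 : ∀ x ∈ Icc c1 c2, sl κ (u x) * |deriv κ0 (v x)| = 1 := fun x hx => by
    have t1 : |τ| = 1 := by rcases hτ with rfl | rfl <;> simp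
    rw [sl, ← abs_inv, q x hx, abs_mul, t1, one_mul, abs_inv,
      inv_mul_cancel₀ (abs_pos.2 (h0.ne x hx)).ne']
  have q2 : ∀ x ∈ Icc c1 c2, j⁻¹ ≤ |-τ * (deriv κ (u x))⁻¹ - (deriv κ0 (v x))⁻¹| := fun x hx => by
    have t1 : τ * τ = 1 := by rcases hτ with rfl | rfl <;> simp
    have t2 := inv_anti₀ (abs_pos.2 (h0.ne x hx)) (h0.b1 (v x))
    rw [q x hx, ← mul_assoc, neg_mul, t1, show -1 * (deriv κ0 (v x))⁻¹ - (deriv κ0 (v x))⁻¹ =
      -(2 * (deriv κ0 (v x))⁻¹) by ring, abs_neg, abs_mul, abs_two, abs_inv]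
    linarith [inv_pos.2 (abs_pos.2 (h0.ne x hx))]
  have cv := h0.cont
  rcases hτ with rfl | rfl
  · refine ⟨by simp only [res, if_true]; fun_prop, le_trans (le_of_eq ?_) ((p2 q2).trans hh)⟩
    rw [← norm_neg, ← intervalIntegral.integral_neg]
    refine congrArg norm (intervalIntegral.integral_congr fun x hx => ?_)
    rw [uIcc_of_le hc.le] at hx
    simp only [Pm, q1 x hx]
    simp only [res, if_true, (hr x hx).2, al, one_mul, add_sub_cancel_left]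
    push_cast
    ring
  · have e : (-1 : ℝ) ≠ 1 := by norm_num
    refine ⟨by simp only [res, if_neg e]; fun_prop, le_trans (le_of_eq ?_)
      ((p1 (by simpa only [neg_neg] using q2)).trans hh)⟩
    rw [← norm_neg, ← intervalIntegral.integral_neg]
    refine congrArg norm (intervalIntegral.integral_congr fun x hx => ?_)
    rw [uIcc_of_le hc.le] at hx
    simp only [Pm, q1 x hx]
    have e1 : -1 * u x - v x = -β := by rw [(hr x hx).2]; ring
    have e2 : β - v x = u x := by rw [(hr x hx).2]; ring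
    have e3 : conj (exp (I * (W : ℂ) ^ 2 * β)) = exp (I * ((W : ℝ) ^ 2 : ℝ) * (-β : ℝ)) := by
      rw [← exp_conj]
      simp
    simp only [res, if_neg e, e1, e2, map_mul, e3, al]
    push_cast
    ring

theorem per_it {κ : ℝ → ℝ} (h : Function.Periodic κ (2 * π)) (n : ℕ) :
    Function.Periodic (iteratedDeriv n κ) (2 * π) := by
  induction n with
  | zero => exact h
  | succ n ih => rw [iteratedDeriv_succ]; exact per_deriv' ih

theorem per_tn (M W : ℕ) (a0 a1 : ℂ) : Function.Periodic (tn M W a0 a1) (2 * π) := fun s => by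
  have e1 : exp (I * (s + 2 * π : ℝ)) = exp (I * s) := by
    rw [← exp_periodic (I * s)]
    congr 1
    push_cast
    ring
  have e2 : exp (I * (W : ℂ) ^ 2 * (s + 2 * π : ℝ)) = exp (I * (W : ℂ) ^ 2 * s) := by
    rw [← exp_periodic.nat_mul (W ^ 2) (I * (W : ℂ) ^ 2 * s)]
    congr 1
    push_cast
    ring
  rw [tn, tn, e1, e2]

/-- the test function -/
def wt (M W : ℕ) (κ0 v : ℝ → ℝ) (x : ℝ) : ℂ :=
  ((-1) ^ M / XX M W * |deriv κ0 (v x)| ^ (2 * M + 5) : ℝ) * exp (-(I * ((W : ℝ) ^ 2 : ℝ) * v x))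

/-- the estimate for one branch -/
theorem one (hE : St_EN) (M J : ℕ) (K δ : ℝ) (hJ : 1 ≤ J) (δ0 : 0 < δ) : ∃ W1 : ℕ, ∀ W, W1 ≤ W →
    ∀ (c1 c2 σ σ0 : ℝ) (κ κ0 u v : ℝ → ℝ) (a0 a1 : ℂ) (ρ : ℝ → ℂ), B1 J c1 c2 κ u σ →
    B1 J c1 c2 κ0 v σ0 → c1 < c2 → Ton M K W a0 a1 κ → Alt J c1 c2 W κ κ0 u v a0 a1 ρ →
    IntervalIntegrable (fun x => ρ x + (σ * En κ (2 * M + 3) (u x) : ℝ) * wt M W κ0 v x)
      volume c1 c2 ∧
    ‖∫ x in c1..c2, (ρ x + (σ * En κ (2 * M + 3) (u x) : ℝ) * wt M W κ0 v x)‖ ≤ δ := by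
  obtain ⟨C, C0, hC⟩ := weak (2 * M + 5) J
  obtain ⟨C1, hC1⟩ := hE.2 (2 * M + 3) (by omega)
  have j1 : (1 : ℝ) ≤ J := by exact_mod_cast hJ
  obtain ⟨F, hF⟩ : ∃ F : ℝ, F = J ^ (2 * M + 5) := ⟨_, rfl⟩
  have F0 : 0 < F := by rw [hF]; positivity
  obtain ⟨η, η0, hη⟩ : ∃ η : ℝ, 0 < η ∧ F * F * η * (2 * J) = δ / 2 :=
    ⟨δ / 2 / (F * F * (2 * J)), by positivity, by field_simp⟩
  obtain ⟨e, he⟩ : ∃ e, e = |C1 * ((|K| + 1) * J) ^ (2 * (2 * M + 3) + 1)| := ⟨_, rfl⟩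
  have e0 : 0 ≤ e := he ▸ abs_nonneg _
  obtain ⟨W1, hW1⟩ := exists_nat_ge ((2 * C + F * e * (2 * J) + F * F / η * (J ^ 3 * |K|)) / (δ / 2))
  refine ⟨W1 + 1, fun W hW c1 c2 σ σ0 κ κ0 u v a0 a1 ρ h h0 hc hT hA => ?_⟩
  have W1' : 1 ≤ W := by omega
  have w1 : (1 : ℝ) ≤ W := by exact_mod_cast W1'
  have w0 : (0 : ℝ) < W := one_pos.trans_le w1
  have hl := H0.one_le_lam (M := M) W1'
  have X0 : 0 < XX M W := by
    rw [← H0.lam_pow W1']
    positivity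
  obtain ⟨cρ, b1⟩ := hC c1 c2 σ σ0 W κ κ0 u v a0 a1 ρ h h0 hc W1' hT.b0 hT.b1 hA
  have cP := (cPm h h0 (2 * M + 5) (W ^ 2) 1 (cal a0 a1)).add
    (cPm h h0 (2 * M + 5) (W ^ 2) (-1) (cal' a0 a1))
  have cE : ContinuousOn (fun x => ((σ * En κ (2 * M + 3) (u x) : ℝ) : ℂ) * wt M W κ0 v x)
      (Icc c1 c2) := by
    have a : ContinuousOn (fun x => En κ (2 * M + 3) (u x)) (Icc c1 c2) := fun x hx =>
      (hE.1 κ h.per.smooth _ _ (h.ne x hx)).continuousAt.comp_continuousWithinAt (h.cont x hx)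
    have b := h0.cont
    have d := h0.s1.continuous
    unfold wt
    fun_prop
  refine ⟨ii hc.le (cρ.add cE), ?_⟩
  obtain ⟨r, hr⟩ : ∃ r : ℝ → ℝ, r = fun s => iteratedDeriv (2 * M + 4) κ s -
    (-1) ^ M * ((W : ℝ) ^ 2) ^ (2 * M + 4) * tn M W a0 a1 s := ⟨_, rfl⟩
  have rc : Continuous r := by
    have := h.per.smooth.continuous_iteratedDeriv (2 * M + 4) (H0.le_inf _)
    rw [hr]
    unfold tn
    fun_prop
  have rp : Function.Periodic (fun s => r s ^ 2) (2 * π) := fun s => by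
    simp only [hr, per_it h.per.per _ s, per_tn M W a0 a1 s]
  have r2 : ∫ x in c1..c2, r (u x) ^ 2 ≤ J ^ 3 * (|K| * XX M W ^ 2 / W) :=
    (h.chg rfl hc.le (fun t => sq_nonneg (r t)) (rc.pow 2) rp).trans (mul_le_mul_of_nonneg_left
      (le_trans (b := K * XX M W ^ 2 / W) (by rw [hr]; exact hT.l2)
        (by gcongr; exact le_abs_self K)) (by positivity))
  have pt : ∀ x ∈ Icc c1 c2, ‖Pm (2 * M + 5) (W ^ 2) κ κ0 u v (al a0 a1) 1 x +
      Pm (2 * M + 5) (W ^ 2) κ κ0 u v (fun t => conj (al a0 a1 t)) (-1) x +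
      (σ * En κ (2 * M + 3) (u x) : ℝ) * wt M W κ0 v x‖ ≤
      (F * e / W ^ 2 + F * F * η) + F * F / η / XX M W ^ 2 * r (u x) ^ 2 := fun x hx => by
    have k1 := hC1 κ (u x) (|K| + 1) (lam M W) J h.per.smooth (by linarith [abs_nonneg K]) hl j1
      (h.ne x hx) (h.le x hx) fun a ha => (hT.sup a ha _).trans
        (mul_le_mul_of_nonneg_right (by linarith [le_abs_self K]) (by positivity))
    have k2 : |σ * (En κ (2 * M + 3) (u x) + iteratedDeriv (2 * M + 4) κ (u x) /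
        deriv κ (u x) ^ (2 * M + 5))| ≤ e * (XX M W / W ^ 2) := by
      have t1 : |σ| = 1 := by rcases h.sg with rfl | rfl <;> simp
      rw [abs_mul, t1, one_mul, ← H0.lam_pow W1', mul_div_cancel_right₀ _ (by positivity), he]
      exact k1.trans (mul_le_mul_of_nonneg_right (le_abs_self _) (by positivity))
    have k3 : sl κ (u x) ^ (2 * M + 5) = σ / deriv κ (u x) ^ (2 * M + 5) := by
      rw [h.sl_eq hx, mul_pow, inv_pow, div_eq_mul_inv]
      rcases h.sg with rfl | rfl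
      · rw [one_pow]
      · rw [Odd.neg_one_pow ⟨M + 2, by ring⟩]
    have k4 : Pm (2 * M + 5) (W ^ 2) κ κ0 u v (al a0 a1) 1 x +
        Pm (2 * M + 5) (W ^ 2) κ κ0 u v (fun t => conj (al a0 a1 t)) (-1) x +
        (σ * En κ (2 * M + 3) (u x) : ℝ) * wt M W κ0 v x =
        (σ * (En κ (2 * M + 3) (u x) + iteratedDeriv (2 * M + 4) κ (u x) /
          deriv κ (u x) ^ (2 * M + 5)) - sl κ (u x) ^ (2 * M + 5) * r (u x) : ℝ) *
          wt M W κ0 v x := by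
      have a1' : ((-1 : ℝ) ^ M) * (-1) ^ M = 1 := by rw [← mul_pow]; simp
      have a2 : σ * (En κ (2 * M + 3) (u x) + iteratedDeriv (2 * M + 4) κ (u x) /
          deriv κ (u x) ^ (2 * M + 5)) - sl κ (u x) ^ (2 * M + 5) * r (u x) =
          σ * En κ (2 * M + 3) (u x) + sl κ (u x) ^ (2 * M + 5) * ((-1) ^ M * XX M W *
            (2 * (al a0 a1 (u x) * exp (I * (W : ℂ) ^ 2 * u x)).re)) := by
        rw [k3, hr, XX]
        simp only [tn, al]
        ring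
      have a3 : ∀ y : ℝ, y * ((-1) ^ M * XX M W) * ((-1) ^ M / XX M W) = y := fun y => by
        rw [mul_assoc, mul_div_assoc', mul_right_comm, a1', one_mul, div_self X0.ne', mul_one]
      have a4 : conj (exp (I * (W : ℂ) ^ 2 * u x)) = exp (-(I * (W : ℂ) ^ 2 * u x)) := by
        rw [← exp_conj]
        simp
      have a5 := congrArg ofReal (a3 (sl κ (u x) ^ (2 * M + 5)))
      have a6 := add_conj (al a0 a1 (u x) * exp (I * (W : ℂ) ^ 2 * u x))
      rw [map_mul, a4] at a6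
      have a7 : exp (I * ((W : ℝ) ^ 2 : ℝ) * (1 * u x - v x : ℝ)) =
          exp (I * (W : ℂ) ^ 2 * u x) * exp (-(I * (W : ℂ) ^ 2 * v x)) := by
        rw [← exp_add]
        congr 1
        push_cast
        ring
      have a8 : exp (I * ((W : ℝ) ^ 2 : ℝ) * (-1 * u x - v x : ℝ)) =
          exp (-(I * (W : ℂ) ^ 2 * u x)) * exp (-(I * (W : ℂ) ^ 2 * v x)) := by
        rw [← exp_add]
        congr 1
        push_cast
        ring
      rw [a2, ofReal_add, add_mul, add_comm (_ * _ : ℂ), add_left_inj, ofReal_mul, ofReal_mul,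
        ← a6, Pm, Pm, wt, a7, a8, ofReal_mul, mul_pow]
      push_cast at a5 ⊢
      linear_combination (-(|deriv κ0 (v x)| : ℝ) ^ (2 * M + 5) * exp (-(I * (W : ℂ) ^ 2 * v x)) *
        (al a0 a1 (u x) * exp (I * (W : ℂ) ^ 2 * u x) +
          conj (al a0 a1 (u x)) * exp (-(I * (W : ℂ) ^ 2 * u x)))) * a5
    have k5 : ‖wt M W κ0 v x‖ ≤ F / XX M W := by
      rw [wt, norm_mul, mul_assoc, ← ofReal_mul, ← mul_neg, ← ofReal_neg, norm_exp_I_mul_ofReal,
        mul_one, norm_real, Real.norm_eq_abs, abs_mul, abs_div, abs_neg_one_pow, abs_of_pos X0,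
        abs_pow, abs_abs, one_div_mul_eq_div, hF]
      gcongr
      exact h0.b1 _
    have k6 : |sl κ (u x) ^ (2 * M + 5) * r (u x)| ≤ F * |r (u x)| := by
      have s0 : 0 ≤ sl κ (u x) := inv_nonneg.2 (abs_nonneg _)
      rw [abs_mul, abs_of_nonneg (pow_nonneg s0 _), hF]
      gcongr
      exact h.le x hx
    have k7 : |r (u x)| / XX M W ≤ η + r (u x) ^ 2 / XX M W ^ 2 / η := by
      rw [← sq_abs (r _), ← div_pow, add_div' _ _ _ η0.ne', le_div_iff₀ η0]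
      nlinarith [sq_nonneg (η - |r (u x)| / XX M W), sq_nonneg η, sq_nonneg (|r (u x)| / XX M W)]
    rw [k4, norm_mul, norm_real, Real.norm_eq_abs]
    calc _ ≤ (e * (XX M W / W ^ 2) + F * |r (u x)|) * (F / XX M W) :=
          mul_le_mul ((abs_sub _ _).trans (add_le_add k2 k6)) k5 (norm_nonneg _) (by positivity)
      _ = F * e / W ^ 2 + F * F * (|r (u x)| / XX M W) := by field_simp
      _ ≤ F * e / W ^ 2 + F * F * (η + r (u x) ^ 2 / XX M W ^ 2 / η) := by gcongr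
      _ = _ := by ring
  have ir : IntervalIntegrable (fun x => r (u x) ^ 2) volume c1 c2 :=
    ((rc.comp_continuousOn h.cont).pow 2).intervalIntegrable_of_Icc hc.le
  have b2 := intervalIntegral.norm_integral_le_of_norm_le hc.le
    (ae_of_all volume fun x hx => pt x (Ioc_subset_Icc_self hx))
    (intervalIntegrable_const.add (ir.const_mul _))
  rw [intervalIntegral.integral_add intervalIntegrable_const (ir.const_mul _),
    intervalIntegral.integral_const, intervalIntegral.integral_const_mul, smul_eq_mul] at b2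
  have b3 := intervalIntegral.integral_add (ii hc.le (cρ.sub cP)) (ii hc.le (cP.add cE))
  simp only [Pi.add_apply, Pi.sub_apply] at b3
  simp only [show ∀ x y z : ℂ, x - y + (y + z) = x + z from fun x y z => by ring] at b3
  rw [b3]
  refine (norm_add_le _ _).trans ((add_le_add b1 b2).trans ?_)
  have ww : (W : ℝ) ≤ W ^ 2 := by nlinarith
  have b4 : (2 * C + F * e * (2 * J) + F * F / η * (J ^ 3 * |K|)) / W ≤ δ / 2 := by
    rw [div_le_iff₀' w0, ← div_le_iff₀ (half_pos δ0)]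
    exact hW1.trans (by exact_mod_cast (Nat.le_succ W1).trans hW)
  calc _ ≤ 2 * C / W + (2 * J * (F * e / W + F * F * η) +
        F * F / η / XX M W ^ 2 * (J ^ 3 * (|K| * XX M W ^ 2 / W))) := by
        gcongr
        exact h.len hc.le
    _ = (2 * C + F * e * (2 * J) + F * F / η * (J ^ 3 * |K|)) / W + F * F * η * (2 * J) := by
        field_simp
        ring
    _ ≤ δ := by linarith

theorem signs {a b : ℝ} {N : ℕ} {s : Fin N → ℝ → ℝ} (hp : Per (2 * π) κ) (h : Br κ a b N s) :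
    ∃ σ : Fin N → ℝ, ∀ i, (σ i = 1 ∨ σ i = -1) ∧
      ∀ x ∈ Ioo a b, |deriv κ (s i x)| = σ i * deriv κ (s i x) := by
  refine Classical.skolem (p := fun i (t : ℝ) => (t = 1 ∨ t = -1) ∧
    ∀ x ∈ Ioo a b, |deriv κ (s i x)| = t * deriv κ (s i x)).1 fun i => ?_
  have c : ContinuousOn (fun x => deriv κ (s i x)) (Ioo a b) :=
    (contDiff_infty_iff_deriv.1 hp.smooth).2.continuous.comp_continuousOn fun x hx =>
      (h.der i x hx).continuousAt.continuousWithinAt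
  rcases isPreconnected_Ioo.mapsTo_Ioi_or_Iio c (h.ne i) with k | k
  · exact ⟨1, .inl rfl, fun x hx => by rw [abs_of_pos (k hx), one_mul]⟩
  · exact ⟨-1, .inr rfl, fun x hx => by rw [abs_of_neg (k hx), neg_one_mul]⟩

theorem dsum (hE : St_EN) {a b : ℝ} {N : ℕ} {s : Fin N → ℝ → ℝ} (hp : Per (2 * π) κ)
    (h : Br κ a b N s) (σ : Fin N → ℝ) (n : ℕ) (hx : x ∈ Ioo a b) :
    HasDerivAt (fun x => ∑ i, σ i * En κ n (s i x)) (∑ i, σ i * En κ (n + 1) (s i x)) x :=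
  HasDerivAt.fun_sum fun i _ => (((hE.1 κ hp.smooth n _ (h.ne i x hx)).differentiableAt
    (by simp)).hasDerivAt.comp x (h.der i x hx)).const_mul _

theorem sum0 {a b : ℝ} {N : ℕ} {s : Fin N → ℝ → ℝ} {σ : Fin N → ℝ}
    (h : ∀ i, (σ i = 1 ∨ σ i = -1) ∧ ∀ x ∈ Ioo a b, |deriv κ (s i x)| = σ i * deriv κ (s i x))
    (hx : x ∈ Ioo a b) : ∑ i, σ i * En κ 0 (s i x) = ∑ i, sl κ (s i x) :=
  Finset.sum_congr rfl fun i _ => by
    rw [sl, (h i).2 x hx, mul_inv, En]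
    rcases (h i).1 with e | e <;> rw [e] <;> norm_num

end B34

open B34 in
theorem st_b34 (hE : St_EN) : St_B34 := by
  intro M j K hj
  have j0 : (0 : ℝ) < j := by exact_mod_cast hj
  obtain ⟨W1, hW1⟩ := one hE M j K ((2 * j ^ 2)⁻¹) hj (by positivity)
  refine ⟨W1, fun W hW κ κ' c a0 a1 p p' k k' t t' a b c1 c2 N N' s s' i0 A τ β h h' h0 hN hN' l1
    l2 l3 hx => ?_⟩
  obtain ⟨σ, hσ⟩ := signs p h
  obtain ⟨σ', hσ'⟩ := signs p' h'
  have sub : Icc c1 c2 ⊆ Ioo a b := Icc_subset_Ioo l1 l3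
  have e : ∀ n, ∀ x ∈ Ioo a b, ∑ i, σ i * En κ n (s i x) = ∑ i, σ' i * En κ' n (s' i x) := by
    intro n
    induction n with
    | zero => exact fun x hx => by rw [sum0 hσ hx, sum0 hσ' hx, h0 x hx]
    | succ n ih =>
      exact fun x hx => (dsum hE p h σ n hx).unique ((dsum hE p' h' σ' n hx).congr_of_eventuallyEq
        (eventually_of_mem (isOpen_Ioo.mem_nhds hx) ih))
  have b1 : ∀ i, B1 j c1 c2 κ (s i) (σ i) := fun i => ⟨by exact_mod_cast hj, p, k,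
    fun x m => h.lev i x (sub m), fun x m => h.der i x (sub m), fun x m => h.ne i x (sub m),
    fun x m => (hx x m).1 i, (hσ i).1, fun x m => (hσ i).2 x (sub m)⟩
  have b2 : ∀ i, B1 j c1 c2 κ' (s' i) (σ' i) := fun i => ⟨by exact_mod_cast hj, p', k',
    fun x m => h'.lev i x (sub m), fun x m => h'.der i x (sub m), fun x m => h'.ne i x (sub m),
    fun x m => (hx x m).2.1 i, (hσ' i).1, fun x m => (hσ' i).2 x (sub m)⟩
  have d1 := fun i => hW1 W hW c1 c2 _ _ κ κ _ _ 1 c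
    (fun x => if i = i0 then res W 1 c 1 0 (s i0 x) else 0) (b1 i) (b1 i0) l2 t (by
      by_cases m : i = i0
      · exact .inr ⟨1, 0, by simp [m], fun x _ => by simp [m]⟩
      · exact .inl ⟨by simp [m, funext_iff], fun x y => (hx x y).2.2.1 i m⟩)
  have d2 := fun i => hW1 W hW c1 c2 _ _ κ' κ _ _ a0 a1
    (fun x => if i ∈ A then res W a0 a1 (τ i) (β i) (s i0 x) else 0) (b2 i) (b1 i0) l2 t' (by
      by_cases m : i ∈ A
      · exact .inr ⟨τ i, β i, by simp [m], fun x y => (hx x y).2.2.2.2 i m⟩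
      · exact .inl ⟨by simp [m, funext_iff], fun x y => (hx x y).2.2.2.1 i m⟩)
  have i1 := intervalIntegral.integral_finsetSum (s := Finset.univ) fun i _ => (d1 i).1
  have i2 := intervalIntegral.integral_finsetSum (s := Finset.univ) fun i _ => (d2 i).1
  have n1 := (norm_sum_le _ _).trans (Finset.sum_le_card_nsmul Finset.univ _ _ fun i _ => (d1 i).2)
  have n2 := (norm_sum_le _ _).trans (Finset.sum_le_card_nsmul Finset.univ _ _ fun i _ => (d2 i).2)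
  rw [← i1, Finset.card_fin, nsmul_eq_mul] at n1
  rw [← i2, Finset.card_fin, nsmul_eq_mul] at n2
  refine le_trans (le_of_eq ?_) (((norm_sub_le _ _).trans (add_le_add n1 n2)).trans ?_)
  · have s1 := IntervalIntegrable.sum Finset.univ fun i _ => (d1 i).1
    have s2 := IntervalIntegrable.sum Finset.univ fun i _ => (d2 i).1
    rw [Finset.sum_fn] at s1 s2
    rw [← intervalIntegral.integral_sub s1 s2]
    refine congrArg norm (intervalIntegral.integral_congr fun x m => ?_)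
    rw [uIcc_of_le l2.le] at m
    simp only [Finset.sum_add_distrib, ← Finset.sum_mul, ← ofReal_sum, e _ x (sub m),
      Finset.sum_ite_eq', Finset.mem_univ, if_true, Finset.sum_ite_mem, Finset.univ_inter]
    simp [res]
  · have a1 : (N : ℝ) ≤ j := by exact_mod_cast hN
    have a2 : (N' : ℝ) ≤ j := by exact_mod_cast hN'
    calc _ ≤ (j : ℝ) * (2 * (j : ℝ) ^ 2)⁻¹ + (j : ℝ) * (2 * (j : ℝ) ^ 2)⁻¹ := by gcongr
      _ = _ := by field_simp; norm_num

end Pool.Agent.Lib.IS2
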