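import Pool.Agent.Lib.IS2.Blue

/-! Branches of a periodic function over its regular values. -/

open scoped ContDiff ComplexConjugate Topology Real
open Complex MeasureTheory Set Filter

noncomputable section

namespace Pool.Agent.Lib.IS2

open Pool.Agent.Lib.ISO

namespace BR

variable {κ κ' : ℝ → ℝ}

lemma pp : (0 : ℝ) < 2 * π := Real.two_pi_pos
lemma dif (h : Per (2 * π) κ) : Differentiable ℝ κ := h.smooth.differentiable (by simp)
lemma cont (h : Per (2 * π) κ) : Continuous κ := h.smooth.continuous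
lemma cont' (h : Per (2 * π) κ) : Continuous (deriv κ) := h.smooth.continuous_deriv (by simp)
lemma pz (h : Per (2 * π) κ) (t : ℝ) (n : ℤ) : κ (t + n * (2 * π)) = κ t :=
  (show Function.Periodic κ (2 * π) from h.per).int_mul n t
lemma pz' (h : Per (2 * π) κ) (t : ℝ) (n : ℤ) : deriv κ (t + n * (2 * π)) = deriv κ t :=
  (per_deriv' (show Function.Periodic κ (2 * π) from h.per)).int_mul n t

lemma red (u t : ℝ) : ∃ n : ℤ, t + n * (2 * π) ∈ Ico u (u + 2 * π) := by
  refine ⟨-toIcoDiv pp u t, ?_⟩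
  have h := toIcoMod_mem_Ico pp u t
  have e := self_sub_toIcoDiv_zsmul pp u t
  rw [← e, zsmul_eq_mul] at h
  simpa [sub_eq_add_neg] using h

lemma crit (h : Per (2 * π) κ) : {c | ∀ t, κ t = c → deriv κ t ≠ 0} =
    (κ '' (Icc 0 (2 * π) ∩ {t | deriv κ t = 0}))ᶜ := by
  ext c
  simp only [mem_ofPred_eq, mem_compl_iff, mem_image, not_exists, not_and]
  refine ⟨fun H t ht e => H t e ht.2, fun H t e h0 => ?_⟩
  obtain ⟨n, hn⟩ := red 0 t
  exact H _ ⟨⟨hn.1, by linarith [hn.2]⟩, (pz' h t n).trans h0⟩ ((pz h t n).trans e)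

lemma opn (h : Per (2 * π) κ) : IsOpen {c | ∀ t, κ t = c → deriv κ t ≠ 0} := by
  rw [crit h]
  exact ((isCompact_Icc.inter_right (isClosed_eq (cont' h) continuous_const)).image
    (cont h)).isClosed.isOpen_compl

lemma dns (h : Per (2 * π) κ) : Dense {c | ∀ t, κ t = c → deriv κ t ≠ 0} := by
  rw [crit h]
  refine Measure.dense_of_ae (μ := volume) ?_
  refine compl_mem_ae_iff.2 (addHaar_image_eq_zero_of_det_fderivWithin_eq_zero volume
    (f' := fun _ => 0) (fun t ht => ?_) fun _ _ => by simp)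
  have := (dif h t).hasDerivAt.hasFDerivAt
  rw [show deriv κ t = 0 from ht.2] at this
  simpa using this.hasFDerivWithinAt

lemma loc (h : Per (2 * π) κ) {t : ℝ} (ht : deriv κ t ≠ 0) : ∃ (g : ℝ → ℝ) (U : Set ℝ), IsOpen U ∧
    t ∈ U ∧ (∀ u ∈ U, g (κ u) = u) ∧ ContinuousAt g (κ t) ∧ ∀ᶠ y in 𝓝 (κ t), κ (g y) = y ∧
      deriv κ (g y) ≠ 0 ∧ HasDerivAt g (deriv κ (g y))⁻¹ y := by
  have hs := ((h.smooth.contDiffAt (x := t)).hasStrictDerivAt (by simp)).hasStrictFDerivAt_equiv ht
  let e := hs.toOpenPartialHomeomorph κ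
  have he : ∀ x, e x = κ x := fun _ => rfl
  have h1 : t ∈ e.source := hs.mem_toOpenPartialHomeomorph_source
  have h2 : e.target ∈ 𝓝 (κ t) := e.open_target.mem_nhds (e.map_source h1)
  have h3 : ContinuousAt e.symm (κ t) := e.continuousAt_symm (e.map_source h1)
  refine ⟨e.symm, e.source, e.open_source, h1, fun u hu => e.left_inv hu, h3, ?_⟩
  have h4 : ∀ᶠ y in 𝓝 (κ t), deriv κ (e.symm y) ≠ 0 := by
    refine ((cont' h).continuousAt.comp h3).eventually_ne ?_
    rwa [Function.comp_apply, show e.symm (κ t) = t from e.left_inv h1]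
  filter_upwards [h2, h4] with y hy h5
  refine ⟨e.right_inv hy, h5, HasDerivAt.of_local_left_inverse (e.continuousAt_symm hy)
    (dif h _).hasDerivAt h5 ?_⟩
  filter_upwards [e.open_target.mem_nhds hy] with z hz using e.right_inv hz

lemma int_abs {n : ℤ} (h : |(n : ℝ) * (2 * π)| < 2 * π) : n = 0 := by
  rw [abs_mul, abs_of_pos pp, mul_lt_iff_lt_one_left pp] at h
  exact Int.abs_lt_one_iff.1 (by exact_mod_cast h)

lemma brs (h : Per (2 * π) κ) (c : ℝ) (hc : ∀ t, κ t = c → deriv κ t ≠ 0) :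
    ∃ ε > 0, ∃ N s, Br κ (c - ε) (c + ε) N s := by
  classical
  choose g U hU hm hl hg he using fun t : {t // κ t = c} => loc h (hc t t.2)
  have hK : IsCompact (Icc 0 (2 * π) ∩ {t | κ t = c}) :=
    isCompact_Icc.inter_right (isClosed_eq (cont h) continuous_const)
  have hF : (Icc 0 (2 * π) ∩ {t | κ t = c}).Finite := by
    refine hK.finite (isDiscrete_iff_forall_mem_exists_isOpen.2 fun t ht => ⟨U ⟨t, ht.2⟩, hU _, ?_⟩)
    refine Subset.antisymm (fun u hu => ?_) (singleton_subset_iff.2 ⟨hm ⟨t, ht.2⟩, ht⟩)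
    have := hl _ _ hu.1
    rw [show κ u = κ t from hu.2.2.trans ht.2.symm, hl ⟨t, ht.2⟩ t (hm _)] at this
    exact this.symm
  have hF' : (Ico 0 (0 + 2 * π) ∩ {t | κ t = c}).Finite :=
    hF.subset fun t ht => ⟨⟨ht.1.1, by linarith [ht.1.2]⟩, ht.2⟩
  obtain ⟨N, f, hf, hr⟩ := hF'.fin_param
  have hfm : ∀ i, f i ∈ Ico 0 (0 + 2 * π) ∩ {t | κ t = c} := fun i => hr ▸ mem_range_self i
  let t : Fin N → {t // κ t = c} := fun i => ⟨f i, (hfm i).2⟩
  have hc' : ∀ i, ContinuousAt (g (t i)) c := fun i => (t i).2 ▸ hg (t i)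
  have hv : ∀ i, g (t i) c = f i := fun i => by
    have := hl (t i) _ (hm _)
    rwa [(t i).2] at this
  have e1 : ∀ᶠ y in 𝓝 c, ∀ i, κ (g (t i) y) = y ∧ deriv κ (g (t i) y) ≠ 0 ∧
      HasDerivAt (g (t i)) (deriv κ (g (t i) y))⁻¹ y :=
    eventually_all.2 fun i => by simpa only [(t i).2] using he (t i)
  have e2 : ∀ᶠ y in 𝓝 c, ∀ i k, |g (t i) y - g (t k) y| < 2 * π ∧
      (i ≠ k → g (t i) y - g (t k) y ≠ 0) := by
    refine eventually_all.2 fun i => eventually_all.2 fun k => Eventually.and ?_ ?_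
    · refine ((hc' i).sub (hc' k)).abs.eventually_lt continuousAt_const ?_
      rw [Pi.sub_apply, hv, hv, abs_lt]
      constructor <;> linarith [(hfm i).1.1, (hfm i).1.2, (hfm k).1.1, (hfm k).1.2]
    · refine eventually_imp_distrib_left.2 fun hik => ((hc' i).sub (hc' k)).eventually_ne ?_
      rw [Pi.sub_apply, hv, hv]
      exact sub_ne_zero.2 (hf.ne hik)
  let O : Set ℝ := ⋃ i, ⋃ n : ℤ, (fun u => u + n * (2 * π)) ⁻¹' U (t i)
  have hO : IsOpen O := isOpen_iUnion fun i => isOpen_iUnion fun n => (hU _).preimage (by fun_prop)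
  have e3 : ∀ᶠ y in 𝓝 c, y ∉ κ '' (Icc 0 (2 * π) \ O) := by
    refine ((isCompact_Icc.diff hO).image (cont h)).isClosed.isOpen_compl.mem_nhds ?_
    rintro ⟨u, hu, e⟩
    obtain ⟨n, hn⟩ := red 0 u
    obtain ⟨i, hi⟩ : u + n * (2 * π) ∈ range f := hr ▸ ⟨hn, (pz h u n).trans e⟩
    exact hu.2 (mem_iUnion₂.2 ⟨i, n, by rw [mem_preimage, ← hi]; exact hm (t i)⟩)
  obtain ⟨ε, hε, H⟩ := Metric.eventually_nhds_iff_ball.1 (e1.and (e2.and e3))
  rw [Real.ball_eq_Ioo] at H
  refine ⟨ε, hε, N, fun i => g (t i), fun i y hy => ((H y hy).1 i).1, fun i y hy => ((H y hy).1 i).2.1,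
    fun i y hy => ((H y hy).1 i).2.2, fun i k y hy n e => ?_, fun y hy u e => ?_⟩
  · obtain ⟨a, b⟩ := (H y hy).2.1 i k
    have e' : g (t i) y - g (t k) y = n * (2 * π) := by linarith
    by_contra hik
    rw [e'] at a b
    exact b hik (by rw [int_abs a]; simp)
  · obtain ⟨n, hn⟩ := red 0 u
    have : u + n * (2 * π) ∈ O := by
      by_contra h0
      exact (H y hy).2.2 ⟨_, ⟨⟨hn.1, by linarith [hn.2]⟩, h0⟩, (pz h u n).trans e⟩
    obtain ⟨i, m, hi⟩ := mem_iUnion₂.1 this
    have := hl _ _ hi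
    rw [pz h, pz h, e] at this
    exact ⟨i, -(n + m), by rw [this]; push_cast; ring⟩

/-- equal moments give equal distributions -/
lemma push (h : Per (2 * π) κ) (h' : Per (2 * π) κ') (hM : Mom κ κ') (u u' : ℝ) :
    (volume.restrict (Ico u (u + 2 * π))).map κ = (volume.restrict (Ico u' (u' + 2 * π))).map κ' := by
  have sh : ∀ {k : ℝ → ℝ}, Per (2 * π) k → ∀ (v : ℝ) (F : BoundedContinuousFunction ℝ ℝ),
      ∫ x, F x ∂(volume.restrict (Ico v (v + 2 * π))).map k = ∫ s in (0 : ℝ)..(2 * π), F (k s) := by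
    intro k hk v F
    rw [integral_map (cont hk).aemeasurable F.continuous.aestronglyMeasurable,
      integral_Ico_eq_integral_Ioo, ← integral_Ioc_eq_integral_Ioo,
      ← intervalIntegral.integral_of_le (by linarith [pp])]
    have : Function.Periodic (fun s => F (k s)) (2 * π) := fun s => by simp only [hk.per]
    simpa using this.intervalIntegral_add_eq v 0
  refine ext_of_forall_integral_eq_of_IsFiniteMeasure fun F => ?_
  rw [sh h, sh h']
  have hp : ∀ p : Polynomial ℝ, ∫ s in (0 : ℝ)..(2 * π), p.eval (κ s) =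
      ∫ s in (0 : ℝ)..(2 * π), p.eval (κ' s) := fun p => by
    simp only [Polynomial.eval_eq_sum_range]
    have c1 := cont h
    have c2 := cont h'
    rw [intervalIntegral.integral_finsetSum fun i _ => Continuous.intervalIntegrable (by fun_prop) _ _,
      intervalIntegral.integral_finsetSum fun i _ => Continuous.intervalIntegrable (by fun_prop) _ _]
    exact Finset.sum_congr rfl fun i _ => by
      rw [intervalIntegral.integral_const_mul, intervalIntegral.integral_const_mul, hM i]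
  obtain ⟨B, hB⟩ := (isCompact_uIcc (a := (0 : ℝ)) (b := 2 * π)).exists_bound_of_continuousOn
    ((cont h).prodMk (cont h')).continuousOn
  refine eq_of_forall_dist_le fun ε hε => ?_
  obtain ⟨p, hq⟩ := exists_polynomial_near_of_continuousOn (-B) B F F.continuous.continuousOn
    (ε / (4 * π)) (by positivity)
  have k : ∀ {k : ℝ → ℝ}, Continuous k → (∀ s ∈ uIcc 0 (2 * π), |k s| ≤ B) →
      |(∫ s in (0 : ℝ)..(2 * π), p.eval (k s)) - ∫ s in (0 : ℝ)..(2 * π), F (k s)| ≤ ε / 2 := by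
    intro k hk hb
    rw [← intervalIntegral.integral_sub (Continuous.intervalIntegrable (by fun_prop) _ _)
      (Continuous.intervalIntegrable (by fun_prop) _ _)]
    refine (intervalIntegral.norm_integral_le_of_norm_le_const (C := ε / (4 * π))
      (f := fun s => p.eval (k s) - F (k s)) fun s hs =>
      (hq _ (abs_le.1 (hb s (uIoc_subset_uIcc hs)))).le).trans (le_of_eq ?_)
    rw [sub_zero, abs_of_pos pp]
    field_simp
    norm_num
  have k1 := k (cont h) fun s hs => (le_max_left _ _).trans (hB s hs)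
  have k2 := k (cont h') fun s hs => (le_max_right _ _).trans (hB s hs)
  rw [hp p] at k1
  rw [Real.dist_eq, abs_le] at *
  constructor <;> linarith [k1.1, k1.2, k2.1, k2.2]

lemma csl (h : Per (2 * π) κ) {a b : ℝ} {N : ℕ} {s : Fin N → ℝ → ℝ} (hB : Br κ a b N s) (i : Fin N) :
    ContinuousOn (fun x => sl κ (s i x)) (Ioo a b) := fun x hx =>
  ((((cont' h).continuousAt.comp (hB.der i x hx).continuousAt).abs).inv₀
    (abs_ne_zero.2 (hB.ne i x hx))).continuousWithinAt

lemma cnt (h : Per (2 * π) κ) {a b : ℝ} {N : ℕ} {s : Fin N → ℝ → ℝ} (hB : Br κ a b N s) {x : ℝ}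
    (hx : x ∈ Ioo a b) : ∃ u, ∃ V ∈ 𝓝 x, ∀ E ⊆ V, MeasurableSet E →
      (volume.restrict (Ico u (u + 2 * π))).map κ E =
        ∫⁻ y in E, ENNReal.ofReal (∑ i, sl κ (s i y)) := by
  obtain ⟨u, hu⟩ : ∃ u, κ u ≠ x := by
    by_contra H
    push Not at H
    obtain ⟨i, -⟩ := hB.all x hx 0 (H 0)
    exact hB.ne i x hx (by rw [show κ = fun _ => x from funext H, deriv_const])
  choose n hn using fun i => red u (s i x)
  have e1 : ∀ᶠ y in 𝓝 x, ∀ i, s i y + n i * (2 * π) ∈ Ioo u (u + 2 * π) :=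
    eventually_all.2 fun i => ((hB.der i x hx).continuousAt.add continuousAt_const).eventually_mem
      (isOpen_Ioo.mem_nhds ⟨(hn i).1.lt_of_ne fun e => hu (by rw [e, pz h, hB.lev i x hx]), (hn i).2⟩)
  refine ⟨u, _, inter_mem (isOpen_Ioo.mem_nhds hx) e1, fun E hE hm => ?_⟩
  have hd : ∀ i, ∀ y ∈ E, HasDerivWithinAt (fun y => s i y + n i * (2 * π))
      (deriv κ (s i y))⁻¹ E y := fun i y hy => ((hB.der i y (hE hy).1).add_const _).hasDerivWithinAt
  have hv : ∀ i, ∀ y ∈ E, κ (s i y + n i * (2 * π)) = y := fun i y hy => by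
    rw [pz h, hB.lev i y (hE hy).1]
  have hi : ∀ i, InjOn (fun y => s i y + n i * (2 * π)) E := fun i y hy z hz e => by
    rw [← hv i y hy, ← hv i z hz]
    exact congrArg κ e
  have hs : κ ⁻¹' E ∩ Ico u (u + 2 * π) = ⋃ i, (fun y => s i y + n i * (2 * π)) '' E := by
    ext t
    simp only [mem_inter_iff, mem_preimage, mem_iUnion, mem_image]
    constructor
    · rintro ⟨h1, h2⟩
      obtain ⟨i, m, e⟩ := hB.all _ (hE h1).1 t rfl
      refine ⟨i, κ t, h1, ?_⟩
      have h3 := (hE h1).2 i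
      have : m - n i = 0 := int_abs (by
        rw [abs_lt]
        push_cast
        constructor <;> linarith [h2.1, h2.2, h3.1, h3.2])
      rw [← sub_eq_zero.1 this]
      exact e.symm
    · rintro ⟨i, y, hy, rfl⟩
      exact ⟨by rwa [hv i y hy], Ioo_subset_Ico_self ((hE hy).2 i)⟩
  rw [Measure.map_apply (cont h).measurable hm, Measure.restrict_apply ((cont h).measurable hm), hs,
    measure_iUnion ?_ fun i => measurable_image_of_fderivWithin hm
      (fun y hy => (hd i y hy).hasFDerivWithinAt) (hi i), tsum_fintype]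
  · have hc : ∀ i, AEMeasurable (fun y => ENNReal.ofReal (sl κ (s i y))) (volume.restrict E) :=
      fun i => (((csl h hB i).mono fun y hy => (hE hy).1).aemeasurable hm).ennreal_ofReal
    simp only [ENNReal.ofReal_sum_of_nonneg fun i _ => show 0 ≤ sl κ _ from inv_nonneg.2 (abs_nonneg _)]
    rw [lintegral_finsetSum' _ fun i _ => hc i]
    refine Finset.sum_congr rfl fun i _ => ?_
    have := lintegral_image_eq_lintegral_abs_deriv_mul hm (hd i) (hi i) fun _ => 1
    simpa [sl, abs_inv] using this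
  · intro i k hik
    refine Set.disjoint_left.2 ?_
    rintro _ ⟨y, hy, rfl⟩ ⟨z, hz, e⟩
    have : z = y := by rw [← hv k z hz, ← hv i y hy]; exact congrArg κ e
    subst this
    exact hik (hB.inj i k z (hE hy).1 (n k - n i) (by push_cast; linarith))

end BR

open BR in
theorem st_br : St_BR := by
  refine ⟨fun κ h => ⟨opn h, dns h, brs h⟩, fun κ κ' h h' hM a b N N' s s' hB hB' x hx => ?_⟩
  obtain ⟨u, V, hV, H⟩ := cnt h hB hx
  obtain ⟨u', V', hV', H'⟩ := cnt h' hB' hx
  obtain ⟨U, hU, hO, hxU⟩ := mem_nhds_iff.1 (inter_mem (inter_mem hV hV') (isOpen_Ioo.mem_nhds hx))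
  have c1 : ContinuousOn (fun y => ∑ i, sl κ (s i y)) U :=
    continuousOn_finsetSum _ fun i _ => (csl h hB i).mono fun y hy => (hU hy).2
  have c2 : ContinuousOn (fun y => ∑ i, sl κ' (s' i y)) U :=
    continuousOn_finsetSum _ fun i _ => (csl h' hB' i).mono fun y hy => (hU hy).2
  have nn : ∀ k t, 0 ≤ sl k t := fun k t => inv_nonneg.2 (abs_nonneg _)
  refine Measure.eqOn_open_of_ae_eq (μ := volume) ?_ hO c1 c2 hxU
  have := ae_eq_of_forall_setLIntegral_eq_of_sigmaFinite₀ (μ := volume.restrict U)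
    (c1.aemeasurable hO.measurableSet).ennreal_ofReal
    (c2.aemeasurable hO.measurableSet).ennreal_ofReal fun E hE _ => by
      have hm := hE.inter hO.measurableSet
      rw [Measure.restrict_restrict hE, ← H _ (fun y hy => (hU hy.2).1.1) hm,
        ← H' _ (fun y hy => (hU hy.2).1.2) hm, push h h' hM u u']
  filter_upwards [this] with y hy
  exact (ENNReal.ofReal_eq_ofReal_iff (Finset.sum_nonneg fun i _ => nn _ _)
    (Finset.sum_nonneg fun i _ => nn _ _)).1 hy

end Pool.Agent.Lib.IS2
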