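import Pool.Agent.Lib.IS2.B_C1a

/-! Row C1: the normal derivative of the Green function is the Poisson kernel. -/

open scoped ContDiff ComplexConjugate Topology Real
open Complex MeasureTheory Set Filter

noncomputable section

namespace Pool.Agent.Lib.IS2
namespace C1

lemma est {κ e φ D1 D2 : ℝ → ℝ} (c1 : Continuous D1) (c2 : Continuous D2) (ce : Continuous e)
    (cφ : Continuous φ) (pe : Function.Periodic e (2 * π)) (hκ : ∀ v, κ v = D1 v - D2 v + e v)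
    {s C A B m t ε : ℝ} (h0 : 0 < ε) (h1 : ε ≤ 1) (h2 : ε ≤ t)
    (i1 : ∫ v in (0 : ℝ)..(2 * π), |D1 v| ≤ C) (i2 : ∫ v in (0 : ℝ)..(2 * π), |D2 v| ≤ C)
    (hA : ∀ v, |e v| ≤ A) (hn : ∀ v, dc s v < ε → |φ v - φ s| ≤ t)
    (hf : ∀ v, ε ≤ dc s v → |κ v| ≤ t ∧ |e v| ≤ 2 * t) (p0 : ∀ v, 0 ≤ φ v)
    (p1 : ∫ v in (0 : ℝ)..(2 * π), φ v ≤ 1) (pB : φ s ≤ B)
    (hm : |(∫ v in (0 : ℝ)..(2 * π), D1 v) - (∫ v in (0 : ℝ)..(2 * π), D2 v) - 1| ≤ m * t) :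
    |(∫ v in (0 : ℝ)..(2 * π), κ v * φ v) - φ s| ≤
      t * (2 * C + 2 * π * A + 1 + 2 * π * B + B * (m + 2 * A + 4 * π)) := by
  have ht : 0 < t := h0.trans_le h2
  have hA0 : 0 ≤ A := (abs_nonneg _).trans (hA 0)
  have hB0 : 0 ≤ B := (p0 s).trans pB
  have cκ : Continuous κ := by rw [funext hκ]; fun_prop
  have a1 : |∫ v in (0 : ℝ)..(2 * π), κ v * (φ v - φ s)| ≤
      ∫ v in (0 : ℝ)..(2 * π), t * (|D1 v| + |D2 v| + φ v + (A + B)) := by
    have cg : Continuous fun v => t * (|D1 v| + |D2 v| + φ v + (A + B)) := by fun_prop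
    refine intervalIntegral.norm_integral_le_of_norm_le (μ := volume)
      (f := fun v => κ v * (φ v - φ s)) Real.two_pi_pos.le
      (Eventually.of_forall fun v _ => ?_) (cg.intervalIntegrable _ _)
    rw [Real.norm_eq_abs, abs_mul]
    have b1 := abs_nonneg (D1 v)
    have b2 := abs_nonneg (D2 v)
    have b3 := p0 v
    rcases lt_or_ge (dc s v) ε with h | h
    · have b4 : |κ v| ≤ |D1 v| + |D2 v| + A := by
        rw [hκ]
        exact (abs_add_le _ _).trans (add_le_add (abs_sub _ _) (hA v))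
      calc |κ v| * |φ v - φ s| ≤ (|D1 v| + |D2 v| + A) * t :=
            mul_le_mul b4 (hn v h) (abs_nonneg _) (by positivity)
        _ ≤ _ := by nlinarith [mul_nonneg ht.le b3, mul_nonneg ht.le hB0]
    · have b4 : |φ v - φ s| ≤ φ v + B := abs_le.2 ⟨by linarith, by linarith [p0 s]⟩
      calc |κ v| * |φ v - φ s| ≤ t * (φ v + B) :=
            mul_le_mul (hf v h).1 b4 (abs_nonneg _) ht.le
        _ ≤ _ := mul_le_mul_of_nonneg_left (by linarith) ht.le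
  rw [intervalIntegral.integral_const_mul, intervalIntegral.integral_add
    (Continuous.intervalIntegrable (by fun_prop) _ _) intervalIntegrable_const,
    intervalIntegral.integral_add (Continuous.intervalIntegrable (by fun_prop) _ _)
    (cφ.intervalIntegrable _ _), intervalIntegral.integral_add (c1.abs.intervalIntegrable _ _)
    (c2.abs.intervalIntegrable _ _), intervalIntegral.integral_const, sub_zero, smul_eq_mul] at a1
  have a2 := split ce pe s h0 h1 (by positivity) hA fun v h => (hf v h).2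
  have a3 : ∫ v in (0 : ℝ)..(2 * π), κ v = (∫ v in (0 : ℝ)..(2 * π), D1 v) -
      (∫ v in (0 : ℝ)..(2 * π), D2 v) + ∫ v in (0 : ℝ)..(2 * π), e v := by
    simp only [hκ]
    rw [intervalIntegral.integral_add ((c1.fun_sub c2).intervalIntegrable _ _)
      (ce.intervalIntegrable _ _), intervalIntegral.integral_sub (c1.intervalIntegrable _ _)
      (c2.intervalIntegrable _ _)]
  have a4 : ∫ v in (0 : ℝ)..(2 * π), κ v * (φ v - φ s) =
      (∫ v in (0 : ℝ)..(2 * π), κ v * φ v) - (∫ v in (0 : ℝ)..(2 * π), κ v) * φ s := by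
    simp only [mul_sub]
    rw [intervalIntegral.integral_sub ((cκ.fun_mul cφ).intervalIntegrable _ _)
      ((cκ.fun_mul continuous_const).intervalIntegrable _ _), intervalIntegral.integral_mul_const]
  have a5 : |(∫ v in (0 : ℝ)..(2 * π), κ v) - 1| ≤ (m + 2 * A + 4 * π) * t := by
    rw [a3, add_sub_right_comm]
    refine (abs_add_le _ _).trans ?_
    nlinarith [mul_le_mul_of_nonneg_right h2 hA0]
  have a6 : |((∫ v in (0 : ℝ)..(2 * π), κ v) - 1) * φ s| ≤ (m + 2 * A + 4 * π) * t * B := by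
    rw [abs_mul, abs_of_nonneg (p0 s)]
    exact mul_le_mul a5 pB (p0 s) ((abs_nonneg _).trans a5)
  have a7 : (∫ v in (0 : ℝ)..(2 * π), κ v * φ v) - φ s =
      (∫ v in (0 : ℝ)..(2 * π), κ v * (φ v - φ s)) +
        ((∫ v in (0 : ℝ)..(2 * π), κ v) - 1) * φ s := by rw [a4]; ring
  rw [a7]
  refine (abs_add_le _ _).trans ((add_le_add (a1.trans (mul_le_mul_of_nonneg_left
    (add_le_add (add_le_add (add_le_add i1 i2) p1) le_rfl) ht.le)) a6).trans_eq (by ring))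

lemma dl_one (hG : St_GRN) {μ : ℝ} (hμ : 0 < μ) {Ω : Set ℂ} {γ : ℝ → ℂ} (h : CD Ω γ) {x : ℂ}
    (hx : x ∉ range γ) : ∫ v in (0 : ℝ)..(2 * π), DLk μ γ x v =
      Ω.indicator (fun _ => (1 : ℝ)) x - μ ^ 2 * Vp μ (Ω.indicator fun _ => 1) x := by
  have h1 := (hG μ hμ).2 Ω γ univ (fun _ => 1) x h isOpen_univ (subset_univ _) contDiffOn_const hx
  have h2 : Vp μ (Ω.indicator fun _ => 1) x = ∫ z in Ω, Gr μ (x - z) := by
    rw [Vp, ← integral_indicator h.opn.measurableSet]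
    congr 1
    funext z
    by_cases hz : z ∈ Ω <;> simp [hz]
  simp only [lap, fderiv_fun_const, Pi.zero_apply, zero_apply, mul_zero,
    add_zero, zero_add, mul_one, sub_zero, integral_mul_const] at h1
  rw [h1, h2]; ring

lemma V_uc (hV : St_VP) {μ : ℝ} (hμ : 0 < μ) {Ω : Set ℂ} {γ : ℝ → ℂ} (h : CD Ω γ) (R : ℝ) {t : ℝ}
    (ht : 0 < t) : ∃ d > 0, ∀ x x' : ℂ, ‖x‖ ≤ R → ‖x'‖ ≤ R → ‖x - x'‖ < d →
      |Vp μ (Ω.indicator fun _ => 1) x - Vp μ (Ω.indicator fun _ => 1) x'| ≤ t := by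
  obtain ⟨R0, hR⟩ := h.bdd.exists_norm_le
  have hc := (hV μ (Ω.indicator fun _ => 1) hμ (memLp_indicator_const 2 h.opn.measurableSet 1
    (Or.inr h.bdd.measure_lt_top.ne)) ⟨R0, fun z hz => indicator_of_notMem
      (fun h1 => (hR z h1).not_gt hz) _⟩).1
  obtain ⟨d, hd, h1⟩ := Metric.uniformContinuousOn_iff.1
    ((isCompact_closedBall (0 : ℂ) R).uniformContinuousOn_of_continuous hc.continuousOn) t ht
  exact ⟨d, hd, fun x x' a b c =>
    (h1 x (by simpa using a) x' (by simpa using b) (by rwa [dist_eq_norm])).le⟩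

lemma nr_lip {j : ℝ} {γ : ℝ → ℂ} (h : Nc j γ) (s v : ℝ) : ‖nr γ s - nr γ v‖ ≤ j * dc s v := by
  obtain ⟨k, hk⟩ := exists_dc s v
  have h1 : ‖deriv γ s - deriv γ (v + k * (2 * π))‖ ≤ j * |s - (v + k * (2 * π))| := by
    simpa using (convex_univ (𝕜 := ℝ) (E := ℝ)).norm_image_sub_le_of_norm_deriv_le (C := j)
      (fun x _ => (h.hd1 x).differentiableAt) (fun x _ => h.b2 x) (mem_univ (v + k * (2 * π)))
      (mem_univ s)
  rw [hk, (per_deriv' h.per).int_mul k v] at h1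
  rwa [nr, nr, ← mul_sub, norm_mul, norm_I, one_mul]

end C1

open C1

theorem st_c1 (hA : St_A3) (hGC : St_GC) (hL : St_LAY) (hG : St_GRN) (hV : St_VP) (hJ : St_JMP)
    (hP : St_POI) (hE : St_GRE) : St_C1 := by
  intro j μ γ Ω h hN δ hδ η hη
  have hμ := h.pos
  have hj := hN.pos
  have hγ := hN.smooth.continuous
  have hnr : Continuous (nr γ) := continuous_const.mul hN.s1.continuous
  have n1 : ∀ s, ‖nr γ s‖ = 1 := fun s => by rw [nr, norm_mul, norm_I, hN.unit, one_mul]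
  obtain ⟨c, hc, g1, -, g3, -⟩ := hGC Ω γ h.cd
  obtain ⟨⟨CJ, hCJ⟩, -⟩ := hJ μ Ω γ hμ h.cd
  obtain ⟨-, -, -, -, -, -, ⟨CP, hCP⟩, -, hx⟩ := hP μ γ Ω h
  obtain ⟨R, hR⟩ := h.cd.bdd.closure.exists_norm_le
  have hRγ : ∀ s, ‖γ s‖ ≤ R := fun s =>
    hR _ (frontier_subset_closure (h.cd.fr ▸ mem_range_self s))
  set B := |CP| * (1 + δ⁻¹) with hB
  set A := 2 * (j / c) with hAA
  set K := 2 * |CJ| + 2 * π * A + 1 + 2 * π * B + B * (μ ^ 2 + 2 * A + 4 * π) + 1 with hK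
  have K0 : 0 < K := by positivity
  set t := η / K with ht
  have t0 : 0 < t := by positivity
  obtain ⟨e1, he1, u1⟩ := ps_uc hP h hN hδ t0
  set ε := min e1 (min 1 t) with hε
  have ε0 : 0 < ε := by positivity
  obtain ⟨d1, hd1, u2⟩ := g_uc hL hμ (a := min (δ / 2) (c * ε)) (2 * R + 1) (by positivity) t0
  obtain ⟨d2, hd2, u3⟩ := V_uc hV hμ h.cd (R + 1) t0
  refine ⟨min (min (min c 1) (δ / 2)) (min (d1 / 2) (d2 / 2)), by positivity,
    fun s y hy r r0 r1 hys => ?_⟩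
  simp only [lt_min_iff] at r1
  obtain ⟨⟨⟨rc, r1⟩, rδ⟩, rd1, rd2⟩ := r1
  obtain ⟨⟨cφ, pφ⟩, p0, p1, -⟩ := hx y hy
  obtain ⟨-, -, -, hy2⟩ := hE μ γ Ω h
  obtain ⟨-, -, e1', e2⟩ := hy2 y hy
  set n := nr γ s with hn
  set φ := ps μ γ y with hφ
  have nρ : ∀ ρ : ℝ, ‖(ρ : ℂ) * n‖ = |ρ| := fun ρ => by
    rw [norm_mul, n1, mul_one, norm_real, Real.norm_eq_abs]
  have z1 : ∀ ρ : ℝ, |ρ| ≤ r → ∀ v, c * (dc s v + |ρ|) ≤ ‖γ s + ρ * n - γ v‖ := fun ρ h1 v => by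
    rw [norm_sub_rev]; exact g1 s v ρ (h1.trans rc.le)
  have z2 : ∀ ρ : ℝ, |ρ| ≤ r → δ / 2 ≤ ‖γ s + ρ * n - y‖ := fun ρ h1 => by
    have := norm_sub_le (γ s + ρ * n - y) (ρ * n)
    rw [nρ, show γ s + ρ * n - y - ρ * n = -(y - γ s) by ring, norm_neg] at this
    linarith
  have z3 : ∀ ρ : ℝ, |ρ| ≤ r → ‖γ s + ρ * n‖ ≤ R + 1 := fun ρ h1 =>
    (norm_add_le _ _).trans (by rw [nρ]; linarith [hRγ s])
  have z4 : ∀ ρ : ℝ, |ρ| ≤ r → ρ ≠ 0 → ∀ v, γ s + ρ * n - γ v ≠ 0 := fun ρ h1 h2 v =>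
    norm_pos_iff.1 (lt_of_lt_of_le
      (mul_pos hc (add_pos_of_nonneg_of_pos (dc_nonneg _ _) (abs_pos.2 h2))) (z1 ρ h1 v))
  have z5 : ∀ ρ : ℝ, |ρ| ≤ r → γ s + ρ * n - y ≠ 0 := fun ρ h1 =>
    norm_pos_iff.1 ((half_pos hδ).trans_le (z2 ρ h1))
  set f : ℝ → ℝ := fun ρ => Gr μ (γ s + ρ * n - y) - SLo μ γ φ (γ s + ρ * n) with hf
  set f' : ℝ → ℝ := fun ρ => fderiv ℝ (Gr μ) (γ s + ρ * n - y) n -
    ∫ v in (0 : ℝ)..(2 * π), fderiv ℝ (Gr μ) (γ s + ρ * n - γ v) n * φ v with hf'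
  have d0 : ∀ ρ : ℝ, |ρ| ≤ r → ρ ≠ 0 → HasDerivAt f (f' ρ) ρ := fun ρ h1 h2 =>
    (hd_G hL hμ _ _ _ (z5 ρ h1)).sub (hd_SL hA hL hμ hγ cφ _ _ (n1 s) (a := c * |ρ| / 2)
      (half_pos (mul_pos hc (abs_pos.2 h2))) fun v => le_trans
        (by nlinarith [mul_nonneg hc.le (dc_nonneg s v)]) (z1 ρ h1 v))
  have cS : Continuous (SLo μ γ φ) := by
    obtain ⟨M, hM⟩ := (pφ.isBounded_of_continuous Real.two_pi_pos.ne' cφ).exists_norm_le
    exact ((hL μ hμ).2 Ω γ φ h.cd cφ.measurable ⟨M, fun v => hM _ (mem_range_self v)⟩).1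
  have c0 : ∀ ρ : ℝ, |ρ| ≤ r → ContinuousAt f ρ := fun ρ h1 =>
    (hd_G hL hμ _ _ _ (z5 ρ h1)).continuousAt.sub (cS.comp (by fun_prop)).continuousAt
  obtain ⟨ρ, ⟨ρ0, ρr⟩, hρ⟩ := exists_hasDerivAt_eq_slope (fun ρ => f ρ + f (-ρ))
    (fun ρ => f' ρ + f' (-ρ) * (-1)) r0 (fun ρ hρ => by
      have h1 : |ρ| ≤ r := abs_le.2 ⟨by linarith [hρ.1], hρ.2⟩
      exact ((c0 ρ h1).add (ContinuousAt.comp (f := fun ρ : ℝ => -ρ) (c0 (-ρ) (by rwa [abs_neg]))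
        continuous_neg.continuousAt)).continuousWithinAt) fun ρ hρ => by
      have h1 : |ρ| ≤ r := abs_le.2 ⟨by linarith [hρ.1], hρ.2.le⟩
      exact (d0 ρ h1 hρ.1.ne').add (HasDerivAt.comp (h := fun ρ : ℝ => -ρ) ρ
        (d0 (-ρ) (by rwa [abs_neg]) (neg_ne_zero.2 hρ.1.ne')) (hasDerivAt_neg ρ))
  have out : ∀ ρ : ℝ, 0 < ρ → ρ ≤ r → γ s + ((-ρ : ℝ) : ℂ) * n ∉ Ω := fun ρ h1 h2 h3 =>
    (g3 s ρ h1 (h2.trans rc.le)).2 (subset_closure (by
      rwa [ofReal_neg, neg_mul, ← sub_eq_add_neg] at h3))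
  have f0 : f 0 = 0 := by
    have : γ s ∉ Ω := fun h1 => by
      have h2 : γ s ∈ frontier Ω := h.cd.fr ▸ mem_range_self s
      rw [h.cd.opn.frontier_eq] at h2
      exact h2.2 h1
    simp only [hf, ofReal_zero, zero_mul, add_zero]
    rw [e2 _ this, sub_self]
  have fm : f (-r) = 0 := by
    simp only [hf]
    rw [e2 _ (out r r0 le_rfl), sub_self]
  have fp : f r = Rg μ γ Ω (γ s + r * n) y := by
    simp only [hf]
    rw [(e1' _ (g3 s r r0 rc.le).1).2.2.2, Rg]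
  simp only [neg_zero, f0, fm, fp, add_zero, sub_zero] at hρ
  rw [← hρ]
  have a1 : |ρ| ≤ r := abs_le.2 ⟨by linarith, ρr.le⟩
  have a2 : |(-ρ)| ≤ r := by rwa [abs_neg]
  have b1 := z4 ρ a1 ρ0.ne'
  have b2 := z4 (-ρ) a2 (neg_ne_zero.2 ρ0.ne')
  set xp := γ s + ρ * n with hxp
  set xm := γ s + ((-ρ : ℝ) : ℂ) * n with hxm
  have dx : ‖xp - xm‖ = 2 * ρ := by
    rw [show xp - xm = ((2 * ρ : ℝ) : ℂ) * n by rw [hxp, hxm]; push_cast; ring, nρ,
      abs_of_pos (by linarith)]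
  have far : ∀ q w : ℂ, ‖q‖ ≤ R → min (δ / 2) (c * ε) ≤ ‖xp - q‖ → min (δ / 2) (c * ε) ≤ ‖xm - q‖ →
      |fderiv ℝ (Gr μ) (xp - q) w - fderiv ℝ (Gr μ) (xm - q) w| ≤ t * ‖w‖ := fun q w h1 h2 h3 =>
    u2 _ _ w h2 ((norm_sub_le _ _).trans (by linarith [z3 ρ a1])) h3
      ((norm_sub_le _ _).trans (by linarith [z3 (-ρ) a2]))
      (by rw [sub_sub_sub_cancel_right, dx]; linarith)
  have far1 : ∀ v w, ε ≤ dc s v →
      |fderiv ℝ (Gr μ) (xp - γ v) w - fderiv ℝ (Gr μ) (xm - γ v) w| ≤ t * ‖w‖ := fun v w h1 =>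
    far _ w (hRγ v) ((min_le_right _ _).trans (le_trans
      (mul_le_mul_of_nonneg_left (by linarith [abs_nonneg ρ]) hc.le) (z1 ρ a1 v)))
      ((min_le_right _ _).trans (le_trans
      (mul_le_mul_of_nonneg_left (by linarith [abs_nonneg (-ρ)]) hc.le) (z1 (-ρ) a2 v)))
  have near : ∀ σ : ℝ, |σ| ≤ r → σ ≠ 0 → ∀ v,
      |fderiv ℝ (Gr μ) (γ s + σ * n - γ v) (n - nr γ v)| ≤ j / c := fun σ h1 h2 v => by
    refine (g_le hA hL hμ (z4 σ h1 h2 v) _).trans ?_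
    rw [div_le_div_iff₀ (norm_pos_iff.2 (z4 σ h1 h2 v)) hc]
    have h3 := mul_le_mul_of_nonneg_right (nr_lip hN s v) hc.le
    have h4 := mul_le_mul_of_nonneg_left (z1 σ h1 v) hj.le
    nlinarith [mul_nonneg (mul_nonneg hj.le hc.le) (abs_nonneg σ)]
  have q1 : xp ∉ range γ := fun ⟨v, hv⟩ => b1 v (by rw [hv, sub_self])
  have q2 : xm ∉ range γ := fun ⟨v, hv⟩ => b2 v (by rw [hv, sub_self])
  have cD : ∀ x, (∀ v, x - γ v ≠ 0) → Continuous (DLk μ γ x) := fun x hx => by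
    exact (g_cv hL hμ hγ hnr hx).fun_neg.congr fun v => (dlk hL hμ γ (hx v)).symm
  have main := est (κ := fun v => -(fderiv ℝ (Gr μ) (xp - γ v) n - fderiv ℝ (Gr μ) (xm - γ v) n))
    (e := fun v => -(fderiv ℝ (Gr μ) (xp - γ v) (n - nr γ v) -
      fderiv ℝ (Gr μ) (xm - γ v) (n - nr γ v))) (φ := φ) (cD xp b1) (cD xm b2)
    ((g_cv hL hμ hγ (continuous_const.sub hnr) b1).sub
      (g_cv hL hμ hγ (continuous_const.sub hnr) b2)).neg cφ
    (fun v => by simp only [nr, hN.per v, per_deriv' hN.per v])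
    (fun v => by rw [dlk hL hμ γ (b1 v), dlk hL hμ γ (b2 v), map_sub, map_sub]; ring)
    (s := s) (C := |CJ|) (A := A) (B := B) (m := μ ^ 2) (t := t) ε0
    ((min_le_right _ _).trans (min_le_left _ _)) ((min_le_right _ _).trans (min_le_right _ _))
    ((hCJ xp q1).trans (le_abs_self _)) ((hCJ xm q2).trans (le_abs_self _))
    (fun v => by
      rw [abs_neg]
      refine (abs_sub _ _).trans ?_
      linarith [near ρ a1 ρ0.ne' v, near (-ρ) a2 (neg_ne_zero.2 ρ0.ne') v])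
    (fun v hv => u1 y hy s v hys (hv.trans_le (min_le_left _ _)))
    (fun v hv => by
      rw [abs_neg, abs_neg]
      refine ⟨by simpa [n1 s, hn] using far1 v n hv, (far1 v _ hv).trans ?_⟩
      have := norm_sub_le n (nr γ v)
      rw [n1 s, n1 v] at this
      nlinarith) p0 p1
    ((hCP y hy s).trans (mul_le_mul (le_abs_self _)
      (by gcongr) (by positivity) (abs_nonneg _)))
    (by
      rw [dl_one hG hμ h.cd q1, dl_one hG hμ h.cd q2,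
        indicator_of_mem (g3 s ρ ρ0 (ρr.le.trans rc.le)).1, indicator_of_notMem (out ρ ρ0 ρr.le)]
      have := u3 xp xm (z3 ρ a1) (z3 (-ρ) a2) (by rw [dx]; linarith)
      rw [show ∀ a b : ℝ, 1 - μ ^ 2 * a - (0 - μ ^ 2 * b) - 1 = -(μ ^ 2 * (a - b)) from
        fun a b => by ring, abs_neg, abs_mul, abs_of_nonneg (sq_nonneg μ)]
      gcongr)
  have yt := far y n (hR y (subset_closure hy)) ((min_le_left _ _).trans (z2 ρ a1))
    ((min_le_left _ _).trans (z2 (-ρ) a2))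
  rw [n1 s, mul_one] at yt
  have ei : ∫ v in (0 : ℝ)..(2 * π),
      -(fderiv ℝ (Gr μ) (xp - γ v) n - fderiv ℝ (Gr μ) (xm - γ v) n) * φ v =
      (∫ v in (0 : ℝ)..(2 * π), fderiv ℝ (Gr μ) (xm - γ v) n * φ v) -
        ∫ v in (0 : ℝ)..(2 * π), fderiv ℝ (Gr μ) (xp - γ v) n * φ v := by
    rw [← intervalIntegral.integral_sub
      (((g_cv hL hμ hγ continuous_const b2).fun_mul cφ).intervalIntegrable _ _)
      (((g_cv hL hμ hγ continuous_const b1).fun_mul cφ).intervalIntegrable _ _)]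
    congr 1
    funext v
    ring
  rw [ei] at main
  have tK : t * K = η := div_mul_cancel₀ _ K0.ne'
  have fin : f' ρ + f' (-ρ) * (-1) - φ s =
      (fderiv ℝ (Gr μ) (xp - y) n - fderiv ℝ (Gr μ) (xm - y) n) +
      ((∫ v in (0 : ℝ)..(2 * π), fderiv ℝ (Gr μ) (xm - γ v) n * φ v) -
        (∫ v in (0 : ℝ)..(2 * π), fderiv ℝ (Gr μ) (xp - γ v) n * φ v) - φ s) := by
    simp only [hf', hxp, hxm]; ring
  rw [fin, ← tK, hK]
  exact (abs_add_le _ _).trans ((add_le_add yt main).trans_eq (by ring))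

end Pool.Agent.Lib.IS2
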