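import Pool.Agent.Lib.IS2.B_C2b

/-! Row C2: the normal derivative of the Poisson kernel is the kernel `N`. -/

open scoped ContDiff ComplexConjugate Topology Real
open Complex MeasureTheory Set Filter

noncomputable section

namespace Pool.Agent.Lib.IS2

open Pool.Agent.Lib.ISO

namespace C2r

/-- a function composed with the kernel `K` -/
def cK (μ : ℝ) (γ : ℝ → ℂ) (a : ℝ → ℂ) (w : ℝ) : ℂ := ∫ u in (0 : ℝ)..(2 * π), a u * (Kr μ γ u w : ℝ)

variable {j μ : ℝ} {γ : ℝ → ℂ} {Ω : Set ℂ}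

lemma dray (γ : ℝ → ℂ) (t v y : ℝ) : HasDerivAt (fun y : ℝ => γ t + y * nr γ t - γ v) (nr γ t) y := by
  simpa using (((hasDerivAt_id y).ofReal_comp.mul_const (nr γ t)).const_add (γ t)).sub_const (γ v)

lemma cont_par {k : ℝ → ℝ → ℝ} (hK : Continuous (Function.uncurry k)) {a : ℝ → ℂ}
    (ha : Continuous a) : Continuous fun w => ∫ u in (0 : ℝ)..(2 * π), a u * (k u w : ℝ) :=
  intervalIntegral.continuous_parametric_intervalIntegral_of_continuous'
    (f := fun w u => a u * (k u w : ℝ))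
    ((ha.comp continuous_snd).mul (continuous_ofReal.comp (hK.comp continuous_swap))) _ _

lemma cont_cK (hK : Continuous (Function.uncurry (Kr μ γ))) {a : ℝ → ℂ} (ha : Continuous a) :
    Continuous (cK μ γ a) := cont_par hK ha

lemma ii {f g : ℝ → ℂ} (hf : Continuous f) (hg : Continuous g) :
    IntervalIntegrable (fun w => f w * g w) volume 0 (2 * π) := (hf.mul hg).intervalIntegrable _ _

lemma ucH (h3 : St_A3) (μ0 : 0 < μ) {δ η : ℝ} (R : ℝ) (δ0 : 0 < δ) (η0 : 0 < η) : ∃ ε > 0,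
    ∀ z z' w b : ℂ, δ ≤ ‖z‖ → ‖z‖ ≤ R → δ ≤ ‖z'‖ → ‖z'‖ ≤ R → ‖w‖ = 1 → ‖b‖ = 1 → ‖z - z'‖ < ε →
      |H μ z w b - H μ z' w b| ≤ η := by
  have hS : IsCompact ((Metric.closedBall (0 : ℂ) R \ Metric.ball 0 δ) ×ˢ
      Metric.closedBall (0 : ℂ) 1 ×ˢ Metric.closedBall (0 : ℂ) 1) :=
    ((isCompact_closedBall _ _).diff Metric.isOpen_ball).prod
      ((isCompact_closedBall _ _).prod (isCompact_closedBall _ _))
  have hc : ContinuousOn (fun p : ℂ × ℂ × ℂ => H μ p.1 p.2.1 p.2.2)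
      ((Metric.closedBall (0 : ℂ) R \ Metric.ball 0 δ) ×ˢ
        Metric.closedBall (0 : ℂ) 1 ×ˢ Metric.closedBall (0 : ℂ) 1) := fun p hp => by
    have p0 : p.1 ≠ 0 := fun e => hp.1.2 (by rw [e]; simpa using δ0)
    exact (caH h3 μ0 (X := ℂ × ℂ × ℂ) (z := fun p => p.1) (w := fun p => p.2.1)
      (b := fun p => p.2.2) (by fun_prop) (by fun_prop) (by fun_prop) p0).continuousWithinAt
  obtain ⟨ε, ε0, hε⟩ := Metric.uniformContinuousOn_iff.1 (hS.uniformContinuousOn_of_continuous hc) η η0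
  refine ⟨ε, ε0, fun z z' w b a1 a2 a3 a4 a5 a6 a7 => ?_⟩
  have := hε (z, w, b) (by simp [*]) (z', w, b) (by simp [*])
    (by rwa [Prod.dist_eq, dist_self, dist_eq_norm, max_eq_left (norm_nonneg _)])
  rw [Real.dist_eq] at this
  exact this.le

lemma aPh (hN : St_NEU) (hP : Pot μ γ Ω) {a : ℝ → ℂ} (ha : Continuous a) (s : ℝ) :
    ∫ u in (0 : ℝ)..(2 * π), a u * (Ph μ γ u s : ℝ) =
      -4 * cK μ γ a s - 2 * ∫ w in (0 : ℝ)..(2 * π), cK μ γ a w * (Ph μ γ w s : ℝ) := by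
  obtain ⟨cR, -, -, -, -, -, cP, hPh, -⟩ := hN μ γ Ω hP
  have c1 : Continuous (Function.uncurry fun u w => ((Kr μ γ u w : ℝ) : ℂ)) := continuous_ofReal.comp cR
  have c2 : Continuous fun w => ((Ph μ γ w s : ℝ) : ℂ) := continuous_ofReal.comp (cP.uncurry_right s)
  have c3 : Continuous fun u => ∫ w in (0 : ℝ)..(2 * π), ((Kr μ γ u w : ℝ) : ℂ) * (Ph μ γ w s : ℝ) :=
    intervalIntegral.continuous_parametric_intervalIntegral_of_continuous'
      (f := fun u w => ((Kr μ γ u w : ℝ) : ℂ) * (Ph μ γ w s : ℝ)) (c1.mul (c2.comp continuous_snd)) _ _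
  simp only [cK]
  rw [← swap ha c2 c1, ← intervalIntegral.integral_const_mul, ← intervalIntegral.integral_const_mul,
    ← intervalIntegral.integral_sub
      ((ii ha (c1.uncurry_right s)).const_mul _) ((ii ha c3).const_mul _)]
  refine intervalIntegral.integral_congr fun u _ => ?_
  rw [(hPh u s).2.2.1]
  simp only [← ofReal_mul, intervalIntegral.integral_ofReal]
  push_cast; ring

lemma series (hL : St_LNK) (hN : St_NEU) (hP : Pot μ γ Ω) {t : ℝ} (hc : Continuous (ro μ γ 0 t))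
    (s : ℝ) : ∑' n, 2 * (-2) ^ (n + 1) * ro μ γ n t s =
      -4 * ro μ γ 0 t s - 2 * ∫ w in (0 : ℝ)..(2 * π), ro μ γ 0 t w * (Ph μ γ w s : ℝ) := by
  obtain ⟨cR, -, -, cn, ⟨C, hC⟩, -⟩ := hN μ γ Ω hP
  have c1 : ∀ n, Continuous (Function.uncurry fun u w => ((Kp μ γ n u w : ℝ) : ℂ)) := fun n =>
    continuous_ofReal.comp (cn n)
  have e : ∀ n s, ro μ γ (n + 1) t s = ∫ w in (0 : ℝ)..(2 * π), ro μ γ 0 t w * (Kp μ γ n w s : ℝ) := by
    intro n
    induction n with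
    | zero => intro s; simp only [ro, Kp, hL.2.1 γ μ _ _ hP.pos]
    | succ n ih =>
      intro s
      rw [show ro μ γ (n + 1 + 1) t s = ∫ v in (0 : ℝ)..(2 * π), ro μ γ (n + 1) t v * fK μ γ v s
        from rfl]
      simp only [ih, hL.2.1 γ μ _ _ hP.pos]
      rw [← swap (b := fun v => (Kr μ γ v s : ℝ)) hc (continuous_ofReal.comp (cR.uncurry_right s)) (c1 n)]
      simp only [Kp, ← ofReal_mul, intervalIntegral.integral_ofReal]
  have b : ∀ n w, ‖2 * (-2) ^ (n + 1) * Kp μ γ n w s‖ ≤ 4 * C * (1 / 2) ^ n := fun n w => by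
    rw [norm_mul, norm_mul, norm_pow, norm_neg, Real.norm_two, Real.norm_eq_abs]
    calc _ ≤ 2 * 2 ^ (n + 1) * (C / 4 ^ n) := by gcongr; exact hC n w s
      _ = _ := by
        rw [show (4 : ℝ) ^ n = 2 ^ n * 2 ^ n by rw [← mul_pow]; norm_num, one_div, inv_pow]
        field_simp; ring
  have sg : Summable fun n : ℕ => 4 * C * (1 / 2 : ℝ) ^ n := summable_geometric_two.mul_left _
  have hs := intervalIntegral.hasSum_integral_of_dominated_convergence (μ := volume) (a := 0)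
    (b := 2 * π) (F := fun n w => ro μ γ 0 t w * (2 * (-2) ^ (n + 1) * Kp μ γ n w s : ℝ))
    (f := fun w => ro μ γ 0 t w * (Ph μ γ w s : ℝ))
    (fun n w => ‖ro μ γ 0 t w‖ * (4 * C * (1 / 2) ^ n))
    (fun n => (hc.mul (continuous_ofReal.comp
      (continuous_const.mul ((cn n).uncurry_right s)))).aestronglyMeasurable)
    (fun n => Eventually.of_forall fun w _ => by
      rw [norm_mul, norm_real]; exact mul_le_mul_of_nonneg_left (b n w) (norm_nonneg _))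
    (Eventually.of_forall fun w _ => sg.mul_left _)
    (by simp only [tsum_mul_left]; exact (hc.norm.mul continuous_const).intervalIntegrable _ _)
    (Eventually.of_forall fun w _ =>
      (hasSum_ofReal.2 (Summable.of_norm_bounded sg fun n => b n w).hasSum).mul_left _)
  have h2 : HasSum (fun n => 2 * (-2) ^ (n + 1 + 1) * ro μ γ (n + 1) t s)
      (-2 * ∫ w in (0 : ℝ)..(2 * π), ro μ γ 0 t w * (Ph μ γ w s : ℝ)) := by
    refine (hs.mul_left (-2)).congr_fun fun n => ?_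
    rw [e, ← intervalIntegral.integral_const_mul, ← intervalIntegral.integral_const_mul]
    refine intervalIntegral.integral_congr fun w _ => ?_
    push_cast; ring
  rw [((hasSum_nat_add_iff (f := fun n => 2 * (-2) ^ (n + 1) * ro μ γ n t s) 1).1 h2).tsum_eq]
  simp only [Finset.sum_range_one]; ring

lemma far (h1 : St_A1) (h3 : St_A3) (h : Nc j γ) (μ0 : 0 < μ) {δ η : ℝ} (δ0 : 0 < δ) (η0 : 0 < η) :
    ∃ r0 > 0, ∀ t s r : ℝ, 0 < r → r < r0 → δ ≤ c0 γ t s →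
      ‖(((DLk μ γ (γ t + r * nr γ t) s : ℝ) : ℂ) - (DLk μ γ (γ t) s : ℝ)) / r - fNn μ γ t s‖ ≤ η := by
  obtain ⟨ε, ε0, hε⟩ := ucH h3 μ0 (π + δ) (half_pos δ0) η0
  refine ⟨min ε (δ / 2), by positivity, fun t s r r0 hr hd => ?_⟩
  rw [lt_min_iff] at hr
  have up := (h.c0_le t s).trans (dc_le_pi t s)
  rw [c0] at hd up
  have nd : ∀ y ∈ Icc 0 r, ‖γ t + y * nr γ t - γ s - (γ t - γ s)‖ = y := fun y hy => by
    rw [show γ t + y * nr γ t - γ s - (γ t - γ s) = y * nr γ t by ring, norm_mul, norm_nr h,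
      norm_real, Real.norm_eq_abs, abs_of_nonneg hy.1, mul_one]
  have ms : ∀ y ∈ Icc 0 r, δ / 2 ≤ ‖γ t + y * nr γ t - γ s‖ ∧ ‖γ t + y * nr γ t - γ s‖ ≤ π + δ :=
    fun y hy => by
      have := abs_le.1 ((abs_norm_sub_norm_le _ _).trans_eq (nd y hy))
      constructor <;> linarith [this.1, this.2, hy.2]
  have dd : ∀ y ∈ Icc 0 r, HasDerivAt (fun y : ℝ => ((P μ (nr γ s) (γ t + y * nr γ t - γ s) : ℝ) : ℂ))
      (H μ (γ t + y * nr γ t - γ s) (nr γ t) (nr γ s) : ℝ) y := fun y hy =>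
    (hdP h3 μ0 (dray γ t s y) (norm_pos_iff.1 (by linarith [(ms y hy).1])) _).ofReal_comp
  have e : fNn μ γ t s = (H μ (γ t - γ s) (nr γ t) (nr γ s) : ℝ) := by
    obtain ⟨k1, k2, -⟩ := h1.2.2.2.2 (μ * c0 γ t s) (mul_pos μ0 (δ0.trans_le hd))
    push_cast at k1 k2
    have : rdot (nr γ t) (γ s - γ t) * rdot (nr γ s) (γ s - γ t) =
        rdot (nr γ t) (γ t - γ s) * rdot (nr γ s) (γ t - γ s) := by
      simp only [rdot_eq, sub_re, sub_im]; ring
    simp only [fNn, k1, k2, this]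
    simp only [H, c0]
    push_cast; ring
  have t0 := (dd 0 ⟨le_rfl, r0.le⟩).continuousAt.tendsto.mono_left (nhdsWithin_le_nhds (s := Ioi 0))
  simp only [ofReal_zero, zero_mul, add_zero] at t0
  rw [DLk_eq, DLk_eq, e]
  refine mv r0 (fun y hy => dd y (Ioc_subset_Icc_self hy)) (fun y hy => ?_) t0
  have hy' := Ioc_subset_Icc_self hy
  rw [← ofReal_sub, norm_real]
  exact hε _ _ _ _ (ms y hy').1 (ms y hy').2 (by linarith) (by linarith) (norm_nr h t) (norm_nr h s)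
    ((nd y hy').trans_lt (hy.2.trans_lt hr.1))

lemma first (h1 : St_A1) (h3 : St_A3) (hG : St_GC) (hL : St_LNK) (hR : St_KR) (hD : St_KD)
    (hJ : St_JMP) (hN : St_NEU) (hP : Pot μ γ Ω) (h : Nc j γ) (hμ : 1 ≤ μ) :
    ∃ c > 0, ∃ C, 0 ≤ C ∧ ∀ t r : ℝ, 0 < r → r < c →
      Continuous (fun v => ((DLk μ γ (γ t + r * nr γ t) v : ℝ) : ℂ)) ∧
      ∀ u, ‖(cK μ γ (fun v => (DLk μ γ (γ t + r * nr γ t) v : ℝ)) u -
        ((Kr μ γ t u : ℝ) / 2 + cK μ γ (fun v => (Kr μ γ t v : ℝ)) u)) / r - ro μ γ 0 t u‖ ≤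
        C * r ^ (1 / 4 : ℝ) := by
  obtain ⟨c, c0', g1, -, g3, -⟩ := hG Ω γ hP.cd
  obtain ⟨C, C0, hC⟩ := est h h1 h3 hR hD hμ c0' g1
  obtain ⟨cR, pR, -⟩ := hN μ γ Ω hP
  have μ0 := hP.pos
  have eK := fun s t => hL.2.1 γ μ s t μ0
  have hx : ∀ t, ∀ r ∈ Ioo 0 c, ∀ v, γ t + r * nr γ t - γ v ≠ 0 := fun t r hr v e => by
    have := g1 t v r (by rw [abs_of_pos hr.1]; exact hr.2.le)
    rw [norm_sub_rev, e, norm_zero, abs_of_pos hr.1] at this
    nlinarith [dc_nonneg t v, mul_pos c0' hr.1]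
  have cg := h.smooth.continuous
  have cD : ∀ t, ∀ r ∈ Ioo 0 c, Continuous fun v =>
      ((P μ (nr γ v) (γ t + r * nr γ t - γ v) : ℝ) : ℂ) := fun t r hr =>
    continuous_ofReal.comp (continuous_iff_continuousAt.2 fun v =>
      caP h3 μ0 (continuous_const.sub cg).continuousAt (cont_nr h).continuousAt (hx t r hr v))
  refine ⟨c, c0', C, C0, fun t r r0 rc => ⟨by simpa only [DLk_eq] using cD t r ⟨r0, rc⟩, fun u => ?_⟩⟩
  have cu : Continuous fun v => ((Kr μ γ v u : ℝ) : ℂ) := continuous_ofReal.comp (cR.uncurry_right u)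
  refine mv (f := fun r : ℝ => cK μ γ (fun v => (DLk μ γ (γ t + r * nr γ t) v : ℝ)) u)
    (f' := fun r : ℝ => ∫ v in (0 : ℝ)..(2 * π), RH μ γ t u (γ t + r * nr γ t) v) r0
    (fun y hy => ?_) (fun y hy => (hC t u y hy.1 (hy.2.trans rc.le)).trans ?_) ?_
  · have hy' : y ∈ Ioo 0 c := ⟨hy.1, hy.2.trans_lt rc⟩
    simp only [← maue h h3 hR hD hμ t u (hx t y hy'), cK, DLk_eq, eK]
    refine hd_int (F' := fun y v => ((H μ (γ t + y * nr γ t - γ v) (nr γ t) (nr γ v) : ℝ) : ℂ) *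
      (Kr μ γ v u : ℝ)) isOpen_Ioo (fun y hy => (cD t y hy).mul cu) (fun p hp => ?_)
      (fun y hy v => (hdP h3 μ0 (dray γ t v y) (hx t y hy v) _).ofReal_comp.mul_const _) _ _ hy'
    exact ((continuous_ofReal.continuousAt.comp (caH h3 μ0 (X := ℝ × ℝ)
      (z := fun p => γ t + p.1 * nr γ t - γ p.2) (by fun_prop) continuousAt_const
      ((cont_nr h).comp continuous_snd).continuousAt (hx t p.1 hp.1 p.2))).mul
      (cu.comp continuous_snd).continuousAt).continuousWithinAt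
  · have := hy.1.le
    gcongr
    exact hy.2
  · have p1 : Tendsto (fun r : ℝ => γ t + r * nr γ t) (𝓝[>] 0) (𝓝[Ω] (γ t)) := by
      refine tendsto_nhdsWithin_iff.2 ⟨?_, ?_⟩
      · simpa using ((by fun_prop : Continuous fun r : ℝ => γ t + r * nr γ t).tendsto 0).mono_left
          (nhdsWithin_le_nhds (s := Ioi 0))
      · filter_upwards [Ioc_mem_nhdsGT c0'] with y hy using (g3 t y hy.1 hy.2).1
    have := (continuous_ofReal.tendsto _).comp (((hJ μ Ω γ μ0 hP.cd).2 (fun v => Kr μ γ v u)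
      ⟨cR.uncurry_right u, fun v => (pR v u).1⟩ t).comp p1)
    simp only [cK, ← ofReal_mul, intervalIntegral.integral_ofReal]
    convert this using 2
    · rfl
    · push_cast; rfl

end C2r

open C2r in
theorem st_c2 (h1 : St_A1) (h3 : St_A3) (hG : St_GC) (hL : St_LNK) (hR : St_KR) (hD : St_KD)
    (hJ : St_JMP) (hN : St_NEU) : St_C2 := by
  intro j μ γ Ω hP h hμ δ δ0 η η0
  obtain ⟨c, c0', C, C0, hC⟩ := first h1 h3 hG hL hR hD hJ hN hP h hμ
  obtain ⟨r1, r10, hf⟩ := far h1 h3 h hP.pos δ0 (show 0 < η / 4 by positivity)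
  obtain ⟨cR, -, eD, -, ⟨B, hB⟩, -, cP, -⟩ := hN μ γ Ω hP
  have bP : ∀ w s, |Ph μ γ w s| ≤ 8 * B := fun w s => by
    rw [show 8 * B = 4 * B * 2 by ring, ← Real.norm_eq_abs, Ph]
    refine tsum_of_norm_bounded (hasSum_geometric_two.mul_left (4 * B)) fun n => ?_
    rw [norm_mul, norm_mul, norm_pow, norm_neg, Real.norm_two, Real.norm_eq_abs]
    calc _ ≤ 2 * 2 ^ (n + 1) * (B / 4 ^ n) := by gcongr; exact hB n w s
      _ = _ := by
        rw [show (4 : ℝ) ^ n = 2 ^ n * 2 ^ n by rw [← mul_pow]; norm_num, one_div, inv_pow]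
        field_simp; ring
  have B0 : 0 ≤ B := by linarith [abs_nonneg (Ph μ γ 0 0), bP 0 0]
  have sm : ∀ ε > 0, ∀ᶠ r in 𝓝[>] (0 : ℝ), C * r ^ (1 / 4 : ℝ) < ε := fun ε ε0 => by
    refine Tendsto.eventually_lt_const ε0 ?_
    simpa using (((Real.continuous_rpow_const (by norm_num : (0 : ℝ) ≤ 1 / 4)).const_mul C).tendsto
      0).mono_left (nhdsWithin_le_nhds (s := Ioi 0))
  have cT : ∀ t, Continuous fun v => ((Kr μ γ t v : ℝ) : ℂ) := fun t =>
    continuous_ofReal.comp (cR.uncurry_left t)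
  have c2 : ∀ t, Continuous fun u => ((Kr μ γ t u : ℝ) : ℂ) / 2 +
      cK μ γ (fun v => (Kr μ γ t v : ℝ)) u := fun t => ((cT t).div_const _).add (cont_cK cR (cT t))
  have cro : ∀ t, Continuous (ro μ γ 0 t) := fun t => by
    refine TendstoUniformly.continuous (p := 𝓝[>] (0 : ℝ))
      (F := fun (r : ℝ) u => (cK μ γ (fun v => (DLk μ γ (γ t + r * nr γ t) v : ℝ)) u -
        ((Kr μ γ t u : ℝ) / 2 + cK μ γ (fun v => (Kr μ γ t v : ℝ)) u)) / r)
      (Metric.tendstoUniformly_iff.2 fun ε ε0 => ?_) (Eventually.frequently ?_)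
    · filter_upwards [sm ε ε0, Ioo_mem_nhdsGT c0'] with r h1 h2 u
      rw [dist_comm, dist_eq_norm]
      exact ((hC t r h2.1 h2.2).2 u).trans_lt h1
    · filter_upwards [Ioo_mem_nhdsGT c0'] with r h2
      exact ((cont_cK cR (hC t r h2.1 h2.2).1).sub (c2 t)).div_const _
  set A := 4 + 2 * (8 * B * (2 * π)) with hA
  have A0 : 0 < A := by positivity
  obtain ⟨r2, r20, h2⟩ := mem_nhdsGT_iff_exists_Ioo_subset.1 (sm (η / 2 / A) (by positivity))
  refine ⟨min c (min r1 r2), lt_min c0' (lt_min r10 r20), fun t s r r0 hr hd => ?_⟩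
  simp only [lt_min_iff] at hr
  obtain ⟨cD, hE⟩ := hC t r r0 hr.1
  have f1 := hf t s r r0 hr.2.1 hd
  rw [eD t s (sub_ne_zero.1 (norm_pos_iff.1 (δ0.trans_le hd)))] at f1
  have f2 : C * r ^ (1 / 4 : ℝ) < η / 2 / A := h2 ⟨r0, hr.2.2⟩
  have cp : Continuous fun w => ((Ph μ γ w s : ℝ) : ℂ) := continuous_ofReal.comp (cP.uncurry_right s)
  set D := cK μ γ fun v => (DLk μ γ (γ t + r * nr γ t) v : ℝ) with hD'
  set Q := cK μ γ fun v => (Kr μ γ t v : ℝ) with hQ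
  have cD' : Continuous D := cont_cK cR cD
  have cQ : Continuous Q := cont_cK cR (cT t)
  have i1 := ii cD' cp
  have i2 := ii (cT t) cp
  have i3 := ii cQ cp
  have i4 := ii (cro t) cp
  have e1 : ∫ w in (0 : ℝ)..(2 * π), ((D w - ((Kr μ γ t w : ℝ) / 2 + Q w)) / r - ro μ γ 0 t w) *
      (Ph μ γ w s : ℝ) = ((∫ w in (0 : ℝ)..(2 * π), D w * (Ph μ γ w s : ℝ)) -
        ((∫ w in (0 : ℝ)..(2 * π), ((Kr μ γ t w : ℝ) : ℂ) * (Ph μ γ w s : ℝ)) / 2 +
          ∫ w in (0 : ℝ)..(2 * π), Q w * (Ph μ γ w s : ℝ))) / r -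
        ∫ w in (0 : ℝ)..(2 * π), ro μ γ 0 t w * (Ph μ γ w s : ℝ) := by
    rw [← intervalIntegral.integral_div, ← intervalIntegral.integral_add (i2.div_const _) i3,
      ← intervalIntegral.integral_sub i1 ((i2.div_const _).add i3), ← intervalIntegral.integral_div,
      ← intervalIntegral.integral_sub ((i1.sub ((i2.div_const _).add i3)).div_const _) i4]
    refine intervalIntegral.integral_congr fun w _ => ?_
    ring
  have e2 : ((ps μ γ (γ t + r * nr γ t) s : ℝ) : ℂ) = 2 * (DLk μ γ (γ t + r * nr γ t) s : ℝ) +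
      (-4 * D s - 2 * ∫ w in (0 : ℝ)..(2 * π), D w * (Ph μ γ w s : ℝ)) := by
    rw [← aPh hN hP cD s]
    simp only [ps, ← ofReal_mul, intervalIntegral.integral_ofReal]
    push_cast; rfl
  have e3 := aPh hN hP (cT t) s
  have n1 := intervalIntegral.norm_integral_le_of_norm_le_const (a := 0) (b := 2 * π)
    (C := η / 2 / A * (8 * B)) (f := fun w => ((D w - ((Kr μ γ t w : ℝ) / 2 + Q w)) / r -
      ro μ γ 0 t w) * (Ph μ γ w s : ℝ)) fun w _ => by
      rw [norm_mul, norm_real]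
      exact mul_le_mul ((hE w).trans f2.le) (bP w s) (norm_nonneg _) (by positivity)
  rw [sub_zero, abs_of_pos Real.two_pi_pos] at n1
  have r' : (r : ℂ) ≠ 0 := ofReal_ne_zero.2 r0.ne'
  have e4 : ((ps μ γ (γ t + r * nr γ t) s / r : ℝ) : ℂ) - NN μ γ t s =
      2 * ((((DLk μ γ (γ t + r * nr γ t) s : ℝ) : ℂ) - (Kr μ γ t s : ℝ)) / r - fNn μ γ t s) -
      4 * ((D s - ((Kr μ γ t s : ℝ) / 2 + Q s)) / r - ro μ γ 0 t s) -
      2 * ∫ w in (0 : ℝ)..(2 * π), ((D w - ((Kr μ γ t w : ℝ) / 2 + Q w)) / r - ro μ γ 0 t w) *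
        (Ph μ γ w s : ℝ) := by
    rw [ofReal_div, e1, e2, e3, NN, series hL hN hP (cro t), ← hQ]
    field_simp; ring
  rw [e4]
  refine (norm_sub_le _ _).trans ((add_le_add (norm_sub_le _ _) le_rfl).trans ?_)
  simp only [norm_mul, Complex.norm_ofNat]
  have : η / 2 / A * A = η / 2 := by field_simp
  rw [hA] at this
  nlinarith [(hE s).trans f2.le]

end Pool.Agent.Lib.IS2
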