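import Pool.Agent.Lib.IS2.B_RES

/-! The resolvent identity for the Dirichlet to Neumann kernel. -/

open scoped ContDiff ComplexConjugate Topology Real
open Complex MeasureTheory Set Filter

noncomputable section

namespace Pool.Agent.Lib.IS2

open Pool.Agent.Lib.ISO

namespace C3

lemma lim_of {f : ℝ → ℝ} {L D d : ℝ} {l : Filter ℝ} (hd : 0 < d)
    (h : ∀ ε > 0, ε ≤ d → ∀ᶠ r in l, |f r - L| ≤ ε * D) : Tendsto f l (𝓝 L) := by
  refine Metric.tendsto_nhds.2 fun e he => ?_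
  have p : 0 < |D| + 1 := by positivity
  have q : 0 < min d (e / (|D| + 1)) := lt_min hd (div_pos he p)
  filter_upwards [h _ q (min_le_left _ _)] with r hr
  have h1 := (le_div_iff₀ p).1 (min_le_right d (e / (|D| + 1)))
  rw [Real.dist_eq]
  nlinarith [le_abs_self D]

/-- nonnegative, of bounded integral, and small near `q` -/
def Gd (Ω : Set ℂ) (q : ℂ) (C d : ℝ) (a : ℂ → ℝ) : Prop :=
  IntegrableOn a Ω ∧ ∫ z in Ω, a z ≤ C ∧
    ∀ᵐ z ∂(volume.restrict Ω), 0 ≤ a z ∧ (‖z - q‖ ≤ d → a z ≤ C * ‖z - q‖)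

lemma two {Ω : Set ℂ} (m : MeasurableSet Ω) {p q : ℂ} {l : Filter ℝ} [l.NeBot] {a b : ℝ → ℂ → ℝ}
    {a0 b0 : ℂ → ℝ} {C C' d : ℝ} (hd : 0 < d) (hC : 0 ≤ C) (hC' : 0 ≤ C')
    (ha : ∀ᶠ r in l, Gd Ω q C d (a r)) (hb : ∀ᶠ r in l, Gd Ω p C' d (b r))
    (ha0 : Gd Ω q C d a0) (hb0 : Gd Ω p C' d b0)
    (hi : ∀ᶠ r in l, IntegrableOn (fun z => a r z * b r z) Ω)
    (ua : ∀ ε > 0, ∀ᶠ r in l, ∀ z ∈ Ω, ε ≤ ‖z - p‖ → |a r z - a0 z| ≤ ε)
    (ub : ∀ ε > 0, ∀ᶠ r in l, ∀ z ∈ Ω, ε ≤ ‖z - q‖ → |b r z - b0 z| ≤ ε) :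
    IntegrableOn (fun z => a0 z * b0 z) Ω ∧
      Tendsto (fun r => ∫ z in Ω, a r z * b r z) l (𝓝 (∫ z in Ω, a0 z * b0 z)) := by
  have key : ∀ ε > 0, ε ≤ d → ∀ᶠ r in l, IntegrableOn (fun z => a r z * b r z) Ω ∧
      IntegrableOn (fun z => ε * (1 + C + C') * (a r z + b r z + a0 z + b0 z)) Ω ∧
      ∫ z in Ω, ε * (1 + C + C') * (a r z + b r z + a0 z + b0 z) ≤
        ε * ((1 + C + C') * (2 * C + 2 * C')) ∧ ∀ᵐ z ∂(volume.restrict Ω),
      ‖a r z * b r z - a0 z * b0 z‖ ≤ ε * (1 + C + C') * (a r z + b r z + a0 z + b0 z) := by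
    intro ε e0 e1
    filter_upwards [ha, hb, hi, ua ε e0, ub ε e0] with r h1 h2 h3 h4 h5
    have i1 : IntegrableOn (fun z => a r z + b r z) Ω := h1.1.add h2.1
    have i2 : IntegrableOn (fun z => a r z + b r z + a0 z) Ω := i1.add ha0.1
    refine ⟨h3, (i2.add hb0.1).const_mul _, ?_, ?_⟩
    · rw [integral_const_mul, integral_add i2 hb0.1, integral_add i1 ha0.1, integral_add h1.1 h2.1,
        ← mul_assoc]
      exact mul_le_mul_of_nonneg_left (by linarith [h1.2.1, h2.2.1, ha0.2.1, hb0.2.1])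
        (by positivity)
    · filter_upwards [h1.2.2, h2.2.2, ha0.2.2, hb0.2.2, ae_restrict_mem m] with z g1 g2 g3 g4 hz
      have s0 : 0 ≤ a r z + b r z + a0 z + b0 z := by linarith [g1.1, g2.1, g3.1, g4.1]
      have p1 := mul_nonneg g1.1 g2.1
      have p2 := mul_nonneg g3.1 g4.1
      have fin : ∀ K, 0 ≤ K → K ≤ 1 + C + C' →
          |a r z * b r z - a0 z * b0 z| ≤ ε * K * (a r z + b r z + a0 z + b0 z) →
          ‖a r z * b r z - a0 z * b0 z‖ ≤ ε * (1 + C + C') * (a r z + b r z + a0 z + b0 z) :=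
        fun K _ k1 k2 => k2.trans (by gcongr)
      by_cases c1 : ‖z - p‖ ≤ ε
      · have t1 := mul_le_mul_of_nonneg_left c1 hC'
        have t2 := mul_le_mul_of_nonneg_left ((g2.2 (c1.trans e1)).trans t1) g1.1
        have t3 := mul_le_mul_of_nonneg_left ((g4.2 (c1.trans e1)).trans t1) g3.1
        have t4 := mul_nonneg hC' e0.le
        refine fin C' hC' (by linarith) (abs_le.2 ⟨?_, ?_⟩) <;>
          nlinarith [mul_nonneg t4 g1.1, mul_nonneg t4 g2.1, mul_nonneg t4 g3.1, mul_nonneg t4 g4.1]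
      by_cases c2 : ‖z - q‖ ≤ ε
      · have t1 := mul_le_mul_of_nonneg_left c2 hC
        have t2 := mul_le_mul_of_nonneg_left ((g1.2 (c2.trans e1)).trans t1) g2.1
        have t3 := mul_le_mul_of_nonneg_left ((g3.2 (c2.trans e1)).trans t1) g4.1
        have t4 := mul_nonneg hC e0.le
        refine fin C hC (by linarith) (abs_le.2 ⟨?_, ?_⟩) <;>
          nlinarith [mul_nonneg t4 g1.1, mul_nonneg t4 g2.1, mul_nonneg t4 g3.1, mul_nonneg t4 g4.1]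
      have t1 := abs_le.1 (h4 z hz (not_le.1 c1).le)
      have t2 := abs_le.1 (h5 z hz (not_le.1 c2).le)
      refine fin 1 one_pos.le (by linarith) (abs_le.2 ⟨?_, ?_⟩) <;>
        nlinarith [mul_le_mul_of_nonneg_left t1.1 g2.1, mul_le_mul_of_nonneg_left t1.2 g2.1,
          mul_le_mul_of_nonneg_left t2.1 g3.1, mul_le_mul_of_nonneg_left t2.2 g3.1,
          mul_nonneg e0.le g1.1, mul_nonneg e0.le g4.1]
  have ms := ha0.1.1.mul hb0.1.1
  obtain ⟨r, k1, k2, -, k3⟩ := (key d hd le_rfl).exists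
  have i0 : IntegrableOn (fun z => a0 z * b0 z) Ω :=
    (k1.sub (k2.mono' (k1.1.sub ms) k3)).congr (Eventually.of_forall fun z => by simp)
  refine ⟨i0, lim_of hd (D := (1 + C + C') * (2 * C + 2 * C')) fun ε e0 e1 => ?_⟩
  filter_upwards [key ε e0 e1] with r ⟨k1, k2, k3, k4⟩
  rw [← integral_sub k1 i0]
  exact (norm_integral_le_of_norm_le k2 k4).trans k3

lemma inv_int {Ω : Set ℂ} (m : MeasurableSet Ω) (hb : Bornology.IsBounded Ω) (p : ℂ) :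
    IntegrableOn (fun z => ‖z - p‖⁻¹) Ω := by
  obtain ⟨R, hR⟩ := hb.subset_ball p
  have h1 : IntegrableOn (fun z : ℂ => ‖z‖⁻¹) (Metric.ball 0 R) :=
    integrableOn_ball_of_norm_le_rpow (C := 1) (α := 1) (by simp) (by simp)
      (ae_of_all _ fun x => by simp [Real.rpow_neg_one])
      measurable_norm.inv.aestronglyMeasurable
  refine (((integrable_indicator_iff measurableSet_ball).2 h1).comp_sub_right
    p).integrableOn.congr_fun (fun z hz => indicator_of_mem ?_ _) m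
  simpa [dist_eq_norm] using hR hz

section
variable {j μ : ℝ} {γ : ℝ → ℂ} {Ω : Set ℂ}

lemma ne_curve (h : CD Ω γ) {x : ℂ} (hx : x ∈ Ω) (t : ℝ) : 0 < ‖x - γ t‖ :=
  norm_pos_iff.2 (sub_ne_zero.2 fun e => by
    have : x ∈ Ω ∩ frontier Ω := ⟨hx, h.fr ▸ ⟨t, e.symm⟩⟩
    rw [h.opn.inter_frontier_eq] at this
    exact this)

lemma leg (h : CD Ω γ) (n : Nc j γ) (s : ℝ) {d : ℝ} (hd : 0 < d) : ∀ᶠ r : ℝ in 𝓝[>] 0,
    0 < r ∧ r < d ∧ γ s + r * nr γ s ∈ Ω ∧ ‖γ s + r * nr γ s - γ s‖ = r := by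
  obtain ⟨δ, d0, h1⟩ := h.side s
  filter_upwards [Ioo_mem_nhdsGT d0, Ioo_mem_nhdsGT hd] with r a b
  refine ⟨a.1, b.2, (h1 r a.1 a.2).1, ?_⟩
  simp [nr, n.unit, abs_of_pos a.1]

lemma unif (hC1 : St_C1) (h : Pot μ γ Ω) (n : Nc j γ) (s : ℝ) {δ η : ℝ} (d0 : 0 < δ) (e0 : 0 < η) :
    ∀ᶠ r : ℝ in 𝓝[>] 0, ∀ z ∈ Ω, δ ≤ ‖z - γ s‖ →
      |Rg μ γ Ω (γ s + r * nr γ s) z / r - ps μ γ z s| ≤ η := by
  obtain ⟨r0, p, h1⟩ := hC1 j μ γ Ω h n δ d0 η e0
  filter_upwards [Ioo_mem_nhdsGT p] with r a z hz b using h1 s z hz r a.1 a.2 b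

lemma side (hPOI : St_POI) (hGRE : St_GRE) (hDBL : St_DBL) (h : Pot μ γ Ω) (n : Nc j γ)
    (h1 : 1 ≤ μ) {s t D : ℝ} (d0 : 0 < D) (hD : D ≤ c0 γ t s) : ∃ C, 0 ≤ C ∧
    (∀ᶠ r : ℝ in 𝓝[>] 0, Gd Ω (γ t) C (D / 4) fun z => Rg μ γ Ω (γ s + r * nr γ s) z / r) ∧
    Gd Ω (γ t) C (D / 4) fun z => ps μ γ z s := by
  have m := h.cd.opn.measurableSet
  obtain ⟨-, b2, ⟨C3, b3⟩, -⟩ := hDBL j μ γ Ω h n h1
  obtain ⟨C2, b2⟩ := b2 D d0
  obtain ⟨-, -, -, pm, -, -, ⟨C1, b1⟩, -, pn⟩ := hPOI μ γ Ω h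
  have i0 : IntegrableOn (fun z => ps μ γ z s) Ω := by
    refine (((integrableOn_const (C := (1 : ℝ)) h.cd.bdd.measure_lt_top.ne).add
      (inv_int m h.cd.bdd (γ s))).const_mul C1).mono'
      (pm.comp (measurable_id.prodMk measurable_const)).aestronglyMeasurable ?_
    filter_upwards [ae_restrict_mem m] with z hz
    rw [Real.norm_of_nonneg ((pn z hz).2.1 s)]
    exact b1 z hz s
  obtain ⟨C, c0, c1, c2, c3⟩ : ∃ C, 0 ≤ C ∧ C2 ≤ C ∧ C3 ≤ C ∧ ∫ z in Ω, ps μ γ z s ≤ C :=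
    ⟨max (max 0 C2) (max C3 _), by simp, by simp, by simp, le_max_of_le_right (le_max_right _ _)⟩
  refine ⟨C, c0, ?_, i0, c3, ?_⟩
  · filter_upwards [leg h.cd n s (by positivity : 0 < D / 4)] with r ⟨r0, r1, r2, r3⟩
    refine ⟨(b3 _ r2 s).1.div_const r, ?_, ?_⟩
    · have := (b3 _ r2 s).2
      rw [r3] at this
      rw [integral_div, div_le_iff₀ r0]
      exact this.trans (by gcongr)
    · filter_upwards [RES.ae_ne Ω h.cd.opn (γ s + r * nr γ s)] with z hz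
      refine ⟨div_nonneg (RES.rg_nn hGRE h r2 hz.1 hz.2.symm) r0.le, fun a => ?_⟩
      have := (b2 t s hD z hz.1 a).2 _ r2 (r3.trans_le r1.le)
      rw [r3] at this
      rw [div_le_iff₀ r0, RES.rg_comm hGRE h r2 hz.1]
      exact this.trans (by gcongr)
  · filter_upwards [ae_restrict_mem m] with z hz
    exact ⟨(pn z hz).2.1 s, fun a => (b2 t s hD z hz a).1.trans (by gcongr)⟩

end

end C3

open C3 in
theorem st_c3 (hPOI : St_POI) (hGRE : St_GRE) (hRES : St_RES) (hC1 : St_C1) (hDBL : St_DBL) :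
    St_C3 := by
  intro j μ μ' γ Ω h h' n m1 m2
  have m := h.cd.opn.measurableSet
  have res := (hRES μ μ' γ Ω h h').1
  refine ⟨fun x hx t => ?_, fun s t hst => ?_⟩
  · have d0 := ne_curve h.cd hx t
    have lim : ∀ a, Pot a γ Ω → Tendsto (fun r : ℝ => Rg a γ Ω (γ t + r * nr γ t) x / r) (𝓝[>] 0)
        (𝓝 (ps a γ x t)) := fun a ha => lim_of one_pos (D := 1) fun ε e0 _ =>
      (unif hC1 ha n t d0 e0).mono fun r hr => by simpa using hr x hx le_rfl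
    refine le_of_tendsto_of_tendsto (lim μ' h') (lim μ h) ?_
    filter_upwards [leg h.cd n t d0] with r ⟨r0, r1, r2, r3⟩
    have hn : γ t + r * nr γ t ≠ x := fun e => by
      rw [e] at r3
      exact r1.ne' r3
    have p : 0 ≤ ∫ z in Ω, Rg μ γ Ω (γ t + r * nr γ t) z * Rg μ' γ Ω z x := by
      refine integral_nonneg_of_ae ?_
      filter_upwards [RES.ae_ne Ω h.cd.opn (γ t + r * nr γ t), RES.ae_ne Ω h.cd.opn x] with z a b
      exact mul_nonneg (RES.rg_nn hGRE h r2 a.1 a.2.symm) (RES.rg_nn hGRE h' a.1 hx b.2)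
    have c : 0 ≤ μ' ^ 2 - μ ^ 2 := sub_nonneg.2 (pow_le_pow_left₀ h.pos.le m2 2)
    exact div_le_div_of_nonneg_right (by linarith [(res _ r2 x hx hn).2, mul_nonneg c p]) r0.le
  · have d0 : 0 < c0 γ s t := norm_pos_iff.2 (sub_ne_zero.2 hst)
    have d4 : 0 < c0 γ s t / 4 := by positivity
    obtain ⟨C, c0', a1, a2⟩ := side hPOI hGRE hDBL h n m1 (s := s) (t := t) d0
      (norm_sub_rev _ _).le
    obtain ⟨C', c1', b1, b2⟩ := side hPOI hGRE hDBL h' n (m1.trans m2) (s := t) (t := s) d0 le_rfl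
    have ev : ∀ᶠ r : ℝ in 𝓝[>] 0, IntegrableOn (fun z => Rg μ γ Ω (γ s + r * nr γ s) z / r *
        (Rg μ' γ Ω (γ t + r * nr γ t) z / r)) Ω ∧ (μ' ^ 2 - μ ^ 2) * ∫ z in Ω,
          Rg μ γ Ω (γ s + r * nr γ s) z / r * (Rg μ' γ Ω (γ t + r * nr γ t) z / r) =
        Rg μ γ Ω (γ s + r * nr γ s) (γ t + r * nr γ t) / (r * r) -
          Rg μ' γ Ω (γ s + r * nr γ s) (γ t + r * nr γ t) / (r * r) := by
      filter_upwards [leg h.cd n s d4, leg h.cd n t d4] with r ⟨r0, r1, r2, r3⟩ ⟨_, _, r4, r5⟩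
      have hn : γ s + r * nr γ s ≠ γ t + r * nr γ t := fun e => by
        have := norm_sub_le_norm_sub_add_norm_sub (γ s) (γ s + r * nr γ s) (γ t)
        rw [norm_sub_rev _ (γ s + r * nr γ s), r3, e, r5] at this
        unfold c0 at r1 d0
        linarith
      obtain ⟨i, e⟩ := res _ r2 _ r4 hn
      have q : EqOn (fun z => Rg μ γ Ω (γ s + r * nr γ s) z * Rg μ' γ Ω z (γ t + r * nr γ t) / (r * r))
          (fun z => Rg μ γ Ω (γ s + r * nr γ s) z / r * (Rg μ' γ Ω (γ t + r * nr γ t) z / r)) Ω :=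
        fun z hz => by simp only [RES.rg_comm hGRE h' hz r4, div_mul_div_comm]
      refine ⟨IntegrableOn.congr_fun (i.div_const _) q m, ?_⟩
      rw [← setIntegral_congr_fun m q, integral_div, ← sub_div, e, mul_div_assoc]
    obtain ⟨i0, t0⟩ := two m d4 c0' c1' a1 b1 a2 b2 (ev.mono fun r hr => hr.1)
      (fun ε e0 => unif hC1 h n s e0 e0) fun ε e0 => unif hC1 h' n t e0 e0
    have lim : ∀ a, Pot a γ Ω → 1 ≤ a → Tendsto (fun r : ℝ =>
        Rg a γ Ω (γ s + r * nr γ s) (γ t + r * nr γ t) / (r * r)) (𝓝[>] 0) (𝓝 (NN a γ s t).re) :=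
      fun a ha a1 => lim_of one_pos (D := 1) fun ε e0 _ => by
        obtain ⟨r0, p, k⟩ := (hDBL j a γ Ω ha n a1).1 _ d0 ε e0
        filter_upwards [Ioo_mem_nhdsGT p] with r b
        simpa using k s t r r b.1 b.2 b.1 b.2 le_rfl
    exact ⟨i0, tendsto_nhds_unique ((lim μ h m1).sub (lim μ' h' (m1.trans m2)))
      ((t0.const_mul _).congr' (ev.mono fun r hr => hr.2))⟩

end Pool.Agent.Lib.IS2
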