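import Pool.Agent.Lib.IS2.K28

/-! The mixed second variation of the regularised trace. -/

open scoped ContDiff ComplexConjugate Topology Real
open Complex MeasureTheory Set Filter

noncomputable section

namespace Pool.Agent.Lib.IS2

open Pool.Agent.Lib.ISO K28

namespace C4

variable {j μ : ℝ} {γ γ' : ℝ → ℂ} {Ω Ω' : Set ℂ} {ρ1 ρ2 : ℝ → ℝ} {e : ℝ}

theorem hR_cont (hG : St_GRE) (h : Pot μ γ Ω) {y : ℂ} (hy : y ∈ Ω) :
    ContinuousOn (fun x => hR μ γ Ω x y) (closure Ω) :=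
  (hG μ γ Ω h).1.comp (f := fun x : ℂ => (x, y)) (by fun_prop) fun _ hx => ⟨hx, hy⟩

theorem hR_bdry (hG : St_GRE) (h : Pot μ γ Ω) {y : ℂ} (hy : y ∈ Ω) (t : ℝ) :
    hR μ γ Ω (γ t) y = Gr μ (γ t - y) :=
  (sub_eq_zero.1 (((hG μ γ Ω h).2.2.2 y hy).2.1 t)).symm

theorem hR_symm (hG : St_GRE) (h : Pot μ γ Ω) {x y : ℂ} (hx : x ∈ Ω) (hy : y ∈ Ω) :
    hR μ γ Ω x y = hR μ γ Ω y x := (((hG μ γ Ω h).2.2.2 y hy).2.2.1 x hx).1

/-- the change of the regular term under shrinking the domain -/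
theorem shrink (hM : St_MAX) (hG : St_GRE) (h : Pot μ γ Ω) (h' : Pot μ γ' Ω') (hs : Ω' ⊆ Ω)
    {x : ℂ} (hx : x ∈ Ω') {v : ℂ → ℝ} (cv : ContinuousOn v (closure Ω)) (hv : Har μ Ω v) {m : ℝ}
    (hb : ∀ t, |Rg μ γ Ω (γ' t) x - v (γ' t)| ≤ m) :
    ∀ y ∈ closure Ω', |hR μ γ' Ω' y x - hR μ γ Ω y x - v y| ≤ m :=
  cmp (u := fun y => hR μ γ' Ω' y x - hR μ γ Ω y x) hM h.pos h'.cd
    ((hR_cont hG h' hx).sub ((hR_cont hG h (hs hx)).mono (closure_mono hs)))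
    (cv.mono (closure_mono hs)) (har_sub h'.cd.opn ((hG μ γ' Ω' h').2.2.2 x hx).1
      (har_mono ((hG μ γ Ω h).2.2.2 x (hs hx)).1 hs)) (har_mono hv hs) fun t => by
        simp only [hR_bdry hG h' hx]
        exact hb t

theorem nr_one (h : Nc j γ) (s : ℝ) : ‖nr γ s‖ = 1 := by rw [nr, norm_mul, norm_I, h.unit, one_mul]

theorem norm_leg (h : Nc j γ) (s : ℝ) {r : ℝ} (hr : 0 ≤ r) : ‖γ s + r * nr γ s - γ s‖ = r := by
  rw [add_sub_cancel_left, norm_mul, nr_one h, mul_one, norm_real, Real.norm_of_nonneg hr]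

theorem sep_zero (he : 0 < e) (hS : Sep e ρ1 ρ2) {s : ℝ} (h : ρ1 s ≠ 0) : ρ2 s = 0 := by
  by_contra h'
  have := hS s s h h'
  rw [dc_self] at this
  linarith

theorem sep_symm (hS : Sep e ρ1 ρ2) : Sep e ρ2 ρ1 := fun s t h h' => dc_comm t s ▸ hS t s h' h

theorem sep_c0 (h : Nc j γ) (hS : Sep e ρ1 ρ2) {s t : ℝ} (h1 : ρ1 s ≠ 0) (h2 : ρ2 t ≠ 0) :
    e / j ≤ ‖γ t - γ s‖ := by
  rw [div_le_iff₀' h.pos]
  exact (dc_comm s t ▸ hS s t h1 h2).trans (h.arc t s)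

theorem per_bd {ρ : ℝ → ℝ} (h : Per (2 * π) ρ) : ∃ M, 0 < M ∧ ∀ s, ρ s ≤ M := by
  obtain ⟨B, hB⟩ := cp_bd (φ := ρ) ⟨h.smooth.continuous, h.per⟩
  exact ⟨B + 1, by linarith [(abs_nonneg _).trans (hB 0)],
    fun s => by linarith [le_abs_self (ρ s), hB s]⟩

theorem ev_lt (M : ℝ) {c : ℝ} (hc : 0 < c) : ∀ᶠ τ in 𝓝[>] (0 : ℝ), τ * M < c := by
  have : Tendsto (fun τ : ℝ => τ * M) (𝓝 0) (𝓝 0) := by
    simpa using (tendsto_id (x := 𝓝 (0 : ℝ))).mul_const M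
  exact (this.eventually (gt_mem_nhds hc)).filter_mono nhdsWithin_le_nhds

/-- the weight -/
def wq (μ : ℝ) (γ : ℝ → ℂ) (ρ1 ρ2 : ℝ → ℝ) (s t : ℝ) : ℝ := ρ1 s * ρ2 t * (NN μ γ s t).re

theorem wq_cont (h : Nc j γ) (he : 0 < e) (hS : Sep e ρ1 ρ2) (c1 : Continuous ρ1)
    (c2 : Continuous ρ2)
    (hN : ContinuousOn (fun p : ℝ × ℝ => (NN μ γ p.1 p.2).re) {p | γ p.1 ≠ γ p.2}) :
    Continuous fun p : ℝ × ℝ => wq μ γ ρ1 ρ2 p.1 p.2 := by
  have cγ := h.smooth.continuous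
  refine continuous_iff_continuousAt.2 fun p => ?_
  by_cases hp : γ p.1 = γ p.2
  · have h1 : dc p.1 p.2 < e := by
      have := h.arc p.1 p.2
      rw [hp, sub_self, norm_zero, mul_zero] at this
      linarith
    refine (continuousAt_const (y := (0 : ℝ))).congr ?_
    filter_upwards [(continuous_dc.tendsto p).eventually (gt_mem_nhds h1)] with q hq
    by_contra hne
    have h2 : ρ1 q.1 * ρ2 q.2 ≠ 0 := left_ne_zero_of_mul (Ne.symm hne)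
    exact hq.not_ge (hS _ _ (left_ne_zero_of_mul h2) (right_ne_zero_of_mul h2))
  · exact (Continuous.continuousAt (by fun_prop)).mul (hN.continuousAt
      ((isOpen_ne_fun (by fun_prop) (by fun_prop)).mem_nhds hp))

/-- the solution in both variables -/
def V2 (μ : ℝ) (γ : ℝ → ℂ) (Ω : Set ℂ) (W : ℝ → ℝ → ℝ) (x y : ℂ) : ℝ :=
  Ue μ γ Ω (fun s => Ue μ γ Ω (W s) y) x

structure Kn (W : ℝ → ℝ → ℝ) : Prop where
  cont : Continuous fun p : ℝ × ℝ => W p.1 p.2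
  p1 : ∀ s t, W (s + 2 * π) t = W s t
  p2 : ∀ s t, W s (t + 2 * π) = W s t

variable {W : ℝ → ℝ → ℝ}

theorem Kn.cp (k : Kn W) (s : ℝ) : CP (W s) :=
  ⟨k.cont.comp (f := fun t : ℝ => (s, t)) (by fun_prop), k.p2 s⟩

theorem Kn.bd (k : Kn W) : ∃ B, ∀ s t, |W s t| ≤ B := by
  obtain ⟨B, hB⟩ := (isCompact_Icc.prod isCompact_Icc).exists_bound_of_continuousOn
    (s := Icc (0 : ℝ) (2 * π) ×ˢ Icc (0 : ℝ) (2 * π)) k.cont.continuousOn
  refine ⟨B, fun s t => ?_⟩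
  obtain ⟨s', hs, e1⟩ := cp_red (φ := fun s => W s t) (fun s => k.p1 s t) s
  obtain ⟨t', ht, e2⟩ := cp_red (φ := W s') (k.p2 s') t
  rw [show W s t = W s' t from e1, e2]
  exact hB (s', t') ⟨hs, ht⟩

theorem in_cont (hP : St_POI) (h : Pot μ γ Ω) (k : Kn W) :
    ContinuousOn (Function.uncurry fun (y : ℂ) (s : ℝ) => Ue μ γ Ω (W s) y) (closure Ω ×ˢ univ) :=
  (hP μ γ Ω h).2.2.1 ℝ univ W k.cont.continuousOn fun s _ => k.p2 s

theorem in_per (k : Kn W) (y : ℂ) : Function.Periodic (fun s => Ue μ γ Ω (W s) y) (2 * π) :=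
  fun s => by simp only [show W (s + 2 * π) = W s from funext (k.p1 s)]

theorem in_cp (hP : St_POI) (h : Pot μ γ Ω) (k : Kn W) {y : ℂ} (hy : y ∈ closure Ω) :
    CP fun s => Ue μ γ Ω (W s) y :=
  ⟨(in_cont hP h k).comp_continuous (f := fun s : ℝ => (y, s)) (by fun_prop)
    fun _ => ⟨hy, trivial⟩, in_per k y⟩

theorem V2_cont (hP : St_POI) (h : Pot μ γ Ω) (k : Kn W) :
    ContinuousOn (fun p : ℂ × ℂ => V2 μ γ Ω W p.1 p.2) (closure Ω ×ˢ closure Ω) := by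
  have := (hP μ γ Ω h).2.2.1 ℂ (closure Ω) (fun y s => Ue μ γ Ω (W s) y) (in_cont hP h k)
    fun y _ => in_per k y
  simpa only [V2] using this

theorem V2_left (hP : St_POI) (h : Pot μ γ Ω) (k : Kn W) {y : ℂ} (hy : y ∈ closure Ω) (s : ℝ) :
    V2 μ γ Ω W (γ s) y = Ue μ γ Ω (W s) y := ((hP μ γ Ω h).1 _ (in_cp hP h k hy)).2.2.1 s

theorem V2_bdry (hP : St_POI) (h : Pot μ γ Ω) (k : Kn W) (s t : ℝ) :
    V2 μ γ Ω W (γ s) (γ t) = W s t := by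
  rw [V2_left hP h k (mem_cl h.cd t), ((hP μ γ Ω h).1 _ (k.cp s)).2.2.1 t]

theorem V2_int (hP : St_POI) (h : Pot μ γ Ω) (k : Kn W) {x y : ℂ} (hx : x ∈ Ω) (hy : y ∈ Ω) :
    V2 μ γ Ω W x y = ∫ s in (0 : ℝ)..(2 * π), ∫ t in (0 : ℝ)..(2 * π),
      ps μ γ x s * ps μ γ y t * W s t := by
  rw [V2, (((hP μ γ Ω h).1 _ (in_cp hP h k (subset_closure hy))).2.2.2.1 x hx).2]
  refine intervalIntegral.integral_congr fun s _ => ?_
  simp only [(((hP μ γ Ω h).1 _ (k.cp s)).2.2.2.1 y hy).2, mul_assoc,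
    intervalIntegral.integral_const_mul]

theorem ps_cont (hP : St_POI) (h : Pot μ γ Ω) {x : ℂ} (hx : x ∈ Ω) : Continuous (ps μ γ x) :=
  ((hP μ γ Ω h).2.2.2.2.2.2.2.2 x hx).1.1

theorem V2_symm (hP : St_POI) (h : Pot μ γ Ω) (k : Kn W) (hW : ∀ s t, W s t = W t s) {x y : ℂ}
    (hx : x ∈ Ω) (hy : y ∈ Ω) : V2 μ γ Ω W x y = V2 μ γ Ω W y x := by
  have c1 := ps_cont hP h hx
  have c2 := ps_cont hP h hy
  rw [V2_int hP h k hx hy, V2_int hP h k hy hx, swap (F := fun s t => ps μ γ x s * ps μ γ y t * W s t)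
    (((c1.comp continuous_fst).mul (c2.comp continuous_snd)).mul k.cont)]
  refine intervalIntegral.integral_congr fun s _ => intervalIntegral.integral_congr fun t _ => ?_
  simp only [hW s t, mul_comm (ps μ γ x _)]

theorem int_diag (hP : St_POI) (h : Pot μ γ Ω) (k : Kn W) :
    ∫ x in Ω, V2 μ γ Ω W x x =
      ∫ s in (0 : ℝ)..(2 * π), ∫ t in (0 : ℝ)..(2 * π), W s t * QI μ γ Ω s t := by
  obtain ⟨B, hB⟩ := k.bd
  have B0 : 0 ≤ B := (abs_nonneg _).trans (hB 0 0)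
  have mΩ := h.cd.opn.measurableSet
  have : IsFiniteMeasure (volume.restrict Ω) := isFiniteMeasure_restrict.2 h.cd.bdd.measure_lt_top.ne
  have m0 := (hP μ γ Ω h).2.2.2.1
  obtain ⟨ν, hν⟩ : ∃ ν : Measure ℝ, ν = volume.restrict (Ioc 0 (2 * π)) := ⟨_, rfl⟩
  have : IsFiniteMeasure ν := hν ▸ inferInstance
  have ii (f : ℝ → ℝ) : ∫ s in (0 : ℝ)..(2 * π), f s = ∫ s, f s ∂ν := by
    rw [intervalIntegral.integral_of_le two_pi, hν]
  have ic {f : ℝ → ℝ} (hf : Continuous f) : Integrable f ν := by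
    rw [hν]
    exact (hf.integrableOn_Icc).mono_set Ioc_subset_Icc_self
  have mf : Measurable fun q : ℂ × ℝ × ℝ => ps μ γ q.1 q.2.1 * ps μ γ q.1 q.2.2 * W q.2.1 q.2.2 :=
    ((m0.comp (f := fun q : ℂ × ℝ × ℝ => (q.1, q.2.1)) (by fun_prop)).mul
      (m0.comp (f := fun q : ℂ × ℝ × ℝ => (q.1, q.2.2)) (by fun_prop))).mul
      (k.cont.measurable.comp measurable_snd)
  have i1 {x : ℂ} (hx : x ∈ Ω) : Integrable (fun p : ℝ × ℝ => ps μ γ x p.1 * ps μ γ x p.2) (ν.prod ν) :=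
    (ic (ps_cont hP h hx)).mul_prod (ic (ps_cont hP h hx))
  have i2 {x : ℂ} (hx : x ∈ Ω) :
      Integrable (fun p : ℝ × ℝ => ps μ γ x p.1 * ps μ γ x p.2 * W p.1 p.2) (ν.prod ν) :=
    (i1 hx).mul_bdd k.cont.aestronglyMeasurable (.of_forall fun p => hB p.1 p.2)
  have i3 : Integrable (Function.uncurry fun (x : ℂ) (p : ℝ × ℝ) =>
      ps μ γ x p.1 * ps μ γ x p.2 * W p.1 p.2) ((volume.restrict Ω).prod (ν.prod ν)) := by
    refine (integrable_prod_iff mf.aestronglyMeasurable).2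
      ⟨(ae_restrict_iff' mΩ).2 (.of_forall fun x hx => i2 hx), ?_⟩
    refine Integrable.of_bound mf.norm.aestronglyMeasurable.integral_prod_right' B
      ((ae_restrict_iff' mΩ).2 (.of_forall fun x hx => ?_))
    obtain ⟨-, p0, p1, -⟩ := (hP μ γ Ω h).2.2.2.2.2.2.2.2 x hx
    rw [ii] at p1
    have p2 : 0 ≤ ∫ s, ps μ γ x s ∂ν := integral_nonneg p0
    rw [Real.norm_of_nonneg (integral_nonneg fun _ => norm_nonneg _)]
    refine (integral_mono (i2 hx).norm ((i1 hx).mul_const B) fun p => ?_).trans ?_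
    · simp only [Function.uncurry, norm_mul, Real.norm_of_nonneg (p0 _)]
      exact mul_le_mul_of_nonneg_left (hB _ _) (mul_nonneg (p0 _) (p0 _))
    · rw [integral_mul_const, integral_prod_mul]
      exact mul_le_of_le_one_left B0 (mul_le_one₀ p1 p2 p1)
  have e1 := integral_integral_swap i3
  have e2 := integral_prod _ i3.integral_prod_right
  simp only [Function.uncurry] at e2
  rw [e2] at e1
  rw [setIntegral_congr_fun mΩ (g := fun x => ∫ p : ℝ × ℝ,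
    ps μ γ x p.1 * ps μ γ x p.2 * W p.1 p.2 ∂ν.prod ν) fun x hx => by
      simp only [V2_int hP h k hx hx, ii, integral_prod _ (i2 hx)], e1]
  simp only [ii, QI, integral_mul_const, mul_comm (W _ _)]

/-- a point of a thin strip over the first support lies in the domain deformed over the second
support, and the change of the regular term there is of second order -/
theorem stepA (hC : St_GC) (hM : St_MAX) (hP : St_POI) (hG : St_GRE) (hD : St_DBL) (h : Pot μ γ Ω)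
    (hN : Nc j γ) (hμ : 1 ≤ μ) (p1 : Per (2 * π) ρ1) (p2 : Per (2 * π) ρ2) (n2 : ∀ s, 0 ≤ ρ2 s)
    (he : 0 < e) (hS : Sep e ρ1 ρ2) (k : Kn W)
    (hW : ∀ s t, ρ1 s ≠ 0 → W t s = ρ2 t * ρ1 s * (NN μ γ t s).re) {ε : ℝ} (hε : 0 < ε) :
    ∀ᶠ τ in 𝓝[>] (0 : ℝ), Pot μ (cs γ fun s => τ * ρ2 s) (Sh Ω γ fun s => τ * ρ2 s) →
      ∀ s θ : ℝ, 0 < θ → θ ≤ 1 → 0 < ρ1 s → ∀ x, x = γ s + (θ * τ * ρ1 s : ℝ) * nr γ s →
        x ∈ Sh Ω γ (fun s => τ * ρ2 s) ∧ ∀ y ∈ Sh Ω γ (fun s => τ * ρ2 s),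
          |hR μ (cs γ fun s => τ * ρ2 s) (Sh Ω γ fun s => τ * ρ2 s) y x - hR μ γ Ω y x -
            θ * τ ^ 2 * V2 μ γ Ω W y x| ≤ ε * τ ^ 2 := by
  obtain ⟨M1, M10, hM1⟩ := per_bd p1
  obtain ⟨M2, M20, hM2⟩ := per_bd p2
  obtain ⟨c, c0', -, -, g3, -⟩ := hC Ω γ h.cd
  have ej : 0 < e / j := div_pos he hN.pos
  obtain ⟨r0, r00, hr0⟩ := (hD j μ γ Ω h hN hμ).1 (e / j) ej (ε / 2 / (M2 * M1)) (by positivity)
  have cc := h.cd.bdd.isCompact_closure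
  obtain ⟨δ, δ0, hδ⟩ := Metric.uniformContinuousOn_iff_le.1
    ((cc.prod cc).uniformContinuousOn_of_continuous (V2_cont hP h k)) (ε / 2) (half_pos hε)
  have m0 : 0 < min (min c (e / j)) (min r0 δ) := by positivity
  filter_upwards [self_mem_nhdsWithin, ev_lt (M1 + M2) m0] with τ (τ0 : 0 < τ) hτ h' s θ θ0 θ1 s0
    x hx
  simp only [lt_min_iff] at hτ
  obtain ⟨⟨t1, t2⟩, t3, t4⟩ := hτ
  obtain ⟨r, hr⟩ : ∃ r, r = θ * τ * ρ1 s := ⟨_, rfl⟩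
  rw [← hr] at hx
  have r0' : 0 < r := by rw [hr]; positivity
  have r1 : r ≤ τ * M1 := by
    rw [hr, mul_assoc]
    exact (mul_le_of_le_one_left (by positivity) θ1).trans (mul_le_mul_of_nonneg_left (hM1 s) τ0.le)
  have q2 (t : ℝ) : τ * ρ2 t ≤ τ * M2 := mul_le_mul_of_nonneg_left (hM2 t) τ0.le
  have q0 (t : ℝ) : 0 ≤ τ * ρ2 t := mul_nonneg τ0.le (n2 t)
  have a1 : 0 < τ * M1 := by positivity
  have a2 : 0 < τ * M2 := by positivity
  have xΩ : x ∈ Ω := hx ▸ (g3 s r r0' (by linarith)).1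
  have xS : x ∈ Sh Ω γ fun s => τ * ρ2 s := ⟨xΩ, fun ⟨t, r', b0, b1, b2⟩ => by
    have b3 : ρ2 t ≠ 0 := fun b3 => ne_curve h.cd xΩ t (by
      simp only [b3, mul_zero] at b1
      simp [b2, le_antisymm b1 b0])
    have b4 := sep_c0 hN hS s0.ne' b3
    have b5 := norm_sub_le_norm_sub_add_norm_sub (γ t) x (γ s)
    rw [norm_sub_rev (γ t) x] at b5
    have b6 := norm_leg hN s r0'.le
    have b7 := norm_leg hN t b0
    rw [← hx] at b6
    rw [← b2] at b7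
    linarith [q2 t]⟩
  refine ⟨xS, fun y hy => shrink hM hG h h' diff_subset xS
    (v := fun y => θ * τ ^ 2 * V2 μ γ Ω W y x)
    (continuousOn_const.mul ((hP μ γ Ω h).1 _ (in_cp hP h k (subset_closure xΩ))).1)
    (har_mul h.cd.opn ((hP μ γ Ω h).1 _ (in_cp hP h k (subset_closure xΩ))).2.1 _)
    (fun t => ?_) y (subset_closure hy)⟩
  have b1 : |Rg μ γ Ω (cs γ (fun s => τ * ρ2 s) t) x - θ * τ ^ 2 * W t s| ≤ ε / 2 * τ ^ 2 := by
    rw [hW s t s0.ne']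
    rcases (n2 t).eq_or_lt with b | b
    · simp only [cs, ← b, mul_zero, ofReal_zero, zero_mul, add_zero, sub_zero,
        ((hG μ γ Ω h).2.2.2 x xΩ).2.1 t, abs_zero]
      positivity
    · have b0 : 0 < τ * ρ2 t := mul_pos τ0 b
      have b2 := hr0 t s (τ * ρ2 t) r b0 (by linarith [q2 t]) r0' (by linarith)
        (sep_c0 hN hS s0.ne' b.ne')
      rw [← hx] at b2
      have b3 : 0 < τ * ρ2 t * r := mul_pos b0 r0'
      have b4 := mul_le_mul_of_nonneg_left b2 b3.le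
      rw [← abs_of_pos b3, ← abs_mul, abs_of_pos b3, mul_sub, mul_div_cancel₀ _ b3.ne'] at b4
      rw [show θ * τ ^ 2 * (ρ2 t * ρ1 s * (NN μ γ t s).re) = τ * ρ2 t * r * (NN μ γ t s).re by
        rw [hr]; ring]
      refine b4.trans ((mul_le_mul_of_nonneg_right (mul_le_mul (q2 t) r1 r0'.le a2.le)
        (by positivity)).trans_eq ?_)
      field_simp
  have b2 : |V2 μ γ Ω W (cs γ (fun s => τ * ρ2 s) t) x - W t s| ≤ ε / 2 := by
    rw [← V2_bdry hP h k t s]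
    refine hδ (_, x) ⟨closure_mono diff_subset (mem_cl h'.cd t), subset_closure xΩ⟩ (γ t, γ s)
      ⟨mem_cl h.cd t, mem_cl h.cd s⟩ ?_
    rw [Prod.dist_eq, dist_eq_norm, dist_eq_norm]
    simp only [cs]
    rw [norm_leg hN t (q0 t), hx, norm_leg hN s r0'.le]
    exact max_le (by linarith [q2 t]) (by linarith)
  have b3 := mul_le_mul (mul_le_of_le_one_left (sq_nonneg τ) θ1) b2 (abs_nonneg _) (sq_nonneg τ)
  rw [← abs_of_nonneg (by positivity : 0 ≤ θ * τ ^ 2), ← abs_mul, mul_sub] at b3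
  have b4 := abs_sub_le (Rg μ γ Ω (cs γ (fun s => τ * ρ2 s) t) x) (θ * τ ^ 2 * W t s)
    (θ * τ ^ 2 * V2 μ γ Ω W (cs γ (fun s => τ * ρ2 s) t) x)
  rw [abs_sub_comm (θ * τ ^ 2 * W t s)] at b4
  linarith

theorem sh_inter {a b : ℝ → ℝ} (h : ∀ s, a s = 0 ∨ b s = 0) (ha : ∀ s, 0 ≤ a s) (hb : ∀ s, 0 ≤ b s)
    (x : ℂ) : x ∈ Sh Ω γ (fun s => a s + b s) ↔ x ∈ Sh Ω γ a ∧ x ∈ Sh Ω γ b := by
  refine ⟨fun hx => ⟨⟨hx.1, fun ⟨s, r, b0, b1, b2⟩ => hx.2 ⟨s, r, b0, by linarith [hb s], b2⟩⟩,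
    hx.1, fun ⟨s, r, b0, b1, b2⟩ => hx.2 ⟨s, r, b0, by linarith [ha s], b2⟩⟩,
    fun hx => ⟨hx.1.1, fun ⟨s, r, b0, b1, b2⟩ => ?_⟩⟩
  rcases h s with h1 | h1
  · exact hx.2.2 ⟨s, r, b0, by linarith, b2⟩
  · exact hx.1.2 ⟨s, r, b0, by linarith, b2⟩

/-- points of the strip -/
theorem of_not_mem (h : CD Ω γ) {τ : ℝ} (τ0 : 0 < τ) {x : ℂ} (hx : x ∈ Ω)
    (h1 : x ∉ Sh Ω γ fun s => τ * ρ1 s) :
    ∃ s θ : ℝ, 0 < θ ∧ θ ≤ 1 ∧ 0 < ρ1 s ∧ x = γ s + (θ * τ * ρ1 s : ℝ) * nr γ s := by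
  obtain ⟨s, r, b0, b1, b2⟩ := not_not.1 fun h2 => h1 ⟨hx, h2⟩
  have b3 : 0 < r := b0.lt_of_ne fun b => ne_curve h hx s (by simp [b2, ← b])
  have b4 : 0 < τ * ρ1 s := b3.trans_le b1
  have b5 : 0 < ρ1 s := (mul_pos_iff_of_pos_left τ0).1 b4
  refine ⟨s, r / (τ * ρ1 s), div_pos b3 b4, (div_le_one b4).2 b1, b5, ?_⟩
  rw [mul_assoc, div_mul_cancel₀ _ b4.ne', b2]

theorem ev_mem (h : CD Ω γ) (hN : Nc j γ) (p1 : Per (2 * π) ρ1) {x : ℂ} (hx : x ∈ Ω) :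
    ∀ᶠ τ in 𝓝[>] (0 : ℝ), x ∈ Sh Ω γ fun s => τ * ρ1 s := by
  obtain ⟨M1, M10, hM1⟩ := per_bd p1
  obtain ⟨δ, δ0, hδ⟩ := Metric.isOpen_iff.1 h.opn x hx
  filter_upwards [self_mem_nhdsWithin, ev_lt M1 δ0] with τ (τ0 : 0 < τ) hτ
  refine ⟨hx, fun ⟨s, r, b0, b1, b2⟩ => ne_curve h (hδ (?_ : γ s ∈ Metric.ball x δ)) s rfl⟩
  rw [Metric.mem_ball', dist_eq_norm, b2, norm_leg hN s b0]
  exact (b1.trans (mul_le_mul_of_nonneg_left (hM1 s) τ0.le)).trans_lt hτ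

theorem V2_two (hP : St_POI) (h : Pot μ γ Ω) (k : Kn W) (k' : Kn fun s t => W s t + W t s) {x : ℂ}
    (hx : x ∈ Ω) : V2 μ γ Ω (fun s t => W s t + W t s) x x = 2 * V2 μ γ Ω W x x := by
  have c := ps_cont hP h hx
  have cc : Continuous fun p : ℝ × ℝ => ps μ γ x p.1 * ps μ γ x p.2 :=
    (c.comp continuous_fst).mul (c.comp continuous_snd)
  have f1 : Continuous fun p : ℝ × ℝ => ps μ γ x p.1 * ps μ γ x p.2 * W p.1 p.2 := cc.mul k.cont
  have f2 : Continuous fun p : ℝ × ℝ => ps μ γ x p.1 * ps μ γ x p.2 * W p.2 p.1 :=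
    cc.mul (k.cont.comp continuous_swap)
  have f3 := swap (F := fun s t => ps μ γ x s * ps μ γ x t * W t s) f2
  have g {F : ℝ → ℝ → ℝ} (hF : Continuous fun p : ℝ × ℝ => F p.1 p.2) :
      Continuous fun s => ∫ t in (0 : ℝ)..(2 * π), F s t :=
    intervalIntegral.continuous_parametric_intervalIntegral_of_continuous' hF _ _
  rw [two_mul (V2 μ γ Ω W x x), V2_int hP h k' hx hx, V2_int hP h k hx hx]
  nth_rw 2 [show ∫ s in (0 : ℝ)..(2 * π), ∫ t in (0 : ℝ)..(2 * π), ps μ γ x s * ps μ γ x t * W s t =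
      ∫ s in (0 : ℝ)..(2 * π), ∫ t in (0 : ℝ)..(2 * π), ps μ γ x s * ps μ γ x t * W t s by
    rw [f3]; simp only [mul_comm (ps μ γ x _) (ps μ γ x _)]]
  rw [← intervalIntegral.integral_add ((g f1).intervalIntegrable _ _) ((g f2).intervalIntegrable _ _)]
  refine intervalIntegral.integral_congr fun s _ => ?_
  simp only [mul_add]
  exact intervalIntegral.integral_add
    ((f1.comp (f := fun t : ℝ => (s, t)) (by fun_prop)).intervalIntegrable _ _)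
    ((f2.comp (f := fun t : ℝ => (s, t)) (by fun_prop)).intervalIntegrable _ _)

theorem stepB (hM : St_MAX) (hG : St_GRE) {a b : ℝ → ℝ} (hab : ∀ s, a s = 0 ∨ b s = 0)
    (ha : ∀ s, 0 ≤ a s) (hb : ∀ s, 0 ≤ b s) (h : Pot μ γ Ω)
    (h11 : Pot μ (cs γ fun s => a s + b s) (Sh Ω γ fun s => a s + b s))
    (h10 : Pot μ (cs γ a) (Sh Ω γ a)) (h01 : Pot μ (cs γ b) (Sh Ω γ b)) {v : ℂ → ℝ}
    (cv : ContinuousOn v (closure Ω)) (hv : Har μ Ω v) {y : ℂ}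
    (hy : y ∈ Sh Ω γ fun s => a s + b s) {m : ℝ} (m0 : 0 ≤ m)
    (A1 : ∀ s, 0 < a s → cs γ a s ∈ Sh Ω γ b ∧
      |hR μ (cs γ b) (Sh Ω γ b) y (cs γ a s) - hR μ γ Ω y (cs γ a s) - v (cs γ a s)| ≤ m)
    (A2 : ∀ s, 0 < b s → cs γ b s ∈ Sh Ω γ a ∧
      |hR μ (cs γ a) (Sh Ω γ a) y (cs γ b s) - hR μ γ Ω y (cs γ b s) - v (cs γ b s)| ≤ m)
    (A0 : ∀ s, a s = 0 → b s = 0 → v (γ s) = 0) :
    |hR μ (cs γ a) (Sh Ω γ a) y y + hR μ (cs γ b) (Sh Ω γ b) y y -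
      hR μ (cs γ fun s => a s + b s) (Sh Ω γ fun s => a s + b s) y y - hR μ γ Ω y y - v y| ≤ m := by
  have s1 : Sh Ω γ (fun s => a s + b s) ⊆ Sh Ω γ a := fun x hx => ((sh_inter hab ha hb x).1 hx).1
  have s2 : Sh Ω γ (fun s => a s + b s) ⊆ Sh Ω γ b := fun x hx => ((sh_inter hab ha hb x).1 hx).2
  have s0 : Sh Ω γ (fun s => a s + b s) ⊆ Ω := diff_subset
  have o := h11.cd.opn
  refine cmp (u := fun x => hR μ (cs γ a) (Sh Ω γ a) x y + hR μ (cs γ b) (Sh Ω γ b) x y -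
      hR μ (cs γ fun s => a s + b s) (Sh Ω γ fun s => a s + b s) x y - hR μ γ Ω x y) hM h.pos h11.cd
    (((((hR_cont hG h10 (s1 hy)).mono (closure_mono s1)).add
      ((hR_cont hG h01 (s2 hy)).mono (closure_mono s2))).sub (hR_cont hG h11 hy)).sub
      ((hR_cont hG h (s0 hy)).mono (closure_mono s0))) (cv.mono (closure_mono s0))
    (har_sub o (har_sub o (har_add o (har_mono ((hG _ _ _ h10).2.2.2 y (s1 hy)).1 s1)
      (har_mono ((hG _ _ _ h01).2.2.2 y (s2 hy)).1 s2)) ((hG _ _ _ h11).2.2.2 y hy).1)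
      (har_mono ((hG _ _ _ h).2.2.2 y (s0 hy)).1 s0)) (har_mono hv s0) (fun s => ?_) y
    (subset_closure hy)
  simp only [hR_bdry hG h11 hy]
  have e1 := hR_bdry hG h10 (s1 hy) s
  have e2 := hR_bdry hG h01 (s2 hy) s
  rcases (ha s).eq_or_lt with a0 | a0
  · have e3 : cs γ (fun s => a s + b s) s = cs γ b s := by simp only [cs, ← a0, zero_add]
    rcases (hb s).eq_or_lt with b0 | b0
    · have e4 : cs γ b s = γ s := by simp [cs, ← b0]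
      have e5 : cs γ a s = γ s := by simp [cs, ← a0]
      rw [e4] at e2
      rw [e5] at e1
      rw [e3, e4, e1, e2, hR_bdry hG h (s0 hy), A0 s a0.symm b0.symm]
      simpa using m0
    · obtain ⟨b1, b2⟩ := A2 s b0
      rw [e3, e2, add_sub_cancel_right, hR_symm hG h10 b1 (s1 hy), hR_symm hG h b1.1 (s0 hy)]
      exact b2
  · have e3 : cs γ (fun s => a s + b s) s = cs γ a s := by
      simp only [cs, (hab s).resolve_left a0.ne', add_zero]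
    obtain ⟨b1, b2⟩ := A1 s a0
    rw [e3, e1, add_sub_cancel_left, hR_symm hG h01 b1 (s2 hy), hR_symm hG h b1.1 (s0 hy)]
    exact b2

/-- the diagonal of the regular term, extended by zero -/
def dg (μ : ℝ) (γ : ℝ → ℂ) (Ω : Set ℂ) (ρ : ℝ → ℝ) : ℂ → ℝ :=
  (Sh Ω γ ρ).indicator fun x => hR μ (cs γ ρ) (Sh Ω γ ρ) x x

theorem dg_int (hG : St_GRE) {ρ : ℝ → ℝ} (h : Pot μ (cs γ ρ) (Sh Ω γ ρ)) :
    IntegrableOn (dg μ γ Ω ρ) Ω ∧ tb μ γ Ω ρ = -∫ x in Ω, dg μ γ Ω ρ x := by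
  have m := h.cd.opn.measurableSet
  refine ⟨((integrable_indicator_iff m).2 (hG _ _ _ h).2.1).integrableOn, ?_⟩
  rw [tb, TB, dg, integral_indicator m, Measure.restrict_restrict m, 
    show Sh Ω γ ρ ∩ Ω = Sh Ω γ ρ from inter_eq_left.2 diff_subset]

end C4

open C4 in
theorem st_c4 (hC : St_GC) (hM : St_MAX) (hP : St_POI) (hG : St_GRE) (hD : St_DBL) (hH : St_NH) :
    St_C4 := by
  intro j μ γ Ω η ρ1 ρ2 e τ0 _ hN hμ h p1 p2 n1 n2 he hS τ00 hpot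
  obtain ⟨-, -, -, d4, d5⟩ := hD j μ γ Ω h hN hμ
  obtain ⟨-, -, -, np⟩ := (hH j).1 γ hN
  have c1 := p1.smooth.continuous
  have c2 := p2.smooth.continuous
  have mΩ := h.cd.opn.measurableSet
  have kw : Kn (wq μ γ ρ1 ρ2) := ⟨wq_cont hN he hS c1 c2 d5,
    fun s t => by simp only [wq, p1.per, (np μ s t).1],
    fun s t => by simp only [wq, p2.per, (np μ s t).2]⟩
  obtain ⟨W, hW⟩ : ∃ W : ℝ → ℝ → ℝ, W = fun s t => wq μ γ ρ1 ρ2 s t + wq μ γ ρ1 ρ2 t s := ⟨_, rfl⟩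
  have k : Kn W := hW ▸ ⟨kw.cont.add (kw.cont.comp continuous_swap),
    fun s t => by simp only [kw.p1, kw.p2], fun s t => by simp only [kw.p1, kw.p2]⟩
  have Ws (s t : ℝ) : W s t = W t s := by simp only [hW, add_comm]
  have w2 (s t : ℝ) (hs : ρ2 s ≠ 0) : W t s = ρ1 t * ρ2 s * (NN μ γ t s).re := by
    simp only [hW, wq, sep_zero he (sep_symm hS) hs, zero_mul, add_zero]
  have w1 (s t : ℝ) (hs : ρ1 s ≠ 0) : W t s = ρ2 t * ρ1 s * (NN μ γ t s).re := by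
    simp only [hW, wq, sep_zero he hS hs, zero_mul, mul_zero, zero_add]
    by_cases ht : ρ2 t = 0
    · simp [ht]
    · have : γ t ≠ γ s := fun b => by
        have := sep_c0 hN hS hs ht
        rw [b, sub_self, norm_zero] at this
        exact this.not_gt (div_pos he hN.pos)
      rw [(d4 t s this).1, mul_comm (ρ1 s)]
  have lim : ∫ x in Ω, V2 μ γ Ω W x x = 2 * ∫ s in (0 : ℝ)..(2 * π), ∫ t in (0 : ℝ)..(2 * π),
      ρ1 s * ρ2 t * ((NN μ γ s t).re * QI μ γ Ω s t) := by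
    rw [setIntegral_congr_fun mΩ (g := fun x => 2 * V2 μ γ Ω (wq μ γ ρ1 ρ2) x x) fun x hx => by
      rw [hW]; exact V2_two hP h kw (hW ▸ k) hx, integral_const_mul, int_diag hP h kw]
    simp only [wq, mul_assoc]
  simp only [zero_mul, add_zero, zero_add]
  have pot : ∀ᶠ τ in 𝓝[>] (0 : ℝ),
      Pot μ (cs γ fun s => τ * ρ1 s + τ * ρ2 s) (Sh Ω γ fun s => τ * ρ1 s + τ * ρ2 s) ∧
      Pot μ (cs γ fun s => τ * ρ1 s) (Sh Ω γ fun s => τ * ρ1 s) ∧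
      Pot μ (cs γ fun s => τ * ρ2 s) (Sh Ω γ fun s => τ * ρ2 s) := by
    filter_upwards [Ioc_mem_nhdsGT τ00] with τ hτ
    refine ⟨hpot τ τ hτ.1.le hτ.2 hτ.1.le hτ.2, ?_, ?_⟩
    · simpa only [zero_mul, add_zero] using hpot τ 0 hτ.1.le hτ.2 le_rfl τ00.le
    · simpa only [zero_mul, zero_add] using hpot 0 τ le_rfl τ00.le hτ.1.le hτ.2
  obtain ⟨F, hF⟩ : ∃ F : ℝ → ℂ → ℝ, F = fun τ x => (dg μ γ Ω (fun s => τ * ρ1 s) x +
    dg μ γ Ω (fun s => τ * ρ2 s) x - dg μ γ Ω (fun s => τ * ρ1 s + τ * ρ2 s) x - hR μ γ Ω x x) /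
      τ ^ 2 := ⟨_, rfl⟩
  have cc := h.cd.bdd.isCompact_closure
  obtain ⟨B, hB⟩ := (cc.prod cc).exists_bound_of_continuousOn (V2_cont hP h k)
  have hab (τ s : ℝ) : τ * ρ1 s = 0 ∨ τ * ρ2 s = 0 := by
    by_cases hs : ρ1 s = 0
    · exact .inl (by rw [hs, mul_zero])
    · exact .inr (by rw [sep_zero he hS hs, mul_zero])
  have main (ε : ℝ) (hε : 0 < ε) : ∀ᶠ τ in 𝓝[>] (0 : ℝ), ∀ x ∈ Ω, ∃ θ : ℝ, 0 < θ ∧ θ ≤ 1 ∧
      |F τ x - θ * V2 μ γ Ω W x x| ≤ ε ∧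
      (x ∈ Sh Ω γ (fun s => τ * ρ1 s) → x ∈ Sh Ω γ (fun s => τ * ρ2 s) → θ = 1) := by
    filter_upwards [self_mem_nhdsWithin, pot, stepA hC hM hP hG hD h hN hμ p1 p2 n2 he hS k w1 hε,
      stepA hC hM hP hG hD h hN hμ p2 p1 n1 he (sep_symm hS) k w2 hε]
      with τ (τp : 0 < τ) ⟨h11, h10, h01⟩ A1 A2 x hx
    replace A1 := A1 h01
    replace A2 := A2 h10
    have ha (s : ℝ) : 0 ≤ τ * ρ1 s := mul_nonneg τp.le (n1 s)
    have hb (s : ℝ) : 0 ≤ τ * ρ2 s := mul_nonneg τp.le (n2 s)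
    have si := sh_inter (Ω := Ω) (γ := γ) (hab τ) ha hb x
    have fin {θ X : ℝ} (hX : |X - θ * τ ^ 2 * V2 μ γ Ω W x x| ≤ ε * τ ^ 2) :
        |X / τ ^ 2 - θ * V2 μ γ Ω W x x| ≤ ε := by
      have t2 : 0 < τ ^ 2 := by positivity
      rwa [show X / τ ^ 2 - θ * V2 μ γ Ω W x x = (X - θ * τ ^ 2 * V2 μ γ Ω W x x) / τ ^ 2 by
        field_simp, abs_div, abs_of_pos t2, div_le_iff₀ t2]
    by_cases x1 : x ∈ Sh Ω γ fun s => τ * ρ1 s
    · by_cases x2 : x ∈ Sh Ω γ fun s => τ * ρ2 s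
      · have x3 := si.2 ⟨x1, x2⟩
        refine ⟨1, one_pos, le_rfl, ?_, fun _ _ => rfl⟩
        simp only [hF, dg, indicator_of_mem x1, indicator_of_mem x2, indicator_of_mem x3]
        have cp := (hP μ γ Ω h).1 _ (in_cp hP h k (subset_closure hx))
        refine fin (stepB hM hG (hab τ) ha hb h h11 h10 h01
          (v := fun z => 1 * τ ^ 2 * V2 μ γ Ω W z x) (continuousOn_const.mul cp.1)
          (har_mul h.cd.opn cp.2.1 _) x3 (by positivity) (fun s hs => ?_) (fun s hs => ?_)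
          fun s b1 b2 => ?_)
        · obtain ⟨b1, b2⟩ := A1 s 1 one_pos le_rfl ((mul_pos_iff_of_pos_left τp).1 hs)
            (cs γ (fun s => τ * ρ1 s) s) (by simp only [cs, one_mul])
          exact ⟨b1, by rw [V2_symm hP h k Ws b1.1 hx]; exact b2 x x2⟩
        · obtain ⟨b1, b2⟩ := A2 s 1 one_pos le_rfl ((mul_pos_iff_of_pos_left τp).1 hs)
            (cs γ (fun s => τ * ρ2 s) s) (by simp only [cs, one_mul])
          exact ⟨b1, by rw [V2_symm hP h k Ws b1.1 hx]; exact b2 x x1⟩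
        · have b3 := (mul_eq_zero.1 b1).resolve_left τp.ne'
          have b4 := (mul_eq_zero.1 b2).resolve_left τp.ne'
          simp only [V2_left hP h k (subset_closure hx),
            (((hP μ γ Ω h).1 _ (k.cp s)).2.2.2.1 x hx).2]
          simp [hW, wq, b3, b4]
      · obtain ⟨s, θ, θ0, θ1, s0, b⟩ := of_not_mem h.cd τp hx x2
        refine ⟨θ, θ0, θ1, ?_, fun _ b => (x2 b).elim⟩
        simp only [hF, dg, indicator_of_mem x1, indicator_of_notMem x2,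
          indicator_of_notMem fun b => x2 (si.1 b).2, add_zero, sub_zero]
        exact fin ((A2 s θ θ0 θ1 s0 x b).2 x x1)
    · obtain ⟨s, θ, θ0, θ1, s0, b⟩ := of_not_mem h.cd τp hx x1
      obtain ⟨x2, b2⟩ := A1 s θ θ0 θ1 s0 x b
      refine ⟨θ, θ0, θ1, ?_, fun b => (x1 b).elim⟩
      simp only [hF, dg, indicator_of_mem x2, indicator_of_notMem x1,
        indicator_of_notMem fun b => x1 (si.1 b).1, zero_add, sub_zero]
      exact fin (b2 x x2)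
  have i0 := (hG μ γ Ω h).2.1
  have int : ∀ᶠ τ in 𝓝[>] (0 : ℝ), IntegrableOn (F τ) Ω ∧ ∫ x in Ω, F τ x =
      (tb μ γ Ω (fun s => τ * ρ1 s + τ * ρ2 s) - tb μ γ Ω (fun s => τ * ρ1 s) -
        tb μ γ Ω (fun s => τ * ρ2 s) + TB μ γ Ω) / τ ^ 2 := by
    filter_upwards [pot] with τ ⟨h11, h10, h01⟩
    obtain ⟨i11, e11⟩ := dg_int hG h11
    obtain ⟨i10, e10⟩ := dg_int hG h10
    obtain ⟨i01, e01⟩ := dg_int hG h01
    refine ⟨hF ▸ (((i10.add i01).sub i11).sub i0).div_const _, ?_⟩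
    simp only [hF]
    have e1 := integral_sub ((i10.add i01).sub i11) i0
    have e2 := integral_sub (i10.add i01) i11
    simp only [Pi.add_apply, Pi.sub_apply] at e1 e2
    rw [integral_div, e1, e2, integral_add i10 i01, e11, e10, e01, TB]
    ring
  have : IsFiniteMeasure (volume.restrict Ω) := isFiniteMeasure_restrict.2 h.cd.bdd.measure_lt_top.ne
  rw [← lim]
  refine (tendsto_integral_filter_of_dominated_convergence (F := F) (fun _ => B + 1)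
    (int.mono fun τ hτ => hτ.1.aestronglyMeasurable) ?_ (integrable_const _)
    ((ae_restrict_iff' mΩ).2 (.of_forall fun x hx => ?_))).congr' (int.mono fun τ hτ => hτ.2)
  · filter_upwards [main 1 one_pos] with τ hτ
    refine (ae_restrict_iff' mΩ).2 (.of_forall fun x hx => ?_)
    obtain ⟨θ, θ0, θ1, b, -⟩ := hτ x hx
    have b1 : |V2 μ γ Ω W x x| ≤ B := hB (x, x) ⟨subset_closure hx, subset_closure hx⟩
    have b2 : |θ * V2 μ γ Ω W x x| ≤ B := by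
      rw [abs_mul, abs_of_pos θ0]
      exact (mul_le_of_le_one_left (abs_nonneg _) θ1).trans b1
    rw [Real.norm_eq_abs]
    linarith [abs_sub_abs_le_abs_sub (F τ x) (θ * V2 μ γ Ω W x x)]
  · refine Metric.tendsto_nhds.2 fun ε hε => ?_
    filter_upwards [main (ε / 2) (half_pos hε), ev_mem h.cd hN p1 hx, ev_mem h.cd hN p2 hx]
      with τ hτ x1 x2
    obtain ⟨θ, -, -, b, b1⟩ := hτ x hx
    rw [b1 x1 x2, one_mul] at b
    rw [Real.dist_eq]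
    linarith

end Pool.Agent.Lib.IS2
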