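import Pool.Agent.Lib.IS2.Blue

/-! Block C5: the mixed second variation of the regularised trace. -/

open scoped ContDiff ComplexConjugate Topology Real
open Complex MeasureTheory Set Filter

noncomputable section

namespace Pool.Agent.Lib.IS2

open Pool.Agent.Lib.ISO

namespace C5

abbrev nu : Measure (ℝ × ℝ) :=
  (volume.restrict (Ioc 0 (2 * π))).prod (volume.restrict (Ioc 0 (2 * π)))

lemma ii {E : Type} [NormedAddCommGroup E] [NormedSpace ℝ E] (f : ℝ → ℝ → E)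
    (h : Integrable (Function.uncurry f) nu) :
    ∫ s in (0 : ℝ)..(2 * π), ∫ t in (0 : ℝ)..(2 * π), f s t = ∫ p, f p.1 p.2 ∂nu := by
  simp only [intervalIntegral.integral_of_le Real.two_pi_pos.le]
  exact integral_integral h

/-- bounded measurable weights that vanish near the diagonal -/
structure Wc (e : ℝ) (w : ℝ → ℝ → ℝ) : Prop where
  ms : Measurable fun p : ℝ × ℝ => w p.1 p.2
  bd : ∃ B, ∀ s t, |w s t| ≤ B
  sp : ∀ s t, w s t ≠ 0 → e ≤ dc s t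

lemma per_bd {ρ : ℝ → ℝ} (h : Per (2 * π) ρ) : ∃ B, 0 < B ∧ ∀ s, |ρ s| ≤ B := by
  obtain ⟨B, hB⟩ := (Function.Periodic.isBounded_of_continuous (f := ρ) h.per Real.two_pi_pos.ne'
    h.smooth.continuous).exists_norm_le
  exact ⟨max B 1, lt_max_of_lt_right one_pos, fun s => (hB _ ⟨s, rfl⟩).trans (le_max_left _ _)⟩

lemma per_der {ρ : ℝ → ℝ} (h : Per (2 * π) ρ) : Per (2 * π) (deriv ρ) :=
  ⟨(contDiff_infty_iff_deriv.1 h.smooth).2, per_deriv' (f := ρ) h.per⟩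

lemma wc_mul {e : ℝ} {u v : ℝ → ℝ} (hu : Per (2 * π) u) (hv : Per (2 * π) v) (h : Sep e u v) :
    Wc e fun s t => u s * v t := by
  obtain ⟨A, A0, hA⟩ := per_bd hu
  obtain ⟨B, -, hB⟩ := per_bd hv
  refine ⟨((hu.smooth.continuous.comp continuous_fst).mul
    (hv.smooth.continuous.comp continuous_snd)).measurable, ⟨A * B, fun s t => ?_⟩,
    fun s t hw => h s t (left_ne_zero_of_mul hw) (right_ne_zero_of_mul hw)⟩
  rw [abs_mul]
  exact mul_le_mul (hA s) (hB t) (abs_nonneg _) A0.le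

lemma ne_of_dc {j e : ℝ} {γ : ℝ → ℂ} (hN : Nc j γ) (he : 0 < e) {s t : ℝ} (h : e ≤ dc s t) :
    γ s ≠ γ t := fun e' => by
  have := hN.arc s t
  rw [e', sub_self, norm_zero, mul_zero] at this
  linarith

/-- what is used of the kernel `N` on the open set `U` -/
structure Kn (γ : ℝ → ℂ) (U : Set ℂ) : Prop where
  opn : IsOpen U
  ms : Measurable fun p : ℂ × ℝ × ℝ => NN p.1 γ p.2.1 p.2.2
  df : ∀ s t, γ s ≠ γ t → DifferentiableOn ℂ (fun μ => NN μ γ s t) U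
  bd : ∀ e > 0, ∃ C, ∀ μ ∈ U, ∀ s t, e ≤ dc s t → ‖NN μ γ s t‖ ≤ C

section
variable {γ : ℝ → ℂ} {U : Set ℂ} {e : ℝ} {w : ℝ → ℝ → ℝ}

lemma ms_sec {N : ℂ → ℝ → ℝ → ℂ} (h : Measurable fun p : ℂ × ℝ × ℝ => N p.1 p.2.1 p.2.2) (μ : ℂ) :
    Measurable fun p : ℝ × ℝ => N μ p.1 p.2 :=
  h.comp (measurable_const.prodMk measurable_id)

lemma Kn.ms1 (k : Kn γ U) (μ : ℂ) : Measurable fun p : ℝ × ℝ => NN μ γ p.1 p.2 :=
  ms_sec (N := fun μ => NN μ γ) k.ms μ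

lemma psn_ms (k : Kn γ U) (hw : Wc e w) (μ : ℂ) :
    Measurable fun p : ℝ × ℝ => (w p.1 p.2 : ℂ) * NN μ γ p.1 p.2 ^ 2 :=
  (measurable_ofReal.comp hw.ms).mul ((k.ms1 μ).pow_const 2)

lemma psn_bd (k : Kn γ U) (he : 0 < e) (hw : Wc e w) :
    ∃ B, ∀ μ ∈ U, ∀ s t, ‖(w s t : ℂ) * NN μ γ s t ^ 2‖ ≤ B := by
  obtain ⟨B, hB⟩ := hw.bd
  obtain ⟨C, hC⟩ := k.bd e he
  have B0 : 0 ≤ B := (abs_nonneg _).trans (hB 0 0)
  refine ⟨B * C ^ 2, fun μ hμ s t => ?_⟩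
  by_cases h : w s t = 0
  · rw [h, ofReal_zero, zero_mul, norm_zero]
    positivity
  · rw [norm_mul, norm_pow, norm_real, Real.norm_eq_abs]
    exact mul_le_mul (hB s t) (pow_le_pow_left₀ (norm_nonneg _) (hC μ hμ s t (hw.sp s t h)) 2)
      (by positivity) B0

lemma psn_int (k : Kn γ U) (he : 0 < e) (hw : Wc e w) {μ : ℂ} (hμ : μ ∈ U) :
    Integrable (fun p : ℝ × ℝ => (w p.1 p.2 : ℂ) * NN μ γ p.1 p.2 ^ 2) nu := by
  obtain ⟨B, hB⟩ := psn_bd k he hw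
  exact Integrable.of_bound (psn_ms k hw μ).aestronglyMeasurable B
    (ae_of_all _ fun p => hB μ hμ p.1 p.2)

lemma psn_eq (k : Kn γ U) (he : 0 < e) (hw : Wc e w) {μ : ℂ} (hμ : μ ∈ U) :
    PsN γ w μ = ∫ p, (w p.1 p.2 : ℂ) * NN μ γ p.1 p.2 ^ 2 ∂nu :=
  ii (fun s t => (w s t : ℂ) * NN μ γ s t ^ 2) (psn_int k he hw hμ)

lemma psn_df (hHI : St_HI) {j : ℝ} (hN : Nc j γ) (k : Kn γ U) (he : 0 < e) (hw : Wc e w) :
    DifferentiableOn ℂ (PsN γ w) U := by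
  obtain ⟨B, hB⟩ := psn_bd k he hw
  have := hHI (ℝ × ℝ) nu (fun μ p => (w p.1 p.2 : ℂ) * NN μ γ p.1 p.2 ^ 2) U (fun _ => B) k.opn
    (integrable_const B) (fun μ _ => (psn_ms k hw μ).aestronglyMeasurable)
    (ae_of_all _ fun p => ⟨by
      by_cases h : w p.1 p.2 = 0
      · simp only [h, ofReal_zero, zero_mul]
        exact differentiableOn_const 0
      · exact ((k.df _ _ (ne_of_dc hN he (hw.sp _ _ h))).pow 2).const_mul _,
      fun μ hμ => hB μ hμ p.1 p.2⟩)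
  exact DifferentiableOn.congr (fun μ hμ => (this μ hμ).differentiableAt.differentiableWithinAt)
    fun μ hμ => psn_eq k he hw hμ

lemma psn_sub (hHI : St_HI) {j : ℝ} (hN : Nc j γ) (k : Kn γ U) (he : 0 < e) {w1 w2 : ℝ → ℝ → ℝ}
    (hw : Wc e w) (h1 : Wc e w1) (h2 : Wc e w2) (hs : ∀ s t, w s t = w1 s t - w2 s t) {μ : ℂ}
    (hμ : μ ∈ U) : deriv (PsN γ w) μ = deriv (PsN γ w1) μ - deriv (PsN γ w2) μ := by
  have hU := k.opn.mem_nhds hμ
  rw [← deriv_fun_sub ((psn_df hHI hN k he h1).differentiableAt hU)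
    ((psn_df hHI hN k he h2).differentiableAt hU)]
  refine EventuallyEq.deriv_eq (mem_of_superset hU fun z hz => ?_)
  show PsN γ w z = PsN γ w1 z - PsN γ w2 z
  rw [psn_eq k he hw hz, psn_eq k he h1 hz, psn_eq k he h2 hz,
    ← integral_sub (psn_int k he h1 hz) (psn_int k he h2 hz)]
  refine integral_congr_ae (ae_of_all _ fun p => ?_)
  simp only [hs, ofReal_sub, sub_mul]

end

/-- a local minimum identifies the derivative -/
lemma der_of_min {P : ℂ → ℂ} {m g : ℝ} {p : ℝ → ℝ} (hP : DifferentiableAt ℂ P m)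
    (h : ∀ᶠ x : ℝ in 𝓝 m, P x = p x ∧ p m + m ^ 2 * g ≤ p x + x ^ 2 * g) :
    deriv P m = -(2 * m * g : ℝ) := by
  have h1 : HasDerivAt (fun x : ℝ => (p x : ℂ)) (deriv P m) m :=
    hP.hasDerivAt.comp_ofReal.congr_of_eventuallyEq (h.mono fun x hx => hx.1.symm)
  have h2 : HasDerivAt p (deriv P m).re m := by
    simpa only [Function.comp_def, reCLM_apply, ofReal_re] using
      reCLM.hasFDerivAt.comp_hasDerivAt m h1
  have h3 : HasDerivAt (fun _ : ℝ => (0 : ℝ)) (deriv P m).im m := by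
    simpa only [Function.comp_def, imCLM_apply, ofReal_im] using
      imCLM.hasFDerivAt.comp_hasDerivAt m h1
  have h4 : (deriv P m).im = 0 := h3.unique (hasDerivAt_const m 0)
  have h5 : HasDerivAt (fun x => p x + x ^ 2 * g) ((deriv P m).re + 2 * m * g) m := by
    simpa using h2.fun_add ((hasDerivAt_pow 2 m).mul_const g)
  have h6 := IsLocalMin.hasDerivAt_eq_zero (f := fun x => p x + x ^ 2 * g)
    (h.mono fun x hx => hx.2) h5
  refine Complex.ext ?_ ?_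
  · rw [neg_re, ofReal_re]
    linarith
  · rw [h4, neg_im, ofReal_im, neg_zero]

lemma nm0 {r : ℝ} (hr : 0 ≤ r) : nm 0 ≤ r :=
  le_trans (by simpa using sn_nm.smul 0 0 SP.zero_mem) hr

section
variable {f : (ℝ → C2) → ℂ} {x0 y z : ℝ → C2} {r M : ℝ}

lemma d2_symm (hGH : St_GH) (hr : 0 < r) (hL : LH SP nm f x0 r M) (hy : y ∈ SP) (hz : z ∈ SP) :
    D2 f x0 y z = D2 f x0 z y := by
  obtain ⟨C, hC⟩ := hGH
  simpa only [add_zero] using ((hC _ SP nm f x0 r M sn_nm hr hL).2.1 0 SP.zero_mem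
    (nm0 (by positivity)) y hy z hz).2.2.1

lemma d2_smul (hGH : St_GH) (hr : 0 < r) (hL : LH SP nm f x0 r M) (hy : y ∈ SP) (hz : z ∈ SP)
    (c : ℂ) : D2 f x0 (c • y) z = c * D2 f x0 y z := by
  obtain ⟨C, hC⟩ := hGH
  simpa only [add_zero] using ((hC _ SP nm f x0 r M sn_nm hr hL).2.1 0 SP.zero_mem
    (nm0 (by positivity)) y hy z hz).2.1 c

lemma d2_sub (hGH : St_GH) (hr : 0 < r) (hL : LH SP nm f x0 r M) (hy : y ∈ SP) (hz : z ∈ SP)
    {y' : ℝ → C2} (hy' : y' ∈ SP) : D2 f x0 (y - y') z = D2 f x0 y z - D2 f x0 y' z := by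
  obtain ⟨C, hC⟩ := hGH
  have := ((hC _ SP nm f x0 r M sn_nm hr hL).2.1 0 SP.zero_mem
    (nm0 (by positivity)) (y - y') (SP.sub_mem hy hy') z hz).1 y' hy'
  simp only [add_zero, sub_add_cancel] at this
  rw [this, add_sub_cancel_right]

lemma mx_lim (hGH : St_GH) (hr : 0 < r) (hL : LH SP nm f x0 r M) (hy : y ∈ SP) (hz : z ∈ SP) :
    Tendsto (fun τ : ℝ => mx f x0 ((τ : ℂ) • y) ((τ : ℂ) • z) / (τ : ℂ) ^ 2) (𝓝[>] 0)
      (𝓝 (D2 f x0 y z)) := by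
  have hs : ∀ τ : ℝ, D2 f x0 ((τ : ℂ) • y) ((τ : ℂ) • z) = (τ : ℂ) ^ 2 * D2 f x0 y z := fun τ => by
    rw [d2_smul hGH hr hL hy (SP.smul_mem _ hz), d2_symm hGH hr hL hy (SP.smul_mem _ hz),
      d2_smul hGH hr hL hz hy, d2_symm hGH hr hL hz hy]
    ring
  obtain ⟨C, hC⟩ := hGH
  have key := (hC _ SP nm f x0 r M sn_nm hr hL).2.1 0 SP.zero_mem (nm0 (by positivity))
  have y0 := sn_nm.nn y hy
  have z0 := sn_nm.nn z hz
  have hp : ∀ x ∈ SP, ∀ τ : ℝ, 0 < τ → nm ((τ : ℂ) • x) ≤ τ * nm x := fun x hx τ hτ => by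
    simpa only [norm_real, Real.norm_eq_abs, abs_of_pos hτ] using sn_nm.smul τ x hx
  have hsm : ∀ a : ℝ, ∀ᶠ τ : ℝ in 𝓝[>] 0, τ * a ≤ r / 8 := fun a =>
    (((continuous_id.mul continuous_const).tendsto' 0 0 (by simp)).mono_left
      nhdsWithin_le_nhds).eventually_le_const (by positivity)
  rw [tendsto_iff_norm_sub_tendsto_zero]
  refine squeeze_zero' (Eventually.of_forall fun _ => norm_nonneg _) (g := fun τ =>
    τ * (|C * M| * nm y * nm z * (nm y + nm z) / r ^ 3)) ?_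
    (((continuous_id.mul continuous_const).tendsto' 0 0 (by simp)).mono_left nhdsWithin_le_nhds)
  filter_upwards [self_mem_nhdsWithin, hsm (nm y), hsm (nm z)] with τ hτ h1 h2
  have hτ : 0 < τ := hτ
  have a1 := hp y hy τ hτ
  have a2 := hp z hz τ hτ
  have b1 := sn_nm.nn _ (SP.smul_mem (τ : ℂ) hy)
  have b2 := sn_nm.nn _ (SP.smul_mem (τ : ℂ) hz)
  have h3 := ((key _ (SP.smul_mem (τ : ℂ) hy) _ (SP.smul_mem (τ : ℂ) hz)).2.2.2.2.2 (a1.trans h1)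
    (a2.trans h2)).2
  simp only [add_zero, hs] at h3
  have t0 : (τ : ℂ) ≠ 0 := ofReal_ne_zero.2 hτ.ne'
  rw [div_sub' (pow_ne_zero 2 t0), norm_div, norm_pow, norm_real, Real.norm_eq_abs, abs_of_pos hτ,
    div_le_iff₀ (by positivity)]
  refine h3.trans ?_
  calc _ ≤ |C * M| * (τ * nm y) * (τ * nm z) * (τ * nm y + τ * nm z) / r ^ 3 := by
        gcongr
        exact le_abs_self _
    _ = _ := by ring

end

section
variable {j : ℝ} {γ : ℝ → ℂ} {Ω U : Set ℂ} {e : ℝ} {w : ℝ → ℝ → ℝ}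

lemma q_le (hPOI : St_POI) (hC3 : St_C3) (hN : Nc j γ) {a b : ℝ} (pa : Pot a γ Ω) (pb : Pot b γ Ω)
    (ha : 1 ≤ a) (hab : a ≤ b) {s t : ℝ} (hst : γ s ≠ γ t) :
    ∃ X, (NN a γ s t).re - (NN b γ s t).re = (b ^ 2 - a ^ 2) * X ∧ 0 ≤ QI b γ Ω s t ∧
      QI b γ Ω s t ≤ X ∧ X ≤ QI a γ Ω s t := by
  obtain ⟨mono, h⟩ := hC3 j a b γ Ω pa pb hN ha hab
  obtain ⟨iab, eab⟩ := h s t hst
  have iaa := ((hC3 j a a γ Ω pa pa hN ha le_rfl).2 s t hst).1
  have ibb := ((hC3 j b b γ Ω pb pb hN (ha.trans hab) le_rfl).2 s t hst).1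
  have na := fun x hx => ((hPOI a γ Ω pa).2.2.2.2.2.2.2.2 x hx).2.1
  have nb := fun x hx => ((hPOI b γ Ω pb).2.2.2.2.2.2.2.2 x hx).2.1
  have mo := pa.cd.opn.measurableSet
  exact ⟨_, eab, setIntegral_nonneg mo fun x hx => mul_nonneg (nb x hx s) (nb x hx t),
    setIntegral_mono_on ibb iab mo fun x hx => mul_le_mul_of_nonneg_right (mono x hx s) (nb x hx t),
    setIntegral_mono_on iab iaa mo fun x hx => mul_le_mul_of_nonneg_left (mono x hx t) (na x hx s)⟩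

lemma pt_le (hPOI : St_POI) (hDBL : St_DBL) (hC3 : St_C3) (hN : Nc j γ) {m x : ℝ} (pm : Pot m γ Ω)
    (px : Pot x γ Ω) (hm : 1 ≤ m) (hx : 1 ≤ x) {s t : ℝ} (hst : γ s ≠ γ t) :
    (NN m γ s t).re ^ 2 - (NN x γ s t).re ^ 2 ≤
      (x ^ 2 - m ^ 2) * 2 * ((NN m γ s t).re * QI m γ Ω s t) := by
  have n1 := ((hDBL j m γ Ω pm hN hm).2.2.2.1 s t hst).2.2
  have n2 := ((hDBL j x γ Ω px hN hx).2.2.2.1 s t hst).2.2
  rcases le_total m x with h | h
  · obtain ⟨X, e1, q0, q1, q2⟩ := q_le hPOI hC3 hN pm px hm h hst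
    have d : 0 ≤ x ^ 2 - m ^ 2 := by nlinarith
    generalize (NN m γ s t).re = A at *
    generalize (NN x γ s t).re = B at *
    generalize x ^ 2 - m ^ 2 = D at *
    have dX := mul_nonneg d (q0.trans q1)
    have : A * (D * X) ≤ A * (D * QI m γ Ω s t) :=
      mul_le_mul_of_nonneg_left (mul_le_mul_of_nonneg_left q2 d) n1
    nlinarith [mul_nonneg dX dX]
  · obtain ⟨X, e1, q0, q1, q2⟩ := q_le hPOI hC3 hN px pm hx h hst
    have d : 0 ≤ m ^ 2 - x ^ 2 := by nlinarith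
    rw [← neg_sub (m ^ 2)]
    generalize (NN m γ s t).re = A at *
    generalize (NN x γ s t).re = B at *
    generalize m ^ 2 - x ^ 2 = D at *
    have : A * (D * QI m γ Ω s t) ≤ A * (D * X) :=
      mul_le_mul_of_nonneg_left (mul_le_mul_of_nonneg_left q1 d) n1
    nlinarith [mul_self_nonneg (D * X)]

lemma ms_qi {F : ℂ → ℝ → ℝ} (h : Measurable (Function.uncurry F)) (Ω : Set ℂ) :
    Measurable fun p : ℝ × ℝ => ∫ x in Ω, F x p.1 * F x p.2 :=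
  (StronglyMeasurable.integral_prod_right' (ν := volume.restrict Ω)
    (f := fun z : (ℝ × ℝ) × ℂ => F z.2 z.1.1 * F z.2 z.1.2)
    ((h.comp (measurable_snd.prodMk measurable_fst.fst)).mul
      (h.comp (measurable_snd.prodMk measurable_fst.snd))).stronglyMeasurable).measurable

lemma der_real (hHI : St_HI) (hPOI : St_POI) (hDBL : St_DBL) (hC3 : St_C3) (hN : Nc j γ)
    (k : Kn γ U) (hp : ∀ x : ℝ, (x : ℂ) ∈ U → Pot x γ Ω ∧ 1 ≤ x) (he : 0 < e) (hw : Wc e w)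
    (w0 : ∀ s t, 0 ≤ w s t) {m : ℝ} (hm : (m : ℂ) ∈ U) :
    deriv (PsN γ w) m = -(2 * m * (2 * ∫ s in (0 : ℝ)..(2 * π), ∫ t in (0 : ℝ)..(2 * π),
      w s t * ((NN m γ s t).re * QI m γ Ω s t)) : ℝ) := by
  have hU : ∀ᶠ x : ℝ in 𝓝 m, (x : ℂ) ∈ U :=
    continuous_ofReal.continuousAt.eventually (k.opn.mem_nhds hm)
  obtain ⟨a, haU, ham⟩ : ∃ a : ℝ, (a : ℂ) ∈ U ∧ a ∈ Iio m :=
    ((hU.filter_mono nhdsWithin_le_nhds).and (self_mem_nhdsWithin (s := Iio m))).exists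
  have ham : a < m := ham
  have hne : ∀ s t, w s t ≠ 0 → γ s ≠ γ t := fun s t h => ne_of_dc hN he (hw.sp s t h)
  have hre : ∀ x : ℝ, (x : ℂ) ∈ U → ∀ s t,
      (w s t : ℂ) * NN x γ s t ^ 2 = ((w s t * (NN x γ s t).re ^ 2 : ℝ) : ℂ) := fun x hx s t => by
    by_cases h : w s t = 0
    · simp only [h, ofReal_zero, zero_mul]
    · have := ((hDBL j x γ Ω (hp x hx).1 hN (hp x hx).2).2.2.2.1 s t (hne s t h)).2.1
      generalize NN x γ s t = z at *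
      rw [← conj_eq_iff_im, conj_eq_iff_re] at this
      rw [ofReal_mul, ofReal_pow, this]
  have ip : ∀ x : ℝ, (x : ℂ) ∈ U →
      Integrable (fun p : ℝ × ℝ => w p.1 p.2 * (NN x γ p.1 p.2).re ^ 2) nu := fun x hx => by
    simpa only [hre x hx, RCLike.re_to_complex, ofReal_re] using (psn_int k he hw hx).re
  have ig : Integrable (fun p : ℝ × ℝ =>
      w p.1 p.2 * ((NN m γ p.1 p.2).re * QI m γ Ω p.1 p.2)) nu := by
    obtain ⟨B, hB⟩ := hw.bd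
    obtain ⟨C, hC⟩ := k.bd e he
    have B0 : 0 ≤ B := (abs_nonneg _).trans (hB 0 0)
    have a1 := (hp a haU).2
    have d : 0 < m ^ 2 - a ^ 2 := by nlinarith
    refine Integrable.of_bound (hw.ms.mul ((measurable_re.comp (k.ms1 m)).mul
      (ms_qi (hPOI m γ Ω (hp m hm).1).2.2.2.1 Ω))).aestronglyMeasurable
      (B * (|C| * (|C| / (m ^ 2 - a ^ 2)))) (ae_of_all _ fun p => ?_)
    by_cases h : w p.1 p.2 = 0
    · rw [h, zero_mul, norm_zero]
      positivity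
    · have n1 := ((hDBL j m γ Ω (hp m hm).1 hN (hp m hm).2).2.2.2.1 _ _ (hne _ _ h)).2.2
      obtain ⟨X, e1, q0, q1, -⟩ := q_le hPOI hC3 hN (hp a haU).1 (hp m hm).1 a1 ham.le (hne _ _ h)
      have c1 := ((re_le_norm _).trans (hC m hm _ _ (hw.sp _ _ h))).trans (le_abs_self C)
      have c2 := ((re_le_norm _).trans (hC a haU _ _ (hw.sp _ _ h))).trans (le_abs_self C)
      have c3 : QI m γ Ω p.1 p.2 ≤ |C| / (m ^ 2 - a ^ 2) :=
        q1.trans ((le_div_iff₀' d).2 (by linarith))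
      rw [norm_mul, Real.norm_eq_abs, Real.norm_of_nonneg (mul_nonneg n1 q0)]
      exact mul_le_mul (hB _ _) (mul_le_mul c1 c3 q0 (abs_nonneg _)) (mul_nonneg n1 q0) B0
  rw [ii (fun s t => w s t * ((NN m γ s t).re * QI m γ Ω s t)) ig]
  refine der_of_min (p := fun x : ℝ => ∫ p, w p.1 p.2 * (NN x γ p.1 p.2).re ^ 2 ∂nu)
    ((psn_df hHI hN k he hw).differentiableAt (k.opn.mem_nhds hm)) (hU.mono fun x hx => ⟨?_, ?_⟩)
  · rw [psn_eq k he hw hx, ← integral_complex_ofReal]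
    exact integral_congr_ae (ae_of_all _ fun p => hre x hx p.1 p.2)
  · have := integral_mono ((ip m hm).sub (ip x hx)) (ig.const_mul ((x ^ 2 - m ^ 2) * 2)) fun p => by
      by_cases h : w p.1 p.2 = 0
      · simp only [Pi.sub_apply, h, zero_mul, mul_zero, sub_self, le_refl]
      · have := mul_le_mul_of_nonneg_left (pt_le hPOI hDBL hC3 hN (hp m hm).1 (hp x hx).1
          (hp m hm).2 (hp x hx).2 (hne _ _ h)) (w0 p.1 p.2)
        simp only [Pi.sub_apply]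
        linarith
    rw [integral_sub' (ip m hm) (ip x hx), integral_const_mul] at this
    linarith

lemma nl_mem (hN : Nc j γ) {ρ : ℝ → ℝ} (h : Per (2 * π) ρ) : nl γ ρ ∈ SP :=
  cp_mem ((ofRealCLM.contDiff.comp h.smooth).mul (contDiff_const.mul hN.s1)) fun s => by
    simp only [nr, h.per s, per_deriv' hN.per s]

lemma nl_sub (γ : ℝ → ℂ) {ρ u v : ℝ → ℝ} (h : ∀ s, ρ s = u s - v s) :
    nl γ ρ = nl γ u - nl γ v := by
  ext s <;> simp [nl, cp, h, sub_mul]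

lemma cp_cs (γ : ℝ → ℂ) (u v : ℝ → ℝ) (a b : ℝ) :
    cp (cs γ fun s => a * u s + b * v s) = cp γ + ((a : ℂ) • nl γ u + (b : ℂ) • nl γ v) := by
  ext s <;> simp [nl, cp, cs, add_mul, mul_assoc]

lemma d2_real (hGH : St_GH) (hTR : St_TR) (hC4 : St_C4) {η m r M : ℝ} (hD : Dg Ω γ η) (hN : Nc j γ)
    (hr : 0 < r) (m1 : 1 ≤ m) (hL : LH SP nm (TT m) (cp γ) r M)
    (hp : ∀ γ' Ω', CD Ω' γ' → nm (cp γ' - cp γ) ≤ r → Pot m γ' Ω') {u v : ℝ → ℝ}
    (hu : Per (2 * π) u) (hv : Per (2 * π) v) (u0 : ∀ s, 0 ≤ u s) (v0 : ∀ s, 0 ≤ v s) (he : 0 < e)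
    (hs : Sep e u v) : D2 (TT m) (cp γ) (nl γ u) (nl γ v) =
      (2 * ∫ s in (0 : ℝ)..(2 * π), ∫ t in (0 : ℝ)..(2 * π),
        u s * v t * ((NN m γ s t).re * QI m γ Ω s t) : ℝ) := by
  obtain ⟨B1, B10, h1⟩ := per_bd hu
  obtain ⟨B2, B20, h2⟩ := per_bd hv
  obtain ⟨B3, B30, h3⟩ := per_bd (per_der hu)
  obtain ⟨B4, B40, h4⟩ := per_bd (per_der hv)
  have yu := nl_mem hN hu
  have yv := nl_mem hN hv
  have y0 := sn_nm.nn _ yu
  have z0 := sn_nm.nn _ yv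
  obtain ⟨τ0, t0, t1, t2⟩ : ∃ τ0 > 0, τ0 * (B1 + B2 + B3 + B4) ≤ η ∧
      τ0 * (nm (nl γ u) + nm (nl γ v)) ≤ r := by
    have hsm : ∀ a c : ℝ, 0 < c → ∀ᶠ τ : ℝ in 𝓝[>] 0, τ * a ≤ c := fun a c hc =>
      (((continuous_id.mul continuous_const).tendsto' 0 0 (by simp)).mono_left
        nhdsWithin_le_nhds).eventually_le_const hc
    exact (eventually_mem_nhdsWithin.and ((hsm _ _ hD.pos).and (hsm _ _ hr))).exists
  have P0 : Pot m γ Ω := hp γ Ω hD.cd0 (by rw [sub_self]; exact nm0 hr.le)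
  have hP : ∀ a b : ℝ, 0 ≤ a → a ≤ τ0 → 0 ≤ b → b ≤ τ0 →
      Pot m (cs γ fun s => a * u s + b * v s) (Sh Ω γ fun s => a * u s + b * v s) := by
    intro a b a0 a1 b0 b1
    refine hp _ _ (hD.cd _ ⟨⟨(contDiff_const.mul hu.smooth).add (contDiff_const.mul hv.smooth),
      fun s => by simp only [hu.per s, hv.per s]⟩, fun s => ⟨add_nonneg (mul_nonneg a0 (u0 s))
        (mul_nonneg b0 (v0 s)), ?_, ?_⟩⟩) ?_
    · have := mul_le_mul a1 ((le_abs_self _).trans (h1 s)) (u0 s) t0.le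
      have := mul_le_mul b1 ((le_abs_self _).trans (h2 s)) (v0 s) t0.le
      nlinarith [mul_pos t0 B30, mul_pos t0 B40]
    · rw [(((hu.smooth.differentiable (by simp) s).hasDerivAt.const_mul a).fun_add
        ((hv.smooth.differentiable (by simp) s).hasDerivAt.const_mul b)).deriv]
      refine (abs_add_le _ _).trans ?_
      rw [abs_mul, abs_mul, abs_of_nonneg a0, abs_of_nonneg b0]
      have := mul_le_mul a1 (h3 s) (abs_nonneg _) t0.le
      have := mul_le_mul b1 (h4 s) (abs_nonneg _) t0.le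
      nlinarith [mul_pos t0 B10, mul_pos t0 B20]
    · rw [cp_cs, add_sub_cancel_left]
      refine (sn_nm.add _ (SP.smul_mem _ yu) _ (SP.smul_mem _ yv)).trans ?_
      have c1 := sn_nm.smul a _ yu
      have c2 := sn_nm.smul b _ yv
      rw [norm_real, Real.norm_of_nonneg a0] at c1
      rw [norm_real, Real.norm_of_nonneg b0] at c2
      have := mul_le_mul_of_nonneg_right a1 y0
      have := mul_le_mul_of_nonneg_right b1 z0
      linarith
  refine tendsto_nhds_unique (mx_lim hGH hr hL yu yv) (((continuous_ofReal.tendsto _).comp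
    (hC4 j m γ Ω η u v e τ0 hD hN m1 P0 hu hv u0 v0 he hs t0 hP)).congr' ?_)
  filter_upwards [Ioo_mem_nhdsGT t0] with τ hτ
  have c1 := hTR m _ _ (hP τ τ hτ.1.le hτ.2.le hτ.1.le hτ.2.le)
  have c2 := hTR m _ _ (hP τ 0 hτ.1.le hτ.2.le le_rfl t0.le)
  have c3 := hTR m _ _ (hP 0 τ le_rfl t0.le hτ.1.le hτ.2.le)
  rw [cp_cs, ← add_assoc] at c1
  rw [cp_cs, ofReal_zero, zero_smul, add_zero] at c2
  rw [cp_cs, ofReal_zero, zero_smul, zero_add] at c3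
  simp only [Function.comp_apply, mx, c1, c2, c3, hTR m γ Ω P0, tb, ofReal_div, ofReal_add,
    ofReal_sub, ofReal_pow]

end

lemma dd_open (q : ℕ) (h : ℝ) : IsOpen (DD q h) :=
  (isOpen_lt continuous_const continuous_re).inter (isOpen_lt continuous_norm continuous_const)

lemma dd_conv (q : ℕ) (h : ℝ) : Convex ℝ (DD q h) := by
  have := (convex_halfSpace_re_gt (2 * Tt q h)⁻¹).inter (convex_ball (0 : ℂ) (om q h))
  rwa [show {c : ℂ | (2 * Tt q h)⁻¹ < c.re} ∩ Metric.ball 0 (om q h) = DD q h from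
    Set.ext fun z => by simp [DD]] at this

lemma dd_re {q : ℕ} {h : ℝ} {μ : ℂ} (hμ : μ ∈ DD q h) : (μ.re : ℂ) ∈ DD q h :=
  ⟨hμ.1, by rw [norm_real, Real.norm_eq_abs]; exact (abs_re_le_norm μ).trans_lt hμ.2⟩

lemma dd_one {q : ℕ} {h x : ℝ} (h2 : 2 ≤ h) (hx : (x : ℂ) ∈ DD q h) : 1 ≤ x := by
  have h1 : (2 * Tt q h)⁻¹ < x := hx.1
  have h3 : h ≤ h ^ (q + 2) := le_self_pow₀ (by linarith) (by omega)
  rw [Tt, mul_inv, inv_inv] at h1
  linarith

lemma ident {q : ℕ} {h : ℝ} {f g : ℂ → ℂ} (hf : DifferentiableOn ℂ f (DD q h))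
    (hg : DifferentiableOn ℂ g (DD q h)) (e : ∀ x : ℝ, (x : ℂ) ∈ DD q h → f x = g x) :
    EqOn f g (DD q h) := fun μ hμ => by
  have o := dd_open q h
  refine (hf.analyticOnNhd o).eqOn_of_preconnected_of_frequently_eq (hg.analyticOnNhd o)
    (dd_conv q h).isPreconnected (dd_re hμ) ?_ hμ
  have t : Tendsto (fun x : ℝ => (x : ℂ)) (𝓝[≠] μ.re) (𝓝[≠] (μ.re : ℂ)) :=
    continuous_ofReal.continuousWithinAt.tendsto_nhdsWithin fun x hx e' => hx (ofReal_injective e')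
  exact t.frequently ((((continuous_ofReal.continuousAt.eventually
    (o.mem_nhds (dd_re hμ))).filter_mono nhdsWithin_le_nhds).mono e).frequently)

/-- a smooth function is a difference of two non-negative ones with slightly larger supports -/
lemma split (hCUT : St_CUT) {e : ℝ} (he : 0 < e) {ρ : ℝ → ℝ} (h : Per (2 * π) ρ) :
    ∃ u v : ℝ → ℝ, Per (2 * π) u ∧ Per (2 * π) v ∧ (∀ s, 0 ≤ u s) ∧ (∀ s, 0 ≤ v s) ∧
      (∀ s, ρ s = u s - v s) ∧ ∀ s, u s ≠ 0 ∨ v s ≠ 0 → ∃ s', ρ s' ≠ 0 ∧ dc s s' ≤ e := by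
  classical
  obtain ⟨C, -, -, hC⟩ := hCUT
  obtain ⟨K, α, φ, hφ⟩ := hC (min (e / 2) 1) (lt_min (by positivity) one_pos) (min_le_right _ _)
  obtain ⟨B, B0, hB⟩ := per_bd h
  let A : Finset (Fin K) := Finset.univ.filter fun k => ∃ s, φ k s ≠ 0 ∧ ρ s ≠ 0
  have c0 : ∀ s, 0 ≤ ∑ k ∈ A, φ k s := fun s => Finset.sum_nonneg fun k _ => hφ.nn k s
  have c1 : ∀ s, ρ s ≠ 0 → ∑ k ∈ A, φ k s = 1 := fun s hs => by
    rw [← hφ.sum s]
    refine Finset.sum_subset (Finset.subset_univ _) fun k _ hk => ?_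
    by_contra h0
    exact hk (Finset.mem_filter.2 ⟨Finset.mem_univ _, s, h0, hs⟩)
  have c2 : ∀ k s, φ k s ≠ 0 → dc s (α k) ≤ e / 2 := fun k s hs =>
    (lt_of_not_ge fun h0 => hs (hφ.supp k s h0)).le.trans (min_le_left _ _)
  have pv : Per (2 * π) fun s => B * ∑ k ∈ A, φ k s :=
    ⟨contDiff_const.mul (ContDiff.sum fun k _ => (hφ.per k).smooth), fun s => by
      simp only [fun k => (hφ.per k).per s]⟩
  refine ⟨fun s => ρ s + B * ∑ k ∈ A, φ k s, fun s => B * ∑ k ∈ A, φ k s,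
    ⟨h.smooth.add pv.smooth, fun s => by rw [h.per s, pv.per s]⟩, pv, fun s => ?_,
    fun s => mul_nonneg B0.le (c0 s), fun s => by ring, fun s hs => ?_⟩
  · by_cases h0 : ρ s = 0
    · simp only [h0, zero_add]
      exact mul_nonneg B0.le (c0 s)
    · simp only [c1 s h0]
      linarith [neg_abs_le (ρ s), hB s]
  · by_cases h0 : ρ s = 0
    · simp only [h0, zero_add, or_self] at hs
      obtain ⟨k, hk, hk0⟩ := Finset.exists_ne_zero_of_sum_ne_zero (right_ne_zero_of_mul hs)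
      obtain ⟨s', h1, h2⟩ := (Finset.mem_filter.1 hk).2
      refine ⟨s', h2, (dc_triangle s (α k) s').trans ?_⟩
      linarith [c2 k s hk0, c2 k s' h1, dc_comm (α k) s']
    · exact ⟨s, h0, by rw [dc_self]; exact he.le⟩

end C5

open C5 in
theorem st_c5 (hGH : St_GH) (hHI : St_HI) (hCUT : St_CUT) (hLHT : St_LHT) (hLNK : St_LNK)
    (hNH : St_NH) (hPOI : St_POI) (hTR : St_TR) (hDBL : St_DBL) (hC3 : St_C3) (hC4 : St_C4) :
    St_C5 := by
  intro j q hq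
  obtain ⟨C, h1, hT⟩ := hLHT j q hq
  obtain ⟨h2, hK⟩ := hLNK.2.2 j q hq
  obtain ⟨h3, hH⟩ := (hNH j).2 q (by omega)
  refine ⟨max (max h1 h2) (max h3 2), fun h hh Ω γ η hD hN => ?_⟩
  simp only [max_le_iff] at hh
  obtain ⟨⟨a1, a2⟩, a3, a4⟩ := hh
  have k : Kn γ (DD q h) := ⟨dd_open q h, ((hNH j).1 γ hN).2.1, (hH h a3 γ hN).1, (hH h a3 γ hN).2⟩
  have o0 : 0 < om q h := pow_pos (by linarith) _
  have hr : 0 < (om q h)⁻¹ := inv_pos.2 o0
  obtain ⟨hL, -, hA⟩ := (hT h a1 γ hN).2 (cp γ) (cp_mem hN.smooth hN.per)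
    (by rw [sub_self]; exact nm0 hr.le)
  have hp : ∀ x : ℝ, (x : ℂ) ∈ DD q h → ∀ γ' Ω', CD Ω' γ' → nm (cp γ' - cp γ) ≤ (om q h)⁻¹ →
      Pot x γ' Ω' := fun x hx γ' Ω' c n => hK h a2 γ γ' Ω' x hN c
    (n.trans (by rw [div_eq_mul_inv]; linarith)) hx
  have pos : ∀ (u v : ℝ → ℝ) e, 0 < e → Per (2 * π) u → Per (2 * π) v → Sep e u v →
      (∀ s, 0 ≤ u s) → (∀ s, 0 ≤ v s) → ∀ μ ∈ DD q h,
      2 * μ * D2 (TT μ) (cp γ) (nl γ u) (nl γ v) = -deriv (PsN γ fun s t => u s * v t) μ := by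
    intro u v e he hu hv hs u0 v0
    have hw := wc_mul hu hv hs
    refine ident ((differentiableOn_id.const_mul 2).mul (hA _ (nl_mem hN hu) _ (nl_mem hN hv)).1)
      ((psn_df hHI hN k he hw).deriv k.opn).neg fun x hx => ?_
    show 2 * (x : ℂ) * D2 (TT x) (cp γ) (nl γ u) (nl γ v) = -deriv (PsN γ fun s t => u s * v t) x
    rw [d2_real hGH hTR hC4 hD hN hr (dd_one a4 hx) (hL x hx) (hp x hx) hu hv u0 v0 he hs,
      der_real hHI hPOI hDBL hC3 hN k (fun x hx => ⟨hp x hx γ Ω hD.cd0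
        (by rw [sub_self]; exact nm0 hr.le), dd_one a4 hx⟩) he hw
        (fun s t => mul_nonneg (u0 s) (v0 t)) hx, neg_neg, ofReal_mul (2 * x), ofReal_mul 2 x,
      ofReal_ofNat]
  have one : ∀ (u v : ℝ → ℝ) e, 0 < e → Per (2 * π) u → Per (2 * π) v → Sep e u v →
      (∀ s, 0 ≤ v s) → ∀ μ ∈ DD q h,
      2 * μ * D2 (TT μ) (cp γ) (nl γ u) (nl γ v) = -deriv (PsN γ fun s t => u s * v t) μ := by
    intro u v e he hu hv hs v0 μ hμ
    have e2 : 0 < e / 2 := by positivity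
    obtain ⟨a, b, pa, pb, a0, b0, hab, hsp⟩ := split hCUT e2 hu
    have sp : ∀ s t, a s ≠ 0 ∨ b s ≠ 0 → v t ≠ 0 → e / 2 ≤ dc s t := fun s t x y => by
      obtain ⟨s', c1, c2⟩ := hsp s x
      linarith [hs s' t c1 y, dc_triangle s' s t, dc_comm s s']
    have sa : Sep (e / 2) a v := fun s t x y => sp s t (.inl x) y
    have sb : Sep (e / 2) b v := fun s t x y => sp s t (.inr x) y
    have su : Sep (e / 2) u v := fun s t x y => (half_le_self he.le).trans (hs s t x y)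
    rw [nl_sub γ hab, d2_sub hGH hr (hL μ hμ) (nl_mem hN pa) (nl_mem hN hv) (nl_mem hN pb), mul_sub,
      pos a v _ e2 pa hv sa a0 v0 μ hμ, pos b v _ e2 pb hv sb b0 v0 μ hμ,
      psn_sub hHI hN k e2 (wc_mul hu hv su) (wc_mul pa hv sa) (wc_mul pb hv sb)
        (fun s t => by simp only [hab s, sub_mul]) hμ]
    ring
  intro u v e he hu hv hs
  refine ⟨psn_df hHI hN k he (wc_mul hu hv hs), fun μ hμ => ?_⟩
  have e2 : 0 < e / 2 := by positivity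
  obtain ⟨a, b, pa, pb, a0, b0, hab, hsp⟩ := split hCUT e2 hv
  have sp : ∀ s t, u s ≠ 0 → a t ≠ 0 ∨ b t ≠ 0 → e / 2 ≤ dc s t := fun s t x y => by
    obtain ⟨t', c1, c2⟩ := hsp t y
    linarith [hs s t' x c1, dc_triangle s t t']
  have sa : Sep (e / 2) u a := fun s t x y => sp s t x (.inl y)
  have sb : Sep (e / 2) u b := fun s t x y => sp s t x (.inr y)
  have su : Sep (e / 2) u v := fun s t x y => (half_le_self he.le).trans (hs s t x y)
  have yu := nl_mem hN hu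
  rw [d2_symm hGH hr (hL μ hμ) yu (nl_mem hN hv), nl_sub γ hab,
    d2_sub hGH hr (hL μ hμ) (nl_mem hN pa) yu (nl_mem hN pb),
    d2_symm hGH hr (hL μ hμ) (nl_mem hN pa) yu, d2_symm hGH hr (hL μ hμ) (nl_mem hN pb) yu, mul_sub,
    one u a _ e2 hu pa sa a0 μ hμ, one u b _ e2 hu pb sb b0 μ hμ,
    psn_sub hHI hN k e2 (wc_mul hu hv su) (wc_mul hu pa sa) (wc_mul hu pb sb)
      (fun s t => by simp only [hab t, mul_sub]) hμ]
  ring

end Pool.Agent.Lib.IS2
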