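import Pool.Agent.Lib.IS2.B_KB

/-! Integrals of the majorants of the chains. -/

open scoped ContDiff ComplexConjugate Topology Real ENNReal
open Complex MeasureTheory Set Filter

noncomputable section

namespace Pool.Agent.Lib.IS2

open Pool.Agent.Lib.ISO

namespace CRB

theorem circ {f : ℝ → ℝ} (hf : IntervalIntegrable f volume 0 π) (s : ℝ) :
    IntervalIntegrable (fun t => f (dc s t)) volume 0 (2 * π) ∧
      ∫ t in (0 : ℝ)..(2 * π), f (dc s t) = 2 * ∫ x in (0 : ℝ)..π, f x := by
  have hp : Function.Periodic (fun t => f (dc s t)) (2 * π) := fun t => by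
    simpa using congrArg f (dc_add_right s t 1)
  have p0 := Real.pi_pos
  have e1 : EqOn (fun t => f (t - s)) (fun t => f (dc s t)) (uIcc s (s + π)) := fun t ht => by
    rw [uIcc_of_le (by linarith)] at ht
    have : |s - t| = t - s := by rw [abs_sub_comm, abs_of_nonneg (by linarith [ht.1])]
    simp only [dc_eq_abs (this.trans_le (by linarith [ht.2])), this]
  have e2 : EqOn (fun t => f (s - t)) (fun t => f (dc s t)) (uIcc (s - π) s) := fun t ht => by
    rw [uIcc_of_le (by linarith)] at ht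
    have : |s - t| = s - t := abs_of_nonneg (by linarith [ht.2])
    simp only [dc_eq_abs (this.trans_le (by linarith [ht.1])), this]
  have i1 : IntervalIntegrable (fun t => f (dc s t)) volume s (s + π) := by
    have := hf.comp_sub_right s
    rw [zero_add, add_comm] at this
    exact this.congr fun t ht => e1 (uIoc_subset_uIcc ht)
  have i2 : IntervalIntegrable (fun t => f (dc s t)) volume (s - π) s := by
    have := (hf.comp_sub_left s).symm
    rw [sub_zero] at this
    exact this.congr fun t ht => e2 (uIoc_subset_uIcc ht)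
  have e3 : s - π + 2 * π = s + π := by ring
  refine ⟨hp.intervalIntegrable (t := s - π) Real.two_pi_pos.ne' (e3 ▸ i2.trans i1) _ _, ?_⟩
  have := hp.intervalIntegral_add_eq 0 (s - π)
  rw [zero_add, e3] at this
  rw [this, ← intervalIntegral.integral_add_adjacent_intervals i2 i1,
    ← intervalIntegral.integral_congr e1, ← intervalIntegral.integral_congr e2,
    intervalIntegral.integral_comp_sub_right, intervalIntegral.integral_comp_sub_left]
  simp [two_mul]

theorem lint {g : ℝ → ℝ} (hg : IntervalIntegrable g volume 0 (2 * π)) (h0 : ∀ t, 0 ≤ g t) :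
    ∫⁻ t in Ioc 0 (2 * π), ENNReal.ofReal (g t) = ENNReal.ofReal (∫ t in (0 : ℝ)..(2 * π), g t) := by
  rw [intervalIntegral.integral_of_le Real.two_pi_pos.le,
    ofReal_integral_eq_lintegral_ofReal hg.1 (Eventually.of_forall h0)]

theorem split {n : ℕ} (i : Fin (n + 1)) {F : ℝ × (Fin n → ℝ) → ℝ≥0∞} (hF : Measurable F) :
    ∫⁻ v, F (v i, fun k => v (i.succAbove k)) ∂box (n + 1) =
      ∫⁻ w, (∫⁻ y in Ioc 0 (2 * π), F (y, w)) ∂box n :=
  ((measurePreserving_piFinSuccAbove (fun _ => volume.restrict (Ioc 0 (2 * π))) i).lintegral_comp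
    hF).trans (lintegral_prod_symm _ hF.aemeasurable)

theorem chain {k : ℝ → ℝ → ℝ≥0∞} (hk : Measurable (Function.uncurry k)) {R : ℝ≥0∞}
    (hR : ∀ t, ∫⁻ s in Ioc 0 (2 * π), k s t ≤ R) (n : ℕ) :
    ∫⁻ v, ∏ i : Fin n, k (v i.castSucc) (v i.succ) ∂box (n + 1) ≤ ENNReal.ofReal (2 * π) * R ^ n := by
  have hm : ∀ {α : Type} [MeasurableSpace α] {a b : α → ℝ}, Measurable a → Measurable b →
      Measurable fun x => k (a x) (b x) := fun ha hb => hk.comp (ha.prodMk hb)
  induction n with
  | zero => simp [box, Measure.pi_univ]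
  | succ n ih =>
    have := split (n := n + 1) 0
      (F := fun p => k p.1 (p.2 0) * ∏ i : Fin n, k (p.2 i.castSucc) (p.2 i.succ))
      ((hm measurable_fst (by fun_prop)).mul
        (Finset.measurable_prod _ fun i _ => hm (by fun_prop) (by fun_prop)))
    simp only [Fin.succAbove_zero] at this
    simp only [Fin.prod_univ_succ, Fin.castSucc_zero, ← Fin.succ_castSucc]
    rw [this]
    calc _ ≤ ∫⁻ w, R * ∏ i : Fin n, k (w i.castSucc) (w i.succ) ∂box (n + 1) := by
          refine lintegral_mono fun w => ?_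
          simp only
          rw [lintegral_mul_const _ (hm measurable_id' measurable_const)]
          exact mul_le_mul_left (hR _) _
      _ ≤ R * (ENNReal.ofReal (2 * π) * R ^ n) := by
          rw [lintegral_const_mul _
            (Finset.measurable_prod _ fun i _ => hm (by fun_prop) (by fun_prop))]
          exact mul_le_mul_right ih _
      _ = _ := by ring

theorem ae_ne {j : ℝ} {γ : ℝ → ℂ} (hγ : Nc j γ) (s : ℝ) : ∀ᵐ t, γ s ≠ γ t :=
  measure_mono_null (fun t ht => by
    obtain ⟨k, hk⟩ := hγ.inj (not_not.1 ht)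
    exact ⟨k, hk.symm⟩) ((countable_range fun k : ℤ => s + k * (2 * π)).measure_zero volume)

theorem ae_gv {j : ℝ} {γ : ℝ → ℂ} (hγ : Nc j γ) (n : ℕ) : ∀ᵐ v ∂box (n + 2), Gv γ v := by
  refine ae_all_iff.2 fun i => ?_
  obtain ⟨k, hk⟩ := Fin.exists_succAbove_eq (x := i + 1) (y := i) (by simp)
  have hc := hγ.smooth.continuous.measurable
  have : SFinite (box (n + 1)) := by unfold box; infer_instance
  have : ∀ᵐ p ∂(volume.restrict (Ioc 0 (2 * π))).prod (box (n + 1)), γ p.1 ≠ γ (p.2 k) :=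
    (Measure.ae_prod_iff_ae_ae
      (measurableSet_eq_fun (hc.comp measurable_fst) (by fun_prop)).compl).2
      (Eventually.of_forall fun s => (Measure.quasiMeasurePreserving_eval
        (fun _ => volume.restrict (Ioc 0 (2 * π))) k).ae (ae_restrict_of_ae (ae_ne hγ s)))
  rw [← hk]
  exact (measurePreserving_piFinSuccAbove (fun _ => volume.restrict (Ioc 0 (2 * π)))
    i).quasiMeasurePreserving.ae this

theorem cont {j : ℝ} {γ : ℝ → ℂ} (hγ : Nc j γ) : Continuous fun p : ℝ × ℝ => c0 γ p.1 p.2 := by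
  have := hγ.smooth.continuous
  unfold c0
  fun_prop

theorem mc {f : ℝ → ℝ → ℝ} (hf : Continuous fun p : ℝ × ℝ => f p.1 p.2) {α : Type}
    [MeasurableSpace α] {a b : α → ℝ} (ha : Measurable a) (hb : Measurable b) :
    Measurable fun x => f (a x) (b x) :=
  Measurable.comp (g := fun p : ℝ × ℝ => f p.1 p.2) (f := fun x => (a x, b x)) hf.measurable
    (ha.prodMk hb)

theorem row {j : ℝ} {γ : ℝ → ℂ} (hγ : Nc j γ) {o T : ℝ} (ho : 0 ≤ o) (hT : 0 < T) (s : ℝ) :
    ∫ t in (0 : ℝ)..(2 * π), (1 + √(o * c0 γ s t)) * Real.exp (-(c0 γ s t / (2 * T))) ≤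
      8 * j * (T + √(o * T) * T) := by
  have j0 := hγ.pos
  have hc : Continuous (c0 γ s) := (cont hγ).comp (Continuous.prodMk_right s)
  obtain ⟨i1, e1⟩ := circ (f := fun x => (1 + √(o * T)) * Real.exp (-(x / (4 * j * T))))
    (Continuous.intervalIntegrable (by fun_prop) _ _) s
  refine (intervalIntegral.integral_mono_on Real.two_pi_pos.le
    (Continuous.intervalIntegrable (by fun_prop) _ _) i1 fun t _ => ?_).trans ?_
  · have h1 : dc s t ≤ j * c0 γ s t := hγ.arc s t
    have h0 : 0 ≤ c0 γ s t := norm_nonneg _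
    generalize c0 γ s t = c at *
    have h2 : 1 + c / (4 * T) ≤ Real.exp (c / (4 * T)) := by linarith [Real.add_one_le_exp (c / (4 * T))]
    have h3 : √(o * c) ≤ √(o * T) * Real.exp (c / (4 * T)) := by
      rw [show o * c = o * T * (c / T) by field_simp, Real.sqrt_mul (by positivity)]
      refine mul_le_mul_of_nonneg_left (le_trans (Real.sqrt_le_iff.2 ⟨by positivity, ?_⟩) h2)
        (Real.sqrt_nonneg _)
      rw [show c / T = 4 * (c / (4 * T)) by field_simp]
      nlinarith [sq_nonneg (1 - c / (4 * T))]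
    have h4 : 0 ≤ c / (4 * T) := by positivity
    calc _ ≤ (1 + √(o * T)) * Real.exp (c / (4 * T)) * Real.exp (-(c / (2 * T))) := by
          gcongr
          linarith
      _ = (1 + √(o * T)) * Real.exp (-(j * c / (4 * j * T))) := by
          rw [mul_assoc, ← Real.exp_add]
          congr 2
          field_simp
          ring
      _ ≤ _ := by gcongr
  · rw [e1, intervalIntegral.integral_const_mul, intervalIntegral.integral_eq_sub_of_hasDerivAt
      (f := fun x => -(4 * j * T) * Real.exp (-(x / (4 * j * T)))) (fun x _ =>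
        ((((hasDerivAt_id' x).div_const (4 * j * T)).fun_neg.exp).const_mul
          (-(4 * j * T))).congr_deriv (by field_simp))
      (Continuous.intervalIntegrable (by fun_prop) _ _)]
    have : 0 ≤ (1 + √(o * T)) * (4 * j * T * Real.exp (-(π / (4 * j * T)))) := by positivity
    simp only [zero_div, neg_zero, Real.exp_zero]
    linarith

theorem sing {j : ℝ} {γ : ℝ → ℂ} (hγ : Nc j γ) (s t : ℝ) :
    (c0 γ s t ^ (-(1 / 4) : ℝ)) ^ 2 ≤ √j * dc s t ^ (-(1 / 2) : ℝ) := by
  have h0 : 0 ≤ c0 γ s t := norm_nonneg _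
  have h1 := dc_nonneg s t
  rw [← Real.rpow_natCast, ← Real.rpow_mul h0]
  rcases h0.eq_or_lt with h | h
  · rw [← h, Real.zero_rpow (by norm_num)]
    positivity
  · have h2 : 0 < dc s t := h.trans_le (hγ.c0_le s t)
    have j0 := hγ.pos
    calc _ ≤ (dc s t / j) ^ (-(1 / 4) * (2 : ℕ) : ℝ) :=
          Real.rpow_le_rpow_of_nonpos (by positivity) ((div_le_iff₀' j0).2 (hγ.arc s t))
            (by norm_num)
      _ = _ := by
          rw [Real.div_rpow h1 j0.le, Real.sqrt_eq_rpow, show (-(1 / 4) * (2 : ℕ) : ℝ) = -(1 / 2) by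
            norm_num, Real.rpow_neg j0.le, div_inv_eq_mul, mul_comm]

/-- majorant of the kernel -/
def kk (γ : ℝ → ℂ) (o T s t : ℝ) : ℝ :=
  (1 + √(o * c0 γ s t)) * Real.exp (-(c0 γ s t / (2 * T)))

/-- majorant of the last two links -/
def GG (j o a b y : ℝ) : ℝ :=
  √o * (√j * dc a y ^ (-(1 / 2) : ℝ) + √j * dc b y ^ (-(1 / 2) : ℝ) + 3)

/-- a constant -/
def KK (j : ℝ) : ℝ := 4 * √j * |∫ x in (0 : ℝ)..π, x ^ (-(1 / 2) : ℝ)| + 6 * π

theorem k0 (γ : ℝ → ℂ) (o T s t : ℝ) : 0 ≤ kk γ o T s t := by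
  unfold kk
  positivity

theorem G0 (j o a b y : ℝ) : 0 ≤ GG j o a b y := by
  have := dc_nonneg a y
  have := dc_nonneg b y
  unfold GG
  positivity

theorem kc {j : ℝ} {γ : ℝ → ℂ} (hγ : Nc j γ) (o T : ℝ) :
    Continuous fun p : ℝ × ℝ => kk γ o T p.1 p.2 := by
  have := cont hγ
  unfold kk
  fun_prop

theorem Gm (j o : ℝ) {α : Type} [MeasurableSpace α] {a b y : α → ℝ} (ha : Measurable a)
    (hb : Measurable b) (hy : Measurable y) :
    Measurable fun x => ENNReal.ofReal (GG j o (a x) (b x) (y x)) := by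
  have h1 : Measurable fun x => dc (a x) (y x) := mc continuous_dc ha hy
  have h2 : Measurable fun x => dc (b x) (y x) := mc continuous_dc hb hy
  exact (((((h1.pow_const _).const_mul _).add ((h2.pow_const _).const_mul _)).add_const
    _).const_mul _).ennreal_ofReal

theorem hG (j : ℝ) {o : ℝ} (o1 : 1 ≤ o) (a b : ℝ) :
    ∫⁻ y in Ioc 0 (2 * π), ENNReal.ofReal (GG j o a b y) ≤ ENNReal.ofReal (o * KK j) := by
  have i0 : IntervalIntegrable (fun x : ℝ => x ^ (-(1 / 2) : ℝ)) volume 0 π :=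
    intervalIntegral.intervalIntegrable_rpow' (by norm_num)
  obtain ⟨i1, e1⟩ := circ i0 a
  obtain ⟨i2, e2⟩ := circ i0 b
  have i3 := (i1.const_mul √j).add (i2.const_mul √j)
  have p0 := Real.pi_pos
  rw [lint (g := GG j o a b) ((i3.add intervalIntegrable_const).const_mul _) (G0 j o a b)]
  unfold GG KK
  rw [intervalIntegral.integral_const_mul, intervalIntegral.integral_add i3 intervalIntegrable_const,
    intervalIntegral.integral_add (i1.const_mul _) (i2.const_mul _),
    intervalIntegral.integral_const_mul, intervalIntegral.integral_const_mul, e1, e2]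
  generalize ∫ x in (0 : ℝ)..π, x ^ (-(1 / 2) : ℝ) = K
  refine ENNReal.ofReal_le_ofReal ((mul_le_mul_of_nonneg_left
    (b := _) (c := 4 * √j * |K| + 6 * π) ?_ (Real.sqrt_nonneg _)).trans ?_)
  · simp only [intervalIntegral.integral_const, smul_eq_mul]
    nlinarith [mul_le_mul_of_nonneg_left (le_abs_self K) (Real.sqrt_nonneg j)]
  · gcongr
    exact Real.sqrt_le_iff.2 ⟨by linarith, by nlinarith⟩

theorem fm {j : ℝ} {γ : ℝ → ℂ} (hγ : Nc j γ) (o T : ℝ) (n : ℕ) :
    Measurable fun v : Fin (n + 2) → ℝ => Mj o γ n v * Real.exp (-(ell γ v / (2 * T))) := by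
  have m : ∀ a b : Fin (n + 2), Measurable fun v : Fin (n + 2) → ℝ => c0 γ (v a) (v b) :=
    fun a b => mc (cont hγ) (measurable_pi_apply a) (measurable_pi_apply b)
  exact ((Finset.measurable_prod _ fun i _ => ((m _ _).const_mul _).sqrt.const_add _).mul
    (((((m _ _).pow_const _).const_mul _).mul ((m _ _).pow_const _)).add
      (((m _ _).const_mul _).sqrt.const_add _))).mul
    ((Finset.measurable_sum _ fun i _ => m _ _).div_const _).neg.exp

theorem f0 (γ : ℝ → ℂ) (o : ℝ) (n : ℕ) (v : Fin (n + 2) → ℝ) : 0 ≤ Mj o γ n v := by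
  have : 0 ≤ c0 γ (v (Fin.last n).castSucc) (v (Fin.last (n + 1))) := norm_nonneg _
  have : 0 ≤ c0 γ (v (Fin.last (n + 1))) (v 0) := norm_nonneg _
  unfold Mj
  positivity

theorem pt {j : ℝ} {γ : ℝ → ℂ} (hγ : Nc j γ) {o T : ℝ} (o1 : 1 ≤ o) (T0 : 0 < T) (n : ℕ)
    (v : Fin (n + 2) → ℝ) : Mj o γ n v * Real.exp (-(ell γ v / (2 * T))) ≤
      (∏ i : Fin n, kk γ o T (v i.castSucc.castSucc) (v i.succ.castSucc)) *
        GG j o (v (Fin.last n).castSucc) (v 0) (v (Fin.last (n + 1))) := by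
  rw [ell, Finset.sum_div, ← Finset.sum_neg_distrib, Real.exp_sum,
    KBB.cyc fun s t => Real.exp (-(c0 γ s t / (2 * T))), Mj]
  have s1 := sing hγ (v (Fin.last n).castSucc) (v (Fin.last (n + 1)))
  have s2 := sing hγ (v (Fin.last (n + 1))) (v 0)
  rw [dc_comm] at s2
  have s3 := (hγ.c0_le (v (Fin.last n).castSucc) (v (Fin.last (n + 1)))).trans (dc_le_pi _ _)
  have c1 : 0 ≤ c0 γ (v (Fin.last n).castSucc) (v (Fin.last (n + 1))) := norm_nonneg _
  have c2 : 0 ≤ c0 γ (v (Fin.last (n + 1))) (v 0) := norm_nonneg _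
  have g0 := G0 j o (v (Fin.last n).castSucc) (v 0) (v (Fin.last (n + 1)))
  simp only [GG, kk, Finset.prod_mul_distrib] at g0 ⊢
  generalize c0 γ (v (Fin.last n).castSucc) (v (Fin.last (n + 1))) = c at *
  generalize c0 γ (v (Fin.last (n + 1))) (v 0) = c' at *
  have e1 : Real.exp (-(c / (2 * T))) ≤ 1 := Real.exp_le_one_iff.2 (neg_nonpos.2 (by positivity))
  have e2 : Real.exp (-(c' / (2 * T))) ≤ 1 := Real.exp_le_one_iff.2 (neg_nonpos.2 (by positivity))
  have r1 : 1 ≤ √o := Real.one_le_sqrt.2 o1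
  have r2 : √(o * c) ≤ √o * 2 := by
    rw [Real.sqrt_mul (by linarith)]
    gcongr
    exact Real.sqrt_le_iff.2 ⟨two_pos.le, by linarith [Real.pi_lt_four]⟩
  generalize c ^ (-(1 / 4) : ℝ) = x at *
  generalize c' ^ (-(1 / 4) : ℝ) = y at *
  have r3 : √o * x * y + (1 + √(o * c)) ≤ √o * (x ^ 2 + y ^ 2 + 3) := by
    nlinarith [mul_nonneg (Real.sqrt_nonneg o) (sq_nonneg (x - y)),
      mul_nonneg (Real.sqrt_nonneg o) (add_nonneg (sq_nonneg x) (sq_nonneg y))]
  have r4 := r3.trans (mul_le_mul_of_nonneg_left (add_le_add_left (add_le_add s1 s2) 3)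
    (Real.sqrt_nonneg _))
  refine (mul_le_mul (mul_le_mul_of_nonneg_left r4 (by positivity))
    (mul_le_mul (mul_le_mul_of_nonneg_left e1 (by positivity)) e2 (by positivity) (by positivity))
    (by positivity) (mul_nonneg (by positivity) g0)).trans (le_of_eq ?_)
  ring

theorem key {j : ℝ} {γ : ℝ → ℂ} (hγ : Nc j γ) {o T R : ℝ} (o1 : 1 ≤ o) (T0 : 0 < T) (R0 : 0 ≤ R)
    (hR : ∀ s, ∫ t in (0 : ℝ)..(2 * π), kk γ o T s t ≤ R) (n : ℕ) :
    ∫⁻ v, ENNReal.ofReal (Mj o γ n v * Real.exp (-(ell γ v / (2 * T)))) ∂box (n + 2) ≤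
      ENNReal.ofReal (2 * π * KK j * o * R ^ n) := by
  have km : ∀ {α : Type} [MeasurableSpace α] {a b : α → ℝ}, Measurable a → Measurable b →
      Measurable fun x => ENNReal.ofReal (kk γ o T (a x) (b x)) := fun ha hb =>
    (mc (kc hγ o T) ha hb).ennreal_ofReal
  have pm : Measurable fun w : Fin (n + 1) → ℝ =>
      ∏ i : Fin n, ENNReal.ofReal (kk γ o T (w i.castSucc) (w i.succ)) :=
    Finset.measurable_prod _ fun i _ => km (measurable_pi_apply _) (measurable_pi_apply _)
  have sp := split (Fin.last (n + 1)) (F := fun p =>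
    (∏ i : Fin n, ENNReal.ofReal (kk γ o T (p.2 i.castSucc) (p.2 i.succ))) *
      ENNReal.ofReal (GG j o (p.2 (Fin.last n)) (p.2 0) p.1))
    ((pm.comp measurable_snd).mul (Gm j o (by fun_prop) (by fun_prop) measurable_fst))
  simp only [Fin.succAbove_last, Fin.castSucc_zero] at sp
  refine le_trans (lintegral_mono fun v => ?_) (sp.trans_le ?_)
  · simp only
    rw [← ENNReal.ofReal_prod_of_nonneg fun _ _ => k0 _ _ _ _ _,
      ← ENNReal.ofReal_mul (Finset.prod_nonneg fun _ _ => k0 _ _ _ _ _)]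
    exact ENNReal.ofReal_le_ofReal (pt hγ o1 T0 n v)
  · calc _ ≤ ∫⁻ w, (∏ i : Fin n, ENNReal.ofReal (kk γ o T (w i.castSucc) (w i.succ))) *
          ENNReal.ofReal (o * KK j) ∂box (n + 1) := by
          refine lintegral_mono fun w => ?_
          simp only
          rw [lintegral_const_mul _ (Gm j o measurable_const measurable_const measurable_id')]
          exact mul_le_mul_right (hG j o1 _ _) _
      _ ≤ ENNReal.ofReal (2 * π) * ENNReal.ofReal R ^ n * ENNReal.ofReal (o * KK j) := by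
          rw [lintegral_mul_const _ pm]
          refine mul_le_mul_left (chain (k := fun s t => ENNReal.ofReal (kk γ o T s t))
            (km measurable_fst measurable_snd) (fun t => ?_) n) _
          rw [lint (g := fun s => kk γ o T s t) (Continuous.intervalIntegrable
            ((kc hγ o T).comp (Continuous.prodMk_left t)) _ _) (k0 γ o T · t)]
          refine ENNReal.ofReal_le_ofReal (le_trans (le_of_eq ?_) (hR t))
          simp only [kk, c0, norm_sub_rev (γ t)]
      _ = _ := by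
          rw [← ENNReal.ofReal_pow R0, ← ENNReal.ofReal_mul (by positivity),
            ← ENNReal.ofReal_mul (by positivity)]
          congr 1
          ring

end CRB

theorem st_cr : St_CR := by
  intro j q hq
  refine ⟨16 * j + 2 * π * CRB.KK j, 1, fun h h1 γ hγ => ?_⟩
  have j0 := hγ.pos
  have K0 : 0 ≤ 2 * π * CRB.KK j := by unfold CRB.KK; positivity
  have key := @CRB.key j γ hγ
  generalize 2 * π * CRB.KK j = K at *
  have h0 : 0 < h := by linarith
  have o1 : 1 ≤ om q h := one_le_pow₀ h1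
  have T0 : 0 < Tt q h := by unfold Tt; positivity
  have hrow : ∀ s, ∫ t in (0 : ℝ)..(2 * π), (1 + √(om q h * c0 γ s t)) *
      Real.exp (-(c0 γ s t / (2 * Tt q h))) ≤ (16 * j + K) / h ^ 3 := fun s => by
    refine (CRB.row hγ (by linarith) T0 s).trans ?_
    have e1 : Tt q h ≤ (h ^ 3)⁻¹ := inv_anti₀ (by positivity) (pow_le_pow_right₀ h1 (by omega))
    have e2 : √(om q h * Tt q h) * Tt q h = (h ^ 3)⁻¹ := by
      rw [← Real.sqrt_sq T0.le, ← Real.sqrt_mul (by positivity), Real.sqrt_sq T0.le,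
        ← Real.sqrt_sq (x := (h ^ 3)⁻¹) (by positivity)]
      congr 1
      unfold om Tt
      field_simp
      ring
    rw [e2, div_eq_mul_inv]
    have : 0 ≤ K * (h ^ 3)⁻¹ := by positivity
    nlinarith
  refine ⟨fun n => ⟨CRB.ae_gv hγ n, ?_⟩, hrow⟩
  have k := key o1 T0 (by positivity) hrow n
  have fm := (CRB.fm hγ (om q h) (Tt q h) n).aestronglyMeasurable (μ := box (n + 2))
  have f0 := Eventually.of_forall (f := ae (box (n + 2))) fun v =>
    mul_nonneg (CRB.f0 γ (om q h) n v) (Real.exp_nonneg (-(ell γ v / (2 * Tt q h))))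
  refine ⟨⟨fm, (hasFiniteIntegral_iff_ofReal f0).2 (k.trans_lt ENNReal.ofReal_lt_top)⟩, ?_⟩
  rw [integral_eq_lintegral_of_nonneg_ae f0 fm]
  refine (ENNReal.toReal_le_of_le_ofReal (by positivity) k).trans ?_
  gcongr
  linarith

end Pool.Agent.Lib.IS2
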