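import Pool.Agent.Lib.IS2.Blue

/-! Row CUT: the profile of the deformation and the partition of unity. -/

open scoped ContDiff Topology Real
open MeasureTheory Set Filter Metric

noncomputable section

namespace Pool.Agent.Lib.IS2

open Pool.Agent.Lib.ISO

namespace CUT

/-- The number of periods. -/
def kk (α s : ℝ) : ℤ := round ((2 * π)⁻¹ * (s - α))

/-- The periodisation of a function with small support. -/
def pz (g : ℝ → ℝ) (α s : ℝ) : ℝ := g (s - α - kk α s * (2 * π))

theorem abs_kk (α s : ℝ) : |s - α - kk α s * (2 * π)| = dc s α := by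
  rw [dc, AddCircle.norm_eq, kk]

variable {g : ℝ → ℝ} {r α s : ℝ}

theorem pz_eq (hg : ∀ u, r ≤ |u| → g u = 0) (k : ℤ) (h : |s - α - k * (2 * π)| ≤ 2 * π - r) :
    pz g α s = g (s - α - k * (2 * π)) := by
  by_cases e : kk α s = k
  · rw [pz, e]
  have h1 : |s - α - kk α s * (2 * π)| ≤ |s - α - k * (2 * π)| := by
    rw [abs_kk, ← dc_add_right s α k, sub_sub]
    exact dc_le_abs _ _
  have h2 : (1 : ℝ) ≤ |(kk α s : ℝ) - k| := by exact_mod_cast Int.one_le_abs (sub_ne_zero.2 e)
  have h3 := abs_sub (s - α - k * (2 * π)) (s - α - kk α s * (2 * π))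
  rw [show s - α - k * (2 * π) - (s - α - kk α s * (2 * π)) = ((kk α s : ℝ) - k) * (2 * π) by ring,
    abs_mul, abs_of_pos Real.two_pi_pos] at h3
  have h4 : r ≤ |s - α - kk α s * (2 * π)| := by nlinarith [Real.two_pi_pos]
  rw [pz, hg _ h4, hg _ (h4.trans h1)]

theorem pz_ev (hg : ∀ u, r ≤ |u| → g u = 0) (k : ℤ) (h : |s - α - k * (2 * π)| < 2 * π - r) :
    pz g α =ᶠ[𝓝 s] fun t => g (t - (α + k * (2 * π))) := by
  have : Continuous fun t : ℝ => |t - α - k * (2 * π)| := by fun_prop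
  filter_upwards [this.continuousAt.eventually (gt_mem_nhds h)] with t ht
  rw [pz_eq hg k ht.le, sub_sub]

theorem pz_ev' (hg : ∀ u, r ≤ |u| → g u = 0) (hr : r < π) (α s : ℝ) :
    pz g α =ᶠ[𝓝 s] fun t => g (t - (α + kk α s * (2 * π))) :=
  pz_ev hg _ (by rw [abs_kk]; linarith [dc_le_pi s α])

theorem pz_per (hg : ∀ u, r ≤ |u| → g u = 0) (hr : r < π) (hs : ContDiff ℝ ∞ g) (α : ℝ) :
    Per (2 * π) (pz g α) := by
  refine ⟨contDiff_iff_contDiffAt.2 fun s => ((hs.comp (contDiff_id.sub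
    contDiff_const)).contDiffAt).congr_of_eventuallyEq (pz_ev' hg hr α s), fun s => ?_⟩
  have e : s + 2 * π - α - (kk α s + 1 : ℤ) * (2 * π) = s - α - kk α s * (2 * π) := by
    push_cast; ring
  rw [pz_eq hg (kk α s + 1) (by rw [e, abs_kk]; linarith [dc_le_pi s α]), e, pz]

theorem pz_d (hg : ∀ u, r ≤ |u| → g u = 0) (hr : r < π) {C1 C2 : ℝ} (h1 : ∀ u, |deriv g u| ≤ C1)
    (h2 : ∀ u, |deriv (deriv g) u| ≤ C2) (α s : ℝ) :
    |deriv (pz g α) s| ≤ C1 ∧ |deriv (deriv (pz g α)) s| ≤ C2 := by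
  have h := pz_ev' hg hr α s
  rw [h.deriv_eq, h.deriv.deriv_eq, deriv_comp_sub_const, show (deriv fun t => g (t - (α +
    kk α s * (2 * π)))) = fun t => deriv g (t - (α + kk α s * (2 * π))) from
      funext fun t => deriv_comp_sub_const .., deriv_comp_sub_const]
  exact ⟨h1 _, h2 _⟩

/-- Bounds for the derivatives of a smooth function with compact support. -/
theorem bds {f : ℝ → ℝ} (hs : ContDiff ℝ ∞ f) (hc : HasCompactSupport f) : ∃ C, 0 ≤ C ∧ ∀ x,
    |deriv f x| ≤ C ∧ |deriv (deriv f) x| ≤ C ∧ |x| * |deriv f x| ≤ C ∧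
      |x| * |deriv (deriv f) x| ≤ C := by
  have s1 := (contDiff_infty_iff_deriv.1 hs).2
  have s2 := (contDiff_infty_iff_deriv.1 s1).2
  obtain ⟨a, ha⟩ := s1.continuous.bounded_above_of_compact_support hc.deriv
  obtain ⟨b, hb⟩ := s2.continuous.bounded_above_of_compact_support hc.deriv.deriv
  obtain ⟨c, hc'⟩ := (continuous_id.mul s1.continuous).bounded_above_of_compact_support
    hc.deriv.mul_left
  obtain ⟨d, hd⟩ := (continuous_id.mul s2.continuous).bounded_above_of_compact_support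
    hc.deriv.deriv.mul_left
  simp only [Real.norm_eq_abs, Pi.mul_apply, id, abs_mul] at ha hb hc' hd
  have a0 := (abs_nonneg _).trans (ha 0)
  have b0 := (abs_nonneg _).trans (hb 0)
  have c0 := (mul_nonneg (abs_nonneg _) (abs_nonneg _)).trans (hc' 0)
  have d0 := (mul_nonneg (abs_nonneg _) (abs_nonneg _)).trans (hd 0)
  exact ⟨a + b + c + d, by positivity, fun x =>
    ⟨by linarith [ha x], by linarith [hb x], by linarith [hc' x], by linarith [hd x]⟩⟩

theorem dsc {f : ℝ → ℝ} (hs : ContDiff ℝ ∞ f) (c x : ℝ) :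
    HasDerivAt (fun t => f (c * t)) (deriv f (c * x) * c) x :=
  ((hs.differentiable (by simp) (c * x)).hasDerivAt.comp x
    ((hasDerivAt_id x).const_mul c)).congr_deriv (by simp)

theorem prof : ∃ C, 0 ≤ C ∧
    ∀ e1 e2 α : ℝ, 0 < e1 → 2 * e1 ≤ e2 → e2 ≤ 1 → ∃ b, Bf (1 + 4 * C) e1 e2 α b := by
  let f : ContDiffBump (0 : ℝ) := ⟨1, 3 / 2, one_pos, by norm_num⟩
  have fs : ContDiff ℝ ∞ f := f.contDiff
  have s1 := (contDiff_infty_iff_deriv.1 fs).2
  have f1 : ∀ x, |x| ≤ 1 → f x = 1 := fun x h =>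
    f.one_of_mem_closedBall (mem_closedBall_zero_iff.2 h)
  have f0 : ∀ x, 3 / 2 ≤ |x| → f x = 0 := fun x h =>
    f.zero_of_le_dist (by rwa [dist_zero_right])
  have fb : ∀ x, |f x| ≤ 1 ∧ |1 - f x| ≤ 1 := fun x => by
    have := f.nonneg (x := x)
    have := f.le_one (x := x)
    exact ⟨abs_le.2 ⟨by linarith, by linarith⟩, abs_le.2 ⟨by linarith, by linarith⟩⟩
  obtain ⟨C, C0, hC⟩ := bds fs f.hasCompactSupport
  refine ⟨C, C0, fun e1 e2 α h1 h2 h3 => ?_⟩
  have h4 : 0 < e2 := by linarith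
  obtain ⟨a, a0, ha⟩ : ∃ a : ℝ, 0 < a ∧ a * e1 = 1 := ⟨e1⁻¹, by positivity, inv_mul_cancel₀ h1.ne'⟩
  obtain ⟨l, l0, hl⟩ : ∃ l : ℝ, 0 < l ∧ l * e2 = 3 / 4 := ⟨3 / 4 / e2, by positivity, by field_simp⟩
  have la : l ≤ a := by nlinarith
  have cs : ∀ c : ℝ, ContDiff ℝ ∞ fun t => f (c * t) := fun c =>
    fs.comp (contDiff_const.mul contDiff_id)
  have d0 := dsc fs
  have d1 := dsc s1
  obtain ⟨B, hB, Bs, B0, Bb⟩ : ∃ B : ℝ → ℝ, (∀ u, HasDerivAt B (1 - f (a * u)) u) ∧
      ContDiff ℝ ∞ B ∧ (∀ u, |u| ≤ e1 → B u = 0) ∧ ∀ u, |B u| ≤ |u| := by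
    have c : Continuous fun t => 1 - f (a * t) := continuous_const.sub (cs a).continuous
    have d : ∀ u, HasDerivAt (fun u => ∫ t in (0 : ℝ)..u, (1 - f (a * t))) (1 - f (a * u)) u :=
      fun u => (c.integral_hasStrictDerivAt 0 u).hasDerivAt
    refine ⟨_, d, contDiff_infty_iff_deriv.2 ⟨fun u => (d u).differentiableAt, ?_⟩, fun u hu => ?_,
      fun u => ?_⟩
    · rw [show deriv _ = _ from funext fun u => (d u).deriv]
      exact contDiff_const.sub (cs a)
    · rw [intervalIntegral.integral_congr (g := fun _ => 0) fun t ht => ?_]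
      · simp
      · have : |t| ≤ e1 := (abs_le_max_abs_abs (a := 0 ⊓ u) ht.1 ht.2).trans (by
          rcases le_total 0 u with h | h <;> simp [h, hu])
        rw [f1 _ (by rw [abs_mul, abs_of_pos a0]; nlinarith), sub_self]
    · simpa using intervalIntegral.norm_integral_le_of_norm_le_const (a := 0) (b := u) (C := 1)
        (f := fun t => 1 - f (a * t)) fun t _ => (fb _).2
  have g0 : ∀ u, 2 * e2 ≤ |u| → B u * f (l * u) = 0 := fun u hu => by
    rw [f0 _ (by rw [abs_mul, abs_of_pos l0]; nlinarith), mul_zero]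
  have g1 : deriv (fun u => B u * f (l * u)) =
      fun u => (1 - f (a * u)) * f (l * u) + B u * (deriv f (l * u) * l) :=
    funext fun u => ((hB u).mul (d0 l u)).deriv
  have g2 : ∀ u, deriv (deriv fun u => B u * f (l * u)) u = -(deriv f (a * u) * a) * f (l * u) +
      (1 - f (a * u)) * (deriv f (l * u) * l) + ((1 - f (a * u)) * (deriv f (l * u) * l) +
        B u * (deriv (deriv f) (l * u) * l * l)) := fun u => by
    rw [g1]
    exact ((((d0 a u).const_sub 1).mul (d0 l u)).add ((hB u).mul ((d1 l u).mul_const l))).deriv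
  have hr : 2 * e2 < π := by linarith [Real.pi_gt_three]
  have bd := pz_d g0 hr (C1 := 1 + 4 * C) (C2 := (1 + 4 * C) / e1) (fun u => by
    rw [g1]
    refine (abs_add_le _ _).trans ?_
    have t := (hC (l * u)).2.2.1
    rw [abs_mul, abs_of_pos l0] at t
    simp only [abs_mul, abs_of_pos l0]
    nlinarith [mul_le_mul (fb (a * u)).2 (fb (l * u)).1 (abs_nonneg _) zero_le_one,
      mul_le_mul_of_nonneg_right (Bb u) (mul_nonneg (abs_nonneg (deriv f (l * u))) l0.le)])
    (fun u => by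
      rw [g2, div_eq_mul_inv, ← eq_inv_of_mul_eq_one_left ha]
      refine (abs_add_le _ _).trans ((add_le_add (abs_add_le _ _) (abs_add_le _ _)).trans ?_)
      have t := (hC (l * u)).2.2.2
      rw [abs_mul, abs_of_pos l0] at t
      simp only [abs_mul, abs_neg, abs_of_pos l0, abs_of_pos a0]
      have t1 : |deriv f (a * u)| * a * |f (l * u)| ≤ C * a * 1 := by
        gcongr
        exacts [(hC _).1, (fb _).1]
      have t2 : |1 - f (a * u)| * (|deriv f (l * u)| * l) ≤ 1 * (C * a) := by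
        gcongr
        exacts [(fb _).2, (hC _).1]
      have t3 : |B u| * (|deriv (deriv f) (l * u)| * l * l) ≤ C * a :=
        calc _ ≤ |u| * (|deriv (deriv f) (l * u)| * l * l) := 
            mul_le_mul_of_nonneg_right (Bb u) (by positivity)
          _ = l * |u| * |deriv (deriv f) (l * u)| * l := by ring
          _ ≤ C * a := by gcongr
      linarith) α
  have dv : ∀ s, |s - α| ≤ e2 → deriv (pz (fun u => B u * f (l * u)) α) s = 1 - f (a * (s - α)) := by
    intro s hs
    have h : |l * (s - α)| < 1 := by rw [abs_mul, abs_of_pos l0]; nlinarith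
    have z : deriv f (l * (s - α)) = 0 := by
      rw [(f.eventuallyEq_one_of_mem_ball (mem_ball_zero_iff.2 h)).deriv_eq]
      exact deriv_const _ _
    rw [(pz_ev g0 0 (by simp; linarith [Real.pi_gt_three])).deriv_eq,
      deriv_comp_sub_const (f := fun u => B u * f (l * u)), g1]
    simp [z, f1 _ h.le]
  refine ⟨pz (fun u => B u * f (l * u)) α, pz_per g0 hr (Bs.mul (cs l)) α, fun s hs => ?_,
    fun s hs => ?_, fun s hs hs' => ?_, fun s => ?_, fun s => (bd s).1, fun s => (bd s).2⟩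
  · rw [pz, B0 _ ((abs_kk α s).trans_le hs), zero_mul]
  · rw [dv s hs]
    exact sub_nonneg.2 f.le_one
  · rw [dv s hs', f0 _ (by rw [abs_mul, abs_of_pos a0]; nlinarith), sub_zero]
  · rw [pz]
    generalize s - α - kk α s * (2 * π) = u
    rcases le_total (2 * e2) |u| with h | h
    · rw [g0 u h, abs_zero]; positivity
    · rw [abs_mul]
      nlinarith [mul_le_mul (Bb u) (fb (l * u)).1 (abs_nonneg _) (abs_nonneg _)]

open Real in
theorem part : ∃ C, 0 ≤ C ∧ ∀ e : ℝ, 0 < e → e ≤ 1 → ∃ K α φ, Pu (8 + 4 * C) e K α φ := by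
  let G : ℝ → ℝ := fun x => smoothTransition (x + 1) - smoothTransition x
  have Gs : ContDiff ℝ ∞ G :=
    (smoothTransition.contDiff.comp (contDiff_id.add contDiff_const)).sub smoothTransition.contDiff
  have s1 := (contDiff_infty_iff_deriv.1 Gs).2
  have G0 : ∀ x, 1 ≤ |x| → G x = 0 := fun x hx => by
    rcases le_abs.1 hx with h | h
    · simp only [G, smoothTransition.one_of_one_le h,
        smoothTransition.one_of_one_le (show 1 ≤ x + 1 by linarith), sub_self]
    · simp only [G, smoothTransition.zero_of_nonpos (show x ≤ 0 by linarith),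
        smoothTransition.zero_of_nonpos (show x + 1 ≤ 0 by linarith), sub_self]
  obtain ⟨C, C0, hC⟩ := bds Gs (HasCompactSupport.intro (isCompact_closedBall 0 1) fun x hx =>
    G0 x (not_le.1 (mem_closedBall_zero_iff.not.1 hx)).le)
  refine ⟨C, C0, fun e h1 h2 => ?_⟩
  have p3 := pi_gt_three
  have p4 := pi_lt_d2
  obtain ⟨K, K1, K2⟩ : ∃ K : ℕ, 2 * π ≤ K * e ∧ K * e ≤ 8 := by
    refine ⟨⌈2 * π / e⌉₊, (div_le_iff₀ h1).1 (Nat.le_ceil _), ?_⟩
    have := mul_lt_mul_of_pos_right (Nat.ceil_lt_add_one (show 0 ≤ 2 * π / e by positivity)) h1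
    rw [add_mul, div_mul_cancel₀ _ h1.ne'] at this
    linarith
  have K0 : (0 : ℝ) < K := by nlinarith [Nat.cast_nonneg (α := ℝ) K]
  obtain ⟨h, h0, hh⟩ : ∃ h : ℝ, 0 < h ∧ K * h = 2 * π := ⟨2 * π / K, by positivity, by field_simp⟩
  obtain ⟨a, a0, ha⟩ : ∃ a : ℝ, 0 < a ∧ a * h = 1 := ⟨h⁻¹, by positivity, inv_mul_cancel₀ h0.ne'⟩
  have he : h ≤ e := le_of_mul_le_mul_left (by linarith) K0
  have ae : a * e ≤ 2 := by
    have : e ≤ 2 * h := le_of_mul_le_mul_left (by nlinarith) K0
    nlinarith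
  have g0 : ∀ u, h ≤ |u| → G (a * u) = 0 := fun u hu =>
    G0 _ (by rw [abs_mul, abs_of_pos a0]; nlinarith)
  have hr : h < π := by linarith
  have g1 : deriv (fun u => G (a * u)) = fun u => deriv G (a * u) * a := 
    funext fun x => (dsc Gs a x).deriv
  have g2 : ∀ x, deriv (deriv fun u => G (a * u)) x = deriv (deriv G) (a * x) * a * a := fun x => by
    rw [g1]
    exact ((dsc s1 a x).mul_const a).deriv
  have bd := pz_d g0 hr (C1 := (8 + 4 * C) / e) (C2 := (8 + 4 * C) / e ^ 2) (fun u => by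
      rw [g1, le_div_iff₀ h1, abs_mul, abs_of_pos a0, mul_assoc]
      nlinarith [mul_le_mul (hC (a * u)).1 ae (by positivity) C0])
    (fun u => by
      rw [g2, le_div_iff₀ (by positivity), abs_mul, abs_mul, abs_of_pos a0]
      have := mul_le_mul (hC (a * u)).2.1 (mul_le_mul ae ae (by positivity) zero_le_two)
        (by positivity) C0
      nlinarith)
  have per := pz_per g0 hr (Gs.comp (contDiff_const.mul contDiff_id))
  refine ⟨K, fun k => k * h, fun k => pz (fun u => G (a * u)) (k * h), ?_, fun k => per _,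
    fun k s => sub_nonneg.2 (smoothTransition.monotone (by linarith)), fun s => ?_,
    fun k s hs => g0 _ (by rw [abs_kk]; linarith), fun k s => (bd _ s).1, fun k s => (bd _ s).2⟩
  · rw [le_div_iff₀ h1]; linarith
  have P : Function.Periodic (fun s => ∑ k : Fin K, pz (fun u => G (a * u)) (k * h) s) (2 * π) :=
    fun s => Finset.sum_congr rfl fun k _ => (per _).per s
  obtain ⟨y, hy, e⟩ := P.exists_mem_Ico₀ two_pi_pos s
  refine e.trans ?_
  have key : ∀ k ∈ Finset.range K, pz (fun u => G (a * u)) (k * h) y =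
      G (a * y - k) + if k = 0 then G (a * y - K) else 0 := by
    intro k hk
    have k1 : (k : ℝ) + 1 ≤ K := by exact_mod_cast Finset.mem_range.1 hk
    have k0 : (0 : ℝ) ≤ k := k.cast_nonneg
    have q1 : ∀ m : ℝ, a * y - m = a * (y - m * h) := fun m => by linear_combination m * ha
    rw [q1, q1, hh]
    by_cases c : y - k * h ≤ 2 * π - h
    · rw [pz_eq g0 0 (by simp; exact abs_le.2 ⟨by nlinarith [hy.1], c⟩)]
      split_ifs with c0
      · rw [g0 (y - 2 * π) (le_abs.2 (Or.inr (by subst c0; simp at c; linarith)))]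
        simp
      · simp
    · have c0 : k = 0 := by
        have : (k : ℝ) < 1 := lt_of_mul_lt_mul_right (by linarith [hy.2]) h0.le
        exact Nat.lt_one_iff.1 (by exact_mod_cast this)
      subst c0
      simp only [Nat.cast_zero, zero_mul, sub_zero, if_true, not_le] at c ⊢
      rw [pz_eq g0 1 (by simp; exact abs_le.2 ⟨by linarith, by linarith [hy.2]⟩),
        g0 y (le_abs.2 (Or.inl (by linarith)))]
      simp
  rw [Fin.sum_univ_eq_sum_range (fun k => pz (fun u => G (a * u)) (k * h) y),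
    Finset.sum_congr rfl key, Finset.sum_add_distrib, Finset.sum_ite_eq',
    if_pos (Finset.mem_range.2 (by exact_mod_cast K0)),
    ← Finset.sum_range_succ (fun k => G (a * y - k)),
    Finset.sum_congr rfl (g := fun k : ℕ => smoothTransition (a * y - k + 1) -
      smoothTransition (a * y - (k + 1 : ℕ) + 1)) fun k _ => by
        rw [show a * y - (k + 1 : ℕ) + 1 = a * y - k by push_cast; ring],
    Finset.sum_range_sub' (fun k : ℕ => smoothTransition (a * y - k + 1)),
    smoothTransition.one_of_one_le (by simp; exact mul_nonneg a0.le hy.1),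
    smoothTransition.zero_of_nonpos (by push_cast; nlinarith [hy.2]), sub_zero]

end CUT

open CUT in
theorem st_cut : St_CUT := by
  obtain ⟨C, C0, h⟩ := prof
  obtain ⟨C', C1, h'⟩ := part
  refine ⟨1 + 4 * C + (8 + 4 * C'), by linarith, fun e1 e2 α h1 h2 h3 => ?_, fun e h1 h2 => ?_⟩
  · obtain ⟨b, hb⟩ := h e1 e2 α h1 h2 h3
    exact ⟨b, hb.per, hb.zero, hb.mono, hb.one, hb.b0, fun s => (hb.b1 s).trans (by linarith),
      fun s => (hb.b2 s).trans (div_le_div_of_nonneg_right (by linarith) h1.le)⟩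
  · obtain ⟨K, α, φ, hp⟩ := h' e h1 h2
    exact ⟨K, α, φ, hp.card.trans (div_le_div_of_nonneg_right (by linarith) h1.le), hp.per, hp.nn,
      hp.sum, hp.supp,
      fun k s => (hp.b1 k s).trans (div_le_div_of_nonneg_right (by linarith) h1.le),
      fun k s => (hp.b2 k s).trans (div_le_div_of_nonneg_right (by linarith) (by positivity))⟩

end Pool.Agent.Lib.IS2
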