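import Pool.Agent.Lib.IS2.Blue
import Pool.Agent.Lib.IS2.Base

/-! The double normal derivative of the Green function. -/

open scoped ContDiff ComplexConjugate Topology Real
open Complex MeasureTheory Set Filter Metric

noncomputable section

namespace Pool.Agent.Lib.IS2

namespace DBL

theorem lap_congr {u v : ℂ → ℝ} {x : ℂ} (h : u =ᶠ[𝓝 x] v) : lap u x = lap v x := by
  have e : ∀ w : ℂ, (fun z => fderiv ℝ u z w) =ᶠ[𝓝 x] fun z => fderiv ℝ v z w := fun w =>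
    (h.fderiv (𝕜 := ℝ)).mono fun z hz => by simp only [hz]
  simp only [lap, (e 1).fderiv_eq, (e I).fderiv_eq]

theorem lap_lin {u v : ℂ → ℝ} {x : ℂ} (hu : ContDiffAt ℝ 2 u x) (hv : ContDiffAt ℝ 2 v x)
    (a b : ℝ) : lap (fun z => a * u z + b * v z) x = a * lap u x + b * lap v x := by
  have d : ∀ {f : ℂ → ℝ}, ContDiffAt ℝ 2 f x → ∀ w : ℂ,
      DifferentiableAt ℝ (fun z => fderiv ℝ f z w) x := fun h w =>
    ((h.fderiv_right (m := 1) (by norm_num)).differentiableAt (by norm_num)).clm_apply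
      (differentiableAt_const w)
  have e : ∀ w : ℂ, (fun z => fderiv ℝ (fun z => a * u z + b * v z) z w) =ᶠ[𝓝 x]
      fun z => a * fderiv ℝ u z w + b * fderiv ℝ v z w := fun w => by
    filter_upwards [hu.eventually (by simp), hv.eventually (by simp)] with z h1 h2
    have h3 := (((h1.differentiableAt (by norm_num)).hasFDerivAt.const_mul a).fun_add
      ((h2.differentiableAt (by norm_num)).hasFDerivAt.const_mul b)).fderiv
    rw [h3]
    simp
  have f : ∀ w : ℂ, fderiv ℝ (fun z => fderiv ℝ (fun z => a * u z + b * v z) z w) x w =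
      a * fderiv ℝ (fun z => fderiv ℝ u z w) x w + b * fderiv ℝ (fun z => fderiv ℝ v z w) x w :=
    fun w => by
      rw [(e w).fderiv_eq, (((d hu w).hasFDerivAt.const_mul a).fun_add
        ((d hv w).hasFDerivAt.const_mul b)).fderiv]
      simp
  simp only [lap, f]
  ring

theorem lap_shift (u : ℂ → ℝ) (x y : ℂ) : lap (fun z => u (z - y)) x = lap u (x - y) := by
  have e : ∀ w : ℂ, (fun z => fderiv ℝ (fun z => u (z - y)) z w) =
      fun z => (fun z' => fderiv ℝ u z' w) (z - y) := fun w => funext fun z => by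
    rw [fderiv_comp_sub]
  simp only [lap]
  rw [e, e, fderiv_comp_sub (f := fun z' => fderiv ℝ u z' 1),
    fderiv_comp_sub (f := fun z' => fderiv ℝ u z' I)]

/-- a solution near a piece of the curve that vanishes on the curve -/
structure Loc (μ : ℝ) (γ : ℝ → ℂ) (Ω : Set ℂ) (p : ℂ) (ρ a : ℝ) (u : ℂ → ℝ) : Prop where
  cont : ContinuousOn u (closure Ω ∩ closedBall p ρ)
  c2 : ContDiffOn ℝ 2 u (Ω ∩ ball p ρ)
  eq : ∀ x ∈ Ω ∩ ball p ρ, μ ^ 2 * u x - lap u x = a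
  zero : ∀ t, γ t ∈ closedBall p ρ → u (γ t) = 0

variable {μ : ℝ} {γ : ℝ → ℂ} {Ω : Set ℂ} {p : ℂ} {ρ : ℝ}

theorem Loc.lin {u v : ℂ → ℝ} (ho : IsOpen Ω) (hu : Loc μ γ Ω p ρ 0 u) (hv : Loc μ γ Ω p ρ 0 v)
    (a b : ℝ) : Loc μ γ Ω p ρ 0 fun z => a * u z + b * v z where
  cont := (continuousOn_const.mul hu.cont).add (continuousOn_const.mul hv.cont)
  c2 := (contDiffOn_const.mul hu.c2).add (contDiffOn_const.mul hv.c2)
  eq x hx := by
    have m := (ho.inter isOpen_ball).mem_nhds hx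
    rw [lap_lin (hu.c2.contDiffAt m) (hv.c2.contDiffAt m)]
    linear_combination a * hu.eq x hx + b * hv.eq x hx
  zero t ht := by simp [hu.zero t ht, hv.zero t ht]

theorem bd (hM : St_MAX) (h : Pot μ γ Ω) (hρ : 0 < ρ) : ∃ C, 0 ≤ C ∧ ∀ s a η u,
    Loc μ γ Ω (γ s) ρ a u → 0 ≤ a → 0 ≤ η → (∀ x ∈ Ω ∩ ball (γ s) ρ, u x ≤ η) →
    ∀ y ∈ Ω ∩ ball (γ s) ρ, u y ≤ C * (η + a) * ‖y - γ s‖ := by
  obtain ⟨C, h0, hC⟩ := (hM μ h.pos).2.2 Ω γ ρ h.cd hρ
  refine ⟨C, h0, fun s a η u hu ha hη hb => hC s Ω u a η h.cd.opn le_rfl ha hη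
    (hu.cont.mono ((closure_inter_subset_inter_closure _ _).trans
      (inter_subset_inter_right _ closure_ball_subset_closedBall))) hu.c2
    (fun x hx => ⟨(hu.eq x hx).le, hb x hx⟩) fun x hx => ?_⟩
  obtain ⟨h1, h2⟩ := hx
  rw [h.cd.fr] at h1
  obtain ⟨t, rfl⟩ := h1
  exact (hu.zero t (ball_subset_closedBall h2)).le

/-- the Poisson kernel extended to the closure -/
def pe (μ : ℝ) (γ : ℝ → ℂ) (Ω : Set ℂ) (t : ℝ) (x : ℂ) : ℝ :=
  2 * DLk μ γ x t - 2 * Ue μ γ Ω (fun u => Kr μ γ u t) x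

theorem pe_eq (hP : St_POI) (h : Pot μ γ Ω) (t : ℝ) {x : ℂ} (hx : x ∈ Ω) :
    pe μ γ Ω t x = ps μ γ x t := (((hP μ γ Ω h).2.2.2.2.2.2.2.2 x hx).2.2.2 t).symm

theorem locP (hN : St_NEU) (hP : St_POI) (h : Pot μ γ Ω) {t : ℝ} (ht : γ t ∉ closedBall p ρ) :
    Loc μ γ Ω p ρ 0 (pe μ γ Ω t) := by
  obtain ⟨p1, -, -, -, -, p6, -, p8, -⟩ := hP μ γ Ω h
  obtain ⟨n1, n2, n3, -⟩ := hN μ γ Ω h
  refine ⟨?_, ((p6 t).1.mono inter_subset_left).congr fun x hx => pe_eq hP h t hx.1, fun x hx => ?_,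
    fun u hu => ?_⟩
  · exact p8.comp (f := fun x : ℂ => (x, t)) (by fun_prop)
      fun x hx => ⟨hx.1, fun e => ht ((show x = γ t from e) ▸ hx.2)⟩
  · rw [lap_congr (v := fun x => ps μ γ x t)
      ((h.cd.opn.eventually_mem hx.1).mono fun y hy => pe_eq hP h t hy), (p6 t).2 x hx.1,
      pe_eq hP h t hx.1, sub_self]
  · have hc : CP fun u => Kr μ γ u t :=
      ⟨n1.comp (f := fun u : ℝ => (u, t)) (by fun_prop), fun u => (n2 u t).1⟩
    rw [pe, n3 u t fun e => ht (e ▸ hu), (p1 _ hc).2.2.1 u, sub_self]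

theorem locR (hL : St_LAY) (hG : St_GRE) (h : Pot μ γ Ω) {y : ℂ} (hy : y ∈ Ω)
    (hb : y ∉ closedBall p ρ) : Loc μ γ Ω p ρ 0 fun x => Rg μ γ Ω x y := by
  obtain ⟨g1, -, -, g4⟩ := hG μ γ Ω h
  obtain ⟨⟨l1, -⟩, -⟩ := hL μ h.pos
  obtain ⟨k1, k2, -⟩ := g4 y hy
  have ne : ∀ x ∈ closedBall p ρ, x - y ∈ ({0}ᶜ : Set ℂ) := fun x hx e =>
    hb ((sub_eq_zero.1 e) ▸ hx)
  have cG : ContDiffOn ℝ 2 (fun x => Gr μ (x - y)) (closedBall p ρ) :=
    l1.1.comp (by fun_prop) ne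
  refine ⟨(cG.continuousOn.mono inter_subset_right).sub
    (g1.comp (f := fun x : ℂ => (x, y)) (by fun_prop) fun x hx => ⟨hx.1, hy⟩),
    (cG.mono fun x hx => ball_subset_closedBall hx.2).sub (k1.1.mono inter_subset_left),
    fun x hx => ?_, fun t _ => k2 t⟩
  have e : (fun x => Rg μ γ Ω x y) = fun x => 1 * Gr μ (x - y) + -1 * hR μ γ Ω x y := by
    funext x
    rw [Rg]
    ring
  rw [e, lap_lin (cG.contDiffAt (mem_of_superset (isOpen_ball.mem_nhds hx.2) ball_subset_closedBall))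
    (k1.1.contDiffAt (h.cd.opn.mem_nhds hx.1)), lap_shift, l1.2 _ (ne x (ball_subset_closedBall hx.2)),
    k1.2 x hx.1, Rg]
  ring

theorem symR (hG : St_GRE) (h : Pot μ γ Ω) {x y : ℂ} (hx : x ∈ Ω) (hy : y ∈ Ω) :
    Rg μ γ Ω x y = Rg μ γ Ω y x := by
  rw [Rg, Rg, (((hG μ γ Ω h).2.2.2 y hy).2.2.1 x hx).1, Gr, Gr, norm_sub_rev]

theorem far {a b x : ℂ} {δ : ℝ} (h : δ ≤ ‖a - b‖) (hx : ‖x - a‖ ≤ δ / 3) :
    2 * δ / 3 ≤ ‖x - b‖ := by
  have := norm_sub_le_norm_sub_add_norm_sub a x b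
  rw [norm_sub_rev a x] at this
  linarith

theorem not_mem {a x : ℂ} {δ : ℝ} (hδ : 0 < δ) (h : 2 * δ / 3 ≤ ‖x - a‖) :
    x ∉ closedBall a (δ / 3) := by
  rw [mem_closedBall, dist_eq_norm]
  linarith

theorem norm_off {j : ℝ} (hN : Nc j γ) (s : ℝ) {r : ℝ} (hr : 0 < r) :
    ‖γ s + r * nr γ s - γ s‖ = r := by
  simp [nr, hN.unit, hr.le]

theorem part2 (hL : St_LAY) (hM : St_MAX) (hN : St_NEU) (hP : St_POI) (hG : St_GRE)
    (h : Pot μ γ Ω) : ∀ δ > 0, ∃ C, ∀ s t, δ ≤ c0 γ s t → ∀ x ∈ Ω, ‖x - γ s‖ ≤ δ / 4 →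
      ps μ γ x t ≤ C * ‖x - γ s‖ ∧
      ∀ y ∈ Ω, ‖y - γ t‖ ≤ δ / 4 → Rg μ γ Ω x y ≤ C * ‖x - γ s‖ * ‖y - γ t‖ := by
  intro δ hδ
  obtain ⟨C, h0, hC⟩ := bd hM h (show 0 < δ / 3 by positivity)
  obtain ⟨C1, hC1⟩ := (hP μ γ Ω h).2.2.2.2.2.2.1
  obtain ⟨C2, hC2⟩ := (hL μ h.pos).1.2.2.2.2.2.1
  set η1 := |C1| * (1 + (2 * δ / 3)⁻¹) with e1
  set η2 := |C2| * (δ / 3) ^ (-(1 / 4) : ℝ) with e2
  have p1 : 0 ≤ η1 := by positivity
  have p2 : 0 ≤ η2 := by positivity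
  refine ⟨C * η1 + C * (C * η2), fun s t hst x hx hxs => ?_⟩
  have hst' : δ ≤ ‖γ t - γ s‖ := by rwa [norm_sub_rev]
  have xb : x ∈ Ω ∩ ball (γ s) (δ / 3) := ⟨hx, by rw [mem_ball, dist_eq_norm]; linarith⟩
  have nx := norm_nonneg (x - γ s)
  have q1 := mul_nonneg h0 p1
  have q2 := mul_nonneg h0 (mul_nonneg h0 p2)
  refine ⟨?_, fun y hy hyt => ?_⟩
  · have := hC s 0 η1 _ (locP hN hP h (t := t) (not_mem hδ (by linarith))) le_rfl p1
      (fun z hz => ?_) x xb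
    · rw [pe_eq hP h t hx, add_zero] at this
      nlinarith
    · have k := far hst (mem_ball_iff_norm.1 hz.2).le
      rw [pe_eq hP h t hz.1]
      refine (hC1 z hz.1 t).trans (mul_le_mul (le_abs_self _) ?_ (by positivity) (abs_nonneg _))
      gcongr
  · have s1 : ∀ z ∈ Ω ∩ ball (γ t) (δ / 3), Rg μ γ Ω z x ≤ C * η2 * ‖x - γ s‖ := fun z hz => by
      have k := far hst' (mem_ball_iff_norm.1 hz.2).le
      have := hC s 0 η2 _ (locR hL hG h hz.1 (not_mem hδ k)) le_rfl p2 (fun w hw => ?_) x xb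
      · rwa [add_zero, symR hG h hx hz.1] at this
      · have k2 : δ / 3 ≤ ‖w - z‖ := by
          have a := norm_sub_le_norm_sub_add_norm_sub z w (γ s)
          have b := mem_ball_iff_norm.1 hw.2
          rw [norm_sub_rev z w] at a
          linarith
        have k3 : w - z ≠ 0 := norm_pos_iff.1 (by linarith)
        have k4 := (((hG μ γ Ω h).2.2.2 z hz.1).2.2.1 w hw.1).2.1
        have k5 : |Gr μ (w - z)| ≤ η2 := (hC2 _ k3).trans (mul_le_mul (le_abs_self _)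
          (Real.rpow_le_rpow_of_nonpos (by positivity) k2 (by norm_num)) (by positivity)
          (abs_nonneg _))
        have := le_abs_self (Gr μ (w - z))
        show Gr μ (w - z) - hR μ γ Ω w z ≤ η2
        linarith
    have := hC t 0 _ _ (locR hL hG h hx (not_mem hδ (far hst (by linarith)))) le_rfl
      (by positivity) s1 y ⟨hy, by rw [mem_ball, dist_eq_norm]; linarith⟩
    rw [add_zero, ← symR hG h hx hy] at this
    have k := mul_nonneg q1 (mul_nonneg nx (norm_nonneg (y - γ t)))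
    nlinarith

theorem part3 (hV : St_VP) (hM : St_MAX) (hP : St_POI) (hG : St_GRE) (h : Pot μ γ Ω) :
    ∃ C, ∀ x ∈ Ω, ∀ s, IntegrableOn (Rg μ γ Ω x) Ω ∧ ∫ z in Ω, Rg μ γ Ω x z ≤ C * ‖x - γ s‖ := by
  have mΩ := h.cd.opn.measurableSet
  set F : ℂ → ℝ := Ω.indicator fun _ => 1 with hF
  have F2 : MemLp F 2 := memLp_indicator_const 2 mΩ 1 (Or.inr h.cd.bdd.measure_lt_top.ne)
  have F0 : ∀ z ∉ Ω, F z = 0 := fun z hz => indicator_of_notMem hz _
  have F1 : ∀ z ∈ Ω, F z = 1 := fun z hz => indicator_of_mem hz _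
  obtain ⟨R, hR⟩ := h.cd.bdd.exists_norm_le
  obtain ⟨v1, v2⟩ := hV μ F h.pos F2 ⟨R, fun z hz => F0 z fun e => (hR z e).not_gt hz⟩
  obtain ⟨v3, v4⟩ := v2 Ω h.cd.opn (contDiffOn_const.congr F1)
  have hc : CP fun t => Vp μ F (γ t) :=
    ⟨v1.comp h.cd.smooth.continuous, fun t => by simp only [h.cd.per t]⟩
  obtain ⟨u1, u2, u3, -⟩ := (hP μ γ Ω h).1 _ hc
  set u : ℂ → ℝ := fun x => 1 * Vp μ F x + -1 * Ue μ γ Ω (fun t => Vp μ F (γ t)) x with hu
  have uc : ContinuousOn u (closure Ω) :=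
    (continuousOn_const.mul v1.continuousOn).add (continuousOn_const.mul u1)
  obtain ⟨B, hB⟩ := h.cd.bdd.isCompact_closure.exists_bound_of_continuousOn uc
  have hB' : ∀ x ∈ Ω, u x ≤ |B| := fun x hx =>
    (le_abs_self _).trans ((hB x (subset_closure hx)).trans (le_abs_self _))
  obtain ⟨C, h0, hC⟩ := bd hM h one_pos
  refine ⟨C * (|B| + 1) + |B|, fun x hx s => ?_⟩
  obtain ⟨i1, i2⟩ := (hG μ γ Ω h).2.2.1 F F2 F0 x hx
  have e : EqOn (fun z => Rg μ γ Ω x z * F z) (Rg μ γ Ω x) Ω := fun z hz => by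
    simp only [F1 z hz, mul_one]
  refine ⟨i1.congr_fun e mΩ, ?_⟩
  have e2 : ∫ z in Ω, Rg μ γ Ω x z = u x := by
    rw [← setIntegral_congr_fun mΩ e, i2, hu]
    ring
  have nx := norm_nonneg (x - γ s)
  have q := mul_nonneg h0 (show 0 ≤ |B| + 1 by positivity)
  rw [e2]
  by_cases hb : ‖x - γ s‖ < 1
  · have := hC s 1 |B| u ⟨uc.mono inter_subset_left, ((contDiffOn_const.mul v3).add
      (contDiffOn_const.mul u2.1)).mono inter_subset_left, fun y hy => ?_, fun t _ => ?_⟩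
      zero_le_one (abs_nonneg _) (fun y hy => hB' y hy.1) x ⟨hx, mem_ball_iff_norm.2 hb⟩
    · nlinarith [abs_nonneg B]
    · have m := h.cd.opn.mem_nhds hy.1
      rw [hu, lap_lin (v3.contDiffAt m) (u2.1.contDiffAt m), u2.2 y hy.1]
      linear_combination v4 y hy.1 + F1 y hy.1
    · simp only [hu, u3 t]
      ring
  · have := hB' x hx
    rw [not_lt] at hb
    nlinarith [abs_nonneg B]

theorem part1 (hC : St_GC) (hL : St_LAY) (hM : St_MAX) (hN : St_NEU) (hP : St_POI) (hG : St_GRE)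
    (h1 : St_C1) (h2 : St_C2) {j : ℝ} (h : Pot μ γ Ω) (hj : Nc j γ) (hμ : 1 ≤ μ) :
    ∀ δ > 0, ∀ η > 0, ∃ r0 > 0, ∀ s t r r' : ℝ, 0 < r → r < r0 → 0 < r' → r' < r0 → δ ≤ c0 γ s t →
      γ s + r * nr γ s ∈ Ω ∧ γ t + r' * nr γ t ∈ Ω ∧
      |Rg μ γ Ω (γ s + r * nr γ s) (γ t + r' * nr γ t) / (r * r') - (NN μ γ t s).re| ≤ η := by
  intro δ hδ η hη
  obtain ⟨c, hc, -, -, g3, -⟩ := hC Ω γ h.cd
  obtain ⟨C, h0, hb⟩ := bd hM h (show 0 < δ / 3 by positivity)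
  obtain ⟨r1, p1, k1⟩ := h1 j μ γ Ω h hj (2 * δ / 3) (by positivity) (η / (2 * (C + 1)))
    (by positivity)
  obtain ⟨r2, p2, k2⟩ := h2 j μ γ Ω h hj hμ δ hδ (η / 2) (by positivity)
  refine ⟨min (min c (δ / 3)) (min r1 r2), by positivity, fun s t r r' a1 a2 b1 b2 hst => ?_⟩
  simp only [lt_min_iff] at a2 b2
  have hst' : δ ≤ ‖γ t - γ s‖ := by rwa [norm_sub_rev]
  have hx := (g3 s r a1 a2.1.1.le).1
  have hy := (g3 t r' b1 b2.1.1.le).1
  refine ⟨hx, hy, ?_⟩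
  set x := γ s + r * nr γ s with ex
  set y := γ t + r' * nr γ t with ey
  have ny : ‖y - γ t‖ = r' := norm_off hj t b1
  have nx : ‖x - γ s‖ = r := norm_off hj s a1
  have lR := locR (p := γ t) hL hG h hx (not_mem hδ (far hst (nx.trans_le a2.1.2.le)))
  have lP := locP (p := γ t) hN hP h (t := s) (not_mem hδ (by rw [c0] at hst; linarith))
  have key : ∀ σ : ℝ, |σ| = 1 → σ * (Rg μ γ Ω x y / r - ps μ γ y s) ≤
      C * (η / (2 * (C + 1))) * r' := fun σ hσ => by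
    have e : ∀ z ∈ Ω, σ / r * Rg μ γ Ω z x + -σ * pe μ γ Ω s z =
        σ * (Rg μ γ Ω x z / r - ps μ γ z s) := fun z hz => by
      rw [pe_eq hP h s hz, symR hG h hz hx]
      ring
    have := hb t 0 (η / (2 * (C + 1))) _ (lR.lin h.cd.opn lP (σ / r) (-σ)) le_rfl (by positivity)
      (fun z hz => ?_) y ⟨hy, mem_ball_iff_norm.2 (ny.trans_lt b2.1.2)⟩
    · rwa [e y hy, add_zero, ny] at this
    · rw [e z hz.1]
      refine (le_abs_self _).trans ?_
      rw [abs_mul, hσ, one_mul]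
      exact k1 s z hz.1 r a1 a2.2.1 (far hst' (mem_ball_iff_norm.1 hz.2).le)
  have m1 : C * (η / (2 * (C + 1))) ≤ η / 2 := by
    rw [mul_div_assoc', div_le_div_iff₀ (by positivity) (by positivity)]
    nlinarith
  have m2 : |Rg μ γ Ω x y / (r * r') - ps μ γ y s / r'| ≤ η / 2 := by
    have e : Rg μ γ Ω x y / (r * r') - ps μ γ y s / r' = (Rg μ γ Ω x y / r - ps μ γ y s) / r' := by
      field_simp
    have m3 := mul_le_mul_of_nonneg_right m1 b1.le
    rw [e, abs_div, abs_of_pos b1, div_le_iff₀ b1, abs_le]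
    constructor
    · linarith [key (-1) (by simp)]
    · linarith [key 1 (by simp)]
  have m4 := (abs_re_le_norm _).trans (k2 t s r' b1 b2.2.2 hst')
  rw [sub_re, ofReal_re] at m4
  have := abs_sub_le (Rg μ γ Ω x y / (r * r')) (ps μ γ y s / r') (NN μ γ t s).re
  linarith

end DBL

open DBL in
theorem st_dbl (hC : St_GC) (hL : St_LAY) (hV : St_VP) (hM : St_MAX) (hN : St_NEU) (hP : St_POI)
    (hG : St_GRE) (h1 : St_C1) (h2 : St_C2) : St_DBL := by
  intro j μ γ Ω h hj hμ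
  have p1 := part1 hC hL hM hN hP hG h1 h2 h hj hμ
  obtain ⟨c, hc, -, -, g3, -⟩ := hC Ω γ h.cd
  have pos : ∀ s t, γ s ≠ γ t → 0 < c0 γ s t := fun s t e => norm_pos_iff.2 (sub_ne_zero.2 e)
  have sy : ∀ s t, c0 γ s t = c0 γ t s := fun s t => norm_sub_rev _ _
  have re : ∀ s t, γ s ≠ γ t → (NN μ γ s t).re = (NN μ γ t s).re := fun s t e => by
    refine eq_of_forall_dist_le fun η hη => ?_
    obtain ⟨r0, a, k⟩ := p1 _ (pos s t e) (η / 2) (by positivity)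
    obtain ⟨hx, hy, k1⟩ := k s t (r0 / 2) (r0 / 2) (by positivity) (by linarith) (by positivity)
      (by linarith) le_rfl
    obtain ⟨-, -, k2⟩ := k t s (r0 / 2) (r0 / 2) (by positivity) (by linarith) (by positivity)
      (by linarith) (sy s t).le
    rw [symR hG h hy hx, abs_sub_comm] at k2
    exact (abs_sub_le _ _ _).trans ((add_le_add k2 k1).trans_eq (by ring))
  have ap : ∀ s t, γ s ≠ γ t → ∀ η > 0, ∃ a : ℝ, 0 ≤ a ∧ ‖(a : ℂ) - NN μ γ s t‖ ≤ η :=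
    fun s t e η hη => by
      obtain ⟨r0, a, k⟩ := h2 j μ γ Ω h hj hμ _ (pos s t e) η hη
      have b : 0 < min c (r0 / 2) := by positivity
      exact ⟨_, div_nonneg (((hP μ γ Ω h).2.2.2.2.2.2.2.2 _
        (g3 s _ b (min_le_left _ _)).1).2.1 t) b.le,
        k s t _ b ((min_le_right _ _).trans_lt (by linarith)) le_rfl⟩
  have im : ∀ s t, γ s ≠ γ t → (NN μ γ s t).im = 0 := fun s t e => by
    refine eq_of_forall_dist_le fun η hη => ?_
    obtain ⟨a, -, k⟩ := ap s t e η hη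
    have := (abs_im_le_norm _).trans k
    simpa using this
  refine ⟨fun δ hδ η hη => ?_, part2 hL hM hN hP hG h, part3 hV hM hP hG h,
    fun s t e => ⟨Complex.ext (re s t e) (by rw [im s t e, im t s e.symm]), im s t e, ?_⟩, ?_⟩
  · obtain ⟨r0, a, k⟩ := p1 δ hδ η hη
    refine ⟨r0, a, fun s t r r' a1 a2 b1 b2 hst => ?_⟩
    rw [re s t (sub_ne_zero.1 (norm_pos_iff.1 (hδ.trans_le hst)))]
    exact (k s t r r' a1 a2 b1 b2 hst).2.2
  · refine le_of_forall_pos_le_add fun η hη => ?_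
    obtain ⟨a, a0, k⟩ := ap s t e η hη
    have := (abs_le.1 ((abs_re_le_norm _).trans k)).2
    rw [sub_re, ofReal_re] at this
    linarith
  · have cγ := h.cd.smooth.continuous
    have cn : Continuous (nr γ) := continuous_const.mul hj.s1.continuous
    have cc : Continuous fun p : ℝ × ℝ => c0 γ p.1 p.2 := by
      unfold c0
      fun_prop
    have on : ∀ δ > 0, ContinuousOn (fun p : ℝ × ℝ => (NN μ γ p.1 p.2).re)
        {p | δ < c0 γ p.1 p.2} := fun δ hδ => by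
      refine continuousOn_of_uniform_approx_of_continuousOn fun U hU => ?_
      obtain ⟨η, hη, hU⟩ := mem_uniformity_dist.1 hU
      obtain ⟨r0, a, k⟩ := h2 j μ γ Ω h hj hμ δ hδ (η / 2) (by positivity)
      have b : 0 < min c (r0 / 2) := by positivity
      refine ⟨fun p => ps μ γ (γ p.1 + (min c (r0 / 2) : ℝ) * nr γ p.1) p.2 / min c (r0 / 2),
        (Continuous.div_const ?_ _).continuousOn, fun p hp => hU ?_⟩
      · exact (hP μ γ Ω h).2.2.2.2.1.comp_continuous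
          (f := fun p : ℝ × ℝ => (γ p.1 + (min c (r0 / 2) : ℝ) * nr γ p.1, p.2)) (by fun_prop)
          fun p => ⟨(g3 p.1 _ b (min_le_left _ _)).1, mem_univ _⟩
      · have := (abs_re_le_norm _).trans
          (k p.1 p.2 _ b ((min_le_right _ _).trans_lt (by linarith)) (le_of_lt hp))
        rw [sub_re, ofReal_re, abs_sub_comm] at this
        rw [Real.dist_eq]
        linarith
    intro p hp
    have q := pos p.1 p.2 hp
    exact ((on _ (half_pos q)).continuousAt ((isOpen_lt continuous_const cc).mem_nhds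
      (half_lt_self q))).continuousWithinAt

end Pool.Agent.Lib.IS2
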