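import Pool.Agent.Lib.IS2.Blue

/-! The complex deformation of the parameter. -/

open scoped ContDiff ComplexConjugate Topology Real
open Complex MeasureTheory Set Filter

noncomputable section

namespace Pool.Agent.Lib.IS2

open Pool.Agent.Lib.ISO

namespace DEF

theorem three {Q : ℝ → C2} (h : Q ∈ SP) (s : ℝ) :
    ‖Q s‖ ≤ nm Q ∧ ‖deriv Q s‖ ≤ nm Q ∧ ‖deriv (deriv Q) s‖ ≤ nm Q := by
  have := le_nm h s
  have a := norm_nonneg (Q s)
  have b := norm_nonneg (deriv Q s)
  have c := norm_nonneg (deriv (deriv Q) s)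
  exact ⟨by linarith, by linarith, by linarith⟩

theorem cp_sp {j : ℝ} {γ : ℝ → ℂ} (h : Nc j γ) : cp γ ∈ SP := cp_mem h.smooth h.per

variable {B y η : ℝ} {P : ℂ → C2} {p : ℝ → C2} {b : ℝ → ℝ}

theorem pz_sp (hP : Str B y η P) (hp : p ∈ SP) (hb : Per (2 * π) b) (ζ : ℂ) : Pz P p b ζ ∈ SP := by
  refine ⟨ContDiff.add (((hP.hol.contDiff (n := ∞)).restrict_scalars ℝ).comp
    (ofRealCLM.contDiff.add (contDiff_const.mul (ofRealCLM.contDiff.comp hb.smooth)))) hp.1,
    fun s => ?_⟩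
  rw [Pz, Pz, hb.per, hp.2 s, ← hP.per (s + ζ * b s)]
  congr 2
  push_cast
  ring

theorem rs_sp (hP : Str B y η P) : rs P ∈ SP := by
  have := pz_sp (b := fun _ => 0) hP SP.zero_mem ⟨contDiff_const, fun _ => rfl⟩ 0
  convert this using 1
  funext s
  simp [rs, Pz]

theorem hd_phi {b : ℝ → ℝ} (hb : Differentiable ℝ b) (c ζ : ℂ) (s : ℝ) :
    HasDerivAt (fun s : ℝ => c + ζ * b s) (ζ * deriv b s) s :=
  ((hb s).hasDerivAt.ofReal_comp.const_mul ζ).const_add c

theorem hd_comp {P : ℂ → C2} (hP : Differentiable ℂ P) (hb : Differentiable ℝ b) (ζ : ℂ) (s : ℝ) :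
    HasDerivAt (fun s : ℝ => P (s + ζ * b s)) ((1 + ζ * deriv b s) • deriv P (s + ζ * b s)) s :=
  (hP _).hasDerivAt.scomp s
    ((hasDerivAt_id s).ofReal_comp.fun_add ((hb s).hasDerivAt.ofReal_comp.const_mul ζ))

theorem hol' (hP : Str B y η P) : Differentiable ℂ (deriv P) := fun v =>
  (hP.hol.analyticAt v).deriv.differentiableAt

theorem d_rs (hP : Str B y η P) (s : ℝ) : deriv (rs P) s = deriv P s := by
  have := (hd_comp (b := fun _ => 0) hP.hol (differentiable_const _) 0 s).deriv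
  simp only [ofReal_zero, mul_zero, add_zero, zero_mul, one_smul] at this
  exact this

theorem d1 (hP : Str B y η P) (hp : p ∈ SP) (hb : Per (2 * π) b) (ζ : ℂ) :
    deriv (Pz P p b ζ) = fun s => (1 + ζ * deriv b s) • deriv P (s + ζ * b s) + deriv p s :=
  funext fun s => ((hd_comp hP.hol (hb.smooth.differentiable (by simp)) ζ s).fun_add
    (hp.1.differentiable (by simp) s).hasDerivAt).deriv

theorem d2 (hP : Str B y η P) (hp : p ∈ SP) (hb : Per (2 * π) b) (ζ : ℂ) (s : ℝ) :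
    deriv (deriv (Pz P p b ζ)) s = (1 + ζ * deriv b s) • ((1 + ζ * deriv b s) •
      deriv (deriv P) (s + ζ * b s)) + (ζ * deriv (deriv b) s) • deriv P (s + ζ * b s) +
      deriv (deriv p) s := by
  rw [d1 hP hp hb]
  exact (((hd_phi ((hb.smooth.deriv' (n := ∞)).differentiable (by simp)) 1 ζ s).fun_smul
    (hd_comp (hol' hP) (hb.smooth.differentiable (by simp)) ζ s)).fun_add
    ((hp.1.deriv' (n := ∞)).differentiable (by simp) s).hasDerivAt).deriv

theorem strip (y : ℝ) : Convex ℝ {v : ℂ | |v.im| ≤ y} := by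
  have := (convex_halfSpace_im_ge (-y)).inter (convex_halfSpace_im_le y)
  convert this using 1
  ext v
  simp [abs_le]

theorem lip0 (hP : Str B y η P) {u v : ℂ} (hu : |u.im| ≤ y) (hv : |v.im| ≤ y) :
    ‖P v - P u‖ ≤ 2 * ‖v - u‖ :=
  (strip y).norm_image_sub_le_of_norm_deriv_le (fun x _ => hP.hol x) hP.s1 hu hv

theorem lip1 (hP : Str B y η P) {u v : ℂ} (hu : |u.im| ≤ y) (hv : |v.im| ≤ y) :
    ‖deriv P v - deriv P u‖ ≤ B * ‖v - u‖ :=
  (strip y).norm_image_sub_le_of_norm_deriv_le (fun x _ => hol' hP x) hP.s2 hu hv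

/-- the square of the chord -/
theorem chord (hP : Str B y η P) {z w : ℂ} (hz : |z.im| ≤ y) (hw : |w.im| ≤ y) :
    ‖(P w - P z).1 * (P w - P z).2 - (w - z) ^ 2‖ ≤
      (2 * η + (B * (2 * ‖w - z‖)) ^ 2) * ‖w - z‖ * ‖w - z‖ := by
  set r := ‖w - z‖
  have hS := (strip y).inter (convex_closedBall z r)
  have hzS : z ∈ {v : ℂ | |v.im| ≤ y} ∩ Metric.closedBall z r :=
    ⟨hz, Metric.mem_closedBall_self (norm_nonneg _)⟩
  have hB : 0 ≤ B := (norm_nonneg _).trans (hP.s2 z hz)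
  have hη : 0 ≤ η := (norm_nonneg _).trans (hP.s3 z hz)
  have f1 : ∀ u, HasDerivAt (fun u => (P u).1) (deriv P u).1 u := fun u => (hP.hol u).hasDerivAt.fst
  have f2 : ∀ u, HasDerivAt (fun u => (P u).2) (deriv P u).2 u := fun u => (hP.hol u).hasDerivAt.snd
  have k : ∀ v ∈ {v : ℂ | |v.im| ≤ y} ∩ Metric.closedBall z r,
      ‖(deriv P v).1 * ((P v).2 - (P z).2) + ((P v).1 - (P z).1) * (deriv P v).2 - 2 * (v - z)‖ ≤
        (2 * η + (B * (2 * r)) ^ 2) * r := by
    intro v hv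
    have := hS.norm_image_sub_le_of_norm_hasDerivWithin_le
      (f := fun u => (deriv P v).1 * ((P v).2 - (P u).2) + ((P v).1 - (P u).1) * (deriv P v).2 -
        2 * (v - u)) (C := 2 * η + (B * (2 * r)) ^ 2)
      (fun u _ => (((((f2 u).const_sub _).const_mul _).fun_add
        (((f1 u).const_sub _).mul_const _)).fun_sub
        (((hasDerivAt_id u).const_sub v).const_mul 2)).hasDerivWithinAt) (fun u hu => ?_) hv hzS
    · simp only [sub_self, mul_zero, zero_mul, add_zero, sub_zero] at this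
      refine this.trans (mul_le_mul_of_nonneg_left ?_ (by positivity))
      rw [norm_sub_rev]
      exact mem_closedBall_iff_norm.1 hv.2
    · have e : (deriv P v).1 * -(deriv P u).2 + -(deriv P u).1 * (deriv P v).2 - 2 * -1 =
          (deriv P v - deriv P u).1 * (deriv P v - deriv P u).2 -
            ((deriv P u).1 * (deriv P u).2 - 1) - ((deriv P v).1 * (deriv P v).2 - 1) := by
        simp only [Prod.fst_sub, Prod.snd_sub]
        ring
      have h1 : ‖deriv P v - deriv P u‖ ≤ B * (2 * r) := by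
        refine (lip1 hP hu.1 hv.1).trans (mul_le_mul_of_nonneg_left ?_ hB)
        have := norm_sub_le_norm_sub_add_norm_sub v z u
        have a := mem_closedBall_iff_norm.1 hv.2
        have c := mem_closedBall_iff_norm'.1 hu.2
        linarith
      have h2 : ‖(deriv P v - deriv P u).1 * (deriv P v - deriv P u).2‖ ≤ (B * (2 * r)) ^ 2 := by
        rw [norm_mul, sq]
        exact mul_le_mul ((norm_fst_le _).trans h1) ((norm_snd_le _).trans h1) (norm_nonneg _)
          (by positivity)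
      rw [e]
      refine (norm_sub_le _ _).trans ((add_le_add_left (norm_sub_le _ _) _).trans ?_)
      linarith [hP.s3 u hu.1, hP.s3 v hv.1]
  have := hS.norm_image_sub_le_of_norm_hasDerivWithin_le
    (f := fun v => ((P v).1 - (P z).1) * ((P v).2 - (P z).2) - (v - z) ^ 2)
    (fun v _ => HasDerivAt.hasDerivWithinAt ?_) k hzS
    (mem_inter hw (mem_closedBall_iff_norm.2 le_rfl))
  · simpa using this
  · exact ((((f1 v).sub_const (P z).1).fun_mul ((f2 v).sub_const (P z).2)).fun_sub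
      (((hasDerivAt_id' v).sub_const z).fun_pow 2)).congr_deriv (by simp)

/-- the square root stays near `δ` -/
theorem root {x δ : ℂ} {ε : ℝ} (h : ‖x - δ ^ 2‖ ≤ ε * ‖δ‖ * ‖δ‖) (hδ : ‖δ‖ ≤ 2 * δ.re) :
    ‖x ^ (1 / 2 : ℂ) - δ‖ ≤ 2 * ε * ‖δ‖ := by
  set c := x ^ (1 / 2 : ℂ) with hc
  have h1 : c ^ 2 = x := by
    rw [hc, show (1 / 2 : ℂ) = ((2 : ℕ) : ℂ)⁻¹ by norm_num, cpow_nat_inv_pow _ two_ne_zero]
  have h2 : 0 ≤ c.re := by
    rw [hc, show (1 / 2 : ℂ) = (2 : ℂ)⁻¹ by norm_num, cpow_inv_two_re]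
    positivity
  rcases (norm_nonneg δ).eq_or_lt with h0 | h0
  · rw [← h0, mul_zero, ← h1, norm_eq_zero.1 h0.symm] at h
    rw [← h0, mul_zero, norm_eq_zero.1 h0.symm]
    simpa using h
  have h3 : ‖δ‖ ≤ 2 * ‖c + δ‖ := by
    have := re_le_norm (c + δ)
    rw [add_re] at this
    linarith
  rw [← h1, sq_sub_sq, norm_mul] at h
  refine le_of_mul_le_mul_right ?_ h0
  nlinarith [norm_nonneg (c - δ)]

theorem mvt (hb : Differentiable ℝ b) {s t : ℝ} (h : s ≤ t) :
    ∃ ξ ∈ Icc s t, b t - b s = deriv b ξ * (t - s) := by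
  rcases h.eq_or_lt with rfl | h
  · exact ⟨s, left_mem_Icc.2 le_rfl, by simp⟩
  obtain ⟨ξ, h1, h2⟩ := exists_deriv_eq_slope b h hb.continuous.continuousOn hb.differentiableOn
  exact ⟨ξ, Ioo_subset_Icc_self h1, by rw [h2, div_mul_cancel₀ _ (sub_pos.2 h).ne']⟩

/-- the rise of the profile -/
theorem rise {C e1 e2 α : ℝ} (hb : Bf C e1 e2 α b) (h0 : 0 ≤ e1) (h12 : 3 / 2 * e1 ≤ e2) {s t : ℝ}
    (hs : |s - α| ≤ e2) (ht : |t - α| ≤ e2) (h : s ≤ t) : t - s - 3 * e1 ≤ b t - b s := by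
  have hd := hb.per.smooth.differentiable (by simp)
  have k : ∀ u, |u - α| ≤ e2 → b u - b (max (α - 3 / 2 * e1) (min u (α + 3 / 2 * e1))) =
      u - max (α - 3 / 2 * e1) (min u (α + 3 / 2 * e1)) := by
    intro u hu
    rw [abs_le] at hu
    rcases le_total u (α - 3 / 2 * e1) with h1 | h1
    · rw [max_eq_left ((min_le_left _ _).trans h1)]
      obtain ⟨ξ, h2, h3⟩ := mvt hd h1
      rw [hb.one ξ (le_abs.2 (Or.inr (by linarith [h2.2])))
        (abs_le.2 ⟨by linarith [h2.1], by linarith [h2.2]⟩)] at h3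
      linarith
    rcases le_total u (α + 3 / 2 * e1) with h4 | h4
    · rw [min_eq_left h4, max_eq_right h1, sub_self, sub_self]
    · rw [min_eq_right h4, max_eq_right (by linarith)]
      obtain ⟨ξ, h2, h3⟩ := mvt hd h4
      rw [hb.one ξ (le_abs.2 (Or.inl (by linarith [h2.1])))
        (abs_le.2 ⟨by linarith [h2.1], by linarith [h2.2]⟩)] at h3
      linarith
  have a1 := k s hs
  have a2 := k t ht
  have a3 := le_max_left (α - 3 / 2 * e1) (min s (α + 3 / 2 * e1))
  have a4 : max (α - 3 / 2 * e1) (min t (α + 3 / 2 * e1)) ≤ α + 3 / 2 * e1 :=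
    max_le (by linarith) (min_le_right _ _)
  have a5 : max (α - 3 / 2 * e1) (min s (α + 3 / 2 * e1)) ≤
      max (α - 3 / 2 * e1) (min t (α + 3 / 2 * e1)) := by gcongr
  obtain ⟨ξ, h2, h3⟩ := mvt hd a5
  have := mul_nonneg (hb.mono ξ (abs_le.2 ⟨by linarith [h2.1], by linarith [h2.2]⟩)) (sub_nonneg.2 a5)
  linarith

theorem pc_symm (Q : ℝ → C2) (s t : ℝ) : pc Q s t = pc Q t s := by
  simp only [pc, dot, pD, Prod.fst_sub, Prod.snd_sub]
  congr 1
  ring

/-- the gain for ordered parameters -/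
theorem gain {C e1 e2 α τ : ℝ} (hP : Str B y η P) (hp : p ∈ SP) (hn : nm p ≤ η) (hη : η ≤ 1)
    (hb : Bf C e1 e2 α b) (h0 : 0 ≤ e1) (h12 : 3 / 2 * e1 ≤ e2) (hτ : 0 ≤ τ) (hC : τ * C ≤ 1)
    (hy : τ * (2 * e2) ≤ y) {s t : ℝ} (hs : |s - α| ≤ e2) (ht : |t - α| ≤ e2) (h : s ≤ t) :
    τ * (t - s) - (3 * (τ * e1) + 56 * (η * e2) + 512 * B ^ 2 * e2 ^ 3) ≤
      -(pc (Pz P p b (-I * τ)) s t).im := by
  have hd := hb.per.smooth.differentiable (by simp)
  have him : ∀ u : ℝ, |(u + -I * τ * b u : ℂ).im| ≤ y := fun u => by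
    have : (u + -I * τ * b u : ℂ).im = -(τ * b u) := by simp
    rw [this, abs_neg, abs_mul, abs_of_nonneg hτ]
    exact (mul_le_mul_of_nonneg_left (hb.b0 u) hτ).trans hy
  have hη0 : 0 ≤ η := (norm_nonneg _).trans (hP.s3 _ (him s))
  have hts : t - s ≤ 2 * e2 := by linarith [(abs_le.1 hs).1, (abs_le.1 ht).2]
  have hts0 := sub_nonneg.2 h
  set z : ℂ := s + -I * τ * b s with hz
  set w : ℂ := t + -I * τ * b t with hw
  have hre : (w - z).re = t - s := by simp [hz, hw]
  have hi : (w - z).im = -(τ * (b t - b s)) := by simp [hz, hw]; ring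
  have hδ : ‖w - z‖ ≤ 2 * (t - s) := by
    refine (norm_le_abs_re_add_abs_im _).trans ?_
    obtain ⟨ξ, -, e⟩ := mvt hd h
    rw [hre, hi, abs_of_nonneg hts0, abs_neg, e, abs_mul, abs_mul, abs_of_nonneg hτ,
      abs_of_nonneg hts0, ← mul_assoc]
    have := mul_le_mul_of_nonneg_right ((mul_le_mul_of_nonneg_left (hb.b1 ξ) hτ).trans hC) hts0
    linarith
  have hδ' : t - s ≤ ‖w - z‖ := hre ▸ re_le_norm _
  have hpp : ‖p t - p s‖ ≤ η * ‖w - z‖ := by
    refine (convex_univ.norm_image_sub_le_of_norm_deriv_le (C := η)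
      (fun x _ => hp.1.differentiable (by simp) x) (fun x _ => (three hp x).2.1.trans hn)
      (mem_univ s) (mem_univ t)).trans (mul_le_mul_of_nonneg_left ?_ hη0)
    rwa [Real.norm_eq_abs, abs_of_nonneg hts0]
  have hPP := lip0 hP (him s) (him t)
  have hch := chord hP (him s) (him t)
  rw [← hz, ← hw] at hPP hch
  set r := ‖w - z‖
  have hr : 0 ≤ r := norm_nonneg _
  have key : ‖dot (pD (Pz P p b (-I * τ)) s t) (pD (Pz P p b (-I * τ)) s t) - (w - z) ^ 2‖ ≤
      (7 * η + (B * (2 * r)) ^ 2) * r * r := by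
    have e : dot (pD (Pz P p b (-I * τ)) s t) (pD (Pz P p b (-I * τ)) s t) - (w - z) ^ 2 =
        ((P w - P z).1 * (P w - P z).2 - (w - z) ^ 2) + ((P w - P z).1 * (p t - p s).2 +
          ((p t - p s).1 * (P w - P z).2 + (p t - p s).1 * (p t - p s).2)) := by
      simp only [dot, pD, Pz, ← hz, ← hw, Prod.fst_sub, Prod.snd_sub, Prod.fst_add, Prod.snd_add]
      ring
    have m : ∀ {u v : C2} {a c : ℝ}, ‖u‖ ≤ a → ‖v‖ ≤ c → ‖u.1 * v.2‖ ≤ a * c := fun h1 h2 => by
      rw [norm_mul]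
      exact mul_le_mul ((norm_fst_le _).trans h1) ((norm_snd_le _).trans h2) (norm_nonneg _)
        ((norm_nonneg _).trans h1)
    rw [e]
    refine (norm_add_le_of_le hch (norm_add_le_of_le (m hPP hpp)
      (norm_add_le_of_le (m hpp hPP) (m hpp hpp)))).trans ?_
    have := mul_le_mul_of_nonneg_right hη (mul_nonneg hη0 (mul_nonneg hr hr))
    nlinarith
  have k1 := root key (hre ▸ hδ)
  have k2 := (le_abs_self _).trans ((abs_im_le_norm _).trans k1)
  rw [sub_im, hi] at k2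
  have k3 := mul_le_mul_of_nonneg_left (rise hb h0 h12 hs ht h) hτ
  have hr4 : r ≤ 4 * e2 := by linarith
  have k4 : η * r ≤ η * (4 * e2) := by gcongr
  have k5 : B ^ 2 * r ^ 3 ≤ B ^ 2 * (4 * e2) ^ 3 := by gcongr
  unfold pc
  nlinarith

theorem par {q : ℕ} (hq : 6 ≤ q) {h : ℝ} (h1 : 1 ≤ h) : 0 < om q h ∧ 0 < Tt q h ∧ Tt q h ≤ 1 ∧
    Tt q h ^ 3 ≤ (om q h)⁻¹ ∧ vt q h * Tt q h = h / om q h ∧ 0 < vt q h ∧ vt q h ≤ h⁻¹ ∧
    h / om q h ≤ h⁻¹ ∧ vt q h * h ≤ Tt q h := by
  have h0 : 0 < h := by linarith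
  have pw : ∀ {a c : ℕ}, a ≤ c → h ^ a ≤ h ^ c := fun hh => pow_le_pow_right₀ h1 hh
  unfold vt om Tt
  refine ⟨by positivity, by positivity, inv_le_one_of_one_le₀ (one_le_pow₀ h1), ?_, by field_simp,
    by positivity, ?_, ?_, ?_⟩
  · rw [inv_pow, ← pow_mul]
    exact inv_anti₀ (by positivity) (pw (by omega))
  · rw [div_le_iff₀ (by positivity), ← div_eq_mul_inv, inv_mul_eq_div, div_div,
      le_div_iff₀ (by positivity)]
    exact le_of_eq_of_le (by ring) (pw (by omega : q + 4 ≤ 3 * q))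
  · rw [div_le_iff₀ (by positivity), inv_mul_eq_div, le_div_iff₀ h0]
    exact le_of_eq_of_le (by ring) (pw (by omega : 2 ≤ 3 * q))
  · rw [div_mul_eq_mul_div, div_le_iff₀ (by positivity), ← div_eq_mul_inv, inv_mul_eq_div, div_div,
      le_div_iff₀ (by positivity)]
    exact le_of_eq_of_le (by ring) (pw (by omega : 2 * q + 6 ≤ 3 * q))

end DEF

open DEF in
theorem st_def : St_DEF := by
  intro j B Cb q hq
  refine ⟨4 * B + 2 * Cb + 1, 1126 + 4096000 * B ^ 2,
    1 + 2 * |Cb| + 40 * |j| * (4 * |Cb| + 80 * |B| + 2), fun h hh γ P p α b hγ hP hn hp hnp hb => ?_⟩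
  have hj := hγ.one_le
  have hC : 0 ≤ Cb := (abs_nonneg _).trans (hb.b1 0)
  have h1 : 1 ≤ h := le_trans (by
    have : 0 ≤ 2 * |Cb| + 40 * |j| * (4 * |Cb| + 80 * |B| + 2) := by positivity
    linarith) hh
  have h0 : 0 < h := by linarith
  obtain ⟨o0, T0, T1, T3, vT, v0, v1, o1, vh⟩ := par hq h1
  have hB : 0 ≤ B := (norm_nonneg _).trans (hP.s2 0 (by simp only [zero_im, abs_zero]; positivity))
  rw [abs_of_nonneg hC, abs_of_nonneg hB, abs_of_nonneg (by linarith : 0 ≤ j)] at hh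
  have hh2 : 0 ≤ 40 * j * (4 * Cb + 80 * B + 2) := by positivity
  have oh : (om q h)⁻¹ ≤ h / om q h := by
    rw [div_eq_mul_inv]
    exact le_mul_of_one_le_left (by positivity) h1
  have vC : 2 * vt q h * Cb ≤ 2 * Cb * h⁻¹ := by nlinarith
  have vC1 : 2 * Cb * h⁻¹ ≤ 1 := by
    rw [← div_eq_mul_inv, div_le_one h0]
    linarith
  refine ⟨fun ζ hζ => ?_, fun s => ⟨?_, ?_⟩, ?_⟩
  · have nb : ∀ {x c : ℝ}, |x| ≤ c → ‖ζ * x‖ ≤ 2 * vt q h * c := fun hx => by
      rw [norm_mul, norm_real, Real.norm_eq_abs]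
      exact mul_le_mul hζ.le hx (abs_nonneg _) (by positivity)
    have n0 : ∀ s, ‖ζ * b s‖ ≤ 80 * (h / om q h) := fun s =>
      (nb (hb.b0 s)).trans (le_of_eq (by rw [← vT]; ring))
    have hs : ∀ s : ℝ, |(s : ℂ).im| ≤ 100 * h / om q h := fun s => by
      simp only [ofReal_im, abs_zero]; positivity
    have hφ : ∀ s : ℝ, |(s + ζ * b s : ℂ).im| ≤ 100 * h / om q h := fun s => by
      rw [add_im, ofReal_im, zero_add, mul_div_assoc]
      have := (abs_im_le_norm _).trans (n0 s)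
      have : 0 ≤ h / om q h := by positivity
      linarith
    have n1 : ∀ s, ‖(1 + ζ * deriv b s : ℂ)‖ ≤ 2 := fun s =>
      (norm_add_le_of_le norm_one.le ((nb (hb.b1 s)).trans (vC.trans vC1))).trans (by norm_num)
    have hm := SP.sub_mem (rs_sp hP) (cp_sp hγ)
    refine ⟨pz_sp hP hp hb.per ζ, fun s => ?_, fun s => ?_, fun s => ?_⟩
    · have e : Pz P p b ζ s - cp γ s = (P (s + ζ * b s) - P s) + ((rs P - cp γ) s + p s) := by
        simp only [Pz, rs, Pi.sub_apply]
        abel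
      have a := lip0 hP (hs s) (hφ s)
      rw [add_sub_cancel_left] at a
      rw [e, mul_div_assoc]
      refine (norm_add_le_of_le a (norm_add_le_of_le ((three hm s).1.trans hn)
        ((three hp s).1.trans hnp))).trans ?_
      have : 0 ≤ h / om q h := by positivity
      nlinarith [n0 s, mul_nonneg (sq_nonneg B) this]
    · have e : deriv (Pz P p b ζ) s - deriv (cp γ) s = (ζ * deriv b s) • deriv P (s + ζ * b s) +
          ((deriv P (s + ζ * b s) - deriv P s) + (deriv (rs P - cp γ) s + deriv p s)) := by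
        rw [d1 hP hp hb.per, deriv_sub ((rs_sp hP).1.differentiable (by simp) s)
          ((cp_sp hγ).1.differentiable (by simp) s), d_rs hP]
        simp only [add_smul, one_smul]
        abel
      have a := lip1 hP (hs s) (hφ s)
      rw [add_sub_cancel_left] at a
      have a' : ‖(ζ * deriv b s) • deriv P (s + ζ * b s)‖ ≤ 2 * Cb * h⁻¹ * 2 := by
        rw [norm_smul]
        exact mul_le_mul ((nb (hb.b1 s)).trans vC) (hP.s1 _ (hφ s)) (norm_nonneg _) (by positivity)
      rw [e]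
      refine (norm_add_le_of_le a' (norm_add_le_of_le a (norm_add_le_of_le
        ((three hm s).2.1.trans hn) ((three hp s).2.1.trans hnp)))).trans ?_
      have k : (4 * Cb + 80 * B + 2) * h⁻¹ ≤ (40 * j)⁻¹ := by
        rw [← div_eq_mul_inv, ← one_div, div_le_div_iff₀ h0 (by positivity)]
        linarith
      have k2 := mul_le_mul_of_nonneg_left ((n0 s).trans (by linarith : _ ≤ 80 * h⁻¹)) hB
      linarith
    · rw [d2 hP hp hb.per]
      have a : ‖(1 + ζ * deriv b s) • ((1 + ζ * deriv b s) • deriv (deriv P) (s + ζ * b s))‖ ≤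
          2 * (2 * B) := by
        rw [norm_smul, norm_smul]
        gcongr
        exacts [n1 s, n1 s, hP.s2 _ (hφ s)]
      have a' : ‖(ζ * deriv (deriv b) s) • deriv P (s + ζ * b s)‖ ≤ Cb * 2 := by
        rw [norm_smul]
        refine mul_le_mul ((nb (hb.b2 s)).trans ?_) (hP.s1 _ (hφ s)) (norm_nonneg _) hC
        rw [show 2 * vt q h * (Cb / (2 * Tt q h / h)) = Cb * (vt q h * h / Tt q h) by field_simp]
        exact mul_le_of_le_one_right hC ((div_le_one T0).2 vh)
      refine (norm_add_le_of_le (norm_add_le_of_le a a') ((three hp s).2.2.trans hnp)).trans ?_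
      linarith [inv_le_one_of_one_le₀ h1]
  · exact (hP.hol.comp ((differentiable_id.mul_const _).const_add _)).add_const _
  · simp only [d1 hP hp hb.per]
    have := hol' hP
    fun_prop
  · have g : ∀ s t, |s - α| ≤ 20 * Tt q h → |t - α| ≤ 20 * Tt q h → s ≤ t →
        vt q h * (t - s) - (1126 + 4096000 * B ^ 2) / om q h ≤
          -(pc (Pz P p b (-I * vt q h)) s t).im := by
      intro s t hs ht hst
      refine le_trans ?_ (gain hP hp hnp (by linarith [inv_le_one_of_one_le₀ h1]) hb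
        (by positivity) ?_ v0.le (by nlinarith) ?_ hs ht hst)
      · have e : vt q h * (2 * Tt q h / h) = 2 * (om q h)⁻¹ := by
          rw [← mul_div_assoc, mul_left_comm, vT]
          field_simp
        have k := mul_le_mul_of_nonneg_left T1 (inv_pos.2 o0).le
        have k2 := mul_le_mul_of_nonneg_left T3 (sq_nonneg B)
        rw [e, div_eq_mul_inv]
        nlinarith
      · have : 2 * Tt q h / h ≤ 2 * Tt q h := div_le_self (by positivity) h1
        linarith
      · have : 0 ≤ h / om q h := by positivity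
        rw [mul_div_assoc]
        nlinarith
    intro s t hs ht
    rcases le_total s t with hst | hst
    · rw [abs_of_nonneg (sub_nonneg.2 hst)]
      exact g s t hs ht hst
    · rw [abs_sub_comm, abs_of_nonneg (sub_nonneg.2 hst), pc_symm]
      exact g t s ht hs hst

end Pool.Agent.Lib.IS2
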