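import Pool.Agent.Lib.IS2.BlueG

/-! The divergence theorem on a domain shrunk along the normal of its boundary curve. -/

open scoped ContDiff ComplexConjugate Topology Real
open Complex MeasureTheory Set Filter

noncomputable section

namespace Pool.Agent.Lib.IS2

open Pool.Agent.Lib.ISO Pool.Agent.Lib.MP_312682_mp

namespace DIV

/-- divergence -/
def dv (X : ℂ → ℂ) (z : ℂ) : ℝ := (fderiv ℝ X z 1).re + (fderiv ℝ X z I).im

lemma c_dv {X : ℂ → ℂ} (h : ContDiff ℝ 1 X) : Continuous (dv X) := by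
  have := h.continuous_fderiv one_ne_zero
  unfold dv; fun_prop

lemma dv_zero {X : ℂ → ℂ} {z : ℂ} (h : X =ᶠ[𝓝 z] fun _ => 0) : dv X z = 0 := by
  simp [dv, h.fderiv_eq]

lemma int_dv {u : ℂ → ℂ} (hu : ContDiff ℝ 1 u) (hc : HasCompactSupport u) : ∫ z, dv u z = 0 := by
  have i : ∀ v : ℂ, Integrable fun z => fderiv ℝ u z v := fun v =>
    ((hu.continuous_fderiv one_ne_zero).clm_apply
      continuous_const).integrable_of_hasCompactSupport (hc.fderiv_apply ℝ v)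
  have e : ∀ v : ℂ, ∫ z, fderiv ℝ u z v = 0 := fun v => by
    have := integral_mul_fderiv_eq_neg_fderiv_mul_of_integrable (μ := vol)
      (f := fun _ : ℂ => (1 : ℂ)) (g := u) (v := v) (by simp) (by simpa using i v)
      (by simpa using hu.continuous.integrable_of_hasCompactSupport hc) (by simp)
      fun z _ => hu.differentiable one_ne_zero z
    simpa using this
  have a := reCLM.integral_comp_comm (i 1)
  have b := imCLM.integral_comp_comm (i I)
  rw [e] at a b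
  simp only [reCLM_apply, imCLM_apply, zero_re, zero_im] at a b
  unfold dv
  exact (integral_add (i 1).re (i I).im).trans ((congrArg₂ (· + ·) a b).trans (add_zero 0))

lemma d_symm {Ψ : ℂ → ℂ} (h : ContDiff ℝ ∞ Ψ) (p : ℂ) : d1 (d2 Ψ) p = d2 (d1 Ψ) p := by
  have h1 : DifferentiableAt ℝ (fderiv ℝ Ψ) p :=
    (h.fderiv_right (m := ∞) (by simp)).differentiable (by simp) p
  have h2 : ∀ v w : ℂ, fderiv ℝ (fun z => fderiv ℝ Ψ z v) p w = fderiv ℝ (fderiv ℝ Ψ) p w v :=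
    fun v w => by rw [fderiv_clm_apply h1 (differentiableAt_const v)]; simp
  exact (h2 I 1).trans (((h.contDiffAt.isSymmSndFDerivAt
    (by simpa using WithTop.coe_le_coe.2 (le_top (a := (2 : ℕ∞))))).eq 1 I).trans (h2 1 I).symm)

lemma piola {Ψ Z : ℂ → ℂ} (hΨ : ContDiff ℝ ∞ Ψ) (hZ : ContDiff ℝ 1 Z) (p : ℂ) :
    (fderiv ℝ Ψ p).det * dv Z (Ψ p) = (d1 (fun p => conj (Z (Ψ p)) * d2 Ψ p) p +
      d2 (fun p => conj (d1 Ψ p) * Z (Ψ p)) p).im := by
  have a0 := hΨ.differentiable (by simp) p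
  have a1 := (contDiff_d1 hΨ).differentiable (by simp) p
  have a2 := (contDiff_d2 hΨ).differentiable (by simp) p
  have a3 := hZ.differentiable one_ne_zero (Ψ p)
  have a4 : DifferentiableAt ℝ (fun p => Z (Ψ p)) p := a3.comp p a0
  have e : ∀ v, fderiv ℝ (fun p => Z (Ψ p)) p v = fderiv ℝ Z (Ψ p) (fderiv ℝ Ψ p v) := fun v => by
    rw [fderiv_fun_comp p a3 a0]; rfl
  have e1 : d1 (fun p => Z (Ψ p)) p = _ := (e 1).trans (fderiv_eq_d _ _ _)
  have e2 : d2 (fun p => Z (Ψ p)) p = _ := (e I).trans (fderiv_eq_d _ _ _)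
  rw [d1_mul (f := fun p => conj (Z (Ψ p))) (conjCLE.differentiableAt.comp p a4) a2,
    d2_mul (f := fun p => conj (d1 Ψ p)) (conjCLE.differentiableAt.comp p a1) a4,
    (d_conj a4).1, (d_conj a1).2, d_symm hΨ, e1, e2, det_eq_d, dv]
  simp only [d1, d2]
  simp
  ring

lemma ftc2 {L δ : ℝ} (hL : 0 ≤ L) (hδ : 0 ≤ δ) {F : ℂ → ℂ} (hF : ContDiff ℝ 1 F) :
    ∫ z, d2 F z ∂nu L δ = ∫ s in (0 : ℝ)..L, (F (s + δ * I) - F s) := by
  have c : Continuous (d2 F) := continuous_iff_continuousAt.2 fun z => contAt_d2 hF.contDiffAt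
  rw [int_rect hL hδ (integrable_rect fun z _ => c.continuousAt)]
  refine intervalIntegral.integral_congr fun s _ => ?_
  have := intervalIntegral.integral_eq_sub_of_hasDerivAt (a := 0) (b := δ)
    (fun x _ => hd_line2 (F := F) (s := s) (x := x) (hF.differentiable one_ne_zero _))
    (Continuous.intervalIntegrable (by fun_prop) _ _)
  simpa using this

lemma per_d2 {Ψ : ℂ → ℂ} {L : ℝ} (hp : ∀ z, Ψ (z + L) = Ψ z) (z : ℂ) :
    d2 Ψ (z + L) = d2 Ψ z := by
  rw [d2, d2, ← fderiv_comp_add_right (L : ℂ)]; simp_rw [hp]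

lemma green {Ψ Z : ℂ → ℂ} {L δ : ℝ} (hL : 0 ≤ L) (hδ : 0 ≤ δ) (hΨ : ContDiff ℝ ∞ Ψ)
    (hZ : ContDiff ℝ 1 Z) (hp : ∀ z, Ψ (z + L) = Ψ z) (h0 : ∀ s : ℝ, Z (Ψ (s + δ * I)) = 0) :
    ∫ p, (fderiv ℝ Ψ p).det * dv Z (Ψ p) ∂nu L δ =
      ∫ s in (0 : ℝ)..L, -(conj (d1 Ψ s) * Z (Ψ s)).im := by
  have a0 : ContDiff ℝ 1 fun p => Z (Ψ p) := hZ.comp (hΨ.of_le (by simp))
  have a1 : ContDiff ℝ 1 fun p => conj (Z (Ψ p)) * d2 Ψ p :=
    (conjCLE.contDiff.comp a0).mul ((contDiff_d2 hΨ).of_le (by simp))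
  have a2 : ContDiff ℝ 1 fun p => conj (d1 Ψ p) * Z (Ψ p) :=
    (conjCLE.contDiff.comp ((contDiff_d1 hΨ).of_le (by simp))).mul a0
  have i1 := integrable_rect (L := L) (δ := δ) fun z _ => contAt_d1 (a1.contDiffAt (x := z))
  have i2 := integrable_rect (L := L) (δ := δ) fun z _ => contAt_d2 (a2.contDiffAt (x := z))
  have c2 := a2.continuous
  have e := imCLM.integral_comp_comm (i1.add i2)
  simp only [imCLM_apply, Pi.add_apply] at e
  simp_rw [piola hΨ hZ]
  rw [e, integral_add i1 i2, ibp1 hL hδ (fun z _ => a1.contDiffAt)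
    (fun z => by simp only [hp, per_d2 hp]), zero_add, ftc2 hL hδ a2]
  simp only [h0, mul_zero, zero_sub]
  have e2 := imCLM.intervalIntegral_comp_comm (μ := volume) (a := 0) (b := L)
    (f := fun s : ℝ => -(conj (d1 Ψ s) * Z (Ψ s)))
    ((c2.comp continuous_ofReal).neg.intervalIntegrable _ _)
  simpa only [imCLM_apply, neg_im] using e2.symm

lemma mem_rect {Ψ : ℂ → ℂ} {L δ : ℝ} (hL : 0 < L) (hp : ∀ z, Ψ (z + L) = Ψ z) {p : ℂ}
    (h : p.im ∈ Ioc 0 δ) : Ψ p ∈ Ψ '' rect L δ := by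
  refine ⟨p + (-toIocDiv hL 0 p.re : ℤ) * L, ⟨?_, by simpa using h⟩,
    (Function.Periodic.int_mul hp _) p⟩
  have := toIocMod_mem_Ioc hL 0 p.re
  rw [toIocMod] at this
  simpa [sub_eq_add_neg] using this

/-- shear -/
def sg (ρ : ℝ → ℝ) (p : ℂ) : ℂ := p + ρ p.re * I

@[simp] lemma sg_re (ρ : ℝ → ℝ) (p : ℂ) : (sg ρ p).re = p.re := by simp [sg]
@[simp] lemma sg_im (ρ : ℝ → ℝ) (p : ℂ) : (sg ρ p).im = p.im + ρ p.re := by simp [sg]

lemma s_sg {ρ : ℝ → ℝ} (h : ContDiff ℝ ∞ ρ) : ContDiff ℝ ∞ (sg ρ) :=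
  contDiff_id.add ((s_ofReal.comp (h.comp contDiff_re')).mul contDiff_const)

lemma det_sg {ρ : ℝ → ℝ} (h : ContDiff ℝ ∞ ρ) (p : ℂ) : (fderiv ℝ (sg ρ) p).det = 1 := by
  have a := (s_sg h).differentiable (by simp) p
  have e1 : d1 (sg ρ) p = 1 + (deriv ρ p.re : ℝ) * I := d1_eq a (by
    have := ((hasDerivAt_id p.re).ofReal_comp.add_const (p.im * I)).add
      ((h.differentiable (by simp) p.re).hasDerivAt.ofReal_comp.mul_const I)
    exact (this.congr_deriv (by simp)).congr_of_eventuallyEq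
      (Eventually.of_forall fun s => by simp [sg]))
  have e2 : d2 (sg ρ) p = I := d2_eq a (by
    have := (((hasDerivAt_id p.im).ofReal_comp.mul_const I).const_add (p.re : ℂ)).add_const
      (ρ p.re * I)
    exact (this.congr_deriv (by simp)).congr_of_eventuallyEq
      (Eventually.of_forall fun s => by simp [sg]))
  rw [det_eq_d, ← d1, ← d2, e1, e2]; simp

lemma mem_Sh {Ω : Set ℂ} {γ : ℝ → ℂ} {ρ : ℝ → ℝ} {z : ℂ} : z ∈ Sh Ω γ ρ ↔
    z ∈ Ω ∧ z ∉ Phi γ '' {p | 0 ≤ p.im ∧ p.im ≤ ρ p.re} := by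
  refine and_congr_right fun _ => not_congr ⟨?_, ?_⟩
  · rintro ⟨s, r, h1, h2, rfl⟩
    exact ⟨s + r * I, by simpa using ⟨h1, h2⟩, by simp [Phi, nr]⟩
  · rintro ⟨p, hp, rfl⟩
    exact ⟨p.re, p.im, hp.1, hp.2, rfl⟩

lemma meas_Sh {Ω : Set ℂ} {γ : ℝ → ℂ} {ρ : ℝ → ℝ} (hΩ : IsOpen Ω) (hγ : Cv0 γ)
    (hρ : Continuous ρ) : MeasurableSet (Sh Ω γ ρ) := by
  have c : IsClosed {p : ℂ | 0 ≤ p.im ∧ p.im ≤ ρ p.re} :=
    (isClosed_le continuous_const continuous_im).inter (isClosed_le continuous_im (by fun_prop))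
  obtain ⟨K, hK, e⟩ := (isSigmaCompact_univ.of_isClosed_subset c (subset_univ _)).image
    hγ.sPhi.continuous
  have : Sh Ω γ ρ = Ω \ ⋃ n, K n := by ext z; rw [mem_Sh, e]; rfl
  rw [this]
  exact hΩ.measurableSet.diff (MeasurableSet.iUnion fun n => (hK n).measurableSet)

theorem main {Ω : Set ℂ} {γ : ℝ → ℂ} {L η : ℝ} (h : Col Ω γ L (8 * η))
    (hb : Bornology.IsBounded Ω) {K : Set ℂ} (k1 : IsCompact K) (k2 : K ⊆ Ω)
    (k3 : ∀ z ∈ Ω, z ∉ K → z ∈ Phi γ '' strip η) {ρ : ℝ → ℝ} (hρ : Per L ρ)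
    (hρ' : ∀ s, 0 ≤ ρ s ∧ ρ s ≤ η) {X : ℂ → ℂ} (hX : ContDiff ℝ 1 X) :
    ∫ z in Sh Ω γ ρ, dv X z = ∫ s in (0 : ℝ)..L, rdot (X (cs γ ρ s)) (-nr (cs γ ρ) s) := by
  have hη : 0 < η := by linarith [h.dpos]
  have hm := meas_Sh h.opn h.toCv0 hρ.smooth.continuous
  set P := push γ (8 * η) fun p => dstp 1 (2 * η) η p.im with hP
  have sP : ContDiffOn ℝ ∞ P Ω := h.push_on (by simp)
    (fun p _ => ((contDiff_dstp _ _ _).comp contDiff_im').contDiffAt) (b := 3 * η) (by linarith)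
    fun p _ hp => dstp_zero hη (by linarith)
  have PP : ∀ p ∈ strip (8 * η), P (Phi γ p) = dstp 1 (2 * η) η p.im := fun p hp =>
    h.push_Phi (by simp) hp
  set Y : ℂ → ℂ := Ω.indicator fun z => (1 - P z : ℝ) * X z with hY
  have Y0 : ∀ z, z ∉ K → Y z = 0 := fun z hz => by
    by_cases h1 : z ∈ Ω
    · obtain ⟨p, hp, rfl⟩ := k3 z h1 hz
      rw [hY, indicator_of_mem h1, PP p ⟨hp.1, by linarith [hp.2]⟩,
        dstp_one hη (by linarith [hp.2])]
      simp
    · exact indicator_of_notMem h1 _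
  have Y1 : ∀ z, z ∉ Ω → Y =ᶠ[𝓝 z] fun _ => 0 := fun z hz => by
    filter_upwards [k1.isClosed.isOpen_compl.mem_nhds fun h1 => hz (k2 h1)] with y hy
    exact Y0 y hy
  have sY : ContDiff ℝ 1 Y := contDiff_iff_contDiffAt.2 fun z => by
    by_cases h1 : z ∈ Ω
    · refine (((s_ofReal.contDiffAt.comp z ((contDiffAt_const (c := (1 : ℝ))).sub (sP.contDiffAt
        (h.opn.mem_nhds h1)))).of_le (by simp)).mul hX.contDiffAt).congr_of_eventuallyEq ?_
      filter_upwards [h.opn.mem_nhds h1] with y hy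
      exact indicator_of_mem hy _
    · exact contDiffAt_const.congr_of_eventuallyEq (Y1 z h1)
  have cY : HasCompactSupport Y := HasCompactSupport.intro k1 Y0
  have Y2 : ∀ p : ℂ, 0 ≤ p.im → p.im ≤ ρ p.re → Y =ᶠ[𝓝 (Phi γ p)] fun _ => 0 := fun p h1 h2 => by
    rcases h1.eq_or_lt with h3 | h3
    · exact Y1 _ (by simpa [Phi, ← h3] using h.bdry p.re)
    · have h4 := (hρ' p.re).2
      filter_upwards [h.push_ev (w := fun p => dstp 1 (2 * η) η p.im) (by simp) (p := p)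
        ⟨h3, by linarith⟩ (a := 1) (by
          filter_upwards [(isOpen_lt continuous_im continuous_const).mem_nhds
            (show p.im < 2 * η by linarith)] with q hq
          exact dstp_one hη hq.le)] with y hy
      simp [hY, indicator, hP, hy]
  set Z : ℂ → ℂ := fun z => X z - Y z with hZ
  have sZ : ContDiff ℝ 1 Z := hX.sub sY
  have ZP : ∀ z ∈ Ω, Z z = P z * X z := fun z hz => by
    simp only [hZ, hY, indicator_of_mem hz]; push_cast; ring
  set Ψ : ℂ → ℂ := fun p => Phi γ (sg ρ p) with hΨ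
  have sΨ : ContDiff ℝ ∞ Ψ := h.sPhi.comp (s_sg hρ.smooth)
  have pΨ : ∀ z, Ψ (z + L) = Ψ z := fun z => by
    simp only [hΨ]
    rw [← h.Phi_per (sg ρ z)]
    congr 1
    simp [sg, hρ.per]; ring
  have sr : ∀ p ∈ rect L (4 * η), sg ρ p ∈ rect L (5 * η) := fun p hp =>
    ⟨by simpa using hp.1, by
      simp only [sg_im]; constructor <;> linarith [hp.2.1, hp.2.2, hρ' p.re]⟩
  have h58 : 5 * η < 8 * η := by linarith
  have cs1 : ∀ s : ℝ, Ψ s = cs γ ρ s := fun s => by simp [hΨ, Phi, cs, nr]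
  have e1 : ∫ z in Sh Ω γ ρ, dv Y z = 0 := by
    rw [setIntegral_eq_integral_of_forall_compl_eq_zero, int_dv sY cY]
    intro z hz
    by_cases h1 : z ∈ Ω
    · obtain ⟨p, hp, rfl⟩ := not_not.1 fun h2 => hz (mem_Sh.2 ⟨h1, h2⟩)
      exact dv_zero (Y2 p hp.1 hp.2)
    · exact dv_zero (Y1 z h1)
  have ii : ∀ U : ℂ → ℂ, ContDiff ℝ 1 U → IntegrableOn (dv U) (Sh Ω γ ρ) := fun U hU =>
    ((c_dv hU).continuousOn.integrableOn_compact hb.isCompact_closure).mono_set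
      (sdiff_subset.trans subset_closure)
  have e2 : ∀ z, dv X z = dv Z z + dv Y z := fun z => by
    simp only [dv, hZ, fderiv_fun_sub (hX.differentiable one_ne_zero z)
      (sY.differentiable one_ne_zero z)]
    simp only [sub_apply, sub_re, sub_im]
    ring
  simp_rw [e2]
  rw [integral_add (ii Z sZ) (ii Y sY), e1, add_zero,
    setIntegral_eq_of_subset_of_forall_sdiff_eq_zero hm (s := Ψ '' rect L (4 * η)),
    integral_image_eq_integral_abs_det_fderiv_smul volume (measurableSet_rect _ _)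
      (fun z _ => (sΨ.differentiable (by simp) z).hasFDerivAt.hasFDerivWithinAt),
    setIntegral_congr_fun (measurableSet_rect _ _)
      (g := fun p => (fderiv ℝ Ψ p).det * dv Z (Ψ p))]
  · refine (green h.pos.le (by linarith) sΨ sZ pΨ fun s => ?_).trans
      (intervalIntegral.integral_congr fun s _ => ?_)
    · have h1 : sg ρ (s + (4 * η : ℝ) * I) ∈ strip (8 * η) := by
        constructor <;> simp <;> linarith [hρ' s]
      rw [ZP _ (h.inside _ h1), PP _ h1, dstp_zero hη (by simp; linarith [hρ' s])]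
      simp
    · have h1 : d1 Ψ s = deriv (cs γ ρ) s := by
        have := hd_line1 (F := Ψ) (s := s) (x := 0) (sΨ.differentiable (by simp) _)
        simp only [ofReal_zero, zero_mul, add_zero, cs1] at this
        exact this.deriv.symm
      have h2 : Y (Ψ s) = 0 :=
        (Y2 (sg ρ s) (by simpa using (hρ' s).1) (by simp)).eq_of_nhds
      simp only [hZ, h1, h2]
      simp [cs1, rdot, nr]
      ring
  · intro p hp
    have : fderiv ℝ Ψ p = (fderiv ℝ (Phi γ) (sg ρ p)).comp (fderiv ℝ (sg ρ) p) :=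
      fderiv_fun_comp p (h.dPhi _) ((s_sg hρ.smooth).differentiable (by simp) p)
    have e : (fderiv ℝ Ψ p).det = Jf (kap γ) (sg ρ p) := by
      rw [this, ← mul_one (Jf _ _), ← h.det, ← det_sg hρ.smooth p]
      exact LinearMap.det_comp _ _
    simp only [e, abs_of_pos (h.Jpos (Col.rect_sub h58 (sr p hp))), smul_eq_mul]
  · intro p hp q hq e
    have := (h.ch h58).inj (sr p hp) (sr q hq) e
    have h1 : p.re = q.re := by simpa using congrArg re this
    have h2 := congrArg im this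
    simp only [sg_im, h1] at h2
    exact Complex.ext h1 (by linarith)
  · rintro _ ⟨q, hq, rfl⟩
    have h1 := Col.rect_sub h58 (sr q hq)
    refine mem_Sh.2 ⟨h.inside _ h1, ?_⟩
    rintro ⟨p, hp, e⟩
    rcases hp.1.eq_or_lt with h3 | h3
    · refine h.bdry p.re ?_
      have := h.inside _ h1
      rw [show Phi γ (sg ρ q) = Phi γ p from e.symm] at this
      simpa [Phi, ← h3] using this
    · obtain ⟨n, hn⟩ := h.inj _ h1 p ⟨h3, by linarith [hp.2, hρ' p.re]⟩ e.symm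
      have h4 := hp.2
      have h5 : ρ (q.re + n * L) = ρ q.re := (Function.Periodic.int_mul hρ.per n) q.re
      rw [hn] at h4
      simp [h5] at h4
      linarith [hq.2.1]
  · rintro z ⟨hz, h1⟩
    rw [mem_Sh] at hz
    refine dv_zero ?_
    filter_upwards [h.opn.mem_nhds hz.1, h.push_zero' (w := fun p => dstp 1 (2 * η) η p.im)
      (a := 0) (b := 3 * η) (fun p h2 h3 => dstp_zero hη
        (by linarith [not_le.1 fun h4 => h3 ⟨h2.1.le, h4⟩])) (z := z) (by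
      rintro ⟨p, hp, rfl⟩
      have h2 : ρ p.re < p.im := not_le.1 fun h3 => hz.2 ⟨p, ⟨hp.2.1, h3⟩, rfl⟩
      have h3 := mem_rect h.pos pΨ (p := p - ρ p.re * I) (δ := 4 * η) (by
        constructor <;> simp <;> linarith [hp.2.2, hρ' p.re])
      refine h1 ?_
      simpa [hΨ, sg] using h3)] with y hy h2
    rw [ZP y hy, hP, h2]; simp

end DIV

theorem st_div : St_DIV := by
  intro Ω γ φ h
  obtain ⟨δ0, hf, -⟩ := Geo.fam h
  have h0 : 0 < δ0 / 8 := by linarith [hf.dpos]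
  refine ⟨δ0 / 8, h0, fun ρ hρ X hX => ?_⟩
  obtain ⟨K, k1, k2, k3⟩ := hf.cover _ h0
  exact DIV.main (η := δ0 / 8) (by rw [mul_div_cancel₀ _ (by norm_num)]; exact hf.col 0) hf.bdd k1 k2
    (fun z h1 h2 => (k3 z h1 h2).elim fun _ h => h) hρ.1
    (fun s => ⟨(hρ.2 s).1, (hρ.2 s).2.1⟩) hX

end Pool.Agent.Lib.IS2
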