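import Pool.Agent.Lib.IS2.Blue

/-! The estimate of a chain that passes near the zone of the deformation. -/

open scoped ContDiff ComplexConjugate Topology Real
open Complex MeasureTheory Set Filter

noncomputable section

namespace Pool.Agent.Lib.IS2

open Pool.Agent.Lib.ISO

namespace EST

theorem chain {n : ℕ} (v : Fin (n + 2) → ℝ) (a b : Fin (n + 2)) :
    dc (v a) (v b) ≤ ∑ i, dc (v i) (v (i + 1)) := by
  wlog h : a ≤ b generalizing a b
  · rw [dc_comm]
    exact this b a (le_of_not_ge h)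
  have e : ∀ s t : ℝ, dc s t = dist (s : AddCircle (2 * π)) t := fun s t => by
    rw [dc, dist_eq_norm, AddCircle.coe_sub]
  have := dist_le_Ico_sum_dist (fun k => (v (Fin.ofNat _ k) : AddCircle (2 * π))) h
  simp only [Fin.ofNat_val_eq_self] at this
  rw [e]
  refine this.trans ((Finset.sum_le_sum_of_subset_of_nonneg (t := Finset.range (n + 2))
    (fun k hk => Finset.mem_range.2 ((Finset.mem_Ico.1 hk).2.trans b.2))
    fun _ _ _ => dist_nonneg).trans (le_of_eq ?_))
  rw [Finset.sum_range]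
  refine Finset.sum_congr rfl fun i _ => ?_
  rw [e, Fin.ofNat_val_eq_self, show Fin.ofNat (n + 2) (i + 1) = i + 1 from
    Fin.ext (by simp [Fin.val_add])]

theorem mj_nonneg (o : ℝ) (γ : ℝ → ℂ) (n : ℕ) (v : Fin (n + 2) → ℝ) : 0 ≤ Mj o γ n v := by
  unfold Mj c0
  positivity

theorem re_pc (P : ℝ → C2) (s t : ℝ) : 0 ≤ (pc P s t).re := by
  rw [pc, show (1 / 2 : ℂ) = (2 : ℂ)⁻¹ by norm_num, cpow_inv_two_re]
  positivity

/-- the gain along a short chain in the zone -/
theorem zone {j C1 h α : ℝ} {q n : ℕ} {γ : ℝ → ℂ} {P : ℝ → C2} (hγ : Nc j γ) (hP : P ∈ SP)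
    (hG : Gain q h C1 α P) (h1 : 1 ≤ h) (hC : 0 ≤ C1) (hT : j * (4 * Tt q h) ≤ j⁻¹)
    {v : Fin (n + 2) → ℝ} {i0 : Fin (n + 2)} (h0 : dc (v i0) α ≤ 2 * Tt q h / h)
    (l1 : Tt q h / 2 ≤ ell γ v) (l2 : ell γ v ≤ 4 * Tt q h) {μ : ℂ} (m0 : 0 ≤ μ.re)
    (m1 : om q h / 4 ≤ μ.im) (m2 : ‖μ‖ ≤ om q h) : h / 8 - (n + 2) * C1 ≤ (μ * elc P v).re := by
  have hh : 0 < h := by linarith
  have o0 : 0 < om q h := pow_pos hh _
  have T0 : 0 < Tt q h := inv_pos.2 (pow_pos hh _)
  have v0 : 0 < vt q h := div_pos hh (mul_pos o0 T0)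
  have hl : ∀ i, dc (v i) (v (i + 1)) ≤ 2 * c0 γ (v i) (v (i + 1)) := fun i =>
    hγ.dc_le_two ((hγ.arc _ _).trans (le_trans (mul_le_mul_of_nonneg_left
      ((Finset.single_le_sum (f := fun i => c0 γ (v i) (v (i + 1))) (fun _ _ => norm_nonneg _)
        (Finset.mem_univ i)).trans l2) hγ.pos.le) hT))
  have hz : ∀ i, dc α (v i) ≤ 20 * Tt q h := fun i => by
    have a := dc_triangle α (v i0) (v i)
    have b := (chain v i0 i).trans (Finset.sum_le_sum fun i _ => hl i)
    have c : 2 * Tt q h / h ≤ 2 * Tt q h := div_le_self (by positivity) h1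
    rw [← Finset.mul_sum] at b
    rw [dc_comm] at h0
    unfold ell at l2
    linarith
  choose k hk using fun i => exists_dc α (v i)
  have hi : ∀ i, om q h / 4 * vt q h * c0 γ (v i) (v (i + 1)) - C1 ≤
      (μ * pc P (v i) (v (i + 1))).re := fun i => by
    have a := hG _ _ (by rw [abs_sub_comm, hk i]; exact hz i)
      (by rw [abs_sub_comm, hk (i + 1)]; exact hz (i + 1))
    have b := hγ.c0_le_abs (v i + k i * (2 * π)) (v (i + 1) + k (i + 1) * (2 * π))
    simp only [pc, pD, hP.2.int_mul _ _] at a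
    rw [c0, hγ.per.int_mul, hγ.per.int_mul, abs_sub_comm] at b
    have c := mul_le_mul_of_nonneg_left b v0.le
    have m3 := (le_abs_self _).trans ((abs_im_le_norm μ).trans m2)
    have d : μ.im * (C1 / om q h) ≤ C1 := by
      rw [mul_div_assoc', div_le_iff₀ o0, mul_comm]
      exact mul_le_mul_of_nonneg_left m3 hC
    have e := mul_le_mul_of_nonneg_left a (by linarith : 0 ≤ μ.im)
    have f := mul_le_mul_of_nonneg_right m1 (mul_nonneg v0.le (norm_nonneg (γ (v i) - γ (v (i + 1)))))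
    have g := mul_le_mul_of_nonneg_left c (by linarith : 0 ≤ μ.im)
    have r := mul_nonneg m0 (re_pc P (v i) (v (i + 1)))
    rw [mul_re, c0]
    simp only [pc, pD] at r ⊢
    nlinarith
  have := Finset.sum_le_sum fun i (_ : i ∈ Finset.univ) => hi i
  rw [Finset.sum_sub_distrib, ← Finset.mul_sum, ← re_sum, ← Finset.mul_sum, Finset.sum_const,
    Finset.card_univ, Fintype.card_fin, nsmul_eq_mul] at this
  push_cast at this
  refine le_trans (sub_le_sub_right ?_ _) this
  refine le_trans (le_of_eq ?_) (mul_le_mul_of_nonneg_left l1 (by positivity))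
  unfold vt
  field_simp
  norm_num

end EST

open Pool.Agent.Lib.IS2.EST in
theorem st_est (hKB : St_KB) (hKM : St_KM) (hCR : St_CR) (hSH : St_SH) : St_EST := by
  intro j B C1 q n hq
  obtain ⟨A, A1, hA⟩ := hKB j B
  obtain ⟨R, r0, hR⟩ := hCR j q (by omega)
  obtain ⟨S, s0, hS⟩ := hSH q hq
  refine ⟨S * (A ^ (n + 2) * Real.exp ((n + 2) * C1 + 2)) * (|R| * |R| ^ n),
    max (max r0 s0) (1 + 4 * j ^ 2 + 2 * (A * (n + 2) * |C1|)),
    fun h hh γ P α wt hγ hP hG hw hz => ?_⟩
  obtain ⟨hR, -⟩ := hR h (((le_max_left _ _).trans (le_max_left _ _)).trans hh) γ hγ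
  obtain ⟨g1, g2, g3⟩ := hR n
  obtain ⟨S1, S2, S3, S4⟩ := hS h (((le_max_right _ _).trans (le_max_left _ _)).trans hh)
  replace hh := (le_max_right _ _).trans hh
  have A0 : 0 < A := by linarith
  have hh1 : 0 ≤ A * (n + 2) * |C1| := by positivity
  have h1 : 1 ≤ h := by linarith [sq_nonneg j]
  have h0 : 0 < h := by linarith
  have o0 : 0 < om q h := pow_pos h0 _
  have T0 : 0 < Tt q h := inv_pos.2 (pow_pos h0 _)
  have Y0 : 0 ≤ YY q h := by unfold YY; positivity
  have hϖ : 0 ≤ C1 * h / om q h := (norm_nonneg _).trans (hP.a0 0)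
  have hC : 0 ≤ C1 := nonneg_of_mul_nonneg_left ((div_nonneg_iff.1 hϖ).elim And.left
    fun a => absurd a.2 o0.not_ge) h0
  rw [abs_of_nonneg hC] at hh hh1
  have S0 : 0 ≤ S := (norm_nonneg _).trans (S2 0 (by simpa using Y0)).2.2.2
  have hT : j * (4 * Tt q h) ≤ j⁻¹ := by
    have : Tt q h ≤ h⁻¹ := inv_anti₀ h0 (le_self_pow₀ h1 (by omega))
    refine (mul_le_mul_of_nonneg_left (by linarith : _ ≤ 4 * h⁻¹) hγ.pos.le).trans ?_
    rw [← div_eq_mul_inv, ← mul_div_assoc, ← one_div, div_le_div_iff₀ h0 hγ.pos]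
    nlinarith
  have hI : ∀ v, Gv γ v → ∀ μ ∈ Rect q h, ‖In μ P n v‖ ≤ A ^ (n + 2) * Mj (om q h) γ n v *
      Real.exp (A * (n + 2) * C1 * h) * Real.exp (-(μ.re * ell γ v)) := fun v hv μ hμ => by
    obtain ⟨a, b⟩ := (hA γ _ P hγ hP).2 n v μ _ hv (S1 μ hμ).1 (S1 μ hμ).2
    rw [mul_assoc _ (Real.exp _), ← Real.exp_add]
    refine a.trans (mul_le_mul_of_nonneg_left (b.trans (Real.exp_le_exp.2 ?_))
      (mul_nonneg (by positivity) (mj_nonneg _ _ _ _)))
    have := mul_le_mul_of_nonneg_left (mul_le_mul_of_nonneg_right (S1 μ hμ).2 hϖ)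
      (by positivity : 0 ≤ A * (n + 2))
    rw [mul_div_cancel₀ _ o0.ne'] at this
    linarith
  have l0 : ∀ v : Fin (n + 2) → ℝ, 0 ≤ ell γ v := fun v =>
    Finset.sum_nonneg fun _ _ => norm_nonneg _
  have mre : ∀ y, (mu q h y).re = (Tt q h)⁻¹ := fun y => by simp [mu]
  have : SFinite (box (n + 2)) := by unfold box; infer_instance
  have cm : Continuous (mu q h) := by unfold mu; fun_prop
  have cG : Continuous (Gs q h) := by unfold Gs ze; fun_prop
  have sw : (FF q h fun μ => Tn wt μ P n) =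
      ∫ v, wt (n + 2) v * FF q h (fun μ => In μ P n v) ∂box (n + 2) := by
    simp only [FF, Tn, ← integral_const_mul, ← intervalIntegral.integral_const_mul]
    rw [intervalIntegral_integral_swap]
    · simp only [mul_left_comm]
    have : IsFiniteMeasure (volume.restrict (uIoc (-YY q h) (YY q h))) :=
      ⟨by rw [Measure.restrict_apply_univ]; exact measure_Ioc_lt_top⟩
    refine ((integrable_const (2 * om q h * S * (A ^ (n + 2) *
      Real.exp (A * (n + 2) * C1 * h)))).mul_prod g2).mono' ?_ ?_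
    · have m1 : Measurable fun p : ℝ × (Fin (n + 2) → ℝ) => 2 * mu q h p.1 * Gs q h (mu q h p.1) :=
        (((continuous_const.mul cm).mul (cG.comp cm)).comp continuous_fst).measurable
      have m2 : Measurable fun p : ℝ × (Fin (n + 2) → ℝ) => wt (n + 2) p.2 :=
        (hw _).1.comp measurable_snd
      have m3 : Measurable fun p : ℝ × (Fin (n + 2) → ℝ) => (mu q h p.1, p.2) :=
        (cm.measurable.comp measurable_fst).prodMk measurable_snd
      have m4 := (hKM.1 P hP.sp n).comp m3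
      simp only [Function.comp_def] at m4
      exact (m1.mul (m2.mul m4)).aestronglyMeasurable
    · filter_upwards [Measure.quasiMeasurePreserving_snd.ae g1,
        Measure.quasiMeasurePreserving_fst.ae (ae_restrict_mem measurableSet_uIoc)] with p p1 p2
      rw [uIoc_of_le (by linarith)] at p2
      obtain ⟨-, a, -, b⟩ := S2 p.1 (abs_le.2 ⟨p2.1.le, p2.2⟩)
      have c := hI p.2 p1 _ a
      have d : Real.exp (-((mu q h p.1).re * ell γ p.2)) ≤ Real.exp (-(ell γ p.2 / (2 * Tt q h))) := by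
        rw [mre, Real.exp_le_exp, neg_le_neg_iff, ← div_eq_inv_mul]
        exact div_le_div_of_nonneg_left (l0 _) T0 (by linarith)
      have m := mj_nonneg (om q h) γ n p.2
      simp only [Function.uncurry, norm_mul, Complex.norm_ofNat]
      calc _ ≤ 2 * om q h * S * (1 * (A ^ (n + 2) * Mj (om q h) γ n p.2 *
            Real.exp (A * (n + 2) * C1 * h) * Real.exp (-(ell γ p.2 / (2 * Tt q h))))) := by
            gcongr
            exacts [(S1 _ a).2, (hw _).2.1 _, c.trans (by gcongr)]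
        _ = _ := by ring
  set K := S * (A ^ (n + 2) * Real.exp ((n + 2) * C1 + 2)) with hK
  rw [sw]
  refine (norm_integral_le_of_norm_le (g2.const_mul (K * om q h ^ 2 * Real.exp (-(h / 8))))
    (g1.mono fun v hv => ?_)).trans ?_
  · have m := mj_nonneg (om q h) γ n v
    by_cases w0 : wt (n + 2) v = 0
    · rw [w0, zero_mul, norm_zero]
      positivity
    obtain ⟨i0, hi0⟩ := hz v w0
    rw [norm_mul]
    refine (mul_le_of_le_one_left (norm_nonneg _) ((hw _).2.1 _)).trans ?_
    by_cases hl : ell γ v ≤ Tt q h / 2 ∨ 4 * Tt q h ≤ ell γ v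
    · refine (S4 _ _ _ (fun μ hμ => (hKM.2 j B γ _ id (fun _ => P) μ n v hγ hP (S1 μ hμ).1 hv
        differentiableAt_id fun _ => ⟨differentiableAt_const _, differentiableAt_const _⟩
        ).differentiableWithinAt) (hI v hv) (l0 v) hl).trans ?_
      have e : Real.exp (A * (n + 2) * C1 * h) * Real.exp (-(h ^ 2 / 2)) ≤
          Real.exp ((n + 2) * C1 + 2) * Real.exp (-(h / 8)) := by
        rw [← Real.exp_add, ← Real.exp_add, Real.exp_le_exp]
        have : 0 ≤ (n + 2 : ℝ) * C1 := by positivity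
        nlinarith [sq_nonneg j]
      calc _ = S * om q h ^ 2 * A ^ (n + 2) * (Real.exp (A * (n + 2) * C1 * h) *
            Real.exp (-(h ^ 2 / 2))) * (Mj (om q h) γ n v * Real.exp (-(ell γ v / (2 * Tt q h)))) := by
            ring
        _ ≤ S * om q h ^ 2 * A ^ (n + 2) * (Real.exp ((n + 2) * C1 + 2) * Real.exp (-(h / 8))) *
            (Mj (om q h) γ n v * Real.exp (-(ell γ v / (2 * Tt q h)))) := by gcongr
        _ = _ := by rw [hK]; ring
    · push Not at hl
      refine (S3 _ (A ^ (n + 2) * Mj (om q h) γ n v * (Real.exp ((n + 2) * C1 + 2) *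
        Real.exp (-(h / 8)) * Real.exp (-(ell γ v / (2 * Tt q h))))) fun y hy => ?_).trans
        (le_of_eq (by rw [hK]; ring))
      obtain ⟨-, a, b, -⟩ := S2 y hy
      refine ((hA γ _ P hγ hP).2 n v _ _ hv (S1 _ a).1 (S1 _ a).2).1.trans
        (mul_le_mul_of_nonneg_left ?_ (by positivity))
      rw [norm_exp, ← Real.exp_add, ← Real.exp_add, Real.exp_le_exp, neg_re]
      have c := zone hγ hP.sp hG h1 hC hT hi0 hl.1.le hl.2.le (by rw [mre]; positivity) b (S1 _ a).2
      have d : ell γ v / (2 * Tt q h) ≤ 2 := by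
        rw [div_le_iff₀ (by positivity)]
        linarith [hl.2]
      linarith
  · rw [integral_const_mul]
    have e : R * om q h * (R / h ^ 3) ^ n ≤ |R| * |R| ^ n * om q h := by
      refine (le_abs_self _).trans ?_
      rw [abs_mul, abs_mul, abs_pow, abs_div, abs_of_pos o0, abs_of_pos (pow_pos h0 3),
        mul_right_comm]
      gcongr
      exact div_le_self (abs_nonneg _) (one_le_pow₀ h1)
    refine (mul_le_mul_of_nonneg_left (g3.trans e) (by positivity)).trans (le_of_eq (by ring))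

end Pool.Agent.Lib.IS2
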