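import Pool.Agent.Lib.IS2.K86B

/-! Expansion of the tested trace in the moments of the curvature. -/

open scoped ContDiff ComplexConjugate Topology Real
open Complex MeasureTheory Set Filter

noncomputable section

namespace Pool.Agent.Lib.IS2

open Pool.Agent.Lib.ISO

namespace EXP

variable {q : ℕ} {h : ℝ}

def be (q : ℕ) (h : ℝ) (n : ℕ) : ℂ := I * (om q h / 2 : ℝ) * rt (I * (om q h / 2 : ℝ)) ^ n
def bj (q : ℕ) (h : ℝ) (n : ℕ) : ℂ := be q h n * (jp q h n * (Tt q h ^ 2 / om q h) : ℝ)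

theorem scale (q : ℕ) (hh : 0 < h) (n : ℕ) :
    √(om q h) ^ n * Tt q h ^ (3 * (n : ℝ) / 2) = (h ^ (3 * n))⁻¹ := by
  have hT := T_pos q hh
  have ho := o_pos q hh
  refine (pow_left_inj₀ (by positivity) (by positivity) two_ne_zero).1 ?_
  rw [mul_pow, ← pow_mul, mul_comm n 2, pow_mul, Real.sq_sqrt ho.le, ← Real.rpow_natCast _ 2,
    ← Real.rpow_mul hT.le, show 3 * (n : ℝ) / 2 * (2 : ℕ) = (3 * n : ℕ) by push_cast; ring,
    Real.rpow_natCast, om, Tt]
  simp only [inv_pow]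
  field_simp
  ring

theorem norm_be (q : ℕ) (hh : 0 < h) (n : ℕ) :
    ‖be q h n‖ = om q h / 2 * (√(om q h) ^ n / √2 ^ n) := by
  have ho := o_pos q hh
  have a : ‖I * (om q h / 2 : ℝ)‖ = om q h / 2 := by
    rw [norm_mul, norm_I, one_mul, norm_real, Real.norm_of_nonneg (by positivity)]
  have b : ‖rt (I * (om q h / 2 : ℝ))‖ = √(om q h) / √2 := by
    rw [← Real.sqrt_div ho.le, ← Real.sqrt_sq (norm_nonneg (rt _)), ← norm_pow,
      rt_sq (norm_pos_iff.1 (by rw [a]; positivity)), a]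
  rw [be, norm_mul, norm_pow, a, b, div_pow]

theorem rpow_le_exp {x : ℝ} (hx : 0 ≤ x) (n : ℕ) :
    x ^ (3 * (n : ℝ) / 2) * Real.exp (-x) ≤ (2 * n).factorial := by
  have f1 : (1 : ℝ) ≤ (2 * n).factorial := by exact_mod_cast (2 * n).factorial_pos
  rw [Real.exp_neg, mul_inv_le_iff₀ (Real.exp_pos x)]
  rcases le_total x 1 with e | e
  · exact (Real.rpow_le_one hx e (by positivity)).trans
      (one_le_mul_of_one_le_of_one_le f1 (Real.one_le_exp hx))
  · have := Real.pow_div_factorial_le_exp x hx (2 * n)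
    rw [div_le_iff₀' (by linarith), ← Real.rpow_natCast] at this
    refine (Real.rpow_le_rpow_of_exponent_le e ?_).trans this
    push_cast
    linarith [Nat.cast_nonneg (α := ℝ) n]

theorem term (h1 : St_J1) (h2 : St_J2) (j : ℝ) (q n e : ℕ) (he : e + 13 ≤ q) :
    ∃ c C, 0 < c ∧ 0 ≤ C ∧ ∀ᶠ h in atTop,
    c / h ^ (3 * n) ≤ ‖bj q h n‖ ∧ ‖bj q h n‖ ≤ C / h ^ (3 * n) ∧
    ∀ (M W : ℕ) κ ρ w a0, (W : ℝ) ^ 2 = om q h → Per (2 * π) κ → Bk j κ → Per (2 * π) ρ →
      Wf q h w → ‖a0‖ ≤ 2 → ∫ s in (0 : ℝ)..(2 * π), (ρ s + tn M W a0 0 s / om q h ^ 2) ^ 2 ≤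
        (h ^ e)⁻¹ ^ 2 * (amp M W ^ 2 / om q h ^ 4) →
      ‖∫ z, uw w ρ κ n z * Mp q h n |z.2| ∂bx - La M W q h *
        (2 * ‖a0‖ ^ 2 * (bj q h n * (∫ s in (0 : ℝ)..(2 * π), κ s ^ n : ℝ)))‖ ≤
        C * (La M W q h / h ^ e) := by
  obtain ⟨C1, g1, H1⟩ := h1 q n (by omega)
  obtain ⟨c, C2, g2, hc, H2⟩ := h2 j q n (by omega)
  refine ⟨c / (2 * √2 ^ n), |C2| + 258 * 64 * (|j| ^ n * |C1| * (2 * n).factorial), by positivity,
    by positivity, ?_⟩
  filter_upwards [eventually_ge_atTop g1, eventually_ge_atTop g2, eventually_ge_atTop 1]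
    with h a1 a2 a3
  have hh : 0 < h := one_pos.trans_le a3
  have hT := T_pos q hh
  have ho := o_pos q hh
  have sc := scale q hh n
  have s2 : 1 ≤ √2 ^ n := one_le_pow₀ (Real.one_le_sqrt.2 one_le_two)
  obtain ⟨l1, l2, l3⟩ := H2 h a2
  have eT : Tt q h ^ (3 * (n : ℝ) / 2 - 2) = Tt q h ^ (3 * (n : ℝ) / 2) / Tt q h ^ 2 := by
    rw [Real.rpow_sub hT, Real.rpow_two]
  rw [eT] at l1 l2 l3
  set S := Tt q h ^ (3 * (n : ℝ) / 2) with hS
  have S0 : 0 < S := by positivity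
  have nb1 : ‖be q h n‖ * S = om q h / (2 * √2 ^ n) / h ^ (3 * n) := by
    rw [norm_be q hh, div_eq_mul_inv _ (h ^ (3 * n)), ← sc]; field_simp
  have j0 : 0 < jp q h n := lt_of_lt_of_le (by positivity) l1
  have nj : ‖bj q h n‖ = ‖be q h n‖ * jp q h n * (Tt q h ^ 2 / om q h) := by
    rw [bj, norm_mul, norm_real, Real.norm_of_nonneg (by positivity), mul_assoc]
  have C2' := le_abs_self C2
  refine ⟨?_, ?_, fun M W κ ρ w a0 hW hκ hb hρ hw ha hR => ?_⟩
  · calc _ = c * (‖be q h n‖ * S) / om q h := by rw [nb1]; field_simp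
      _ = ‖be q h n‖ * (c * (S / Tt q h ^ 2)) * (Tt q h ^ 2 / om q h) := by field_simp
      _ ≤ _ := by rw [nj]; gcongr
  · calc _ ≤ ‖be q h n‖ * (|C2| * (S / Tt q h ^ 2)) * (Tt q h ^ 2 / om q h) := by
          rw [nj]; gcongr; exact l2.trans (by gcongr)
      _ = |C2| * (‖be q h n‖ * S) / om q h := by field_simp
      _ = |C2| / (2 * √2 ^ n) / h ^ (3 * n) := by rw [nb1]; field_simp
      _ ≤ _ := by
          gcongr
          exact (div_le_self (abs_nonneg _) (by linarith)).trans (le_add_of_nonneg_right (by positivity))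
  have η1 : (h ^ e)⁻¹ ≤ 1 := inv_le_one_of_one_le₀ (one_le_pow₀ a3)
  have η0 : 0 < (h ^ e)⁻¹ := by positivity
  have k2 := l3 M W κ ρ w a0 _ hW hκ hb hρ hw ha η0.le η1 hR
  set B := amp M W ^ 2 / om q h ^ 4 with hB
  have B0 : 0 ≤ B := by positivity
  have hρ2 := rho_le hρ ha ho (hR.trans (mul_le_of_le_one_left B0 (pow_le_one₀ η0.le η1)))
  have uc := uw_c hh hw hρ.smooth.continuous hκ.smooth.continuous n
  have mc := Mp_c q hh n
  set g : ℝ × ℝ → ℂ := fun z => uw w ρ κ n z * (exp (-(I * om q h * (|z.2| : ℝ))) * ga q h |z.2|)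
    with hg
  have gc : Continuous g := by
    simp only [hg, ga]
    fun_prop
  have e1 : (∫ s in (0 : ℝ)..(2 * π), ∫ d in (-π)..π,
      ((w s (s + d) * (ρ s * ρ (s + d)) * κ s ^ n * g0 q h n |d| : ℝ) : ℂ) *
        exp (-(I * om q h * (|d| : ℝ)))) = ∫ z, g z ∂bx := by
    rw [← dbl (int_c gc)]
    congr 1; ext s; congr 1; ext d
    simp only [hg, uw, g0, ofReal_mul]
    ring
  rw [e1] at k2
  set L := |j| ^ n * |C1| * (2 * n).factorial * (8 * h ^ 9 / Tt q h ^ 4) with hL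
  have k1 : ‖∫ z, (uw w ρ κ n z * Mp q h n |z.2| - be q h n * g z) ∂bx‖ ≤ 258 * B * (8 * L) := by
    refine nb hρ (φ := fun _ => L) continuous_const (fun _ => by positivity) hρ2 ?_ fun s d hd => ?_
    · rw [intervalIntegral.integral_const, smul_eq_mul]
      gcongr
      linarith [Real.pi_le_four]
    rcases le_total |d| (Tt q h / (2 * h)) with e | e
    · simp only [hg, uw, w0 hw e, zero_mul, ofReal_zero, mul_zero, sub_zero, norm_zero]
      positivity
    have hd0 : 0 < |d| := lt_of_lt_of_le (by positivity) e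
    have m1 := (H1 h a1).1 |d| hd0.le
    have m2 : ‖(uw w ρ κ n (s, d) : ℂ)‖ ≤ |ρ s| * |ρ (s + d)| *
        (|j| ^ n * ((|d| / Tt q h) ^ (3 * (n : ℝ) / 2) * S * (2 * h / Tt q h) ^ 3)) := by
      have b1 : |κ s| ≤ |j| := le_trans (by simpa using hb 0 (by norm_num) s) (le_abs_self j)
      have b2 : (|d| ^ 3)⁻¹ ≤ (2 * h / Tt q h) ^ 3 := by
        rw [← inv_pow]
        gcongr
        rw [← inv_div]
        exact inv_anti₀ (by positivity) e
      rw [norm_real, Real.norm_eq_abs, uw, abs_mul, abs_mul, abs_mul, abs_mul, abs_pow,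
        abs_of_nonneg (hw.nn _ _), abs_of_nonneg (Real.rpow_nonneg hd0.le _), Real.rpow_sub hd0,
        Real.div_rpow hd0.le hT.le, div_mul_cancel₀ _ S0.ne', div_eq_mul_inv, Real.rpow_ofNat]
      refine mul_le_mul (mul_le_of_le_one_left (by positivity) (hw.le _ _)) (by gcongr)
        (by positivity) (by positivity)
    have m3 := rpow_le_exp (x := |d| / Tt q h) (by positivity) n
    have m4 : (h ^ (3 * n))⁻¹ ≤ 1 := inv_le_one_of_one_le₀ (one_le_pow₀ a3)
    have C1' := le_abs_self C1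
    calc _ = ‖(uw w ρ κ n (s, d) : ℂ)‖ * ‖Mp q h n |d| - be q h n *
          exp (-(I * om q h * (|d| : ℝ))) * ga q h |d|‖ := by
          rw [← norm_mul]; congr 1; simp only [hg]; ring
      _ ≤ |ρ s| * |ρ (s + d)| *
          (|j| ^ n * ((|d| / Tt q h) ^ (3 * (n : ℝ) / 2) * S * (2 * h / Tt q h) ^ 3)) *
          (|C1| * √(om q h) ^ n * (h ^ 6 / Tt q h) * Real.exp (-(|d| / Tt q h))) :=
          mul_le_mul m2 (m1.trans (by gcongr)) (norm_nonneg _) (by positivity)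
      _ = |ρ s| * |ρ (s + d)| * (|j| ^ n * |C1| *
          ((|d| / Tt q h) ^ (3 * (n : ℝ) / 2) * Real.exp (-(|d| / Tt q h)) * (h ^ (3 * n))⁻¹) *
          (8 * h ^ 9 / Tt q h ^ 4)) := by rw [← sc]; field_simp; ring
      _ ≤ _ := by
          rw [hL]; gcongr
          exact (mul_le_of_le_one_right (by positivity) m4).trans m3
  rw [integral_sub (int_c (by fun_prop)) ((int_c gc).const_mul _), integral_const_mul] at k1
  have p1 : h ^ 9 / Tt q h ^ 4 ≤ om q h / Tt q h ^ 2 / h ^ e := by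
    rw [div_div, div_le_div_iff₀ (by positivity) (by positivity)]
    have : h ^ (9 + e + 2 * (q + 2)) ≤ h ^ (3 * q) := pow_le_pow_right₀ a3 (by omega)
    calc _ = h ^ (9 + e + 2 * (q + 2)) * Tt q h ^ 4 := by rw [Tt]; field_simp; ring
      _ ≤ _ := by rw [om]; gcongr
  have p2 : h ^ 6 / (om q h * Tt q h) ≤ (h ^ e)⁻¹ := by
    rw [inv_eq_one_div, div_le_div_iff₀ (by positivity) (by positivity)]
    have : h ^ (6 + e + (q + 2)) ≤ h ^ (3 * q) := pow_le_pow_right₀ a3 (by omega)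
    calc _ = h ^ (6 + e + (q + 2)) * Tt q h := by rw [Tt]; field_simp; ring
      _ ≤ _ := by rw [om, one_mul]; gcongr
  have p3 : ‖be q h n‖ * S ≤ om q h / 2 := by
    rw [nb1]
    exact (div_le_self (by positivity) (one_le_pow₀ a3)).trans (by gcongr; linarith)
  have k3 := mul_le_mul_of_nonneg_left k2 (norm_nonneg (be q h n))
  rw [← norm_mul] at k3
  refine (le_of_eq ?_).trans (((norm_add_le _ _).trans (add_le_add k3 k1)).trans ?_)
  · congr 1
    have := ofReal_ne_zero.2 ho.ne'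
    have := ofReal_ne_zero.2 hT.ne'
    rw [La, bj, ← hB]
    push_cast
    field_simp
    ring
  · rw [La, ← hB, add_mul]
    refine add_le_add ?_ ?_
    · calc _ ≤ ‖be q h n‖ * (|C2| * B * (S / Tt q h ^ 2) * ((h ^ e)⁻¹ + (h ^ e)⁻¹)) := by gcongr
        _ = |C2| * B * (‖be q h n‖ * S) * (2 / Tt q h ^ 2 / h ^ e) := by field_simp; ring
        _ ≤ |C2| * B * (om q h / 2) * (2 / Tt q h ^ 2 / h ^ e) := by gcongr
        _ = _ := by field_simp
    · calc _ = 258 * 64 * (|j| ^ n * |C1| * (2 * n).factorial) * (B * (h ^ 9 / Tt q h ^ 4)) := by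
            rw [hL]; ring
        _ ≤ 258 * 64 * (|j| ^ n * |C1| * (2 * n).factorial) *
            (B * (om q h / Tt q h ^ 2 / h ^ e)) := by gcongr
        _ = _ := by ring

theorem exp_le (hh : 1 ≤ h) (e : ℕ) :
    Real.exp (-(h ^ 4 / 2)) * h ^ 4 ≤ 2 ^ (e + 1) * (e + 1).factorial / h ^ e := by
  have h0 : 0 < h := one_pos.trans_le hh
  have := Real.pow_div_factorial_le_exp (h ^ 4 / 2) (by positivity) (e + 1)
  rw [div_pow, div_div, div_le_iff₀' (by positivity), ← pow_mul] at this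
  rw [le_div_iff₀ (by positivity), Real.exp_neg, mul_assoc, inv_mul_le_iff₀' (Real.exp_pos _),
    ← pow_add]
  exact (pow_le_pow_right₀ hh (by omega)).trans this

end EXP

open EXP in
theorem st_exp (hS : St_SH) (hH : St_H2) (hT : St_TAY) (hN : St_NH) (hF : St_F2) (hG : St_G)
    (h1 : St_J1) (h2 : St_J2) : St_EXP := by
  intro j K p0 M hM
  set q := 2 * (6 * M + 4 * p0 + 30) with hq
  set e := 3 * p0 + 1 with he
  set m := p0 + 2 + 2 with hm
  refine ⟨q, 2 * m, by omega, by omega, ?_⟩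
  choose c C hc hC H using fun n => term h1 h2 j q n e (by omega)
  obtain ⟨CS, gS, HS⟩ := hS q (by omega)
  obtain ⟨CH, gH, HH⟩ := hH j K M q (by omega) (by omega)
  obtain ⟨CT, gT, HT⟩ := hT j K M q hM (by omega)
  obtain ⟨CJ, gJ, HJ⟩ := h1 q 0 (by omega)
  obtain ⟨CP, hCP, HP⟩ := psi hN hF j (p0 + 2) q (by omega)
  have n0 : ∀ n, 0 ≤ cn m n := fun n => by have := ct_nn hG m n; unfold cn; positivity
  have n1 : 0 < cn m p0 := by have := ct_pos hG (m := m) (n := p0) (by omega); unfold cn; positivity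
  set D := ∑ n ∈ Finset.range (2 * m + 1), cn m n * C n with hD
  set E := |CT| + 258 * |CJ| * CP * (2 ^ (e + 1) * (e + 1).factorial + 1) with hE
  have E0 : 0 ≤ E := by positivity
  refine Exists.elim ((eventually_atTop (α := ℝ)).1 ?_) fun h0 H0 =>
    ⟨cn m p0 * c p0, E + D, h0, fun n h => cn m n * bj q h n, mul_pos n1 (hc p0), H0⟩
  filter_upwards [(Finset.range (2 * m + 1)).eventually_all.2 fun n _ => H n, HP,
    eventually_ge_atTop gS, eventually_ge_atTop gH, eventually_ge_atTop gT, eventually_ge_atTop gJ,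
    eventually_ge_atTop 1, eventually_ge_atTop CH] with h H HP aS aH aT aJ a1 aC
  have hh : 0 < h := one_pos.trans_le a1
  have T0 := T_pos q hh
  have o0 := o_pos q hh
  have so : √(om q h) = h ^ (3 * (6 * M + 4 * p0 + 30)) := by
    rw [Real.sqrt_eq_iff_mul_self_eq o0.le (by positivity), om, ← pow_add]; congr 1; omega
  have nc : ∀ n, ‖(cn m n : ℂ)‖ = cn m n := fun n => by rw [norm_real, Real.norm_of_nonneg (n0 n)]
  refine ⟨fun n hn => ?_, ?_, so ▸ pow_le_pow_right₀ a1 (by omega),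
    fun W Ω γ η a0 hW hD' hγ hT' => ?_⟩
  · have hn' := Finset.mem_range.2 (Nat.lt_succ_of_le hn)
    have := Finset.single_le_sum (f := fun n => cn m n * C n)
      (fun n _ => mul_nonneg (n0 n) (hC n)) hn'
    rw [norm_mul, nc]
    refine (mul_le_mul_of_nonneg_left (H n hn').2.1 (n0 n)).trans ?_
    rw [← mul_div_assoc]
    gcongr
    linarith
  · rw [norm_mul, nc, mul_div_assoc]
    exact mul_le_mul_of_nonneg_left (H p0 (Finset.mem_range.2 (by omega))).1 (n0 _)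
  obtain ⟨hρ, r1⟩ := HH h aH W γ a0 hW hγ hT'
  obtain ⟨w, hw, dΨ, t1⟩ := HT h aT W Ω γ η a0 hW hD' hγ hT'
  obtain ⟨-, j1, j2, j3, j4⟩ := HJ h aJ
  set ρ := rho q h γ
  set Ψ := PsN γ fun s t => w s t * (ρ s * ρ t) with hΨ
  set B := amp M W ^ 2 / om q h ^ 4 with hB
  have eW : (W : ℝ) = h ^ (3 * (6 * M + 4 * p0 + 30)) := by
    rw [← so, ← hW, Real.sqrt_sq (Nat.cast_nonneg W)]
  have eB : B = (om q h ^ (2 * M + 4))⁻¹ := by
    rw [hB, amp, pow_mul, hW, inv_pow]; field_simp; ring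
  have B0 : 0 < B := by rw [eB]; positivity
  have eL : La M W q h = B * (om q h / Tt q h ^ 2) := rfl
  have L0 : 0 < La M W q h := by rw [eL]; positivity
  have r2 : ∫ s in (0 : ℝ)..(2 * π), (ρ s + tn M W a0 0 s / om q h ^ 2) ^ 2 ≤ (h ^ e)⁻¹ ^ 2 * B := by
    refine r1.trans ?_
    have : h ^ (1 + (8 * M + 24) + e * 2) ≤ W := eW ▸ pow_le_pow_right₀ a1 (by omega)
    have W0 : (0 : ℝ) < W := lt_of_lt_of_le (by positivity) this
    calc _ ≤ h * B * (h ^ (8 * M + 24) / W) := by gcongr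
      _ = h ^ (1 + (8 * M + 24) + e * 2) / W * ((h ^ e)⁻¹ ^ 2 * B) := by
          rw [inv_pow]; field_simp; ring
      _ ≤ _ := mul_le_of_le_one_left (by positivity) ((div_le_one W0).2 this)
  have r3 := rho_le hρ hT'.b0 o0 (r2.trans (mul_le_of_le_one_left B0.le
    (pow_le_one₀ (by positivity) (inv_le_one_of_one_le₀ (one_le_pow₀ a1)))))
  rw [← hB] at r3
  have hκ : Per (2 * π) (kp γ) := ⟨H0.smk hγ, fun s => by
    simp only [kp, per_deriv' hγ.per s, per_deriv' (per_deriv' hγ.per) s]⟩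
  have Y0 : 0 ≤ YY q h := by unfold YY; positivity
  have hY : ∀ y ∈ uIcc (-YY q h) (YY q h), |y| ≤ YY q h := fun y hy => by
    rw [uIcc_of_le (by linarith)] at hy; exact abs_le.2 hy
  obtain ⟨i1, b1⟩ := ibp (U := DD q h) ((isOpen_lt continuous_const continuous_re).inter
    (isOpen_lt continuous_norm continuous_const)) dΨ j4 (Gs_c q h) (mu_d q h)
    fun y hy => ((HS h aS).2.1 y (hY y hy)).1
  obtain ⟨i2, b2⟩ := fub hh hw hρ.smooth.continuous hκ.smooth.continuous m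
  have P := fun y hy => HP γ ρ w _ y hγ hρ hw r3 hy
  rw [← hΨ] at P
  have CJ' := le_abs_self CJ
  set Z := La M W q h / h ^ e with hZ
  have Z0 : 0 < Z := by positivity
  have f0 : CT / om q h ^ (2 * M + 4) ≤ |CT| * Z := by
    have : h ^ e ≤ om q h / Tt q h ^ 2 := by
      rw [om, Tt, inv_pow, div_inv_eq_mul, ← pow_mul, ← pow_add]
      exact pow_le_pow_right₀ a1 (by omega)
    rw [div_eq_mul_inv, ← eB, hZ, eL, mul_div_assoc]
    exact mul_le_mul (le_abs_self _) (le_mul_of_one_le_right B0.le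
      ((one_le_div (by positivity)).2 this)) B0.le (abs_nonneg _)
  have f1 : ∀ y, |y| ≤ YY q h → ‖Gs q h (mu q h y)‖ ≤ CJ * Real.exp (-(h ^ 4 / 2)) →
      ‖Gs q h (mu q h y)‖ * ‖Ψ (mu q h y)‖ ≤
        258 * |CJ| * CP * (2 ^ (e + 1) * (e + 1).factorial) * Z := fun y hy hg =>
    calc _ ≤ |CJ| * Real.exp (-(h ^ 4 / 2)) * (CP * h ^ 4 * (258 * B * (om q h / Tt q h ^ 2))) :=
          mul_le_mul (hg.trans (by gcongr)) (P y hy).1 (norm_nonneg _) (by positivity)
      _ = 258 * |CJ| * CP * (Real.exp (-(h ^ 4 / 2)) * h ^ 4) * La M W q h := by rw [eL]; ring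
      _ ≤ 258 * |CJ| * CP * (2 ^ (e + 1) * (e + 1).factorial / h ^ e) * La M W q h := by
          gcongr; exact exp_le a1 e
      _ = _ := by rw [hZ]; ring
  have f2 := b1.trans (add_le_add (f1 _ (abs_of_nonneg Y0).le j2)
    (f1 _ (by rw [abs_neg, abs_of_nonneg Y0]) j3))
  have f3 : ‖(∫ y in (-YY q h)..YY q h, Gs' q h (mu q h y) * Ψ (mu q h y)) -
      ∑ n ∈ Finset.range (2 * m + 1), (cn m n : ℂ) *
        ∫ z, uw w ρ (kp γ) n z * Mp q h n |z.2| ∂bx‖ ≤ 258 * |CJ| * CP * Z := by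
    have e0 : 0 < eps (p0 + 2) h := by unfold eps; positivity
    rw [← b2, ← intervalIntegral.integral_sub i1 i2]
    refine (intervalIntegral.norm_integral_le_of_norm_le (by linarith)
      (g := fun y => ‖Gs' q h (mu q h y)‖ *
        (CP * (eps (p0 + 2) h * h ^ 4) * (258 * B * (om q h / Tt q h ^ 2))))
      (Eventually.of_forall fun y hy => ?_)
      ((((Gs_c q h).comp (mu_c q h)).norm.mul continuous_const).intervalIntegrable _ _)).trans ?_
    · rw [← mul_sub, norm_mul]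
      exact mul_le_mul_of_nonneg_left (P y (abs_le.2 ⟨hy.1.le, hy.2⟩)).2 (norm_nonneg _)
    · have : eps (p0 + 2) h * h ^ 6 ≤ (h ^ e)⁻¹ := by
        rw [eps, inv_mul_le_iff₀ (by positivity), ← div_eq_mul_inv, le_div_iff₀ (by positivity),
          ← pow_add]
        exact pow_le_pow_right₀ a1 (by omega)
      rw [intervalIntegral.integral_mul_const]
      calc _ ≤ |CJ| * h ^ 2 *
            (CP * (eps (p0 + 2) h * h ^ 4) * (258 * B * (om q h / Tt q h ^ 2))) := by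
            gcongr; exact j1.trans (by gcongr)
        _ = 258 * |CJ| * CP * (eps (p0 + 2) h * h ^ 6 * La M W q h) := by rw [eL]; ring
        _ ≤ 258 * |CJ| * CP * ((h ^ e)⁻¹ * La M W q h) := by gcongr
        _ = _ := by rw [hZ]; ring
  have f4 : ‖∑ n ∈ Finset.range (2 * m + 1), (cn m n : ℂ) *
      (∫ z, uw w ρ (kp γ) n z * Mp q h n |z.2| ∂bx - La M W q h * (2 * ‖a0‖ ^ 2 *
        (bj q h n * (∫ s in (0 : ℝ)..(2 * π), kp γ s ^ n : ℝ))))‖ ≤ D * Z := by
    rw [hD, Finset.sum_mul]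
    refine norm_sum_le_of_le _ fun n hn => ?_
    rw [norm_mul, nc, mul_assoc (cn m n)]
    exact mul_le_mul_of_nonneg_left
      ((H n hn).2.2 M W _ ρ w a0 hW hκ hγ.kb hρ hw hT'.b0 r2) (n0 n)
  have D0 : 0 ≤ D := Finset.sum_nonneg fun n _ => mul_nonneg (n0 n) (hC n)
  simp only [mul_sub, Finset.sum_sub_distrib] at f4
  have L1 := ofReal_ne_zero.2 L0.ne'
  generalize FT q h (cp γ) = x0 at *
  generalize (∫ y in (-YY q h)..YY q h, Gs q h (mu q h y) * deriv Ψ (mu q h y)) = x1 at *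
  generalize (∫ y in (-YY q h)..YY q h, Gs' q h (mu q h y) * Ψ (mu q h y)) = x2 at *
  generalize (∑ n ∈ Finset.range (2 * m + 1), (cn m n : ℂ) *
    ∫ z, uw w ρ (kp γ) n z * Mp q h n |z.2| ∂bx) = x3 at *
  set x4 : ℂ := ∑ n ∈ Finset.range (2 * m + 1), (cn m n : ℂ) * bj q h n *
    (∫ s in (0 : ℝ)..(2 * π), kp γ s ^ n : ℝ) with hx
  have e4 : ∑ n ∈ Finset.range (2 * m + 1), (cn m n : ℂ) * (La M W q h * (2 * ‖a0‖ ^ 2 *
      (bj q h n * (∫ s in (0 : ℝ)..(2 * π), kp γ s ^ n : ℝ)))) =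
      La M W q h * (2 * ‖a0‖ ^ 2 * x4) := by
    simp only [hx, Finset.mul_sum]
    exact Finset.sum_congr rfl fun n _ => by ring
  rw [e4] at f4
  have e5 : x0 / La M W q h - ‖a0‖ ^ 2 * x4 = (x0 + 1 / 2 * x1 - 1 / 2 * (x1 + x2) +
      1 / 2 * (x2 - x3) + 1 / 2 * (x3 - La M W q h * (2 * ‖a0‖ ^ 2 * x4))) / La M W q h := by
    field_simp; ring
  rw [e5, norm_div, norm_real, Real.norm_of_nonneg L0.le, div_le_iff₀ L0,
    show (E + D) / h ^ e * La M W q h = (E + D) * Z by rw [hZ]; ring]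
  have g1 := norm_add_le (x0 + 1 / 2 * x1 - 1 / 2 * (x1 + x2) + 1 / 2 * (x2 - x3))
    (1 / 2 * (x3 - La M W q h * (2 * ‖a0‖ ^ 2 * x4)))
  have g2 := norm_add_le (x0 + 1 / 2 * x1 - 1 / 2 * (x1 + x2)) (1 / 2 * (x2 - x3))
  have g3 := norm_sub_le (x0 + 1 / 2 * x1) (1 / 2 * (x1 + x2))
  have g4 : ∀ x : ℂ, ‖1 / 2 * x‖ = ‖x‖ / 2 := fun x => by rw [norm_mul]; simp [div_eq_inv_mul]
  rw [g4] at g1 g2 g3
  have g5 := mul_nonneg D0 Z0.le
  have g6 : 0 ≤ 258 * |CJ| * CP * Z := by positivity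
  rw [hE]
  linarith

end Pool.Agent.Lib.IS2
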