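import Pool.Agent.Lib.IS2.Blue

/-! Row F0: bounds of the kernels on the segment. -/

open scoped ContDiff ComplexConjugate Topology Real
open Complex MeasureTheory Set Filter

noncomputable section

namespace Pool.Agent.Lib.IS2

namespace F0

lemma pw {t : ℝ} (ht : 0 ≤ t) {n : ℕ} (hn : n ≤ 6) : t ^ n * Real.exp (-(t ^ 2 / 2)) ≤ 49 := by
  have a : t ^ n ≤ 1 + t ^ 6 := by
    rcases le_total t 1 with h | h
    · linarith [pow_le_one₀ ht h (n := n), pow_nonneg ht 6]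
    · linarith [pow_le_pow_right₀ h hn]
  have b := Real.pow_div_factorial_le_exp (t ^ 2 / 2) (by positivity) 3
  have c := Real.one_le_exp (x := t ^ 2 / 2) (by positivity)
  rw [Real.exp_neg, ← div_eq_mul_inv, div_le_iff₀ (Real.exp_pos _)]
  norm_num [Nat.factorial] at b
  nlinarith

lemma oT {q : ℕ} {h : ℝ} (hq : 1 ≤ q) (h1 : 1 ≤ h) :
    1 ≤ om q h * Tt q h ∧ om q h * Tt q h ^ 3 ≤ 1 := by
  have h0 : 0 < h := by linarith
  rw [om, Tt, inv_pow, ← div_eq_mul_inv, ← div_eq_mul_inv, one_le_div (by positivity),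
    div_le_one (by positivity), ← pow_mul]
  exact ⟨pow_le_pow_right₀ h1 (by omega), pow_le_pow_right₀ h1 (by omega)⟩

end F0

open F0 in
theorem st_f0 (hK : St_KR) (hS : St_SH) : St_F0 := fun j q hq => by
  obtain ⟨C, hK⟩ := hK j
  obtain ⟨C', h0, hS⟩ := hS q hq
  refine ⟨100 * |C|, max h0 1, fun h hh γ y v u n hy e => ?_⟩
  obtain ⟨s1, s2, -⟩ := hS h (le_of_max_le_left hh)
  have h1 := le_of_max_le_right hh
  obtain ⟨o1, o3⟩ := oT (by omega : 1 ≤ q) h1
  obtain ⟨-, m2, m3, -⟩ := s2 y hy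
  obtain ⟨⟨a1, -⟩, a2⟩ := s1 _ m2
  intro μ o T c E
  have T0 : 0 < T := by simp only [T, Tt]; positivity
  have o0 : 0 < o := by simp only [o, om]; positivity
  have re : μ.re = T⁻¹ := by simp [μ, T, mu]
  obtain ⟨k1, -, k2, k6, k3, -, k4, k5, k7⟩ := hK γ n μ v u a1 (re ▸ inv_pos.2 T0) e
  have cp : 0 < c := norm_pos_iff.2 (sub_ne_zero.2 e)
  have a4 : o / 4 ≤ ‖μ‖ := m3.trans ((le_abs_self _).trans (abs_im_le_norm _))
  have EE : Real.exp (-(μ.re * c)) = E * E := by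
    rw [← Real.exp_add, re]; congr 1; field_simp; ring
  obtain ⟨t, t0, ct⟩ : ∃ t, 0 < t ∧ c = T * t ^ 2 :=
    ⟨√(c / T), Real.sqrt_pos.2 (by positivity), by rw [Real.sq_sqrt (by positivity)]; field_simp⟩
  have Et : E = Real.exp (-(t ^ 2 / 2)) := by
    simp only [E]; rw [ct]; congr 2; field_simp
  have E0 : 0 < E := Real.exp_pos _
  have p : ∀ n ≤ 6, t ^ n * E ≤ 49 := fun n hn => Et ▸ pw t0.le hn
  have p0 : E ≤ 1 := Real.exp_le_one_iff.2 (neg_nonpos.2 (by positivity))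
  set R := √(o * T) with hR
  have R1 : 1 ≤ R := Real.one_le_sqrt.2 o1
  have oc : √(o * c) = R * t := by
    rw [ct, ← mul_assoc, Real.sqrt_mul (by positivity), Real.sqrt_sq t0.le]
  set a := ‖μ‖ with ha
  have ac : √(a * c) ≤ R * t := oc ▸ Real.sqrt_le_sqrt (by gcongr)
  have fin : ∀ {u M N : ℝ}, 0 ≤ M → u ≤ C * M * Real.exp (-(μ.re * c)) → M * E ≤ 100 * N →
      u ≤ 100 * |C| * N * E := fun {u M N} hM hu hN => hu.trans (by
    have b1 : C * (M * E * E) ≤ |C| * (M * E * E) := by gcongr; exact le_abs_self C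
    have b2 : |C| * (M * E * E) ≤ |C| * (100 * N * E) := by gcongr
    rw [EE]; linarith)
  have q1 : (1 + √(a * c)) * E ≤ 100 * R := by
    have : √(a * c) * E ≤ R * t * E := by gcongr
    have := mul_le_mul_of_nonneg_left (p 1 (by norm_num)) (by linarith : 0 ≤ R)
    nlinarith
  have q3 : (1 + a * c ^ 3) * E ≤ 50 := by
    have b1 : a * c ^ 3 * E ≤ o * c ^ 3 * E := by gcongr
    have b2 : o * T ^ 3 * (t ^ 6 * E) ≤ 1 * 49 := mul_le_mul o3 (p 6 le_rfl) (by positivity) one_pos.le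
    have b3 : o * c ^ 3 * E = o * T ^ 3 * (t ^ 6 * E) := by rw [ct]; ring
    linarith
  refine ⟨fin (by positivity) k1 ?_, fin (by positivity) k2 q1, fin (by positivity) k3 ?_,
    fin (by positivity) k4 ?_, fin (by positivity) k5 ?_, fin (by positivity) k6 ?_,
    fun hc => fin (by positivity) k7 ?_⟩
  · have b1 : √(o * c) ≤ 2 * √(a * c) := by
      rw [show 2 * √(a * c) = √(4 * a * c) by
        rw [mul_assoc, Real.sqrt_mul (by norm_num : (0 : ℝ) ≤ 4), show (4 : ℝ) = 2 ^ 2 by norm_num,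
          Real.sqrt_sq (by norm_num)]]
      exact Real.sqrt_le_sqrt (by gcongr; linarith)
    have b2 : (2 * √(a * c))⁻¹ ≤ (√(o * c))⁻¹ := inv_anti₀ (by positivity) b1
    have b3 : (√(a * c))⁻¹ * E ≤ (√(a * c))⁻¹ * 1 := by gcongr
    have b4 : 0 ≤ (√(o * c))⁻¹ := by positivity
    rw [mul_inv] at b2
    linarith
  · have b1 : a * √a * (√c)⁻¹ * ((1 + a * c ^ 3) * E) ≤ o * √o * (√c)⁻¹ * 50 := by gcongr
    have b4 : 0 ≤ o * √o * (√c)⁻¹ := by positivity
    linarith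
  · have b1 : a * c * √(a * c) * E ≤ o * c * (R * t) * E := by gcongr
    have b2 : o * T * R * (t ^ 3 * E) ≤ o * T * R * 49 := by gcongr; exact p 3 (by norm_num)
    have b3 : o * c * (R * t) * E = o * T * R * (t ^ 3 * E) := by rw [ct]; ring
    have b4 : 0 ≤ o * T * R := by positivity
    linarith
  · have b1 : c ^ 2 * (1 + √(a * c)) * E ≤ c ^ 2 * (R + R * t) * E := by gcongr
    have b2 : T ^ 2 * R * (t ^ 4 * E + t ^ 5 * E) ≤ T ^ 2 * R * (49 + 49) := by
      gcongr <;> exact p _ (by norm_num)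
    have b3 : c ^ 2 * (R + R * t) * E = T ^ 2 * R * (t ^ 4 * E + t ^ 5 * E) := by rw [ct]; ring
    have b4 : 0 ≤ T ^ 2 * R := by positivity
    linarith
  · have b1 : a * ((1 + √(a * c)) * E) ≤ o * (100 * R) := by gcongr
    linarith
  · have b0 : 1 ≤ √(o * c) := Real.one_le_sqrt.2 (by
      have := mul_le_mul_of_nonneg_left hc o0.le
      rwa [mul_inv_cancel₀ o0.ne'] at this)
    have b1 : 1 + √(a * c) ≤ 2 * (√o * √c) := by
      rw [← Real.sqrt_mul o0.le]; linarith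
    have b2 : (c ^ 2)⁻¹ * (1 + √(a * c)) * ((1 + a * c ^ 3) * E) ≤
        (c ^ 2)⁻¹ * (2 * (√o * √c)) * 50 := by gcongr
    have b3 : (c ^ 2)⁻¹ * √c = (c * √c)⁻¹ := by
      have := Real.sqrt_pos.2 cp
      field_simp
      exact Real.sq_sqrt cp.le
    rw [← b3]
    linarith

end Pool.Agent.Lib.IS2
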