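import Pool.Agent.Lib.IS2.K26

/-! Project is2, row F1b: the models of the kernels `fKb` and `fNn`. -/

open scoped ContDiff ComplexConjugate Topology Real
open Complex MeasureTheory Set Filter

noncomputable section

namespace Pool.Agent.Lib.IS2

namespace F1b

/-- The sizes. -/
structure Sz (X r e1 e2 : ℂ) (a b O E ε C G : ℝ) : Prop where
  ha : 0 < a
  hab : a ≤ b
  hr : 0 < ‖r‖
  hrO : ‖r‖ ≤ O
  hOr : O ≤ 2 * ‖r‖
  hO : 1 ≤ O
  hE : 0 < E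
  hE1 : E ≤ 1
  hX : ‖X‖ = E * E
  hC : 0 ≤ C
  h1 : ‖e1‖ ≤ C * ((‖r‖ * a) ^ 3)⁻¹ * (E * E)
  h2 : ‖e2‖ ≤ C * (‖r‖ * a)⁻¹ * (E * E)
  hG : O ^ 2 * b ^ 6 * E ≤ G
  hε : 1 ≤ ε * (O * a) ^ 2
  hOa : 1 ≤ O * a
  haε : a ^ 2 ≤ ε

variable {X r e1 e2 L : ℂ} {a b O E ε C G D σ : ℝ}

theorem p1 (h : Sz X r e1 e2 a b O E ε C G) (hσ : 0 ≤ σ) {y1 y2 A B q : ℝ}
    (hL : ‖L‖ ≤ C * (1 + ‖r‖ * a) * (E * E)) (g0 : |q| ≤ D) (g1 : |y1| ≤ D * ε * b ^ 5)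
    (g2 : |y2| ≤ D * ε / a) (g3 : |A| ≤ D * ε) (g4 : |B| ≤ D) :
    ‖X * σ * r ^ 5 * y1 + X * σ * r ^ 3 * y2 - r ^ 4 * e2 * A - r ^ 4 * e1 * B + L * q‖ ≤
      (σ * D * G + σ * D + 4 * (C * D)) * (ε * (O ^ 3 / a) * E) := by
  obtain ⟨ha, hab, hr, hrO, -, hO, hE, hE1, hX, hC, h1, h2, hG, hε, hOa, haε⟩ := h
  have hD : 0 ≤ D := (abs_nonneg _).trans g0
  have hb := ha.trans_le hab
  have ε0 : 0 < ε := (pow_pos ha 2).trans_le haε
  have O0 : 0 < O := one_pos.trans_le hO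
  set M := ε * (O ^ 3 / a) * E with hM
  have M0 : 0 ≤ M := by positivity
  have t1 : ‖X * σ * r ^ 5 * y1‖ ≤ σ * D * G * M :=
    calc _ = E * E * σ * ‖r‖ ^ 5 * |y1| := by simp [hX, abs_of_nonneg hσ]
      _ ≤ E * E * σ * O ^ 5 * (D * ε * b ^ 5) := by gcongr
      _ = σ * D * (O ^ 2 * (b ^ 5 * a) * E) * M := by rw [hM]; field_simp
      _ ≤ σ * D * (O ^ 2 * (b ^ 5 * b) * E) * M := by gcongr
      _ ≤ _ := by rw [← pow_succ]; gcongr
  have t2 : ‖X * σ * r ^ 3 * y2‖ ≤ σ * D * M :=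
    calc _ = E * E * σ * ‖r‖ ^ 3 * |y2| := by simp [hX, abs_of_nonneg hσ]
      _ ≤ 1 * E * σ * O ^ 3 * (D * ε / a) := by gcongr
      _ = _ := by rw [hM]; ring
  have t3 : ‖r ^ 4 * e2 * A‖ ≤ C * D * M :=
    calc _ = ‖r‖ ^ 4 * ‖e2‖ * |A| := by simp
      _ ≤ ‖r‖ ^ 4 * (C * (‖r‖ * a)⁻¹ * (E * E)) * (D * ε) := by gcongr
      _ = C * D * (ε * (‖r‖ ^ 3 / a) * E) * E := by field_simp
      _ ≤ C * D * (ε * (O ^ 3 / a) * E) * 1 := by gcongr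
      _ = _ := mul_one _
  have t4 : ‖r ^ 4 * e1 * B‖ ≤ C * D * M :=
    calc _ = ‖r‖ ^ 4 * ‖e1‖ * |B| := by simp
      _ ≤ ‖r‖ ^ 4 * (C * ((‖r‖ * a) ^ 3)⁻¹ * (E * E)) * D := by gcongr
      _ = C * D * (‖r‖ / a ^ 3 * E) * E * 1 := by field_simp
      _ ≤ C * D * (O / a ^ 3 * E) * 1 * (ε * (O * a) ^ 2) := by gcongr
      _ = _ := by rw [hM]; field_simp
  have t5 : ‖L * q‖ ≤ 2 * (C * D) * M :=
    calc _ = ‖L‖ * |q| := by simp
      _ ≤ C * (1 + ‖r‖ * a) * (E * E) * D := by gcongr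
      _ ≤ C * (O * a + O * a) * (E * 1) * D := by gcongr
      _ = 2 * (C * D) * (a ^ 2 * (O ^ 1 / a) * E) := by field_simp; ring
      _ ≤ _ := by rw [hM]; gcongr; norm_num
  have := norm_add_le (X * σ * r ^ 5 * y1 + X * σ * r ^ 3 * y2 - r ^ 4 * e2 * A - r ^ 4 * e1 * B)
    (L * q)
  have := norm_sub_le (X * σ * r ^ 5 * y1 + X * σ * r ^ 3 * y2 - r ^ 4 * e2 * A) (r ^ 4 * e1 * B)
  have := norm_sub_le (X * σ * r ^ 5 * y1 + X * σ * r ^ 3 * y2) (r ^ 4 * e2 * A)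
  have := norm_add_le (X * σ * r ^ 5 * y1) (X * σ * r ^ 3 * y2)
  linarith

theorem p2 (h : Sz X r e1 e2 a b O E ε C G) (hσ : 0 ≤ σ) {y1 y2 P N : ℝ}
    (g1 : |y1| ≤ D * ε * b ^ 3) (g2 : |y2| ≤ D * ε / a ^ 3) (g3 : |P| ≤ D * ε) (g4 : |N| ≤ D) :
    ‖X * σ * r ^ 3 * y1 + X * σ * r * y2 + r ^ 4 * e1 * P + e2 * (N / a ^ 4 : ℝ)‖ ≤
      (σ * D * G + σ * D + 4 * (C * D)) * (ε * (O / a ^ 3) * E) := by
  obtain ⟨ha, hab, hr, hrO, hOr, hO, hE, hE1, hX, hC, h1, h2, hG, hε, hOa, haε⟩ := h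
  have hD : 0 ≤ D := (abs_nonneg _).trans g4
  have hb := ha.trans_le hab
  have ε0 : 0 < ε := (pow_pos ha 2).trans_le haε
  have O0 : 0 < O := one_pos.trans_le hO
  set M := ε * (O / a ^ 3) * E with hM
  have M0 : 0 ≤ M := by positivity
  have t1 : ‖X * σ * r ^ 3 * y1‖ ≤ σ * D * G * M :=
    calc _ = E * E * σ * ‖r‖ ^ 3 * |y1| := by simp [hX, abs_of_nonneg hσ]
      _ ≤ E * E * σ * O ^ 3 * (D * ε * b ^ 3) := by gcongr
      _ = σ * D * (O ^ 2 * (b ^ 3 * a ^ 3) * E) * M := by rw [hM]; field_simp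
      _ ≤ σ * D * (O ^ 2 * (b ^ 3 * b ^ 3) * E) * M := by gcongr
      _ ≤ _ := by rw [← pow_add]; gcongr
  have t2 : ‖X * σ * r * y2‖ ≤ σ * D * M :=
    calc _ = E * E * σ * ‖r‖ * |y2| := by simp [hX, abs_of_nonneg hσ]
      _ ≤ 1 * E * σ * O * (D * ε / a ^ 3) := by gcongr
      _ = _ := by rw [hM]; ring
  have t3 : ‖r ^ 4 * e1 * P‖ ≤ C * D * M :=
    calc _ = ‖r‖ ^ 4 * ‖e1‖ * |P| := by simp
      _ ≤ ‖r‖ ^ 4 * (C * ((‖r‖ * a) ^ 3)⁻¹ * (E * E)) * (D * ε) := by gcongr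
      _ = C * D * (ε * (‖r‖ / a ^ 3) * E) * E := by field_simp
      _ ≤ C * D * (ε * (O / a ^ 3) * E) * 1 := by gcongr
      _ = _ := mul_one _
  have t4 : ‖e2 * (N / a ^ 4 : ℝ)‖ ≤ 2 * (C * D) * M :=
    calc _ = ‖e2‖ * (|N| / a ^ 4) := by
          rw [norm_mul, norm_real, Real.norm_eq_abs, abs_div, abs_of_pos (pow_pos ha 4)]
      _ ≤ C * (‖r‖ * a)⁻¹ * (E * E) * (D / a ^ 4) := by gcongr
      _ = 2 * (C * D) * ((2 * ‖r‖)⁻¹ / a ^ 5 * E) * E * 1 := by field_simp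
      _ ≤ 2 * (C * D) * (O⁻¹ / a ^ 5 * E) * 1 * (ε * (O * a) ^ 2) := by gcongr
      _ = _ := by rw [hM]; field_simp
  have := norm_add_le (X * σ * r ^ 3 * y1 + X * σ * r * y2 + r ^ 4 * e1 * P) (e2 * (N / a ^ 4 : ℝ))
  have := norm_add_le (X * σ * r ^ 3 * y1 + X * σ * r * y2) (r ^ 4 * e1 * P)
  have := norm_add_le (X * σ * r ^ 3 * y1) (X * σ * r * y2)
  nlinarith [mul_nonneg (mul_nonneg hC hD) M0]

theorem rt_sq (μ : ℂ) : rt μ ^ 2 = μ := by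
  rw [rt, show (1 / 2 : ℂ) = ((2 : ℕ) : ℂ)⁻¹ by norm_num, cpow_nat_inv_pow _ two_ne_zero]

theorem norm_rt (μ : ℂ) : ‖rt μ‖ = √‖μ‖ := by
  conv_rhs => rw [← rt_sq μ, norm_pow, Real.sqrt_sq (norm_nonneg _)]

theorem cpw {μ : ℂ} (hμ : μ ≠ 0) (ha : 0 < a) :
    (2 * (μ * (a ^ 2 : ℝ))) ^ (-(1 / 2) : ℂ) = (√2 * rt μ * a)⁻¹ := by
  have h1 : (0 : ℝ) < √2 * a := by positivity
  have h2 : 2 * (μ * (a ^ 2 : ℝ)) = (((√2 * a) ^ 2 : ℝ) : ℂ) * μ := by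
    rw [mul_pow, Real.sq_sqrt zero_le_two]
    push_cast
    ring
  rw [cpow_neg, h2, cpow_def_of_ne_zero (mul_ne_zero (ofReal_ne_zero.2 (pow_pos h1 2).ne') hμ),
    log_ofReal_mul (pow_pos h1 2) hμ, add_mul, exp_add, rt, cpow_def_of_ne_zero hμ, Real.log_pow,
    show ((((2 : ℕ) : ℝ) * Real.log (√2 * a) : ℝ) : ℂ) * (1 / 2) = (Real.log (√2 * a) : ℝ) by
      push_cast
      ring, ← ofReal_exp, Real.exp_log h1]
  push_cast
  ring

theorem par {p q : ℕ} (hq : 9 * (p + 1) + 2 ≤ 2 * q) {h : ℝ} (h1 : 1 ≤ h) :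
    1 ≤ om q h ∧ 0 < Tt q h ∧ 0 < eps p h ∧ eps p h ≤ 1 ∧ om q h * Tt q h ^ 3 ≤ 1 ∧
      1 ≤ eps p h * (om q h * (Tt q h * eps p h ^ 2)) := by
  have h0 : 0 < h := one_pos.trans_le h1
  refine ⟨one_le_pow₀ h1, by unfold Tt; positivity, by unfold eps; positivity,
    inv_le_one_of_one_le₀ (one_le_pow₀ h1), ?_, ?_⟩
  · rw [om, Tt, inv_pow, ← pow_mul, ← div_eq_mul_inv, div_le_one (by positivity)]
    exact pow_le_pow_right₀ h1 (by omega)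
  · have : eps p h * (om q h * (Tt q h * eps p h ^ 2)) =
        h ^ (3 * q) / (h ^ (q + 2) * (h ^ (3 * (p + 1))) ^ 3) := by
      rw [om, Tt, eps]
      field_simp
    rw [this, ← pow_mul, ← pow_add, one_le_div (by positivity)]
    exact pow_le_pow_right₀ h1 (by omega)

theorem cube {T c : ℝ} (hT : 0 < T) (hc : 0 < c) :
    c ^ 3 * Real.exp (-(c / (2 * T))) ≤ 48 * T ^ 3 := by
  have h := Real.pow_div_factorial_le_exp (c / (2 * T)) (by positivity) 3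
  rw [Real.exp_neg, ← div_eq_mul_inv, div_le_iff₀ (Real.exp_pos _)]
  refine le_trans (le_of_eq ?_) (mul_le_mul_of_nonneg_left h (by positivity))
  norm_num [Nat.factorial]
  field_simp
  norm_num

theorem id1 {K L X r m : ℂ} {a b k A B q s t : ℝ} (ha : a ≠ 0) (hb : b ≠ 0) (hr : r ≠ 0)
    (hs : s ≠ 0) (ht : t ≠ 0) :
    (-((r ^ 2) ^ 2 * L * A) - (r ^ 2) ^ 2 * K * B + L * q) / (2 * (s ^ 2 : ℝ)) + 2 * r ^ 2 * m =
      (X * (s / t : ℝ) * r ^ 5 * (k ^ 3 * b ^ 5 / 8 - a * A : ℝ) +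
        X * (s / t : ℝ) * r ^ 3 * (k / (2 * b) - B / a : ℝ) -
        r ^ 4 * (L - X * (s / t : ℝ) * r * a) * A - r ^ 4 * (K - X * (s / t : ℝ) / (r * a)) * B +
        L * q) / (2 * (s ^ 2 : ℝ)) + 2 * r ^ 2 * (m - X * (r * (k / (4 * (t * s) * b) : ℝ) *
          (1 / 2 + r ^ 2 * (k ^ 2 * (b ^ 2) ^ 3 / 8 : ℝ)))) := by
  have := ofReal_ne_zero.2 ha
  have := ofReal_ne_zero.2 hb
  have := ofReal_ne_zero.2 hs
  have := ofReal_ne_zero.2 ht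
  push_cast
  field_simp
  ring

theorem id2 {K L X r m : ℂ} {a b k n ν s t σ : ℝ} (ha : a ≠ 0) (hb : b ≠ 0) (hr : r ≠ 0)
    (hs : s ≠ 0) (hσ : σ = s * t / 2) :
    (-(((r ^ 2) ^ 2 * K + 2 * L / ((a ^ 2 : ℝ) : ℂ) ^ 2) * n) + L * ν) /
        (2 * (s ^ 2 : ℝ) * ((a ^ 2 : ℝ) : ℂ) ^ 2) - t * r * m =
      (X * σ * r ^ 3 * (-n / a ^ 4 / a - k ^ 2 * b ^ 3 / 4 : ℝ) +
        X * σ * r * ((2 * (-n / a ^ 4) + ν) / a ^ 3 - 1 / b ^ 3 : ℝ) +
        r ^ 4 * (K - X * σ / (r * a)) * (-n / a ^ 4 : ℝ) +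
        (L - X * σ * r * a) * ((2 * (-n / a ^ 4) + ν) / a ^ 4 : ℝ)) / (2 * (s ^ 2 : ℝ)) -
        t * r * (m - X * (((s * (b ^ 2 * b))⁻¹ : ℝ) *
          (1 / 4 + r ^ 2 * (k ^ 2 * (b ^ 2) ^ 3 / 16 : ℝ)))) := by
  have := ofReal_ne_zero.2 ha
  have := ofReal_ne_zero.2 hb
  have := ofReal_ne_zero.2 hs
  rw [hσ]
  push_cast
  field_simp
  ring

theorem half (z : ℂ) : ‖z / (2 * (√π ^ 2 : ℝ))‖ ≤ ‖z‖ := by
  rw [Real.sq_sqrt Real.pi_pos.le, norm_div]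
  refine div_le_self (norm_nonneg _) ?_
  rw [norm_mul, norm_real, Real.norm_of_nonneg Real.pi_pos.le, Complex.norm_two]
  linarith [Real.two_le_pi]

end F1b

open F1b in
theorem st_f1b (hA : St_A2) (hQ : St_QS) (hS : St_SH) (h0 : St_F0) (hM : St_MB) (hc : St_F1c) :
    St_F1b := by
  intro j p q hq
  have q4 : 4 ≤ q := by omega
  obtain ⟨CA, hA⟩ := hA
  obtain ⟨D, hD⟩ := K26.geo hQ j
  obtain ⟨CS, hs, hS⟩ := hS q q4
  obtain ⟨C0, h0', h0⟩ := h0 j q q4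
  obtain ⟨C1, h1', h1⟩ := hM j (-1) sA (p + 2) 1 q q4 fun n hn => by
    rw [Nat.lt_one_iff.1 hn]
    simp [sA]
  obtain ⟨C2, h2', h2⟩ := hM j (-(1 / 2)) sN0 (p + 2) 0 q q4 fun n hn => absurd hn n.not_lt_zero
  obtain ⟨C3, h3', h3⟩ := hc j p q hq
  refine ⟨(|C0| + 2 * |C1| + 2 * |C2|) * j +
      (|√π / √2 * D * 384 + √π / √2 * D + 4 * (CA * D)| + 2 * |C3|),
    max (max (max 1 hs) (max h0' h1')) (max h2' h3'), fun h hh γ y s v u hγ hy hne hv hu => ?_⟩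
  simp only [max_le_iff] at hh
  obtain ⟨⟨⟨a1, a2⟩, a3, a4⟩, a5, a6⟩ := hh
  obtain ⟨o1, T0, e0, e1, oT, eo⟩ := par hq a1
  obtain ⟨-, m1, m2, -⟩ := (hS h a2).2.1 y hy
  have m3 := ((hS h a2).1 _ m1).2
  have c0' : 0 < c0 γ v u := norm_pos_iff.2 (sub_ne_zero.2 hne)
  have cd : c0 γ v u ≤ |u - v| := (hγ.c0_le_abs v u).trans_eq (abs_sub_comm _ _)
  have d0 := c0'.trans_le cd
  obtain ⟨-, -, f1, -, -, -, f2⟩ := h0 h a3 γ y v u hγ hy hne
  have g1 := h1 h a4 y (kp γ s) (u - v) hy (hγ.bk s) (abs_pos.1 d0)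
  have g2 := h2 h a5 y (kp γ s) (u - v) hy (hγ.bk s) (abs_pos.1 d0)
  have h3 := h3 h a6 γ y s v u hγ hy fun e => hne (congrArg γ e)
  have hD := fun ε => hD γ s v u ε _ _ hγ (Real.sqrt_pos.2 c0') (Real.sqrt_pos.2 d0)
    (Real.sq_sqrt c0'.le) (Real.sq_sqrt d0.le)
  have dε : |u - v| ≤ |v - s| + |u - s| := by
    have := abs_sub_le u s v
    rw [abs_sub_comm s v] at this
    linarith
  have c2 : |u - v| ≤ j⁻¹ → |u - v| ≤ 2 * c0 γ v u := fun hd => by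
    rw [abs_sub_comm] at hd ⊢
    exact hγ.abs_le_two hd
  have re : (mu q h y).re = (Tt q h)⁻¹ := by simp [mu]
  have m4 := m2.trans (le_trans (le_abs_self _) (abs_im_le_norm _))
  have j1 := hγ.one_le
  intro μ o T k c E ε
  simp only [fKb, fNn, Nm] at f1 f2 ⊢
  change ‖μ‖ ≤ o at m3
  change o / 4 ≤ ‖μ‖ at m4
  change μ.re = T⁻¹ at re
  change 0 < c at c0'
  have o0 : 0 < o := one_pos.trans_le o1
  have μ0 : μ ≠ 0 := norm_pos_iff.1 (by linarith)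
  have E0 : 0 < E := Real.exp_pos _
  have ε1 : |v - s| + |u - s| ≤ ε := by simp only [ε]; linarith
  have ε2 : eps p h ≤ ε := by simp only [ε]; linarith [abs_nonneg (v - s), abs_nonneg (u - s)]
  have ε0 := e0.trans_le ε2
  have rO : ‖rt μ‖ ≤ √o := (norm_rt μ).trans_le (Real.sqrt_le_sqrt m3)
  have s2 : ‖((√2 : ℝ) : ℂ) * rt μ‖ ≤ 2 * √o := by
    rw [norm_mul, norm_real, Real.norm_of_nonneg (Real.sqrt_nonneg _)]
    gcongr
    exact Real.sqrt_le_iff.2 ⟨zero_le_two, by norm_num⟩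
  have s3 : ‖2 * μ‖ ≤ 2 * o := by
    rw [norm_mul, Complex.norm_two]
    gcongr
  have ex : Real.exp (-(3 * |u - v| / (4 * Tt q h))) ≤ E := Real.exp_le_exp.2 (neg_le_neg (by
    rw [div_le_div_iff₀ (by positivity) (by positivity)]
    nlinarith [mul_le_mul_of_nonneg_right cd T0.le, mul_pos d0 T0]))
  have i1 : (√|u - v|)⁻¹ ≤ (√c)⁻¹ := by gcongr
  have i2 : (|u - v| * √|u - v|)⁻¹ ≤ (c * √c)⁻¹ := by gcongr
  have fin : ∀ {x N w : ℝ}, 0 ≤ N → 0 ≤ w → (1 ≤ j * w ∧ x ≤ (|C0| + 2 * |C1| + 2 * |C2|) * N ∨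
      x ≤ (|√π / √2 * D * 384 + √π / √2 * D + 4 * (CA * D)| + 2 * |C3|) * (w * N)) →
      x ≤ ((|C0| + 2 * |C1| + 2 * |C2|) * j +
        (|√π / √2 * D * 384 + √π / √2 * D + 4 * (CA * D)| + 2 * |C3|)) * w * N := by
    intro x N w hN hw hx
    have b1 : 0 ≤ (|C0| + 2 * |C1| + 2 * |C2|) * N := by positivity
    have b2 : 0 ≤ (|√π / √2 * D * 384 + √π / √2 * D + 4 * (CA * D)| + 2 * |C3|) * (w * N) := by
      positivity
    rcases hx with ⟨b3, b4⟩ | b3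
    · nlinarith [mul_le_mul_of_nonneg_left b3 b1]
    · nlinarith [mul_nonneg b1 (mul_nonneg (zero_le_one.trans j1) hw)]
  have far : ¬|u - v| ≤ j⁻¹ → 1 ≤ j * ε := fun hd => by
    rw [← div_le_iff₀' (by linarith), one_div]
    linarith [not_le.1 hd]
  have oc : T * eps p h ^ 2 ≤ c → 1 ≤ eps p h * (o * c) := fun hc => eo.trans (by gcongr)
  have sz : |u - v| ≤ j⁻¹ → T * eps p h ^ 2 ≤ c → ‖L1 (μ * c)‖ ≤ CA * (1 + ‖rt μ‖ * √c) * (E * E) ∧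
      Sz (exp (-(μ * c))) (rt μ) (K0 (μ * c) - exp (-(μ * c)) * (√π / √2 : ℝ) / (rt μ * √c))
        (L1 (μ * c) - exp (-(μ * c)) * (√π / √2 : ℝ) * rt μ * √c) (√c) (√|u - v|) (√o) E ε CA
        384 := by
    intro hd hc
    have r0 : 0 < ‖rt μ‖ := by
      rw [norm_rt]
      exact Real.sqrt_pos.2 (norm_pos_iff.2 μ0)
    have a0 := Real.sqrt_pos.2 c0'
    have hX : ‖exp (-(μ * c))‖ = E * E := by
      rw [norm_exp, ← Real.exp_add, neg_re, re_mul_ofReal, re]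
      congr 1
      field_simp
      ring
    have z1 : √‖μ * c‖ = ‖rt μ‖ * √c := by
      rw [norm_mul, Real.sqrt_mul (norm_nonneg _), norm_rt, norm_real, Real.norm_of_nonneg c0'.le]
    have z2 : ‖μ * c‖ * √‖μ * c‖ = (‖rt μ‖ * √c) ^ 3 := by
      rw [← z1, pow_succ, Real.sq_sqrt (norm_nonneg _)]
    have z3 := cpw μ0 a0
    rw [Real.sq_sqrt c0'.le] at z3
    obtain ⟨-, -, b1, b2, b3, -⟩ := hA (μ * c) ⟨mul_ne_zero μ0 (ofReal_ne_zero.2 c0'.ne'), by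
      rw [re_mul_ofReal, re]
      exact (neg_nonpos.2 (by positivity)).trans (by positivity)⟩
    rw [z2, z3, hX] at b2
    rw [z1, hX] at b1
    rw [z1, z3, hX] at b3
    have n1 := ofReal_ne_zero.2 a0.ne'
    have n2 := norm_pos_iff.1 r0
    have n3 : ((√2 : ℝ) : ℂ) ≠ 0 := ofReal_ne_zero.2 (by positivity)
    have w : (√o * √c) ^ 2 = o * c := by rw [mul_pow, Real.sq_sqrt o0.le, Real.sq_sqrt c0'.le]
    have w1 := oc hc
    have w2 : 0 < o * c := mul_pos o0 c0'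
    refine ⟨b1, a0, Real.sqrt_le_sqrt cd, r0, rO, ?_, Real.one_le_sqrt.2 o1, E0,
      Real.exp_le_one_iff.2 (neg_nonpos.2 (by positivity)), hX, ?_, (le_of_eq ?_).trans b2,
      (le_of_eq ?_).trans b3, ?_, ?_, ?_, ?_⟩
    · rw [norm_rt]
      refine Real.sqrt_le_iff.2 ⟨by positivity, ?_⟩
      rw [mul_pow, Real.sq_sqrt (norm_nonneg _)]
      linarith
    · exact nonneg_of_mul_nonneg_left (nonneg_of_mul_nonneg_left ((norm_nonneg _).trans b1)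
        (by positivity)) (by positivity)
    · congr 2
      push_cast
      field_simp
    · have : μ * c = rt μ ^ 2 * (√c : ℝ) ^ 2 := by
        rw [rt_sq, ← ofReal_pow, Real.sq_sqrt c0'.le]
      congr 2
      nth_rw 3 [this]
      push_cast
      field_simp
    · rw [Real.sq_sqrt o0.le, show 6 = 2 * 3 from rfl, pow_mul, Real.sq_sqrt d0.le]
      calc _ ≤ o * (2 * c) ^ 3 * E := by gcongr; exact c2 hd
        _ = 8 * o * (c ^ 3 * E) := by ring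
        _ ≤ 8 * o * (48 * T ^ 3) := mul_le_mul_of_nonneg_left (cube T0 c0') (by positivity)
        _ = 384 * (o * T ^ 3) := by ring
        _ ≤ _ := mul_le_of_le_one_right (by norm_num) oT
    · rw [w]
      exact w1.trans (by gcongr)
    · refine (one_le_sq_iff₀ (by positivity)).1 ?_
      rw [w]
      exact w1.trans (mul_le_of_le_one_left w2.le e1)
    · rw [Real.sq_sqrt c0'.le]
      exact cd.trans (dε.trans ε1)
  have sp : (√π : ℝ) ≠ 0 := (Real.sqrt_pos.2 Real.pi_pos).ne'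
  have st : (√2 : ℝ) ≠ 0 := by positivity
  have σ0 : 0 ≤ √π / √2 := by positivity
  have a0 := Real.sqrt_pos.2 c0'
  have b0 := Real.sqrt_pos.2 d0
  have r0 : rt μ ≠ 0 := fun e => μ0 (by rw [← rt_sq μ, e]; simp)
  constructor
  · rw [mul_assoc _ _ E]
    have w0 : (0 : ℝ) ≤ if c ≤ T * eps p h ^ 2 then 1 else 0 := by split_ifs <;> norm_num
    refine fin (by positivity) (by positivity) ?_
    by_cases hn : |u - v| ≤ j⁻¹ ∧ ¬c ≤ T * eps p h ^ 2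
    · obtain ⟨b1, b2⟩ := sz hn.1 (not_le.1 hn.2).le
      obtain ⟨d1, d2, d3, d4, d5, -⟩ := hD ε hn.1 ε1 _ _ _ _ _ rfl rfl rfl rfl rfl
      have t1 := (half _).trans ((p1 b2 σ0 b1 d1 d2 d3 d4 d5).trans
        (mul_le_mul_of_nonneg_right (le_abs_self _) (by positivity)))
      have t2 := (h3 hn.1).2.2.1
      have t3 := id1 (K := K0 (μ * c)) (L := L1 (μ * c)) (X := exp (-(μ * c)))
        (m := md μ k (-1) sA (p + 2) (u - v)) (k := k)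
        (A := qq γ v u * rdot (nr γ v) (γ u - γ v) ^ 2 / c ^ 2)
        (B := e1v γ v u * qq γ v u + 2 * ee γ v u * q1 γ v u) (q := q2 γ v u) a0.ne' b0.ne' r0 sp st
      rw [rt_sq, Real.sq_sqrt d0.le, ← Real.sqrt_mul zero_le_two] at t3
      nth_rw 1 [Real.sq_sqrt Real.pi_pos.le] at t3
      rw [if_neg hn.2, add_zero]
      refine Or.inr ((congrArg norm t3).trans_le ((norm_add_le _ _).trans ?_))
      rw [add_mul]
      refine add_le_add (t1.trans_eq ?_) ?_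
      · rw [pow_succ, Real.sq_sqrt o0.le, div_eq_mul_inv (o * √o), mul_assoc ε]
      · calc _ ≤ 2 * o * (C3 * ε * (√o * (√|u - v|)⁻¹) * E) :=
              (norm_mul_le _ _).trans (mul_le_mul s3 t2 (norm_nonneg _) (by positivity))
          _ ≤ 2 * o * (|C3| * ε * (√o * (√c)⁻¹) * E) := by gcongr; exact le_abs_self _
          _ = _ := by ring
    · refine Or.inl ⟨?_, (norm_add_le _ _).trans ?_⟩
      · rcases not_and_or.1 hn with b | b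
        · exact (far b).trans (by gcongr; linarith)
        · rw [if_pos (not_not.1 b)]
          nlinarith
      · rw [show (-1 : ℝ) + 3 * ((1 : ℕ) : ℝ) / 2 - 1 = -(1 / 2) by norm_num, Real.rpow_neg d0.le,
          ← Real.sqrt_eq_rpow, pow_one] at g1
        calc _ ≤ C0 * (o * √o * (√c)⁻¹) * E + 2 * o * (C1 * √o * (√|u - v|)⁻¹ *
              Real.exp (-(3 * |u - v| / (4 * Tt q h)))) := add_le_add f1
              ((norm_mul_le _ _).trans (mul_le_mul s3 g1 (norm_nonneg _) (by positivity)))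
          _ ≤ |C0| * (o * √o * (√c)⁻¹) * E + 2 * o * (|C1| * √o * (√c)⁻¹ * E) := by
              gcongr <;> exact le_abs_self _
          _ = (|C0| + 2 * |C1| + 0) * (o * √o * (√c)⁻¹ * E) := by ring
          _ ≤ _ := by gcongr; positivity
  · intro hc
    rw [mul_assoc _ _ E]
    refine fin (by positivity) ε0.le ?_
    by_cases hn : |u - v| ≤ j⁻¹
    · obtain ⟨-, b2⟩ := sz hn hc
      obtain ⟨-, -, -, -, -, d1, d2, d3, d4⟩ := hD ε hn ε1 _ _ _ _ _ rfl rfl rfl rfl rfl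
      have t1 := (half _).trans ((p2 b2 σ0 d1 d2 d3 d4).trans
        (mul_le_mul_of_nonneg_right (le_abs_self _) (by positivity)))
      have t2 := (h3 hn).2.2.2.2
      have t3 := id2 (K := K0 (μ * c)) (L := L1 (μ * c)) (X := exp (-(μ * c)))
        (m := md μ k (-(1 / 2)) sN0 (p + 2) (u - v)) (k := k)
        (n := rdot (nr γ v) (γ u - γ v) * rdot (nr γ u) (γ u - γ v))
        (ν := rdot (nr γ v) (nr γ u)) (t := √2) (σ := √π / √2) a0.ne' b0.ne' r0 sp (by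
          rw [div_eq_div_iff st two_ne_zero, mul_assoc, Real.mul_self_sqrt zero_le_two])
      rw [rt_sq, Real.sq_sqrt d0.le, Real.sq_sqrt c0'.le] at t3
      nth_rw 1 [Real.sq_sqrt Real.pi_pos.le] at t3
      refine Or.inr ((congrArg norm t3).trans_le ((norm_sub_le _ _).trans ?_))
      rw [add_mul]
      refine add_le_add (t1.trans_eq ?_) ?_
      · rw [pow_succ, Real.sq_sqrt c0'.le, div_eq_mul_inv √o, mul_assoc ε]
      · calc _ ≤ 2 * √o * (C3 * ε * (|u - v| * √|u - v|)⁻¹ * E) :=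
              (norm_mul_le _ _).trans (mul_le_mul s2 t2 (norm_nonneg _) (by positivity))
          _ ≤ 2 * √o * (|C3| * ε * (c * √c)⁻¹ * E) := by gcongr; exact le_abs_self _
          _ = _ := by ring
    · refine Or.inl ⟨far hn, (norm_sub_le _ _).trans ?_⟩
      rw [show -(1 / 2 : ℝ) + 3 * ((0 : ℕ) : ℝ) / 2 - 1 = -(1 + 1 / 2) by norm_num,
        Real.rpow_neg d0.le, Real.rpow_add d0, Real.rpow_one, ← Real.sqrt_eq_rpow, pow_zero,
        mul_one] at g2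
      have f3 := f2 (by
        rw [inv_le_iff_one_le_mul₀' o0]
        exact (oc hc).trans (mul_le_of_le_one_left (mul_pos o0 c0').le e1))
      calc _ ≤ C0 * (√o * (c * √c)⁻¹) * E + 2 * √o * (C2 * (|u - v| * √|u - v|)⁻¹ *
            Real.exp (-(3 * |u - v| / (4 * Tt q h)))) := add_le_add f3
            ((norm_mul_le _ _).trans (mul_le_mul s2 g2 (norm_nonneg _) (by positivity)))
        _ ≤ |C0| * (√o * (c * √c)⁻¹) * E + 2 * √o * (|C2| * (c * √c)⁻¹ * E) := by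
            gcongr <;> exact le_abs_self _
        _ = (|C0| + 0 + 2 * |C2|) * (√o * (c * √c)⁻¹ * E) := by ring
        _ ≤ _ := by gcongr; positivity

end Pool.Agent.Lib.IS2
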