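import Pool.Agent.Lib.IS2.Blue

/-! Row `F1c`: the models in closed form. -/

open scoped ContDiff ComplexConjugate Topology Real
open Complex MeasureTheory Set Filter

noncomputable section

namespace Pool.Agent.Lib.IS2

open Pool.Agent.Lib.ISO

namespace F1c

/-- finite sums of the exponential series -/
def S (N : ℕ) (w : ℂ) : ℂ := ∑ i ∈ Finset.range N, w ^ i / i.factorial

theorem S_der (N : ℕ) (w : ℂ) : HasDerivAt (S (N + 1)) (S N w) w := by
  induction N with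
  | zero =>
    have e : S (0 + 1) = fun _ => (1 : ℂ) := by funext z; simp [S]
    rw [e]; simpa [S] using hasDerivAt_const w (1 : ℂ)
  | succ N ih =>
    have h := ih.add ((hasDerivAt_pow (N + 1) w).div_const ((N + 1).factorial : ℂ))
    have e : S (N + 1 + 1) = S (N + 1) + fun x => x ^ (N + 1) / ((N + 1).factorial : ℂ) := by
      funext z; simp only [S, Finset.sum_range_succ _ (N + 1), Pi.add_apply]
    rw [e]
    refine h.congr_deriv ?_
    have h1 : (N.factorial : ℂ) ≠ 0 := Nat.cast_ne_zero.2 N.factorial_ne_zero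
    have h2 : (N : ℂ) + 1 ≠ 0 := Nat.cast_add_one_ne_zero N
    simp only [S, Finset.sum_range_succ, Nat.factorial_succ, Nat.add_sub_cancel]
    push_cast
    field_simp

/-- the remainder of the exponential series in the right half plane -/
theorem rem (N : ℕ) : ∀ w : ℂ, 0 ≤ w.re → ‖exp w - S N w‖ ≤ ‖w‖ ^ N * Real.exp w.re := by
  induction N with
  | zero => intro w _; simp [S, norm_exp]
  | succ N ih =>
    intro w hw
    have h := (convex_segment (0 : ℂ) w).norm_image_sub_le_of_norm_hasDerivWithin_le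
      (f := fun z => exp z - S (N + 1) z) (f' := fun z => exp z - S N z)
      (C := ‖w‖ ^ N * Real.exp w.re)
      (fun z _ => ((hasDerivAt_exp z).sub (S_der N z)).hasDerivWithinAt) ?_
      (left_mem_segment ℝ 0 w) (right_mem_segment ℝ 0 w)
    · have e : S (N + 1) 0 = 1 := by simp [S, Finset.sum_range_succ']
      simp only [e, exp_zero, sub_self, sub_zero] at h
      calc _ ≤ _ := h
        _ = _ := by ring
    · rintro z ⟨a, b, ha, hb, hab, rfl⟩
      have hb1 : b ≤ 1 := by linarith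
      have e1 : (a • (0 : ℂ) + b • w).re = b * w.re := by simp
      have e2 : ‖a • (0 : ℂ) + b • w‖ ≤ ‖w‖ := by
        rw [smul_zero, zero_add, norm_smul, Real.norm_of_nonneg hb]
        exact mul_le_of_le_one_left (norm_nonneg _) hb1
      refine (ih _ (e1 ▸ mul_nonneg hb hw)).trans ?_
      rw [e1]
      gcongr
      exact mul_le_of_le_one_left hw hb1

theorem exp_lip {z w : ℂ} {m : ℝ} (hz : z.re ≤ m) (hw : w.re ≤ m) :
    ‖exp z - exp w‖ ≤ Real.exp m * ‖z - w‖ :=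
  (convex_halfSpace_re_le m).norm_image_sub_le_of_norm_hasDerivWithin_le (f := exp) (f' := exp)
    (fun x _ => (hasDerivAt_exp x).hasDerivWithinAt)
    (fun x hx => by rw [norm_exp]; exact Real.exp_le_exp.2 hx) hw hz

theorem poly_exp (m : ℕ) {a : ℝ} (ha : 0 < a) :
    ∃ K, 0 ≤ K ∧ ∀ x, 0 ≤ x → (1 + x) ^ m * Real.exp (-(a * x)) ≤ K := by
  refine ⟨m.factorial * Real.exp a / a ^ m, by positivity, fun x hx => ?_⟩
  have h := Real.pow_div_factorial_le_exp (a * (1 + x)) (by positivity) m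
  rw [div_le_iff₀ (by positivity), mul_pow, mul_add, mul_one, Real.exp_add] at h
  rw [le_div_iff₀ (by positivity), Real.exp_neg]
  have h0 := Real.exp_pos (a * x)
  calc (1 + x) ^ m * (Real.exp (a * x))⁻¹ * a ^ m = a ^ m * (1 + x) ^ m / Real.exp (a * x) := by ring
    _ ≤ Real.exp a * Real.exp (a * x) * m.factorial / Real.exp (a * x) := by gcongr
    _ = _ := by field_simp

/-- the core estimate -/
theorem core {j : ℝ} (hj : 1 ≤ j) {C1 : ℝ} (hC : 0 ≤ C1) (N0 : ℕ) : ∃ C, 0 ≤ C ∧ ∀ N ≤ N0,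
    ∀ (T o k d c r : ℝ) (μ : ℂ), 0 < T → o * T ^ 3 ≤ 1 → ‖μ‖ ≤ o → μ.re = T⁻¹ → |k| ≤ j → 0 < d →
    d ≤ j⁻¹ → c ≤ d → d ≤ j * c → 0 ≤ r → |c - (d - k ^ 2 * d ^ 3 / 24)| ≤ C1 * d ^ 3 * r →
    ‖μ * (k ^ 2 * d ^ 3 / 24 : ℝ)‖ ≤ j ^ 2 * (o * T ^ 3) * (1 + d / T) ^ 3 ∧
    ‖exp (-(μ * d)) * S N (μ * (k ^ 2 * d ^ 3 / 24 : ℝ)) - exp (-(μ * c))‖ * (1 + d / T) ^ 3 ≤
      C * ((o * T ^ 3) ^ N + r) * Real.exp (-(c / (2 * T))) := by
  have j0 : 0 < j := by linarith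
  obtain ⟨K, hK, hk⟩ := poly_exp (3 * N0 + 6) (a := (4 * j)⁻¹) (by positivity)
  refine ⟨((j ^ 2) ^ N0 + C1) * K, by positivity, ?_⟩
  intro N hN T o k d c r μ hT hη hμ hre hkj hd hdj hcd hdc hr hc
  have o0 : 0 ≤ o := (norm_nonneg _).trans hμ
  set x := d / T with hx
  have x0 : 0 ≤ x := by positivity
  have dx : d = T * x := by rw [hx]; field_simp
  set η := o * T ^ 3 with hη'
  have η0 : 0 ≤ η := by positivity
  have k2 : k ^ 2 ≤ j ^ 2 := by rw [← sq_abs]; gcongr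
  have kd : k ^ 2 * d ^ 2 ≤ 1 := by
    calc k ^ 2 * d ^ 2 ≤ j ^ 2 * j⁻¹ ^ 2 := by gcongr
      _ = 1 := by field_simp
  set g := k ^ 2 * d ^ 3 / 24 with hg
  have g0 : 0 ≤ g := by positivity
  have g1 : g ≤ d / 24 := by
    rw [hg, show k ^ 2 * d ^ 3 = k ^ 2 * d ^ 2 * d by ring]
    gcongr
    exact mul_le_of_le_one_left hd.le kd
  have od : o * d ^ 3 ≤ η * (1 + x) ^ 3 := by
    rw [show o * d ^ 3 = η * x ^ 3 by rw [hη', dx]; ring]
    gcongr
    linarith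
  have w1 : ‖μ * (g : ℂ)‖ ≤ j ^ 2 * η * (1 + x) ^ 3 := by
    rw [norm_mul, norm_real, Real.norm_of_nonneg g0]
    calc ‖μ‖ * g ≤ o * (j ^ 2 * d ^ 3) := by
          gcongr
          rw [hg]
          nlinarith [mul_le_mul_of_nonneg_right k2 (pow_pos hd 3).le, mul_pos (pow_pos j0 2) (pow_pos hd 3)]
      _ = j ^ 2 * (o * d ^ 3) := by ring
      _ ≤ _ := by rw [mul_assoc]; gcongr
  refine ⟨w1, ?_⟩
  have re : ∀ t : ℝ, (μ * (t : ℂ)).re = t / T := fun t => by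
    rw [re_mul_ofReal, hre]; ring
  set m := -(c / (2 * T)) + -((4 * j)⁻¹ * x) with hm
  have hm' : ∀ t : ℝ, c / 2 + d / (4 * j) ≤ t → -(t / T) ≤ m := fun t ht => by
    rw [show m = -((c / 2 + d / (4 * j)) / T) by rw [hm, hx]; field_simp; ring]
    gcongr
  have dj : d / (4 * j) ≤ d / 4 := by gcongr; linarith
  have dj' : d / (4 * j) ≤ c / 4 := by rw [div_le_iff₀ (by positivity)]; linarith
  have c0' : 0 ≤ c := le_trans (by positivity) (dj'.trans (by nlinarith [mul_pos_iff_of_pos_left j0 |>.1 (hd.trans_le hdc)]))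
  have t1 : ‖exp (-(μ * d)) * (exp (μ * g) - S N (μ * g))‖ ≤
      (j ^ 2 * η * (1 + x) ^ 3) ^ N * Real.exp m := by
    rw [norm_mul, norm_exp, neg_re, re]
    calc _ ≤ Real.exp (-(d / T)) * ((j ^ 2 * η * (1 + x) ^ 3) ^ N * Real.exp (g / T)) := by
          gcongr
          refine (rem N _ (by rw [re]; positivity)).trans ?_
          rw [re]; gcongr
      _ = (j ^ 2 * η * (1 + x) ^ 3) ^ N * Real.exp (-((d - g) / T)) := by
          rw [show -((d - g) / T) = -(d / T) + g / T by ring, Real.exp_add]; ring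
      _ ≤ _ := by gcongr; exact hm' _ (by linarith)
  have t2 : ‖exp (-(μ * (d - g : ℝ))) - exp (-(μ * c))‖ ≤ Real.exp m * (C1 * (1 + x) ^ 3 * r) := by
    refine (exp_lip (m := m) ?_ ?_).trans ?_
    · rw [neg_re, re]; exact hm' _ (by linarith)
    · rw [neg_re, re]; exact hm' _ (by linarith)
    · gcongr
      rw [show -(μ * (d - g : ℝ)) - -(μ * c) = μ * (c - (d - g) : ℝ) by push_cast; ring, norm_mul,
        norm_real, Real.norm_eq_abs]
      calc _ ≤ o * (C1 * d ^ 3 * r) := by gcongr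
        _ = C1 * (o * d ^ 3) * r := by ring
        _ ≤ C1 * (η * (1 + x) ^ 3) * r := by gcongr
        _ ≤ _ := by gcongr; exact mul_le_of_le_one_left (by positivity) hη
  have e : exp (-(μ * d)) * S N (μ * g) - exp (-(μ * c)) =
      (exp (-(μ * (d - g : ℝ))) - exp (-(μ * c))) -
        exp (-(μ * d)) * (exp (μ * g) - S N (μ * g)) := by
    rw [show -(μ * (d - g : ℝ)) = -(μ * d) + μ * g by push_cast; ring, exp_add]; ring
  have x1 : 1 ≤ 1 + x := by linarith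
  have p1 : ((1 + x) ^ 3) ^ N * (1 + x) ^ 3 ≤ (1 + x) ^ (3 * N0 + 6) := by
    rw [← pow_mul, ← pow_add]; exact pow_le_pow_right₀ x1 (by omega)
  have p2 : (1 + x) ^ 3 * (1 + x) ^ 3 ≤ (1 + x) ^ (3 * N0 + 6) := by
    rw [← pow_add]; exact pow_le_pow_right₀ x1 (by omega)
  have p3 : (j ^ 2) ^ N ≤ (j ^ 2) ^ N0 := pow_le_pow_right₀ (one_le_pow₀ hj) hN
  have hE := Real.exp_pos (-(c / (2 * T)))
  rw [e]
  calc _ ≤ (Real.exp m * (C1 * (1 + x) ^ 3 * r) + (j ^ 2 * η * (1 + x) ^ 3) ^ N * Real.exp m) *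
        (1 + x) ^ 3 := by
        gcongr
        exact (norm_sub_le _ _).trans (add_le_add t2 t1)
    _ = (C1 * r * ((1 + x) ^ 3 * (1 + x) ^ 3) +
        (j ^ 2) ^ N * η ^ N * (((1 + x) ^ 3) ^ N * (1 + x) ^ 3)) * Real.exp m := by
        rw [mul_pow, mul_pow]; ring
    _ ≤ (C1 * r * (1 + x) ^ (3 * N0 + 6) + (j ^ 2) ^ N0 * η ^ N * (1 + x) ^ (3 * N0 + 6)) *
        Real.exp m := by gcongr
    _ = (C1 * r + (j ^ 2) ^ N0 * η ^ N) * ((1 + x) ^ (3 * N0 + 6) * Real.exp (-((4 * j)⁻¹ * x))) *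
        Real.exp (-(c / (2 * T))) := by rw [hm, Real.exp_add]; ring
    _ ≤ (((j ^ 2) ^ N0 + C1) * (η ^ N + r)) * K * Real.exp (-(c / (2 * T))) := by
        gcongr
        · nlinarith [mul_nonneg hC (pow_nonneg η0 N), mul_nonneg (pow_nonneg (pow_nonneg j0.le 2) N0) hr]
        · exact hk x x0
    _ = _ := by ring

theorem sum_par (g : ℕ → ℂ) (M : ℕ) : ∑ n ∈ Finset.range M, g n =
    ∑ i ∈ Finset.range ((M + 1) / 2), g (2 * i) + ∑ i ∈ Finset.range (M / 2), g (2 * i + 1) := by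
  induction M with
  | zero => simp
  | succ M ih =>
    rw [Finset.sum_range_succ, ih]
    obtain ⟨i, rfl | rfl⟩ := Nat.even_or_odd' M
    · rw [show (2 * i + 1 + 1) / 2 = i + 1 by omega, show (2 * i + 1) / 2 = i by omega,
        show 2 * i / 2 = i by omega, Finset.sum_range_succ]
      ring
    · rw [show (2 * i + 1 + 1 + 1) / 2 = i + 1 by omega, show (2 * i + 1 + 1) / 2 = i + 1 by omega,
        show (2 * i + 1) / 2 = i by omega, Finset.sum_range_succ (fun i => g (2 * i + 1))]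
      ring

theorem S_mul (N : ℕ) (w : ℂ) :
    ∑ i ∈ Finset.range (N + 1), (i : ℂ) * (w ^ i / i.factorial) = w * S N w := by
  rw [Finset.sum_range_succ', S, Finset.mul_sum]
  simp only [Nat.cast_zero, zero_mul, add_zero]
  refine Finset.sum_congr rfl fun i _ => ?_
  have h1 : (i.factorial : ℂ) ≠ 0 := Nat.cast_ne_zero.2 i.factorial_ne_zero
  have h2 : (i : ℂ) + 1 ≠ 0 := Nat.cast_add_one_ne_zero i
  rw [Nat.factorial_succ]
  push_cast
  field_simp
  ring

theorem S_lin (N : ℕ) (w a : ℂ) :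
    ∑ i ∈ Finset.range (N + 1), (3 * (i : ℂ) + a) * (w ^ i / i.factorial) =
      a * S (N + 1) w + 3 * (w * S N w) := by
  rw [← S_mul, S, Finset.mul_sum, Finset.mul_sum, ← Finset.sum_add_distrib]
  exact Finset.sum_congr rfl fun i _ => by ring

theorem gam (n : ℕ) : Real.Gamma (n + 1 / 2) = √π * ∏ i ∈ Finset.range n, ((i : ℝ) + 1 / 2) := by
  induction n with
  | zero => simp [← Real.Gamma_one_half_eq]
  | succ n ih =>
    rw [Finset.prod_range_succ, show ((n + 1 : ℕ) : ℝ) + 1 / 2 = (n + 1 / 2) + 1 by push_cast; ring,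
      Real.Gamma_add_one (by positivity), ih]
    ring

theorem rt_sq (μ : ℂ) : rt μ ^ 2 = μ := by
  rw [rt, one_div]; exact cpow_ofNat_inv_pow μ 2

theorem norm_rt (μ : ℂ) : ‖rt μ‖ = √‖μ‖ := by
  conv_rhs => rw [← rt_sq μ, norm_pow, Real.sqrt_sq (norm_nonneg _)]

/-- the general term -/
theorem term (μ : ℂ) (k : ℝ) {x : ℝ} (hx : x ≠ 0) (i : ℕ) (a b G : ℝ) (hb : b = 3 * i + a + 1)
    (hG : Real.Gamma b * G = Real.Gamma (3 * i + 1 / 2)) :
    (sj i : ℂ) * (k * rt μ / √2) ^ (2 * i) * eb μ b x = exp (-(μ * |x|)) *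
      ((|x| ^ a * G / √π : ℝ) * ((μ * (k ^ 2 * |x| ^ 3 / 24 : ℝ)) ^ i / i.factorial)) := by
  have d0 : 0 < |x| := abs_pos.2 hx
  have g := gam (3 * i)
  have p0 : 0 < ∏ i ∈ Finset.range (3 * i), ((i : ℝ) + 1 / 2) :=
    Finset.prod_pos fun _ _ => by positivity
  have s0 : 0 < √π := Real.sqrt_pos.2 Real.pi_pos
  push_cast at g
  have b0 : Real.Gamma b ≠ 0 := fun h => by
    rw [h, zero_mul, g] at hG
    exact (mul_pos s0 p0).ne hG
  have e1 : ((k : ℂ) * rt μ / √2) ^ 2 = μ * (k ^ 2 / 2 : ℝ) := by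
    rw [div_pow, mul_pow, rt_sq, ← ofReal_pow (√2), Real.sq_sqrt zero_le_two]
    push_cast; ring
  have e2 : |x| ^ (b - 1) = |x| ^ a * (|x| ^ 3) ^ i := by
    rw [hb, ← pow_mul, ← Real.rpow_natCast, ← Real.rpow_add d0]
    congr 1
    push_cast; ring
  have e3 : sj i * (k ^ 2 / 2) ^ i * (|x| ^ (b - 1) / Real.Gamma b) =
      |x| ^ a * G / √π * ((k ^ 2 * |x| ^ 3 / 24) ^ i / i.factorial) := by
    have : G = √π * (∏ i ∈ Finset.range (3 * i), ((i : ℝ) + 1 / 2)) / Real.Gamma b := by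
      rw [← g, ← hG]; field_simp
    rw [e2, this, sj, show k ^ 2 * |x| ^ 3 / 24 = k ^ 2 / 2 * |x| ^ 3 / 12 by ring, div_pow _ 12,
      mul_pow]
    generalize ∏ i ∈ Finset.range (3 * i), ((i : ℝ) + 1 / 2) = Q
    field_simp
  have e4 := congrArg ofReal e3
  rw [pow_mul, e1, eb, mul_pow, mul_pow]
  simp only [ofReal_mul (sj i * _), ofReal_mul (sj i), ofReal_mul (_ / √π), ofReal_pow,
    ofReal_div (_ ^ i) (i.factorial : ℝ), ofReal_natCast] at e4 ⊢
  linear_combination exp (-(μ * |x|)) * μ ^ i * e4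

theorem ev2 (i : ℕ) : Even (2 * i) := even_two_mul i

theorem od2 (i : ℕ) : ¬ Even (2 * i + 1) := Nat.not_even_two_mul_add_one i

variable (μ : ℂ) (k : ℝ) {x : ℝ}

theorem md_P (hx : x ≠ 0) (P : ℕ) (a b : ℝ) (G : ℕ → ℝ) (hb : b = a + 1)
    (hG : ∀ i : ℕ, Real.Gamma (3 * i + a + 1) * G i = Real.Gamma (3 * i + 1 / 2)) :
    md μ k b sP P x = exp (-(μ * |x|)) * ((|x| ^ a / √π : ℝ) * ∑ i ∈ Finset.range (P / 2 + 1),
      (G i : ℂ) * ((μ * (k ^ 2 * |x| ^ 3 / 24 : ℝ)) ^ i / i.factorial)) := by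
  rw [md, sum_par, show (P + 1 + 1) / 2 = P / 2 + 1 by omega, Finset.mul_sum, Finset.mul_sum]
  simp only [sP, PowerSeries.coeff_mk, if_pos (ev2 _), if_neg (od2 _), ofReal_zero, zero_mul,
    Finset.sum_const_zero, add_zero]
  refine Finset.sum_congr rfl fun i _ => ?_
  have e : b + 3 * ((2 * i : ℕ) : ℝ) / 2 = 3 * i + a + 1 := by rw [hb]; push_cast; ring
  rw [show 2 * i / 2 = i by omega, e, term μ k hx i a _ (G i) rfl (hG i)]
  push_cast; ring

theorem md_A (hx : x ≠ 0) (P : ℕ) (a b : ℝ) (G : ℕ → ℝ) (hb : b + 1 / 2 = a)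
    (hG : ∀ i : ℕ, Real.Gamma (3 * i + a + 1) * G i = Real.Gamma (3 * i + 1 / 2)) :
    md μ k b sA P x = exp (-(μ * |x|)) * (rt μ * (k * |x| ^ a / (4 * √(2 * π)) : ℝ) *
      ∑ i ∈ Finset.range ((P + 1) / 2), ((3 * i + 1 / 2) * G i : ℝ) *
        ((μ * (k ^ 2 * |x| ^ 3 / 24 : ℝ)) ^ i / i.factorial)) := by
  rw [md, sum_par, Finset.mul_sum, Finset.mul_sum]
  simp only [sA, PowerSeries.coeff_mk, if_pos (ev2 _), if_neg (od2 _), ofReal_zero, zero_mul,
    Finset.sum_const_zero, zero_add]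
  refine Finset.sum_congr rfl fun i _ => ?_
  have e : b + 3 * ((2 * i + 1 : ℕ) : ℝ) / 2 = 3 * i + a + 1 := by rw [← hb]; push_cast; ring
  have h := term μ k hx i a _ (G i) rfl (hG i)
  rw [show (2 * i + 1) / 2 = i by omega, e, pow_succ, Real.sqrt_mul zero_le_two]
  push_cast at h ⊢
  linear_combination (3 * i + 1 / 2) / 4 * (k * rt μ / √2) * h

theorem md_B (hx : x ≠ 0) (P : ℕ) (a b : ℝ) (G : ℕ → ℝ) (hb : b + 2 = a)
    (hG : ∀ i : ℕ, Real.Gamma (3 * i + a + 1) * G i = Real.Gamma (3 * i + 1 / 2)) :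
    md μ k b sB P x = exp (-(μ * |x|)) * (μ * (k ^ 2 * |x| ^ a / (2 * √π) : ℝ) *
      ∑ i ∈ Finset.range (P / 2), ((3 * i + 1 / 2) * (3 * i + 3 / 2) * G i : ℝ) *
        ((μ * (k ^ 2 * |x| ^ 3 / 24 : ℝ)) ^ i / i.factorial)) := by
  rw [md, sum_par, show (P + 1 + 1) / 2 = P / 2 + 1 by omega, Finset.sum_range_succ',
    Finset.mul_sum, Finset.mul_sum]
  have h2 : ∀ i : ℕ, Even (2 * (i + 1)) ∧ 2 ≤ 2 * (i + 1) := fun i => ⟨ev2 _, by omega⟩
  have h3 : ∀ i : ℕ, ¬ (Even (2 * i + 1) ∧ 2 ≤ 2 * i + 1) := fun i h => od2 i h.1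
  have h4 : ¬ (Even (2 * 0) ∧ 2 ≤ 2 * 0) := fun h => by omega
  simp only [sB, PowerSeries.coeff_mk, if_pos (h2 _), if_neg (h3 _), if_neg h4, ofReal_zero,
    zero_mul, Finset.sum_const_zero, add_zero]
  refine Finset.sum_congr rfl fun i _ => ?_
  have e : b + 3 * ((2 * (i + 1) : ℕ) : ℝ) / 2 = 3 * i + a + 1 := by rw [← hb]; push_cast; ring
  have h := term μ k hx i a _ (G i) rfl (hG i)
  have e1 : ((k : ℂ) * rt μ / √2) ^ 2 = μ * k ^ 2 / 2 := by
    rw [div_pow, mul_pow, rt_sq, ← ofReal_pow (√2), Real.sq_sqrt zero_le_two]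
    push_cast; ring
  rw [show 2 * (i + 1) / 2 - 1 = i by omega, e, mul_add 2 i, pow_add, mul_one, e1]
  push_cast at h ⊢
  linear_combination (3 * i + 1 / 2) * (3 * i + 3 / 2) * (μ * k ^ 2 / 2) * h

theorem md_N (b : ℝ) (P : ℕ) (x : ℝ) :
    md μ k b sN0 P x = -(1 / 2) * md μ k b sP P x + 1 / 4 * md μ k b sB P x := by
  simp only [md, sN0, map_add, PowerSeries.coeff_C_mul, Finset.mul_sum, ← Finset.sum_add_distrib]
  exact Finset.sum_congr rfl fun i _ => by push_cast; ring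

theorem G1 (i : ℕ) : Real.Gamma (3 * i + 1 / 2 + 1) * (3 * (i : ℝ) + 1 / 2)⁻¹ =
    Real.Gamma (3 * i + 1 / 2) := by
  rw [Real.Gamma_add_one (by positivity)]; field_simp

theorem G0 (i : ℕ) : Real.Gamma (3 * i + -(1 / 2) + 1) * 1 = Real.Gamma (3 * i + 1 / 2) := by
  rw [mul_one]; congr 1; ring

theorem G2 (i : ℕ) : Real.Gamma (3 * i + 3 / 2 + 1) * ((3 * (i : ℝ) + 1 / 2) * (3 * i + 3 / 2))⁻¹ =
    Real.Gamma (3 * i + 1 / 2) := by
  rw [Real.Gamma_add_one (by positivity), show 3 * (i : ℝ) + 3 / 2 = 3 * i + 1 / 2 + 1 by ring,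
    Real.Gamma_add_one (by positivity)]
  field_simp

theorem G3 (i : ℕ) : Real.Gamma (3 * i + -(3 / 2) + 1) * (3 * i + -(1 / 2)) =
    Real.Gamma (3 * i + 1 / 2) := by
  have h : 3 * (i : ℝ) + -(1 / 2) ≠ 0 := fun h => by
    have : ((6 * i : ℕ) : ℝ) = (1 : ℕ) := by push_cast; linarith
    have := Nat.cast_injective this
    omega
  rw [show 3 * (i : ℝ) + 1 / 2 = 3 * i + -(1 / 2) + 1 by ring, Real.Gamma_add_one h,
    show 3 * (i : ℝ) + -(3 / 2) + 1 = 3 * i + -(1 / 2) by ring, mul_comm]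

theorem r1 {d : ℝ} (hd : 0 < d) : d ^ (1 / 2 : ℝ) = √d ∧ d ^ (-(1 / 2) : ℝ) = (√d)⁻¹ ∧
    d ^ (3 / 2 : ℝ) = d * √d ∧ d ^ (-(3 / 2) : ℝ) = (d * √d)⁻¹ := by
  have h1 : d ^ (1 / 2 : ℝ) = √d := (Real.sqrt_eq_rpow d).symm
  have h2 : d ^ (3 / 2 : ℝ) = d * √d := by
    rw [show (3 / 2 : ℝ) = 1 + 1 / 2 by norm_num, Real.rpow_add hd, Real.rpow_one, h1]
  exact ⟨h1, by rw [Real.rpow_neg hd.le, h1], h2, by rw [Real.rpow_neg hd.le, h2]⟩

/-- the five models in terms of finite sums of the exponential series -/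
theorem closed (hx : x ≠ 0) (p : ℕ) :
    let d := |x|
    let Z := exp (-(μ * d))
    let w := μ * (k ^ 2 * d ^ 3 / 24 : ℝ)
    md μ k (1 / 2) sP (p + 2) x = Z * S (p / 2 + 2) w * ((√π * √d)⁻¹ : ℝ) ∧
    md μ k 0 sA (p + 2) x = Z * S ((p + 1) / 2 + 1) w * (rt μ * (k * √d / (4 * √(2 * π)) : ℝ)) ∧
    md μ k (-1) sA (p + 2) x = rt μ * (k / (4 * √(2 * π) * √d) : ℝ) *
      (1 / 2 * (Z * S ((p + 1) / 2 + 1) w) + 3 * (w * (Z * S ((p + 1) / 2) w))) ∧
    md μ k (-(1 / 2)) sB (p + 2) x =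
      Z * S (p / 2 + 1) w * (μ * (k ^ 2 * (d * √d) / (2 * √π) : ℝ)) ∧
    md μ k (-(1 / 2)) sN0 (p + 2) x = ((√π * (d * √d))⁻¹ : ℝ) *
      (1 / 4 * (Z * S (p / 2 + 2) w) + 3 / 2 * (w * (Z * S (p / 2 + 1) w))) := by
  intro d Z w
  have d0 : 0 < d := abs_pos.2 hx
  obtain ⟨a1, a2, a3, a4⟩ := r1 d0
  have n1 : (p + 2) / 2 = p / 2 + 1 := by omega
  have n2 : (p + 2 + 1) / 2 = (p + 1) / 2 + 1 := by omega
  have h4 : md μ k (-(1 / 2)) sB (p + 2) x =
      Z * S (p / 2 + 1) w * (μ * (k ^ 2 * (d * √d) / (2 * √π) : ℝ)) := by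
    rw [md_B μ k hx _ (3 / 2) _ _ (by norm_num) G2, n1, a3, S, mul_assoc Z, mul_comm (∑ i ∈ _, _)]
    congr 2
    refine Finset.sum_congr rfl fun i _ => ?_
    rw [mul_inv_cancel₀ (by positivity), ofReal_one, one_mul]
  refine ⟨?_, ?_, ?_, h4, ?_⟩
  · rw [md_P μ k hx _ (-(1 / 2)) _ _ (by norm_num) G0, n1, a2, S]
    simp only [ofReal_one, one_mul, w, Z, d]
    push_cast; ring
  · rw [md_A μ k hx _ (1 / 2) _ _ (by norm_num) G1, n2, a1, S, mul_assoc Z, mul_comm (∑ i ∈ _, _)]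
    congr 2
    refine Finset.sum_congr rfl fun i _ => ?_
    rw [mul_inv_cancel₀ (by positivity), ofReal_one, one_mul]
  · have h := S_lin ((p + 1) / 2) w (1 / 2)
    rw [md_A μ k hx _ (-(1 / 2)) _ _ (by norm_num) G0, n2, a2]
    simp only [mul_one, ofReal_add, ofReal_mul (3 : ℝ), ofReal_natCast, ofReal_ofNat,
      ofReal_div (1 : ℝ), ofReal_one]
    rw [h]
    push_cast; ring
  · have h := S_lin (p / 2 + 1) w (-(1 / 2))
    have s0 : ((√d : ℝ) : ℂ) ≠ 0 := ofReal_ne_zero.2 (Real.sqrt_pos.2 d0).ne'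
    have s1 : ((√π : ℝ) : ℂ) ≠ 0 := ofReal_ne_zero.2 (Real.sqrt_pos.2 Real.pi_pos).ne'
    have s2 : (d : ℂ) = (√d : ℝ) ^ 2 := by rw [← ofReal_pow, Real.sq_sqrt d0.le]
    rw [md_N, h4, md_P μ k hx _ (-(3 / 2)) _ _ (by norm_num) G3, n1, a4]
    simp only [ofReal_add, ofReal_mul (3 : ℝ), ofReal_natCast, ofReal_ofNat, ofReal_neg,
      ofReal_div (1 : ℝ), ofReal_one]
    rw [h]
    generalize S (p / 2 + 1 + 1) w = A
    generalize S (p / 2 + 1) w = B
    simp only [w, Z]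
    push_cast
    generalize exp (-(μ * d)) = Y
    generalize ((√d : ℝ) : ℂ) = t at s0 s2 ⊢
    rw [s2]
    field_simp
    ring

/-- size of the spectral parameter on the segment -/
theorem mu_bd {q : ℕ} (hq : 4 ≤ q) {h y : ℝ} (hh : 2 ≤ h) (hy : |y| ≤ YY q h) :
    ‖mu q h y‖ ≤ om q h ∧ (mu q h y).re = (Tt q h)⁻¹ := by
  have h1 : 1 ≤ h := by linarith
  refine ⟨?_, by simp [mu]⟩
  have e1 : (Tt q h)⁻¹ = h ^ (q + 2) := inv_inv _
  have e2 : YY q h = h ^ (q + 6) := by rw [YY, div_eq_mul_inv, e1]; ring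
  have a : ∀ m, m + 2 ≤ 3 * q → 4 * h ^ m ≤ h ^ (3 * q) := fun m hm =>
    calc 4 * h ^ m ≤ h ^ 2 * h ^ m := by gcongr; nlinarith
      _ = h ^ (m + 2) := by ring
      _ ≤ _ := pow_le_pow_right₀ h1 hm
  have b := a (q + 2) (by omega)
  have c := a (q + 6) (by omega)
  have o0 : 0 ≤ om q h := by rw [om]; positivity
  rw [mu, e1]
  refine (norm_add_le _ _).trans ?_
  rw [norm_mul, norm_I, one_mul, norm_real, norm_real, Real.norm_of_nonneg (by positivity),
    Real.norm_eq_abs]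
  have := (abs_add_le (om q h / 2) y).trans (add_le_add (abs_of_nonneg (by positivity)).le hy)
  rw [e2] at this
  rw [om] at *
  linarith

variable {j : ℝ} {γ : ℝ → ℂ}

theorem c0_le (H : Nc j γ) (s t : ℝ) : c0 γ s t ≤ |t - s| := by
  have h := (convex_univ (𝕜 := ℝ) (E := ℝ)).norm_image_sub_le_of_norm_deriv_le (f := γ) (C := 1)
    (fun x _ => H.smooth.differentiable (by simp) x) (fun x _ => (H.unit x).le) (mem_univ t)
    (mem_univ s)
  rwa [one_mul, Real.norm_eq_abs, abs_sub_comm] at h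

theorem kp_lip (H : Nc j γ) (s t : ℝ) : |kp γ s - kp γ t| ≤ j * |s - t| := by
  have h1 : ContDiff ℝ ∞ (deriv γ) := (contDiff_infty_iff_deriv.1 H.smooth).2
  have h2 : ContDiff ℝ ∞ (deriv (deriv γ)) := (contDiff_infty_iff_deriv.1 h1).2
  have h3 : Differentiable ℝ (kp γ) := imCLM.differentiable.comp
    ((h2.differentiable (by simp)).mul (conjCLE.differentiable.comp (h1.differentiable (by simp))))
  exact (convex_univ (𝕜 := ℝ) (E := ℝ)).norm_image_sub_le_of_norm_deriv_le (f := kp γ) (C := j)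
    (fun x _ => h3 x) (fun x _ => by simpa using H.kb 1 (by norm_num) x) (mem_univ t) (mem_univ s)

theorem dc_eq {s t : ℝ} (h : |s - t| ≤ π) : dc s t = |s - t| :=
  (AddCircle.norm_coe_eq_abs_iff (2 * π) (by positivity)).2
    (by rw [abs_of_pos (by positivity : 0 < 2 * π)]; linarith)

end F1c

open F1c in
theorem st_f1c (hQ : St_QS) : St_F1c := by
  intro j p q hq
  by_cases hj : 1 ≤ j
  swap
  · exact ⟨0, 0, fun h _ γ y s v u H => absurd H.one_le hj⟩
  have j0 : 0 < j := by linarith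
  obtain ⟨C0, hC0⟩ := hQ.2 j
  obtain ⟨C, C1, hC⟩ := core hj (C1 := |C0| + j ^ 2) (by positivity) (p + 2)
  refine ⟨4 * j ^ 3 * C, 2, ?_⟩
  intro h hh γ y s v u H hy hvu huv μ o T k d E X ε
  have h1 : 1 ≤ h := by linarith
  have hx : u - v ≠ 0 := sub_ne_zero.2 hvu.symm
  have d0 : 0 < d := abs_pos.2 hx
  have T0 : 0 < T := by simp only [T, Tt]; positivity
  have o0 : 0 < o := by simp only [o, om]; positivity
  obtain ⟨m1, m2⟩ := mu_bd (by omega) hh hy
  have eη : o * T ^ 3 = (h ^ 6)⁻¹ := by simp only [o, T, om, Tt]; field_simp; ring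
  have η1 : o * T ^ 3 ≤ 1 := by rw [eη]; exact inv_le_one_of_one_le₀ (one_le_pow₀ h1)
  have hk : ∀ t, |kp γ t| ≤ j := fun t => by simpa using H.kb 0 (by norm_num) t
  have d1 : d ≤ 1 := huv.trans (inv_le_one_of_one_le₀ hj)
  have dr : d ≤ |v - s| + |u - s| := by
    have := abs_sub_le u s v
    rw [abs_sub_comm s v] at this
    simp only [d]; linarith
  have hdc : d ≤ j * c0 γ v u := by
    have := H.arc v u
    rwa [dc_eq (by rw [abs_sub_comm]; linarith [Real.pi_gt_three]), abs_sub_comm] at this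
  set r := |v - s| + |u - s| with hr
  have r0 : 0 ≤ r := by positivity
  have hc : |c0 γ v u - (d - k ^ 2 * d ^ 3 / 24)| ≤ (|C0| + j ^ 2) * d ^ 3 * r := by
    have a1 := (hC0 γ H v u).2.2.2.2.1
    have a2 : |k ^ 2 - kp γ u ^ 2| ≤ 2 * j * (j * r) := by
      rw [sq_sub_sq, abs_mul]
      gcongr
      · linarith [abs_add_le k (kp γ u), hk s, hk u]
      · refine (kp_lip H s u).trans ?_
        rw [abs_sub_comm]; gcongr; linarith [abs_nonneg (v - s)]
    rw [show c0 γ v u - (d - k ^ 2 * d ^ 3 / 24) = (c0 γ v u - (d - kp γ u ^ 2 * d ^ 3 / 24)) +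
      (k ^ 2 - kp γ u ^ 2) * (d ^ 3 / 24) by ring]
    refine (abs_add_le _ _).trans ?_
    rw [abs_mul, abs_of_pos (by positivity : 0 < d ^ 3 / 24)]
    calc _ ≤ |C0| * (d ^ 3 * r) + 2 * j * (j * r) * (d ^ 3 / 24) := by
          gcongr
          refine a1.trans ?_
          rw [pow_succ]
          gcongr
          exact le_abs_self _
      _ ≤ _ := by nlinarith [mul_nonneg (mul_pos (pow_pos j0 2) (pow_pos d0 3)).le r0]
  have key := fun N hN => hC N hN T o k d (c0 γ v u) r μ T0 η1 m1 m2 (hk s) d0 huv (c0_le H v u)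
    hdc r0 hc
  obtain ⟨e1, e2, e3, e4, e5⟩ := closed μ k hx p
  set Z := exp (-(μ * d))
  set w := μ * (k ^ 2 * d ^ 3 / 24 : ℝ)
  set x := d / T with hxT
  have x0 : 0 ≤ x := by positivity
  have E0 : 0 < E := Real.exp_pos _
  have he : ∀ N, p + 1 ≤ 2 * N → (o * T ^ 3) ^ N + r ≤ ε := fun N hN => by
    have : (o * T ^ 3) ^ N ≤ eps p h := by
      rw [eη, eps, inv_pow, ← pow_mul]
      exact inv_anti₀ (by positivity) (pow_le_pow_right₀ h1 (by omega))
    simp only [ε]; linarith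
  have ε0 : 0 ≤ ε := le_trans (by positivity) (he (p + 1) (by omega))
  set A := C * ε * E with hA
  have A0 : 0 ≤ A := by positivity
  have x1 : 1 ≤ (1 + x) ^ 3 := one_le_pow₀ (by linarith)
  have ka : ∀ N ≤ p + 2, p + 1 ≤ 2 * N → ‖Z * S N w - X‖ * (1 + x) ^ 3 ≤ A := fun N a b =>
    (key N a).2.trans (by rw [hA]; gcongr; exact he N b)
  have kb : ∀ N ≤ p + 2, p + 1 ≤ 2 * N → ‖Z * S N w - X‖ ≤ A := fun N a b =>
    (le_mul_of_one_le_right (norm_nonneg _) x1).trans (ka N a b)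
  have kc : ∀ N ≤ p + 2, p + 1 ≤ 2 * (N + 1) → ‖w * (Z * S N w - X)‖ ≤ j ^ 2 * A := fun N a b => by
    rw [norm_mul]
    calc _ ≤ j ^ 2 * (o * T ^ 3) * (1 + x) ^ 3 * ‖Z * S N w - X‖ := by gcongr; exact (key N a).1
      _ = j ^ 2 * (o * T ^ 3) * (‖Z * S N w - X‖ * (1 + x) ^ 3) := by ring
      _ ≤ j ^ 2 * (o * T ^ 3) * (C * ((o * T ^ 3) ^ N + r) * E) :=
          mul_le_mul_of_nonneg_left (key N a).2 (by positivity)
      _ = j ^ 2 * (C * ((o * T ^ 3) ^ (N + 1) + o * T ^ 3 * r) * E) := by ring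
      _ ≤ j ^ 2 * (C * ((o * T ^ 3) ^ (N + 1) + r) * E) := by
          gcongr; exact mul_le_of_le_one_left r0 η1
      _ ≤ _ := by rw [hA]; gcongr; exact he _ b
  have s1 : 1 ≤ √π := Real.one_le_sqrt.2 (by linarith [Real.pi_gt_three])
  have s2 : 1 ≤ √(2 * π) := Real.one_le_sqrt.2 (by linarith [Real.pi_gt_three])
  have sd : 0 < √d := Real.sqrt_pos.2 d0
  have j2 : 1 ≤ j ^ 2 := one_le_pow₀ hj
  have j3 : j ^ 2 ≤ j ^ 3 := pow_le_pow_right₀ hj (by norm_num)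
  have j4 : j ≤ j ^ 3 := le_self_pow₀ hj (by norm_num)
  have nr : ‖rt μ‖ ≤ √o := by rw [norm_rt]; exact Real.sqrt_le_sqrt m1
  have dx : d = T * x := by rw [hxT]; field_simp
  have sx : √d ≤ √T * (1 + x) := by
    rw [dx, Real.sqrt_mul T0.le]
    gcongr
    exact Real.sqrt_le_iff.2 ⟨by positivity, by nlinarith⟩
  have x2 : 1 + x ≤ (1 + x) ^ 3 := le_self_pow₀ (by linarith) (by norm_num)
  have x3 : (1 + x) ^ 2 ≤ (1 + x) ^ 3 := pow_le_pow_right₀ (by linarith) (by norm_num)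
  have fin : ∀ {a L M : ℝ}, 0 ≤ M → a ≤ 4 * j ^ 3 → L ≤ a * A * M →
      L ≤ 4 * j ^ 3 * C * ε * M * E := fun {a L M} hM ha hL =>
    hL.trans (by rw [show 4 * j ^ 3 * C * ε * M * E = 4 * j ^ 3 * A * M by rw [hA]; ring]; gcongr)
  have hks : |k| ≤ j := hk s
  have m3 : ‖μ‖ ≤ o := m1
  clear key hC hC0 hc he hA eη hxT hr m2 H hk
  clear_value A x r ε E X o T k μ
  refine ⟨?_, ?_, ?_, ?_, ?_⟩
  · refine fin (a := 1) (by positivity) (by linarith) ?_
    rw [e1, ← sub_mul, norm_mul, norm_real, Real.norm_of_nonneg (by positivity), one_mul]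
    gcongr
    · exact kb _ (by omega) (by omega)
    · exact le_mul_of_one_le_left sd.le s1
  · refine fin (a := j) (by positivity) (by linarith) ?_
    rw [e2, ← sub_mul, norm_mul, norm_mul, norm_real, Real.norm_eq_abs, abs_div, abs_mul,
      abs_of_pos sd, abs_of_pos (by positivity : 0 < 4 * √(2 * π)), Real.sqrt_mul o0.le]
    calc _ ≤ ‖Z * S ((p + 1) / 2 + 1) w - X‖ * (√o * (j * (√T * (1 + x) ^ 3) / 1)) := by
          gcongr
          · exact sx.trans (by gcongr)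
          · linarith
      _ = j * (‖Z * S ((p + 1) / 2 + 1) w - X‖ * (1 + x) ^ 3) * (√o * √T) := by ring
      _ ≤ _ := by gcongr; exact ka _ (by omega) (by omega)
  · refine fin (a := j * (4 * j ^ 2)) (by positivity) (by linarith) ?_
    have e : md μ k (-1) sA (p + 2) (u - v) - X * (rt μ * (k / (4 * √(2 * π) * √d) : ℝ) *
        (1 / 2 + μ * (k ^ 2 * d ^ 3 / 8 : ℝ))) = rt μ * (k / (4 * √(2 * π) * √d) : ℝ) *
        (1 / 2 * (Z * S ((p + 1) / 2 + 1) w - X) + 3 * (w * (Z * S ((p + 1) / 2) w - X))) := by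
      rw [e3]; simp only [w]; push_cast; ring
    rw [e, norm_mul, norm_mul, norm_real, Real.norm_eq_abs, abs_div,
      abs_of_pos (by positivity : 0 < 4 * √(2 * π) * √d)]
    calc _ ≤ √o * (j / √d) * (1 / 2 * A + 3 * (j ^ 2 * A)) := by
          gcongr
          · exact le_mul_of_one_le_left sd.le (by linarith)
          · refine (norm_add_le _ _).trans ?_
            rw [norm_mul (1 / 2 : ℂ), norm_mul (3 : ℂ), norm_div, norm_one, Complex.norm_ofNat,
              Complex.norm_ofNat]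
            gcongr
            · exact kb _ (by omega) (by omega)
            · exact kc _ (by omega) (by omega)
      _ ≤ √o * (j / √d) * (4 * j ^ 2 * A) := by gcongr; nlinarith
      _ = _ := by ring
  · refine fin (a := j ^ 2) (by positivity) (by linarith) ?_
    rw [e4, ← sub_mul, norm_mul, norm_mul, norm_real, Real.norm_of_nonneg (by positivity)]
    have k2 : k ^ 2 ≤ j ^ 2 := by rw [← sq_abs]; gcongr
    calc _ ≤ ‖Z * S (p / 2 + 1) w - X‖ * (o * (j ^ 2 * (T * (1 + x) * (√T * (1 + x))) / 1)) := by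
          gcongr
          · exact dx.le.trans (by gcongr; linarith)
          · linarith
      _ = j ^ 2 * (‖Z * S (p / 2 + 1) w - X‖ * (1 + x) ^ 2) * (o * T * √T) := by ring
      _ ≤ j ^ 2 * (‖Z * S (p / 2 + 1) w - X‖ * (1 + x) ^ 3) * (o * T * √T) := by gcongr
      _ ≤ _ := by gcongr; exact ka _ (by omega) (by omega)
  · refine fin (a := 2 * j ^ 2) (by positivity) (by linarith) ?_
    have e : md μ k (-(1 / 2)) sN0 (p + 2) (u - v) - X * (((√π * (d * √d))⁻¹ : ℝ) *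
        (1 / 4 + μ * (k ^ 2 * d ^ 3 / 16 : ℝ))) = ((√π * (d * √d))⁻¹ : ℝ) *
        (1 / 4 * (Z * S (p / 2 + 2) w - X) + 3 / 2 * (w * (Z * S (p / 2 + 1) w - X))) := by
      rw [e5]; simp only [w]; push_cast; ring
    rw [e, norm_mul, norm_real, Real.norm_of_nonneg (by positivity), mul_comm]
    refine mul_le_mul ?_ (inv_anti₀ (by positivity) ?_) (by positivity) (by positivity)
    · refine (norm_add_le _ _).trans ?_
      rw [norm_mul (1 / 4 : ℂ), norm_mul (3 / 2 : ℂ), norm_div, norm_div, norm_one,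
        Complex.norm_ofNat, Complex.norm_ofNat, Complex.norm_ofNat]
      nlinarith [kb (p / 2 + 2) (by omega) (by omega), kc (p / 2 + 1) (by omega) (by omega)]
    · exact le_mul_of_one_le_left (by positivity) s1

end Pool.Agent.Lib.IS2
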