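import Pool.Agent.Lib.IS2.B_F21

/-! Block `F2`: the kernel `NN` against its model. -/

open scoped ContDiff ComplexConjugate Topology Real
open Complex MeasureTheory Set Filter

noncomputable section

namespace Pool.Agent.Lib.IS2

open F2a

namespace F2

lemma c0A (n : ℕ) : PowerSeries.coeff 0 (sN0 * sA ^ (n + 1)) = 0 := by
  rw [pow_succ, ← mul_assoc, PowerSeries.coeff_zero_eq_constantCoeff_apply, map_mul,
    ← PowerSeries.coeff_zero_eq_constantCoeff_apply sA, sA0, mul_zero]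

lemma e34 {j T : ℝ} {γ : ℝ → ℂ} (hγ : Nc j γ) (hT : 0 < T) (s v : ℝ) :
    Real.exp (-(3 * |v - s| / (4 * T))) ≤ Real.exp (-(c0 γ s v / (2 * T))) := by
  have h1 := hγ.c0_le_abs s v
  rw [abs_sub_comm] at h1
  refine Real.exp_le_exp.2 (neg_le_neg ?_)
  rw [div_le_div_iff₀ (by positivity) (by positivity)]
  nlinarith [mul_le_mul_of_nonneg_right h1 hT.le, mul_nonneg (abs_nonneg (v - s)) hT.le]

lemma rows (hKD : St_KD) (hNH : St_NH) (hSH : St_SH) (h0 : St_F0) (hM : St_MB) (ha : St_F1a)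
    (hb : St_F1b) (h3 : St_F3) (h2 : St_F2a) (j : ℝ) {p q : ℕ} (hq : 9 * (p + 1) + 2 ≤ 2 * q)
    (n : ℕ) : ∃ C, ∀ᶠ h in atTop, ∀ γ y s, Nc j γ → |y| ≤ YY q h →
      Er γ s (Tt q h) (Tt q h / (2 * h)) (C * eps p h * N0 q h * Tt q h) (C * eps p h * h * N0 q h)
        fun u => ro (mu q h y) γ n s u -
          Nm (mu q h y) (kp γ s) (sN0 * sA ^ (n + 1)) (p + 2) (u - s) := by
  induction n with
  | zero =>
    obtain ⟨C, k, H⟩ := h2 j p q hq
    refine ⟨C, (eventually_ge_atTop k).mono fun h hk γ y s hγ hy => ?_⟩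
    obtain ⟨-, i1, -, i2, i3⟩ := H h hk γ y s hγ hy
    rw [zero_add, pow_one]
    exact ⟨ii_iff.1 i1, (i_eq _ s).symm.trans_le i2, i3⟩
  | succ n ih =>
    obtain ⟨C0, H0⟩ := ih
    obtain ⟨C1, hC1, H1⟩ := kbd h0 j (q := q) (by omega)
    obtain ⟨C2, hC2, H2⟩ := nf h0 ha hb j hq
    obtain ⟨C3, H3⟩ := f3s h3 j (-(1 / 2)) 0 (sN0 * sA ^ (n + 1)) sA
      (fun m hm => by linarith [one_le_of (c0A n) hm]) (fun m hm => by linarith [one_le_of sA0 hm])
      hq (by norm_num)
    obtain ⟨C4, k4, H4⟩ := hM j (-(1 / 2)) (sN0 * sA ^ (n + 1)) (p + 2) 1 q (by omega)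
      fun m hm => by rw [Nat.lt_one_iff.1 hm, c0A]
    obtain ⟨_, _, -, -, H5⟩ := tail hKD hNH h0 h2 j hq
    obtain ⟨_, k6, H6⟩ := hSH q (by omega)
    refine ⟨6 * |C4| * C2 * (26 * j) * (576 * j ^ 2) + |C0| * (36 * j * C1) + C3, ?_⟩
    filter_upwards [H0, H1, H2, H3, H5, eventually_ge_atTop k4, eventually_ge_atTop k6, par j hq]
      with h H0 H1 H2 H3 H5 a4 a6 P γ y s hγ hy
    have hj := hγ.one_le
    have hT := P.T0
    have ho := P.o0
    have he := P.e0
    have hh := P.h0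
    have hN := P.N0
    have hn := rt_le ((H6 h a6).2.1 y hy).1.2.le
    obtain ⟨A1, A2⟩ := H3 γ y s _ hγ hy hn
    have E0 := H0 γ y s hγ hy
    have mK := km (hKD j γ hγ).1.2.1 (mu q h y)
    obtain ⟨s1, s2, s3⟩ := step hγ hT (m := 1) one_le_two (by positivity) E0.1
      (by simpa only [pow_one] using E0.2.1) mK (H1 γ y hγ hy)
    have t1 := (step hγ hT (m := 1) one_le_two (by positivity) (H5 γ y s hγ hy n).1 le_rfl mK
      (H1 γ y hγ hy)).1
    simp only [pow_one] at s1 s3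
    have cA := le_abs_self C0
    have E1 : Er γ s (Tt q h) (Tt q h / (2 * h))
        (|C0| * (36 * j * C1) * eps p h * N0 q h * Tt q h)
        (|C0| * (36 * j * C1) * eps p h * h * N0 q h) _ :=
      ⟨s2, s3.trans (by
        calc _ = C0 * (36 * j * C1) * eps p h * N0 q h * Tt q h * (√(om q h * Tt q h) * Tt q h) := by
              ring
          _ ≤ |C0| * (36 * j * C1) * eps p h * N0 q h * Tt q h * 1 := by
              rw [sx P]; gcongr; exact P.x1
          _ = _ := mul_one _), fun u _ _ => (s1 u).2.trans (by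
        calc _ = C0 * (1 * C1) * eps p h * (√(om q h * Tt q h) * Tt q h) * N0 q h := by ring
          _ ≤ _ := by
              rw [sx P]
              gcongr
              · linarith
              · exact P.x1.trans P.h1)⟩
    have mE : Measurable fun u => ro (mu q h y) γ (n + 1) s u -
        Nm (mu q h y) (kp γ s) (sN0 * sA ^ (n + 1 + 1)) (p + 2) (u - s) :=
      (m3 (k := fun μ => ro μ γ (n + 1)) (((hNH j).1 γ hγ).1 (n + 1)) _ s).sub
        (((meas_md _ _ _ _ _).comp (measurable_id.sub_const s)).const_mul _)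
    have D := conv_er P hγ (s := s) (M := 6 * |C4| * C2 * (26 * j) * om q h) (by positivity)
      ((mE.aestronglyMeasurable.sub s2.1).sub A2.1.1) fun u hu hn' => by
        have j1 := (A1 u fun e => hn' (by rw [e])).const_mul (√2 * rt (mu q h y))
        refine ⟨fun v => ro (mu q h y) γ n s v * fK (mu q h y) γ v u -
          (ro (mu q h y) γ n s v - Nm (mu q h y) (kp γ s) (sN0 * sA ^ (n + 1)) (p + 2) (v - s)) *
            fK (mu q h y) γ v u - √2 * rt (mu q h y) *
          (md (mu q h y) (kp γ s) (-(1 / 2)) (sN0 * sA ^ (n + 1)) (p + 2) (v - s) *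
            md (mu q h y) (kp γ s) 0 sA (p + 2) (u - v)), ?_, ?_⟩
        · refine Eq.trans ?_ (integral_sub ((t1 u).1.sub (s1 u).1) j1).symm
          rw [integral_sub' (t1 u).1 (s1 u).1, integral_const_mul, ← ro_succ hKD hNH hγ]
          simp only [Pi.sub_apply, Nm, pow_succ sA (n + 1), ← mul_assoc sN0]
          ring
        filter_upwards [ae_mem s, ae_ne hγ s s, ae_ne hγ u s] with v hv n1 n2
        obtain ⟨-, -, -, ⟨-, b⟩, -⟩ := H2 γ y s v u hγ hy n2.symm hv hu
        have b1 := H4 h a4 y (kp γ s) (v - s) hy (hγ.bk s) (sub_ne_zero.2 fun e => n1 (by rw [e]))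
        rw [pow_one, show -(1 / 2) + 3 * ((1 : ℕ) : ℝ) / 2 - 1 = 0 by norm_num, Real.rpow_zero,
          mul_one] at b1
        have b2 := (e34 hγ hT s v).trans (nf2 hT (norm_pos_iff.2 (sub_ne_zero.2 n1)))
        have i1 := io_nn (Tt q h * eps p h ^ 2) (c0 γ s v)
        have i2 := io_nn (Tt q h * eps p h ^ 2) (c0 γ v u)
        have b3 := le_trans (le_add_of_nonneg_left (by positivity)) (eta P hγ hv hu i1 i2)
        have b4 := wX_tri hT γ s v u
        have p1 := PP_nn (Tt q h) (c0 γ s v)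
        have p2 := PP_nn (Tt q h) (c0 γ v u)
        have w0 := wX_pos (Tt q h) (c0 γ s u)
        have w1 := w0.trans_le b4
        have c4 := le_abs_self C4
        rw [← PP_w γ s v u]
        set X := wX (Tt q h) (c0 γ s v) * wX (Tt q h) (c0 γ v u)
        set η := eps p h + io (Tt q h * eps p h ^ 2) (c0 γ s v) + io (Tt q h * eps p h ^ 2) (c0 γ v u)
        have η0 : 0 ≤ η := by positivity
        replace b1 := b1.trans (show _ ≤ |C4| * √(om q h) * (3 * √(Tt q h) * PP (Tt q h) (c0 γ s v))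
          by gcongr)
        replace b := b.trans (mul_le_mul_of_nonneg_right b3 (by positivity))
        calc _ = ‖(√2 : ℝ) * rt (mu q h y)‖ *
              ‖md (mu q h y) (kp γ s) (-(1 / 2)) (sN0 * sA ^ (n + 1)) (p + 2) (v - s)‖ *
              ‖fK (mu q h y) γ v u - md (mu q h y) (kp γ s) 0 sA (p + 2) (u - v)‖ *
              wX (Tt q h) (c0 γ s u) := by
              rw [← norm_mul, ← norm_mul, Nm]
              congr 2
              ring
          _ ≤ 2 * √(om q h) * (|C4| * √(om q h) * (3 * √(Tt q h) * PP (Tt q h) (c0 γ s v))) *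
              (26 * j * η * X * (√(om q h) * Tt q h * (C2 * PP (Tt q h) (c0 γ v u)))) * X := by gcongr
          _ = 6 * |C4| * C2 * (26 * j) * (√(om q h) * √(om q h)) * (η * (PP (Tt q h) (c0 γ s v) *
              PP (Tt q h) (c0 γ v u) * X ^ 2)) * (√(om q h) * Tt q h * √(Tt q h)) := by ring
          _ ≤ _ := by
              rw [Real.mul_self_sqrt ho.le, P.x]
              exact mul_le_of_le_one_right (by positivity) P.x1
    have E := (D.add hγ A2).add hγ E1
    simp only [Pi.sub_apply, sub_add_cancel] at E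
    have oN := P.oN
    refine E.mono ?_ ?_
    · have : 6 * |C4| * C2 * (26 * j) * om q h * (576 * j ^ 2 * eps p h * Tt q h) ≤
          6 * |C4| * C2 * (26 * j) * N0 q h * (576 * j ^ 2 * eps p h * Tt q h) := by gcongr
      linarith
    · have : 6 * |C4| * C2 * (26 * j) * om q h * (96 * j ^ 2 * eps p h * h) ≤
          6 * |C4| * C2 * (26 * j) * N0 q h * (576 * j ^ 2 * eps p h * h) := by gcongr; norm_num
      linarith

end F2

open F2

theorem st_f2 (hKD : St_KD) (hNH : St_NH) (hSH : St_SH) (h0 : St_F0) (hM : St_MB) (ha : St_F1a)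
    (hb : St_F1b) (h3 : St_F3) (h2 : St_F2a) : St_F2 := by
  intro j p q hq
  choose C H using rows hKD hNH hSH h0 hM ha hb h3 h2 j hq
  obtain ⟨A, B, hA, hB, H1⟩ := tail hKD hNH h0 h2 j hq
  obtain ⟨C2, k2, H2⟩ := hb j p q hq
  obtain ⟨C3, k3, H3⟩ := hM j (-(1 / 2)) sN (p + 2) 0 q (by omega) fun _ hn => absurd hn (by simp)
  obtain ⟨_, k4, H4⟩ := hSH q (by omega)
  refine ⟨2 * (36 * |j| ^ 3 * |C2|) + ∑ n ∈ Finset.range (p + 2), 2 * 2 ^ (n + 1) * |C n| +
    16 * A * (2 * B) ^ (p + 1) + 8 * |C3|, eventually_atTop.1 ?_⟩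
  filter_upwards [(eventually_all_finset (Finset.range (p + 2))).2 fun n _ => H n, H1,
    eventually_ge_atTop k2, eventually_ge_atTop k3, eventually_ge_atTop k4, par j hq,
    eventually_ge_atTop (4 * B)] with h H H1 a2 a3 a4 P aB γ y s t hγ hy f1 f2
  have hj := hγ.one_le
  rw [abs_of_pos hγ.pos]
  have hT := P.T0
  have ho := P.o0
  have he := P.e0
  have hh := P.h0
  have hN := P.N0
  have h1 := P.h1
  have hn := rt_le ((H4 h a4).2.1 y hy).1.2.le
  have d0 : 0 < |t - s| := lt_of_lt_of_le (by positivity) f1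
  have x1 := one_le_wX hT (c0_nn γ s t)
  have eX : Real.exp (-(c0 γ s t / (8 * Tt q h))) = (wX (Tt q h) (c0 γ s t))⁻¹ := Real.exp_neg _
  have eN : √(om q h) * (Tt q h * √(Tt q h))⁻¹ = N0 q h := (div_eq_mul_inv _ _).symm
  have S0 : 0 ≤ ∑ n ∈ Finset.range (p + 2), 2 * 2 ^ (n + 1) * |C n| := by positivity
  rw [eX]
  have c1 := abs_le_c0 hγ f2
  have c2 : Tt q h / (2 * j * h) ≤ c0 γ s t := by
    rw [div_le_iff₀ (by positivity)] at f1 ⊢
    nlinarith
  have b0 := (H2 h a2 γ y s s t hγ hy (ne_of_far hγ d0 f2) (by simp [Real.pi_pos.le]) f2).2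
    ((P.d0 hγ.pos).le.trans (le_trans (by gcongr; norm_num) c2))
  have c3 := le_X (c := c0 γ s t) hT
  have b3 := H3 h a3 y (kp γ s) (t - s) hy (hγ.bk s) (abs_pos.1 d0)
  replace b3 := b3.trans (mul_le_mul (mul_le_mul_of_nonneg_right (mul_le_mul_of_nonneg_right
    (le_abs_self C3) (by positivity)) (by positivity)) (e34 hγ hT s t) (by positivity) (by positivity))
  rw [E_eq] at b0 b3
  set X := wX (Tt q h) (c0 γ s t)
  have x0 : 0 < X := one_pos.trans_le x1
  have x2 : X⁻¹ ≤ 1 := inv_le_one_of_one_le₀ x1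
  have hh2 : h ≤ h ^ 2 := le_self_pow₀ h1 two_ne_zero
  constructor
  · set r := B * (h ^ 3)⁻¹ with hr
    have r0 : 0 ≤ r := by positivity
    have r1 : 2 * r ≤ 1 / 2 := by
      have : h ≤ h ^ 3 := le_self_pow₀ h1 (by norm_num)
      rw [hr, ← div_eq_mul_inv, ← mul_div_assoc, div_le_iff₀ (by positivity)]
      linarith
    set f : ℕ → ℂ := fun n => 2 * (-2) ^ (n + 1) * ro (mu q h y) γ n s t with hf
    have fb : ∀ n, ‖f (n + (p + 2))‖ ≤ 8 * A * (2 * r) ^ (p + 1) * N0 q h * X⁻¹ * (1 / 2) ^ n :=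
      fun n => by
        have := (le_mul_inv_iff₀ x0).2 ((H1 γ y s hγ hy (n + (p + 1))).2 t)
        simp only [hf, norm_mul, norm_pow, norm_neg, norm_ofNat]
        calc _ ≤ 2 * 2 ^ (n + (p + 2) + 1) * (A * N0 q h * r ^ (n + (p + 1)) * X⁻¹) :=
              mul_le_mul_of_nonneg_left this (by positivity)
          _ = 8 * A * (2 * r) ^ (p + 1) * N0 q h * X⁻¹ * (2 * r) ^ n := by ring
          _ ≤ _ := by gcongr
    have g := hasSum_geometric_two.mul_left (8 * A * (2 * r) ^ (p + 1) * N0 q h * X⁻¹)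
    have sf : Summable f := (summable_nat_add_iff (p + 2)).1 (.of_norm_bounded g.summable fb)
    have t1 := tsum_of_norm_bounded g fb
    have t2 : ‖fNn (mu q h y) γ s t - Nm (mu q h y) (kp γ s) sN0 (p + 2) (t - s)‖ ≤
        36 * j ^ 3 * |C2| * (eps p h * h ^ 2 * N0 q h * X⁻¹) := by
      have i1 := inv32 (L := 2 * j * h) (by nlinarith) hT c2
      have i2 : eps p h + |s - s| + |t - s| ≤ 9 * j * eps p h * X := by
        have i3 : j * c0 γ s t ≤ j * (8 * eps p h * X) :=
          mul_le_mul_of_nonneg_left (c3.trans (by have := P.Te; gcongr)) hγ.pos.le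
        have i4 := mul_le_mul_of_nonneg_left (one_le_mul_of_one_le_of_one_le hj x1) he.le
        rw [sub_self, abs_zero]
        nlinarith
      have := le_abs_self C2
      calc _ ≤ |C2| * (9 * j * eps p h * X) *
            (√(om q h) * ((2 * j * h) ^ 2 * (Tt q h * √(Tt q h))⁻¹)) * X⁻¹ ^ 2 := by
            refine b0.trans ?_
            have := pow_le_pow_of_le_one (by positivity) x2 (show 2 ≤ 4 by norm_num)
            have := c0_nn γ s t
            gcongr ?_ * ?_ * (_ * ?_) * ?_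
        _ = _ := by rw [← eN]; field_simp; ring
    have t3 : ‖∑ n ∈ Finset.range (p + 2), 2 * (-2) ^ (n + 1) * (ro (mu q h y) γ n s t -
        Nm (mu q h y) (kp γ s) (sN0 * sA ^ (n + 1)) (p + 2) (t - s))‖ ≤
        (∑ n ∈ Finset.range (p + 2), 2 * 2 ^ (n + 1) * |C n|) * (eps p h * h ^ 2 * N0 q h * X⁻¹) := by
      rw [Finset.sum_mul]
      refine norm_sum_le_of_le _ fun n hn => ?_
      have := (le_mul_inv_iff₀ x0).2 ((H n hn γ y s hγ hy).2.2 t f1 f2)
      have := le_abs_self (C n)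
      simp only [norm_mul, norm_pow, norm_neg, norm_ofNat]
      calc _ ≤ 2 * 2 ^ (n + 1) * (C n * eps p h * h * N0 q h * X⁻¹) := by gcongr
        _ ≤ 2 * 2 ^ (n + 1) * (|C n| * eps p h * h ^ 2 * N0 q h * X⁻¹) := by gcongr
        _ = _ := by ring
    have t4 : 8 * A * (2 * r) ^ (p + 1) * N0 q h * X⁻¹ * 2 ≤
        16 * A * (2 * B) ^ (p + 1) * (eps p h * h ^ 2 * N0 q h * X⁻¹) := by
      calc _ = 16 * A * (2 * B) ^ (p + 1) * (eps p h * 1 * N0 q h * X⁻¹) := by
            rw [hr, ← mul_assoc 2, mul_pow (2 * B), inv_pow, ← pow_mul, eps]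
            ring
        _ ≤ _ := by gcongr; exact h1.trans hh2
    have e : NN (mu q h y) γ s t - Nm (mu q h y) (kp γ s) sN (p + 2) (t - s) =
        2 * (fNn (mu q h y) γ s t - Nm (mu q h y) (kp γ s) sN0 (p + 2) (t - s)) +
        ∑ n ∈ Finset.range (p + 2), 2 * (-2) ^ (n + 1) * (ro (mu q h y) γ n s t -
          Nm (mu q h y) (kp γ s) (sN0 * sA ^ (n + 1)) (p + 2) (t - s)) + ∑' n, f (n + (p + 2)) := by
      rw [NN, Nm_sN, ← sf.sum_add_tsum_nat_add (p + 2)]
      simp only [mul_sub, Finset.sum_sub_distrib, hf]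
      ring
    rw [e]
    refine norm_add₃_le.trans ?_
    rw [norm_mul, norm_ofNat]
    have : 0 ≤ |C3| * (eps p h * h ^ 2 * N0 q h * X⁻¹) := by positivity
    nlinarith
  · have i1 := inv32 (L := 2 * h) (by linarith) hT f1
    rw [pow_zero, mul_one, show -(1 / 2) + 3 * ((0 : ℕ) : ℝ) / 2 - 1 = -(1 + 1 / 2) by norm_num,
      Real.rpow_neg d0.le, Real.rpow_add d0, Real.rpow_one, ← Real.sqrt_eq_rpow] at b3
    calc _ ≤ 2 * √(om q h) * (|C3| * ((2 * h) ^ 2 * (Tt q h * √(Tt q h))⁻¹) * X⁻¹ ^ 1) := by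
          rw [Nm, norm_mul]
          refine mul_le_mul hn (b3.trans ?_) (norm_nonneg _) (by positivity)
          gcongr _ * ?_ * ?_
          exact pow_le_pow_of_le_one (by positivity) x2 (by norm_num)
      _ = 8 * |C3| * h ^ 2 * N0 q h * X⁻¹ := by rw [← eN]; ring
      _ ≤ _ := by
          gcongr
          exact le_add_of_nonneg_left (by positivity)

end Pool.Agent.Lib.IS2
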