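import Pool.Agent.Lib.IS2.B_F2a3

/-! Block `F2a`: the first row of the Neumann series against its model. -/

open scoped ContDiff ComplexConjugate Topology Real
open Complex MeasureTheory Set Filter

noncomputable section

namespace Pool.Agent.Lib.IS2

namespace F2a

lemma rt_sq (μ : ℂ) : rt μ ^ 2 = μ := by
  have := cpow_nat_inv_pow μ (n := 2) two_ne_zero
  rwa [Nat.cast_ofNat, ← one_div] at this

lemma rt_le {μ : ℂ} {o : ℝ} (h : ‖μ‖ ≤ o) : ‖(√2 : ℝ) * rt μ‖ ≤ 2 * √o := by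
  rw [norm_mul, norm_real, Real.norm_of_nonneg (Real.sqrt_nonneg _)]
  refine mul_le_mul (Real.sqrt_le_iff.2 ⟨by norm_num, by norm_num⟩) (Real.le_sqrt_of_sq_le ?_)
    (norm_nonneg _) zero_le_two
  rwa [← norm_pow, rt_sq]

lemma m3 {k : ℂ → ℝ → ℝ → ℂ} (hk : Measurable fun p : ℂ × ℝ × ℝ => k p.1 p.2.1 p.2.2) (μ : ℂ)
    (s : ℝ) : Measurable (k μ s) := hk.comp (by fun_prop : Measurable fun v : ℝ => (μ, s, v))
lemma km1 {γ : ℝ → ℂ} {k : ℂ → ℝ → ℝ → ℂ} (hk : Kk γ k) (μ : ℂ) (s : ℝ) : Measurable (k μ s) :=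
  m3 hk.1 μ s
lemma km2 {γ : ℝ → ℂ} {k : ℂ → ℝ → ℝ → ℂ} (hk : Kk γ k) (μ : ℂ) (u : ℝ) :
    Measurable fun v => k μ v u := hk.1.comp (by fun_prop : Measurable fun v : ℝ => (μ, v, u))

lemma sA0 : PowerSeries.coeff 0 sA = 0 := by simp [sA]
lemma one_le_of {F : PowerSeries ℝ} (h : PowerSeries.coeff 0 F = 0) {n : ℕ}
    (hn : PowerSeries.coeff n F ≠ 0) : (1 : ℝ) ≤ n :=
  Nat.one_le_cast.2 (Nat.pos_of_ne_zero fun e => hn (e ▸ h))

lemma pt {j C h : ℝ} {p q : ℕ} (P : Par j h (om q h) (Tt q h) (eps p h) (N0 q h))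
    (H : NF j p q C h) {γ : ℝ → ℂ} {y s v u : ℝ} (hγ : Nc j γ) (hy : |y| ≤ YY q h)
    (h1 : γ s ≠ γ v) (h2 : γ v ≠ γ u) (hv : |v - s| ≤ π) (hu : |u - s| ≤ π) :
    let μ := mu q h y
    let T := Tt q h
    let k := kp γ s
    let A := fS μ γ s v * fKb μ γ v u + fSb μ γ s v * fK μ γ v u + fS1 μ γ s v * fKn μ γ v u
    ‖A‖ * wX T (c0 γ s u) ^ 2 ≤
      3 * C ^ 2 * om q h * (pz (8 * T) (c0 γ s v) * pz (8 * T) (c0 γ v u)) ∧
    ‖A - ((2 * √2 * rt μ)⁻¹ * -(2 * μ) *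
        (md μ k (1 / 2) sP (p + 2) (v - s) * md μ k (-1) sA (p + 2) (u - v)) +
      √2 * rt μ / 4 * (md μ k (-(1 / 2)) sB (p + 2) (v - s) * md μ k 0 sA (p + 2) (u - v)))‖ *
        wX T (c0 γ s u) ≤ 21 * C ^ 2 * om q h * (26 * j) *
      ((eps p h + io (T * eps p h ^ 2) (c0 γ s v) + io (T * eps p h ^ 2) (c0 γ v u)) *
        (pz (8 * T) (c0 γ s v) * pz (8 * T) (c0 γ v u))) := by
  intro μ T k A
  obtain ⟨a1, -, a2, -, a3, -⟩ := H γ y s s v hγ hy h1 (by simp [Real.pi_pos.le]) hv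
  obtain ⟨-, b1, -, b2, -, b3⟩ := H γ y s v u hγ hy h2 hv hu
  have i1 := io_nn (T * eps p h ^ 2) (c0 γ s v)
  have i2 := io_nn (T * eps p h ^ 2) (c0 γ v u)
  have he := P.e0
  have hη := eta P hγ hv hu i1 i2
  have h9 : eps p h + |s - s| + |v - s| + io (T * eps p h ^ 2) (c0 γ s v) ≤ 9 := by
    rw [sub_self, abs_zero]
    linarith [P.e1, io_le (T * eps p h ^ 2) (c0 γ s v), Real.pi_le_four]
  obtain ⟨c1, d1⟩ := two a1 b1 (by positivity) h9
  obtain ⟨c2, d2⟩ := two a2 b2 (by positivity) h9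
  have c3 := (norm_mul_le _ _).trans (mul_le_mul a3 b3 (norm_nonneg _) ((norm_nonneg _).trans a3))
  have hη0 : eps p h ≤ eps p h + |s - s| + |v - s| + io (T * eps p h ^ 2) (c0 γ s v) +
      (eps p h + |v - s| + |u - s| + io (T * eps p h ^ 2) (c0 γ v u)) := by
    linarith [abs_nonneg (s - s), abs_nonneg (v - s), abs_nonneg (u - s)]
  set η := eps p h + |s - s| + |v - s| + io (T * eps p h ^ 2) (c0 γ s v) +
      (eps p h + |v - s| + |u - s| + io (T * eps p h ^ 2) (c0 γ v u))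
  have hw := wX_tri P.T0 γ s v u
  have hw0 := wX_pos T (c0 γ s u)
  rw [← PP_w γ s v u]
  have p1 := PP_nn T (c0 γ s v)
  have p2 := PP_nn T (c0 γ v u)
  set o := om q h
  have ho : 0 < o := P.o0
  have hT : 0 < T := P.T0
  set Q := C ^ 2 * o * (PP T (c0 γ s v) * PP T (c0 γ v u)) with hQ
  have Q0 : 0 ≤ Q := by positivity
  have so := Real.mul_self_sqrt ho.le
  have so0 := Real.sqrt_pos.2 ho
  have e1 : (√o)⁻¹ * (C * PP T (c0 γ s v)) * (o * √o * (C * PP T (c0 γ v u))) = Q := by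
    rw [hQ]
    field_simp
  have e2 : o * √o * T ^ 2 * (C * PP T (c0 γ s v)) * (√o * T * (C * PP T (c0 γ v u))) ≤ Q :=
    le_of_eq_of_le (by linear_combination o * T ^ 3 * C ^ 2 *
      (PP T (c0 γ s v) * PP T (c0 γ v u)) * so) (mul_le_of_le_one_left Q0 P.oT)
  have e3 : √o * T ^ 3 * (C * PP T (c0 γ s v)) * (o * √o * T * (C * PP T (c0 γ v u))) ≤
      eps p h * Q :=
    le_of_eq_of_le (b := o * T ^ 3 * T * Q) (by linear_combination o * T ^ 4 * C ^ 2 *
      (PP T (c0 γ s v) * PP T (c0 γ v u)) * so) (mul_le_mul_of_nonneg_right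
        ((mul_le_of_le_one_left hT.le P.oT).trans P.Te) Q0)
  rw [e1] at c1 d1
  replace c2 := c2.trans e2
  replace d2 := d2.trans (mul_le_mul_of_nonneg_left e2 (by linarith))
  replace c3 := c3.trans e3
  constructor
  · have : ‖A‖ ≤ 3 * Q := by
      refine (norm_add₃_le).trans ?_
      linarith [mul_le_of_le_one_left Q0 P.e1]
    calc _ ≤ 3 * Q * (wX T (c0 γ s v) * wX T (c0 γ v u)) ^ 2 := by gcongr
      _ = _ := by rw [hQ]; ring
  · refine le_trans (mul_le_mul (b := 21 * η * Q) ?_ hw hw0.le (by have := he.le.trans hη0; positivity)) ?_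
    · refine le_trans (le_of_eq ?_) ((norm_add₃_le.trans (add_le_add (add_le_add d1 d2) c3)).trans ?_)
      · congr 1
        simp only [A]
        ring
      · nlinarith [mul_le_mul_of_nonneg_right hη0 Q0]
    · have := hw0.trans_le hw
      refine (mul_le_mul_of_nonneg_right (mul_le_mul_of_nonneg_right
        (mul_le_mul_of_nonneg_left hη (by norm_num)) Q0) this.le).trans_eq ?_
      rw [hQ]
      ring

end F2a

open F2a

theorem st_f2a (hKD : St_KD) (hNH : St_NH) (hSH : St_SH) (h0 : St_F0) (ha : St_F1a) (hb : St_F1b)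
    (h3 : St_F3) : St_F2a := by
  intro j p q hq
  obtain ⟨C, hC, H⟩ := nf h0 ha hb j hq
  obtain ⟨CA, HA⟩ := f3s h3 j (1 / 2) (-1) sP sA (fun n _ => by
    have : (0 : ℝ) ≤ n := n.cast_nonneg
    linarith) (fun n hn => by linarith [one_le_of sA0 hn]) hq (by norm_num)
  obtain ⟨CB, HB⟩ := f3s h3 j (-(1 / 2)) 0 sB sA (fun n hn => by
    linarith [one_le_of (F := sB) (by simp [sB]) hn]) (fun n hn => by linarith [one_le_of sA0 hn])
    hq (by norm_num)
  obtain ⟨_, k, HS⟩ := hSH q (by omega)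
  refine ⟨C ^ 2 * (546 * 576 * |j| ^ 3) + |CA| + |CB|, eventually_atTop.1 ?_⟩
  filter_upwards [H, HA, HB, eventually_ge_atTop k, par j hq] with h H HA HB hk P γ y s hγ hy μ T err
  have hj := hγ.one_le
  rw [abs_of_pos hγ.pos]
  have hμ := ((HS h hk).2.1 y hy).1
  have hT : 0 < T := P.T0
  have hr : rt μ ≠ 0 := fun e => by
    have h1 := rt_sq μ
    have h2 : (2 * T)⁻¹ < μ.re := hμ.1
    rw [← h1, e] at h2
    simp only [ne_eq, OfNat.ofNat_ne_zero, not_false_eq_true, zero_pow, zero_re] at h2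
    exact absurd h2 (not_lt.2 (by positivity))
  have h2 : ((√2 : ℝ) : ℂ) ^ 2 = 2 := by
    rw [← ofReal_pow, Real.sq_sqrt zero_le_two, ofReal_ofNat]
  have hc : (2 * √2 * rt μ)⁻¹ * -(2 * μ) = -(1 / 2) * (√2 * rt μ) := by
    have : ((√2 : ℝ) : ℂ) ≠ 0 := by simp
    nth_rewrite 2 [← rt_sq μ]
    field_simp
    rw [h2]
  have hn := rt_le hμ.2.le
  have so := Real.sqrt_nonneg (om q h)
  obtain ⟨A1, A2⟩ := HA γ y s ((2 * √2 * rt μ)⁻¹ * -(2 * μ)) hγ hy (by
    rw [hc, norm_mul, norm_neg, norm_div, norm_one, norm_ofNat]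
    linarith)
  obtain ⟨B1, B2⟩ := HB γ y s (√2 * rt μ / 4) hγ hy (by
    rw [norm_div, norm_ofNat]
    linarith)
  obtain ⟨⟨kS, kK, kKn, kKb, kSb, kS1, -⟩, -⟩ := hKD j γ hγ
  set A : ℝ → ℝ → ℂ := fun u v =>
    fS μ γ s v * fKb μ γ v u + fSb μ γ s v * fK μ γ v u + fS1 μ γ s v * fKn μ γ v u with hA
  have e0 : ∀ u, ro μ γ 0 s u = ∫ v, A u v ∂nu s := fun u => per_eq (fun v => by
    simp only [(kS.2.1 μ s v).2, (kKb.2.1 μ v u).1, (kSb.2.1 μ s v).2, (kK.2.1 μ v u).1,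
      (kS1.2.1 μ s v).2, (kKn.2.1 μ v u).1]) s
  have mA : ∀ u, Measurable (A u) := fun u => (((km1 kS μ s).mul (km2 kKb μ u)).add
    ((km1 kSb μ s).mul (km2 kK μ u))).add ((km1 kS1 μ s).mul (km2 kKn μ u))
  have mR : Measurable (ro μ γ 0 s) := m3 (k := fun μ => ro μ γ 0) (((hNH j).1 γ hγ).1 0) μ s
  have hp := fun u (hu : |u - s| ≤ π) => (((ae_mem s).and (ae_ne hγ s s)).and (ae_ne hγ u s)).mono
    fun v hv => pt P H hγ hy hv.1.2 hv.2.symm hv.1.1 hu
  have ho := P.o0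
  have he := P.e0
  have hh := P.h0
  have hN := P.N0
  have iA : ∀ u, |u - s| ≤ π → γ s ≠ γ u → Integrable (A u) (nu s) := fun u hu hn => by
    have hd : 0 < |u - s| / (2 * j) :=
      div_pos (abs_pos.2 (sub_ne_zero.2 fun e => hn (by rw [e]))) (by positivity)
    refine ((((row8 hγ hT s s).1.add (row8 hγ hT u s).1).const_mul (√(|u - s| / (2 * j)))⁻¹).const_mul
      (3 * C ^ 2 * om q h)).mono' (mA u).aestronglyMeasurable ((hp u hu).mono fun v hv => ?_)
    refine ((le_mul_of_one_le_right (norm_nonneg _) (one_le_pow₀ (one_le_wX hT (c0_nn _ _ _)))).trans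
      hv.1).trans (mul_le_mul_of_nonneg_left ?_ (by positivity))
    rw [Pi.add_apply, c0_comm γ u v, mul_add]
    have q1 := pz_nn (8 * T) (c0 γ s v)
    have q2 := pz_nn (8 * T) (c0 γ v u)
    have q3 := inv_nonneg.2 (Real.sqrt_nonneg (|u - s| / (2 * j)))
    rcases far hγ le_rfl hu v with f | f
    · nlinarith [mul_le_mul_of_nonneg_right (link (τ := 8 * T) (by positivity) hd f) q2,
        mul_nonneg q3 q1]
    · nlinarith [mul_le_mul_of_nonneg_right (link (τ := 8 * T) (by positivity) hd f) q1,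
        mul_nonneg q3 q2]
  obtain ⟨a1, a2, a3⟩ := prod_bd (row8 hγ hT s s).1 (fun v => pz_nn _ _) (row8 hγ hT s s).2
    (by positivity) (meas2 hγ (meas_pz (8 * T))) (fun v u => pz_nn _ _) fun v => row8 hγ hT v s
  obtain ⟨r1, r2⟩ := l1_of mR.aestronglyMeasurable (W := fun u => wX T (c0 γ s u) ^ 2)
    (fun u => one_le_pow₀ (one_le_wX hT (c0_nn _ _ _))) (a2.const_mul (3 * C ^ 2 * om q h)) (by
      filter_upwards [a1, ae_mem s] with u i hu
      rw [e0, ← integral_const_mul]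
      exact int_w (pow_pos (wX_pos _ _) 2) (i.const_mul _) ((hp u hu).mono fun v hv => hv.1))
  have mE : Measurable err := mR.sub (((meas_md _ _ _ _ _).comp (measurable_id.sub_const s)).const_mul _)
  have eN : ∀ d, Nm μ (kp γ s) (sN0 * sA) (p + 2) d =
      (2 * √2 * rt μ)⁻¹ * -(2 * μ) * md μ (kp γ s) (-(1 / 2)) (sP * sA) (p + 2) d +
      √2 * rt μ / 4 * md μ (kp γ s) (-(1 / 2)) (sB * sA) (p + 2) d := fun d => by
    rw [Nm, sN0, add_mul, mul_assoc _ sP, mul_assoc _ sB, md_add, md_C, md_C, hc]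
    push_cast
    ring
  have D := conv_er P hγ (s := s) (M := 21 * C ^ 2 * om q h * (26 * j)) (by positivity)
    ((mE.aestronglyMeasurable.sub A2.1.1).sub B2.1.1) fun u hu hn => by
      have hs : u ≠ s := fun e => hn (by rw [e])
      have j1 := (A1 u hs).const_mul ((2 * √2 * rt μ)⁻¹ * -(2 * μ))
      have j2 := (B1 u hs).const_mul (√2 * rt μ / 4)
      refine ⟨_, ?_, (hp u hu).mono fun v hv => hv.2⟩
      refine Eq.trans ?_ (integral_sub (iA u hu hn) (j1.add j2)).symm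
      rw [integral_add' j1 j2, integral_const_mul, integral_const_mul, ← e0]
      simp only [Pi.sub_apply, err, eN]
      ring
  have E := (D.add hγ A2).add hγ B2
  simp only [Pi.sub_apply, sub_sub, add_assoc, sub_add_cancel] at E
  have oN := P.oN
  have j3 : j ^ 2 ≤ j ^ 3 := pow_le_pow_right₀ hj (by norm_num)
  have cA := le_abs_self CA
  have cB := le_abs_self CB
  refine ⟨ii_iff.2 r1, ii_iff.2 E.1, ?_, ?_, fun u a b => (E.2.2 u a b).trans ?_⟩
  · simp only [i_eq, w4_eq]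
    refine r2.trans ?_
    rw [integral_const_mul]
    calc _ ≤ 3 * C ^ 2 * om q h * (12 * j * √T * (12 * j * √T)) := by gcongr
      _ = C ^ 2 * (432 * j ^ 2) * (om q h * (√T * √T)) := by ring
      _ ≤ (C ^ 2 * (546 * 576 * j ^ 3) + |CA| + |CB|) * (om q h * (√T * √T)) := by
        gcongr
        nlinarith [abs_nonneg CA, abs_nonneg CB, mul_le_mul_of_nonneg_left j3 (sq_nonneg C),
          mul_nonneg (sq_nonneg C) (sq_nonneg j)]
      _ = _ := by rw [Real.mul_self_sqrt hT.le, ← P.Nx]; ring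
  · rw [i_eq]
    refine E.2.1.trans ?_
    calc _ = C ^ 2 * (546 * 576 * j ^ 3) * (eps p h * om q h * T) + CA * (eps p h * N0 q h * T) +
          CB * (eps p h * N0 q h * T) := by ring
      _ ≤ C ^ 2 * (546 * 576 * j ^ 3) * (eps p h * N0 q h * T) + |CA| * (eps p h * N0 q h * T) +
          |CB| * (eps p h * N0 q h * T) := by gcongr
      _ = _ := by ring
  · calc _ = C ^ 2 * (546 * 96 * j ^ 3) * (eps p h * h * om q h) + CA * (eps p h * h * N0 q h) +
          CB * (eps p h * h * N0 q h) := by ring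
      _ ≤ C ^ 2 * (546 * 576 * j ^ 3) * (eps p h * h * N0 q h) + |CA| * (eps p h * h * N0 q h) +
          |CB| * (eps p h * h * N0 q h) := by gcongr; norm_num
      _ = _ := by ring

end Pool.Agent.Lib.IS2
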