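import Pool.Agent.Lib.IS2.Blue

/-! Project is2, block MB: pointwise size of the truncated models. -/

open scoped Real
open Complex MeasureTheory Set Filter

noncomputable section

namespace Pool.Agent.Lib.IS2

namespace MB

theorem eb_norm (μ : ℂ) (b d : ℝ) :
    ‖eb μ b d‖ = Real.exp (-(μ.re * |d|)) * (|d| ^ (b - 1) / |Real.Gamma b|) := by
  rw [eb, norm_mul, norm_exp, norm_real, Real.norm_eq_abs, abs_div,
    abs_of_nonneg (Real.rpow_nonneg (abs_nonneg _) _)]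
  simp

theorem mu_le {q : ℕ} (hq : 4 ≤ q) {h y : ℝ} (hh : 2 ≤ h) (hy : |y| ≤ YY q h) :
    ‖mu q h y‖ ≤ om q h := by
  have h1 : 1 ≤ h := by linarith
  have h2 : 4 * h ^ (q + 6) ≤ om q h := by
    calc 4 * h ^ (q + 6) ≤ h ^ 2 * h ^ (q + 6) := by gcongr; nlinarith
      _ ≤ _ := by rw [← pow_add]; exact pow_le_pow_right₀ h1 (by omega)
  have h3 : YY q h = h ^ (q + 6) := by
    rw [YY, Tt, div_inv_eq_mul]
    ring
  have h4 : h ^ (q + 2) ≤ h ^ (q + 6) := pow_le_pow_right₀ h1 (by omega)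
  have h5 : 0 ≤ h ^ (q + 2) := by positivity
  refine (norm_le_abs_re_add_abs_im _).trans ?_
  have h6 : (mu q h y).im = om q h / 2 + y := by simp [mu]
  have h7 : (mu q h y).re = h ^ (q + 2) := by simp [mu, Tt, -ofReal_pow]
  rw [h6, h7, abs_of_nonneg h5]
  have h8 := abs_add_le (om q h / 2) y
  rw [abs_of_nonneg (a := om q h / 2) (by linarith)] at h8
  linarith

theorem kap {q : ℕ} (hq : 4 ≤ q) {h y k j : ℝ} (hh : 2 ≤ h) (hy : |y| ≤ YY q h) (hk : |k| ≤ j) :
    ‖k * rt (mu q h y) / √2‖ ≤ j * √(om q h) := by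
  have h1 : ‖rt (mu q h y)‖ ≤ √(om q h) := by
    rw [rt, show (1 / 2 : ℂ) = ((1 / 2 : ℝ) : ℂ) by simp, norm_cpow_real, ← Real.sqrt_eq_rpow]
    exact Real.sqrt_le_sqrt (mu_le hq hh hy)
  rw [norm_div, norm_mul, norm_real, norm_real, Real.norm_eq_abs,
    Real.norm_of_nonneg (Real.sqrt_nonneg _)]
  exact (div_le_self (by positivity) (Real.one_le_sqrt.2 one_le_two)).trans
    (mul_le_mul hk h1 (norm_nonneg _) ((abs_nonneg _).trans hk))

theorem xx (q n : ℕ) {h : ℝ} (hh : 0 < h) :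
    √(om q h) ^ n * Tt q h ^ (3 * n / 2 : ℝ) = (h ^ (3 * n))⁻¹ := by
  have hT : 0 < Tt q h := by unfold Tt; positivity
  refine (sq_eq_sq₀ (by positivity) (by positivity)).1 ?_
  rw [mul_pow, ← pow_mul, mul_comm n, pow_mul, Real.sq_sqrt (by unfold om; positivity),
    ← Real.rpow_natCast _ 2, ← Real.rpow_mul hT.le,
    show (3 * n / 2 : ℝ) * (2 : ℕ) = (3 * n : ℕ) by push_cast; ring, Real.rpow_natCast, om, Tt,
    inv_pow, inv_pow]
  field_simp
  ring

theorem gb {a : ℝ} (ha : 0 ≤ a) : ∃ K, 0 ≤ K ∧ ∀ x : ℝ, 0 ≤ x → x ^ a ≤ K * Real.exp (x / 4) := by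
  obtain ⟨n, hn⟩ := exists_nat_ge a
  refine ⟨1 + 4 ^ n * n.factorial, by positivity, fun x hx => ?_⟩
  have h1 := Real.pow_div_factorial_le_exp (x / 4) (by positivity) n
  have h2 : 1 ≤ Real.exp (x / 4) := Real.one_le_exp (by positivity)
  rw [div_pow, div_div, div_le_iff₀' (by positivity)] at h1
  have h3 : 0 ≤ x ^ n := by positivity
  rcases le_total x 1 with h | h
  · linarith [Real.rpow_le_one hx h ha]
  · have h4 := Real.rpow_le_rpow_of_exponent_le h hn
    rw [Real.rpow_natCast] at h4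
    linarith

end MB

theorem st_mb : St_MB := by
  intro j b F p n0 q hq hF
  have key : ∀ n : ℕ, ∃ K, ∀ h, 2 ≤ h → ∀ y k d : ℝ, |y| ≤ YY q h → |k| ≤ j → d ≠ 0 →
      ‖(PowerSeries.coeff n F : ℝ) * (k * rt (mu q h y) / √2) ^ n *
        eb (mu q h y) (b + 3 * n / 2) d‖ ≤
      K * (√(om q h) ^ n0 * |d| ^ (b + 3 * n0 / 2 - 1) * Real.exp (-(3 * |d| / (4 * Tt q h)))) := by
    intro n
    rcases lt_or_ge n n0 with hn | hn
    · exact ⟨0, fun h _ y k d _ _ _ => by simp [hF n hn]⟩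
    obtain ⟨m, rfl⟩ := Nat.exists_eq_add_of_le hn
    obtain ⟨K, hK, k1⟩ := MB.gb (a := 3 * m / 2) (by positivity)
    refine ⟨|PowerSeries.coeff (n0 + m) F| * j ^ (n0 + m) * K /
      |Real.Gamma (b + 3 * (n0 + m : ℕ) / 2)|, fun h hh y k d hy hk hd => ?_⟩
    have hj : 0 ≤ j := (abs_nonneg _).trans hk
    have h0 : 0 < h := by linarith
    have hT : 0 < Tt q h := by unfold Tt; positivity
    have hd' := abs_pos.2 hd
    have e1 : |d| ^ (b + 3 * (n0 + m : ℕ) / 2 - 1) = |d| ^ (b + 3 * n0 / 2 - 1) *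
        (Tt q h ^ (3 * m / 2 : ℝ) * (|d| / Tt q h) ^ (3 * m / 2 : ℝ)) := by
      rw [← Real.mul_rpow hT.le (by positivity), mul_div_cancel₀ _ hT.ne', ← Real.rpow_add hd']
      congr 1
      push_cast
      ring
    have e2 : Real.exp (-((Tt q h)⁻¹ * |d|)) * Real.exp (|d| / Tt q h / 4) =
        Real.exp (-(3 * |d| / (4 * Tt q h))) := by
      rw [← Real.exp_add]
      congr 1
      ring
    have e3 : √(om q h) ^ m * Tt q h ^ (3 * m / 2 : ℝ) ≤ 1 := by
      rw [MB.xx q m h0]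
      exact inv_le_one_of_one_le₀ (one_le_pow₀ (by linarith))
    have e4 := mul_le_mul e3 (k1 (|d| / Tt q h) (by positivity)) (by positivity) zero_le_one
    rw [norm_mul, norm_mul, norm_pow, MB.eb_norm, norm_real, Real.norm_eq_abs,
      show (mu q h y).re = (Tt q h)⁻¹ by simp [mu], e1, ← e2]
    refine (mul_le_mul_of_nonneg_right (mul_le_mul_of_nonneg_left
      (pow_le_pow_left₀ (norm_nonneg _) (MB.kap hq hh hy hk) _) (abs_nonneg _))
      (by positivity)).trans ?_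
    refine le_trans (le_of_eq ?_) ((mul_le_mul_of_nonneg_left e4
      (a := |PowerSeries.coeff (n0 + m) F| * j ^ (n0 + m) / |Real.Gamma (b + 3 * (n0 + m : ℕ) / 2)| *
        (√(om q h) ^ n0 * |d| ^ (b + 3 * n0 / 2 - 1) * Real.exp (-((Tt q h)⁻¹ * |d|))))
      (by positivity)).trans_eq (by ring))
    rw [mul_pow, pow_add √(om q h)]
    ring
  choose K hK using key
  refine ⟨∑ n ∈ Finset.range (p + 1), K n, 2, fun h hh y k d hy hk hd => ?_⟩
  rw [mul_assoc, mul_assoc, ← mul_assoc (√(om q h) ^ n0), Finset.sum_mul]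
  exact (norm_sum_le _ _).trans (Finset.sum_le_sum fun n _ => hK n h hh y k d hy hk hd)

end Pool.Agent.Lib.IS2
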