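import Pool.Agent.Lib.IS2.B_F3a
import Pool.Agent.Lib.IS2.B_MB

/-! Project is2, block F3: convolution of two truncated models. -/

open scoped Real
open Complex MeasureTheory Set Filter intervalIntegral

noncomputable section

namespace Pool.Agent.Lib.IS2

namespace F3

theorem eb_le {b : ℝ} (hb : 1 / 2 ≤ b) : ∃ K, 0 < K ∧ ∀ (μ : ℂ) (T u : ℝ), 0 < T → μ.re = T⁻¹ →
    u ≠ 0 → ‖eb μ b u‖ * Real.exp (|u| / (4 * T)) ≤ K * T ^ (b - 1) * F3a.wg (|u| / T) := by
  obtain ⟨K, hK, k⟩ := F3a.pw (β := b - 1) (by linarith)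
  have g := Real.Gamma_pos_of_pos (s := b) (by linarith)
  refine ⟨K / Real.Gamma b, by positivity, fun μ T u hT hre hu => ?_⟩
  have hu' := abs_pos.2 hu
  have k1 := k (|u| / T) 0 (by positivity) le_rfl
  rw [add_zero] at k1
  have e1 : |u| ^ (b - 1) = T ^ (b - 1) * (|u| / T) ^ (b - 1) := by
    rw [← Real.mul_rpow hT.le (by positivity), mul_div_cancel₀ _ hT.ne']
  have e2 : Real.exp (-(|u| / T / 4)) =
      Real.exp (-(T⁻¹ * |u|)) * Real.exp (|u| / (4 * T)) * Real.exp (|u| / T / 2) := by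
    rw [← Real.exp_add, ← Real.exp_add]
    congr 1
    ring
  rw [MB.eb_norm, hre, abs_of_pos g, e1, F3a.wg, e2]
  refine le_trans (le_of_eq (by ring)) ((mul_le_mul_of_nonneg_left k1 (a := T ^ (b - 1) *
    Real.exp (-(T⁻¹ * |u|)) * Real.exp (|u| / (4 * T)) / Real.Gamma b) (by positivity)).trans_eq
    (by ring))

/-- One term of the bilinear expansion. -/
def tm (μ κ : ℂ) (b1 b2 : ℝ) (F1 F2 : PowerSeries ℝ) (N : ℕ) (u : ℝ) (m n : ℕ) : ℂ :=
  ((PowerSeries.coeff m F1 * PowerSeries.coeff n F2 : ℝ) : ℂ) * κ ^ (m + n) *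
    ((∫ v in (-π)..π, eb μ (b1 + 3 * m / 2) v * eb μ (b2 + 3 * n / 2) (u - v)) -
      if m + n < N then eb μ (b1 + b2 + 3 * (m + n : ℕ) / 2) u else 0)

theorem tm_le (j : ℝ) {b1 b2 : ℝ} {F1 F2 : PowerSeries ℝ} {p q : ℕ}
    (h1 : ∀ n, PowerSeries.coeff n F1 ≠ 0 → 1 / 2 ≤ b1 + 3 * n / 2)
    (h2 : ∀ n, PowerSeries.coeff n F2 ≠ 0 → 1 / 2 ≤ b2 + 3 * n / 2)
    (hq : 9 * (p + 1) + 2 ≤ 2 * q) (m n : ℕ) : ∃ K, 0 ≤ K ∧ ∀ h, 2 ≤ h → ∀ y k u : ℝ,
    |y| ≤ YY q h → |k| ≤ j → u ≠ 0 → |u| ≤ π →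
    ‖tm (mu q h y) (k * rt (mu q h y) / √2) b1 b2 F1 F2 (p + 2 + 1) u m n‖ *
      Real.exp (|u| / (4 * Tt q h)) ≤
      K * (eps p h * Tt q h ^ (b1 + b2 - 1) * F3a.wg (|u| / Tt q h)) := by
  by_cases c1 : PowerSeries.coeff m F1 = 0
  · exact ⟨0, le_rfl, fun h _ y k u _ _ _ _ => by simp [tm, c1]⟩
  by_cases c2 : PowerSeries.coeff n F2 = 0
  · exact ⟨0, le_rfl, fun h _ y k u _ _ _ _ => by simp [tm, c2]⟩
  have g1 := h1 m c1
  have g2 := h2 n c2
  obtain ⟨K1, hK1, k1⟩ := F3a.pt g1 g2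
  obtain ⟨K2, hK2, k2⟩ := eb_le (b := b1 + 3 * m / 2 + (b2 + 3 * n / 2)) (by linarith)
  refine ⟨|PowerSeries.coeff m F1 * PowerSeries.coeff n F2| * |j| ^ (m + n) * (K1 + K2),
    by positivity, fun h hh y k u hy hk hu hπ => ?_⟩
  obtain ⟨hT, hre, he, hb⟩ := F3a.par hq hh hy
  have h0 : 0 < h := by linarith
  have h3 : 1 ≤ h := by linarith
  have k3 := k1 _ _ _ u hT hre he hb hu hπ
  have k4 := k2 _ _ u hT hre hu
  have e0 : b1 + 3 * m / 2 + (b2 + 3 * n / 2) = b1 + b2 + 3 * (m + n : ℕ) / 2 := by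
    push_cast
    ring
  have e1 : Tt q h ^ (b1 + 3 * m / 2 + (b2 + 3 * n / 2) - 1) =
      Tt q h ^ (3 * (m + n : ℕ) / 2 : ℝ) * Tt q h ^ (b1 + b2 - 1) := by
    rw [← Real.rpow_add hT, e0]
    congr 1
    ring
  rw [e1, e0] at k3 k4
  have hw : 0 ≤ F3a.wg (|u| / Tt q h) := by unfold F3a.wg; positivity
  have hx := MB.xx q (m + n) h0
  have hx1 : (h ^ (3 * (m + n)))⁻¹ ≤ 1 := inv_le_one_of_one_le₀ (one_le_pow₀ h3)
  have hx0 : 0 ≤ (h ^ (3 * (m + n)))⁻¹ := by positivity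
  have hA : 0 ≤ Tt q h ^ (b1 + b2 - 1) * F3a.wg (|u| / Tt q h) := by positivity
  have hs : 0 ≤ √(om q h) ^ (m + n) := by positivity
  have k5 : √(om q h) ^ (m + n) * (‖(∫ v in (-π)..π, eb (mu q h y) (b1 + 3 * m / 2) v *
      eb (mu q h y) (b2 + 3 * n / 2) (u - v)) - if m + n < p + 2 + 1 then
      eb (mu q h y) (b1 + b2 + 3 * (m + n : ℕ) / 2) u else 0‖ * Real.exp (|u| / (4 * Tt q h))) ≤
      (K1 + K2) * (eps p h * Tt q h ^ (b1 + b2 - 1) * F3a.wg (|u| / Tt q h)) := by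
    have k6 := mul_le_mul_of_nonneg_left k3 hs
    have k7 := mul_le_mul_of_nonneg_left k4 hs
    have a1 := k6.trans ((le_of_eq (by rw [← hx]; ring)).trans (mul_le_mul_of_nonneg_right hx1
      (a := K1 * eps p h * (Tt q h ^ (b1 + b2 - 1) * F3a.wg (|u| / Tt q h))) (by positivity)))
    have a2 : 0 ≤ K2 * eps p h * (Tt q h ^ (b1 + b2 - 1) * F3a.wg (|u| / Tt q h)) := by positivity
    split_ifs with hc
    · linarith
    · have hx2 : (h ^ (3 * (m + n)))⁻¹ ≤ eps p h :=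
        inv_anti₀ (by positivity) (pow_le_pow_right₀ h3 (by omega))
      have a3 := k7.trans ((le_of_eq (by rw [← hx]; ring)).trans (mul_le_mul_of_nonneg_right hx2
        (a := K2 * (Tt q h ^ (b1 + b2 - 1) * F3a.wg (|u| / Tt q h))) (by positivity)))
      have a4 := mul_le_mul_of_nonneg_left (mul_le_mul_of_nonneg_right (norm_le_norm_sub_add
        (∫ v in (-π)..π, eb (mu q h y) (b1 + 3 * m / 2) v * eb (mu q h y) (b2 + 3 * n / 2) (u - v))
        (eb (mu q h y) (b1 + b2 + 3 * (m + n : ℕ) / 2) u))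
        (Real.exp_pos (|u| / (4 * Tt q h))).le) hs
      rw [sub_zero]
      linarith
  have k8 := pow_le_pow_left₀ (norm_nonneg _)
    (MB.kap (q := q) (by omega) hh hy (hk.trans (le_abs_self j))) (m + n)
  rw [tm, norm_mul, norm_mul, norm_pow, norm_real, Real.norm_eq_abs, mul_assoc]
  refine (mul_le_mul_of_nonneg_right (mul_le_mul_of_nonneg_left k8 (abs_nonneg _))
    (by positivity)).trans (le_trans (le_of_eq ?_) ((mul_le_mul_of_nonneg_left k5
      (a := |PowerSeries.coeff m F1 * PowerSeries.coeff n F2| * |j| ^ (m + n))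
      (by positivity)).trans_eq (by ring)))
  rw [mul_pow]
  ring

theorem md_meas (μ : ℂ) (k b : ℝ) (F : PowerSeries ℝ) (N : ℕ) : Measurable (md μ k b F N) :=
  Finset.measurable_fun_sum _ fun _ _ => (F3a.eb_meas _ _).const_mul _

theorem ex {b1 b2 : ℝ} {F1 F2 : PowerSeries ℝ}
    (h1 : ∀ n, PowerSeries.coeff n F1 ≠ 0 → 1 / 2 ≤ b1 + 3 * n / 2)
    (h2 : ∀ n, PowerSeries.coeff n F2 ≠ 0 → 1 / 2 ≤ b2 + 3 * n / 2) (μ : ℂ) (k : ℝ) (N : ℕ) {u : ℝ}
    (hu : u ≠ 0) :
    IntervalIntegrable (fun v => md μ k b1 F1 N v * md μ k b2 F2 N (u - v)) volume (-π) π ∧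
    (∫ v in (-π)..π, md μ k b1 F1 N v * md μ k b2 F2 N (u - v)) - md μ k (b1 + b2) (F1 * F2) N u =
      ∑ m ∈ Finset.range (N + 1), ∑ n ∈ Finset.range (N + 1),
        tm μ (k * rt μ / √2) b1 b2 F1 F2 (N + 1) u m n := by
  set κ : ℂ := k * rt μ / √2 with hκ
  have e1 : (fun v => md μ k b1 F1 N v * md μ k b2 F2 N (u - v)) = fun v =>
      ∑ m ∈ Finset.range (N + 1), ∑ n ∈ Finset.range (N + 1),
        ((PowerSeries.coeff m F1 * PowerSeries.coeff n F2 : ℝ) : ℂ) * κ ^ (m + n) *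
          (eb μ (b1 + 3 * m / 2) v * eb μ (b2 + 3 * n / 2) (u - v)) := funext fun v => by
    rw [md, md, Finset.sum_mul_sum]
    refine Finset.sum_congr rfl fun m _ => Finset.sum_congr rfl fun n _ => ?_
    push_cast
    ring
  have i0 : ∀ m n : ℕ, IntervalIntegrable (fun v =>
      ((PowerSeries.coeff m F1 * PowerSeries.coeff n F2 : ℝ) : ℂ) * κ ^ (m + n) *
        (eb μ (b1 + 3 * m / 2) v * eb μ (b2 + 3 * n / 2) (u - v))) volume (-π) π := fun m n => by
    by_cases c1 : PowerSeries.coeff m F1 = 0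
    · simp [c1]
    by_cases c2 : PowerSeries.coeff n F2 = 0
    · simp [c2]
    exact (F3a.i1 μ (by linarith [h1 m c1]) (by linarith [h2 n c2]) hu).const_mul _
  have i1 : ∀ m : ℕ, IntervalIntegrable (fun v => ∑ n ∈ Finset.range (N + 1),
      ((PowerSeries.coeff m F1 * PowerSeries.coeff n F2 : ℝ) : ℂ) * κ ^ (m + n) *
        (eb μ (b1 + 3 * m / 2) v * eb μ (b2 + 3 * n / 2) (u - v))) volume (-π) π := fun m =>
    ⟨integrable_finsetSum _ fun n _ => (i0 m n).1, integrable_finsetSum _ fun n _ => (i0 m n).2⟩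
  have e2 : md μ k (b1 + b2) (F1 * F2) N u = ∑ m ∈ Finset.range (N + 1),
      ∑ n ∈ Finset.range (N + 1),
        ((PowerSeries.coeff m F1 * PowerSeries.coeff n F2 : ℝ) : ℂ) * κ ^ (m + n) *
          if m + n < N + 1 then eb μ (b1 + b2 + 3 * (m + n : ℕ) / 2) u else 0 := by
    have e3 := Finset.sum_range_diag_flip (N + 1) fun m n : ℕ =>
      ((PowerSeries.coeff m F1 * PowerSeries.coeff n F2 : ℝ) : ℂ) * κ ^ (m + n) *
        eb μ (b1 + b2 + 3 * (m + n : ℕ) / 2) u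
    rw [md]
    refine Eq.trans (Finset.sum_congr rfl fun n _ => ?_) (e3.trans
      (Finset.sum_congr rfl fun m _ => ?_))
    · rw [PowerSeries.coeff_mul, Finset.Nat.sum_antidiagonal_eq_sum_range_succ
        fun a b => PowerSeries.coeff a F1 * PowerSeries.coeff b F2, ofReal_sum, Finset.sum_mul,
        Finset.sum_mul]
      refine Finset.sum_congr rfl fun a ha => ?_
      rw [Nat.add_sub_cancel' (Nat.lt_succ_iff.1 (Finset.mem_range.1 ha))]
    · simp only [mul_ite, mul_zero]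
      rw [← Finset.sum_filter]
      refine Finset.sum_congr (Finset.ext fun n => ?_) fun _ _ => rfl
      simp only [Finset.mem_filter, Finset.mem_range]
      omega
  rw [e1]
  refine ⟨⟨integrable_finsetSum _ fun m _ => (i1 m).1, integrable_finsetSum _ fun m _ => (i1 m).2⟩,
    ?_⟩
  rw [integral_finsetSum fun m _ => i1 m, e2, ← Finset.sum_sub_distrib]
  refine Finset.sum_congr rfl fun m _ => ?_
  rw [integral_finsetSum fun n _ => i0 m n, ← Finset.sum_sub_distrib]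
  refine Finset.sum_congr rfl fun n _ => ?_
  rw [intervalIntegral.integral_const_mul, tm, mul_sub]

end F3

theorem st_f3 : St_F3 := by
  intro j b1 b2 F1 F2 p q h1 h2 hq
  choose K0 hK0 k0 using F3.tm_le j h1 h2 hq
  set K := ∑ m ∈ Finset.range (p + 2 + 1), ∑ n ∈ Finset.range (p + 2 + 1), K0 m n with hKd
  have hK : 0 ≤ K := Finset.sum_nonneg fun m _ => Finset.sum_nonneg fun n _ => hK0 m n
  have hW : 0 ≤ ∫ x in Ioi 0, F3a.wg x := integral_nonneg fun x => by unfold F3a.wg; positivity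
  refine ⟨K * (2 * (∫ x in Ioi 0, F3a.wg x) + 3), 2, fun h hh y k hy hk => ?_⟩
  obtain ⟨hT, hre, he, hb⟩ := F3a.par hq hh hy
  intro μ T err
  have hp := Real.pi_pos
  have k1 : ∀ u, u ≠ 0 → |u| ≤ π → ‖err u‖ * Real.exp (|u| / (4 * T)) ≤
      K * eps p h * T ^ (b1 + b2 - 1) * F3a.wg (|u| / T) := fun u hu hπ => by
    rw [show err u = _ from (F3.ex h1 h2 μ k (p + 2) hu).2, mul_assoc, mul_assoc, ← mul_assoc (eps p h),
      hKd, Finset.sum_mul]
    refine (mul_le_mul_of_nonneg_right (norm_sum_le _ _) (Real.exp_pos _).le).trans ?_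
    rw [Finset.sum_mul]
    refine Finset.sum_le_sum fun m _ => ?_
    refine (mul_le_mul_of_nonneg_right (norm_sum_le _ _) (Real.exp_pos _).le).trans ?_
    rw [Finset.sum_mul, Finset.sum_mul]
    exact Finset.sum_le_sum fun n _ => k0 m n h hh y k u hy hk hu hπ
  have hTp : 0 < T ^ (b1 + b2 - 1) := Real.rpow_pos_of_pos hT _
  obtain ⟨w1, w2⟩ := F3a.wg_sc hT
  have k2 : ∀ᵐ u, u ∈ Ioc (-π) π → ‖err u‖ * Real.exp (|u| / (4 * T)) ≤
      K * eps p h * T ^ (b1 + b2 - 1) * F3a.wg (|u| / T) := by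
    filter_upwards [(countable_singleton (0 : ℝ)).ae_notMem volume] with u hu hm
    exact k1 u hu (abs_le.2 ⟨hm.1.le, hm.2⟩)
  have hm : Measurable err := by
    refine Measurable.sub ?_ (F3.md_meas _ _ _ _ _)
    simp only [integral_of_le (by linarith : -π ≤ π)]
    exact (StronglyMeasurable.integral_prod_right
      (f := fun u v => md μ k b1 F1 (p + 2) v * md μ k b2 F2 (p + 2) (u - v))
      (((F3.md_meas _ _ _ _ _).comp measurable_snd).mul ((F3.md_meas _ _ _ _ _).comp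
        (measurable_fst.sub measurable_snd))).stronglyMeasurable).measurable
  refine ⟨fun u hu => (F3.ex h1 h2 μ k (p + 2) hu).1, ?_, ?_, fun u hu hu' => ?_⟩
  · refine (w1.const_mul (K * eps p h * T ^ (b1 + b2 - 1))).mono_fun' hm.aestronglyMeasurable ?_
    rw [uIoc_of_le (by linarith), EventuallyLE, ae_restrict_iff' measurableSet_Ioc]
    filter_upwards [k2] with u hu hm
    exact (le_mul_of_one_le_right (norm_nonneg _) (Real.one_le_exp (by positivity))).trans (hu hm)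
  · refine (le_abs_self _).trans ((norm_integral_le_of_norm_le (by linarith)
      (k2.mono fun u hu hm => (Real.norm_of_nonneg (by positivity)).trans_le (hu hm))
      (w1.const_mul _)).trans ?_)
    have e : T ^ (b1 + b2) = T ^ (b1 + b2 - 1) * T := by
      rw [← Real.rpow_add_one hT.ne', sub_add_cancel]
    rw [intervalIntegral.integral_const_mul, e]
    refine (mul_le_mul_of_nonneg_left w2 (by positivity)).trans ?_
    have : 0 ≤ K * eps p h * (T ^ (b1 + b2 - 1) * T) := by positivity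
    nlinarith
  · have h0 : 0 < T / (4 * h) := by positivity
    have h3 : (√(|u| / T))⁻¹ ≤ 2 * h := by
      rw [inv_le_comm₀ (Real.sqrt_pos.2 (div_pos (h0.trans_le hu) hT)) (by positivity)]
      refine Real.le_sqrt_of_sq_le (le_trans ?_ (div_le_div_of_nonneg_right hu hT.le))
      rw [inv_pow, div_right_comm, div_self hT.ne', one_div]
      exact inv_anti₀ (by positivity) (by nlinarith)
    have h4 : F3a.wg (|u| / T) ≤ 3 * h :=
      (mul_le_of_le_one_right (by positivity) (Real.exp_le_one_iff.2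
        (neg_nonpos.2 (by positivity)))).trans (by linarith)
    refine (k1 u (abs_pos.1 (h0.trans_le hu)) hu').trans
      ((mul_le_mul_of_nonneg_left h4 (by positivity)).trans ?_)
    have : 0 ≤ K * eps p h * h * T ^ (b1 + b2 - 1) := by positivity
    nlinarith

end Pool.Agent.Lib.IS2
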