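import Pool.Agent.Lib.IS2.Blue

/-! Project is2, block F3a: convolution of two monomial models. -/

open scoped Real
open Complex MeasureTheory Set Filter intervalIntegral

noncomputable section

namespace Pool.Agent.Lib.IS2

namespace F3a

theorem ev {E : Type} [NormedAddCommGroup E] {f : ℝ → E}
    (hf : ∀ c, 0 ≤ c → IntervalIntegrable f volume 0 c) (a b : ℝ) :
    IntervalIntegrable (fun u => f |u|) volume a b := by
  have h1 : ∀ c, 0 ≤ c → IntervalIntegrable (fun u => f |u|) volume 0 c := fun c hc =>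
    (hf c hc).congr fun x hx => by
      rw [uIoc_of_le hc] at hx
      simp only [abs_of_pos hx.1]
  have h2 : ∀ c, IntervalIntegrable (fun u => f |u|) volume 0 c := fun c => by
    rcases le_total 0 c with hc | hc
    · exact h1 c hc
    · rw [IntervalIntegrable.iff_comp_neg]
      simpa using h1 (-c) (by linarith)
  exact (h2 a).symm.trans (h2 b)

theorem eb_neg (μ : ℂ) (b d : ℝ) : eb μ b (-d) = eb μ b d := by simp only [eb, abs_neg]

theorem eb_int (μ : ℂ) {b : ℝ} (hb : 0 < b) (a c : ℝ) : IntervalIntegrable (eb μ b) volume a c := by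
  refine ev (f := fun x : ℝ => exp (-(μ * x)) * (x ^ (b - 1) / Real.Gamma b : ℝ)) (fun c _ => ?_) a c
  have h := (intervalIntegrable_rpow' (a := 0) (b := c) (r := b - 1) (by linarith)).div_const
    (Real.Gamma b)
  exact IntervalIntegrable.continuousOn_mul ⟨h.1.ofReal, h.2.ofReal⟩ (by fun_prop)

theorem eb_cont (μ : ℂ) (b : ℝ) {d : ℝ} (hd : d ≠ 0) : ContinuousAt (eb μ b) d :=
  ContinuousAt.mul (by fun_prop) (continuous_ofReal.continuousAt.comp
    ((continuous_abs.continuousAt.rpow_const (Or.inl (abs_ne_zero.2 hd))).div_const _))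

theorem eb_meas (μ : ℂ) (b : ℝ) : Measurable (eb μ b) := by
  unfold eb
  fun_prop

theorem i1 (μ : ℂ) {b1 b2 u : ℝ} (h1 : 0 < b1) (h2 : 0 < b2) (hu : u ≠ 0) :
    IntervalIntegrable (fun v => eb μ b1 v * eb μ b2 (u - v)) volume (-π) π := by
  have n0 : ∀ a c, u ∉ uIcc a c →
      IntervalIntegrable (fun v => eb μ b1 v * eb μ b2 (u - v)) volume a c := fun a c h =>
    (eb_int μ h1 a c).mul_continuousOn fun v hv =>
      (ContinuousAt.comp (g := eb μ b2) (f := fun v => u - v)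
        (eb_cont μ b2 (sub_ne_zero.2 fun e => h (e ▸ hv))) (by fun_prop)).continuousWithinAt
  have nu : ∀ a c, (0 : ℝ) ∉ uIcc a c →
      IntervalIntegrable (fun v => eb μ b1 v * eb μ b2 (u - v)) volume a c := fun a c h => by
    have h3 := (eb_int μ h2 (u - a) (u - c)).comp_sub_left u
    rw [sub_sub_cancel, sub_sub_cancel] at h3
    exact h3.continuousOn_mul fun v hv => (eb_cont μ b1 fun e => h (e ▸ hv)).continuousWithinAt
  have hp := Real.pi_pos
  rcases lt_or_gt_of_ne hu with h | h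
  · refine (nu _ (u / 2) fun h3 => ?_).trans (n0 _ _ fun h3 => ?_) <;>
      rcases mem_uIcc.1 h3 with h4 | h4 <;> linarith [h4.1, h4.2]
  · refine (n0 _ (u / 2) fun h3 => ?_).trans (nu _ _ fun h3 => ?_) <;>
      rcases mem_uIcc.1 h3 with h4 | h4 <;> linarith [h4.1, h4.2]

theorem nh {x : ℝ} (hx : 0 ≤ x) : x ^ (-(1 / 2) : ℝ) = (√x)⁻¹ := by
  rw [Real.rpow_neg hx, Real.sqrt_eq_rpow]

theorem isq (c : ℝ) (hc : 0 ≤ c) : IntervalIntegrable (fun r => (√r)⁻¹) volume 0 c :=
  (intervalIntegrable_rpow' (r := -(1 / 2)) (by norm_num)).congr fun x hx => by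
    rw [uIoc_of_le hc] at hx
    exact nh hx.1.le

theorem osc {μ : ℂ} {α β u M s R : ℝ} (hu : 0 < u) (hs : 0 < s) (hR : 0 ≤ R) (hμ : μ ≠ 0)
    (hα : -1 < α) (hM : ∀ r : ℝ, 0 < r →
      ‖exp (-(2 * μ * r))‖ * (r ^ α * (u + r) ^ β) ≤ M * (√r)⁻¹) :
    ‖∫ r in (0 : ℝ)..R, exp (-(2 * μ * r)) * ((r ^ α * (u + r) ^ β : ℝ) : ℂ)‖ ≤
      M * (2 * s + (1 + |α| + |β|) / (‖μ‖ * s)) := by
  set G : ℝ → ℂ := fun r => exp (-(2 * μ * r)) * ((r ^ α * (u + r) ^ β : ℝ) : ℂ) with hG
  have hn : ∀ r, 0 < r → ‖G r‖ ≤ M * (√r)⁻¹ := fun r hr => by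
    rw [hG, norm_mul, norm_real, Real.norm_of_nonneg (by positivity)]
    exact hM r hr
  have hM0 : 0 ≤ M := by simpa using (norm_nonneg _).trans (hn 1 one_pos)
  have hl : 0 < ‖μ‖ := norm_pos_iff.2 hμ
  have crude : ∀ c, 0 ≤ c → c ≤ s ^ 2 → ‖∫ r in (0 : ℝ)..c, G r‖ ≤ M * (2 * s) := fun c hc hcs => by
    refine (norm_integral_le_of_norm_le hc (Eventually.of_forall fun r hr => hn r hr.1)
      ((isq c hc).const_mul M)).trans ?_
    rw [intervalIntegral.integral_const_mul, integral_congr (g := fun r => r ^ (-(1 / 2) : ℝ))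
      (fun r hr => by rw [uIcc_of_le hc] at hr; exact (nh hr.1).symm),
      integral_rpow (Or.inl (by norm_num)), Real.zero_rpow (by norm_num),
      show (-(1 / 2) + 1 : ℝ) = 1 / 2 by norm_num, ← Real.sqrt_eq_rpow]
    have := Real.sqrt_le_iff.2 ⟨hs.le, hcs⟩
    exact mul_le_mul_of_nonneg_left (by linarith) hM0
  have hA : 0 ≤ (1 + |α| + |β|) / (‖μ‖ * s) := by positivity
  rcases le_total R (s ^ 2) with h | h
  · exact (crude R hR h).trans (mul_le_mul_of_nonneg_left (by linarith) hM0)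
  have hs2 : 0 < s ^ 2 := by positivity
  have hpos : ∀ r ∈ uIcc (s ^ 2) R, 0 < r := fun r hr => by
    rw [uIcc_of_le h] at hr
    exact hs2.trans_le hr.1
  have hd : ∀ r, 0 < r →
      HasDerivAt G (G r * (-(2 * μ) + ((α / r + β / (u + r) : ℝ) : ℂ))) r := fun r hr => by
    have h1 : HasDerivAt (fun r : ℝ => (r : ℂ)) 1 r := ofRealCLM.hasDerivAt
    have h2 := ((Real.hasDerivAt_rpow_const (p := α) (Or.inl hr.ne')).mul
      (((hasDerivAt_id r).const_add u).rpow_const (p := β) (Or.inl (by positivity)))).ofReal_comp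
    refine (((h1.const_mul (2 * μ)).neg.cexp).mul h2).congr_deriv ?_
    have h3 : u + r ≠ 0 := by positivity
    simp only [hG, id, Real.rpow_sub_one hr.ne', Real.rpow_sub_one h3, Pi.neg_apply, Pi.mul_apply]
    push_cast
    ring
  have hc : ContinuousOn G (uIcc (s ^ 2) R) := fun r hr =>
    (hd r (hpos r hr)).continuousAt.continuousWithinAt
  have hH : ContinuousOn (fun r => G r * ((α / r + β / (u + r) : ℝ) : ℂ)) (uIcc (s ^ 2) R) :=
    hc.mul (continuous_ofReal.comp_continuousOn ((continuousOn_const.div continuousOn_id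
      fun r hr => (hpos r hr).ne').add (continuousOn_const.div (by fun_prop)
      fun r hr => (add_pos hu (hpos r hr)).ne')))
  have ibp : 2 * μ * ∫ r in s ^ 2..R, G r =
      (∫ r in s ^ 2..R, G r * ((α / r + β / (u + r) : ℝ) : ℂ)) - (G R - G (s ^ 2)) := by
    rw [← integral_eq_sub_of_hasDerivAt (fun r hr => hd r (hpos r hr))
      ((((hc.mul continuousOn_const).add hH).congr fun r _ => mul_add _ _ _).intervalIntegrable),
      ← integral_sub hH.intervalIntegrable
      ((((hc.mul continuousOn_const).add hH).congr fun r _ => mul_add _ _ _).intervalIntegrable),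
      ← intervalIntegral.integral_const_mul]
    exact integral_congr fun r _ => by ring
  have hq : ∀ r, s ^ 2 ≤ r → (√r)⁻¹ ≤ s⁻¹ := fun r hr => inv_anti₀ hs (Real.le_sqrt_of_sq_le hr)
  have hsd : ∀ r ∈ uIcc (s ^ 2) R, HasDerivAt (fun r => -2 * (√r)⁻¹) ((√r)⁻¹ / r) r := fun r hr => by
    have h1 := Real.sqrt_pos.2 (hpos r hr)
    refine (((Real.hasDerivAt_sqrt (hpos r hr).ne').inv h1.ne').const_mul (-2)).congr_deriv ?_
    rw [Real.sq_sqrt (hpos r hr).le]
    field_simp
  have hsc : IntervalIntegrable (fun r => (√r)⁻¹ / r) volume (s ^ 2) R :=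
    ((Real.continuous_sqrt.continuousOn.inv₀ fun r hr => (Real.sqrt_pos.2 (hpos r hr)).ne').div
      continuousOn_id fun r hr => (hpos r hr).ne').intervalIntegrable
  have h1 : ‖∫ r in s ^ 2..R, G r * ((α / r + β / (u + r) : ℝ) : ℂ)‖ ≤
      M * (|α| + |β|) * (2 * s⁻¹) := by
    refine (norm_integral_le_of_norm_le h (Eventually.of_forall fun r hr => ?_)
      (hsc.const_mul (M * (|α| + |β|)))).trans ?_
    · have hr0 := hs2.trans hr.1
      have h2 : |α / r + β / (u + r)| ≤ (|α| + |β|) / r := by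
        refine (abs_add_le _ _).trans ?_
        rw [abs_div, abs_div, abs_of_pos hr0, abs_of_pos (add_pos hu hr0), add_div]
        gcongr
        linarith
      rw [norm_mul, norm_real, Real.norm_eq_abs]
      exact (mul_le_mul (hn r hr0) h2 (abs_nonneg _) (by positivity)).trans_eq (by ring)
    · rw [intervalIntegral.integral_const_mul, integral_eq_sub_of_hasDerivAt hsd hsc,
        Real.sqrt_sq hs.le]
      have : 0 ≤ (√R)⁻¹ := by positivity
      exact mul_le_mul_of_nonneg_left (by linarith) (by positivity)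
  have h2 : 2 * ‖μ‖ * ‖∫ r in s ^ 2..R, G r‖ ≤
      M * (|α| + |β|) * (2 * s⁻¹) + (M * s⁻¹ + M * s⁻¹) := by
    have h3 := congrArg norm ibp
    rw [norm_mul, norm_mul, Complex.norm_two] at h3
    exact h3.trans_le ((norm_sub_le _ _).trans (add_le_add h1 ((norm_sub_le _ _).trans (add_le_add
      ((hn R (hs2.trans_le h)).trans (mul_le_mul_of_nonneg_left (hq R h) hM0))
      ((hn _ hs2).trans (mul_le_mul_of_nonneg_left (hq _ le_rfl) hM0))))))
  have h3 : IntervalIntegrable G volume 0 (s ^ 2) := by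
    have h4 := (intervalIntegrable_rpow' (a := 0) (b := s ^ 2) hα).mul_continuousOn
      (g := fun r => (u + r) ^ β) (ContinuousOn.rpow_const (by fun_prop) fun r hr => Or.inl (by
        rw [uIcc_of_le hs2.le] at hr
        exact (add_pos_of_pos_of_nonneg hu hr.1).ne'))
    exact IntervalIntegrable.continuousOn_mul ⟨h4.1.ofReal, h4.2.ofReal⟩ (by fun_prop)
  rw [← integral_add_adjacent_intervals h3 hc.intervalIntegrable, mul_add]
  refine (norm_add_le _ _).trans (add_le_add (crude _ hs2.le le_rfl) ?_)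
  refine le_of_mul_le_mul_left (h2.trans_eq ?_) (by positivity : 0 < 2 * ‖μ‖)
  field_simp
  ring

theorem pw {β : ℝ} (hβ : -(1 / 2) ≤ β) : ∃ K, 0 < K ∧ ∀ x s : ℝ, 0 < x → 0 ≤ s →
    (x + s) ^ β ≤ K * (1 + (√x)⁻¹) * Real.exp ((x + s) / 2) := by
  rcases le_or_gt β 0 with h | h
  · refine ⟨1, one_pos, fun x s hx hs => ?_⟩
    have h1 : x ^ β ≤ 1 + (√x)⁻¹ := by
      rcases le_total x 1 with h2 | h2
      · rw [← nh hx.le]
        exact (Real.rpow_le_rpow_of_exponent_ge hx h2 hβ).trans (by linarith)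
      · exact (Real.rpow_le_one_of_one_le_of_nonpos h2 h).trans (le_add_of_nonneg_right (by positivity))
    rw [one_mul]
    exact ((Real.rpow_le_rpow_of_nonpos hx (by linarith) h).trans h1).trans
      (le_mul_of_one_le_right (by positivity) (Real.one_le_exp (by positivity)))
  · refine ⟨(2 * β) ^ β, by positivity, fun x s hx hs => ?_⟩
    have h1 : x + s ≤ 2 * β * Real.exp ((x + s) / (2 * β)) := by
      rw [← div_le_iff₀' (by positivity)]
      linarith [Real.add_one_le_exp ((x + s) / (2 * β))]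
    refine (Real.rpow_le_rpow (by positivity) h1 h.le).trans ?_
    rw [Real.mul_rpow (by positivity) (by positivity), ← Real.exp_mul,
      show (x + s) / (2 * β) * β = (x + s) / 2 by field_simp]
    gcongr
    exact le_mul_of_one_le_right (by positivity) (le_add_of_nonneg_right (by positivity))

theorem side {b1 b2 : ℝ} (h1 : 1 / 2 ≤ b1) (h2 : 1 / 2 ≤ b2) : ∃ K, 0 < K ∧
    ∀ (μ : ℂ) (T ε u R : ℝ), 0 < T → μ.re = T⁻¹ → 0 < ε → 1 ≤ 4 * (‖μ‖ * T * ε ^ 2) → 0 < u →
    0 ≤ R → ‖∫ r in (0 : ℝ)..R, eb μ b1 r * eb μ b2 (u + r)‖ ≤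
      K * ε * T ^ (b1 + b2 - 1) * ((1 + (√(u / T))⁻¹) * Real.exp (-(u / T / 2))) := by
  obtain ⟨K1, hK1, k1⟩ := pw (β := b1 - 1) (by linarith)
  obtain ⟨K2, hK2, k2⟩ := pw (β := b2 - 1) (by linarith)
  have g1 := Real.Gamma_pos_of_pos (s := b1) (by linarith)
  have g2 := Real.Gamma_pos_of_pos (s := b2) (by linarith)
  refine ⟨2 * K1 * K2 * (2 + 4 * (1 + |b1 - 1| + |b2 - 1|)) / (Real.Gamma b1 * Real.Gamma b2),
    by positivity, fun μ T ε u R hT hre hε hb hu hR => ?_⟩
  have hμ : μ ≠ 0 := fun h => by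
    rw [h, norm_zero] at hb
    linarith
  have hl := norm_pos_iff.2 hμ
  have hsT := Real.sqrt_pos.2 hT
  have hx := div_pos hu hT
  have h3 := osc (μ := μ) (α := b1 - 1) (β := b2 - 1) (s := √T * ε) (M := 2 * K1 * K2 *
    (T ^ (b1 - 1) * T ^ (b2 - 1) * √T) * ((1 + (√(u / T))⁻¹) * Real.exp (u / T / 2))) hu
    (by positivity) hR hμ (by linarith) fun r hr => by
      have hs := div_pos hr hT
      have e1 : r ^ (b1 - 1) = T ^ (b1 - 1) * (r / T + 0) ^ (b1 - 1) := by
        rw [← Real.mul_rpow hT.le (by positivity)]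
        congr 1
        field_simp
        ring
      have e2 : (u + r) ^ (b2 - 1) = T ^ (b2 - 1) * (u / T + r / T) ^ (b2 - 1) := by
        rw [← Real.mul_rpow hT.le (by positivity)]
        congr 1
        field_simp
      have e3 : ‖exp (-(2 * μ * r))‖ = Real.exp (-(2 * (r / T))) := by
        rw [norm_exp]
        congr 1
        simp [hre]
        ring
      have e4 : (1 + (√(r / T))⁻¹) * Real.exp (-(r / T)) ≤ 2 * (√T * (√r)⁻¹) := by
        have h4 : (√(r / T))⁻¹ = √T * (√r)⁻¹ := by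
          rw [Real.sqrt_div hr.le, inv_div, div_eq_mul_inv]
        have h5 : Real.exp (-(r / T)) ≤ (√(r / T))⁻¹ := by
          rw [Real.exp_neg]
          exact inv_anti₀ (Real.sqrt_pos.2 hs) ((Real.sqrt_le_iff.2
            ⟨by positivity, by nlinarith⟩).trans (Real.add_one_le_exp _))
        have h6 : Real.exp (-(r / T)) ≤ 1 := Real.exp_le_one_iff.2 (by linarith)
        have h7 : 0 ≤ (√(r / T))⁻¹ := by positivity
        rw [← h4]
        nlinarith
      have e5 : Real.exp (-(2 * (r / T))) * (Real.exp ((r / T + 0) / 2) *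
          Real.exp ((u / T + r / T) / 2)) = Real.exp (u / T / 2) * Real.exp (-(r / T)) := by
        rw [← Real.exp_add, ← Real.exp_add, ← Real.exp_add]
        congr 1
        ring
      rw [e1, e2, e3]
      calc _ ≤ Real.exp (-(2 * (r / T))) * (T ^ (b1 - 1) * (K1 * (1 + (√(r / T))⁻¹) *
            Real.exp ((r / T + 0) / 2)) * (T ^ (b2 - 1) * (K2 * (1 + (√(u / T))⁻¹) *
            Real.exp ((u / T + r / T) / 2)))) := by
            gcongr
            exacts [k1 _ _ hs le_rfl, k2 _ _ hx hs.le]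
        _ = K1 * K2 * (T ^ (b1 - 1) * T ^ (b2 - 1)) * ((1 + (√(u / T))⁻¹) * Real.exp (u / T / 2)) *
            ((1 + (√(r / T))⁻¹) * Real.exp (-(r / T))) := by
            linear_combination K1 * K2 * (T ^ (b1 - 1) * T ^ (b2 - 1)) * (1 + (√(u / T))⁻¹) *
              (1 + (√(r / T))⁻¹) * e5
        _ ≤ _ := (mul_le_mul_of_nonneg_left e4 (by positivity)).trans_eq (by ring)
  rw [integral_congr (g := fun r : ℝ => (exp (-(μ * u)) / (Real.Gamma b1 * Real.Gamma b2 : ℝ)) *
    (exp (-(2 * μ * r)) * ((r ^ (b1 - 1) * (u + r) ^ (b2 - 1) : ℝ) : ℂ))) fun r hr => by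
      rw [uIcc_of_le hR] at hr
      simp only [eb, abs_of_nonneg hr.1, abs_of_pos (add_pos_of_pos_of_nonneg hu hr.1)]
      have e : exp (-(μ * r)) * exp (-(μ * ((u + r : ℝ) : ℂ))) =
          exp (-(μ * u)) * exp (-(2 * μ * r)) := by
        rw [← Complex.exp_add, ← Complex.exp_add]
        congr 1
        push_cast
        ring
      simp only [ofReal_div, ofReal_mul]
      linear_combination ((r ^ (b1 - 1) : ℝ) : ℂ) / Real.Gamma b1 *
        ((((u + r) ^ (b2 - 1) : ℝ) : ℂ) / Real.Gamma b2) * e,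
    intervalIntegral.integral_const_mul, norm_mul, norm_div, norm_exp, norm_real,
    Real.norm_of_nonneg (by positivity)]
  have e6 : Real.exp (-(μ * u)).re * Real.exp (u / T / 2) = Real.exp (-(u / T / 2)) := by
    rw [← Real.exp_add]
    congr 1
    simp [hre]
    ring
  have e7 : T ^ (b1 + b2 - 1) = T ^ (b1 - 1) * T ^ (b2 - 1) * (√T * √T) := by
    rw [Real.mul_self_sqrt hT.le, ← Real.rpow_add hT, ← Real.rpow_add_one hT.ne']
    congr 1
    ring
  have e8 : (1 + |b1 - 1| + |b2 - 1|) / (‖μ‖ * (√T * ε)) ≤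
      4 * (1 + |b1 - 1| + |b2 - 1|) * (√T * ε) := by
    rw [div_le_iff₀ (by positivity)]
    refine (le_mul_of_one_le_right (by positivity) hb).trans_eq ?_
    linear_combination (-4 * (1 + |b1 - 1| + |b2 - 1|) * ‖μ‖ * ε ^ 2) * Real.mul_self_sqrt hT.le
  refine (mul_le_mul_of_nonneg_left (h3.trans (mul_le_mul_of_nonneg_left (add_le_add le_rfl e8)
    (by positivity))) (by positivity)).trans_eq ?_
  rw [e7, ← e6]
  ring

theorem mid (μ : ℂ) {b1 b2 u : ℝ} (h1 : 0 < b1) (h2 : 0 < b2) (hu : 0 < u) :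
    ∫ v in (0 : ℝ)..u, eb μ b1 v * eb μ b2 (u - v) = eb μ (b1 + b2) u := by
  have g1 : Gamma b1 ≠ 0 := Gamma_ne_zero_of_re_pos h1
  have g2 : Gamma b2 ≠ 0 := Gamma_ne_zero_of_re_pos h2
  have g3 : Gamma (b1 + b2) ≠ 0 := Gamma_ne_zero_of_re_pos (add_pos h1 h2)
  have hb := Gamma_mul_Gamma_eq_betaIntegral (s := b1) (t := b2) h1 h2
  rw [integral_congr (g := fun v : ℝ => exp (-(μ * u)) / (Gamma b1 * Gamma b2) *
    ((v : ℂ) ^ ((b1 : ℂ) - 1) * ((u : ℂ) - v) ^ ((b2 : ℂ) - 1))) fun v hv => by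
      rw [uIcc_of_le hu.le] at hv
      have h3 := sub_nonneg.2 hv.2
      have e : exp (-(μ * v)) * exp (-(μ * (u - v))) = exp (-(μ * u)) := by
        rw [← Complex.exp_add]
        congr 1
        ring
      simp only [eb, abs_of_nonneg hv.1, abs_of_nonneg h3, ofReal_div, ofReal_cpow hv.1,
        ofReal_cpow h3, ← Gamma_ofReal, ofReal_sub, ofReal_one]
      rw [← e]
      ring,
    intervalIntegral.integral_const_mul, betaIntegral_scaled _ _ hu, hb]
  simp only [eb, abs_of_pos hu, ofReal_div, ofReal_cpow hu.le, ← Gamma_ofReal, ofReal_sub,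
    ofReal_one, ofReal_add]
  have g4 : betaIntegral b1 b2 ≠ 0 := fun h => mul_ne_zero g1 g2 (by rw [hb, h, mul_zero])
  field_simp

/-- The weight. -/
def wg (x : ℝ) : ℝ := (1 + (√x)⁻¹) * Real.exp (-(x / 4))

theorem wg_int : IntegrableOn wg (Ioi 0) := by
  have h1 := integrableOn_rpow_mul_exp_neg_mul_rpow (s := 0) (p := 1) (b := 1 / 4) (by norm_num)
    one_pos (by norm_num)
  have h2 := integrableOn_rpow_mul_exp_neg_mul_rpow (s := -(1 / 2)) (p := 1) (b := 1 / 4)
    (by norm_num) one_pos (by norm_num)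
  refine IntegrableOn.congr_fun (h1.add h2) (fun x hx => ?_) measurableSet_Ioi
  simp only [wg, Pi.add_apply, Real.rpow_zero, Real.rpow_one, nh (le_of_lt hx)]
  rw [show -(1 / 4) * x = -(x / 4) by ring]
  ring

theorem wg_sc {T : ℝ} (hT : 0 < T) : IntervalIntegrable (fun u => wg (|u| / T)) volume (-π) π ∧
    ∫ u in (-π)..π, wg (|u| / T) ≤ 2 * (∫ x in Ioi 0, wg x) * T := by
  have h0 : ∀ c, 0 ≤ c → IntervalIntegrable wg volume 0 c := fun c hc =>
    (intervalIntegrable_iff_integrableOn_Ioc_of_le hc).2 (wg_int.mono_set Ioc_subset_Ioi_self)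
  have h1 := ev (f := fun u => wg (u / T)) fun c hc => by
    have := (h0 (c / T) (by positivity)).comp_mul_right (c := T⁻¹)
    simpa [div_eq_mul_inv, hT.ne'] using this
  refine ⟨h1 _ _, ?_⟩
  have h2 : ∫ u in (-π)..0, wg (|u| / T) = ∫ u in (0 : ℝ)..π, wg (|u| / T) := by
    have := integral_comp_neg (a := 0) (b := π) fun u => wg (|u| / T)
    simpa using this.symm
  have h3 : ∫ u in (0 : ℝ)..π, wg (|u| / T) ≤ T * ∫ x in Ioi 0, wg x := by
    rw [integral_congr (g := fun u => wg (u / T)) fun u hu => by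
      rw [uIcc_of_le Real.pi_pos.le] at hu
      simp only [abs_of_nonneg hu.1], intervalIntegral.integral_comp_div _ hT.ne', zero_div,
      integral_of_le (div_pos Real.pi_pos hT).le, smul_eq_mul]
    exact mul_le_mul_of_nonneg_left (setIntegral_mono_set wg_int
      (Eventually.of_forall fun x => by unfold wg; positivity) Ioc_subset_Ioi_self.eventuallyLE) hT.le
  rw [← integral_add_adjacent_intervals (h1 _ 0) (h1 0 _), h2]
  linarith

theorem pt {b1 b2 : ℝ} (h1 : 1 / 2 ≤ b1) (h2 : 1 / 2 ≤ b2) : ∃ K, 0 < K ∧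
    ∀ (μ : ℂ) (T ε u : ℝ), 0 < T → μ.re = T⁻¹ → 0 < ε → 1 ≤ 4 * (‖μ‖ * T * ε ^ 2) → u ≠ 0 →
    |u| ≤ π → ‖(∫ v in (-π)..π, eb μ b1 v * eb μ b2 (u - v)) - eb μ (b1 + b2) u‖ *
      Real.exp (|u| / (4 * T)) ≤ K * ε * T ^ (b1 + b2 - 1) * wg (|u| / T) := by
  obtain ⟨K1, hK1, k1⟩ := side h1 h2
  obtain ⟨K2, hK2, k2⟩ := side h2 h1
  have p1 : 0 < b1 := by linarith
  have p2 : 0 < b2 := by linarith
  refine ⟨K1 + K2, by positivity, fun μ T ε u hT hre hε hb hu hπ => ?_⟩
  wlog h0 : 0 < u generalizing u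
  · have h3 := this (-u) (neg_ne_zero.2 hu) (by rwa [abs_neg])
      (neg_pos.2 (lt_of_le_of_ne (not_lt.1 h0) hu))
    have h4 := integral_comp_neg (a := -π) (b := π) fun v => eb μ b1 v * eb μ b2 (-u - v)
    rw [neg_neg] at h4
    rw [← h4, abs_neg, eb_neg] at h3
    simpa only [eb_neg, show ∀ v, -u - -v = -(u - v) from fun v => by ring] using h3
  rw [abs_of_pos h0] at hπ ⊢
  have hi := i1 μ p1 p2 hu
  have hp := Real.pi_pos
  have s : ∀ a c, -π ≤ a → a ≤ c → c ≤ π →
      IntervalIntegrable (fun v => eb μ b1 v * eb μ b2 (u - v)) volume a c := fun a c ha h hc =>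
    hi.mono_set (by rw [uIcc_of_le h, uIcc_of_le (by linarith)]; exact Icc_subset_Icc ha hc)
  have e1 : ∫ v in (-π)..0, eb μ b1 v * eb μ b2 (u - v) =
      ∫ r in (0 : ℝ)..π, eb μ b1 r * eb μ b2 (u + r) := by
    have := integral_comp_neg (a := 0) (b := π) fun v => eb μ b1 v * eb μ b2 (u - v)
    simpa only [eb_neg, sub_neg_eq_add, neg_zero] using this.symm
  have e2 : ∫ v in u..π, eb μ b1 v * eb μ b2 (u - v) =
      ∫ r in (0 : ℝ)..(π - u), eb μ b2 r * eb μ b1 (u + r) := by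
    have := integral_comp_add_left (a := 0) (b := π - u) (fun v => eb μ b1 v * eb μ b2 (u - v)) u
    rw [add_zero, add_sub_cancel] at this
    rw [← this]
    exact integral_congr fun r _ => by simp only [sub_add_cancel_left, eb_neg, mul_comm]
  rw [← integral_add_adjacent_intervals (s _ 0 le_rfl (by linarith) hp.le)
    (s 0 _ (by linarith) hp.le le_rfl), ← integral_add_adjacent_intervals
    (s 0 u (by linarith) h0.le hπ) (s u _ (by linarith) hπ le_rfl), mid μ p1 p2 h0, e1, e2,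
    show ∀ a b c : ℂ, a + (b + c) - b = a + c from fun a b c => by ring]
  have h3 := k2 μ T ε u (π - u) hT hre hε hb h0 (by linarith)
  rw [add_comm b2] at h3
  refine (mul_le_mul_of_nonneg_right ((norm_add_le _ _).trans
    (add_le_add (k1 μ T ε u π hT hre hε hb h0 hp.le) h3)) (Real.exp_pos _).le).trans_eq ?_
  have e3 : Real.exp (-(u / T / 2)) * Real.exp (u / (4 * T)) = Real.exp (-(u / T / 4)) := by
    rw [← Real.exp_add]
    congr 1
    ring
  rw [wg, ← e3]
  ring

theorem par {p q : ℕ} (hq : 9 * (p + 1) + 2 ≤ 2 * q) {h y : ℝ} (hh : 2 ≤ h) (hy : |y| ≤ YY q h) :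
    0 < Tt q h ∧ (mu q h y).re = (Tt q h)⁻¹ ∧ 0 < eps p h ∧
      1 ≤ 4 * (‖mu q h y‖ * Tt q h * eps p h ^ 2) := by
  have h0 : 0 < h := by linarith
  have h1 : 1 ≤ h := by linarith
  have hT : 0 < Tt q h := by unfold Tt; positivity
  have he : 0 < eps p h := by unfold eps; positivity
  refine ⟨hT, by simp [mu], he, ?_⟩
  have h2 : 4 * YY q h ≤ om q h := by
    rw [YY, Tt, om, div_inv_eq_mul, ← pow_add]
    calc 4 * h ^ (4 + (q + 2)) ≤ h ^ 2 * h ^ (4 + (q + 2)) := by gcongr; nlinarith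
      _ ≤ _ := by rw [← pow_add]; exact pow_le_pow_right₀ h1 (by omega)
  have h3 : om q h ≤ 4 * ‖mu q h y‖ := by
    have h4 := (le_abs_self _).trans (abs_im_le_norm (mu q h y))
    have h5 : (mu q h y).im = om q h / 2 + y := by simp [mu]
    linarith [(abs_le.1 hy).1]
  have h4 : 1 ≤ om q h * (Tt q h * eps p h ^ 2) := by
    rw [om, Tt, eps, inv_pow, ← mul_inv, ← div_eq_mul_inv, one_le_div (by positivity), ← pow_mul,
      ← pow_add]
    exact pow_le_pow_right₀ h1 (by omega)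
  exact (h4.trans (mul_le_mul_of_nonneg_right h3 (by positivity))).trans_eq (by ring)

end F3a

theorem st_f3a : St_F3a := by
  intro b1 b2 p q h1 h2 hq
  obtain ⟨K, hK, k⟩ := F3a.pt h1 h2
  have hW : 0 ≤ ∫ x in Ioi 0, F3a.wg x := integral_nonneg fun x => by unfold F3a.wg; positivity
  refine ⟨K * (2 * (∫ x in Ioi 0, F3a.wg x) + 3), 2, fun h hh y hy => ?_⟩
  obtain ⟨hT, hre, he, hb⟩ := F3a.par hq hh hy
  intro μ T err
  have hp := Real.pi_pos
  have k1 : ∀ u, u ≠ 0 → |u| ≤ π → ‖err u‖ * Real.exp (|u| / (4 * T)) ≤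
      K * eps p h * T ^ (b1 + b2 - 1) * F3a.wg (|u| / T) := fun u => k _ _ _ u hT hre he hb
  have hTp : 0 < T ^ (b1 + b2 - 1) := Real.rpow_pos_of_pos hT _
  obtain ⟨w1, w2⟩ := F3a.wg_sc hT
  have k2 : ∀ᵐ u, u ∈ Ioc (-π) π → ‖err u‖ * Real.exp (|u| / (4 * T)) ≤
      K * eps p h * T ^ (b1 + b2 - 1) * F3a.wg (|u| / T) := by
    filter_upwards [(countable_singleton (0 : ℝ)).ae_notMem volume] with u hu hm
    exact k1 u hu (abs_le.2 ⟨hm.1.le, hm.2⟩)
  have hm : Measurable err := by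
    refine Measurable.sub ?_ (F3a.eb_meas _ _)
    simp only [integral_of_le (by linarith : -π ≤ π)]
    exact (StronglyMeasurable.integral_prod_right (f := fun u v => eb μ b1 v * eb μ b2 (u - v))
      (((F3a.eb_meas _ _).comp measurable_snd).mul ((F3a.eb_meas _ _).comp
        (measurable_fst.sub measurable_snd))).stronglyMeasurable).measurable
  refine ⟨fun u hu => F3a.i1 μ (by linarith) (by linarith) hu, ?_, ?_, fun u hu hu' => ?_⟩
  · refine (w1.const_mul (K * eps p h * T ^ (b1 + b2 - 1))).mono_fun' hm.aestronglyMeasurable ?_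
    rw [uIoc_of_le (by linarith), EventuallyLE, ae_restrict_iff' measurableSet_Ioc]
    filter_upwards [k2] with u hu hm
    exact (le_mul_of_one_le_right (norm_nonneg _) (Real.one_le_exp (by positivity))).trans (hu hm)
  · refine (le_abs_self _).trans ((norm_integral_le_of_norm_le (by linarith)
      (k2.mono fun u hu hm => (Real.norm_of_nonneg (by positivity)).trans_le (hu hm))
      (w1.const_mul _)).trans ?_)
    have e : T ^ (b1 + b2) = T ^ (b1 + b2 - 1) * T := by
      rw [← Real.rpow_add_one hT.ne', sub_add_cancel]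
    rw [intervalIntegral.integral_const_mul, e]
    refine (mul_le_mul_of_nonneg_left w2 (by positivity)).trans ?_
    have : 0 ≤ K * eps p h * (T ^ (b1 + b2 - 1) * T) := by positivity
    nlinarith
  · have h0 : 0 < T / (4 * h) := by positivity
    have h3 : (√(|u| / T))⁻¹ ≤ 2 * h := by
      rw [inv_le_comm₀ (Real.sqrt_pos.2 (div_pos (h0.trans_le hu) hT)) (by positivity)]
      refine Real.le_sqrt_of_sq_le (le_trans ?_ (div_le_div_of_nonneg_right hu hT.le))
      rw [inv_pow, div_right_comm, div_self hT.ne', one_div]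
      exact inv_anti₀ (by positivity) (by nlinarith)
    have h4 : F3a.wg (|u| / T) ≤ 3 * h :=
      (mul_le_of_le_one_right (by positivity) (Real.exp_le_one_iff.2
        (neg_nonpos.2 (by positivity)))).trans (by linarith)
    refine (k1 u (abs_pos.1 (h0.trans_le hu)) hu').trans
      ((mul_le_mul_of_nonneg_left h4 (by positivity)).trans ?_)
    have : 0 ≤ K * eps p h * h * T ^ (b1 + b2 - 1) := by positivity
    nlinarith

end Pool.Agent.Lib.IS2
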