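import Pool.Agent.Lib.IS2.Blue

/-! Row G: the coefficients of the model series are positive. -/

open PowerSeries Finset

noncomputable section

namespace Pool.Agent.Lib.IS2

namespace G

/-- The Euler operator `(3/2) u d/du`. -/
def eu (F : ℝ⟦X⟧) : ℝ⟦X⟧ := C (3 / 2 : ℝ) * (X * d⁄dX ℝ F)

theorem coeff_eu (F : ℝ⟦X⟧) (n : ℕ) : coeff n (eu F) = 3 / 2 * n * coeff n F := by
  rw [eu, coeff_C_mul]
  cases n with
  | zero => simp
  | succ n => rw [coeff_succ_X_mul, coeff_derivative]; push_cast; ring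

theorem eu_mul (F H : ℝ⟦X⟧) : eu (F * H) = eu F * H + F * eu H := by
  simp only [eu, Derivation.leibniz, smul_eq_mul]
  ring

theorem eu_add (F H : ℝ⟦X⟧) : eu (F + H) = eu F + eu H := by
  simp only [eu, map_add]
  ring

theorem eu_sub (F H : ℝ⟦X⟧) : eu (F - H) = eu F - eu H := by
  simp only [eu, map_sub]
  ring

theorem eu_C (c : ℝ) : eu (C c) = 0 := by simp [eu]

theorem eu_X : eu X = C (3 / 2 : ℝ) * X := by simp [eu]

/-- `(E + 1/2) P` -/
def p1 : ℝ⟦X⟧ := eu sP + C (1 / 2 : ℝ) * sP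
/-- `(E + 3/2) P1` -/
def p2 : ℝ⟦X⟧ := eu p1 + C (3 / 2 : ℝ) * p1
/-- `(E + 5/2) P2` -/
def p3 : ℝ⟦X⟧ := eu p2 + C (5 / 2 : ℝ) * p2

theorem c1 (n : ℕ) : coeff n p1 = (3 / 2 * n + 1 / 2) * coeff n sP := by
  rw [p1, map_add, coeff_eu, coeff_C_mul]; ring

theorem c2 (n : ℕ) : coeff n p2 = (3 / 2 * n + 3 / 2) * coeff n p1 := by
  rw [p2, map_add, coeff_eu, coeff_C_mul]; ring

theorem c3 (n : ℕ) : coeff n p3 = (3 / 2 * n + 5 / 2) * coeff n p2 := by
  rw [p3, map_add, coeff_eu, coeff_C_mul]; ring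

theorem sj_succ (j : ℕ) :
    12 * (j + 1) * sj (j + 1) = (3 * j + 1 / 2) * (3 * j + 3 / 2) * (3 * j + 5 / 2) * sj j := by
  have h : (j.factorial : ℝ) ≠ 0 := by positivity
  simp only [sj, show 3 * (j + 1) = 3 * j + 1 + 1 + 1 by ring, prod_range_succ, Nat.factorial_succ]
  push_cast
  field_simp
  ring

theorem ev (j : ℕ) : coeff (2 * j) sP = sj j := by
  simp [sP, coeff_mk]

theorem od (j : ℕ) : coeff (2 * j + 1) sP = 0 := by
  simp [sP, coeff_mk]

theorem sA_eq : sA = C (1 / 4 : ℝ) * (X * p1) := by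
  ext n
  rw [coeff_C_mul]
  cases n with
  | zero => simp [sA, coeff_mk]
  | succ n =>
    rw [coeff_succ_X_mul, c1, sA, coeff_mk]
    obtain ⟨j, rfl | rfl⟩ := Nat.even_or_odd' n
    · rw [ev, if_neg (by simp), show (2 * j + 1) / 2 = j by omega]
      push_cast; ring
    · rw [od, if_pos (by simp [Nat.even_add_one]), mul_zero, mul_zero]

theorem sB_eq : sB = X * (X * p2) := by
  ext n
  match n with
  | 0 => simp [sB, coeff_mk]
  | 1 => simp [sB, coeff_mk, coeff_succ_X_mul]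
  | n + 2 =>
    rw [coeff_succ_X_mul, coeff_succ_X_mul, c2, c1, sB, coeff_mk]
    obtain ⟨j, rfl | rfl⟩ := Nat.even_or_odd' n
    · rw [ev, if_pos ⟨by simp [Nat.even_add], by omega⟩, show (2 * j + 2) / 2 - 1 = j by omega]
      push_cast; ring
    · rw [od, if_neg (fun h => by obtain ⟨⟨k, hk⟩, -⟩ := h; omega), mul_zero, mul_zero]

theorem ode : C 4 * eu sP = X * (X * p3) := by
  ext n
  rw [coeff_C_mul, coeff_eu]
  match n with
  | 0 => simp
  | 1 => simp [coeff_succ_X_mul, sP, coeff_mk]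
  | n + 2 =>
    rw [coeff_succ_X_mul, coeff_succ_X_mul, c3, c2, c1]
    obtain ⟨j, rfl | rfl⟩ := Nat.even_or_odd' n
    · rw [show 2 * j + 2 = 2 * (j + 1) by ring, ev, ev]
      have := sj_succ j
      push_cast
      linarith
    · rw [show 2 * j + 1 + 2 = 2 * (j + 1) + 1 by ring, od, od]
      ring

theorem p0 : constantCoeff sP = 1 := by
  rw [← coeff_zero_eq_constantCoeff_apply]
  simpa [sj] using ev 0

theorem h2 : (C (1 / 2 : ℝ) : ℝ⟦X⟧) * 2 = 1 := by
  rw [← map_ofNat C 2, ← map_mul]; norm_num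

theorem cc (k : ℕ) : (C ((k : ℝ) / 2) : ℝ⟦X⟧) = k * C (1 / 2 : ℝ) := by
  rw [← map_natCast C k, ← map_mul, mul_one_div]

theorem c32 : (C (3 / 2 : ℝ) : ℝ⟦X⟧) = 3 * C (1 / 2 : ℝ) := by simpa using cc 3

theorem c52 : (C (5 / 2 : ℝ) : ℝ⟦X⟧) = 5 * C (1 / 2 : ℝ) := by simpa using cc 5

theorem c14 : (C (1 / 4 : ℝ) : ℝ⟦X⟧) = C (1 / 2 : ℝ) * C (1 / 2 : ℝ) := by
  rw [← map_mul]; norm_num

/-- The first integral. -/
theorem first : X * X * (2 * sP * p2 - p1 * p1) - 4 * (sP * sP) + 4 = 0 := by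
  have e2 : eu 2 = 0 := by rw [← map_ofNat C 2, eu_C]
  have e4 : eu 4 = 0 := by rw [← map_ofNat C 4, eu_C]
  have h : eu (X * X * (2 * sP * p2 - p1 * p1) - 4 * (sP * sP) + 4) = 0 := by
    have a1 : eu sP = p1 - C (1 / 2 : ℝ) * sP := by rw [p1]; ring
    have a2 : eu p1 = p2 - C (3 / 2 : ℝ) * p1 := by rw [p2]; ring
    have a3 : eu p2 = p3 - C (5 / 2 : ℝ) * p2 := by rw [p3]; ring
    have a4 := ode
    rw [map_ofNat C 4] at a4
    simp only [eu_add, eu_sub, eu_mul, e2, e4, eu_X, a2, a3, c32, c52]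
    linear_combination (-2 * sP) * a4 + (2 * X * X * p2) * a1 + 0 * h2
  ext n
  have := congrArg (coeff n) h
  rw [coeff_eu, map_zero] at this
  cases n with
  | zero => simp [p0]
  | succ n =>
    rw [map_zero]
    exact (mul_eq_zero.1 this).resolve_left (by positivity)

theorem sN_mul : sN * (2 * sP) = X * p1 - 2 := by
  have h0 : constantCoeff (C (1 / 2 : ℝ) + sA) ≠ 0 := by simp [sA_eq]
  have hn : (C (1 / 2 : ℝ) + sA) ≠ 0 := fun h => h0 (by rw [h, map_zero])
  have h1 : sN * (C (1 / 2 : ℝ) + sA) = sN0 := by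
    rw [sN, mul_assoc, PowerSeries.inv_mul_cancel _ h0, mul_one]
  refine mul_right_cancel₀ hn ?_
  rw [mul_right_comm, h1, sN0, sA_eq, sB_eq, map_neg, c14]
  linear_combination (C (1 / 2 : ℝ) * C (1 / 2 : ℝ)) * first +
    (sP * sP * C (1 / 2 : ℝ) * 2 - C (1 / 2 : ℝ) * 2 + C (1 / 2 : ℝ) * X * p1) * h2

/-- The Riccati equation. -/
theorem ric : sN * sN = 1 + X * (C (1 / 2 : ℝ) * sN - eu sN) := by
  have e2 : eu 2 = 0 := by rw [← map_ofNat C 2, eu_C]
  have a1 : eu sP = p1 - C (1 / 2 : ℝ) * sP := by rw [p1]; ring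
  have a2 : eu p1 = p2 - C (3 / 2 : ℝ) * p1 := by rw [p2]; ring
  have h := congrArg eu sN_mul
  simp only [eu_sub, eu_mul, e2, eu_X, a1, a2] at h
  have hn : (2 * sP) * (2 * sP) ≠ 0 := fun h => by
    have := congrArg constantCoeff h
    simp only [map_mul, map_ofNat, p0, map_zero] at this
    norm_num at this
  refine mul_right_cancel₀ hn ?_
  linear_combination (sN * (2 * sP) + X * p1 - 2 - 2 * X * p1) * sN_mul + (2 * X * sP) * h + first

end G

open G in
theorem st_g : St_G := by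
  have h0 : coeff 0 sN = -1 := by
    have := congrArg constantCoeff sN_mul
    simp only [map_mul, map_sub, constantCoeff_X, zero_mul, p0, map_ofNat] at this
    rw [coeff_zero_eq_constantCoeff_apply]
    linarith
  refine ⟨h0, fun n => Nat.strong_induction_on n fun n ih hn => ?_⟩
  obtain ⟨p, rfl⟩ : ∃ p, n = p + 1 := ⟨n - 1, by omega⟩
  have h := congrArg (coeff (p + 1)) ric
  rw [map_add, coeff_succ_X_mul, map_sub, coeff_C_mul, coeff_eu, coeff_one, if_neg (by omega),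
    coeff_mul, Finset.Nat.antidiagonal_succ, sum_cons, sum_map] at h
  cases p with
  | zero =>
    simp [h0] at h
    linarith
  | succ p =>
    rw [Finset.Nat.antidiagonal_succ', sum_cons, sum_map] at h
    have hs : 0 ≤ ∑ x ∈ antidiagonal p, coeff (x.1 + 1) sN * coeff (x.2 + 1) sN :=
      sum_nonneg fun x hx => by
        have := mem_antidiagonal.1 hx
        exact (mul_pos (ih _ (by omega) (by omega)) (ih _ (by omega) (by omega))).le
    have hp := ih (p + 1) (by omega) (by omega)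
    simp [h0] at h
    have : (0 : ℝ) ≤ p := by positivity
    nlinarith [mul_nonneg this hp.le]

end Pool.Agent.Lib.IS2
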