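import Pool.Agent.Lib.IS2.Blue
import Pool.Agent.Lib.IS2.Base

/-! The collar of a regular closed curve. -/

open scoped ContDiff ComplexConjugate Topology Real
open Complex MeasureTheory Set Filter Metric

noncomputable section

namespace Pool.Agent.Lib.IS2

namespace GC

theorem exists_min {f : ℝ → ℝ} (hf : Continuous f) (hp : Function.Periodic f (2 * π)) :
    ∃ s, ∀ t, f s ≤ f t := by
  obtain ⟨_, ⟨s, rfl⟩, h⟩ := (hp.compact_of_continuous Real.two_pi_pos.ne' hf).exists_isLeast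
    (range_nonempty f)
  exact ⟨s, fun t => h (mem_range_self t)⟩

theorem sq_norm_sub (a b : ℂ) (r : ℝ) :
    ‖a - r * b‖ ^ 2 = ‖a‖ ^ 2 - 2 * r * rdot a b + r ^ 2 * ‖b‖ ^ 2 := by
  simp only [Complex.sq_norm, normSq_apply, rdot, sub_re, sub_im, mul_re, mul_im, ofReal_re,
    ofReal_im, conj_re, conj_im]
  ring

theorem abs_rdot_le (a b : ℂ) : |rdot a b| ≤ ‖a‖ * ‖b‖ :=
  (abs_re_le_norm _).trans_eq (by rw [norm_mul, norm_conj])

theorem norm_nr (γ : ℝ → ℂ) (s : ℝ) : ‖nr γ s‖ = ‖deriv γ s‖ := by simp [nr]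

variable {Ω : Set ℂ} {γ : ℝ → ℂ}

theorem taylor (hs : ContDiff ℝ ∞ γ) {M : ℝ} (hM : ∀ s, ‖deriv (deriv γ) s‖ ≤ M) (s h : ℝ) :
    ‖γ (s + h) - γ s - h * deriv γ s‖ ≤ M * h ^ 2 := by
  have d0 : Differentiable ℝ γ := hs.differentiable (by simp)
  have d1 : Differentiable ℝ (deriv γ) := (contDiff_infty_iff_deriv.1 hs).2.differentiable (by simp)
  have M0 : 0 ≤ M := (norm_nonneg _).trans (hM 0)
  have h1 : ∀ x, ‖deriv γ (s + x) - deriv γ s‖ ≤ M * |x| := fun x => by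
    simpa using (convex_univ (𝕜 := ℝ) (E := ℝ)).norm_image_sub_le_of_norm_deriv_le (C := M)
      (fun x _ => d1 x) (fun x _ => hM x) (mem_univ s) (mem_univ (s + x))
  have h2 : ∀ x : ℝ, HasDerivAt (fun x : ℝ => γ (s + x) - x * deriv γ s)
      (deriv γ (s + x) - deriv γ s) x := fun x => by
    have a := ((d0 (s + x)).hasDerivAt.comp_const_add s x).fun_sub
      ((hasDerivAt_id x).ofReal_comp.mul_const (deriv γ s))
    simpa using a
  have h3 := (convex_closedBall (0 : ℝ) |h|).norm_image_sub_le_of_norm_hasDerivWithin_le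
    (C := M * |h|) (fun x _ => (h2 x).hasDerivWithinAt)
    (fun x hx => (h1 x).trans (mul_le_mul_of_nonneg_left (by simpa using hx) M0))
    (mem_closedBall_self (abs_nonneg h)) (show h ∈ closedBall (0 : ℝ) |h| by simp)
  simp only [add_zero, ofReal_zero, zero_mul, sub_zero, Real.norm_eq_abs] at h3
  rw [mul_assoc, ← sq, sq_abs] at h3
  rwa [sub_right_comm]

theorem arith {c c1 m M x r D d n N : ℝ} (c0 : 0 < c) (c10 : 0 < c1) (m0 : 0 < m) (l1 : c ≤ c1 / 2)
    (l2 : c * (4 * M ^ 2) ≤ c1 ^ 2) (l3 : c1 ≤ m / 2) (hr : |r| ≤ c) (k1 : c1 * |x| ≤ D)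
    (k2 : |d| ≤ M ^ 2 * x ^ 2) (k3 : N ^ 2 = D ^ 2 - 2 * r * d + r ^ 2 * n ^ 2) (hn : m ≤ n)
    (hN : 0 ≤ N) : c * (|x| + |r|) ≤ N ∧ |r| * n ≤ N := by
  have k4 : c1 ^ 2 * x ^ 2 ≤ D ^ 2 := by
    rw [← sq_abs x, ← mul_pow]
    exact pow_le_pow_left₀ (by positivity) k1 2
  have k5 : 2 * r * d ≤ c1 ^ 2 / 2 * x ^ 2 := by
    calc 2 * r * d ≤ |2 * r * d| := le_abs_self _
      _ = 2 * (|r| * |d|) := by rw [abs_mul, abs_mul, abs_two, mul_assoc]
      _ ≤ 2 * (c * (M ^ 2 * x ^ 2)) := by gcongr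
      _ = c * (4 * M ^ 2) / 2 * x ^ 2 := by ring
      _ ≤ _ := by gcongr
  have k6 : c1 ^ 2 / 2 * x ^ 2 + r ^ 2 * n ^ 2 ≤ N ^ 2 := by linarith
  have k7 : m ^ 2 ≤ n ^ 2 := pow_le_pow_left₀ m0.le hn 2
  refine ⟨abs_le_of_sq_le_sq' ?_ hN |>.2, abs_le_of_sq_le_sq' ?_ hN |>.2⟩
  · refine le_trans ?_ k6
    have l4 : c ^ 2 ≤ c1 ^ 2 / 4 := by nlinarith
    have l5 : c1 ^ 2 ≤ m ^ 2 / 4 := by nlinarith
    have l6 : (|x| + |r|) ^ 2 ≤ 2 * x ^ 2 + 2 * r ^ 2 := by
      nlinarith [sq_abs x, sq_abs r, sq_nonneg (|x| - |r|)]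
    have l7 : r ^ 2 * (c1 ^ 2 / 2) ≤ r ^ 2 * n ^ 2 :=
      mul_le_mul_of_nonneg_left (by nlinarith) (sq_nonneg r)
    calc (c * (|x| + |r|)) ^ 2 = c ^ 2 * (|x| + |r|) ^ 2 := by ring
      _ ≤ c1 ^ 2 / 4 * (2 * x ^ 2 + 2 * r ^ 2) := by gcongr
      _ ≤ _ := by linarith
  · rw [mul_pow, sq_abs]
    have : 0 ≤ c1 ^ 2 / 2 * x ^ 2 := by positivity
    linarith

theorem orth {w v : ℂ} (hv : v ≠ 0) (h : inner ℝ w (-v) = 0) :
    w = (rdot w (I * v) / ‖v‖ ^ 2 : ℝ) * (I * v) := by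
  have n1 : ((‖v‖ ^ 2 : ℝ) : ℂ) ≠ 0 := by
    have := norm_pos_iff.2 hv
    exact_mod_cast (by positivity : ‖v‖ ^ 2 ≠ 0)
  simp only [Complex.inner, neg_mul, neg_re, mul_re, conj_re, conj_im] at h
  rw [ofReal_div, div_mul_eq_mul_div, eq_div_iff n1, Complex.sq_norm, normSq_apply]
  apply Complex.ext
  · simp only [rdot, mul_re, mul_im, ofReal_re, ofReal_im, conj_re, conj_im, I_re, I_im]
    linear_combination (-v.re) * h
  · simp only [rdot, mul_re, mul_im, ofReal_re, ofReal_im, conj_re, conj_im, I_re, I_im]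
    linear_combination (-v.im) * h

theorem core (h : CD Ω γ) : ∃ c > 0, (∀ s, c ≤ ‖deriv γ s‖) ∧ ∀ s t r : ℝ, |r| ≤ c →
    c * (dc s t + |r|) ≤ ‖γ t - (γ s + r * nr γ s)‖ ∧
      |r| * ‖nr γ s‖ ≤ ‖γ t - (γ s + r * nr γ s)‖ := by
  have s1 : ContDiff ℝ ∞ (deriv γ) := (contDiff_infty_iff_deriv.1 h.smooth).2
  have s2 : ContDiff ℝ ∞ (deriv (deriv γ)) := (contDiff_infty_iff_deriv.1 s1).2
  have p1 := per_deriv' h.per
  have p2 := per_deriv' p1
  obtain ⟨a, ha⟩ := exists_min s1.continuous.norm (fun s => by simp only [p1 s])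
  obtain ⟨b, hb⟩ := exists_min (f := fun s => -(‖deriv γ s‖ + ‖deriv (deriv γ) s‖))
    (s1.continuous.norm.add s2.continuous.norm).neg (fun s => by simp only [p1 s, p2 s])
  set m := ‖deriv γ a‖ with hm
  set M := ‖deriv γ b‖ + ‖deriv (deriv γ) b‖ with hM
  have m0 : 0 < m := norm_pos_iff.2 (h.reg a)
  have b1 : ∀ s, ‖deriv γ s‖ ≤ M := fun s => by
    linarith [hb s, norm_nonneg (deriv (deriv γ) s)]
  have b2 : ∀ s, ‖deriv (deriv γ) s‖ ≤ M := fun s => by
    linarith [hb s, norm_nonneg (deriv γ s)]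
  have M0 : 0 < M := m0.trans_le (b1 a)
  have cγ := h.smooth.continuous
  have cp : IsCompact (Icc (0 : ℝ) (2 * π) ×ˢ (Icc (-π) π ∩ {x : ℝ | m / (2 * M) ≤ |x|})) :=
    isCompact_Icc.prod (isCompact_Icc.inter_right (isClosed_le continuous_const continuous_abs))
  obtain ⟨δ, δ0, hδ⟩ := cp.exists_forall_le' (f := fun p => ‖γ (p.1 + p.2) - γ p.1‖) (a := 0)
    (by fun_prop) fun p hp => by
      refine norm_pos_iff.2 (sub_ne_zero.2 fun e => ?_)
      obtain ⟨k, hk⟩ := h.inj _ _ e.symm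
      have e2 : p.2 = k * (2 * π) := by linarith
      have k1 : |p.2| ≤ π := abs_le.2 hp.2.1
      have k2 : 0 < |p.2| := lt_of_lt_of_le (by positivity) hp.2.2
      have k3 : k ≠ 0 := fun e3 => by simp [e2, e3] at k2
      have k4 : (1 : ℝ) ≤ |(k : ℝ)| := by exact_mod_cast Int.one_le_abs k3
      rw [e2, abs_mul, abs_of_pos Real.two_pi_pos] at k1
      nlinarith [Real.pi_pos]
  set c1 := min (m / 2) (δ / π) with hc1
  have c10 : 0 < c1 := lt_min (by positivity) (div_pos δ0 Real.pi_pos)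
  have arc : ∀ s x : ℝ, |x| ≤ π → c1 * |x| ≤ ‖γ (s + x) - γ s‖ := fun s x hx => by
    by_cases hs : m / (2 * M) ≤ |x|
    · have pp : Function.Periodic (fun s => ‖γ (s + x) - γ s‖) (2 * π) := fun s => by
        simp only [add_right_comm s (2 * π) x, h.per (s + x), h.per s]
      obtain ⟨y, hy, e⟩ := pp.exists_mem_Ico₀ Real.two_pi_pos s
      have k := hδ (y, x) ⟨Ico_subset_Icc_self hy, abs_le.1 hx, hs⟩
      simp only at e k
      rw [e]
      calc c1 * |x| ≤ δ / π * π := mul_le_mul (min_le_right _ _) hx (abs_nonneg _)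
            (div_pos δ0 Real.pi_pos).le
        _ = δ := by field_simp
        _ ≤ _ := k
    · rw [not_le, lt_div_iff₀ (by positivity)] at hs
      have k1 := taylor h.smooth b2 s x
      have k2 := (norm_sub_norm_le ((x : ℂ) * deriv γ s) (γ (s + x) - γ s)).trans_eq (norm_sub_rev _ _)
      rw [norm_mul, norm_real, Real.norm_eq_abs] at k2
      have k3 := mul_le_mul_of_nonneg_left (ha s) (abs_nonneg x)
      have k4 := mul_le_mul_of_nonneg_right (min_le_left (m / 2) (δ / π)) (abs_nonneg x)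
      rw [← sq_abs] at k1
      have k5 := mul_le_mul_of_nonneg_left hs.le (abs_nonneg x)
      rw [← hc1] at k4
      linarith
  have rd : ∀ s x : ℝ, |rdot (γ (s + x) - γ s) (nr γ s)| ≤ M ^ 2 * x ^ 2 := fun s x => by
    have e : rdot (γ (s + x) - γ s) (nr γ s) = rdot (γ (s + x) - γ s - x * deriv γ s) (nr γ s) := by
      simp only [rdot, nr, sub_re, sub_im, mul_re, mul_im, ofReal_re, ofReal_im, conj_re, conj_im,
        I_re, I_im]
      ring
    rw [e]
    refine (abs_rdot_le _ _).trans ?_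
    rw [norm_nr]
    exact (mul_le_mul (taylor h.smooth b2 s x) (b1 s) (norm_nonneg _) (by positivity)).trans_eq
      (by ring)
  refine ⟨min (c1 / 2) (c1 ^ 2 / (4 * M ^ 2)), by positivity, fun s => ?_, fun s t r hr => ?_⟩
  · linarith [min_le_left (c1 / 2) (c1 ^ 2 / (4 * M ^ 2)), min_le_left (m / 2) (δ / π), ha s]
  obtain ⟨k, hk⟩ := exists_dc t s
  rw [dc_comm t s] at hk
  set x := t - (s + k * (2 * π)) with hx
  have e : γ t = γ (s + x) := by
    rw [← h.per.int_mul k (s + x), hx]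
    congr 1
    ring
  have k1 := arc s x (hk.trans_le (dc_le_pi s t))
  have k2 := rd s x
  have k3 := sq_norm_sub (γ (s + x) - γ s) (nr γ s) r
  rw [sub_sub, ← e] at k3
  rw [← e] at k1 k2
  rw [← hk]
  set c := min (c1 / 2) (c1 ^ 2 / (4 * M ^ 2)) with hc
  have c0 : 0 < c := by positivity
  have l1 : c ≤ c1 / 2 := min_le_left _ _
  have l2 : c * (4 * M ^ 2) ≤ c1 ^ 2 := (le_div_iff₀ (by positivity)).1 (min_le_right _ _)
  have l3 : c1 ≤ m / 2 := min_le_left _ _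
  exact arith c0 c10 m0 l1 l2 l3 hr k1 k2 k3 (by rw [norm_nr]; exact ha s) (norm_nonneg _)

theorem split (h : CD Ω γ) {S : Set ℂ} (hS : ∀ t, γ t ∉ S) : S ⊆ Ω ∪ (closure Ω)ᶜ := fun x hx => by
  by_contra e
  simp only [mem_union, mem_compl_iff, not_or, not_not] at e
  have : x ∈ frontier Ω := by
    rw [h.opn.frontier_eq]
    exact ⟨e.2, e.1⟩
  rw [h.fr] at this
  obtain ⟨t, rfl⟩ := this
  exact hS t hx

theorem disj (Ω : Set ℂ) : Disjoint Ω (closure Ω)ᶜ :=
  disjoint_compl_right_iff_subset.2 subset_closure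

end GC

open GC in
theorem st_gc : St_GC := by
  intro Ω γ h
  obtain ⟨c, c0, hm, hc⟩ := core h
  have oc : IsOpen (closure Ω)ᶜ := isClosed_closure.isOpen_compl
  have seg : ∀ (s σ : ℝ), |σ| = 1 → IsPreconnected ((fun r : ℝ => γ s + (σ * r : ℝ) * nr γ s) '' Ioc 0 c) ∧
      (fun r : ℝ => γ s + (σ * r : ℝ) * nr γ s) '' Ioc 0 c ⊆ Ω ∪ (closure Ω)ᶜ := fun s σ hσ =>
    ⟨isPreconnected_Ioc.image _ (by fun_prop), split h fun t ⟨r, hr, e⟩ => by
      have a : |σ * r| = r := by rw [abs_mul, hσ, one_mul, abs_of_pos hr.1]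
      have := (hc s t (σ * r) (a.trans_le hr.2)).1
      simp only at e
      rw [e, sub_self, norm_zero, a] at this
      nlinarith [dc_nonneg s t, hr.1]⟩
  have g3 : ∀ s r : ℝ, 0 < r → r ≤ c → γ s + r * nr γ s ∈ Ω ∧ γ s - r * nr γ s ∉ closure Ω := by
    intro s r r0 rc
    obtain ⟨δ, δ0, hδ⟩ := h.side s
    have b : 0 < min c (δ / 2) := by positivity
    obtain ⟨q1, q2⟩ := hδ _ b ((min_le_right _ _).trans_lt (by linarith))
    constructor
    · have := (seg s 1 (by simp)).1.subset_left_of_subset_union h.opn oc (disj Ω)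
        (seg s 1 (by simp)).2 ⟨_, ⟨_, ⟨b, min_le_left _ _⟩, rfl⟩, by simpa using q1⟩ ⟨r, ⟨r0, rc⟩, rfl⟩
      simpa using this
    · have := (seg s (-1) (by simp)).1.subset_right_of_subset_union h.opn oc (disj Ω)
        (seg s (-1) (by simp)).2 ⟨_, ⟨_, ⟨b, min_le_left _ _⟩, rfl⟩, by simpa [sub_eq_add_neg] using q2⟩
        ⟨r, ⟨r0, rc⟩, rfl⟩
      simpa [sub_eq_add_neg] using this
  have e0 : 0 < min c (c * c) := by positivity
  have e1 : min c (c * c) ≤ c := min_le_left _ _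
  refine ⟨min c (c * c), e0, fun s t r hr => ?_, fun x t hx => ?_,
    fun s r r0 rc => g3 s r r0 (rc.trans e1), fun s z hz => ?_⟩
  · exact le_trans (mul_le_mul_of_nonneg_right e1 (add_nonneg (dc_nonneg _ _) (abs_nonneg _)))
      (hc s t r (hr.trans e1)).1
  · have d0 : Differentiable ℝ γ := h.smooth.differentiable (by simp)
    have cγ := h.smooth.continuous
    obtain ⟨s, hs⟩ := exists_min (f := fun u => ‖x - γ u‖ ^ 2) (by fun_prop)
      (fun u => by simp only [h.per u])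
    have d1 : HasDerivAt (fun u => ‖x - γ u‖ ^ 2) (2 * inner ℝ (x - γ s) (-deriv γ s)) s :=
      ((d0 s).hasDerivAt.const_sub x).norm_sq
    have d2 := IsLocalMin.hasDerivAt_eq_zero (Eventually.of_forall hs) d1
    have n0 : 0 < ‖deriv γ s‖ := c0.trans_le (hm s)
    set r := rdot (x - γ s) (nr γ s) / ‖deriv γ s‖ ^ 2 with hr
    have e : x = γ s + r * nr γ s :=
      sub_eq_iff_eq_add'.1 (orth (h.reg s) (by linarith))
    have k1 : ‖x - γ s‖ ≤ ‖x - γ t‖ := (abs_le_of_sq_le_sq' (hs t) (norm_nonneg _)).2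
    have k2 : ‖x - γ s‖ = |r| * ‖deriv γ s‖ := by
      conv_lhs => rw [e]
      rw [add_sub_cancel_left, norm_mul, norm_real, Real.norm_eq_abs, norm_nr]
    have k3 : c * |r| ≤ ‖x - γ t‖ := by nlinarith [hm s, abs_nonneg r]
    refine ⟨s, r, (mul_le_mul_of_nonneg_right e1 (abs_nonneg r)).trans k3, e, fun hΩ => ?_⟩
    have k4 : |r| ≤ c := le_of_mul_le_mul_left (k3.trans (hx.le.trans (min_le_right _ _))) c0
    rcases lt_trichotomy r 0 with a | a | a
    · have := (g3 s (-r) (by linarith) ((neg_le_abs r).trans k4)).2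
      rw [ofReal_neg, neg_mul, sub_neg_eq_add, ← e] at this
      exact absurd (subset_closure hΩ) this
    · have f : x ∈ frontier Ω := by
        rw [h.fr, e, a]
        simp
      rw [h.opn.frontier_eq] at f
      exact absurd hΩ f.2
    · exact a
  · set b := min c (c * c)
    by_contra hn
    rw [not_le] at hn
    have n0 : 0 < b * ‖nr γ s‖ := (norm_nonneg _).trans_lt hn
    have := (convex_ball (γ s - b * nr γ s) (b * ‖nr γ s‖)).isPreconnected.subset_right_of_subset_union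
      h.opn oc (disj Ω) (split h fun t ht => ?_) ⟨_, mem_ball_self n0, (g3 s b e0 e1).2⟩
      (mem_ball_iff_norm.2 hn)
    · exact this (subset_closure hz)
    · have k := (hc s t (-b) (by rwa [abs_neg, abs_of_pos e0])).2
      rw [abs_neg, abs_of_pos e0, ofReal_neg, neg_mul, ← sub_eq_add_neg] at k
      exact absurd (mem_ball_iff_norm.1 ht) (not_lt.2 k)

end Pool.Agent.Lib.IS2
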