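import Pool.Agent.Lib.IS2.Blue

/-! Gateaux calculus for bounded functions that are holomorphic on lines. -/

open scoped Topology
open Complex Set Filter Metric

noncomputable section

namespace Pool.Agent.Lib.IS2

namespace GH

theorem ds {φ : ℂ → ℂ} {R M : ℝ} (hR : 0 < R) (hd : DifferentiableOn ℂ φ (ball 0 R))
    (hb : ∀ ε ∈ ball (0 : ℂ) R, ‖φ ε‖ ≤ M) :
    DifferentiableOn ℂ (dslope φ 0) (ball 0 R) ∧
      ∀ ε ∈ ball (0 : ℂ) R, ‖dslope φ 0 ε‖ ≤ 2 * M / R := by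
  refine ⟨(differentiableOn_dslope (ball_mem_nhds _ hR)).2 hd, fun ε hε =>
    norm_dslope_le_div_of_mapsTo_ball hd (fun w hw => ?_) hε⟩
  rw [mem_closedBall, dist_eq_norm]
  have h1 := hb w hw
  have h2 := hb 0 (mem_ball_self hR)
  have := norm_sub_le (φ w) (φ 0)
  linarith

theorem ds_eq (φ : ℂ → ℂ) (ε : ℂ) : φ ε = φ 0 + ε * dslope φ 0 ε := by
  have := sub_smul_dslope φ 0 ε
  rw [sub_zero, smul_eq_mul] at this
  rw [this]; ring

theorem ds_two {φ : ℂ → ℂ} {R : ℝ} (hR : 0 < R) (hd : DifferentiableOn ℂ φ (ball 0 R)) :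
    deriv (deriv φ) 0 = 2 * deriv (dslope φ 0) 0 := by
  have h1 : DifferentiableOn ℂ (dslope φ 0) (ball 0 R) :=
    (differentiableOn_dslope (ball_mem_nhds _ hR)).2 hd
  have h2 := h1.deriv isOpen_ball
  have e : deriv φ =ᶠ[𝓝 0] fun ε => dslope φ 0 ε + ε * deriv (dslope φ 0) ε := by
    filter_upwards [ball_mem_nhds (0 : ℂ) hR] with ε hε
    have h3 := (h1.differentiableAt (isOpen_ball.mem_nhds hε)).hasDerivAt
    have h4 := ((hasDerivAt_id' ε).mul h3).const_add (φ 0)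
    have h5 : φ = fun x => φ 0 + (x * dslope φ 0 x) := funext (ds_eq φ)
    have h6 : deriv φ ε = deriv (fun x => φ 0 + (x * dslope φ 0 x)) ε := by rw [← h5]
    rw [h6]
    have := h4.deriv
    simpa using this
  rw [e.deriv_eq]
  have h3 := (h1.differentiableAt (ball_mem_nhds _ hR)).hasDerivAt
  have h4 := (h2.differentiableAt (ball_mem_nhds _ hR)).hasDerivAt
  have h5 := (h3.add ((hasDerivAt_id' (0 : ℂ)).mul h4)).deriv
  have h6 : (fun ε => dslope φ 0 ε + ε * deriv (dslope φ 0) ε) =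
      dslope φ 0 + (fun x => x) * deriv (dslope φ 0) := rfl
  rw [h6, h5]; ring

theorem lim {X a ρ : ℝ} {g : ℝ → ℝ} (hg : Continuous g) (ha : a < ρ)
    (h : ∀ s, a < s → s < ρ → X ≤ g s) : X ≤ g a := by
  have t : Tendsto g (𝓝[>] a) (𝓝 (g a)) := hg.continuousAt.tendsto.mono_left nhdsWithin_le_nhds
  refine ge_of_tendsto t ?_
  filter_upwards [Ioo_mem_nhdsGT ha] with s hs using h s hs.1 hs.2

theorem sub_ball {a s ρ : ℝ} (ha : 0 ≤ a) (hs : a < s) (hρ : 0 < ρ) {ε : ℂ}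
    (hε : ε ∈ ball (0 : ℂ) (ρ / s)) : ‖ε‖ * a < ρ := by
  rw [mem_ball_zero_iff, lt_div_iff₀ (by linarith)] at hε
  have := mul_le_mul_of_nonneg_left hs.le (norm_nonneg ε)
  linarith

theorem one {φ : ℂ → ℂ} {a ρ M : ℝ} (ha : 0 ≤ a) (hρ : 0 < ρ)
    (hd : DifferentiableOn ℂ φ {ε | ‖ε‖ * a < ρ}) (hb : ∀ ε : ℂ, ‖ε‖ * a < ρ → ‖φ ε‖ ≤ M) :
    ‖deriv φ 0‖ ≤ 2 * M * (a / ρ) ∧ (a < ρ → ‖φ 1 - φ 0‖ ≤ 2 * M * (a / ρ) ∧
      ‖φ 1 - φ 0 - deriv φ 0‖ ≤ 4 * M * (a / ρ) ^ 2 ∧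
      ‖φ 1 - φ 0 - deriv φ 0 - deriv (deriv φ) 0 / 2‖ ≤ 8 * M * (a / ρ) ^ 3) := by
  have key : ∀ s, a < s → ‖deriv φ 0‖ ≤ 2 * M * (s / ρ) ∧ (s < ρ →
      ‖φ 1 - φ 0‖ ≤ 2 * M * (s / ρ) ∧ ‖φ 1 - φ 0 - deriv φ 0‖ ≤ 4 * M * (s / ρ) ^ 2 ∧
      ‖φ 1 - φ 0 - deriv φ 0 - deriv (deriv φ) 0 / 2‖ ≤ 8 * M * (s / ρ) ^ 3) := by
    intro s hs
    have s0 : 0 < s := by linarith
    have hR : 0 < ρ / s := div_pos hρ s0
    have d0 : DifferentiableOn ℂ φ (ball 0 (ρ / s)) := hd.mono fun ε hε => sub_ball ha hs hρ hε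
    obtain ⟨d1, b1⟩ := ds hR d0 fun ε hε => hb ε (sub_ball ha hs hρ hε)
    obtain ⟨d2, b2⟩ := ds hR d1 b1
    obtain ⟨-, b3⟩ := ds hR d2 b2
    refine ⟨?_, fun hsρ => ?_⟩
    · have := b1 0 (mem_ball_self hR)
      rw [dslope_same] at this
      refine this.trans_eq ?_
      field_simp
    have h1 : (1 : ℂ) ∈ ball (0 : ℂ) (ρ / s) := by
      rw [mem_ball_zero_iff, norm_one, lt_div_iff₀ s0]; linarith
    have e1 := ds_eq φ 1
    have e2 := ds_eq (dslope φ 0) 1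
    have e3 := ds_eq (dslope (dslope φ 0) 0) 1
    rw [dslope_same] at e2 e3
    refine ⟨?_, ?_, ?_⟩
    · rw [show φ 1 - φ 0 = dslope φ 0 1 by rw [e1]; ring]
      refine (b1 1 h1).trans_eq ?_
      field_simp
    · rw [show φ 1 - φ 0 - deriv φ 0 = dslope (dslope φ 0) 0 1 by rw [e1, e2]; ring]
      refine (b2 1 h1).trans_eq ?_
      field_simp; ring
    · rw [show φ 1 - φ 0 - deriv φ 0 - deriv (deriv φ) 0 / 2 =
        dslope (dslope (dslope φ 0) 0) 0 1 by rw [ds_two hR d0, e1, e2, e3]; ring]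
      refine (b3 1 h1).trans_eq ?_
      field_simp; ring
  refine ⟨lim (g := fun s => 2 * M * (s / ρ)) (by fun_prop) (lt_add_one a)
    fun s h _ => (key s h).1, fun haρ => ⟨?_, ?_, ?_⟩⟩
  · exact lim (g := fun s => 2 * M * (s / ρ)) (by fun_prop) haρ fun s h h' => ((key s h).2 h').1
  · exact lim (g := fun s => 4 * M * (s / ρ) ^ 2) (by fun_prop) haρ
      fun s h h' => ((key s h).2 h').2.1
  · exact lim (g := fun s => 8 * M * (s / ρ) ^ 3) (by fun_prop) haρ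
      fun s h h' => ((key s h).2 h').2.2

variable {E : Type} [AddCommGroup E] [Module ℂ E] {S : Submodule ℂ E} {p : E → ℝ} {f : E → ℂ}
  {x0 : E} {r M : ℝ}

theorem p_zero (hp : Sn S p) : p 0 = 0 := by
  have h := hp.smul 0 0 S.zero_mem
  rw [zero_smul, norm_zero, zero_mul] at h
  exact le_antisymm h (hp.nn 0 S.zero_mem)

theorem p_line (hp : Sn S p) {x y : E} (hx : x ∈ S) (hy : y ∈ S) (ε : ℂ) :
    p (x + ε • y) ≤ p x + ‖ε‖ * p y :=
  (hp.add x hx _ (S.smul_mem ε hy)).trans (by linarith [hp.smul ε y hy])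

theorem opn (hp : Sn S p) {x y : E} (hx : x ∈ S) (hy : y ∈ S) (r : ℝ) :
    IsOpen {ε : ℂ | p (x + ε • y) < r} := by
  refine isOpen_iff_mem_nhds.2 fun ε hε => ?_
  have c : Continuous fun w : ℂ => p (x + ε • y) + ‖w - ε‖ * p y := by fun_prop
  have h : ∀ᶠ w in 𝓝 ε, p (x + ε • y) + ‖w - ε‖ * p y < r :=
    c.continuousAt.eventually_lt continuousAt_const (by simpa using hε)
  filter_upwards [h] with w hw
  have := p_line hp (S.add_mem hx (S.smul_mem ε hy)) hy (w - ε)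
  rw [add_assoc, ← add_smul, add_sub_cancel] at this
  exact this.trans_lt hw

theorem D2_self (f : E → ℂ) (w y : E) :
    D2 f w y y = deriv (deriv fun ε : ℂ => f (w + ε • y)) 0 := by
  unfold D2 D1
  congr 1
  funext ε
  have := deriv_comp_const_add (f := fun ε : ℂ => f (w + ε • y)) (a := ε) (x := 0)
  rw [add_zero] at this
  rw [← this]
  simp only [add_smul, add_assoc]

theorem bds (hp : Sn S p) (hf : LH S p f x0 r M) {x y : E} {ρ : ℝ} (hx : x ∈ S) (hy : y ∈ S)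
    (hρ : 0 < ρ) (hxr : p x < r - ρ) :
    ‖D1 f (x0 + x) y‖ ≤ 2 * M * (p y / ρ) ∧ (p y < ρ →
      ‖f (x0 + x + y) - f (x0 + x)‖ ≤ 2 * M * (p y / ρ) ∧
      ‖f (x0 + x + y) - f (x0 + x) - D1 f (x0 + x) y‖ ≤ 4 * M * (p y / ρ) ^ 2 ∧
      ‖f (x0 + x + y) - f (x0 + x) - D1 f (x0 + x) y - D2 f (x0 + x) y y / 2‖ ≤
        8 * M * (p y / ρ) ^ 3) := by
  have hs : ∀ ε : ℂ, ‖ε‖ * p y < ρ → p (x + ε • y) < r := fun ε hε => by
    linarith [p_line hp hx hy ε]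
  have := one (φ := fun ε : ℂ => f (x0 + x + ε • y)) (M := M) (hp.nn y hy) hρ
    ((hf.hol x hx y hy).mono hs) fun ε hε => by
      rw [add_assoc]; exact hf.bd _ (S.add_mem hx (S.smul_mem ε hy)) (hs ε hε)
  rw [D2_self]
  simpa only [one_smul, zero_smul, add_zero, D1] using this

theorem D1_smul (f : E → ℂ) (w y : E) (c : ℂ) : D1 f w (c • y) = c * D1 f w y := by
  unfold D1
  have := deriv_comp_mul_left (f := fun ε : ℂ => f (w + ε • y)) (c := c) (x := 0)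
  rw [mul_zero, smul_eq_mul] at this
  rw [← this]
  simp only [smul_smul, mul_comm]

theorem D2_smul (f : E → ℂ) (w y z : E) (c : ℂ) : D2 f w (c • y) z = c * D2 f w y z := by
  unfold D2
  simp only [D1_smul]
  exact deriv_const_mul_field c

theorem D2_smul' (f : E → ℂ) (w y z : E) (c : ℂ) : D2 f w y (c • z) = c * D2 f w y z :=
  D1_smul (fun x => D1 f x y) w z c

theorem shift (hp : Sn S p) (hf : LH S p f x0 r M) {x y z : E} {ρ : ℝ} (hx : x ∈ S) (hy : y ∈ S)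
    (hz : z ∈ S) (hyρ : p y < ρ) : DifferentiableOn ℂ (fun ε : ℂ => f (x0 + x + ε • z + y))
      {ε | p (x + ε • z) < r - ρ} := by
  have h := hf.hol _ (S.add_mem hx hy) z hz
  have e : (fun ε : ℂ => f (x0 + x + ε • z + y)) = fun ε : ℂ => f (x0 + (x + y) + ε • z) := by
    funext ε; congr 1; abel
  rw [e]
  refine h.mono fun ε hε => ?_
  have := hp.add _ (S.add_mem hx (S.smul_mem ε hz)) y hy
  rw [mem_ofPred_eq] at hε
  show p (x + y + ε • z) < r
  rw [add_right_comm]; linarith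

theorem hol' (hf : LH S p f x0 r M) {x z : E} {ρ : ℝ} (hx : x ∈ S) (hz : z ∈ S) (hρ : 0 < ρ) :
    DifferentiableOn ℂ (fun ε : ℂ => f (x0 + x + ε • z)) {ε | p (x + ε • z) < r - ρ} :=
  (hf.hol x hx z hz).mono fun ε hε => by rw [mem_ofPred_eq] at hε ⊢; linarith

theorem lhDel (hp : Sn S p) (hf : LH S p f x0 r M) {y : E} {ρ : ℝ} (hy : y ∈ S) (hyρ : p y < ρ) :
    LH S p (fun w => f (w + y) - f w) x0 (r - ρ) (2 * M * (p y / ρ)) := by
  have hρ : 0 < ρ := (hp.nn y hy).trans_lt hyρ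
  exact ⟨fun x hx z hz => (shift hp hf hx hy hz hyρ).sub (hol' hf hx hz hρ),
    fun x hx h => ((bds hp hf hx hy hρ h).2 hyρ).1⟩

theorem lhD (hp : Sn S p) (hf : LH S p f x0 r M) {y : E} {ρ : ℝ} (hy : y ∈ S) (hρ : 0 < ρ) :
    LH S p (fun w => D1 f w y) x0 (r - ρ) (2 * M * (p y / ρ)) := by
  refine ⟨fun x hx z hz => ?_, fun x hx h => (bds hp hf hx hy hρ h).1⟩
  have c : Continuous fun t : ℂ => ‖t‖ * p y := by fun_prop
  have ev : ∀ᶠ t : ℂ in 𝓝[≠] 0, p (t • y) < ρ := by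
    have : ∀ᶠ t : ℂ in 𝓝 0, ‖t‖ * p y < ρ :=
      c.continuousAt.eventually_lt continuousAt_const (by simpa using hρ)
    filter_upwards [nhdsWithin_le_nhds this] with t ht using (hp.smul t y hy).trans_lt ht
  refine TendstoLocallyUniformlyOn.differentiableOn (φ := 𝓝[≠] (0 : ℂ))
    (F := fun t ε => (f (x0 + x + ε • z + t • y) - f (x0 + x + ε • z)) / t)
    (TendstoUniformlyOn.tendstoLocallyUniformlyOn ?_) ?_ (opn hp hx hz _)
  · rw [Metric.tendstoUniformlyOn_iff]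
    intro e he
    have c2 : Continuous fun t : ℂ => 4 * M * ‖t‖ * (p y / ρ) ^ 2 := by fun_prop
    have ev2 : ∀ᶠ t : ℂ in 𝓝 0, 4 * M * ‖t‖ * (p y / ρ) ^ 2 < e :=
      c2.continuousAt.eventually_lt continuousAt_const (by simpa using he)
    filter_upwards [ev, nhdsWithin_le_nhds ev2, self_mem_nhdsWithin] with t h1 h2 h3 ε hε
    have t0 : t ≠ 0 := h3
    have hw := S.add_mem hx (S.smul_mem ε hz)
    have b := ((bds hp hf hw (S.smul_mem t hy) hρ hε).2 h1).2.1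
    have M0 : 0 ≤ M := (norm_nonneg _).trans (hf.bd _ hw (by linarith))
    rw [D1_smul, ← add_assoc] at b
    rw [dist_comm, dist_eq_norm, show (f (x0 + x + ε • z + t • y) - f (x0 + x + ε • z)) / t -
      D1 f (x0 + x + ε • z) y = (f (x0 + x + ε • z + t • y) - f (x0 + x + ε • z) -
        t * D1 f (x0 + x + ε • z) y) / t by field_simp, norm_div]
    refine lt_of_le_of_lt ?_ h2
    have tp : 0 < ‖t‖ := norm_pos_iff.2 t0
    rw [div_le_iff₀ tp]
    refine b.trans ?_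
    have q : p (t • y) / ρ ≤ ‖t‖ * (p y / ρ) := by
      rw [← mul_div_assoc]; exact div_le_div_of_nonneg_right (hp.smul t y hy) hρ.le
    have q0 : 0 ≤ p (t • y) / ρ := div_nonneg (hp.nn _ (S.smul_mem t hy)) hρ.le
    calc 4 * M * (p (t • y) / ρ) ^ 2 ≤ 4 * M * (‖t‖ * (p y / ρ)) ^ 2 := by gcongr
      _ = _ := by ring
  · filter_upwards [ev] with t ht
    exact ((shift hp hf hx (S.smul_mem t hy) hz ht).sub (hol' hf hx hz hρ)).div_const t

theorem lhR (hp : Sn S p) (hf : LH S p f x0 r M) {y : E} {ρ : ℝ} (hy : y ∈ S) (hyρ : p y < ρ) :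
    LH S p (fun w => f (w + y) - f w - D1 f w y) x0 (r - ρ) (4 * M * (p y / ρ) ^ 2) := by
  have hρ : 0 < ρ := (hp.nn y hy).trans_lt hyρ
  exact ⟨fun x hx z hz => ((lhDel hp hf hy hyρ).hol x hx z hz).sub ((lhD hp hf hy hρ).hol x hx z hz),
    fun x hx h => ((bds hp hf hx hy hρ h).2 hyρ).2.1⟩

theorem bmx (hp : Sn S p) (hf : LH S p f x0 r M) {x y z : E} {ρ : ℝ} (hx : x ∈ S) (hy : y ∈ S)
    (hz : z ∈ S) (hxr : p x < r - ρ - ρ) (hyρ : p y < ρ) (hzρ : p z < ρ) :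
    ‖mx f (x0 + x) y z‖ ≤ 4 * M * (p y / ρ) * (p z / ρ) ∧
    ‖mx f (x0 + x) y z - D2 f (x0 + x) y z‖ ≤
      8 * M * (p y / ρ) * (p z / ρ) * (p y / ρ + p z / ρ) := by
  have hρ : 0 < ρ := (hp.nn y hy).trans_lt hyρ
  have b1 := ((bds hp (lhDel hp hf hy hyρ) hx hz hρ hxr).2 hzρ).1
  have b2 := ((bds hp (lhR hp hf hy hyρ) hx hz hρ hxr).2 hzρ).1
  have b3 := ((bds hp (lhD hp hf hy hρ) hx hz hρ hxr).2 hzρ).2.1
  have e : x0 + x + z + y = x0 + x + y + z := add_right_comm _ _ _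
  rw [e] at b1 b2
  refine ⟨?_, ?_⟩
  · rw [show mx f (x0 + x) y z = f (x0 + x + y + z) - f (x0 + x + z) -
      (f (x0 + x + y) - f (x0 + x)) by unfold mx; ring]
    exact b1.trans_eq (by ring)
  · have := norm_add_le_of_le b2 b3
    refine le_trans (le_of_eq ?_) (this.trans_eq (by ring))
    congr 1
    show _ = _ + (_ - D2 f (x0 + x) y z)
    unfold mx; ring

theorem zero_of {X : ℂ} {K δ : ℝ} (hδ : 0 < δ) (h : ∀ t : ℝ, 0 < t → t < δ → ‖X‖ ≤ K * t) :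
    X = 0 := by
  have := lim (g := fun t => K * t) (by fun_prop) hδ h
  simpa using this

theorem sm (hp : Sn S p) {y : E} (hy : y ∈ S) {t : ℝ} (ht : 0 < t) :
    0 ≤ p ((t : ℂ) • y) ∧ p ((t : ℂ) • y) ≤ t * p y :=
  ⟨hp.nn _ (S.smul_mem _ hy), by simpa [abs_of_pos ht] using hp.smul (t : ℂ) y hy⟩

theorem small {a b ρ t : ℝ} (ha : 0 ≤ a) (hb : 0 ≤ b) (ht : 0 < t)
    (h : t < ρ / (a + b + 1)) : t * a < ρ ∧ t * b < ρ ∧ t * (a + b) < ρ := by
  rw [lt_div_iff₀ (by linarith)] at h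
  refine ⟨by nlinarith, by nlinarith, by nlinarith⟩

theorem D1_add (hp : Sn S p) (hf : LH S p f x0 r M) {x y z : E} (hx : x ∈ S) (hy : y ∈ S)
    (hz : z ∈ S) (hxr : p x < r) :
    D1 f (x0 + x) (y + z) = D1 f (x0 + x) y + D1 f (x0 + x) z := by
  set ρ := (r - p x) / 3 with hρd
  have hρ : 0 < ρ := by rw [hρd]; linarith
  have h2 : p x < r - ρ - ρ := by rw [hρd]; linarith
  have h1 : p x < r - ρ := by linarith
  have M0 : 0 ≤ M := (norm_nonneg _).trans (hf.bd _ hx hxr)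
  have a0 := hp.nn y hy
  have b0 := hp.nn z hz
  have hyz := S.add_mem hy hz
  rw [← sub_eq_zero]
  refine zero_of (K := 16 * M * ((p y + p z) / ρ) ^ 2) (δ := ρ / (p y + p z + 1)) (by positivity)
    fun t ht htδ => ?_
  obtain ⟨s1, s2, s3⟩ := small a0 b0 ht htδ
  obtain ⟨u0, u1⟩ := sm hp hy ht
  obtain ⟨v0, v1⟩ := sm hp hz ht
  obtain ⟨w0, w1⟩ := sm hp hyz ht
  have w2 : p ((t : ℂ) • (y + z)) ≤ t * (p y + p z) :=
    w1.trans (mul_le_mul_of_nonneg_left (hp.add y hy z hz) ht.le)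
  have c1 := ((bds hp hf hx (S.smul_mem _ hy) hρ h1).2 (u1.trans_lt s1)).2.1
  have c2 := ((bds hp hf hx (S.smul_mem _ hz) hρ h1).2 (v1.trans_lt s2)).2.1
  have c3 := ((bds hp hf hx (S.smul_mem _ hyz) hρ h1).2 (w2.trans_lt s3)).2.1
  have c4 := (bmx hp hf hx (S.smul_mem _ hy) (S.smul_mem _ hz) h2 (u1.trans_lt s1)
    (v1.trans_lt s2)).1
  rw [D1_smul] at c1 c2 c3
  set A := t * (p y + p z) / ρ with hA
  have u2 : p ((t : ℂ) • y) / ρ ≤ A := div_le_div_of_nonneg_right (by nlinarith) hρ.le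
  have v2 : p ((t : ℂ) • z) / ρ ≤ A := div_le_div_of_nonneg_right (by nlinarith) hρ.le
  have w3 : p ((t : ℂ) • (y + z)) / ρ ≤ A := div_le_div_of_nonneg_right w2 hρ.le
  have u3 := div_nonneg u0 hρ.le
  have v3 := div_nonneg v0 hρ.le
  have w4 := div_nonneg w0 hρ.le
  have d1 := c1.trans (show _ ≤ 4 * M * A ^ 2 by gcongr)
  have d2 := c2.trans (show _ ≤ 4 * M * A ^ 2 by gcongr)
  have d3 := c3.trans (show _ ≤ 4 * M * A ^ 2 by gcongr)
  have d4 := c4.trans (show _ ≤ 4 * M * A * A by gcongr)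
  have e : (t : ℂ) * (D1 f (x0 + x) (y + z) - (D1 f (x0 + x) y + D1 f (x0 + x) z)) =
      mx f (x0 + x) ((t : ℂ) • y) ((t : ℂ) • z) + (f (x0 + x + (t : ℂ) • y) - f (x0 + x) -
        t * D1 f (x0 + x) y) + (f (x0 + x + (t : ℂ) • z) - f (x0 + x) - t * D1 f (x0 + x) z) -
        (f (x0 + x + (t : ℂ) • (y + z)) - f (x0 + x) - t * D1 f (x0 + x) (y + z)) := by
    unfold mx; rw [smul_add, ← add_assoc]; ring
  have n := norm_sub_le_of_le (norm_add_le_of_le (norm_add_le_of_le d4 d1) d2) d3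
  rw [← e, norm_mul, Complex.norm_real, Real.norm_of_nonneg ht.le] at n
  refine le_of_mul_le_mul_left (n.trans_eq ?_) ht
  rw [hA]; ring

theorem D2_comm (hp : Sn S p) (hf : LH S p f x0 r M) {x y z : E} (hx : x ∈ S) (hy : y ∈ S)
    (hz : z ∈ S) (hxr : p x < r) : D2 f (x0 + x) y z = D2 f (x0 + x) z y := by
  set ρ := (r - p x) / 3 with hρd
  have hρ : 0 < ρ := by rw [hρd]; linarith
  have h2 : p x < r - ρ - ρ := by rw [hρd]; linarith
  have M0 : 0 ≤ M := (norm_nonneg _).trans (hf.bd _ hx hxr)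
  have a0 := hp.nn y hy
  have b0 := hp.nn z hz
  rw [← sub_eq_zero]
  refine zero_of (K := 32 * M * ((p y + p z) / ρ) ^ 3) (δ := ρ / (p y + p z + 1)) (by positivity)
    fun t ht htδ => ?_
  obtain ⟨s1, s2, -⟩ := small a0 b0 ht htδ
  obtain ⟨u0, u1⟩ := sm hp hy ht
  obtain ⟨v0, v1⟩ := sm hp hz ht
  have c1 := (bmx hp hf hx (S.smul_mem _ hy) (S.smul_mem _ hz) h2 (u1.trans_lt s1)
    (v1.trans_lt s2)).2
  have c2 := (bmx hp hf hx (S.smul_mem _ hz) (S.smul_mem _ hy) h2 (v1.trans_lt s2)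
    (u1.trans_lt s1)).2
  rw [D2_smul, D2_smul'] at c1 c2
  set A := t * (p y + p z) / ρ with hA
  have u2 : p ((t : ℂ) • y) / ρ ≤ A := div_le_div_of_nonneg_right (by nlinarith) hρ.le
  have v2 : p ((t : ℂ) • z) / ρ ≤ A := div_le_div_of_nonneg_right (by nlinarith) hρ.le
  have u3 := div_nonneg u0 hρ.le
  have v3 := div_nonneg v0 hρ.le
  have A0 := u3.trans u2
  have d1 := c1.trans (show _ ≤ 8 * M * A * A * (A + A) by gcongr)
  have d2 := c2.trans (show _ ≤ 8 * M * A * A * (A + A) by gcongr)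
  have e : (t : ℂ) * t * (D2 f (x0 + x) y z - D2 f (x0 + x) z y) =
      (mx f (x0 + x) ((t : ℂ) • z) ((t : ℂ) • y) - t * (t * D2 f (x0 + x) z y)) -
      (mx f (x0 + x) ((t : ℂ) • y) ((t : ℂ) • z) - t * (t * D2 f (x0 + x) y z)) := by
    unfold mx; rw [add_right_comm (x0 + x) ((t : ℂ) • z)]; ring
  have n := norm_sub_le_of_le d2 d1
  rw [← e, norm_mul, norm_mul, Complex.norm_real, Real.norm_of_nonneg ht.le] at n
  refine le_of_mul_le_mul_left (n.trans_eq ?_) (mul_pos ht ht)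
  rw [hA]; ring

theorem disc (hp : Sn S p) (hf : LH S p f x0 r M) {y z : E} (hy : y ∈ S) (hz : z ∈ S) {η : ℝ}
    (hr : p y + p z < r)
    (h : ∀ ε δ : ℂ, ‖ε‖ ≤ 1 → ‖δ‖ ≤ 1 → ‖f (x0 + (ε • y + δ • z)) - f x0‖ ≤ η) :
    ‖D1 f x0 y‖ ≤ 2 * η ∧ ‖D2 f x0 y z‖ ≤ 4 * η := by
  have a0 := hp.nn y hy
  have b0 := hp.nn z hz
  have k : ∀ δ : ℂ, ‖δ‖ ≤ 1 → ‖D1 f (x0 + δ • z) y‖ ≤ 2 * η := fun δ hδ => by
    have pz : p (δ • z) ≤ p z := (hp.smul δ z hz).trans (by nlinarith)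
    have := (one (φ := fun ε : ℂ => f (x0 + δ • z + ε • y) - f x0) (M := η) zero_le_one one_pos
      (((hf.hol _ (S.smul_mem δ hz) y hy).mono fun ε hε => ?_).sub_const _)
      fun ε hε => ?_).1
    · rw [deriv_sub_const] at this
      simpa [D1] using this
    · have := p_line hp (S.smul_mem δ hz) hy ε
      rw [mem_ofPred_eq] at hε ⊢
      nlinarith
    · rw [add_assoc, add_comm (δ • z)]
      exact h ε δ (by linarith) hδ
  refine ⟨by simpa using k 0 (by simp), ?_⟩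
  have l := (lhD hp hf hy (ρ := (r - p z) / 2) (by linarith)).hol 0 S.zero_mem z hz
  have := (one (φ := fun δ : ℂ => D1 f (x0 + δ • z) y) (M := 2 * η) zero_le_one one_pos
    ((by simpa using l : DifferentiableOn ℂ (fun δ : ℂ => D1 f (x0 + δ • z) y)
      {δ | p (δ • z) < r - (r - p z) / 2}).mono fun δ hδ => ?_)
    fun δ hδ => k δ (by linarith)).1
  · refine le_trans this (by linarith)
  · have := hp.smul δ z hz
    rw [mem_ofPred_eq] at hδ ⊢
    nlinarith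

end GH

open GH in
theorem st_gh : St_GH := by
  refine ⟨1000, fun E _ _ S p f x0 r M hp hr hf => ?_⟩
  have z0 := p_zero hp
  have M0 : 0 ≤ M := (norm_nonneg _).trans (hf.bd _ S.zero_mem (by linarith))
  have hρ : 0 < r / 5 := by linarith
  refine ⟨fun y hy z hz => ?_, fun x hx hxr y hy z hz => ?_, fun y hy hyr => ?_,
    fun y hy z hz η h1 h2 => ?_⟩
  · simpa using D1_add hp hf S.zero_mem hy hz (by linarith)
  · have a0 := hp.nn y hy
    have b0 := hp.nn z hz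
    have c0 := hp.nn x hx
    have l2 := lhD hp (lhD hp hf hy hρ) hz hρ
    refine ⟨fun y' hy' => ?_, D2_smul f _ y z, D2_comm hp hf hx hy hz (by linarith), ?_, ?_,
      fun h1 h2 => ?_⟩
    · rw [D2_comm hp hf hx (S.add_mem hy hy') hz (by linarith), D2_comm hp hf hx hy hz (by linarith),
        D2_comm hp hf hx hy' hz (by linarith)]
      exact D1_add hp (lhD hp hf hz hρ) hx hy hy' (by linarith)
    · refine (l2.bd x hx (by linarith)).trans ?_
      rw [show 2 * (2 * M * (p y / (r / 5))) * (p z / (r / 5)) = 100 * M * p y * p z / r ^ 2 by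
        field_simp; ring]
      gcongr; norm_num
    · have := ((bds hp l2 S.zero_mem hx (ρ := 2 * r / 5) (by linarith) (by linarith)).2
        (by linarith)).1
      rw [add_zero] at this
      refine le_trans this ?_
      rw [show 2 * (2 * (2 * M * (p y / (r / 5))) * (p z / (r / 5))) * (p x / (2 * r / 5)) =
        500 * M * p x * p y * p z / r ^ 3 by field_simp; ring]
      gcongr; norm_num
    · obtain ⟨b1, b2⟩ := bmx hp hf hx hy hz (ρ := r / 5) (by linarith) (by linarith) (by linarith)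
      refine ⟨b1.trans ?_, b2.trans_eq ?_⟩
      · rw [show 4 * M * (p y / (r / 5)) * (p z / (r / 5)) = 100 * M * p y * p z / r ^ 2 by
          field_simp; ring]
        gcongr; norm_num
      · field_simp; ring
  · have := ((bds hp hf S.zero_mem hy hρ (by linarith)).2 (by linarith)).2.2
    rw [add_zero] at this
    refine this.trans_eq ?_
    field_simp; ring
  · obtain ⟨b1, b2⟩ := disc hp hf hy hz h1 h2
    have η0 : 0 ≤ η := (norm_nonneg _).trans (h2 0 0 (by simp) (by simp))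
    exact ⟨by linarith, by linarith⟩

end Pool.Agent.Lib.IS2
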