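import Pool.Agent.Lib.IS2.Blue

/-! The Green function of the domain. -/

open scoped ContDiff ComplexConjugate Topology Real
open Complex MeasureTheory Set Filter

noncomputable section

namespace Pool.Agent.Lib.IS2

namespace GRE

lemma lap_shift (u : ℂ → ℝ) (y x : ℂ) : lap (fun z => u (z - y)) x = lap u (x - y) := by
  unfold lap
  simp only [fderiv_comp_sub]
  rw [fderiv_comp_sub (f := fun z => fderiv ℝ u z 1), fderiv_comp_sub (f := fun z => fderiv ℝ u z I)]

lemma lap_sub {u v : ℂ → ℝ} {x : ℂ} (hu : ContDiffAt ℝ 2 u x) (hv : ContDiffAt ℝ 2 v x) :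
    lap (fun z => u z - v z) x = lap u x - lap v x := by
  have d : ∀ {w : ℂ → ℝ}, ContDiffAt ℝ 2 w x → ∀ e : ℂ,
      DifferentiableAt ℝ (fun z => fderiv ℝ w z e) x := fun hw e =>
    ((hw.fderiv_right (m := 1) (by norm_num)).differentiableAt one_ne_zero).clm_apply
      (differentiableAt_const e)
  have h : ∀ e : ℂ, fderiv ℝ (fun z => fderiv ℝ (fun z => u z - v z) z e) x e =
      fderiv ℝ (fun z => fderiv ℝ u z e) x e - fderiv ℝ (fun z => fderiv ℝ v z e) x e := fun e => by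
    have h1 : (fun z => fderiv ℝ (fun z => u z - v z) z e) =ᶠ[𝓝 x]
        fun z => fderiv ℝ u z e - fderiv ℝ v z e := by
      filter_upwards [hu.eventually (by simp), hv.eventually (by simp)] with z h1 h2
      rw [fderiv_fun_sub (h1.differentiableAt two_ne_zero) (h2.differentiableAt two_ne_zero)]
      rfl
    rw [h1.fderiv_eq, fderiv_fun_sub (d hu e) (d hv e)]
    rfl
  unfold lap
  rw [h, h]
  ring

lemma har_mono {μ : ℝ} {U V : Set ℂ} {u : ℂ → ℝ} (h : Har μ U u) (hV : V ⊆ U) : Har μ V u :=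
  ⟨h.1.mono hV, fun x hx => h.2 x (hV hx)⟩

lemma har_shift {μ : ℝ} {u : ℂ → ℝ} (h : Har μ {0}ᶜ u) (y : ℂ) :
    Har μ {y}ᶜ fun z => u (z - y) :=
  ⟨h.1.comp (by fun_prop) fun z hz => sub_ne_zero.2 hz, fun x hx => by
    rw [lap_shift]; exact h.2 _ (sub_ne_zero.2 hx)⟩

lemma har_sub {μ : ℝ} {U : Set ℂ} {u v : ℂ → ℝ} (hU : IsOpen U) (hu : Har μ U u) (hv : Har μ U v) :
    Har μ U fun z => u z - v z :=
  ⟨hu.1.sub hv.1, fun x hx => by
    rw [lap_sub (hu.1.contDiffAt (hU.mem_nhds hx)) (hv.1.contDiffAt (hU.mem_nhds hx)), hu.2 x hx,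
      hv.2 x hx, mul_sub]⟩

lemma gr_comm (μ : ℝ) (x y : ℂ) : Gr μ (x - y) = Gr μ (y - x) := by
  unfold Gr; rw [norm_sub_rev]

lemma cp_bdd {φ : ℝ → ℝ} (h : CP φ) : ∃ B, ∀ t, |φ t| ≤ B := by
  obtain ⟨B, hB⟩ := (h.2.isBounded_of_continuous (by positivity) h.1).exists_norm_le
  exact ⟨B, fun t => hB _ ⟨t, rfl⟩⟩

variable {Ω : Set ℂ} {γ : ℝ → ℂ}

lemma not_mem (h : CD Ω γ) (t : ℝ) : γ t ∉ Ω := fun ht => by
  have h1 : γ t ∈ frontier Ω := h.fr ▸ mem_range_self t
  rw [h.opn.frontier_eq] at h1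
  exact h1.2 ht

lemma mem_cl (h : CD Ω γ) (t : ℝ) : γ t ∈ closure Ω :=
  frontier_subset_closure (h.fr ▸ mem_range_self t)

lemma ne_of_mem (h : CD Ω γ) {y : ℂ} (hy : y ∈ Ω) (t : ℝ) : γ t ≠ y := fun e =>
  not_mem h t (e ▸ hy)

/-- an integrable function moved along the curve -/
lemma along {g : ℂ → ℝ} (hg : Integrable g) (hm : Measurable g) (hγ : Continuous γ) (a b : ℝ) :
    Integrable (fun p : ℂ × ℝ => g (p.1 - γ p.2)) (volume.prod (volume.restrict (Ioc a b))) := by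
  refine (integrable_prod_iff' ?_).2 ⟨ae_of_all _ fun t => hg.comp_sub_right (γ t), ?_⟩
  · exact (hm.comp (measurable_fst.sub (hγ.measurable.comp measurable_snd))).aestronglyMeasurable
  · simp only [integral_sub_right_eq_self (fun x => ‖g x‖)]
    exact integrable_const _

lemma ball_int (R a : ℝ) (ha : a < 2) :
    IntegrableOn (fun z : ℂ => ‖z‖ ^ (-a)) (Metric.ball 0 R) :=
  integrableOn_ball_of_norm_le_rpow (C := 1) (α := a) (by simp) (by simpa using ha)
    (ae_of_all _ fun z => by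
      rw [one_mul, Real.norm_of_nonneg (Real.rpow_nonneg (norm_nonneg _) _)])
    (by fun_prop (disch := measurability) : Measurable fun z : ℂ => ‖z‖ ^ (-a)).aestronglyMeasurable

end GRE

open GRE in
theorem st_gre (hL : St_LAY) (hV : St_VP) (hM : St_MAX) (hP : St_POI) : St_GRE := by
  intro μ γ Ω hp
  have hc := hp.cd
  have hγ : Continuous γ := hc.smooth.continuous
  obtain ⟨⟨Gh, -, Gm, -, G2, ⟨C, GC⟩, Gp⟩, Lay⟩ := hL μ hp.pos
  obtain ⟨P1, P2, P3, -, -, -, ⟨C', P7⟩, -, P9⟩ := hP μ γ Ω hp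
  have hπ : (0 : ℝ) ≤ 2 * π := by positivity
  have Gc : ContinuousOn (Gr μ) {0}ᶜ := Gh.1.continuousOn
  have cpG : ∀ y, (∀ t, γ t ≠ y) → CP fun t => Gr μ (γ t - y) := fun y hy =>
    ⟨Gc.comp_continuous (hγ.sub continuous_const) fun t => sub_ne_zero.2 (hy t),
      fun t => by simp only [hc.per t]⟩
  have c1 : ContinuousOn (Function.uncurry (hR μ γ Ω)) (closure Ω ×ˢ Ω) :=
    P3 ℂ Ω (fun y t => Gr μ (γ t - y))
      (Gc.comp (f := fun p : ℂ × ℝ => γ p.2 - p.1) (by fun_prop)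
        fun p hp => sub_ne_zero.2 (ne_of_mem hc hp.1 _))
      fun y hy => (cpG y (ne_of_mem hc hy)).2
  have rep : ∀ y, (∀ t, γ t ≠ y) → ∀ x ∈ Ω,
      hR μ γ Ω x y = ∫ t in (0 : ℝ)..(2 * π), ps μ γ x t * Gr μ (γ t - y) := fun y hy x hx =>
    ((P1 _ (cpG y hy)).2.2.2.1 x hx).2
  have sl : ∀ y x, SLo μ γ (ps μ γ y) x =
      ∫ t in (0 : ℝ)..(2 * π), ps μ γ y t * Gr μ (γ t - x) := fun y x => by
    unfold SLo
    simp only [gr_comm μ x, mul_comm]
  have lay : ∀ y ∈ Ω, Continuous (SLo μ γ (ps μ γ y)) ∧ Har μ Ω (SLo μ γ (ps μ γ y)) :=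
    fun y hy => by
      have h := Lay Ω γ _ hc (P9 y hy).1.1.measurable (cp_bdd (P9 y hy).1)
      exact ⟨h.1, har_mono h.2.1 fun x hx ⟨t, ht⟩ => ne_of_mem hc hx t ht⟩
  have ext0 : ∀ y ∈ Ω, ∀ x ∉ closure Ω, SLo μ γ (ps μ γ y) x = Gr μ (x - y) := fun y hy x hx => by
    have hx' : ∀ z ∈ closure Ω, z ≠ x := fun z hz e => hx (e ▸ hz)
    have h := P2 (fun z => Gr μ (z - x)) ((har_shift Gh x).1.continuousOn.mono hx')
      (har_mono (har_shift Gh x) fun z hz => hx' z (subset_closure hz)) y (subset_closure hy)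
    rw [sl, ← rep x (fun t => hx' _ (mem_cl hc t)) y hy, gr_comm]
    exact h.symm
  have ext : ∀ y ∈ Ω, ∀ x ∉ Ω, SLo μ γ (ps μ γ y) x = Gr μ (x - y) := fun y hy x hx => by
    by_cases hx1 : x ∈ closure Ω
    swap
    · exact ext0 y hy x hx1
    have hf : x ∈ frontier Ω := by rw [hc.opn.frontier_eq]; exact ⟨hx1, hx⟩
    obtain ⟨s, rfl⟩ : x ∈ range γ := hc.fr ▸ hf
    obtain ⟨δ, hδ, hs⟩ := hc.side s
    have ht : Tendsto (fun r : ℝ => γ s - r * nr γ s) (𝓝[>] 0) (𝓝 (γ s)) := by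
      have : Continuous fun r : ℝ => γ s - r * nr γ s := by fun_prop
      simpa using (this.tendsto 0).mono_left (nhdsWithin_le_nhds (s := Ioi 0))
    have hg : ContinuousAt (fun z => Gr μ (z - y)) (γ s) :=
      (har_shift Gh y).1.continuousOn.continuousAt
        (isOpen_compl_singleton.mem_nhds (ne_of_mem hc hy s))
    refine tendsto_nhds_unique_of_eventuallyEq (((lay y hy).1.tendsto _).comp ht)
      (hg.tendsto.comp ht) ?_
    filter_upwards [Ioo_mem_nhdsGT hδ] with r hr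
    exact ext0 y hy _ (hs r hr.1 hr.2).2
  have ins : ∀ y ∈ Ω, ∀ x ∈ Ω, SLo μ γ (ps μ γ y) x = hR μ γ Ω x y := fun y hy x hx => by
    rw [P2 _ (lay y hy).1.continuousOn (lay y hy).2 x (subset_closure hx)]
    simp only [ext y hy _ (not_mem hc _)]
    rfl
  have sym : ∀ y ∈ Ω, ∀ x ∈ Ω, hR μ γ Ω x y = hR μ γ Ω y x := fun y hy x hx => by
    rw [← ins y hy x hx, sl, rep x (ne_of_mem hc hx) y hy]
  have nn : ∀ y ∈ Ω, ∀ x ∈ Ω, 0 ≤ hR μ γ Ω x y := fun y hy x hx => by
    rw [rep y (ne_of_mem hc hy) x hx]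
    exact intervalIntegral.integral_nonneg hπ fun t _ => mul_nonneg ((P9 x hx).2.1 t)
      (Gp _ (sub_ne_zero.2 (ne_of_mem hc hy t))).1.le
  have hK : IsCompact (closure Ω) := hc.bdd.isCompact_closure
  have bd : ∀ y ∈ Ω, ∃ B, ∀ x ∈ closure Ω, ‖hR μ γ Ω x y‖ ≤ B := fun y hy =>
    hK.exists_bound_of_continuousOn (P1 _ (cpG y (ne_of_mem hc hy))).1
  have mΩ : MeasurableSet Ω := hc.opn.measurableSet
  obtain ⟨R, hR0⟩ := hK.isBounded.exists_norm_le
  refine ⟨c1, ?_, fun F hF hF0 x hx => ?_, fun y hy => ?_⟩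
  · set g : ℂ → ℝ := (Metric.ball 0 (2 * R + 1)).indicator fun z =>
      |C'| * |C| * (‖z‖ ^ (-(1 / 4 : ℝ)) + ‖z‖ ^ (-(5 / 4 : ℝ))) with hg
    have gi : Integrable g := (integrable_indicator_iff Metric.isOpen_ball.measurableSet).2
      (((ball_int _ _ (by norm_num)).add (ball_int _ _ (by norm_num))).const_mul _)
    have gm : Measurable g := Measurable.indicator (by fun_prop (disch := measurability))
      Metric.isOpen_ball.measurableSet
    have ha := along gi gm hγ 0 (2 * π)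
    refine Integrable.mono' ha.integral_prod_left.integrableOn
      ((c1.comp (f := fun x : ℂ => (x, x)) (by fun_prop)
        fun x hx => ⟨subset_closure hx, hx⟩).aestronglyMeasurable mΩ) ?_
    filter_upwards [ae_restrict_of_ae ha.prod_right_ae, ae_restrict_mem mΩ] with x h1 hx
    rw [rep x (ne_of_mem hc hx) x hx, intervalIntegral.integral_of_le hπ]
    refine norm_integral_le_of_norm_le h1 (ae_of_all _ fun t => ?_)
    have h0 : x - γ t ≠ 0 := sub_ne_zero.2 (ne_of_mem hc hx t).symm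
    have h2 : 0 < ‖x - γ t‖ := norm_pos_iff.2 h0
    have h3 : x - γ t ∈ Metric.ball (0 : ℂ) (2 * R + 1) := by
      rw [mem_ball_zero_iff]
      have := norm_sub_le x (γ t)
      have := hR0 _ (subset_closure hx)
      have := hR0 _ (mem_cl hc t)
      linarith
    have h4 : ‖x - γ t‖ ^ (-(5 / 4 : ℝ)) = ‖x - γ t‖⁻¹ * ‖x - γ t‖ ^ (-(1 / 4 : ℝ)) := by
      rw [← Real.rpow_neg_one, ← Real.rpow_add h2]; norm_num
    have h5 : 0 ≤ ‖x - γ t‖ ^ (-(1 / 4 : ℝ)) := by positivity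
    have h6 : ps μ γ x t ≤ |C'| * (1 + ‖x - γ t‖⁻¹) :=
      (P7 x hx t).trans (by gcongr; exact le_abs_self _)
    have h7 : |Gr μ (x - γ t)| ≤ |C| * ‖x - γ t‖ ^ (-(1 / 4 : ℝ)) := by
      have := GC _ h0
      rw [neg_div'] at this
      exact this.trans (by rw [neg_div']; gcongr; exact le_abs_self _)
    rw [hg, indicator_of_mem h3, h4, norm_mul, Real.norm_of_nonneg ((P9 x hx).2.1 t), gr_comm,
      Real.norm_eq_abs]
    calc _ ≤ |C'| * (1 + ‖x - γ t‖⁻¹) * (|C| * ‖x - γ t‖ ^ (-(1 / 4 : ℝ))) :=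
          mul_le_mul h6 h7 (abs_nonneg _) (by positivity)
      _ = _ := by ring
  · have iG : ∀ w, Integrable fun z => Gr μ (w - z) * F z := fun w =>
      (G2.comp_measurePreserving (Measure.measurePreserving_sub_left volume w)).integrable_mul hF
    have hR1 : ∀ z, R < ‖z‖ → F z = 0 := fun z hz =>
      hF0 z fun h => absurd (hR0 z (subset_closure h)) (not_le.2 hz)
    have v1 := (hV μ F hp.pos hF ⟨R, hR1⟩).1
    have v2 := (hV μ (fun z => |F z|) hp.pos hF.abs ⟨R, fun z hz => by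
      rw [hR1 z hz, abs_zero]⟩).1
    have fin : IsFiniteMeasure (volume.restrict Ω) :=
      isFiniteMeasure_restrict.2 hc.bdd.measure_lt_top.ne
    have iF : IntegrableOn F Ω := (hF.restrict Ω).integrable (by norm_num)
    obtain ⟨B, hB⟩ := bd x hx
    have iH : IntegrableOn (fun z => hR μ γ Ω x z * F z) Ω := by
      refine iF.bdd_mul (c := B) ((c1.comp (f := fun z : ℂ => (x, z)) (by fun_prop)
        fun z hz => ⟨subset_closure hx, hz⟩).aestronglyMeasurable mΩ) ?_
      filter_upwards [ae_restrict_mem mΩ] with z hz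
      rw [sym z hz x hx]
      exact hB z (subset_closure hz)
    have e : ∀ z, Rg μ γ Ω x z * F z = Gr μ (x - z) * F z - hR μ γ Ω x z * F z := fun z => by
      unfold Rg; ring
    simp only [e]
    refine ⟨(iG x).integrableOn.sub iH, ?_⟩
    have pc := (P9 x hx).1.1
    have iP : Integrable (Function.uncurry fun (t : ℝ) (z : ℂ) =>
        ps μ γ x t * (Gr μ (γ t - z) * F z)) ((volume.restrict (Ioc 0 (2 * π))).prod volume) := by
      refine (integrable_prod_iff ?_).2 ⟨ae_of_all _ fun t => (iG (γ t)).const_mul (ps μ γ x t), ?_⟩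
      · exact (pc.measurable.comp measurable_fst).aestronglyMeasurable.mul
          ((Gm.comp ((hγ.measurable.comp measurable_fst).sub
            measurable_snd)).aestronglyMeasurable.mul hF.1.comp_snd)
      · have : ∀ t, ∫ z, ‖ps μ γ x t * (Gr μ (γ t - z) * F z)‖ =
            ps μ γ x t * Vp μ (fun z => |F z|) (γ t) := fun t => by
          unfold Vp
          rw [← integral_const_mul]
          refine integral_congr_ae (ae_of_all _ fun z => ?_)
          by_cases hz : z ∈ Ω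
          · simp only [norm_mul, Real.norm_eq_abs, abs_of_nonneg ((P9 x hx).2.1 t),
              abs_of_pos (Gp _ (sub_ne_zero.2 (ne_of_mem hc hz t))).1]
          · simp [hF0 z hz]
        simp only [Function.uncurry, this]
        exact ((pc.mul (v2.comp hγ)).integrableOn_Icc).mono_set Ioc_subset_Icc_self
    rw [integral_sub (iG x).integrableOn iH, setIntegral_eq_integral_of_forall_compl_eq_zero
      fun z hz => by rw [hF0 z hz, mul_zero],
      ((P1 (fun t => Vp μ F (γ t)) ⟨v1.comp hγ, fun t => by simp only [hc.per t]⟩).2.2.2.1 x hx).2,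
      intervalIntegral.integral_of_le hπ]
    congr 1
    simp only [Vp, ← integral_const_mul]
    rw [integral_integral_swap iP]
    refine (setIntegral_congr_fun mΩ fun z hz => ?_).trans
      (setIntegral_eq_integral_of_forall_compl_eq_zero (s := Ω) fun z hz => by simp [hF0 z hz])
    simp only [rep z (ne_of_mem hc hz) x hx, intervalIntegral.integral_of_le hπ,
      ← integral_mul_const, mul_assoc]
  · obtain ⟨q1, q2, q3, -⟩ := P1 _ (cpG y (ne_of_mem hc hy))
    have z0 : ∀ t, Rg μ γ Ω (γ t) y = 0 := fun t => sub_eq_zero.2 (q3 t).symm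
    refine ⟨q2, z0, fun x hx => ⟨sym y hy x hx, nn y hy x hx, fun hxy => ?_, ins y hy x hx⟩,
      ext y hy⟩
    obtain ⟨B, hB⟩ := bd y hy
    have hh := har_sub (hc.opn.sdiff isClosed_singleton) (har_mono q2 sdiff_subset)
      (har_mono (har_shift Gh y) fun z hz => hz.2)
    have := (hM μ hp.pos).2.1 Ω (fun z => hR μ γ Ω z y - Gr μ (z - y)) 0 B y hy hc.opn hc.bdd le_rfl
      ((q1.mono sdiff_subset).sub ((har_shift Gh y).1.continuousOn.mono fun z hz => hz.2)) hh.1
      (fun z hz => ⟨(hh.2 z hz).ge, by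
        have h1 := (le_abs_self _).trans (hB z (subset_closure hz.1))
        have h2 := (Gp _ (sub_ne_zero.2 hz.2)).1
        linarith⟩)
      (fun z hz => by
        obtain ⟨t, rfl⟩ : z ∈ range γ := hc.fr ▸ hz
        have := z0 t
        unfold Rg at this
        linarith) x ⟨hx, hxy⟩
    unfold Rg
    linarith

end Pool.Agent.Lib.IS2
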