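import Pool.Agent.Lib.IS2.Blue

/-! Row GRN: the Green representation formula. -/

open scoped ContDiff ComplexConjugate Topology Real Manifold
open Complex MeasureTheory Set Filter

noncomputable section

namespace Pool.Agent.Lib.IS2

namespace GRN

theorem polar (H : ℂ → ℝ) (hm : Measurable H) (hi : Integrable H) (c : ℝ)
    (h : ∀ e : ℂ, ‖e‖ = 1 → IntegrableOn (fun r : ℝ => r * H (r * e)) (Ioi 0) →
      ∫ r in Ioi (0 : ℝ), r * H (r * e) = c) : ∫ z, H z = 2 * π * c := by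
  have h1 : IntegrableOn (fun p : ℝ × ℝ => p.1 • H (Complex.polarCoord.symm p))
      (Ioi 0 ×ˢ Ioo (-π) π) := by
    refine ⟨Measurable.aestronglyMeasurable (measurable_fst.smul (hm.comp ?_)), ?_⟩
    · simp only [funext Complex.polarCoord_symm_apply]
      fun_prop
    · refine lt_of_eq_of_lt ?_ hi.2
      rw [← Complex.lintegral_comp_polarCoord_symm]
      refine setLIntegral_congr_fun (measurableSet_Ioi.prod measurableSet_Ioo) fun p hp => ?_
      simp only [smul_eq_mul, enorm_mul, Real.enorm_eq_ofReal (le_of_lt hp.1)]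
  rw [← Complex.integral_comp_polarCoord_symm]
  rw [IntegrableOn, Measure.volume_eq_prod, ← Measure.prod_restrict] at h1
  change ∫ p in Ioi 0 ×ˢ Ioo (-π) π, _ = _
  rw [Measure.volume_eq_prod, ← Measure.prod_restrict, integral_prod_symm _ h1,
    integral_congr_ae (g := fun _ => c)]
  · simp [Real.pi_pos.le, two_mul]
  · filter_upwards [h1.prod_left_ae] with θ hθ
    simp only [Complex.polarCoord_symm_apply, smul_eq_mul] at hθ ⊢
    exact h _ (by rw [ofReal_cos, ofReal_sin, norm_cos_add_sin_mul_I]) hθ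

theorem rdot_le (z v : ℂ) : |rdot z v| ≤ ‖z‖ * ‖v‖ :=
  (abs_re_le_norm _).trans (by simp)

theorem loc_inv : LocallyIntegrable fun z : ℂ => ‖z‖⁻¹ :=
  locallyIntegrable_of_norm_le_rpow (C := 1) (α := 1) (by simp) (by simp)
    (Eventually.of_forall fun z => by simp [Real.rpow_neg_one])
    measurable_norm.inv.aestronglyMeasurable

theorem k0_anti (hA : St_A3) : AntitoneOn k0 (Ioi 0) := by
  refine antitoneOn_of_deriv_nonpos (convex_Ioi 0) hA.1.continuousOn ?_ fun x hx => ?_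
  · rw [interior_Ioi]
    exact hA.1.differentiableOn (by simp)
  · rw [interior_Ioi] at hx
    have h := hA.2.2.2.2.2.2.2.1 x hx
    rw [h.1.deriv]
    exact neg_nonpos.2 (div_pos h.2.2.2.1 hx).le

theorem bd_l1 (hA : St_A3) {μ ρ : ℝ} (hμ : 0 < μ) {z : ℂ} (hz : z ≠ 0) (hρ : ‖z‖ ≤ ρ) (v : ℂ)
    (a : ℝ) : ‖l1 (μ * ρ) * rdot z v / (2 * π * ρ ^ 2) * a‖ ≤ ‖z‖⁻¹ • (‖v‖ * |a|) := by
  have h0 : 0 < ‖z‖ := norm_pos_iff.2 hz
  have h1 := hA.2.2.2.2.2.2.2.1 _ (mul_pos hμ (h0.trans_le hρ))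
  have h2 : ‖z‖ ^ 2 ≤ 2 * π * ρ ^ 2 := by
    have := Real.pi_gt_three
    have := pow_le_pow_left₀ h0.le hρ 2
    nlinarith [sq_nonneg ρ]
  rw [Real.norm_eq_abs, abs_mul, abs_div, abs_mul, abs_of_pos h1.2.2.2.1,
    abs_of_pos ((pow_pos h0 2).trans_le h2), smul_eq_mul, ← mul_assoc]
  refine mul_le_mul_of_nonneg_right ?_ (abs_nonneg _)
  calc _ ≤ 1 * (‖z‖ * ‖v‖) / ‖z‖ ^ 2 := by
        gcongr
        exacts [h1.2.2.2.2, rdot_le z v]
    _ = _ := by field_simp

theorem weak (hA : St_A3) {μ : ℝ} (hμ : 0 < μ) (hG : Integrable (Gr μ)) (g : ℂ → ℝ)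
    (hg : ContDiff ℝ 1 g) (hc : HasCompactSupport g) (v : ℂ) :
    Integrable (fun z => l1 (μ * ‖z‖) * rdot z v / (2 * π * ‖z‖ ^ 2) * g z) ∧
    ∫ z, Gr μ z * fderiv ℝ g z v = ∫ z, l1 (μ * ‖z‖) * rdot z v / (2 * π * ‖z‖ ^ 2) * g z := by
  have hne : ∀ᵐ z : ℂ, z ≠ 0 := by simp [ae_iff]
  have hd : Continuous fun z => fderiv ℝ g z v :=
    (hg.continuous_fderiv one_ne_zero).clm_apply continuous_const
  have hdc : HasCompactSupport fun z => fderiv ℝ g z v := hc.fderiv_apply ℝ v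
  have hb : Integrable fun z : ℂ => ‖z‖⁻¹ • (‖v‖ * |g z|) :=
    loc_inv.integrable_smul_right_of_hasCompactSupport
      (continuous_const.mul hg.continuous.abs) hc.abs.mul_left
  have hr : Continuous fun z => rdot z v := by
    unfold rdot
    fun_prop
  have hl := hA.2.2.2.2.2.2.1
  refine ⟨hb.mono' (Measurable.aestronglyMeasurable ?_)
    (hne.mono fun z hz => bd_l1 hA hμ hz le_rfl v _), ?_⟩
  · have := hg.continuous
    fun_prop
  set ρ : ℕ → ℂ → ℝ := fun n z => √(‖z‖ ^ 2 + 1 / ((n : ℝ) + 1)) with hρ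
  have p0 : ∀ (n : ℕ) (z : ℂ), 0 < ‖z‖ ^ 2 + 1 / ((n : ℝ) + 1) := fun n z => by positivity
  have p1 : ∀ n z, 0 < ρ n z := fun n z => Real.sqrt_pos.2 (p0 n z)
  have p2 : ∀ n z, ‖z‖ ≤ ρ n z := fun n z => Real.le_sqrt_of_sq_le (le_add_of_nonneg_right
    (by positivity))
  have p3 : ∀ n, Continuous (ρ n) := fun n => by fun_prop
  have p4 : ∀ z, Tendsto (fun n => ρ n z) atTop (𝓝 ‖z‖) := fun z => by
    have := ((tendsto_one_div_add_atTop_nhds_zero_nat (𝕜 := ℝ)).const_add (‖z‖ ^ 2)).sqrt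
    simpa [hρ] using this
  have c1 : ∀ n, Continuous fun z => k0 (μ * ρ n z) / (2 * π) := fun n =>
    (hA.1.continuousOn.comp_continuous (continuous_const.mul (p3 n))
      fun z => mul_pos hμ (p1 n z)).div_const _
  have c2 : ∀ n, Continuous fun z => l1 (μ * ρ n z) * rdot z v / (2 * π * ρ n z ^ 2) := fun n =>
    ((hA.2.1.continuousOn.comp_continuous (continuous_const.mul (p3 n))
      fun z => mul_pos hμ (p1 n z)).mul hr).div (continuous_const.mul ((p3 n).pow 2))
      fun z => (mul_pos Real.two_pi_pos (pow_pos (p1 n z) 2)).ne'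
  have e : ∀ n, ∫ z, k0 (μ * ρ n z) / (2 * π) * fderiv ℝ g z v =
      ∫ z, l1 (μ * ρ n z) * rdot z v / (2 * π * ρ n z ^ 2) * g z := fun n => by
    have := integral_bilinear_hasLineDerivAt_right_eq_neg_left_of_integrable (μ := volume)
      (B := ContinuousLinearMap.mul ℝ ℝ) (v := v) (f := fun z => k0 (μ * ρ n z) / (2 * π))
      (f' := fun z => -(l1 (μ * ρ n z) * rdot z v / (2 * π * ρ n z ^ 2))) (g := g)
      (g' := fun z => fderiv ℝ g z v)
      (((c2 n).neg.mul hg.continuous).integrable_of_hasCompactSupport hc.mul_left)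
      (((c1 n).mul hd).integrable_of_hasCompactSupport hdc.mul_left)
      (((c1 n).mul hg.continuous).integrable_of_hasCompactSupport hc.mul_left)
      (fun z _ => ?_) fun z _ => (hg.differentiable one_ne_zero z).hasFDerivAt.hasLineDerivAt v
    · simpa [integral_neg] using this
    · have d1 : HasDerivAt (fun t : ℝ => z + t • v) v 0 := by
        simpa using ((hasDerivAt_id (0 : ℝ)).smul_const v).const_add z
      have d2 := ((d1.norm_sq.add_const (1 / ((n : ℝ) + 1))).sqrt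
        (by simpa using (p0 n z).ne')).const_mul μ
      have d3 := ((hA.2.2.2.2.2.2.2.1 _ (mul_pos hμ (p1 n z))).1.comp_of_eq (0 : ℝ) d2
        (by simp [hρ])).div_const (2 * π)
      refine d3.congr_deriv ?_
      have := (p1 n z).ne'
      simp only [zero_smul, add_zero, Complex.inner, rdot, mul_re, conj_re, conj_im]
      change _ * (μ * (_ / (2 * ρ n z))) / _ = _
      field_simp
  refine tendsto_nhds_unique
    (tendsto_integral_of_dominated_convergence (fun z => Gr μ z • |fderiv ℝ g z v|)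
      (fun n => ((c1 n).mul hd).aestronglyMeasurable)
      (hG.locallyIntegrable.integrable_smul_right_of_hasCompactSupport hd.abs hdc.abs)
      (fun n => hne.mono fun z hz => ?_) (hne.mono fun z hz => ?_))
    ((tendsto_integral_of_dominated_convergence _
      (fun n => ((c2 n).mul hg.continuous).aestronglyMeasurable) hb
      (fun n => hne.mono fun z hz => bd_l1 hA hμ hz (p2 n z) v _)
      (hne.mono fun z hz => ?_)).congr fun n => (e n).symm)
  · have h0 := mul_pos hμ (norm_pos_iff.2 hz)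
    have h1 := mul_pos hμ (p1 n z)
    rw [Real.norm_eq_abs, Pi.mul_apply, abs_mul, smul_eq_mul,
      abs_of_pos (div_pos (hA.2.2.2.2.2.2.2.1 _ h1).2.2.1 Real.two_pi_pos), Gr]
    gcongr
    exact k0_anti hA h0 h1 (mul_le_mul_of_nonneg_left (p2 n z) hμ.le)
  · have h0 := mul_pos hμ (norm_pos_iff.2 hz)
    exact (((hA.2.2.2.2.2.2.2.1 _ h0).1.continuousAt.tendsto.comp
      ((p4 z).const_mul μ)).div_const _).mul_const _
  · have h0 := mul_pos hμ (norm_pos_iff.2 hz)
    exact ((((hA.2.2.2.2.2.2.2.1 _ h0).2.1.continuousAt.tendsto.comp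
      ((p4 z).const_mul μ)).mul_const _).div (((p4 z).pow 2).const_mul _)
      (mul_pos Real.two_pi_pos (pow_pos (norm_pos_iff.2 hz) 2)).ne').mul_const _

theorem fd_split (f : ℂ → ℝ) (z w : ℂ) :
    fderiv ℝ f z w = w.re * fderiv ℝ f z 1 + w.im * fderiv ℝ f z I := by
  rw [← smul_eq_mul, ← smul_eq_mul, ← map_smul, ← map_smul, ← map_add]
  congr 1
  simp

theorem cd_fd {f : ℂ → ℝ} {z : ℂ} (hf : ContDiffAt ℝ 2 f z) (v : ℂ) :
    ContDiffAt ℝ 1 (fun z => fderiv ℝ f z v) z :=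
  (hf.fderiv_right (m := 1) (by norm_num)).clm_apply contDiffAt_const

theorem lap_cont {f : ℂ → ℝ} (hf : ContDiff ℝ 2 f) : Continuous (lap f) := by
  have h : ∀ v, Continuous fun x => fderiv ℝ (fun z => fderiv ℝ f z v) x v := fun v =>
    ((contDiff_iff_contDiffAt.2 fun z => cd_fd hf.contDiffAt v).continuous_fderiv
      one_ne_zero).clm_apply continuous_const
  exact (h 1).add (h I)

theorem lap_cg {f g : ℂ → ℝ} {z : ℂ} (h : f =ᶠ[𝓝 z] g) : lap f z = lap g z := by
  have e : ∀ v, fderiv ℝ (fun z => fderiv ℝ f z v) z = fderiv ℝ (fun z => fderiv ℝ g z v) z :=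
    fun v => EventuallyEq.fderiv_eq ((h.fderiv (𝕜 := ℝ)).mono fun y hy => by simp only [hy])
  simp only [lap, e]

theorem lap_add {f g : ℂ → ℝ} (hf : ContDiff ℝ 2 f) (hg : ContDiff ℝ 2 g) (z : ℂ) :
    lap (f + g) z = lap f z + lap g z := by
  have e : ∀ v, fderiv ℝ (fun z => fderiv ℝ (f + g) z v) z =
      fderiv ℝ (fun z => fderiv ℝ f z v) z + fderiv ℝ (fun z => fderiv ℝ g z v) z := fun v => by
    rw [← fderiv_fun_add ((cd_fd hf.contDiffAt v).differentiableAt one_ne_zero)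
      ((cd_fd hg.contDiffAt v).differentiableAt one_ne_zero)]
    congr 1
    funext y
    rw [fderiv_add (hf.differentiable two_ne_zero y) (hg.differentiable two_ne_zero y)]
    rfl
  simp only [lap, e, add_apply]
  ring

theorem ray (hA : St_A3) {μ : ℝ} (hμ : 0 < μ) (f : ℂ → ℝ) (hf : Differentiable ℝ f)
    (hc : HasCompactSupport f) {e : ℂ} (he : ‖e‖ = 1) (F : ℝ → ℝ)
    (hF : ∀ r > 0, F r = (μ ^ 2 * r * k0 (μ * r) * f (r * e) -
      l1 (μ * r) * fderiv ℝ f (r * e) e) / (2 * π)) (hI : IntegrableOn F (Ioi 0)) :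
    ∫ r in Ioi (0 : ℝ), F r = f 0 / (2 * π) := by
  have c1 : ContinuousOn (fun r : ℝ => l1 (μ * r)) (Ici 0) :=
    hA.2.2.1.comp (f := fun r => μ * r) (by fun_prop) fun r hr => mul_nonneg hμ.le hr
  have c2 : Continuous fun r : ℝ => f (r * e) := hf.continuous.comp (by fun_prop)
  refine (integral_Ioi_of_hasDerivAt_of_tendsto
    (f := fun r : ℝ => -(l1 (μ * r) * f (r * e)) / (2 * π)) (m := 0)
    ((c1.mul c2.continuousOn).neg.div_const _ 0 self_mem_Ici) (fun r hr => ?_) hI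
    ?_).trans (by simp [hA.2.2.2.2.1, neg_div])
  · have hr' : 0 < r := hr
    have d1 : HasDerivAt (fun r => l1 (μ * r)) _ r :=
      (hA.2.2.2.2.2.2.2.1 _ (mul_pos hμ hr')).2.1.comp r ((hasDerivAt_id r).const_mul μ)
    have d2 : HasDerivAt (fun r : ℝ => f (r * e)) _ r :=
      (hf (r * e)).hasFDerivAt.comp_hasDerivAt r ((hasDerivAt_id r).ofReal_comp.mul_const e)
    refine ((d1.fun_mul d2).fun_neg.div_const (2 * π)).congr_deriv ?_
    rw [hF r hr', ofReal_one, one_mul]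
    ring
  · obtain ⟨R, hR⟩ := hc.isCompact.isBounded.exists_norm_le
    refine tendsto_const_nhds.congr' ((eventually_gt_atTop |R|).mono fun r hr => ?_)
    have : f (r * e) = 0 := image_eq_zero_of_notMem_tsupport fun h => by
      have h1 := hR _ h
      rw [norm_mul, he, norm_real, mul_one] at h1
      linarith [le_abs_self R, le_abs_self r, Real.norm_eq_abs r]
    simp [this]

theorem at_zero (hA : St_A3) {μ : ℝ} (hμ : 0 < μ) (hG : Integrable (Gr μ))
    (hm : Measurable (Gr μ)) (f : ℂ → ℝ) (hf : ContDiff ℝ 2 f) (hc : HasCompactSupport f) :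
    ∫ z, Gr μ z * (μ ^ 2 * f z - lap f z) = f 0 := by
  have hw := fun v => weak hA hμ hG (fun z => fderiv ℝ f z v)
    (contDiff_iff_contDiffAt.2 fun z => cd_fd hf.contDiffAt v) (hc.fderiv_apply ℝ v) v
  have hi : ∀ g : ℂ → ℝ, Continuous g → HasCompactSupport g → Integrable fun z => Gr μ z * g z :=
    fun g h1 h2 => hG.locallyIntegrable.integrable_smul_right_of_hasCompactSupport h1 h2
  have hd := fun v => hi (fun z => fderiv ℝ (fun z => fderiv ℝ f z v) z v)
    (((contDiff_iff_contDiffAt.2 fun z => cd_fd hf.contDiffAt v).continuous_fderiv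
      one_ne_zero).clm_apply continuous_const) ((hc.fderiv_apply ℝ v).fderiv_apply ℝ v)
  have h0 := hi (fun z => μ ^ 2 * f z) (hf.continuous.const_mul _)
    (hc.mul_left (f := fun _ => μ ^ 2))
  obtain ⟨H, hH⟩ : ∃ H : ℂ → ℝ, H = fun z =>
    Gr μ z * (μ ^ 2 * f z) - l1 (μ * ‖z‖) * fderiv ℝ f z z / (2 * π * ‖z‖ ^ 2) := ⟨_, rfl⟩
  have eH : H = fun z => Gr μ z * (μ ^ 2 * f z) -
      (l1 (μ * ‖z‖) * rdot z 1 / (2 * π * ‖z‖ ^ 2) * fderiv ℝ f z 1 +
        l1 (μ * ‖z‖) * rdot z I / (2 * π * ‖z‖ ^ 2) * fderiv ℝ f z I) := by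
    funext z
    simp only [hH, fd_split f z z, rdot]
    simp
    ring
  have i1 := integral_sub h0 ((hd 1).add (hd I))
  have i2 := integral_sub h0 ((hw 1).1.add (hw I).1)
  simp only [Pi.add_apply] at i1 i2
  have e1 : ∫ z, Gr μ z * (μ ^ 2 * f z - lap f z) = ∫ z, H z := by
    simp only [eH, lap, mul_sub, mul_add]
    rw [i1, i2, integral_add (hd 1) (hd I), integral_add (hw 1).1 (hw I).1, (hw 1).2, (hw I).2]
  have hf1 : Continuous fun z => fderiv ℝ f z z :=
    (hf.continuous_fderiv two_ne_zero).clm_apply continuous_id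
  have hHm : Measurable H := by
    rw [hH]
    exact (hm.mul (hf.continuous.measurable.const_mul _)).sub
      (((hA.2.2.2.2.2.2.1.comp (measurable_norm.const_mul μ)).mul hf1.measurable).div
        ((measurable_norm.pow_const 2).const_mul _))
  have hHi : Integrable H := by
    rw [eH]
    exact h0.sub ((hw 1).1.add (hw I).1)
  rw [e1, polar H hHm hHi (f 0 / (2 * π)) fun e he =>
    ray hA hμ f (hf.differentiable two_ne_zero) hc he _ fun r hr => ?_]
  · field_simp
  · have e2 : fderiv ℝ f (r * e) (r * e) = r * fderiv ℝ f (r * e) e := by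
      rw [← smul_eq_mul r, ← map_smul, real_smul]
    simp only [hH, Gr, e2, norm_mul, he, norm_real, Real.norm_eq_abs, abs_of_pos hr, mul_one]
    field_simp

theorem lap_tr (f : ℂ → ℝ) (x z : ℂ) : lap (fun z => f (z + x)) z = lap f (z + x) := by
  have e : ∀ v, fderiv ℝ (fun z => fderiv ℝ (fun z => f (z + x)) z v) z =
      fderiv ℝ (fun z => fderiv ℝ f z v) (z + x) := fun v => by
    rw [← fderiv_comp_add_right]
    simp only [fderiv_comp_add_right]
  simp only [lap, e]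

theorem gr_sub (μ : ℝ) (x z : ℂ) : Gr μ (x - z) = Gr μ (z - x) := by rw [Gr, Gr, norm_sub_rev]

theorem whole (hA : St_A3) {μ : ℝ} (hμ : 0 < μ) (hG : Integrable (Gr μ))
    (hm : Measurable (Gr μ)) (f : ℂ → ℝ) (hf : ContDiff ℝ 2 f) (hc : HasCompactSupport f)
    (x : ℂ) : ∫ z, Gr μ (x - z) * (μ ^ 2 * f z - lap f z) = f x := by
  have h := at_zero hA hμ hG hm (fun z => f (z + x)) (hf.comp (contDiff_id.add contDiff_const))
    (hc.comp_homeomorph (Homeomorph.addRight x))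
  rw [← integral_add_right_eq_self _ x]
  simpa only [gr_sub μ x, add_sub_cancel_right, zero_add, lap_tr] using h

theorem away (hL : St_LAY) {μ : ℝ} (hμ : 0 < μ) {Ω : Set ℂ} {γ : ℝ → ℂ} (hC : CD Ω γ) {x : ℂ}
    (hx : x ∉ range γ) {g : ℂ → ℝ} (hg : ContDiff ℝ 2 g) (h0 : g =ᶠ[𝓝 x] 0) :
    (∫ z in Ω, Gr μ (x - z) * (μ ^ 2 * g z - lap g z)) + ∫ t in (0 : ℝ)..(2 * π),
      (Gr μ (x - γ t) * fderiv ℝ g (γ t) (-nr γ t) + DLk μ γ x t * g (γ t)) = 0 := by
  obtain ⟨⟨-, hH⟩, hS, -, -, -, -, hF⟩ := (hL μ hμ).1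
  set G : ℂ → ℝ := fun z => Gr μ (z - x) with hG
  have hGs : ∀ z ≠ x, ContDiffAt ℝ 2 G z := fun z hz =>
    ((hS.contDiffAt (isOpen_compl_singleton.mem_nhds (sub_ne_zero.2 hz))).of_le
      (WithTop.coe_le_coe.2 le_top)).comp z (contDiffAt_id.sub contDiffAt_const)
  set a : ℂ → ℂ → ℝ := fun v z => G z * fderiv ℝ g z v - g z * fderiv ℝ G z v with ha
  have a0 : ∀ v, a v =ᶠ[𝓝 x] 0 := fun v => by
    filter_upwards [h0, h0.fderiv (𝕜 := ℝ)] with z h1 h2
    simp [ha, h1, h2]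
  have a1 : ∀ v, ContDiff ℝ 1 (a v) := fun v => contDiff_iff_contDiffAt.2 fun z => by
    by_cases hz : z = x
    · exact hz ▸ contDiffAt_const.congr_of_eventuallyEq (a0 v)
    · exact (((hGs z hz).of_le one_le_two).mul (cd_fd hg.contDiffAt v)).sub
        ((hg.contDiffAt.of_le one_le_two).mul (cd_fd (hGs z hz) v))
  have a2 : ∀ z, fderiv ℝ (a 1) z 1 + fderiv ℝ (a I) z I = -(G z * (μ ^ 2 * g z - lap g z)) := by
    intro z
    by_cases hz : z = x
    · subst hz
      rw [(a0 1).fderiv_eq, (a0 I).fderiv_eq, lap_cg h0, h0.self_of_nhds]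
      simp [lap]
    · have e : ∀ v, fderiv ℝ (a v) z v = G z * fderiv ℝ (fun z => fderiv ℝ g z v) z v -
          g z * fderiv ℝ (fun z => fderiv ℝ G z v) z v := fun v => by
        have := ((((hGs z hz).differentiableAt two_ne_zero).hasFDerivAt.mul
          ((cd_fd hg.contDiffAt v).differentiableAt one_ne_zero).hasFDerivAt).sub
          ((hg.differentiable two_ne_zero z).hasFDerivAt.mul
          ((cd_fd (hGs z hz) v).differentiableAt one_ne_zero).hasFDerivAt)).fderiv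
        refine (congrArg (fun T : ℂ →L[ℝ] ℝ => T v) this).trans ?_
        simp only [sub_apply, add_apply, smul_apply, smul_eq_mul]
        ring
      have e2 : lap G z = μ ^ 2 * G z := by
        rw [hG, ← hH _ (sub_ne_zero.2 hz)]
        simp only [sub_eq_add_neg, lap_tr]
      rw [e, e, lap]
      rw [lap] at e2
      linear_combination -g z * e2
  have h := hC.div (fun z => (a 1 z : ℂ) + a I z * I)
    ((ofRealCLM.contDiff.comp (a1 1)).add ((ofRealCLM.contDiff.comp (a1 I)).mul contDiff_const))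
  have e1 : ∀ z, (fderiv ℝ (fun z => (a 1 z : ℂ) + a I z * I) z 1).re +
      (fderiv ℝ (fun z => (a 1 z : ℂ) + a I z * I) z I).im =
        -(Gr μ (x - z) * (μ ^ 2 * g z - lap g z)) := fun z => by
    have := ((ofRealCLM.hasFDerivAt.comp z ((a1 1).differentiable one_ne_zero z).hasFDerivAt).add
      ((ofRealCLM.hasFDerivAt.comp z
        ((a1 I).differentiable one_ne_zero z).hasFDerivAt).mul_const I)).fderiv
    rw [gr_sub, ← a2]
    erw [this]
    simp
  simp only [e1, integral_neg] at h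
  rw [add_comm, ← sub_neg_eq_add, h, sub_eq_zero]
  refine intervalIntegral.integral_congr fun t _ => ?_
  have ht : γ t - x ≠ 0 := sub_ne_zero.2 fun h => hx ⟨t, h⟩
  have e2 : fderiv ℝ G (γ t) (-nr γ t) = -DLk μ γ x t := by
    rw [hG, fderiv_comp_sub, (hF _ ht).2, DLk]
    simp only [rdot, mul_re, conj_re, conj_im]
    ring
  have e3 : DLk μ γ x t = -fderiv ℝ G (γ t) (-nr γ t) := by rw [e2, neg_neg]
  simp only [gr_sub μ x, e3, fd_split _ _ (-nr γ t), ha, rdot]
  simp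
  ring

end GRN

open GRN in
theorem st_grn (hA : St_A3) (hL : St_LAY) : St_GRN := by
  intro μ hμ
  obtain ⟨-, -, hm, hG, -⟩ := (hL μ hμ).1
  refine ⟨fun f hf hc x => whole hA hμ hG hm f hf hc x, fun Ω γ O u x hC hO hΩ hu hx => ?_⟩
  obtain ⟨ψ, h0, h1, -⟩ := exists_contMDiffMap_zero_one_nhds_of_isClosed 𝓘(ℝ, ℂ) (n := 2)
    hO.isClosed_compl isClosed_closure (disjoint_compl_left_iff_subset.2 hΩ)
  have hψ : ContDiff ℝ 2 ψ := ψ.contMDiff.contDiff
  set w : ℂ → ℝ := fun z => ψ z * u z with hw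
  have hw2 : ContDiff ℝ 2 w := contDiff_iff_contDiffAt.2 fun z => by
    by_cases hz : z ∈ O
    · exact hψ.contDiffAt.mul (hu.contDiffAt (hO.mem_nhds hz))
    · refine (contDiffAt_const (c := 0)).congr_of_eventuallyEq ?_
      filter_upwards [h0.filter_mono (nhds_le_nhdsSet hz)] with y hy
      simp [hw, hy]
  have hwu : ∀ z ∈ closure Ω, u =ᶠ[𝓝 z] w := fun z hz => by
    filter_upwards [h1.filter_mono (nhds_le_nhdsSet hz)] with y hy
    simp [hw, hy]
  obtain ⟨U, hU, hxU, hUf, hUΩ⟩ : ∃ U, IsOpen U ∧ x ∈ U ∧ (∀ t, γ t ∉ U) ∧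
      (U = Ω ∨ x ∉ Ω ∧ Disjoint U Ω) := by
    have hf : ∀ t, γ t ∈ frontier Ω := fun t => hC.fr ▸ mem_range_self t
    by_cases h : x ∈ Ω
    · exact ⟨Ω, hC.opn, h, fun t => (hC.opn.frontier_eq ▸ hf t).2, Or.inl rfl⟩
    · exact ⟨(closure Ω)ᶜ, isClosed_closure.isOpen_compl,
        fun h' => hx (hC.fr ▸ hC.opn.frontier_eq ▸ ⟨h', h⟩), fun t ht => ht (hf t).1,
        Or.inr ⟨h, disjoint_compl_left_iff_subset.2 subset_closure⟩⟩
  obtain ⟨r, hr, hrU⟩ := Metric.nhds_basis_closedBall.mem_iff.1 (hU.mem_nhds hxU)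
  let χ : ContDiffBump x := ⟨r / 2, r, half_pos hr, half_lt_self hr⟩
  set f : ℂ → ℝ := fun z => χ z * w z with hf
  have hf2 : ContDiff ℝ 2 f := χ.contDiff.mul hw2
  have hf0 : ∀ z ∉ U, f =ᶠ[𝓝 z] 0 := fun z hz => notMem_tsupport_iff_eventuallyEq.1 fun h =>
    hz (hrU (χ.tsupport_eq ▸ tsupport_mul_subset_left h))
  have hf1 : ∀ z ∉ U, Gr μ (x - z) * (μ ^ 2 * f z - lap f z) = 0 := fun z hz => by
    rw [lap_cg (hf0 z hz), (hf0 z hz).self_of_nhds]
    simp [lap]
  have hg2 : ContDiff ℝ 2 (w - f) := hw2.sub hf2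
  have hfx : f =ᶠ[𝓝 x] w := χ.eventuallyEq_one.mono fun z hz => by simp [hf, hz]
  have hi : ∀ g : ℂ → ℝ, ContDiff ℝ 2 g →
      IntegrableOn (fun z => Gr μ (x - z) * (μ ^ 2 * g z - lap g z)) Ω := fun g hg =>
    ((hG.comp_sub_left x).integrableOn.mul_continuousOn
      ((continuous_const.mul hg.continuous).sub (lap_cont hg)).continuousOn
      hC.bdd.isCompact_closure).mono_set subset_closure
  have e1 := away hL hμ hC hx hg2 (hfx.mono fun z hz => by simp [hz])
  have e2 : ∫ z in Ω, Gr μ (x - z) * (μ ^ 2 * u z - lap u z) =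
      (∫ z in Ω, Gr μ (x - z) * (μ ^ 2 * f z - lap f z)) +
        ∫ z in Ω, Gr μ (x - z) * (μ ^ 2 * (w - f) z - lap (w - f) z) := by
    rw [← integral_add (hi f hf2) (hi _ hg2)]
    refine setIntegral_congr_fun hC.opn.measurableSet fun z hz => ?_
    have h2 := lap_add hf2 hg2 z
    rw [add_sub_cancel] at h2
    simp only [lap_cg (hwu z (subset_closure hz)), (hwu z (subset_closure hz)).self_of_nhds, h2,
      Pi.sub_apply]
    ring
  have e3 : ∫ z in Ω, Gr μ (x - z) * (μ ^ 2 * f z - lap f z) = Ω.indicator u x := by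
    rcases hUΩ with rfl | ⟨h2, h3⟩
    · rw [setIntegral_eq_integral_of_forall_compl_eq_zero hf1,
        whole hA hμ hG hm f hf2 χ.hasCompactSupport.mul_right, indicator_of_mem hxU,
        hfx.self_of_nhds, (hwu x (subset_closure hxU)).self_of_nhds]
    · rw [indicator_of_notMem h2]
      exact setIntegral_eq_zero_of_forall_eq_zero fun z hz => hf1 z (h3.notMem_of_mem_right hz)
  rw [e2, e3, add_assoc]
  refine (add_zero _).symm.trans (congrArg _ (e1.symm.trans (congrArg _ ?_)))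
  refine intervalIntegral.integral_congr fun t _ => ?_
  have h2 : w - f =ᶠ[𝓝 (γ t)] u := by
    filter_upwards [hf0 _ (hUf t), hwu (γ t) (frontier_subset_closure (hC.fr ▸ mem_range_self t))]
      with z h3 h4
    simp [h3, h4]
  simp only [h2.fderiv_eq, h2.self_of_nhds]

end Pool.Agent.Lib.IS2
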