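import Pool.Agent.Lib.IS2.B_H11

/-! The low pass of a curve with a tone. -/

open scoped ContDiff ComplexConjugate Topology Real
open Complex MeasureTheory Set Filter

noncomputable section

namespace Pool.Agent.Lib.IS2

open Pool.Agent.Lib.ISO

namespace H1

variable {f : ℝ → ℂ}

theorem hd_sum (N : ℕ) (c : ℤ → ℂ) (v : ℂ) :
    HasDerivAt (fun v : ℂ => ∑ ξ ∈ Finset.Icc (-(N : ℤ)) N, c ξ * exp (I * ξ * v))
      (∑ ξ ∈ Finset.Icc (-(N : ℤ)) N, I * ξ * c ξ * exp (I * ξ * v)) v :=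
  HasDerivAt.fun_sum fun ξ _ =>
    ((((hasDerivAt_id v).const_mul (I * ξ)).cexp).const_mul (c ξ)).congr_deriv (by simp; ring)

theorem lo_hd (hf : ContDiff ℝ ∞ f) (hp : Function.Periodic f (2 * π)) (N : ℕ) (v : ℂ) :
    HasDerivAt (lo N f) (lo N (deriv f) v) v := by
  refine ((hd_sum N (fcc f) v).prodMk (hd_sum N (fun ξ => conj (fcc f (-ξ))) v)).congr_deriv ?_
  simp [lo, fcc_deriv hf hp]

theorem lo_deriv (hf : ContDiff ℝ ∞ f) (hp : Function.Periodic f (2 * π)) (N : ℕ) :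
    deriv (lo N f) = lo N (deriv f) := funext fun v => (lo_hd hf hp N v).deriv

theorem lo_per (N : ℕ) (f : ℝ → ℂ) (v : ℂ) : lo N f (v + 2 * π) = lo N f v := by
  simp only [lo, mul_add, exp_add, ex_two_pi, mul_one]

theorem lo_two (N : ℕ) (f : ℝ → ℂ) (s : ℝ) : (lo N f s).2 = conj (lo N f s).1 := by
  simp only [lo, map_sum]
  refine Finset.sum_bijective (fun ξ => -ξ) neg_involutive.bijective (fun ξ => ?_) fun ξ _ => ?_
  · simp only [Finset.mem_Icc]
    omega
  · simp [← exp_conj]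

theorem rs_mem (N : ℕ) (f : ℝ → ℂ) : rs (lo N f) ∈ SP := by
  have e : ContDiff ℝ ∞ fun s : ℝ => (s : ℂ) := ofRealCLM.contDiff
  refine ⟨ContDiff.prodMk ?_ ?_, fun s => ?_⟩
  · exact ContDiff.sum fun ξ _ => contDiff_const.mul (contDiff_const.mul e).cexp
  · exact ContDiff.sum fun ξ _ => contDiff_const.mul (contDiff_const.mul e).cexp
  · simp only [rs]
    push_cast
    exact lo_per N f s

theorem Zc_sm (hf : ContDiff ℝ ∞ f) (N : ℕ) : ContDiff ℝ ∞ (Zc N f) := hf.sub (rs_mem N f).1.fst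

theorem Zc_per (hp : Function.Periodic f (2 * π)) (N : ℕ) : Function.Periodic (Zc N f) (2 * π) :=
  fun s => by
    have := (rs_mem N f).2 s
    simp only [rs] at this
    simp only [Zc, hp s, this]

theorem Zc_deriv (hf : ContDiff ℝ ∞ f) (hp : Function.Periodic f (2 * π)) (N : ℕ) :
    deriv (Zc N f) = Zc N (deriv f) := funext fun s => by
  refine (((contDiff_infty_iff_deriv.1 hf).1 s).hasDerivAt.sub
    (hd_sum N (fcc f) s).comp_ofReal).deriv.trans ?_
  simp only [Zc, lo, fcc_deriv hf hp]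

theorem tp1 (N : ℕ) (f : ℝ → ℂ) {ε : ℤ} (hε : ε = 1 ∨ ε = -1) : Tp ε N fun v => (lo N f v).1 :=
  Tp.sum hε N _

theorem tp2 (N : ℕ) (f : ℝ → ℂ) {ε : ℤ} (hε : ε = 1 ∨ ε = -1) : Tp ε N fun v => (lo N f v).2 :=
  Tp.sum hε N fun ξ => conj (fcc f (-ξ))

theorem lo_le {N : ℕ} {A δ : ℝ} (h1 : ∀ s, ‖f s‖ ≤ A) (h2 : ∀ s, ‖Zc N f s‖ ≤ δ) (v : ℂ) :
    ‖lo N f v‖ ≤ (A + δ) * Real.exp (N * |v.im|) := by
  have h3 : ∀ s : ℝ, ‖(lo N f s).1‖ ≤ A + δ := fun s => by
    rw [show (lo N f s).1 = f s - Zc N f s by simp [Zc]]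
    exact (norm_sub_le _ _).trans (add_le_add (h1 s) (h2 s))
  exact norm_prod_le_iff.2 ⟨strip (fun ε => tp1 N f) h3 v,
    strip (fun ε => tp2 N f) (fun s => by rw [lo_two, RCLike.norm_conj]; exact h3 s) v⟩

theorem z_le (hf : ContDiff ℝ ∞ f) (hp : Function.Periodic f (2 * π)) (N n : ℕ) {A : ℝ}
    (hA : 0 ≤ A) (h : ∫ s in (0 : ℝ)..(2 * π), ‖iteratedDeriv (n + 4) f s‖ ^ 2 ≤ A ^ 2) {k : ℕ}
    (hk : k ≤ 2) (s : ℝ) : ‖Zc N (iteratedDeriv k f) s‖ ≤ 4 * A / (N + 1) ^ (n + 1) := by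
  refine (tail_le (sm_iter hf k) (per_iter hp k) N (L := A / (N + 1) ^ n) (by positivity)
    (fun ξ hξ => ?_) s).trans_eq (by field_simp; ring)
  have h1 := fcc_le (sm_iter hf (n + 4)).continuous hA h ξ
  have h2 : (N : ℝ) + 1 ≤ |(ξ : ℝ)| := by exact_mod_cast hξ
  have h3 : 1 ≤ |(ξ : ℝ)| := le_trans (by linarith [Nat.cast_nonneg (α := ℝ) N]) h2
  rw [norm_iter hf hp] at h1 ⊢
  rw [← sq_abs, ← div_eq_mul_inv, div_div, le_div_iff₀ (by positivity)]
  refine le_trans ?_ h1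
  calc _ ≤ |(ξ : ℝ)| ^ 2 * ‖fcc f ξ‖ * (|(ξ : ℝ)| ^ n * |(ξ : ℝ)| ^ 2) := by gcongr
    _ = _ := by ring

variable {q : ℕ} {h : ℝ}

theorem xi_le (hh : 1 ≤ h) : (Xi q h : ℝ) ≤ om q h / h ^ 2 :=
  Nat.floor_le (by unfold om; positivity)

theorem lt_xi : om q h / h ^ 2 < Xi q h + 1 := Nat.lt_floor_add_one _

theorem le_om (hq : 1 ≤ q) (hh : 1 ≤ h) : h ≤ om q h := le_self_pow₀ hh (by omega)

theorem amp_eq {M W : ℕ} (hW : (W : ℝ) ^ 2 = om q h) : amp M W = (om q h ^ M)⁻¹ := by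
  rw [amp, pow_mul, hW]

theorem one_le_W {W : ℕ} (hh : 1 ≤ h) (hW : (W : ℝ) ^ 2 = om q h) : 1 ≤ W := by
  rcases Nat.eq_zero_or_pos W with rfl | h0
  · have : 1 ≤ om q h := one_le_pow₀ hh
    rw [← hW] at this
    norm_num at this
  · exact h0

end H1

open H1 in
theorem st_h1 (h0 : St_H0) : St_H1 := by
  intro j
  refine ⟨2 * (j + 1), fun K M q hM hq => ?_⟩
  obtain ⟨C, hC⟩ := h0 j K M (by omega)
  set A := |C| + 1 with hA
  have hA1 : 1 ≤ A := by linarith [abs_nonneg C]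
  refine ⟨12 * A, max 400 (24 * A), fun h hh W γ a0 hW hγ hT => ?_⟩
  have h400 : 400 ≤ h := (le_max_left _ _).trans hh
  have h24 : 24 * A ≤ h := (le_max_right _ _).trans hh
  have h1 : 1 ≤ h := by linarith
  have ho := le_om (q := q) (by omega) h1
  have ho1 : 1 ≤ om q h := h1.trans ho
  have ha := H0.amp_nn M W
  obtain ⟨-, c2, -⟩ := hC W γ a0 (one_le_W h1 hW) hγ hT
  have hX : XX M W = amp M W * om q h ^ (2 * M + 4) := by rw [XX, hW]
  have hz : ∀ k ≤ 2, ∀ s, ‖Zc (Xi q h) (iteratedDeriv k γ) s‖ ≤ 4 * A * amp M W * om q h ^ 2 := by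
    intro k hk s
    refine (z_le hγ.smooth hγ.per (Xi q h) (2 * M + 2) (A := A * XX M W) (by rw [hX]; positivity)
      (c2.trans ?_) hk s).trans ?_
    · rw [mul_pow]
      exact mul_le_mul_of_nonneg_right (by nlinarith [le_abs_self C, abs_nonneg C]) (sq_nonneg _)
    · have a1 : (h ^ 2) ^ (2 * M + 3) ≤ om q h := by
        rw [← pow_mul]
        exact pow_le_pow_right₀ h1 (by omega)
      calc _ ≤ 4 * (A * XX M W) / (om q h / h ^ 2) ^ (2 * M + 2 + 1) := by
            rw [hX]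
            gcongr
            exact lt_xi.le
        _ = 4 * A * amp M W * (om q h * (h ^ 2) ^ (2 * M + 3)) := by
            rw [hX, div_pow]
            field_simp
            ring
        _ ≤ 4 * A * amp M W * (om q h * om q h) := by gcongr
        _ = _ := by ring
  have hδ : 4 * A * amp M W * om q h ^ 2 ≤ (6 * om q h)⁻¹ := by
    rw [amp_eq hW, ← one_div (6 * _), le_div_iff₀ (by positivity)]
    have a1 : om q h ^ 4 ≤ om q h ^ M := pow_le_pow_right₀ ho1 (by omega)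
    calc _ = 24 * A * om q h ^ 3 / om q h ^ M := by ring
      _ ≤ om q h * om q h ^ 3 / om q h ^ 4 := by gcongr; linarith
      _ = 1 := by field_simp
  have hδ' : (6 * om q h)⁻¹ ≤ 1 / 6 := by
    rw [← one_div]
    gcongr
    linarith
  have hE : ∀ v : ℂ, |v.im| ≤ 100 * h / om q h → Real.exp (Xi q h * |v.im|) ≤ 4 / 3 := by
    intro v hv
    have a1 : (Xi q h : ℝ) * |v.im| ≤ 1 / 4 :=
      calc _ ≤ om q h / h ^ 2 * (100 * h / om q h) := by
            gcongr
            exact xi_le h1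
        _ = 100 / h := by field_simp
        _ ≤ 1 / 4 := by
            rw [div_le_div_iff₀ (by linarith) (by norm_num)]
            linarith
    refine (Real.exp_le_exp.2 a1).trans ?_
    exact (Real.exp_bound_div_one_sub_of_interval (by norm_num) (by norm_num)).trans (by norm_num)
  have z0 := hz 0 (by norm_num)
  have z1 := hz 1 (by norm_num)
  have z2 := hz 2 le_rfl
  rw [iteratedDeriv_zero] at z0
  rw [iteratedDeriv_one] at z1
  rw [iteratedDeriv_succ, iteratedDeriv_one] at z2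
  have p1 := per_deriv' hγ.per
  have d1 := lo_deriv hγ.smooth hγ.per (Xi q h)
  have d2 := lo_deriv hγ.s1 p1 (Xi q h)
  have hj := hγ.one_le
  refine ⟨⟨fun v => (lo_hd hγ.smooth hγ.per _ v).differentiableAt, lo_per _ _, fun v hv => ?_,
    fun v hv => ?_, fun v hv => ?_⟩, rs_mem _ _, Zc_sm hγ.smooth _, Zc_per hγ.per _, ?_, ?_⟩
  · rw [d1]
    refine (lo_le (fun s => (hγ.unit s).le) (fun s => (z1 s).trans (hδ.trans hδ')) v).trans ?_
    linarith [hE v hv]
  · rw [d1, d2]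
    refine (lo_le hγ.b2 (fun s => (z2 s).trans (hδ.trans hδ')) v).trans ?_
    nlinarith [hE v hv]
  · rw [d1]
    refine (strip (fun ε hε => (tp1 _ _ hε).mul_sub (tp2 _ _ hε)) (A := 3 * (6 * om q h)⁻¹)
      (fun s => ?_) v).trans ?_
    · have a1 := (z1 s).trans hδ
      have e : (lo (Xi q h) (deriv γ) s).1 = deriv γ s - Zc (Xi q h) (deriv γ) s := by simp [Zc]
      simp only [lo_two, e, map_sub]
      generalize Zc (Xi q h) (deriv γ) s = z at a1
      rw [show (deriv γ s - z) * (conj (deriv γ s) - conj z) - 1 =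
        z * conj z - (deriv γ s * conj z + z * conj (deriv γ s)) by
          linear_combination H0.mul_cj hγ s]
      refine (norm_sub_le _ _).trans ((add_le_add le_rfl (norm_add_le _ _)).trans ?_)
      simp only [norm_mul, RCLike.norm_conj, hγ.unit]
      nlinarith [norm_nonneg z]
    · have a1 : Real.exp ((2 * Xi q h : ℕ) * |v.im|) ≤ 2 := by
        rw [Nat.cast_mul, mul_assoc, Real.exp_nat_mul]
        nlinarith [hE v hv, Real.exp_pos (Xi q h * |v.im|)]
      calc _ ≤ 3 * (6 * om q h)⁻¹ * 2 := by gcongr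
        _ = _ := by field_simp; norm_num
  · funext s
    refine Prod.ext ?_ ?_
    · simp [cp, rs, Zc]
    · simp [cp, rs, Zc, lo_two]
  · refine nm_le fun s => ?_
    have s0 := Zc_sm hγ.smooth (Xi q h)
    have s1 := Zc_sm hγ.s1 (Xi q h)
    rw [deriv_cp (s0.differentiable (by simp)), Zc_deriv hγ.smooth hγ.per,
      deriv_cp (s1.differentiable (by simp)), Zc_deriv hγ.s1 p1]
    simp only [norm_cp]
    linarith [z0 s, z1 s, z2 s]

end Pool.Agent.Lib.IS2
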