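import Pool.Agent.Lib.IS2.B_H1

/-! The normal part of the high pass is the tone. -/

open scoped ContDiff ComplexConjugate Topology Real
open Complex MeasureTheory Set Filter

noncomputable section

namespace Pool.Agent.Lib.IS2

open Pool.Agent.Lib.ISO

namespace H2

theorem mult_far {o h η σ : ℝ} (ho : 0 < o) (hh : 1 ≤ h) (hσ : |σ| = o) (hη : o / h ^ 2 ≤ |η|) :
    |1 / o ^ 2 - 1 / η ^ 2| ≤ 2 * h ^ 4 / o ^ 3 * |η - σ| := by
  have h0 : 0 < |η| := lt_of_lt_of_le (by positivity) hη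
  have h1 : η ≠ 0 := abs_pos.1 h0
  rw [div_le_iff₀ (by positivity)] at hη
  have e : 1 / o ^ 2 - 1 / η ^ 2 = (η + σ) / (o ^ 2 * η ^ 2) * (η - σ) := by
    have : σ ^ 2 = o ^ 2 := by rw [← hσ, sq_abs]
    field_simp
    linarith
  rw [e, abs_mul]
  refine mul_le_mul_of_nonneg_right ?_ (abs_nonneg _)
  rw [abs_div, abs_of_pos (by positivity : 0 < o ^ 2 * η ^ 2), ← sq_abs η,
    div_le_div_iff₀ (by positivity) (by positivity)]
  have h2 : |η + σ| ≤ |η| + o := hσ ▸ abs_add_le η σ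
  have h3 : h ^ 2 ≤ h ^ 4 := pow_le_pow_right₀ hh (by norm_num)
  have h4 : |η| * o ≤ |η| ^ 2 * h ^ 4 := by nlinarith
  have h5 : o ^ 2 ≤ (|η| * h ^ 2) ^ 2 := pow_le_pow_left₀ ho.le hη 2
  calc _ ≤ (|η| + o) * o ^ 3 := by gcongr
    _ = (|η| * o + o ^ 2) * o ^ 2 := by ring
    _ ≤ (|η| ^ 2 * h ^ 4 + (|η| * h ^ 2) ^ 2) * o ^ 2 := by gcongr
    _ = _ := by ring

theorem mult_near {o h η σ : ℝ} (ho : 0 < o) (hh : 2 ≤ h) (hσ : |σ| = o) (hη : |η| ≤ o / h ^ 2) :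
    |1 / o ^ 2| ≤ 2 * h ^ 4 / o ^ 3 * |η - σ| := by
  have h1 : o / h ^ 2 ≤ o / 2 := by
    gcongr
    nlinarith
  have h2 : o / 2 ≤ |η - σ| := by
    have := abs_sub_abs_le_abs_sub σ η
    rw [abs_sub_comm] at this
    linarith
  have h3 : 1 ≤ h ^ 4 := one_le_pow₀ (by linarith)
  rw [abs_of_pos (by positivity)]
  calc _ = 2 * 1 / o ^ 3 * (o / 2) := by field_simp
    _ ≤ _ := by gcongr

theorem tn_eq (M W : ℕ) (a0 : ℂ) (s : ℝ) : (tn M W a0 0 s : ℂ) =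
    amp M W * a0 * exp (I * ((W : ℤ) ^ 2 : ℤ) * s) +
      amp M W * conj a0 * exp (I * (-(W : ℤ) ^ 2 : ℤ) * s) := by
  have := add_conj (a0 * exp (I * (W : ℂ) ^ 2 * s))
  rw [map_mul, ← exp_conj] at this
  simp only [map_mul, conj_I, map_pow, conj_natCast, conj_ofReal] at this
  simp only [tn, zero_mul, add_zero]
  push_cast at this ⊢
  rw [show I * -(W : ℂ) ^ 2 * s = -I * (W : ℂ) ^ 2 * s by ring]
  linear_combination (-amp M W : ℂ) * this

theorem three (x y z r : ℝ) (h0 : 0 ≤ r) (h : r ≤ x + y + z) :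
    r ^ 2 ≤ 3 * x ^ 2 + 3 * y ^ 2 + 3 * z ^ 2 := by
  have := pow_le_pow_left₀ h0 h 2
  nlinarith [sq_nonneg (x - y), sq_nonneg (y - z), sq_nonneg (x - z)]

end H2

open H1 H2 in
theorem st_h2 (h0 : St_H0) : St_H2 := by
  intro j K M q hM hq
  obtain ⟨C, hC⟩ := h0 j K M (by omega)
  refine ⟨3 * |C| + 768 * j ^ 2, 2, fun h hh W γ a0 hW hγ hT => ?_⟩
  have h1 : 1 ≤ h := by linarith
  have ho1 : 1 ≤ om q h := one_le_pow₀ h1
  have ha := H0.amp_nn M W
  have hW1 := one_le_W h1 hW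
  have hW2 : (1 : ℝ) ≤ W := by exact_mod_cast hW1
  obtain ⟨-, -, c3⟩ := hC W γ a0 hW1 hγ hT
  have p1 := per_deriv' hγ.per
  have sZ := Zc_sm hγ.smooth (Xi q h)
  have sρ : ContDiff ℝ ∞ (rho q h γ) :=
    reCLM.contDiff.comp (sZ.mul (conjCLE.contDiff.comp (contDiff_const.mul hγ.s1)))
  refine ⟨⟨sρ, fun s => by simp only [rho, nr, Zc_per hγ.per _ s, p1 s]⟩, ?_⟩
  set o := om q h with ho
  set N := Xi q h with hN
  set t := tn M W a0 0 with ht
  have st : ContDiff ℝ ∞ t := H0.tn_sm M W a0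
  have pt : ∀ s, (t (s + 2 * π) : ℂ) = t s := fun s => by
    simp only [ht, tn_eq, ofReal_add, ofReal_mul, ofReal_ofNat, mul_add, exp_add, ex_two_pi,
      mul_one]
  set u : ℝ → ℂ := fun s => ((kp γ s - t s : ℝ) : ℂ) * deriv γ s with hu
  set v : ℝ → ℂ := fun s => (t s : ℂ) * deriv γ s with hv
  have su : ContDiff ℝ ∞ u := (ofRealCLM.contDiff.comp ((H0.smk hγ).sub st)).mul hγ.s1
  have sv : ContDiff ℝ ∞ v := (ofRealCLM.contDiff.comp st).mul hγ.s1
  have pu : Function.Periodic u (2 * π) := fun s => by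
    simp only [hu, kp, ofReal_sub, pt, p1 s, per_deriv' p1 s]
  set R : ℝ → ℂ := fun s => Zc N γ s + I / o ^ 2 * v s with hR
  have cR : Continuous R := sZ.continuous.add (continuous_const.mul sv.continuous)
  have s2 := H0.sm2 hγ
  have e1 : ∀ η : ℤ, (η : ℂ) ^ 2 * fcc γ η = -I * (fcc u η + fcc v η) := fun η => by
    have a1 : deriv (deriv γ) = fun s => I * (u s + v s) := funext fun s => by
      rw [H0.frenet hγ]
      simp only [hu, hv]
      push_cast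
      ring
    have a2 := fcc_deriv hγ.s1 p1 η
    rw [fcc_deriv hγ.smooth hγ.per, a1, fcc_mul, fcc_add su.continuous sv.continuous] at a2
    linear_combination a2 + (η : ℂ) ^ 2 * fcc γ η * I_sq
  set E : ℤ → ℝ → ℂ := fun k s => exp (I * k * s) * deriv (deriv γ) s with hE
  have cE : ∀ k, Continuous (E k) := fun k => Continuous.mul (by fun_prop) s2.continuous
  have e2 : ∀ k η : ℤ, ‖fcc (E k) η‖ = |(η : ℝ) - k| * ‖fcc (deriv γ) (η - k)‖ := fun k η => by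
    rw [hE, fcc_shift, fcc_deriv hγ.s1 p1, norm_mul, norm_mul, norm_I, one_mul, norm_intCast]
    push_cast
    rfl
  have e3 : ∀ η : ℤ, ‖fcc v η‖ ≤ 2 * amp M W * (‖fcc (deriv γ) (η - (W : ℤ) ^ 2)‖ +
      ‖fcc (deriv γ) (η - -(W : ℤ) ^ 2)‖) := fun η => by
    have a1 : v = fun s : ℝ => amp M W * a0 * (exp (I * ((W : ℤ) ^ 2 : ℤ) * s) * deriv γ s) +
        amp M W * conj a0 * (exp (I * (-(W : ℤ) ^ 2 : ℤ) * s) * deriv γ s) := funext fun s => by
      simp only [hv, ht, tn_eq]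
      ring
    have := hγ.s1.continuous
    rw [a1, fcc_add (by fun_prop) (by fun_prop), fcc_mul, fcc_mul, fcc_shift, fcc_shift]
    refine (norm_add_le _ _).trans ?_
    simp only [norm_mul, RCLike.norm_conj, norm_real, Real.norm_of_nonneg ha]
    have b := hT.b0
    calc _ ≤ amp M W * 2 * ‖fcc (deriv γ) (η - (W : ℤ) ^ 2)‖ +
          amp M W * 2 * ‖fcc (deriv γ) (η - -(W : ℤ) ^ 2)‖ := by gcongr
      _ = _ := by ring
  set c1 := (h ^ 2 / o) ^ (2 * M + 6) with hc1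
  set c2 := 2 * amp M W * (2 * h ^ 4 / o ^ 3) with hc2
  have e4 : ∀ (η : ℤ) (μ : ℝ), (∀ σ : ℝ, |σ| = o → |μ| ≤ 2 * h ^ 4 / o ^ 3 * |η - σ|) →
      |μ| * ‖fcc v η‖ ≤ c2 * ‖fcc (E ((W : ℤ) ^ 2)) η‖ + c2 * ‖fcc (E (-(W : ℤ) ^ 2)) η‖ := by
    intro η μ hμ
    have a1 := hμ ((W : ℤ) ^ 2 : ℤ) (by push_cast; rw [hW, abs_of_pos (by linarith)])
    have a2 := hμ (-(W : ℤ) ^ 2 : ℤ) (by push_cast; rw [hW, abs_neg, abs_of_pos (by linarith)])
    rw [e2, e2, hc2]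
    calc _ ≤ |μ| * (2 * amp M W * (‖fcc (deriv γ) (η - (W : ℤ) ^ 2)‖ +
          ‖fcc (deriv γ) (η - -(W : ℤ) ^ 2)‖)) := by gcongr; exact e3 η
      _ = 2 * amp M W * (|μ| * ‖fcc (deriv γ) (η - (W : ℤ) ^ 2)‖ +
          |μ| * ‖fcc (deriv γ) (η - -(W : ℤ) ^ 2)‖) := by ring
      _ ≤ 2 * amp M W * (2 * h ^ 4 / o ^ 3 * |(η : ℝ) - ((W : ℤ) ^ 2 : ℤ)| *
          ‖fcc (deriv γ) (η - (W : ℤ) ^ 2)‖ + 2 * h ^ 4 / o ^ 3 * |(η : ℝ) - (-(W : ℤ) ^ 2 : ℤ)| *
          ‖fcc (deriv γ) (η - -(W : ℤ) ^ 2)‖) := by gcongr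
      _ = _ := by ring
  have e5 : ∀ η : ℤ, ‖fcc R η‖ ≤ c1 * ‖fcc (iteratedDeriv (2 * M + 4) u) η‖ +
      c2 * ‖fcc (E ((W : ℤ) ^ 2)) η‖ + c2 * ‖fcc (E (-(W : ℤ) ^ 2)) η‖ := fun η => by
    rw [hR, fcc_add (g := fun s => I / o ^ 2 * v s) sZ.continuous
      (continuous_const.mul sv.continuous), fcc_mul, fcc_Zc hγ.smooth.continuous, add_assoc]
    split_ifs with hη
    · have a1 : |(η : ℝ)| ≤ o / h ^ 2 := le_trans (by exact_mod_cast hη) (xi_le h1)
      refine le_trans ?_ ((e4 η _ fun σ hσ => mult_near (by linarith) hh hσ a1).trans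
        (le_add_of_nonneg_left (by positivity)))
      simp
    · have a0 : (N : ℝ) + 1 ≤ |(η : ℝ)| := by exact_mod_cast not_le.1 hη
      have a1 : o / h ^ 2 ≤ |(η : ℝ)| := lt_xi.le.trans a0
      have a2 : 0 < |(η : ℝ)| := lt_of_lt_of_le (by positivity) a1
      have a3 : (η : ℂ) ≠ 0 := by exact_mod_cast abs_pos.1 a2
      have a4 : fcc γ η + I / o ^ 2 * fcc v η = -I * (fcc u η / (η : ℂ) ^ 2) +
          I * (((1 / o ^ 2 - 1 / (η : ℝ) ^ 2 : ℝ) : ℂ) * fcc v η) := by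
        have := eq_div_of_mul_eq (pow_ne_zero 2 a3) ((mul_comm _ _).trans (e1 η))
        rw [this]
        push_cast
        ring
      rw [a4]
      refine (norm_add_le _ _).trans (add_le_add ?_ ?_)
      · rw [norm_iter su pu, norm_mul, norm_neg, norm_I, one_mul, norm_div, norm_pow, norm_intCast,
          div_le_iff₀ (by positivity)]
        have a5 : 1 ≤ h ^ 2 / o * |(η : ℝ)| := by
          rw [div_le_iff₀ (by positivity)] at a1
          rw [div_mul_eq_mul_div, le_div_iff₀ (by positivity)]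
          linarith
        calc _ ≤ (h ^ 2 / o * |(η : ℝ)|) ^ (2 * M + 6) * ‖fcc u η‖ :=
              le_mul_of_one_le_left (norm_nonneg _) (one_le_pow₀ a5)
          _ = _ := by rw [hc1, mul_pow]; ring
      · rw [norm_mul, norm_I, one_mul, norm_mul, norm_real, Real.norm_eq_abs]
        exact e4 η _ fun σ hσ => mult_far (by linarith) h1 hσ a1
  have iE : ∀ k, ∫ s in (0 : ℝ)..(2 * π), ‖E k s‖ ^ 2 ≤ 8 * j ^ 2 := fun k => by
    refine (intervalIntegral.integral_mono_on (g := fun _ => j ^ 2) Real.two_pi_pos.le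
      (((cE k).norm.pow 2).intervalIntegrable _ _) (by simp) fun s _ => ?_).trans ?_
    · simp only [hE, norm_mul, norm_ex, one_mul]
      exact pow_le_pow_left₀ (norm_nonneg _) (hγ.b2 s) 2
    · simp only [intervalIntegral.integral_const, sub_zero, smul_eq_mul]
      nlinarith [Real.pi_le_four, sq_nonneg j]
  have key := hasSum_le (fun η => (three _ _ _ _ (norm_nonneg _) (e5 η)).trans_eq (by ring))
    (parseval cR) ((((parseval (sm_iter su (2 * M + 4)).continuous).mul_left (3 * c1 ^ 2)).add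
      ((parseval (cE ((W : ℤ) ^ 2))).mul_left (3 * c2 ^ 2))).add
      ((parseval (cE (-(W : ℤ) ^ 2))).mul_left (3 * c2 ^ 2)))
  simp only [mul_left_comm _ (2 * π)⁻¹, ← mul_add] at key
  replace key := le_of_mul_le_mul_left key (by positivity)
  have b1 : ∫ s in (0 : ℝ)..(2 * π), (rho q h γ s + t s / o ^ 2) ^ 2 ≤
      ∫ s in (0 : ℝ)..(2 * π), ‖R s‖ ^ 2 := by
    refine intervalIntegral.integral_mono_on Real.two_pi_pos.le
      (((sρ.continuous.add (st.continuous.div_const _)).pow 2).intervalIntegrable _ _)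
      ((cR.norm.pow 2).intervalIntegrable _ _) fun s _ => ?_
    have a1 : R s * conj (nr γ s) = Zc N γ s * conj (nr γ s) + (t s / o ^ 2 : ℝ) := by
      simp only [hR, hv, nr, map_mul, conj_I]
      push_cast
      linear_combination (t s / o ^ 2 : ℂ) * H0.mul_cj hγ s -
        (t s / o ^ 2 * (deriv γ s * conj (deriv γ s)) : ℂ) * I_sq
    have a2 : rho q h γ s + t s / o ^ 2 = (R s * conj (nr γ s)).re := by
      rw [a1, add_re, ofReal_re]
      rfl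
    rw [a2, ← sq_abs]
    refine pow_le_pow_left₀ (abs_nonneg _) ((abs_re_le_norm _).trans_eq ?_) 2
    simp [nr, hγ.unit]
  have b2 : c1 ^ 2 * (XX M W ^ 2 / W) = amp M W ^ 2 / o ^ 4 * (h ^ (8 * M + 24) / W) := by
    rw [hc1, XX, hW, div_pow]
    field_simp
    ring
  have b3 : c2 ^ 2 ≤ 16 * (amp M W ^ 2 / o ^ 4 * (h ^ (8 * M + 24) / W)) := by
    have a1 : h ^ 8 / o ^ 2 ≤ h ^ (8 * M + 24) / W := by
      have : (W : ℝ) ≤ o ^ 2 := by nlinarith
      gcongr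
      omega
    calc _ = 16 * (amp M W ^ 2 / o ^ 4 * (h ^ 8 / o ^ 2)) := by rw [hc2]; field_simp; ring
      _ ≤ _ := by gcongr
  have b4 : C * XX M W ^ 2 / W ≤ |C| * (XX M W ^ 2 / W) := by
    rw [mul_div_assoc]
    exact mul_le_mul_of_nonneg_right (le_abs_self C) (by positivity)
  rw [mul_assoc]
  calc _ ≤ 3 * c1 ^ 2 * (|C| * (XX M W ^ 2 / W)) + 3 * c2 ^ 2 * (8 * j ^ 2) +
        3 * c2 ^ 2 * (8 * j ^ 2) := by
        refine b1.trans (key.trans ?_)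
        gcongr
        · exact c3.trans b4
        · exact iE _
        · exact iE _
    _ = 3 * |C| * (c1 ^ 2 * (XX M W ^ 2 / W)) + 48 * j ^ 2 * c2 ^ 2 := by ring
    _ ≤ 3 * |C| * (c1 ^ 2 * (XX M W ^ 2 / W)) +
        48 * j ^ 2 * (16 * (amp M W ^ 2 / o ^ 4 * (h ^ (8 * M + 24) / W))) := by gcongr
    _ = _ := by rw [b2]; ring

end Pool.Agent.Lib.IS2
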