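import Pool.Agent.Lib.IS2.Blue

/-! Integrals of dominated holomorphic families are holomorphic. -/

open scoped Topology
open Complex MeasureTheory Set Filter Metric

noncomputable section

namespace Pool.Agent.Lib.IS2

namespace HI

variable {α : Type} [MeasurableSpace α] {ν : Measure α} {F : ℂ → α → ℂ} {U : Set ℂ} {g : α → ℝ}

open Classical in
theorem meas (hU : IsOpen U) (hm : ∀ ζ ∈ U, AEStronglyMeasurable (F ζ) ν)
    (hd : ∀ᵐ a ∂ν, DifferentiableOn ℂ (fun ζ => F ζ a) U) {ζ : ℂ} (hζ : ζ ∈ U) :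
    AEStronglyMeasurable (fun a => deriv (fun ζ => F ζ a) ζ) ν := by
  refine aestronglyMeasurable_of_tendsto_ae (𝓝[≠] (0 : ℂ))
    (f := fun t a => if ζ + t ∈ U then t⁻¹ • (F (ζ + t) a - F ζ a) else 0) (fun t => ?_) ?_
  · by_cases h : ζ + t ∈ U
    · exact (((hm _ h).sub (hm _ hζ)).const_smul t⁻¹).congr
        (Eventually.of_forall fun a => (if_pos h).symm)
    · exact (aestronglyMeasurable_const (b := (0 : ℂ))).congr
        (Eventually.of_forall fun a => (if_neg h).symm)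
  · have ev : ∀ᶠ t in 𝓝 (0 : ℂ), ζ + t ∈ U :=
      (Continuous.tendsto' (f := fun t : ℂ => ζ + t) (by fun_prop) 0 ζ (add_zero _))
        (hU.mem_nhds hζ)
    filter_upwards [hd] with a ha
    refine (ha.differentiableAt (hU.mem_nhds hζ)).hasDerivAt.tendsto_slope_zero.congr' ?_
    filter_upwards [nhdsWithin_le_nhds ev] with t ht
    rw [if_pos ht]

/-- the derivative is integrable too -/
theorem both (hU : IsOpen U) (hg : Integrable g ν) (hm : ∀ ζ ∈ U, AEStronglyMeasurable (F ζ) ν)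
    (h : ∀ᵐ a ∂ν, DifferentiableOn ℂ (fun ζ => F ζ a) U ∧ ∀ ζ ∈ U, ‖F ζ a‖ ≤ g a) {ζ : ℂ}
    (hζ : ζ ∈ U) : Integrable (fun a => deriv (fun ζ => F ζ a) ζ) ν ∧
      HasDerivAt (fun ζ => ∫ a, F ζ a ∂ν) (∫ a, deriv (fun ζ => F ζ a) ζ ∂ν) ζ := by
  obtain ⟨δ, hδ, hs⟩ := Metric.isOpen_iff.1 hU ζ hζ
  have h2 := half_pos hδ
  have hb : ∀ x ∈ ball ζ (δ / 2), ball x (δ / 2) ⊆ U := fun x hx =>
    (ball_subset_ball' (by linarith [mem_ball.1 hx])).trans hs
  refine hasDerivAt_integral_of_dominated_loc_of_deriv_le (F' := fun x a => deriv (F · a) x)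
    (bound := fun a => 2 * g a / (δ / 2)) (ball_mem_nhds ζ h2)
    (mem_of_superset (hU.mem_nhds hζ) hm) (hg.mono' (hm ζ hζ) (h.mono fun a ha => ha.2 ζ hζ))
    (meas hU hm (h.mono fun a ha => ha.1) hζ) (h.mono fun a ha x hx => ?_)
    ((hg.const_mul 2).div_const _) (h.mono fun a ha x hx => ?_)
  · refine norm_deriv_le_div_of_mapsTo_ball (ha.1.mono (hb x hx)) (fun z hz => ?_) h2
    rw [mem_closedBall, dist_eq_norm]
    linarith [norm_sub_le (F z a) (F x a), ha.2 z (hb x hx hz), ha.2 x (hb x hx (mem_ball_self h2))]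
  · exact (ha.1.differentiableAt (hU.mem_nhds (hb x hx (mem_ball_self h2)))).hasDerivAt

end HI

theorem st_hi : St_HI := fun _ _ _ _ _ _ hU hg hm h _ hζ => (HI.both hU hg hm h hζ).2

end Pool.Agent.Lib.IS2
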