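import Pool.Agent.Lib.IS2.Blue

/-! Chain integrals: integrable, bounded and holomorphic in parameters. -/

open scoped Topology Real
open Complex MeasureTheory Set Filter

noncomputable section

namespace Pool.Agent.Lib.IS2

namespace HOL

theorem mj_nonneg (o : ℝ) (γ : ℝ → ℂ) (n : ℕ) (v : Fin (n + 2) → ℝ) : 0 ≤ Mj o γ n v := by
  unfold Mj c0
  positivity

theorem ell_nonneg (γ : ℝ → ℂ) {n : ℕ} (v : Fin (n + 2) → ℝ) : 0 ≤ ell γ v :=
  Finset.sum_nonneg fun _ _ => norm_nonneg _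

theorem sm_of {q : ℕ} {h : ℝ} (hh : 2 ≤ h) {μ : ℂ} (hμ : μ ∈ DD q h) : Sm μ := by
  have h1 : h ≤ h ^ (q + 2) := le_self_pow₀ (by linarith) (by omega)
  have h2 : (2 * Tt q h)⁻¹ = h ^ (q + 2) / 2 := by unfold Tt; field_simp
  have h3 := hμ.1
  have h4 := re_le_norm μ
  rw [h2] at h3
  exact ⟨by linarith, by linarith [norm_nonneg μ]⟩

theorem maj {j B C h ϖ : ℝ} {q n : ℕ} {γ : ℝ → ℂ} {P : ℝ → C2} {μ : ℂ} {v : Fin (n + 2) → ℝ}
    {w : ℂ} (hC : 1 ≤ C) (hP : Adm j B γ ϖ P) (hμ : μ ∈ DD q h) (hw : ‖w‖ ≤ 1)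
    (h1 : ‖In μ P n v‖ ≤ C ^ (n + 2) * Mj (om q h) γ n v * ‖exp (-(μ * elc P v))‖)
    (h2 : ‖exp (-(μ * elc P v))‖ ≤ Real.exp (-(μ.re * ell γ v) + C * (n + 2) * ‖μ‖ * ϖ)) :
    ‖w * In μ P n v‖ ≤ C ^ (n + 2) * Real.exp (C * (n + 2) * om q h * ϖ) *
      (Mj (om q h) γ n v * Real.exp (-(ell γ v / (2 * Tt q h)))) := by
  have p0 : 0 ≤ ϖ := (norm_nonneg _).trans (hP.a0 0)
  have m0 := mj_nonneg (om q h) γ n v
  have l0 := ell_nonneg γ v
  have e1 : ell γ v / (2 * Tt q h) ≤ μ.re * ell γ v := by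
    rw [div_eq_inv_mul]; exact mul_le_mul_of_nonneg_right hμ.1.le l0
  have e2 : C * (n + 2) * ‖μ‖ * ϖ ≤ C * (n + 2) * om q h * ϖ := by
    have := hμ.2.le
    gcongr
  have e3 := h2.trans (Real.exp_le_exp.2 (add_le_add (neg_le_neg e1) e2))
  rw [Real.exp_add] at e3
  calc ‖w * In μ P n v‖ ≤ 1 * ‖In μ P n v‖ := by rw [norm_mul]; gcongr
    _ ≤ C ^ (n + 2) * Mj (om q h) γ n v * (Real.exp (-(ell γ v / (2 * Tt q h))) *
        Real.exp (C * (n + 2) * om q h * ϖ)) := by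
      rw [one_mul]; refine h1.trans ?_; gcongr
    _ = _ := by ring

end HOL

open HOL in
theorem st_hol (hKB : St_KB) (hKM : St_KM) (hCR : St_CR) (hHI : St_HI) : St_HOL := by
  intro j B q hq
  obtain ⟨C1, hC1, kb⟩ := hKB j B
  obtain ⟨C2, h0, cr⟩ := hCR j q hq
  refine ⟨C1 ^ 2 * (|C2| + 1), max h0 2, fun h hh γ ϖ wt n hγ hwt => ?_⟩
  have h2 : 2 ≤ h := (le_max_right _ _).trans hh
  obtain ⟨gv, gi, gb⟩ := (cr h ((le_max_left _ _).trans hh) γ hγ).1 n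
  have ms : ∀ P ∈ SP, ∀ μ, AEStronglyMeasurable (fun v => wt (n + 2) v * In μ P n v)
      (box (n + 2)) := fun P hP μ =>
    ((hwt _).1.mul ((hKM.1 P hP n).comp (measurable_const.prodMk measurable_id))).aestronglyMeasurable
  have bd : ∀ P μ v, Adm j B γ ϖ P → μ ∈ DD q h → Gv γ v → ‖wt (n + 2) v * In μ P n v‖ ≤
      C1 ^ (n + 2) * Real.exp (C1 * (n + 2) * om q h * ϖ) *
        (Mj (om q h) γ n v * Real.exp (-(ell γ v / (2 * Tt q h)))) := fun P μ v hP hμ hv => by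
    obtain ⟨a, b⟩ := (kb γ ϖ P hγ hP).2 n v μ (om q h) hv (sm_of h2 hμ) hμ.2.le
    exact maj hC1 hP hμ ((hwt _).2.1 v) a b
  have gi' := gi.const_mul (C1 ^ (n + 2) * Real.exp (C1 * (n + 2) * om q h * ϖ))
  refine ⟨fun P μ hP hμ => ?_, fun U μ P hU hμ hA hP => ?_⟩
  · have ae : ∀ᵐ v ∂box (n + 2), _ := gv.mono fun v hv => bd P μ v hP hμ hv
    refine ⟨gi'.mono' (ms P hP.sp μ) ae, (norm_integral_le_of_norm_le gi' ae).trans ?_⟩
    rw [integral_const_mul]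
    have p0 : 0 ≤ ϖ := (norm_nonneg _).trans (hP.a0 0)
    have o0 : 0 ≤ om q h := by unfold om; positivity
    have a0 := abs_nonneg C2
    have g2 : C2 * om q h * (C2 / h ^ 3) ^ n ≤ (|C2| + 1) * om q h * ((|C2| + 1) / h ^ 3) ^ n := by
      refine (le_abs_self _).trans ?_
      rw [abs_mul, abs_mul, abs_pow, abs_div, abs_of_nonneg o0, abs_of_nonneg (a := h ^ 3)
        (by positivity)]
      gcongr <;> linarith
    have c1 : C1 ≤ C1 ^ 2 * (|C2| + 1) := by nlinarith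
    have c2 : C1 * ((|C2| + 1) / h ^ 3) ≤ C1 ^ 2 * (|C2| + 1) / h ^ 3 := by
      rw [← mul_div_assoc]; gcongr; nlinarith
    calc _ ≤ C1 ^ (n + 2) * Real.exp (C1 * (n + 2) * om q h * ϖ) *
          ((|C2| + 1) * om q h * ((|C2| + 1) / h ^ 3) ^ n) := by gcongr; exact gb.trans g2
      _ = C1 ^ 2 * (|C2| + 1) * om q h * (C1 * ((|C2| + 1) / h ^ 3)) ^ n *
          Real.exp (C1 * (n + 2) * om q h * ϖ) := by rw [mul_pow]; ring
      _ ≤ _ := by gcongr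
  · intro ζ hζ
    refine (hHI _ (box (n + 2)) (fun ζ v => wt (n + 2) v * In (μ ζ) (P ζ) n v) U _ hU gi'
      (fun ζ hζ => ms _ (hA ζ hζ).2.sp _) (gv.mono fun v hv => ⟨fun ζ hζ => ?_,
        fun ζ hζ => bd _ _ v (hA ζ hζ).2 (hA ζ hζ).1 hv⟩) ζ hζ).differentiableAt.differentiableWithinAt
    have n := hU.mem_nhds hζ
    exact ((hKM.2 j B γ ϖ μ P ζ _ v hγ (hA ζ hζ).2 (sm_of h2 (hA ζ hζ).1) hv
      (hμ.differentiableAt n) fun s => ⟨(hP s).1.differentiableAt n,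
        (hP s).2.differentiableAt n⟩).const_mul _).differentiableWithinAt

end Pool.Agent.Lib.IS2
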