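import Pool.Agent.Lib.IS2.BlueG

/-! The Hilbert-Schmidt norm of the resolvent is the `L²` norm of the Green function. -/

open scoped ContDiff ComplexConjugate Topology Real InnerProductSpace ENNReal
open Complex MeasureTheory Set Filter

noncomputable section

namespace Pool.Agent.Lib.IS2

open Pool.Agent.Lib.ISO Pool.Agent.Lib.MP_312682_mp

namespace HSQ

lemma cnt {A ι : Type*} [NormedAddCommGroup A] [InnerProductSpace ℂ A]
    [TopologicalSpace.SeparableSpace A] {v : ι → A} (h : Orthonormal ℂ v) : Countable ι := by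
  refine Pairwise.countable_of_isOpen_disjoint (s := fun i => Metric.ball (v i) (1 / 2))
    (fun i j hij => Metric.ball_disjoint_ball ?_) (fun _ => Metric.isOpen_ball)
    fun _ => Metric.nonempty_ball.2 (by norm_num)
  have h1 := norm_sub_sq (𝕜 := ℂ) (v i) (v j)
  rw [h.1 i, h.1 j, h.2 hij] at h1
  rw [dist_eq_norm]
  have h2 := norm_nonneg (v i - v j)
  simp only [map_zero, mul_zero, sub_zero] at h1
  nlinarith

lemma nsq_e (a : ℂ) : nsq (!₂[a, 0, 0] : E3) = nsq a := by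
  simp [nsq, norm_sq_E3]

lemma nsq_L2 (w : L2 vol) : nsq w = ∫⁻ x, nsq (w x) := by
  rw [nsq, norm_sq_L2, ofReal_integral_eq_lintegral_ofReal (integrable_sq_L2 w)
    (Eventually.of_forall fun _ => by positivity)]
  rfl

lemma ker {T : L2 vol →L[ℂ] L2 vol} {r : ℂ → L2 vol}
    (h : ∀ w, T w =ᵐ[vol] fun x => (!₂[⟪r x, w⟫_ℂ, 0, 0] : E3)) : hs2 T = ∫⁻ x, nsq (r x) := by
  have : Fact ((2 : ℝ≥0∞) ≠ ⊤) := ⟨by simp⟩
  have : Countable (hbS (L2 vol)) := cnt (hb (L2 vol)).orthonormal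
  have e : ∀ w, (fun x => nsq (T w x)) =ᵐ[vol] fun x => nsq ⟪w, r x⟫_ℂ := fun w => by
    filter_upwards [h w] with x hx
    rw [hx, nsq_e, nsq_inner_symm]
  have m : ∀ w, AEMeasurable (fun x => nsq ⟪w, r x⟫_ℂ) vol := fun w =>
    AEMeasurable.congr (((Lp.aestronglyMeasurable (T w)).norm.aemeasurable.pow_const
      2).ennreal_ofReal) (e w)
  rw [hs2, tsum_congr fun i => (nsq_L2 _).trans (lintegral_congr_ae (e _)),
    ← lintegral_tsum fun i => m _]
  exact lintegral_congr fun x => (parseval _ _).symm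

/-- the vectors on which `T` is given by the kernel -/
def S (T : L2 vol →L[ℂ] L2 vol) (r : ℂ → L2 vol) : Submodule ℂ (L2 vol) where
  carrier := {w | T w =ᵐ[vol] fun x => (!₂[⟪r x, w⟫_ℂ, 0, 0] : E3)}
  add_mem' := fun {u v} hu hv => by
    show T (u + v) =ᵐ[vol] _
    rw [map_add]
    filter_upwards [hu, hv, Lp.coeFn_add (T u) (T v)] with x h1 h2 h3
    rw [h3, Pi.add_apply, h1, h2, inner_add_right]
    refine E3_ext ?_ ?_ ?_ <;> simp
  zero_mem' := by
    show T 0 =ᵐ[vol] _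
    rw [map_zero]
    filter_upwards [Lp.coeFn_zero E3 2 vol] with x h1
    rw [h1, inner_zero_right]
    refine E3_ext ?_ ?_ ?_ <;> simp
  smul_mem' := fun c u hu => by
    show T (c • u) =ᵐ[vol] _
    rw [map_smul]
    filter_upwards [hu, Lp.coeFn_smul c (T u)] with x h1 h3
    rw [h3, Pi.smul_apply, h1, inner_smul_right]
    refine E3_ext ?_ ?_ ?_ <;> simp

lemma closed (T : L2 vol →L[ℂ] L2 vol) (r : ℂ → L2 vol) : IsClosed (S T r : Set (L2 vol)) := by
  refine isClosed_of_closure_subset fun w hw => ?_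
  obtain ⟨u, hu, hl⟩ := mem_closure_iff_seq_limit.1 hw
  obtain ⟨φ, hφ, ha⟩ :=
    (tendstoInMeasure_of_tendsto_Lp ((T.continuous.tendsto w).comp hl)).exists_seq_tendsto_ae
  have hb : ∀ᵐ x ∂vol, ∀ n, T (u n) x = (!₂[⟪r x, u n⟫_ℂ, 0, 0] : E3) := ae_all_iff.2 hu
  show T w =ᵐ[vol] _
  filter_upwards [ha, hb] with x h1 h2
  simp only [Function.comp_apply, h2] at h1
  exact tendsto_nhds_unique h1 (((continuous_E3 (continuous_const.inner continuous_id)
    continuous_const continuous_const).tendsto w).comp (hl.comp hφ.tendsto_atTop))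

lemma mem_e {f : ℂ → ℝ} (h : MemLp f 2 vol) : MemLp (fun z => (!₂[(f z : ℂ), 0, 0] : E3)) 2 vol :=
  h.of_le ((continuous_E3 continuous_ofReal continuous_const
    continuous_const).comp_aestronglyMeasurable h.1) (Eventually.of_forall fun z => by
      refine (pow_le_pow_iff_left₀ (norm_nonneg _) (norm_nonneg _) two_ne_zero).1 ?_
      simp [norm_sq_E3])

lemma inner_e {f : ℂ → ℝ} (h : MemLp f 2 vol) (w : L2 vol) :
    ⟪tl vol fun z => (!₂[(f z : ℂ), 0, 0] : E3), w⟫_ℂ = ∫ z, f z • w z 0 := by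
  rw [L2.inner_def]
  refine integral_congr_ae ?_
  filter_upwards [tl_coe (mem_e h)] with z hz
  rw [hz]
  simp [PiLp.inner_apply, Fin.sum_univ_three, mul_comm]

lemma inner_ee {f g : ℂ → ℝ} (hf : MemLp f 2 vol) (hg : MemLp g 2 vol) :
    ⟪tl vol fun z => (!₂[(f z : ℂ), 0, 0] : E3), tl vol fun z => (!₂[(g z : ℂ), 0, 0] : E3)⟫_ℂ =
      ((∫ z, f z * g z : ℝ) : ℂ) := by
  rw [inner_e hf, ← integral_complex_ofReal]
  refine integral_congr_ae ?_
  filter_upwards [tl_coe (mem_e hg)] with z hz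
  rw [hz]
  simp

/-- real test functions in the first slot -/
def ts (Ω : Set ℂ) : Set (L2 vol) := {w | ∃ f : ℂ → ℝ, ContDiff ℝ ∞ f ∧ HasCompactSupport f ∧
  tsupport f ⊆ Ω ∧ w = tl vol fun z => (!₂[(f z : ℂ), 0, 0] : E3)}

lemma orth {Ω : Set ℂ} (hΩ : IsOpen Ω) {w : L2 vol} (h : ∀ x ∈ ts Ω, ⟪x, w⟫_ℂ = 0) :
    ∀ᵐ z ∂vol, z ∈ Ω → w z 0 = 0 := by
  have m : MemLp (fun z => w z 0) 2 vol :=
    (EuclideanSpace.proj (𝕜 := ℂ) (0 : Fin 3)).comp_memLp' (Lp.memLp w)
  refine hΩ.ae_eq_zero_of_integral_contDiff_smul_eq_zero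
    ((m.locallyIntegrable (by norm_num)).locallyIntegrableOn _) fun g h1 h2 h3 => ?_
  rw [← inner_e (h1.continuous.memLp_of_hasCompactSupport h2)]
  exact h _ ⟨g, h1, h2, h3, rfl⟩

lemma go_zero (μ : ℝ) {Ω : Set ℂ} {w : L2 vol} (h : ∀ᵐ z ∂vol, z ∈ Ω → w z 0 = 0) :
    GO μ Ω w = 0 := by
  have : PO μ Ω (p0 vol w) = 0 := by
    refine PC_eq (zero_mem _) ?_
    rintro _ ⟨u, hu, rfl⟩
    rw [sub_zero, L2.inner_def]
    refine integral_eq_zero_of_ae ?_
    filter_upwards [h, mm_coe (ν := vol) (Bd.const e00) w,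
      tl_coe (memLp_Dv_of_compact μ hu.1 hu.2.1)] with z h1 h2 h3
    rw [p0, h2, DL, h3]
    by_cases hz : z ∈ Ω
    · simp [PiLp.inner_apply, Fin.sum_univ_three, act_apply, e00, h1 hz]
    · rw [Dv_eq_zero μ fun a => hz (hu.2.2 a), inner_zero_right]; rfl
  show p0 vol (PO μ Ω (p0 vol w)) = 0
  rw [this, map_zero]

end HSQ

open HSQ in
theorem st_hsq (hL : St_LAY) (hG : St_GRE) (hS : St_RES) (h1 : St_HSQ1) : St_HSQ := by
  intro μ γ Ω hP
  have hO := hP.cd.opn
  have hM := hO.measurableSet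
  have hI := (hS μ μ γ Ω hP hP).2.1
  have mR : AEStronglyMeasurable (fun p : ℂ × ℂ => Rg μ γ Ω p.1 p.2)
      ((vol.restrict Ω).prod (vol.restrict Ω)) := by
    have a : Measurable fun p : ℂ × ℂ => Gr μ (p.1 - p.2) :=
      (hL μ hP.pos).1.2.2.1.comp (measurable_fst.sub measurable_snd)
    have b : AEStronglyMeasurable (Function.uncurry (hR μ γ Ω))
        ((vol.restrict Ω).prod (vol.restrict Ω)) := by
      rw [Measure.prod_restrict]
      exact ((hG μ γ Ω hP).1.mono (prod_mono subset_closure Subset.rfl)).aestronglyMeasurable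
        (hM.prod hM)
    exact a.aestronglyMeasurable.sub b
  obtain ⟨k, hk⟩ : ∃ k : ℂ → ℂ → ℝ, k = fun x => Ω.indicator fun y => μ ^ 2 * Rg μ γ Ω x y :=
    ⟨_, rfl⟩
  have hm : ∀ᵐ x ∂vol, x ∈ Ω → MemLp (k x) 2 vol := by
    rw [← ae_restrict_iff' hM, hk]
    filter_upwards [hI.prod_right_ae, mR.prodMk_left] with x hx hx'
    exact (memLp_indicator_iff_restrict hM).2 (MemLp.const_mul
      ((memLp_two_iff_integrable_sq hx').2 (by simpa only [sq] using hx)) _)
  obtain ⟨r, hr⟩ : ∃ r : ℂ → L2 vol,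
      r = Ω.indicator fun x => tl vol fun y => (!₂[(k x y : ℂ), 0, 0] : E3) := ⟨_, rfl⟩
  have hc : (fun x => ‖r x‖ ^ 2) =ᵐ[vol] Ω.indicator fun x =>
      μ ^ 4 * ∫ y in Ω, Rg μ γ Ω x y * Rg μ γ Ω x y := by
    filter_upwards [hm] with x hx
    by_cases hx' : x ∈ Ω
    · rw [hr, indicator_of_mem hx', indicator_of_mem hx', ← inner_self_eq_norm_sq (𝕜 := ℂ),
        inner_ee (hx hx') (hx hx'), ← integral_const_mul, ← integral_indicator hM]
      refine integral_congr_ae (Eventually.of_forall fun y => ?_)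
      by_cases hy : y ∈ Ω
      · simp only [hk, indicator_of_mem hy]; ring
      · simp only [hk, indicator_of_notMem hy, mul_zero]
    · rw [hr, indicator_of_notMem hx', indicator_of_notMem hx', norm_zero, sq, mul_zero]
  have hi : Integrable (fun x => ‖r x‖ ^ 2) vol :=
    ((integrable_indicator_iff hM).2 (hI.integral_prod_left.const_mul _)).congr hc.symm
  have ha : ts Ω ⊆ S (GO μ Ω) r := by
    rintro _ ⟨f, f1, f2, f3, rfl⟩
    have mf : MemLp f 2 vol := f1.continuous.memLp_of_hasCompactSupport f2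
    obtain ⟨w, hw⟩ : ∃ w, w = tl vol fun z => (!₂[(f z : ℂ), 0, 0] : E3) := ⟨_, rfl⟩
    have e : ∀ᵐ x ∂vol, ((Ω.indicator (fun x => μ ^ 2 * ∫ y in Ω, Rg μ γ Ω x y * f y) x : ℝ) : ℂ) =
        ⟪r x, w⟫_ℂ := by
      filter_upwards [hm] with x hx
      by_cases hx' : x ∈ Ω
      · rw [hr, hw, indicator_of_mem hx', indicator_of_mem hx', inner_ee (hx hx') mf,
          ← integral_const_mul, ← integral_indicator hM]
        simp only [hk, ← indicator_mul_left, mul_assoc]
      · rw [hr, indicator_of_notMem hx', indicator_of_notMem hx', inner_zero_left, ofReal_zero]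
    have m : AEStronglyMeasurable (Ω.indicator fun x => μ ^ 2 * ∫ y in Ω, Rg μ γ Ω x y * f y) vol :=
      (aestronglyMeasurable_indicator_iff hM).2 ((mR.mul (f1.continuous.comp
        continuous_snd).aestronglyMeasurable).integral_prod_right'.const_mul _)
    show GO μ Ω _ =ᵐ[vol] _
    rw [h1 μ γ Ω hP f f1 f2 f3, ← hw]
    refine (tl_coe (mem_e ((memLp_two_iff_integrable_sq m).2 ((hi.mul_const (‖w‖ ^ 2)).mono'
      (m.pow 2) ?_)))).trans ?_
    · filter_upwards [e] with x hx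
      rw [norm_pow, ← norm_real, hx, ← mul_pow]
      exact pow_le_pow_left₀ (norm_nonneg _) (norm_inner_le_norm _ _) 2
    · filter_upwards [e] with x hx
      rw [hx]
  have hb : ∀ w, w ∈ S (GO μ Ω) r := fun w => by
    rw [← add_sub_cancel (PC (ts Ω) w) w]
    refine add_mem (cl_le (closed _ _) ha (PC_mem _ _)) ?_
    have ho := orth hO (w := w - PC (ts Ω) w) fun x hx =>
      (Submodule.sub_starProjection_mem_orthogonal (K := cl (ts Ω)) w) x (mem_cl hx)
    show GO μ Ω _ =ᵐ[vol] _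
    rw [go_zero μ ho]
    filter_upwards [hm, Lp.coeFn_zero E3 2 vol] with x hx h0
    have : ⟪r x, w - PC (ts Ω) w⟫_ℂ = 0 := by
      by_cases hx' : x ∈ Ω
      · rw [hr, indicator_of_mem hx', inner_e (hx hx')]
        refine integral_eq_zero_of_ae ?_
        filter_upwards [ho] with z hz
        by_cases hz' : z ∈ Ω
        · rw [hz hz', smul_zero]; rfl
        · rw [hk]; simp only [indicator_of_notMem hz', zero_smul]; rfl
      · rw [hr, indicator_of_notMem hx', inner_zero_left]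
    rw [h0, this]
    refine E3_ext ?_ ?_ ?_ <;> simp
  rw [hsq, ker hb]
  simp only [nsq]
  rw [← ofReal_integral_eq_lintegral_ofReal hi (Eventually.of_forall fun _ => by positivity),
    ENNReal.toReal_ofReal (integral_nonneg fun _ => by positivity), integral_congr_ae hc,
    integral_indicator hM, integral_const_mul, RR]

end Pool.Agent.Lib.IS2
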