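import Pool.Agent.Lib.IS2.Blue

/-! The fundamental solution and the layer potentials. -/

open scoped ContDiff ComplexConjugate Topology Real Interval
open Complex MeasureTheory Set Filter Metric

set_option linter.unusedSectionVars false

noncomputable section

namespace Pool.Agent.Lib.IS2

namespace LAY

/-! ### Integrals that depend on a parameter -/

section par

variable {G : Type} [NormedAddCommGroup G] [NormedSpace ℝ G] {U : Set ℂ} {k : ℂ × ℝ → G}
  {φ : ℝ → ℝ} {B a b : ℝ} {x : ℂ}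

theorem slice (hk : ContinuousOn k (U ×ˢ univ)) (hx : x ∈ U) : Continuous fun t => k (x, t) :=
  hk.comp_continuous (by fun_prop) fun t => ⟨hx, trivial⟩

theorem pmeas (hk : ContinuousOn k (U ×ˢ univ)) (hφ : Measurable φ) (hx : x ∈ U) (ν : Measure ℝ) :
    AEStronglyMeasurable (fun t => φ t • k (x, t)) ν :=
  hφ.aestronglyMeasurable.smul (slice hk hx).aestronglyMeasurable

theorem pbd (hU : IsOpen U) (hk : ContinuousOn k (U ×ˢ univ)) (hB : ∀ t, |φ t| ≤ B) (hx : x ∈ U)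
    (a b : ℝ) : ∃ s ∈ 𝓝 x, s ⊆ U ∧ ∃ C, ∀ y ∈ s, ∀ t ∈ Ι a b, ‖φ t • k (y, t)‖ ≤ C := by
  obtain ⟨s, hs, hsU, hc⟩ := local_compact_nhds (hU.mem_nhds hx)
  obtain ⟨C, hC⟩ := (hc.prod (isCompact_uIcc (a := a) (b := b))).exists_bound_of_continuousOn
    (hk.mono (prod_mono hsU (subset_univ _)))
  refine ⟨s, hs, hsU, B * C, fun y hy t ht => ?_⟩
  rw [norm_smul]
  exact mul_le_mul (hB t) (hC (y, t) ⟨hy, uIoc_subset_uIcc ht⟩) (norm_nonneg _)
    ((abs_nonneg _).trans (hB t))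

theorem pint (hU : IsOpen U) (hk : ContinuousOn k (U ×ˢ univ)) (hφ : Measurable φ)
    (hB : ∀ t, |φ t| ≤ B) (hx : x ∈ U) (a b : ℝ) :
    IntervalIntegrable (fun t => φ t • k (x, t)) volume a b := by
  obtain ⟨s, hs, -, C, hC⟩ := pbd hU hk hB hx a b
  exact (intervalIntegrable_const (c := C)).mono_fun' (pmeas hk hφ hx _)
    ((ae_restrict_mem measurableSet_uIoc).mono fun t ht => hC x (mem_of_mem_nhds hs) t ht)

theorem pcont (hU : IsOpen U) (hk : ContinuousOn k (U ×ˢ univ)) (hφ : Measurable φ)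
    (hB : ∀ t, |φ t| ≤ B) : ContinuousOn (fun x => ∫ t in a..b, φ t • k (x, t)) U := by
  intro x hx
  obtain ⟨s, hs, hsU, C, hC⟩ := pbd hU hk hB hx a b
  refine (intervalIntegral.continuousAt_of_dominated_interval (bound := fun _ => C)
    (mem_of_superset hs fun y hy => pmeas hk hφ (hsU hy) _)
    (by filter_upwards [hs] with y hy using .of_forall (hC y hy)) intervalIntegrable_const
    (.of_forall fun t _ => ?_)).continuousWithinAt
  exact ((hk.continuousAt ((hU.prod isOpen_univ).mem_nhds (x := (x, t)) ⟨hx, trivial⟩)).comp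
    (f := fun y => (y, t)) (by fun_prop)).const_smul (φ t)

/-- The derivative in the first variable. -/
def d1 (k : ℂ × ℝ → G) (p : ℂ × ℝ) : ℂ →L[ℝ] G :=
  (fderiv ℝ k p).comp (ContinuousLinearMap.inl ℝ ℂ ℝ)

theorem cd_d1 {n : WithTop ℕ∞} (hU : IsOpen U) (hk : ContDiffOn ℝ (n + 1) k (U ×ˢ univ)) :
    ContDiffOn ℝ n (d1 k) (U ×ˢ univ) :=
  ((contDiffOn_succ_iff_fderiv_of_isOpen (hU.prod isOpen_univ)).1 hk).2.2.clm_comp contDiffOn_const

theorem has_d1 (hU : IsOpen U) (hk : DifferentiableOn ℝ k (U ×ˢ univ)) (hx : x ∈ U) (t : ℝ) :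
    HasFDerivAt (fun y => k (y, t)) (d1 k (x, t)) x :=
  (hk.differentiableAt ((hU.prod isOpen_univ).mem_nhds
    (x := (x, t)) ⟨hx, trivial⟩)).hasFDerivAt.comp x (hasFDerivAt_prodMk_left x t)

theorem pder (hU : IsOpen U) (hk : ContDiffOn ℝ 1 k (U ×ˢ univ)) (hφ : Measurable φ)
    (hB : ∀ t, |φ t| ≤ B) (hx : x ∈ U) :
    HasFDerivAt (fun x => ∫ t in a..b, φ t • k (x, t)) (∫ t in a..b, φ t • d1 k (x, t)) x := by
  have h1 : ContinuousOn (d1 k) (U ×ˢ univ) := (cd_d1 (n := 0) hU (by simpa using hk)).continuousOn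
  obtain ⟨s, hs, hsU, C, hC⟩ := pbd hU h1 hB hx a b
  exact intervalIntegral.hasFDerivAt_integral_of_dominated_of_fderiv_le (bound := fun _ => C)
    (F' := fun y t => φ t • d1 k (y, t)) hs
    (mem_of_superset hs fun y hy => pmeas hk.continuousOn hφ (hsU hy) _)
    (pint hU hk.continuousOn hφ hB hx a b) (pmeas h1 hφ hx _)
    (.of_forall fun t ht y hy => hC y hy t ht) intervalIntegrable_const
    (.of_forall fun t _ y hy =>
      (has_d1 hU (hk.differentiableOn one_ne_zero) (hsU hy) t).const_smul (φ t))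

end par

theorem pcd {U : Set ℂ} {φ : ℝ → ℝ} {B a b : ℝ} (hU : IsOpen U) (hφ : Measurable φ)
    (hB : ∀ t, |φ t| ≤ B) (n : ℕ) : ∀ (G : Type) [NormedAddCommGroup G] [NormedSpace ℝ G]
    (k : ℂ × ℝ → G), ContDiffOn ℝ n k (U ×ˢ univ) →
    ContDiffOn ℝ n (fun x => ∫ t in a..b, φ t • k (x, t)) U := by
  induction n with
  | zero =>
    intro G _ _ k hk
    exact contDiffOn_zero.2 (pcont hU hk.continuousOn hφ hB)
  | succ n ih =>
    intro G _ _ k hk
    have h1 : ContDiffOn ℝ 1 k (U ×ˢ univ) := hk.of_le (by exact_mod_cast Nat.le_add_left 1 n)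
    rw [Nat.cast_succ] at hk ⊢
    refine (contDiffOn_succ_iff_fderiv_of_isOpen hU).2 ⟨fun x hx =>
      (pder hU h1 hφ hB hx).differentiableAt.differentiableWithinAt, by simp, ?_⟩
    exact (ih _ _ (cd_d1 hU hk)).congr fun x hx => (pder hU h1 hφ hB hx).fderiv

theorem le_oo (n : ℕ) : (n : WithTop ℕ∞) ≤ ∞ := by exact_mod_cast le_top

/-! ### Directional derivatives -/

/-- The directional derivative. -/
def D (v : ℂ) (u : ℂ → ℝ) (z : ℂ) : ℝ := fderiv ℝ u z v

theorem lap_eq (u : ℂ → ℝ) (x : ℂ) : lap u x = D 1 (D 1 u) x + D I (D I u) x := rfl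

variable {U : Set ℂ} {u u' : ℂ → ℝ} {x : ℂ} {μ : ℝ}

theorem D_congr (v : ℂ) (hU : IsOpen U) (e : EqOn u u' U) : EqOn (D v u) (D v u') U :=
  fun x hx => by rw [D, D, (e.eventuallyEq_of_mem (hU.mem_nhds hx)).fderiv_eq]

theorem lap_congr (hU : IsOpen U) (e : EqOn u u' U) : EqOn (lap u) (lap u') U := fun x hx => by
  rw [lap_eq, lap_eq, D_congr _ hU (D_congr _ hU e) hx, D_congr _ hU (D_congr _ hU e) hx]

theorem cd_D {n : WithTop ℕ∞} (v : ℂ) (hU : IsOpen U) (h : ContDiffOn ℝ (n + 1) u U) :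
    ContDiffOn ℝ n (D v u) U :=
  ((contDiffOn_succ_iff_fderiv_of_isOpen hU).1 h).2.2.clm_apply contDiffOn_const

theorem D_symm (v w : ℂ) (hU : IsOpen U) (h : ContDiffOn ℝ 2 u U) :
    EqOn (D v (D w u)) (D w (D v u)) U := fun x hx => by
  have h2 := h.contDiffAt (hU.mem_nhds hx)
  have hd : DifferentiableAt ℝ (fderiv ℝ u) x :=
    (h2.fderiv_right (m := 1) (by norm_num)).differentiableAt one_ne_zero
  have e : ∀ a b : ℂ, D a (D b u) x = fderiv ℝ (fderiv ℝ u) x a b := fun a b => by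
    have := (hd.hasFDerivAt.clm_apply (hasFDerivAt_const b x)).fderiv
    rw [D, show D b u = fun y => fderiv ℝ u y b from rfl, this]
    simp
  rw [e, e]
  exact h2.isSymmSndFDerivAt (by simp) v w

theorem har_D (w : ℂ) (hU : IsOpen U) (h : ContDiffOn ℝ 3 u U) (e : ∀ x ∈ U, lap u x = μ ^ 2 * u x) :
    Har μ U (D w u) := by
  have c2 : ∀ v, ContDiffOn ℝ 2 (D v u) U := fun v => cd_D v hU (by norm_num; exact h)
  have h2 : ContDiffOn ℝ 2 u U := h.of_le (by norm_num)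
  have dd : ∀ v, ∀ x ∈ U, DifferentiableAt ℝ (D v (D v u)) x := fun v x hx =>
    ((cd_D (n := 1) v hU (by norm_num; exact c2 v)).contDiffAt (hU.mem_nhds hx)).differentiableAt
      one_ne_zero
  refine ⟨c2 w, fun x hx => ?_⟩
  have s : ∀ v, D v (D v (D w u)) x = D w (D v (D v u)) x := fun v => by
    rw [D_congr v hU (D_symm v w hU h2) hx, D_symm v w hU (c2 v) hx]
  have e' : EqOn (fun y => D 1 (D 1 u) y + D I (D I u) y) (fun y => μ ^ 2 * u y) U := e
  have := D_congr w hU e' hx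
  rw [D, D, fderiv_fun_add (dd 1 x hx) (dd I x hx),
    fderiv_const_mul ((h2.contDiffAt (hU.mem_nhds hx)).differentiableAt two_ne_zero)] at this
  rw [lap_eq, s, s]
  exact this

theorem lap_sub (u : ℂ → ℝ) (a x : ℂ) : lap (fun z => u (z - a)) x = lap u (x - a) := by
  simp only [lap, fderiv_comp_sub]
  rw [fderiv_comp_sub (f := fun z => fderiv ℝ u z 1), fderiv_comp_sub (f := fun z => fderiv ℝ u z I)]

/-- Superposition of solutions. -/
theorem har_int {k : ℂ × ℝ → ℝ} {φ : ℝ → ℝ} {B a b : ℝ} (hU : IsOpen U)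
    (hk : ContDiffOn ℝ 2 k (U ×ˢ univ)) (hφ : Measurable φ) (hB : ∀ t, |φ t| ≤ B)
    (e : ∀ t, ∀ x ∈ U, lap (fun y => k (y, t)) x = μ ^ 2 * k (x, t)) :
    Har μ U fun x => ∫ t in a..b, k (x, t) * φ t := by
  simp only [mul_comm _ (φ _), ← smul_eq_mul (φ _)]
  refine ⟨pcd hU hφ hB 2 ℝ k hk, fun x hx => ?_⟩
  have st : ∀ (k : ℂ × ℝ → ℝ) (v : ℂ), ContDiffOn ℝ 1 k (U ×ˢ univ) →
      EqOn (D v fun x => ∫ t in a..b, φ t • k (x, t)) (fun x => ∫ t in a..b, φ t • d1 k (x, t) v) U ∧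
      ∀ t, EqOn (D v fun y => k (y, t)) (fun y => d1 k (y, t) v) U := fun k v hk => by
    refine ⟨fun x hx => ?_, fun t x hx => ?_⟩
    · rw [D, (pder hU hk hφ hB hx).fderiv, ContinuousLinearMap.intervalIntegral_apply (pint hU
        (cd_d1 (n := 0) hU (by simpa using hk)).continuousOn hφ hB hx a b)]
      rfl
    · rw [D, (has_d1 hU (hk.differentiableOn one_ne_zero) hx t).fderiv]
  have c1 : ∀ v : ℂ, ContDiffOn ℝ 1 (fun p => d1 k p v) (U ×ˢ univ) := fun v =>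
    (cd_d1 (n := 1) hU (by norm_num; exact hk)).clm_apply contDiffOn_const
  have c0 : ∀ v : ℂ, ContinuousOn (fun p => d1 (fun p => d1 k p v) p v) (U ×ˢ univ) := fun v =>
    ((cd_d1 (n := 0) hU (by simpa using c1 v)).clm_apply contDiffOn_const).continuousOn
  have h1 : ContDiffOn ℝ 1 k (U ×ˢ univ) := hk.of_le (by norm_num)
  rw [lap_eq, D_congr _ hU (st k 1 h1).1 hx, D_congr _ hU (st k I h1).1 hx, (st _ 1 (c1 1)).1 hx,
    (st _ I (c1 I)).1 hx, ← intervalIntegral.integral_add (pint hU (c0 1) hφ hB hx a b)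
    (pint hU (c0 I) hφ hB hx a b), ← intervalIntegral.integral_const_mul]
  refine intervalIntegral.integral_congr fun t _ => ?_
  have := e t x hx
  rw [lap_eq, D_congr _ hU ((st k 1 h1).2 t) hx, D_congr _ hU ((st k I h1).2 t) hx,
    (st _ 1 (c1 1)).2 t hx, (st _ I (c1 I)).2 t hx] at this
  simp only [smul_eq_mul] at this ⊢
  rw [← mul_add, this]
  ring

/-! ### The fundamental solution -/

/-- The scalar product as a linear form. -/
def rL (v : ℂ) : ℂ →L[ℝ] ℝ := v.re • reCLM + v.im • imCLM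

theorem rL_apply (v w : ℂ) : rL v w = rdot w v := by
  simp [rL, rdot, mul_comm]

theorem rdot_comm (v w : ℂ) : rdot v w = rdot w v := by simp [rdot, mul_comm]

theorem has_norm {z : ℂ} (hz : z ≠ 0) : HasFDerivAt (fun w : ℂ => ‖w‖) (‖z‖⁻¹ • rL z) z := by
  have h0 := norm_ne_zero_iff.2 hz
  have h := (hasStrictFDerivAt_norm_sq z).hasFDerivAt.sqrt (pow_ne_zero 2 h0)
  simp only [Real.sqrt_sq (norm_nonneg _)] at h
  refine h.congr_fderiv (ContinuousLinearMap.ext fun w => ?_)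
  simp [rL_apply, rdot, Complex.inner]
  field_simp

theorem has_Gr (hA : St_A3) (hμ : 0 < μ) {z : ℂ} (hz : z ≠ 0) :
    HasFDerivAt (Gr μ) ((-(l1 (μ * ‖z‖)) / (2 * π * ‖z‖ ^ 2)) • rL z) z := by
  have h0 := norm_pos_iff.2 hz
  have h1 : HasDerivAt (fun r : ℝ => k0 (μ * r) / (2 * π))
      (-(l1 (μ * ‖z‖) / (μ * ‖z‖)) * μ / (2 * π)) ‖z‖ := by
    simpa using (((hA.2.2.2.2.2.2.2.1 _ (mul_pos hμ h0)).1.comp ‖z‖
      ((hasDerivAt_id ‖z‖).const_mul μ))).div_const (2 * π)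
  refine (h1.comp_hasFDerivAt z (has_norm hz)).congr_fderiv ?_
  rw [smul_smul]
  congr 1
  field_simp

theorem D_Gr (hA : St_A3) (hμ : 0 < μ) (v : ℂ) {z : ℂ} (hz : z ≠ 0) :
    fderiv ℝ (Gr μ) z v = -(l1 (μ * ‖z‖) * rdot z v) / (2 * π * ‖z‖ ^ 2) := by
  rw [(has_Gr hA hμ hz).fderiv, smul_apply, rL_apply, rdot_comm, smul_eq_mul]
  ring

theorem cd_Gr (hA : St_A3) (hμ : 0 < μ) : ContDiffOn ℝ ∞ (Gr μ) {0}ᶜ := fun z hz => by
  have h0 := mul_pos hμ (norm_pos_iff.2 hz)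
  exact ((((hA.1.contDiffAt (Ioi_mem_nhds h0)).comp z
    (contDiffAt_const.mul (contDiffAt_norm ℝ hz)))).div_const _).contDiffWithinAt

theorem lap_Gr (hA : St_A3) (hμ : 0 < μ) {z : ℂ} (hz : z ≠ 0) : lap (Gr μ) z = μ ^ 2 * Gr μ z := by
  have h0 := norm_pos_iff.2 hz
  have h1 : HasDerivAt (fun r : ℝ => -(l1 (μ * r)) / (2 * π * r ^ 2))
      ((μ * ‖z‖ * k0 (μ * ‖z‖) * μ * (2 * π * ‖z‖ ^ 2) + l1 (μ * ‖z‖) * (2 * π * (2 * ‖z‖))) /
        (2 * π * ‖z‖ ^ 2) ^ 2) ‖z‖ := by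
    have := (((hA.2.2.2.2.2.2.2.1 _ (mul_pos hμ h0)).2.1.comp ‖z‖
      ((hasDerivAt_id ‖z‖).const_mul μ)).neg).div ((hasDerivAt_pow 2 ‖z‖).const_mul (2 * π))
      (by positivity)
    exact this.congr_deriv (by simp)
  have h2 := h1.comp_hasFDerivAt z (has_norm hz)
  have e := fun v => (D_congr v isOpen_compl_singleton (u := D v (Gr μ)) (fun w hw => by
    rw [D, D_Gr hA hμ v hw]
    simp only [Pi.mul_apply, Function.comp_apply, rL_apply]
    ring) hz).trans (congrArg (· v) (h2.mul (rL v).hasFDerivAt).fderiv)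
  have n2 : z.re ^ 2 + z.im ^ 2 = ‖z‖ ^ 2 := by rw [Complex.sq_norm, normSq_apply]; ring
  rw [lap_eq, e, e, Gr]
  simp only [add_apply, smul_apply, rL_apply, rdot,
    smul_eq_mul, Function.comp_def]
  simp
  field_simp
  linear_combination (μ ^ 2 * ‖z‖ ^ 2 * k0 (μ * ‖z‖) + 2 * l1 (μ * ‖z‖)) * n2

theorem int_rad {a b : ℝ} (ha : a < 2) (hb : 0 < b) :
    Integrable fun z : ℂ => ‖z‖ ^ (-a) * Real.exp (-(b * ‖z‖)) := by
  rw [integrable_fun_norm_addHaar volume (f := fun r => r ^ (-a) * Real.exp (-(b * r)))]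
  refine (integrableOn_rpow_mul_exp_neg_mul_rpow (s := 1 - a) (p := 1) (by linarith) one_pos
    hb).congr_fun (fun r hr => ?_) measurableSet_Ioi
  simp only [Complex.finrank_real_complex, smul_eq_mul, Real.rpow_one]
  rw [sub_eq_add_neg, Real.rpow_add hr]
  simp [mul_assoc]

theorem bd_k0 (hA : St_A3) (hμ : 0 < μ) : ∃ C, 0 ≤ C ∧ ∀ r, 0 ≤ r →
    |k0 (μ * r) / (2 * π)| ≤ C * (r ^ (-(1 / 4) : ℝ) * Real.exp (-(μ * r))) := by
  obtain ⟨C, g, hC⟩ := hA.2.2.2.2.2.2.2.2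
  refine ⟨|C| * μ ^ (-(1 / 4) : ℝ) / (2 * π), by positivity, fun r hr => ?_⟩
  rcases hr.eq_or_lt with rfl | hr
  · simp [hA.2.2.2.1]
  have h0 := mul_pos hμ hr
  have h1 := (hC _ h0).1
  rw [Real.mul_rpow hμ.le hr.le] at h1
  rw [abs_of_pos (div_pos (hA.2.2.2.2.2.2.2.1 _ h0).2.2.1 Real.two_pi_pos), div_mul_eq_mul_div]
  refine div_le_div_of_nonneg_right (h1.trans ?_) Real.two_pi_pos.le
  rw [← mul_assoc, ← mul_assoc]
  gcongr
  exact le_abs_self C

theorem bd_k0' (hA : St_A3) (hμ : 0 < μ) : ∃ C, 0 ≤ C ∧ ∀ r, 0 ≤ r →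
    |k0 (μ * r) / (2 * π)| ≤ C * r ^ (-(1 / 4) : ℝ) := by
  obtain ⟨C, h0, hC⟩ := bd_k0 hA hμ
  refine ⟨C, h0, fun r hr => (hC r hr).trans (mul_le_mul_of_nonneg_left ?_ h0)⟩
  exact mul_le_of_le_one_right (by positivity) (Real.exp_le_one_iff.2 (by nlinarith))

theorem meas_Gr (hA : St_A3) (μ : ℝ) : Measurable (Gr μ) :=
  (hA.2.2.2.2.2.1.comp (measurable_norm.const_mul μ)).div_const _

/-! ### Weakly singular integrals along the curve -/

theorem dc_int {a : ℝ} (ha : a < 1) (s : ℝ) :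
    IntervalIntegrable (fun t => dc s t ^ (-a)) volume 0 (2 * π) ∧
      ∫ t in (0 : ℝ)..(2 * π), dc s t ^ (-a) = ∫ u in (-π)..π, |u| ^ (-a) := by
  have p : Function.Periodic (fun t => dc s t ^ (-a)) (2 * π) := fun t => by
    simpa using congrArg (· ^ (-a)) (dc_add_right s t 1)
  have hp := Real.pi_pos
  have e : EqOn (fun t => dc s t ^ (-a)) (fun t => |t - s| ^ (-a)) (uIcc (-π + s) (π + s)) := by
    intro t ht
    rw [uIcc_of_le (by linarith)] at ht
    simp only [dc_comm s t, dc_eq_abs (abs_le.2 ⟨by linarith [ht.1], by linarith [ht.2]⟩ : |t - s| ≤ π)]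
  have i0 : IntervalIntegrable (fun u : ℝ => |u| ^ (-a)) volume 0 π :=
    (intervalIntegral.intervalIntegrable_rpow' (r := -a) (by linarith)).congr fun u hu => by
      rw [uIoc_of_le hp.le] at hu
      simp only [abs_of_pos hu.1]
  have i1 : IntervalIntegrable (fun u : ℝ => |u| ^ (-a)) volume (-π) π := by
    refine IntervalIntegrable.trans (b := 0) ?_ i0
    simpa using ((IntervalIntegrable.iff_comp_neg (by simp)).1 i0).symm
  have e2 : π + s = -π + s + 2 * π := by ring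
  constructor
  · refine p.intervalIntegrable (t := -π + s) Real.two_pi_pos.ne' ?_ _ _
    rw [← e2]
    exact (i1.comp_sub_right s).congr fun t ht => (e (uIoc_subset_uIcc ht)).symm
  · have := p.intervalIntegral_add_eq 0 (-π + s)
    rw [zero_add, ← e2] at this
    rw [this, intervalIntegral.integral_congr e,
      intervalIntegral.integral_comp_sub_right (fun u => |u| ^ (-a))]
    simp

theorem ae_dc (s : ℝ) : ∀ᵐ t, dc s t ≠ 0 := by
  have : {t | dc s t = 0} ⊆ range fun k : ℤ => s - k * (2 * π) := fun t ht => by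
    obtain ⟨k, hk⟩ := dc_eq_zero ht
    exact ⟨k, by simp only [hk]; ring⟩
  exact (((countable_range _).mono this).ae_notMem volume).mono fun t ht => ht

variable {Ω : Set ℂ} {γ : ℝ → ℂ}

/-- Every point of the plane is far from the curve, except near one parameter. -/
theorem near (hG : St_GC) (h : CD Ω γ) : ∃ c > 0, ∀ x, ∃ s, ∀ t, c * dc s t ≤ ‖x - γ t‖ := by
  obtain ⟨c, hc, h1, -⟩ := hG Ω γ h
  refine ⟨c / 2, half_pos hc, fun x => ?_⟩
  obtain ⟨y, ⟨s, rfl⟩, hs⟩ := (h.per.compact_of_continuous Real.two_pi_pos.ne'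
    h.smooth.continuous).exists_isMinOn (range_nonempty γ) (f := fun y => ‖x - y‖) (by fun_prop)
  refine ⟨s, fun t => ?_⟩
  have a1 := h1 s t 0 (by simpa using hc.le)
  have a2 : ‖x - γ s‖ ≤ ‖x - γ t‖ := hs (mem_range_self t)
  have a3 := norm_sub_le_norm_sub_add_norm_sub (γ t) x (γ s)
  rw [norm_sub_rev (γ t) x] at a3
  simp at a1
  linarith

theorem sing (hG : St_GC) (h : CD Ω γ) {a : ℝ} (a0 : 0 ≤ a) (ha : a < 1) : ∃ C, ∀ x,
    IntervalIntegrable (fun t => ‖x - γ t‖ ^ (-a)) volume 0 (2 * π) ∧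
      ∫ t in (0 : ℝ)..(2 * π), ‖x - γ t‖ ^ (-a) ≤ C := by
  obtain ⟨c, hc, h1⟩ := near hG h
  refine ⟨c ^ (-a) * ∫ u in (-π)..π, |u| ^ (-a), fun x => ?_⟩
  obtain ⟨s, hs⟩ := h1 x
  have i := (dc_int ha s).1.const_mul (c ^ (-a))
  have b : ∀ᵐ t, ‖x - γ t‖ ^ (-a) ≤ c ^ (-a) * dc s t ^ (-a) := (ae_dc s).mono fun t ht => by
    rw [← Real.mul_rpow hc.le (dc_nonneg _ _)]
    exact Real.rpow_le_rpow_of_nonpos (mul_pos hc ((dc_nonneg _ _).lt_of_ne' ht)) (hs t)
      (by linarith)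
  have m : Measurable fun t => ‖x - γ t‖ ^ (-a) :=
    (continuous_const.sub h.smooth.continuous).norm.measurable.pow_const _
  have j := i.mono_fun' m.aestronglyMeasurable (ae_restrict_of_ae (b.mono fun t ht =>
    (Real.norm_of_nonneg (by positivity)).trans_le ht))
  refine ⟨j, (intervalIntegral.integral_mono_ae Real.two_pi_pos.le j i b).trans_eq ?_⟩
  rw [intervalIntegral.integral_const_mul, (dc_int ha s).2]

theorem cont_SL (hA : St_A3) (hG : St_GC) (hμ : 0 < μ) (h : CD Ω γ) {φ : ℝ → ℝ} {B : ℝ}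
    (hφ : Measurable φ) (hB : ∀ t, |φ t| ≤ B) : Continuous (SLo μ γ φ) := by
  obtain ⟨C, C0, hC⟩ := bd_k0' hA hμ
  obtain ⟨K, hK⟩ := sing hG h (a := 1 / 2) (by norm_num) (by norm_num)
  obtain ⟨K', hK'⟩ := sing hG h (a := 1 / 4) (by norm_num) (by norm_num)
  have B0 : 0 ≤ B := (abs_nonneg _).trans (hB 0)
  have K0 : 0 ≤ K := (intervalIntegral.integral_nonneg Real.two_pi_pos.le fun t _ => by
    positivity).trans (hK 0).2
  refine continuous_of_uniform_approx_of_continuous fun u hu => ?_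
  obtain ⟨ε, ε0, hε⟩ := Metric.mem_uniformity_dist.1 hu
  obtain ⟨η, η0, hη⟩ := exists_pos_mul_lt ε0 (2 * C * B * K)
  have d0 : 0 < η ^ 4 := by positivity
  have kc : Continuous fun p : ℂ × ℝ => k0 (μ * max ‖p.1 - γ p.2‖ (η ^ 4)) / (2 * π) := by
    have := h.smooth.continuous
    exact (hA.1.continuousOn.comp_continuous (by fun_prop) fun p =>
      mul_pos hμ (d0.trans_le (le_max_right _ _))).div_const _
  refine ⟨fun x => ∫ t in (0 : ℝ)..(2 * π), φ t • (k0 (μ * max ‖x - γ t‖ (η ^ 4)) / (2 * π)),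
    continuousOn_univ.1 (pcont isOpen_univ kc.continuousOn hφ hB), fun x => hε ?_⟩
  have i1 : IntervalIntegrable (fun t => Gr μ (x - γ t) * φ t) volume 0 (2 * π) := by
    refine ((hK' x).1.const_mul (C * B)).mono_fun' ((((meas_Gr hA μ).comp (continuous_const.sub
      h.smooth.continuous).measurable).mul hφ).aestronglyMeasurable) (.of_forall fun t => ?_)
    simp only [Real.norm_eq_abs, abs_mul]
    rw [mul_right_comm]
    exact mul_le_mul (hC _ (norm_nonneg _)) (hB t) (abs_nonneg _) (by positivity)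
  rw [dist_eq_norm, SLo, ← intervalIntegral.integral_sub i1
    (pint isOpen_univ kc.continuousOn hφ hB (mem_univ x) _ _)]
  refine (intervalIntegral.norm_integral_le_of_norm_le Real.two_pi_pos.le ?_
    ((hK x).1.const_mul (2 * C * B * η))).trans_lt ?_
  · obtain ⟨c, hc, h1⟩ := near hG h
    obtain ⟨s, hs⟩ := h1 x
    filter_upwards [ae_dc s] with t ht _
    have r0 : 0 < ‖x - γ t‖ := (mul_pos hc ((dc_nonneg _ _).lt_of_ne' ht)).trans_le (hs t)
    rw [Gr, smul_eq_mul, mul_comm (φ t), ← sub_mul, norm_mul]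
    generalize ‖x - γ t‖ = r at r0
    rcases le_total (η ^ 4) r with hr | hr
    · rw [max_eq_left hr, sub_self, norm_zero, zero_mul]
      positivity
    · rw [max_eq_right hr]
      have e1 : (η ^ 4) ^ (-(1 / 4) : ℝ) ≤ r ^ (-(1 / 4) : ℝ) :=
        Real.rpow_le_rpow_of_nonpos r0 hr (by norm_num)
      have e2 : r ^ (-(1 / 4) : ℝ) ≤ η * r ^ (-(1 / 2) : ℝ) := by
        rw [show (-(1 / 4) : ℝ) = 1 / 4 + -(1 / 2) by norm_num, Real.rpow_add r0]
        refine mul_le_mul_of_nonneg_right ?_ (by positivity)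
        refine (Real.rpow_le_rpow r0.le hr (by norm_num)).trans_eq ?_
        rw [← Real.rpow_natCast, ← Real.rpow_mul η0.le]
        norm_num
      have e3 := hC r r0.le
      have e4 := hC _ d0.le
      refine (mul_le_mul (b := 2 * C * (η * r ^ (-(1 / 2) : ℝ))) ((norm_sub_le _ _).trans ?_) (hB t)
        (abs_nonneg _) (by positivity)).trans_eq (by ring)
      simp only [Real.norm_eq_abs]
      nlinarith
  · rw [intervalIntegral.integral_const_mul]
    refine (mul_le_mul_of_nonneg_left (hK x).2 (by positivity)).trans_lt ?_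
    linarith

end LAY

open LAY in
theorem st_lay (hA : St_A3) (hG : St_GC) : St_LAY := by
  intro μ hμ
  have c := cd_Gr hA hμ
  have hl : ∀ x ∈ ({0}ᶜ : Set ℂ), lap (Gr μ) x = μ ^ 2 * Gr μ x := fun x hx => lap_Gr hA hμ hx
  have m := (meas_Gr hA μ).aestronglyMeasurable (μ := volume)
  obtain ⟨C, C0, hC⟩ := bd_k0 hA hμ
  obtain ⟨C', -, hC'⟩ := bd_k0' hA hμ
  refine ⟨⟨⟨c.of_le (le_oo 2), hl⟩, c, meas_Gr hA μ, ?_, ?_,
    ⟨C', fun z _ => hC' _ (norm_nonneg z)⟩, fun z hz => ⟨div_pos (hA.2.2.2.2.2.2.2.1 _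
      (mul_pos hμ (norm_pos_iff.2 hz))).2.2.1 Real.two_pi_pos, fun v => D_Gr hA hμ v hz⟩⟩,
    fun Ω γ φ h hφ ⟨B, hB⟩ => ⟨cont_SL hA hG hμ h hφ hB, ?_⟩⟩
  · exact ((int_rad (a := 1 / 4) (by norm_num) hμ).const_mul C).mono' m
      (.of_forall fun z => hC _ (norm_nonneg z))
  · refine (memLp_two_iff_integrable_sq m).2 (((int_rad (a := 1 / 2) (by norm_num)
      (add_pos hμ hμ)).const_mul (C ^ 2)).mono' (m.pow 2) (.of_forall fun z => ?_))
    rw [norm_pow]
    refine (pow_le_pow_left₀ (norm_nonneg _) (hC _ (norm_nonneg z)) 2).trans_eq ?_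
    rw [mul_pow, mul_pow, ← Real.rpow_natCast (‖z‖ ^ _), ← Real.rpow_mul (norm_nonneg z), sq (Real.exp _),
      ← Real.exp_add]
    norm_num
    left
    left
    ring
  · have hU : IsOpen (range γ)ᶜ := (h.fr ▸ isClosed_frontier).isOpen_compl
    have mp : MapsTo (fun p : ℂ × ℝ => p.1 - γ p.2) ((range γ)ᶜ ×ˢ univ) {0}ᶜ :=
      fun p hp e => hp.1 ⟨p.2, (sub_eq_zero.1 e).symm⟩
    have cs : ContDiff ℝ ∞ fun p : ℂ × ℝ => p.1 - γ p.2 := contDiff_fst.sub (h.smooth.comp contDiff_snd)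
    constructor
    · exact har_int (k := fun p => Gr μ (p.1 - γ p.2)) hU
        ((c.comp cs.contDiffOn mp).of_le (le_oo 2)) hφ hB
        fun t x hx => (lap_sub _ _ _).trans (hl _ (mp (x := (x, t)) ⟨hx, trivial⟩))
    · have cn : ContDiff ℝ ∞ fun p : ℂ × ℝ => -nr γ p.2 :=
        ((contDiff_const.mul (contDiff_infty_iff_deriv.1 h.smooth).2).comp contDiff_snd).neg
      have H := har_int (μ := μ) (a := 0) (b := 2 * π)
        (k := fun p => D (-nr γ p.2) (Gr μ) (p.1 - γ p.2)) hU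
        (((((contDiffOn_infty_iff_fderiv_of_isOpen isOpen_compl_singleton).1 c).2.comp cs.contDiffOn
          mp).clm_apply cn.contDiffOn).of_le (le_oo 2)) hφ hB
        fun t x hx => (lap_sub (D (-nr γ t) (Gr μ)) (γ t) x).trans ((har_D _ isOpen_compl_singleton
          (c.of_le (le_oo 3)) hl).2 _ (mp (x := (x, t)) ⟨hx, trivial⟩))
      have e : EqOn (DLo μ γ φ) (fun x => ∫ t in (0 : ℝ)..(2 * π),
          D (-nr γ t) (Gr μ) (x - γ t) * φ t) (range γ)ᶜ := fun x hx =>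
        intervalIntegral.integral_congr fun t _ => by
          simp only [D, D_Gr hA hμ _ (mp (x := (x, t)) ⟨hx, trivial⟩), DLk, norm_sub_rev (γ t) x]
          simp only [rdot]
          simp
          left
          ring
      exact ⟨H.1.congr e, fun x hx => by rw [lap_congr hU e hx, e hx]; exact H.2 x hx⟩

end Pool.Agent.Lib.IS2
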