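import Pool.Agent.Lib.IS2.BlueG
import Pool.Agent.Lib.IS2.B_LAY

/-! The resolvent of the form is given by the Green function. -/

open scoped ContDiff ComplexConjugate Topology Real InnerProductSpace
open Complex MeasureTheory Set Filter

noncomputable section

namespace Pool.Agent.Lib.IS2

open Pool.Agent.Lib.ISO Pool.Agent.Lib.MP_312682_mp

namespace HSQ1

/-- A bounded sequence of the subspace that solves the equations in the limit. -/
theorem weak {X : Type} [NormedAddCommGroup X] [InnerProductSpace ℂ X] [CompleteSpace X]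
    {s : Set X} {h a : X} {x : ℕ → X} {C : ℝ} (A : X →L[ℂ] X) (hx : ∀ n, x n ∈ cl s)
    (hb : ∀ n, ‖x n‖ ≤ C) (hw : ∀ y ∈ s, Tendsto (fun n => ⟪x n - h, y⟫_ℂ) atTop (𝓝 0))
    (ha : Tendsto (fun n => A (x n)) atTop (𝓝 a)) : A (PC s h) = a := by
  let S : Submodule ℂ X :=
    { carrier := {y | Tendsto (fun n => ⟪x n - h, y⟫_ℂ) atTop (𝓝 0)}
      add_mem' := fun {u v} hu hv => by
        simpa only [mem_ofPred_eq, inner_add_right, add_zero] using Tendsto.add hu hv
      zero_mem' := by simp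
      smul_mem' := fun c u hu => by
        simpa only [mem_ofPred_eq, inner_smul_right, mul_zero] using Tendsto.const_mul c hu }
  have hS : IsClosed (S : Set X) :=
    (LipschitzWith.uniformEquicontinuous (fun n y => ⟪x n - h, y⟫_ℂ) (C + ‖h‖).toNNReal
      fun n => (innerSL ℂ (x n - h)).lipschitz.weaken (by
        rw [← NNReal.coe_le_coe, coe_nnnorm, innerSL_apply_norm]
        exact ((norm_sub_le _ _).trans (add_le_add (hb n) le_rfl)).trans
          (Real.le_coe_toNNReal _))).equicontinuous.isClosed_setOfPred_tendsto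
      (f := fun _ => 0) continuous_const
  refine ext_inner_right ℂ fun z => ?_
  have m := PC_mem s (ContinuousLinearMap.adjoint A z)
  have h1 : Tendsto (fun n => ⟪x n - h, PC s (ContinuousLinearMap.adjoint A z)⟫_ℂ) atTop (𝓝 0) :=
    cl_le hS hw m
  have h2 := (ha.inner (𝕜 := ℂ) (tendsto_const_nhds (x := z))).sub_const ⟪A (PC s h), z⟫_ℂ
  refine (sub_eq_zero.1 (tendsto_nhds_unique h2 (h1.congr fun n => ?_))).symm
  rw [← inner_sub_left, ← map_sub, ← ContinuousLinearMap.adjoint_inner_right, PC,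
    ← Submodule.inner_starProjection_left_eq_right, map_sub, ← PC, PC_self (hx n)]

/-! ### The cut-off -/

/-- the factor of the cut-off -/
def sg (e t : ℝ) : ℝ := Real.smoothTransition ((t / e) ^ 2 - 1)
/-- the cut-off of the identity -/
def bt (e t : ℝ) : ℝ := t * sg e t

theorem sg_nn (e t : ℝ) : 0 ≤ sg e t := Real.smoothTransition.nonneg _
theorem sg_le (e t : ℝ) : sg e t ≤ 1 := Real.smoothTransition.le_one _

theorem cd_bt (e : ℝ) : ContDiff ℝ ∞ (bt e) :=
  contDiff_id.mul (Real.smoothTransition.contDiff.comp (by fun_prop))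

theorem bt_zero {e t : ℝ} (he : 0 < e) (h : |t| < e) : bt e t = 0 := by
  rw [bt, sg, Real.smoothTransition.zero_of_nonpos, mul_zero]
  rw [sub_nonpos, sq_le_one_iff_abs_le_one, abs_div, abs_of_pos he, div_le_one he]
  exact h.le

theorem bt_abs (e t : ℝ) : |bt e t| ≤ |t| ∧ |bt e t - t| ≤ |t| := by
  have a := sg_nn e t
  have b := sg_le e t
  rw [bt, show t * sg e t - t = t * (sg e t - 1) by ring, abs_mul, abs_mul, abs_of_nonneg a,
    abs_of_nonpos (sub_nonpos.2 b)]
  constructor <;> nlinarith [abs_nonneg t]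

theorem bt_close {e : ℝ} (he : 0 < e) (t : ℝ) : |bt e t - t| ≤ 2 * e := by
  rcases le_total |t| (2 * e) with h | h
  · exact (bt_abs e t).2.trans h
  · rw [bt, sg, Real.smoothTransition.one_of_one_le, mul_one, sub_self, abs_zero]
    · positivity
    have : 2 ≤ |t / e| := by rwa [abs_div, abs_of_pos he, le_div_iff₀ he]
    rw [← sq_abs]
    nlinarith

theorem bt_der (e t : ℝ) :
    ∃ d, HasDerivAt (bt e) d t ∧ 0 ≤ d ∧ d ≤ 1 + 4 * KT := by
  have h1 := ((Real.smoothTransition.contDiff (n := 1)).differentiable one_ne_zero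
    ((t / e) ^ 2 - 1)).hasDerivAt.comp t ((((hasDerivAt_id t).div_const e).pow 2).sub_const 1)
  have h0 : 0 ≤ deriv Real.smoothTransition ((t / e) ^ 2 - 1) :=
    Real.smoothTransition.monotone.deriv_nonneg
  have hK := one_le_KT
  refine ⟨sg e t + 2 * (t / e) ^ 2 * deriv Real.smoothTransition ((t / e) ^ 2 - 1),
    ((hasDerivAt_id t).mul h1).congr_deriv (by simp [sg]; ring),
    add_nonneg (sg_nn e t) (by positivity), add_le_add (sg_le e t) ?_⟩
  rcases le_or_gt ((t / e) ^ 2) 2 with h | h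
  · have := (le_abs_self _).trans (exists_K.choose_spec.2 ((t / e) ^ 2 - 1))
    change _ ≤ KT at this
    nlinarith [sq_nonneg (t / e)]
  · have : Real.smoothTransition =ᶠ[𝓝 ((t / e) ^ 2 - 1)] fun _ => 1 := by
      filter_upwards [lt_mem_nhds (show 1 < (t / e) ^ 2 - 1 by linarith)] with y hy
      exact Real.smoothTransition.one_of_one_le hy.le
    rw [this.deriv_eq, deriv_const]
    linarith

/-! ### Integration by parts -/

variable {Ω : Set ℂ} {μ : ℝ} {U f a b g : ℂ → ℝ}

theorem int_on (hg : ContinuousOn g Ω) (hb : TR Ω b) : Integrable fun z => g z * b z :=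
  (integrableOn_iff_integrable_of_support_subset (s := tsupport b)
    ((Function.support_mul_subset_right _ _).trans (subset_tsupport _))).1
    (((hg.mono hb.supp).mul hb.smooth.continuous.continuousOn).integrableOn_compact hb.cpt)

theorem tr_D (hb : TR Ω b) (v : ℂ) : TR Ω (LAY.D v b) :=
  ⟨(hb.smooth.fderiv_right (by simp)).clm_apply contDiff_const, hb.cpt.fderiv_apply ℝ v,
    (tsupport_fderiv_apply_subset ℝ v).trans hb.supp⟩

theorem ib (ho : IsOpen Ω) (hg : ContDiffOn ℝ ∞ g Ω) (hb : TR Ω b) (v : ℂ) :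
    ∫ z, g z * LAY.D v b z = -∫ z, LAY.D v g z * b z :=
  integral_mul_fderiv_eq_neg_fderiv_mul_of_integrable
    (int_on (LAY.cd_D (n := ∞) v ho hg).continuousOn hb) (int_on hg.continuousOn (tr_D hb v))
    (int_on hg.continuousOn hb)
    (fun x hx => (hg.contDiffAt (ho.mem_nhds (hb.supp hx))).differentiableAt (by simp))
    fun x _ => hb.diff x

theorem green (ho : IsOpen Ω) (hg : ContDiffOn ℝ ∞ g Ω) (hb : TR Ω b) :
    ∫ z, (LAY.D 1 g z * LAY.D 1 b z + LAY.D I g z * LAY.D I b z) = -∫ z, lap g z * b z ∧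
    ∫ z, (LAY.D 1 g z * LAY.D 1 b z + LAY.D I g z * LAY.D I b z) = -∫ z, g z * lap b z := by
  have c := fun v => LAY.cd_D (n := ∞) v ho hg
  have c2 := fun v => (LAY.cd_D (n := ∞) v ho (c v)).continuousOn
  simp only [LAY.lap_eq, add_mul, mul_add]
  rw [integral_add (int_on (c 1).continuousOn (tr_D hb 1)) (int_on (c I).continuousOn (tr_D hb I)),
    integral_add (int_on (c2 1) hb) (int_on (c2 I) hb),
    integral_add (int_on hg.continuousOn (tr_D (tr_D hb 1) 1))
      (int_on hg.continuousOn (tr_D (tr_D hb I) I)), ib ho hg (tr_D hb 1), ib ho hg (tr_D hb I)]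
  exact ⟨by rw [ib ho (c 1) hb, ib ho (c I) hb]; ring, by ring⟩

theorem inner_tl {F G : ℂ → E3} (hF : MemLp F 2 vol) (hG : MemLp G 2 vol) :
    ⟪tl vol F, tl vol G⟫_ℂ = ∫ z, ⟪F z, G z⟫_ℂ := by
  rw [L2.inner_def]
  refine integral_congr_ae ?_
  filter_upwards [tl_coe hF, tl_coe hG] with z h1 h2
  rw [h1, h2]

theorem mem0 (hf : Continuous f) (hc : HasCompactSupport f) :
    MemLp (fun z => (!₂[(f z : ℂ), 0, 0] : E3)) 2 vol :=
  (continuous_E3 (continuous_ofReal.comp hf) continuous_const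
    continuous_const).memLp_of_hasCompactSupport (HasCompactSupport.intro hc fun z hz =>
      E3_ext (by simp [image_eq_zero_of_notMem_tsupport hz]) rfl rfl)

theorem memD (ha : TR Ω a) : MemLp (Dv μ (cf a)) 2 vol :=
  memLp_Dv_of_compact μ ha.test.1 ha.test.2.1

/-- A classical solution that vanishes at the boundary solves the problem of the form. -/
theorem core (ho : IsOpen Ω) (hb : Bornology.IsBounded Ω) (hc : Continuous U)
    (h0 : ∀ z ∉ Ω, U z = 0) (hs : ContDiffOn ℝ ∞ U Ω) (hf : TR Ω f)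
    (he : ∀ x ∈ Ω, μ ^ 2 * U x - lap U x = f x) :
    GO μ Ω (tl vol fun z => (!₂[(f z : ℂ), 0, 0] : E3)) =
      tl vol fun z => (!₂[((μ ^ 2 * U z : ℝ) : ℂ), 0, 0] : E3) := by
  have cU : HasCompactSupport U := HasCompactSupport.intro hb.isCompact_closure
    fun z hz => h0 z fun h => hz (subset_closure h)
  have iU : ∀ {g : ℂ → ℝ}, Continuous g → Integrable fun z => |U z| * g z := fun hg =>
    (hc.abs.mul hg).integrable_of_hasCompactSupport cU.abs.mul_right
  obtain ⟨e, e0, el⟩ : ∃ e : ℕ → ℝ, (∀ n, 0 < e n) ∧ Tendsto e atTop (𝓝 0) :=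
    ⟨fun n => 1 / (n + 1), fun n => by positivity, tendsto_one_div_add_atTop_nhds_zero_nat⟩
  set a : ℕ → ℂ → ℝ := fun n z => bt (e n) (U z) with ha
  have tr : ∀ n, TR Ω (a n) := fun n => by
    have k1 : IsClosed {z | e n ≤ |U z|} := isClosed_le continuous_const hc.abs
    have k2 : {z | e n ≤ |U z|} ⊆ Ω := fun z hz => by
      by_contra h
      simp only [mem_ofPred_eq, h0 z h, abs_zero] at hz
      exact hz.not_gt (e0 n)
    have k3 : tsupport (a n) ⊆ {z | e n ≤ |U z|} :=
      closure_minimal (fun z hz => not_lt.1 fun h => hz (bt_zero (e0 n) h)) k1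
    refine ⟨contDiff_iff_contDiffAt.2 fun z => ?_, Metric.isCompact_of_isClosed_isBounded
      (isClosed_tsupport _) (hb.subset (k3.trans k2)), k3.trans k2⟩
    by_cases hz : z ∈ Ω
    · exact (cd_bt _).contDiffAt.comp z (hs.contDiffAt (ho.mem_nhds hz))
    · exact contDiffAt_const.congr_of_eventuallyEq
        (notMem_tsupport_iff_eventuallyEq.1 fun h => hz (k2 (k3 h)))
  have pde : ∀ {b : ℂ → ℝ}, TR Ω b →
      ∫ z, lap U z * b z = μ ^ 2 * (∫ z, U z * b z) - ∫ z, f z * b z := fun {b} hb => by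
    rw [← integral_const_mul, ← integral_sub ((int_on hc.continuousOn hb).const_mul _)
      (hf.int_mul hb)]
    refine integral_congr_ae (.of_forall fun z => ?_)
    by_cases hz : z ∈ Ω
    · simp only [← he z hz]; ring
    · simp [image_eq_zero_of_notMem_tsupport fun h => hz (hb.supp h)]
  have mf := mem0 hf.smooth.continuous hf.cpt
  have ep : p0 vol (tl vol fun z => (!₂[(f z : ℂ), 0, 0] : E3)) =
      tl vol fun z => (!₂[(f z : ℂ), 0, 0] : E3) := by
    ext1
    filter_upwards [p0_coe (tl vol fun z => (!₂[(f z : ℂ), 0, 0] : E3)), tl_coe mf] with z h1 h2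
    rw [h1, h2]; rfl
  change p0 vol (PC _ (p0 vol _)) = _
  rw [ep]
  refine weak (x := fun n => (μ : ℂ) • DL vol μ (cf (a n)))
    (C := |μ| * √(μ ^ 2 * (∫ z, |U z| * |U z|) + (1 + 4 * KT) * ∫ z, |U z| * |f z|)) (p0 vol)
    (fun n => Submodule.smul_mem _ _ (mem_cl ⟨_, (tr n).test, rfl⟩)) (fun n => ?_) ?_ ?_
  · rw [norm_smul, norm_real, Real.norm_eq_abs]
    refine mul_le_mul_of_nonneg_left (Real.le_sqrt_of_sq_le ?_) (abs_nonneg _)
    rw [norm_DL (tr n).test.1 (tr n).test.2.1, mass_cf, (tr n).energy]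
    refine add_le_add (mul_le_mul_of_nonneg_left (integral_mono (tr n).memLp.integrable_sq
      (iU hc.abs) fun z => ?_) (sq_nonneg μ)) ?_
    · simpa only [← sq, sq_abs, sq_le_sq] using (bt_abs (e n) (U z)).1
    have c := fun v => (LAY.cd_D (n := ∞) v ho hs).continuousOn
    have g1 := (green ho hs (tr n)).1
    have g2 : ER (a n) ≤ ∫ z, (1 + 4 * KT) *
        (LAY.D 1 U z * LAY.D 1 (a n) z + LAY.D I U z * LAY.D I (a n) z) := by
      refine integral_mono (tr n).int_gs (((int_on (c 1) (tr_D (tr n) 1)).add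
        (int_on (c I) (tr_D (tr n) I))).const_mul _) fun z => ?_
      change r1 (a n) z ^ 2 + r2 (a n) z ^ 2 ≤ _ * (r1 U z * r1 (a n) z + r2 U z * r2 (a n) z)
      by_cases hz : z ∈ Ω
      · obtain ⟨d, d1, d2, d3⟩ := bt_der (e n) (U z)
        have := r_comp ((hs.contDiffAt (ho.mem_nhds hz)).differentiableAt (by simp)) d1
        rw [this.1, this.2]
        nlinarith [mul_nonneg (mul_nonneg d2 (sub_nonneg.2 d3))
          (add_nonneg (sq_nonneg (r1 U z)) (sq_nonneg (r2 U z)))]
      · rw [image_eq_zero_of_notMem_tsupport fun h => hz ((tr n).t1.supp h),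
          image_eq_zero_of_notMem_tsupport fun h => hz ((tr n).t2.supp h)]
        simp
    rw [integral_const_mul, g1, pde (tr n)] at g2
    refine g2.trans (mul_le_mul_of_nonneg_left ?_ (by linarith [one_le_KT]))
    have g3 : 0 ≤ ∫ z, U z * a n z := integral_nonneg fun z => by
      simp only [ha, bt, ← mul_assoc]
      exact mul_nonneg (mul_self_nonneg _) (sg_nn _ _)
    have g4 : ∫ z, f z * a n z ≤ ∫ z, |U z| * |f z| :=
      integral_mono (hf.int_mul (tr n)) (iU hf.smooth.continuous.abs) fun z =>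
        (le_abs_self _).trans (by
          rw [abs_mul, mul_comm]
          exact mul_le_mul_of_nonneg_right (bt_abs _ _).1 (abs_nonneg _))
    nlinarith [mul_nonneg (sq_nonneg μ) g3]
  · have key : ∀ {b : ℂ → ℝ}, TR Ω b → Tendsto (fun n => ⟪(μ : ℂ) • DL vol μ (cf (a n)) -
        tl vol fun z => (!₂[(f z : ℂ), 0, 0] : E3), DL vol μ (cf b)⟫_ℂ) atTop (𝓝 0) := by
      intro b hb
      have t0 : TR Ω (lap b) := hb.lap
      have t := hb.lin t0 (μ ^ 2) (-1)
      have e1 : ∀ n, ⟪(μ : ℂ) • DL vol μ (cf (a n)) -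
          tl vol fun z => (!₂[(f z : ℂ), 0, 0] : E3), DL vol μ (cf b)⟫_ℂ =
          ((μ * ∫ z, (a n z - U z) * (μ ^ 2 * b z + -1 * lap b z) : ℝ) : ℂ) := fun n => by
        have i1 : ⟪DL vol μ (cf (a n)), DL vol μ (cf b)⟫_ℂ = ((∫ z, (μ ^ 2 * (a n z * b z) +
            (r1 (a n) z * r1 b z + r2 (a n) z * r2 b z)) : ℝ) : ℂ) := by
          rw [DL, DL, inner_tl (memD (tr n)) (memD hb), ← integral_complex_ofReal]
          congr 1; ext z
          simp [PiLp.inner_apply, Fin.sum_univ_three, d_cf ((tr n).diff z), d_cf (hb.diff z), cf]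
          ring
        have i2 : ⟪tl vol fun z => (!₂[(f z : ℂ), 0, 0] : E3), DL vol μ (cf b)⟫_ℂ =
            ((∫ z, μ * (f z * b z) : ℝ) : ℂ) := by
          rw [DL, inner_tl mf (memD hb), ← integral_complex_ofReal]
          congr 1; ext z
          simp [PiLp.inner_apply, Fin.sum_univ_three, cf]
          ring
        have s : ∀ {g : ℂ → ℝ}, Continuous g → ∫ z, g z * (μ ^ 2 * b z + -1 * lap b z) =
            μ ^ 2 * (∫ z, g z * b z) - ∫ z, g z * lap b z := fun {g} hg => by
          rw [← integral_const_mul, ← integral_sub ((int_on hg.continuousOn hb).const_mul _)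
            (int_on hg.continuousOn t0)]
          congr 1; ext z; ring
        have g := green ho hs hb
        have g' : ∫ z, U z * lap b z = ∫ z, lap U z * b z := by linarith [g.1, g.2]
        rw [inner_sub_left, inner_smul_left, i1, i2, conj_ofReal, ← ofReal_mul, ← ofReal_sub,
          integral_add (((tr n).int_mul hb).const_mul _) ((tr n).int_rr hb), (tr n).ibp hb,
          integral_const_mul, integral_const_mul]
        simp only [sub_mul]
        rw [integral_sub ((tr n).int_mul t) (int_on hc.continuousOn t), s hc,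
          s (tr n).smooth.continuous, g', pde hb]
        congr 1
        rw [show MP_312682_mp.lap b = lap b from rfl]
        ring
      simp only [e1]
      rw [← ofReal_zero, ← mul_zero μ]
      refine (continuous_ofReal.tendsto _).comp (Tendsto.const_mul _ ?_)
      refine squeeze_zero_norm (a := fun n => ∫ z, 2 * e n * |μ ^ 2 * b z + -1 * lap b z|)
        (fun n => norm_integral_le_of_norm_le (t.int.abs.const_mul _) (.of_forall fun z => ?_)) ?_
      · rw [Real.norm_eq_abs, abs_mul]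
        exact mul_le_mul_of_nonneg_right (bt_close (e0 n) _) (abs_nonneg _)
      · simpa [integral_const_mul] using
          (el.const_mul 2).mul_const (∫ z, |μ ^ 2 * b z + -1 * lap b z|)
    rintro _ ⟨φ, hφ, rfl⟩
    have tp : ∀ L : ℂ →L[ℝ] ℝ, TR Ω fun z => L (φ z) := fun L =>
      have : Function.support (fun z => L (φ z)) ⊆ Function.support φ :=
        fun z hz h => hz (by simp [h])
      ⟨L.contDiff.comp hφ.1, hφ.2.1.mono this, (closure_mono this).trans hφ.2.2⟩
    have e2 : DL vol μ φ = DL vol μ (cf fun z => reCLM (φ z)) +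
        I • DL vol μ (cf fun z => imCLM (φ z)) := by
      have := (DLm μ Ω).map_add ⟨_, (tp reCLM).test⟩ (I • ⟨_, (tp imCLM).test⟩)
      rw [map_smul] at this
      refine Eq.trans (congrArg _ (funext fun z => ?_)) this
      simp [cf, mul_comm I]
    simp only [e2, inner_add_right, inner_smul_right]
    simpa using (key (tp reCLM)).add ((key (tp imCLM)).const_mul I)
  · have mU := mem0 (f := fun z => μ ^ 2 * U z) (continuous_const.mul hc)
      (HasCompactSupport.intro cU fun z hz => by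
        rw [image_eq_zero_of_notMem_tsupport hz, mul_zero])
    rw [tendsto_iff_norm_sub_tendsto_zero]
    refine squeeze_zero (g := fun n => √(∫ z, μ ^ 4 * (2 * e n) * (|U z| * 1)))
      (fun _ => norm_nonneg _) (fun n => Real.le_sqrt_of_sq_le ?_) ?_
    · rw [norm_sq_L2]
      refine integral_mono_ae (integrable_sq_L2 _) ((iU continuous_const).const_mul _) ?_
      filter_upwards [Lp.coeFn_sub (p0 vol ((μ : ℂ) • DL vol μ (cf (a n))))
        (tl vol fun z => (!₂[((μ ^ 2 * U z : ℝ) : ℂ), 0, 0] : E3)),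
        p0_coe ((μ : ℂ) • DL vol μ (cf (a n))), Lp.coeFn_smul (μ : ℂ) (DL vol μ (cf (a n))),
        tl_coe (memD (μ := μ) (tr n)), tl_coe mU] with z h1 h2 h3 h4 h5
      rw [h1, Pi.sub_apply, h2, h3, h5, Pi.smul_apply, DL, h4, norm_sq_E3]
      have : (μ : ℂ) * (μ * a n z) - μ ^ 2 * U z = (μ ^ 2 * (a n z - U z) : ℝ) := by
        push_cast; ring
      simp only [PiLp.sub_apply, PiLp.smul_apply, Dv_0, smul_eq_mul, cf]
      simp [this, -ofReal_sub]
      have := mul_le_mul (bt_close (e0 n) (U z)) (bt_abs (e n) (U z)).2 (abs_nonneg _)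
        (by linarith [e0 n])
      change |a n z - U z| * |a n z - U z| ≤ _ at this
      nlinarith [mul_le_mul_of_nonneg_left this (by positivity : 0 ≤ μ ^ 4)]
    · simpa [integral_const_mul] using
        (((el.const_mul 2).const_mul (μ ^ 4)).mul_const (∫ z, |U z|)).sqrt

theorem cd_DL (hL : St_LAY) (hμ : 0 < μ) {γ : ℝ → ℂ} (h : CD Ω γ) {φ : ℝ → ℝ} (hφ : CP φ) :
    ContDiffOn ℝ ∞ (DLo μ γ φ) Ω := by
  obtain ⟨⟨-, c, -, -, -, -, hd⟩, -⟩ := hL μ hμ
  obtain ⟨B, hB⟩ := isBounded_iff_forall_norm_le.1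
    (hφ.2.isBounded_of_continuous Real.two_pi_pos.ne' hφ.1)
  have mp : MapsTo (fun p : ℂ × ℝ => p.1 - γ p.2) (Ω ×ˢ univ) {0}ᶜ := fun p hp e => by
    have : p.1 ∈ frontier Ω := h.fr ▸ ⟨p.2, (sub_eq_zero.1 e).symm⟩
    exact (h.opn.frontier_eq ▸ this).2 hp.1
  have cs : ContDiff ℝ ∞ fun p : ℂ × ℝ => p.1 - γ p.2 :=
    contDiff_fst.sub (h.smooth.comp contDiff_snd)
  have cn : ContDiff ℝ ∞ fun p : ℂ × ℝ => -nr γ p.2 :=
    ((contDiff_const.mul (contDiff_infty_iff_deriv.1 h.smooth).2).comp contDiff_snd).neg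
  refine contDiffOn_infty.2 fun n => (LAY.pcd (a := 0) (b := 2 * π) h.opn hφ.1.measurable
    (fun t => hB _ ⟨t, rfl⟩) n ℝ (fun p => LAY.D (-nr γ p.2) (Gr μ) (p.1 - γ p.2))
    (((((contDiffOn_infty_iff_fderiv_of_isOpen isOpen_compl_singleton).1 c).2.comp cs.contDiffOn
      mp).clm_apply cn.contDiffOn).of_le (LAY.le_oo n))).congr fun x hx => ?_
  refine intervalIntegral.integral_congr fun t _ => ?_
  simp only [LAY.D, (hd _ (mp (x := (x, t)) ⟨hx, trivial⟩)).2, DLk, norm_sub_rev (γ t) x, rdot]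
  simp
  ring

theorem lap_sub (ho : IsOpen Ω) (ha : ContDiffOn ℝ ∞ a Ω) (hb : ContDiffOn ℝ ∞ b Ω) {x : ℂ}
    (hx : x ∈ Ω) : lap (fun z => a z - b z) x = lap a x - lap b x := by
  have s : ∀ (v : ℂ) {a b : ℂ → ℝ}, ContDiffOn ℝ ∞ a Ω → ContDiffOn ℝ ∞ b Ω →
      EqOn (LAY.D v fun z => a z - b z) (fun z => LAY.D v a z - LAY.D v b z) Ω :=
    fun v a b ha hb z hz => by
      simp only [LAY.D, fderiv_fun_sub ((ha.contDiffAt (ho.mem_nhds hz)).differentiableAt (by simp))
        ((hb.contDiffAt (ho.mem_nhds hz)).differentiableAt (by simp))]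
      rfl
  have t := fun v => (LAY.D_congr v ho (s v ha hb) hx).trans
    (s v (LAY.cd_D (n := ∞) v ho ha) (LAY.cd_D (n := ∞) v ho hb) hx)
  simp only [LAY.lap_eq, t]
  ring

end HSQ1

open HSQ1 in
theorem st_hsq1 (hLAY : St_LAY) (hVP : St_VP) (hNEU : St_NEU) (hPOI : St_POI) (hGRE : St_GRE) :
    St_HSQ1 := by
  intro μ γ Ω hP f f1 f2 f3
  have hf : TR Ω f := ⟨f1, f2, f3⟩
  have ho := hP.cd.opn
  have sV : ContDiff ℝ ∞ (Vp μ f) := by
    refine (funext fun x => ?_ : _ = Vp μ f) ▸ f2.contDiff_convolution_left (n := ⊤)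
      (ContinuousLinearMap.mul ℝ ℝ) f1 (hLAY μ hP.pos).1.2.2.2.1.locallyIntegrable
    simp [Vp, convolution_def, mul_comm]
  have cp : CP fun t => Vp μ f (γ t) :=
    ⟨sV.continuous.comp hP.cd.smooth.continuous, fun t => by simp only [hP.cd.per t]⟩
  obtain ⟨u1, u2, u3, u4, -⟩ := (hPOI μ γ Ω hP).1 _ cp
  have sU := (cd_DL hLAY hP.pos hP.cd ((hNEU μ γ Ω hP).2.2.2.2.2.2.2.2 _ cp).1).congr
    fun x hx => (u4 x hx).1
  obtain ⟨R, hR⟩ := f2.isCompact.isBounded.subset_closedBall 0
  have pV := ((hVP μ f hP.pos hf.memLp ⟨R, fun z hz => image_eq_zero_of_notMem_tsupport fun h =>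
    hz.not_ge (by simpa using hR h)⟩).2 Ω ho (f1.of_le (LAY.le_oo 2)).contDiffOn).2
  set u := fun x => Vp μ f x - Ue μ γ Ω (fun t => Vp μ f (γ t)) x with hu
  have e : EqOn (Ω.indicator u) u Ω := fun x hx => indicator_of_mem hx _
  rw [core (U := Ω.indicator u) ho hP.cd.bdd (continuous_indicator (fun z hz => by
      obtain ⟨t, rfl⟩ := hP.cd.fr ▸ hz
      simp only [hu, u3, sub_self]) (sV.continuous.continuousOn.sub u1))
    (fun z hz => indicator_of_notMem hz _) ((sV.contDiffOn.sub sU).congr e) hf fun x hx => by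
      rw [LAY.lap_congr ho e hx, e hx, hu, lap_sub ho sV.contDiffOn sU hx, u2.2 x hx, ← pV x hx]
      ring]
  congr 1
  ext1 x
  by_cases hx : x ∈ Ω
  · rw [e hx, indicator_of_mem hx, ((hGRE μ γ Ω hP).2.2.1 f hf.memLp (fun z hz =>
      image_eq_zero_of_notMem_tsupport fun h => hz (f3 h)) x hx).2]
  · rw [indicator_of_notMem hx, indicator_of_notMem hx, mul_zero]

end Pool.Agent.Lib.IS2
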