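import Pool.Agent.Lib.IS2.Blue

/-! The Gaussian window against the model kernels. -/

open scoped ContDiff ComplexConjugate Topology Real
open Complex MeasureTheory Set Filter

noncomputable section

namespace Pool.Agent.Lib.IS2

open Pool.Agent.Lib.ISO

namespace J1

def E (σ w b y : ℝ) : ℂ := exp ((σ + I * y) * b + (σ + I * y) ^ 2 * w ^ 2 / 2)

variable {σ w b : ℝ}

theorem E_eq (σ w b y : ℝ) : E σ w b y = exp (((-(w ^ 2 / 2) : ℝ) : ℂ) * y ^ 2 +
    I * (b + σ * w ^ 2) * y + (σ * b + σ ^ 2 * w ^ 2 / 2 : ℝ)) := by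
  rw [E]; congr 1; push_cast
  linear_combination (y ^ 2 * w ^ 2 / 2 : ℂ) * I_sq

theorem norm_E (σ w b y : ℝ) :
    ‖E σ w b y‖ = Real.exp (σ * b + σ ^ 2 * w ^ 2 / 2) * Real.exp (-(w ^ 2 / 2) * y ^ 2) := by
  rw [E_eq, norm_exp, ← Real.exp_add]
  congr 1
  simp [← ofReal_pow, -ofReal_neg]
  ring

theorem cont_E (σ w b : ℝ) : Continuous (E σ w b) := by unfold E; fun_prop

theorem der_E (σ w b y : ℝ) :
    HasDerivAt (E σ w b) (I * ((b + (σ + I * y) * w ^ 2) * E σ w b y)) y := by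
  have h1 : HasDerivAt (fun z : ℂ => σ + I * z) I (y : ℂ) := by
    simpa using ((hasDerivAt_id' (y : ℂ)).const_mul I).const_add (σ : ℂ)
  have := ((h1.mul_const (b : ℂ)).fun_add
    (((h1.fun_pow 2).mul_const ((w : ℂ) ^ 2)).div_const 2)).cexp.comp_ofReal
  refine this.congr_deriv ?_
  rw [E]; push_cast; ring

theorem neg_re (hw : 0 < w) : ((-(w ^ 2 / 2) : ℝ) : ℂ).re < 0 := by
  rw [ofReal_re]; exact neg_lt_zero.2 (by positivity)

theorem intg_E (hw : 0 < w) : Integrable (E σ w b) := by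
  rw [funext (E_eq σ w b)]; exact integrable_cexp_quadratic' (neg_re hw) _ _

theorem int_E (hw : 0 < w) :
    ∫ y, E σ w b y = (√(2 * π) / w * Real.exp (-(b ^ 2 / (2 * w ^ 2))) : ℝ) := by
  have w0 : (w : ℂ) ≠ 0 := ofReal_ne_zero.2 hw.ne'
  rw [funext (E_eq σ w b), integral_cexp_quadratic (neg_re hw), ofReal_mul, ofReal_exp]
  congr 1
  · have : √(2 * π) / w = (π / (w ^ 2 / 2)) ^ (1 / 2 : ℝ) := by
      rw [← Real.sqrt_eq_rpow, show π / (w ^ 2 / 2) = 2 * π / w ^ 2 by field_simp,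
        Real.sqrt_div' _ (sq_nonneg w), Real.sqrt_sq hw.le]
    rw [this, ofReal_cpow (by positivity)]
    push_cast
    rw [neg_neg]
  · congr 1
    push_cast
    rw [mul_pow, I_sq]
    field_simp
    ring

theorem gauss (hw : 0 < w) : ∫ y : ℝ, Real.exp (-(w ^ 2 / 4) * y ^ 2) ≤ 4 / w := by
  rw [integral_gaussian]
  refine Real.sqrt_le_iff.2 ⟨by positivity, ?_⟩
  rw [div_pow, div_le_div_iff₀ (by positivity) (by positivity)]
  nlinarith [Real.pi_le_four, sq_nonneg w]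

theorem intg_g (hw : 0 < w) : Integrable fun y : ℝ => Real.exp (-(w ^ 2 / 4) * y ^ 2) :=
  integrable_exp_neg_mul_sq (by positivity)

theorem tail (hw : 0 < w) {Y : ℝ} (hY : 0 ≤ Y) : ‖(∫ y in (-Y)..Y, E σ w b y) - ∫ y, E σ w b y‖ ≤
    Real.exp (σ * b + σ ^ 2 * w ^ 2 / 2) * Real.exp (-((w * Y) ^ 2 / 4)) * (4 / w) := by
  rw [intervalIntegral.integral_of_le (by linarith), ← integral_add_compl
    (measurableSet_Ioc (a := -Y) (b := Y)) (intg_E hw), sub_add_cancel_left, norm_neg]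
  refine (norm_integral_le_of_norm_le (g := fun y => Real.exp (σ * b + σ ^ 2 * w ^ 2 / 2) *
    Real.exp (-((w * Y) ^ 2 / 4)) * Real.exp (-(w ^ 2 / 4) * y ^ 2))
    ((intg_g hw).const_mul _).integrableOn ?_).trans ?_
  · filter_upwards [ae_restrict_mem measurableSet_Ioc.compl] with y hy
    rw [norm_E, mul_assoc _ (Real.exp _), ← Real.exp_add (-((w * Y) ^ 2 / 4))]
    refine mul_le_mul_of_nonneg_left (Real.exp_le_exp.2 ?_) (Real.exp_pos _).le
    have : Y ^ 2 ≤ y ^ 2 := by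
      simp only [mem_compl_iff, mem_Ioc, not_and_or, not_lt, not_le] at hy
      rcases hy with hy | hy <;> nlinarith
    nlinarith [mul_le_mul_of_nonneg_left this (sq_nonneg w)]
  · rw [integral_const_mul]
    exact mul_le_mul_of_nonneg_left ((setIntegral_le_integral (intg_g hw)
      (Eventually.of_forall fun y => (Real.exp_pos _).le)).trans (gauss hw)) (by positivity)

theorem lone (hw : 0 < w) (hσ : 0 ≤ σ) {T Y : ℝ} (hT : 0 ≤ T) (hY : 0 ≤ Y) :
    ∫ y in (-Y)..Y, ‖(T + (σ + I * y) * w ^ 2) * E σ w b y‖ ≤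
      Real.exp (σ * b + σ ^ 2 * w ^ 2 / 2) * (T + σ * w ^ 2 + w) * (4 / w) := by
  have hc := cont_E σ w b
  refine (intervalIntegral.integral_mono_on (by linarith) (Continuous.intervalIntegrable
    (by fun_prop) _ _) (((intg_g hw).const_mul (Real.exp (σ * b + σ ^ 2 * w ^ 2 / 2) *
      (T + σ * w ^ 2 + w))).intervalIntegrable) fun y _ => ?_).trans ?_
  · have h1 : ‖(T + (σ + I * y) * w ^ 2 : ℂ)‖ ≤ T + σ * w ^ 2 + |y| * w ^ 2 := by
      rw [show (T + (σ + I * y) * w ^ 2 : ℂ) = ((T + σ * w ^ 2 : ℝ) : ℂ) + I * (y * w ^ 2 : ℝ) by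
        push_cast; ring]
      refine (norm_add_le _ _).trans_eq ?_
      rw [norm_mul, norm_I, one_mul, norm_real, norm_real, Real.norm_eq_abs, Real.norm_eq_abs,
        abs_of_nonneg (by positivity), abs_mul, abs_of_nonneg (sq_nonneg w)]
    have h2 : Real.exp (-(w ^ 2 / 2) * y ^ 2) =
        Real.exp (-(w ^ 2 / 4) * y ^ 2) * Real.exp (-(w ^ 2 / 4) * y ^ 2) := by
      rw [← Real.exp_add]; congr 1; ring
    have h3 : Real.exp (-(w ^ 2 / 4) * y ^ 2) ≤ 1 :=
      Real.exp_le_one_iff.2 (by nlinarith [sq_nonneg (w * y)])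
    have h4 : |y| * w * Real.exp (-(w ^ 2 / 4) * y ^ 2) ≤ 1 := by
      rw [neg_mul, Real.exp_neg, ← div_eq_mul_inv, div_le_one (Real.exp_pos _)]
      nlinarith [Real.add_one_le_exp (w ^ 2 / 4 * y ^ 2), sq_nonneg (|y| * w / 2 - 1), sq_abs y]
    have h5 : (T + σ * w ^ 2 + |y| * w ^ 2) * Real.exp (-(w ^ 2 / 4) * y ^ 2) ≤
        T + σ * w ^ 2 + w := by
      have := mul_le_mul_of_nonneg_left h3 (show 0 ≤ T + σ * w ^ 2 by positivity)
      have := mul_le_mul_of_nonneg_left h4 hw.le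
      nlinarith
    rw [norm_mul, norm_E, h2]
    calc _ ≤ (T + σ * w ^ 2 + |y| * w ^ 2) * (Real.exp (σ * b + σ ^ 2 * w ^ 2 / 2) *
          (Real.exp (-(w ^ 2 / 4) * y ^ 2) * Real.exp (-(w ^ 2 / 4) * y ^ 2))) := by gcongr
      _ = Real.exp (σ * b + σ ^ 2 * w ^ 2 / 2) * ((T + σ * w ^ 2 + |y| * w ^ 2) *
          Real.exp (-(w ^ 2 / 4) * y ^ 2)) * Real.exp (-(w ^ 2 / 4) * y ^ 2) := by ring
      _ ≤ _ := by gcongr
  · rw [intervalIntegral.integral_const_mul, intervalIntegral.integral_of_le (by linarith)]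
    exact mul_le_mul_of_nonneg_left ((setIntegral_le_integral (intg_g hw)
      (Eventually.of_forall fun y => (Real.exp_pos _).le)).trans (gauss hw)) (by positivity)

theorem main0 (hw : 0 < w) (T d : ℝ) (hd : 0 ≤ d) {Y : ℝ} (hY : 0 ≤ Y) :
    ‖(∫ y in (-Y)..Y, (T + (σ + I * y) * w ^ 2) * E σ w (T - 2 * d) y) -
      (2 * d * √(2 * π) / w * Real.exp (-((T - 2 * d) ^ 2 / (2 * w ^ 2))) : ℝ)‖ ≤
    Real.exp (σ * (T - 2 * d) + σ ^ 2 * w ^ 2 / 2) * Real.exp (-((w * Y) ^ 2 / 4)) *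
      (2 + 2 * d * (4 / w)) := by
  have hc := cont_E σ w (T - 2 * d)
  have e1 := intervalIntegral.integral_eq_sub_of_hasDerivAt (a := -Y) (b := Y)
    (fun y _ => der_E σ w (T - 2 * d) y) (Continuous.intervalIntegrable (by fun_prop) _ _)
  have e2 : ∫ y in (-Y)..Y, (T + (σ + I * y) * w ^ 2) * E σ w (T - 2 * d) y =
      -I * (E σ w (T - 2 * d) Y - E σ w (T - 2 * d) (-Y)) +
        (2 * d : ℝ) * ∫ y in (-Y)..Y, E σ w (T - 2 * d) y := by
    rw [← e1, ← intervalIntegral.integral_const_mul, ← intervalIntegral.integral_const_mul,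
      ← intervalIntegral.integral_add (Continuous.intervalIntegrable (by fun_prop) _ _)
        (Continuous.intervalIntegrable (by fun_prop) _ _)]
    refine intervalIntegral.integral_congr fun y _ => ?_
    push_cast
    linear_combination (((T - 2 * d : ℂ) + (σ + I * y) * w ^ 2) * E σ w (T - 2 * d) y) * I_sq
  have e3 : ((2 * d * √(2 * π) / w * Real.exp (-((T - 2 * d) ^ 2 / (2 * w ^ 2))) : ℝ) : ℂ) =
      (2 * d : ℝ) * ∫ y, E σ w (T - 2 * d) y := by
    rw [int_E hw, ← ofReal_mul]; congr 1; ring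
  have b1 : ∀ y : ℝ, y ^ 2 = Y ^ 2 → ‖E σ w (T - 2 * d) y‖ ≤
      Real.exp (σ * (T - 2 * d) + σ ^ 2 * w ^ 2 / 2) * Real.exp (-((w * Y) ^ 2 / 4)) := fun y hy => by
    rw [norm_E, hy]
    exact mul_le_mul_of_nonneg_left (Real.exp_le_exp.2 (by nlinarith [sq_nonneg (w * Y)]))
      (Real.exp_pos _).le
  have b2 := (norm_sub_le _ _).trans (add_le_add (b1 Y rfl) (b1 (-Y) (neg_sq Y)))
  have b3 := mul_le_mul_of_nonneg_left (tail (σ := σ) (b := T - 2 * d) hw hY)
    (show 0 ≤ 2 * d by positivity)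
  rw [e2, e3, add_sub_assoc, ← mul_sub]
  refine (norm_add_le _ _).trans ?_
  rw [norm_mul, norm_neg, norm_I, one_mul, norm_mul, norm_real, Real.norm_eq_abs,
    abs_of_nonneg (by positivity)]
  linarith

theorem norm_rt (μ : ℂ) : ‖rt μ‖ = √‖μ‖ := by
  rw [rt, Real.sqrt_eq_rpow, ← norm_cpow_real]; norm_num

theorem rt_pow (μ : ℂ) (p : ℕ) : rt μ ^ p = μ ^ ((p : ℂ) * (1 / 2)) := (cpow_nat_mul _ _ _).symm

theorem lip (p : ℕ) {o : ℝ} (ho : 0 < o) {μ : ℂ} (hμ : ‖μ - I * (o / 2 : ℝ)‖ ≤ o / 4) :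
    ‖μ * rt μ ^ p - I * (o / 2 : ℝ) * rt (I * (o / 2 : ℝ)) ^ p‖ ≤
      (p + 1) * √o ^ p * ‖μ - I * (o / 2 : ℝ)‖ := by
  have him : ∀ z ∈ Metric.closedBall (I * (o / 2 : ℝ)) (o / 4), z ∈ slitPlane ∧ ‖z‖ ≤ o :=
    fun z hz => by
      rw [mem_closedBall_iff_norm] at hz
      have h1 := (abs_le.1 ((abs_im_le_norm _).trans hz)).1
      have h2 := norm_add_le (z - I * (o / 2 : ℝ)) (I * (o / 2 : ℝ))
      rw [sub_add_cancel, norm_mul, norm_I, norm_real, Real.norm_eq_abs,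
        abs_of_pos (half_pos ho)] at h2
      simp only [sub_im, mul_im, I_re, ofReal_im, I_im, ofReal_re] at h1
      exact ⟨Or.inr (by linarith : 0 < z.im).ne', by linarith⟩
  have e : ∀ z ∈ slitPlane, z * rt z ^ p = z ^ ((p : ℂ) * (1 / 2) + 1) := fun z hz => by
    rw [cpow_add _ _ (slitPlane_ne_zero hz), cpow_one, rt_pow, mul_comm]
  have m0 := Metric.mem_closedBall_self (x := I * (o / 2 : ℝ)) (show 0 ≤ o / 4 by positivity)
  have m1 := mem_closedBall_iff_norm.2 hμ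
  rw [e _ (him _ m0).1, e _ (him _ m1).1]
  refine (convex_closedBall _ _).norm_image_sub_le_of_norm_hasDerivWithin_le
    (fun z hz => (hasStrictDerivAt_cpow_const (him z hz).1).hasDerivAt.hasDerivWithinAt)
    (fun z hz => ?_) m0 m1
  rw [add_sub_cancel_right, ← rt_pow, norm_mul, norm_pow, norm_rt]
  refine mul_le_mul ((norm_add_le _ _).trans ?_) (pow_le_pow_left₀ (Real.sqrt_nonneg _)
    (Real.sqrt_le_sqrt (him z hz).2) p) (by positivity) (by positivity)
  simp only [norm_mul, norm_natCast, norm_div, norm_one, norm_ofNat]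
  linarith [Nat.cast_nonneg (α := ℝ) p]

theorem ze_mu (q : ℕ) (h y : ℝ) : ze q h (mu q h y) = ((Tt q h)⁻¹ : ℝ) + I * y := by
  rw [ze, mu]; push_cast; ring

theorem Gs_mu (q : ℕ) (h y : ℝ) : Gs q h (mu q h y) = E (Tt q h)⁻¹ (ww q h) (Tt q h) y := by
  rw [Gs, ze_mu, E]

theorem Gs_exp (q : ℕ) (h y d : ℝ) : Gs q h (mu q h y) * exp (-(2 * mu q h y * d)) =
    exp (-(I * om q h * d)) * E (Tt q h)⁻¹ (ww q h) (Tt q h - 2 * d) y := by
  rw [Gs_mu, E, E, ← exp_add, ← exp_add, mu]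
  congr 1
  push_cast; ring

theorem small (q : ℕ) : ∃ h0 : ℝ, ∀ h, h0 ≤ h →
    om q h * h ^ 2 * Real.exp (-((h ^ 2) ^ 2 / 4)) ≤ 1 := by
  have := (Real.tendsto_pow_mul_exp_neg_atTop_nhds_zero (3 * q + 2)).eventually_le_const one_pos
  refine eventually_atTop.1 ?_
  filter_upwards [this, eventually_ge_atTop 2] with h h1 h2
  refine le_trans ?_ h1
  rw [om, ← pow_add]
  refine mul_le_mul_of_nonneg_left (Real.exp_le_exp.2 ?_) (by positivity)
  have : 4 ≤ h ^ 2 := by nlinarith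
  nlinarith

end J1

open J1 in
theorem st_j1 : St_J1 := by
  intro q p hq
  obtain ⟨h0, hs⟩ := small q
  refine ⟨Real.exp 2 * (24 * (p + 1) + 10), max h0 3, fun h hh => ?_⟩
  replace hs := hs h ((le_max_left _ _).trans hh)
  have h3 : 3 ≤ h := (le_max_right _ _).trans hh
  have hp : 0 < h := by linarith
  have h1 : 1 ≤ h := by linarith
  have p0 := Nat.cast_nonneg (α := ℝ) p
  have e2 := Real.exp_pos 2
  have ho : 0 < om q h := pow_pos hp _
  have hT : 0 < Tt q h := inv_pos.2 (pow_pos hp _)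
  have hσ : (Tt q h)⁻¹ = h ^ (q + 2) := inv_inv _
  have hw : 0 < ww q h := div_pos hT (by positivity)
  have hY : 0 < YY q h := div_pos (by positivity) hT
  have wY : ww q h * YY q h = h ^ 2 := by rw [ww, YY]; field_simp
  have Tw : Tt q h / ww q h = h ^ 2 := by rw [ww]; field_simp
  have σw : (Tt q h)⁻¹ * ww q h = (h ^ 2)⁻¹ := by rw [ww]; field_simp
  have h9 : 9 ≤ h ^ 2 := by nlinarith
  have i1 : (h ^ 2)⁻¹ ≤ 1 := inv_le_one_of_one_le₀ (by linarith)
  have i0 : 0 < (h ^ 2)⁻¹ := by positivity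
  have σY : (Tt q h)⁻¹ ≤ YY q h := by
    rw [YY, div_eq_mul_inv]
    exact le_mul_of_one_le_left (by positivity) (one_le_pow₀ h1)
  have Yo : YY q h * h ^ 2 ≤ om q h := by
    rw [YY, div_eq_mul_inv, hσ, ← pow_add, ← pow_add]
    exact pow_le_pow_right₀ h1 (by omega)
  have Y6 : h ^ 6 / Tt q h = YY q h * h ^ 2 := by rw [YY]; ring
  have Y1 : 1 ≤ YY q h * h ^ 2 := by
    rw [YY, div_eq_mul_inv, hσ, ← pow_add, ← pow_add]
    exact one_le_pow₀ h1
  have K : ∀ d : ℝ, Real.exp ((Tt q h)⁻¹ * (Tt q h - 2 * d) + (Tt q h)⁻¹ ^ 2 * ww q h ^ 2 / 2) ≤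
      Real.exp 2 * (Real.exp (-(d / Tt q h)) * Real.exp (-(d / Tt q h))) := fun d => by
    rw [← Real.exp_add, ← Real.exp_add, ← mul_pow, σw, mul_sub, inv_mul_cancel₀ hT.ne']
    refine Real.exp_le_exp.2 ?_
    rw [div_eq_mul_inv d]
    nlinarith
  have K0 : Real.exp ((Tt q h)⁻¹ * Tt q h + (Tt q h)⁻¹ ^ 2 * ww q h ^ 2 / 2) ≤ Real.exp 2 := by
    simpa using K 0
  have L : (Tt q h + (Tt q h)⁻¹ * ww q h ^ 2 + ww q h) * (4 / ww q h) ≤ 12 * h ^ 2 := by
    have : (Tt q h + (Tt q h)⁻¹ * ww q h ^ 2 + ww q h) * (4 / ww q h) =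
        4 * (Tt q h / ww q h + (Tt q h)⁻¹ * ww q h + 1) := by field_simp
    rw [this, Tw, σw]
    linarith
  have l1' := fun b => lone (σ := (Tt q h)⁻¹) (b := b) hw (by positivity) hT.le hY.le
  have nG : ∀ y : ℝ, y ^ 2 = YY q h ^ 2 → ‖Gs q h (mu q h y)‖ ≤
      Real.exp 2 * (24 * (p + 1) + 10) * Real.exp (-(h ^ 4 / 2)) := fun y hy => by
    rw [Gs_mu, norm_E, hy, show -(ww q h ^ 2 / 2) * YY q h ^ 2 = -((ww q h * YY q h) ^ 2 / 2) by ring,
      wY, ← pow_mul]
    exact mul_le_mul_of_nonneg_right (K0.trans (le_mul_of_one_le_right e2.le (by linarith)))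
      (Real.exp_pos _).le
  refine ⟨fun d hd => ?_, ?_, nG _ rfl, nG _ (neg_sq _), fun μ => ?_⟩
  · obtain ⟨m0, hm0⟩ : ∃ m0 : ℂ, m0 = I * (om q h / 2 : ℝ) * rt (I * (om q h / 2 : ℝ)) ^ p := ⟨_, rfl⟩
    obtain ⟨F, hF⟩ : ∃ F : ℝ → ℂ, F = fun y : ℝ => (Tt q h + (((Tt q h)⁻¹ : ℝ) + I * y) * ww q h ^ 2) *
      E (Tt q h)⁻¹ (ww q h) (Tt q h - 2 * d) y := ⟨_, rfl⟩
    obtain ⟨m, hm⟩ : ∃ m : ℝ → ℂ, m = fun y => mu q h y * rt (mu q h y) ^ p := ⟨_, rfl⟩
    have hc := cont_E (Tt q h)⁻¹ (ww q h) (Tt q h - 2 * d)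
    have cF : Continuous F := by rw [hF]; fun_prop
    have cμ : Continuous (mu q h) := by unfold mu; fun_prop
    have cm : Continuous m := by
      rw [hm]
      refine cμ.mul (Continuous.pow (continuous_iff_continuousAt.2 fun y => ?_) _)
      exact (continuousAt_cpow_const (Or.inl (by simpa [mu] using hT))).comp cμ.continuousAt
    have eM : Mp q h p d = exp (-(I * om q h * d)) * ((∫ y in (-YY q h)..YY q h, F y * (m y - m0)) +
        m0 * ∫ y in (-YY q h)..YY q h, F y) := by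
      rw [← intervalIntegral.integral_const_mul, ← intervalIntegral.integral_add
        (Continuous.intervalIntegrable (by fun_prop) _ _)
        (Continuous.intervalIntegrable (by fun_prop) _ _), ← intervalIntegral.integral_const_mul]
      refine intervalIntegral.integral_congr fun y _ => ?_
      simp only [hF, hm, Gs', ze_mu]
      linear_combination ((Tt q h + (((Tt q h)⁻¹ : ℝ) + I * y) * ww q h ^ 2 : ℂ) *
        (mu q h y * rt (mu q h y) ^ p)) * Gs_exp q h y d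
    have so : 0 ≤ √(om q h) ^ p := by positivity
    have nm0 : ‖m0‖ ≤ om q h * √(om q h) ^ p := by
      have : ‖I * (om q h / 2 : ℝ)‖ ≤ om q h := by
        rw [norm_mul, norm_I, norm_real, Real.norm_eq_abs, abs_of_pos (half_pos ho)]; linarith
      rw [hm0, norm_mul, norm_pow, norm_rt]
      gcongr
    have nm : ∀ y ∈ Icc (-YY q h) (YY q h), ‖m y - m0‖ ≤ (p + 1) * √(om q h) ^ p * (2 * YY q h) :=
      fun y hy => by
        have : ‖mu q h y - I * (om q h / 2 : ℝ)‖ ≤ 2 * YY q h := by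
          refine ((congrArg norm (ze_mu q h y)).trans_le (norm_add_le _ _)).trans ?_
          rw [norm_mul, norm_I, norm_real, norm_real, Real.norm_eq_abs, Real.norm_eq_abs,
            abs_of_pos (inv_pos.2 hT)]
          linarith [abs_le.2 hy]
        rw [hm, hm0]
        exact (lip p ho (this.trans (by nlinarith))).trans (by gcongr)
    have x0 := Real.exp_pos (-(d / Tt q h))
    have x1 : Real.exp (-(d / Tt q h)) ≤ 1 := Real.exp_le_one_iff.2 (neg_nonpos.2 (by positivity))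
    have x2 : d / Tt q h * Real.exp (-(d / Tt q h)) ≤ 1 := by
      rw [Real.exp_neg, ← div_eq_mul_inv, div_le_one (Real.exp_pos _)]
      linarith [Real.add_one_le_exp (d / Tt q h)]
    have b1 : ‖∫ y in (-YY q h)..YY q h, F y * (m y - m0)‖ ≤
        Real.exp 2 * Real.exp (-(d / Tt q h)) * (12 * h ^ 2) *
          ((p + 1) * √(om q h) ^ p * (2 * YY q h)) := by
      refine (intervalIntegral.norm_integral_le_of_norm_le (by linarith) (g := fun y => ‖F y‖ *
        ((p + 1) * √(om q h) ^ p * (2 * YY q h))) (Eventually.of_forall fun y hy => ?_)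
        (Continuous.intervalIntegrable (by fun_prop) _ _)).trans ?_
      · rw [norm_mul]
        exact mul_le_mul_of_nonneg_left (nm y (Ioc_subset_Icc_self hy)) (norm_nonneg _)
      · rw [intervalIntegral.integral_mul_const]
        refine mul_le_mul_of_nonneg_right ?_ (by positivity)
        rw [hF]
        refine (l1' _).trans ?_
        rw [mul_assoc]
        exact mul_le_mul ((K d).trans (mul_le_mul_of_nonneg_left
          (mul_le_of_le_one_right x0.le x1) e2.le)) L (by positivity) (by positivity)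
    have b2 : ‖(∫ y in (-YY q h)..YY q h, F y) - ga q h d‖ ≤ Real.exp 2 * Real.exp (-(d / Tt q h)) *
        (10 * h ^ 2 * Real.exp (-((h ^ 2) ^ 2 / 4))) := by
      rw [hF, ga]
      refine (main0 hw _ d hd hY.le).trans ?_
      have a : Real.exp (-(d / Tt q h)) * (2 + 2 * d * (4 / ww q h)) ≤ 10 * h ^ 2 := by
        have : 2 * d * (4 / ww q h) = 8 * (Tt q h / ww q h) * (d / Tt q h) := by field_simp; ring
        rw [this, Tw]
        nlinarith
      rw [wY]
      calc _ ≤ Real.exp 2 * (Real.exp (-(d / Tt q h)) * Real.exp (-(d / Tt q h))) *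
            Real.exp (-((h ^ 2) ^ 2 / 4)) * (2 + 2 * d * (4 / ww q h)) := by gcongr; exact K d
        _ = Real.exp 2 * Real.exp (-(d / Tt q h)) * (Real.exp (-(d / Tt q h)) *
            (2 + 2 * d * (4 / ww q h)) * Real.exp (-((h ^ 2) ^ 2 / 4))) := by ring
        _ ≤ _ := by gcongr
    have ne : ‖exp (-(I * om q h * d))‖ = 1 := by rw [norm_exp]; simp
    rw [eM, ← hm0, mul_comm m0 (exp _), mul_assoc _ m0, ← mul_sub, norm_mul, ne, one_mul, add_sub_assoc,
      ← mul_sub, Y6]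
    refine (norm_add_le _ _).trans ?_
    rw [norm_mul]
    have b3 := mul_le_mul nm0 b2 (norm_nonneg _) (by positivity)
    have b4 := mul_le_mul_of_nonneg_left (hs.trans Y1)
      (show 0 ≤ 10 * Real.exp 2 * Real.exp (-(d / Tt q h)) * √(om q h) ^ p by positivity)
    linarith
  · simp only [Gs', ze_mu, Gs_mu]
    refine (l1' _).trans ?_
    rw [mul_assoc]
    exact (mul_le_mul K0 L (by positivity) e2.le).trans (by
      rw [mul_assoc]; exact mul_le_mul_of_nonneg_left (by nlinarith) e2.le)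
  · have h1 : HasDerivAt (ze q h) 1 μ := (hasDerivAt_id' μ).sub_const _
    refine ((h1.mul_const (Tt q h : ℂ)).fun_add
      (((h1.fun_pow 2).mul_const ((ww q h : ℂ) ^ 2)).div_const 2)).cexp.congr_deriv ?_
    rw [Gs', Gs]; push_cast; ring

end Pool.Agent.Lib.IS2
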