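import Pool.Agent.Lib.IS2.B_J22

/-! The resonant double integral. -/

open scoped ContDiff ComplexConjugate Topology Real
open Complex MeasureTheory Set Filter

noncomputable section

namespace Pool.Agent.Lib.IS2

open Pool.Agent.Lib.ISO intervalIntegral

namespace J2

lemma g0_eq (q p : ℕ) (h : ℝ) {d : ℝ} (d0 : 0 < d) :
    g0 q h p d = GG (3 * (p : ℝ) / 2 - 2) (Tt q h) (ww q h) d := by
  rw [g0, ga, GG, show 3 * (p : ℝ) / 2 - 2 = 3 * (p : ℝ) / 2 - 3 + 1 by ring, Real.rpow_add_one d0.ne',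
    div_pow, div_div, mul_comm (ww q h ^ 2)]
  ring

lemma tn_eq (M W : ℕ) (a0 : ℂ) (s : ℝ) :
    tn M W a0 0 s = 2 * amp M W * ‖a0‖ * Real.cos ((W : ℝ) ^ 2 * s + arg a0) := by
  have : a0 * exp (I * (W : ℂ) ^ 2 * s) = (‖a0‖ : ℝ) * exp (((W : ℝ) ^ 2 * s + arg a0 : ℝ) * I) := by
    conv_lhs => rw [← norm_mul_exp_arg_mul_I a0, mul_assoc, ← exp_add]
    push_cast; ring_nf
  rw [tn, zero_mul, add_zero, this, re_ofReal_mul, exp_ofReal_mul_I_re, mul_assoc (2 * _)]

lemma par {q : ℕ} (hq : 4 ≤ q) {h : ℝ} (h8 : 8 ≤ h) : 0 < Tt q h ∧ Tt q h ≤ 1 ∧ 0 < om q h ∧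
    h ^ 6 / (om q h * Tt q h) ≤ 1 ∧
    h * Real.exp (-(h ^ 4 / 32)) ≤ 32 ^ q * q.factorial * (h ^ 6 / (om q h * Tt q h)) := by
  have h1 : 1 ≤ h := by linarith
  have h0 : 0 < h := by linarith
  have e : h ^ 6 / (om q h * Tt q h) = h ^ (q + 8) / h ^ (3 * q) := by
    rw [om, Tt]; field_simp; ring
  refine ⟨by unfold Tt; positivity, inv_le_one_of_one_le₀ (one_le_pow₀ h1), by unfold om; positivity,
    ?_, ?_⟩
  · rw [e, div_le_one (by positivity)]; exact pow_le_pow_right₀ h1 (by omega)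
  · have := Real.pow_div_factorial_le_exp (h ^ 4 / 32) (by positivity) q
    rw [e, Real.exp_neg, ← div_eq_mul_inv]
    refine (div_le_div_of_nonneg_left h0.le (by positivity) this).trans ?_
    rw [show h / ((h ^ 4 / 32) ^ q / q.factorial) = 32 ^ q * q.factorial * (h ^ 1 / h ^ (4 * q)) by
      rw [div_pow, pow_mul]; field_simp]
    gcongr <;> first | exact h1 | omega

end J2

open J2

theorem st_j2 : St_J2 := by
  intro j q p hq
  obtain ⟨c, C, c0, C0, H⟩ := gf (3 * (p : ℝ) / 2 - 2)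
  set J : ℝ := (p + 1) * (|j| + 1) ^ (p + 1) with hJ
  have J0 : 0 ≤ J := by positivity
  refine ⟨c, C + C * J * (1200 * (32 ^ q * q.factorial) + 664), 8, c0, fun h h8 => ?_⟩
  obtain ⟨T0, T1, o0, d1, ex⟩ := par hq h8
  obtain ⟨lo, up, mid, osc⟩ := H h _ (ww q h) h8 T0 T1 rfl
  have h0 : 0 < h := by linarith
  have hw : ww q h = Tt q h / h ^ 2 := rfl
  have hg := fun d => @g0_eq q p h d
  have hjp : jp q h p = ∫ d in (2 * Tt q h / h)..π, g0 q h p d := rfl
  generalize 3 * (p : ℝ) / 2 - 2 = a at *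
  generalize g0 q h p = g at *
  generalize jp q h p = jj at *
  have r0 : Tt q h / (2 * h) ≤ 2 * Tt q h / h := by
    rw [div_le_div_iff₀ (by positivity) h0]; nlinarith [mul_pos T0 h0]
  have r1 : 0 < Tt q h / (2 * h) := by positivity
  have rp : 2 * Tt q h / h ≤ π := by rw [div_le_iff₀ h0]; nlinarith [Real.pi_gt_three]
  set gt : ℝ → ℝ := fun d => GG a (Tt q h) (ww q h) (max |d| (Tt q h / (2 * h))) with hgt
  have m0 : ∀ d : ℝ, 0 < max |d| (Tt q h / (2 * h)) := fun d => lt_max_of_lt_right r1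
  have g1 : ∀ d ∈ uIcc (2 * Tt q h / h) π, gt d = GG a (Tt q h) (ww q h) d := fun d hd => by
    rw [uIcc_of_le rp] at hd
    rw [hgt]; dsimp only
    rw [abs_of_pos (r1.trans_le (r0.trans hd.1)), max_eq_left (r0.trans hd.1)]
  have j1 : jj = ∫ d in (2 * Tt q h / h)..π, GG a (Tt q h) (ww q h) d :=
    hjp.trans (integral_congr fun d hd => hg d (by
      rw [uIcc_of_le rp] at hd; exact r1.trans_le (r0.trans hd.1)))
  have Ta : 0 ≤ Tt q h ^ a := by positivity
  rw [← j1] at lo up
  refine ⟨lo, up.trans (by gcongr; exact le_add_of_nonneg_right (by positivity)), ?_⟩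
  intro M W κ ρ w a0 η hW pκ bκ pρ hw' ha η0 η1 hs
  have cgt : Continuous gt := by
    unfold gt GG
    exact (continuous_const.mul ((by fun_prop : Continuous fun d : ℝ => max |d| (Tt q h / (2 * h))).rpow_const
      fun d => Or.inl (m0 d).ne')).mul (by fun_prop)
  have cκ := pκ.smooth.continuous
  have cκ' := pκ.smooth.continuous_deriv (by simp)
  have cρ := pρ.smooth.continuous
  have cw : Continuous fun x : ℝ × ℝ => w x.1 (x.1 + x.2) :=
    hw'.cont.comp (continuous_fst.prodMk (continuous_fst.add continuous_snd))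
  set L := amp M W ^ 2 / om q h ^ 4 with hL
  have L0 : 0 ≤ L := by positivity
  set δ := h ^ 6 / (om q h * Tt q h) with hδ
  have δ0 : 0 ≤ δ := by positivity
  have h1 : 1 ≤ h := by linarith
  have w1 : 1 / (ww q h * om q h) ≤ δ := by
    rw [hδ, hw, show 1 / (Tt q h / h ^ 2 * om q h) = h ^ 2 / (om q h * Tt q h) by field_simp]
    gcongr; omega
  have k0 : ∀ s, |κ s| ≤ |j| + 1 := fun s => by
    have := bκ 0 (by norm_num) s
    rw [iteratedDeriv_zero] at this
    linarith [le_abs_self j]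
  have k1 : ∀ s, |deriv κ s| ≤ |j| + 1 := fun s => by
    have := bκ 1 (by norm_num) s
    rw [iteratedDeriv_one] at this
    linarith [le_abs_self j]
  have j2 : 1 ≤ |j| + 1 := by linarith [abs_nonneg j]
  have kp0 : ∀ s, |κ s ^ p| ≤ J := fun s => by
    rw [abs_pow]
    exact ((pow_le_pow_left₀ (abs_nonneg _) (k0 s) p).trans (pow_le_pow_right₀ j2 p.le_succ)).trans
      (le_mul_of_one_le_left (by positivity) (by linarith [p.cast_nonneg (α := ℝ)]))
  have β2 : (-(2 * amp M W * ‖a0‖) / om q h ^ 2) ^ 2 / 2 = L * (2 * ‖a0‖ ^ 2) := by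
    rw [hL]; field_simp
  have a4 : ‖a0‖ ^ 2 ≤ 4 := by nlinarith [norm_nonneg a0]
  have S := sint (τ := fun s => -tn M W a0 0 s / om q h ^ 2) (k := fun s => κ s ^ p)
    (k' := fun s => p * κ s ^ (p - 1) * deriv κ s) (o := om q h) (φ := arg a0)
    (β := -(2 * amp M W * ‖a0‖) / om q h ^ 2) (L := L) (e := η + δ) (J := J) cρ (by fun_prop) pρ.per
    (fun s => by
      rw [tn_eq, tn_eq, ← Real.cos_add_nat_mul_two_pi (_ * s + _) (W ^ 2)]
      push_cast; ring_nf)
    (fun s => by rw [tn_eq, hW]; ring) (by nlinarith)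
    (fun s => (pκ.smooth.differentiable (by simp) s).hasDerivAt.fun_pow p) kp0
    (fun s => by
      rw [abs_mul, abs_mul, abs_pow, hJ, pow_succ, ← mul_assoc, Nat.abs_cast]
      gcongr
      · linarith
      · exact (pow_le_pow_left₀ (abs_nonneg _) (k0 s) _).trans (pow_le_pow_right₀ j2 (by omega))
      · exact k1 s) o0
    (by
      refine le_trans ?_ (le_add_of_nonneg_left η0)
      rw [hδ, le_div_iff₀ (by positivity), inv_mul_cancel_left₀ o0.ne']
      exact T1.trans (one_le_pow₀ h1))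
    (by linarith)
    (by
      simp only [neg_div, sub_neg_eq_add]
      exact hs.trans (by gcongr; linarith))
  set Φ : ℝ → ℝ := fun d => ∫ s in (0 : ℝ)..(2 * π), w s (s + d) * (ρ s * ρ (s + d)) * κ s ^ p with hΦ
  have cF : Continuous fun x : ℝ × ℝ => w x.1 (x.1 + x.2) * (ρ x.1 * ρ (x.1 + x.2)) * κ x.1 ^ p :=
    (cw.mul (by fun_prop)).mul (by fun_prop)
  have D := dint (Φ := Φ) (o := om q h) (continuous_parametric_intervalIntegral_of_continuous'
    (f := fun d s => w s (s + d) * (ρ s * ρ (s + d)) * κ s ^ p) (cF.comp continuous_swap) _ _)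
    cgt (fun d => by simp only [hgt, abs_neg])
    (fun d => by have := m0 d; simp only [hgt, GG, hw]; positivity) (r1.le.trans r0) rp
    (fun d => (S d).1 (fun s => w s (s + d)) fun s => abs_le.2 ⟨by linarith [hw'.nn s (s + d)], hw'.le _ _⟩)
    (fun d h1 h2 => le_trans (le_of_eq (by
      congr 2
      refine integral_congr fun s _ => ?_
      rw [hw'.one s (s + d) (by
        rw [dc_eq_abs] <;> rw [sub_add_cancel_left, abs_neg] <;> assumption), one_mul])) (S d).2)
    (fun d hd => mid _ (le_max_right _ _) (max_le hd r0))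
    ((congrArg norm (integral_congr fun d hd => by rw [g1 d hd])).trans_le (osc _ o0))
  rw [integral_congr g1, ← j1, β2] at D
  have e1 : ∀ s d, w s (s + d) * (ρ s * ρ (s + d)) * κ s ^ p * g |d| =
      w s (s + d) * (ρ s * ρ (s + d)) * κ s ^ p * gt d := fun s d => by
    rcases le_total |d| (Tt q h / (2 * h)) with b | b
    · rw [hw'.zero s (s + d) ((dc_le_abs _ _).trans (by rwa [sub_add_cancel_left, abs_neg]))]
      simp
    · rw [hg _ (r1.trans_le b), hgt]; dsimp only; rw [max_eq_left b]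
  simp only [e1]
  rw [intervalIntegral_intervalIntegral_swap ((Continuous.continuousOn ((continuous_ofReal.comp
    (cF.mul (cgt.comp continuous_snd))).mul (by fun_prop))).integrableOn_compact (isCompact_uIcc.prod isCompact_uIcc) |>.mono_set
      (prod_mono uIoc_subset_uIcc uIoc_subset_uIcc))]
  simp only [intervalIntegral.integral_mul_const, intervalIntegral.integral_ofReal]
  refine (le_of_eq (by congr 3; ring)).trans (D.trans ?_)
  have b3 : |L * (2 * ‖a0‖ ^ 2) * ∫ s in (0 : ℝ)..(2 * π), κ s ^ p| ≤ L * 8 * (J * 8) := by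
    rw [abs_mul, abs_of_nonneg (by positivity)]
    gcongr
    · linarith
    · refine (norm_integral_le_of_norm_le_const (f := fun s => κ s ^ p) fun s _ => kp0 s).trans ?_
      rw [sub_zero, abs_of_pos Real.two_pi_pos]
      gcongr; linarith [Real.pi_lt_four]
  have δe : δ ≤ η + δ := le_add_of_nonneg_left η0
  have w0 : 0 < ww q h := by rw [hw]; positivity
  calc _ = 1200 * (J * L * C * Tt q h ^ a) * (h * Real.exp (-(h ^ 4 / 32))) + 600 * J * L * (η + δ) * jj +
        |L * (2 * ‖a0‖ ^ 2) * ∫ s in (0 : ℝ)..(2 * π), κ s ^ p| *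
          (C * Tt q h ^ a * (1 / (ww q h * om q h))) := by rw [hw]; field_simp; ring
    _ ≤ 1200 * (J * L * C * Tt q h ^ a) * (32 ^ q * q.factorial * (η + δ)) +
        600 * J * L * (η + δ) * (C * Tt q h ^ a) + L * 8 * (J * 8) * (C * Tt q h ^ a * (η + δ)) := by
      gcongr _ * ?_ + _ * ?_ + ?_ * (_ * ?_)
      · exact ex.trans (by gcongr)
      · exact w1.trans δe
    _ ≤ _ := by
      have : 0 ≤ C * L * Tt q h ^ a * (η + δ) := by positivity
      linarith

end Pool.Agent.Lib.IS2
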