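import Pool.Agent.Lib.IS2.Blue
import Pool.Agent.Lib.ISO.B_FOU

/-! High derivatives of a marked curvature, and what they say about its jets. -/

open scoped ContDiff ComplexConjugate Topology Real
open Complex MeasureTheory Set Filter

noncomputable section

namespace Pool.Agent.Lib.IS2

open Pool.Agent.Lib.ISO

namespace JET2

variable {κ : ℝ → ℝ} {j : ℝ} {c : ℂ} {M W n : ℕ}

theorem fc_le (hb : ∀ s, |κ s| ≤ j) (ξ : ℤ) : ‖fc κ ξ‖ ≤ j := by
  have h0 : 0 < 2 * π := by positivity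
  have h1 : ‖∫ s in (0 : ℝ)..(2 * π), (κ s : ℂ) * exp (-(I * ξ * s))‖ ≤ j * |2 * π - 0| :=
    intervalIntegral.norm_integral_le_of_norm_le_const fun s _ => by
      rw [norm_mul, FOU.norm_ex', mul_one, norm_real]
      exact hb s
  have h2 : ‖(2 * π : ℂ)⁻¹‖ = (2 * π)⁻¹ := by
    rw [norm_inv, norm_mul, norm_real, Real.norm_of_nonneg Real.pi_pos.le]
    norm_num
  rw [fc, norm_mul, h2, inv_mul_le_iff₀ h0, mul_comm _ j]
  rwa [sub_zero, abs_of_pos h0] at h1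

theorem hs_env (c : ℂ) (f : ℤ → ℂ) (w : ℤ) :
    HasSum (fun ξ => env c (ξ - w) * f ξ) (f w + c * f (w + 1)) := by
  have e : (fun ξ => env c (ξ - w) * f ξ) = fun ξ =>
      (if ξ = w then f w else 0) + if ξ = w + 1 then c * f (w + 1) else 0 := by
    funext ξ
    rw [env]
    by_cases h : ξ = w
    · simp [h]
    · by_cases h' : ξ = w + 1
      · simp [h']
      · rw [if_neg (by omega), if_neg (by omega), if_neg h, if_neg h', zero_mul, add_zero]
  rw [e]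
  exact (hasSum_ite_eq w _).add (hasSum_ite_eq (w + 1) _)

theorem conj_env (t : ℤ) : conj (env c t) = env (conj c) t := by
  unfold env
  split_ifs <;> simp

theorem hs_gm {f : ℤ → ℂ} (hf : ∀ ξ, f (-ξ) = conj (f ξ)) :
    HasSum (fun ξ => gm (env c) W ξ * f ξ)
      ((2 * (f ((W : ℤ) ^ 2) + c * f ((W : ℤ) ^ 2 + 1)).re : ℝ) : ℂ) := by
  have h1 := (Equiv.neg ℤ).hasSum_iff.2 (hs_env (conj c) (fun ξ => f (-ξ)) ((W : ℤ) ^ 2))
  have h2 := (hs_env c f ((W : ℤ) ^ 2)).add h1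
  simp only [Function.comp_def, Equiv.neg_apply, neg_neg] at h2
  rw [hf, hf, ← map_mul, ← map_add, add_conj] at h2
  simpa only [gm, conj_env, add_mul] using h2

theorem gm_zero {ξ : ℤ} (h : |ξ| < (W : ℤ) ^ 2 ∨ (W : ℤ) ^ 2 + 1 < |ξ|) : gm (env c) W ξ = 0 := by
  have h0 : (0 : ℤ) ≤ (W : ℤ) ^ 2 := by positivity
  rw [gm, env, env, if_neg, if_neg, if_neg, if_neg, map_zero, add_zero]
  all_goals rcases abs_cases ξ with k | k <;> omega

theorem amp_pos (hW : 2 ≤ W) : 0 < amp M W := by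
  have : (0 : ℝ) < W := by exact_mod_cast (by omega : 0 < W)
  unfold amp
  positivity

theorem term_le (hW : 2 ≤ W) (h : Per (2 * π) κ) (hb : ∀ s, |κ s| ≤ j)
    (hm : Mk M W (env c) (fc κ)) {ξ : ℤ} (hξ : (W : ℤ) < |ξ|) :
    |(ξ : ℝ)| ^ (2 * M + 8) * ‖fc κ ξ - amp M W * gm (env c) W ξ‖ ≤ amp M W := by
  have h0 : ∀ ξ : ℤ, 0 ≤ if (W : ℤ) < |ξ| then (ξ : ℝ) ^ (2 * (2 * M + 8)) *
      ‖fc κ ξ - amp M W * gm (env c) W ξ‖ ^ 2 else 0 := fun ξ => by
    split_ifs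
    · rw [pow_mul]; positivity
    · exact le_rfl
  have h1 : Summable fun ξ : ℤ => if (W : ℤ) < |ξ| then (ξ : ℝ) ^ (2 * (2 * M + 8)) *
      ‖fc κ ξ - amp M W * gm (env c) W ξ‖ ^ 2 else 0 := by
    refine Summable.of_norm_bounded_eventually ((FOU.dec h (2 * (2 * M + 8))).mul_right j) ?_
    filter_upwards [(Finset.Icc (-((W : ℤ) ^ 2 + 1)) ((W : ℤ) ^ 2 + 1)).eventually_cofinite_notMem]
      with x hx
    have h2 := fc_le hb x
    have h3 := norm_nonneg (fc κ x)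
    rw [Finset.mem_Icc, ← abs_le, not_le] at hx
    rw [Real.norm_of_nonneg (h0 x), gm_zero (Or.inr hx), mul_zero, sub_zero,
      (even_two_mul _).pow_abs]
    have h4 : (0 : ℝ) ≤ (x : ℝ) ^ (2 * (2 * M + 8)) := by rw [pow_mul]; positivity
    split_ifs
    · rw [sq, ← mul_assoc]
      exact mul_le_mul_of_nonneg_left h2 (mul_nonneg h4 h3)
    · exact mul_nonneg (mul_nonneg h4 h3) (h3.trans h2)
  have h2 := (h1.le_tsum ξ fun x _ => h0 x).trans (le_of_lt hm)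
  rw [if_pos hξ, ← (even_two_mul _).pow_abs, mul_comm 2, pow_mul, ← mul_pow] at h2
  exact (pow_le_pow_iff_left₀ (by positivity) (amp_pos hW).le two_ne_zero).1 h2

/-- the sum of the inverse squares -/
def C0 : ℝ := ∑' ξ : ℤ, 1 / (ξ : ℝ) ^ 2

theorem C0_nonneg : 0 ≤ C0 := tsum_nonneg fun _ => by positivity

theorem rem_le (hW : 2 ≤ W) (h : Per (2 * π) κ) (hb : ∀ s, |κ s| ≤ j)
    (hm : Mk M W (env c) (fc κ)) (hn : n ≤ 2 * M + 6) (s : ℝ) :
    |iteratedDeriv n κ s - amp M W * (2 * ((I * (W : ℂ) ^ 2) ^ n * exp (I * (W : ℂ) ^ 2 * s) +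
      c * ((I * ((W : ℂ) ^ 2 + 1)) ^ n * exp (I * ((W : ℂ) ^ 2 + 1) * s))).re)| ≤
      3 * W * (j * (W : ℝ) ^ n) + amp M W * C0 := by
  have hA := amp_pos (M := M) hW
  have hj : 0 ≤ j := (abs_nonneg _).trans (hb 0)
  have hW' : (2 : ℤ) ≤ W := by exact_mod_cast hW
  have h1 := FOU.series (FOU.per_iter h n) s
  have h2 := (hs_gm (c := c) (W := W) (f := fun ξ => (I * ξ) ^ n * exp (I * ξ * s)) fun ξ => by
    simp [← exp_conj]).mul_left (amp M W : ℂ)
  have h3 := (hasSum_sum_of_ne_finset_zero (s := win W)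
    (f := fun ξ : ℤ => if ξ ∈ win W then j * (W : ℝ) ^ n else 0) fun ξ hξ => if_neg hξ).add
    ((Real.summable_one_div_int_pow.2 one_lt_two).hasSum.mul_left (amp M W))
  have h4 := (h1.sub h2).norm_le_of_bounded h3 fun ξ => by
    have e : fc (iteratedDeriv n κ) ξ * exp (I * ξ * s) -
        amp M W * (gm (env c) W ξ * ((I * ξ) ^ n * exp (I * ξ * s))) =
        (I * ξ) ^ n * (fc κ ξ - amp M W * gm (env c) W ξ) * exp (I * ξ * s) := by
      rw [FOU.fc_iter h]; ring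
    rw [e, norm_mul, FOU.norm_ex, mul_one, norm_mul, norm_pow, norm_mul, norm_I, one_mul,
      norm_intCast]
    split_ifs with hξ
    · rw [win, Finset.mem_Icc, ← abs_le] at hξ
      rw [gm_zero (Or.inl (by nlinarith)), mul_zero, sub_zero, mul_comm]
      refine le_add_of_le_of_nonneg (mul_le_mul (fc_le hb ξ)
        (pow_le_pow_left₀ (abs_nonneg _) (by exact_mod_cast hξ) n) (by positivity) hj) ?_
      positivity
    · rw [win, Finset.mem_Icc, ← abs_le, not_le] at hξ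
      have h5 : (1 : ℝ) ≤ |(ξ : ℝ)| := by exact_mod_cast (by omega : (1 : ℤ) ≤ |ξ|)
      rw [zero_add, mul_one_div, ← sq_abs, le_div_iff₀ (by positivity), mul_right_comm, ← pow_add]
      exact (mul_le_mul_of_nonneg_right (pow_le_pow_right₀ h5 (by omega)) (norm_nonneg _)).trans
        (term_le hW h hb hm hξ)
  rw [← ofReal_mul, ← ofReal_sub, norm_real, Real.norm_eq_abs] at h4
  push_cast at h4
  refine h4.trans (add_le_add ?_ le_rfl)
  rw [Finset.sum_congr rfl fun ξ hξ => if_pos hξ, Finset.sum_const, nsmul_eq_mul, win,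
    Int.card_Icc]
  refine mul_le_mul_of_nonneg_right ?_ (by positivity)
  exact_mod_cast (by omega : ((W : ℤ) + 1 - -W).toNat ≤ 3 * W)

theorem small (j : ℝ) (hn : 2 * M + 2 ≤ n) {δ : ℝ} (hδ : 0 < δ) : ∀ᶠ W : ℕ in atTop, 2 ≤ W ∧
    3 * W * (j * (W : ℝ) ^ n) + amp M W * C0 +
      amp M W * (2 * ((((W : ℝ) ^ 2 + 1)) ^ n - ((W : ℝ) ^ 2) ^ n)) ≤
      δ * (amp M W * ((W : ℝ) ^ 2) ^ n) := by
  have h1 : Tendsto (fun W : ℕ => (W : ℝ)⁻¹) atTop (𝓝 0) := tendsto_inv_atTop_nhds_zero_nat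
  have h2 : ContinuousAt (fun t : ℝ => 3 * |j| * t + C0 * t + 2 * ((1 + t ^ 2) ^ n - 1)) 0 := by
    fun_prop
  have h3 := (h2.tendsto.comp h1).eventually (gt_mem_nhds (a := δ) (by simpa using hδ))
  filter_upwards [h3, eventually_ge_atTop 2] with W hW h2W
  refine ⟨h2W, le_trans ?_ (mul_le_mul_of_nonneg_right hW.le ?_)⟩
  · have hA := amp_pos (M := M) h2W
    have hx : (1 : ℝ) ≤ W := by exact_mod_cast (by omega : 1 ≤ W)
    have hx0 : (0 : ℝ) < W := by linarith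
    have e1 : (W : ℝ) * (W : ℝ) ^ n ≤ (W : ℝ)⁻¹ * (amp M W * ((W : ℝ) ^ 2) ^ n) := by
      rw [amp, le_inv_mul_iff₀ hx0, le_inv_mul_iff₀ (by positivity), ← pow_mul, ← pow_succ',
        ← pow_succ', ← pow_add]
      exact pow_le_pow_right₀ hx (by omega)
    have e2 : 1 ≤ (W : ℝ)⁻¹ * ((W : ℝ) ^ 2) ^ n := by
      rw [le_inv_mul_iff₀ hx0, mul_one, ← pow_mul]
      exact le_self_pow₀ hx (by omega)
    have e3 : ((W : ℝ) ^ 2 + 1) ^ n = (1 + (W : ℝ)⁻¹ ^ 2) ^ n * ((W : ℝ) ^ 2) ^ n := by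
      rw [← mul_pow]
      congr 1
      field_simp
    have e4 := mul_le_mul (le_abs_self j) e1 (by positivity) (abs_nonneg j)
    have e5 := mul_le_mul_of_nonneg_left e2 (mul_nonneg hA.le C0_nonneg)
    simp only [Function.comp_apply]
    rw [e3]
    nlinarith
  · have hA := amp_pos (M := M) h2W
    positivity

theorem key (j : ℝ) (hn : 2 * M + 2 ≤ n) (hn' : n ≤ 2 * M + 6) {δ : ℝ} (hδ : 0 < δ) :
    ∀ᶠ W : ℕ in atTop, 2 ≤ W ∧ ∀ κ c, Per (2 * π) κ → Bk j κ → ‖c‖ ≤ 1 →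
      Mk M W (env c) (fc κ) → ∀ s : ℝ, |iteratedDeriv n κ s - 2 * (amp M W * ((W : ℝ) ^ 2) ^ n) *
        (I ^ n * (exp (I * (W : ℂ) ^ 2 * s) * (1 + c * exp (I * s)))).re| ≤
        δ * (amp M W * ((W : ℝ) ^ 2) ^ n) := by
  filter_upwards [small j hn hδ] with W ⟨hW, h⟩
  refine ⟨hW, fun κ c hp hb hc hm s => le_trans ?_ h⟩
  have hA := amp_pos (M := M) hW
  have h1 := rem_le hW hp (by simpa using hb 0 (by norm_num)) hm hn' s
  have h0 : (0 : ℝ) ≤ ((W : ℝ) ^ 2 + 1) ^ n - ((W : ℝ) ^ 2) ^ n :=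
    sub_nonneg.2 (pow_le_pow_left₀ (by positivity) (by linarith) n)
  have e : (I * (W : ℂ) ^ 2) ^ n * exp (I * (W : ℂ) ^ 2 * s) +
      c * ((I * ((W : ℂ) ^ 2 + 1)) ^ n * exp (I * ((W : ℂ) ^ 2 + 1) * s)) =
      ((((W : ℝ) ^ 2) ^ n : ℝ) : ℂ) * (I ^ n * (exp (I * (W : ℂ) ^ 2 * s) * (1 + c * exp (I * s)))) +
      ((((W : ℝ) ^ 2 + 1) ^ n - ((W : ℝ) ^ 2) ^ n : ℝ) : ℂ) *
        (c * (I ^ n * exp (I * (((W : ℤ) ^ 2 + 1 : ℤ) : ℂ) * s))) := by
    push_cast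
    rw [mul_add I, mul_one, add_mul (I * (W : ℂ) ^ 2), exp_add, ← mul_add_one, mul_pow, mul_pow]
    ring
  have h2 : |(c * (I ^ n * exp (I * (((W : ℤ) ^ 2 + 1 : ℤ) : ℂ) * s))).re| ≤ 1 := by
    refine (abs_re_le_norm _).trans ?_
    rwa [norm_mul, norm_mul, FOU.norm_ex, norm_pow, norm_I, one_pow, mul_one, mul_one]
  rw [e, add_re, re_ofReal_mul, re_ofReal_mul] at h1
  have h3 := mul_le_mul_of_nonneg_left (abs_le.1 h2).1 (mul_nonneg hA.le h0)
  have h4 := mul_le_mul_of_nonneg_left (abs_le.1 h2).2 (mul_nonneg hA.le h0)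
  rw [abs_le] at h1 ⊢
  constructor <;> nlinarith [h1.1, h1.2]

theorem alg {X D p δ : ℝ} (hX : 0 ≤ X) (h : |D - 2 * X * p| ≤ δ * X) (hp : |p| ≤ 2) (h1 : δ ≤ 1) :
    |D ^ 2 - 4 * X ^ 2 * p ^ 2| ≤ 9 * δ * X ^ 2 := by
  have h2 : |D + 2 * X * p| ≤ 9 * X := by
    have h3 := mul_le_mul_of_nonneg_left (abs_le.1 hp).1 hX
    have h4 := mul_le_mul_of_nonneg_left (abs_le.1 hp).2 hX
    have h5 := mul_le_mul_of_nonneg_right h1 hX
    rw [abs_le] at h ⊢
    constructor <;> linarith [h.1, h.2]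
  rw [show D ^ 2 - 4 * X ^ 2 * p ^ 2 = (D - 2 * X * p) * (D + 2 * X * p) by ring, abs_mul]
  exact (mul_le_mul h h2 (abs_nonneg _) ((abs_nonneg _).trans h)).trans_eq (by ring)

theorem rolle {g : ℝ → ℝ} {v x : ℝ} (hg : Continuous g) (h : ∃ᶠ t in 𝓝[≠] x, g t = v) :
    g x = v ∧ ∃ᶠ t in 𝓝[≠] x, deriv g t = 0 := by
  have h0 : g x = v := tendsto_nhds_unique_of_frequently_eq
    (hg.continuousAt.tendsto.mono_left nhdsWithin_le_nhds) tendsto_const_nhds h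
  refine ⟨h0, (Metric.nhdsWithin_basis_ball.frequently_iff).2 fun ε hε => ?_⟩
  obtain ⟨t, ⟨ht, hx⟩, e⟩ := (Metric.nhdsWithin_basis_ball.frequently_iff).1 h ε hε
  rw [Real.ball_eq_Ioo] at ht ⊢
  rcases lt_or_gt_of_ne (show t ≠ x from hx) with k | k
  · obtain ⟨u, hu, e'⟩ := exists_deriv_eq_zero k hg.continuousOn (e.trans h0.symm)
    exact ⟨u, ⟨⟨ht.1.trans hu.1, by linarith [hu.2]⟩, hu.2.ne⟩, e'⟩
  · obtain ⟨u, hu, e'⟩ := exists_deriv_eq_zero k hg.continuousOn (h0.trans e.symm)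
    exact ⟨u, ⟨⟨by linarith [hu.1], hu.2.trans ht.2⟩, hu.1.ne'⟩, e'⟩

theorem flat (h : Per (2 * π) κ) {v x : ℝ} (hx : ∃ᶠ t in 𝓝[≠] x, κ t = v) {m : ℕ} (hm : 1 ≤ m) :
    iteratedDeriv m κ x = 0 := by
  refine (rolle (FOU.per_cont (FOU.per_iter h m)) ?_).1
  induction m, hm using Nat.le_induction with
  | base => rw [iteratedDeriv_one]; exact (rolle (FOU.per_cont h) hx).2
  | succ m _ ih => rw [iteratedDeriv_succ]; exact (rolle (FOU.per_cont (FOU.per_iter h m)) ih).2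

theorem nsq_one (s : ℝ) : ‖1 + 1 * exp (I * s)‖ ^ 2 = 2 + 2 * Real.cos s := by
  rw [mul_comm I, Complex.sq_norm, normSq_apply]
  simp only [one_mul, add_re, add_im, one_re, one_im, exp_ofReal_mul_I_re, exp_ofReal_mul_I_im]
  nlinarith [Real.sin_sq_add_cos_sq s]

theorem nsq_i (s : ℝ) : ‖1 + I * exp (I * s)‖ ^ 2 = 2 - 2 * Real.sin s := by
  rw [mul_comm I (s : ℂ), Complex.sq_norm, normSq_apply]
  simp only [add_re, add_im, one_re, one_im, I_mul_re, I_mul_im, exp_ofReal_mul_I_re,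
    exp_ofReal_mul_I_im]
  nlinarith [Real.sin_sq_add_cos_sq s]

end JET2

open JET2 in
theorem st_jet2 : St_JET2 := by
  refine ⟨fun M j η hη => ?_, fun κ hκ h => ⟨fun v => ?_, fun s t hst => ?_⟩⟩
  · have hδ : 0 < min 1 (η / 18) := lt_min one_pos (by positivity)
    obtain ⟨W1, hW1⟩ := eventually_atTop.1
      ((key (M := M) (n := 2 * M + 4) j (by omega) (by omega) hδ).and
        (key (M := M) (n := 2 * M + 5) j (by omega) (by omega) hδ))
    refine ⟨W1, fun W hW κ c hp hb hc hm s => ?_⟩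
    obtain ⟨⟨h2, h4⟩, -, h5⟩ := hW1 W hW
    have hA := amp_pos (M := M) h2
    have hx : (0 : ℝ) < (W : ℝ) ^ 2 := by
      have : (0 : ℝ) < W := by exact_mod_cast (by omega : 0 < W)
      positivity
    have hX : 0 ≤ XX M W := by unfold XX; positivity
    have k4 := h4 κ c hp hb hc hm s
    have k5 := h5 κ c hp hb hc hm s
    rw [pow_succ' I, mul_assoc I, I_mul_re] at k5
    obtain ⟨u, hu⟩ : ∃ u, u = I ^ (2 * M + 4) * (exp (I * (W : ℂ) ^ 2 * s) * (1 + c * exp (I * s))) :=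
      ⟨_, rfl⟩
    have hn : ‖u‖ = ‖1 + c * exp (I * s)‖ := by
      have := FOU.norm_ex ((W : ℤ) ^ 2) s
      push_cast at this
      rw [hu, norm_mul, norm_mul, this, norm_pow, norm_I, one_pow, one_mul, one_mul]
    have h2u : ‖u‖ ≤ 2 := by
      have := FOU.norm_ex 1 s
      rw [Int.cast_one, mul_one] at this
      have h3 := norm_add_le 1 (c * exp (I * s))
      rw [norm_mul, this, norm_one] at h3
      linarith
    rw [← hu] at k4 k5
    have k6 : |iteratedDeriv (2 * M + 5) κ s / (W : ℝ) ^ 2 - 2 * XX M W * -u.im| ≤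
        min 1 (η / 18) * XX M W := by
      rw [← mul_le_mul_iff_left₀ hx, ← abs_of_pos hx, ← abs_mul, abs_of_pos hx, sub_mul,
        div_mul_cancel₀ _ hx.ne', XX]
      refine (le_of_eq ?_).trans (k5.trans_eq (by ring))
      congr 1
      ring
    have a4 := alg hX k4 ((abs_re_le_norm u).trans h2u) (min_le_left _ _)
    have a5 := alg hX k6 (by rw [abs_neg]; exact (abs_im_le_norm u).trans h2u) (min_le_left _ _)
    have a6 := mul_le_mul_of_nonneg_right (min_le_right 1 (η / 18)) (sq_nonneg (XX M W))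
    rw [← hn, Complex.sq_norm, normSq_apply]
    rw [abs_le] at a4 a5 ⊢
    constructor <;> nlinarith [a4.1, a4.2, a5.1, a5.2]
  · by_contra hi
    obtain ⟨x, -, hx⟩ := Set.Infinite.exists_accPt_of_subset_isCompact hi
      (isCompact_Icc (a := 0) (b := 2 * π)) (sep_subset _ _)
    have hx' : ∃ᶠ t in 𝓝[≠] x, κ t = v := (accPt_iff_frequently_nhdsNE.1 hx).mono fun t ht => ht.2
    obtain ⟨m, o, X, hm, hX, e⟩ := h 0 (by simp) 1 one_pos
    have := (abs_le.1 (e x)).1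
    rw [flat hκ hx' hm, flat hκ hx' (Nat.le_succ_of_le hm), zero_mul, add_zero, norm_one] at this
    simp only [zero_div] at this
    nlinarith [sq_pos_of_pos hX]
  · have h1 : ∀ c ∈ ({0, 1, I} : Set ℂ), ‖1 + c * exp (I * s)‖ ^ 2 = ‖1 + c * exp (I * t)‖ ^ 2 :=
      fun c hc => by
      refine eq_of_forall_dist_le fun η hη => ?_
      obtain ⟨m, o, X, hm, hX, e⟩ := h c hc η hη
      have e1 := abs_le.1 (e s)
      have e2 := abs_le.1 (e t)
      rw [div_pow, ← sq_abs (iteratedDeriv m κ _), ← sq_abs (iteratedDeriv (m + 1) κ _)] at e1 e2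
      rw [hst m hm, hst (m + 1) (Nat.le_succ_of_le hm)] at e1
      have h0 := sq_pos_of_pos hX
      rw [Real.dist_eq, abs_le]
      constructor <;> nlinarith [e1.1, e1.2, e2.1, e2.2, mul_pos hη h0]
    have h2 := h1 1 (by simp)
    have h3 := h1 I (by simp)
    rw [nsq_one, nsq_one] at h2
    rw [nsq_i, nsq_i] at h3
    obtain ⟨k, hk⟩ := Real.Angle.angle_eq_iff_two_pi_dvd_sub.1
      (Real.Angle.cos_sin_inj (θ := t) (ψ := s) (by linarith) (by linarith))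
    exact ⟨k, by linarith⟩

end Pool.Agent.Lib.IS2
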