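import Pool.Agent.Lib.IS2.Blue

/-! The jump relation for the double layer potential. -/

open scoped ContDiff ComplexConjugate Topology Real
open Complex MeasureTheory Set Filter

noncomputable section

namespace Pool.Agent.Lib.IS2

namespace JMP

lemma abs_rdot (u v : ℂ) : |rdot u v| ≤ ‖u‖ * ‖v‖ := by
  refine (abs_re_le_norm _).trans_eq ?_
  rw [norm_mul, Complex.norm_conj]

lemma rdot_exp (a b d : ℂ) (r : ℝ) : rdot (-a) (d - r * b) = rdot (-a) d + r * rdot a b := by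
  simp [rdot]; ring

lemma rdot_nn (a d : ℂ) : rdot (-a) (-d) = rdot a d := by
  simp [rdot]

lemma sq_diff (d n : ℂ) (r : ℝ) :
    ‖d - ((-r : ℝ) : ℂ) * n‖ ^ 2 - ‖d - r * n‖ ^ 2 = 4 * r * rdot n d := by
  simp [Complex.sq_norm, normSq_apply, rdot]; ring

lemma int_pk (s a : ℝ) :
    ∫ t in (0 : ℝ)..(2 * π), a / (a ^ 2 + dc s t ^ 2) ≤ π := by
  have hp : Function.Periodic (fun t => a / (a ^ 2 + dc s t ^ 2)) (2 * π) := fun t => by
    have := dc_add_right s t 1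
    simp only [Int.cast_one, one_mul] at this
    simp only [this]
  have h1 := hp.intervalIntegral_add_eq 0 (s - π)
  rw [zero_add] at h1
  rw [h1, intervalIntegral.integral_congr (g := fun t => a / (a ^ 2 + (t - s) ^ 2)) fun t ht => by
    rw [uIcc_of_le (by linarith [Real.pi_pos])] at ht
    have : |s - t| ≤ π := abs_le.2 ⟨by linarith [ht.2], by linarith [ht.1]⟩
    simp only [dc_eq_abs this, sq_abs]
    ring,
    intervalIntegral.integral_comp_sub_right (fun u => a / (a ^ 2 + u ^ 2)), integral_div_sq_add_sq]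
  linarith [Real.arctan_lt_pi_div_two ((s - π + 2 * π - s) / a),
    Real.neg_pi_div_two_lt_arctan ((s - π - s) / a)]

lemma l1_bd (hA : St_A3) : (∀ x, 0 ≤ x → |l1 x| ≤ 1) ∧ ∃ L, 0 ≤ L ∧ ∀ x > 0, |l1 x - 1| ≤ L * x := by
  obtain ⟨-, -, -, -, h0, -, -, h1, C, g, h2⟩ := hA
  refine ⟨fun x hx => ?_, |C| + 1, by positivity, fun x hx => ?_⟩
  · rcases hx.eq_or_lt with rfl | hx
    · simp [h0]
    · obtain ⟨-, -, -, a, b⟩ := h1 x hx
      rwa [abs_of_pos a]
  · obtain ⟨-, -, -, a, b⟩ := h1 x hx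
    rcases le_total x 1 with c | c
    · have := (h2 x hx).2.1
      have e : √x ≤ 1 := Real.sqrt_le_one.2 c
      have e1 : C * (x * √x) ≤ |C| * (x * √x) :=
        mul_le_mul_of_nonneg_right (le_abs_self C) (by positivity)
      have e2 : |C| * (x * √x) ≤ |C| * (x * 1) := by gcongr
      nlinarith
    · rw [abs_le]
      constructor <;> nlinarith [abs_nonneg C]

lemma sum_bd {a b e r P R l l' A B k L : ℝ} (hP : 0 < P) (hR : 0 < R) (aP : |a| ≤ A * P ^ 2)
    (aR : |a| ≤ A * R ^ 2) (hb : |b| ≤ B) (rP : |r| ≤ k * P) (rR : |r| ≤ k * R) (hl : |l| ≤ 1)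
    (hl' : |l'| ≤ 1) (h1 : |l - 1| ≤ L * P) (h1' : |l' - 1| ≤ L * R) (he : R ^ 2 - P ^ 2 = 4 * r * e)
    (eP : |e| ≤ A * P ^ 2) :
    |l * (a + r * b) / P ^ 2 + l' * (a + -r * b) / R ^ 2| ≤
      2 * A + 2 * (L * k * B) + 4 * (k ^ 2 * B * A) := by
  have key : l * (a + r * b) / P ^ 2 + l' * (a + -r * b) / R ^ 2 =
      l * a / P ^ 2 + l' * a / R ^ 2 + (l - 1) * r * b / P ^ 2 + -((l' - 1) * r * b / R ^ 2) +
        4 * (r * r * b * e / (R ^ 2 * P ^ 2)) := by
    have : r * r * b * e / (R ^ 2 * P ^ 2) = r * b * (R ^ 2 - P ^ 2) / (4 * (R ^ 2 * P ^ 2)) := by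
      rw [he]; field_simp
    rw [this]; field_simp; ring
  have t1 : ∀ {l P : ℝ}, 0 < P → |l| ≤ 1 → |a| ≤ A * P ^ 2 → |l * a / P ^ 2| ≤ A := by
    intro l P hP hl ha
    rw [abs_div, abs_mul, abs_of_pos (pow_pos hP 2), div_le_iff₀ (pow_pos hP 2)]
    exact (mul_le_mul hl ha (abs_nonneg _) zero_le_one).trans_eq (one_mul _)
  have t2 : ∀ {l P : ℝ}, 0 < P → |l - 1| ≤ L * P → |r| ≤ k * P →
      |(l - 1) * r * b / P ^ 2| ≤ L * k * B := by
    intro l P hP hl hr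
    rw [abs_div, abs_mul, abs_mul, abs_of_pos (pow_pos hP 2), div_le_iff₀ (pow_pos hP 2)]
    have a1 := (abs_nonneg _).trans hl
    have a2 := (abs_nonneg _).trans hr
    refine (mul_le_mul (mul_le_mul hl hr (abs_nonneg _) a1) hb (abs_nonneg _)
      (mul_nonneg a1 a2)).trans_eq (by ring)
  have t3 : |r * r * b * e / (R ^ 2 * P ^ 2)| ≤ k ^ 2 * B * A := by
    have p : 0 < R ^ 2 * P ^ 2 := by positivity
    rw [abs_div, abs_mul, abs_mul, abs_mul, abs_of_pos p, div_le_iff₀ p]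
    have a2 := (abs_nonneg _).trans rR
    have a3 := (abs_nonneg _).trans hb
    refine (mul_le_mul (mul_le_mul (mul_le_mul rR rR (abs_nonneg _) a2) hb (abs_nonneg _)
      (mul_nonneg a2 a2)) eP (abs_nonneg _) (mul_nonneg (mul_nonneg a2 a2) a3)).trans_eq (by ring)
  rw [key]
  have u1 := abs_le.1 (t1 hP hl aP)
  have u2 := abs_le.1 (t1 hR hl' aR)
  have u3 := abs_le.1 (t2 hP h1 rP)
  have u4 := abs_le.1 (t2 hR h1' rR)
  have u5 := abs_le.1 t3
  rw [abs_le]
  constructor <;> linarith [u1.1, u1.2, u2.1, u2.2, u3.1, u3.2, u4.1, u4.2, u5.1, u5.2]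

variable {μ : ℝ} {Ω : Set ℂ} {γ : ℝ → ℂ}

lemma cnr (h : CD Ω γ) : Continuous (nr γ) :=
  continuous_const.mul (h.smooth.continuous_deriv (by simp))

lemma nr_bd (h : CD Ω γ) : ∃ M, 0 ≤ M ∧ ∀ t, ‖nr γ t‖ ≤ M := by
  have hp : Function.Periodic (nr γ) (2 * π) := fun t => by simp only [nr, per_deriv' h.per t]
  obtain ⟨M, hM⟩ := (hp.isBounded_of_continuous Real.two_pi_pos.ne' (cnr h)).exists_norm_le
  exact ⟨M, (norm_nonneg _).trans (hM _ ⟨0, rfl⟩), fun t => hM _ ⟨t, rfl⟩⟩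

lemma cqq (hQ : St_QS) (h : CD Ω γ) : Continuous (Function.uncurry (qq γ)) :=
  (hQ.1 γ h.smooth h.per h.reg h.inj).continuous

lemma q_bd (hQ : St_QS) (h : CD Ω γ) :
    ∃ Q, 0 ≤ Q ∧ ∀ s t, |rdot (-nr γ t) (γ t - γ s)| ≤ Q * ‖γ t - γ s‖ ^ 2 := by
  obtain ⟨Q, hQ'⟩ := ((isCompact_Icc (a := (0 : ℝ)) (b := 2 * π)).prod
    (isCompact_Icc (a := (0 : ℝ)) (b := 2 * π))).exists_bound_of_continuousOn (cqq hQ h).continuousOn
  have hp : Function.Periodic (fun t => (γ t, nr γ t)) (2 * π) := fun t => by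
    simp only [nr, per_deriv' h.per t, h.per t]
  refine ⟨|Q|, abs_nonneg _, fun s t => ?_⟩
  obtain ⟨s', hs, es⟩ := h.per.exists_mem_Ico₀ Real.two_pi_pos s
  obtain ⟨t', ht, et⟩ := hp.exists_mem_Ico₀ Real.two_pi_pos t
  rw [es, (Prod.mk.inj et).1, (Prod.mk.inj et).2]
  by_cases e : γ s' = γ t'
  · simp [e, rdot]
  · have := hQ' (s', t') ⟨Ico_subset_Icc_self hs, Ico_subset_Icc_self ht⟩
    have p : 0 < ‖γ t' - γ s'‖ ^ 2 := pow_pos (norm_pos_iff.2 (sub_ne_zero.2 (Ne.symm e))) 2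
    simp only [Function.uncurry, qq, if_neg e, Real.norm_eq_abs] at this
    rw [abs_div, abs_of_pos p, div_le_iff₀ p] at this
    exact this.trans (mul_le_mul_of_nonneg_right (le_abs_self Q) p.le)

lemma cl1 (hA : St_A3) (hμ : 0 < μ) : Continuous fun z : ℂ => l1 (μ * ‖z‖) :=
  hA.2.2.1.comp_continuous (by fun_prop) fun z => by simp only [mem_Ici]; positivity

lemma crdot : Continuous fun p : ℂ × ℂ => rdot p.1 p.2 := by
  unfold rdot; fun_prop

lemma cDLk (hA : St_A3) (hμ : 0 < μ) (h : CD Ω γ) {x : ℂ} (hx : x ∉ range γ) :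
    Continuous (DLk μ γ x) := by
  have c : Continuous fun t => γ t - x := h.smooth.continuous.sub continuous_const
  refine (((cl1 hA hμ).comp c).mul (crdot.comp ((cnr h).neg.prodMk c))).div (by fun_prop) fun t => ?_
  have : γ t - x ≠ 0 := sub_ne_zero.2 fun e => hx ⟨t, e⟩
  positivity

lemma cKr (hA : St_A3) (hQ : St_QS) (hμ : 0 < μ) (h : CD Ω γ) (s : ℝ) : Continuous (Kr μ γ s) :=
  (((cl1 hA hμ).comp (continuous_const.sub h.smooth.continuous)).mul
    ((cqq hQ h).comp (continuous_const.prodMk continuous_id))).div_const _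

lemma tDLk (hA : St_A3) (hμ : 0 < μ) {s t : ℝ} (e : γ s ≠ γ t) :
    Tendsto (fun x => DLk μ γ x t) (𝓝 (γ s)) (𝓝 (Kr μ γ s t)) := by
  have c : Continuous fun x => γ t - x := continuous_const.sub continuous_id
  have n : γ t - γ s ≠ 0 := sub_ne_zero.2 e.symm
  have : ContinuousAt (fun x => DLk μ γ x t) (γ s) :=
    (((cl1 hA hμ).comp c).mul (crdot.comp (continuous_const.prodMk c))).continuousAt.div
      (by fun_prop) (by positivity)
  convert this.tendsto using 2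
  simp only [Kr, DLk, qq, if_neg e, c0, norm_sub_rev (γ s)]
  field_simp

lemma far (hA : St_A3) (hμ : 0 < μ) {M d : ℝ} (hM : ∀ t, ‖nr γ t‖ ≤ M) (hd : 0 < d) {x : ℂ} {t : ℝ}
    (hx : d ≤ ‖γ t - x‖) : |DLk μ γ x t| ≤ M / (2 * π * d) := by
  have p : 0 < ‖γ t - x‖ := hd.trans_le hx
  have M0 : 0 ≤ M := (norm_nonneg _).trans (hM 0)
  have a := (l1_bd hA).1 (μ * ‖γ t - x‖) (by positivity)
  have b := abs_rdot (-nr γ t) (γ t - x)
  rw [norm_neg] at b
  rw [DLk, abs_div, abs_mul, abs_of_pos (by positivity : 0 < 2 * π * ‖γ t - x‖ ^ 2)]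
  calc _ ≤ 1 * (M * ‖γ t - x‖) / (2 * π * ‖γ t - x‖ ^ 2) := by
        gcongr
        exact b.trans (mul_le_mul_of_nonneg_right (hM t) p.le)
    _ = M / (2 * π * ‖γ t - x‖) := by field_simp
    _ ≤ _ := by gcongr

/-- geometry near the curve -/
lemma near (hQ : St_QS) (h : CD Ω γ) {c : ℝ} (hc : 0 < c)
    (h1 : ∀ s t r : ℝ, |r| ≤ c → c * (dc s t + |r|) ≤ ‖γ t - (γ s + r * nr γ s)‖) :
    ∃ A, 0 ≤ A ∧ ∀ s t r : ℝ, |r| ≤ c → |r| ≤ c⁻¹ * ‖γ t - γ s - r * nr γ s‖ ∧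
      |rdot (-nr γ t) (γ t - γ s)| ≤ A * ‖γ t - γ s - r * nr γ s‖ ^ 2 ∧
      |rdot (nr γ s) (γ t - γ s)| ≤ A * ‖γ t - γ s - r * nr γ s‖ ^ 2 := by
  obtain ⟨M, M0, hM⟩ := nr_bd h
  obtain ⟨Q, Q0, hq⟩ := q_bd hQ h
  refine ⟨Q * (1 + c⁻¹ * M) ^ 2, by positivity, fun s t r hr => ?_⟩
  have a := h1 s t r hr
  rw [← sub_sub] at a
  have b : |r| ≤ c⁻¹ * ‖γ t - γ s - r * nr γ s‖ := by
    rw [le_inv_mul_iff₀ hc]
    nlinarith [dc_nonneg s t]
  have d : ‖γ t - γ s‖ ≤ (1 + c⁻¹ * M) * ‖γ t - γ s - r * nr γ s‖ := by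
    have := norm_add_le (γ t - γ s - r * nr γ s) (r * nr γ s)
    rw [sub_add_cancel, norm_mul, norm_real, Real.norm_eq_abs] at this
    have e := mul_le_mul b (hM s) (norm_nonneg _) (by positivity)
    linarith
  have f : Q * ‖γ t - γ s‖ ^ 2 ≤ Q * (1 + c⁻¹ * M) ^ 2 * ‖γ t - γ s - r * nr γ s‖ ^ 2 := by
    rw [mul_assoc, ← mul_pow]; gcongr
  refine ⟨b, (hq s t).trans f, le_trans ?_ f⟩
  have := hq t s
  rwa [← neg_sub (γ t), rdot_nn, norm_neg] at this

lemma DLk_eq (s t r : ℝ) : DLk μ γ (γ s + r * nr γ s) t =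
    l1 (μ * ‖γ t - γ s - r * nr γ s‖) * (rdot (-nr γ t) (γ t - γ s) + r * rdot (nr γ t) (nr γ s)) /
      ‖γ t - γ s - r * nr γ s‖ ^ 2 / (2 * π) := by
  rw [DLk, ← sub_sub, rdot_exp, div_div, mul_comm (_ ^ 2)]

lemma bound (hA : St_A3) (hQ : St_QS) (hG : St_GC) (hμ : 0 < μ) (h : CD Ω γ) :
    ∃ C, ∀ x ∉ range γ, ∫ t in (0 : ℝ)..(2 * π), |DLk μ γ x t| ≤ C := by
  obtain ⟨c, hc, h1, h2, -, -⟩ := hG Ω γ h
  obtain ⟨M, M0, hM⟩ := nr_bd h
  obtain ⟨A, A0, hA'⟩ := near hQ h hc h1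
  have hd : 0 < min c (c ^ 2) := lt_min hc (by positivity)
  have π0 := Real.pi_pos
  refine ⟨max (M / min c (c ^ 2)) (A + M ^ 2 / c ^ 2 / 2), fun x hx => ?_⟩
  have ci := ((cDLk hA hμ h hx).abs).intervalIntegrable (μ := volume) 0 (2 * π)
  by_cases hf : ∀ t, min c (c ^ 2) ≤ ‖γ t - x‖
  · refine le_trans ?_ (le_max_left _ _)
    refine (intervalIntegral.integral_mono_on Real.two_pi_pos.le ci intervalIntegrable_const
      fun t _ => far hA hμ hM hd (hf t)).trans_eq ?_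
    simp only [intervalIntegral.integral_const, sub_zero, smul_eq_mul]
    field_simp
  · refine le_trans ?_ (le_max_right _ _)
    push Not at hf
    obtain ⟨t0, ht0⟩ := hf
    rw [norm_sub_rev] at ht0
    obtain ⟨s, r, hr, rfl, -⟩ := h2 x t0 (ht0.trans_le (min_le_left _ _))
    have r1 : |r| ≤ c := by
      have := (hr.trans_lt ht0).trans_le (min_le_right _ _)
      nlinarith
    have r0 : 0 < |r| := abs_pos.2 fun e => hx ⟨s, by simp [e]⟩
    have cp : Continuous fun t => |r| / (|r| ^ 2 + dc s t ^ 2) :=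
      continuous_const.div (continuous_const.add ((continuous_dc.comp
        (continuous_const.prodMk continuous_id)).pow 2)) fun t => by positivity
    have pw : ∀ t, |DLk μ γ (γ s + r * nr γ s) t| ≤
        A / (2 * π) + M ^ 2 / c ^ 2 / (2 * π) * (|r| / (|r| ^ 2 + dc s t ^ 2)) := fun t => by
      obtain ⟨-, a2, -⟩ := hA' s t r r1
      have a := h1 s t r r1
      rw [← sub_sub] at a
      have d0 := dc_nonneg s t
      rw [DLk_eq]
      set ρ := ‖γ t - γ s - r * nr γ s‖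
      have p : 0 < ρ := lt_of_lt_of_le (by positivity) a
      have a3 : c ^ 2 * (|r| ^ 2 + dc s t ^ 2) ≤ ρ ^ 2 := by
        have : (c * (dc s t + |r|)) ^ 2 ≤ ρ ^ 2 := by gcongr
        nlinarith [mul_nonneg (sq_nonneg c) (mul_nonneg d0 r0.le)]
      have a4 : |rdot (nr γ t) (nr γ s)| ≤ M ^ 2 :=
        (abs_rdot _ _).trans ((mul_le_mul (hM t) (hM s) (norm_nonneg _) M0).trans_eq (by ring))
      have a5 := (l1_bd hA).1 (μ * ρ) (by positivity)
      rw [abs_div, abs_div, abs_mul, abs_of_pos (pow_pos p 2), abs_of_pos Real.two_pi_pos]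
      calc _ ≤ 1 * (A * ρ ^ 2 + |r| * M ^ 2) / ρ ^ 2 / (2 * π) := by
            gcongr
            refine (abs_add_le _ _).trans (add_le_add a2 ?_)
            rw [abs_mul]; gcongr
        _ = (A + |r| * M ^ 2 / ρ ^ 2) / (2 * π) := by field_simp
        _ ≤ (A + |r| * M ^ 2 / (c ^ 2 * (|r| ^ 2 + dc s t ^ 2))) / (2 * π) := by gcongr
        _ = _ := by field_simp
    have i2 := (cp.intervalIntegrable (μ := volume) 0 (2 * π)).const_mul (M ^ 2 / c ^ 2 / (2 * π))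
    refine (intervalIntegral.integral_mono_on Real.two_pi_pos.le ci
      (intervalIntegrable_const.add i2) fun t _ => pw t).trans ?_
    rw [intervalIntegral.integral_add intervalIntegrable_const i2,
      intervalIntegral.integral_const_mul]
    have := mul_le_mul_of_nonneg_left (int_pk s |r|)
      (by positivity : 0 ≤ M ^ 2 / c ^ 2 / (2 * π))
    refine (add_le_add le_rfl this).trans_eq ?_
    simp only [intervalIntegral.integral_const, sub_zero, smul_eq_mul]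
    field_simp

lemma notMem (h : CD Ω γ) {x : ℂ} (hx : x ∈ Ω) : x ∉ range γ := fun e => by
  have : x ∈ Ω ∩ frontier Ω := ⟨hx, h.fr ▸ e⟩
  rw [h.opn.inter_frontier_eq] at this
  exact this

lemma small {f g : ℝ → ℝ} {η : ℝ} (hf : Continuous f) (hg : ∀ t, |g t| ≤ η) :
    |∫ t in (0 : ℝ)..(2 * π), f t * g t| ≤ η * ∫ t in (0 : ℝ)..(2 * π), |f t| := by
  rw [← intervalIntegral.integral_const_mul, ← Real.norm_eq_abs]
  refine intervalIntegral.norm_integral_le_of_norm_le Real.two_pi_pos.le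
    (Eventually.of_forall fun t _ => ?_) ((hf.abs.intervalIntegrable _ _).const_mul _)
  rw [Real.norm_eq_abs, abs_mul, mul_comm]
  exact mul_le_mul_of_nonneg_right (hg t) (abs_nonneg _)

lemma zero_lim (hA : St_A3) (hQ : St_QS) (hG : St_GC) (hμ : 0 < μ) (h : CD Ω γ) (s : ℝ)
    {ψ : ℝ → ℝ} (hψ : Continuous ψ) (h0 : ∀ t, γ s = γ t → ψ t = 0) :
    Tendsto (fun x => ∫ t in (0 : ℝ)..(2 * π), DLk μ γ x t * ψ t) (𝓝[Ω] (γ s))
      (𝓝 (∫ t in (0 : ℝ)..(2 * π), Kr μ γ s t * ψ t)) := by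
  obtain ⟨C, hC⟩ := bound hA hQ hG hμ h
  obtain ⟨M, M0, hM⟩ := nr_bd h
  have cK := cKr hA hQ hμ h s
  set CK := ∫ t in (0 : ℝ)..(2 * π), |Kr μ γ s t| with hCK
  refine Metric.tendsto_nhds.2 fun ε hε => ?_
  obtain ⟨η, η0, hη⟩ : ∃ η > 0, η * (|C| + |CK| + 1) = ε / 2 :=
    ⟨ε / 2 / (|C| + |CK| + 1), by positivity, by field_simp⟩
  set g : ℝ → ℝ := fun t => max (-η) (min η (ψ t)) with hg
  have cg : Continuous g := by fun_prop
  have g1 : ∀ t, |g t| ≤ η := fun t =>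
    abs_le.2 ⟨le_max_left _ _, max_le (by linarith) (min_le_left _ _)⟩
  have g2 : ∀ t, |ψ t| ≤ η → ψ t - g t = 0 := fun t ht => by
    rw [abs_le] at ht
    simp only [hg, min_eq_right ht.2, max_eq_right ht.1, sub_self]
  obtain ⟨d, d0, hd⟩ := ((isCompact_Icc (a := (0 : ℝ)) (b := 2 * π)).inter_right
    (isClosed_le (continuous_const (y := η)) hψ.abs)).exists_forall_le' (a := 0)
    (f := fun t => ‖γ t - γ s‖) ((h.smooth.continuous.sub continuous_const).norm.continuousOn)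
    fun t ht => norm_pos_iff.2 (sub_ne_zero.2 fun e => by
      have := ht.2
      simp only [mem_ofPred_eq, h0 t e.symm, abs_zero] at this
      linarith)
  have ev : ∀ᶠ x in 𝓝[Ω] (γ s), x ∉ range γ :=
    eventually_nhdsWithin_of_forall fun x hx => notMem h hx
  have T : Tendsto (fun x => ∫ t in (0 : ℝ)..(2 * π), DLk μ γ x t * (ψ t - g t)) (𝓝[Ω] (γ s))
      (𝓝 (∫ t in (0 : ℝ)..(2 * π), Kr μ γ s t * (ψ t - g t))) := by
    refine intervalIntegral.tendsto_integral_filter_of_dominated_convergence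
      (fun t => M / (2 * π * (d / 2)) * |ψ t - g t|)
      (ev.mono fun x hx => ((cDLk hA hμ h hx).mul (hψ.sub cg)).aestronglyMeasurable) ?_
      (((hψ.sub cg).abs.intervalIntegrable _ _).const_mul _) (Eventually.of_forall fun t _ => ?_)
    · filter_upwards [mem_nhdsWithin_of_mem_nhds (Metric.ball_mem_nhds (γ s) (half_pos d0))]
        with x hx
      refine Eventually.of_forall fun t ht => ?_
      rw [uIoc_of_le Real.two_pi_pos.le] at ht
      rcases le_total |ψ t| η with a | a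
      · simp [g2 t a]
      · have b := hd t ⟨Ioc_subset_Icc_self ht, a⟩
        rw [Real.norm_eq_abs, abs_mul]
        refine mul_le_mul_of_nonneg_right (far hA hμ hM (half_pos d0) ?_) (abs_nonneg _)
        have := norm_sub_le_norm_sub_add_norm_sub (γ t) x (γ s)
        rw [mem_ball_iff_norm] at hx
        linarith
    · by_cases e : γ s = γ t
      · simp only [g2 t (by rw [h0 t e, abs_zero]; exact η0.le), mul_zero]
        exact tendsto_const_nhds
      · exact ((tDLk hA hμ e).mono_left nhdsWithin_le_nhds).mul_const _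
  have sp : ∀ f : ℝ → ℝ, Continuous f → ∫ t in (0 : ℝ)..(2 * π), f t * ψ t =
      (∫ t in (0 : ℝ)..(2 * π), f t * (ψ t - g t)) + ∫ t in (0 : ℝ)..(2 * π), f t * g t :=
    fun f hf => by
      rw [← intervalIntegral.integral_add
        ((by fun_prop : Continuous fun t => f t * (ψ t - g t)).intervalIntegrable _ _)
        ((by fun_prop : Continuous fun t => f t * g t).intervalIntegrable _ _)]
      congr 1; funext t; ring
  filter_upwards [ev, Metric.tendsto_nhds.1 T _ (half_pos hε)] with x hx hT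
  have c1 := cDLk hA hμ h hx
  rw [sp _ c1, sp _ cK]
  have a1 := abs_le.1 ((small c1 g1).trans
    (mul_le_mul_of_nonneg_left ((hC x hx).trans (le_abs_self C)) η0.le))
  have a2 := abs_le.1 ((small cK g1).trans (mul_le_mul_of_nonneg_left (le_abs_self CK) η0.le))
  rw [Real.dist_eq, abs_lt] at hT ⊢
  constructor <;> linarith [a1.1, a1.2, a2.1, a2.2, hT.1, hT.2]

lemma dl_one (hN : St_GRN) (hμ : 0 < μ) (h : CD Ω γ) {x : ℂ} (hx : x ∉ range γ) :
    ∫ t in (0 : ℝ)..(2 * π), DLk μ γ x t =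
      Ω.indicator (fun _ => (1 : ℝ)) x - μ ^ 2 * Vp μ (Ω.indicator fun _ => 1) x := by
  have := (hN μ hμ).2 Ω γ univ (fun _ => 1) x h isOpen_univ (subset_univ _) contDiffOn_const hx
  have e : Vp μ (Ω.indicator fun _ => 1) x = ∫ z in Ω, Gr μ (x - z) := by
    rw [Vp, ← integral_indicator h.opn.measurableSet]
    congr 1; funext z
    by_cases a : z ∈ Ω <;> simp [a]
  simp only [lap, fderiv_fun_const, Pi.zero_apply, zero_apply, mul_zero, mul_one,
    add_zero, sub_zero, zero_add, integral_mul_const] at this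
  rw [this, e]; ring

lemma cV (hV : St_VP) (hμ : 0 < μ) (h : CD Ω γ) : Continuous (Vp μ (Ω.indicator fun _ => 1)) := by
  obtain ⟨R, hR⟩ := h.bdd.exists_norm_le
  exact (hV μ _ hμ (memLp_indicator_const _ h.opn.measurableSet _ (Or.inr h.bdd.measure_lt_top.ne))
    ⟨R, fun z hz => indicator_of_notMem (fun a => (hR z a).not_gt hz) _⟩).1

lemma k_one (hA : St_A3) (hQ : St_QS) (hG : St_GC) (hN : St_GRN) (hV : St_VP) (hμ : 0 < μ)
    (h : CD Ω γ) (s : ℝ) : ∫ t in (0 : ℝ)..(2 * π), Kr μ γ s t =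
      1 / 2 - μ ^ 2 * Vp μ (Ω.indicator fun _ => 1) (γ s) := by
  obtain ⟨c, hc, h1, -, h3, -⟩ := hG Ω γ h
  obtain ⟨M, M0, hM⟩ := nr_bd h
  obtain ⟨A, A0, hA'⟩ := near hQ h hc h1
  obtain ⟨l1a, L, L0, hL⟩ := l1_bd hA
  set V := Vp μ (Ω.indicator fun _ => 1)
  have cv : Continuous V := cV hV hμ h
  have cK := cKr hA hQ hμ h s
  have ev : ∀ᶠ r : ℝ in 𝓝[>] 0, r ∈ Ioc 0 c := Ioc_mem_nhdsGT hc
  have o1 : ∀ r ∈ Ioc 0 c, γ s + ((-r : ℝ) : ℂ) * nr γ s ∉ closure Ω := fun r hr => by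
    have := (h3 s r hr.1 hr.2).2
    rwa [ofReal_neg, neg_mul, ← sub_eq_add_neg]
  have n1 : ∀ r ∈ Ioc 0 c, γ s + (r : ℂ) * nr γ s ∉ range γ := fun r hr =>
    notMem h (h3 s r hr.1 hr.2).1
  have n2 : ∀ r ∈ Ioc 0 c, γ s + ((-r : ℝ) : ℂ) * nr γ s ∉ range γ := fun r hr e =>
    o1 r hr (frontier_subset_closure (h.fr ▸ e))
  have t1 : Tendsto (fun r : ℝ => γ s + (r : ℂ) * nr γ s) (𝓝[>] 0) (𝓝 (γ s)) :=
    ((by fun_prop : Continuous fun r : ℝ => γ s + (r : ℂ) * nr γ s).tendsto' 0 _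
      (by simp)).mono_left nhdsWithin_le_nhds
  have t2 : Tendsto (fun r : ℝ => γ s + ((-r : ℝ) : ℂ) * nr γ s) (𝓝[>] 0) (𝓝 (γ s)) :=
    ((by fun_prop : Continuous fun r : ℝ => γ s + ((-r : ℝ) : ℂ) * nr γ s).tendsto' 0 _
      (by simp)).mono_left nhdsWithin_le_nhds
  have T1 : Tendsto (fun r : ℝ => ∫ t in (0 : ℝ)..(2 * π), (DLk μ γ (γ s + (r : ℂ) * nr γ s) t +
      DLk μ γ (γ s + ((-r : ℝ) : ℂ) * nr γ s) t)) (𝓝[>] 0)
      (𝓝 (∫ t in (0 : ℝ)..(2 * π), (Kr μ γ s t + Kr μ γ s t))) := by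
    refine intervalIntegral.tendsto_integral_filter_of_dominated_convergence
      (fun _ => (2 * A + 2 * (L * μ * c⁻¹ * M ^ 2) + 4 * (c⁻¹ ^ 2 * M ^ 2 * A)) / (2 * π))
      (ev.mono fun r hr =>
        ((cDLk hA hμ h (n1 r hr)).add (cDLk hA hμ h (n2 r hr))).aestronglyMeasurable)
      (ev.mono fun r hr => Eventually.of_forall fun t _ => ?_) intervalIntegrable_const ?_
    · have r1 : |r| ≤ c := by rw [abs_of_pos hr.1]; exact hr.2
      obtain ⟨a1, a2, a3⟩ := hA' s t r r1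
      obtain ⟨b1, b2, -⟩ := hA' s t (-r) (by rwa [abs_neg])
      rw [abs_neg] at b1
      have p : ∀ {x d : ℝ}, |r| ≤ d * x → 0 ≤ x → 0 < x := fun {x d} a b =>
        b.lt_of_ne fun e => by
          rw [← e, mul_zero] at a
          exact (abs_pos.2 hr.1.ne').not_ge a
      have p1 := p a1 (norm_nonneg _)
      have p2 := p b1 (norm_nonneg _)
      have a4 : |rdot (nr γ t) (nr γ s)| ≤ M ^ 2 :=
        (abs_rdot _ _).trans ((mul_le_mul (hM t) (hM s) (norm_nonneg _) M0).trans_eq (by ring))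
      rw [DLk_eq, DLk_eq, ← add_div, Real.norm_eq_abs, abs_div, abs_of_pos Real.two_pi_pos]
      refine div_le_div_of_nonneg_right (sum_bd p1 p2 a2 b2 a4 a1 b1 (l1a _ (by positivity))
        (l1a _ (by positivity)) ?_ ?_ (sq_diff _ _ r) a3) Real.two_pi_pos.le
      · exact (hL _ (by positivity)).trans_eq (mul_assoc _ _ _).symm
      · exact (hL _ (by positivity)).trans_eq (mul_assoc _ _ _).symm
    · have cn : {t | γ s = γ t}.Countable :=
        (countable_range fun k : ℤ => s + k * (2 * π)).mono fun t ht =>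
          (h.inj s t ht).imp fun k hk => hk.symm
      filter_upwards [cn.ae_notMem volume] with t ht _
      exact ((tDLk hA hμ ht).comp t1).add ((tDLk hA hμ ht).comp t2)
  have T2 : Tendsto (fun r : ℝ => ∫ t in (0 : ℝ)..(2 * π), (DLk μ γ (γ s + (r : ℂ) * nr γ s) t +
      DLk μ γ (γ s + ((-r : ℝ) : ℂ) * nr γ s) t)) (𝓝[>] 0)
      (𝓝 ((1 - μ ^ 2 * V (γ s)) + (0 - μ ^ 2 * V (γ s)))) := by
    refine (((((cv.tendsto _).comp t1).const_mul _).const_sub 1).add
      ((((cv.tendsto _).comp t2).const_mul _).const_sub 0)).congr' (ev.mono fun r hr => ?_)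
    beta_reduce
    rw [intervalIntegral.integral_add ((cDLk hA hμ h (n1 r hr)).intervalIntegrable _ _)
      ((cDLk hA hμ h (n2 r hr)).intervalIntegrable _ _), dl_one hN hμ h (n1 r hr),
      dl_one hN hμ h (n2 r hr), indicator_of_mem (h3 s r hr.1 hr.2).1,
      indicator_of_notMem fun a => o1 r hr (subset_closure a)]
    rfl
  have := tendsto_nhds_unique T1 T2
  rw [intervalIntegral.integral_add (cK.intervalIntegrable _ _) (cK.intervalIntegrable _ _)] at this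
  linarith

end JMP

open JMP in
theorem st_jmp (hA : St_A3) (hQ : St_QS) (hG : St_GC) (hN : St_GRN) (hV : St_VP) : St_JMP := by
  intro μ Ω γ hμ h
  refine ⟨bound hA hQ hG hμ h, fun φ hφ s => ?_⟩
  have c := hφ.1
  have T := zero_lim hA hQ hG hμ h s (ψ := fun t => φ t - φ s) (by fun_prop) fun t e => by
    obtain ⟨k, rfl⟩ := h.inj s t e
    rw [hφ.2.int_mul k s, sub_self]
  have sp : ∀ f : ℝ → ℝ, Continuous f → ∫ t in (0 : ℝ)..(2 * π), f t * φ t =
      (∫ t in (0 : ℝ)..(2 * π), f t * (φ t - φ s)) + (∫ t in (0 : ℝ)..(2 * π), f t) * φ s :=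
    fun f hf => by
      rw [← intervalIntegral.integral_mul_const, ← intervalIntegral.integral_add
        ((by fun_prop : Continuous fun t => f t * (φ t - φ s)).intervalIntegrable _ _)
        ((by fun_prop : Continuous fun t => f t * φ s).intervalIntegrable _ _)]
      congr 1; funext t; ring
  have U := T.add ((((((cV hV hμ h).tendsto (γ s)).mono_left
    (nhdsWithin_le_nhds (s := Ω))).const_mul (μ ^ 2)).const_sub 1).mul_const (φ s))
  rw [sp _ (cKr hA hQ hμ h s), k_one hA hQ hG hN hV hμ h s]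
  convert U.congr' (eventually_nhdsWithin_of_forall fun x hx => ?_) using 2
  · ring
  · rw [DLo, sp _ (cDLk hA hμ h (notMem h hx)), dl_one hN hμ h (notMem h hx), indicator_of_mem hx]

end Pool.Agent.Lib.IS2
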