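import Pool.Agent.Lib.IS2.Blue
import Pool.Agent.Lib.ISO.B_K4

/-! Block K4Q: the envelope forced by a marker, with rates. -/

open Filter Topology

noncomputable section

namespace Pool.Agent.Lib.IS2

open Pool.Agent.Lib.ISO Pool.Agent.Lib.ISO.K4

namespace K4Q

lemma bnd {ι : Type} {l : Filter ι} {v f : ι → ℝ} {n : ℕ} (v0 : ∀ i, 0 < v i) (h : Ov l v n f) :
    ∀ᶠ K in atTop, ∀ᶠ i in l, |f i| ≤ K * v i ^ n := by
  filter_upwards [Asymptotics.isBigO_iff_eventually.1 h] with K hK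
  filter_upwards [hK] with i hi
  rwa [Real.norm_eq_abs, Real.norm_of_nonneg (pow_pos (v0 i) n).le] at hi

end K4Q

theorem st_k4q (hMAS : St_MAS) (hK8 : St_K8) : St_K4Q := by
  intro C M J B
  obtain ⟨γ, Λ, hγ, hI⟩ := ineq (2 * M + 4)
  obtain ⟨K, hK, hD⟩ := dd hMAS C M B
  obtain ⟨s2, s3⟩ := hK8 (2 * M + 4) (by omega)
  let l : Filter (Dat C M J B) := comap Dat.W atTop
  let v : Dat C M J B → ℝ := fun d => (d.W : ℝ)⁻¹
  have hv : Tendsto v l (𝓝 0) := tendsto_inv_atTop_nhds_zero_nat.comp tendsto_comap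
  have w0 : ∀ d : Dat C M J B, (0 : ℝ) < d.W := fun d => by exact_mod_cast d.w4.trans_lt' (by norm_num)
  have v0 : ∀ d, 0 < v d := fun d => inv_pos.2 (w0 d)
  have A0 : ∀ d : Dat C M J B, 0 < amp M d.W := fun d => inv_pos.2 (pow_pos (w0 d) _)
  have hJ : ∀ d : Dat C M J B, J ≤ d.W := fun d => by have := d.wJ; omega
  let x : Dat C M J B → Q := fun d => K4.qq (2 * M + 4) d.W (amp M d.W) d.z
  let y : Dat C M J B → Q := fun d => K4.qq (2 * M + 4) d.W (amp M d.W) d.y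
  have hx : ∀ d, Ineq γ Λ (2 * M + 4 : ℕ) (v d) (x d) := fun d => hI _ _ _ d.w4 d.hz (A0 d)
  have hy : ∀ d, Ineq γ Λ (2 * M + 4 : ℕ) (v d) (y d) := fun d => hI _ _ _ d.w4 d.hy (A0 d)
  have nr : ∀ d : Dat C M J B, ∀ t ∈ win d.W, ‖sh d.z d.W (amp M d.W) t - d.a t‖ ≤ v d ^ 4 :=
    fun d t ht => near_le d.w4 (hJ d) d.hz d.ha d.hm ht
  have md : ∀ e ≤ 2, Ov l v 1 fun d => (x d).m e - mom e d.a J := fun e he =>
    (Ov.one.cmul _).of_le fun d => mom_diff d.w4 (hJ d) d.ha (nr d) he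
  have xm : ∀ e ≤ 2, Ov l v 0 fun d => (x d).m e := fun e he =>
    (((md e he).mono hv (Nat.zero_le _)).add ((Ov.const _).of_le fun d => mom_env d.ha e)).congr_left
      fun d => sub_add_cancel _ _
  have ho : Ov l v 1 fun d => (x d).n - 2 * (x d).m 0 - 2 * (x d).m 2 := Ov.one.of_le fun d => by
    rw [abs_of_nonneg (by linarith [(hx d).o0])]
    have h1 := (div_le_iff₀ (pow_pos (A0 d) 2)).2 (out_le d.w4 (hJ d) d.hz d.ha d.hm)
    simp only [x, K4.qq, mom_sh _ d.W (amp M d.W)]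
    exact le_of_eq_of_le (by ring) h1
  have hn : Ov l v 0 fun d => (x d).n := (((ho.mono hv (Nat.zero_le _)).add
    ((xm 0 (by norm_num)).cmul 2)).add ((xm 2 le_rfl).cmul 2)).congr_left fun d => by ring
  have hj : Ov l v 8 fun d => (x d).j := ((Ov.pow 8).cmul 2).of_le fun d => by
    rw [abs_of_nonneg (hx d).j0]
    exact (div_le_iff₀ (pow_pos (A0 d) 2)).2 (jk_le d.w4 (hJ d) d.hz d.ha d.hm)
  let δ : Dat C M J B → ℝ := fun d => qf (cv d.y d.y) (sh d.y d.W (amp M d.W)) d.W -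
    qf (cv d.z d.z) (sh d.z d.W (amp M d.W)) d.W
  have hδ : ∀ d, |δ d| ≤ B ^ 2 * ((y d).m 0 + (x d).m 0) := fun d => by
    rw [mul_add]
    exact (abs_sub _ _).trans (add_le_add (schur d.hy d.bd _ _) (schur d.hz d.bz _ _))
  have hD' := fun d : Dat C M J B => hD d.W d.z d.y d.w4 d.hz d.hy d.bz d.bd d.hi
  obtain ⟨yn, yj, o0, o1, g, og, hg⟩ := core (σ := fd fun i => Sc (2 * M + 4 + i)) hγ
    (Nat.cast_nonneg _) (sq_nonneg B) hK v0 hv hx hy hn hj ho hδ hD'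
    (by simpa only [fd, add_zero] using s2) (by simpa only [fd, add_zero] using s3)
  obtain ⟨K', k1, k2, k3, k4, k5, k6⟩ := ((K4Q.bnd v0 yn).and ((K4Q.bnd v0 yj).and
    ((K4Q.bnd v0 (o0.add (md 0 (by norm_num)))).and ((K4Q.bnd v0 (o1.add (md 1 (by norm_num)))).and
    ((K4Q.bnd v0 ((og.cmul (1 / 4)).add (md 2 le_rfl))).and
    (K4Q.bnd v0 ((Ov.pow 4).mono hv (show 1 ≤ 4 by norm_num)))))))).exists
  have fin : ∀ᶠ d in l, J ≤ d.W ∧ Nr d.W d.y ≤ K' * amp M d.W ^ 2 ∧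
      Jk (2 * M + 4) d.W d.y ≤ K' * amp M d.W ^ 2 / (d.W : ℝ) ^ 4 ∧
      |mom 0 (sh d.y d.W (amp M d.W)) d.W - mom 0 d.a J| ≤ K' / d.W ∧
      |mom 1 (sh d.y d.W (amp M d.W)) d.W - mom 1 d.a J| ≤ K' / d.W ∧
      mom 2 (sh d.y d.W (amp M d.W)) d.W ≤ mom 2 d.a J + K' / d.W ∧
      ∀ t ∈ win d.W, ‖sh d.z d.W (amp M d.W) t - d.a t‖ ≤ K' / d.W := by
    filter_upwards [k1, k2, k3, k4, k5, k6] with d e1 e2 e3 e4 e5 e6
    rw [sub_add_sub_cancel, pow_one] at e3 e4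
    rw [pow_one] at e5 e6
    have a2 := pow_pos (A0 d) 2
    refine ⟨hJ d, ?_, ?_, e3, e4, ?_, fun t ht => (nr d t ht).trans (abs_le.1 e6).2⟩
    · rw [pow_zero, mul_one] at e1
      exact (div_le_iff₀ a2).1 (abs_le.1 e1).2
    · refine ((div_le_iff₀ a2).1 (abs_le.1 e2).2).trans_eq ?_
      simp only [v, inv_pow]
      ring
    · have h1 := hg d
      have h2 := mul_nonneg (Nat.cast_nonneg (α := ℝ) (2 * M + 4)) (abs_nonneg (δ d))
      have h3 : (y d).m 2 = mom 2 (sh d.y d.W (amp M d.W)) d.W := rfl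
      have h4 : K' / d.W = K' * v d := rfl
      linarith [(abs_le.1 e5).2]
  obtain ⟨W0, h0⟩ := eventually_atTop.1 (eventually_comap.1 fin)
  refine ⟨K', max W0 (max 4 (2 * J)), fun W hW z z' a h1 h2 h3 h4 h5 h6 h7 => ?_⟩
  rw [max_le_iff, max_le_iff] at hW
  exact h0 W hW.1 ⟨W, z, z', a, hW.2.1, hW.2.2, h1, h2, h3, h4, h5, h6, h7⟩ rfl

end Pool.Agent.Lib.IS2
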