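import Pool.Agent.Lib.IS2.Blue

/-! Row KD: measurability, periodicity, holomorphy and tangential derivatives of the kernels. -/

open scoped ContDiff ComplexConjugate Topology Real
open Complex MeasureTheory Set Filter

noncomputable section

namespace Pool.Agent.Lib.IS2

namespace KD

lemma dv {F : ℝ → ℝ → ℝ} (hF : ContDiff ℝ ∞ (Function.uncurry F)) :
    ContDiff ℝ ∞ (Function.uncurry fun v u => deriv (fun v => F v u) v) ∧
    ∀ v u, HasDerivAt (fun v => F v u) (deriv (fun v => F v u) v) v := by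
  have d : ∀ v u, HasDerivAt (fun v => F v u) (fderiv ℝ (Function.uncurry F) (v, u) (1, 0)) v :=
    fun v u => HasFDerivAt.comp_hasDerivAt (f := fun x => (x, u)) v
      (hF.differentiable (by simp) (v, u)).hasFDerivAt
      ((hasDerivAt_id v).prodMk (hasDerivAt_const v u))
  refine ⟨?_, fun v u => (d v u).differentiableAt.hasDerivAt⟩
  have : (Function.uncurry fun v u => deriv (fun v => F v u) v) =
      fun p => fderiv ℝ (Function.uncurry F) p (1, 0) := funext fun p => (d p.1 p.2).deriv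
  rw [this]
  exact (hF.fderiv_right (m := ∞) (by simp)).clm_apply contDiff_const

lemma pv {F : ℝ → ℝ → ℝ} (hF : ∀ s t, F (s + 2 * π) t = F s t ∧ F s (t + 2 * π) = F s t) (s t : ℝ) :
    deriv (fun v => F v t) (s + 2 * π) = deriv (fun v => F v t) s ∧
    deriv (fun v => F v (t + 2 * π)) s = deriv (fun v => F v t) s :=
  ⟨per_deriv' (f := fun v => F v t) (fun v => (hF v t).1) s, by simp only [fun v => (hF v t).2]⟩

lemma drdot {u v : ℝ → ℂ} {u' v' : ℂ} {x : ℝ} (hu : HasDerivAt u u' x) (hv : HasDerivAt v v' x) :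
    HasDerivAt (fun x => rdot (u x) (v x)) (rdot u' (v x) + rdot (u x) v') x := by
  have := reCLM.hasFDerivAt.comp_hasDerivAt x
    (hu.mul (conjCLE.hasFDerivAt.comp_hasDerivAt x hv))
  exact this

lemma rdot_self (u : ℂ) : rdot u u = ‖u‖ ^ 2 := by
  rw [rdot, mul_conj, ofReal_re, normSq_eq_norm_sq]

lemma slit {μ : ℂ} (h : 0 < μ.re) {c : ℝ} (hc : 0 < c) : μ * c ∈ slitPlane :=
  Or.inl (by simpa using mul_pos h hc)

lemma sec {μ : ℂ} (h : 0 < μ.re) {c : ℝ} (hc : 0 < c) : Sec (μ * c) :=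
  ⟨slitPlane_ne_zero (slit h hc), by
    have : 0 < (μ * c).re := by simpa using mul_pos h hc
    linarith [norm_nonneg (μ * c)]⟩

section
variable {j : ℝ} {γ : ℝ → ℂ} (h : Nc j γ)
include h

lemma dc0 {v u : ℝ} (e : γ v ≠ γ u) :
    HasDerivAt (fun v => c0 γ v u) (ee γ v u / c0 γ v u) v := by
  have d := (h.hd v).sub_const (γ u)
  have cp : 0 < c0 γ v u := norm_pos_iff.2 (sub_ne_zero.2 e)
  have := (drdot d d).sqrt (by rw [rdot_self]; exact (pow_pos cp 2).ne')
  simp only [rdot_self, Real.sqrt_sq (norm_nonneg _)] at this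
  refine this.congr_deriv ?_
  rw [show ‖γ v - γ u‖ = c0 γ v u from rfl]
  field_simp
  simp only [ee, rdot, map_sub, mul_re, sub_re, sub_im, conj_re, conj_im]
  ring

lemma dee (v u : ℝ) : HasDerivAt (fun v => ee γ v u) (e1v γ v u) v := by
  refine (drdot (h.hd1 v) ((h.hd v).const_sub (γ u))).neg.congr_deriv ?_
  have := rdot_self (deriv γ v)
  rw [h.unit] at this
  simp only [e1v, rdot, map_neg, mul_neg, neg_re] at this ⊢
  linarith

lemma pyth (v u : ℝ) : rdot (nr γ v) (γ u - γ v) ^ 2 = c0 γ v u ^ 2 - ee γ v u ^ 2 := by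
  have a := Complex.sq_norm (deriv γ v)
  rw [h.unit, normSq_apply] at a
  rw [c0, norm_sub_rev, Complex.sq_norm, normSq_apply]
  simp only [ee, nr, rdot, mul_re, mul_im, I_re, I_im, conj_re, conj_im]
  linear_combination (-((γ u - γ v).re ^ 2 + (γ u - γ v).im ^ 2)) * a

lemma ee_le (v u : ℝ) : |ee γ v u| ≤ c0 γ v u := by
  refine abs_le_of_sq_le_sq' ?_ (norm_nonneg _) |> abs_le.2
  linarith [pyth h v u, sq_nonneg (rdot (nr γ v) (γ u - γ v))]

variable (h1 : St_A1) (h2 : St_A2) {μ : ℂ} (hμ : 0 < μ.re)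

include h1 hμ in
lemma dK {v u : ℝ} (e : γ v ≠ γ u) : HasDerivAt (fun v => K0 (μ * c0 γ v u))
    (-(L1 (μ * c0 γ v u) * ee γ v u / (c0 γ v u : ℂ) ^ 2)) v := by
  have cp : 0 < c0 γ v u := norm_pos_iff.2 (sub_ne_zero.2 e)
  refine ((h1.1 _ (slit hμ cp)).1.comp v ((dc0 h e).ofReal_comp.const_mul μ)).congr_deriv ?_
  have a : μ ≠ 0 := fun z => by simp [z] at hμ
  have b : (c0 γ v u : ℂ) ≠ 0 := ofReal_ne_zero.2 cp.ne'
  push_cast
  field_simp

include h1 h2 hμ in
lemma dL (v u : ℝ) : HasDerivAt (fun v => L1 (μ * c0 γ v u))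
    (-(μ ^ 2 * K0 (μ * c0 γ v u) * ee γ v u)) v := by
  by_cases e : γ v = γ u
  · obtain ⟨A, hA⟩ := h2
    have z : c0 γ v u = 0 := by simp [c0, e]
    have z' : ee γ v u = 0 := by simp [ee, rdot, e]
    rw [z', ofReal_zero, mul_zero, neg_zero, hasDerivAt_iff_isLittleO]
    simp only [z, ofReal_zero, mul_zero, h1.2.2.2.1, smul_zero, sub_zero]
    have t : Tendsto (fun x : ℝ => |A| * (‖μ‖ * √(‖μ‖ * |x - v|))) (𝓝 v) (𝓝 0) :=
      Continuous.tendsto' (by fun_prop) _ _ (by simp)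
    have t2 : Tendsto (fun x : ℝ => ‖μ‖ * |x - v|) (𝓝 v) (𝓝 0) :=
      Continuous.tendsto' (by fun_prop) _ _ (by simp)
    refine Asymptotics.IsLittleO.of_bound fun ε hε => ?_
    filter_upwards [t.eventually (ge_mem_nhds hε), t2.eventually (ge_mem_nhds one_pos)] with x a b
    have c1 : c0 γ x u ≤ |x - v| := by
      have := h.c0_le_abs x v
      rwa [c0, e] at this
    rcases (show 0 ≤ c0 γ x u from norm_nonneg _).eq_or_lt with c | c
    · rw [← c, ofReal_zero, mul_zero, h1.2.2.2.1, sub_self, norm_zero]; positivity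
    have nz : ‖μ * (c0 γ x u : ℂ)‖ ≤ ‖μ‖ * |x - v| := by
      rw [norm_mul, norm_real, Real.norm_of_nonneg c.le]; gcongr
    refine ((hA _ (sec hμ c)).2.2.2.2.2 (nz.trans b)).trans ?_
    calc _ ≤ |A| * (‖μ‖ * |x - v| * √(‖μ‖ * |x - v|)) := by gcongr; exact le_abs_self A
      _ = |A| * (‖μ‖ * √(‖μ‖ * |x - v|)) * |x - v| := by ring
      _ ≤ ε * ‖x - v‖ := by rw [Real.norm_eq_abs]; gcongr
  · have cp : 0 < c0 γ v u := norm_pos_iff.2 (sub_ne_zero.2 e)
    refine ((h1.1 _ (slit hμ cp)).2.comp v ((dc0 h e).ofReal_comp.const_mul μ)).congr_deriv ?_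
    have b : (c0 γ v u : ℂ) ≠ 0 := ofReal_ne_zero.2 cp.ne'
    push_cast
    field_simp

lemma cc0 : Continuous fun p : ℝ × ℝ => c0 γ p.1 p.2 := by
  have := h.smooth.continuous
  unfold c0; fun_prop

lemma cee : Continuous fun p : ℝ × ℝ => ee γ p.1 p.2 := by
  have := h.smooth.continuous
  have := h.s1.continuous
  unfold ee rdot; fun_prop

include h1 hμ in
lemma cKL {p : ℝ × ℝ} (e : γ p.1 ≠ γ p.2) :
    ContinuousAt (fun p : ℝ × ℝ => K0 (μ * c0 γ p.1 p.2)) p ∧
    ContinuousAt (fun p : ℝ × ℝ => L1 (μ * c0 γ p.1 p.2)) p := by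
  have cp : 0 < c0 γ p.1 p.2 := norm_pos_iff.2 (sub_ne_zero.2 e)
  have c : ContinuousAt (fun p : ℝ × ℝ => μ * c0 γ p.1 p.2) p :=
    (continuous_const.mul (continuous_ofReal.comp (cc0 h))).continuousAt
  exact ⟨ContinuousAt.comp (f := fun p : ℝ × ℝ => μ * c0 γ p.1 p.2)
      (h1.1 _ (slit hμ cp)).1.continuousAt c,
    ContinuousAt.comp (f := fun p : ℝ × ℝ => μ * c0 γ p.1 p.2) (h1.1 _ (slit hμ cp)).2.continuousAt c⟩

include h1 h2 hμ in
lemma cL : Continuous fun p : ℝ × ℝ => L1 (μ * c0 γ p.1 p.2) := continuous_iff_continuousAt.2 fun p => by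
  by_cases e : γ p.1 = γ p.2
  · obtain ⟨A, hA⟩ := h2
    have z : c0 γ p.1 p.2 = 0 := by simp [c0, e]
    have c := cc0 h
    rw [ContinuousAt, z, ofReal_zero, mul_zero, h1.2.2.2.1, tendsto_iff_norm_sub_tendsto_zero]
    have t : Tendsto (fun x : ℝ × ℝ => ‖μ * c0 γ x.1 x.2‖) (𝓝 p) (𝓝 0) :=
      Continuous.tendsto' (by fun_prop) _ _ (by simp [z])
    refine squeeze_zero' (g := fun x => A * (‖μ * c0 γ x.1 x.2‖ * √‖μ * c0 γ x.1 x.2‖))
      (Eventually.of_forall fun _ => norm_nonneg _) ?_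
      (Continuous.tendsto' (by fun_prop) _ _ (by simp [z]))
    filter_upwards [t.eventually (ge_mem_nhds one_pos)] with x b
    rcases (show 0 ≤ c0 γ x.1 x.2 from norm_nonneg _).eq_or_lt with c | c
    · simp [← c, h1.2.2.2.1]
    · exact (hA _ (sec hμ c)).2.2.2.2.2 b
  · exact (cKL h h1 hμ e).2

include h1 h2 hμ in
lemma cKe : Continuous fun p : ℝ × ℝ => K0 (μ * c0 γ p.1 p.2) * ee γ p.1 p.2 :=
  continuous_iff_continuousAt.2 fun p => by
  by_cases e : γ p.1 = γ p.2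
  · obtain ⟨A, hA⟩ := h2
    have z : c0 γ p.1 p.2 = 0 := by simp [c0, e]
    have z' : ee γ p.1 p.2 = 0 := by simp [ee, rdot, e]
    have c := cc0 h
    rw [ContinuousAt, z', ofReal_zero, mul_zero, tendsto_zero_iff_norm_tendsto_zero]
    refine squeeze_zero (g := fun x => |A| * ((√‖μ‖)⁻¹ * √(c0 γ x.1 x.2)))
      (fun _ => norm_nonneg _) (fun x => ?_) (Continuous.tendsto' (by fun_prop) _ _ (by simp [z]))
    have b := ee_le h x.1 x.2
    rw [norm_mul, norm_real, Real.norm_eq_abs]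
    rcases (show 0 ≤ c0 γ x.1 x.2 from norm_nonneg _).eq_or_lt with c | c
    · rw [abs_nonpos_iff.1 (b.trans c.ge) , abs_zero, mul_zero]; positivity
    have a := (hA _ (sec hμ c)).2.1
    have x1 : ‖exp (-(μ * c0 γ x.1 x.2))‖ ≤ 1 := by
      rw [norm_exp, Real.exp_le_one_iff]; simpa using (mul_pos hμ c).le
    rw [norm_mul, norm_real, Real.norm_of_nonneg c.le, Real.sqrt_mul (norm_nonneg _)] at a
    have s := Real.sqrt_pos.2 c
    calc _ ≤ |A| * (√‖μ‖ * √(c0 γ x.1 x.2))⁻¹ * 1 * c0 γ x.1 x.2 :=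
          mul_le_mul (a.trans (by gcongr; exact le_abs_self A)) b (abs_nonneg _) (by positivity)
      _ = |A| * ((√‖μ‖)⁻¹ * (c0 γ x.1 x.2 / √(c0 γ x.1 x.2))) := by rw [mul_inv]; ring
      _ = _ := by rw [Real.div_sqrt]
  · exact (cKL h h1 hμ e).1.mul (continuous_ofReal.comp (cee h)).continuousAt

end

end KD

open KD in
theorem st_kd (h1 : St_A1) (h2 : St_A2) (hQ : St_QS) : St_KD := fun j γ h => by
  have s0 := hQ.1 γ h.smooth h.per (fun s => norm_ne_zero_iff.1 (by rw [h.unit]; norm_num))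
    fun s t => h.inj
  obtain ⟨s1, d0⟩ := dv s0
  obtain ⟨s2, d1⟩ := dv s1
  have c0' : Continuous fun p : ℝ × ℝ => qq γ p.1 p.2 := s0.continuous
  have c1 : Continuous fun p : ℝ × ℝ => q1 γ p.1 p.2 := s1.continuous
  have c2 : Continuous fun p : ℝ × ℝ => q2 γ p.1 p.2 := s2.continuous
  have g0 := h.smooth.continuous
  have g1 := h.s1.continuous
  have g2 := (contDiff_infty_iff_deriv.1 h.s1).2.continuous
  have cc := cc0 h
  have ce := cee h
  have ce1 : Continuous fun p : ℝ × ℝ => e1v γ p.1 p.2 := by unfold e1v rdot; fun_prop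
  have cn : Continuous fun p : ℝ × ℝ => rdot (nr γ p.1) (γ p.2 - γ p.1) := by unfold rdot nr; fun_prop
  have cn' : Continuous fun p : ℝ × ℝ => rdot (nr γ p.2) (γ p.2 - γ p.1) := by unfold rdot nr; fun_prop
  have cnn : Continuous fun p : ℝ × ℝ => rdot (nr γ p.1) (nr γ p.2) := by unfold rdot nr; fun_prop
  have ct : Continuous fun p : ℝ × ℝ => rdot (deriv γ p.1 - deriv γ p.2) (γ p.1 - γ p.2) := by
    unfold rdot; fun_prop
  refine ⟨?_, fun μ hμ => ?_⟩
  · have p0 := h.per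
    have p1 := per_deriv' p0
    have p2 := per_deriv' p1
    have pq0 : ∀ s t, qq γ (s + 2 * π) t = qq γ s t ∧ qq γ s (t + 2 * π) = qq γ s t := fun s t => by
      simp only [qq, nr, p0 s, p0 t, p1 t, p2 t, and_self]
    have pq1 : ∀ s t, q1 γ (s + 2 * π) t = q1 γ s t ∧ q1 γ s (t + 2 * π) = q1 γ s t := pv pq0
    have pq2 : ∀ s t, q2 γ (s + 2 * π) t = q2 γ s t ∧ q2 γ s (t + 2 * π) = q2 γ s t := pv pq1
    have m : ∀ {f : ℝ × ℝ → ℝ}, Continuous f → Measurable fun p : ℂ × ℝ × ℝ => f p.2 :=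
      fun hf => hf.measurable.comp measurable_snd
    have mz : Measurable fun p : ℂ × ℝ × ℝ => p.1 * c0 γ p.2.1 p.2.2 :=
      measurable_fst.mul (measurable_ofReal.comp (m cc))
    have mK := h1.2.1.comp mz
    have mL := h1.2.2.1.comp mz
    have m2 : Measurable fun p : ℂ × ℝ × ℝ => p.1 ^ 2 := measurable_fst.pow_const 2
    have r : ∀ {f : ℂ × ℝ × ℝ → ℝ}, Measurable f → Measurable fun p => (f p : ℂ) :=
      fun hf => measurable_ofReal.comp hf
    have dd : ∀ s t, γ s ≠ γ t → DifferentiableOn ℂ (fun μ => K0 (μ * c0 γ s t)) {μ | 0 < μ.re} ∧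
        DifferentiableOn ℂ (fun μ => L1 (μ * c0 γ s t)) {μ | 0 < μ.re} := fun s t e => by
      have cp : 0 < c0 γ s t := norm_pos_iff.2 (sub_ne_zero.2 e)
      exact ⟨fun μ hμ => (HasDerivAt.comp (h := fun x => x * (c0 γ s t : ℂ)) μ (h1.1 _ (slit hμ cp)).1
          (hasDerivAt_mul_const _)).differentiableAt.differentiableWithinAt,
        fun μ hμ => (HasDerivAt.comp (h := fun x => x * (c0 γ s t : ℂ)) μ (h1.1 _ (slit hμ cp)).2
          (hasDerivAt_mul_const _)).differentiableAt.differentiableWithinAt⟩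
    refine ⟨⟨mK.div_const _, ?_, ?_⟩, ⟨(mL.mul (r (m c0'))).div_const _, ?_, ?_⟩,
      ⟨((((m2.mul mK).mul (r (m ce))).mul (r (m c0'))).neg.add (mL.mul (r (m c1)))).div_const _, ?_, ?_⟩,
      ⟨(((((m2.mul mL).mul (r (((m c0').mul ((m cn).pow_const 2)).div ((m cc).pow_const 2)))).neg).sub
        ((m2.mul mK).mul (r (((m ce1).mul (m c0')).add (((m ce).const_mul 2).mul (m c1)))))).add
        (mL.mul (r (m c2)))).div_const _, ?_, ?_⟩,
      ⟨(m2.mul (r ((m cnn).const_sub 1))).mul (mK.div_const _), ?_, ?_⟩,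
      ⟨(mL.mul (r ((m ct).div ((m cc).pow_const 2)))).neg.div_const _, ?_, ?_⟩,
      ⟨((((m2.mul mK).add ((mL.const_mul 2).div ((r (m cc)).pow_const 2))).mul
        (r ((m cn).mul (m cn')))).neg.add (mL.mul (r (m cnn)))).div
        (((r (m cc)).pow_const 2).const_mul _), ?_, ?_⟩⟩
    all_goals first
      | (intro μ s t
         simp only [fS, fK, fKn, fKb, fSb, fS1, fNn, c0, ee, e1v, nr, p0 s, p0 t, p1 s, p1 t, p2 s,
           pq0, pq1, pq2, and_self])
      | (intro s t e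
         obtain ⟨a, b⟩ := dd s t e
         simp only [fS, fK, fKn, fKb, fSb, fS1, fNn]
         fun_prop)
  · have cl := cL h h1 h2 hμ
    have ck := cKe h h1 h2 hμ
    have o : ∀ {f : ℝ × ℝ → ℝ}, Continuous f → Continuous fun p => (f p : ℂ) :=
      fun hf => continuous_ofReal.comp hf
    refine ⟨(cl.mul (o c0')).div_const _, ?_, fun p e => ContinuousAt.continuousWithinAt ?_,
      fun v u => ⟨?_, fun e => ?_⟩⟩
    · exact (((((ck.const_mul (μ ^ 2)).mul (o c0')).neg.add (cl.mul (o c1)))).div_const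
        (2 * π)).congr fun p => by simp only [Function.uncurry, fKn, Pi.add_apply, Pi.neg_apply,
          Pi.mul_apply, mul_assoc]
    · have cp : 0 < c0 γ p.1 p.2 := norm_pos_iff.2 (sub_ne_zero.2 e)
      obtain ⟨a, b⟩ := cKL h h1 hμ e
      exact ((((b.const_mul _).mul (continuous_ofReal.continuousAt.comp
        ((c0'.mul (cn.pow 2)).continuousAt.div (cc.pow 2).continuousAt (pow_pos cp 2).ne'))).neg.sub
        ((a.const_mul _).mul (o ((ce1.mul c0').add ((ce.const_mul 2).mul c1))).continuousAt)).add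
        (b.mul (o c2).continuousAt)).div_const _
    · exact (((dL h h1 h2 hμ v u).mul (d0 v u).ofReal_comp).div_const _).congr_deriv
        (by simp only [fKn, q1, neg_mul])
    · refine (((((dK h h1 hμ e).const_mul (μ ^ 2)).mul (dee h v u).ofReal_comp).mul
        (d0 v u).ofReal_comp).neg.add ((dL h h1 h2 hμ v u).mul (d1 v u).ofReal_comp)).div_const
        (2 * π) |>.congr_deriv ?_
      have b : (c0 γ v u : ℂ) ≠ 0 := ofReal_ne_zero.2 (norm_pos_iff.2 (sub_ne_zero.2 e)).ne'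
      have pi : (π : ℂ) ≠ 0 := ofReal_ne_zero.2 Real.pi_ne_zero
      rw [fKb, fK, pyth h]
      simp only [Pi.mul_apply, q1, q2]
      push_cast
      field_simp
      ring

end Pool.Agent.Lib.IS2
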