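import Pool.Agent.Lib.IS2.Blue

/-! Non-resonant terms: invariance under complex reparametrisation and the kill estimate. -/

open scoped ContDiff ComplexConjugate Topology Real
open Complex MeasureTheory Set Filter

noncomputable section

namespace Pool.Agent.Lib.IS2

open Pool.Agent.Lib.ISO

namespace KILL

theorem rs_mem {B y η : ℝ} {P : ℂ → C2} (h : Str B y η P) : rs P ∈ SP := by
  refine ⟨?_, fun s => ?_⟩
  · exact (h.hol.contDiff.restrict_scalars ℝ).comp ofRealCLM.contDiff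
  · have := h.per s
    simp only [rs]
    push_cast
    exact this

theorem in_congr {μ : ℂ} {P Q : ℝ → C2} {n : ℕ} {v : Fin (n + 2) → ℝ}
    (h0 : ∀ i, P (v i) = Q (v i)) (h1 : ∀ i, deriv P (v i) = deriv Q (v i)) :
    In μ P n v = In μ Q n v := by
  simp only [In, pK, pS, pNd, pKd, pc, pD, pn, h0, h1]

theorem dd_open (q : ℕ) (h : ℝ) : IsOpen (DD q h) :=
  (isOpen_lt continuous_const continuous_re).inter (isOpen_lt continuous_norm continuous_const)

/-- the segment lies in the domain -/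
def Sg (q : ℕ) (h : ℝ) : Prop := 0 ≤ YY q h ∧ ∀ y, |y| ≤ YY q h → mu q h y ∈ DD q h

theorem ff_congr {q : ℕ} {h : ℝ} (hs : Sg q h) {f g : ℂ → ℂ} (e : ∀ μ ∈ DD q h, f μ = g μ) :
    FF q h f = FF q h g := by
  refine intervalIntegral.integral_congr fun y hy => ?_
  rw [uIcc_of_le (by linarith [hs.1])] at hy
  simp only [e _ (hs.2 y (abs_le.2 hy))]

theorem ff_int {q : ℕ} {h : ℝ} (hs : Sg q h) {f : ℂ → ℂ} (hf : DifferentiableOn ℂ f (DD q h)) :
    IntervalIntegrable (fun y => 2 * mu q h y * Gs q h (mu q h y) * f (mu q h y)) volume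
      (-YY q h) (YY q h) := by
  have c1 : Continuous (mu q h) := by unfold mu; fun_prop
  have c2 : Continuous (Gs q h) := by unfold Gs ze; fun_prop
  refine ContinuousOn.intervalIntegrable ?_
  rw [uIcc_of_le (by linarith [hs.1])]
  exact ((continuous_const.mul c1).mul (c2.comp c1)).continuousOn.mul
    (hf.continuousOn.comp c1.continuousOn fun y hy => hs.2 y (abs_le.2 hy))

theorem ff_sub {q : ℕ} {h : ℝ} (hs : Sg q h) {f g : ℂ → ℂ} (hf : DifferentiableOn ℂ f (DD q h))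
    (hg : DifferentiableOn ℂ g (DD q h)) :
    FF q h (fun μ => f μ - g μ) = FF q h f - FF q h g := by
  rw [FF, FF, FF, ← intervalIntegral.integral_sub (ff_int hs hf) (ff_int hs hg)]
  simp only [mul_sub]

theorem ff_sum {q : ℕ} {h : ℝ} (hs : Sg q h) {K : ℕ} {f : Fin K → ℂ → ℂ}
    (hf : ∀ k, DifferentiableOn ℂ (f k) (DD q h)) :
    FF q h (fun μ => ∑ k, f k μ) = ∑ k, FF q h (f k) := by
  simp only [FF]
  rw [← intervalIntegral.integral_finsetSum fun k _ => ff_int hs (hf k)]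
  simp only [Finset.mul_sum]

/-- weights that do not see a reparametrisation fixing the `e`-neighbourhood of `α` -/
def Iv (e α : ℝ) (wt : ∀ n, (Fin n → ℝ) → ℂ) : Prop := ∀ φ : ℝ → ℝ,
  (∀ s, dc s α ≤ e → φ s = s) → (∀ s, e < dc s α → e < dc (φ s) α) →
  ∀ n v, wt n (fun i => φ (v i)) = wt n v

theorem real_case (hR : St_REP) {Cb e1 e2 α B y η : ℝ} {b : ℝ → ℝ} {P : ℂ → C2} {p : ℝ → C2}
    {wt : ∀ n, (Fin n → ℝ) → ℂ} (hb : Bf Cb e1 e2 α b) (hP : Str B y η P) (hp : p ∈ SP)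
    (h0 : ∀ s, e1 ≤ dc s α → p s = 0) (hw : Wt wt) (hi : Iv e1 α wt) (μ : ℂ) (n : ℕ) {x : ℝ}
    (hx : |x| * Cb < 1) : Tn wt μ (Pz P p b x) n = Tn wt μ (rs P + p) n := by
  have db : Differentiable ℝ b := hb.per.smooth.differentiable (by simp)
  have hd : ∀ s, HasDerivAt (fun s => s + x * b s) (1 + x * deriv b s) s := fun s =>
    (hasDerivAt_id s).add ((db s).hasDerivAt.const_mul x)
  have hpos : ∀ s, 0 < deriv (fun s => s + x * b s) s := fun s => by
    rw [(hd s).deriv]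
    have h1 : |x * deriv b s| ≤ |x| * Cb := by
      rw [abs_mul]; exact mul_le_mul_of_nonneg_left (hb.b1 s) (abs_nonneg _)
    linarith [neg_abs_le (x * deriv b s)]
  have hinj : Function.Injective fun s => s + x * b s := (strictMono_of_deriv_pos hpos).injective
  have f1 : ∀ s, dc s α ≤ e1 → s + x * b s = s := fun s hs => by simp [hb.zero s hs]
  have f2 : ∀ s, e1 < dc s α → e1 < dc (s + x * b s) α := fun s hs => by
    by_contra hc
    have e : s + x * b s = s := hinj (f1 _ (not_lt.1 hc))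
    rw [e] at hc
    exact hc hs
  have h1 := hR (rs P + p) (SP.add_mem (rs_mem hP) hp) (fun s => s + x * b s) wt μ n
    (contDiff_id.add (contDiff_const.mul (hb.per.smooth.of_le (by simp)))) hpos
    (fun s => by simp only [hb.per.per s]; ring) hw
  rw [← h1]
  have e1' : (fun n v => wt n fun i => v i + x * b (v i)) = wt :=
    funext fun n => funext fun v => hi (fun s => s + x * b s) f1 f2 n v
  have e2' : Pz P p b x = fun s => (rs P + p) (s + x * b s) := funext fun s => by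
    have : p (s + x * b s) = p s := by
      rcases le_or_gt (dc s α) e1 with a | a
      · rw [f1 s a]
      · rw [h0 s a.le, h0 _ (f2 s a).le]
    simp only [Pz, rs, Pi.add_apply, this]
    push_cast
    rfl
  rw [e1', e2']

theorem const_ball {F : ℂ → ℂ} {r δ : ℝ} {c : ℂ} (hr : 0 < r) (hδ : 0 < δ)
    (hF : DifferentiableOn ℂ F (Metric.ball 0 r)) (hc : ∀ x : ℝ, |x| < δ → F x = c) :
    ∀ z ∈ Metric.ball (0 : ℂ) r, F z = c := by
  have h1 : AnalyticOnNhd ℂ F (Metric.ball 0 r) := hF.analyticOnNhd Metric.isOpen_ball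
  refine h1.eqOn_of_preconnected_of_frequently_eq (g := fun _ => c) analyticOnNhd_const
    (convex_ball 0 r).isPreconnected (Metric.mem_ball_self hr) ?_
  have t : Tendsto (fun x : ℝ => (x : ℂ)) (𝓝[≠] 0) (𝓝[≠] 0) := by
    refine tendsto_nhdsWithin_iff.2 ⟨?_, ?_⟩
    · exact (continuous_ofReal.tendsto' 0 0 (by simp)).mono_left nhdsWithin_le_nhds
    · filter_upwards [self_mem_nhdsWithin] with x hx
      simpa using hx
  refine t.frequently (Eventually.frequently ?_)
  filter_upwards [mem_nhdsWithin_of_mem_nhds (Metric.ball_mem_nhds (0 : ℝ) hδ)] with x hx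
  exact hc x (by simpa using hx)

theorem tt_le {q : ℕ} {h : ℝ} (hh : 20 ≤ h) : 0 < Tt q h ∧ 20 * Tt q h ≤ 1 := by
  have h1 : h ≤ h ^ (q + 2) := le_self_pow₀ (by linarith) (by omega)
  have h2 : 0 < h ^ (q + 2) := by positivity
  refine ⟨inv_pos.2 h2, ?_⟩
  rw [Tt, ← div_eq_mul_inv, div_le_one h2]
  linarith

theorem core (hH : St_HOL) (hR : St_REP) (hC : St_CUT) (hD : St_DEF) (hE : St_EST) (hS : St_SH)
    (j B : ℝ) (q n : ℕ) (hq : 6 ≤ q) : ∃ C h0, ∀ h, h0 ≤ h → ∀ γ P p α wt, Nc j γ →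
    Str B (100 * h / om q h) (om q h)⁻¹ P → nm (rs P - cp γ) ≤ (om q h)⁻¹ → p ∈ SP →
    nm p ≤ (om q h)⁻¹ → (∀ s, 2 * Tt q h / h ≤ dc s α → p s = 0) → Wt wt →
    Iv (2 * Tt q h / h) α wt → (∀ v, wt (n + 2) v ≠ 0 → ∃ i, dc (v i) α ≤ 2 * Tt q h / h) →
    ‖FF q h fun μ => Tn wt μ (rs P + p) n‖ ≤ C * om q h ^ 3 * Real.exp (-(h / 8)) := by
  obtain ⟨Cb, hCb, cb, -⟩ := hC
  obtain ⟨B', C1, h1, d⟩ := hD j B Cb q hq
  obtain ⟨C2, h2, e⟩ := hE j B' C1 q n (by omega)
  obtain ⟨C3, h3, o⟩ := hH j B' q (by omega)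
  obtain ⟨C4, h4, s⟩ := hS q (by omega)
  refine ⟨C2, max (max h1 h2) (max h3 (max h4 20)), fun h hh γ P p α wt hγ hP hn hp hnp hp0 hw hi hz => ?_⟩
  simp only [max_le_iff] at hh
  obtain ⟨⟨a1, a2⟩, a3, a4, a5⟩ := hh
  obtain ⟨T0, T1⟩ := tt_le (q := q) a5
  have hp' : 0 < h := by linarith
  obtain ⟨b, hb⟩ := cb (2 * Tt q h / h) (20 * Tt q h) α (by positivity) (by
    rw [← mul_div_assoc, div_le_iff₀ hp']; nlinarith) T1
  obtain ⟨d1, d2, d3⟩ := d h a1 γ P p α b hγ hP hn hp hnp hb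
  have v0 : 0 < vt q h := by unfold vt om; positivity
  have hm : (-I * vt q h) ∈ Metric.ball (0 : ℂ) (2 * vt q h) := by
    simp [abs_of_pos v0, v0]
  have sg : Sg q h := ⟨by unfold YY; positivity, fun y hy => ((s h a4).2.1 y hy).1⟩
  rw [ff_congr sg (g := fun μ => Tn wt μ (Pz P p b (-I * vt q h)) n) fun μ hμ => ?_]
  · exact e h a2 γ _ α wt hγ (d1 _ (by simpa using hm)) d3 hw hz
  · symm
    refine const_ball (F := fun ζ => Tn wt μ (Pz P p b ζ) n) (δ := Cb⁻¹) (by positivity)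
      (by positivity) ?_ (fun x hx => real_case hR hb hP hp hp0 hw hi μ n ?_) _ hm
    · exact (o h a3 γ (C1 * h / om q h) wt n hγ hw).2 _ (fun _ => μ) _ Metric.isOpen_ball
        (differentiableOn_const μ) (fun ζ hζ => ⟨hμ, d1 ζ (by simpa using hζ)⟩)
        fun s => ⟨(d2 s).1.differentiableOn, (d2 s).2.differentiableOn⟩
    · rwa [← lt_div_iff₀ (by linarith), one_div]

theorem wt_one : Wt fun _ _ => 1 := fun _ => ⟨measurable_const, fun _ => by simp, fun _ _ => rfl⟩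

/-- weight on the first vertex -/
def wa (φ : ℝ → ℝ) : ∀ n, (Fin n → ℝ) → ℂ := fun n v => if h : 0 < n then φ (v ⟨0, h⟩) else 0

theorem wa_wt {φ : ℝ → ℝ} (hφ : Per (2 * π) φ) (h1 : ∀ s, |φ s| ≤ 1) : Wt (wa φ) := fun n => by
  unfold wa
  split_ifs with h
  · refine ⟨measurable_ofReal.comp (hφ.smooth.continuous.measurable.comp (measurable_pi_apply _)),
      fun v => by simpa using h1 _, fun v k => ?_⟩
    exact congrArg _ (Function.Periodic.int_mul hφ.per _ _)
  · exact ⟨measurable_const, fun _ => by simp, fun _ _ => rfl⟩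

theorem wa_iv {φ : ℝ → ℝ} {e α : ℝ} (h0 : ∀ s, e ≤ dc s α → φ s = 0) : Iv e α (wa φ) :=
  fun ψ f1 f2 n v => by
  unfold wa
  split_ifs with h
  · rcases le_or_gt (dc (v ⟨0, h⟩) α) e with a | a
    · simp only [f1 _ a]
    · simp only [h0 _ a.le, h0 _ (f2 _ a).le]
  · rfl

theorem dc_cont (α : ℝ) : Continuous fun s => dc s α :=
  continuous_dc.comp (f := fun s => (s, α)) (by fun_prop)

open Classical in
/-- some vertex is near `α` -/
def wb (e α : ℝ) : ∀ n, (Fin n → ℝ) → ℂ := fun _ v => if ∃ i, dc (v i) α ≤ e then 1 else 0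

theorem wb_wt (e α : ℝ) : Wt (wb e α) := fun n => by
  refine ⟨Measurable.ite ?_ measurable_const measurable_const, fun v => ?_, fun v k => ?_⟩
  · rw [Set.ofPred_exists]
    exact MeasurableSet.iUnion fun i => measurableSet_le
      ((dc_cont α).measurable.comp (measurable_pi_apply i)) measurable_const
  · unfold wb; split_ifs <;> simp
  · simp only [wb, dc_add_left]

theorem wb_iv (e α : ℝ) : Iv e α (wb e α) := fun ψ f1 f2 n v => by
  have : ∀ s, dc (ψ s) α ≤ e ↔ dc s α ≤ e := fun s =>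
    ⟨fun a => not_lt.1 fun c => absurd (f2 s c) (not_lt.2 a), fun a => by rwa [f1 s a]⟩
  simp only [wb, this]

theorem in_far {e α : ℝ} {Q p : ℝ → C2}
    (h0 : ∀ s, e ≤ dc s α → p s = 0) (μ : ℂ) {n : ℕ} (v : Fin (n + 2) → ℝ) :
    In μ (Q + p) n v - In μ Q n v =
      wb e α (n + 2) v * In μ (Q + p) n v - wb e α (n + 2) v * In μ Q n v := by
  unfold wb
  split_ifs with h
  · simp
  · push Not at h
    rw [in_congr (Q := Q) (fun i => by simp [h0 _ (h i).le]) fun i => ?_]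
    · simp
    · refine EventuallyEq.deriv_eq ?_
      filter_upwards [(isOpen_lt continuous_const (dc_cont α)).mem_nhds (h i)] with s hs
      simp [h0 s (le_of_lt hs)]

theorem pow_exp (m : ℕ) {h : ℝ} (hh : 0 ≤ h) :
    h ^ m * Real.exp (-(h / 8)) ≤ 8 ^ m * m.factorial := by
  have h1 := Real.pow_div_factorial_le_exp (h / 8) (by positivity) m
  rw [div_le_iff₀ (by positivity), div_pow, div_le_iff₀ (by positivity)] at h1
  rw [Real.exp_neg, ← div_eq_mul_inv, div_le_iff₀ (Real.exp_pos _)]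
  linarith

theorem sum_bd {f : ℕ → ℂ} {c : ℕ → ℝ} {x : ℝ} (n0 : ℕ) (h : ∀ n < n0, ‖f n‖ ≤ c n * x) :
    ‖∑ n ∈ Finset.range n0, 2 * (-2) ^ n * f n‖ ≤ (∑ n ∈ Finset.range n0, 2 * 2 ^ n * c n) * x := by
  rw [Finset.sum_mul]
  refine norm_sum_le_of_le _ fun n hn => ?_
  rw [norm_mul, norm_mul, norm_pow, norm_neg, Complex.norm_two, mul_assoc (2 * 2 ^ n : ℝ)]
  exact mul_le_mul_of_nonneg_left (h n (Finset.mem_range.1 hn)) (by positivity)

theorem tail_eq (q N : ℕ) (C : ℝ) {h : ℝ} (hh : 0 < h) :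
    C * om q h ^ 3 * (C / h ^ 3) ^ (q * (N + 3)) = C ^ (q * (N + 3) + 1) / om q h ^ N := by
  unfold om
  rw [div_pow, ← pow_mul h 3, show 3 * (q * (N + 3)) = 3 * q * 3 + 3 * q * N by ring, pow_add,
    pow_mul h (3 * q) 3, pow_mul h (3 * q) N]
  field_simp
  ring

theorem main_le (q N : ℕ) {h : ℝ} (hh : 1 ≤ h) :
    h ^ (q + 3) * om q h ^ 3 * Real.exp (-(h / 8)) ≤
      8 ^ (q + 3 + 3 * q * (N + 3)) * (q + 3 + 3 * q * (N + 3)).factorial / om q h ^ N := by
  have o0 : 0 < om q h := by unfold om; positivity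
  rw [le_div_iff₀ (by positivity)]
  refine le_of_eq_of_le ?_ (pow_exp _ (h := h) (by linarith))
  unfold om
  rw [pow_add h (q + 3), pow_mul h (3 * q)]
  ring

end KILL

open KILL in
theorem st_kill (hC : St_CUT) (hS : St_SH) (hD : St_DEF) (hR : St_REP) (hH : St_HOL) (hL : St_LHT)
    (hE : St_EST) : St_KILL := by
  intro j B q N hq
  choose c h1 co using fun n => core hH hR hC hD hE hS j B q n hq
  obtain ⟨Cb, hCb, -, cu⟩ := hC
  obtain ⟨Cl, h2, l⟩ := hL j q (by omega)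
  obtain ⟨C3, h3, o⟩ := hH j (j + 1) q (by omega)
  obtain ⟨C4, h4, s⟩ := hS q (by omega)
  obtain ⟨h5, b5⟩ := ((finite_Iio (q * (N + 3))).image h1).bddAbove
  set n0 := q * (N + 3) with hn0
  set S : ℝ := ∑ n ∈ Finset.range n0, 2 * 2 ^ n * ((Cb + 2) * |c n|) with hSd
  set F : ℝ := 8 ^ (q + 3 + 3 * q * (N + 3)) * (q + 3 + 3 * q * (N + 3)).factorial with hF
  refine ⟨2 * |Cl ^ (n0 + 1)| + S * F, max (max h2 h3) (max h4 (max h5 20)),
    fun h hh γ P hγ hP hn => ?_⟩
  simp only [max_le_iff] at hh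
  obtain ⟨⟨a2, a3⟩, a4, a5, a6⟩ := hh
  have a1 : ∀ n < n0, h1 n ≤ h := fun n hn => (b5 ⟨n, hn, rfl⟩).trans a5
  obtain ⟨T0, T1⟩ := tt_le (q := q) a6
  have hp' : 0 < h := by linarith
  have o0 : 0 < om q h := by unfold om; positivity
  have sg : Sg q h := ⟨by unfold YY; positivity, fun y hy => ((s h a4).2.1 y hy).1⟩
  have S0 : 0 ≤ S := Finset.sum_nonneg fun n _ => by positivity
  have g1 : 1 ≤ h ^ (q + 3) := one_le_pow₀ (by linarith)
  have mP := rs_mem hP
  have mγ := cp_mem hγ.smooth hγ.per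
  have oi : (om q h)⁻¹ ≤ 2 / om q h := by
    rw [div_eq_mul_inv]; linarith [inv_pos.2 o0]
  have tl : ∀ Q ∈ SP, nm (Q - cp γ) ≤ 2 / om q h → ‖FT q h Q - ∑ n ∈ Finset.range n0,
      2 * (-2) ^ n * FF q h fun μ => Tn (fun _ _ => 1) μ Q n‖ ≤ |Cl ^ (n0 + 1)| / om q h ^ N :=
    fun Q hQ hq' => by
    refine (((l h a2 γ hγ).1 Q hQ hq').2.2.2 n0).trans ?_
    rw [tail_eq q N Cl hp']
    exact div_le_div_of_nonneg_right (le_abs_self _) (by positivity)
  have ho : ∀ Q ∈ SP, nm (Q - cp γ) ≤ 2 / om q h → ∀ wt n, Wt wt →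
      (∀ μ ∈ DD q h, Integrable (fun v => wt (n + 2) v * In μ Q n v) (box (n + 2))) ∧
      DifferentiableOn ℂ (fun μ => Tn wt μ Q n) (DD q h) := fun Q hQ hq' wt n hw => by
    have ad := ((l h a2 γ hγ).1 Q hQ hq').1
    have := o h a3 γ (2 / om q h) wt n hγ hw
    exact ⟨fun μ hμ => (this.1 Q μ ad hμ).1, this.2 _ id (fun _ => Q) (dd_open q h)
      differentiableOn_id (fun μ hμ => ⟨hμ, ad⟩)
      fun s => ⟨differentiableOn_const _, differentiableOn_const _⟩⟩
  set x : ℝ := h ^ (q + 3) * om q h ^ 3 * Real.exp (-(h / 8)) with hx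
  set x0 : ℝ := om q h ^ 3 * Real.exp (-(h / 8)) with hx0
  have x0p : 0 ≤ x0 := by positivity
  have fin : S * x ≤ S * F / om q h ^ N := by
    rw [mul_div_assoc]
    exact mul_le_mul_of_nonneg_left (main_le q N (by linarith)) S0
  have cab : ∀ n, c n * om q h ^ 3 * Real.exp (-(h / 8)) ≤ |c n| * x0 := fun n => by
    rw [mul_assoc]; exact mul_le_mul_of_nonneg_right (le_abs_self _) x0p
  have n00 : nm (0 : ℝ → C2) ≤ (om q h)⁻¹ := nm_le fun s => by simp [o0.le]
  have ab : 0 ≤ |Cl ^ (n0 + 1)| / om q h ^ N := by positivity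
  have c0' : ∀ n < n0, ∀ α wt, Wt wt → Iv (2 * Tt q h / h) α wt →
      (∀ v, wt (n + 2) v ≠ 0 → ∃ i, dc (v i) α ≤ 2 * Tt q h / h) →
      ‖FF q h fun μ => Tn wt μ (rs P) n‖ ≤ |c n| * x0 := fun n hn' α wt hw hi hz => by
    have := co n h (a1 n hn') γ P 0 α wt hγ hP hn SP.zero_mem n00 (fun _ _ => rfl) hw hi hz
    rw [add_zero] at this
    exact this.trans (cab n)
  refine ⟨?_, fun p hp α hnp hp0 => ?_⟩
  · obtain ⟨K, α, φ, pu⟩ := cu (2 * Tt q h / h) (by positivity) (by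
      rw [div_le_one hp']; linarith)
    have hK : (K : ℝ) ≤ (Cb + 2) * h ^ (q + 3) := by
      refine pu.card.trans ?_
      rw [Tt, show Cb / (2 * (h ^ (q + 2))⁻¹ / h) = Cb / 2 * h ^ (q + 3) by field_simp; ring]
      exact mul_le_mul_of_nonneg_right (by linarith) (by positivity)
    have wφ : ∀ k, Wt (wa (φ k)) := fun k => wa_wt (pu.per k) fun s => by
      rw [abs_of_nonneg (pu.nn k s), ← pu.sum s]
      exact Finset.single_le_sum (f := fun k => φ k s) (fun k _ => pu.nn k s) (Finset.mem_univ k)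
    have m := sum_bd (f := fun n => FF q h fun μ => Tn (fun _ _ => 1) μ (rs P) n)
      (c := fun n => (Cb + 2) * |c n|) (x := x) n0 fun n hn' => by
      rw [ff_congr sg (g := fun μ => ∑ k, Tn (wa (φ k)) μ (rs P) n) fun μ hμ => ?_,
        ff_sum sg fun k => (ho _ mP (hn.trans oi) _ n (wφ k)).2]
      · refine (norm_sum_le_of_le _ fun k _ => c0' n hn' (α k) _ (wφ k) (wa_iv (pu.supp k))
          fun v hv => ⟨0, le_of_not_gt fun a => hv ?_⟩).trans ?_
        · simp [wa, pu.supp k _ a.le]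
        · rw [Finset.sum_const, Finset.card_univ, Fintype.card_fin, nsmul_eq_mul]
          refine (mul_le_mul_of_nonneg_right hK (by positivity)).trans_eq ?_
          rw [hx, hx0]; ring
      · simp only [Tn]
        rw [← integral_finsetSum _ fun k _ => (ho _ mP (hn.trans oi) _ n (wφ k)).1 μ hμ]
        refine integral_congr_ae (Eventually.of_forall fun v => ?_)
        simp only [wa, Nat.zero_lt_succ, dite_true, ← Finset.sum_mul, ← ofReal_sum, pu.sum, ofReal_one]
    have := norm_le_norm_add_norm_sub' (FT q h (rs P)) (∑ n ∈ Finset.range n0,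
      2 * (-2) ^ n * FF q h fun μ => Tn (fun _ _ => 1) μ (rs P) n)
    rw [add_div, mul_div_assoc]
    linarith [tl _ mP (hn.trans oi)]
  · have mQ := SP.add_mem mP hp
    have nQ : nm (rs P + p - cp γ) ≤ 2 / om q h := by
      rw [add_sub_right_comm, div_eq_mul_inv]
      linarith [sn_nm.add _ (SP.sub_mem mP mγ) _ hp]
    have m := sum_bd (f := fun n => (FF q h fun μ => Tn (fun _ _ => 1) μ (rs P + p) n) -
        FF q h fun μ => Tn (fun _ _ => 1) μ (rs P) n)
      (c := fun n => (Cb + 2) * |c n|) (x := x) n0 fun n hn' => by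
      have w := wb_wt (2 * Tt q h / h) α
      have z : ∀ v, wb (2 * Tt q h / h) α (n + 2) v ≠ 0 → ∃ i, dc (v i) α ≤ 2 * Tt q h / h :=
        fun v hv => by
        by_contra a
        exact hv (if_neg a)
      rw [← ff_sub sg (ho _ mQ nQ _ n wt_one).2 (ho _ mP (hn.trans oi) _ n wt_one).2,
        ff_congr sg (g := fun μ => Tn (wb (2 * Tt q h / h) α) μ (rs P + p) n -
          Tn (wb (2 * Tt q h / h) α) μ (rs P) n) fun μ hμ => ?_,
        ff_sub sg (ho _ mQ nQ _ n w).2 (ho _ mP (hn.trans oi) _ n w).2]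
      · have b1 := (co n h (a1 n hn') γ P p α _ hγ hP hn hp hnp hp0 w (wb_iv _ _) z).trans (cab n)
        have b2 := c0' n hn' α _ w (wb_iv _ _) z
        refine (norm_sub_le_of_le b1 b2).trans ?_
        have e : (Cb + 2) * |c n| * x = ((Cb + 2) * h ^ (q + 3)) * (|c n| * x0) := by
          rw [hx, hx0]; ring
        rw [e, ← two_mul]
        exact mul_le_mul_of_nonneg_right (by nlinarith) (by positivity)
      · simp only [Tn]
        rw [← integral_sub ((ho _ mQ nQ _ n wt_one).1 μ hμ) ((ho _ mP (hn.trans oi) _ n wt_one).1 μ hμ),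
          ← integral_sub ((ho _ mQ nQ _ n w).1 μ hμ) ((ho _ mP (hn.trans oi) _ n w).1 μ hμ)]
        refine integral_congr_ae (Eventually.of_forall fun v => ?_)
        simp only [one_mul]
        exact in_far hp0 μ v
    simp only [mul_sub, Finset.sum_sub_distrib] at m
    have t1 := tl _ mQ nQ
    have t2 := tl _ mP (hn.trans oi)
    have key : ∀ a b a' b' : ℂ, ‖a - b‖ ≤ ‖a - a'‖ + ‖b - b'‖ + ‖a' - b'‖ := fun a b a' b' => by
      rw [show a - b = (a - a') - (b - b') + (a' - b') by ring]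
      exact (norm_add_le _ _).trans (add_le_add (norm_sub_le _ _) le_rfl)
    rw [add_div, mul_div_assoc]
    refine (key _ _ _ _).trans ((add_le_add (add_le_add t1 t2) m).trans ?_)
    linarith

end Pool.Agent.Lib.IS2
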