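import Pool.Agent.Lib.IS2.B_KB

/-! The integrand of a chain is measurable and holomorphic in parameters. -/

open scoped ContDiff ComplexConjugate Topology Real
open Complex MeasureTheory Set Filter

noncomputable section

namespace Pool.Agent.Lib.IS2

open Pool.Agent.Lib.ISO

namespace KMB

theorem slit {z : ℂ} (h : Sec z) : z ∈ slitPlane := by
  by_contra h'
  rw [mem_slitPlane_iff, not_or, not_lt, not_not] at h'
  have h1 : ‖z‖ = -z.re := by rw [← abs_of_nonpos h'.1, abs_re_eq_norm.2 h'.2]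
  have h2 := h.2
  exact h.1 (norm_le_zero_iff.1 (by linarith [h'.1]))

theorem meas (hA1 : St_A1) {P : ℝ → C2} (hP : P ∈ SP) {α : Type} [MeasurableSpace α] {μ : α → ℂ}
    {s t : α → ℝ} (hμ : Measurable μ) (hs : Measurable s) (ht : Measurable t) :
    Measurable (fun a => pS (μ a) P (s a) (t a)) ∧ Measurable (fun a => pK (μ a) P (s a) (t a)) ∧
    Measurable (fun a => pKd (μ a) P (s a) (t a)) ∧
    Measurable fun a => pNd (μ a) P (s a) (t a) := by
  obtain ⟨-, m0, m1, -⟩ := hA1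
  have h0 : Measurable P := hP.1.continuous.measurable
  have h1 : Measurable (deriv P) := (hP.1.continuous_deriv (by simp)).measurable
  simp only [pS, pK, pKd, pNd, pc, dot, pn, pD]
  refine ⟨?_, ?_, ?_, ?_⟩ <;> fun_prop

theorem diff (hA1 : St_A1) {j B ϖ : ℝ} {γ : ℝ → ℂ} {μ : ℂ → ℂ} {P : ℂ → ℝ → C2} {ζ : ℂ}
    (hγ : Nc j γ) (hP : Adm j B γ ϖ (P ζ)) (hS : Sm (μ ζ)) (hμ : DifferentiableAt ℂ μ ζ)
    (hd : ∀ s, DifferentiableAt ℂ (fun ζ => P ζ s) ζ ∧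
      DifferentiableAt ℂ (fun ζ => deriv (P ζ) s) ζ) {s t : ℝ} (hst : γ s ≠ γ t) :
    DifferentiableAt ℂ (fun ζ => pS (μ ζ) (P ζ) s t) ζ ∧
    DifferentiableAt ℂ (fun ζ => pK (μ ζ) (P ζ) s t) ζ ∧
    DifferentiableAt ℂ (fun ζ => pKd (μ ζ) (P ζ) s t) ζ ∧
    DifferentiableAt ℂ (fun ζ => pNd (μ ζ) (P ζ) s t) ζ := by
  obtain ⟨-, g2, -⟩ := KBB.geo hγ hP s t
  have hc : 0 < c0 γ s t := norm_pos_iff.2 (sub_ne_zero.2 hst)
  have s1 := slit (KBB.sec hc hS (KBB.root hc g2)).1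
  have s2 : dot (pD (P ζ) s t) (pD (P ζ) s t) ∈ slitPlane := by
    have := (abs_le.1 ((abs_re_le_norm _).trans g2)).1
    rw [← ofReal_pow, sub_re, ofReal_re] at this
    exact Or.inl (by nlinarith)
  have d0 : ∀ {u v : ℂ → C2}, DifferentiableAt ℂ u ζ → DifferentiableAt ℂ v ζ →
      DifferentiableAt ℂ (fun ζ => dot (u ζ) (v ζ)) ζ := fun hu hv => by
    simp only [dot]
    fun_prop
  have dD : DifferentiableAt ℂ (fun ζ => pD (P ζ) s t) ζ := (hd t).1.sub (hd s).1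
  have dn : ∀ s, DifferentiableAt ℂ (fun ζ => pn (P ζ) s) ζ := fun s =>
    ((hd s).2.fst.const_mul _).prodMk ((hd s).2.snd.const_mul _)
  have dz : DifferentiableAt ℂ (fun ζ => μ ζ * pc (P ζ) s t) ζ :=
    hμ.mul ((d0 dD dD).cpow_const s2)
  have k0 : DifferentiableAt ℂ (fun ζ => K0 (μ ζ * pc (P ζ) s t)) ζ :=
    DifferentiableAt.comp (g := K0) ζ (hA1.1 _ s1).1.differentiableAt dz
  have k1 : DifferentiableAt ℂ (fun ζ => L1 (μ ζ * pc (P ζ) s t)) ζ :=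
    DifferentiableAt.comp (g := L1) ζ (hA1.1 _ s1).2.differentiableAt dz
  have hπ : (π : ℂ) ≠ 0 := ofReal_ne_zero.2 Real.pi_ne_zero
  have n0 := slitPlane_ne_zero s2
  exact ⟨k0.div_const _,
    (k1.mul (d0 (dn t) dD)).div ((d0 dD dD).const_mul _) (by simp [hπ, n0]),
    (k0.mul (d0 (dn t) dD)).neg.div_const _,
    ((k0.mul (d0 (dn s) (dn t))).neg.div_const _).add
      (((k1.mul (d0 (dn s) dD)).mul (d0 (dn t) dD)).div ((d0 dD dD).const_mul _)
        (by simp [hπ, n0]))⟩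

end KMB

theorem st_km (hA1 : St_A1) : St_KM := by
  refine ⟨fun P hP n => ?_, fun j B γ ϖ μ P ζ n v hγ hP hS hv hμ hd => ?_⟩
  · have h := fun a b : Fin (n + 2) => KMB.meas hA1 hP (α := ℂ × (Fin (n + 2) → ℝ))
      measurable_fst ((measurable_pi_apply a).comp measurable_snd)
      ((measurable_pi_apply b).comp measurable_snd)
    exact (Finset.measurable_prod _ fun i _ => (h _ _).2.1).mul
      (((h _ _).1.mul (h _ _).2.2.2).sub (((h _ _).2.1.const_mul 2).mul (h _ _).2.2.1))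
  · obtain ⟨v1, v2, v3⟩ := KBB.gv hv
    obtain ⟨a1, a2, -⟩ := KMB.diff hA1 hγ hP hS hμ hd v2
    obtain ⟨-, -, a3, a4⟩ := KMB.diff hA1 hγ hP hS hμ hd v3
    exact (DifferentiableAt.fun_finsetProd fun i _ =>
      (KMB.diff hA1 hγ hP hS hμ hd (v1 i)).2.1).mul ((a1.mul a4).sub ((a2.const_mul 2).mul a3))

end Pool.Agent.Lib.IS2
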