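import Pool.Agent.Lib.IS2.Blue

/-! Row KR: pointwise bounds of the kernels for complex `μ`. -/

open scoped ContDiff ComplexConjugate Topology Real
open Complex MeasureTheory Set Filter

noncomputable section

namespace Pool.Agent.Lib.IS2

namespace KR

lemma rdot_le (u v : ℂ) : |rdot u v| ≤ ‖u‖ * ‖v‖ :=
  (abs_re_le_norm _).trans_eq (by rw [norm_mul, norm_conj])

lemma nd (z : ℂ) : ‖z / (2 * π)‖ ≤ ‖z‖ := by
  have : ‖(2 * π : ℂ)‖ = 2 * π := by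
    rw [norm_mul, norm_real, Real.norm_of_nonneg Real.pi_pos.le]; simp
  rw [norm_div, this]
  exact div_le_self (norm_nonneg _) (by linarith [Real.pi_gt_three])

lemma nr_norm {j : ℝ} {γ : ℝ → ℂ} (h : Nc j γ) (s : ℝ) : ‖nr γ s‖ = 1 := by
  rw [nr, norm_mul, norm_I, h.unit, one_mul]

lemma qq_eq {γ : ℝ → ℂ} {s t : ℝ} (e : γ s ≠ γ t) :
    rdot (nr γ t) (γ t - γ s) = -(qq γ s t * c0 γ s t ^ 2) := by
  have : ‖γ t - γ s‖ ≠ 0 := norm_ne_zero_iff.2 (sub_ne_zero.2 e.symm)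
  rw [qq, if_neg e, c0, norm_sub_rev (γ s), div_mul_cancel₀ _ (pow_ne_zero 2 this)]
  simp [rdot]

/-- the geometric bounds in terms of the chord -/
lemma geo (hQ : St_QS) (j : ℝ) : ∃ G, 1 ≤ G ∧ ∀ γ, Nc j γ → ∀ s t, γ s ≠ γ t →
    c0 γ s t ≤ 4 ∧ |qq γ s t| ≤ G ∧ |q1 γ s t| ≤ G ∧ |q2 γ s t| ≤ G ∧ |ee γ s t| ≤ c0 γ s t ∧
    |e1v γ s t| ≤ G ∧ |rdot (nr γ s) (γ t - γ s)| ≤ G * c0 γ s t ^ 2 ∧
    |rdot (nr γ t) (γ t - γ s)| ≤ G * c0 γ s t ^ 2 ∧ |rdot (nr γ s) (nr γ t)| ≤ 1 ∧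
    |1 - rdot (nr γ s) (nr γ t)| ≤ G * c0 γ s t ^ 2 ∧
    |rdot (deriv γ s - deriv γ t) (γ s - γ t)| ≤ G * c0 γ s t ^ 4 := by
  obtain ⟨Q, hQ⟩ := hQ.2 j
  refine ⟨1 + 4 * |j| + |Q| + (j ^ 2 + 4 * |Q|) * j ^ 2 + |Q| * j ^ 4, by
    have : 0 ≤ 4 * |j| + |Q| + (j ^ 2 + 4 * |Q|) * j ^ 2 + |Q| * j ^ 4 := by positivity
    linarith, fun γ h s t e => ?_⟩
  set G := 1 + 4 * |j| + |Q| + (j ^ 2 + 4 * |Q|) * j ^ 2 + |Q| * j ^ 4 with hG
  have p1 : 0 ≤ (j ^ 2 + 4 * |Q|) * j ^ 2 := by positivity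
  have p2 : 0 ≤ |Q| * j ^ 4 := by positivity
  have p3 := abs_nonneg j
  have p4 := abs_nonneg Q
  have QG : Q ≤ G := by linarith [le_abs_self Q]
  have c4 : c0 γ s t ≤ 4 := by linarith [h.c0_le s t, dc_le_pi s t, Real.pi_le_four]
  have cn : 0 ≤ c0 γ s t := norm_nonneg _
  have cc : ‖γ t - γ s‖ = c0 γ s t := norm_sub_rev _ _
  have cs : c0 γ t s = c0 γ s t := cc
  obtain ⟨k, hk⟩ := exists_dc s t
  have g0 : γ (t + k * (2 * π)) = γ t := h.per.int_mul k t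
  have g1 : deriv γ (t + k * (2 * π)) = deriv γ t := (per_deriv' h.per).int_mul k t
  obtain ⟨-, -, -, -, -, -, -, a8, a9⟩ := hQ γ h s (t + k * (2 * π))
  rw [abs_sub_comm (t + k * (2 * π)) s, hk] at a8 a9
  rw [← sq_abs (t + k * (2 * π) - s), abs_sub_comm (t + k * (2 * π)) s, hk] at a8
  simp only [nr, g0, g1] at a8 a9
  have d0 := dc_nonneg s t
  have d1 : dc s t ≤ j * c0 γ s t := h.arc s t
  have d4 : dc s t ≤ 4 := by linarith [dc_le_pi s t, Real.pi_le_four]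
  have d2 : dc s t ^ 2 ≤ j ^ 2 * c0 γ s t ^ 2 := by rw [← mul_pow]; gcongr
  have d3 : dc s t ^ 4 ≤ j ^ 4 * c0 γ s t ^ 4 := by rw [← mul_pow]; gcongr
  have q := hQ γ h s t
  have q' := hQ γ h t s
  refine ⟨c4, q.1.trans QG, q.2.1.trans QG, q.2.2.1.trans QG, ?_, ?_, ?_, ?_, ?_, ?_, ?_⟩
  · rw [ee, abs_neg]
    exact (rdot_le _ _).trans_eq (by rw [h.unit, one_mul, cc])
  · have := rdot_le (deriv (deriv γ) s) (γ t - γ s)
    rw [cc] at this
    have b := mul_le_mul ((h.b2 s).trans (le_abs_self j)) c4 cn p3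
    refine (abs_sub _ _).trans ?_
    rw [abs_one]; linarith
  · have := qq_eq e.symm
    have e2 : rdot (nr γ s) (γ t - γ s) = -rdot (nr γ s) (γ s - γ t) := by
      simp only [rdot, map_sub, mul_sub, sub_re]; ring
    rw [e2, this, neg_neg, abs_mul, cs, abs_pow, abs_of_nonneg cn]
    exact mul_le_mul_of_nonneg_right (q'.1.trans QG) (by positivity)
  · rw [qq_eq e, abs_neg, abs_mul, abs_pow, abs_of_nonneg cn]
    exact mul_le_mul_of_nonneg_right (q.1.trans QG) (by positivity)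
  · exact (rdot_le _ _).trans_eq (by rw [nr_norm h, nr_norm h, one_mul])
  · have kk : kp γ (t + k * (2 * π)) ^ 2 ≤ j ^ 2 := by
      rw [← sq_abs]; gcongr; exact h.bk _
    have b1 : Q * dc s t ^ 3 ≤ 4 * |Q| * dc s t ^ 2 := by
      have : Q * dc s t ^ 3 ≤ |Q| * dc s t ^ 3 := by gcongr; exact le_abs_self Q
      nlinarith [mul_nonneg p4 (sq_nonneg (dc s t))]
    have b2 : kp γ (t + k * (2 * π)) ^ 2 * dc s t ^ 2 ≤ j ^ 2 * dc s t ^ 2 := by gcongr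
    have b3 : (j ^ 2 + 4 * |Q|) * dc s t ^ 2 ≤ (j ^ 2 + 4 * |Q|) * (j ^ 2 * c0 γ s t ^ 2) := by gcongr
    have b4 : (j ^ 2 + 4 * |Q|) * j ^ 2 * c0 γ s t ^ 2 ≤ G * c0 γ s t ^ 2 := by gcongr; linarith
    have b5 : 0 ≤ kp γ (t + k * (2 * π)) ^ 2 * dc s t ^ 2 := by positivity
    simp only [nr]
    rw [abs_le] at a8 ⊢
    constructor <;> nlinarith [a8.1, a8.2]
  · have b1 : Q * dc s t ^ 4 ≤ |Q| * (j ^ 4 * c0 γ s t ^ 4) :=
      mul_le_mul (le_abs_self Q) d3 (by positivity) p4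
    have b4 : |Q| * j ^ 4 * c0 γ s t ^ 4 ≤ G * c0 γ s t ^ 4 := by gcongr; linarith
    linarith

section
variable {x y w K L B G : ℝ} (hx : 1 ≤ x) (hy : 0 < y) (y2 : y ≤ 2) (hG : 1 ≤ G) (hB : 0 ≤ B)
  (k1 : K * (x * y) ≤ B) (l1 : L ≤ B * (1 + x * y))

include hx hy hG hB k1 l1 in
lemma r4 : x ^ 4 * K * y ^ 2 * G + L * G ≤ 2 * G * B * (x ^ 2 * (1 + x * y)) := by
  have xy : 0 ≤ x * y := by positivity
  have x2 : 1 ≤ x ^ 2 := one_le_pow₀ hx
  have a : K * (x * y) * (x ^ 3 * y) ≤ B * (x ^ 3 * y) := by gcongr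
  have b : B * (1 + x * y) * 1 ≤ B * (1 + x * y) * x ^ 2 := by gcongr
  have c : 0 ≤ B * x ^ 2 := by positivity
  have : x ^ 4 * K * y ^ 2 + L ≤ 2 * B * (x ^ 2 * (1 + x * y)) := by nlinarith
  nlinarith

include hx hy y2 hG hB k1 l1 in
lemma r5 : x ^ 4 * L * (G * (G * y ^ 4) ^ 2 / y ^ 4) + x ^ 4 * K * (G * G + 2 * 4 * G) + L * G ≤
    18 * G ^ 3 * B * (x ^ 3 * y⁻¹ * (1 + x ^ 2 * y ^ 6)) := by
  have x3 : x ≤ x ^ 3 := le_self_pow₀ hx (by norm_num)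
  have g2 : G ≤ G ^ 3 := le_self_pow₀ hG (by norm_num)
  have g3 : G ^ 2 ≤ G ^ 3 := pow_le_pow_right₀ hG (by norm_num)
  have y4 : y ^ 2 ≤ 4 := by nlinarith
  have u : 0 ≤ x ^ 2 * y ^ 6 := by positivity
  have t1 : (1 + x * y) * (x * y ^ 5) ≤ 3 * (1 + x ^ 2 * y ^ 6) := by
    have : x * y ^ 3 * y ^ 2 ≤ x * y ^ 3 * 4 := by gcongr
    nlinarith [sq_nonneg (x * y ^ 3 - 1)]
  have t3 : (1 + x * y) * y ≤ 6 * x ^ 3 * (1 + x ^ 2 * y ^ 6) := by
    have : x * y ^ 2 ≤ x * 4 := by gcongr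
    have : 0 ≤ x ^ 3 * (x ^ 2 * y ^ 6) := by positivity
    nlinarith
  have s1 : L * (x * y ^ 5) ≤ B * (3 * (1 + x ^ 2 * y ^ 6)) :=
    (mul_le_mul_of_nonneg_right l1 (by positivity)).trans (by rw [mul_assoc]; gcongr)
  have s2 : K * (x * y) * (G * G + 2 * 4 * G) ≤ B * (9 * G ^ 3 * (1 + x ^ 2 * y ^ 6)) := by
    have : 0 ≤ G ^ 3 * (x ^ 2 * y ^ 6) := by positivity
    exact mul_le_mul k1 (by nlinarith) (by positivity) hB
  have s3 : L * y * G ≤ B * (6 * x ^ 3 * (1 + x ^ 2 * y ^ 6)) * G ^ 3 :=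
    mul_le_mul ((mul_le_mul_of_nonneg_right l1 hy.le).trans (by rw [mul_assoc]; gcongr)) g2
      (by positivity) (by positivity)
  have s1' := mul_le_mul_of_nonneg_right s1 (by positivity : 0 ≤ x ^ 3 * G ^ 3)
  have s2' := mul_le_mul_of_nonneg_right s2 (by positivity : 0 ≤ x ^ 3)
  refine le_of_mul_le_mul_right ?_ hy
  have e : 18 * G ^ 3 * B * (x ^ 3 * y⁻¹ * (1 + x ^ 2 * y ^ 6)) * y =
      18 * G ^ 3 * B * (x ^ 3 * (1 + x ^ 2 * y ^ 6)) := by field_simp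
  have e2 : G * (G * y ^ 4) ^ 2 / y ^ 4 = G ^ 3 * y ^ 4 := by field_simp
  rw [e, e2]
  nlinarith

include hx hy y2 hG hB l1 in
lemma r6 (hw : 1 / 2 ≤ w) (k2 : K ≤ B * w) :
    x ^ 4 * L * (G * (G * y ^ 4) ^ 2 / y ^ 4) + x ^ 4 * K * (G * G + 2 * 4 * G) + L * G ≤
    111 * G ^ 3 * B * (x ^ 6 * w) := by
  have g2 : G ≤ G ^ 3 := le_self_pow₀ hG (by norm_num)
  have g3 : G ^ 2 ≤ G ^ 3 := pow_le_pow_right₀ hG (by norm_num)
  have y4 : y ^ 4 ≤ 2 ^ 4 := by gcongr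
  have x1 : x ≤ x ^ 2 := le_self_pow₀ hx (by norm_num)
  have x2 : x ^ 2 ≤ x ^ 6 := pow_le_pow_right₀ hx (by norm_num)
  have x4 : x ^ 4 ≤ x ^ 6 := pow_le_pow_right₀ hx (by norm_num)
  have l2 : L ≤ B * (6 * x ^ 2 * w) := l1.trans (by
    have : x * y ≤ x * 2 := by gcongr
    have : x ^ 2 * (1 / 2) ≤ x ^ 2 * w := by gcongr
    gcongr; linarith)
  have w0 : 0 ≤ w := by linarith
  have s1 : L * y ^ 4 ≤ B * (6 * x ^ 2 * w) * 2 ^ 4 := mul_le_mul l2 y4 (by positivity) (by positivity)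
  have s1' := mul_le_mul_of_nonneg_right s1 (by positivity : 0 ≤ x ^ 4 * G ^ 3)
  have s2 : K * (x ^ 4 * (G * G + 2 * 4 * G)) ≤ B * w * (x ^ 6 * (9 * G ^ 3)) :=
    mul_le_mul k2 (mul_le_mul x4 (by nlinarith) (by positivity) (by positivity)) (by positivity)
      (by positivity)
  have s3 : L * G ≤ B * (6 * x ^ 6 * w) * G ^ 3 :=
    mul_le_mul (l2.trans (by gcongr)) g2 (by positivity) (by positivity)
  have e2 : G * (G * y ^ 4) ^ 2 / y ^ 4 = G ^ 3 * y ^ 4 := by field_simp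
  rw [e2]
  nlinarith

include hx hy y2 hG hB k1 l1 in
lemma r9 : (x ^ 4 * K + 2 * L / y ^ 4) * (G * y ^ 4 * (G * y ^ 4)) + L * 1 ≤
    34 * G ^ 2 * B * ((1 + x * y) * (1 + x ^ 2 * y ^ 6)) := by
  have g2 : 1 ≤ G ^ 2 := one_le_pow₀ hG
  have y4 : y ^ 4 ≤ 2 ^ 4 := by gcongr
  have u : 0 ≤ x ^ 2 * y ^ 6 := by positivity
  have v : 0 ≤ x * y := by positivity
  have uv := mul_nonneg u v
  set M := (1 + x * y) * (1 + x ^ 2 * y ^ 6) with hM
  have m1 : x * y * (x ^ 2 * y ^ 6) ≤ M := by nlinarith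
  have m2 : 1 + x * y ≤ M := by nlinarith
  have l2 : L ≤ B * M := l1.trans (by gcongr)
  have s1 : K * (x * y) * (x * y * (x ^ 2 * y ^ 6)) ≤ B * M := mul_le_mul k1 m1 (by positivity) hB
  have s2 : L * y ^ 4 ≤ B * M * 2 ^ 4 := mul_le_mul l2 y4 (by positivity) (by positivity)
  have e : (x ^ 4 * K + 2 * L / y ^ 4) * (G * y ^ 4 * (G * y ^ 4)) =
      G ^ 2 * (K * (x * y) * (x * y * (x ^ 2 * y ^ 6)) + 2 * (L * y ^ 4)) := by field_simp
  have s3 : G ^ 2 * (K * (x * y) * (x * y * (x ^ 2 * y ^ 6)) + 2 * (L * y ^ 4)) ≤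
      G ^ 2 * (33 * (B * M)) := by gcongr; linarith
  have s4 : 1 * (B * M) ≤ G ^ 2 * (B * M) := by gcongr
  rw [e]
  nlinarith

end

end KR

open KR in
theorem st_kr (hA : St_A2) (hQ : St_QS) : St_KR := fun j => by
  obtain ⟨A, hA⟩ := hA
  obtain ⟨G, hG, geo⟩ := geo hQ j
  refine ⟨200 * G ^ 3 * A, fun γ h μ s t h1 h0 e => ?_⟩
  obtain ⟨c4, g0, g1, g2, g3, g4, g5, g6, g7, g8, g9⟩ := geo γ h s t e
  intro a c E
  have cp : 0 < c := norm_pos_iff.2 (sub_ne_zero.2 e)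
  have nz : ‖μ * (c : ℂ)‖ = a * c := by rw [norm_mul, norm_real, Real.norm_of_nonneg cp.le]
  have re : (μ * (c : ℂ)).re = μ.re * c := by simp
  have sec : Sec (μ * c) := ⟨norm_pos_iff.1 (by rw [nz]; positivity), by
    rw [re]; linarith [norm_nonneg (μ * (c : ℂ)), mul_pos h0 cp]⟩
  obtain ⟨a1, a2, a3, -⟩ := hA _ sec
  have ne : ‖exp (-(μ * c))‖ = E := by rw [norm_exp, neg_re, re]
  rw [nz, ne] at a1 a2 a3
  have E0 : 0 < E := Real.exp_pos _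
  obtain ⟨x, hx, ax⟩ : ∃ x, 1 ≤ x ∧ a = x ^ 2 :=
    ⟨√a, Real.one_le_sqrt.2 h1, (Real.sq_sqrt (norm_nonneg _)).symm⟩
  obtain ⟨y, hy, cy⟩ : ∃ y, 0 < y ∧ c = y ^ 2 := ⟨√c, Real.sqrt_pos.2 cp, (Real.sq_sqrt cp.le).symm⟩
  have y2 : y ≤ 2 := by
    have : y ^ 2 ≤ 4 := cy ▸ c4
    nlinarith
  have r : √(a * c) = x * y := by rw [ax, cy, ← mul_pow, Real.sqrt_sq (by positivity)]
  have rx : √a = x := by rw [ax, Real.sqrt_sq (by positivity)]
  have ry : √c = y := by rw [cy, Real.sqrt_sq hy.le]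
  have xy : 0 < x * y := by positivity
  have A0 : 0 ≤ A := by
    by_contra hn
    have := mul_neg_of_neg_of_pos (mul_neg_of_neg_of_pos (not_le.1 hn) (inv_pos.2 xy)) E0
    rw [r] at a2
    linarith [norm_nonneg (K0 (μ * c))]
  set w := c ^ (-(1 / 4) : ℝ) with hw
  have w2 : 1 / 2 ≤ w := by
    have : (16 : ℝ) ^ (-(1 / 4) : ℝ) = 1 / 2 := by
      rw [show (16 : ℝ) = 2 ^ (4 : ℝ) by norm_num, ← Real.rpow_mul (by norm_num)]; norm_num
    rw [← this]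
    exact Real.rpow_le_rpow_of_nonpos cp (by linarith [show c ≤ 4 from c4]) (by norm_num)
  set K := ‖K0 (μ * c)‖ with hK
  set L := ‖L1 (μ * c)‖ with hL
  have K0' : 0 ≤ K := norm_nonneg _
  have L0' : 0 ≤ L := norm_nonneg _
  have hB : 0 ≤ A * E := by positivity
  have k1 : K * (x * y) ≤ A * E := by
    rw [r] at a2
    have := mul_le_mul_of_nonneg_right a2 xy.le
    rwa [show A * (x * y)⁻¹ * E * (x * y) = A * E by field_simp] at this
  have k2 : K ≤ A * E * w := a1.trans (by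
    have : (a * c) ^ (-(1 / 4) : ℝ) ≤ w :=
      Real.rpow_le_rpow_of_nonpos cp (le_mul_of_one_le_left cp.le h1) (by norm_num)
    rw [mul_right_comm]; gcongr)
  have l1 : L ≤ A * E * (1 + x * y) := by rw [r] at a3; linarith
  have G3 : ∀ n ≤ 3, G ^ n ≤ G ^ 3 := fun n hn => pow_le_pow_right₀ hG hn
  have fin : ∀ {u M : ℝ} (m : ℝ) (n : ℕ), n ≤ 3 → m ≤ 200 → 0 ≤ M → u ≤ m * G ^ n * (A * E) * M →
      u ≤ 200 * G ^ 3 * A * M * E := fun {u M} m n hn hm hM hu => hu.trans (by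
    have : m * G ^ n ≤ 200 * G ^ 3 := mul_le_mul hm (G3 n hn) (by positivity) (by norm_num)
    have := mul_le_mul_of_nonneg_right this (mul_nonneg hB hM)
    linarith)
  have m2 : ‖μ ^ 2‖ = x ^ 4 := by rw [norm_pow, show ‖μ‖ = x ^ 2 from ax]; ring
  have hS : ‖fS μ γ s t‖ ≤ K := nd _
  have c2 : c0 γ s t ^ 2 = y ^ 4 := by rw [show c0 γ s t = y ^ 2 from cy]; ring
  have hKb : ‖fKb μ γ s t‖ ≤ x ^ 4 * L * (G * (G * y ^ 4) ^ 2 / y ^ 4) +
      x ^ 4 * K * (G * G + 2 * 4 * G) + L * G := by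
    refine (nd _).trans ((norm_add_le _ _).trans (add_le_add ((norm_sub_le _ _).trans
      (add_le_add ?_ ?_)) ?_))
    · rw [norm_neg, norm_mul, norm_mul, m2, norm_real, Real.norm_eq_abs, abs_div, abs_mul, abs_pow,
        c2, abs_of_pos (by positivity : 0 < y ^ 4), ← c2]
      gcongr
    · rw [norm_mul, norm_mul, m2, norm_real, Real.norm_eq_abs]
      gcongr
      refine (abs_add_le _ _).trans ?_
      rw [abs_mul, abs_mul, abs_mul, abs_two]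
      gcongr
      exact g3.trans c4
    · rw [norm_mul, norm_real, Real.norm_eq_abs]
      gcongr
  rw [r, rx, ry]
  refine ⟨fin 1 0 (by norm_num) (by norm_num) (by positivity) ?_,
    fin 1 0 (by norm_num) (by norm_num) (by positivity) ?_,
    fin 1 1 (by norm_num) (by norm_num) (by positivity) ?_,
    fin 2 1 (by norm_num) (by norm_num) (by positivity) ?_,
    fin 18 3 (by norm_num) (by norm_num) (by positivity) ?_,
    fin 111 3 (by norm_num) (by norm_num) (by positivity) ?_,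
    fin 1 1 (by norm_num) (by norm_num) (by positivity) ?_,
    fin 1 1 (by norm_num) (by norm_num) (by positivity) ?_,
    fin 34 2 (by norm_num) (by norm_num) (by positivity) ?_⟩
  · rw [r] at a2
    linarith
  · linarith
  · refine (nd _).trans ?_
    rw [norm_mul, norm_real, Real.norm_eq_abs]
    have := mul_le_mul l1 g0 (abs_nonneg _) (by positivity)
    linarith
  · refine (nd _).trans ((norm_add_le _ _).trans ?_)
    rw [pow_one, ax]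
    refine le_trans (add_le_add ?_ ?_) (r4 hx hy hG hB k1 l1)
    · rw [norm_neg, norm_mul, norm_mul, norm_mul, m2, norm_real, norm_real, Real.norm_eq_abs,
        Real.norm_eq_abs, ← cy]
      gcongr
    · rw [norm_mul, norm_real, Real.norm_eq_abs]
      gcongr
  · refine hKb.trans ((r5 hx hy y2 hG hB k1 l1).trans_eq ?_)
    rw [ax, cy]; ring
  · refine hKb.trans ((r6 hx hy y2 hG hB l1 w2 k2).trans_eq ?_)
    rw [ax]; ring
  · rw [fSb, norm_mul, norm_mul, m2, norm_real, Real.norm_eq_abs, ax, cy]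
    rw [c2] at g8
    have b1 : x ^ 4 * |1 - rdot (nr γ s) (nr γ t)| * ‖fS μ γ s t‖ ≤ x ^ 4 * (G * y ^ 4) * K := by gcongr
    have b2 := mul_le_mul_of_nonneg_right k1 (by positivity : 0 ≤ G * (x ^ 3 * y ^ 3))
    nlinarith
  · refine (nd _).trans ?_
    rw [norm_neg, norm_mul, norm_real, Real.norm_eq_abs, abs_div, abs_of_pos (pow_pos cp 2)]
    have b1 : |rdot (deriv γ s - deriv γ t) (γ s - γ t)| / c ^ 2 ≤ G * c ^ 2 := by
      rw [div_le_iff₀ (pow_pos cp 2)]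
      exact g9.trans_eq (by ring)
    have := mul_le_mul l1 b1 (by positivity) (by positivity)
    linarith
  · have n2 : ‖((c0 γ s t : ℝ) : ℂ) ^ 2‖ = y ^ 4 := by
      rw [norm_pow, norm_real, Real.norm_eq_abs, sq_abs, c2]
    rw [fNn, ← div_div, norm_div, n2, div_le_iff₀ (by positivity)]
    refine (nd _).trans ((norm_add_le _ _).trans ?_)
    refine le_trans (add_le_add ?_ ?_) ((r9 hx hy y2 hG hB k1 l1).trans_eq ?_)
    · rw [norm_neg, norm_mul, norm_real, Real.norm_eq_abs, abs_mul, ← c2]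
      gcongr
      refine (norm_add_le _ _).trans ?_
      rw [norm_mul, m2, norm_div, n2, norm_mul, c2, Complex.norm_two]
    · rw [norm_mul, norm_real, Real.norm_eq_abs]
      gcongr
    · rw [ax, cy]; field_simp

end Pool.Agent.Lib.IS2
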