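import Pool.Agent.Lib.IS2.B_GH

/-! The regularised trace is bounded and holomorphic on lines near a nice curve. -/

open scoped Topology Real
open Complex MeasureTheory Set Filter

noncomputable section

namespace Pool.Agent.Lib.IS2

namespace LHT

theorem par {E : Type} [AddCommGroup E] [Module ℂ E] {S : Submodule ℂ E} {p : E → ℝ}
    {f : ℂ → E → ℂ} {x0 : E} {r M ρ : ℝ} {D : Set ℂ} (hp : Sn S p) (hD : IsOpen D)
    (hf : ∀ μ ∈ D, LH S p (f μ) x0 r M)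
    (hd : ∀ x ∈ S, p x < r → DifferentiableOn ℂ (fun μ => f μ (x0 + x)) D) {y : E} (hy : y ∈ S)
    (hρ : 0 < ρ) (x : E) (hx : x ∈ S) (hxr : p x < r - ρ) :
    DifferentiableOn ℂ (fun μ => D1 (f μ) (x0 + x) y) D := by
  have c : Continuous fun t : ℂ => ‖t‖ * p y := by fun_prop
  have ev : ∀ᶠ t : ℂ in 𝓝[≠] 0, p (t • y) < ρ := by
    have : ∀ᶠ t : ℂ in 𝓝 0, ‖t‖ * p y < ρ :=
      c.continuousAt.eventually_lt continuousAt_const (by simpa using hρ)
    filter_upwards [nhdsWithin_le_nhds this] with t ht using (hp.smul t y hy).trans_lt ht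
  refine TendstoLocallyUniformlyOn.differentiableOn (φ := 𝓝[≠] (0 : ℂ))
    (F := fun t μ => (f μ (x0 + (x + t • y)) - f μ (x0 + x)) / t)
    (TendstoUniformlyOn.tendstoLocallyUniformlyOn ?_) ?_ hD
  · rw [Metric.tendstoUniformlyOn_iff]
    intro e he
    have c2 : Continuous fun t : ℂ => 4 * M * ‖t‖ * (p y / ρ) ^ 2 := by fun_prop
    have ev2 : ∀ᶠ t : ℂ in 𝓝 0, 4 * M * ‖t‖ * (p y / ρ) ^ 2 < e :=
      c2.continuousAt.eventually_lt continuousAt_const (by simpa using he)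
    filter_upwards [ev, nhdsWithin_le_nhds ev2, self_mem_nhdsWithin] with t h1 h2 h3 μ hμ
    have t0 : t ≠ 0 := h3
    have b := ((GH.bds hp (hf μ hμ) hx (S.smul_mem t hy) hρ hxr).2 h1).2.1
    have M0 : 0 ≤ M := (norm_nonneg _).trans ((hf μ hμ).bd _ hx (by linarith))
    rw [GH.D1_smul, add_assoc] at b
    rw [dist_comm, dist_eq_norm, show (f μ (x0 + (x + t • y)) - f μ (x0 + x)) / t -
      D1 (f μ) (x0 + x) y = (f μ (x0 + (x + t • y)) - f μ (x0 + x) -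
        t * D1 (f μ) (x0 + x) y) / t by field_simp, norm_div]
    refine lt_of_le_of_lt ?_ h2
    have tp : 0 < ‖t‖ := norm_pos_iff.2 t0
    rw [div_le_iff₀ tp]
    refine b.trans ?_
    have q : p (t • y) / ρ ≤ ‖t‖ * (p y / ρ) := by
      rw [← mul_div_assoc]; exact div_le_div_of_nonneg_right (hp.smul t y hy) hρ.le
    have q0 : 0 ≤ p (t • y) / ρ := div_nonneg (hp.nn _ (S.smul_mem t hy)) hρ.le
    calc 4 * M * (p (t • y) / ρ) ^ 2 ≤ 4 * M * (‖t‖ * (p y / ρ)) ^ 2 := by gcongr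
      _ = _ := by ring
  · filter_upwards [ev] with t ht
    have := hp.add x hx _ (S.smul_mem t hy)
    exact ((hd _ (S.add_mem hx (S.smul_mem t hy)) (by linarith)).sub
      (hd x hx (by linarith))).div_const t

theorem opn (q : ℕ) (h : ℝ) : IsOpen (DD q h) :=
  (isOpen_lt continuous_const continuous_re).inter (isOpen_lt continuous_norm continuous_const)

variable {q : ℕ} {h : ℝ}

theorem cont (hm : ∀ y, |y| ≤ YY q h → mu q h y ∈ DD q h) {f : ℂ → ℂ}
    (hf : ContinuousOn f (DD q h)) : ContinuousOn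
      (fun y => 2 * mu q h y * Gs q h (mu q h y) * f (mu q h y)) (Icc (-YY q h) (YY q h)) := by
  have c : Continuous (mu q h) := by unfold mu; fun_prop
  have c2 : Continuous (Gs q h) := by unfold Gs ze; fun_prop
  exact ((continuous_const.mul c).mul (c2.comp c)).continuousOn.mul
    (hf.comp c.continuousOn fun y hy => hm y (abs_le.2 hy))

theorem ii (hY : 0 ≤ YY q h) (hm : ∀ y, |y| ≤ YY q h → mu q h y ∈ DD q h) {f : ℂ → ℂ}
    (hf : ContinuousOn f (DD q h)) : IntervalIntegrable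
      (fun y => 2 * mu q h y * Gs q h (mu q h y) * f (mu q h y)) volume (-YY q h) (YY q h) :=
  (cont hm hf).intervalIntegrable_of_Icc (by linarith)

theorem ff_tail (hY : 0 ≤ YY q h) (hm : ∀ y, |y| ≤ YY q h → mu q h y ∈ DD q h) {f : ℂ → ℂ}
    {g : ℕ → ℂ → ℂ} (c : ℕ → ℂ) (hf : ContinuousOn f (DD q h))
    (hg : ∀ n, ContinuousOn (g n) (DD q h)) (n0 : ℕ) :
    FF q h f - ∑ n ∈ Finset.range n0, c n * FF q h (g n) =
      FF q h fun μ => f μ - ∑ n ∈ Finset.range n0, c n * g n μ := by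
  unfold FF
  simp only [← intervalIntegral.integral_const_mul]
  rw [← intervalIntegral.integral_finsetSum fun n _ => (ii hY hm (hg n)).const_mul _,
    ← intervalIntegral.integral_sub (ii hY hm hf)]
  · congr 1
    funext y
    rw [mul_sub, Finset.mul_sum]
    congr 1
    exact Finset.sum_congr rfl fun n _ => by ring
  · have := IntervalIntegrable.sum (Finset.range n0) fun n _ => (ii hY hm (hg n)).const_mul (c n)
    rwa [Finset.sum_fn] at this

theorem ff_der (hHI : St_HI) (hY : 0 ≤ YY q h) {C : ℝ}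
    (hm : ∀ y, |y| ≤ YY q h → mu q h y ∈ DD q h)
    (hG : ∀ y, |y| ≤ YY q h → ‖Gs q h (mu q h y)‖ ≤ C) {G : ℂ → ℂ → ℂ} {U : Set ℂ} {F : ℝ}
    (hU : IsOpen U) (h1 : ∀ ζ ∈ U, ContinuousOn (G ζ) (DD q h))
    (h2 : ∀ μ ∈ DD q h, DifferentiableOn ℂ (fun ζ => G ζ μ) U)
    (h3 : ∀ ζ ∈ U, ∀ μ ∈ DD q h, ‖G ζ μ‖ ≤ F) {ζ : ℂ} (hζ : ζ ∈ U) :
    HasDerivAt (fun ζ => FF q h (G ζ)) (FF q h fun μ => deriv (fun ζ => G ζ μ) ζ) ζ := by
  have le : -YY q h ≤ YY q h := by linarith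
  unfold FF
  simp only [intervalIntegral.integral_of_le le, ← deriv_const_mul_field]
  refine hHI ℝ _ (fun ζ y => 2 * mu q h y * Gs q h (mu q h y) * G ζ (mu q h y)) U
    (fun _ => 2 * om q h * C * F) hU (integrable_const _) (fun ζ hζ => ?_) ?_ ζ hζ
  · exact ((cont hm (h1 ζ hζ)).mono Ioc_subset_Icc_self).aestronglyMeasurable measurableSet_Ioc
  · filter_upwards [ae_restrict_mem measurableSet_Ioc] with y hy
    have a : |y| ≤ YY q h := abs_le.2 (Ioc_subset_Icc_self hy)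
    refine ⟨(h2 _ (hm y a)).const_mul _, fun ζ hζ => ?_⟩
    have b1 := (hm y a).2.le
    have b2 := hG y a
    have b3 := h3 ζ hζ _ (hm y a)
    have b4 := (norm_nonneg _).trans b1
    have b5 := (norm_nonneg _).trans b2
    rw [norm_mul, norm_mul, norm_mul, Complex.norm_two]
    gcongr

theorem adm {j o : ℝ} {γ : ℝ → ℂ} (hγ : Nc j γ) (ho : 80 * j ≤ o) {P : ℝ → C2} (hP : P ∈ SP)
    (hn : nm (P - cp γ) ≤ 2 / o) : Adm j (j + 1) γ (2 / o) P := by
  have hc := cp_mem hγ.smooth hγ.per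
  have hQ := SP.sub_mem hP hc
  have j1 := hγ.one_le
  have e1 : deriv (P - cp γ) = deriv P - deriv (cp γ) :=
    funext fun s => deriv_sub (SP.diff hP s) (SP.diff hc s)
  have k : ∀ s, ‖P s - cp γ s‖ + ‖deriv P s - deriv (cp γ) s‖ +
      ‖deriv (deriv P) s - deriv (deriv (cp γ)) s‖ ≤ 2 / o := fun s => by
    have := le_nm hQ s
    rw [e1, deriv_sub (SP.diff (SP.s1 hP) s) (SP.diff (SP.s1 hc) s)] at this
    exact this.trans hn
  have s1 : 2 / o ≤ (40 * j)⁻¹ := by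
    rw [inv_eq_one_div, div_le_div_iff₀ (by linarith) (by linarith)]; linarith
  have s2 : 2 / o ≤ 1 := by rw [div_le_one (by linarith)]; linarith
  refine ⟨hP, fun s => ?_, fun s => ?_, fun s => ?_⟩
  · linarith [k s, norm_nonneg (deriv P s - deriv (cp γ) s),
      norm_nonneg (deriv (deriv P) s - deriv (deriv (cp γ)) s)]
  · linarith [k s, norm_nonneg (P s - cp γ s),
      norm_nonneg (deriv (deriv P) s - deriv (deriv (cp γ)) s)]
  · have b : ‖deriv (deriv (cp γ)) s‖ ≤ j := by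
      rw [deriv_cp fun s => (hγ.hd s).differentiableAt, deriv_cp fun s => (hγ.hd1 s).differentiableAt,
        norm_cp]
      exact hγ.b2 s
    linarith [k s, norm_nonneg (P s - cp γ s), norm_nonneg (deriv P s - deriv (cp γ) s),
      norm_sub_norm_le (deriv (deriv P) s) (deriv (deriv (cp γ)) s)]

theorem wt1 : Wt fun _ _ => 1 := fun _ => ⟨measurable_const, fun _ => by simp, fun _ _ => rfl⟩

theorem term {C o h : ℝ} {X : ℂ} {n : ℕ} (ho : 0 < o) (hh : 0 < h)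
    (hX : ‖X‖ ≤ C * o * (C / h ^ 3) ^ n * Real.exp (C * (n + 2) * o * (2 / o))) :
    ‖2 * (-2) ^ n * X‖ ≤ 2 * (|C| + 1) * Real.exp (4 * |C|) * o *
      (2 * (|C| + 1) * Real.exp (4 * |C|) / h ^ 3) ^ n := by
  have a0 := abs_nonneg C
  have a1 := le_abs_self C
  have e1 : Real.exp (C * (n + 2) * o * (2 / o)) ≤ Real.exp (4 * |C|) ^ n * Real.exp (4 * |C|) := by
    rw [← Real.exp_nat_mul, ← Real.exp_add, Real.exp_le_exp,
      show C * (n + 2) * o * (2 / o) = 2 * n * C + 4 * C by field_simp; ring]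
    have : (0 : ℝ) ≤ n := n.cast_nonneg
    nlinarith
  have e2 : C * o * (C / h ^ 3) ^ n ≤ (|C| + 1) * o * ((|C| + 1) / h ^ 3) ^ n := by
    refine (le_abs_self _).trans ?_
    rw [abs_mul, abs_mul, abs_pow, abs_div, abs_of_pos ho, abs_of_nonneg (a := h ^ 3)
      (by positivity)]
    gcongr <;> linarith
  rw [norm_mul, norm_mul, norm_pow, norm_neg, Complex.norm_two]
  calc _ ≤ 2 * 2 ^ n * ((|C| + 1) * o * ((|C| + 1) / h ^ 3) ^ n *
        (Real.exp (4 * |C|) ^ n * Real.exp (4 * |C|))) := by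
        gcongr
        exact hX.trans (mul_le_mul e2 e1 (Real.exp_pos _).le (by positivity))
    _ = _ := by simp only [mul_pow, div_pow]; ring

theorem tail {u : ℕ → ℂ} {K a : ℝ} (hK : 0 ≤ K) (ha : 0 ≤ a) (ha2 : a ≤ 1 / 2)
    (hu : ∀ n, ‖u n‖ ≤ K * a ^ n) (n0 : ℕ) :
    ‖∑' n, u n - ∑ n ∈ Finset.range n0, u n‖ ≤ 2 * K * a ^ n0 := by
  have s : Summable u := .of_norm_bounded
    ((summable_geometric_of_lt_one ha (by linarith)).mul_left K) hu
  rw [← s.sum_add_tsum_nat_add n0, add_sub_cancel_left]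
  have := tsum_of_norm_bounded (f := fun n => u (n + n0))
    (hasSum_geometric_two.mul_left (K * a ^ n0)) fun n => (hu _).trans (by
      rw [pow_add, mul_comm (a ^ n), ← mul_assoc]; gcongr)
  exact this.trans_eq (by ring)

end LHT

open LHT in
theorem st_lht (hHOL : St_HOL) (hSH : St_SH) (hHI : St_HI) : St_LHT := by
  intro j q hq
  obtain ⟨C1, h1, hol⟩ := hHOL j (j + 1) q (by omega)
  obtain ⟨Cs, h2, sh⟩ := hSH q hq
  set A := 2 * (|C1| + 1) * Real.exp (4 * |C1|) with hA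
  have A0 : 0 < A := by positivity
  have a2 := abs_nonneg Cs
  refine ⟨2 * A * (|Cs| + 1), max (max h1 h2) (max (max (2 * A) (80 * j)) 1),
    fun h hh γ hγ => ?_⟩
  simp only [max_le_iff] at hh
  obtain ⟨⟨k1, k2⟩, ⟨k3, k4⟩, k5⟩ := hh
  have o1 : h ≤ om q h := le_self_pow₀ k5 (by omega)
  have o0 : 0 < om q h := by linarith
  have t1 : h ≤ h ^ 3 := le_self_pow₀ k5 (by omega)
  have r0 : 0 ≤ A / h ^ 3 := by positivity
  have r1 : A / h ^ 3 ≤ 1 / 2 := by rw [div_le_iff₀ (by positivity)]; linarith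
  have hY : 0 ≤ YY q h := by unfold YY Tt; positivity
  obtain ⟨-, s2, s3, -⟩ := sh h k2
  have hm : ∀ y, |y| ≤ YY q h → mu q h y ∈ DD q h := fun y hy => (s2 y hy).1
  have hG : ∀ y, |y| ≤ YY q h → ‖Gs q h (mu q h y)‖ ≤ Cs := fun y hy => (s2 y hy).2.2.2
  have ad : ∀ P ∈ SP, nm (P - cp γ) ≤ 2 / om q h → Adm j (j + 1) γ (2 / om q h) P :=
    fun P hP hn => adm hγ (k4.trans o1) hP hn
  have tb : ∀ P ∈ SP, nm (P - cp γ) ≤ 2 / om q h → ∀ μ ∈ DD q h, ∀ n,
      ‖2 * (-2) ^ n * Tn (fun _ _ => 1) μ P n‖ ≤ A * om q h * (A / h ^ 3) ^ n :=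
    fun P hP hn μ hμ n => term o0 (by linarith) ((hol h k1 γ _ _ n hγ wt1).1 P μ (ad P hP hn) hμ).2
  have k : ∀ (U : Set ℂ) (μ : ℂ → ℂ) (P : ℂ → ℝ → C2), IsOpen U → DifferentiableOn ℂ μ U →
      (∀ ζ ∈ U, μ ζ ∈ DD q h ∧ P ζ ∈ SP ∧ nm (P ζ - cp γ) ≤ 2 / om q h) →
      (∀ s, DifferentiableOn ℂ (fun ζ => P ζ s) U ∧
        DifferentiableOn ℂ (fun ζ => deriv (P ζ) s) U) →
      DifferentiableOn ℂ (fun ζ => TT (μ ζ) (P ζ)) U := fun U μ P hU hμ hP hd =>
    differentiableOn_tsum_of_summable_norm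
      ((summable_geometric_of_lt_one r0 (by linarith)).mul_left (A * om q h))
      (fun n => ((hol h k1 γ _ _ n hγ wt1).2 U μ P hU hμ (fun ζ hζ => ⟨(hP ζ hζ).1,
        ad _ (hP ζ hζ).2.1 (hP ζ hζ).2.2⟩) hd).const_mul _) hU
      fun n ζ hζ => tb _ (hP ζ hζ).2.1 (hP ζ hζ).2.2 _ (hP ζ hζ).1 n
  have dm : ∀ P ∈ SP, nm (P - cp γ) ≤ 2 / om q h → DifferentiableOn ℂ (fun μ => TT μ P) (DD q h) :=
    fun P hP hn => k _ (fun μ => μ) (fun _ => P) (opn q h) differentiableOn_id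
      (fun _ hζ => ⟨hζ, hP, hn⟩) fun s => ⟨differentiableOn_const _, differentiableOn_const _⟩
  have bm : ∀ P ∈ SP, nm (P - cp γ) ≤ 2 / om q h → ∀ μ ∈ DD q h,
      ‖TT μ P‖ ≤ 2 * A * (|Cs| + 1) * om q h := fun P hP hn μ hμ => by
    have := tail (by positivity) r0 r1 (tb P hP hn μ hμ) 0
    rw [Finset.sum_range_zero, sub_zero, pow_zero] at this
    refine le_trans this ?_
    have := mul_nonneg (mul_pos A0 o0).le a2
    nlinarith
  have fb : ∀ P ∈ SP, nm (P - cp γ) ≤ 2 / om q h → ∀ n0, ‖FT q h P - ∑ n ∈ Finset.range n0,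
      2 * (-2) ^ n * FF q h fun μ => Tn (fun _ _ => 1) μ P n‖ ≤
      2 * A * (|Cs| + 1) * om q h ^ 3 * (2 * A * (|Cs| + 1) / h ^ 3) ^ n0 := fun P hP hn n0 => by
    unfold FT
    rw [ff_tail hY hm (fun n => 2 * (-2) ^ n) (dm P hP hn).continuousOn (fun n =>
      ((hol h k1 γ _ _ n hγ wt1).2 _ (fun μ => μ) (fun _ => P) (opn q h) differentiableOn_id
        (fun _ hζ => ⟨hζ, ad P hP hn⟩) fun s =>
          ⟨differentiableOn_const _, differentiableOn_const _⟩).continuousOn) n0]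
    refine (s3 _ _ fun y hy => tail (by positivity) r0 r1 (tb P hP hn _ (hm y hy)) n0).trans ?_
    have c1 : Cs ≤ |Cs| + 1 := by linarith [le_abs_self Cs]
    have c2 : A ≤ 2 * A * (|Cs| + 1) := by nlinarith
    calc _ ≤ (|Cs| + 1) * om q h ^ 2 * (2 * (A * om q h) * (2 * A * (|Cs| + 1) / h ^ 3) ^ n0) := by
          gcongr
      _ = _ := by ring
  refine ⟨fun P hP hn => ⟨ad P hP hn, dm P hP hn, bm P hP hn, fb P hP hn⟩, fun x0 hx0 hn0 => ?_⟩
  have nr : ∀ x ∈ SP, nm x < (om q h)⁻¹ → x0 + x ∈ SP ∧ nm (x0 + x - cp γ) ≤ 2 / om q h :=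
    fun x hx hn => ⟨SP.add_mem hx0 hx, by
      have := sn_nm.add _ (SP.sub_mem hx0 (cp_mem hγ.smooth hγ.per)) x hx
      rw [add_sub_right_comm, div_eq_mul_inv]; linarith⟩
  have nl : ∀ x ∈ SP, ∀ y ∈ SP, ∀ ε : ℂ, nm (x + ε • y) < (om q h)⁻¹ →
      x0 + x + ε • y ∈ SP ∧ nm (x0 + x + ε • y - cp γ) ≤ 2 / om q h := fun x hx y hy ε hε => by
    rw [add_assoc]; exact nr _ (SP.add_mem hx (SP.smul_mem ε hy)) hε
  have lt : ∀ μ ∈ DD q h, LH SP nm (TT μ) x0 (om q h)⁻¹ (2 * A * (|Cs| + 1) * om q h) :=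
    fun μ hμ => ⟨fun x hx y hy => k _ (fun _ => μ) (fun ε => x0 + x + ε • y)
      (GH.opn sn_nm hx hy _) (differentiableOn_const _) (fun ε hε => ⟨hμ, nl x hx y hy ε hε⟩)
      fun s => ⟨by simp only [Pi.add_apply, Pi.smul_apply]; fun_prop, by
        have : (fun ε : ℂ => deriv (x0 + x + ε • y) s) =
            fun ε : ℂ => deriv (x0 + x) s + ε • deriv y s := funext fun ε => by
          rw [deriv_add (SP.diff (SP.add_mem hx0 hx) s) (SP.diff (SP.smul_mem ε hy) s),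
            deriv_const_smul ε (SP.diff hy s)]
        rw [this]; fun_prop⟩,
      fun x hx hn => bm _ (nr x hx hn).1 (nr x hx hn).2 μ hμ⟩
  have fd : ∀ x ∈ SP, ∀ y ∈ SP, ∀ ε : ℂ, nm (x + ε • y) < (om q h)⁻¹ →
      HasDerivAt (fun ε : ℂ => FT q h (x0 + x + ε • y))
        (FF q h fun μ => deriv (fun ε : ℂ => TT μ (x0 + x + ε • y)) ε) ε := fun x hx y hy ε hε =>
    ff_der hHI hY hm hG (G := fun ε μ => TT μ (x0 + x + ε • y)) (GH.opn sn_nm hx hy _)
      (fun ε hε => (dm _ (nl x hx y hy ε hε).1 (nl x hx y hy ε hε).2).continuousOn)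
      (fun μ hμ => (lt μ hμ).hol x hx y hy)
      (fun ε hε => bm _ (nl x hx y hy ε hε).1 (nl x hx y hy ε hε).2) hε
  refine ⟨lt, ⟨fun x hx y hy ε hε => (fd x hx y hy ε hε).differentiableAt.differentiableWithinAt,
    fun x hx hn => by simpa using fb _ (nr x hx hn).1 (nr x hx hn).2 0⟩, fun y hy z hz => ?_⟩
  have ρ0 : 0 < (om q h)⁻¹ / 3 := by positivity
  have z0 := GH.p_zero sn_nm
  have l1 := fun μ hμ => GH.lhD sn_nm (lt μ hμ) hy ρ0
  have d1 := par sn_nm (opn q h) lt (fun x hx hn => dm _ (nr x hx hn).1 (nr x hx hn).2) hy ρ0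
  have d2 := par (f := fun μ w => D1 (TT μ) w y) sn_nm (opn q h) l1 d1 hz ρ0 0 SP.zero_mem
    (by linarith)
  rw [add_zero] at d2
  refine ⟨d2, ?_⟩
  have hU := GH.opn sn_nm SP.zero_mem hz ((om q h)⁻¹ - (om q h)⁻¹ / 3)
  have h0 : (0 : ℂ) ∈ {ε : ℂ | nm (0 + ε • z) < (om q h)⁻¹ - (om q h)⁻¹ / 3} := by
    rw [mem_ofPred_eq, zero_smul, add_zero]; linarith
  have m : ∀ ε : ℂ, 0 + ε • z ∈ SP := fun ε => SP.add_mem SP.zero_mem (SP.smul_mem ε hz)
  have e := (ff_der hHI hY hm hG (G := fun ε μ => D1 (TT μ) (x0 + (0 + ε • z)) y) hU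
    (fun ε hε => (d1 _ (m ε) hε).continuousOn)
    (fun μ hμ => by simpa only [add_assoc] using (l1 μ hμ).hol 0 SP.zero_mem z hz)
    (fun ε hε μ hμ => (l1 μ hμ).bd _ (m ε) hε) h0).deriv
  simp only [zero_add] at e
  refine Eq.trans (EventuallyEq.deriv_eq ?_) e
  filter_upwards [hU.mem_nhds h0] with ε hε
  rw [zero_add] at hε
  exact (fd _ (SP.smul_mem ε hz) y hy 0 (by rw [zero_smul, add_zero]; linarith)).deriv

end Pool.Agent.Lib.IS2
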