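import Pool.Agent.Lib.IS2.Blue

/-! Block LNK: kernels on real curves and Schur bounds. -/

open scoped ContDiff ComplexConjugate Topology Real
open Complex MeasureTheory Set Filter

noncomputable section

namespace Pool.Agent.Lib.IS2

open Pool.Agent.Lib.ISO

namespace LNK

lemma dot_cp (u v : ℂ) : dot (u, conj u) (v, conj v) = (rdot u v : ℝ) := by
  apply Complex.ext <;> simp [dot, rdot] <;> ring

lemma pD_cp (γ : ℝ → ℂ) (s t : ℝ) : pD (cp γ) s t = (γ t - γ s, conj (γ t - γ s)) := by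
  simp [pD, cp]

lemma pn_cp {γ : ℝ → ℂ} (h : Differentiable ℝ γ) (s : ℝ) :
    pn (cp γ) s = (-nr γ s, conj (-nr γ s)) := by
  simp [pn, deriv_cp h, cp, nr]

lemma rdot_self (u : ℂ) : rdot u u = ‖u‖ ^ 2 := by
  rw [rdot, mul_conj, ofReal_re, normSq_eq_norm_sq]

lemma rdot_neg_left (u v : ℂ) : rdot (-u) v = -rdot u v := by simp [rdot]

lemma rdot_neg_right (u v : ℂ) : rdot u (-v) = -rdot u v := by simp [rdot]

lemma c0_comm (γ : ℝ → ℂ) (s t : ℝ) : c0 γ s t = c0 γ t s := norm_sub_rev _ _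

lemma dd_cp (γ : ℝ → ℂ) (s t : ℝ) :
    dot (pD (cp γ) s t) (pD (cp γ) s t) = ((c0 γ s t ^ 2 : ℝ) : ℂ) := by
  rw [pD_cp, dot_cp, rdot_self, c0_comm, c0]

lemma pc_cp (γ : ℝ → ℂ) (s t : ℝ) : pc (cp γ) s t = c0 γ s t := by
  have h : 0 ≤ c0 γ s t := norm_nonneg _
  rw [pc, dd_cp, show (1 / 2 : ℂ) = ((1 / 2 : ℝ) : ℂ) by simp, ← ofReal_cpow (sq_nonneg _),
    ← Real.sqrt_eq_rpow, Real.sqrt_sq h]

lemma one (hA : St_A1) {γ : ℝ → ℂ} {μ s t : ℝ} (hγ : Differentiable ℝ γ) (hμ : 0 < μ)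
    (h : γ s ≠ γ t) : pc (cp γ) s t = c0 γ s t ∧ pS μ (cp γ) s t = Sr μ γ s t ∧
      pK μ (cp γ) s t = Kr μ γ s t ∧ pKd μ (cp γ) s t = Kdr μ γ s t ∧
      pNd μ (cp γ) s t = Ndr μ γ s t := by
  have hc : 0 < c0 γ s t := norm_pos_iff.2 (sub_ne_zero.2 h)
  obtain ⟨h1, h2, -⟩ := hA.2.2.2.2 _ (mul_pos hμ hc)
  rw [ofReal_mul] at h1 h2
  refine ⟨pc_cp γ s t, ?_, ?_, ?_, ?_⟩
  · rw [pS, pc_cp, h1, Sr, Gr]
    push_cast
    rfl
  · rw [pK, pc_cp, h2, dd_cp, pD_cp, pn_cp hγ, dot_cp, Kr, qq, if_neg h, norm_sub_rev (γ t)]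
    change _ = ((l1 (μ * c0 γ s t) * (rdot (-nr γ t) (γ t - γ s) / c0 γ s t ^ 2) / (2 * π) : ℝ) : ℂ)
    push_cast
    ring
  · rw [pKd, pc_cp, h1, pD_cp, pn_cp hγ, dot_cp, Kdr]
    push_cast
    rfl
  · rw [pNd, pc_cp, h1, h2, dd_cp, pD_cp, pn_cp hγ, pn_cp hγ, dot_cp, dot_cp, dot_cp, Ndr]
    simp only [rdot_neg_left, rdot_neg_right]
    push_cast
    ring

lemma two (hA : St_A1) (γ : ℝ → ℂ) {μ : ℝ} (s t : ℝ) (hμ : 0 < μ) : fK μ γ s t = Kr μ γ s t := by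
  have h : L1 ((μ * c0 γ s t : ℝ) : ℂ) = l1 (μ * c0 γ s t) := by
    rcases (mul_nonneg hμ.le (norm_nonneg (γ s - γ t))).eq_or_lt with h | h
    · rw [c0, ← h, l1, ofReal_zero, hA.2.2.2.1]
      simp
    · exact (hA.2.2.2.2 _ h).2.1
  rw [fK, ← ofReal_mul, h, Kr]
  push_cast
  rfl

lemma adm {j ϖ : ℝ} {γ γ' : ℝ → ℂ} (h : Nc j γ) (h1 : ContDiff ℝ ∞ γ')
    (h2 : Function.Periodic γ' (2 * π)) (h3 : nm (cp γ' - cp γ) ≤ ϖ) (h4 : ϖ ≤ (40 * j)⁻¹) :
    Adm j (j + 1) γ ϖ (cp γ') := by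
  have m := cp_mem h.smooth h.per
  have m' := cp_mem h1 h2
  have e1 : deriv (cp γ' - cp γ) = deriv (cp γ') - deriv (cp γ) :=
    funext fun s => deriv_sub (SP.diff m' s) (SP.diff m s)
  have e2 : deriv (deriv (cp γ') - deriv (cp γ)) = deriv (deriv (cp γ')) - deriv (deriv (cp γ)) :=
    funext fun s => deriv_sub (SP.diff (SP.s1 m') s) (SP.diff (SP.s1 m) s)
  have k (s : ℝ) := (le_nm (SP.sub_mem m' m) s).trans h3
  simp only [e1, e2, Pi.sub_apply] at k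
  have h5 : (40 * j)⁻¹ ≤ 1 := inv_le_one_of_one_le₀ (by linarith [h.one_le])
  refine ⟨m', fun s => ?_, fun s => ?_, fun s => ?_⟩
  · linarith [k s, norm_nonneg (deriv (cp γ') s - deriv (cp γ) s),
      norm_nonneg (deriv (deriv (cp γ')) s - deriv (deriv (cp γ)) s)]
  · linarith [k s, norm_nonneg (cp γ' s - cp γ s),
      norm_nonneg (deriv (deriv (cp γ')) s - deriv (deriv (cp γ)) s)]
  · have h6 : ‖deriv (deriv (cp γ)) s‖ ≤ j := by
      rw [deriv_cp (h.smooth.differentiable (by simp)), deriv_cp (h.s1.differentiable (by simp)),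
        norm_cp]
      exact h.b2 s
    linarith [k s, norm_nonneg (cp γ' s - cp γ s), norm_nonneg (deriv (cp γ') s - deriv (cp γ) s),
      norm_sub_norm_le (deriv (deriv (cp γ')) s) (deriv (deriv (cp γ)) s)]

lemma ae_ne {j : ℝ} {γ : ℝ → ℂ} (h : Nc j γ) (s : ℝ) : ∀ᵐ t, γ s ≠ γ t := by
  have : {t | γ s = γ t} ⊆ range fun k : ℤ => s + k * (2 * π) := fun t ht => by
    obtain ⟨k, hk⟩ := h.inj ht
    exact ⟨k, hk.symm⟩
  rw [ae_iff]
  simpa using measure_mono_null this ((countable_range _).measure_zero _)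

lemma int_le {f g : ℝ → ℝ} (hf : ∀ t, 0 ≤ f t) (hg : Continuous g) (h : ∀ᵐ t, f t ≤ g t) :
    ∫ t in (0 : ℝ)..(2 * π), f t ≤ ∫ t in (0 : ℝ)..(2 * π), g t := by
  rw [intervalIntegral.integral_of_le Real.two_pi_pos.le,
    intervalIntegral.integral_of_le Real.two_pi_pos.le]
  exact integral_mono_of_nonneg (.of_forall hf) (hg.intervalIntegrable 0 (2 * π)).1
    (ae_restrict_of_ae h)

end LNK

open LNK in
theorem st_lnk (hA : St_A1) (hK : St_KB) (hC : St_CR) : St_LNK := by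
  refine ⟨fun γ μ s t hγ hμ h => one hA hγ hμ h, fun γ μ s t hμ => two hA γ s t hμ,
    fun j q hq => ?_⟩
  obtain ⟨C, hC1, hKB⟩ := hK j (j + 1)
  obtain ⟨C', h0, hCR⟩ := hC j q (by omega)
  refine ⟨max (max h0 2) (max (80 * j) (4 * (C * Real.exp (2 * C) * |C'|))),
    fun h hh γ γ' Ω' μ hγ hΩ hn hμ => ?_⟩
  simp only [max_le_iff] at hh
  obtain ⟨⟨hh0, hh2⟩, hhj, hhC⟩ := hh
  have h1 : 1 ≤ h := by linarith
  have ho : h ≤ om q h := le_self_pow₀ h1 (by omega)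
  have ho0 : 0 < om q h := by linarith
  have hT : (2 * Tt q h)⁻¹ = h ^ (q + 2) / 2 := by
    rw [Tt, mul_inv, inv_inv]
    ring
  have hμ1 : (2 * Tt q h)⁻¹ < μ := hμ.1
  have hμ2 : 1 ≤ μ := by
    have := le_self_pow₀ h1 (show q + 2 ≠ 0 by omega)
    linarith
  have hμ0 : 0 < μ := by linarith
  have hμn : ‖(μ : ℂ)‖ = μ := by rw [norm_real, Real.norm_of_nonneg hμ0.le]
  have hμ3 : μ < om q h := hμn ▸ hμ.2
  have hS : Sm μ := ⟨by rwa [hμn], by rw [hμn, ofReal_re]; linarith⟩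
  have ha := adm hγ hΩ.smooth hΩ.per hn (by
    rw [div_le_iff₀ ho0, inv_mul_eq_div, le_div_iff₀ (by linarith [hγ.pos])]
    linarith)
  have key (s t : ℝ) (hst : γ s ≠ γ t) : |Kr μ γ' s t| ≤ C * Real.exp (2 * C) *
      ((1 + √(om q h * c0 γ s t)) * Real.exp (-(c0 γ s t / (2 * Tt q h)))) := by
    obtain ⟨k1, k2, k3⟩ := (hKB γ _ _ hγ ha).1 s t hst
    have hc : 0 < c0 γ s t := norm_pos_iff.2 (sub_ne_zero.2 hst)
    rw [pc_cp, ← ofReal_sub, norm_real, Real.norm_eq_abs] at k1 k2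
    have hne : γ' s ≠ γ' t := fun e => by
      have : c0 γ' s t = 0 := by simp [c0, e]
      rw [this, zero_sub, abs_neg, abs_of_pos hc] at k1
      linarith
    have k4 := k3 μ hS
    rw [(one hA (hΩ.smooth.differentiable (by simp)) hμ0 hne).2.2.1, norm_real, Real.norm_eq_abs,
      pc_cp, ← ofReal_mul, ← ofReal_neg, norm_exp_ofReal, hμn] at k4
    refine k4.trans ?_
    have k5 : -(μ * c0 γ' s t) ≤ 2 * C + -(c0 γ s t / (2 * Tt q h)) := by
      have a1 : c0 γ s t / (2 * Tt q h) ≤ μ * c0 γ s t := by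
        rw [div_eq_inv_mul]
        exact mul_le_mul_of_nonneg_right hμ1.le hc.le
      have a2 : μ * (C * (2 / om q h)) ≤ 2 * C := by
        calc _ ≤ om q h * (C * (2 / om q h)) := mul_le_mul_of_nonneg_right hμ3.le (by positivity)
          _ = 2 * C := by field_simp
      nlinarith [mul_le_mul_of_nonneg_left (abs_le.1 k2).1 hμ0.le]
    calc _ ≤ C * (1 + √(om q h * c0 γ s t)) *
          Real.exp (2 * C + -(c0 γ s t / (2 * Tt q h))) := by gcongr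
      _ = _ := by rw [Real.exp_add]; ring
  have fin (s : ℝ) : ∫ t in (0 : ℝ)..(2 * π), C * Real.exp (2 * C) *
      ((1 + √(om q h * c0 γ s t)) * Real.exp (-(c0 γ s t / (2 * Tt q h)))) ≤ 1 / 4 := by
    rw [intervalIntegral.integral_const_mul]
    refine (mul_le_mul_of_nonneg_left ((hCR h hh0 γ hγ).2 s) (by positivity)).trans ?_
    have a1 : h ≤ h ^ 3 := le_self_pow₀ h1 (by omega)
    rw [← mul_div_assoc, div_le_iff₀ (by positivity)]
    nlinarith [mul_le_mul_of_nonneg_left (le_abs_self C') (by positivity : 0 ≤ C * Real.exp (2 * C))]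
  have cont (s : ℝ) : Continuous fun t => C * Real.exp (2 * C) *
      ((1 + √(om q h * c0 γ s t)) * Real.exp (-(c0 γ s t / (2 * Tt q h)))) := by
    have := hγ.smooth.continuous
    unfold c0
    fun_prop
  refine ⟨hΩ, hμ0, fun s => (int_le (fun t => abs_nonneg _) (cont s) ?_).trans (fin s),
    fun t => (int_le (fun t => abs_nonneg _) (cont t) ?_).trans (fin t)⟩
  · exact (ae_ne hγ s).mono fun t ht => key s t ht
  · exact (ae_ne hγ t).mono fun s hs => by simpa only [c0_comm γ s t] using key s t hs.symm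

end Pool.Agent.Lib.IS2
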