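import Pool.Agent.Lib.IS2.Blue

/-! Row MAX: maximum principles and the boundary barrier. -/

open scoped ContDiff ComplexConjugate Topology Real
open Complex MeasureTheory Set Filter Metric

noncomputable section

namespace Pool.Agent.Lib.IS2

namespace MAX

theorem dd {u : ℂ → ℝ} {x : ℂ} (h : ContDiffAt ℝ 2 u x) (v : ℂ) :
    DifferentiableAt ℝ (fun z => fderiv ℝ u z v) x :=
  ((h.fderiv_right (m := 1) (by norm_num)).differentiableAt one_ne_zero).clm_apply
    (differentiableAt_const v)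

theorem ev {u : ℂ → ℝ} {x : ℂ} (h : ContDiffAt ℝ 2 u x) :
    ∀ᶠ z in 𝓝 x, DifferentiableAt ℝ u z := by
  filter_upwards [h.eventually (by simp)] with z hz
  exact hz.differentiableAt two_ne_zero

/-- Second derivatives at a local maximum. -/
theorem dir_le {u : ℂ → ℝ} {x : ℂ} (h : ContDiffAt ℝ 2 u x) (hm : IsLocalMax u x) (v : ℂ) :
    fderiv ℝ (fun z => fderiv ℝ u z v) x v ≤ 0 := by
  have hl : ∀ t : ℝ, HasDerivAt (fun t : ℝ => x + t • v) v t := fun t => by
    simpa using ((hasDerivAt_id t).smul_const v).const_add x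
  have ht : Tendsto (fun t : ℝ => x + t • v) (𝓝 0) (𝓝 x) := by
    simpa using (hl 0).continuousAt.tendsto
  have h1 : deriv (fun t : ℝ => u (x + t • v)) =ᶠ[𝓝 0] fun t => fderiv ℝ u (x + t • v) v := by
    filter_upwards [ht.eventually (ev h)] with t hd
    exact (hd.hasFDerivAt.comp_hasDerivAt t (hl t)).deriv
  have h2 : deriv (deriv fun t : ℝ => u (x + t • v)) 0 = fderiv ℝ (fun z => fderiv ℝ u z v) x v := by
    rw [h1.deriv_eq]
    exact ((dd h v).hasFDerivAt.comp_hasDerivAt_of_eq (0 : ℝ) (hl 0) (by simp)).deriv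
  have h3 : IsLocalMax (fun t : ℝ => u (x + t • v)) 0 := by
    filter_upwards [ht.eventually hm] with t ht
    simpa using ht
  by_contra hc
  rw [not_le, ← h2] at hc
  have h4 := isLocalMin_of_deriv_deriv_pos hc h3.deriv_eq_zero
    (h.continuousAt.comp_of_eq (hl 0).continuousAt (by simp))
  have h5 : (fun t : ℝ => u (x + t • v)) =ᶠ[𝓝 0] fun _ => u (x + (0 : ℝ) • v) := by
    filter_upwards [h3, h4] with t a b
    exact le_antisymm a b
  rw [h5.deriv.deriv_eq] at hc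
  simp at hc

theorem lap_sub {u g : ℂ → ℝ} {x : ℂ} (hu : ContDiffAt ℝ 2 u x) (hg : ContDiffAt ℝ 2 g x) (K : ℝ) :
    lap (fun z => u z - K * g z) x = lap u x - K * lap g x := by
  have h : ∀ v, fderiv ℝ (fun z => fderiv ℝ (fun z => u z - K * g z) z v) x v =
      fderiv ℝ (fun z => fderiv ℝ u z v) x v - K * fderiv ℝ (fun z => fderiv ℝ g z v) x v := by
    intro v
    have e : (fun z => fderiv ℝ (fun z => u z - K * g z) z v) =ᶠ[𝓝 x]
        fun z => fderiv ℝ u z v - K * fderiv ℝ g z v := by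
      filter_upwards [ev hu, ev hg] with z a b
      rw [(a.hasFDerivAt.fun_sub (b.hasFDerivAt.const_mul K)).fderiv]
      simp
    rw [e.fderiv_eq, ((dd hu v).hasFDerivAt.fun_sub ((dd hg v).hasFDerivAt.const_mul K)).fderiv]
    simp
  simp only [lap, h]
  ring

/-- The weak maximum principle. -/
theorem mp {μ : ℝ} (hμ : 0 < μ) {U : Set ℂ} {u : ℂ → ℝ} {m : ℝ} (ho : IsOpen U)
    (hb : Bornology.IsBounded U) (hm : 0 ≤ m) (hc : ContinuousOn u (closure U))
    (hd : ContDiffOn ℝ 2 u U) (hl : ∀ x ∈ U, μ ^ 2 * u x ≤ lap u x)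
    (hf : ∀ x ∈ frontier U, u x ≤ m) : ∀ x ∈ closure U, u x ≤ m := by
  intro x hx
  obtain ⟨z, hz, h⟩ := hb.isCompact_closure.exists_isMaxOn ⟨x, hx⟩ hc
  refine (h hx).trans ?_
  by_cases hU : z ∈ U
  · have h1 := hd.contDiffAt (ho.mem_nhds hU)
    have h2 : IsLocalMax u z := h.isLocalMax (mem_of_superset (ho.mem_nhds hU) subset_closure)
    have h3 := (hl z hU).trans (add_nonpos (dir_le h1 h2 1) (dir_le h1 h2 I))
    exact (nonpos_of_mul_nonpos_right h3 (by positivity)).trans hm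
  · exact hf z (by rw [ho.frontier_eq]; exact ⟨hz, hU⟩)

/-- The squared distance. -/
def ρ (y z : ℂ) : ℝ := (z.re - y.re) ^ 2 + (z.im - y.im) ^ 2

theorem ρ_eq (y z : ℂ) : ρ y z = ‖z - y‖ ^ 2 := by
  rw [Complex.sq_norm, normSq_apply, ρ, sub_re, sub_im]; ring

theorem ρ_pos {y z : ℂ} (h : z ≠ y) : 0 < ρ y z := by
  rw [ρ_eq]; exact pow_pos (norm_pos_iff.2 (sub_ne_zero.2 h)) 2

theorem ρ_cd (y : ℂ) : ContDiff ℝ 2 (ρ y) :=
  ((reCLM.contDiff.sub contDiff_const).pow 2).add ((imCLM.contDiff.sub contDiff_const).pow 2)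

theorem ρ_d (y z : ℂ) :
    HasFDerivAt (ρ y) ((2 * (z.re - y.re)) • reCLM + (2 * (z.im - y.im)) • imCLM) z := by
  have := ((reCLM.hasFDerivAt (x := z)).sub_const y.re).pow 2 |>.add
    (((imCLM.hasFDerivAt (x := z)).sub_const y.im).pow 2)
  exact this.congr_fderiv (by simp)

/-- The Laplace operator on radial functions. -/
theorem lap_rad {f f' : ℝ → ℝ} {y x : ℂ} {c : ℝ} (hx : x ≠ y)
    (h1 : ∀ t, 0 < t → HasDerivAt f (f' t) t) (h2 : HasDerivAt f' c (ρ y x)) :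
    lap (fun z => f (ρ y z)) x = 4 * f' (ρ y x) + 4 * ρ y x * c := by
  have h : ∀ v : ℂ, fderiv ℝ (fun z => fderiv ℝ (fun z => f (ρ y z)) z v) x v =
      c * (2 * (x.re - y.re) * v.re + 2 * (x.im - y.im) * v.im) ^ 2 +
        f' (ρ y x) * (2 * v.re ^ 2 + 2 * v.im ^ 2) := by
    intro v
    have e : (fun z => fderiv ℝ (fun z => f (ρ y z)) z v) =ᶠ[𝓝 x]
        fun z => f' (ρ y z) * (2 * (z.re - y.re) * v.re + 2 * (z.im - y.im) * v.im) := by
      filter_upwards [isOpen_ne.mem_nhds hx] with z hz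
      rw [show fderiv ℝ (fun z => f (ρ y z)) z = _ from
        ((h1 _ (ρ_pos hz)).comp_hasFDerivAt z (ρ_d y z)).fderiv]
      simp [mul_add]
    have a := (h2.comp_hasFDerivAt x (ρ_d y x)).mul
      (((((reCLM.hasFDerivAt (x := x)).sub_const y.re).const_mul 2).mul_const v.re).add
        ((((imCLM.hasFDerivAt (x := x)).sub_const y.im).const_mul 2).mul_const v.im))
    rw [e.fderiv_eq, show fderiv ℝ (fun z => f' (ρ y z) *
      (2 * (z.re - y.re) * v.re + 2 * (z.im - y.im) * v.im)) x = _ from a.fderiv]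
    simp
    ring
  rw [lap, h, h]
  simp only [ρ, one_re, one_im, I_re, I_im]
  ring

theorem lap_log {y x : ℂ} (hx : x ≠ y) (R : ℝ) : lap (fun z => R - Real.log (ρ y z)) x = 0 := by
  have h := (ρ_pos hx).ne'
  rw [lap_rad (f := fun t => R - Real.log t) (f' := fun t => -t⁻¹) hx
    (fun t ht => (Real.hasDerivAt_log ht.ne').const_sub R) (hasDerivAt_inv h).fun_neg]
  field_simp
  ring

theorem lap_inv {y x : ℂ} (hx : x ≠ y) (R : ℝ) :
    lap (fun z => R - (ρ y z)⁻¹) x = -(4 / ρ y x ^ 2) := by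
  have h := (ρ_pos hx).ne'
  rw [lap_rad (f := fun t => R - t⁻¹) (f' := fun t => (t ^ 2)⁻¹) hx
    (fun t ht => by simpa using (hasDerivAt_inv ht.ne').const_sub R)
    ((hasDerivAt_pow 2 _).fun_inv (pow_ne_zero 2 h))]
  simp only [Nat.cast_ofNat, Nat.add_one_sub_one, pow_one]
  field_simp
  ring

/-- The punctured maximum principle. -/
theorem mp2 {μ : ℝ} (hμ : 0 < μ) {U : Set ℂ} {u : ℂ → ℝ} {m B : ℝ} {y : ℂ} (hy : y ∈ U)
    (ho : IsOpen U) (hb : Bornology.IsBounded U) (hm : 0 ≤ m)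
    (hc : ContinuousOn u (closure U \ {y})) (hd : ContDiffOn ℝ 2 u (U \ {y}))
    (hl : ∀ x ∈ U \ {y}, μ ^ 2 * u x ≤ lap u x ∧ u x ≤ B) (hf : ∀ x ∈ frontier U, u x ≤ m) :
    ∀ x ∈ U \ {y}, u x ≤ m := by
  intro x hx
  obtain ⟨R, hR⟩ := hb.closure.subset_closedBall y
  have g0 : ∀ z ∈ closure U, z ≠ y → 0 ≤ Real.log (R ^ 2) - Real.log (ρ y z) := fun z hz hn =>
    sub_nonneg.2 (Real.log_le_log (ρ_pos hn) (by
      rw [ρ_eq]
      exact pow_le_pow_left₀ (norm_nonneg _) (mem_closedBall_iff_norm.1 (hR hz)) 2))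
  have gd : ∀ z ≠ y, ContDiffAt ℝ 2 (fun z => Real.log (R ^ 2) - Real.log (ρ y z)) z :=
    fun z hz => contDiffAt_const.sub ((ρ_cd y).contDiffAt.log (ρ_pos hz).ne')
  have key : ∀ ε : ℝ, 0 < ε → u x - ε * (Real.log (R ^ 2) - Real.log (ρ y x)) ≤ m := by
    intro ε hε
    obtain ⟨r0, h0, h1⟩ := Metric.isOpen_iff.1 ho y hy
    have hp : 0 < ‖x - y‖ := norm_pos_iff.2 (sub_ne_zero.2 hx.2)
    obtain ⟨r, r1, r2, r3, r4⟩ : ∃ r : ℝ, 0 < r ∧ r < r0 ∧ r < ‖x - y‖ ∧
        B - ε * (Real.log (R ^ 2) - Real.log (r ^ 2)) ≤ m := by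
      have t : Tendsto (fun r : ℝ => Real.log r) (𝓝[>] 0) atBot := Real.tendsto_log_nhdsGT_zero
      obtain ⟨r, a, b, c, d⟩ := ((t.eventually_le_atBot
        ((m - B + ε * Real.log (R ^ 2)) / (2 * ε))).and ((eventually_mem_nhdsWithin (s := Ioi (0 : ℝ))).and
          (((gt_mem_nhds h0).and (gt_mem_nhds hp)).filter_mono nhdsWithin_le_nhds))).exists
      refine ⟨r, b, c, d, ?_⟩
      rw [le_div_iff₀ (by positivity)] at a
      rw [Real.log_pow r]
      push_cast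
      linarith
    have hV : IsOpen (U ∩ (closedBall y r)ᶜ) := ho.inter isClosed_closedBall.isOpen_compl
    have ne : ∀ z ∈ closure (U ∩ (closedBall y r)ᶜ), z ∈ closure U ∧ r ≤ ‖z - y‖ := fun z hz =>
      ⟨closure_mono inter_subset_left hz, closure_minimal (t := {z | r ≤ ‖z - y‖})
        (fun w hw => (not_le.1 (mem_closedBall_iff_norm.not.1 hw.2)).le)
        (isClosed_le continuous_const (by fun_prop)) hz⟩
    have ne' : ∀ z ∈ closure (U ∩ (closedBall y r)ᶜ), z ≠ y := fun z hz h => by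
      have := (ne z hz).2
      rw [h, sub_self, norm_zero] at this
      exact absurd r1 (not_lt.2 this)
    refine mp hμ (u := fun z => u z - ε * (Real.log (R ^ 2) - Real.log (ρ y z))) hV
      (hb.subset inter_subset_left) hm ?_ ?_ ?_ ?_ x
      (subset_closure ⟨hx.1, fun h => not_le.2 r3 (mem_closedBall_iff_norm.1 h)⟩)
    · exact (hc.mono fun z hz => ⟨(ne z hz).1, ne' z hz⟩).sub (continuousOn_const.mul
        fun z hz => (gd z (ne' z hz)).continuousAt.continuousWithinAt)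
    · exact (hd.mono fun z hz => ⟨hz.1, ne' z (subset_closure hz)⟩).sub (contDiffOn_const.mul
        fun z hz => (gd z (ne' z (subset_closure hz))).contDiffWithinAt)
    · intro z hz
      have n := ne' z (subset_closure hz)
      rw [lap_sub (hd.contDiffAt ((ho.sdiff isClosed_singleton).mem_nhds ⟨hz.1, n⟩)) (gd z n),
        lap_log n]
      have := mul_nonneg (mul_pos (pow_pos hμ 2) hε).le (g0 z (subset_closure hz.1) n)
      linarith [(hl z ⟨hz.1, n⟩).1]
    · intro z hz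
      rw [hV.frontier_eq] at hz
      have n := ne' z hz.1
      by_cases hU : z ∈ U
      · have e : ‖z - y‖ = r := le_antisymm
          (mem_closedBall_iff_norm.1 (not_not.1 fun h => hz.2 ⟨hU, h⟩)) (ne z hz.1).2
        rw [ρ_eq, e]
        linarith [(hl z ⟨hU, n⟩).2]
      · have := mul_nonneg hε.le (g0 z (ne z hz.1).1 n)
        linarith [hf z (by rw [ho.frontier_eq]; exact ⟨(ne z hz.1).1, hU⟩)]
  refine le_of_forall_pos_le_add fun e he => ?_
  have g := g0 x (subset_closure hx.1) hx.2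
  have := key (e / (Real.log (R ^ 2) - Real.log (ρ y x) + 1)) (by positivity)
  have h2 : e / (Real.log (R ^ 2) - Real.log (ρ y x) + 1) *
      (Real.log (R ^ 2) - Real.log (ρ y x)) ≤ e := by
    rw [div_mul_eq_mul_div, div_le_iff₀ (by positivity)]
    nlinarith
  linarith

/-- The barrier at a point with an exterior ball. -/
theorem bar {μ δ l L : ℝ} (hμ : 0 < μ) (hδ : 0 < δ) (hl : 0 < l) : ∃ C, 0 ≤ C ∧
    ∀ (p n : ℂ) (U : Set ℂ) (u : ℂ → ℝ) (a η : ℝ), l ≤ ‖n‖ → ‖n‖ ≤ L → IsOpen U →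
    (∀ z ∈ U, ‖2 * n‖ ≤ ‖z - (p - 2 * n)‖) → 0 ≤ a → 0 ≤ η →
    ContinuousOn u (closure (U ∩ ball p δ)) → ContDiffOn ℝ 2 u (U ∩ ball p δ) →
    (∀ x ∈ U ∩ ball p δ, μ ^ 2 * u x - lap u x ≤ a ∧ u x ≤ η) →
    (∀ x ∈ frontier U ∩ ball p δ, u x ≤ 0) → ∀ y ∈ U ∩ ball p δ, u y ≤ C * (η + a) * ‖y - p‖ := by
  refine ⟨((δ + |L|) ^ 4 / 4 + 2 * L ^ 2 * (δ + |L|) ^ 2 / δ ^ 2) * ((δ + 2 * |L|) / l ^ 4),
    by positivity, fun p n U u a η h1 h2 ho he ha hη hc hd hu hf y hy => ?_⟩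
  rw [abs_of_nonneg ((norm_nonneg n).trans h2)]
  have n0 : 0 < ‖n‖ := hl.trans_le h1
  have L0 : 0 < L := n0.trans_le h2
  set A := (δ + L) ^ 4 / 4 + 2 * L ^ 2 * (δ + L) ^ 2 / δ ^ 2 with hA
  have A0 : 0 ≤ A := by positivity
  have hV : IsOpen (U ∩ ball p δ) := ho.inter isOpen_ball
  have est : ∀ z ∈ closure (U ∩ ball p δ), ‖z - p‖ ≤ δ ∧ ‖n‖ ^ 2 + ‖z - p‖ ^ 2 / 2 ≤ ρ (p - n) z ∧
      ρ (p - n) z ≤ (‖z - p‖ + ‖n‖) ^ 2 := by
    intro z hz
    have e1 : ‖2 * n‖ ≤ ‖z - (p - 2 * n)‖ := closure_minimal (t := {z | ‖2 * n‖ ≤ ‖z - (p - 2 * n)‖})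
      (fun w hw => he w hw.1) (isClosed_le continuous_const (by fun_prop)) hz
    refine ⟨mem_closedBall_iff_norm.1 (closure_minimal (inter_subset_right.trans
      ball_subset_closedBall) isClosed_closedBall hz), ?_, ?_⟩
    · have e2 := pow_le_pow_left₀ (norm_nonneg _) e1 2
      simp only [Complex.sq_norm, normSq_apply, ρ, sub_re, sub_im, mul_re, mul_im, re_ofNat,
        im_ofNat] at e2 ⊢
      nlinarith
    · rw [ρ_eq, show z - (p - n) = z - p + n by ring]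
      exact pow_le_pow_left₀ (norm_nonneg _) (norm_add_le _ _) 2
  have pos : ∀ z ∈ closure (U ∩ ball p δ), 0 < ρ (p - n) z := fun z hz =>
    lt_of_lt_of_le (by positivity) (est z hz).2.1
  have up : ∀ z ∈ closure (U ∩ ball p δ), ρ (p - n) z ≤ (δ + L) ^ 2 := fun z hz =>
    (est z hz).2.2.trans (pow_le_pow_left₀ (by positivity) (add_le_add (est z hz).1 h2) 2)
  have ne : ∀ z ∈ closure (U ∩ ball p δ), z ≠ p - n := fun z hz h => by
    have := pos z hz
    rw [h, ρ_eq, sub_self, norm_zero] at this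
    simp at this
  have be : ∀ z ∈ closure (U ∩ ball p δ), (‖n‖ ^ 2)⁻¹ - (ρ (p - n) z)⁻¹ =
      (ρ (p - n) z - ‖n‖ ^ 2) / (‖n‖ ^ 2 * ρ (p - n) z) := fun z hz => by
    have := pos z hz
    field_simp
  have b0 : ∀ z ∈ closure (U ∩ ball p δ), 0 ≤ (‖n‖ ^ 2)⁻¹ - (ρ (p - n) z)⁻¹ := fun z hz => by
    rw [be z hz]
    exact div_nonneg (by nlinarith [(est z hz).2.1, sq_nonneg ‖z - p‖]) (by have := pos z hz; positivity)
  have gd : ∀ z ∈ closure (U ∩ ball p δ),
      ContDiffAt ℝ 2 (fun z => (‖n‖ ^ 2)⁻¹ - (ρ (p - n) z)⁻¹) z :=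
    fun z hz => contDiffAt_const.sub ((ρ_cd _).contDiffAt.inv (pos z hz).ne')
  have K0 : 0 ≤ (η + a) * A := by positivity
  have key := mp hμ (u := fun z => u z - (η + a) * A * ((‖n‖ ^ 2)⁻¹ - (ρ (p - n) z)⁻¹)) hV
    (isBounded_ball.subset inter_subset_right) le_rfl
    (hc.sub (continuousOn_const.mul fun z hz => (gd z hz).continuousAt.continuousWithinAt))
    (hd.sub (contDiffOn_const.mul fun z hz => (gd z (subset_closure hz)).contDiffWithinAt))
    (fun z hz => by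
      have hz' := subset_closure hz
      rw [lap_sub (hd.contDiffAt (hV.mem_nhds hz)) (gd z hz'), lap_inv (ne z hz')]
      have e1 := mul_nonneg (mul_nonneg (pow_pos hμ 2).le K0) (b0 z hz')
      have e2 : 1 ≤ A * (4 / ρ (p - n) z ^ 2) := by
        have := pos z hz'
        rw [← mul_div_assoc, one_le_div (by positivity)]
        have e3 := pow_le_pow_left₀ this.le (up z hz') 2
        have e4 : 0 ≤ 2 * L ^ 2 * (δ + L) ^ 2 / δ ^ 2 := by positivity
        nlinarith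
      nlinarith [(hu z hz).1, mul_le_mul_of_nonneg_left e2 (add_nonneg hη ha)])
    (fun z hz => by
      rw [hV.frontier_eq] at hz
      by_cases hB : z ∈ ball p δ
      · have := mul_nonneg K0 (b0 z hz.1)
        have e := hf z ⟨by
          rw [ho.frontier_eq]
          exact ⟨closure_mono inter_subset_left hz.1, fun h => hz.2 ⟨h, hB⟩⟩, hB⟩
        linarith
      · have e0 : ‖z - p‖ = δ := le_antisymm (est z hz.1).1 (not_lt.1 (mem_ball_iff_norm.not.1 hB))
        have e1 : u z ≤ η := le_on_closure (fun w hw => (hu w hw).2) hc continuousOn_const hz.1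
        have e2 : 1 ≤ A * ((‖n‖ ^ 2)⁻¹ - (ρ (p - n) z)⁻¹) := by
          have := pos z hz.1
          have e3 := (est z hz.1).2.1
          rw [e0] at e3
          rw [be z hz.1, ← mul_div_assoc, one_le_div (by positivity)]
          have e4 : ‖n‖ ^ 2 * ρ (p - n) z ≤ L ^ 2 * (δ + L) ^ 2 :=
            mul_le_mul (pow_le_pow_left₀ n0.le h2 2) (up z hz.1) this.le (by positivity)
          have e5 : L ^ 2 * (δ + L) ^ 2 = 2 * L ^ 2 * (δ + L) ^ 2 / δ ^ 2 * (δ ^ 2 / 2) := by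
            field_simp
          have e6 : 2 * L ^ 2 * (δ + L) ^ 2 / δ ^ 2 ≤ A := le_add_of_nonneg_left (by positivity)
          exact e4.trans (e5.trans_le (mul_le_mul e6 (by linarith) (by positivity) A0))
        nlinarith [mul_le_mul_of_nonneg_left e2 (add_nonneg hη ha)])
    y (subset_closure hy)
  have hy' := subset_closure hy
  have e : (‖n‖ ^ 2)⁻¹ - (ρ (p - n) y)⁻¹ ≤ (δ + 2 * L) / l ^ 4 * ‖y - p‖ := by
    obtain ⟨e1, e2, e3⟩ := est y hy'
    rw [be y hy', div_mul_eq_mul_div]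
    refine div_le_div₀ (by positivity) (by nlinarith [norm_nonneg (y - p)]) (by positivity) ?_
    have e4 := pow_le_pow_left₀ hl.le h1 2
    rw [show l ^ 4 = l ^ 2 * l ^ 2 by ring]
    exact mul_le_mul e4 (by nlinarith [sq_nonneg ‖y - p‖]) (by positivity) (by positivity)
  nlinarith [mul_le_mul_of_nonneg_left e K0]

/-- The speed of the curve is bounded from above and below. -/
theorem speed {Ω : Set ℂ} {γ : ℝ → ℂ} (h : CD Ω γ) :
    ∃ l L : ℝ, 0 < l ∧ ∀ s, l ≤ ‖nr γ s‖ ∧ ‖nr γ s‖ ≤ L := by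
  have hc : Continuous fun s => ‖deriv γ s‖ := (h.smooth.continuous_deriv (by simp)).norm
  have hp : Function.Periodic (fun s => ‖deriv γ s‖) (2 * π) := fun s => by
    beta_reduce
    rw [← deriv_comp_add_const, show (fun x => γ (x + 2 * π)) = γ from funext h.per]
  have hK := hp.compact_of_continuous (by positivity) hc
  obtain ⟨_, ⟨a, rfl⟩, ha⟩ := hK.exists_isLeast (range_nonempty _)
  obtain ⟨L, hL⟩ := hK.bddAbove
  refine ⟨_, L, norm_pos_iff.2 (h.reg a), fun s => ?_⟩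
  rw [nr, norm_mul, norm_I, one_mul]
  exact ⟨ha ⟨s, rfl⟩, hL ⟨s, rfl⟩⟩

end MAX

open MAX in
theorem st_max (hGC : St_GC) : St_MAX := by
  refine fun μ hμ => ⟨fun U u m => mp hμ, fun U u m B y hy => mp2 hμ hy, fun Ω γ δ h hδ => ?_⟩
  obtain ⟨c, hc, -, -, -, h4⟩ := hGC Ω γ h
  obtain ⟨l, L, l0, hl⟩ := speed h
  obtain ⟨C, C0, hC⟩ := bar (L := c / 2 * L) hμ hδ (mul_pos (half_pos hc) l0)
  refine ⟨C, C0, fun s U u a η ho hU => ?_⟩
  have e : ‖((c / 2 : ℝ) : ℂ) * nr γ s‖ = c / 2 * ‖nr γ s‖ := by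
    rw [norm_mul, norm_real, Real.norm_of_nonneg (half_pos hc).le]
  refine hC (γ s) ((c / 2 : ℝ) * nr γ s) U u a η ?_ ?_ ho fun z hz => ?_
  · rw [e]; exact mul_le_mul_of_nonneg_left (hl s).1 (half_pos hc).le
  · rw [e]; exact mul_le_mul_of_nonneg_left (hl s).2 (half_pos hc).le
  · rw [show 2 * (((c / 2 : ℝ) : ℂ) * nr γ s) = c * nr γ s by push_cast; ring, norm_mul, norm_real,
      Real.norm_of_nonneg hc.le]
    exact h4 s z (hU hz)

end Pool.Agent.Lib.IS2
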