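import Pool.Agent.Lib.IS2.Blue

/-! The Neumann series of the double layer operator. -/

open scoped ContDiff ComplexConjugate Topology Real Interval
open Complex MeasureTheory Set Filter Function

noncomputable section

namespace Pool.Agent.Lib.IS2

namespace NEU

/-- Fubini for continuous functions. -/
theorem fub {F : ℝ → ℝ → ℝ} (hF : Continuous (uncurry F)) {a b c d : ℝ} (h1 : a ≤ b) (h2 : c ≤ d) :
    ∫ x in a..b, ∫ y in c..d, F x y = ∫ y in c..d, ∫ x in a..b, F x y := by
  simp only [intervalIntegral.integral_of_le h1, intervalIntegral.integral_of_le h2]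
  refine integral_integral_swap ?_
  rw [Measure.prod_restrict]
  exact (hF.continuousOn.integrableOn_compact (isCompact_Icc.prod isCompact_Icc)).mono_set
    (prod_mono Ioc_subset_Icc_self Ioc_subset_Icc_self)

/-- Composition of kernels. -/
def cv (A B : ℝ → ℝ → ℝ) (s t : ℝ) : ℝ := ∫ u in (0 : ℝ)..(2 * π), A s u * B u t

variable {A B C : ℝ → ℝ → ℝ}

theorem cont_cv (hA : Continuous (uncurry A)) (hB : Continuous (uncurry B)) :
    Continuous (uncurry (cv A B)) :=
  intervalIntegral.continuous_parametric_intervalIntegral_of_continuous'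
    (f := fun (p : ℝ × ℝ) u => A p.1 u * B u p.2) (by fun_prop) _ _

theorem cv_assoc (hA : Continuous (uncurry A)) (hB : Continuous (uncurry B))
    (hC : Continuous (uncurry C)) : cv (cv A B) C = cv A (cv B C) := by
  funext s t
  simp only [cv, ← intervalIntegral.integral_mul_const, ← intervalIntegral.integral_const_mul]
  rw [fub (F := fun u v => A s v * B v u * C u t) (by fun_prop) Real.two_pi_pos.le
    Real.two_pi_pos.le]
  simp only [mul_assoc]

theorem cv_le (hA : Continuous (uncurry A)) (hB : Continuous (uncurry B)) {M m s t : ℝ}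
    (h1 : ∀ u, |A s u| ≤ M) (h2 : ∫ u in (0 : ℝ)..(2 * π), |B u t| ≤ m) : |cv A B s t| ≤ M * m := by
  refine (intervalIntegral.norm_integral_le_of_norm_le (μ := volume)
    (f := fun u => A s u * B u t) (g := fun u => M * |B u t|)
    Real.two_pi_pos.le (.of_forall fun u _ => ?_)
    (Continuous.intervalIntegrable (by fun_prop) _ _)).trans ?_
  · rw [Real.norm_eq_abs, abs_mul]
    exact mul_le_mul_of_nonneg_right (h1 u) (abs_nonneg _)
  · rw [intervalIntegral.integral_const_mul]
    exact mul_le_mul_of_nonneg_left h2 ((abs_nonneg _).trans (h1 0))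

/-- A continuous doubly periodic kernel is bounded. -/
theorem bdd (hA : Continuous (uncurry A))
    (hp : ∀ s t, A (s + 2 * π) t = A s t ∧ A s (t + 2 * π) = A s t) : ∃ M, ∀ s t, |A s t| ≤ M := by
  obtain ⟨M, hM⟩ := ((isCompact_Icc (a := (0 : ℝ)) (b := 2 * π)).prod
    (isCompact_Icc (a := (0 : ℝ)) (b := 2 * π))).exists_bound_of_continuousOn hA.continuousOn
  refine ⟨M, fun s t => ?_⟩
  obtain ⟨t', ht, e⟩ := Periodic.exists_mem_Ico₀ (f := A s) (fun t => (hp s t).2) Real.two_pi_pos t
  obtain ⟨s', hs, e'⟩ := Periodic.exists_mem_Ico₀ (f := fun s => A s t') (fun s => (hp s t').1)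
    Real.two_pi_pos s
  rw [e, e']
  exact hM (s', t') ⟨Ico_subset_Icc_self hs, Ico_subset_Icc_self ht⟩

/-- Integration of a uniformly convergent series. -/
theorem int_tsum {F : ℕ → ℝ → ℝ} {b : ℕ → ℝ} (hF : ∀ n, Continuous (F n)) (hb : Summable b)
    (h : ∀ n u, |F n u| ≤ b n) (x y : ℝ) :
    HasSum (fun n => ∫ u in x..y, F n u) (∫ u in x..y, ∑' n, F n u) :=
  intervalIntegral.hasSum_integral_of_dominated_convergence (fun n _ => b n)
    (fun n => (hF n).aestronglyMeasurable) (fun n => .of_forall fun u _ => h n u)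
    (.of_forall fun _ _ => hb) intervalIntegrable_const
    (.of_forall fun u _ => (hb.of_norm_bounded fun n => h n u).hasSum)

end NEU

open NEU in
theorem st_neu (hA : St_A3) (hQ : St_QS) : St_NEU := by
  intro μ γ Ω h
  have hγ := h.cd.smooth.continuous
  have p0 := h.cd.per
  have p1 := per_deriv' p0
  have p2 := per_deriv' p1
  have cK : Continuous (uncurry (Kr μ γ)) :=
    ((hA.2.2.1.comp_continuous (f := fun p : ℝ × ℝ => μ * c0 γ p.1 p.2) (by unfold c0; fun_prop)
      fun p => mul_nonneg h.pos.le (norm_nonneg _)).mul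
      (hQ.1 γ h.cd.smooth p0 h.cd.reg h.cd.inj).continuous).div_const _
  have pK : ∀ s t, Kr μ γ (s + 2 * π) t = Kr μ γ s t ∧ Kr μ γ s (t + 2 * π) = Kr μ γ s t :=
    fun s t => by simp only [Kr, c0, qq, nr, p0 s, p0 t, p1 t, p2 t, and_self]
  have e1 : ∀ n, Kp μ γ (n + 1) = cv (Kp μ γ n) (Kr μ γ) := fun n => rfl
  have cP : ∀ n, Continuous (uncurry (Kp μ γ n)) := fun n => by
    induction n with
    | zero => exact cK
    | succ n ih => exact cont_cv ih cK
  have pP : ∀ n s t, Kp μ γ n (s + 2 * π) t = Kp μ γ n s t ∧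
      Kp μ γ n s (t + 2 * π) = Kp μ γ n s t := fun n => by
    induction n with
    | zero => exact pK
    | succ n ih => exact fun s t => by simp only [e1, cv, (ih s _).1, (pK _ t).2, and_self]
  obtain ⟨M, hM⟩ := bdd cK pK
  have bP : ∀ n s t, |Kp μ γ n s t| ≤ M / 4 ^ n := fun n => by
    induction n with
    | zero => simpa [Kp] using hM
    | succ n ih =>
      exact fun s t => (cv_le (cP n) cK (ih s) (h.col t)).trans_eq (by ring)
  have e2 : ∀ n, Kp μ γ (n + 1) = cv (Kr μ γ) (Kp μ γ n) := fun n => by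
    induction n with
    | zero => rfl
    | succ n ih => rw [e1 (n + 1), ih, cv_assoc cK (cP n) cK, ← e1, ih]
  have bT : ∀ n s t, |2 * (-2) ^ (n + 1) * Kp μ γ n s t| ≤ 4 * M * (1 / 2) ^ n := fun n s t => by
    rw [abs_mul, abs_mul, abs_pow, abs_neg, abs_two]
    refine (mul_le_mul_of_nonneg_left (bP n s t) (by positivity)).trans_eq ?_
    rw [show (4 : ℝ) ^ n = 2 ^ n * 2 ^ n by rw [← mul_pow]; norm_num, one_div, inv_pow]
    field_simp
    ring
  have sb : Summable fun n : ℕ => 4 * M * (1 / 2 : ℝ) ^ n := summable_geometric_two.mul_left _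
  have cH : Continuous (uncurry (Ph μ γ)) :=
    continuous_tsum (f := fun n (p : ℝ × ℝ) => 2 * (-2) ^ (n + 1) * Kp μ γ n p.1 p.2)
      (fun n => continuous_const.mul (cP n)) sb fun n p => bT n p.1 p.2
  have e3 : ∀ s t, Ph μ γ s t =
      -4 * Kr μ γ s t - 2 * ∑' n, 2 * (-2) ^ (n + 1) * Kp μ γ (n + 1) s t := fun s t => by
    rw [Ph, (sb.of_norm_bounded fun n => bT n s t).tsum_eq_zero_add, sub_eq_add_neg, ← neg_mul,
      ← tsum_mul_left]
    congr 1
    · norm_num [Kp]
    · exact tsum_congr fun n => by ring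
  have M0 : 0 ≤ M := (abs_nonneg _).trans (hM 0 0)
  have e4 : ∀ s t, Ph μ γ s t = -4 * Kr μ γ s t - 2 * cv (Kr μ γ) (Ph μ γ) s t := fun s t => by
    have := int_tsum (F := fun n u => Kr μ γ s u * (2 * (-2) ^ (n + 1) * Kp μ γ n u t))
      (fun n => by have := cP n; fun_prop) (sb.mul_left M) (fun n u => by
        rw [abs_mul]
        exact mul_le_mul (hM s u) (bT n u t) (abs_nonneg _) M0) 0 (2 * π)
    simp only [mul_left_comm (Kr μ γ s _), intervalIntegral.integral_const_mul] at this
    rw [e3]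
    simp only [e2]
    exact congrArg (fun x => -4 * Kr μ γ s t - 2 * x) (this.tsum_eq.trans (by
      simp only [cv, Ph, ← tsum_mul_left, mul_left_comm (Kr μ γ s _)]))
  have e5 : ∀ s t, Ph μ γ s t = -4 * Kr μ γ s t - 2 * cv (Ph μ γ) (Kr μ γ) s t := fun s t => by
    have := int_tsum (F := fun n u => 2 * (-2) ^ (n + 1) * Kp μ γ n s u * Kr μ γ u t)
      (fun n => by have := cP n; fun_prop) (sb.mul_right M) (fun n u => by
        rw [abs_mul]
        exact mul_le_mul (bT n s u) (hM u t) (abs_nonneg _) (by positivity)) 0 (2 * π)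
    simp only [tsum_mul_right] at this
    simp only [mul_assoc _ (Kp μ γ _ s _), intervalIntegral.integral_const_mul] at this
    rw [e3]
    exact congrArg (fun x => -4 * Kr μ γ s t - 2 * x) this.tsum_eq
  have pH : ∀ s t, Ph μ γ (s + 2 * π) t = Ph μ γ s t ∧ Ph μ γ s (t + 2 * π) = Ph μ γ s t :=
    fun s t => by simp only [Ph, (pP _ s t).1, (pP _ s t).2, and_self]
  refine ⟨cK, pK, fun s t hst => ?_, cP, ⟨M, bP⟩, fun n s t => by rw [e2]; rfl, cH,
    fun s t => ⟨(pH s t).1, (pH s t).2, e4 s t, e5 s t⟩, fun φ ⟨c1, c2⟩ => ⟨⟨?_, fun s => ?_⟩,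
      fun s => ?_⟩⟩
  · rw [DLk, Kr, qq, if_neg hst, c0, norm_sub_rev (γ s)]
    ring
  · exact (continuous_const.mul c1).add
      (intervalIntegral.continuous_parametric_intervalIntegral_of_continuous'
        (f := fun s t => Ph μ γ s t * φ t) (by fun_prop) _ _)
  · simp only [Hop, c2 s, (pH s _).1]
  · have i1 : IntervalIntegrable (fun t => Kr μ γ s t * φ t) volume 0 (2 * π) :=
      Continuous.intervalIntegrable (by fun_prop) _ _
    have i2 : IntervalIntegrable (fun t => Ph μ γ s t * φ t) volume 0 (2 * π) :=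
      Continuous.intervalIntegrable (by fun_prop) _ _
    have c3 := intervalIntegral.continuous_parametric_intervalIntegral_of_continuous' (μ := volume)
      (f := fun t u => Kr μ γ s t * Ph μ γ t u * φ u) (by fun_prop) 0 (2 * π)
    have a1 : ∀ t, Kr μ γ s t * Hop μ γ φ t = 2 * (Kr μ γ s t * φ t) +
        ∫ u in (0 : ℝ)..(2 * π), Kr μ γ s t * Ph μ γ t u * φ u := fun t => by
      simp only [Hop, mul_assoc, intervalIntegral.integral_const_mul]
      ring
    have a2 : ∀ u, ∫ t in (0 : ℝ)..(2 * π), Kr μ γ s t * Ph μ γ t u * φ u =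
        -2 * (Kr μ γ s u * φ u) - 1 / 2 * (Ph μ γ s u * φ u) := fun u => by
      rw [intervalIntegral.integral_mul_const, e4 s u, cv]
      ring
    simp only [a1]
    rw [intervalIntegral.integral_add (i1.const_mul 2) (c3.intervalIntegrable _ _),
      fub (F := fun t u => Kr μ γ s t * Ph μ γ t u * φ u) (by fun_prop) Real.two_pi_pos.le
        Real.two_pi_pos.le]
    simp only [a2]
    rw [intervalIntegral.integral_sub (i1.const_mul _) (i2.const_mul _)]
    simp only [intervalIntegral.integral_const_mul, Hop]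
    ring

end Pool.Agent.Lib.IS2
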