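import Pool.Agent.Lib.IS2.Blue

/-! Row NH: measurability, periodicity, holomorphy and bounds for the kernel `NN`. -/

open scoped ContDiff ComplexConjugate Topology Real
open Complex MeasureTheory Set Filter

noncomputable section

namespace Pool.Agent.Lib.IS2

open Pool.Agent.Lib.ISO

namespace NH

/-- The measure on one period. -/
abbrev nu : Measure ℝ := volume.restrict (Ioc 0 (2 * π))

lemma ii (f : ℝ → ℂ) : ∫ v in (0 : ℝ)..(2 * π), f v = ∫ v, f v ∂nu :=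
  intervalIntegral.integral_of_le Real.two_pi_pos.le

lemma ii0 {a : ℝ} (ha : -1 < a) : IntervalIntegrable (fun v => dc 0 v ^ a) volume (-π) π := by
  have h1 : IntervalIntegrable (fun v => dc 0 v ^ a) volume 0 π :=
    (intervalIntegral.intervalIntegrable_rpow' ha (a := 0) (b := π)).congr fun x hx => by
      rw [uIoc_of_le Real.pi_pos.le] at hx
      have e : |0 - x| = x := by rw [zero_sub, abs_neg, abs_of_pos hx.1]
      show x ^ a = dc 0 x ^ a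
      rw [dc_eq_abs (by rw [e]; exact hx.2), e]
  have h2 := (IntervalIntegrable.iff_comp_neg (by simp)).1 h1
  rw [neg_zero] at h2
  refine (h2.congr fun x _ => ?_).symm.trans h1
  show dc 0 (-x) ^ a = dc 0 x ^ a
  rw [dc_comm 0 x]
  simp [dc]

/-- Powers of the distance are integrable, uniformly in the centre. -/
lemma int_dc {a : ℝ} (ha : -1 < a) (t : ℝ) : Integrable (fun v => dc t v ^ a) nu ∧
    ∫ v, dc t v ^ a ∂nu = ∫ v in (-π)..π, dc 0 v ^ a := by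
  have hp : Function.Periodic (fun v => dc t v ^ a) (2 * π) := fun v => by
    simpa using congrArg (· ^ a) (dc_add_right t v 1)
  have e : (fun v => dc t v ^ a) = fun v => dc 0 (v - t) ^ a := by
    funext v
    simp [dc]
  have e2 : -π + t + 2 * π = π + t := by ring
  constructor
  · refine (intervalIntegrable_iff_integrableOn_Ioc_of_le Real.two_pi_pos.le).1
      (hp.intervalIntegrable (t := -π + t) Real.two_pi_pos.ne' ?_ _ _)
    rw [e2, e]
    exact (ii0 ha).comp_sub_right t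
  · rw [← intervalIntegral.integral_of_le Real.two_pi_pos.le]
    have := hp.intervalIntegral_add_eq 0 (-π + t)
    rw [zero_add, e2] at this
    rw [this, e, intervalIntegral.integral_comp_sub_right (fun v => dc 0 v ^ a) t]
    simp

variable {j : ℝ} {γ : ℝ → ℂ}

lemma ae_ne (h : Nc j γ) (t : ℝ) : ∀ᵐ v ∂nu, γ t ≠ γ v := by
  filter_upwards [(countable_range fun k : ℤ => t + k * (2 * π)).ae_notMem nu] with v hv e
  obtain ⟨k, hk⟩ := h.inj e
  exact hv ⟨k, hk.symm⟩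

lemma c0_pos {s t : ℝ} (e : γ s ≠ γ t) : 0 < c0 γ s t := norm_pos_iff.2 (sub_ne_zero.2 e)

lemma pw (h : Nc j γ) {s t : ℝ} (e : γ s ≠ γ t) :
    c0 γ s t ^ (-(1 / 4) : ℝ) ≤ j * dc s t ^ (-(1 / 4) : ℝ) := by
  have d0 : 0 < dc s t := (c0_pos e).trans_le (h.c0_le s t)
  have j0 := h.pos
  have h1 : dc s t / j ≤ c0 γ s t := by
    rw [div_le_iff₀' j0]
    exact h.arc s t
  refine (Real.rpow_le_rpow_of_nonpos (by positivity) h1 (by norm_num)).trans ?_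
  rw [Real.div_rpow d0.le j0.le, Real.rpow_neg j0.le, div_inv_eq_mul, mul_comm]
  gcongr
  simpa using Real.rpow_le_rpow_of_exponent_le h.one_le (show (1 / 4 : ℝ) ≤ 1 by norm_num)

/-- Crude bounds for the kernels. -/
lemma kb (hKR : St_KR) (j : ℝ) : ∃ C, 0 ≤ C ∧ ∀ o, ∃ K, 0 ≤ K ∧ ∀ γ, Nc j γ →
    ∀ (μ : ℂ) (T s t : ℝ), 1 ≤ ‖μ‖ → ‖μ‖ ≤ o → 0 < T → (2 * T)⁻¹ < μ.re → γ s ≠ γ t →
    ‖fS μ γ s t‖ ≤ K * dc s t ^ (-(1 / 4) : ℝ) ∧ ‖fKb μ γ s t‖ ≤ K * dc s t ^ (-(1 / 4) : ℝ) ∧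
    ‖fK μ γ s t‖ ≤ K ∧ ‖fKn μ γ s t‖ ≤ K ∧ ‖fSb μ γ s t‖ ≤ K ∧ ‖fS1 μ γ s t‖ ≤ K ∧
    ‖fK μ γ s t‖ ≤ C * ((1 + √(o * c0 γ s t)) * Real.exp (-(c0 γ s t / (2 * T)))) ∧
    ∀ e > 0, e ≤ dc s t → ‖fNn μ γ s t‖ ≤ K / e ^ 2 := by
  obtain ⟨C, hC⟩ := hKR j
  refine ⟨|C|, abs_nonneg C, fun o => ?_⟩
  obtain ⟨S, hS⟩ : ∃ S, S = 1 + √(|o| * π) := ⟨_, rfl⟩
  have S0 : 0 ≤ S := by rw [hS]; positivity
  have p0 := Real.pi_pos
  have ca := abs_nonneg C
  have oa := abs_nonneg o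
  have ja := abs_nonneg j
  refine ⟨|C| * |j| + |C| * (|o| ^ 3 * |j|) + |C| * S + |C| * (|o| * S) + |C| * (|o| * π * S) +
    |C| * (π ^ 2 * S) + |C| * (j ^ 2 * S * (1 + |o| * π ^ 3)), by positivity,
    fun γ h μ T s t h1 h2 T0 h3 ne => ?_⟩
  have r0 : 0 < μ.re := lt_trans (by positivity) h3
  obtain ⟨-, k1, k2, k3, -, k4, k5, k6, k7⟩ := hC γ h μ s t h1 r0 ne
  have c0' := c0_pos ne
  have cp : c0 γ s t ≤ π := (h.c0_le s t).trans (dc_le_pi s t)
  have hw := pw h ne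
  have e1 : Real.exp (-(μ.re * c0 γ s t)) ≤ 1 := Real.exp_le_one_iff.2 (by
    have := mul_pos r0 c0'
    linarith)
  have cl := le_abs_self C
  have jl := le_abs_self j
  have j0 := h.pos
  have ol : ‖μ‖ ≤ |o| := h2.trans (le_abs_self o)
  have w0 : 0 ≤ dc s t ^ (-(1 / 4) : ℝ) := Real.rpow_nonneg (dc_nonneg s t) _
  have s1 : 1 + √(‖μ‖ * c0 γ s t) ≤ S := by rw [hS]; gcongr
  have s2 : √(‖μ‖ * c0 γ s t) ≤ S := by linarith
  have q1 : 0 ≤ |C| * |j| := by positivity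
  have q2 : 0 ≤ |C| * (|o| ^ 3 * |j|) := by positivity
  have q3 : 0 ≤ |C| * S := by positivity
  have q4 : 0 ≤ |C| * (|o| * S) := by positivity
  have q5 : 0 ≤ |C| * (|o| * π * S) := by positivity
  have q6 : 0 ≤ |C| * (π ^ 2 * S) := by positivity
  have q7 : 0 ≤ |C| * (j ^ 2 * S * (1 + |o| * π ^ 3)) := by positivity
  refine ⟨?_, ?_, ?_, ?_, ?_, ?_, ?_, fun e e0 he => ?_⟩
  · calc _ ≤ _ := k1
      _ ≤ |C| * (|j| * dc s t ^ (-(1 / 4) : ℝ)) * 1 := by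
        gcongr
        exact hw.trans (by gcongr)
      _ = |C| * |j| * dc s t ^ (-(1 / 4) : ℝ) := by ring
      _ ≤ _ := by gcongr; linarith
  · calc _ ≤ _ := k4
      _ ≤ |C| * (|o| ^ 3 * (|j| * dc s t ^ (-(1 / 4) : ℝ))) * 1 := by
        gcongr
        exact hw.trans (by gcongr)
      _ = |C| * (|o| ^ 3 * |j|) * dc s t ^ (-(1 / 4) : ℝ) := by ring
      _ ≤ _ := by gcongr; linarith
  · calc _ ≤ _ := k2
      _ ≤ |C| * S * 1 := by gcongr
      _ ≤ _ := by linarith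
  · calc _ ≤ _ := k3
      _ ≤ |C| * (|o| * S) * 1 := by gcongr
      _ ≤ _ := by linarith
  · calc _ ≤ _ := k5
      _ ≤ |C| * (|o| * π * S) * 1 := by gcongr
      _ ≤ _ := by linarith
  · calc _ ≤ _ := k6
      _ ≤ |C| * (π ^ 2 * S) * 1 := by gcongr
      _ ≤ _ := by linarith
  · calc _ ≤ _ := k2
      _ ≤ |C| * (1 + √(o * c0 γ s t)) * Real.exp (-(c0 γ s t / (2 * T))) := by
        gcongr
        rw [div_eq_inv_mul]
        gcongr
      _ = _ := mul_assoc _ _ _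
  · have h4 : e / j ≤ c0 γ s t := by
      rw [div_le_iff₀' j0]
      exact he.trans (h.arc s t)
    calc _ ≤ _ := k7
      _ ≤ |C| * (((e / j) ^ 2)⁻¹ * S * (1 + |o| * π ^ 3)) * 1 := by gcongr
      _ = |C| * (j ^ 2 * S * (1 + |o| * π ^ 3)) / e ^ 2 := by field_simp
      _ ≤ _ := by gcongr; linarith

/-- The integrand of the first term. -/
def F0 (μ : ℂ) (γ : ℝ → ℂ) (t u v : ℝ) : ℂ :=
  fS μ γ t v * fKb μ γ v u + fSb μ γ t v * fK μ γ v u + fS1 μ γ t v * fKn μ γ v u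

lemma ro0 (μ : ℂ) (t u : ℝ) : ro μ γ 0 t u = ∫ v, F0 μ γ t u v ∂nu := ii _

lemma ro1 (μ : ℂ) (n : ℕ) (t u : ℝ) :
    ro μ γ (n + 1) t u = ∫ v, ro μ γ n t v * fK μ γ v u ∂nu := ii _

lemma mL {k : ℂ → ℝ → ℝ → ℂ} (h : Measurable fun p : ℂ × ℝ × ℝ => k p.1 p.2.1 p.2.2) :
    Measurable fun x : (ℂ × ℝ × ℝ) × ℝ => k x.1.1 x.1.2.1 x.2 :=
  h.comp (f := fun x : (ℂ × ℝ × ℝ) × ℝ => (x.1.1, x.1.2.1, x.2)) (by fun_prop)

lemma mR {k : ℂ → ℝ → ℝ → ℂ} (h : Measurable fun p : ℂ × ℝ × ℝ => k p.1 p.2.1 p.2.2) :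
    Measurable fun x : (ℂ × ℝ × ℝ) × ℝ => k x.1.1 x.2 x.1.2.2 :=
  h.comp (f := fun x : (ℂ × ℝ × ℝ) × ℝ => (x.1.1, x.2, x.1.2.2)) (by fun_prop)

lemma mF0 (hKD : St_KD) (h : Nc j γ) :
    Measurable fun x : (ℂ × ℝ × ℝ) × ℝ => F0 x.1.1 γ x.1.2.1 x.1.2.2 x.2 := by
  obtain ⟨⟨a1, a2, a3, a4, a5, a6, -⟩, -⟩ := hKD j γ h
  exact (((mL (k := fun μ => fS μ γ) a1.1).mul (mR (k := fun μ => fKb μ γ) a4.1)).add
    ((mL (k := fun μ => fSb μ γ) a5.1).mul (mR (k := fun μ => fK μ γ) a2.1))).add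
    ((mL (k := fun μ => fS1 μ γ) a6.1).mul (mR (k := fun μ => fKn μ γ) a3.1))

lemma mro (hKD : St_KD) (h : Nc j γ) (n : ℕ) :
    Measurable fun p : ℂ × ℝ × ℝ => ro p.1 γ n p.2.1 p.2.2 := by
  induction n with
  | zero =>
    simp only [ro0]
    exact (mF0 hKD h).stronglyMeasurable.integral_prod_right'.measurable
  | succ n ih =>
    simp only [ro1]
    exact ((mL (k := fun μ => ro μ γ n) ih).mul
      (mR (k := fun μ => fK μ γ) (hKD j γ h).1.2.1.1)).stronglyMeasurable.integral_prod_right'.measurable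

lemma pro (hKD : St_KD) (h : Nc j γ) (μ : ℂ) (n : ℕ) : ∀ s t,
    ro μ γ n (s + 2 * π) t = ro μ γ n s t ∧ ro μ γ n s (t + 2 * π) = ro μ γ n s t := by
  obtain ⟨⟨a1, a2, a3, a4, a5, a6, -⟩, -⟩ := hKD j γ h
  induction n with
  | zero =>
    intro s t
    simp only [ro0, F0, fun s t => (a1.2.1 μ s t).1, fun s t => (a5.2.1 μ s t).1,
      fun s t => (a6.2.1 μ s t).1, fun s t => (a2.2.1 μ s t).2, fun s t => (a3.2.1 μ s t).2,
      fun s t => (a4.2.1 μ s t).2, and_self]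
  | succ n ih =>
    intro s t
    simp only [ro1, fun s t => (ih s t).1, fun s t => (a2.2.1 μ s t).2, and_self]

lemma sec {f : (ℂ × ℝ × ℝ) × ℝ → ℂ} (h : Measurable f) (p : ℂ × ℝ × ℝ) :
    AEStronglyMeasurable (fun v => f (p, v)) nu :=
  (h.comp measurable_prodMk_left).aestronglyMeasurable

/-- Holomorphy and geometric decay of the terms. -/
lemma terms (hKR : St_KR) (hKD : St_KD) (hCR : St_CR) (hHI : St_HI) (j : ℝ) {q : ℕ} (hq : 1 ≤ q) :
    ∃ h0, ∀ h, h0 ≤ h → ∀ γ, Nc j γ → IsOpen (DD q h) ∧ DD q h ⊆ {μ | 0 < μ.re} ∧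
      ∃ B K, (∀ μ ∈ DD q h, ∀ s t, ∀ e > 0, e ≤ dc s t → ‖fNn μ γ s t‖ ≤ K / e ^ 2) ∧ ∀ n t u,
        DifferentiableOn ℂ (fun μ => ro μ γ n t u) (DD q h) ∧
        ∀ μ ∈ DD q h, ‖ro μ γ n t u‖ ≤ B * (1 / 4) ^ n := by
  obtain ⟨C, C0, hC⟩ := kb hKR j
  obtain ⟨R, h1, hR⟩ := hCR j q hq
  refine ⟨max h1 (max 2 (4 * (C * |R|))), fun h hh γ hγ => ?_⟩
  have h2 : 2 ≤ h := ((le_max_left _ _).trans (le_max_right _ _)).trans hh
  have h3 : 4 * (C * |R|) ≤ h := ((le_max_right _ _).trans (le_max_right _ _)).trans hh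
  have hR := (hR h ((le_max_left _ _).trans hh) γ hγ).2
  obtain ⟨K, K0, hK⟩ := hC (om q h)
  have T0 : 0 < Tt q h := by unfold Tt; positivity
  have op : IsOpen (DD q h) :=
    (isOpen_lt continuous_const continuous_re).inter (isOpen_lt continuous_norm continuous_const)
  have sb : DD q h ⊆ {μ | 0 < μ.re} := fun μ hμ => lt_trans (by positivity) hμ.1
  have kk := fun μ (hμ : μ ∈ DD q h) s t => hK γ hγ μ (Tt q h) s t (by
    refine le_trans ?_ (hμ.1.le.trans (re_le_norm μ))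
    have : h ≤ h ^ (q + 2) := le_self_pow₀ (by linarith) (by omega)
    rw [Tt, mul_inv, inv_inv]
    linarith) hμ.2.le T0 hμ.1
  obtain ⟨⟨a1, a2, a3, a4, a5, a6, -⟩, -⟩ := hKD j γ hγ
  have ha : (-1 : ℝ) < -(1 / 2) := by norm_num
  refine ⟨op, sb, K ^ 2 * (2 * (∫ v in (-π)..π, dc 0 v ^ (-(1 / 2) : ℝ)) + 2 * (2 * π)), K,
    fun μ hμ s t e e0 he => (kk μ hμ s t fun e' => ?_).2.2.2.2.2.2.2 e e0 he, fun n => ?_⟩
  · have := hγ.arc s t
    rw [e', sub_self, norm_zero, mul_zero] at this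
    linarith
  generalize hB : K ^ 2 * (2 * (∫ v in (-π)..π, dc 0 v ^ (-(1 / 2) : ℝ)) + 2 * (2 * π)) = B
  induction n with
  | zero =>
    intro t u
    have gi : Integrable (fun v => K ^ 2 * (dc t v ^ (-(1 / 2) : ℝ) + dc u v ^ (-(1 / 2) : ℝ) + 2))
        nu := (((int_dc ha t).1.add (int_dc ha u).1).add (integrable_const 2)).const_mul _
    have gb : ∀ᵐ v ∂nu, DifferentiableOn ℂ (fun μ => F0 μ γ t u v) (DD q h) ∧ ∀ μ ∈ DD q h,
        ‖F0 μ γ t u v‖ ≤ K ^ 2 * (dc t v ^ (-(1 / 2) : ℝ) + dc u v ^ (-(1 / 2) : ℝ) + 2) := by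
      filter_upwards [ae_ne hγ t, ae_ne hγ u] with v n1 n2
      refine ⟨((((a1.2.2 t v n1).mul (a4.2.2 v u n2.symm)).add ((a5.2.2 t v n1).mul
        (a2.2.2 v u n2.symm))).add ((a6.2.2 t v n1).mul (a3.2.2 v u n2.symm))).mono sb,
        fun μ hμ => ?_⟩
      obtain ⟨k1, -, -, -, k5, k6, -⟩ := kk μ hμ t v n1
      obtain ⟨-, k2, k3, k4, -⟩ := kk μ hμ v u n2.symm
      rw [dc_comm v u] at k2
      have sq : ∀ x : ℝ, 0 ≤ x → x ^ (-(1 / 2) : ℝ) = (x ^ (-(1 / 4) : ℝ)) ^ 2 := fun x hx => by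
        rw [← Real.rpow_natCast, ← Real.rpow_mul hx]
        norm_num
      rw [sq _ (dc_nonneg t v), sq _ (dc_nonneg u v)]
      have w1 := Real.rpow_nonneg (dc_nonneg t v) (-(1 / 4) : ℝ)
      have w2 := Real.rpow_nonneg (dc_nonneg u v) (-(1 / 4) : ℝ)
      generalize dc t v ^ (-(1 / 4) : ℝ) = x at *
      generalize dc u v ^ (-(1 / 4) : ℝ) = y at *
      calc _ ≤ ‖fS μ γ t v‖ * ‖fKb μ γ v u‖ + ‖fSb μ γ t v‖ * ‖fK μ γ v u‖ +
            ‖fS1 μ γ t v‖ * ‖fKn μ γ v u‖ := by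
            simpa only [norm_mul, F0] using norm_add₃_le (a := fS μ γ t v * fKb μ γ v u)
              (b := fSb μ γ t v * fK μ γ v u) (c := fS1 μ γ t v * fKn μ γ v u)
        _ ≤ K * x * (K * y) + K * K + K * K := by gcongr
        _ = K ^ 2 * (x * y + 2) := by ring
        _ ≤ _ := by gcongr; nlinarith [sq_nonneg (x - y), mul_nonneg w1 w2]
    simp only [ro0]
    refine ⟨fun μ hμ => (hHI ℝ nu (fun μ v => F0 μ γ t u v) _ _ op gi
      (fun ζ _ => sec (mF0 hKD hγ) (ζ, t, u)) gb μ hμ).differentiableAt.differentiableWithinAt,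
      fun μ hμ => (norm_integral_le_of_norm_le gi (gb.mono fun v hv => hv.2 μ hμ)).trans_eq ?_⟩
    have i2 : Integrable (fun v => dc t v ^ (-(1 / 2) : ℝ) + dc u v ^ (-(1 / 2) : ℝ)) nu :=
      (int_dc ha t).1.add (int_dc ha u).1
    rw [integral_const_mul, integral_add i2 (integrable_const 2),
      integral_add (int_dc ha t).1 (int_dc ha u).1, (int_dc ha t).2, (int_dc ha u).2, ← hB]
    simp only [integral_const, smul_eq_mul, pow_zero, mul_one]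
    rw [show nu.real univ = 2 * π by simp [Real.pi_pos.le]]
    ring
  | succ n ih =>
    intro t u
    have gc : Continuous fun v => (1 + √(om q h * c0 γ u v)) *
        Real.exp (-(c0 γ u v / (2 * Tt q h))) := by
      have := hγ.smooth.continuous
      unfold c0
      fun_prop
    have gi : Integrable (fun v => |B| * (1 / 4) ^ n * (C * ((1 + √(om q h * c0 γ u v)) *
        Real.exp (-(c0 γ u v / (2 * Tt q h)))))) nu :=
      ((gc.integrableOn_Ioc).const_mul _).const_mul _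
    have gb : ∀ᵐ v ∂nu, DifferentiableOn ℂ (fun μ => ro μ γ n t v * fK μ γ v u) (DD q h) ∧
        ∀ μ ∈ DD q h, ‖ro μ γ n t v * fK μ γ v u‖ ≤ |B| * (1 / 4) ^ n *
          (C * ((1 + √(om q h * c0 γ u v)) * Real.exp (-(c0 γ u v / (2 * Tt q h))))) := by
      filter_upwards [ae_ne hγ u] with v n2
      refine ⟨(ih t v).1.mul ((a2.2.2 v u n2.symm).mono sb), fun μ hμ => ?_⟩
      have k := (kk μ hμ v u n2.symm).2.2.2.2.2.2.1
      rw [show c0 γ v u = c0 γ u v from norm_sub_rev _ _] at k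
      rw [norm_mul]
      exact mul_le_mul (((ih t v).2 μ hμ).trans (by gcongr; exact le_abs_self B)) k
        (norm_nonneg _) (by positivity)
    simp only [ro1]
    refine ⟨fun μ hμ => (hHI ℝ nu (fun μ v => ro μ γ n t v * fK μ γ v u) _ _ op gi
      (fun ζ _ => sec ((mL (k := fun μ => ro μ γ n) (mro hKD hγ n)).mul
        (mR (k := fun μ => fK μ γ) a2.1)) (ζ, t, u))
      gb μ hμ).differentiableAt.differentiableWithinAt,
      fun μ hμ => (norm_integral_le_of_norm_le gi (gb.mono fun v hv => hv.2 μ hμ)).trans ?_⟩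
    have B0 : 0 ≤ B := by simpa using (norm_nonneg _).trans ((ih t u).2 μ hμ)
    rw [integral_const_mul, integral_const_mul,
      ← intervalIntegral.integral_of_le Real.two_pi_pos.le, abs_of_nonneg B0, pow_succ,
      ← mul_assoc B]
    gcongr
    have h4 : h ≤ h ^ 3 := le_self_pow₀ (by linarith) (by omega)
    calc _ ≤ C * (|R| / h ^ 3) := by
          gcongr
          exact (hR u).trans (by gcongr; exact le_abs_self R)
      _ ≤ _ := by
          rw [← mul_div_assoc, div_le_iff₀ (by positivity)]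
          linarith

end NH

open NH in
theorem st_nh (hKR : St_KR) (hKD : St_KD) (hCR : St_CR) (hHI : St_HI) : St_NH := by
  intro j
  refine ⟨fun γ h => ⟨mro hKD h, ?_, pro hKD h, fun μ s t => ?_⟩, fun q hq => ?_⟩
  · exact ((hKD j γ h).1.2.2.2.2.2.2.1.const_mul 2).add
      (Measurable.tsum fun n => (mro hKD h n).const_mul _)
  · simp only [NN, ((hKD j γ h).1.2.2.2.2.2.2.2.1 μ s t).1, ((hKD j γ h).1.2.2.2.2.2.2.2.1 μ s t).2,
      fun n => (pro hKD h μ n s t).1, fun n => (pro hKD h μ n s t).2, and_self]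
  obtain ⟨h0, H⟩ := terms hKR hKD hCR hHI j hq
  refine ⟨h0, fun h hh γ hγ => ?_⟩
  obtain ⟨op, sb, B, K, hK, hB⟩ := H h hh γ hγ
  have hs : Summable fun n : ℕ => 4 * B * (1 / 2 : ℝ) ^ n := summable_geometric_two.mul_left _
  have hb : ∀ (n : ℕ) s t, ∀ μ ∈ DD q h,
      ‖2 * (-2) ^ (n + 1) * ro μ γ n s t‖ ≤ 4 * B * (1 / 2 : ℝ) ^ n := by
    intro n s t μ hμ
    have e : (1 / 2 : ℝ) ^ n = 2 ^ n * (1 / 4) ^ n := by rw [← mul_pow]; norm_num
    calc _ = 4 * 2 ^ n * ‖ro μ γ n s t‖ := by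
          rw [norm_mul, norm_mul, norm_pow, norm_neg, norm_ofNat]
          ring
      _ ≤ 4 * 2 ^ n * (B * (1 / 4) ^ n) := by gcongr; exact (hB n s t).2 μ hμ
      _ = _ := by rw [e]; ring
  refine ⟨fun s t ne => ((((hKD j γ hγ).1.2.2.2.2.2.2.2.2 s t ne).mono sb).const_mul 2).add
    (differentiableOn_tsum_of_summable_norm hs (fun n => (hB n s t).1.const_mul _) op
      fun n μ hμ => hb n s t μ hμ), fun e e0 =>
    ⟨2 * (K / e ^ 2) + ∑' n : ℕ, 4 * B * (1 / 2 : ℝ) ^ n, fun μ hμ s t he => ?_⟩⟩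
  refine (norm_add_le _ _).trans (add_le_add ?_ (tsum_of_norm_bounded hs.hasSum
    fun n => hb n s t μ hμ))
  rw [norm_mul, norm_ofNat]
  gcongr
  exact hK μ hμ s t e e0 he

end Pool.Agent.Lib.IS2
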