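import Pool.Agent.Lib.IS2.BlueG
import Pool.Agent.Lib.ISO.Main

/-! Block ONE: an isospectral mate of a Jordan domain. -/

open scoped ContDiff ComplexConjugate Topology Real
open Complex MeasureTheory Set Filter

noncomputable section

namespace Pool.Agent.Lib.IS2

open Pool.Agent.Lib.ISO Pool.Agent.Lib.MP_312682_mp

theorem st_one (hINV : St_INV) (hTAME : St_TAME) (hFOU : St_FOU) (hNCE : St_NCE) : St_ONE := by
  classical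
  have h1 : ∀ m, ∃ (s : Finset (List ℕ)) (c : List ℕ → ℝ), 2 ≤ m →
      (∀ α ∈ s, wt α = 2 * m + 2 ∧ Tame (m - 1) α) ∧
      ∀ Ω Ω' (γ γ' : Fin 1 → ℝ → ℂ) L L' δ δ', Fam Ω γ L δ → Fam Ω' γ' L' δ' →
        (∀ μ, 1 ≤ μ → Ft Ω μ = Ft Ω' μ) →
        Jm m s c (L 0) (kap (γ 0)) = Jm m s c (L' 0) (kap (γ' 0)) := fun m => by
    by_cases hm : 2 ≤ m
    · obtain ⟨s, c, h⟩ := hINV m hm
      exact ⟨s, c, fun _ => h⟩
    · exact ⟨∅, 0, fun h => (hm h).elim⟩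
  choose s c hsc using h1
  obtain ⟨C, hC⟩ := Main.inv_of hFOU hTAME s c fun m hm => (hsc m hm).1
  refine ⟨C, fun Ω Ω' γ φ g hΩ hΩ' hs => ?_⟩
  obtain ⟨-, hc', hb', φ', p1, p2, p3⟩ := hΩ'
  obtain ⟨ι, _, Γ, L, g'⟩ := exists_geo hb' p1 p2 p3
  obtain ⟨δ, F1, -⟩ := Geo.fam g
  obtain ⟨δ', F2, -⟩ := g'.fam
  obtain ⟨C1, t1⟩ := trace_asym F1
  obtain ⟨C2, t2⟩ := trace_asym F2
  obtain ⟨c1, -, l1⟩ := HL_GO (Geo.bdd g)
  obtain ⟨c2, -, l2⟩ := HL_GO hb'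
  have eq : ∀ μ : ℝ, 1 ≤ μ → hsq (GO μ Ω) = hsq (GO μ Ω') := fun μ hμ =>
    hsq_GO_eq (by positivity) (l1 _ hμ).ne_top (l2 _ hμ).ne_top (CC_congr hs)
  obtain ⟨eA, eL, eK, -⟩ := tr4_unique t1 (by
    filter_upwards [t2, eventually_ge_atTop 1] with τ e t
    rwa [eq _ (one_le_pow₀ (n := 6) t)])
  simp only [Finset.univ_unique, Finset.sum_singleton] at eL eK
  obtain ⟨i1, o1, -⟩ := Geo.outer g hΩ.2.1.2 hΩ.2.1.1
  obtain ⟨i0, o2, o3⟩ := g'.outer hc'.2 hc'.1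
  have one : ∀ i, i = i0 := fun i => by
    by_contra hi
    rw [o1, ← Finset.add_sum_erase _ _ (Finset.mem_univ i0), o2,
      Finset.sum_congr rfl fun j hj => o3 j (Finset.ne_of_mem_erase hj), Finset.sum_const,
      nsmul_eq_mul] at eK
    have : (0 : ℝ) < (Finset.univ.erase i0).card :=
      Nat.cast_pos.2 (Finset.card_pos.2 ⟨i, Finset.mem_erase.2 ⟨hi, Finset.mem_univ i⟩⟩)
    nlinarith [Real.pi_pos]
  have eL' : L i0 = 2 * π := by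
    rw [eL, Finset.sum_eq_single i0 (fun j _ hj => (hj (one j)).elim) (by simp)]
  have G' : G1 Ω' (Γ i0) φ' := ⟨fun _ => eL' ▸ g'.cv i0, fun i j _ _ _ => Subsingleton.elim i j,
    fun _ s t h => eL' ▸ g'.inj i0 s t h, g'.smooth, g'.eq, fun z => (g'.zero z).trans
      ⟨fun ⟨i, s, h⟩ => ⟨0, s, one i ▸ h⟩, fun ⟨_, s, h⟩ => ⟨i0, s, h⟩⟩, fun _ s => g'.neg i0 s, hb'⟩
  obtain ⟨δ'', F3, -⟩ := Geo.fam G'
  have kk : ∀ γ, kap γ = kp γ := fun _ => rfl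
  have hJ : ∀ m, 2 ≤ m → Jm m (s m) (c m) (2 * π) (kp γ) = Jm m (s m) (c m) (2 * π) (kp (Γ i0)) :=
    fun m hm => by
      have := (hsc m hm).2 _ _ _ _ _ _ _ _ F1 F3 fun μ hμ => by rw [Ft, Ft, eq μ hμ, eA]
      rwa [kk, kk] at this
  exact ⟨Γ i0, φ', G', eA, eq, fun B => hC _ _ (hNCE _ _ _ g).1 (hNCE _ _ _ G').1 hJ B⟩

end Pool.Agent.Lib.IS2
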