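import Pool.Agent.Lib.IS2.K28

/-! Row POI: the Dirichlet problem and the Poisson kernel. -/

open scoped ContDiff ComplexConjugate Topology Real
open Complex MeasureTheory Set Filter

noncomputable section

namespace Pool.Agent.Lib.IS2

open Pool.Agent.Lib.ISO K28

namespace POI

variable {μ : ℝ} {Ω : Set ℂ} {γ : ℝ → ℂ}

lemma har_DLo (hL : St_LAY) (h : Pot μ γ Ω) {φ : ℝ → ℝ} (hφ : CP φ) : Har μ Ω (DLo μ γ φ) :=
  har_mono ((hL μ h.pos).2 Ω γ φ h.cd hφ.1.measurable (cp_bd hφ)).2.2 (sub_compl h.cd)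

lemma base (hL : St_LAY) (hJ : St_JMP) (hN : St_NEU) (h : Pot μ γ Ω) {φ : ℝ → ℝ} (hφ : CP φ) :
    ContinuousOn (Ue μ γ Ω φ) (closure Ω) ∧ Har μ Ω (Ue μ γ Ω φ) ∧
    (∀ t, Ue μ γ Ω φ (γ t) = φ t) ∧ ∀ x ∈ Ω, Ue μ γ Ω φ x = DLo μ γ (Hop μ γ φ) x := by
  obtain ⟨hH, eH⟩ := (hN μ γ Ω h).2.2.2.2.2.2.2.2 φ hφ
  have H := har_DLo hL h hH
  have lim (s : ℝ) : Tendsto (DLo μ γ (Hop μ γ φ)) (𝓝[Ω] (γ s)) (𝓝 (φ s)) := by
    have := (hJ μ Ω γ h.pos h.cd).2 _ hH s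
    rwa [eH s] at this
  have ext := extendFrom_extends H.1.continuousOn
  refine ⟨continuousOn_extendFrom subset_rfl fun x hx => ?_, har_congr h.cd.opn H ext,
    fun t => extendFrom_eq (mem_cl h.cd t) (lim t), ext⟩
  rcases cl_cases h.cd hx with hx | ⟨t, rfl⟩
  · exact ⟨_, H.1.continuousOn x hx⟩
  · exact ⟨_, lim t⟩

lemma form (h3 : St_A3) (hN : St_NEU) (h : Pot μ γ Ω) {φ : ℝ → ℝ} (hφ : CP φ) {x : ℂ}
    (hx : x ∈ Ω) :
    DLo μ γ (Hop μ γ φ) x = ∫ t in (0 : ℝ)..(2 * π), ps μ γ x t * φ t := by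
  have cD := DLk_cont1 h3 h.cd h.pos (sub_compl h.cd hx)
  have cP := (hN μ γ Ω h).2.2.2.2.2.2.1
  have cφ := hφ.1
  have c1 : Continuous (Function.uncurry fun u t => DLk μ γ x u * Ph μ γ u t * φ t) :=
    ((cD.comp continuous_fst).mul cP).mul (cφ.comp continuous_snd)
  have i1 : Continuous fun u => ∫ t in (0 : ℝ)..(2 * π), DLk μ γ x u * Ph μ γ u t * φ t :=
    intervalIntegral.continuous_parametric_intervalIntegral_of_continuous' c1 _ _
  have i2 : Continuous fun t => ∫ u in (0 : ℝ)..(2 * π), DLk μ γ x u * Ph μ γ u t * φ t :=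
    intervalIntegral.continuous_parametric_intervalIntegral_of_continuous'
      (f := fun t u => DLk μ γ x u * Ph μ γ u t * φ t) (((cD.comp continuous_snd).mul
        (cP.comp (f := fun p : ℝ × ℝ => (p.2, p.1)) (by fun_prop))).mul (cφ.comp continuous_fst)) _ _
  have i0 : Continuous fun t => 2 * DLk μ γ x t * φ t := by fun_prop
  calc _ = ∫ u in (0 : ℝ)..(2 * π), (2 * DLk μ γ x u * φ u +
        ∫ t in (0 : ℝ)..(2 * π), DLk μ γ x u * Ph μ γ u t * φ t) := by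
        refine intervalIntegral.integral_congr fun u _ => ?_
        simp only [Hop, mul_assoc, intervalIntegral.integral_const_mul]
        ring
    _ = _ := by
        rw [intervalIntegral.integral_add (i0.intervalIntegrable _ _) (i1.intervalIntegrable _ _),
          swap c1, ← intervalIntegral.integral_add (i0.intervalIntegrable _ _)
            (i2.intervalIntegrable _ _)]
        refine intervalIntegral.integral_congr fun t _ => ?_
        simp only [ps, intervalIntegral.integral_mul_const]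
        ring

lemma contr (hL : St_LAY) (hM : St_MAX) (hJ : St_JMP) (hN : St_NEU) (h : Pot μ γ Ω)
    {φ ψ : ℝ → ℝ} (hφ : CP φ) (hψ : CP ψ) {m : ℝ} (hm : ∀ t, |φ t - ψ t| ≤ m) :
    ∀ x ∈ closure Ω, |Ue μ γ Ω φ x - Ue μ γ Ω ψ x| ≤ m := by
  obtain ⟨c1, h1, e1, -⟩ := base hL hJ hN h hφ
  obtain ⟨c2, h2, e2, -⟩ := base hL hJ hN h hψ
  exact cmp hM h.pos h.cd c1 c2 h1 h2 fun t => by rw [e1, e2]; exact hm t

lemma abs_le (hL : St_LAY) (hM : St_MAX) (hJ : St_JMP) (hN : St_NEU) (h : Pot μ γ Ω)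
    {φ : ℝ → ℝ} (hφ : CP φ) {m : ℝ} (hm : ∀ t, |φ t| ≤ m) :
    ∀ x ∈ closure Ω, |Ue μ γ Ω φ x| ≤ m := fun x hx => by
  obtain ⟨c1, h1, e1, -⟩ := base hL hJ hN h hφ
  simpa using cmp hM h.pos h.cd c1 (continuousOn_const (c := 0)) h1 har_zero
    (fun t => by rw [e1, sub_zero]; exact hm t) x hx

lemma nonneg (hL : St_LAY) (hM : St_MAX) (hJ : St_JMP) (hN : St_NEU) (h : Pot μ γ Ω)
    {φ : ℝ → ℝ} (hφ : CP φ) (hm : ∀ t, 0 ≤ φ t) : ∀ x ∈ closure Ω, 0 ≤ Ue μ γ Ω φ x := fun x hx => by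
  obtain ⟨c1, h1, e1, -⟩ := base hL hJ hN h hφ
  simpa using le_of_bd hM h.pos h.cd c1.neg (har_neg h.cd.opn h1) le_rfl
    (fun t => by simpa [e1] using hm t) x hx

lemma joint (hL : St_LAY) (hM : St_MAX) (hJ : St_JMP) (hN : St_NEU) (h : Pot μ γ Ω)
    {X : Type} [TopologicalSpace X] {S : Set X} {F : X → ℝ → ℝ}
    (hF : ContinuousOn (Function.uncurry F) (S ×ˢ univ))
    (hp : ∀ y ∈ S, Function.Periodic (F y) (2 * π)) :
    ContinuousOn (fun p : ℂ × X => Ue μ γ Ω (F p.2) p.1) (closure Ω ×ˢ S) := by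
  have cp (y) (hy : y ∈ S) : CP (F y) :=
    ⟨hF.comp_continuous (f := fun t => (y, t)) (by fun_prop) fun t => ⟨hy, mem_univ _⟩, hp y hy⟩
  rintro ⟨x0, y0⟩ ⟨hx0, hy0⟩
  refine Metric.tendsto_nhds.2 fun ε hε => ?_
  obtain ⟨V, hV, hV'⟩ := (isCompact_Icc (a := (0 : ℝ)) (b := 2 * π)).mem_uniformity_of_prod
    (hF.mono (prod_mono_right (subset_univ _))) hy0 (Metric.dist_mem_uniformity (half_pos hε))
  have c0 := Metric.tendsto_nhds.1 ((base hL hJ hN h (cp y0 hy0)).1 x0 hx0) _ (half_pos hε)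
  rw [nhdsWithin_prod_eq]
  filter_upwards [prod_mem_prod (inter_mem c0 self_mem_nhdsWithin)
    (inter_mem hV self_mem_nhdsWithin)] with p hp'
  obtain ⟨⟨a1, a2⟩, a3, a4⟩ := hp'
  have b := contr hL hM hJ hN h (cp _ a4) (cp _ hy0) (m := ε / 2) (fun t => by
    obtain ⟨s, hs, e⟩ := cp_red (φ := fun t => F p.2 t - F y0 t)
      (fun t => by simp only [hp _ a4 t, hp _ hy0 t]) t
    rw [e]
    exact le_of_lt (hV' _ a3 s hs)) p.1 a2
  calc _ ≤ dist (Ue μ γ Ω (F p.2) p.1) (Ue μ γ Ω (F y0) p.1) +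
        dist (Ue μ γ Ω (F y0) p.1) (Ue μ γ Ω (F y0) x0) := dist_triangle _ _ _
    _ < ε / 2 + ε / 2 := add_lt_add_of_le_of_lt b a1
    _ = ε := add_halves ε

lemma cpK (hN : St_NEU) (h : Pot μ γ Ω) (v : ℝ) : CP fun u => Kr μ γ u v :=
  ⟨(hN μ γ Ω h).1.comp (f := fun u => (u, v)) (by fun_prop), fun u => ((hN μ γ Ω h).2.1 u v).1⟩

lemma psK (hL : St_LAY) (hJ : St_JMP) (hN : St_NEU) (h : Pot μ γ Ω) {x : ℂ} (hx : x ∈ Ω) (v : ℝ) :
    ps μ γ x v = 2 * DLk μ γ x v - 2 * Ue μ γ Ω (fun u => Kr μ γ u v) x := by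
  rw [(base hL hJ hN h (cpK hN h v)).2.2.2 x hx, ps, DLo, sub_eq_add_neg, ← neg_mul,
    ← intervalIntegral.integral_const_mul]
  congr 1
  refine intervalIntegral.integral_congr fun u _ => ?_
  simp only [Hop]
  rw [((hN μ γ Ω h).2.2.2.2.2.2.2.1 u v).2.2.2]
  ring

end POI

open POI in
theorem st_poi (h3 : St_A3) (hL : St_LAY) (hM : St_MAX) (hJ : St_JMP) (hN : St_NEU) : St_POI := by
  intro μ γ Ω h
  have cγ := h.cd.smooth.continuous
  have cE : ContinuousOn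
      (fun p : ℂ × ℝ => 2 * DLk μ γ p.1 p.2 - 2 * Ue μ γ Ω (fun u => Kr μ γ u p.2) p.1)
      {p | p.1 ∈ closure Ω ∧ p.1 ≠ γ p.2} :=
    (continuousOn_const.mul ((DLk_cont h3 h.cd h.pos).mono fun p hp => hp.2)).sub
      (continuousOn_const.mul ((joint hL hM hJ hN h (S := univ) (F := fun v u => Kr μ γ u v)
        ((hN μ γ Ω h).1.comp continuous_swap).continuousOn fun v _ => (cpK hN h v).2).mono
        fun p hp => ⟨hp.1, mem_univ _⟩))
  have cP : ContinuousOn (Function.uncurry (ps μ γ)) (Ω ×ˢ univ) :=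
    (cE.mono fun p hp => ⟨subset_closure hp.1, ne_curve h.cd hp.1 _⟩).congr
      fun p hp => psK hL hJ hN h hp.1 p.2
  have cp (x) (hx : x ∈ Ω) : CP (ps μ γ x) :=
    ⟨cP.comp_continuous (f := fun t => (x, t)) (by fun_prop) fun t => ⟨hx, mem_univ _⟩, fun t => by
      simp only [ps, DLk_per h.cd μ x t, fun u => ((hN μ γ Ω h).2.2.2.2.2.2.2.1 u t).2.1]⟩
  have fm {φ} (hφ : CP φ) (x) (hx : x ∈ Ω) :
      Ue μ γ Ω φ x = ∫ t in (0 : ℝ)..(2 * π), ps μ γ x t * φ t :=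
    ((base hL hJ hN h hφ).2.2.2 x hx).trans (form h3 hN h hφ hx)
  refine ⟨fun φ hφ => ?_, fun u cu hu x hx => ?_, fun X _ S F hF hp => joint hL hM hJ hN h hF hp,
    ?_, cP, fun v => ?_, ?_, cE, fun x hx => ⟨cp x hx, fun t => ?_, ?_, psK hL hJ hN h hx⟩⟩
  · obtain ⟨a, b, c, d⟩ := base hL hJ hN h hφ
    exact ⟨a, b, c, fun x hx => ⟨d x hx, fm hφ x hx⟩, fun ψ m hψ hm => contr hL hM hJ hN h hφ hψ hm⟩
  · have hφ : CP fun t => u (γ t) :=
      ⟨cu.comp_continuous cγ (mem_cl h.cd), fun t => by simp only [h.cd.per t]⟩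
    obtain ⟨a, b, c, -⟩ := base hL hJ hN h hφ
    exact sub_eq_zero.1 (abs_nonpos_iff.1 (cmp hM h.pos h.cd cu a hu b (m := 0)
      (fun t => by rw [c, sub_self, abs_zero]) x hx))
  · have mD := DLk_meas h3 h.cd μ
    have mP := (hN μ γ Ω h).2.2.2.2.2.2.1.measurable
    have m1 : Measurable fun q : (ℂ × ℝ) × ℝ => DLk μ γ q.1.1 q.2 * Ph μ γ q.2 q.1.2 :=
      (mD.comp (f := fun q : (ℂ × ℝ) × ℝ => (q.1.1, q.2)) (by fun_prop)).mul
        (mP.comp (f := fun q : (ℂ × ℝ) × ℝ => (q.2, q.1.2)) (by fun_prop))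
    have m2 := (m1.stronglyMeasurable.integral_prod_right'
      (ν := volume.restrict (Ioc (0 : ℝ) (2 * π)))).measurable
    have e : Function.uncurry (ps μ γ) = fun p : ℂ × ℝ => 2 * DLk μ γ p.1 p.2 +
        ∫ u in Ioc (0 : ℝ) (2 * π), DLk μ γ p.1 u * Ph μ γ u p.2 := funext fun p => by
      rw [← intervalIntegral.integral_of_le two_pi]; rfl
    rw [e]
    exact (mD.const_mul 2).add m2
  · exact har_congr h.cd.opn (har_lin h.cd.opn (har_mono (har_DLk hL h.pos v)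
      fun x hx => ne_curve h.cd hx v) (base hL hJ hN h (cpK hN h v)).2.1 2 (-2))
      fun x hx => by rw [psK hL hJ hN h hx]; ring
  · obtain ⟨M, M0, hM'⟩ := DLk_bd h3 h.cd h.pos
    obtain ⟨C, hC⟩ := (hN μ γ Ω h).2.2.2.2.1
    have hK (s t) : |Kr μ γ s t| ≤ C := by simpa [Kp] using hC 0 s t
    have C0 : 0 ≤ C := (abs_nonneg _).trans (hK 0 0)
    refine ⟨2 * (M + C), fun x hx t => ?_⟩
    have a := (_root_.abs_le.1 (hM' x t)).2
    have b := (_root_.abs_le.1 (abs_le hL hM hJ hN h (cpK hN h t) (fun s => hK s t) x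
      (subset_closure hx))).1
    have c : 0 ≤ ‖x - γ t‖⁻¹ := by positivity
    rw [psK hL hJ hN h hx]
    nlinarith [mul_nonneg C0 c]
  · by_contra hn
    obtain ⟨c, p⟩ := cp x hx
    have hφ : CP fun s => max (-ps μ γ x s) 0 := ⟨by fun_prop, fun s => by simp only [p s]⟩
    have a := nonneg hL hM hJ hN h hφ (fun s => le_max_right _ _) x (subset_closure hx)
    rw [fm hφ x hx] at a
    obtain ⟨s, hs, e⟩ := cp_red p t
    rw [e, not_le] at hn
    have := intervalIntegral.integral_lt_integral_of_continuousOn_of_le_of_exists_lt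
      (f := fun s => ps μ γ x s * max (-ps μ γ x s) 0) (g := fun _ => 0) Real.two_pi_pos
      (by fun_prop) continuousOn_const (fun s _ => by
        rcases le_total 0 (ps μ γ x s) with k | k
        · simp [max_eq_right (neg_nonpos.2 k)]
        · exact mul_nonpos_of_nonpos_of_nonneg k (le_max_right _ _))
      ⟨s, hs, mul_neg_of_neg_of_pos hn (lt_max_of_lt_left (neg_pos.2 hn))⟩
    simp only [intervalIntegral.integral_zero] at this
    linarith
  · have hφ : CP fun _ => 1 := ⟨continuous_const, fun _ => rfl⟩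
    have a := (_root_.abs_le.1 (abs_le hL hM hJ hN h hφ (m := 1) (fun _ => by simp) x
      (subset_closure hx))).2
    simpa [fm hφ x hx] using a

end Pool.Agent.Lib.IS2
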