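import Pool.Agent.Lib.IS2.Blue
import Pool.Agent.Lib.MP_0281e9_an.TurSm

/-! Row `QS`: the kernel `qq` is smooth; Taylor expansions along a curve. -/

open scoped ContDiff ComplexConjugate Topology Real
open Complex MeasureTheory Set Filter

noncomputable section

namespace Pool.Agent.Lib.IS2

open Pool.Agent.Lib.ISO

namespace QS

theorem rdot_eq (a b : ℂ) : rdot a b = a.re * b.re + a.im * b.im := by simp [rdot]

theorem rdot_le (a b : ℂ) : |rdot a b| ≤ ‖a‖ * ‖b‖ :=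
  (abs_re_le_norm _).trans (by rw [norm_mul, norm_conj])

theorem rdot_self (a : ℂ) : rdot a a = ‖a‖ ^ 2 := by
  rw [rdot_eq, Complex.sq_norm, normSq_apply]

theorem rdot_der {f g : ℝ → ℂ} {a b : ℂ} {x : ℝ} (hf : HasDerivAt f a x) (hg : HasDerivAt g b x) :
    HasDerivAt (fun x => rdot (f x) (g x)) (rdot a (g x) + rdot (f x) b) x := by
  have h := reCLM.hasFDerivAt.comp_hasDerivAt x
    (hf.mul (conjCLE.hasFDerivAt.comp_hasDerivAt x hg))
  exact h.congr_deriv (by simp [rdot])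

/-! ### Averages along a segment -/

/-- weighted average of `g` between `u` and `v` -/
def J (w : ℝ → ℝ) (g : ℝ → ℂ) (v u : ℝ) : ℂ := ∫ x in (0 : ℝ)..1, w x • g (u + x * (v - u))

variable {w : ℝ → ℝ} {g γ : ℝ → ℂ} {v u : ℝ}

theorem J_sm (hw : ContDiff ℝ ∞ w) (hg : ContDiff ℝ ∞ g) :
    ContDiff ℝ ∞ fun p : ℝ × ℝ => J w g p.1 p.2 :=
  MP_0281e9_an.BT.contDiff_param_integral
    (G := fun q : (ℝ × ℝ) × ℝ => w q.2 • g (q.1.2 + q.2 * (q.1.1 - q.1.2))) (by fun_prop)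

theorem J_der (hw : Continuous w) (hg : ContDiff ℝ ∞ g) (v u : ℝ) :
    HasDerivAt (fun v => J w g v u) (J (fun x => w x * x) (deriv g) v u) v := by
  have h0 := hg.continuous
  have h1 : Continuous (deriv g) := hg.continuous_deriv (by simp)
  have hc : Continuous fun q : ℝ × ℝ => (w q.2 * q.2) • deriv g (u + q.2 * (q.1 - u)) := by fun_prop
  obtain ⟨C, hC⟩ := ((isCompact_closedBall v 1).prod (isCompact_uIcc (a := (0 : ℝ)) (b := 1))
    ).exists_bound_of_continuousOn hc.continuousOn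
  refine (intervalIntegral.hasDerivAt_integral_of_dominated_loc_of_deriv_le
    (F := fun v x => w x • g (u + x * (v - u)))
    (F' := fun v x => (w x * x) • deriv g (u + x * (v - u))) (bound := fun _ => C)
    (Metric.closedBall_mem_nhds v one_pos) (.of_forall fun y => ?_) ?_ ?_
    (.of_forall fun s hs y hy => hC (y, s) ⟨hy, uIoc_subset_uIcc hs⟩) intervalIntegrable_const
    (.of_forall fun s _ y _ => ?_)).2
  · exact Continuous.aestronglyMeasurable (by fun_prop)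
  · exact Continuous.intervalIntegrable (by fun_prop) _ _
  · exact Continuous.aestronglyMeasurable (by fun_prop)
  · have := ((hg.differentiable (by simp) (u + s * (y - u))).hasDerivAt.scomp y
      ((((hasDerivAt_id y).sub_const u).const_mul s).const_add u)).const_smul (w s)
    rw [mul_one, smul_smul] at this
    exact this

theorem J_bd {M : ℝ} (hw : ∀ x ∈ Icc (0 : ℝ) 1, |w x| ≤ 1) (hg : ∀ t, ‖g t‖ ≤ M) :
    ‖J w g v u‖ ≤ M := by
  have := intervalIntegral.norm_integral_le_of_norm_le_const (a := 0) (b := 1) (C := M)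
    (f := fun x => w x • g (u + x * (v - u))) fun x hx => by
      rw [uIoc_of_le zero_le_one] at hx
      rw [norm_smul, ← one_mul M]
      exact mul_le_mul (hw x ⟨hx.1.le, hx.2⟩) (hg _) (norm_nonneg _) zero_le_one
  simpa [J] using this

/-- first divided difference -/
def A (γ : ℝ → ℂ) : ℝ → ℝ → ℂ := J (fun _ => 1) (deriv γ)

/-- second divided difference -/
def B (γ : ℝ → ℂ) : ℝ → ℝ → ℂ := J (fun x => 1 - x) (deriv (deriv γ))

theorem d1 (h : ContDiff ℝ ∞ γ) : ContDiff ℝ ∞ (deriv γ) := (contDiff_infty_iff_deriv.1 h).2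

theorem seg (h : ContDiff ℝ ∞ γ) (v u x : ℝ) : HasDerivAt (fun x => γ (u + x * (v - u)))
    ((v - u) • deriv γ (u + x * (v - u))) x := by
  have := (h.differentiable (by simp) (u + x * (v - u))).hasDerivAt.scomp x
    (((hasDerivAt_id x).mul_const (v - u)).const_add u)
  rw [one_mul] at this
  exact this

theorem A_eq (h : ContDiff ℝ ∞ γ) (v u : ℝ) : γ v - γ u = (v - u) • A γ v u := by
  have h1 := (d1 h).continuous
  have := intervalIntegral.integral_eq_sub_of_hasDerivAt (a := 0) (b := 1)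
    (fun x _ => seg h v u x) (Continuous.intervalIntegrable (by fun_prop) _ _)
  rw [intervalIntegral.integral_smul] at this
  simpa [A, J] using this.symm

theorem B_eq (h : ContDiff ℝ ∞ γ) (v u : ℝ) :
    γ v - γ u = (v - u) • deriv γ u + (v - u) ^ 2 • B γ v u := by
  have h2 := (d1 (d1 h)).continuous
  have := intervalIntegral.integral_eq_sub_of_hasDerivAt (a := 0) (b := 1)
    (f := fun x => γ (u + x * (v - u)) + ((1 - x) * (v - u)) • deriv γ (u + x * (v - u)))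
    (f' := fun x => (v - u) ^ 2 • (1 - x) • deriv (deriv γ) (u + x * (v - u)))
    (fun x _ => ((seg h v u x).add ((((hasDerivAt_id x).const_sub 1).mul_const (v - u)).smul
      (seg (d1 h) v u x))).congr_deriv (by simp only [id, real_smul]; push_cast; ring))
    (Continuous.intervalIntegrable (by fun_prop) _ _)
  rw [intervalIntegral.integral_smul] at this
  rw [B, J, this]
  simp only [one_mul, add_sub_cancel, sub_self, zero_mul, zero_smul, add_zero, sub_zero]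
  ring

theorem A_diag (u : ℝ) : A γ u u = deriv γ u := by simp [A, J]

theorem B_diag (u : ℝ) : B γ u u = (1 / 2 : ℝ) • deriv (deriv γ) u := by
  simp only [B, J, sub_self, mul_zero, add_zero, intervalIntegral.integral_smul_const]
  congr 1
  rw [intervalIntegral.integral_comp_sub_left (fun x => x)]
  norm_num

theorem qq_eq (h : ContDiff ℝ ∞ γ) (h0 : A γ v u ≠ 0) :
    qq γ v u = rdot (nr γ u) (B γ v u) / rdot (A γ v u) (A γ v u) := by
  rw [rdot_self, qq]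
  split_ifs with e
  · have := A_eq h v u
    rw [e, sub_self, eq_comm, smul_eq_zero] at this
    obtain rfl := sub_eq_zero.1 (this.resolve_right h0)
    rw [A_diag, B_diag, rdot_eq, rdot_eq, smul_re, smul_im, smul_eq_mul, smul_eq_mul]
    ring
  · have h1 : v - u ≠ 0 := fun h1 => e (by rw [sub_eq_zero.1 h1])
    have e1 : rdot (-nr γ u) (γ u - γ v) = (v - u) ^ 2 * rdot (nr γ u) (B γ v u) := by
      rw [← neg_sub (γ v), B_eq h]
      simp only [rdot_eq, nr, neg_re, neg_im, add_re, add_im, smul_re, smul_im, smul_eq_mul, mul_re,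
        mul_im, I_re, I_im]
      ring
    rw [e1, norm_sub_rev, A_eq h, norm_smul, mul_pow, Real.norm_eq_abs, sq_abs,
      mul_div_mul_left _ _ (pow_ne_zero 2 h1)]

theorem rdot_sm {E : Type} [NormedAddCommGroup E] [NormedSpace ℝ E] {f g : E → ℂ}
    (hf : ContDiff ℝ ∞ f) (hg : ContDiff ℝ ∞ g) : ContDiff ℝ ∞ fun x => rdot (f x) (g x) :=
  reCLM.contDiff.comp (hf.mul (conjCLE.contDiff.comp hg))

theorem qq_at (h : ContDiff ℝ ∞ γ) (h0 : A γ v u ≠ 0) :
    ContDiffAt ℝ ∞ (Function.uncurry (qq γ)) (v, u) := by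
  have hA : ContDiff ℝ ∞ fun p : ℝ × ℝ => A γ p.1 p.2 := J_sm contDiff_const (d1 h)
  have hB : ContDiff ℝ ∞ fun p : ℝ × ℝ => B γ p.1 p.2 := J_sm (by fun_prop) (d1 (d1 h))
  have hn : ContDiff ℝ ∞ fun p : ℝ × ℝ => nr γ p.2 := contDiff_const.mul ((d1 h).comp contDiff_snd)
  have h1 : ∀ᶠ p : ℝ × ℝ in 𝓝 (v, u), A γ p.1 p.2 ≠ 0 :=
    (hA.continuous.continuousAt (x := (v, u))).eventually_ne h0
  have h2 : rdot (A γ v u) (A γ v u) ≠ 0 := by
    rw [rdot_self]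
    exact pow_ne_zero 2 (norm_ne_zero_iff.2 h0)
  have h3 := ((rdot_sm hn hB).contDiffAt (x := (v, u))).div (rdot_sm hA hA).contDiffAt h2
  exact h3.congr_of_eventuallyEq (h1.mono fun p hp => qq_eq h hp)

theorem qq_per (hp : Function.Periodic γ (2 * π)) (k : ℤ) (v u : ℝ) :
    qq γ (v + k * (2 * π)) u = qq γ v u := by simp only [qq, hp.int_mul k v]

theorem qq_sm (h : ContDiff ℝ ∞ γ) (hp : Function.Periodic γ (2 * π)) (hr : ∀ s, deriv γ s ≠ 0)
    (hi : ∀ s t, γ s = γ t → ∃ k : ℤ, t = s + k * (2 * π)) :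
    ContDiff ℝ ∞ (Function.uncurry (qq γ)) := by
  refine contDiff_iff_contDiffAt.2 fun ⟨v, u⟩ => ?_
  by_cases e : γ v = γ u
  · obtain ⟨k, hk⟩ := hi v u e
    have h1 := qq_at (v := v + k * (2 * π)) (u := u) h (by rw [← hk, A_diag]; exact hr u)
    exact (h1.comp (v, u) (f := fun p : ℝ × ℝ => (p.1 + k * (2 * π), p.2))
      (by fun_prop)).congr_of_eventuallyEq (.of_forall fun p => (qq_per hp k p.1 p.2).symm)
  · exact qq_at h fun h0 => e (sub_eq_zero.1 (by rw [A_eq h, h0, smul_zero]))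

/-- two derivatives of a quotient -/
theorem quot {f N0 N1 N2 D0 D1 D2 : ℝ → ℝ} {M : ℝ} (n0 : ∀ x, HasDerivAt N0 (N1 x) x)
    (n1 : ∀ x, HasDerivAt N1 (N2 x) x) (d0 : ∀ x, HasDerivAt D0 (D1 x) x)
    (d1 : ∀ x, HasDerivAt D1 (D2 x) x) (hf : ∀ x, D0 x ≠ 0 → f x = N0 x / D0 x) (h0 : D0 v ≠ 0)
    (hM : 1 ≤ M) (a0 : |N0 v| ≤ M) (a1 : |N1 v| ≤ M) (a2 : |N2 v| ≤ M) (b0 : |(D0 v)⁻¹| ≤ M)
    (b1 : |D1 v| ≤ M) (b2 : |D2 v| ≤ M) :
    |f v| ≤ 6 * M ^ 6 ∧ |deriv f v| ≤ 6 * M ^ 6 ∧ |deriv (deriv f) v| ≤ 6 * M ^ 6 := by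
  have ev : ∀ x, D0 x ≠ 0 → ∀ᶠ y in 𝓝 x, D0 y ≠ 0 := fun x hx =>
    (d0 x).continuousAt.eventually_ne hx
  have r : ∀ x, D0 x ≠ 0 → HasDerivAt (fun y => (D0 y)⁻¹) (-(D1 x * (D0 x)⁻¹ ^ 2)) x := fun x hx =>
    ((d0 x).fun_inv hx).congr_deriv (by ring)
  have e1 : ∀ x, D0 x ≠ 0 → deriv f x = N1 x * (D0 x)⁻¹ - N0 x * D1 x * (D0 x)⁻¹ ^ 2 := fun x hx =>
    ((((n0 x).fun_mul (r x hx)).congr_of_eventuallyEq
      ((ev x hx).mono fun y hy => hf y hy)).congr_deriv (by ring)).deriv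
  have e2 : deriv (deriv f) v = N2 v * (D0 v)⁻¹ - 2 * (N1 v * D1 v * (D0 v)⁻¹ ^ 2) -
      N0 v * D2 v * (D0 v)⁻¹ ^ 2 + 2 * (N0 v * D1 v ^ 2 * (D0 v)⁻¹ ^ 3) :=
    (((((n1 v).fun_mul (r v h0)).fun_sub (((n0 v).fun_mul (d1 v)).fun_mul
      ((r v h0).fun_pow 2))).congr_of_eventuallyEq
      ((ev v h0).mono fun y hy => e1 y hy)).congr_deriv (by push_cast; ring)).deriv
  rw [hf v h0, e1 v h0, e2, div_eq_mul_inv]
  generalize (D0 v)⁻¹ = R at *
  have p2 : M * M ≤ M ^ 6 := by rw [← pow_two]; exact pow_le_pow_right₀ hM (by norm_num)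
  have p4 : M * M * M ^ 2 ≤ M ^ 6 := by
    rw [show M * M * M ^ 2 = M ^ 4 by ring]; exact pow_le_pow_right₀ hM (by norm_num)
  have t2 : ∀ a : ℝ, |a| ≤ M → |a * R| ≤ M ^ 6 := fun a ha => by
    rw [abs_mul]; exact le_trans (by gcongr) p2
  have t4 : ∀ a b : ℝ, |a| ≤ M → |b| ≤ M → |a * b * R ^ 2| ≤ M ^ 6 := fun a b ha hb => by
    rw [abs_mul, abs_mul, abs_pow]; exact le_trans (by gcongr) p4
  have t6 : |N0 v * D1 v ^ 2 * R ^ 3| ≤ M ^ 6 := by
    rw [abs_mul, abs_mul, abs_pow, abs_pow, show M ^ 6 = M * M ^ 2 * M ^ 3 by ring]; gcongr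
  have := abs_le.1 (t2 _ a0)
  have := abs_le.1 (t2 _ a1)
  have := abs_le.1 (t2 _ a2)
  have := abs_le.1 (t4 _ _ a0 b1)
  have := abs_le.1 (t4 _ _ a1 b1)
  have := abs_le.1 (t4 _ _ a0 b2)
  have := abs_le.1 t6
  refine ⟨abs_le.2 ⟨?_, ?_⟩, abs_le.2 ⟨?_, ?_⟩, abs_le.2 ⟨?_, ?_⟩⟩ <;> linarith

/-! ### Taylor estimates -/

theorem step {f f' : ℝ → ℂ} {M : ℝ} (n : ℕ) (hd : ∀ x, HasDerivAt f (f' x) x) (h0 : f u = 0)
    (hM : 0 ≤ M) (hb : ∀ x, ‖f' x‖ ≤ M * |x - u| ^ n) (v : ℝ) : ‖f v‖ ≤ M * |v - u| ^ (n + 1) := by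
  have h := (convex_uIcc u v).norm_image_sub_le_of_norm_hasDerivWithin_le (C := M * |v - u| ^ n)
    (fun x _ => (hd x).hasDerivWithinAt) (fun x hx => (hb x).trans (by
      have := abs_sub_left_of_mem_uIcc hx
      gcongr)) left_mem_uIcc right_mem_uIcc
  rwa [h0, sub_zero, Real.norm_eq_abs, mul_assoc, ← pow_succ] at h

section tay

variable {f0 f1 f2 f3 f4 : ℝ → ℂ} {M : ℝ}

theorem T1 (h0 : ∀ x, HasDerivAt f0 (f1 x) x) (hM : 0 ≤ M) (hb : ∀ x, ‖f1 x‖ ≤ M) (u v : ℝ) :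
    ‖f0 v - f0 u‖ ≤ M * |v - u| ^ 1 :=
  step (f := fun x => f0 x - f0 u) 0 (fun x => (h0 x).sub_const _) (sub_self _) hM
    (by simpa using hb) v

theorem pw (u x : ℝ) (n : ℕ) (a : ℝ) (c : ℂ) :
    HasDerivAt (fun x => (a * (x - u) ^ (n + 1)) • c) ((a * (n + 1) * (x - u) ^ n) • c) x :=
  (((((hasDerivAt_id x).sub_const u).fun_pow (n + 1)).const_mul a).smul_const c).congr_deriv
    (by congr 1; simp only [id, Nat.add_sub_cancel]; push_cast; ring)

theorem T2 (h0 : ∀ x, HasDerivAt f0 (f1 x) x) (h1 : ∀ x, HasDerivAt f1 (f2 x) x) (hM : 0 ≤ M)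
    (hb : ∀ x, ‖f2 x‖ ≤ M) (u v : ℝ) :
    ‖f0 v - f0 u - (1 * (v - u) ^ 1) • f1 u‖ ≤ M * |v - u| ^ 2 :=
  step (f := fun x => f0 x - f0 u - (1 * (x - u) ^ 1) • f1 u) 1
    (fun x => (((h0 x).sub_const _).fun_sub (pw u x 0 1 _)).congr_deriv (by simp)) (by simp) hM
    (T1 h1 hM hb u) v

theorem T3 (h0 : ∀ x, HasDerivAt f0 (f1 x) x) (h1 : ∀ x, HasDerivAt f1 (f2 x) x)
    (h2 : ∀ x, HasDerivAt f2 (f3 x) x) (hM : 0 ≤ M) (hb : ∀ x, ‖f3 x‖ ≤ M) (u v : ℝ) :
    ‖f0 v - f0 u - (1 * (v - u) ^ 1) • f1 u - (1 / 2 * (v - u) ^ 2) • f2 u‖ ≤ M * |v - u| ^ 3 :=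
  step (f := fun x => f0 x - f0 u - (1 * (x - u) ^ 1) • f1 u - (1 / 2 * (x - u) ^ 2) • f2 u) 2
    (fun x => ((((h0 x).sub_const _).fun_sub (pw u x 0 1 _)).fun_sub
      (pw u x 1 _ _)).congr_deriv (by norm_num)) (by simp) hM (T2 h1 h2 hM hb u) v

theorem T4 (h0 : ∀ x, HasDerivAt f0 (f1 x) x) (h1 : ∀ x, HasDerivAt f1 (f2 x) x)
    (h2 : ∀ x, HasDerivAt f2 (f3 x) x) (h3 : ∀ x, HasDerivAt f3 (f4 x) x) (hM : 0 ≤ M)
    (hb : ∀ x, ‖f4 x‖ ≤ M) (u v : ℝ) :
    ‖f0 v - f0 u - (1 * (v - u) ^ 1) • f1 u - (1 / 2 * (v - u) ^ 2) • f2 u -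
      (1 / 6 * (v - u) ^ 3) • f3 u‖ ≤ M * |v - u| ^ 4 :=
  step (f := fun x => f0 x - f0 u - (1 * (x - u) ^ 1) • f1 u - (1 / 2 * (x - u) ^ 2) • f2 u -
      (1 / 6 * (x - u) ^ 3) • f3 u) 3
    (fun x => (((((h0 x).sub_const _).fun_sub (pw u x 0 1 _)).fun_sub
      (pw u x 1 _ _)).fun_sub (pw u x 2 _ _)).congr_deriv (by norm_num)) (by simp) hM
    (T3 h1 h2 h3 hM hb u) v

end tay

variable {j : ℝ}

theorem hd (h : ContDiff ℝ ∞ γ) (x : ℝ) : HasDerivAt γ (deriv γ x) x :=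
  (h.differentiable (by simp) x).hasDerivAt

theorem b3 (H : Nc j γ) (s : ℝ) : ‖deriv (deriv (deriv γ)) s‖ ≤ j := by
  simpa [iteratedDeriv_succ] using H.bd 3 (by norm_num) (by norm_num) s

theorem b4 (H : Nc j γ) (s : ℝ) : ‖deriv (deriv (deriv (deriv γ))) s‖ ≤ j := by
  simpa [iteratedDeriv_succ] using H.bd 4 (by norm_num) (by norm_num) s

theorem norm_nr (H : Nc j γ) (s : ℝ) : ‖nr γ s‖ = 1 := by rw [nr, norm_mul, norm_I, H.unit, one_mul]

theorem kp_eq (γ : ℝ → ℂ) (s : ℝ) : kp γ s = rdot (deriv (deriv γ) s) (nr γ s) := by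
  simp [kp, rdot_eq, nr]

/-- the jets of a unit speed curve in the moving frame -/
theorem jets (H : Nc j γ) (s : ℝ) : rdot (deriv γ s) (deriv γ s) = 1 ∧
    rdot (deriv (deriv γ) s) (deriv γ s) = 0 ∧
    rdot (deriv (deriv (deriv γ)) s) (deriv γ s) = -kp γ s ^ 2 := by
  have e0 : ∀ s, rdot (deriv γ s) (deriv γ s) = 1 := fun s => by rw [rdot_self, H.unit, one_pow]
  have e1 : ∀ s, rdot (deriv (deriv γ) s) (deriv γ s) = 0 := fun s => by
    have h := rdot_der (H.hd1 s) (H.hd1 s)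
    rw [funext e0] at h
    have := h.unique (hasDerivAt_const s 1)
    simp only [rdot_eq] at this ⊢
    linarith
  refine ⟨e0 s, e1 s, ?_⟩
  have h := rdot_der (hd (d1 H.s1) s) (H.hd1 s)
  rw [funext e1] at h
  have h2 := h.unique (hasDerivAt_const s 0)
  have h3 := e0 s
  have h4 := e1 s
  simp only [kp_eq, rdot_eq, nr, mul_re, mul_im, I_re, I_im] at h2 h3 h4 ⊢
  linear_combination h2 + ((deriv (deriv γ) s).re ^ 2 + (deriv (deriv γ) s).im ^ 2) * h3 -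
    ((deriv (deriv γ) s).re * (deriv γ s).re + (deriv (deriv γ) s).im * (deriv γ s).im) * h4

theorem proj {a c : ℂ} {M : ℝ} (h : ‖a‖ ≤ M) (hc : ‖c‖ = 1) : |rdot a c| ≤ M := by
  have := rdot_le a c
  rw [hc, mul_one] at this
  exact this.trans h

theorem tX (H : Nc j γ) (u v : ℝ) : |rdot (γ v - γ u) (deriv γ u) -
    ((v - u) - kp γ u ^ 2 * (v - u) ^ 3 / 6)| ≤ j * |v - u| ^ 4 := by
  obtain ⟨e0, e1, e2⟩ := jets H u
  have h := proj (T4 H.hd H.hd1 (hd (d1 H.s1)) (hd (d1 (d1 H.s1))) H.pos.le (b4 H) u v) (H.unit u)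
  refine le_of_eq_of_le (congrArg _ ?_) h
  simp only [rdot_eq, sub_re, sub_im, smul_re, smul_im, smul_eq_mul] at e0 e1 e2 ⊢
  linear_combination (v - u) * e0 + (v - u) ^ 2 / 2 * e1 + (v - u) ^ 3 / 6 * e2

theorem tY (H : Nc j γ) (u v : ℝ) :
    |rdot (nr γ u) (γ u - γ v) + kp γ u * (u - v) ^ 2 / 2| ≤ j * |u - v| ^ 3 := by
  have h := proj (T3 H.hd H.hd1 (hd (d1 H.s1)) H.pos.le (b3 H) u v) (norm_nr H u)
  rw [abs_sub_comm u v, ← abs_neg]
  refine le_of_eq_of_le (congrArg _ ?_) h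
  simp only [kp_eq, nr, rdot_eq, sub_re, sub_im, smul_re, smul_im, smul_eq_mul, mul_re, mul_im,
    I_re, I_im]
  ring

theorem tP (H : Nc j γ) (u v : ℝ) :
    |1 - rdot (nr γ v) (nr γ u) - kp γ u ^ 2 * (u - v) ^ 2 / 2| ≤ j * |u - v| ^ 3 := by
  obtain ⟨e0, e1, e2⟩ := jets H u
  have h := proj (T3 H.hd1 (hd (d1 H.s1)) (hd (d1 (d1 H.s1))) H.pos.le (b4 H) u v) (H.unit u)
  rw [abs_sub_comm u v, ← abs_neg]
  refine le_of_eq_of_le (congrArg _ ?_) h
  simp only [nr, rdot_eq, sub_re, sub_im, smul_re, smul_im, smul_eq_mul, mul_re, mul_im,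
    I_re, I_im] at e0 e1 e2 ⊢
  linear_combination e0 + (v - u) * e1 + (v - u) ^ 2 / 2 * e2

theorem kp_lip (H : Nc j γ) (s t : ℝ) : |kp γ s - kp γ t| ≤ j * |s - t| := by
  have h3 : Differentiable ℝ (kp γ) := imCLM.differentiable.comp
    (((d1 H.s1).differentiable (by simp)).mul
      (conjCLE.differentiable.comp (H.s1.differentiable (by simp))))
  exact (convex_univ (𝕜 := ℝ) (E := ℝ)).norm_image_sub_le_of_norm_deriv_le (f := kp γ) (C := j)
    (fun x _ => h3 x) (fun x _ => by simpa using H.kb 1 (by norm_num) x) (mem_univ t) (mem_univ s)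

theorem tC (H : Nc j γ) (u v : ℝ) :
    |c0 γ v u - (|u - v| - kp γ u ^ 2 * |u - v| ^ 3 / 24)| ≤ 20 * j ^ 3 * |u - v| ^ 4 := by
  have j1 := H.one_le
  have j0 := H.pos
  have k2 : kp γ u ^ 2 ≤ j ^ 2 := by rw [← sq_abs]; gcongr; exact H.bk u
  have hc := H.c0_le_abs v u
  have hX := tX H u v
  have hY := tY H u v
  have c0' : 0 ≤ c0 γ v u := norm_nonneg _
  have hs : c0 γ v u ^ 2 = rdot (γ v - γ u) (deriv γ u) ^ 2 + rdot (nr γ u) (γ u - γ v) ^ 2 := by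
    have e0 := (jets H u).1
    rw [c0, ← rdot_self]
    simp only [nr, rdot_eq, sub_re, sub_im, mul_re, mul_im, I_re, I_im] at e0 ⊢
    linear_combination -(((γ v).re - (γ u).re) ^ 2 + ((γ v).im - (γ u).im) ^ 2) * e0
  have hk := H.bk u
  rw [abs_sub_comm v u] at hc hX
  have h2 : (u - v) ^ 2 = |u - v| ^ 2 := (sq_abs _).symm
  generalize rdot (γ v - γ u) (deriv γ u) = X at *
  generalize rdot (nr γ u) (γ u - γ v) = Y at *
  generalize c0 γ v u = c at *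
  generalize kp γ u = k at *
  have d0 := abs_nonneg (u - v)
  rw [show v - u - k ^ 2 * (v - u) ^ 3 / 6 = -((u - v) * (1 - k ^ 2 * (u - v) ^ 2 / 6)) by ring,
    h2] at hX
  rw [h2] at hY
  set d := |u - v| with hd
  rcases le_total (j * d) 1 with h | h
  · rcases d0.eq_or_lt with e | d1
    · rw [← e] at hc ⊢
      simp [le_antisymm hc c0']
    have dl : d ≤ 1 := by nlinarith
    have kd : k ^ 2 * d ^ 2 ≤ 1 := by
      calc k ^ 2 * d ^ 2 ≤ j ^ 2 * d ^ 2 := by gcongr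
        _ = (j * d) ^ 2 := by ring
        _ ≤ 1 := pow_le_one₀ (by positivity) h
    have kd0 : 0 ≤ k ^ 2 * d ^ 2 := by positivity
    set a := k ^ 2 * d ^ 2 with ha
    have sq : ∀ x y r : ℝ, |x - y| ≤ r → |x ^ 2 - y ^ 2| ≤ r * (r + 2 * |y|) := fun x y r h => by
      rw [show x ^ 2 - y ^ 2 = (x - y) * (x - y + 2 * y) by ring, abs_mul]
      have r0 := (abs_nonneg _).trans h
      gcongr
      refine (abs_add_le _ _).trans ?_
      rw [abs_mul, abs_two]; gcongr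
    have s1 := sq _ _ _ hX
    have s2 := sq Y (-(k * d ^ 2 / 2)) (j * d ^ 3) (by rwa [sub_neg_eq_add])
    rw [neg_sq, mul_pow, h2, abs_neg, abs_mul, ← hd,
      abs_of_nonneg (by linarith : 0 ≤ 1 - a / 6)] at s1
    rw [neg_sq, abs_neg, abs_div, abs_mul, abs_two, abs_of_nonneg (sq_nonneg d)] at s2
    have d5 : 0 < d ^ 5 := by positivity
    have p1 : j * d ^ 4 * (j * d ^ 4 + 2 * (d * (1 - a / 6))) ≤ 3 * j ^ 3 * d ^ 5 := by
      calc _ ≤ j * d ^ 4 * (j ^ 2 * d + 2 * (j ^ 2 * d)) := by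
            gcongr ?_ * (?_ + 2 * ?_)
            · exact mul_le_mul (le_self_pow₀ j1 (by norm_num))
                (pow_le_of_le_one d0 dl (by norm_num)) (by positivity) (by positivity)
            · nlinarith [one_le_pow₀ (n := 2) j1]
        _ = _ := by ring
    have p2 : j * d ^ 3 * (j * d ^ 3 + 2 * (|k| * d ^ 2 / 2)) ≤ 2 * j ^ 3 * d ^ 5 := by
      calc _ ≤ j * d ^ 3 * (j ^ 2 * d ^ 2 + 2 * (j ^ 2 * d ^ 2 / 2)) := by
            gcongr ?_ * (?_ + 2 * (?_ * _ / 2))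
            · exact mul_le_mul (le_self_pow₀ j1 (by norm_num))
                (pow_le_pow_of_le_one d0 dl (by norm_num)) (by positivity) (by positivity)
            · exact hk.trans (le_self_pow₀ j1 (by norm_num))
        _ = _ := by ring
    have p3 : d ^ 2 * a ^ 2 ≤ j ^ 3 * d ^ 5 := by
      calc d ^ 2 * a ^ 2 = (k ^ 2) ^ 2 * d ^ 6 := by rw [ha]; ring
        _ ≤ (j ^ 2) ^ 2 * d ^ 6 := by gcongr
        _ = j * d * (j ^ 3 * d ^ 5) := by ring
        _ ≤ _ := mul_le_of_le_one_left (by positivity) h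
    have p4 : 0 ≤ d ^ 2 * a ^ 2 := by positivity
    have t0 : d / 2 ≤ c + d * (1 - a / 24) := by nlinarith
    have e : (c - d * (1 - a / 24)) * (c + d * (1 - a / 24)) = (X ^ 2 - d ^ 2 * (1 - a / 6) ^ 2) +
        (Y ^ 2 - (k * d ^ 2 / 2) ^ 2) + (1 / 36 - 1 / 576) * (d ^ 2 * a ^ 2) := by
      rw [ha]; linear_combination hs
    have f : |c - d * (1 - a / 24)| * (d / 2) ≤ 20 * j ^ 3 * d ^ 4 * (d / 2) := by
      calc _ ≤ |c - d * (1 - a / 24)| * |c + d * (1 - a / 24)| := by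
            gcongr; exact t0.trans (le_abs_self _)
        _ ≤ _ := by
            rw [← abs_mul, e]
            have := abs_le.1 (s1.trans p1)
            have := abs_le.1 (s2.trans p2)
            have : 0 < j ^ 3 * d ^ 5 := by positivity
            exact abs_le.2 ⟨by linarith, by linarith⟩
    rw [show d - k ^ 2 * d ^ 3 / 24 = d * (1 - a / 24) by rw [ha]; ring]
    exact le_of_mul_le_mul_right f (by positivity)
  · have p1 : d ≤ j ^ 3 * d ^ 4 := by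
      rw [show j ^ 3 * d ^ 4 = (j * d) ^ 3 * d by ring]
      exact le_mul_of_one_le_left d0 (one_le_pow₀ h)
    have p2 : k ^ 2 * d ^ 3 ≤ j ^ 3 * d ^ 4 := by
      rw [show j ^ 3 * d ^ 4 = j * d * (j ^ 2 * d ^ 3) by ring]
      exact le_trans (by gcongr) (le_mul_of_one_le_left (by positivity) h)
    have p3 : 0 ≤ k ^ 2 * d ^ 3 := by positivity
    exact abs_le.2 ⟨by linarith, by linarith⟩

/-- bounds for the kernel and two derivatives -/
theorem qb (H : Nc j γ) (v u : ℝ) : |qq γ v u| ≤ 6 * (4 * j ^ 2) ^ 6 ∧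
    |q1 γ v u| ≤ 6 * (4 * j ^ 2) ^ 6 ∧ |q2 γ v u| ≤ 6 * (4 * j ^ 2) ^ 6 := by
  have j1 := H.one_le
  have j0 := H.pos
  obtain ⟨k, hk⟩ := exists_dc u v
  have p0 : Function.Periodic (fun v => qq γ v u) (k * (2 * π)) := fun v => qq_per H.per k v u
  have p1 := per_deriv' p0
  have p2 := per_deriv' p1
  rw [← dc_add_right u v k] at hk
  rw [show qq γ v u = qq γ (v + k * (2 * π)) u from (p0 v).symm,
    show q1 γ v u = deriv (fun v => qq γ v u) (v + k * (2 * π)) from (p1 v).symm,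
    show q2 γ v u = deriv (deriv fun v => qq γ v u) (v + k * (2 * π)) from (p2 v).symm]
  generalize v + k * (2 * π) = v at hk
  have hA : j⁻¹ ≤ ‖A γ v u‖ := by
    rcases eq_or_ne v u with rfl | h
    · rw [A_diag, H.unit]; exact inv_le_one_of_one_le₀ j1
    · have h1 := H.arc u v
      rw [← hk, norm_sub_rev, A_eq H.smooth, norm_smul, Real.norm_eq_abs, abs_sub_comm v u,
        mul_left_comm] at h1
      rw [inv_le_iff_one_le_mul₀' j0]
      exact (le_mul_iff_one_le_right (abs_pos.2 (sub_ne_zero.2 h.symm))).1 h1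
  have s2 := d1 H.s1
  have a0 := fun x => J_der (w := fun _ => 1) continuous_const H.s1 x u
  have a1 := fun x => J_der (w := fun x => 1 * x) (by fun_prop) s2 x u
  have c0 := fun x => J_der (w := fun x => 1 - x) (by fun_prop) s2 x u
  have c1 := fun x => J_der (w := fun x => (1 - x) * x) (by fun_prop) (d1 s2) x u
  have w0 : ∀ x ∈ Icc (0 : ℝ) 1, |1 - x| ≤ 1 := fun x hx => abs_le.2 ⟨by linarith [hx.2], by linarith [hx.1]⟩
  have w1 : ∀ {w : ℝ → ℝ}, (∀ x ∈ Icc (0 : ℝ) 1, |w x| ≤ 1) → ∀ x ∈ Icc (0 : ℝ) 1, |w x * x| ≤ 1 :=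
    fun h x hx => by rw [abs_mul, abs_of_nonneg hx.1]; exact mul_le_one₀ (h x hx) hx.1 hx.2
  have w2 : ∀ x ∈ Icc (0 : ℝ) 1, |(fun _ => 1 : ℝ → ℝ) x| ≤ 1 := fun x _ => by simp
  have jj : j ≤ 4 * j ^ 2 := by nlinarith
  have pn : ∀ {a : ℂ}, ‖a‖ ≤ j → |rdot 0 0 + rdot (nr γ u) a| ≤ 4 * j ^ 2 := fun {a} ha => by
    have := rdot_le (nr γ u) a
    rw [norm_nr H, one_mul] at this
    simpa [rdot] using this.trans (ha.trans jj)
  have z : ∀ a b : ℂ, rdot 0 a = rdot 0 b := fun a b => by simp [rdot]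
  have pa : ∀ {a b : ℂ}, ‖a‖ ≤ j → ‖b‖ ≤ j → |rdot a b| ≤ j ^ 2 := fun ha hb =>
    (rdot_le _ _).trans (by rw [pow_two]; gcongr)
  have m0 : ‖A γ v u‖ ≤ j := J_bd w2 fun t => (H.unit t).le.trans j1
  have m1 := J_bd (v := v) (u := u) (w1 w2) H.b2
  have m2 := J_bd (v := v) (u := u) (w1 (w1 w2)) (b3 H)
  refine quot (N0 := fun x => rdot (nr γ u) (B γ x u)) (D0 := fun x => rdot (A γ x u) (A γ x u))
    (fun x => (rdot_der (hasDerivAt_const x (nr γ u)) (c0 x)).congr_deriv (by rw [z _ 0]))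
    (fun x => ((rdot_der (hasDerivAt_const x (nr γ u)) (c1 x)).const_add _).congr_deriv
      (by rw [z _ 0])) (fun x => rdot_der (a0 x) (a0 x))
    (fun x => (rdot_der (a1 x) (a0 x)).fun_add (rdot_der (a0 x) (a1 x)))
    (fun x hx => qq_eq H.smooth fun h => hx (by simp [h, rdot])) ?_ (by nlinarith) ?_
    (pn (J_bd (w1 w0) (b3 H))) (pn (J_bd (w1 (w1 w0)) (b4 H))) ?_ ?_ ?_
  · rw [rdot_self]; exact pow_ne_zero 2 ((inv_pos.2 j0).trans_le hA).ne'
  · simpa [rdot] using pn (a := B γ v u) (J_bd w0 H.b2)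
  · rw [rdot_self, abs_of_nonneg (by positivity), ← inv_pow]
    have : ‖A γ v u‖⁻¹ ≤ j := inv_le_of_inv_le₀ j0 hA
    calc _ ≤ j ^ 2 := by gcongr
      _ ≤ _ := by nlinarith
  · have := abs_le.1 (pa m1 m0)
    have := abs_le.1 (pa m0 m1)
    exact abs_le.2 ⟨by unfold A at *; nlinarith, by unfold A at *; nlinarith⟩
  · have := abs_le.1 (pa m2 m0)
    have := abs_le.1 (pa m1 m1)
    have := abs_le.1 (pa m0 m2)
    exact abs_le.2 ⟨by unfold A at *; nlinarith, by unfold A at *; nlinarith⟩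

end QS

open QS in
theorem st_qs : St_QS := by
  refine ⟨fun γ => qq_sm, fun j => ⟨6 * (4 * j ^ 2) ^ 6 + 20 * j ^ 3, fun γ H v u => ?_⟩⟩
  have j1 := H.one_le
  have j0 := H.pos
  have c1 : 0 ≤ 6 * (4 * j ^ 2) ^ 6 := by positivity
  have c2 : j ≤ j ^ 3 := le_self_pow₀ j1 (by norm_num)
  have c3 : j ^ 2 ≤ j ^ 3 := pow_le_pow_right₀ j1 (by norm_num)
  obtain ⟨a0, a1, a2⟩ := qb H v u
  have up : ∀ {a b x : ℝ}, 0 ≤ x → b ≤ 6 * (4 * j ^ 2) ^ 6 + 20 * j ^ 3 → a ≤ b * x →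
      a ≤ (6 * (4 * j ^ 2) ^ 6 + 20 * j ^ 3) * x := fun hx hb h => h.trans (by gcongr)
  refine ⟨by linarith, by linarith, by linarith,
    up (b := 6 * (4 * j ^ 2) ^ 6) (by positivity) (by linarith) ?_,
    up (by positivity) (by linarith) (tC H u v), up (b := 2 * j) (by positivity) (by linarith) ?_,
    up (by positivity) (by linarith) (tY H u v), up (by positivity) (by linarith) (tP H u v),
    up (b := 2 * j + j ^ 2) (by positivity) (by linarith) ?_⟩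
  · have hs := (qq_sm H.smooth H.per (fun s h => by simpa [h] using H.unit s) fun s t => H.inj
      ).differentiable (by simp)
    have h := (convex_univ (𝕜 := ℝ) (E := ℝ)).norm_image_sub_le_of_norm_deriv_le
      (f := fun v => qq γ v u) (fun x _ => (hs (x, u)).comp x (f := fun x => (x, u)) (by fun_prop))
      (fun x _ => (qb H x u).2.1) (mem_univ u) (mem_univ v)
    have e : qq γ u u = kp γ u / 2 := by
      rw [qq, if_pos rfl, H.unit, kp_eq, rdot_eq, rdot_eq]; ring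
    rwa [e, Real.norm_eq_abs, Real.norm_eq_abs, abs_sub_comm v u] at h
  · have h1 := tY H v u
    have h2 := kp_lip H v u
    rw [abs_sub_comm v u] at h1 h2
    rw [show rdot (nr γ v) (γ u - γ v) - kp γ u * (u - v) ^ 2 / 2 =
      -(rdot (nr γ v) (γ v - γ u) + kp γ v * (v - u) ^ 2 / 2) + (kp γ v - kp γ u) * ((u - v) ^ 2 / 2) by
        simp only [rdot_eq, sub_re, sub_im]; ring]
    refine (abs_add_le _ _).trans ?_
    rw [abs_neg, abs_mul, abs_div, abs_pow, abs_two]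
    calc _ ≤ j * |u - v| ^ 3 + j * |u - v| * (|u - v| ^ 2 / 1) := by gcongr; norm_num
      _ = _ := by ring
  · have h1 := tX H u v
    have h2 := tX H v u
    have h3 : |kp γ u ^ 2 - kp γ v ^ 2| ≤ 2 * j * (j * |u - v|) := by
      rw [sq_sub_sq, abs_mul]
      gcongr
      · linarith [abs_add_le (kp γ u) (kp γ v), H.bk u, H.bk v]
      · exact kp_lip H u v
    rw [abs_sub_comm v u] at h1
    rw [show rdot (deriv γ v - deriv γ u) (γ v - γ u) =
      -(rdot (γ v - γ u) (deriv γ u) - ((v - u) - kp γ u ^ 2 * (v - u) ^ 3 / 6)) +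
      -(rdot (γ u - γ v) (deriv γ v) - ((u - v) - kp γ v ^ 2 * (u - v) ^ 3 / 6)) +
      -((kp γ u ^ 2 - kp γ v ^ 2) * ((u - v) ^ 3 / 6)) by
        simp only [rdot_eq, sub_re, sub_im]; ring]
    refine (abs_add_three _ _ _).trans ?_
    rw [abs_neg, abs_neg, abs_neg, abs_mul, abs_div, abs_pow, abs_of_pos (by norm_num : (0 : ℝ) < 6)]
    calc _ ≤ j * |u - v| ^ 4 + j * |u - v| ^ 4 + 2 * j * (j * |u - v|) * (|u - v| ^ 3 / 2) := by
          gcongr; norm_num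
      _ = _ := by ring

end Pool.Agent.Lib.IS2
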