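import Pool.Agent.Lib.IS2.Blue

/-! Reparametrisation invariance of the chain integrals. -/

open scoped ContDiff ComplexConjugate Topology Real
open Complex MeasureTheory Set Filter

noncomputable section

namespace Pool.Agent.Lib.IS2

namespace REP

lemma fund (m : ℕ) (a : ℝ) : IsAddFundamentalDomain
    (AddSubgroup.pi univ fun _ : Fin m => AddSubgroup.zmultiples (2 * π))
    (univ.pi fun _ : Fin m => Ioc a (a + 2 * π)) volume := by
  refine IsAddFundamentalDomain.mk'
    (MeasurableSet.univ_pi fun _ => measurableSet_Ioc).nullMeasurableSet fun x => ?_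
  choose k hk hu using fun i => existsUnique_add_zsmul_mem_Ioc Real.two_pi_pos (x i) a
  refine ⟨⟨fun i => k i • (2 * π), fun i _ => ⟨k i, rfl⟩⟩, fun i _ => ?_, ?_⟩
  · have : x i + k i • (2 * π) ∈ Ioc a (a + 2 * π) := hk i
    rw [add_comm (x i)] at this
    exact this
  · rintro ⟨g, hg⟩ h
    refine Subtype.ext (funext fun i => ?_)
    obtain ⟨l, hl⟩ := hg i (mem_univ i)
    have h1 : g i + x i ∈ Ioc a (a + 2 * π) := h i (mem_univ i)
    have hl' : l • (2 * π) = g i := hl
    rw [← hl', add_comm _ (x i)] at h1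
    change g i = k i • (2 * π)
    rw [← hu i l h1]
    exact hl'.symm

lemma shift {m : ℕ} (F : (Fin m → ℝ) → ℂ)
    (hF : ∀ v (k : Fin m → ℤ), F (fun i => v i + k i * (2 * π)) = F v) (a : ℝ) :
    ∫ v in univ.pi fun _ : Fin m => Ioc a (a + 2 * π), F v =
      ∫ v in univ.pi fun _ : Fin m => Ioc 0 (0 + 2 * π), F v := by
  have : Countable (AddSubgroup.pi univ fun _ : Fin m => AddSubgroup.zmultiples (2 * π)) := by
    refine Set.Countable.to_subtype
      ((countable_range fun (k : Fin m → ℤ) (i : Fin m) => k i • (2 * π)).mono fun g hg => ?_)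
    choose k hk using fun i => hg i (mem_univ i)
    exact ⟨k, funext hk⟩
  refine (fund m a).setIntegral_eq (fund m 0) ?_
  rintro ⟨g, hg⟩ x
  choose k hk using fun i => hg i (mem_univ i)
  rw [← hF x k]
  congr 1
  funext i
  have h1 : k i • (2 * π) = g i := hk i
  rw [← zsmul_eq_mul, h1, add_comm]
  rfl

lemma cov {m : ℕ} (F : (Fin m → ℝ) → ℂ)
    (hF : ∀ v (k : Fin m → ℤ), F (fun i => v i + k i * (2 * π)) = F v) {φ : ℝ → ℝ}
    (h1 : ContDiff ℝ 1 φ) (h2 : ∀ s, 0 < deriv φ s) (h3 : ∀ s, φ (s + 2 * π) = φ s + 2 * π) :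
    ∫ v, ((∏ i, deriv φ (v i) : ℝ) : ℂ) * F (fun i => φ (v i)) ∂box m = ∫ v, F v ∂box m := by
  have hb : box m = volume.restrict (univ.pi fun _ : Fin m => Ioc 0 (0 + 2 * π)) := by
    rw [box, volume_pi, Measure.restrict_pi_pi, zero_add]
  have hd : Differentiable ℝ φ := h1.differentiable one_ne_zero
  have hm : StrictMono φ := strictMono_of_deriv_pos h2
  have him : (fun (v : Fin m → ℝ) i => φ (v i)) '' (univ.pi fun _ => Ioc 0 (0 + 2 * π)) =
      univ.pi fun _ => Ioc (φ 0) (φ 0 + 2 * π) := by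
    rw [← h3, ← hd.continuous.image_Ioc_of_strictMono hm]
    exact piMap_image_univ_pi (fun _ => φ) _
  have key := integral_image_eq_integral_abs_det_fderiv_smul volume
    (s := univ.pi fun _ : Fin m => Ioc 0 (0 + 2 * π)) (f := fun (v : Fin m → ℝ) i => φ (v i))
    (f' := fun v => ContinuousLinearMap.pi fun i =>
      (ContinuousLinearMap.toSpanSingleton ℝ (deriv φ (v i))).comp (ContinuousLinearMap.proj i))
    (MeasurableSet.univ_pi fun _ => measurableSet_Ioc)
    (fun v _ => (hasFDerivAt_pi.2 fun i =>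
      (hd (v i)).hasDerivAt.hasFDerivAt.comp v (hasFDerivAt_apply i v)).hasFDerivWithinAt)
    (fun v _ w _ h => funext fun i => hm.injective (congrFun h i)) F
  rw [hb, ← shift F hF (φ 0), ← him, key]
  refine integral_congr_ae (Eventually.of_forall fun v => ?_)
  simp only [ContinuousLinearMap.det_pi, ContinuousLinearMap.det_toSpanSingleton]
  rw [abs_of_pos (Finset.prod_pos fun i _ => h2 _), real_smul]

lemma In_congr (μ : ℂ) (P : ℝ → C2) (n : ℕ) {v w : Fin (n + 2) → ℝ} (h1 : ∀ i, P (w i) = P (v i))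
    (h2 : ∀ i, deriv P (w i) = deriv P (v i)) : In μ P n w = In μ P n v := by
  simp only [In, pK, pS, pNd, pKd, pc, pD, pn, h1, h2]

section
variable {P : ℝ → C2} {φ : ℝ → ℝ} (hP : Differentiable ℝ P) (hφ : Differentiable ℝ φ) (μ : ℂ)
include hP hφ

lemma pn_comp (s : ℝ) : pn (fun s => P (φ s)) s = ((deriv φ s : ℝ) : ℂ) • pn P (φ s) := by
  have h : deriv (fun s => P (φ s)) s = deriv φ s • deriv P (φ s) :=
    ((hP (φ s)).hasDerivAt.scomp s (hφ s).hasDerivAt).deriv
  simp only [pn, h, Prod.smul_fst, Prod.smul_snd, Prod.smul_mk, real_smul, smul_eq_mul]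
  congr 1 <;> ring

lemma pK_comp (s t : ℝ) :
    pK μ (fun s => P (φ s)) s t = ((deriv φ t : ℝ) : ℂ) * pK μ P (φ s) (φ t) := by
  simp only [pK, pn_comp hP hφ, pc, pD, dot, Prod.smul_fst, Prod.smul_snd, smul_eq_mul]
  ring

lemma pKd_comp (s t : ℝ) :
    pKd μ (fun s => P (φ s)) s t = ((deriv φ t : ℝ) : ℂ) * pKd μ P (φ s) (φ t) := by
  simp only [pKd, pn_comp hP hφ, pc, pD, dot, Prod.smul_fst, Prod.smul_snd, smul_eq_mul]
  ring

lemma pNd_comp (s t : ℝ) : pNd μ (fun s => P (φ s)) s t =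
    ((deriv φ s : ℝ) : ℂ) * ((deriv φ t : ℝ) : ℂ) * pNd μ P (φ s) (φ t) := by
  simp only [pNd, pn_comp hP hφ, pc, pD, dot, Prod.smul_fst, Prod.smul_snd, smul_eq_mul]
  ring

lemma In_comp (n : ℕ) (v : Fin (n + 2) → ℝ) : In μ (fun s => P (φ s)) n v =
    ((∏ i, deriv φ (v i) : ℝ) : ℂ) * In μ P n fun i => φ (v i) := by
  have hS (s t : ℝ) : pS μ (fun s => P (φ s)) s t = pS μ P (φ s) (φ t) := rfl
  simp only [In, pK_comp hP hφ, pKd_comp hP hφ, pNd_comp hP hφ, hS, Finset.prod_mul_distrib]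
  rw [Fin.prod_univ_castSucc, Fin.prod_univ_succ]
  push_cast
  simp only [Fin.castSucc_zero]
  ring

end

end REP

theorem st_rep : St_REP := by
  intro P hP φ wt μ n h1 h2 h3 hw
  have hd : Differentiable ℝ φ := h1.differentiable one_ne_zero
  have hF (v : Fin (n + 2) → ℝ) (k : Fin (n + 2) → ℤ) :
      wt (n + 2) (fun i => v i + k i * (2 * π)) * In μ P n (fun i => v i + k i * (2 * π)) =
        wt (n + 2) v * In μ P n v := by
    rw [(hw (n + 2)).2.2 v k, REP.In_congr μ P n (fun i => hP.2.int_mul (k i) (v i))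
      fun i => (per_deriv' hP.2).int_mul (k i) (v i)]
  rw [Tn, Tn, ← REP.cov (fun v => wt (n + 2) v * In μ P n v) hF h1 h2 h3]
  refine integral_congr_ae (Eventually.of_forall fun v => ?_)
  simp only [REP.In_comp (SP.diff hP) hd]
  ring

end Pool.Agent.Lib.IS2
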