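import Pool.Agent.Lib.IS2.Blue

/-! The resolvent identity for the Green function and its trace. -/

open scoped ContDiff ComplexConjugate Topology Real
open Complex MeasureTheory Set Filter

noncomputable section

namespace Pool.Agent.Lib.IS2

open Pool.Agent.Lib.ISO

namespace RES

lemma lap_congr {u v : ℂ → ℝ} {x : ℂ} (h : u =ᶠ[𝓝 x] v) : lap u x = lap v x := by
  have e : ∀ w : ℂ, (fun z => fderiv ℝ u z w) =ᶠ[𝓝 x] fun z => fderiv ℝ v z w := fun w =>
    (h.fderiv (𝕜 := ℝ)).mono fun z hz => by simp only [hz]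
  rw [lap, lap, (e 1).fderiv_eq, (e I).fderiv_eq]

lemma lap_neg (u : ℂ → ℝ) (x : ℂ) : lap (fun z => -u z) x = -lap u x := by
  simp only [lap, fderiv_fun_neg, _root_.neg_apply, neg_add]

lemma lap_shift (u : ℂ → ℝ) (y x : ℂ) : lap (fun z => u (z - y)) x = lap u (x - y) := by
  have e : ∀ w : ℂ, fderiv ℝ (fun z => fderiv ℝ (fun z => u (z - y)) z w) x =
      fderiv ℝ (fun z => fderiv ℝ u z w) (x - y) := fun w => by
    simp only [fderiv_comp_sub]
    exact fderiv_comp_sub (f := fun z => fderiv ℝ u z w) y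
  rw [lap, lap, e, e]

lemma lap_sub {u v : ℂ → ℝ} {x : ℂ} (a : ℝ) (hu : ContDiffAt ℝ 2 u x) (hv : ContDiffAt ℝ 2 v x) :
    lap (fun z => u z - a * v z) x = lap u x - a * lap v x := by
  have d : ∀ {f : ℂ → ℝ}, ContDiffAt ℝ 2 f x → ∀ w : ℂ,
      DifferentiableAt ℝ (fun z => fderiv ℝ f z w) x := fun hf w =>
    ((hf.fderiv_right (m := 1) (by norm_num)).clm_apply contDiffAt_const).differentiableAt
      (by norm_num)
  have e : ∀ w : ℂ, fderiv ℝ (fun z => fderiv ℝ (fun z => u z - a * v z) z w) x =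
      fderiv ℝ (fun z => fderiv ℝ u z w) x - a • fderiv ℝ (fun z => fderiv ℝ v z w) x := fun w => by
    have h1 : (fun z => fderiv ℝ (fun z => u z - a * v z) z w) =ᶠ[𝓝 x]
        fun z => fderiv ℝ u z w - a * fderiv ℝ v z w := by
      filter_upwards [hu.eventually (by simp), hv.eventually (by simp)] with z h2 h3
      rw [(((h2.differentiableAt (by simp)).hasFDerivAt).fun_sub
        ((h3.differentiableAt (by simp)).hasFDerivAt.const_mul a)).fderiv]
      simp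
    rw [h1.fderiv_eq]
    exact ((d hu w).hasFDerivAt.fun_sub ((d hv w).hasFDerivAt.const_mul a)).fderiv
  simp only [lap, e, _root_.sub_apply, _root_.smul_apply, smul_eq_mul]
  ring

lemma zero_of (hMAX : St_MAX) {μ : ℝ} (hμ : 0 < μ) {U : Set ℂ} {w : ℂ → ℝ} {y : ℂ} {B : ℝ}
    (hy : y ∈ U) (ho : IsOpen U) (hb : Bornology.IsBounded U)
    (hc : ContinuousOn w (closure U \ {y})) (hd : ContDiffOn ℝ 2 w (U \ {y}))
    (hl : ∀ x ∈ U \ {y}, lap w x = μ ^ 2 * w x ∧ |w x| ≤ B) (hf : ∀ x ∈ frontier U, w x = 0) :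
    ∀ x ∈ U \ {y}, w x = 0 := fun x hx => by
  have h1 := (hMAX μ hμ).2.1 U w 0 B y hy ho hb le_rfl hc hd
    (fun x hx => ⟨(hl x hx).1.ge, (le_abs_self _).trans (hl x hx).2⟩) (fun x hx => (hf x hx).le) x hx
  have h2 := (hMAX μ hμ).2.1 U (fun z => -w z) 0 B y hy ho hb le_rfl hc.neg hd.neg
    (fun x hx => ⟨by rw [lap_neg, (hl x hx).1]; exact (mul_neg _ _).le,
      (neg_le_abs _).trans (hl x hx).2⟩) (fun x hx => by simp [hf x hx]) x hx
  linarith

lemma k0_lim (hA3 : St_A3) :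
    ∃ g, Tendsto (fun x => k0 x + Real.log x) (𝓝[>] 0) (𝓝 g) := by
  obtain ⟨-, -, -, -, -, -, -, -, C, g, h⟩ := hA3
  refine ⟨g, tendsto_iff_norm_sub_tendsto_zero.2 (squeeze_zero' (g := fun x => C * (x * √x))
    (Eventually.of_forall fun _ => norm_nonneg _) ?_ ?_)⟩
  · filter_upwards [Ioc_mem_nhdsGT (one_pos : (0 : ℝ) < 1)] with x hx using (h x hx.1).2.2 hx.2
  · have : Continuous fun x : ℝ => C * (x * √x) := by fun_prop
    simpa using (this.tendsto 0).mono_left nhdsWithin_le_nhds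

lemma gr_lim (hA3 : St_A3) {μ μ' : ℝ} (hμ : 0 < μ) (hμ' : 0 < μ') :
    Tendsto (fun z => Gr μ z - Gr μ' z) (𝓝[≠] 0) (𝓝 (Real.log (μ' / μ) / (2 * π))) := by
  obtain ⟨g, h⟩ := k0_lim hA3
  have t : ∀ a : ℝ, 0 < a → Tendsto (fun z : ℂ => a * ‖z‖) (𝓝[≠] 0) (𝓝[>] 0) := fun a ha => by
    refine tendsto_nhdsWithin_iff.2 ⟨?_, ?_⟩
    · have : Continuous fun z : ℂ => a * ‖z‖ := by fun_prop
      simpa using (this.tendsto 0).mono_left nhdsWithin_le_nhds
    · filter_upwards [self_mem_nhdsWithin] with z hz using mul_pos ha (norm_pos_iff.2 hz)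
  have h2 := (((h.comp (t μ hμ)).sub (h.comp (t μ' hμ'))).add_const
    (Real.log (μ' / μ))).div_const (2 * π)
  rw [sub_self, zero_add] at h2
  refine h2.congr' ?_
  filter_upwards [self_mem_nhdsWithin] with z hz
  have n : ‖z‖ ≠ 0 := norm_ne_zero_iff.2 hz
  simp only [Function.comp, Gr, Real.log_mul hμ.ne' n, Real.log_mul hμ'.ne' n,
    Real.log_div hμ'.ne' hμ.ne']
  ring

lemma gr_comm (μ : ℝ) (x y : ℂ) : Gr μ (x - y) = Gr μ (y - x) := by
  rw [Gr, Gr, norm_sub_rev]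

lemma ae_ne (Ω : Set ℂ) (ho : IsOpen Ω) (y : ℂ) :
    ∀ᵐ z ∂(volume.restrict Ω), z ∈ Ω ∧ z ≠ y :=
  (ae_restrict_mem ho.measurableSet).and (ae_restrict_of_ae (Measure.ae_ne volume y))

section
variable (hGRE : St_GRE) {μ : ℝ} {γ : ℝ → ℂ} {Ω : Set ℂ} (h : Pot μ γ Ω)
include hGRE h

lemma rg_comm {x y : ℂ} (hx : x ∈ Ω) (hy : y ∈ Ω) : Rg μ γ Ω x y = Rg μ γ Ω y x := by
  rw [Rg, Rg, gr_comm, (((hGRE μ γ Ω h).2.2.2 y hy).2.2.1 x hx).1]

lemma rg_nn {x y : ℂ} (hx : x ∈ Ω) (hy : y ∈ Ω) (hn : x ≠ y) : 0 ≤ Rg μ γ Ω x y :=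
  (((hGRE μ γ Ω h).2.2.2 y hy).2.2.1 x hx).2.2.1 hn

lemma rg_le {x y : ℂ} (hx : x ∈ Ω) (hy : y ∈ Ω) : Rg μ γ Ω x y ≤ Gr μ (x - y) :=
  sub_le_self _ (((hGRE μ γ Ω h).2.2.2 y hy).2.2.1 x hx).2.1

lemma hr_cont {y : ℂ} (hy : y ∈ Ω) : ContinuousOn (fun x => hR μ γ Ω x y) (closure Ω) := by
  have := (hGRE μ γ Ω h).1.comp (f := fun x : ℂ => (x, y)) (s := closure Ω) (by fun_prop)
    fun _ hx => ⟨hx, hy⟩
  simpa only [Function.comp_def, Function.uncurry_apply_pair] using this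

lemma rg_har (hLAY : St_LAY) {y : ℂ} (hy : y ∈ Ω) :
    Har μ (Ω \ {y}) fun x => Rg μ γ Ω x y := by
  have hG := (hLAY μ h.pos).1.1
  have hH := ((hGRE μ γ Ω h).2.2.2 y hy).1
  have a : ∀ x ∈ Ω \ {y}, ContDiffAt ℝ 2 (fun z => Gr μ (z - y)) x ∧
      ContDiffAt ℝ 2 (fun z => hR μ γ Ω z y) x := fun x hx =>
    ⟨(hG.1.contDiffAt (isOpen_compl_singleton.mem_nhds (sub_ne_zero.2 hx.2))).comp x
      (contDiffAt_id.sub contDiffAt_const), hH.1.contDiffAt (h.cd.opn.mem_nhds hx.1)⟩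
  refine ⟨fun x hx => ((a x hx).1.sub (a x hx).2).contDiffWithinAt, fun x hx => ?_⟩
  have := lap_sub 1 (a x hx).1 (a x hx).2
  simp only [one_mul] at this
  simp only [Rg]
  rw [this, lap_shift, hG.2 _ (sub_ne_zero.2 hx.2), hH.2 x hx.1]
  ring

lemma rg_meas (hLAY : St_LAY) : AEStronglyMeasurable (fun p : ℂ × ℂ => Rg μ γ Ω p.1 p.2)
    ((volume.restrict Ω).prod (volume.restrict Ω)) := by
  have m := h.cd.opn.measurableSet
  refine ((hLAY μ h.pos).1.2.2.1.comp (measurable_fst.sub measurable_snd)).aestronglyMeasurable.sub ?_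
  rw [Measure.prod_restrict]
  exact ((hGRE μ γ Ω h).1.mono (prod_mono subset_closure le_rfl)).aestronglyMeasurable (m.prod m)

lemma src (hLAY : St_LAY) {y : ℂ} (hy : y ∈ Ω) :
    MemLp (Ω.indicator fun z => Rg μ γ Ω z y) 2 := by
  have m := h.cd.opn.measurableSet
  have hG := (hLAY μ h.pos).1
  rw [memLp_indicator_iff_restrict m]
  refine ((hG.2.2.2.2.1.comp_measurePreserving (measurePreserving_sub_right volume y)).restrict
    Ω).of_le ?_ ?_
  · exact (hG.2.2.1.comp (measurable_id.sub measurable_const)).aestronglyMeasurable.sub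
      (((hr_cont hGRE h hy).mono subset_closure).aestronglyMeasurable m)
  · filter_upwards [ae_ne Ω h.cd.opn y] with z hz
    rw [Real.norm_of_nonneg (rg_nn hGRE h hz.1 hy hz.2)]
    exact (rg_le hGRE h hz.1 hy).trans (le_abs_self _)

end

lemma key (hA3 : St_A3) (hLAY : St_LAY) (hVP : St_VP) (hMAX : St_MAX) (hPOI : St_POI)
    (hGRE : St_GRE) {μ μ' : ℝ} {γ : ℝ → ℂ} {Ω : Set ℂ} (h : Pot μ γ Ω) (h' : Pot μ' γ Ω) {y : ℂ}
    (hy : y ∈ Ω) : (∀ x ∈ Ω, IntegrableOn (fun z => Rg μ γ Ω x z * Rg μ' γ Ω z y) Ω ∧ (x ≠ y →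
      Rg μ γ Ω x y - Rg μ' γ Ω x y =
        (μ' ^ 2 - μ ^ 2) * ∫ z in Ω, Rg μ γ Ω x z * Rg μ' γ Ω z y)) ∧
    (μ' ^ 2 - μ ^ 2) * ∫ z in Ω, Rg μ γ Ω y z * Rg μ' γ Ω z y =
      Real.log (μ' / μ) / (2 * π) - hR μ γ Ω y y + hR μ' γ Ω y y := by
  classical
  have m := h.cd.opn.measurableSet
  have hO : IsOpen (Ω \ {y}) := h.cd.opn.sdiff isClosed_singleton
  obtain ⟨F, hF⟩ : ∃ F, F = Ω.indicator fun z => Rg μ' γ Ω z y := ⟨_, rfl⟩
  have F2 : MemLp F 2 := hF ▸ src hGRE h' hLAY hy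
  have F0 : ∀ z ∉ Ω, F z = 0 := fun z hz => by rw [hF, indicator_of_notMem hz]
  have F1 : ∀ z ∈ Ω, F z = Rg μ' γ Ω z y := fun z hz => by rw [hF, indicator_of_mem hz]
  obtain ⟨R, hR0⟩ := h.cd.bdd.exists_norm_le
  obtain ⟨v1, v2⟩ := hVP μ F h.pos F2 ⟨R, fun z hz => F0 z fun hz' => (hR0 z hz').not_gt hz⟩
  have r := rg_har hGRE h hLAY hy
  have r' := rg_har hGRE h' hLAY hy
  obtain ⟨v3, v4⟩ := v2 _ hO (r'.1.congr fun z hz => F1 z hz.1)
  obtain ⟨p1, p2, p3, -⟩ := (hPOI μ γ Ω h).1 (fun t => Vp μ F (γ t))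
    ⟨v1.comp h.cd.smooth.continuous, fun t => by simp only [h.cd.per t]⟩
  obtain ⟨U, hU⟩ : ∃ U, U = Ue μ γ Ω fun t => Vp μ F (γ t) := ⟨_, rfl⟩
  have rep : ∀ x ∈ Ω, IntegrableOn (fun z => Rg μ γ Ω x z * Rg μ' γ Ω z y) Ω ∧
      ∫ z in Ω, Rg μ γ Ω x z * Rg μ' γ Ω z y = Vp μ F x - 1 * U x := fun x hx => by
    obtain ⟨a, b⟩ := (hGRE μ γ Ω h).2.2.1 F F2 F0 x hx
    have e : EqOn (fun z => Rg μ γ Ω x z * F z) (fun z => Rg μ γ Ω x z * Rg μ' γ Ω z y) Ω :=
      fun z hz => by simp only [F1 z hz]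
    exact ⟨a.congr_fun e m, by rw [← setIntegral_congr_fun m e, b, hU, one_mul]⟩
  rw [← hU] at p1 p2 p3
  obtain ⟨c, hc⟩ : ∃ c, c = μ' ^ 2 - μ ^ 2 := ⟨_, rfl⟩
  obtain ⟨L, hL⟩ : ∃ L, L = Real.log (μ' / μ) / (2 * π) := ⟨_, rfl⟩
  have dc : Continuous (Function.update (fun z => Gr μ z - Gr μ' z) 0 L) := by
    refine continuous_iff_continuousAt.2 fun z => ?_
    by_cases hz : z = 0
    · rw [hz, hL]
      exact continuousAt_update_same.2 (gr_lim hA3 h.pos h'.pos)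
    · have o := isOpen_compl_singleton.mem_nhds hz
      exact (continuousAt_update_of_ne hz).2
        (((hLAY μ h.pos).1.1.1.continuousOn.continuousAt o).sub
          ((hLAY μ' h'.pos).1.1.1.continuousOn.continuousAt o))
  obtain ⟨W, hW⟩ : ∃ W : ℂ → ℝ, W = fun x => Function.update (fun z => Gr μ z - Gr μ' z) 0 L (x - y) -
    hR μ γ Ω x y + hR μ' γ Ω x y - c * (Vp μ F x - 1 * U x) := ⟨_, rfl⟩
  have wc : ContinuousOn W (closure Ω) := hW ▸
    (((dc.comp (continuous_id.sub continuous_const)).continuousOn.sub (hr_cont hGRE h hy)).add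
      (hr_cont hGRE h' hy)).sub (continuousOn_const.mul (v1.continuousOn.sub
        (continuousOn_const.mul p1)))
  have we : ∀ x, x ≠ y →
      Rg μ γ Ω x y - 1 * Rg μ' γ Ω x y - c * (Vp μ F x - 1 * U x) = W x := fun x hx => by
    simp only [hW, Function.update_of_ne (sub_ne_zero.2 hx), Rg]
    ring
  obtain ⟨B, hB⟩ := h.cd.bdd.isCompact_closure.exists_bound_of_continuousOn wc
  have z0 := zero_of hMAX h.pos (B := B)
    (w := fun x => Rg μ γ Ω x y - 1 * Rg μ' γ Ω x y - c * (Vp μ F x - 1 * U x)) hy h.cd.opn h.cd.bdd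
    ((wc.mono sdiff_subset).congr fun x hx => we x hx.2)
    ((r.1.sub (contDiffOn_const.mul r'.1)).sub (contDiffOn_const.mul
      (v3.sub (contDiffOn_const.mul (p2.1.mono sdiff_subset))))) (fun x hx => ?_) fun x hx => ?_
  · refine ⟨fun x hx => ⟨(rep x hx).1, fun hn => ?_⟩, ?_⟩
    · have := z0 x ⟨hx, hn⟩
      rw [(rep x hx).2, ← hc]
      linarith
    · have o := h.cd.opn.mem_nhds hy
      have t1 : Tendsto W (𝓝[≠] y) (𝓝 (W y)) :=
        (wc.continuousAt (mem_of_superset o subset_closure)).tendsto.mono_left nhdsWithin_le_nhds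
      have t2 : Tendsto W (𝓝[≠] y) (𝓝 0) := tendsto_const_nhds.congr' (by
        filter_upwards [self_mem_nhdsWithin, mem_nhdsWithin_of_mem_nhds o] with x h1 h2
        rw [← we x h1]
        exact (z0 x ⟨h2, h1⟩).symm)
      have := tendsto_nhds_unique t1 t2
      simp only [hW, sub_self, Function.update_self] at this
      rw [(rep y hy).2, ← hc, ← hL]
      linarith
  · have o := hO.mem_nhds hx
    have a1 := r.1.contDiffAt o
    have a2 := r'.1.contDiffAt o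
    have a3 := v3.contDiffAt o
    have a4 := p2.1.contDiffAt (h.cd.opn.mem_nhds hx.1)
    refine ⟨?_, by rw [we x hx.2]; exact hB x (subset_closure hx.1)⟩
    rw [lap_sub c (a1.sub (contDiffAt_const.mul a2)) (a3.sub (contDiffAt_const.mul a4)),
      lap_sub 1 a1 a2, lap_sub 1 a3 a4, r.2 x hx, r'.2 x hx, p2.2 x hx.1,
      show lap (Vp μ F) x = μ ^ 2 * Vp μ F x - Rg μ' γ Ω x y by
        linarith [v4 x hx, F1 x hx.1], hc]
    ring
  · rw [h.cd.fr] at hx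
    obtain ⟨t, rfl⟩ := hx
    simp only [((hGRE μ γ Ω h).2.2.2 y hy).2.1 t, ((hGRE μ' γ Ω h').2.2.2 y hy).2.1 t, p3 t]
    ring

end RES

open RES in
theorem st_res (hA3 : St_A3) (hLAY : St_LAY) (hVP : St_VP) (hMAX : St_MAX) (hPOI : St_POI)
    (hGRE : St_GRE) : St_RES := by
  intro μ μ' γ Ω h h'
  have k := fun y hy => key hA3 hLAY hVP hMAX hPOI hGRE h h' (y := y) hy
  have m := h.cd.opn.measurableSet
  have fin : volume Ω < ⊤ := h.cd.bdd.measure_lt_top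
  have e : ∀ y ∈ Ω, EqOn (fun z => Rg μ γ Ω y z * Rg μ' γ Ω z y)
      (fun z => Rg μ γ Ω y z * Rg μ' γ Ω y z) Ω := fun y hy z hz => by
    simp only [rg_comm hGRE h' hz hy]
  have ic : ∀ a : ℝ, IntegrableOn (fun _ : ℂ => a) Ω := fun a => integrableOn_const fin.ne
  refine ⟨fun x hx y hy hn => ⟨((k y hy).1 x hx).1, ((k y hy).1 x hx).2 hn⟩, ?_, ?_⟩
  · have ms := (rg_meas hGRE h hLAY).mul (rg_meas hGRE h' hLAY)
    have g : Integrable fun z => Gr μ z * Gr μ' z :=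
      (hLAY μ h.pos).1.2.2.2.2.1.integrable_mul (hLAY μ' h'.pos).1.2.2.2.2.1
    refine (integrable_prod_iff ms).2 ⟨?_, (ic (∫ z, |Gr μ z * Gr μ' z|)).mono'
      ms.norm.integral_prod_right' ?_⟩
    · filter_upwards [ae_restrict_mem m] with x hx
      exact ((k x hx).1 x hx).1.congr_fun (e x hx) m
    · filter_upwards [ae_restrict_mem m] with x hx
      have g1 := g.abs.comp_sub_left x
      refine (norm_integral_le_of_norm_le g1.integrableOn ?_).trans ((setIntegral_le_integral g1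
        (Eventually.of_forall fun _ => abs_nonneg _)).trans_eq
          (integral_sub_left_eq_self (fun z => |Gr μ z * Gr μ' z|) volume x))
      filter_upwards [ae_ne Ω h.cd.opn x] with z hz
      have a := rg_nn hGRE h hx hz.1 hz.2.symm
      have a' := rg_nn hGRE h' hx hz.1 hz.2.symm
      have b := rg_le hGRE h hx hz.1
      rw [norm_norm, Pi.mul_apply, Real.norm_of_nonneg (mul_nonneg a a')]
      exact (mul_le_mul b (rg_le hGRE h' hx hz.1) a' (a.trans b)).trans (le_abs_self _)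
  · have i := (hGRE μ γ Ω h).2.1
    have i' := (hGRE μ' γ Ω h').2.1
    rw [RR, ← integral_const_mul, setIntegral_congr_fun m (g := fun y => Real.log (μ' / μ) / (2 * π) -
      hR μ γ Ω y y + hR μ' γ Ω y y) fun y hy => by
        simp only [← setIntegral_congr_fun m (e y hy), (k y hy).2],
      integral_add (f := fun y => Real.log (μ' / μ) / (2 * π) - hR μ γ Ω y y) ((ic _).sub i) i',
      integral_sub (ic _) i, setIntegral_const, TB, TB, smul_eq_mul]
    ring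

end Pool.Agent.Lib.IS2
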