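import Pool.Agent.Lib.IS2.B_BR

/-! Matching of the branches of two curvature functions. -/

open scoped ContDiff ComplexConjugate Topology Real
open Complex MeasureTheory Set Filter

noncomputable section

namespace Pool.Agent.Lib.IS2

open Pool.Agent.Lib.ISO BR

namespace S12

variable {κ κ' : ℝ → ℝ} {a b : ℝ} {N N' : ℕ} {s : Fin N → ℝ → ℝ} {s' : Fin N' → ℝ → ℝ}

lemma mono (hB : Br κ a b N s) {a' b' : ℝ} (h : Ioo a' b' ⊆ Ioo a b) : Br κ a' b' N s :=
  ⟨fun i c hc => hB.lev i c (h hc), fun i c hc => hB.ne i c (h hc), fun i c hc => hB.der i c (h hc),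
    fun i k c hc => hB.inj i k c (h hc), fun c hc => hB.all c (h hc)⟩

lemma sub_nhds {x : ℝ} {V : Set ℝ} (h : V ∈ 𝓝 x) : ∃ a b, a < b ∧ Ioo a b ⊆ V := by
  obtain ⟨a, b, h1, h2⟩ := mem_nhds_iff_exists_Ioo_subset.1 h
  exact ⟨a, b, h1.1.trans h1.2, h2⟩

lemma dich {ι : Type} [Fintype ι] (f : ι → ℝ → ℝ) (hab : a < b)
    (hf : ∀ i, ContinuousOn (f i) (Ioo a b)) : ∃ a' b', a' < b' ∧ Ioo a' b' ⊆ Ioo a b ∧
      ∀ i, (∀ x ∈ Ioo a' b', f i x = 0) ∨ ∀ x ∈ Ioo a' b', f i x ≠ 0 := by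
  classical
  have : ∀ S : Finset ι, ∃ a' b', a' < b' ∧ Ioo a' b' ⊆ Ioo a b ∧
      ∀ i ∈ S, (∀ x ∈ Ioo a' b', f i x = 0) ∨ ∀ x ∈ Ioo a' b', f i x ≠ 0 := by
    intro S
    induction S using Finset.induction_on with
    | empty => exact ⟨a, b, hab, Subset.rfl, by simp⟩
    | insert i S _ ih =>
      obtain ⟨a', b', h1, h2, h3⟩ := ih
      by_cases h : ∀ x ∈ Ioo a' b', f i x = 0
      · exact ⟨a', b', h1, h2, Finset.forall_mem_insert _ _ _ |>.2 ⟨Or.inl h, h3⟩⟩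
      push Not at h
      obtain ⟨x, hx, h⟩ := h
      obtain ⟨p, q, h4, h5⟩ := sub_nhds (inter_mem (isOpen_Ioo.mem_nhds hx)
        (((hf i).continuousAt (isOpen_Ioo.mem_nhds (h2 hx))).eventually_ne h))
      refine ⟨p, q, h4, fun y hy => h2 (h5 hy).1, Finset.forall_mem_insert _ _ _ |>.2
        ⟨Or.inr fun y hy => (h5 hy).2, fun k hk => ?_⟩⟩
      exact (h3 k hk).imp (fun H y hy => H y (h5 hy).1) fun H y hy => H y (h5 hy).1
  obtain ⟨a', b', h1, h2, h3⟩ := this Finset.univ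
  exact ⟨a', b', h1, h2, fun i => h3 i (Finset.mem_univ _)⟩

lemma cd (h : Per (2 * π) κ) (hB : Br κ a b N s) (i : Fin N) {x : ℝ} (hx : x ∈ Ioo a b) :
    ContinuousAt (fun x => (deriv κ (s i x))⁻¹) x :=
  ((cont' h).continuousAt.comp (hB.der i x hx).continuousAt).inv₀ (hB.ne i x hx)

lemma pair (h : Per (2 * π) κ) (h' : Per (2 * π) κ') (hB : Br κ a b N s) (hB' : Br κ' a b N' s')
    (hab : a < b) : ∃ a' b', a' < b' ∧ Ioo a' b' ⊆ Ioo a b ∧ ∀ i k,
      (∀ x ∈ Ioo a' b', sl κ' (s' k x) ≠ sl κ (s i x)) ∨ ∃ τ β : ℝ, (τ = 1 ∨ τ = -1) ∧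
        ∀ x ∈ Ioo a' b', s' k x = τ * s i x + β ∧ sl κ' (s' k x) = sl κ (s i x) := by
  obtain ⟨a', b', h1, h2, h3⟩ := dich (fun (p : Fin N × Fin N' × Bool) x =>
    (deriv κ' (s' p.2.1 x))⁻¹ - (cond p.2.2 1 (-1)) * (deriv κ (s p.1 x))⁻¹) hab fun p x hx =>
      ((cd h' hB' _ hx).sub ((cd h hB _ hx).const_mul _)).continuousWithinAt
  refine ⟨a', b', h1, h2, fun i k => ?_⟩
  have key : ∀ τ : ℝ, τ = 1 ∨ τ = -1 → (∀ x ∈ Ioo a' b',
      (deriv κ' (s' k x))⁻¹ - τ * (deriv κ (s i x))⁻¹ = 0) → ∃ τ β : ℝ, (τ = 1 ∨ τ = -1) ∧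
        ∀ x ∈ Ioo a' b', s' k x = τ * s i x + β ∧ sl κ' (s' k x) = sl κ (s i x) := by
    intro τ hτ H
    have hd : ∀ x ∈ Ioo a' b', HasDerivAt (fun x => s' k x - τ * s i x) 0 x := fun x hx =>
      H x hx ▸ (hB'.der k x (h2 hx)).sub ((hB.der i x (h2 hx)).const_mul τ)
    obtain ⟨β, hβ⟩ := isOpen_Ioo.exists_is_const_of_deriv_eq_zero isPreconnected_Ioo
      (fun x hx => (hd x hx).differentiableAt.differentiableWithinAt) fun x hx => (hd x hx).deriv
    refine ⟨τ, β, hτ, fun x hx => ⟨by linarith [hβ x hx], ?_⟩⟩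
    rw [sl, sl, ← abs_inv, ← abs_inv, sub_eq_zero.1 (H x hx)]
    rcases hτ with rfl | rfl <;> simp
  rcases h3 (i, k, true) with H | H
  · exact Or.inr (key 1 (Or.inl rfl) H)
  rcases h3 (i, k, false) with H' | H'
  · exact Or.inr (key (-1) (Or.inr rfl) H')
  refine Or.inl fun x hx e => ?_
  rw [sl, sl, ← abs_inv, ← abs_inv, abs_eq_abs] at e
  rcases e with e | e
  · exact H x hx (by simp [e])
  · exact H' x hx (by simp [e])

lemma self (h : Per (2 * π) κ) (hG : G01 κ) (hB : Br κ a b N s) (hab : a < b) {i k : Fin N} {τ β : ℝ}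
    (hτ : τ = 1 ∨ τ = -1) (H : ∀ x ∈ Ioo a b, s k x = τ * s i x + β) : i = k := by
  obtain ⟨x, hx⟩ := nonempty_Ioo.2 hab
  have hs := hasStrictDerivAt_of_hasDerivAt_of_continuousAt
    (eventually_of_mem (isOpen_Ioo.mem_nhds hx) fun y hy => hB.der i y hy) (cd h hB i hx)
  have e : (fun u => (fun v => κ (v + β)) (τ * u)) =ᶠ[𝓝 (s i x)] κ := by
    rw [← hs.map_nhds_eq (inv_ne_zero (hB.ne i x hx)), eventuallyEq_map]
    filter_upwards [isOpen_Ioo.mem_nhds hx] with y hy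
    simp only [Function.comp_apply]
    rw [← H y hy, hB.lev k y hy, hB.lev i y hy]
  obtain ⟨n, hn⟩ := hG.2 (s k x) (s i x) fun n _ => by
    rw [← e.iteratedDeriv_eq n, iteratedDeriv_comp_const_mul (f := fun v => κ (v + β))
      ((h.smooth.of_le (by exact_mod_cast le_top)).comp (by fun_prop)), iteratedDeriv_comp_add_const,
      H x hx]
    rcases hτ with rfl | rfl <;> simp [abs_mul]
  exact hB.inj i k x hx n hn

lemma ev_le {f : ℝ → ℝ} {c1 c2 : ℝ} (hf : ContinuousOn f (Icc c1 c2)) :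
    ∀ᶠ j : ℕ in atTop, ∀ x ∈ Icc c1 c2, f x ≤ j := by
  obtain ⟨B, hB⟩ := isCompact_Icc.exists_bound_of_continuousOn hf
  filter_upwards [tendsto_natCast_atTop_atTop.eventually_ge_atTop B] with j hj x hx
  exact ((le_abs_self _).trans (hB x hx)).trans hj

lemma ev_ge {f : ℝ → ℝ} {c1 c2 : ℝ} (hf : ContinuousOn f (Icc c1 c2))
    (h0 : ∀ x ∈ Icc c1 c2, f x ≠ 0) : ∀ᶠ j : ℕ in atTop, ∀ x ∈ Icc c1 c2, (j : ℝ)⁻¹ ≤ |f x| := by
  filter_upwards [ev_le (hf.abs.inv₀ fun x hx => abs_ne_zero.2 (h0 x hx))] with j hj x hx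
  exact inv_le_of_inv_le₀ (abs_pos.2 (h0 x hx)) (hj x hx)

lemma test (h : Per (2 * π) κ) (h' : Per (2 * π) κ') (hB : Br κ a b N s) (hB' : Br κ' a b N' s')
    (hS : ∀ x ∈ Ioo a b, ∑ i, sl κ (s i x) = ∑ k, sl κ' (s' k x)) (i0 : Fin N) (A : Finset (Fin N'))
    (τ β : ℝ) (h1 : ∀ i ≠ i0, ∀ x ∈ Ioo a b, sl κ (s i x) ≠ sl κ (s i0 x))
    (h2 : ∀ k ∉ A, ∀ x ∈ Ioo a b, sl κ' (s' k x) ≠ sl κ (s i0 x))
    (h3 : ∀ k ∈ A, (τ = 1 ∨ τ = -1) ∧ ∀ x ∈ Ioo a b, s' k x = τ * s i0 x + β) {c : ℂ}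
    {j W : ℕ → ℕ} {a0 a1 : ℕ → ℂ} (hj : ∀ n, n ≤ j n)
    (hT : ∀ n, Tst κ κ' c (j n) (W n) (a0 n) (a1 n)) {c1 c2 : ℝ} (e1 : a < c1) (e2 : c1 < c2)
    (e3 : c2 < b) : Tendsto (fun n => ∫ x in c1..c2, (1 + c * exp (I * s i0 x) -
      ∑ _k ∈ A, res (W n) (a0 n) (a1 n) τ β (s i0 x))) atTop (𝓝 0) := by
  have hs : Icc c1 c2 ⊆ Ioo a b := Icc_subset_Ioo e1 e3
  have c0 := fun i => (csl h hB i).mono hs
  have c0' := fun k => (csl h' hB' k).mono hs
  have hj' : Tendsto j atTop atTop := tendsto_atTop_mono hj tendsto_id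
  refine squeeze_zero_norm' ?_
    (tendsto_inv_atTop_zero.comp (tendsto_natCast_atTop_atTop.comp hj'))
  have v1 := eventually_all.2 fun i => ev_le (c0 i)
  have v2 := eventually_all.2 fun k => ev_le (c0' k)
  have v3 := eventually_all.2 fun i => eventually_imp_distrib_left.2 fun hi : i ≠ i0 =>
    ev_ge ((c0 i).sub (c0 i0)) fun x hx => sub_ne_zero.2 (h1 i hi x (hs hx))
  have v4 := eventually_all.2 fun k => eventually_imp_distrib_left.2 fun hk : k ∉ A =>
    ev_ge ((c0' k).sub (c0 i0)) fun x hx => sub_ne_zero.2 (h2 k hk x (hs hx))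
  filter_upwards [hj'.eventually v1, hj'.eventually v2, hj'.eventually v3, hj'.eventually v4,
    hj'.eventually_ge_atTop N, hj'.eventually_ge_atTop N'] with n w1 w2 w3 w4 w5 w6
  exact hT n a b c1 c2 N N' s s' i0 A (fun _ => τ) (fun _ => β) hB hB' hS w5 w6 e1 e2 e3
    fun x hx => ⟨fun i => w1 i x hx, fun k => w2 k x hx, fun i hi => w3 i hi x hx,
      fun k hk => w4 k hk x hx, fun k hk => ⟨(h3 k hk).1, (h3 k hk).2 x (hs hx)⟩⟩

lemma lim {g g' : ℝ → ℝ} (hab : a < b) (hg : ∀ x ∈ Ioo a b, HasDerivAt g (g' x) x ∧ g' x ≠ 0)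
    {u0 u1 : ℕ → ℂ} {c : ℂ} (H : ∀ c1 c2, a < c1 → c1 < c2 → c2 < b → Tendsto (fun n =>
      ∫ x in c1..c2, (1 + c * exp (I * g x) - (u0 n + u1 n * exp (I * g x)))) atTop (𝓝 0)) :
    Tendsto u0 atTop (𝓝 1) ∧ Tendsto u1 atTop (𝓝 c) := by
  obtain ⟨m, hm⟩ := nonempty_Ioo.2 hab
  have hd : ∀ x ∈ Ioo a b, HasDerivAt (fun x => exp (I * g x)) (exp (I * g x) * (I * g' x)) x :=
    fun x hx => ((hg x hx).1.ofReal_comp.const_mul I).cexp
  have hc : ContinuousOn (fun x => exp (I * g x)) (Ioo a b) := fun x hx =>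
    (hd x hx).continuousAt.continuousWithinAt
  have hi : ∀ y ∈ Ioo m b, IntervalIntegrable (fun x => exp (I * g x)) volume m y := fun y hy =>
    (hc.mono (by rw [uIcc_of_le hy.1.le]; exact Icc_subset_Ioo hm.1 hy.2)).intervalIntegrable
  set E : ℝ → ℂ := fun y => ∫ x in m..y, exp (I * g x) with hE
  have hT : ∀ y ∈ Ioo m b, Tendsto (fun n => (1 - u0 n) * (y - m : ℝ) + (c - u1 n) * E y) atTop
      (𝓝 0) := fun y hy => (H m y hm.1 hy.1 hy.2).congr fun n => by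
    have : ∀ x, 1 + c * exp (I * g x) - (u0 n + u1 n * exp (I * g x)) =
      (1 - u0 n) + (c - u1 n) * exp (I * g x) := fun x => by ring
    simp only [this]
    rw [intervalIntegral.integral_add intervalIntegrable_const ((hi y hy).const_mul _),
      intervalIntegral.integral_const, intervalIntegral.integral_const_mul, real_smul, mul_comm]
  obtain ⟨y, hy⟩ := nonempty_Ioo.2 hm.2
  have hy0 : ((y - m : ℝ) : ℂ) ≠ 0 := ofReal_ne_zero.2 (sub_pos.2 hy.1).ne'
  obtain ⟨z, hz, hD⟩ : ∃ z ∈ Ioo m b, (y - m : ℝ) * E z - (z - m : ℝ) * E y ≠ 0 := by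
    by_contra h0
    push Not at h0
    have hs : Ioo m b ⊆ Ioo a b := Ioo_subset_Ioo_left hm.1.le
    have e1 : ∀ z ∈ Ioo m b, (y - m : ℝ) * exp (I * g z) - E y = 0 := fun z hz => by
      have d1 : HasDerivAt E (exp (I * g z)) z := intervalIntegral.integral_hasDerivAt_right
        (hi z hz) (hc.stronglyMeasurableAtFilter isOpen_Ioo z (hs hz)) (hd z (hs hz)).continuousAt
      have d2 := (d1.const_mul ((y - m : ℝ) : ℂ)).sub
        ((((hasDerivAt_id z).sub_const m).ofReal_comp).mul_const (E y))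
      have d3 := d2.unique ((hasDerivAt_const z (0 : ℂ)).congr_of_eventuallyEq
        (eventually_of_mem (isOpen_Ioo.mem_nhds hz) h0))
      simpa using d3
    have d4 := (((hd y (hs hy)).const_mul ((y - m : ℝ) : ℂ)).sub_const (E y)).unique
      ((hasDerivAt_const y (0 : ℂ)).congr_of_eventuallyEq
        (eventually_of_mem (isOpen_Ioo.mem_nhds hy) e1))
    exact mul_ne_zero hy0 (mul_ne_zero (exp_ne_zero _)
      (mul_ne_zero I_ne_zero (ofReal_ne_zero.2 (hg y (hs hy)).2))) d4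
  have t1 : Tendsto (fun n => c - u1 n) atTop (𝓝 0) := by
    have := (((hT z hz).const_mul ((y - m : ℝ) : ℂ)).sub
      ((hT y hy).const_mul ((z - m : ℝ) : ℂ))).div_const ((y - m : ℝ) * E z - (z - m : ℝ) * E y)
    simp only [mul_zero, sub_zero, zero_div] at this
    exact this.congr fun n => by rw [div_eq_iff hD]; ring
  have t0 : Tendsto (fun n => 1 - u0 n) atTop (𝓝 0) := by
    have := ((hT y hy).sub (t1.mul_const (E y))).div_const ((y - m : ℝ) : ℂ)
    simp only [zero_mul, sub_zero, zero_div] at this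
    exact this.congr fun n => by rw [div_eq_iff hy0]; ring
  exact ⟨by simpa using t0.const_sub 1, by simpa using t1.const_sub c⟩

lemma ratio {g g' : ℝ → ℝ} (hab : a < b) (hg : ∀ x ∈ Ioo a b, HasDerivAt g (g' x) x ∧ g' x ≠ 0)
    {W : ℕ → ℕ} {a0 a1 : ℕ → ℂ} {c : ℂ} {τ β : ℝ}
    (H : ∀ c1 c2, a < c1 → c1 < c2 → c2 < b → Tendsto (fun n =>
      ∫ x in c1..c2, (1 + c * exp (I * g x) - res (W n) (a0 n) (a1 n) τ β (g x))) atTop (𝓝 0)) :
    Tendsto (fun n => a1 n / a0 n * exp (I * β)) atTop (𝓝 (if τ = 1 then c else conj c)) := by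
  have k : ∀ n, a1 n * exp (I * β) * exp (I * (W n : ℂ) ^ 2 * β) /
      (a0 n * exp (I * (W n : ℂ) ^ 2 * β)) = a1 n / a0 n * exp (I * β) := fun n => by
    rw [mul_div_mul_right _ _ (exp_ne_zero _), div_mul_eq_mul_div]
  split_ifs with hτ
  · obtain ⟨t0, t1⟩ := lim (c := c) hab hg (u0 := fun n => a0 n * exp (I * (W n : ℂ) ^ 2 * β))
      (u1 := fun n => a1 n * exp (I * β) * exp (I * (W n : ℂ) ^ 2 * β)) fun c1 c2 e1 e2 e3 =>
      (H c1 c2 e1 e2 e3).congr fun n => intervalIntegral.integral_congr fun x _ => by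
        simp only [res, if_pos hτ, ofReal_add, mul_add, exp_add]
        ring
    simpa only [div_one, Pi.div_def, k] using t1.div t0 one_ne_zero
  · obtain ⟨t0, t1⟩ := lim (c := c) hab hg
      (u0 := fun n => conj (a0 n * exp (I * (W n : ℂ) ^ 2 * β)))
      (u1 := fun n => conj (a1 n * exp (I * β) * exp (I * (W n : ℂ) ^ 2 * β))) fun c1 c2 e1 e2 e3 =>
      (H c1 c2 e1 e2 e3).congr fun n => intervalIntegral.integral_congr fun x _ => by
        have : exp (I * g x) = conj (exp (-(I * g x))) := by simp [← exp_conj]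
        simp only [res, if_neg hτ, ofReal_sub, mul_sub, sub_eq_add_neg (I * β), exp_add]
        rw [this]
        simp only [map_mul, map_add]
        ring
    have := (continuous_conj.tendsto _).comp (t1.div t0 one_ne_zero)
    simpa only [div_one, Pi.div_def, Function.comp_def, ← map_div₀, k, conj_conj] using this

lemma reg (hBR : St_BR) (h : Per (2 * π) κ) (h' : Per (2 * π) κ') (hG : G01 κ) {p q : ℝ}
    (hpq : p < q) : ∃ (a b : ℝ) (N N' : ℕ) (s : Fin N → ℝ → ℝ) (s' : Fin N' → ℝ → ℝ) (i : Fin N)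
      (n : ℤ), a < b ∧ Br κ a b N s ∧ Br κ' a b N' s' ∧
      ∀ x ∈ Ioo a b, s i x + n * (2 * π) ∈ Ioo p q := by
  obtain ⟨t1, m1, t2, m2, hlt⟩ : ∃ t1 ∈ Ioo p q, ∃ t2 ∈ Ioo p q, κ t1 < κ t2 := by
    by_contra h0
    push Not at h0
    obtain ⟨t, ht⟩ := nonempty_Ioo.2 hpq
    obtain ⟨n, hn⟩ := red 0 p
    refine Ioo_infinite (a := p + n * (2 * π)) (b := min (q + n * (2 * π)) (2 * π))
      (lt_min (by linarith) (by linarith [hn.2])) ((hG.1 (κ t)).subset fun u hu => ?_)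
    have h2 := lt_min_iff.1 hu.2
    have h3 : u + (-n : ℤ) * (2 * π) ∈ Ioo p q := by
      push_cast
      constructor <;> linarith [hu.1, h2.1]
    refine ⟨⟨by linarith [hu.1, hn.1], h2.2.le⟩, ?_⟩
    rw [← pz h u (-n)]
    exact le_antisymm (h0 _ ht _ h3) (h0 _ h3 _ ht)
  obtain ⟨o1, d1, b1⟩ := hBR.1 κ h
  obtain ⟨-, d2, b2⟩ := hBR.1 κ' h'
  obtain ⟨c, hc, r1, r2⟩ := (d1.inter_of_isOpen_left d2 o1).inter_open_nonempty _ isOpen_Ioo
    (nonempty_Ioo.2 hlt)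
  obtain ⟨t, ht, e⟩ := isPreconnected_Ioo.intermediate_value m1 m2 (cont h).continuousOn
    (Ioo_subset_Icc_self hc)
  obtain ⟨ε, hε, N, s, hB⟩ := b1 c r1
  obtain ⟨ε', hε', N', s', hB'⟩ := b2 c r2
  have hc1 : c ∈ Ioo (c - ε) (c + ε) := ⟨by linarith, by linarith⟩
  have hc2 : c ∈ Ioo (c - ε') (c + ε') := ⟨by linarith, by linarith⟩
  obtain ⟨i, n, rfl⟩ := hB.all c hc1 t e
  obtain ⟨a, b, hab, hs⟩ := sub_nhds (inter_mem (inter_mem (isOpen_Ioo.mem_nhds hc1)
    (isOpen_Ioo.mem_nhds hc2)) (((hB.der i c hc1).continuousAt.add continuousAt_const).eventually_mem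
      (isOpen_Ioo.mem_nhds ht)))
  exact ⟨a, b, N, N', s, s', i, n, hab, mono hB fun x hx => (hs hx).1.1,
    mono hB' fun x hx => (hs hx).1.2, fun x hx => (hs hx).2⟩

end S12

open S12 in
theorem st_s12 (hBR : St_BR) : St_S12 := by
  classical
  intro κ κ' h h' hM hG hT
  choose! j W a0 a1 hj hT using hT
  have main : ∀ p q, p < q → ∃ t ∈ Ioo p q, ∃ τ β : ℝ, (τ = 1 ∨ τ = -1) ∧ κ' (τ * t + β) = κ t ∧
      ∀ c ∈ ({0, 1, I} : Set ℂ), Tendsto (fun n => a1 c n / a0 c n * exp (I * β)) atTop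
        (𝓝 (if τ = 1 then c else conj c)) := by
    intro p q hpq
    obtain ⟨a1', b1, N, N', s, s', i0, n, h1, B1, B1', m1⟩ := reg hBR h h' hG hpq
    obtain ⟨a2, b2, h2, u2, H2⟩ := pair h h B1 B1 h1
    obtain ⟨a, b, hab, u3, H3⟩ := pair h h' (mono B1 u2) (mono B1' u2) h2
    have hB := mono B1 (u3.trans u2)
    have hB' := mono B1' (u3.trans u2)
    have hS := hBR.2 κ κ' h h' hM a b N N' s s' hB hB'
    have ne : ∀ i k, k ≠ i → ∀ x ∈ Ioo a b, sl κ (s k x) ≠ sl κ (s i x) := fun i k hk x hx => by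
      rcases H2 i k with H | ⟨τ, β, hτ, H⟩
      · exact H x (u3 hx)
      · exact absurd (self h hG (mono B1 u2) h2 hτ fun x hx => (H x hx).1).symm hk
    obtain ⟨c1, hc1⟩ := nonempty_Ioo.2 hab
    have ex : ∀ i, ∃ k, ∃ τ β : ℝ, (τ = 1 ∨ τ = -1) ∧
        ∀ x ∈ Ioo a b, s' k x = τ * s i x + β ∧ sl κ' (s' k x) = sl κ (s i x) := fun i => by
      by_contra h0
      obtain ⟨c2, hc2⟩ := nonempty_Ioo.2 hc1.2
      have := test h h' hB hB' hS i ∅ 1 0 (ne i)
        (fun k _ => (H3 i k).resolve_right fun e => h0 ⟨k, e⟩) (by simp) (hj 0 (by simp))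
        (hT 0 (by simp)) hc1.1 hc2.1 hc2.2
      simp only [zero_mul, add_zero, Finset.sum_empty, sub_zero, intervalIntegral.integral_const,
        tendsto_const_nhds_iff, real_smul, mul_one, ofReal_eq_zero] at this
      linarith [hc2.1]
    choose f τ β hτ hf using ex
    have sj : ∀ x ∈ Ioo a b, ∀ k, ∃ i, f i = k := fun x hx k => by
      by_contra h0
      have inj : Function.Injective f := fun i i' e => by
        by_contra hi
        exact ne i' i hi x hx (by rw [← (hf i x hx).2, ← (hf i' x hx).2, e])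
      have e1 : ∑ k ∈ Finset.univ.image f, sl κ' (s' k x) = ∑ k, sl κ' (s' k x) := by
        rw [Finset.sum_image inj.injOn, ← hS x hx]
        exact Finset.sum_congr rfl fun i _ => (hf i x hx).2
      refine (Finset.sum_lt_sum_of_subset (Finset.subset_univ _) (Finset.mem_univ k)
        (by simpa using h0) (inv_pos.2 (abs_pos.2 (hB'.ne k x hx)))
        fun _ _ _ => inv_nonneg.2 (abs_nonneg _)).ne e1
    refine ⟨_, m1 c1 (u2 (u3 hc1)), τ i0, β i0, hτ i0, ?_, fun c hc => ?_⟩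
    · have e0 := hB'.lev (f i0) c1 hc1
      rw [(hf i0 c1 hc1).1] at e0
      rw [pz h, hB.lev i0 c1 hc1]
      rcases hτ i0 with e | e <;> rw [e] at e0 ⊢
      · exact (congrArg κ' (by ring)).trans ((pz h' _ n).trans e0)
      · exact (congrArg κ' (by push_cast; ring)).trans ((pz h' _ (-n)).trans e0)
    · refine ratio (W := W c) hab (fun x hx => ⟨hB.der i0 x hx, inv_ne_zero (hB.ne i0 x hx)⟩)
        fun c1 c2 e1 e2 e3 => ?_
      have := test h h' hB hB' hS i0 {f i0} (τ i0) (β i0) (ne i0) (fun k hk x hx e => by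
        obtain ⟨i, rfl⟩ := sj x hx k
        exact ne i0 i (fun e => hk (by simp [e])) x hx ((hf i x hx).2.symm.trans e))
        (fun k hk => by
          rw [Finset.mem_singleton.1 hk]
          exact ⟨hτ i0, fun x hx => (hf i0 x hx).1⟩) (hj c hc) (hT c hc) e1 e2 e3
      simpa only [Finset.sum_singleton] using this
  obtain ⟨-, -, τ, β, hτ, -, L⟩ := main 0 1 one_pos
  have all : ∀ t, κ' (τ * t + β) = κ t := by
    refine congrFun (Continuous.ext_on (s := {t | κ' (τ * t + β) = κ t})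
      (dense_of_exists_between fun p q hpq => ?_) ((cont h').comp (by fun_prop)) (cont h) fun _ e => e)
    obtain ⟨t, ht, τ', β', hτ', e, L'⟩ := main p q hpq
    have e1 : exp (I * β') = exp (I * β) := by
      have l1 := (L 1 (by simp)).mul_const (exp (I * β'))
      have l2 := (L' 1 (by simp)).mul_const (exp (I * β))
      simp only [map_one, ite_self, one_mul] at l1 l2
      exact tendsto_nhds_unique l1 (l2.congr fun n => by ring)
    have e2 := tendsto_nhds_unique (L I (by simp)) (e1 ▸ L' I (by simp))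
    have hI : I ≠ conj I := fun e => by
      have := congrArg im e
      norm_num at this
    have n1 : (-1 : ℝ) ≠ 1 := by norm_num
    have e3 : τ' = τ := by
      rcases hτ with rfl | rfl <;> rcases hτ' with rfl | rfl
      · rfl
      · exact absurd (by simpa only [if_pos, if_neg n1] using e2) hI
      · exact absurd (by simpa only [if_pos, if_neg n1] using e2.symm) hI
      · rfl
    obtain ⟨n, hn⟩ := exp_eq_exp_iff_exists_int.1 e1
    have e4 : β' = β + n * (2 * π) := by simpa using congrArg im hn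
    refine ⟨t, ?_, ht⟩
    rwa [e3, e4, ← add_assoc, pz h'] at e
  refine ⟨τ, -(τ * β), hτ, fun s => ?_⟩
  rw [← all]
  congr 1
  rcases hτ with rfl | rfl <;> ring

end Pool.Agent.Lib.IS2
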