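import Pool.Agent.Lib.IS2.Blue

/-! Block SA: equal traces give equal moments of the curvature. -/

open scoped ContDiff ComplexConjugate Topology Real
open Complex MeasureTheory Set Filter

noncomputable section

namespace Pool.Agent.Lib.IS2

open Pool.Agent.Lib.ISO

namespace SA

lemma nc_mono {j j' : ℝ} {γ : ℝ → ℂ} (h : Nc j γ) (e : j ≤ j') : Nc j' γ :=
  ⟨h.one_le.trans e, h.smooth, h.per, h.unit, fun k a b s => (h.bd k a b s).trans e,
    fun s t => (h.arc s t).trans (mul_le_mul_of_nonneg_right e (norm_nonneg _)),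
    fun i a s => (h.kb i a s).trans e⟩

lemma per_kp {j : ℝ} {γ : ℝ → ℂ} (h : Nc j γ) : Per (2 * π) (kp γ) :=
  ⟨imCLM.contDiff.comp ((contDiff_infty_iff_deriv.1 h.s1).2.mul (conjCLE.contDiff.comp h.s1)),
    fun s => by rw [kp, kp, per_deriv' (per_deriv' h.per) s, per_deriv' h.per s]⟩

lemma mom_le {j : ℝ} {γ : ℝ → ℂ} (h : Nc j γ) {p P : ℕ} (hp : p ≤ P) :
    |∫ s in (0 : ℝ)..(2 * π), kp γ s ^ p| ≤ j ^ P * (2 * π) := by
  have := intervalIntegral.norm_integral_le_of_norm_le_const (a := 0) (b := 2 * π)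
    (f := fun s => kp γ s ^ p) (C := j ^ P) fun s _ => by
      rw [Real.norm_eq_abs, abs_pow]
      exact (pow_le_pow_left₀ (abs_nonneg _) (h.bk s) p).trans (pow_le_pow_right₀ h.one_le hp)
  rwa [sub_zero, abs_of_pos Real.two_pi_pos, Real.norm_eq_abs] at this

lemma la_ge {M W q : ℕ} {h : ℝ} (h1 : 1 ≤ h) (e : (W : ℝ) ^ 2 = om q h) :
    (om q h ^ (2 * M + 3))⁻¹ ≤ La M W q h := by
  have o1 : 1 ≤ om q h := one_le_pow₀ h1
  have t1 : 1 ≤ h ^ (q + 2) := one_le_pow₀ h1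
  have : La M W q h = (om q h ^ (2 * M + 3))⁻¹ * (h ^ (q + 2)) ^ 2 := by
    rw [La, amp, Tt, pow_mul, e]
    field_simp
    ring
  rw [this]
  exact le_mul_of_one_le_right (by positivity) (one_le_pow₀ t1)

/-- one marker gives one moment up to a small error -/
lemma step (hTONE : St_TONE) (hTEQ : St_TEQ) (hEXP : St_EXP) (C : ℕ → ℝ) (J M p0 : ℕ) :
    ∃ W1 : ℕ, 25 ≤ M → ∀ W, W1 ≤ W → ∀ Ω Ω' γ γ' η η', Dg Ω γ η → Dg Ω' γ' η' → Nc J γ → Nc J γ' →
      volume.real Ω = volume.real Ω' →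
      (∀ μ, 1 ≤ μ → Pot μ γ Ω → Pot μ γ' Ω' → RR μ μ γ Ω = RR μ μ γ' Ω') →
      InvA C (fc (kp γ)) (fc (kp γ')) → Mk M W (env 0) (fc (kp γ)) →
      (∀ p < p0, ∫ s in (0 : ℝ)..(2 * π), kp γ s ^ p = ∫ s in (0 : ℝ)..(2 * π), kp γ' s ^ p) →
      |(∫ s in (0 : ℝ)..(2 * π), kp γ s ^ p0) - ∫ s in (0 : ℝ)..(2 * π), kp γ' s ^ p0| ≤
        1 / ((J : ℝ) + 1) := by
  by_cases hM : 25 ≤ M
  swap
  · exact ⟨0, fun h => (hM h).elim⟩
  obtain ⟨K, W1, hK⟩ := hTONE C M J
  obtain ⟨q, P, hq, hP, c, C1, h0, cf, hc, hE⟩ := hEXP J K p0 M hM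
  obtain ⟨C2, h1, hT⟩ := hTEQ J q (2 * M + 4) hq
  set B : ℝ := (J : ℝ) ^ P * (2 * π) with hB
  have B0 : 0 ≤ B := by positivity
  set C5 : ℝ := 2 * |C1| + |C2| + |K| * ((P + 1) * (|C1| * B)) + (P + 1) * (|C1| * (2 * B)) with hC5
  set H : ℝ := max (max h0 h1) (max 1 (C5 * (J + 1) / c)) with hH
  refine ⟨max W1 ⌈H ^ (3 * q)⌉₊, fun _ W hW Ω Ω' γ γ' η η' d d' n n' eA eR hI hk ih => ?_⟩
  have H1 : 1 ≤ H := (le_max_left _ _).trans (le_max_right _ _)
  have w1 : H ^ (3 * q) ≤ W := Nat.ceil_le.1 ((le_max_right _ _).trans hW)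
  have w2 : (1 : ℝ) ≤ W := (one_le_pow₀ H1).trans w1
  obtain ⟨h, e, hh⟩ : ∃ h : ℝ, (W : ℝ) ^ 2 = om q h ∧ H ≤ h := by
    have e : (((W : ℝ) ^ 2) ^ (((3 * q : ℕ) : ℝ)⁻¹)) ^ (3 * q) = (W : ℝ) ^ 2 :=
      Real.rpow_inv_natCast_pow (by positivity) (by omega)
    refine ⟨_, e.symm, le_of_pow_le_pow_left₀ (n := 3 * q) (by omega) (by positivity) ?_⟩
    rw [e]
    nlinarith
  have g1 : 1 ≤ h := H1.trans hh
  have g0 : 0 < h := one_pos.trans_le g1
  obtain ⟨c1, c2, c3, c4⟩ := hE h (((le_max_left _ _).trans (le_max_left _ _)).trans hh)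
  obtain ⟨t1, a0, a1, t2, t3, t4⟩ := hK W ((le_max_left _ _).trans hW) _ _ 0 (per_kp n) (per_kp n')
    n.kb n'.kb hI (by simp) hk
  obtain rfl := t4 rfl
  have x1 := c4 W _ _ _ _ e d n t1
  have x2 := c4 W _ _ _ _ e d' n' t2
  have x3 := hT h (((le_max_right _ _).trans (le_max_left _ _)).trans hh) _ _ _ _ d.cd0 d'.cd0 n n' eA eR
  set m : ℕ → ℝ := fun p => ∫ s in (0 : ℝ)..(2 * π), kp γ s ^ p with hm
  set m' : ℕ → ℝ := fun p => ∫ s in (0 : ℝ)..(2 * π), kp γ' s ^ p with hm'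
  set u : ℝ := h ^ (3 * p0 + 1) with hu
  have u0 : 0 < u := by positivity
  have o1 : 1 ≤ om q h := one_le_pow₀ g1
  rw [← e, Real.sqrt_sq (by positivity)] at c3
  have dv : ∀ {a b : ℝ}, u ≤ b → a / b ≤ |a| / u := fun hb =>
    (div_le_div_of_nonneg_right (le_abs_self _) (u0.le.trans hb)).trans
      (div_le_div_of_nonneg_left (abs_nonneg _) u0 hb)
  have L0 : 0 < La M W q h := lt_of_lt_of_le (by positivity) (la_ge g1 e)
  have y3 : ‖FT q h (cp γ) / La M W q h - FT q h (cp γ') / La M W q h‖ ≤ |C2| / u := by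
    rw [← sub_div, norm_div, norm_real, Real.norm_of_nonneg L0.le]
    refine ((div_le_div_of_nonneg_right (x3.trans (div_le_div_of_nonneg_right (le_abs_self _)
      (by positivity))) L0.le).trans (div_le_div_of_nonneg_left (by positivity) (by positivity)
      (la_ge g1 e))).trans ?_
    have : |C2| / om q h ^ (2 * M + 4) / (om q h ^ (2 * M + 3))⁻¹ = |C2| / om q h := by
      field_simp
      ring
    rw [this]
    exact div_le_div_of_nonneg_left (abs_nonneg _) u0 (by nlinarith)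
  have cb : ∀ p ≤ P, ‖cf p h‖ ≤ |C1| / h ^ (3 * p) := fun p hp =>
    (c1 p hp).trans (div_le_div_of_nonneg_right (le_abs_self _) (by positivity))
  have y4 : ‖∑ p ∈ Finset.range (P + 1), cf p h * (m' p : ℂ)‖ ≤ (P + 1) * (|C1| * B) := by
    refine (norm_sum_le _ _).trans ((Finset.sum_le_card_nsmul _ _ (|C1| * B) fun p hp => ?_).trans
      (by simp))
    have hp := Nat.lt_succ_iff.1 (Finset.mem_range.1 hp)
    rw [norm_mul, norm_real]
    exact mul_le_mul ((cb p hp).trans (div_le_self (abs_nonneg _) (one_le_pow₀ g1))) (mom_le n' hp)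
      (norm_nonneg _) (abs_nonneg _)
  have y5 : ‖∑ p ∈ (Finset.range (P + 1)).erase p0, cf p h * ((m p : ℂ) - m' p)‖ ≤
      (P + 1) * (|C1| * (2 * B)) / u := by
    refine (norm_sum_le _ _).trans ((Finset.sum_le_card_nsmul _ _ (|C1| * (2 * B) / u)
      fun p hp => ?_).trans ?_)
    · obtain ⟨hp1, hp⟩ := Finset.mem_erase.1 hp
      have hp := Nat.lt_succ_iff.1 (Finset.mem_range.1 hp)
      rcases lt_or_gt_of_ne hp1 with l | l
      · rw [show m p = m' p from ih p l, sub_self, mul_zero, norm_zero]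
        positivity
      · rw [norm_mul, mul_div_right_comm]
        refine mul_le_mul ((cb p hp).trans (div_le_div_of_nonneg_left (abs_nonneg _) u0
          (pow_le_pow_right₀ g1 (by omega)))) ((norm_sub_le _ _).trans ?_) (norm_nonneg _)
          (by positivity)
        rw [norm_real, norm_real]
        linarith [show ‖m p‖ ≤ B from mom_le n hp, show ‖m' p‖ ≤ B from mom_le n' hp]
    · rw [nsmul_eq_mul, mul_div_assoc ((P : ℝ) + 1)]
      refine mul_le_mul_of_nonneg_right ?_ (by positivity)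
      exact_mod_cast (Finset.card_erase_le).trans (Finset.card_range _).le
  have y6 : ‖((‖a0‖ : ℂ) ^ 2 - 1) * ∑ p ∈ Finset.range (P + 1), cf p h * (m' p : ℂ)‖ ≤
      |K| * ((P + 1) * (|C1| * B)) / u := by
    rw [norm_mul, mul_div_right_comm]
    refine mul_le_mul ?_ y4 (norm_nonneg _) (by positivity)
    rw [show (‖a0‖ : ℂ) ^ 2 - 1 = ((‖a0‖ ^ 2 - 1 : ℝ) : ℂ) by push_cast; rfl, norm_real]
    exact t3.trans (dv c3)
  have id : cf p0 h * ((m p0 : ℂ) - m' p0) =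
      (FT q h (cp γ) / La M W q h - FT q h (cp γ') / La M W q h) -
      (FT q h (cp γ) / La M W q h - (‖(1 : ℂ)‖ : ℂ) ^ 2 *
        ∑ p ∈ Finset.range (P + 1), cf p h * (m p : ℂ)) +
      (FT q h (cp γ') / La M W q h - (‖a0‖ : ℂ) ^ 2 *
        ∑ p ∈ Finset.range (P + 1), cf p h * (m' p : ℂ)) +
      ((‖a0‖ : ℂ) ^ 2 - 1) * ∑ p ∈ Finset.range (P + 1), cf p h * (m' p : ℂ) -
      ∑ p ∈ (Finset.range (P + 1)).erase p0, cf p h * ((m p : ℂ) - m' p) := by
    have := Finset.add_sum_erase (Finset.range (P + 1)) (fun p => cf p h * ((m p : ℂ) - m' p))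
      (Finset.mem_range.2 (Nat.lt_succ_iff.2 hP))
    simp only [mul_sub (cf _ h), Finset.sum_sub_distrib] at this ⊢
    simp only [norm_one, ofReal_one]
    linear_combination this
  have y7 : ‖cf p0 h‖ * |m p0 - m' p0| ≤ C5 / u := by
    rw [← Real.norm_eq_abs, ← norm_real, ← norm_mul, ofReal_sub, id, hC5, add_div, add_div, add_div,
      two_mul |C1|, add_div]
    refine (norm_sub_le _ _).trans (add_le_add ((norm_add_le _ _).trans (add_le_add
      ((norm_add_le _ _).trans ?_) y6)) y5)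
    have := norm_sub_le (FT q h (cp γ) / La M W q h - FT q h (cp γ') / La M W q h)
      (FT q h (cp γ) / La M W q h - (‖(1 : ℂ)‖ : ℂ) ^ 2 *
        ∑ p ∈ Finset.range (P + 1), cf p h * (m p : ℂ))
    linarith [x1.trans (dv le_rfl), x2.trans (dv le_rfl)]
  have y8 : c / h ^ (3 * p0) * |m p0 - m' p0| ≤ C5 / u :=
    (mul_le_mul_of_nonneg_right c2 (abs_nonneg _)).trans y7
  have y9 : C5 * (J + 1) / c ≤ h := ((le_max_right _ _).trans (le_max_right _ _)).trans hh
  rw [div_le_iff₀ hc] at y9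
  rw [hu, pow_succ, div_mul_eq_mul_div, ← div_div, div_right_comm,
    div_le_div_iff_of_pos_right (by positivity), le_div_iff₀ g0] at y8
  rw [le_div_iff₀ (by positivity)]
  refine le_of_mul_le_mul_left ?_ (mul_pos g0 hc)
  nlinarith [Nat.cast_nonneg (α := ℝ) J]

end SA

open SA in
theorem st_sa (hTONE : St_TONE) (hTEQ : St_TEQ) (hEXP : St_EXP) : St_SA := by
  intro C
  choose W1 hW using step hTONE hTEQ hEXP C
  refine ⟨fun J M => (Finset.range (J + 1)).sup (W1 J M),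
    fun Ω Ω' γ γ' η η' j d d' n n' eA eR hI g p0 => ?_⟩
  induction p0 using Nat.strong_induction_on with
  | _ p0 ih =>
  have r : ra (Finsupp.single 0 (1, 0)) = env 0 := funext fun t => by
    by_cases h : t = 0
    · simp [ra, env, h]
    · simp [ra, env, h]
  refine sub_eq_zero.1 (abs_nonpos_iff.1 (ge_of_tendsto tendsto_one_div_add_atTop_nhds_zero_nat ?_))
  filter_upwards [eventually_ge_atTop ⌈j⌉₊, eventually_ge_atTop p0, eventually_ge_atTop 25]
    with J a b c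
  obtain ⟨M, W, e1, e2, e3⟩ := g J (Finsupp.single 0 (1, 0)) (by
    rw [r]
    refine ⟨fun t ht => ?_, fun t => ?_⟩
    · have : t ≠ 0 := by rintro rfl; simp at ht; omega
      simp [env, this]
    · have : (1 : ℝ) ≤ J := by exact_mod_cast (by omega : 1 ≤ J)
      by_cases h : t = 0
      · simp [env, h, this]
      · simp [env, h])
  exact hW J M p0 (c.trans e1) W ((Finset.le_sup (f := W1 J M) (Finset.mem_range.2
    (Nat.lt_succ_iff.2 b))).trans e2) _ _ _ _ _ _ d d' (nc_mono n (Nat.ceil_le.1 a))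
    (nc_mono n' (Nat.ceil_le.1 a)) eA eR hI (r ▸ e3) ih

end Pool.Agent.Lib.IS2
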