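import Pool.Agent.Lib.IS2.Blue
import Pool.Agent.Lib.IS2.Base

/-! Step B: equal moments and the generic property give equal curvatures. -/

open scoped ContDiff ComplexConjugate Topology Real
open Complex MeasureTheory Set Filter

noncomputable section

namespace Pool.Agent.Lib.IS2

open Pool.Agent.Lib.ISO

namespace SB

lemma ev_bk {κ : ℝ → ℝ} (h : Per (2 * π) κ) : ∀ᶠ j : ℕ in atTop, Bk j κ := by
  have p : ∀ i, Function.Periodic (iteratedDeriv i κ) (2 * π) := fun i => by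
    induction i with
    | zero => simpa using h.per
    | succ i ih => rw [iteratedDeriv_succ]; exact per_deriv' ih
  have b : ∀ i ∈ Finset.range 5, ∀ᶠ j : ℕ in atTop, ∀ s, |iteratedDeriv i κ s| ≤ j := fun i _ => by
    obtain ⟨B, hB⟩ := ((p i).isBounded_of_continuous Real.two_pi_pos.ne'
      (h.smooth.continuous_iteratedDeriv i (by exact_mod_cast le_top))).exists_norm_le
    filter_upwards [tendsto_natCast_atTop_atTop.eventually_ge_atTop B] with j hj s
    exact (hB _ ⟨s, rfl⟩).trans hj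
  filter_upwards [(eventually_all_finset _).2 b] with j hj i hi
  exact hj i (Finset.mem_range.2 (by omega))

lemma ex_ra {c : ℂ} (hc : c ∈ ({0, 1, I} : Set ℂ)) : ‖c‖ ≤ 1 ∧ ∃ l, ra l = env c := by
  have k : ∀ x y : ℚ, ra (Finsupp.single 0 (1, 0) + Finsupp.single 1 (x, y)) =
      env (x + y * I) := fun x y => by
    funext t
    by_cases h0 : t = 0
    · simp [ra, env, h0]
    · by_cases h1 : t = 1
      · simp [ra, env, h1]
      · simp [ra, env, h0, h1]
  rcases hc with rfl | rfl | rfl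
  · exact ⟨by simp, _, by simpa using k 0 0⟩
  · exact ⟨by simp, _, by simpa using k 1 0⟩
  · exact ⟨by simp, _, by simpa using k 0 1⟩

lemma env_ok {c : ℂ} (hc : ‖c‖ ≤ 1) {j : ℕ} (hj : 1 ≤ j) : Env j (env c) := by
  have j1 : (1 : ℝ) ≤ j := by exact_mod_cast hj
  refine ⟨fun t ht => ?_, fun t => ?_⟩
  · have : (1 : ℤ) < |t| := lt_of_le_of_lt (by exact_mod_cast hj) ht
    rw [env, if_neg (by rintro rfl; simp at this), if_neg (by rintro rfl; simp at this)]
  · rw [env]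
    split_ifs
    · simpa using j1
    · exact hc.trans j1
    · simp

end SB

theorem st_sb (hT : St_TONE) (hB : St_B34) (hJ : St_JET2) (hS : St_S12) : St_SB := by
  intro C
  choose K W1 h1 using hT C
  choose W2 h2 using fun (M j : ℕ) => hB M (j + 1) (K M (j + 1 : ℕ)) (Nat.le_add_left _ _)
  choose W3 h3 using fun (M j : ℕ) => hJ.1 M j ((j : ℝ) + 1)⁻¹ (by positivity)
  refine ⟨fun j M => max (max (W1 M (j + 1 : ℕ)) (W2 M j)) (max (W3 M j) 1),
    fun κ κ' p p' hI hG hM => ?_⟩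
  have key : ∀ c ∈ ({0, 1, I} : Set ℂ), ∀ j, 1 ≤ j → ∃ M W, W1 M (j + 1 : ℕ) ≤ W ∧ W2 M j ≤ W ∧
      W3 M j ≤ W ∧ 1 ≤ W ∧ Mk M W (env c) (fc κ) := fun c hc j hj => by
    obtain ⟨c1, l, hl⟩ := SB.ex_ra hc
    obtain ⟨M, W, -, a, b⟩ := hG j l (by rw [hl]; exact SB.env_ok c1 hj)
    simp only [max_le_iff] at a
    exact ⟨M, W, a.1.1, a.1.2, a.2.1, a.2.2, by rwa [hl] at b⟩
  refine hS κ κ' p p' hM (hJ.2 κ p fun c hc η hη => ?_) fun c hc j0 => ?_
  · obtain ⟨j, b, j1, j2⟩ := ((SB.ev_bk p).and ((eventually_ge_atTop 1).and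
      (tendsto_natCast_atTop_atTop.eventually_ge_atTop η⁻¹))).exists
    obtain ⟨M, W, -, -, w3, w, m⟩ := key c hc j j1
    have W0 : (0 : ℝ) < W := by exact_mod_cast w
    refine ⟨2 * M + 4, (W : ℝ) ^ 2, XX M W, by omega, by unfold XX amp; positivity, fun s =>
      (h3 M j W w3 κ c p b (SB.ex_ra hc).1 m s).trans
        (mul_le_mul_of_nonneg_right ?_ (sq_nonneg _))⟩
    exact inv_le_of_inv_le₀ hη (by linarith)
  · have t := tendsto_add_atTop_nat 1
    obtain ⟨j, b, b', j1, j2⟩ := ((t.eventually (SB.ev_bk p)).and ((t.eventually (SB.ev_bk p')).and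
      ((eventually_ge_atTop 1).and (eventually_ge_atTop j0)))).exists
    obtain ⟨M, W, w1, w2, -, -, m⟩ := key c hc j j1
    obtain ⟨a, a0, a1, a', -⟩ := h1 M _ W w1 κ κ' c p p' b b' hI (SB.ex_ra hc).1 m
    exact ⟨j + 1, W, a0, a1, by omega, h2 M j W w2 κ κ' c a0 a1 p p' b b' a a'⟩

end Pool.Agent.Lib.IS2
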