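import Pool.Agent.Lib.IS2.BlueG

/-! Scaling of domains, eigenvalues and curves. -/

open scoped ContDiff ComplexConjugate Topology Real ENNReal
open Complex MeasureTheory Set Filter

noncomputable section

namespace Pool.Agent.Lib.IS2

open Pool.Agent.Lib.ISO Pool.Agent.Lib.MP_312682_mp

namespace SCA

lemma mem_img {c : ℝ} (hc : 0 < c) (Ω : Set ℂ) (z : ℂ) :
    z ∈ (fun z : ℂ => (c : ℂ) * z) '' Ω ↔ c⁻¹ • z ∈ Ω := by
  have h : (c : ℂ) ≠ 0 := ofReal_ne_zero.2 hc.ne'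
  constructor
  · rintro ⟨w, hw, rfl⟩
    simpa [real_smul, h] using hw
  · intro hz
    exact ⟨_, hz, by simp [real_smul, h]⟩

lemma ray (a : ℝ) (ha : 0 < a) (u : ℂ → ℂ) :
    Defs.rayleigh (fun z => u (a • z)) = a ^ 2 * Defs.rayleigh u := by
  unfold Defs.rayleigh
  have e1 : (fun z : ℂ => ‖fderiv ℝ (fun z => u (a • z)) z 1‖ ^ 2 +
      ‖fderiv ℝ (fun z => u (a • z)) z I‖ ^ 2) = fun z : ℂ =>
      a ^ 2 * (fun w : ℂ => ‖fderiv ℝ u w 1‖ ^ 2 + ‖fderiv ℝ u w I‖ ^ 2) (a • z) := by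
    funext z
    rw [fderiv_comp_smul]
    simp only [_root_.smul_apply, norm_smul, Real.norm_eq_abs, mul_pow, sq_abs]
    ring
  rw [e1, integral_const_mul, Measure.integral_comp_smul volume
    (fun w : ℂ => ‖fderiv ℝ u w 1‖ ^ 2 + ‖fderiv ℝ u w I‖ ^ 2) a,
    Measure.integral_comp_smul volume (fun w : ℂ => ‖u w‖ ^ 2) a, smul_eq_mul, smul_eq_mul,
    mul_div_assoc, mul_div_mul_left]
  positivity

lemma test {c : ℝ} (hc : 0 < c) {Ω : Set ℂ} {u : ℂ → ℂ} (hu : u ∈ Defs.testFns Ω) :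
    (fun z => u (c⁻¹ • z)) ∈ Defs.testFns ((fun z : ℂ => (c : ℂ) * z) '' Ω) := by
  obtain ⟨h1, h2, h3⟩ := hu
  have hc' : c⁻¹ ≠ 0 := inv_ne_zero hc.ne'
  refine ⟨h1.comp (contDiff_id.const_smul c⁻¹), h2.comp_smul hc', fun z hz => ?_⟩
  rw [mem_img hc]
  refine h3 ?_
  have hcont : Continuous fun z : ℂ => c⁻¹ • z := continuous_id.const_smul c⁻¹
  exact (closure_minimal (s := Function.support fun z => u (c⁻¹ • z))
    (t := (fun z : ℂ => c⁻¹ • z) ⁻¹' tsupport u) (fun w hw => subset_tsupport u hw)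
    ((isClosed_tsupport u).preimage hcont)) hz

lemma eig_le {c : ℝ} (hc : 0 < c) (Ω : Set ℂ) (n : ℕ) :
    Defs.dirEig ((fun z : ℂ => (c : ℂ) * z) '' Ω) n ≤
      ENNReal.ofReal (c ^ 2)⁻¹ * Defs.dirEig Ω n := by
  have h0 : ENNReal.ofReal (c ^ 2)⁻¹ ≠ 0 := by
    rw [Ne, ENNReal.ofReal_eq_zero, not_le]; positivity
  have hc' : c⁻¹ ≠ 0 := inv_ne_zero hc.ne'
  let T : (ℂ → ℂ) ≃ₗ[ℂ] (ℂ → ℂ) :=
    LinearEquiv.funCongrLeft ℂ ℂ (Homeomorph.smulOfNeZero c⁻¹ hc' : ℂ ≃ₜ ℂ).toEquiv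
  have hT (u : ℂ → ℂ) : T u = fun z => u (c⁻¹ • z) := rfl
  conv_rhs => unfold Defs.dirEig
  simp only [ENNReal.mul_iInf_of_ne h0 ENNReal.ofReal_ne_top, ENNReal.mul_iSup]
  refine le_iInf fun W => le_iInf fun hW => le_iInf fun hn => ?_
  refine iInf_le_of_le (W.map T.toLinearMap) (iInf_le_of_le ?_ (iInf_le_of_le ?_ ?_))
  · rintro _ ⟨u, hu, rfl⟩
    exact test hc (hW hu)
  · rw [LinearEquiv.finrank_map_eq, hn]
  · refine iSup_le fun v => iSup_le fun hv => iSup_le fun hv0 => ?_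
    obtain ⟨u, hu, rfl⟩ := hv
    refine le_iSup_of_le u (le_iSup_of_le hu (le_iSup_of_le (fun h => hv0 (by simp [h])) ?_))
    rw [← ENNReal.ofReal_mul (by positivity), ← inv_pow, ← ray c⁻¹ (inv_pos.2 hc)]
    exact le_rfl

lemma eig {c : ℝ} (hc : 0 < c) (Ω : Set ℂ) (n : ℕ) :
    Defs.dirEig ((fun z : ℂ => (c : ℂ) * z) '' Ω) n =
      ENNReal.ofReal (c ^ 2)⁻¹ * Defs.dirEig Ω n := by
  refine (eig_le hc Ω n).antisymm ?_
  have h := eig_le (inv_pos.2 hc) ((fun z : ℂ => (c : ℂ) * z) '' Ω) n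
  have hz : (c : ℂ) ≠ 0 := ofReal_ne_zero.2 hc.ne'
  have e : (fun z : ℂ => ((c⁻¹ : ℝ) : ℂ) * z) '' ((fun z : ℂ => (c : ℂ) * z) '' Ω) = Ω := by
    rw [image_image]
    simp [hz]
  rw [e] at h
  refine (mul_le_mul_right h _).trans (le_of_eq ?_)
  rw [← mul_assoc, ← ENNReal.ofReal_mul (by positivity), inv_pow, inv_inv,
    inv_mul_cancel₀ (by positivity), ENNReal.ofReal_one, one_mul]

lemma dom {c : ℝ} (hc : 0 < c) {Ω : Set ℂ} (h : Defs.SmoothDomain Ω) :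
    Defs.SmoothDomain ((fun z : ℂ => (c : ℂ) * z) '' Ω) := by
  obtain ⟨h1, h2, h3, φ, h4, h5, h6⟩ := h
  have hz : (c : ℂ) ≠ 0 := ofReal_ne_zero.2 hc.ne'
  refine ⟨(Homeomorph.mulLeft₀ (c : ℂ) hz).isOpenMap Ω h1,
    h2.image _ (continuous_const.mul continuous_id).continuousOn, ?_,
    fun z => φ (c⁻¹ • z), h4.comp (contDiff_id.const_smul c⁻¹), ?_, fun z hφ => ?_⟩
  · exact h3.smul₀ (c : ℂ)
  · ext z
    rw [mem_img hc, h5]
    rfl
  · rw [fderiv_comp_smul]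
    exact smul_ne_zero (inv_ne_zero hc.ne') (h6 _ hφ)

lemma jor {c : ℝ} (hc : 0 < c) {f : ℕ → UniformFun ℝ ℂ} (hf : f ∈ Jordan) :
    ∃ g ∈ Jordan, kf g = kf f ∧
    (∀ t, UniformFun.toFun (g 0) t = c * UniformFun.toFun (f 0) t) ∧
    ‖UniformFun.toFun (g 1) 0‖ = c * ‖UniformFun.toFun (f 1) 0‖ := by
  obtain ⟨h1, h2, h3, v, hv, h4⟩ := hf
  have hz : (c : ℂ) ≠ 0 := ofReal_ne_zero.2 hc.ne'
  have hn (w : ℂ) : ‖(c : ℂ) * w‖ = c * ‖w‖ := by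
    rw [norm_mul, norm_real, Real.norm_of_nonneg hc.le]
  refine ⟨fun n => UniformFun.ofFun fun t => c * UniformFun.toFun (f n) t,
    ⟨fun n t => (h1 n t).const_mul (c : ℂ), fun t => ?_, fun s hs t ht h => ?_,
      c * v, mul_pos hc hv, fun t => ?_⟩, ?_, fun t => rfl, hn _⟩
  · exact congrArg (fun w => (c : ℂ) * w) (h2 t)
  · exact h3 hs ht (mul_left_cancel₀ hz h)
  · rw [← h4 t]
    exact hn _
  · funext u
    change (((c : ℂ) * UniformFun.toFun (f 2) u) * conj ((c : ℂ) * UniformFun.toFun (f 1) u)).im /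
      ‖(c : ℂ) * UniformFun.toFun (f 1) 0‖ ^ 2 = _
    have e : ((c : ℂ) * UniformFun.toFun (f 2) u) * conj ((c : ℂ) * UniformFun.toFun (f 1) u) =
        ((c ^ 2 : ℝ) : ℂ) * (UniformFun.toFun (f 2) u * conj (UniformFun.toFun (f 1) u)) := by
      rw [map_mul, conj_ofReal]
      push_cast
      ring
    rw [e, hn, im_ofReal_mul, mul_pow, mul_div_mul_left _ _ (by positivity)]
    rfl

end SCA

theorem st_sca : St_SCA := fun c Ω hc =>
  ⟨SCA.dom hc, ((Homeomorph.mulLeft₀ (c : ℂ) (ofReal_ne_zero.2 hc.ne')).image_frontier Ω).symm,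
    SCA.eig hc Ω, fun _ hf => SCA.jor hc hf⟩

end Pool.Agent.Lib.IS2
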