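import Pool.Agent.Lib.IS2.Blue

/-! The test functional: elementary bounds and the shift of the contour. -/

open scoped ContDiff ComplexConjugate Topology Real Interval
open Complex MeasureTheory Set Filter

noncomputable section

namespace Pool.Agent.Lib.IS2

open Pool.Agent.Lib.ISO

namespace SH

lemma shift (g : ℂ → ℂ) (a b c Y M : ℝ) (hY : 0 ≤ Y)
    (hd : DifferentiableOn ℂ g ([[a, b]] ×ℂ [[c - Y, c + Y]]))
    (h1 : ∀ x ∈ [[a, b]], ‖g (x + (c - Y : ℝ) * I)‖ ≤ M ∧ ‖g (x + (c + Y : ℝ) * I)‖ ≤ M)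
    (h2 : ∀ y ∈ [[c - Y, c + Y]], ‖g (b + y * I)‖ ≤ M) :
    ‖∫ y in (-Y)..Y, g (a + I * (c + y : ℝ))‖ ≤ M * (2 * |b - a| + 2 * Y) := by
  have H := integral_boundary_rect_eq_zero_of_differentiableOn g ⟨a, c - Y⟩ ⟨b, c + Y⟩ hd
  have e : ∫ y in (-Y)..Y, g (a + I * (c + y : ℝ)) = ∫ y in (c - Y)..(c + Y), g (a + y * I) := by
    rw [sub_eq_add_neg, ← intervalIntegral.integral_comp_add_left (fun y : ℝ => g (a + y * I))]
    simp only [mul_comm]
  have n1 := intervalIntegral.norm_integral_le_of_norm_le_const (a := a) (b := b)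
    (f := fun x : ℝ => g (x + (c - Y : ℝ) * I)) fun x hx => (h1 x (uIoc_subset_uIcc hx)).1
  have n2 := intervalIntegral.norm_integral_le_of_norm_le_const (a := a) (b := b)
    (f := fun x : ℝ => g (x + (c + Y : ℝ) * I)) fun x hx => (h1 x (uIoc_subset_uIcc hx)).2
  have n3 := intervalIntegral.norm_integral_le_of_norm_le_const (a := c - Y) (b := c + Y)
    (f := fun y : ℝ => g (b + y * I)) fun x hx => h2 x (uIoc_subset_uIcc hx)
  rw [show c + Y - (c - Y) = 2 * Y by ring, abs_of_nonneg (by linarith)] at n3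
  rw [e]
  set A := ∫ x in a..b, g (x + (c - Y : ℝ) * I)
  set B := ∫ x in a..b, g (x + (c + Y : ℝ) * I)
  set D := ∫ y in (c - Y)..(c + Y), g (b + y * I)
  set E := ∫ y in (c - Y)..(c + Y), g (a + y * I)
  have H' : A - B + I • D - I • E = 0 := H
  have e2 : I * E = A - B + I * D := by
    simp only [smul_eq_mul] at H'
    linear_combination -H'
  have e3 : ‖E‖ = ‖A - B + I * D‖ := by rw [← e2, norm_mul, norm_I, one_mul]
  have t1 := norm_add_le (A - B) (I * D)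
  have t2 := norm_sub_le A B
  rw [norm_mul, norm_I, one_mul] at t1
  rw [e3]
  linarith

lemma norm_Gs (q : ℕ) (h : ℝ) (μ : ℂ) : ‖Gs q h μ‖ = Real.exp (μ.re * Tt q h +
    (μ.re ^ 2 - (μ.im - om q h / 2) ^ 2) * ww q h ^ 2 / 2) := by
  have r : (ze q h μ).re = μ.re := by simp [ze]
  have i : (ze q h μ).im = μ.im - om q h / 2 := by simp [ze]
  rw [Gs, norm_exp]
  congr 1
  have e : ze q h μ ^ 2 * (ww q h : ℂ) ^ 2 / 2 = ze q h μ ^ 2 * ((ww q h ^ 2 / 2 : ℝ) : ℂ) := by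
    push_cast
    ring
  rw [e, add_re, re_mul_ofReal, re_mul_ofReal, sq (ze q h μ), mul_re, r, i]
  ring

lemma diff_Gs (q : ℕ) (h : ℝ) : Differentiable ℂ (Gs q h) := by
  unfold Gs ze
  fun_prop

/-- the sizes of the parameters -/
structure Par (q : ℕ) (h : ℝ) : Prop where
  h4 : 4 ≤ h
  T0 : 0 < Tt q h
  gT : gg q h * Tt q h = h ^ 2
  gw : gg q h * ww q h = 1
  Yw : YY q h * ww q h = h ^ 2
  w0 : 0 < ww q h
  ig : (Tt q h)⁻¹ ≤ gg q h
  gY : gg q h ≤ YY q h / 16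
  Yo : YY q h ≤ om q h / 16
  o16 : 16 ≤ om q h

lemma par {q : ℕ} {h : ℝ} (hq : 4 ≤ q) (hh : 4 ≤ h) : Par q h := by
  have h0 : 0 < h := by linarith
  have h1 : 1 ≤ h := by linarith
  have T0 : 0 < Tt q h := inv_pos.2 (pow_pos h0 _)
  have s : 16 ≤ h ^ 2 := by nlinarith
  have Ti : 0 < (Tt q h)⁻¹ := inv_pos.2 T0
  refine ⟨hh, T0, ?_, ?_, ?_, div_pos T0 (pow_pos h0 _), ?_, ?_, ?_, ?_⟩
  · rw [gg]; field_simp
  · rw [gg, ww]; field_simp
  · rw [YY, ww]; field_simp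
  · rw [gg, div_eq_mul_inv]; nlinarith
  · rw [gg, YY, div_eq_mul_inv, div_eq_mul_inv (h ^ 4), show h ^ 4 = h ^ 2 * h ^ 2 by ring]
    nlinarith [mul_pos (pow_pos h0 2) Ti]
  · have e : YY q h * h ^ 2 = h ^ (q + 8) := by
      rw [YY, Tt, div_inv_eq_mul]; ring
    have l : h ^ (q + 8) ≤ om q h := pow_le_pow_right₀ h1 (by omega)
    have Y0 : 0 < YY q h := div_pos (pow_pos h0 _) T0
    nlinarith
  · exact s.trans (pow_le_pow_right₀ h1 (by omega))

namespace Par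

variable {q : ℕ} {h : ℝ} (p : Par q h)
include p

lemma g0 : 0 < gg q h := (inv_pos.2 p.T0).trans_le p.ig
lemma Y0 : 0 < YY q h := by linarith [p.g0, p.gY]

lemma rect {μ : ℂ} (hμ : μ ∈ Rect q h) : Sm μ ∧ ‖μ‖ < om q h := by
  obtain ⟨a, b⟩ := hμ
  have a' := abs_le.1 a
  have b' := abs_le.1 b
  have n1 : μ.im ≤ ‖μ‖ := im_le_norm μ
  have n2 := norm_le_abs_re_add_abs_im μ
  have n3 : |μ.im| ≤ om q h / 2 + YY q h := abs_le.2 ⟨by linarith [p.o16], by linarith⟩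
  have := p.gY
  have := p.Yo
  have := p.o16
  exact ⟨⟨by linarith, by linarith⟩, by linarith⟩

omit p in
lemma mu_re (y : ℝ) : (mu q h y).re = (Tt q h)⁻¹ := by simp [mu]
omit p in
lemma mu_im (y : ℝ) : (mu q h y).im = om q h / 2 + y := by simp [mu]

lemma mu_rect {y : ℝ} (hy : |y| ≤ YY q h) : mu q h y ∈ Rect q h :=
  ⟨by rw [mu_re, abs_of_pos (inv_pos.2 p.T0)]; exact p.ig, by rw [mu_im]; simpa using hy⟩

lemma sq_le {σ : ℝ} (hσ : |σ| ≤ gg q h) : σ ^ 2 * ww q h ^ 2 ≤ 1 := by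
  have : |σ| * ww q h ≤ 1 := p.gw ▸ mul_le_mul_of_nonneg_right hσ p.w0.le
  rw [← sq_abs σ, ← mul_pow]
  exact pow_le_one₀ (mul_nonneg (abs_nonneg _) p.w0.le) this

lemma Gs_le {y : ℝ} (hy : |y| ≤ YY q h) : ‖Gs q h (mu q h y)‖ ≤ Real.exp 2 := by
  have a := p.sq_le (p.mu_rect hy).1
  rw [norm_Gs]
  refine Real.exp_le_exp.2 ?_
  have e : (mu q h y).re * Tt q h = 1 := by rw [mu_re, inv_mul_cancel₀ p.T0.ne']
  nlinarith [mul_nonneg (sq_nonneg ((mu q h y).im - om q h / 2)) (sq_nonneg (ww q h))]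

/-- bound of the integrand from a bound of the exponent -/
lemma pt {f : ℂ → ℂ} {l F x : ℝ} (hf : ∀ μ ∈ Rect q h, ‖f μ‖ ≤ F * Real.exp (-(μ.re * l)))
    {μ : ℂ} (hμ : μ ∈ Rect q h)
    (hx : μ.re * (Tt q h - l) + 1 / 2 - (μ.im - om q h / 2) ^ 2 * ww q h ^ 2 / 2 ≤ x) :
    ‖2 * μ * Gs q h μ * f μ‖ ≤ 2 * om q h * F * Real.exp x := by
  have a := p.sq_le hμ.1
  have F0 : 0 ≤ F := nonneg_of_mul_nonneg_left ((norm_nonneg _).trans (hf μ hμ)) (Real.exp_pos _)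
  have o0 : 0 ≤ om q h := by linarith [p.o16]
  rw [norm_mul, norm_mul, norm_mul, Complex.norm_ofNat, norm_Gs]
  calc _ ≤ 2 * om q h * Real.exp (μ.re * Tt q h + (μ.re ^ 2 - (μ.im - om q h / 2) ^ 2) *
        ww q h ^ 2 / 2) * (F * Real.exp (-(μ.re * l))) := by
        gcongr
        · exact (p.rect hμ).2.le
        · exact hf μ hμ
    _ = 2 * om q h * F * Real.exp (μ.re * Tt q h + (μ.re ^ 2 - (μ.im - om q h / 2) ^ 2) *
        ww q h ^ 2 / 2 + -(μ.re * l)) := by rw [Real.exp_add _ (-(μ.re * l))]; ring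
    _ ≤ _ := by
        gcongr
        nlinarith

lemma main {f : ℂ → ℂ} {l F b x : ℝ} (hd : DifferentiableOn ℂ f (Rect q h))
    (hf : ∀ μ ∈ Rect q h, ‖f μ‖ ≤ F * Real.exp (-(μ.re * l))) (hb : |b| ≤ gg q h)
    (h1 : ∀ σ ∈ [[(Tt q h)⁻¹, b]], σ * (Tt q h - l) + 1 / 2 - h ^ 4 / 2 ≤ x)
    (h2 : b * (Tt q h - l) + 1 / 2 ≤ x) : ‖FF q h f‖ ≤ 2 * om q h ^ 2 * F * Real.exp x := by
  have Ti := inv_pos.2 p.T0
  have b' := abs_le.1 hb
  have re : ∀ σ ∈ [[(Tt q h)⁻¹, b]], |σ| ≤ gg q h := fun σ hσ => by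
    rcases mem_uIcc.1 hσ with a | a <;> exact abs_le.2 ⟨by linarith [p.ig], by linarith [p.ig]⟩
  have im : ∀ y ∈ [[om q h / 2 - YY q h, om q h / 2 + YY q h]], |y - om q h / 2| ≤ YY q h :=
    fun y hy => by
      rw [uIcc_of_le (by linarith [p.Y0])] at hy
      exact abs_le.2 ⟨by linarith [hy.1], by linarith [hy.2]⟩
  have sub : [[(Tt q h)⁻¹, b]] ×ℂ [[om q h / 2 - YY q h, om q h / 2 + YY q h]] ⊆ Rect q h :=
    fun μ hμ => ⟨re _ hμ.1, im _ hμ.2⟩
  have Y4 : YY q h ^ 2 * ww q h ^ 2 = h ^ 4 := by rw [← mul_pow, p.Yw]; ring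
  have hor : ∀ σ ∈ [[(Tt q h)⁻¹, b]], ∀ y : ℝ, |y - om q h / 2| = YY q h →
      ‖2 * (σ + y * I) * Gs q h (σ + y * I) * f (σ + y * I)‖ ≤ 2 * om q h * F * Real.exp x :=
    fun σ hσ y hy => by
      have r : ((σ : ℂ) + y * I).re = σ := by simp
      have i : ((σ : ℂ) + y * I).im = y := by simp
      refine p.pt hf ⟨by rw [r]; exact re σ hσ, by rw [i]; exact hy.le⟩ ?_
      rw [r, i, ← sq_abs (y - om q h / 2), hy, Y4]
      exact h1 σ hσ
  have S := shift (fun μ => 2 * μ * Gs q h μ * f μ) (Tt q h)⁻¹ b (om q h / 2) (YY q h)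
    (2 * om q h * F * Real.exp x) p.Y0.le
    (((by fun_prop : Differentiable ℂ fun μ : ℂ => 2 * μ).mul (diff_Gs q h)).differentiableOn.mul
      (hd.mono sub))
    (fun σ hσ => ⟨hor σ hσ _ (by rw [abs_of_nonpos (by linarith [p.Y0])]; ring),
      hor σ hσ _ (by rw [abs_of_nonneg (by linarith [p.Y0])]; ring)⟩)
    fun y hy => by
      have r : ((b : ℂ) + y * I).re = b := by simp
      have i : ((b : ℂ) + y * I).im = y := by simp
      refine p.pt hf ⟨by rw [r]; exact hb, by rw [i]; exact im y hy⟩ ?_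
      rw [r, i]
      nlinarith [mul_nonneg (sq_nonneg (y - om q h / 2)) (sq_nonneg (ww q h))]
  have F0 : 0 ≤ F := nonneg_of_mul_nonneg_left
    ((norm_nonneg _).trans (hf _ (p.mu_rect (y := 0) (by simpa using p.Y0.le)))) (Real.exp_pos _)
  have o0 : 0 ≤ om q h := by linarith [p.o16]
  have L : 2 * |b - (Tt q h)⁻¹| + 2 * YY q h ≤ om q h := by
    have : |b - (Tt q h)⁻¹| ≤ 2 * gg q h := abs_le.2 ⟨by linarith [p.ig], by linarith [p.g0]⟩
    linarith [p.gY, p.Yo]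
  refine S.trans ((mul_le_mul_of_nonneg_left L (by positivity)).trans_eq (by ring))

end Par

end SH

open SH in
theorem st_sh : St_SH := fun q hq => ⟨2 * Real.exp 2, 4, fun h hh => by
  have p := par hq hh
  have T0 := p.T0
  have Ti := inv_pos.2 T0
  have o0 : 0 ≤ om q h := by linarith [p.o16]
  have e0 := Real.exp_pos 2
  refine ⟨fun μ hμ => ⟨(p.rect hμ).1, (p.rect hμ).2.le⟩, fun y hy => ⟨⟨?_, (p.rect (p.mu_rect hy)).2⟩,
    p.mu_rect hy, ?_, by linarith [p.Gs_le hy]⟩, fun f F hf => ?_, fun f l F hd hf l0 hl => ?_⟩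
  · rw [Par.mu_re, mul_inv]; linarith
  · rw [Par.mu_im]; linarith [(abs_le.1 hy).1, p.Yo]
  · have F0 : 0 ≤ F := (norm_nonneg _).trans (hf 0 (by simpa using p.Y0.le))
    have n := intervalIntegral.norm_integral_le_of_norm_le_const (a := -YY q h) (b := YY q h)
      (C := 2 * om q h * Real.exp 2 * F)
      (f := fun y => 2 * mu q h y * Gs q h (mu q h y) * f (mu q h y)) fun y hy => by
        have hy' : |y| ≤ YY q h := by
          rw [uIoc_of_le (by linarith [p.Y0])] at hy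
          exact abs_le.2 ⟨hy.1.le, hy.2⟩
        rw [norm_mul, norm_mul, norm_mul, Complex.norm_ofNat]
        gcongr
        · exact (p.rect (p.mu_rect hy')).2.le
        · exact p.Gs_le hy'
        · exact hf y hy'
    have L : |YY q h - -YY q h| ≤ om q h := abs_le.2 ⟨by linarith [p.Y0], by linarith [p.Yo]⟩
    exact n.trans ((mul_le_mul_of_nonneg_left L (by positivity)).trans_eq (by ring))
  · have s : 16 ≤ h ^ 2 := by nlinarith
    have s4 : h ^ 2 ≤ h ^ 4 := by nlinarith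
    obtain ⟨t, rfl⟩ : ∃ t, l = t * Tt q h := ⟨l / Tt q h, by field_simp⟩
    have t0 : 0 ≤ t := nonneg_of_mul_nonneg_left l0 T0
    have el : t * Tt q h / (2 * Tt q h) = t / 2 := by field_simp
    have iT : (Tt q h)⁻¹ * Tt q h = 1 := inv_mul_cancel₀ T0.ne'
    have key : ‖FF q h f‖ ≤ 2 * om q h ^ 2 * F * Real.exp (2 + -(h ^ 2 / 2) + -(t / 2)) := by
      rcases hl with hl | hl
      · have t1 : t ≤ 1 / 2 := le_of_mul_le_mul_right (by linarith) T0
        refine p.main (b := -gg q h) hd hf (by rw [abs_neg, abs_of_pos p.g0]) (fun σ hσ => ?_) ?_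
        · rw [uIcc_of_ge (by linarith [p.g0])] at hσ
          have : σ * Tt q h ≤ 1 := iT ▸ mul_le_mul_of_nonneg_right hσ.2 T0.le
          nlinarith
        · have : -gg q h * (Tt q h - t * Tt q h) = -h ^ 2 * (1 - t) := by
            rw [← p.gT]; ring
          rw [this]
          nlinarith
      · have t1 : 4 ≤ t := le_of_mul_le_mul_right hl T0
        refine p.main (b := gg q h) hd hf (by rw [abs_of_pos p.g0]) (fun σ hσ => ?_) ?_
        · rw [uIcc_of_le p.ig] at hσ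
          have : 1 ≤ σ * Tt q h := iT ▸ mul_le_mul_of_nonneg_right hσ.1 T0.le
          nlinarith
        · have : gg q h * (Tt q h - t * Tt q h) = h ^ 2 * (1 - t) := by
            rw [← p.gT]; ring
          rw [this]
          nlinarith
    rw [el]
    refine key.trans_eq ?_
    rw [Real.exp_add, Real.exp_add]
    ring⟩

end Pool.Agent.Lib.IS2
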