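import Pool.Agent.Lib.IS2.BlueG

/-! Block T2: assembly of the theorem. -/

open scoped ContDiff ComplexConjugate Topology Real
open Complex MeasureTheory Set Filter

noncomputable section

namespace Pool.Agent.Lib.IS2

open Pool.Agent.Lib.ISO Pool.Agent.Lib.MP_312682_mp

namespace T2

lemma gm_mono {W W' : ℕ → ℕ → ℕ} {z : ℤ → ℂ} (h : ∀ j M, W' j M ≤ W j M) (g : Gm W z) : Gm W' z :=
  fun j l e => by
    obtain ⟨M, V, a, b, c⟩ := g j l e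
    exact ⟨M, V, a, (h j M).trans b, c⟩

lemma gm_conj {W : ℕ → ℕ → ℕ} {z : ℤ → ℂ} (g : Gm W z) : Gm W fun j => -conj (z j) := by
  intro j l e
  have r : ∀ t, ra (l.mapRange (fun p => (-p.1, p.2)) (by simp)) t = -conj (ra l t) := fun t => by
    simp [ra, add_comm]
  obtain ⟨M, V, a, b, c⟩ := g j (l.mapRange (fun p => (-p.1, p.2)) (by simp))
    ⟨fun t ht => by rw [r, e.1 t ht]; simp, fun t => by rw [r, norm_neg, norm_conj]; exact e.2 t⟩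
  refine ⟨M, V, a, b, lt_of_eq_of_lt (tsum_congr fun ξ => ?_) c⟩
  have : -conj (z ξ) - amp M V * gm (ra l) V ξ =
      -conj (z ξ - amp M V * gm (ra (l.mapRange (fun p => (-p.1, p.2)) (by simp))) V ξ) := by
    simp only [gm, r, map_sub, map_mul, map_add, map_neg, conj_conj, conj_ofReal]
    ring
  rw [this, norm_neg, norm_conj]

lemma fc_flip (hFOU : St_FOU) {k : ℝ → ℝ} (hk : Per (2 * π) k) :
    fc (fun s => -k (-s)) = fun j => -conj (fc k j) := by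
  funext j
  rw [← (hFOU k hk).1.cj, fc, fc]
  have p : Function.Periodic (fun s : ℝ => (k s : ℂ) * exp (-(I * (-j : ℤ) * s))) (2 * π) := fun s => by
    have : -(I * (-j : ℤ) * (s + 2 * π : ℝ)) = -(I * (-j : ℤ) * s) + j * (2 * π * I) := by
      push_cast; ring
    simp only [hk.per s, this, exp_add, exp_int_mul_two_pi_mul_I, mul_one]
  have e := p.intervalIntegral_add_eq (-(2 * π)) 0
  rw [neg_add_cancel, zero_add] at e
  have e2 := intervalIntegral.integral_comp_neg (a := 0) (b := 2 * π)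
    (fun s : ℝ => (k s : ℂ) * exp (-(I * (-j : ℤ) * s)))
  rw [neg_zero, e] at e2
  rw [← e2, ← mul_neg, ← intervalIntegral.integral_neg]
  congr 2
  funext s
  push_cast
  ring_nf

lemma unscale {c : ℝ} (hc : 0 < c) {Ω Ω' : Set ℂ} (e : ℂ ≃ᵢ ℂ)
    (h : e '' ((fun z : ℂ => (c : ℂ) * z) '' Ω) = (fun z : ℂ => (c : ℂ) * z) '' Ω') :
    ∃ e : ℂ ≃ᵢ ℂ, e '' Ω = Ω' := by
  have c0 : (c : ℂ) ≠ 0 := ofReal_ne_zero.2 hc.ne'
  refine ⟨⟨((Equiv.mulLeft₀ (c : ℂ) c0).trans e.toEquiv).trans (Equiv.mulLeft₀ (c : ℂ) c0).symm,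
    Isometry.of_dist_eq fun a b => ?_⟩, ?_⟩
  · change dist ((c : ℂ)⁻¹ * e (c * a)) ((c : ℂ)⁻¹ * e (c * b)) = _
    rw [dist_eq_norm, ← mul_sub, norm_mul, ← dist_eq_norm, e.dist_eq, dist_eq_norm, ← mul_sub,
      norm_mul, norm_inv, dist_eq_norm, inv_mul_cancel_left₀ (norm_ne_zero_iff.2 c0)]
  · change (fun z => (c : ℂ)⁻¹ * e (c * z)) '' Ω = Ω'
    have : (fun z => (c : ℂ)⁻¹ * e (c * z)) '' Ω =
        (fun z => (c : ℂ)⁻¹ * z) '' (e '' ((fun z : ℂ => (c : ℂ) * z) '' Ω)) := by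
      simp only [image_image]
    rw [this, h, image_image]
    simp [inv_mul_cancel_left₀ c0]

end T2

open T2 in
theorem st_t2 (hFOU : St_FOU) (hBAIRE : St_BAIRE) (hOPEN : St_OPEN) (hDENSE : St_DENSE)
    (hGEO1 : St_GEO1) (hCONG : St_CONG) (hSB : St_SB) (hSA : St_SA) (hB0 : St_B0) (hNCE : St_NCE)
    (hHSQ : St_HSQ) (hSCA : St_SCA) (hONE : St_ONE) : St_T2 := by
  obtain ⟨C, hC⟩ := hONE
  obtain ⟨W1, h1⟩ := hSA C
  obtain ⟨W2, h2⟩ := hSB C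
  have : BaireSpace Jordan := hBAIRE
  let U : {p : ℕ × (ℤ →₀ ℚ × ℚ) // Env p.1 (ra p.2)} → Set Jordan := fun p =>
    {f | ∃ M W, p.1.1 ≤ M ∧ max (W1 p.1.1 M) (W2 p.1.1 M) ≤ W ∧ Mk M W (ra p.1.2) (fc (kf f.1))}
  have hU : ∀ p, IsOpen (U p) := fun p => by
    have : U p = ⋃ M, ⋃ W, ⋃ _ : p.1.1 ≤ M ∧ max (W1 p.1.1 M) (W2 p.1.1 M) ≤ W,
        {f : Jordan | Mk M W (ra p.1.2) (fc (kf f.1))} := by
      ext f; simp [U, -sup_le_iff]
    rw [this]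
    exact isOpen_iUnion fun M => isOpen_iUnion fun W => isOpen_iUnion fun _ =>
      hOPEN.2 M W _ _ p.2
  refine ⟨⋂ p, U p, IsGδ.iInter_of_isOpen hU, dense_iInter_of_isOpen hU fun p =>
    hDENSE _ _ (fun M => max (W1 p.1.1 M) (W2 p.1.1 M)) _ p.2, ?_⟩
  intro f hf Ω Ω' hΩ hΩ' e1 hs
  have gf : Gm (fun j M => max (W1 j M) (W2 j M)) (fc (kf f.1)) := fun j l h =>
    mem_iInter.1 hf ⟨(j, l), h⟩
  have pf := hOPEN.1 f.1 f.2
  obtain ⟨v, hv, ev⟩ := f.2.2.2.2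
  have hc : 0 < v⁻¹ := inv_pos.2 hv
  obtain ⟨s1, s2, s3, s4⟩ := hSCA _ Ω hc
  obtain ⟨s1', -, s3', -⟩ := hSCA _ Ω' hc
  obtain ⟨g, hg, kg, g0, g1⟩ := s4 f.1 f.2
  rw [ev, inv_mul_cancel₀ hv.ne'] at g1
  obtain ⟨σ, u, φ, hσ, -, eu, G, k1⟩ := hGEO1 g hg _ (s1 hΩ) (by
    rw [s2, e1, ← range_comp]
    exact congrArg range (funext fun t => (g0 t).symm))
  obtain rfl : u = 1 := eu.trans g1
  simp only [mul_one] at G
  have k2 : kp (fun s => UniformFun.toFun (g 0) (σ * s / 1)) = fun s => σ * kf f.1 (σ * s) :=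
    funext fun s => by
      refine (k1 s).trans ?_
      rw [← kg, kf, g1, div_one, div_one]
  have gγ : Gm (fun j M => max (W1 j M) (W2 j M))
      (fc (kp fun s => UniformFun.toFun (g 0) (σ * s / 1))) := by
    rw [k2]
    rcases hσ with rfl | rfl
    · simpa only [one_mul] using gf
    · simp only [neg_one_mul]
      rw [fc_flip hFOU pf]
      exact gm_conj gf
  obtain ⟨γ', φ', G', eA, eH, hI⟩ := hC _ _ _ _ G (s1 hΩ) (s1' hΩ') fun n => by rw [s3, s3', hs]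
  obtain ⟨p1, j1, n1⟩ := hNCE _ _ _ G
  obtain ⟨p2, j2, n2⟩ := hNCE _ _ _ G'
  obtain ⟨η1, d1⟩ := hB0 _ _ _ G
  obtain ⟨η2, d2⟩ := hB0 _ _ _ G'
  have hM := h1 _ _ _ _ _ _ (max j1 j2) d1 d2 (n1 _ (le_max_left _ _)) (n2 _ (le_max_right _ _)) eA
    (fun μ hμ a b => by
      have := eH μ hμ
      rw [hHSQ _ _ _ a, hHSQ _ _ _ b] at this
      exact mul_left_cancel₀ (by positivity) this) hI (gm_mono (fun _ _ => le_max_left _ _) gγ)
  obtain ⟨τ, s0, hτ, hk⟩ := h2 _ _ p1 p2 hI (gm_mono (fun _ _ => le_max_right _ _) gγ) hM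
  obtain ⟨e, he⟩ := hCONG _ _ _ _ _ τ s0 _ _ G G' (s1 hΩ).2.1 (s1' hΩ').2.1 hτ hk
  exact unscale hc e he

end Pool.Agent.Lib.IS2
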