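import Pool.Agent.Lib.IS2.Blue

/-! Tangential legs do not contribute to the second variation. -/

open scoped ContDiff ComplexConjugate Topology Real
open Complex MeasureTheory Set Filter

noncomputable section

namespace Pool.Agent.Lib.IS2

open Pool.Agent.Lib.ISO

namespace TAN

variable {P : ℝ → C2} {σ : ℝ → ℝ} {δ : ℝ}

theorem nm0 (hP : P ∈ SP) : 0 ≤ nm P := sn_nm.nn P hP

theorem d_le (hP : P ∈ SP) (s : ℝ) : ‖deriv P s‖ ≤ nm P := by
  linarith [le_nm hP s, norm_nonneg (P s), norm_nonneg (deriv (deriv P) s)]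

theorem v_le (hP : P ∈ SP) (s : ℝ) : ‖P s‖ ≤ nm P := by
  linarith [le_nm hP s, norm_nonneg (deriv P s), norm_nonneg (deriv (deriv P) s)]

theorem tay1 (hP : P ∈ SP) (s a : ℝ) : ‖P (s + a) - P s‖ ≤ nm P * |a| := by
  simpa using (convex_univ (𝕜 := ℝ) (E := ℝ)).norm_image_sub_le_of_norm_deriv_le (C := nm P)
    (fun x _ => SP.diff hP x) (fun x _ => d_le hP x) (mem_univ s) (mem_univ (s + a))

theorem tay2 (hP : P ∈ SP) (s a : ℝ) :
    ‖P (s + a) - P s - a • deriv P s‖ ≤ nm (deriv P) * a ^ 2 := by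
  have hd : ∀ x, HasDerivAt (fun x => P x - x • deriv P s) (deriv P x - deriv P s) x := fun x => by
    simpa using (SP.diff hP x).hasDerivAt.fun_sub ((hasDerivAt_id' x).smul_const (deriv P s))
  have := (convex_closedBall s |a|).norm_image_sub_le_of_norm_hasDerivWithin_le
    (f := fun x => P x - x • deriv P s) (f' := fun x => deriv P x - deriv P s)
    (C := nm (deriv P) * |a|) (fun x _ => (hd x).hasDerivWithinAt) (fun x hx => by
      have h1 := tay1 (SP.s1 hP) s (x - s)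
      rw [add_sub_cancel] at h1
      exact h1.trans (mul_le_mul_of_nonneg_left (by simpa [Real.dist_eq] using hx)
        (nm0 (SP.s1 hP)))) (Metric.mem_closedBall_self (abs_nonneg a))
      (y := s + a) (by simp)
  rw [show P (s + a) - P s - a • deriv P s =
    P (s + a) - (s + a) • deriv P s - (P s - s • deriv P s) by rw [add_smul]; abel]
  refine this.trans_eq ?_
  rw [add_sub_cancel_left, Real.norm_eq_abs, mul_assoc, ← sq, sq_abs]

/-- first and second order remainders of a reparametrisation -/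
def Bm (P : ℝ → C2) (σ : ℝ → ℝ) (s : ℝ) : C2 := P (s + σ s) - P s
def Rm (P : ℝ → C2) (σ : ℝ → ℝ) (s : ℝ) : C2 := P (s + σ s) - P s - σ s • deriv P s

theorem per1 (hσ : Per (2 * π) σ) : Per (2 * π) (deriv σ) :=
  ⟨(contDiff_infty_iff_deriv.1 hσ.smooth).2, per_deriv' hσ.per⟩

theorem hds (hσ : Per (2 * π) σ) (s : ℝ) : HasDerivAt σ (deriv σ s) s :=
  (hσ.smooth.differentiable (by simp) s).hasDerivAt

theorem hdc (hP : P ∈ SP) (hσ : Per (2 * π) σ) (s : ℝ) :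
    HasDerivAt (fun s => P (s + σ s)) ((1 + deriv σ s) • deriv P (s + σ s)) s :=
  (SP.diff hP (s + σ s)).hasDerivAt.scomp s ((hasDerivAt_id' s).fun_add (hds hσ s))

theorem hdB (hP : P ∈ SP) (hσ : Per (2 * π) σ) (s : ℝ) : HasDerivAt (Bm P σ)
    (Bm (deriv P) σ s + deriv σ s • deriv P (s + σ s)) s :=
  ((hdc hP hσ s).fun_sub (SP.diff hP s).hasDerivAt).congr_deriv (by
    simp only [Bm, add_smul, one_smul]; abel)

theorem hdR (hP : P ∈ SP) (hσ : Per (2 * π) σ) (s : ℝ) : HasDerivAt (Rm P σ)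
    (Rm (deriv P) σ s + deriv σ s • Bm (deriv P) σ s) s :=
  (((hdc hP hσ s).fun_sub (SP.diff hP s).hasDerivAt).fun_sub
    ((hds hσ s).fun_smul (SP.diff (SP.s1 hP) s).hasDerivAt)).congr_deriv (by
    simp only [Bm, Rm, add_smul, one_smul, smul_sub]; abel)

theorem comp_mem (hP : P ∈ SP) (hσ : Per (2 * π) σ) : (fun s => P (s + σ s)) ∈ SP :=
  ⟨hP.1.comp (contDiff_id.add hσ.smooth), fun s => by
    simp only [hσ.per s]
    rw [add_right_comm, hP.2]⟩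

theorem Rm_mem (hP : P ∈ SP) (hσ : Per (2 * π) σ) : Rm P σ ∈ SP :=
  SP.sub_mem (SP.sub_mem (comp_mem hP hσ) hP) (smul_mem_SP hσ (SP.s1 hP))

theorem nm_Rm (hP : P ∈ SP) (hσ : Per (2 * π) σ) (h0 : ∀ s, |σ s| ≤ δ)
    (h1 : ∀ s, |deriv σ s| ≤ δ) (h2 : ∀ s, |deriv (deriv σ) s| ≤ δ) :
    nm (Rm P σ) ≤ (3 * nm (deriv P) + 4 * nm (deriv (deriv P)) + nm (deriv (deriv (deriv P)))) *
      δ ^ 2 := nm_le fun s => by
  have δ0 : 0 ≤ δ := (abs_nonneg _).trans (h0 0)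
  have p1 := SP.s1 hP
  have p2 := SP.s1 p1
  have bR : ∀ {F}, F ∈ SP → ‖Rm F σ s‖ ≤ nm (deriv F) * δ ^ 2 := fun hF =>
    (tay2 hF s (σ s)).trans (mul_le_mul_of_nonneg_left (by
      rw [← sq_abs]; exact pow_le_pow_left₀ (abs_nonneg _) (h0 s) 2) (nm0 (SP.s1 hF)))
  have bB : ∀ {F}, F ∈ SP → ‖Bm F σ s‖ ≤ nm F * δ := fun hF =>
    (tay1 hF s (σ s)).trans (mul_le_mul_of_nonneg_left (h0 s) (nm0 hF))
  have b : ∀ (a : ℝ) (v : C2) (N : ℝ), |a| ≤ δ → ‖v‖ ≤ N → ‖a • v‖ ≤ δ * N := fun a v N ha hv => by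
    rw [norm_smul]; exact mul_le_mul ha hv (norm_nonneg _) δ0
  have e : deriv (Rm P σ) = fun s => Rm (deriv P) σ s + deriv σ s • Bm (deriv P) σ s :=
    funext fun s => (hdR hP hσ s).deriv
  have e2 := ((hdR p1 hσ s).fun_add ((hds (per1 hσ) s).fun_smul (hdB p1 hσ s))).deriv
  rw [e, e2]
  have a1 := (norm_add_le _ _).trans (add_le_add (bR p1) (b _ _ _ (h1 s) (bB p1)))
  have a2 := (norm_add_le _ _).trans (add_le_add (bR p2) (b _ _ _ (h1 s) (bB p2)))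
  have a3 := (norm_add_le _ _).trans (add_le_add (bB p2) (b _ _ _ (h1 s) (v_le p2 (s + σ s))))
  have a4 := (norm_add_le _ _).trans (add_le_add (b _ _ _ (h1 s) a3) (b _ _ _ (h2 s) (bB p1)))
  have a5 := (norm_add_le _ _).trans (add_le_add a2 a4)
  have a0 := bR hP
  linarith

theorem bdd (hσ : Per (2 * π) σ) : ∃ L, 0 < L ∧ ∀ s, |σ s| ≤ L := by
  obtain ⟨L, hL⟩ := (Function.Periodic.isBounded_of_continuous (f := σ) hσ.per Real.two_pi_pos.ne'
    hσ.smooth.continuous).exists_norm_le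
  exact ⟨|L| + 1, by positivity, fun s => (hL _ ⟨s, rfl⟩).trans (by linarith [le_abs_self L])⟩

theorem rep (hR : St_REP) (hP : P ∈ SP) (hσ : Per (2 * π) σ) (h1 : ∀ s, |deriv σ s| < 1) (μ : ℂ) :
    TT μ (fun s => P (s + σ s)) = TT μ P := by
  refine tsum_congr fun n => congrArg _ (hR P hP (fun s => s + σ s) (fun _ _ => 1) μ n
    (contDiff_id.add (hσ.smooth.of_le (mod_cast le_top))) (fun s => ?_) (fun s => ?_)
    fun n => ⟨measurable_const, fun _ => norm_one.le, fun _ _ => rfl⟩)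
  · rw [((hasDerivAt_id' s).fun_add (hds hσ s)).deriv]
    linarith [(abs_lt.1 (h1 s)).1]
  · rw [hσ.per]; ring

theorem tg_eq {γ : ℝ → ℂ} (h : Differentiable ℝ γ) (τ : ℝ → ℝ) :
    tg γ τ = fun s => τ s • deriv (cp γ) s := by
  funext s
  rw [deriv_cp h]
  simp [tg, cp]

theorem per_mul (ε : ℝ) (hσ : Per (2 * π) σ) : Per (2 * π) fun s => ε * σ s :=
  ⟨contDiff_const.mul hσ.smooth, fun s => by rw [hσ.per]⟩

theorem zero_of {z : ℂ} {K a : ℝ} (ha : 0 < a) (h : ∀ ε, 0 < ε → ε < a → ‖z‖ ≤ K * ε) : z = 0 := by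
  have : Tendsto (fun ε : ℝ => K * ε) (𝓝[>] 0) (𝓝 (K * 0)) :=
    (tendsto_const_nhds.mul tendsto_id).mono_left nhdsWithin_le_nhds
  refine norm_le_zero_iff.1 ((ge_of_tendsto this ?_).trans_eq (mul_zero K))
  filter_upwards [Ioo_mem_nhdsGT ha] with ε hε using h ε hε.1 hε.2

theorem core (hR : St_REP) (hG : St_GH) {x Q : ℝ → C2} {τ : ℝ → ℝ} {e r M : ℝ} {μ : ℂ}
    (hx : x ∈ SP) (hQ : Q ∈ SP) (he : 0 < e) (hτ : Per (2 * π) τ) (hS : Sep e Q τ) (hr : 0 < r)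
    (hL : LH SP nm (TT μ) x r M) : D2 (TT μ) x Q (fun s => τ s • deriv x s) = 0 := by
  obtain ⟨C, hG⟩ := hG
  replace hG := (hG _ SP nm (TT μ) x r M sn_nm hr hL).2.1
  obtain ⟨L0, p0, b0⟩ := bdd hτ
  obtain ⟨L1, p1, b1⟩ := bdd (per1 hτ)
  obtain ⟨L2, p2, b2⟩ := bdd (per1 (per1 hτ))
  obtain ⟨L, hLd⟩ : ∃ L, L = L0 + L1 + L2 := ⟨_, rfl⟩
  have Lp : 0 < L := by linarith
  obtain ⟨t, ht⟩ : ∃ t : ℝ → C2, t = fun s => τ s • deriv x s := ⟨_, rfl⟩
  have tm : t ∈ SP := ht ▸ smul_mem_SP hτ (SP.s1 hx)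
  rw [← ht]
  obtain ⟨N, hN⟩ : ∃ N, N = (3 * nm (deriv x) + 4 * nm (deriv (deriv x)) +
    nm (deriv (deriv (deriv x)))) * L ^ 2 := ⟨_, rfl⟩
  have x1 := SP.s1 hx
  have x2 := SP.s1 x1
  have N0 : 0 ≤ N := by
    have := nm0 x1; have := nm0 x2; have := nm0 (SP.s1 x2); rw [hN]; positivity
  have q0 := nm0 hQ
  have t0 := nm0 tm
  obtain ⟨A, hA⟩ : ∃ A, A = nm Q + nm t + N + 1 := ⟨_, rfl⟩
  have Ap : 0 < A := by linarith
  refine zero_of (K := |C * M| * A * A / r ^ 2 + |C * M| * A * A * (A + A) / r ^ 3)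
    (a := min (min 1 (r / 8 / A)) (min (e / L) (1 / L))) (by positivity) fun ε ε0 hε => ?_
  simp only [lt_min_iff] at hε
  obtain ⟨⟨ε1, εA⟩, εe, εL⟩ := hε
  rw [lt_div_iff₀ Ap] at εA
  rw [lt_div_iff₀ Lp] at εe εL
  have hσ := per_mul ε hτ
  have d1 : deriv (fun s => ε * τ s) = fun s => ε * deriv τ s :=
    funext fun s => ((hds hτ s).const_mul ε).deriv
  have d2 : deriv (deriv fun s => ε * τ s) = fun s => ε * deriv (deriv τ) s := by
    rw [d1]; exact funext fun s => ((hds (per1 hτ) s).const_mul ε).deriv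
  have bb : ∀ a : ℝ, |a| ≤ L → |ε * a| ≤ ε * L := fun a ha => by
    rw [abs_mul, abs_of_pos ε0]; exact mul_le_mul_of_nonneg_left ha ε0.le
  have s0 : ∀ s, |ε * τ s| ≤ ε * L := fun s => bb _ (by linarith [b0 s])
  have s1 : ∀ s, |deriv (fun s => ε * τ s) s| ≤ ε * L := fun s => by
    rw [d1]; exact bb _ (by linarith [b1 s])
  have s2 : ∀ s, |deriv (deriv fun s => ε * τ s) s| ≤ ε * L := fun s => by
    rw [d2]; exact bb _ (by linarith [b2 s])
  obtain ⟨R, hRd⟩ : ∃ R, R = Rm x fun s => ε * τ s := ⟨_, rfl⟩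
  have Rmm : R ∈ SP := hRd ▸ Rm_mem hx hσ
  have nR : nm R ≤ ε * (ε * A) := hRd ▸ (nm_Rm hx hσ s0 s1 s2).trans (by
    rw [mul_pow, mul_left_comm, ← hN, sq, mul_assoc]
    exact mul_le_mul_of_nonneg_left (mul_le_mul_of_nonneg_left (by linarith) ε0.le) ε0.le)
  have R0 := nm0 Rmm
  have nε : ‖(ε : ℂ)‖ = ε := by rw [norm_real, Real.norm_eq_abs, abs_of_pos ε0]
  have Qm := SP.smul_mem (ε : ℂ) hQ
  have Tm := SP.smul_mem (ε : ℂ) tm
  have nQ : nm ((ε : ℂ) • Q) ≤ ε * A := (sn_nm.smul _ Q hQ).trans (by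
    rw [nε]; exact mul_le_mul_of_nonneg_left (by linarith) ε0.le)
  have nT : nm ((ε : ℂ) • t) ≤ ε * A := (sn_nm.smul _ t tm).trans (by
    rw [nε]; exact mul_le_mul_of_nonneg_left (by linarith) ε0.le)
  have Q0 := nm0 Qm
  have T0 := nm0 Tm
  have εA0 : 0 < ε * A := by positivity
  have nR' : nm R ≤ ε * A := nR.trans (mul_le_of_le_one_left εA0.le ε1.le)
  have hQc : ∀ s, Q (s + ε * τ s) = Q s := fun s => by
    by_cases h : τ s = 0
    · simp [h]
    · have a : Q s = 0 := by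
        by_contra a
        linarith [hS s s a h, dc_self s]
      rw [a]
      by_contra a
      have := (hS _ s a h).trans (dc_le_abs _ _)
      rw [add_sub_cancel_left] at this
      linarith [s0 s]
  have E1 : x + (ε : ℂ) • t + R = fun s => x (s + ε * τ s) := by
    funext s
    simp only [hRd, Rm, ht, Pi.add_apply, Pi.smul_apply, coe_smul, smul_smul]
    abel
  have E2 : x + (ε : ℂ) • t + (ε : ℂ) • Q + R = fun s => (x + (ε : ℂ) • Q) (s + ε * τ s) := by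
    rw [add_right_comm, E1]
    funext s
    simp only [Pi.add_apply, Pi.smul_apply, hQc s]
  have l1 : ∀ s, |deriv (fun s => ε * τ s) s| < 1 := fun s => (s1 s).trans_lt εL
  have E : mx (TT μ) (x + 0) ((ε : ℂ) • Q) ((ε : ℂ) • t) =
      -mx (TT μ) (x + (ε : ℂ) • t) ((ε : ℂ) • Q) R := by
    rw [mx, mx, E1, E2, rep hR hx hσ l1, rep hR (SP.add_mem hx Qm) hσ l1, add_zero,
      add_right_comm x ((ε : ℂ) • t)]
    ring
  have z0 : nm (0 : ℝ → C2) ≤ r / 4 := nm_le fun s => by simp; positivity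
  have g1 := ((hG _ Tm (by linarith) _ Qm _ Rmm).2.2.2.2.2 (by linarith) (by linarith)).1
  have g2 := ((hG _ SP.zero_mem z0 _ Qm _ Tm).2.2.2.2.2 (by linarith) (by linarith)).2
  have g3 : D2 (TT μ) (x + 0) ((ε : ℂ) • Q) ((ε : ℂ) • t) = ε * (ε * D2 (TT μ) x Q t) := by
    rw [(hG _ SP.zero_mem z0 _ hQ _ Tm).2.1, (hG _ SP.zero_mem z0 _ hQ _ Tm).2.2.1,
      (hG _ SP.zero_mem z0 _ tm _ hQ).2.1, (hG _ SP.zero_mem z0 _ tm _ hQ).2.2.1, add_zero]
  have cm := le_abs_self (C * M)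
  have cm0 := abs_nonneg (C * M)
  have g1' : ‖mx (TT μ) (x + (ε : ℂ) • t) ((ε : ℂ) • Q) R‖ ≤
      |C * M| * (ε * A) * (ε * (ε * A)) / r ^ 2 := g1.trans (by gcongr)
  have g2' := g2.trans (show _ ≤ |C * M| * (ε * A) * (ε * A) * (ε * A + ε * A) / r ^ 3 by gcongr)
  rw [E, g3] at g2'
  have g4 := (norm_sub_le _ _).trans (add_le_add ((norm_neg _).trans_le g1') g2')
  rw [sub_sub_cancel, norm_mul, norm_mul, nε] at g4
  refine le_of_mul_le_mul_left (le_of_mul_le_mul_left (g4.trans_eq ?_) ε0) ε0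
  ring

end TAN

theorem st_tan (hR : St_REP) (hG : St_GH) (hL : St_LHT) : St_TAN := by
  intro j q hq
  obtain ⟨C, h0, hL⟩ := hL j q hq
  refine ⟨max h0 1, fun h hh γ hγ Q hQ τ e he hτ hS μ hμ => ?_⟩
  have hp : 0 < (om q h)⁻¹ := inv_pos.2 (pow_pos (one_pos.trans_le ((le_max_right _ _).trans hh)) _)
  have hx := cp_mem hγ.smooth hγ.per
  rw [TAN.tg_eq fun s => (hγ.hd s).differentiableAt]
  exact TAN.core hR hG hx hQ he hτ hS hp (((hL h ((le_max_left _ _).trans hh) γ hγ).2 _ hx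
    (nm_le fun s => by simpa using hp.le)).1 μ hμ)

end Pool.Agent.Lib.IS2
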