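import Pool.Agent.Lib.IS2.B_TAY2

/-! The Taylor step: only the second variation on far pairs survives. -/

open scoped ContDiff ComplexConjugate Topology Real
open Complex MeasureTheory Set Filter

noncomputable section

namespace Pool.Agent.Lib.IS2

open Pool.Agent.Lib.ISO

namespace TAY

lemma num {o c1 cg cl ck Cc p0 p1 : ℝ} {M : ℕ} (ho : 1 ≤ o) (hM : 20 ≤ M) (h1 : 0 ≤ c1)
    (hg : 0 ≤ cg) (hl : 0 ≤ cl) (hk : 0 ≤ ck) (hc : 0 ≤ Cc) (e0 : p0 = c1 * (o ^ M)⁻¹ * o ^ 2)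
    (e1 : p1 = 64 * Cc * o * p0) :
    ck / o ^ (2 * M + 6) + 4 * Cc * o * (cg * (ck / o ^ (2 * M + 6))) +
      (4 * Cc * o) ^ 2 * (cg * (ck / o ^ (2 * M + 6))) +
      (4 * Cc * o) ^ 2 * (cg * (cl * o ^ 3) * p0 * p1 * p1 / o⁻¹ ^ 3) +
      cg * (cl * o ^ 3) * p0 ^ 3 / o⁻¹ ^ 3 ≤
    (ck + 4 * Cc * cg * ck + 16 * Cc ^ 2 * cg * ck + 65536 * Cc ^ 4 * cg * cl * c1 ^ 3 +
      cg * cl * c1 ^ 3) / o ^ (2 * M + 4) := by
  obtain ⟨m, rfl⟩ := Nat.exists_eq_add_of_le hM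
  have o0 : 0 < o := by linarith
  have d : ∀ (x : ℝ) (n : ℕ), 0 ≤ x → x / o ^ (2 * (20 + m) + 4) / o ^ n ≤
      x / o ^ (2 * (20 + m) + 4) := fun x n hx => div_le_self (by positivity) (one_le_pow₀ ho)
  have t1 : ck / o ^ (2 * (20 + m) + 6) = ck / o ^ (2 * (20 + m) + 4) / o ^ 2 := by
    field_simp; ring
  have t2 : 4 * Cc * o * (cg * (ck / o ^ (2 * (20 + m) + 6))) =
      4 * Cc * cg * ck / o ^ (2 * (20 + m) + 4) / o ^ 1 := by
    field_simp; ring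
  have t3 : (4 * Cc * o) ^ 2 * (cg * (ck / o ^ (2 * (20 + m) + 6))) =
      16 * Cc ^ 2 * cg * ck / o ^ (2 * (20 + m) + 4) := by
    field_simp; ring
  have t4 : (4 * Cc * o) ^ 2 * (cg * (cl * o ^ 3) * p0 * p1 * p1 / o⁻¹ ^ 3) =
      65536 * Cc ^ 4 * cg * cl * c1 ^ 3 / o ^ (2 * (20 + m) + 4) / o ^ m := by
    rw [e1, e0]; field_simp; ring
  have t5 : cg * (cl * o ^ 3) * p0 ^ 3 / o⁻¹ ^ 3 =
      cg * cl * c1 ^ 3 / o ^ (2 * (20 + m) + 4) / o ^ (m + 4) := by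
    rw [e0]; field_simp; ring
  rw [t2, t3, t1, t4, t5]
  simp only [add_div]
  have := d ck 2 hk
  have := d (4 * Cc * cg * ck) 1 (by positivity)
  have := d (65536 * Cc ^ 4 * cg * cl * c1 ^ 3) m (by positivity)
  have := d (cg * cl * c1 ^ 3) (m + 4) (by positivity)
  linarith

lemma small {o c1 Cc : ℝ} {M : ℕ} (ho : 1 ≤ o) (hM : 20 ≤ M) (h1 : 0 ≤ c1) (hc : 1 ≤ Cc)
    (hb : 128 * Cc * c1 + 1 ≤ o) :
    c1 * (o ^ M)⁻¹ * o ^ 2 ≤ o⁻¹ / 8 ∧ 2 * (64 * Cc * o * (c1 * (o ^ M)⁻¹ * o ^ 2)) < o⁻¹ := by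
  have o0 : 0 < o := by linarith
  have a1 : (o ^ M)⁻¹ ≤ (o ^ 5)⁻¹ := inv_anti₀ (by positivity) (pow_le_pow_right₀ ho (by omega))
  have b1 : 2 * (64 * Cc * o * (c1 * (o ^ M)⁻¹ * o ^ 2)) < o⁻¹ := by
    calc _ ≤ 2 * (64 * Cc * o * (c1 * (o ^ 5)⁻¹ * o ^ 2)) := by gcongr
      _ = (128 * Cc * c1) / o * o⁻¹ := by field_simp; ring
      _ < 1 * o⁻¹ := by
        gcongr
        rw [div_lt_one o0]; linarith
      _ = _ := one_mul _
  refine ⟨?_, b1⟩
  have b2 : 0 ≤ c1 * (o ^ M)⁻¹ * o ^ 2 := by positivity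
  have b3 : 1 ≤ Cc * o := by nlinarith
  nlinarith

lemma par {q : ℕ} {h : ℝ} (hq : 6 ≤ q) (hh : 1 ≤ h) : ∃ e : ℝ, 0 < e ∧ e ≤ 1 ∧
    Tt q h / (2 * h) = 2 * e ∧ 2 * Tt q h / h = 8 * e ∧ e⁻¹ ≤ 4 * om q h ∧
    (e ^ 2)⁻¹ ≤ 16 * om q h ∧ h ≤ om q h ∧ 0 ≤ YY q h := by
  have h0 : 0 < h := by linarith
  have u1 : 1 ≤ h ^ (q + 3) := one_le_pow₀ hh
  refine ⟨(4 * h ^ (q + 3))⁻¹, by positivity, inv_le_one_of_one_le₀ (by linarith), ?_, ?_, ?_, ?_,
    le_self_pow₀ hh (by omega), by unfold YY Tt; positivity⟩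
  · unfold Tt; field_simp; ring
  · unfold Tt; field_simp; ring
  · rw [inv_inv, om]
    have := pow_le_pow_right₀ hh (show q + 3 ≤ 3 * q by omega)
    linarith
  · rw [inv_pow, inv_inv, mul_pow, ← pow_mul, om]
    have := pow_le_pow_right₀ hh (show (q + 3) * 2 ≤ 3 * q by omega)
    linarith

end TAY

open TAY in
theorem st_tay (hGH : St_GH) (hL : St_LHT) (hCUT : St_CUT) (hK : St_KILL) (hH : St_H1)
    (hT : St_TAN) (hC5 : St_C5) (hN : St_NH) (hS : St_SH) : St_TAY := by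
  classical
  intro j K M q hM hq
  obtain ⟨CG, hG⟩ := hGH
  obtain ⟨CL, a1, hL⟩ := hL j q (by omega)
  obtain ⟨Cc, hCc, -, hP⟩ := hCUT
  obtain ⟨B, hH⟩ := hH j
  obtain ⟨C1, a2, hH⟩ := hH K M q (by omega) hq
  obtain ⟨CK, a3, hK⟩ := hK j B q (2 * M + 6) (by omega)
  obtain ⟨a4, hT⟩ := hT j q (by omega)
  obtain ⟨a5, hC5⟩ := hC5 j q (by omega)
  obtain ⟨hN1, hN2⟩ := hN j
  obtain ⟨a6, hN2⟩ := hN2 q (by omega)
  obtain ⟨CS, a7, hS⟩ := hS q (by omega)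
  refine ⟨|CK| + 4 * Cc * |CG| * |CK| + 16 * Cc ^ 2 * |CG| * |CK| +
    65536 * Cc ^ 4 * |CG| * |CL| * |C1| ^ 3 + |CG| * |CL| * |C1| ^ 3,
    max (max (max a1 a2) (max a3 a4)) (max (max a5 a6) (max a7 (128 * Cc * |C1| + 1))),
    fun h hh W Ω γ η a0 hW hD hγ hTon => ?_⟩
  simp only [max_le_iff] at hh
  obtain ⟨⟨⟨b1, b2⟩, b3, b4⟩, ⟨b5, b6⟩, b7, b8⟩ := hh
  have c1 := abs_nonneg C1
  have hh1 : 1 ≤ h := by nlinarith
  obtain ⟨e, he, he1, ee1, ee2, ee3, ee4, ho, hY⟩ := par (q := q) (by omega) hh1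
  obtain ⟨hstr, hx0, sZ, pZ, hsp, hnm⟩ := hH h b2 W γ a0 hW hγ hTon
  obtain ⟨-, hL⟩ := hL h b1 γ hγ
  obtain ⟨n, α, φ, hP⟩ := hP e he he1
  obtain ⟨mN, -⟩ := (hN1 γ hγ).2
  obtain ⟨CN, hCN⟩ := (hN2 h b6 γ hγ).2 (2 * e) (by positivity)
  have hmu := fun y hy => ((hS h b7).2.1 y hy).1
  have hT := hT h b4 γ hγ
  have hC5 := hC5 h b5 Ω γ η hD hγ
  have hK := hK h b3 γ _ hγ hstr
  have hA : amp M W = (om q h ^ M)⁻¹ := by rw [amp, pow_mul, hW]
  have hρ : rho q h γ = fun s => rdot (Zc (Xi q h) γ s) (nr γ s) := rfl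
  rw [hρ]
  generalize Zc (Xi q h) γ = Z at *
  generalize rs (lo (Xi q h) γ) = x0 at *
  generalize om q h = o at *
  have o1 : 1 ≤ o := hh1.trans ho
  have o0 : 0 < o := by linarith
  have oi : 0 < o⁻¹ := by positivity
  obtain ⟨s1, s2⟩ := small o1 (show 20 ≤ M by omega) c1 hCc (b8.trans ho)
  set p0 : ℝ := |C1| * (o ^ M)⁻¹ * o ^ 2 with hp0
  set p1 : ℝ := 64 * Cc * o * p0 with hp1
  have mZ : cp Z ∈ SP := cp_mem sZ pZ
  have mγ : cp γ ∈ SP := cp_mem hγ.smooth hγ.per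
  have nZ : nm (cp Z) ≤ p0 := by
    rw [hA] at hnm
    refine hnm.trans ?_
    rw [hp0]
    gcongr
    exact le_abs_self _
  have nZ0 := sn_nm.nn _ mZ
  have nx : nm (x0 - cp γ) ≤ o⁻¹ := by
    have := sn_nm.smul (-1) _ mZ
    rw [hsp, sub_add_cancel_left, ← neg_one_smul ℂ (cp Z)]
    simp only [norm_neg, norm_one, one_mul] at this
    linarith
  have n0 : nm (cp γ - cp γ) ≤ o⁻¹ := by
    have := sn_nm.smul 0 _ mγ
    rw [zero_smul, norm_zero, zero_mul] at this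
    rw [sub_self]
    linarith
  set y : Fin n → ℝ → C2 := fun k s => φ k s • cp Z s with hy
  have my : ∀ k, y k ∈ SP := fun k => smul_mem_SP (hP.per k) mZ
  have ny : ∀ k, nm (y k) ≤ p1 := fun k => by
    refine (pu_nm hP hCc he he1 mZ k).trans ?_
    rw [div_eq_mul_inv]
    calc 4 * (Cc * (e ^ 2)⁻¹) * nm (cp Z) ≤ 4 * (Cc * (16 * o)) * p0 := by gcongr
      _ = p1 := by rw [hp1]; ring
  have ny0 := fun k => sn_nm.nn _ (my k)
  have hn : (n : ℝ) ≤ 4 * Cc * o := by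
    refine hP.card.trans ?_
    rw [div_eq_mul_inv]
    calc Cc * e⁻¹ ≤ Cc * (4 * o) := by gcongr
      _ = _ := by ring
  have sy : ∑ k, y k = cp Z := pu_split hP _
  obtain ⟨k0, k1⟩ := hK nx
  obtain ⟨g1, g2, g3, g4⟩ := hG _ SP nm _ x0 _ _ sn_nm oi (hL x0 hx0 nx).2.1
  obtain ⟨l1, -, l3⟩ := hL _ mγ n0
  have z0 : nm (0 : ℝ → C2) ≤ o⁻¹ / 4 := by
    have := sn_nm.smul 0 _ mγ
    rw [zero_smul, norm_zero, zero_mul] at this
    linarith
  have kk : CK / o ^ (2 * M + 6) ≤ |CK| / o ^ (2 * M + 6) := by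
    gcongr
    exact le_abs_self _
  have kp : 0 ≤ |CK| / o ^ (2 * M + 6) := by positivity
  have near : ∀ k l, dc (α k) (α l) ≤ 4 * e →
      ‖D1 (FT q h) x0 (y k)‖ ≤ |CG| * (|CK| / o ^ (2 * M + 6)) ∧
      ‖D2 (FT q h) x0 (y k) (y l)‖ ≤ |CG| * (|CK| / o ^ (2 * M + 6)) := fun k l hkl => by
    have := g4 _ (my k) _ (my l) (|CK| / o ^ (2 * M + 6)) (by linarith [ny k, ny l])
      fun ε δ hε hδ => by
        have m1 := SP.smul_mem ε (my k)
        have m2 := SP.smul_mem δ (my l)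
        refine (k1 _ (SP.add_mem m1 m2) (α k) ?_ fun s hs => ?_).trans kk
        · have := sn_nm.add _ m1 _ m2
          have := sn_nm.smul ε _ (my k)
          have := sn_nm.smul δ _ (my l)
          nlinarith [ny k, ny l, ny0 k, ny0 l]
        · rw [ee2] at hs
          have t := dc_triangle s (α l) (α k)
          rw [dc_comm (α l)] at t
          simp [hy, hP.supp k s (by linarith), hP.supp l s (by linarith)]
    have hle : CG * (|CK| / o ^ (2 * M + 6)) ≤ |CG| * (|CK| / o ^ (2 * M + 6)) := by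
      gcongr
      exact le_abs_self _
    exact ⟨this.1.trans hle, this.2.trans hle⟩
  set F : Finset (Fin n × Fin n) := Finset.univ.filter fun p => 4 * e < dc (α p.1) (α p.2) with hF
  have hF' : ∀ p, p ∈ F ↔ 4 * e < dc (α p.1) (α p.2) := fun p => by simp [hF]
  have cl0 : 0 ≤ CL * o ^ 3 := (norm_nonneg _).trans
    ((hL x0 hx0 nx).2.1.bd 0 SP.zero_mem (by linarith))
  have cl1 : CG * (CL * o ^ 3) ≤ |CG| * (|CL| * o ^ 3) :=
    mul_le_mul (le_abs_self _) (by gcongr; exact le_abs_self _) cl0 (abs_nonneg _)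
  have p00 : 0 ≤ p0 := nZ0.trans nZ
  have p10 : 0 ≤ p1 := by positivity
  have main := comb F (FT q h (cp γ)) (FT q h x0) (fun k => D1 (FT q h) x0 (y k))
    (fun p => D2 (FT q h) x0 (y p.1) (y p.2)) (fun p => D2 (FT q h) (cp γ) (y p.1) (y p.2))
    (η2 := |CG| * (|CL| * o ^ 3) * p0 * p1 * p1 / o⁻¹ ^ 3)
    (η3 := |CG| * (|CL| * o ^ 3) * p0 ^ 3 / o⁻¹ ^ 3) hn (by positivity) (by positivity)
    (k0.trans kk) (fun k => (near k k (by rw [dc_self]; positivity)).1)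
    (fun p hp => (near p.1 p.2 (not_lt.1 fun a => hp ((hF' p).2 a))).2)
    (fun p => by
      have := (g2 _ mZ (by linarith) _ (my p.1) _ (my p.2)).2.2.2.2.1
      rw [← hsp] at this
      refine this.trans ?_
      have := ny p.1
      have := ny p.2
      have := ny0 p.1
      have := ny0 p.2
      gcongr)
    (by
      have := g3 _ mZ (nZ.trans s1)
      have e1 := add_sum g1 y my Finset.univ
      have e2 := bil_sum (g := D2 (FT q h) x0)
        (fun a ha b hb c hc => by simpa using (g2 0 SP.zero_mem z0 a ha b hb).1 c hc)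
        (fun a ha b hb => by simpa using (g2 0 SP.zero_mem z0 a ha b hb).2.2.1) y my
      rw [sy] at e1 e2
      rw [← hsp, e1, e2] at this
      refine this.trans ?_
      gcongr)
  have p1' : Function.Periodic (deriv γ) (2 * π) := per_deriv' hγ.per
  have pρ : Per (2 * π) fun s => rdot (Z s) (nr γ s) :=
    per_rdot sZ (contDiff_const.mul hγ.s1) pZ fun s => by simp only [nr, p1' s]
  have sep : ∀ p ∈ F, Sep (2 * e) (φ p.1) (φ p.2) := fun p hp s t hs ht =>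
    (pu_far hP ((hF' p).1 hp) hs ht).le
  have c5 := fun p (hp : p ∈ F) => hC5 _ _ (2 * e) (by positivity) (per_mul (hP.per p.1) pρ)
    (per_mul (hP.per p.2) pρ) fun s t hs ht =>
      sep p hp s t (left_ne_zero_of_mul hs) (left_ne_zero_of_mul ht)
  obtain ⟨r1, r2⟩ := ff_sum F (PsN γ fun s t => (∑ p ∈ F, φ p.1 s * φ p.2 t) *
      (rdot (Z s) (nr γ s) * rdot (Z t) (nr γ t)))
    (fun p => PsN γ fun s t => φ p.1 s * rdot (Z s) (nr γ s) * (φ p.2 t * rdot (Z t) (nr γ t)))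
    (fun p μ => D2 (TT μ) (cp γ) (y p.1) (y p.2)) hY hmu
    (fun μ hμ => by
      rw [← psn_sum F γ μ _ mN (hCN μ hμ)]
      · refine congrArg (fun w => PsN γ w μ) ?_
        funext s t
        rw [Finset.sum_mul]
        exact Finset.sum_congr rfl fun p _ => by ring
      · intro p _
        exact ((per_mul (hP.per p.1) pρ).smooth.continuous.comp continuous_fst).mul
          ((per_mul (hP.per p.2) pρ).smooth.continuous.comp continuous_snd)
      · intro p hp s t hne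
        exact sep p hp s t (left_ne_zero_of_mul (left_ne_zero_of_mul hne))
          (left_ne_zero_of_mul (right_ne_zero_of_mul hne)))
    (fun p hp => (c5 p hp).1)
    (fun p hp μ hμ => by
      obtain ⟨-, u2, -⟩ := hG _ SP nm _ _ _ _ sn_nm oi (l1 μ hμ)
      rw [← (c5 p hp).2 μ hμ]
      refine congrArg (fun w => 2 * μ * w) ?_
      exact far_pair (g := D2 (TT μ) (cp γ)) hγ sZ pZ
        (fun a ha b hb c hc => by simpa using (u2 0 SP.zero_mem z0 a ha b hb).1 c hc)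
        (fun a ha b hb => by simpa using (u2 0 SP.zero_mem z0 a ha b hb).2.2.1)
        (fun Q hQ τ e he hτ hs => hT Q hQ τ e he hτ hs μ hμ) (by positivity) (hP.per p.1)
        (hP.per p.2) (sep p hp))
  refine ⟨_, pu_wf hP he ee1 ee2 F hF', r1, ?_⟩
  rw [Finset.sum_congr rfl fun p _ => (l3 _ (my p.1) _ (my p.2)).2, r2, mul_neg, sub_neg_eq_add]
    at main
  exact main.trans (num o1 (by omega) c1 (abs_nonneg _) (abs_nonneg _) (abs_nonneg _)
    (by linarith) hp0 hp1)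

end Pool.Agent.Lib.IS2
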