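import Pool.Agent.Lib.IS2.Blue

/-! Equal Hilbert-Schmidt norms give equal regularised traces up to a constant. -/

open scoped ContDiff ComplexConjugate Topology Real
open Complex MeasureTheory Set Filter

noncomputable section

namespace Pool.Agent.Lib.IS2

open Pool.Agent.Lib.ISO

namespace TEQ

lemma mono (hG : St_GRE) (hR : St_RES) {a b : ℝ} {γ : ℝ → ℂ} {Ω : Set ℂ} (ha : Pot a γ Ω)
    (hb : Pot b γ Ω) (hab : a ≤ b) : RR b b γ Ω ≤ RR a b γ Ω ∧ RR a b γ Ω ≤ RR a a γ Ω := by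
  have hm := ha.cd.opn.measurableSet
  have pos : ∀ {c : ℝ}, Pot c γ Ω → ∀ x ∈ Ω, ∀ y ∈ Ω, x ≠ y → 0 ≤ Rg c γ Ω x y :=
    fun hc x hx y hy h => (((hG _ _ _ hc).2.2.2 y hy).2.2.1 x hx).2.2.1 h
  have le : ∀ x ∈ Ω, ∀ y ∈ Ω, x ≠ y → Rg b γ Ω x y ≤ Rg a γ Ω x y := fun x hx y hy h => by
    have e := ((hR a b γ Ω ha hb).1 x hx y hy h).2
    have i : 0 ≤ ∫ z in Ω, Rg a γ Ω x z * Rg b γ Ω z y := by
      refine integral_nonneg_of_ae ?_
      filter_upwards [ae_restrict_mem hm, ae_restrict_of_ae (Measure.ae_ne volume x),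
        ae_restrict_of_ae (Measure.ae_ne volume y)] with z hz h1 h2
      exact mul_nonneg (pos ha x hx z hz h1.symm) (pos hb z hz y hy h2)
    have : 0 ≤ b ^ 2 - a ^ 2 := by nlinarith [ha.pos]
    nlinarith [mul_nonneg this i]
  have ae : ∀ᵐ p ∂((volume.restrict Ω).prod (volume.restrict Ω)),
      p.1 ∈ Ω ∧ p.2 ∈ Ω ∧ p.1 ≠ p.2 := by
    rw [Measure.ae_prod_iff_ae_ae]
    · filter_upwards [ae_restrict_mem hm] with x hx
      filter_upwards [ae_restrict_mem hm, ae_restrict_of_ae (Measure.ae_ne volume x)] with z hz h1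
      exact ⟨hx, hz, h1.symm⟩
    · exact (measurable_fst hm).inter ((measurable_snd hm).inter
        (measurableSet_eq_fun measurable_fst measurable_snd).compl)
  have i1 := (hR b b γ Ω hb hb).2.1
  have i2 := (hR a b γ Ω ha hb).2.1
  have i3 := (hR a a γ Ω ha ha).2.1
  unfold RR
  rw [← integral_prod _ i1, ← integral_prod _ i2, ← integral_prod _ i3]
  refine ⟨integral_mono_ae i1 i2 ?_, integral_mono_ae i2 i3 ?_⟩
  · filter_upwards [ae] with p hp
    exact mul_le_mul_of_nonneg_right (le _ hp.1 _ hp.2.1 hp.2.2) (pos hb _ hp.1 _ hp.2.1 hp.2.2)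
  · filter_upwards [ae] with p hp
    exact mul_le_mul_of_nonneg_left (le _ hp.1 _ hp.2.1 hp.2.2) (pos ha _ hp.1 _ hp.2.1 hp.2.2)

lemma const {D f : ℝ → ℝ} {A B : ℝ}
    (h : ∀ a b, A ≤ a → a ≤ b → b ≤ B → f b ≤ f a ∧ |D a - D b| ≤ (b ^ 2 - a ^ 2) * (f a - f b))
    {b : ℝ} (h1 : A ≤ b) (h2 : b ≤ B) : D A = D b := by
  have st : ∀ δ, 0 ≤ δ → ∀ k : ℕ, A + k * δ ≤ b →
      |D A - D (A + k * δ)| ≤ 2 * b * δ * (f A - f (A + k * δ)) := fun δ hδ k => by
    induction k with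
    | zero => intro _; simp
    | succ k ih =>
      intro hk
      push_cast at hk ⊢
      have k0 : 0 ≤ (k : ℝ) * δ := by positivity
      have i := ih (by linarith)
      obtain ⟨p, q⟩ := h (A + k * δ) (A + (k + 1) * δ) (by linarith) (by linarith) (by linarith)
      have r : (A + (k + 1) * δ) ^ 2 - (A + k * δ) ^ 2 ≤ 2 * b * δ := by nlinarith
      have := mul_le_mul_of_nonneg_right r (sub_nonneg.2 p)
      have := abs_sub_le (D A) (D (A + k * δ)) (D (A + (k + 1) * δ))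
      linarith
  have bd : ∀ n : ℕ, |D A - D b| ≤ 2 * b * (b - A) * (f A - f b) * (1 / ((n : ℝ) + 1)) := fun n => by
    have e : A + ((n + 1 : ℕ) : ℝ) * ((b - A) / (n + 1)) = b := by
      push_cast
      field_simp
      ring
    have := st ((b - A) / (n + 1)) (div_nonneg (by linarith) (by positivity)) (n + 1) e.le
    rw [e] at this
    exact this.trans_eq (by ring)
  have l := (tendsto_one_div_add_atTop_nhds_zero_nat (𝕜 := ℝ)).const_mul
    (2 * b * (b - A) * (f A - f b))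
  rw [mul_zero] at l
  exact sub_eq_zero.1 (abs_nonpos_iff.1 (ge_of_tendsto' l bd))

lemma open_DD (q : ℕ) (h : ℝ) : IsOpen (DD q h) :=
  (isOpen_lt continuous_const continuous_re).inter (isOpen_lt continuous_norm continuous_const)

lemma conv_DD (q : ℕ) (h : ℝ) : Convex ℝ (DD q h) := by
  have := (convex_halfSpace_re_gt (2 * Tt q h)⁻¹).inter (convex_ball (0 : ℂ) (om q h))
  refine (Set.ext fun z => ?_ : _ = DD q h) ▸ this
  simp [DD]

end TEQ

open TEQ in
theorem st_teq (hLHT : St_LHT) (hLNK : St_LNK) (hSH : St_SH) (hG : St_GRE) (hR : St_RES)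
    (hTR : St_TR) : St_TEQ := by
  intro j q N hq
  obtain ⟨C1, h1, H1⟩ := hLHT j q hq
  obtain ⟨h2, H2⟩ := hLNK.2.2 j q hq
  obtain ⟨C3, h3, H3⟩ := hSH q hq
  refine ⟨|C3| * (2 * |C1|) * (3 * q * (N + 3)).factorial, max (max h1 h2) (max h3 2), ?_⟩
  intro h hh Ω Ω' γ γ' hΩ hΩ' hγ hγ' hv hRR
  simp only [max_le_iff] at hh
  obtain ⟨⟨g1, g2⟩, g3, g4⟩ := hh
  have hp : 0 < h := by linarith
  have o0 : 0 < om q h := pow_pos hp _
  set A := h ^ (q + 2) with hA
  have A1 : 1 ≤ A := one_le_pow₀ (by linarith)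
  have A2 : 2 * A < om q h := by
    have : h ^ (q + 2 + 2) ≤ h ^ (3 * q) := pow_le_pow_right₀ (by linarith) (by omega)
    rw [pow_add] at this
    unfold om
    nlinarith [mul_le_mul_of_nonneg_left (show 4 ≤ h ^ 2 by nlinarith) (show 0 ≤ A by linarith)]
  have mem : ∀ a : ℝ, A ≤ a → a ≤ 2 * A → (a : ℂ) ∈ DD q h := fun a p1 p2 => by
    refine ⟨?_, ?_⟩
    · rw [Tt, ← hA, mul_inv, inv_inv, ofReal_re]
      linarith
    · rw [norm_real, Real.norm_eq_abs, abs_of_pos (by linarith)]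
      linarith
  have n0 : ∀ P : ℝ → C2, nm (P - P) ≤ 2 / om q h := fun P => nm_le fun s => by
    simp only [sub_self, Pi.zero_apply, norm_zero]
    have : deriv (0 : ℝ → C2) = 0 := funext fun s => deriv_const s 0
    simp only [this, Pi.zero_apply, norm_zero, add_zero]
    positivity
  have pt := fun a p1 p2 => H2 h g2 γ γ Ω a hγ hΩ (n0 _) (mem a p1 p2)
  have pt' := fun a p1 p2 => H2 h g2 γ' γ' Ω' a hγ' hΩ' (n0 _) (mem a p1 p2)
  have cD : ∀ b, A ≤ b → b ≤ 2 * A → TB A γ Ω - TB A γ' Ω' = TB b γ Ω - TB b γ' Ω' := fun b p1 p2 => by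
    refine const (D := fun a => TB a γ Ω - TB a γ' Ω') (f := fun a => RR a a γ Ω) (B := 2 * A)
      (fun a b q1 q2 q3 => ?_) p1 p2
    have a1 := pt a q1 (by linarith)
    have b1 := pt b (by linarith) q3
    have a2 := pt' a q1 (by linarith)
    have b2 := pt' b (by linarith) q3
    obtain ⟨m1, m2⟩ := mono hG hR a1 b1 q2
    obtain ⟨m3, m4⟩ := mono hG hR a2 b2 q2
    rw [← hRR a (by linarith) a1 a2] at m4
    rw [← hRR b (by linarith) b1 b2] at m3
    have e1 := (hR a b γ Ω a1 b1).2.2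
    have e2 := (hR a b γ' Ω' a2 b2).2.2
    rw [← hv] at e2
    have d : 0 ≤ b ^ 2 - a ^ 2 := by nlinarith
    refine ⟨m1.trans m2, abs_le.2 ⟨?_, ?_⟩⟩
    · nlinarith [mul_nonneg d (show 0 ≤ RR a b γ Ω - RR b b γ Ω by linarith),
        mul_nonneg d (show 0 ≤ RR a a γ Ω - RR a b γ' Ω' by linarith)]
    · nlinarith [mul_nonneg d (show 0 ≤ RR a b γ' Ω' - RR b b γ Ω by linarith),
        mul_nonneg d (show 0 ≤ RR a a γ Ω - RR a b γ Ω by linarith)]
  obtain ⟨-, d1, b1, -⟩ := (H1 h g1 γ hγ).1 _ (cp_mem hγ.smooth hγ.per) (n0 _)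
  obtain ⟨-, d2, b2, -⟩ := (H1 h g1 γ' hγ').1 _ (cp_mem hγ'.smooth hγ'.per) (n0 _)
  have mA := mem A le_rfl (by linarith)
  set c := TT A (cp γ) - TT A (cp γ') with hc
  have eq : EqOn (fun μ => TT μ (cp γ) - TT μ (cp γ')) (fun _ => c) (DD q h) := by
    refine AnalyticOnNhd.eqOn_of_preconnected_of_frequently_eq
      ((d1.sub d2).analyticOnNhd (open_DD q h)) analyticOnNhd_const
      (conv_DD q h).isPreconnected mA ?_
    have t : Tendsto (fun x : ℝ => (x : ℂ)) (𝓝[>] A) (𝓝[≠] (A : ℂ)) :=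
      tendsto_nhdsWithin_iff.2 ⟨(continuous_ofReal.tendsto A).mono_left nhdsWithin_le_nhds, by
        filter_upwards [self_mem_nhdsWithin] with x hx
        exact fun e => (ne_of_gt hx) (ofReal_injective e)⟩
    refine t.frequently (Eventually.frequently ?_)
    filter_upwards [Ioc_mem_nhdsGT (show A < 2 * A by linarith)] with x hx
    rw [hc, hTR x γ Ω (pt x hx.1.le hx.2), hTR x γ' Ω' (pt' x hx.1.le hx.2),
      hTR A γ Ω (pt A le_rfl (by linarith)), hTR A γ' Ω' (pt' A le_rfl (by linarith)),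
      ← ofReal_sub, ← ofReal_sub, cD x hx.1.le hx.2]
  obtain ⟨-, s2, -, s4⟩ := H3 h g3
  have Y0 : 0 ≤ YY q h := by unfold YY Tt; positivity
  have seg : ∀ y ∈ uIcc (-YY q h) (YY q h), mu q h y ∈ DD q h := fun y hy => by
    rw [uIcc_of_le (by linarith)] at hy
    exact (s2 y (abs_le.2 hy)).1
  have cm : Continuous (mu q h) := by unfold mu; fun_prop
  have ii : ∀ f : ℂ → ℂ, DifferentiableOn ℂ f (DD q h) → IntervalIntegrable
      (fun y => 2 * mu q h y * Gs q h (mu q h y) * f (mu q h y)) volume (-YY q h) (YY q h) :=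
    fun f hf => by
      refine ContinuousOn.intervalIntegrable (ContinuousOn.mul (Continuous.continuousOn ?_)
        (hf.continuousOn.comp cm.continuousOn seg))
      unfold Gs ze
      fun_prop
  have e : FT q h (cp γ) - FT q h (cp γ') = FF q h fun _ => c := by
    unfold FT FF
    rw [← intervalIntegral.integral_sub (ii _ d1) (ii _ d2)]
    refine intervalIntegral.integral_congr fun y hy => ?_
    have := eq (seg y hy)
    simp only at this ⊢
    rw [← this]
    ring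
  have T0 : 0 ≤ Tt q h / 2 := by unfold Tt; positivity
  have k := s4 (fun _ => c) 0 ‖c‖ (differentiableOn_const c) (fun μ _ => by simp) le_rfl (Or.inl T0)
  rw [zero_div, neg_zero, Real.exp_zero, mul_one] at k
  have cb : ‖c‖ ≤ 2 * |C1| * om q h := by
    have := norm_sub_le (TT A (cp γ)) (TT A (cp γ'))
    nlinarith [b1 _ mA, b2 _ mA, mul_le_mul_of_nonneg_right (le_abs_self C1) o0.le]
  have ex : om q h ^ (N + 3) * Real.exp (-(h ^ 2 / 2)) ≤ (3 * q * (N + 3)).factorial := by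
    have := Real.pow_div_factorial_le_exp h hp.le (3 * q * (N + 3))
    rw [div_le_iff₀ (by positivity)] at this
    have l : Real.exp h * Real.exp (-(h ^ 2 / 2)) ≤ 1 := by
      rw [← Real.exp_add]
      exact Real.exp_le_one_iff.2 (by nlinarith)
    rw [om, ← pow_mul]
    calc _ ≤ Real.exp h * (3 * q * (N + 3)).factorial * Real.exp (-(h ^ 2 / 2)) := by gcongr
      _ = Real.exp h * Real.exp (-(h ^ 2 / 2)) * (3 * q * (N + 3)).factorial := by ring
      _ ≤ 1 * _ := by gcongr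
      _ = _ := one_mul _
  rw [e, le_div_iff₀ (by positivity)]
  calc ‖FF q h fun _ => c‖ * om q h ^ N
      ≤ (|C3| * om q h ^ 2 * (2 * |C1| * om q h) * Real.exp (-(h ^ 2 / 2))) * om q h ^ N := by
        refine mul_le_mul_of_nonneg_right (k.trans ?_) (by positivity)
        gcongr
        exact le_abs_self _
    _ = |C3| * (2 * |C1|) * (om q h ^ (N + 3) * Real.exp (-(h ^ 2 / 2))) := by ring
    _ ≤ _ := by gcongr

end Pool.Agent.Lib.IS2
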