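import Pool.Agent.Lib.IS2.B_TONE1

/-! Block TONE: a marker with two modes forces a tone. -/

open scoped ContDiff ComplexConjugate Topology Real
open Complex MeasureTheory Set Filter

noncomputable section

namespace Pool.Agent.Lib.IS2

open Pool.Agent.Lib.ISO Pool.Agent.Lib.ISO.K4

namespace TONE

def Ar (r : ℕ) (z : ℤ → ℂ) : ℝ := ∑' ξ : ℤ, |(ξ : ℝ)| ^ r * ‖z ξ‖
def S0 : ℝ := ∑' ξ : ℤ, 1 / (ξ : ℝ) ^ 2
def S1 : ℝ := ∑' ξ : ℤ, 1 / (1 + (ξ : ℝ) ^ 2)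

lemma hS0 : HasSum (fun ξ : ℤ => 1 / (ξ : ℝ) ^ 2) S0 :=
  (Real.summable_one_div_int_pow.2 (by norm_num)).hasSum

lemma S0_nonneg : 0 ≤ S0 := tsum_nonneg fun _ => by positivity
lemma S1_nonneg : 0 ≤ S1 := tsum_nonneg fun _ => by positivity

lemma hS1 (k : ℤ) : HasSum (fun ξ : ℤ => 1 / (1 + ((ξ : ℝ) + k) ^ 2)) S1 := by
  have h : Summable fun ξ : ℤ => 1 / (1 + (ξ : ℝ) ^ 2) := by
    refine hS0.summable.of_norm_bounded_eventually ?_
    filter_upwards [eventually_cofinite_ne 0] with ξ h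
    have : (ξ : ℝ) ≠ 0 := Int.cast_ne_zero.2 h
    rw [Real.norm_of_nonneg (by positivity)]
    exact one_div_le_one_div_of_le (by positivity) (by linarith)
  simpa [Function.comp_def, S1] using (Equiv.addRight k).hasSum_iff.2 h.hasSum

lemma le_inf (n : ℕ) : (n : WithTop ℕ∞) ≤ ∞ := by exact_mod_cast le_top

lemma amgm {x y c : ℝ} (hc : 0 < c) : x * y ≤ x ^ 2 / c + c * y ^ 2 := by
  rw [div_add' _ _ _ hc.ne', le_div_iff₀ hc]
  nlinarith [sq_nonneg (x - c * y), sq_nonneg x, sq_nonneg (c * y)]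

variable {κ : ℝ → ℝ} {j K : ℝ} {M W : ℕ} {z : ℤ → ℂ} {a0 a1 : ℂ}

lemma low (hF : St_FOU) (hκ : Per (2 * π) κ) (hb : Bk j κ) : 0 ≤ j ∧ (∀ ξ, ‖fc κ ξ‖ ≤ j) ∧
    Ar 2 (fc κ) ≤ j * S0 ∧ An (fc κ) ≤ 1 + j * (1 + 2 * S0) := by
  obtain ⟨q, -, -, -, -, -, f⟩ := hF κ hκ
  have b0 : ∀ ξ, ‖fc κ ξ‖ ≤ j := fc_le (by simpa using hb 0 (by norm_num))
  have j0 := (norm_nonneg _).trans (b0 0)
  have a2 : Ar 2 (fc κ) ≤ j * S0 := hasSum_le (fun ξ => by
    have := fc_le (hb 4 le_rfl) ξ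
    rw [f, norm_mul, norm_pow, norm_mul, norm_I, one_mul, norm_intCast] at this
    rcases eq_or_ne ξ 0 with rfl | h
    · simp
    · have : (ξ : ℝ) ≠ 0 := Int.cast_ne_zero.2 h
      rw [mul_one_div, le_div_iff₀ (by positivity), ← sq_abs (ξ : ℝ)]
      linarith) (q.dec 2).hasSum (hS0.mul_left j)
  refine ⟨j0, b0, a2, ?_⟩
  have s : Summable fun ξ : ℤ => (1 + |(ξ : ℝ)|) * ‖fc κ ξ‖ :=
    ((q.dec 0).add (q.dec 1)).congr fun ξ => by ring
  have := hasSum_le (fun ξ : ℤ => show (1 + |(ξ : ℝ)|) * ‖fc κ ξ‖ ≤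
      (if ξ = 0 then j else 0) + 2 * (|(ξ : ℝ)| ^ 2 * ‖fc κ ξ‖) by
    split_ifs with h
    · simpa [h] using b0 0
    · have : (1 : ℝ) ≤ |(ξ : ℝ)| := by exact_mod_cast Int.one_le_abs h
      rw [zero_add, ← mul_assoc]
      exact mul_le_mul_of_nonneg_right (by nlinarith) (norm_nonneg _)) s.hasSum
    ((hasSum_ite_eq 0 j).add ((q.dec 2).hasSum.mul_left 2))
  unfold Ar at a2
  unfold An
  linarith

lemma top (hz : Sq z) (hW : 4 ≤ W) (hN : Nr W z ≤ K * amp M W ^ 2)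
    (hJ : Jk (2 * M + 4) W z ≤ K * amp M W ^ 2 / (W : ℝ) ^ 4) :
    Ar (2 * M + 3) z ≤ (Ar 2 z + 2 ^ (2 * M + 3) * (K + 2 * S1) + (K + S0)) * (W : ℝ) ^ (2 * M + 6) := by
  have w : (4 : ℝ) ≤ W := by exact_mod_cast hW
  have w0 : (0 : ℝ) < W := by linarith
  have A0 : 0 < amp M W := by unfold amp; positivity
  have Y0 : 0 < (W : ℝ) ^ (2 * M + 6) := by positivity
  have c1 : ((W : ℝ) ^ 2) ^ (2 * M + 3) * amp M W = (W : ℝ) ^ (2 * M + 6) := by
    unfold amp; field_simp; ring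
  have c2 : ((W : ℝ) ^ 4) ^ (2 * M + 4) * (amp M W ^ 2 / (W : ℝ) ^ 4) = ((W : ℝ) ^ (2 * M + 6)) ^ 2 := by
    unfold amp; field_simp; ring
  have h := hasSum_le (fun ξ => ?_) (hz.dec (2 * M + 3)).hasSum
    ((((hz.dec 2).hasSum.mul_left ((W : ℝ) ^ (2 * M + 6))).add
      ((((sum_Nr hz.dec W).div_const (amp M W)).add
        (((hS1 (-(W : ℤ) ^ 2)).add (hS1 ((W : ℤ) ^ 2))).mul_left (amp M W))).mul_left
        ((2 * (W : ℝ) ^ 2) ^ (2 * M + 3)))).add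
      ((((sum_Jk hz.dec (2 * M + 4) W).mul_left (((W : ℝ) ^ 4) ^ (2 * M + 4))).div_const
        ((W : ℝ) ^ (2 * M + 6))).add (hS0.mul_left ((W : ℝ) ^ (2 * M + 6)))))
  · refine h.trans ?_
    have a : Nr W z / amp M W ≤ K * amp M W := by rw [div_le_iff₀ A0]; linarith
    have b : ((W : ℝ) ^ 4) ^ (2 * M + 4) * Jk (2 * M + 4) W z / (W : ℝ) ^ (2 * M + 6) ≤
        K * (W : ℝ) ^ (2 * M + 6) := by
      rw [div_le_iff₀ Y0, mul_assoc, ← sq, ← c2, mul_left_comm, ← mul_div_assoc K]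
      exact mul_le_mul_of_nonneg_left hJ (by positivity)
    have c := mul_le_mul_of_nonneg_left a (show 0 ≤ (2 * (W : ℝ) ^ 2) ^ (2 * M + 3) by positivity)
    rw [mul_pow] at c ⊢
    unfold Ar
    linear_combination b + c + (2 ^ (2 * M + 3) * (K + 2 * S1)) * c1
  have y := yy_nonneg W ξ
  have n := norm_nonneg (z ξ)
  by_cases k1 : |ξ| ≤ W
  · have k : |(ξ : ℝ)| ≤ W := by exact_mod_cast k1
    refine le_add_of_le_of_nonneg (le_add_of_le_of_nonneg ?_ (by split_ifs <;> positivity))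
      (by split_ifs <;> positivity)
    rw [← mul_assoc, show 2 * M + 3 = 2 * M + 1 + 2 by omega, pow_add]
    gcongr
    exact (pow_le_pow_left₀ (abs_nonneg _) k _).trans (pow_le_pow_right₀ (by linarith) (by omega))
  by_cases k2 : 2 * |(|ξ| - (W : ℤ) ^ 2)| ≤ (W : ℤ) ^ 2
  · refine le_add_of_le_of_nonneg (le_add_of_nonneg_of_le (by positivity) ?_)
      (by split_ifs <;> positivity)
    have k := cast_near k2
    have t0 : 0 < 1 + (|(ξ : ℝ)| - (W : ℝ) ^ 2) ^ 2 := by positivity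
    rw [if_pos k2]
    refine mul_le_mul (pow_le_pow_left₀ (abs_nonneg _) (by
      linarith [le_abs_self (|(ξ : ℝ)| - (W : ℝ) ^ 2), sq_nonneg (W : ℝ)]) _) ?_ n (by positivity)
    have a := amgm (x := ‖z ξ‖) (y := 1) (div_pos A0 t0)
    have b : 1 / (1 + (|(ξ : ℝ)| - (W : ℝ) ^ 2) ^ 2) ≤ 1 / (1 + ((ξ : ℝ) + (-(W : ℤ) ^ 2 : ℤ)) ^ 2) +
        1 / (1 + ((ξ : ℝ) + ((W : ℤ) ^ 2 : ℤ)) ^ 2) := by
      push_cast
      rcases abs_choice (ξ : ℝ) with e | e <;> rw [e]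
      · exact le_add_of_le_of_nonneg (le_of_eq (by ring)) (by positivity)
      · exact le_add_of_nonneg_of_le (by positivity) (le_of_eq (by ring))
    refine (le_of_eq_of_le (mul_one _).symm a).trans (add_le_add (le_of_eq ?_) ?_)
    · field_simp
    · rw [one_pow, mul_one, div_eq_mul_one_div]
      exact mul_le_mul_of_nonneg_left b A0.le
  · refine le_add_of_nonneg_of_le (by split_ifs <;> positivity) ?_
    have x0 : (ξ : ℝ) ≠ 0 := Int.cast_ne_zero.2 (by rintro rfl; simp at k1)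
    rw [if_pos ⟨by omega, by omega⟩]
    have a := amgm (x := |(ξ : ℝ)| ^ (2 * M + 4) * ‖z ξ‖) (y := |(ξ : ℝ)|⁻¹) Y0
    refine (le_of_eq_of_le (by field_simp; ring) a).trans (add_le_add ?_ (le_of_eq ?_))
    · gcongr
      rw [← mul_assoc, mul_pow, mul_add ((_ : ℝ) ^ _), ← mul_pow ((W : ℝ) ^ 4), pow_right_comm, sq_abs,
        yy, mul_div_cancel₀ _ (by positivity)]
      gcongr
      exact le_add_of_nonneg_right (by positivity)
    · rw [inv_pow, sq_abs, one_div]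

lemma gm0 {ξ : ℤ} (h : 1 < |(|ξ| - (W : ℤ) ^ 2)|) : gm (e2 a0 a1) W ξ = 0 := by
  have h0 : (0 : ℤ) ≤ (W : ℤ) ^ 2 := by positivity
  rw [lt_abs] at h
  rw [gm, e2, e2, if_neg, if_neg, if_neg, if_neg, map_zero, add_zero]
  all_goals rcases abs_cases ξ with k | k <;> omega

lemma hs {r : ℤ → ℂ} {B : ℝ} (hz : Sq z) (hr : Sq r) (e : ∀ ξ, r ξ = z ξ - amp M W * gm (e2 a0 a1) W ξ)
    (hW : 4 ≤ W) (b0 : ∀ ξ, ‖z ξ‖ ≤ j) (hB : An z ≤ B) (hK : 0 ≤ K) (hN : Nr W z ≤ K * amp M W ^ 2)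
    (hJ : Jk (2 * M + 4) W z ≤ K * amp M W ^ 2 / (W : ℝ) ^ 4)
    (hc : ∑ t ∈ win W, ‖sh z W (amp M W) t - e2 a0 a1 t‖ ^ 2 ≤ K / W) :
    Hs (2 * M + 4) r ≤ (j * B + K + 3 * 4 ^ (2 * M + 4) * K) * (XX M W ^ 2 / W) := by
  have w : (4 : ℝ) ≤ W := by exact_mod_cast hW
  have w' : (4 : ℤ) ≤ W := by exact_mod_cast hW
  have hq : 4 * (W : ℤ) ≤ (W : ℤ) ^ 2 := by nlinarith
  have w0 : (0 : ℝ) < W := by linarith
  have A0 : 0 < amp M W := by unfold amp; positivity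
  have j0 := (norm_nonneg _).trans (b0 0)
  obtain ⟨m, hm⟩ : ∃ m, 2 * M + 4 = m := ⟨_, rfl⟩
  have X : XX M W ^ 2 = ((W : ℝ) ^ 4) ^ m * amp M W ^ 2 := by rw [XX, hm]; ring
  have X1 : ((W : ℝ) ^ 2) ^ m ≤ XX M W ^ 2 / W := by
    rw [show XX M W ^ 2 / W = ((W : ℝ) ^ 2) ^ m * W ^ 7 by rw [XX, amp, ← hm]; field_simp; ring]
    exact le_mul_of_one_le_right (by positivity) (one_le_pow₀ (by linarith))
  have s : Summable fun ξ : ℤ => (1 + |(ξ : ℝ)|) * ‖z ξ‖ :=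
    ((hz.dec 0).add (hz.dec 1)).congr fun ξ => by ring
  have s2 : Summable fun ξ : ℤ => (ξ : ℝ) ^ (2 * m) * ‖r ξ‖ ^ 2 :=
    (Dec.sq hr.dec (2 * m)).congr fun ξ => by rw [pow_mul, sq_abs, ← pow_mul]
  have m0 : mom 0 (sh r W 1) W ≤ K / W * amp M W ^ 2 := by
    refine le_trans (le_of_eq ?_) (mul_le_mul_of_nonneg_right hc (sq_nonneg _))
    rw [mom, Finset.sum_mul]
    refine Finset.sum_congr rfl fun t ht => ?_
    rw [mem_win, abs_le] at ht
    have : (amp M W : ℂ) ≠ 0 := ofReal_ne_zero.2 A0.ne'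
    rw [pow_zero, one_mul, sh, sh, e, gm, add_sub_cancel_left, ofReal_one, div_one, ← mul_pow,
      show e2 a0 a1 (-((W : ℤ) ^ 2 + t) - (W : ℤ) ^ 2) = 0 by rw [e2, if_neg, if_neg] <;> omega,
      map_zero, add_zero, div_sub' this, norm_div, norm_real, Real.norm_of_nonneg A0.le,
      div_mul_cancel₀ _ A0.ne']
  rw [hm] at hJ ⊢
  have h := hasSum_le (fun ξ => ?_) s2.hasSum ((((s.hasSum.mul_left (((W : ℝ) ^ 2) ^ m * j)).add
    ((sum_Jk hz.dec m W).mul_left (((W : ℝ) ^ 4) ^ m))).add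
    ((sum_Nr hz.dec W).mul_left ((4 * (W : ℝ) ^ 4) ^ m / W))).add
    ((sum_win hr hW 0).mul_left ((4 * (W : ℝ) ^ 4) ^ m)))
  · refine h.trans ?_
    have a1 : ((W : ℝ) ^ 2) ^ m * j * An z ≤ XX M W ^ 2 / W * j * B := by
      have : 0 ≤ An z := tsum_nonneg fun _ => by positivity
      gcongr
    have a2 : ((W : ℝ) ^ 4) ^ m * Jk m W z ≤ K * (XX M W ^ 2 / W) := by
      refine (mul_le_mul_of_nonneg_left hJ (by positivity)).trans ?_
      rw [X, ← mul_div_assoc, mul_left_comm, mul_div_assoc]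
      gcongr
      exact le_self_pow₀ (by linarith) (by norm_num)
    have a3 := mul_le_mul_of_nonneg_left hN (show 0 ≤ (4 * (W : ℝ) ^ 4) ^ m / W by positivity)
    have a4 := mul_le_mul_of_nonneg_left m0 (show 0 ≤ (4 * (W : ℝ) ^ 4) ^ m by positivity)
    rw [mul_pow] at a3 a4 ⊢
    rw [X] at a1 a2 ⊢
    unfold An at a1
    linear_combination a1 + a2 + a3 + 2 * a4
  have y := yy_nonneg W ξ
  have n := norm_nonneg (z ξ)
  have nb : 2 * |(|ξ| - (W : ℤ) ^ 2)| ≤ (W : ℤ) ^ 2 → (ξ : ℝ) ^ (2 * m) ≤ (4 * (W : ℝ) ^ 4) ^ m :=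
    fun k2 => by
    have k := cast_near k2
    rw [pow_mul, ← sq_abs]
    refine pow_le_pow_left₀ (by positivity) ?_ _
    rw [show 4 * (W : ℝ) ^ 4 = (2 * W ^ 2) ^ 2 by ring]
    exact pow_le_pow_left₀ (abs_nonneg _) (by
      linarith [le_abs_self (|(ξ : ℝ)| - (W : ℝ) ^ 2), sq_nonneg (W : ℝ)]) _
  by_cases k0 : |(|ξ| - (W : ℤ) ^ 2)| ≤ W
  · refine le_add_of_nonneg_of_le (by split_ifs <;> positivity) ?_
    rw [if_pos k0, pow_zero, one_mul]
    exact mul_le_mul_of_nonneg_right (nb (by omega)) (by positivity)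
  refine le_add_of_le_of_nonneg ?_ (by rw [if_neg k0, mul_zero])
  rw [e, gm0 (by omega), mul_zero, sub_zero]
  by_cases k2 : 2 * |(|ξ| - (W : ℤ) ^ 2)| ≤ (W : ℤ) ^ 2
  · refine le_add_of_nonneg_of_le (by split_ifs <;> positivity) ?_
    have k : (W : ℝ) ≤ |(|(ξ : ℝ)| - (W : ℝ) ^ 2)| := by exact_mod_cast (not_le.1 k0).le
    rw [if_pos k2, ← mul_assoc, ← sq_abs (|(ξ : ℝ)| - (W : ℝ) ^ 2), div_mul_eq_mul_div, mul_div_assoc]
    refine mul_le_mul_of_nonneg_right ((nb k2).trans (le_mul_of_one_le_right (by positivity) ?_))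
      (by positivity)
    rw [one_le_div w0]
    nlinarith
  refine le_add_of_le_of_nonneg ?_ (by rw [if_neg k2, mul_zero])
  by_cases k1 : |ξ| ≤ W
  · have k : |(ξ : ℝ)| ≤ W := by exact_mod_cast k1
    refine le_add_of_le_of_nonneg ?_ (by split_ifs <;> positivity)
    rw [pow_mul, ← sq_abs, mul_assoc, sq ‖z ξ‖]
    gcongr
    · exact b0 ξ
    · exact le_mul_of_one_le_left n (by linarith [abs_nonneg (ξ : ℝ)])
  · refine le_add_of_nonneg_of_le (by positivity) ?_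
    rw [if_pos ⟨by omega, by omega⟩, ← mul_assoc, mul_add, ← mul_pow, pow_mul, yy,
      mul_div_cancel₀ _ (by positivity)]
    gcongr
    exact le_add_of_nonneg_right (by positivity)

lemma ton (hF : St_FOU) (M : ℕ) (j K : ℝ) (hK : 0 ≤ K) : ∃ K0, ∀ K', K0 ≤ K' → ∀ (W : ℕ) κ a0 a1,
    4 ≤ W → Per (2 * π) κ → Bk j κ → Nr W (fc κ) ≤ K * amp M W ^ 2 →
    Jk (2 * M + 4) W (fc κ) ≤ K * amp M W ^ 2 / (W : ℝ) ^ 4 →
    ∑ t ∈ win W, ‖sh (fc κ) W (amp M W) t - e2 a0 a1 t‖ ^ 2 ≤ K / W → ‖a0‖ ≤ 2 → ‖a1‖ ≤ 2 →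
    Ton M K' W a0 a1 κ := by
  obtain ⟨c1, e1⟩ : ∃ c, c = j * (1 + j * (1 + 2 * S0)) + K + 3 * 4 ^ (2 * M + 4) * K := ⟨_, rfl⟩
  obtain ⟨c2, e2'⟩ : ∃ c : ℝ, c = 4 * (2 * M + 4) * 2 ^ (2 * M + 4) := ⟨_, rfl⟩
  obtain ⟨c3, e3⟩ : ∃ c, c = 2 ^ (2 * M + 3) * (K + 2 * S1) + (K + S0) := ⟨_, rfl⟩
  refine ⟨max (4 * π * (c1 + c2 ^ 2)) (j + 2 * (j * S0) + c3), fun K' hK' W κ a0 a1 hW hκ hb hN hJ
    hc n0 n1 => ⟨?_, fun a ha s => ?_, n0, n1⟩⟩
  all_goals
    obtain ⟨j0, b0, b2, bn⟩ := low hF hκ hb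
    have w : (4 : ℝ) ≤ W := by exact_mod_cast hW
    have w0 : (0 : ℝ) < W := by linarith
    obtain ⟨q, -, -, -, -, -, f⟩ := hF κ hκ
    rw [max_le_iff] at hK'
  · have pt := per_tn M W a0 a1
    have pr : Per (2 * π) fun s => κ s - tn M W a0 a1 s :=
      ⟨hκ.smooth.sub pt.smooth, fun s => by rw [hκ.per, pt.per]⟩
    obtain ⟨qr, fr, -⟩ := hF _ pr
    have h := hs q qr (fun ξ => by rw [fc_sub hκ.smooth.continuous pt.smooth.continuous, fc_tn]) hW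
      b0 bn hK hN hJ hc
    have h2 := fr (2 * M + 4)
    have ci : ∀ {g : ℝ → ℝ}, ContDiff ℝ ∞ g → Continuous (iteratedDeriv (2 * M + 4) g) :=
      fun h => h.continuous_iteratedDeriv _ (le_inf _)
    have c1' := ci hκ.smooth
    have c2' := ci pr.smooth
    have c3' := pt.smooth.continuous
    simp only [mint, mono, List.map_cons, List.map_nil, List.prod_cons, List.prod_nil, mul_one] at h2
    have X : (XX M W / W ^ 2) ^ 2 ≤ XX M W ^ 2 / W := by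
      rw [div_pow, ← pow_mul]
      gcongr
      exact le_self_pow₀ (by linarith) (by norm_num)
    refine (intervalIntegral.integral_mono_on (g := fun s => 2 * (iteratedDeriv (2 * M + 4)
      (fun s => κ s - tn M W a0 a1 s) s * iteratedDeriv (2 * M + 4) (fun s => κ s - tn M W a0 a1 s) s) +
      2 * (c2 ^ 2 * (XX M W ^ 2 / W))) Real.two_pi_pos.le (Continuous.intervalIntegrable (by fun_prop) _ _)
      (Continuous.intervalIntegrable (by fun_prop) _ _) fun s _ => ?_).trans ?_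
    · have a := sq_le_sq' (abs_le.1 (tk_err M W a0 a1 n1 (by omega) s)).1
        (abs_le.1 (tk_err M W a0 a1 n1 (by omega) s)).2
      rw [← e2', mul_pow] at a
      have b := mul_le_mul_of_nonneg_left X (sq_nonneg c2)
      rw [iteratedDeriv_fun_sub (hκ.smooth.contDiffAt.of_le (le_inf _))
        (pt.smooth.contDiffAt.of_le (le_inf _)), it_tn]
      nlinarith [sq_nonneg (iteratedDeriv (2 * M + 4) κ s - 2 * tk M W a0 a1 (2 * M + 4) s +
        (-1) ^ M * ((W : ℝ) ^ 2) ^ (2 * M + 4) * tn M W a0 a1 s)]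
    · rw [intervalIntegral.integral_add (Continuous.intervalIntegrable (by fun_prop) _ _)
        intervalIntegrable_const, intervalIntegral.integral_const_mul, h2,
        intervalIntegral.integral_const, sub_zero, smul_eq_mul, mul_div_assoc]
      have a := mul_le_mul_of_nonneg_right hK'.1 (show 0 ≤ XX M W ^ 2 / W by positivity)
      have b := mul_le_mul_of_nonneg_left h Real.pi_pos.le
      rw [← e1] at b
      linarith
  · have c0 : 0 ≤ c3 := by have := S0_nonneg; have := S1_nonneg; rw [e3]; positivity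
    have s0 := mul_nonneg j0 S0_nonneg
    have l1 : 1 ≤ lam M W := Real.one_le_rpow (by linarith) (by positivity)
    have l2 : lam M W ^ (2 * M + 1) = (W : ℝ) ^ (2 * M + 6) := by
      rw [lam, ← Real.rpow_natCast, ← Real.rpow_mul w0.le, div_mul_cancel₀ _ (by positivity),
        Real.rpow_natCast]
    rcases le_total a 2 with h | h
    · rw [Nat.sub_eq_zero_of_le h, pow_zero, mul_one]
      linarith [hb a (by omega) s, hK'.2]
    obtain ⟨b, rfl⟩ := Nat.exists_eq_add_of_le' h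
    obtain ⟨c, hc'⟩ := Nat.exists_eq_add_of_le (show b ≤ 2 * M + 1 by omega)
    have pa : Per (2 * π) (iteratedDeriv (b + 2) κ) := ⟨by
      rw [iteratedDeriv_eq_iterate]; exact hκ.smooth.iterate_deriv _, fun s => by
        rw [← congrFun (iteratedDeriv_comp_add_const (b + 2) κ (2 * π)) s, funext hκ.per]⟩
    have t := top q hW hN hJ
    rw [add_assoc, ← e3, ← l2, ← div_le_iff₀ (by positivity)] at t
    have := HasSum.norm_le_of_bounded ((hF _ pa).2.2.2.2.2.1 s) (((q.dec 2).hasSum.add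
      ((q.dec (2 * M + 3)).hasSum.div_const (lam M W ^ (2 * M + 1)))).mul_left (lam M W ^ b))
      fun ξ => by
        rw [norm_mul, show I * ξ * s = I * (ξ * s : ℝ) by push_cast; ring, nex, mul_one, f, norm_mul,
          norm_pow, norm_mul, norm_I, one_mul, norm_intCast, ← div_mul_eq_mul_div, ← add_mul,
          ← mul_assoc, mul_add]
        refine mul_le_mul_of_nonneg_right ?_ (norm_nonneg _)
        rcases le_total |(ξ : ℝ)| (lam M W) with k | k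
        · refine le_add_of_le_of_nonneg ?_ (by positivity)
          rw [pow_add]
          gcongr
        · refine le_add_of_nonneg_of_le (by positivity) ?_
          rw [show 2 * M + 3 = b + 2 + c by omega, hc', pow_add _ b c, pow_add _ _ c, ← mul_div_assoc,
            mul_div_mul_left _ _ (by positivity), mul_div_assoc]
          exact le_mul_of_one_le_right (by positivity) ((one_le_div (by positivity)).2 (by gcongr))
    rw [norm_real, Real.norm_eq_abs] at this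
    rw [Nat.add_sub_cancel, mul_comm]
    refine this.trans (mul_le_mul_of_nonneg_left ?_ (by positivity))
    unfold Ar at t b2
    linarith [hK'.2]

lemma envl {a : ℤ → ℂ} {u η : ℝ} (hW : 1 ≤ W) (h0 : |mom 0 a W - (1 + u)| ≤ η)
    (h1 : |mom 1 a W - u| ≤ η) (h2 : mom 2 a W ≤ u + η) :
    |‖a 0‖ ^ 2 - 1| ≤ 5 * η ∧ |‖a 1‖ ^ 2 - u| ≤ 3 * η ∧
      ∑ t ∈ win W, ‖a t - e2 (a 0) (a 1) t‖ ^ 2 ≤ η := by
  have i0 : (0 : ℤ) ∈ win W := mem_win.2 (by simp)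
  have i1 : (1 : ℤ) ∈ win W := mem_win.2 (by simpa using hW)
  let r : ℤ → ℝ := fun t => ‖a t - e2 (a 0) (a 1) t‖ ^ 2
  have e : ∀ f : ℤ → ℝ, ∑ t ∈ win W, f t * ‖a t‖ ^ 2 =
      ∑ t ∈ win W, f t * r t + f 0 * ‖a 0‖ ^ 2 + f 1 * ‖a 1‖ ^ 2 := fun f => by
    rw [← if_pos i0 (t := f 0 * ‖a 0‖ ^ 2) (e := 0), ← if_pos i1 (t := f 1 * ‖a 1‖ ^ 2) (e := 0),
      ← Finset.sum_ite_eq' (win W) 0 fun t => f t * ‖a t‖ ^ 2,
      ← Finset.sum_ite_eq' (win W) 1 fun t => f t * ‖a t‖ ^ 2, ← Finset.sum_add_distrib,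
      ← Finset.sum_add_distrib]
    refine Finset.sum_congr rfl fun t _ => ?_
    by_cases k0 : t = 0
    · simp [r, e2, k0]
    by_cases k1 : t = 1
    · simp [r, e2, k1]
    simp [r, e2, k0, k1]
  have cmp : ∀ f g : ℤ → ℝ, (∀ t, t ≤ -1 ∨ 2 ≤ t → f t ≤ g t) →
      ∑ t ∈ win W, f t * r t ≤ ∑ t ∈ win W, g t * r t := fun f g h =>
    Finset.sum_le_sum fun t _ => by
      by_cases k0 : t = 0
      · simp [r, e2, k0]
      by_cases k1 : t = 1
      · simp [r, e2, k1]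
      exact mul_le_mul_of_nonneg_right (h t (by omega)) (sq_nonneg _)
  have cs : ∀ t : ℤ, t ≤ -1 ∨ 2 ≤ t → (t : ℝ) ≤ -1 ∨ (2 : ℝ) ≤ t := fun t h => by exact_mod_cast h
  have c0 := cmp (fun t => 2 * (t : ℝ) ^ 0 + t ^ 1) (fun t => t ^ 2) fun t h => by
    rcases cs t h with k | k <;> nlinarith
  have c1 := cmp (fun t => 2 * (t : ℝ) ^ 1) (fun t => t ^ 2) fun t h => by
    rcases cs t h with k | k <;> nlinarith
  have c2 : 0 ≤ ∑ t ∈ win W, (t : ℝ) ^ 2 * r t := Finset.sum_nonneg fun _ _ => by positivity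
  have c3 : 0 ≤ ∑ t ∈ win W, (t : ℝ) ^ 0 * r t := Finset.sum_nonneg fun _ _ => by positivity
  simp only [add_mul, mul_assoc, Finset.sum_add_distrib, ← Finset.mul_sum] at c0 c1
  rw [mom, e] at h0 h1 h2
  have c4 : ∑ t ∈ win W, r t = ∑ t ∈ win W, (t : ℝ) ^ 0 * r t := by simp
  rw [abs_le] at h0 h1
  rw [abs_le, abs_le, c4]
  push_cast at h0 h1 h2
  refine ⟨⟨?_, ?_⟩, ⟨?_, ?_⟩, ?_⟩ <;> linarith [h0.1, h0.2, h1.1, h1.2]

end TONE

open TONE in
theorem st_tone (hF : St_FOU) (hQ : St_K4Q) : St_TONE := by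
  intro C M j
  obtain ⟨K1, W1, h1⟩ := hQ C M 1 (1 + j * (1 + 2 * S0))
  obtain ⟨K2, W2, h2⟩ := hQ 0 M 1 (1 + j * (1 + 2 * S0))
  obtain ⟨K, hK⟩ : ∃ K, K = 7 * |K1| + |K2| + 3 * K2 ^ 2 := ⟨_, rfl⟩
  have a1 := abs_nonneg K1
  have a2 := abs_nonneg K2
  have a3 := sq_nonneg K2
  have k1 := le_abs_self K1
  have k2 := le_abs_self K2
  obtain ⟨K0, h0⟩ := ton hF M j K (by linarith)
  refine ⟨max K0 K, max (max W1 W2) (max 4 ⌈K⌉₊), fun W hW κ κ' c p p' b b' hi hc hm => ?_⟩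
  simp only [max_le_iff, Nat.ceil_le] at hW
  obtain ⟨⟨w1, w2⟩, w4, wK⟩ := hW
  have w : (4 : ℝ) ≤ W := by exact_mod_cast w4
  have w0 : (0 : ℝ) < W := by linarith
  obtain ⟨j0, -, -, n⟩ := low hF p b
  obtain ⟨-, -, -, n'⟩ := low hF p' b'
  have q := (hF κ p).1
  have q' := (hF κ' p').1
  have ev : Env 1 (env c) := ⟨fun t ht => by
    rw [env, if_neg (by rintro rfl; simp at ht), if_neg (by rintro rfl; simp at ht)], fun t => by
    rw [env]; split_ifs <;> simp [hc]⟩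
  have B1 : 1 ≤ 1 + j * (1 + 2 * S0) := by
    have := S0_nonneg
    exact le_add_of_nonneg_right (by positivity)
  obtain ⟨-, x1, x2, x3, x4, x5, -⟩ := h1 W w1 _ _ _ q q' n n' ev (hi _ B1 n n') hm
  obtain ⟨-, y1, y2, -, -, -, y3⟩ := h2 W w2 _ _ _ q q n n ev (fun m _ => by simp) hm
  have up : ∀ {x L Y : ℝ}, x ≤ L * Y → 0 ≤ Y → L ≤ K → x ≤ K * Y := fun h h' h'' =>
    h.trans (mul_le_mul_of_nonneg_right h'' h')
  have wn : win 1 = {-1, 0, 1} := by decide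
  have m0 : mom 0 (env c) 1 = 1 + ‖c‖ ^ 2 := by simp [mom, wn, env]
  have m1 : mom 1 (env c) 1 = ‖c‖ ^ 2 := by simp [mom, wn, env]
  have m2 : mom 2 (env c) 1 = ‖c‖ ^ 2 := by simp [mom, wn, env]
  rw [m0] at x3
  rw [m1] at x4
  rw [m2] at x5
  obtain ⟨z0, z1, z2⟩ := envl (by omega) x3 x4 x5
  rw [mul_div_assoc] at x2 y2
  have v : K / W ≤ 1 := (div_le_one w0).2 wK
  have v1 : 7 * (K1 / W) ≤ K / W := by rw [← mul_div_assoc]; gcongr; linarith
  have v0 : 0 ≤ K1 / W := (abs_nonneg _).trans x3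
  have c2 : ‖c‖ ^ 2 ≤ 1 := pow_le_one₀ (norm_nonneg _) hc
  have t2 : ∀ {x : ℂ}, ‖x‖ ^ 2 ≤ 2 → ‖x‖ ≤ 2 := fun h => by nlinarith
  refine ⟨h0 _ (le_max_left _ _) W κ 1 c w4 p b (up y1 (by positivity) (by linarith))
    ((up y2 (by positivity) (by linarith)).trans_eq (mul_div_assoc _ _ _).symm) ?_ (by simp)
    (by linarith), _, if c = 0 then 0 else sh (fc κ') W (amp M W) 1,
    h0 _ (le_max_left _ _) W κ' _ _ w4 p' b' (up x1 (by positivity) (by linarith))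
    ((up x2 (by positivity) (by linarith)).trans_eq (mul_div_assoc _ _ _).symm) ?_
    (t2 (by linarith [(abs_le.1 z0).2])) ?_, z0.trans ?_, fun h => if_pos h⟩
  · refine (sum_win_le w4 (sq_nonneg (K2 / W)) fun t ht =>
      pow_le_pow_left₀ (norm_nonneg _) (y3 t ht) 2).trans ?_
    rw [show 3 * W * (K2 / W) ^ 2 = 3 * K2 ^ 2 / W by field_simp]
    gcongr
    linarith
  · split_ifs with h
    swap
    · linarith
    have i1 : (1 : ℤ) ∈ win W := mem_win.2 (by simp; omega)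
    refine (Finset.sum_le_sum (g := fun t => ‖sh (fc κ') W (amp M W) t -
      e2 (sh (fc κ') W (amp M W) 0) (sh (fc κ') W (amp M W) 1) t‖ ^ 2 +
      if t = 1 then ‖sh (fc κ') W (amp M W) 1‖ ^ 2 else 0) fun t _ => ?_).trans ?_
    · by_cases k : t = 1 <;> simp [e2, k]
    · rw [Finset.sum_add_distrib, Finset.sum_ite_eq', if_pos i1]
      rw [h, norm_zero] at z1
      linarith [(abs_le.1 z1).2]
  · split_ifs
    · simp
    · exact t2 (by linarith [(abs_le.1 z1).2])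
  · exact le_trans (by linarith) (div_le_div_of_nonneg_right (le_max_right K0 K) w0.le)

end Pool.Agent.Lib.IS2
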