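import Pool.Agent.Lib.IS2.Blue

open scoped ContDiff ComplexConjugate Topology Real
open Complex MeasureTheory Set Filter Function

noncomputable section

namespace Pool.Agent.Lib.IS2

namespace TR

lemma int_prod {α β : Type} [MeasurableSpace α] [MeasurableSpace β] (ν : Measure α)
    (m : Measure β) [IsFiniteMeasure ν] [SFinite m] {f : α → β → ℝ} (hm : Measurable (uncurry f))
    (C : ℝ) (h : ∀ a, Integrable (f a) m ∧ ∫ b, |f a b| ∂m ≤ C) :
    Integrable (uncurry f) (ν.prod m) :=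
  (integrable_prod_iff hm.aestronglyMeasurable).2 ⟨ae_of_all _ fun a => (h a).1,
    Integrable.of_bound hm.stronglyMeasurable.norm.integral_prod_right'.aestronglyMeasurable C
      (ae_of_all _ fun a => by
        rw [Real.norm_of_nonneg (integral_nonneg fun _ => norm_nonneg _)]; exact (h a).2)⟩

lemma fub (ν : Measure ℝ) (m : Measure ℂ) [IsFiniteMeasure ν] [SFinite m] {G : ℝ → ℂ → ℝ}
    {D : ℂ → ℝ → ℝ} {P : ℝ → ℝ → ℝ} (hG : Measurable (uncurry G)) (hD : Measurable (uncurry D))
    (hP : Measurable (uncurry P)) {B C : ℝ} (hB : ∀ s t, |P s t| ≤ B)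
    (h : ∀ s t, Integrable (fun x => G s x * D x t) m ∧ ∫ x, |G s x * D x t| ∂m ≤ C) :
    ∫ x, (∫ t, D x t * (2 * G t x + ∫ s, P t s * G s x ∂ν) ∂ν) ∂m =
      ∫ t, (2 * (∫ x, G t x * D x t ∂m) + ∫ s, P t s * ∫ x, G s x * D x t ∂m ∂ν) ∂ν := by
  have B0 : 0 ≤ B := (abs_nonneg _).trans (hB 0 0)
  have m3 : Measurable fun p : (ℝ × ℂ) × ℝ => P p.1.1 p.2 * (G p.2 p.1.2 * D p.1.2 p.1.1) :=
    (hP.comp (measurable_fst.fst.prodMk measurable_snd)).mul
      ((hG.comp (measurable_snd.prodMk measurable_fst.snd)).mul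
        (hD.comp (measurable_fst.snd.prodMk measurable_fst.fst)))
  have b3 : ∀ t s, Integrable (fun x => P t s * (G s x * D x t)) m ∧
      ∫ x, |P t s * (G s x * D x t)| ∂m ≤ B * C := fun t s => ⟨(h s t).1.const_mul _, by
    simp only [abs_mul (P t s), integral_const_mul]
    exact mul_le_mul (hB _ _) (h s t).2 (integral_nonneg fun _ => abs_nonneg _) B0⟩
  have J : ∀ t, Integrable (uncurry fun s x => P t s * (G s x * D x t)) (ν.prod m) := fun t =>
    int_prod ν m (m3.comp ((measurable_const.prodMk measurable_snd).prodMk measurable_fst)) _ (b3 t)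
  have I1 : Integrable (uncurry fun t x => G t x * D x t) (ν.prod m) :=
    int_prod ν m (hG.mul (hD.comp measurable_swap)) C fun t => h t t
  have I2 : Integrable (uncurry fun t x => ∫ s, P t s * (G s x * D x t) ∂ν) (ν.prod m) := by
    refine int_prod ν m m3.stronglyMeasurable.integral_prod_right'.measurable
      (ν.real univ * (B * C)) fun t => ⟨(J t).integral_prod_right, ?_⟩
    calc _ ≤ ∫ x, (∫ s, |P t s * (G s x * D x t)| ∂ν) ∂m :=
          integral_mono (J t).integral_prod_right.abs (J t).abs.integral_prod_right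
            fun x => abs_integral_le_integral_abs
      _ = ∫ s, (∫ x, |P t s * (G s x * D x t)| ∂m) ∂ν :=
          (integral_integral_swap (f := fun s x => |P t s * (G s x * D x t)|) (J t).abs).symm
      _ ≤ ∫ _, B * C ∂ν :=
          integral_mono (J t).abs.integral_prod_left (integrable_const _) fun s => (b3 t s).2
      _ = _ := by rw [integral_const, smul_eq_mul]
  have e : ∀ x t, D x t * (2 * G t x + ∫ s, P t s * G s x ∂ν) =
      2 * (G t x * D x t) + ∫ s, P t s * (G s x * D x t) ∂ν := fun x t => by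
    simp only [← mul_assoc, integral_mul_const]; ring
  simp only [e]
  rw [← integral_integral_swap
    (f := fun t x => 2 * (G t x * D x t) + ∫ s, P t s * (G s x * D x t) ∂ν)
    ((I1.const_mul 2).add I2)]
  refine integral_congr_ae (ae_of_all _ fun t => ?_)
  dsimp only
  have J2 : Integrable (fun x => ∫ s, P t s * (G s x * D x t) ∂ν) m := (J t).integral_prod_right
  rw [integral_add ((h t t).1.const_mul 2) J2, integral_const_mul,
    ← integral_integral_swap (J t)]
  simp only [integral_const_mul]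

lemma bdd {α : Type} [MeasurableSpace α] (ν : Measure α) [IsFiniteMeasure ν] {f g : α → ℝ}
    (hf : Measurable f) (hg : Measurable g) {A B : ℝ} (hA : ∀ a, |f a| ≤ A) (hB : ∀ a, |g a| ≤ B) :
    Integrable (fun a => f a * g a) ν :=
  Integrable.of_bound (hf.mul hg).aestronglyMeasurable (A * B) (ae_of_all _ fun a => by
    rw [Real.norm_eq_abs, abs_mul]
    exact mul_le_mul (hA a) (hB a) (abs_nonneg _) ((abs_nonneg _).trans (hA a)))

lemma bdd2 (ν : Measure ℝ) [IsFiniteMeasure ν] {P L : ℝ → ℝ → ℝ} (hP : Measurable (uncurry P))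
    (hL : Measurable (uncurry L)) {A B : ℝ} (hA : ∀ s t, |P s t| ≤ A) (hB : ∀ s t, |L s t| ≤ B) :
    Integrable (uncurry fun s t => P s t * L t s) (ν.prod ν) :=
  bdd _ hP (hL.comp measurable_swap) (fun _ => hA _ _) fun _ => hB _ _

lemma kill (ν : Measure ℝ) [IsFiniteMeasure ν] {K Kd P L M : ℝ → ℝ → ℝ}
    (hK : Measurable (uncurry K)) (hD : Measurable (uncurry Kd)) (hP : Measurable (uncurry P))
    (hL : Measurable (uncurry L)) {A B C E : ℝ} (bK : ∀ s t, |K s t| ≤ A)
    (bD : ∀ s t, |Kd s t| ≤ B) (bP : ∀ s t, |P s t| ≤ C) (bL : ∀ s t, |L s t| ≤ E)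
    (h0 : ∀ t, Kd t t = 0) (h1 : ∀ s t, P s t = -4 * K s t - 2 * ∫ u, P s u * K u t ∂ν)
    (hM : ∀ s t, M s t = -Kd s t / 2 - (∫ u, K s u * Kd u t ∂ν) - L s t) (t : ℝ) :
    2 * M t t + ∫ s, P t s * M s t ∂ν = -(2 * L t t + ∫ s, P t s * L s t ∂ν) := by
  have p1 : Measurable (P t) := hP.of_uncurry_left
  have d1 : Measurable fun s => Kd s t := hD.of_uncurry_right
  have J : Integrable (uncurry fun s u => P t s * K s u * Kd u t) (ν.prod ν) :=
    bdd _ ((p1.comp measurable_fst).mul hK) (d1.comp measurable_snd) (A := C * A) (fun a => by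
      rw [abs_mul]
      exact mul_le_mul (bP _ _) (bK _ _) (abs_nonneg _) ((abs_nonneg _).trans (bP 0 0)))
      fun a => bD _ _
  have i1 := bdd ν p1 d1 (bP t) fun s => bD s t
  have i2 := bdd ν p1 (hL.of_uncurry_right (y := t)) (bP t) fun s => bL s t
  have i3 := bdd ν (hK.of_uncurry_left (x := t)) d1 (bK t) fun s => bD s t
  have e1 : ∀ s, P t s * M s t =
      -(1 / 2) * (P t s * Kd s t) - (∫ u, P t s * K s u * Kd u t ∂ν) - P t s * L s t := fun s => by
    simp only [mul_assoc, integral_const_mul, hM]; ring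
  have e2 : ∀ u, ∫ s, P t s * K s u * Kd u t ∂ν =
      -2 * (K t u * Kd u t) - 1 / 2 * (P t u * Kd u t) := fun u => by
    rw [integral_mul_const]; linear_combination (Kd u t / 2) * h1 t u
  simp only [e1]
  have J2 : Integrable (fun s => ∫ u, P t s * K s u * Kd u t ∂ν) ν := J.integral_prod_left
  have J3 : Integrable (fun s => -(1 / 2) * (P t s * Kd s t) -
      ∫ u, P t s * K s u * Kd u t ∂ν) ν := (i1.const_mul _).sub J2
  rw [integral_sub J3 i2, integral_sub (i1.const_mul _) J2, integral_integral_swap J]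
  simp only [e2]
  rw [integral_sub (i3.const_mul _) (i1.const_mul _), integral_const_mul, integral_const_mul,
    integral_const_mul, hM, h0]
  ring

lemma geo (C : ℝ) : HasSum (fun n : ℕ => 4 * C * (1 / 2) ^ n) (4 * C * 2) :=
  hasSum_geometric_two.mul_left _

lemma term {C x : ℝ} {n : ℕ} (h : |x| ≤ C / 4 ^ n) :
    |2 * (-2) ^ (n + 1) * x| ≤ 4 * C * (1 / 2) ^ n := by
  rw [abs_mul, abs_mul, abs_pow, abs_neg, abs_two]
  calc _ ≤ 2 * 2 ^ (n + 1) * (C / 4 ^ n) := mul_le_mul_of_nonneg_left h (by positivity)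
    _ = _ := by
      rw [show (4 : ℝ) ^ n = 2 ^ n * 2 ^ n by rw [← mul_pow]; norm_num, one_div, inv_pow]
      field_simp
      ring

lemma ser (ν : Measure ℝ) [IsFiniteMeasure ν] {K : ℕ → ℝ → ℝ → ℝ} {L : ℝ → ℝ → ℝ}
    (hK : ∀ n, Measurable (uncurry (K n))) (hL : Measurable (uncurry L)) {A E : ℝ}
    (bK : ∀ n s t, |K n s t| ≤ A / 4 ^ n) (bL : ∀ s t, |L s t| ≤ E)
    (iP : Integrable (uncurry fun s t => (∑' n, 2 * (-2) ^ (n + 1) * K n s t) * L t s)
      (ν.prod ν)) :
    HasSum (fun n => 2 * (-2) ^ (n + 1) * ∫ s, (∫ t, K n s t * L t s ∂ν) ∂ν)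
      (∫ s, (∫ t, (∑' n, 2 * (-2) ^ (n + 1) * K n s t) * L t s ∂ν) ∂ν) := by
  have iK : ∀ n, Integrable (fun p : ℝ × ℝ => 2 * (-2) ^ (n + 1) * K n p.1 p.2 * L p.2 p.1)
      (ν.prod ν) := fun n =>
    bdd _ ((hK n).const_mul _) (hL.comp measurable_swap) (fun p => term (bK n p.1 p.2))
      fun p => bL _ _
  have b : ∀ n, ∫ p : ℝ × ℝ, ‖2 * (-2) ^ (n + 1) * K n p.1 p.2 * L p.2 p.1‖ ∂ν.prod ν ≤
      (ν.prod ν).real univ * (4 * A * (1 / 2) ^ n * E) := fun n => by
    rw [← smul_eq_mul ((ν.prod ν).real univ), ← integral_const]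
    refine integral_mono (iK n).norm (integrable_const _) fun p => ?_
    dsimp only
    rw [Real.norm_eq_abs, abs_mul]
    exact mul_le_mul (term (bK n _ _)) (bL _ _) (abs_nonneg _)
      ((abs_nonneg _).trans (term (bK n 0 0)))
  have hs := hasSum_integral_of_summable_integral_norm iK
    (Summable.of_nonneg_of_le (fun n => integral_nonneg fun _ => norm_nonneg _) b
      (((geo A).summable.mul_right E).mul_left ((ν.prod ν).real univ)))
  have e3 : ∀ n, ∫ p : ℝ × ℝ, 2 * (-2) ^ (n + 1) * K n p.1 p.2 * L p.2 p.1 ∂ν.prod ν =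
      2 * (-2) ^ (n + 1) * ∫ s, (∫ t, K n s t * L t s ∂ν) ∂ν := fun n => by
    rw [integral_prod _ (iK n)]
    simp only [mul_assoc, integral_const_mul]
  simp only [e3, tsum_mul_right] at hs
  exact integral_integral iP ▸ hs

end TR

open TR in
theorem st_tr (h3 : St_A3) (hL : St_LAY) (hN : St_NEU) (hP : St_POI) (hC : St_CH)
    (hT : St_TR1) : St_TR := by
  intro μ γ Ω pot
  have pi0 : (0 : ℝ) ≤ 2 * π := by positivity
  obtain ⟨cK, -, -, cKp, ⟨A, bKp⟩, -, cP, rP, -⟩ := hN μ γ Ω pot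
  obtain ⟨⟨E, bL⟩, mL, cD, T0, T1⟩ := hC μ γ Ω pot
  obtain ⟨⟨C, bM⟩, eM⟩ := hT μ γ Ω pot
  obtain ⟨⟨-, sG, mG, -⟩, -⟩ := hL μ pot.pos
  have cγ : Continuous γ := pot.cd.smooth.continuous
  have cγ' : Continuous (deriv γ) := pot.cd.smooth.continuous_deriv (by simp)
  have ml : Measurable l1 := h3.2.2.2.2.2.2.1
  have bP : ∀ s t, |Ph μ γ s t| ≤ 4 * A * 2 := fun s t =>
    tsum_of_norm_bounded (f := fun n => 2 * (-2) ^ (n + 1) * Kp μ γ n s t) (geo A)
      fun n => term (bKp n s t)
  have bK : ∀ s t, |Kr μ γ s t| ≤ A / 4 ^ 0 := bKp 0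
  set ν : Measure ℝ := volume.restrict (Ioc 0 (2 * π)) with hν
  have hTB : TB μ γ Ω = ∫ t, (2 * Lm μ γ t t + ∫ s, Ph μ γ t s * Lm μ γ s t ∂ν) ∂ν := by
    have e1 : ∀ x ∈ Ω, hR μ γ Ω x x = ∫ t, DLk μ γ x t *
        (2 * Gr μ (γ t - x) + ∫ s, Ph μ γ t s * Gr μ (γ s - x) ∂ν) ∂ν := by
      intro x hx
      have hne : ∀ t, γ t - x ∈ ({0}ᶜ : Set ℂ) := fun t h => by
        have h1 : x ∈ frontier Ω := by rw [pot.cd.fr]; exact ⟨t, sub_eq_zero.1 h⟩
        rw [pot.cd.opn.frontier_eq] at h1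
        exact h1.2 hx
      have cp : CP fun t => Gr μ (γ t - x) :=
        ⟨sG.continuousOn.comp_continuous (cγ.sub continuous_const) hne,
          fun t => by simp only [pot.cd.per t]⟩
      rw [hR, (((hP μ γ Ω pot).1 _ cp).2.2.2.1 x hx).1]
      simp only [DLo, Hop, intervalIntegral.integral_of_le pi0, hν]
    have mD : Measurable (uncurry (DLk μ γ)) := by
      have a1 : Continuous fun p : ℂ × ℝ => γ p.2 - p.1 := by fun_prop
      have a2 : Continuous fun p : ℂ × ℝ => rdot (-nr γ p.2) (γ p.2 - p.1) := by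
        unfold rdot nr; fun_prop
      exact ((ml.comp (a1.norm.const_mul μ).measurable).mul a2.measurable).div
        ((a1.norm.pow 2).const_mul _).measurable
    rw [TB, setIntegral_congr_fun pot.cd.opn.measurableSet e1,
      fub ν (volume.restrict Ω) (G := fun s x => Gr μ (γ s - x))
        (mG.comp ((cγ.comp continuous_fst).sub continuous_snd).measurable) mD cP.measurable bP bM,
      ← integral_neg]
    refine integral_congr_ae (ae_of_all _ fun t => ?_)
    dsimp only
    rw [kill ν (M := fun s t => ∫ x in Ω, Gr μ (γ s - x) * DLk μ γ x t) cK.measurable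
      cD.measurable cP.measurable mL bK (fun s t => (bL s t).2.1) bP (fun s t => (bL s t).1)
      (fun t => by simp [Kdr, rdot]) (fun s t => ?_) (fun s t => ?_) t, neg_neg]
    · simpa only [intervalIntegral.integral_of_le pi0] using (rP s t).2.2.2
    · have i1 : IntervalIntegrable (fun u => Kr μ γ s u * Kdr μ γ u t) volume 0 (2 * π) :=
        ((cK.comp (Continuous.prodMk_right s)).mul
          (cD.comp (Continuous.prodMk_left t))).intervalIntegrable _ _
      have e2 : Lm μ γ s t = (∫ u in (0 : ℝ)..(2 * π), Sr μ γ s u * Ndr μ γ u t) -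
          2 * ∫ u in (0 : ℝ)..(2 * π), Kr μ γ s u * Kdr μ γ u t := by
        rw [← intervalIntegral.integral_const_mul,
          ← intervalIntegral.integral_sub (bL s t).2.2 (i1.const_mul 2), Lm]
        simp only [mul_assoc]
      rw [eM, e2, ← intervalIntegral.integral_of_le pi0]
      ring
  have iP : Integrable (uncurry fun s t => Ph μ γ s t * Lm μ γ t s) (ν.prod ν) :=
    bdd2 ν cP.measurable mL bP fun s t => (bL s t).1
  have hs := ser ν (fun n => (cKp n).measurable) mL bKp (fun s t => (bL s t).1) iP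
  have iL : Integrable (fun t => Lm μ γ t t) ν :=
    Integrable.of_bound (mL.comp (measurable_id.prodMk measurable_id)).aestronglyMeasurable E
      (ae_of_all _ fun t => (bL t t).1)
  have iQ : Integrable (fun t => ∫ s, Ph μ γ t s * Lm μ γ s t ∂ν) ν := iP.integral_prod_left
  rw [hTB, integral_add (iL.const_mul 2) iQ, integral_const_mul, TT]
  refine HasSum.tsum_eq ((hasSum_nat_add_iff' 1).1 ?_)
  have hs' := hasSum_ofReal.2 hs
  simp only [T0, T1, Finset.sum_range_one, intervalIntegral.integral_of_le pi0, ← hν]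
  simp only [ofReal_mul, ofReal_add, ofReal_pow, ofReal_neg, ofReal_ofNat] at hs' ⊢
  rw [pow_zero, mul_one, add_sub_cancel_left]
  exact hs'

end Pool.Agent.Lib.IS2
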