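import Pool.Agent.Lib.IS2.Blue

/-! Calculus of `lap` and `Har`, comparison on a domain, small facts on `CD`, `CP`, `DLk`. -/

open scoped ContDiff ComplexConjugate Topology Real
open Complex MeasureTheory Set Filter

noncomputable section

namespace Pool.Agent.Lib.IS2.K28

open Pool.Agent.Lib.ISO

lemma cd_dir {f : ℂ → ℝ} {x : ℂ} {n m : ℕ∞ω} (h : ContDiffAt ℝ n f x) (hm : m + 1 ≤ n) (a : ℂ) :
    ContDiffAt ℝ m (fun z => fderiv ℝ f z a) x :=
  (h.fderiv_right hm).clm_apply contDiffAt_const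

lemma df_dir {f : ℂ → ℝ} {x : ℂ} (h : ContDiffAt ℝ 2 f x) (a : ℂ) :
    DifferentiableAt ℝ (fun z => fderiv ℝ f z a) x :=
  (cd_dir (m := 1) h (by norm_num) a).differentiableAt one_ne_zero

lemma lap_congr {u v : ℂ → ℝ} {x : ℂ} (h : u =ᶠ[𝓝 x] v) : lap u x = lap v x := by
  have e (a : ℂ) : (fun z => fderiv ℝ u z a) =ᶠ[𝓝 x] fun z => fderiv ℝ v z a :=
    (h.fderiv (𝕜 := ℝ)).mono fun z hz => by simp only [hz]
  unfold lap
  rw [(e 1).fderiv_eq, (e I).fderiv_eq]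

lemma lap_lin {u v : ℂ → ℝ} {x : ℂ} (hu : ContDiffAt ℝ 2 u x) (hv : ContDiffAt ℝ 2 v x) (a b : ℝ) :
    lap (fun z => a * u z + b * v z) x = a * lap u x + b * lap v x := by
  have e (w : ℂ) : fderiv ℝ (fun z => fderiv ℝ (fun z => a * u z + b * v z) z w) x w =
      a * fderiv ℝ (fun z => fderiv ℝ u z w) x w + b * fderiv ℝ (fun z => fderiv ℝ v z w) x w := by
    have e1 : (fun z => fderiv ℝ (fun z => a * u z + b * v z) z w) =ᶠ[𝓝 x]
        fun z => a * fderiv ℝ u z w + b * fderiv ℝ v z w := by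
      filter_upwards [hu.eventually (by simp), hv.eventually (by simp)] with z h1 h2
      rw [(((h1.differentiableAt two_ne_zero).hasFDerivAt.const_mul a).fun_add
        ((h2.differentiableAt two_ne_zero).hasFDerivAt.const_mul b)).fderiv]
      simp
    rw [e1.fderiv_eq, (((df_dir hu w).hasFDerivAt.const_mul a).fun_add
      ((df_dir hv w).hasFDerivAt.const_mul b)).fderiv]
    simp
  unfold lap
  rw [e, e]; ring

lemma lap_shift (u : ℂ → ℝ) (a x : ℂ) : lap (fun z => u (z - a)) x = lap u (x - a) := by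
  unfold lap
  simp only [fderiv_comp_sub]
  rw [fderiv_comp_sub (f := fun z => fderiv ℝ u z 1), fderiv_comp_sub (f := fun z => fderiv ℝ u z I)]

lemma dir_swap {f : ℂ → ℝ} {x : ℂ} (h : ContDiffAt ℝ 2 f x) (a b : ℂ) :
    fderiv ℝ (fun z => fderiv ℝ f z a) x b = fderiv ℝ (fun z => fderiv ℝ f z b) x a := by
  have d : DifferentiableAt ℝ (fderiv ℝ f) x :=
    (h.fderiv_right (m := 1) (by norm_num)).differentiableAt one_ne_zero
  have e (a b : ℂ) : fderiv ℝ (fun z => fderiv ℝ f z a) x b = fderiv ℝ (fderiv ℝ f) x b a := by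
    rw [fderiv_clm_apply d (differentiableAt_const a)]; simp
  rw [e, e]
  exact h.isSymmSndFDerivAt (by simp) b a

lemma lap_dir {f : ℂ → ℝ} {x : ℂ} (h : ContDiffAt ℝ 3 f x) (w : ℂ) :
    lap (fun z => fderiv ℝ f z w) x = fderiv ℝ (lap f) x w := by
  have c (a : ℂ) : ContDiffAt ℝ 2 (fun z => fderiv ℝ f z a) x := cd_dir h (by norm_num) a
  have e (a : ℂ) : fderiv ℝ (fun z => fderiv ℝ (fun y => fderiv ℝ f y w) z a) x a =
      fderiv ℝ (fun z => fderiv ℝ (fun y => fderiv ℝ f y a) z a) x w := by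
    have e1 : (fun z => fderiv ℝ (fun y => fderiv ℝ f y w) z a) =ᶠ[𝓝 x]
        fun z => fderiv ℝ (fun y => fderiv ℝ f y a) z w := by
      filter_upwards [h.eventually (by simp)] with z hz
      exact dir_swap (hz.of_le (by norm_num)) w a
    rw [e1.fderiv_eq, dir_swap (c a)]
  have : lap f = fun z => fderiv ℝ (fun y => fderiv ℝ f y 1) z 1 +
    fderiv ℝ (fun y => fderiv ℝ f y I) z I := rfl
  rw [this, fderiv_fun_add (df_dir (c 1) 1) (df_dir (c I) I)]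
  unfold lap
  rw [e, e]; rfl

variable {μ : ℝ} {U V Ω : Set ℂ} {u v : ℂ → ℝ} {γ : ℝ → ℂ}

lemma har_mono (h : Har μ U u) (hV : V ⊆ U) : Har μ V u := ⟨h.1.mono hV, fun x hx => h.2 x (hV hx)⟩

lemma har_congr (hU : IsOpen U) (h : Har μ U u) (e : ∀ x ∈ U, v x = u x) : Har μ U v :=
  ⟨h.1.congr e, fun x hx => by
    rw [lap_congr (eventually_of_mem (hU.mem_nhds hx) e), h.2 x hx, e x hx]⟩

lemma har_lin (hU : IsOpen U) (hu : Har μ U u) (hv : Har μ U v) (a b : ℝ) :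
    Har μ U fun z => a * u z + b * v z :=
  ⟨(contDiffOn_const.mul hu.1).add (contDiffOn_const.mul hv.1), fun x hx => by
    rw [lap_lin (hu.1.contDiffAt (hU.mem_nhds hx)) (hv.1.contDiffAt (hU.mem_nhds hx)), hu.2 x hx,
      hv.2 x hx]; ring⟩

lemma har_sub (hU : IsOpen U) (hu : Har μ U u) (hv : Har μ U v) : Har μ U fun z => u z - v z :=
  har_congr hU (har_lin hU hu hv 1 (-1)) fun _ _ => by ring
lemma har_add (hU : IsOpen U) (hu : Har μ U u) (hv : Har μ U v) : Har μ U fun z => u z + v z :=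
  har_congr hU (har_lin hU hu hv 1 1) fun _ _ => by ring
lemma har_mul (hU : IsOpen U) (hu : Har μ U u) (a : ℝ) : Har μ U fun z => a * u z :=
  har_congr hU (har_lin hU hu hu a 0) fun _ _ => by ring
lemma har_neg (hU : IsOpen U) (hu : Har μ U u) : Har μ U fun z => -u z :=
  har_congr hU (har_mul hU hu (-1)) fun _ _ => by ring
lemma har_zero : Har μ U fun _ => 0 := ⟨contDiffOn_const, fun x _ => by simp [lap]⟩

lemma har_shift (h : Har μ {0}ᶜ u) (a : ℂ) : Har μ {a}ᶜ fun z => u (z - a) :=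
  ⟨h.1.comp (contDiff_id.sub contDiff_const).contDiffOn fun z hz => sub_ne_zero.2 hz,
    fun x hx => by rw [lap_shift, h.2 _ (sub_ne_zero.2 hx)]⟩

lemma har_dir (hU : IsOpen U) (h : Har μ U u) (h' : ContDiffOn ℝ ∞ u U) (w : ℂ) :
    Har μ U fun z => fderiv ℝ u z w := by
  have c (x) (hx : x ∈ U) : ContDiffAt ℝ 3 u x :=
    (h'.contDiffAt (hU.mem_nhds hx)).of_le (WithTop.coe_le_coe.2 (le_top : (3 : ℕ∞) ≤ ⊤))
  refine ⟨fun x hx => (cd_dir (c x hx) (by norm_num) w).contDiffWithinAt, fun x hx => ?_⟩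
  have e : lap u =ᶠ[𝓝 x] fun z => μ ^ 2 * u z := eventually_of_mem (hU.mem_nhds hx) h.2
  rw [lap_dir (c x hx), e.fderiv_eq,
    (((c x hx).differentiableAt (by norm_num)).hasFDerivAt.const_mul (μ ^ 2)).fderiv]
  simp

lemma Gr_neg (μ : ℝ) (z : ℂ) : Gr μ (-z) = Gr μ z := by simp [Gr]
lemma Gr_sub (μ : ℝ) (x y : ℂ) : Gr μ (x - y) = Gr μ (y - x) := by rw [← Gr_neg, neg_sub]

lemma rdot_comm (a b : ℂ) : rdot a b = rdot b a := by simp [rdot]; ring
lemma rdot_cont {X : Type} [TopologicalSpace X] {f g : X → ℂ} (hf : Continuous f)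
    (hg : Continuous g) : Continuous fun p => rdot (f p) (g p) :=
  continuous_re.comp (hf.mul (continuous_conj.comp hg))
lemma abs_rdot (a b : ℂ) : |rdot a b| ≤ ‖a‖ * ‖b‖ := (abs_re_le_norm _).trans_eq (by simp)

/-- the double layer kernel is a derivative of the fundamental solution -/
lemma DLk_eq (hL : St_LAY) (hμ : 0 < μ) {x : ℂ} {t : ℝ} (hx : x ≠ γ t) :
    DLk μ γ x t = fderiv ℝ (Gr μ) (x - γ t) (-nr γ t) := by
  rw [((hL μ hμ).1.2.2.2.2.2.2 _ (sub_ne_zero.2 hx)).2, DLk, norm_sub_rev (γ t) x]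
  have : rdot (-nr γ t) (γ t - x) = -rdot (x - γ t) (-nr γ t) := by simp [rdot]; ring
  rw [this]; ring

lemma har_DLk (hL : St_LAY) (hμ : 0 < μ) (t : ℝ) : Har μ {γ t}ᶜ fun x => DLk μ γ x t :=
  har_congr isOpen_compl_singleton (har_shift (har_dir isOpen_compl_singleton (hL μ hμ).1.1
    (hL μ hμ).1.2.1 (-nr γ t)) (γ t)) fun _ hx => DLk_eq hL hμ hx

lemma two_pi : (0 : ℝ) ≤ 2 * π := Real.two_pi_pos.le

lemma cp_red {φ : ℝ → ℝ} (h : Function.Periodic φ (2 * π)) (t : ℝ) :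
    ∃ s ∈ Icc (0 : ℝ) (2 * π), φ t = φ s :=
  let ⟨s, hs, e⟩ := h.exists_mem_Ico₀ Real.two_pi_pos t
  ⟨s, Ico_subset_Icc_self hs, e⟩

lemma cp_bd {φ : ℝ → ℝ} (h : CP φ) : ∃ B, ∀ t, |φ t| ≤ B := by
  obtain ⟨B, hB⟩ := isCompact_Icc.exists_bound_of_continuousOn (s := Icc (0 : ℝ) (2 * π))
    h.1.continuousOn
  refine ⟨B, fun t => ?_⟩
  obtain ⟨s, hs, e⟩ := cp_red h.2 t
  rw [e]; exact hB s hs

lemma swap {F : ℝ → ℝ → ℝ} (h : Continuous (Function.uncurry F)) :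
    ∫ s in (0 : ℝ)..(2 * π), ∫ t in (0 : ℝ)..(2 * π), F s t =
      ∫ t in (0 : ℝ)..(2 * π), ∫ s in (0 : ℝ)..(2 * π), F s t := by
  exact intervalIntegral_intervalIntegral_swap ((h.continuousOn.integrableOn_compact
    (isCompact_uIcc.prod isCompact_uIcc)).mono_set (prod_mono uIoc_subset_uIcc uIoc_subset_uIcc))

lemma ne_curve (h : CD Ω γ) {x : ℂ} (hx : x ∈ Ω) (t : ℝ) : x ≠ γ t := fun e => by
  have : x ∈ Ω ∩ frontier Ω := ⟨hx, h.fr ▸ ⟨t, e.symm⟩⟩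
  rw [h.opn.inter_frontier_eq] at this
  exact this

lemma sub_compl (h : CD Ω γ) : Ω ⊆ (range γ)ᶜ := fun _ hx ⟨t, e⟩ => ne_curve h hx t e.symm

lemma mem_cl (h : CD Ω γ) (t : ℝ) : γ t ∈ closure Ω := frontier_subset_closure (h.fr ▸ ⟨t, rfl⟩)

lemma cl_cases (h : CD Ω γ) {x : ℂ} (hx : x ∈ closure Ω) : x ∈ Ω ∨ ∃ t, γ t = x := by
  rw [closure_eq_self_union_frontier, h.fr] at hx
  exact hx

lemma nr_cont (h : CD Ω γ) : Continuous (nr γ) :=
  continuous_const.mul (h.smooth.continuous_deriv (by simp))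
lemma nr_per (h : CD Ω γ) : Function.Periodic (nr γ) (2 * π) := fun s => by
  simp only [nr, per_deriv' h.per s]
lemma nr_bd (h : CD Ω γ) : ∃ M, 0 ≤ M ∧ ∀ t, ‖nr γ t‖ ≤ M := by
  obtain ⟨B, hB⟩ := cp_bd (φ := fun t => ‖nr γ t‖) ⟨(nr_cont h).norm, fun s => by
    simp only [nr_per h s]⟩
  exact ⟨B, (abs_nonneg _).trans (hB 0), fun t => (le_abs_self _).trans (hB t)⟩

lemma DLk_per (h : CD Ω γ) (μ : ℝ) (x : ℂ) : Function.Periodic (DLk μ γ x) (2 * π) := fun s => by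
  simp only [DLk, nr_per h s, h.per s]

lemma DLk_cont (h3 : St_A3) (h : CD Ω γ) (hμ : 0 < μ) :
    ContinuousOn (fun p : ℂ × ℝ => DLk μ γ p.1 p.2) {p | p.1 ≠ γ p.2} := by
  have cγ := h.smooth.continuous
  have cn := nr_cont h
  have c1 : Continuous fun p : ℂ × ℝ => l1 (μ * ‖γ p.2 - p.1‖) :=
    h3.2.2.1.comp_continuous (by fun_prop) fun p => mul_nonneg hμ.le (norm_nonneg _)
  refine ContinuousOn.div (c1.mul ?_).continuousOn (by fun_prop) fun p hp => ?_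
  · exact rdot_cont (by fun_prop) (by fun_prop)
  · have : ‖γ p.2 - p.1‖ ≠ 0 := norm_ne_zero_iff.2 (sub_ne_zero.2 (Ne.symm hp))
    have := Real.pi_pos
    positivity

lemma DLk_cont1 (h3 : St_A3) (h : CD Ω γ) (hμ : 0 < μ) {x : ℂ} (hx : x ∉ range γ) :
    Continuous (DLk μ γ x) :=
  (DLk_cont h3 h hμ).comp_continuous (f := fun t => (x, t)) (by fun_prop) fun t e => hx ⟨t, e.symm⟩

lemma DLk_meas (h3 : St_A3) (h : CD Ω γ) (μ : ℝ) :
    Measurable fun p : ℂ × ℝ => DLk μ γ p.1 p.2 := by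
  have cγ := h.smooth.continuous
  have cn := nr_cont h
  refine ((h3.2.2.2.2.2.2.1.comp (Continuous.measurable (by fun_prop))).mul
    (Continuous.measurable ?_)).div (Continuous.measurable (by fun_prop))
  exact rdot_cont (by fun_prop) (by fun_prop)

lemma DLk_bd (h3 : St_A3) (h : CD Ω γ) (hμ : 0 < μ) :
    ∃ M, 0 ≤ M ∧ ∀ x t, |DLk μ γ x t| ≤ M * ‖x - γ t‖⁻¹ := by
  obtain ⟨M, M0, hM⟩ := nr_bd h
  refine ⟨M, M0, fun x t => ?_⟩
  rw [norm_sub_rev x, DLk]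
  rcases (norm_nonneg (γ t - x)).eq_or_lt with e | p
  · simp [← e]
  obtain ⟨-, -, -, l0, l1'⟩ := h3.2.2.2.2.2.2.2.1 _ (mul_pos hμ p)
  have pi := Real.pi_gt_three
  have r := abs_rdot (-nr γ t) (γ t - x)
  rw [norm_neg] at r
  rw [abs_div, abs_mul, abs_of_pos l0, abs_of_pos (by positivity : 0 < 2 * π * ‖γ t - x‖ ^ 2),
    div_le_iff₀ (by positivity)]
  calc _ ≤ 1 * (M * ‖γ t - x‖) := by
        gcongr
        exact r.trans (by gcongr; exact hM t)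
    _ ≤ (2 * π) * (M * ‖γ t - x‖) := by gcongr; linarith
    _ = _ := by field_simp

/-- one sided comparison -/
lemma le_of_bd (hM : St_MAX) (hμ : 0 < μ) (h : CD Ω γ) (c : ContinuousOn u (closure Ω))
    (hu : Har μ Ω u) {m : ℝ} (m0 : 0 ≤ m) (hb : ∀ t, u (γ t) ≤ m) : ∀ x ∈ closure Ω, u x ≤ m :=
  (hM μ hμ).1 Ω u m h.opn h.bdd m0 c hu.1 (fun x hx => (hu.2 x hx).ge) fun x hx => by
    rw [h.fr] at hx
    obtain ⟨t, rfl⟩ := hx
    exact hb t

/-- comparison of two solutions -/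
lemma cmp (hM : St_MAX) (hμ : 0 < μ) (h : CD Ω γ) (cu : ContinuousOn u (closure Ω))
    (cv : ContinuousOn v (closure Ω)) (hu : Har μ Ω u) (hv : Har μ Ω v) {m : ℝ}
    (hb : ∀ t, |u (γ t) - v (γ t)| ≤ m) : ∀ x ∈ closure Ω, |u x - v x| ≤ m := fun x hx =>
  have m0 : 0 ≤ m := (abs_nonneg _).trans (hb 0)
  abs_sub_le_iff.2 ⟨le_of_bd hM hμ h (cu.sub cv) (har_sub h.opn hu hv) m0
      (fun t => (abs_sub_le_iff.1 (hb t)).1) x hx,
    le_of_bd hM hμ h (cv.sub cu) (har_sub h.opn hv hu) m0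
      (fun t => (abs_sub_le_iff.1 (hb t)).2) x hx⟩

end Pool.Agent.Lib.IS2.K28
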