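import Pool.Agent.Lib.IS2.B_LAY
import Pool.Agent.Lib.IS2.K28

/-! Row TR1: the volume integral of the product of the two kernels. -/

open scoped ContDiff ComplexConjugate Topology Real Interval
open Complex MeasureTheory Set Filter

noncomputable section

namespace Pool.Agent.Lib.IS2

namespace TR1

open K28

variable {μ : ℝ} {Ω : Set ℂ} {γ : ℝ → ℂ}

theorem pw {x : ℝ} (hx : 0 ≤ x) (n : ℕ) : (x ^ (-(1 / 4) : ℝ)) ^ n = x ^ (-((n : ℝ) / 4)) := by
  rw [← Real.rpow_natCast, ← Real.rpow_mul hx]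
  refine congrArg _ ?_
  ring

theorem pw4 {x : ℝ} (hx : 0 ≤ x) : (x ^ (-(1 / 4) : ℝ)) ^ 4 = x⁻¹ := by
  rw [pw hx, ← Real.rpow_neg_one]
  norm_num

theorem half {q r : ℝ} (q0 : 0 < q) (h : q ≤ 2 * r) :
    r⁻¹ ≤ 2 * q⁻¹ ∧ r ^ (-(1 / 4) : ℝ) ≤ 2 * q ^ (-(1 / 4) : ℝ) := by
  have r0 : 0 < r := by linarith
  have h1 : r⁻¹ ≤ 2 * q⁻¹ := by
    rw [← div_eq_mul_inv, inv_eq_one_div, div_le_div_iff₀ r0 q0]
    linarith
  refine ⟨h1, le_of_pow_le_pow_left₀ (n := 4) (by norm_num) (by positivity) ?_⟩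
  rw [mul_pow, pw4 r0.le, pw4 q0.le]
  linarith [inv_pos.2 q0]

theorem young {p q : ℝ} (p0 : 0 ≤ p) (q0 : 0 ≤ q) :
    p ^ (-(1 / 4) : ℝ) * q⁻¹ ≤ p ^ (-(5 / 4) : ℝ) + q ^ (-(5 / 4) : ℝ) := by
  have a := pw p0 5
  have b := pw q0 5
  push_cast at a b
  rw [← a, ← b, ← pw4 q0]
  have P0 : 0 ≤ p ^ (-(1 / 4) : ℝ) := by positivity
  have Q0 : 0 ≤ q ^ (-(1 / 4) : ℝ) := by positivity
  generalize p ^ (-(1 / 4) : ℝ) = P at *
  generalize q ^ (-(1 / 4) : ℝ) = Q at *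
  rcases le_total P Q with h | h
  · have := mul_le_mul_of_nonneg_right h (pow_nonneg Q0 4)
    nlinarith [pow_nonneg P0 5]
  · have := mul_le_mul_of_nonneg_left (pow_le_pow_left₀ Q0 h 4) P0
    nlinarith [pow_nonneg Q0 5]

theorem bG (hA : St_A3) (hμ : 0 < μ) : ∃ C, 0 ≤ C ∧ ∀ z, |Gr μ z| ≤ C * ‖z‖ ^ (-(1 / 4) : ℝ) :=
  let ⟨C, h0, h⟩ := LAY.bd_k0' hA hμ
  ⟨C, h0, fun z => h _ (norm_nonneg z)⟩

theorem bD (hA : St_A3) (hμ : 0 < μ) (v : ℂ) {z : ℂ} (hz : z ≠ 0) :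
    |fderiv ℝ (Gr μ) z v| ≤ ‖v‖ * ‖z‖⁻¹ := by
  have p := norm_pos_iff.2 hz
  obtain ⟨-, -, -, l0, l1'⟩ := hA.2.2.2.2.2.2.2.1 _ (mul_pos hμ p)
  have pi := Real.pi_gt_three
  rw [LAY.D_Gr hA hμ v hz, abs_div, abs_neg, abs_mul, abs_of_pos l0,
    abs_of_pos (by positivity : 0 < 2 * π * ‖z‖ ^ 2), div_le_iff₀ (by positivity)]
  calc _ ≤ 1 * (‖z‖ * ‖v‖) := mul_le_mul l1' (abs_rdot z v) (abs_nonneg _) zero_le_one
    _ ≤ (2 * π) * (‖z‖ * ‖v‖) := by gcongr; linarith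
    _ = _ := by field_simp

/-- the auxiliary potential -/
def W (μ : ℝ) (n z : ℂ) : ℝ := -(Gr μ z * LAY.rL n z) / 2

theorem c2G (hA : St_A3) (hμ : 0 < μ) {z : ℂ} (hz : z ≠ 0) : ContDiffAt ℝ 2 (Gr μ) z :=
  ((LAY.cd_Gr hA hμ).contDiffAt (isOpen_compl_singleton.mem_nhds hz)).of_le (LAY.le_oo 2)

theorem c2W (hA : St_A3) (hμ : 0 < μ) (n : ℂ) {z : ℂ} (hz : z ≠ 0) : ContDiffAt ℝ 2 (W μ n) z :=
  ((c2G hA hμ hz).mul (LAY.rL n).contDiff.contDiffAt).neg.div_const 2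

theorem dW (hA : St_A3) (hμ : 0 < μ) (n w : ℂ) {z : ℂ} (hz : z ≠ 0) : fderiv ℝ (W μ n) z w =
    -(fderiv ℝ (Gr μ) z w * LAY.rL n z + Gr μ z * LAY.rL n w) / 2 := by
  have h := (((c2G hA hμ hz).differentiableAt two_ne_zero).hasFDerivAt.fun_mul
    (LAY.rL n).hasFDerivAt).const_mul (-(1 / 2) : ℝ)
  have e : W μ n = fun z => -(1 / 2) * (Gr μ z * LAY.rL n z) := funext fun z => by rw [W]; ring
  rw [e, h.fderiv]
  simp
  ring

theorem lapW (hA : St_A3) (hμ : 0 < μ) (n : ℂ) {z : ℂ} (hz : z ≠ 0) :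
    μ ^ 2 * W μ n z - lap (W μ n) z = fderiv ℝ (Gr μ) z n := by
  have c := c2G hA hμ hz
  have e (w : ℂ) : fderiv ℝ (fun x => fderiv ℝ (W μ n) x w) z w =
      -(fderiv ℝ (fun x => fderiv ℝ (Gr μ) x w) z w * LAY.rL n z +
        2 * (fderiv ℝ (Gr μ) z w * LAY.rL n w)) / 2 := by
    have e1 : (fun x => fderiv ℝ (W μ n) x w) =ᶠ[𝓝 z] fun x => -(1 / 2) *
        (fderiv ℝ (Gr μ) x w * LAY.rL n x + Gr μ x * LAY.rL n w) := by
      filter_upwards [isOpen_compl_singleton.mem_nhds hz] with x hx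
      rw [dW hA hμ n w hx]
      ring
    rw [e1.fderiv_eq, ((((df_dir c w).hasFDerivAt.fun_mul (LAY.rL n).hasFDerivAt).fun_add
      ((c.differentiableAt two_ne_zero).hasFDerivAt.mul_const _)).const_mul
        (-(1 / 2) : ℝ)).fderiv]
    simp
    ring
  have e2 : fderiv ℝ (Gr μ) z n = n.re * fderiv ℝ (Gr μ) z 1 + n.im * fderiv ℝ (Gr μ) z I := by
    rw [← smul_eq_mul, ← smul_eq_mul, ← map_smul, ← map_smul, ← map_add]
    refine congrArg _ ?_
    simp
  have e3 : LAY.rL n 1 = n.re := by simp [LAY.rL]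
  have e4 : LAY.rL n I = n.im := by simp [LAY.rL]
  have e5 := LAY.lap_Gr hA hμ hz
  rw [lap] at e5
  rw [lap, e, e, e2, e3, e4, W]
  linear_combination (LAY.rL n z / 2) * e5

theorem abs_rL (n z : ℂ) : |LAY.rL n z| ≤ ‖z‖ * ‖n‖ := by
  rw [LAY.rL_apply]
  exact abs_rdot z n

theorem cW (hA : St_A3) (hμ : 0 < μ) (n : ℂ) : Continuous (W μ n) := by
  refine continuous_iff_continuousAt.2 fun z => ?_
  rcases eq_or_ne z 0 with rfl | hz
  · obtain ⟨C, C0, hC⟩ := bG hA hμ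
    have e : W μ n 0 = 0 := by simp [W]
    rw [ContinuousAt, e]
    refine squeeze_zero_norm (a := fun z => C * ‖n‖ * ‖z‖ ^ (3 / 4 : ℝ)) (fun z => ?_) ?_
    · have e1 : ‖z‖ ^ (3 / 4 : ℝ) = ‖z‖ ^ (-(1 / 4) : ℝ) * ‖z‖ := by
        rw [← Real.rpow_add_one' (norm_nonneg z) (by norm_num)]
        norm_num
      have h := mul_le_mul (hC z) (abs_rL n z) (abs_nonneg _) (by positivity)
      rw [Real.norm_eq_abs, W, abs_div, abs_neg, abs_mul, e1, abs_two]
      nlinarith [mul_nonneg (abs_nonneg (Gr μ z)) (abs_nonneg (LAY.rL n z))]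
    · have : Continuous fun z : ℂ => C * ‖n‖ * ‖z‖ ^ (3 / 4 : ℝ) :=
        continuous_const.mul (continuous_norm.rpow_const fun _ => Or.inr (by norm_num))
      simpa using this.tendsto 0
  · exact (c2W hA hμ n hz).continuousAt

theorem bdW (hA : St_A3) (hμ : 0 < μ) (n w : ℂ) {z : ℂ} (hz : z ≠ 0) :
    |fderiv ℝ (W μ n) z w| ≤ ‖w‖ * ‖n‖ * (1 + |Gr μ z|) := by
  have p := norm_pos_iff.2 hz
  have h1 := mul_le_mul (bD hA hμ w hz) (abs_rL n z) (abs_nonneg _) (by positivity)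
  have h2 := mul_le_mul_of_nonneg_left (abs_rL n w) (abs_nonneg (Gr μ z))
  have e : ‖w‖ * ‖z‖⁻¹ * (‖z‖ * ‖n‖) = ‖w‖ * ‖n‖ := by field_simp
  have h3 := abs_add_le (fderiv ℝ (Gr μ) z w * LAY.rL n z) (Gr μ z * LAY.rL n w)
  rw [abs_mul, abs_mul] at h3
  rw [dW hA hμ n w hz, abs_div, abs_neg, abs_two]
  nlinarith [abs_nonneg (fderiv ℝ (Gr μ) z w * LAY.rL n z + Gr μ z * LAY.rL n w)]

theorem W_Kd (s t : ℝ) : W μ (nr γ t) (γ s - γ t) = Kdr μ γ s t := by
  have : rdot (-nr γ t) (γ t - γ s) = rdot (γ s - γ t) (nr γ t) := by simp [rdot]; ring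
  rw [W, Kdr, Gr, LAY.rL_apply, this, c0]
  ring

theorem W_Nd (hA : St_A3) (hμ : 0 < μ) {v t : ℝ} (h : γ v - γ t ≠ 0) :
    fderiv ℝ (W μ (nr γ t)) (γ v - γ t) (-nr γ v) = -Ndr μ γ v t := by
  have e1 : rdot (γ v - γ t) (-nr γ v) = rdot (nr γ v) (γ t - γ v) := by simp [rdot]; ring
  have e2 : rdot (γ v - γ t) (nr γ t) = -rdot (nr γ t) (γ t - γ v) := by simp [rdot]; ring
  have e3 : rdot (-nr γ v) (nr γ t) = -rdot (nr γ v) (nr γ t) := by simp [rdot]
  rw [dW hA hμ _ _ h, LAY.D_Gr hA hμ _ h, LAY.rL_apply, LAY.rL_apply, e1, e2, e3, Ndr, Gr, c0]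
  ring

/-- weakly singular integrals over the domain -/
theorem vol (h : CD Ω γ) : ∃ C, ∀ s, IntegrableOn (fun x => ‖x - γ s‖ ^ (-(5 / 4) : ℝ)) Ω ∧
    ∫ x in Ω, ‖x - γ s‖ ^ (-(5 / 4) : ℝ) ≤ C := by
  obtain ⟨R, hR⟩ := h.bdd.closure.exists_norm_le
  have g := (LAY.int_rad (a := 5 / 4) (b := 1) (by norm_num) one_pos).const_mul (Real.exp (2 * R))
  refine ⟨∫ z : ℂ, Real.exp (2 * R) * (‖z‖ ^ (-(5 / 4) : ℝ) * Real.exp (-(1 * ‖z‖))), fun s => ?_⟩
  have g1 := g.comp_sub_right (γ s)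
  have b : ∀ x ∈ Ω, ‖x - γ s‖ ^ (-(5 / 4) : ℝ) ≤
      Real.exp (2 * R) * (‖x - γ s‖ ^ (-(5 / 4) : ℝ) * Real.exp (-(1 * ‖x - γ s‖))) := by
    intro x hx
    have h1 := norm_sub_le x (γ s)
    rw [mul_left_comm, ← Real.exp_add]
    refine le_mul_of_one_le_right (by positivity) (Real.one_le_exp ?_)
    linarith [hR x (subset_closure hx), hR _ (mem_cl h s)]
  have m : Measurable fun x : ℂ => ‖x - γ s‖ ^ (-(5 / 4) : ℝ) :=
    (continuous_id.sub continuous_const).norm.measurable.pow_const _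
  have i : IntegrableOn (fun x => ‖x - γ s‖ ^ (-(5 / 4) : ℝ)) Ω :=
    g1.integrableOn.mono' m.aestronglyMeasurable ((ae_restrict_mem h.opn.measurableSet).mono
      fun x hx => (Real.norm_of_nonneg (by positivity)).trans_le (b x hx))
  refine ⟨i, (setIntegral_mono_on i g1.integrableOn h.opn.measurableSet b).trans ?_⟩
  refine (setIntegral_le_integral g1 (ae_of_all _ fun x => by positivity)).trans_eq ?_
  exact integral_sub_right_eq_self
    (fun z : ℂ => Real.exp (2 * R) * (‖z‖ ^ (-(5 / 4) : ℝ) * Real.exp (-(1 * ‖z‖)))) (γ s)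

/-- Green formula at a point of the curve -/
theorem green (hA : St_A3) (hL : St_LAY) (hR : St_GRN) (hV : St_VP) (hJ : St_JMP) (hμ : 0 < μ)
    (h : CD Ω γ) {O : Set ℂ} {u : ℂ → ℝ} (hO : IsOpen O) (hc : closure Ω ⊆ O)
    (hu : ContDiffOn ℝ 2 u O) (s : ℝ) :
    u (γ s) / 2 = (∫ z in Ω, Gr μ (γ s - z) * (μ ^ 2 * u z - lap u z)) +
      (∫ v in (0 : ℝ)..(2 * π), Sr μ γ s v * fderiv ℝ u (γ v) (-nr γ v)) +
      ∫ v in (0 : ℝ)..(2 * π), Kr μ γ s v * u (γ v) := by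
  have cγ := h.smooth.continuous
  have m := h.opn.measurableSet
  have ca : ∀ x ∈ closure Ω, ContDiffAt ℝ 2 u x := fun x hx => hu.contDiffAt (hO.mem_nhds (hc hx))
  set F : ℂ → ℝ := fun z => μ ^ 2 * u z - lap u z with hF
  have cF : ContinuousOn F (closure Ω) := fun x hx => by
    have d (a : ℂ) : ContinuousAt (fun z => fderiv ℝ (fun y => fderiv ℝ u y a) z a) x :=
      (cd_dir (m := 0) (cd_dir (m := 1) (ca x hx) (by norm_num) a) (by norm_num) a).continuousAt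
    exact ((continuousAt_const.mul (ca x hx).continuousAt).sub
      ((d 1).add (d I))).continuousWithinAt
  obtain ⟨B, hB⟩ := h.bdd.isCompact_closure.exists_bound_of_continuousOn cF
  obtain ⟨R, hR'⟩ := h.bdd.exists_norm_le
  have fin : IsFiniteMeasure (volume.restrict Ω) :=
    isFiniteMeasure_restrict.2 h.bdd.measure_lt_top.ne
  have l2 : MemLp (Ω.indicator F) 2 := (memLp_indicator_iff_restrict m).2 (MemLp.of_bound
    ((cF.mono subset_closure).aestronglyMeasurable m) B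
    ((ae_restrict_mem m).mono fun x hx => hB x (subset_closure hx)))
  have cV := (hV μ _ hμ l2 ⟨R, fun z hz => indicator_of_notMem
    (fun e => absurd (hR' z e) (not_le.2 hz)) _⟩).1
  have eV : ∀ x, Vp μ (Ω.indicator F) x = ∫ z in Ω, Gr μ (x - z) * F z := fun x => by
    rw [Vp, ← integral_indicator m]
    refine integral_congr_ae (ae_of_all _ fun z => ?_)
    by_cases hz : z ∈ Ω <;> simp [hz]
  have pφ : CP fun v => fderiv ℝ u (γ v) (-nr γ v) := by
    refine ⟨continuous_iff_continuousAt.2 fun v => ?_, fun v => by simp only [h.per v, nr_per h v]⟩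
    exact (ContinuousAt.comp (f := γ) ((ca _ (mem_cl h v)).fderiv_right (m := 0)
      (by norm_num)).continuousAt cγ.continuousAt).clm_apply (nr_cont h).neg.continuousAt
  have pψ : CP fun v => u (γ v) := ⟨continuous_iff_continuousAt.2 fun v =>
    ContinuousAt.comp (f := γ) (ca _ (mem_cl h v)).continuousAt cγ.continuousAt,
    fun v => by simp only [h.per v]⟩
  have cS := ((hL μ hμ).2 Ω γ _ h pφ.1.measurable (cp_bd pφ)).1
  have nb : (𝓝[Ω] (γ s)).NeBot := mem_closure_iff_nhdsWithin_neBot.1 (mem_cl h s)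
  have t1 : Tendsto u (𝓝[Ω] (γ s)) (𝓝 (u (γ s))) :=
    (ca _ (mem_cl h s)).continuousAt.continuousWithinAt
  have t2 := ((cV.fun_add cS).continuousAt (x := γ s)).continuousWithinAt (s := Ω) |>.tendsto.add
    ((hJ μ Ω γ hμ h).2 _ pψ s)
  have e := tendsto_nhds_unique_of_eventuallyEq t1 t2 (by
    filter_upwards [self_mem_nhdsWithin] with x hx
    have hx' := sub_compl h hx
    have g := (hR μ hμ).2 Ω γ O u x h hO hc hu hx'
    have c1 : Continuous fun v => Gr μ (x - γ v) := continuous_iff_continuousAt.2 fun v =>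
      ContinuousAt.comp (f := fun v => x - γ v)
        (c2G hA hμ (sub_ne_zero.2 (ne_curve h hx v))).continuousAt (by fun_prop)
    rw [indicator_of_mem hx, intervalIntegral.integral_add ((c1.fun_mul pφ.1).intervalIntegrable _ _)
      (((DLk_cont1 hA h hμ hx').fun_mul pψ.1).intervalIntegrable _ _)] at g
    rw [g, eV, add_assoc]
    rfl)
  rw [eV] at e
  simp only [SLo] at e
  simp only [Sr]
  linarith

theorem out (hG : St_GC) (h : CD Ω γ) (t : ℝ) : ∀ᶠ r : ℝ in 𝓝[>] 0,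
    γ t - r * nr γ t ∉ closure Ω ∧
      ∀ z ∈ closure Ω, ‖z - γ t‖ ≤ 2 * ‖z - (γ t - r * nr γ t)‖ := by
  obtain ⟨c, hc, -, -, h3, h4⟩ := hG Ω γ h
  filter_upwards [Ioc_mem_nhdsGT hc] with r hr
  refine ⟨(h3 t r hr.1 hr.2).2, fun z hz => le_on_closure (f := fun z => ‖z - γ t‖)
    (g := fun z => 2 * ‖z - (γ t - r * nr γ t)‖) (fun z hz => ?_) (by fun_prop) (by fun_prop) hz⟩
  have a1 := h4 t z hz
  have a2 := norm_add_le (z - (γ t - r * nr γ t)) (((c - r : ℝ) : ℂ) * nr γ t)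
  have a3 := norm_sub_le (z - (γ t - r * nr γ t)) ((r : ℂ) * nr γ t)
  rw [norm_mul, norm_real, Real.norm_of_nonneg (by linarith [hr.2] : 0 ≤ c - r),
    show z - (γ t - r * nr γ t) + ((c - r : ℝ) : ℂ) * nr γ t = z - (γ t - c * nr γ t) by
      push_cast; ring] at a2
  rw [norm_mul, norm_real, Real.norm_of_nonneg hr.1.le,
    show z - (γ t - r * nr γ t) - (r : ℂ) * nr γ t = z - γ t by ring] at a3
  linarith

end TR1

open TR1 K28 in
theorem st_tr1 (hA : St_A3) (hG : St_GC) (hL : St_LAY) (hR : St_GRN) (hV : St_VP) (hJ : St_JMP)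
    (hN : St_NEU) : St_TR1 := by
  intro μ γ Ω hp
  have h := hp.cd
  have hμ := hp.pos
  have cγ := h.smooth.continuous
  have m := h.opn.measurableSet
  have mG := LAY.meas_Gr hA μ
  obtain ⟨C, C0, hC⟩ := bG hA hμ
  obtain ⟨V, hV'⟩ := vol h
  have maj : ∀ (s t D : ℝ), IntegrableOn (fun x => D * (‖x - γ s‖ ^ (-(5 / 4) : ℝ) +
      ‖x - γ t‖ ^ (-(5 / 4) : ℝ))) Ω := fun s t D => ((hV' s).1.add (hV' t).1).const_mul D
  have bd : ∀ (s t M a : ℝ) x, 0 ≤ M → |a| ≤ M * ‖x - γ t‖⁻¹ → ‖Gr μ (γ s - x) * a‖ ≤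
      C * M * (‖x - γ s‖ ^ (-(5 / 4) : ℝ) + ‖x - γ t‖ ^ (-(5 / 4) : ℝ)) := by
    intro s t M a x M0 ha
    rw [Real.norm_eq_abs, abs_mul, Gr_sub]
    refine (mul_le_mul (hC _) ha (abs_nonneg _) (by positivity)).trans ?_
    rw [mul_mul_mul_comm]
    exact mul_le_mul_of_nonneg_left (young (norm_nonneg _) (norm_nonneg _)) (by positivity)
  refine ⟨?_, fun s t => ?_⟩
  · obtain ⟨M, M0, hM⟩ := DLk_bd hA h hμ
    refine ⟨C * M * (V + V), fun s t => ?_⟩
    have m1 : Measurable fun x => DLk μ γ x t :=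
      Measurable.comp (f := fun x : ℂ => (x, t)) (DLk_meas hA h μ) (by fun_prop)
    have me : Measurable fun x => Gr μ (γ s - x) * DLk μ γ x t :=
      (mG.comp (measurable_const.sub measurable_id)).mul m1
    have i : IntegrableOn (fun x => Gr μ (γ s - x) * DLk μ γ x t) Ω := (maj s t (C * M)).mono'
      me.aestronglyMeasurable (ae_of_all _ fun x => bd s t M _ x M0 (hM x t))
    refine ⟨i, (integral_mono i.abs (maj s t (C * M)) fun x => bd s t M _ x M0 (hM x t)).trans ?_⟩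
    rw [integral_const_mul, integral_add (hV' s).1 (hV' t).1]
    exact mul_le_mul_of_nonneg_left (add_le_add (hV' s).2 (hV' t).2) (by positivity)
  set n := nr γ t with hn
  set y : ℝ → ℂ := fun r => γ t - r * n with hy
  have cy : Continuous y := by fun_prop
  have y0 : y 0 = γ t := by simp [hy]
  have ty : ∀ z : ℂ, Tendsto (fun r => z - y r) (𝓝[>] 0) (𝓝 (z - γ t)) := fun z => by
    rw [← y0]
    exact (continuous_const.sub cy).continuousAt.continuousWithinAt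
  have ho : ∀ᶠ r : ℝ in 𝓝[>] 0, y r ∉ closure Ω ∧ ∀ z ∈ closure Ω, ‖z - γ t‖ ≤ 2 * ‖z - y r‖ :=
    out hG h t
  have ne : ∀ {r z}, y r ∉ closure Ω → z ∈ closure Ω → z - y r ≠ 0 := fun a b =>
    sub_ne_zero.2 fun e => a (e ▸ b)
  have c := cW hA hμ n
  have t0 : Tendsto (fun r => W μ n (γ s - y r) / 2) (𝓝[>] 0) (𝓝 (Kdr μ γ s t / 2)) := by
    rw [← W_Kd]
    exact ((c.tendsto _).comp (ty _)).div_const 2
  have t1 : Tendsto (fun r => ∫ z in Ω, Gr μ (γ s - z) * fderiv ℝ (Gr μ) (z - y r) n) (𝓝[>] 0)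
      (𝓝 (∫ z in Ω, -(Gr μ (γ s - z) * DLk μ γ z t))) := by
    refine tendsto_integral_filter_of_dominated_convergence _ (Eventually.of_forall fun r => ?_)
      (ho.mono fun r hr => (ae_restrict_mem m).mono fun z hz => bd s t (‖n‖ * 2) _ z
        (by positivity) ?_) (maj s t _) ((ae_restrict_mem m).mono fun z hz => ?_)
    · exact ((mG.comp (measurable_const.sub measurable_id)).mul
        ((measurable_fderiv_apply_const ℝ _ n).comp
          (measurable_id.sub measurable_const))).aestronglyMeasurable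
    · refine (bD hA hμ n (ne hr.1 (subset_closure hz))).trans ?_
      rw [mul_assoc]
      exact mul_le_mul_of_nonneg_left (half (norm_pos_iff.2 (sub_ne_zero.2 (ne_curve h hz t)))
        (hr.2 z (subset_closure hz))).1 (norm_nonneg _)
    · rw [DLk_eq hL hμ (ne_curve h hz t), map_neg, mul_neg, neg_neg]
      exact (((cd_dir (m := 0) (c2G hA hμ (sub_ne_zero.2 (ne_curve h hz t))) (by norm_num)
        n).continuousAt.tendsto).comp (ty z)).const_mul _
  have t2 : Tendsto (fun r => ∫ v in (0 : ℝ)..(2 * π),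
      Sr μ γ s v * fderiv ℝ (W μ n) (γ v - y r) (-nr γ v)) (𝓝[>] 0)
      (𝓝 (∫ v in (0 : ℝ)..(2 * π), -(Sr μ γ s v * Ndr μ γ v t))) := by
    obtain ⟨M, M0, hM⟩ := nr_bd h
    obtain ⟨_, i1⟩ := LAY.sing hG h (a := 1 / 4) (by norm_num) (by norm_num)
    obtain ⟨_, i2⟩ := LAY.sing hG h (a := 2 / 4) (by norm_num) (by norm_num)
    obtain ⟨k, k0, hk, -⟩ := hG Ω γ h
    have ae : ∀ᵐ v, γ v - γ t ≠ 0 := (LAY.ae_dc t).mono fun v hv e => by
      have := hk t v 0 (by simpa using k0.le)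
      simp only [abs_zero, add_zero, ofReal_zero, zero_mul, e, norm_zero] at this
      exact absurd this (not_le.2 (mul_pos k0 ((dc_nonneg _ _).lt_of_ne' hv)))
    refine intervalIntegral.tendsto_integral_filter_of_dominated_convergence
      (fun v => C * (M * M) * (‖γ s - γ v‖ ^ (-(1 / 4) : ℝ) +
        C * (‖γ s - γ v‖ ^ (-(2 / 4) : ℝ) + ‖γ t - γ v‖ ^ (-(2 / 4) : ℝ))))
      (ho.mono fun r hr => ?_) (ho.mono fun r hr => ae.mono fun v hv _ => ?_)
      (((i1 _).1.add (((i2 _).1.add (i2 _).1).const_mul C)).const_mul _)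
      (ae.mono fun v hv _ => ?_)
    · refine ((mG.comp (measurable_const.sub cγ.measurable)).mul (Continuous.measurable
        (continuous_iff_continuousAt.2 fun v => ?_))).aestronglyMeasurable
      exact (ContinuousAt.comp (f := fun v => γ v - y r) ((c2W hA hμ n
        (ne hr.1 (mem_cl h v))).fderiv_right (m := 0) (by norm_num)).continuousAt
        (by fun_prop)).clm_apply (nr_cont h).neg.continuousAt
    · have a1 := bdW hA hμ n (-nr γ v) (ne hr.1 (mem_cl h v))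
      have a2 := (hC (γ v - y r)).trans (mul_le_mul_of_nonneg_left
        (half (norm_pos_iff.2 hv) (hr.2 _ (mem_cl h v))).2 C0)
      have a3 : |fderiv ℝ (W μ n) (γ v - y r) (-nr γ v)| ≤
          M * M * (1 + C * (2 * ‖γ v - γ t‖ ^ (-(1 / 4) : ℝ))) := by
        rw [norm_neg] at a1
        exact a1.trans (mul_le_mul (mul_le_mul (hM v) (hM t) (norm_nonneg _) M0)
          (by linarith) (by positivity) (by positivity))
      have p1 := pw (norm_nonneg (γ s - γ v)) 2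
      have p2 := pw (norm_nonneg (γ v - γ t)) 2
      push_cast at p1 p2
      rw [Real.norm_eq_abs, abs_mul, Sr, norm_sub_rev (γ t), ← p1, ← p2]
      refine (mul_le_mul (hC _) a3 (abs_nonneg _) (by positivity)).trans ?_
      rw [mul_mul_mul_comm]
      refine mul_le_mul_of_nonneg_left ?_ (by positivity)
      nlinarith [mul_nonneg C0 (sq_nonneg (‖γ s - γ v‖ ^ (-(1 / 4) : ℝ) -
        ‖γ v - γ t‖ ^ (-(1 / 4) : ℝ)))]
    · rw [← mul_neg, ← W_Nd hA hμ hv]
      exact (((cd_dir (m := 0) (c2W hA hμ n hv) (by norm_num) _).continuousAt.tendsto).comp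
        (ty _)).const_mul _
  have t3 : Tendsto (fun r => ∫ v in (0 : ℝ)..(2 * π), Kr μ γ s v * W μ n (γ v - y r)) (𝓝[>] 0)
      (𝓝 (∫ v in (0 : ℝ)..(2 * π), Kr μ γ s v * Kdr μ γ v t)) := by
    have cK : Continuous (Kr μ γ s) := (hN μ γ Ω hp).1.uncurry_left s
    have := intervalIntegral.continuous_parametric_intervalIntegral_of_continuous' (μ := volume)
      (f := fun r v => Kr μ γ s v * W μ n (γ v - y r)) ((cK.comp continuous_snd).mul
        (c.comp ((cγ.comp continuous_snd).sub (cy.comp continuous_fst)))) 0 (2 * π)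
    have := (this.continuousAt (x := 0)).continuousWithinAt (s := Ioi 0) |>.tendsto
    simpa only [y0, hn, W_Kd] using this
  have e := tendsto_nhds_unique_of_eventuallyEq t0 ((t1.add t2).add t3) (ho.mono fun r hr => by
    have g := green hA hL hR hV hJ hμ h (O := {y r}ᶜ) (u := fun x => W μ n (x - y r))
      isOpen_compl_singleton (fun z hz e => hr.1 (e ▸ hz)) (fun z hz =>
        (ContDiffAt.comp (f := fun x => x - y r) z (c2W hA hμ n (sub_ne_zero.2 hz))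
          (by fun_prop)).contDiffWithinAt) s
    simp only [lap_shift, fderiv_comp_sub] at g
    simp only
    rw [g]
    refine congrArg (· + _ + _) (setIntegral_congr_fun m fun z hz => ?_)
    rw [lapW hA hμ n (ne hr.1 (subset_closure hz))])
  rw [integral_neg, intervalIntegral.integral_neg] at e
  linarith

end Pool.Agent.Lib.IS2
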