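import Pool.Agent.Lib.IS2.B_LAY

/-! Volume potentials. -/

open scoped ContDiff ComplexConjugate Topology Real Convolution
open Complex MeasureTheory Set Filter Metric

noncomputable section

namespace Pool.Agent.Lib.IS2

namespace VP

open LAY

/-- The convolution of two square integrable functions is continuous. -/
theorem cont_L2 {G F : ℂ → ℝ} (hG : MemLp G 2) (hF : MemLp F 2) :
    Continuous fun x => ∫ z, G (x - z) * F z := by
  let g : ℂ → C(ℂ, ℂ) := ContinuousMap.curry ⟨fun p : ℂ × ℂ => p.1 - p.2, by fun_prop⟩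
  have hm : ∀ x, MeasurePreserving (g x) volume volume := fun x =>
    Measure.measurePreserving_sub_left volume x
  have c := (continuous_const (y := hF.toLp F)).inner (𝕜 := ℝ)
    ((continuous_const (y := hG.toLp G)).compMeasurePreservingLp (map_continuous _) hm (by simp))
  refine c.congr fun x => ?_
  rw [L2.inner_def]
  refine integral_congr_ae ?_
  filter_upwards [hF.coeFn_toLp, Lp.coeFn_compMeasurePreserving (hG.toLp G) (hm x),
    (hm x).quasiMeasurePreserving.ae_eq_comp hG.coeFn_toLp] with z h1 h2 h3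
  rw [h1, h2, h3]
  rfl

theorem int_L2 {G F : ℂ → ℝ} (hG : MemLp G 2) (hF : MemLp F 2) (x : ℂ) :
    Integrable fun z => G (x - z) * F z :=
  (hG.comp_measurePreserving (Measure.measurePreserving_sub_left volume x)).integrable_mul hF

/-- Convolution. -/
def cn (a b : ℂ → ℝ) (x : ℂ) : ℝ := ∫ z, a z * b (x - z)

variable {a b : ℂ → ℝ}

theorem D_cn (ha : LocallyIntegrable a) (hc : HasCompactSupport b) (hb : ContDiff ℝ 1 b) (v : ℂ) :
    D v (cn a b) = cn a (D v b) := by
  funext x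
  have h := (hc.hasFDerivAt_convolution_right (ContinuousLinearMap.mul ℝ ℝ) ha hb x).fderiv
  have h' := convolution_precompR_apply (ContinuousLinearMap.mul ℝ ℝ) ha (hc.fderiv ℝ)
    (hb.continuous_fderiv one_ne_zero) x v
  exact (congrArg (· v) h).trans h'

theorem cd_cn (ha : LocallyIntegrable a) (hc : HasCompactSupport b) (hb : ContDiff ℝ 2 b) :
    ContDiff ℝ 2 (cn a b) :=
  hc.contDiff_convolution_right (n := 2) (ContinuousLinearMap.mul ℝ ℝ) ha hb

theorem int_cn (ha : LocallyIntegrable a) (hc : HasCompactSupport b) (hb : Continuous b) (x : ℂ) :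
    Integrable fun z => a z * b (x - z) :=
  hc.convolutionExists_right (ContinuousLinearMap.mul ℝ ℝ) ha hb x

theorem op_cn (ha : LocallyIntegrable a) (hc : HasCompactSupport b) (hb : ContDiff ℝ 2 b) (m : ℝ)
    (x : ℂ) : m * cn a b x - lap (cn a b) x = cn a (fun z => m * b z - lap b z) x := by
  have c1 : ∀ v, ContDiff ℝ 1 (D v b) := fun v =>
    (hb.fderiv_right (m := 1) (by norm_num)).clm_apply contDiff_const
  have s1 : ∀ v, HasCompactSupport (D v b) := fun v => hc.fderiv_apply ℝ v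
  have i : ∀ v, Integrable fun z => a z * D v (D v b) (x - z) := fun v =>
    int_cn ha ((s1 v).fderiv_apply ℝ v)
      (((c1 v).continuous_fderiv one_ne_zero).clm_apply continuous_const) x
  have h1 : ContDiff ℝ 1 b := hb.of_le (by norm_num)
  rw [lap_eq, D_cn ha hc h1, D_cn ha hc h1, D_cn ha (s1 1) (c1 1), D_cn ha (s1 I) (c1 I), cn, cn, cn,
    cn, ← integral_add (i 1) (i I), ← integral_const_mul]
  refine (integral_sub ((int_cn ha hc hb.continuous x).const_mul m) ((i 1).add (i I))).symm.trans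
    (integral_congr_ae (.of_forall fun z => ?_))
  simp only [lap_eq, Pi.add_apply]
  ring

theorem lap_add {U : Set ℂ} (hU : IsOpen U) (ha : ContDiffOn ℝ 2 a U) (hb : ContDiffOn ℝ 2 b U)
    {x : ℂ} (hx : x ∈ U) : lap (fun y => a y + b y) x = lap a x + lap b x := by
  have e : ∀ (v : ℂ) {a b : ℂ → ℝ}, ContDiffOn ℝ 1 a U → ContDiffOn ℝ 1 b U →
      EqOn (D v fun y => a y + b y) (fun y => D v a y + D v b y) U := fun v a b ha hb y hy => by
    rw [D, fderiv_fun_add ((ha.contDiffAt (hU.mem_nhds hy)).differentiableAt one_ne_zero)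
      ((hb.contDiffAt (hU.mem_nhds hy)).differentiableAt one_ne_zero)]
    rfl
  have e2 : ∀ v, D v (D v fun y => a y + b y) x = D v (D v a) x + D v (D v b) x := fun v => by
    rw [D_congr v hU (e v (ha.of_le (by norm_num)) (hb.of_le (by norm_num))) hx]
    exact e v (cd_D v hU (by norm_num; exact ha)) (cd_D v hU (by norm_num; exact hb)) hx
  simp only [lap_eq, e2]
  ring

/-- A product with a cut-off function. -/
theorem cd_cut {n : WithTop ℕ∞} {χ F : ℂ → ℝ} {O : Set ℂ} (hO : IsOpen O) (hχ : ContDiff ℝ n χ)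
    (hF : ContDiffOn ℝ n F O) (h : ∀ x ∉ O, χ =ᶠ[𝓝 x] 0) : ContDiff ℝ n (χ * F) :=
  contDiff_iff_contDiffAt.2 fun x => by
    by_cases hx : x ∈ O
    · exact hχ.contDiffAt.mul (hF.contDiffAt (hO.mem_nhds hx))
    · exact (contDiffAt_const (c := 0)).congr_of_eventuallyEq ((h x hx).mono fun y hy => by
        simp [hy])

theorem Vp_eq (μ : ℝ) (F : ℂ → ℝ) : Vp μ F = cn (Gr μ) F := by
  funext x
  rw [Vp, cn, ← integral_sub_left_eq_self _ volume x]
  simp

end VP

open LAY VP in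
theorem st_vp (hL : St_LAY) (hG : St_GRN) : St_VP := by
  intro μ F hμ hF ⟨R, hR⟩
  obtain ⟨⟨g1, g2, -, g3, g4, -⟩, -⟩ := hL μ hμ
  refine ⟨cont_L2 g4 hF, fun O hO hc => ?_⟩
  suffices h : ∀ x ∈ O, ContDiffAt ℝ 2 (Vp μ F) x ∧ μ ^ 2 * Vp μ F x - lap (Vp μ F) x = F x from
    ⟨fun x hx => (h x hx).1.contDiffWithinAt, fun x hx => (h x hx).2⟩
  intro x hx
  obtain ⟨ε, ε0, hε⟩ := Metric.nhds_basis_closedBall.mem_iff.1 (hO.mem_nhds hx)
  obtain ⟨δ, rfl⟩ : ∃ δ, ε = 3 * δ := ⟨ε / 3, by ring⟩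
  have d0 : 0 < δ := by linarith
  let χ : ContDiffBump x := ⟨2 * δ, 3 * δ, by linarith, by linarith⟩
  have cf : ContDiff ℝ 2 (⇑χ * F) := cd_cut hO χ.contDiff hc fun y hy =>
    notMem_tsupport_iff_eventuallyEq.1 fun h => hy (hε (χ.tsupport_eq ▸ h))
  have sf : HasCompactSupport (⇑χ * F) := χ.hasCompactSupport.mul_right
  have mf : MemLp (⇑χ * F) 2 := cf.continuous.memLp_of_hasCompactSupport sf
  have mg := hF.sub mf
  have lg := mg.locallyIntegrable one_le_two
  have R0 : 0 < ‖x‖ + δ + |R| := by positivity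
  let b1 : ContDiffBump (0 : ℂ) := ⟨‖x‖ + δ + |R|, ‖x‖ + δ + |R| + 1, R0, lt_add_one _⟩
  let b2 : ContDiffBump (0 : ℂ) := ⟨δ / 2, δ, half_pos d0, half_lt_self d0⟩
  have cH : ContDiff ℝ 2 ((⇑b1 - ⇑b2) * Gr μ) :=
    cd_cut isOpen_compl_singleton (b1.contDiff.sub b2.contDiff) g1.1 fun y hy => by
      obtain rfl : y = 0 := by simpa using hy
      filter_upwards [b1.eventuallyEq_one, b2.eventuallyEq_one] with w h1 h2
      simp [h1, h2]
  have sH : HasCompactSupport ((⇑b1 - ⇑b2) * Gr μ) :=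
    (b1.hasCompactSupport.sub b2.hasCompactSupport).mul_right
  have hA : IsOpen {w : ℂ | δ < ‖w‖ ∧ ‖w‖ < ‖x‖ + δ + |R|} :=
    (isOpen_lt continuous_const continuous_norm).inter (isOpen_lt continuous_norm continuous_const)
  have eH : EqOn ((⇑b1 - ⇑b2) * Gr μ) (Gr μ) {w : ℂ | δ < ‖w‖ ∧ ‖w‖ < ‖x‖ + δ + |R|} := by
    intro w hw
    rw [Pi.mul_apply, Pi.sub_apply, b1.one_of_mem_closedBall (mem_closedBall_zero_iff.2 hw.2.le),
      b2.zero_of_le_dist (by simpa using hw.1.le)]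
    simp
  have mA : ∀ y ∈ ball x δ, ∀ z, (F - ⇑χ * F) z ≠ 0 → δ < ‖y - z‖ ∧ ‖y - z‖ < ‖x‖ + δ + |R| := by
    intro y hy z hz
    rw [mem_ball_iff_norm] at hy
    have a1 : 2 * δ < ‖z - x‖ := not_le.1 fun h => hz (by
      simp [χ.one_of_mem_closedBall (mem_closedBall_iff_norm.2 h)])
    have a2 : ‖z‖ ≤ R := not_lt.1 fun h => hz (by simp [hR z h])
    have a3 := norm_sub_le_norm_sub_add_norm_sub z y x
    have a4 := norm_sub_le y z
    have a5 := norm_le_norm_add_norm_sub' y x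
    rw [norm_sub_rev z y] at a3
    exact ⟨by linarith, by linarith [le_abs_self R]⟩
  have e : EqOn (Vp μ F) (fun y => cn (Gr μ) (⇑χ * F) y + cn (F - ⇑χ * F) ((⇑b1 - ⇑b2) * Gr μ) y)
      (ball x δ) := fun y hy => by
    have : cn (F - ⇑χ * F) ((⇑b1 - ⇑b2) * Gr μ) y = Vp μ (F - ⇑χ * F) y :=
      integral_congr_ae (.of_forall fun z => by
        by_cases hz : (F - ⇑χ * F) z = 0
        · simp only [hz, zero_mul, mul_zero]
        · simp only [eH (mA y hy z hz), mul_comm])
    simp only [this, ← Vp_eq, Vp]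
    rw [← integral_add (int_L2 g4 mf y) (int_L2 g4 mg y)]
    exact integral_congr_ae (.of_forall fun z => by simp only [Pi.sub_apply]; ring)
  have c1 := cd_cn g3.locallyIntegrable sf cf
  have c2 := cd_cn lg sH cH
  have hb := mem_ball_self (x := x) d0
  refine ⟨(c1.add c2).contDiffAt.congr_of_eventuallyEq (e.eventuallyEq_of_mem (ball_mem_nhds x d0)), ?_⟩
  have o1 := op_cn g3.locallyIntegrable sf cf (μ ^ 2) x
  have o2 := op_cn lg sH cH (μ ^ 2) x
  rw [← Vp_eq μ fun z => μ ^ 2 * _ - _, (hG μ hμ).1 _ cf sf, Pi.mul_apply,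
    χ.one_of_mem_closedBall (mem_closedBall_self (by positivity)), one_mul] at o1
  have z2 : cn (F - ⇑χ * F) (fun z => μ ^ 2 * ((⇑b1 - ⇑b2) * Gr μ) z -
      lap ((⇑b1 - ⇑b2) * Gr μ) z) x = 0 := by
    refine integral_eq_zero_of_ae (.of_forall fun z => ?_)
    by_cases hz : (F - ⇑χ * F) z = 0
    · simp only [hz, zero_mul, Pi.zero_apply]
    · have m := mA x hb z hz
      simp only [eH m, lap_congr hA eH m, g1.2 _ (norm_pos_iff.1 (d0.trans m.1)), sub_self, mul_zero,
        Pi.zero_apply]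
  rw [lap_congr isOpen_ball e hb, e hb, lap_add isOpen_univ c1.contDiffOn c2.contDiffOn trivial]
  linarith

end Pool.Agent.Lib.IS2
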