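import Pool.Agent.Lib.ISO.All
import Pool.Agent.Lib.IS2.B_A1
import Pool.Agent.Lib.IS2.B_A2
import Pool.Agent.Lib.IS2.B_A3
import Pool.Agent.Lib.IS2.B_QS
import Pool.Agent.Lib.IS2.B_GC
import Pool.Agent.Lib.IS2.B_CUT
import Pool.Agent.Lib.IS2.B_GH
import Pool.Agent.Lib.IS2.B_HI
import Pool.Agent.Lib.IS2.B_SH
import Pool.Agent.Lib.IS2.B_CR
import Pool.Agent.Lib.IS2.B_G
import Pool.Agent.Lib.IS2.B_J1
import Pool.Agent.Lib.IS2.B_J2
import Pool.Agent.Lib.IS2.B_EN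
import Pool.Agent.Lib.IS2.B_BR
import Pool.Agent.Lib.IS2.B_MB
import Pool.Agent.Lib.IS2.B_F3a
import Pool.Agent.Lib.IS2.B_DEF
import Pool.Agent.Lib.IS2.B_H0
import Pool.Agent.Lib.IS2.B_H1
import Pool.Agent.Lib.IS2.B_H2
import Pool.Agent.Lib.IS2.B_K4Q
import Pool.Agent.Lib.IS2.B_TONE
import Pool.Agent.Lib.IS2.B_JET2
import Pool.Agent.Lib.IS2.B_B34
import Pool.Agent.Lib.IS2.B_S12
import Pool.Agent.Lib.IS2.B_SB
import Pool.Agent.Lib.IS2.B_KB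
import Pool.Agent.Lib.IS2.B_KM
import Pool.Agent.Lib.IS2.B_REP
import Pool.Agent.Lib.IS2.B_HOL
import Pool.Agent.Lib.IS2.B_LHT
import Pool.Agent.Lib.IS2.B_LNK
import Pool.Agent.Lib.IS2.B_EST
import Pool.Agent.Lib.IS2.B_KILL
import Pool.Agent.Lib.IS2.B_TAN
import Pool.Agent.Lib.IS2.B_KR
import Pool.Agent.Lib.IS2.B_KD
import Pool.Agent.Lib.IS2.B_NH
import Pool.Agent.Lib.IS2.B_F0
import Pool.Agent.Lib.IS2.B_F1c
import Pool.Agent.Lib.IS2.B_F1a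
import Pool.Agent.Lib.IS2.B_F1b
import Pool.Agent.Lib.IS2.B_F3
import Pool.Agent.Lib.IS2.B_F2a
import Pool.Agent.Lib.IS2.B_F2
import Pool.Agent.Lib.IS2.B_LAY
import Pool.Agent.Lib.IS2.B_GRN
import Pool.Agent.Lib.IS2.B_VP
import Pool.Agent.Lib.IS2.B_MAX
import Pool.Agent.Lib.IS2.B_JMP
import Pool.Agent.Lib.IS2.B_NEU
import Pool.Agent.Lib.IS2.B_POI
import Pool.Agent.Lib.IS2.B_GRE
import Pool.Agent.Lib.IS2.B_RES
import Pool.Agent.Lib.IS2.B_CH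
import Pool.Agent.Lib.IS2.B_TR1
import Pool.Agent.Lib.IS2.B_TR
import Pool.Agent.Lib.IS2.B_TEQ
import Pool.Agent.Lib.IS2.B_C1
import Pool.Agent.Lib.IS2.B_C2
import Pool.Agent.Lib.IS2.B_DBL
import Pool.Agent.Lib.IS2.B_C3
import Pool.Agent.Lib.IS2.B_C4
import Pool.Agent.Lib.IS2.B_C5
import Pool.Agent.Lib.IS2.B_TAY
import Pool.Agent.Lib.IS2.B_EXP
import Pool.Agent.Lib.IS2.B_SA
import Pool.Agent.Lib.IS2.B_DIV
import Pool.Agent.Lib.IS2.B_B0
import Pool.Agent.Lib.IS2.B_NCE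
import Pool.Agent.Lib.IS2.B_HSQ1
import Pool.Agent.Lib.IS2.B_HSQ
import Pool.Agent.Lib.IS2.B_SCA
import Pool.Agent.Lib.IS2.B_ONE
import Pool.Agent.Lib.IS2.B_T2

/-! All blocks together. -/

namespace Pool.Agent.Lib.IS2.All

theorem a_a1 : St_A1 := st_a1
theorem a_a2 : St_A2 := st_a2
theorem a_a3 : St_A3 := st_a3 a_a1 a_a2
theorem a_qs : St_QS := st_qs
theorem a_gc : St_GC := st_gc
theorem a_cut : St_CUT := st_cut
theorem a_gh : St_GH := st_gh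
theorem a_hi : St_HI := st_hi
theorem a_sh : St_SH := st_sh
theorem a_cr : St_CR := st_cr
theorem a_g : St_G := st_g
theorem a_j1 : St_J1 := st_j1
theorem a_j2 : St_J2 := st_j2
theorem a_en : St_EN := st_en
theorem a_br : St_BR := st_br
theorem a_mb : St_MB := st_mb
theorem a_f3a : St_F3a := st_f3a
theorem a_def : St_DEF := st_def
theorem a_h0 : St_H0 := st_h0
theorem a_h1 : St_H1 := st_h1 a_h0
theorem a_h2 : St_H2 := st_h2 a_h0
theorem a_k4q : St_K4Q := st_k4q ISO.st_mas ISO.st_k8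
theorem a_tone : St_TONE := st_tone ISO.st_fou a_k4q
theorem a_jet2 : St_JET2 := st_jet2
theorem a_b34 : St_B34 := st_b34 a_en
theorem a_s12 : St_S12 := st_s12 a_br
theorem a_sb : St_SB := st_sb a_tone a_b34 a_jet2 a_s12
theorem a_kb : St_KB := st_kb a_a2
theorem a_km : St_KM := st_km a_a1
theorem a_rep : St_REP := st_rep
theorem a_hol : St_HOL := st_hol a_kb a_km a_cr a_hi
theorem a_lht : St_LHT := st_lht a_hol a_sh a_hi
theorem a_lnk : St_LNK := st_lnk a_a1 a_kb a_cr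
theorem a_est : St_EST := st_est a_kb a_km a_cr a_sh
theorem a_kill : St_KILL := st_kill a_cut a_sh a_def a_rep a_hol a_lht a_est
theorem a_tan : St_TAN := st_tan a_rep a_gh a_lht
theorem a_kr : St_KR := st_kr a_a2 a_qs
theorem a_kd : St_KD := st_kd a_a1 a_a2 a_qs
theorem a_nh : St_NH := st_nh a_kr a_kd a_cr a_hi
theorem a_f0 : St_F0 := st_f0 a_kr a_sh
theorem a_f1c : St_F1c := st_f1c a_qs
theorem a_f1a : St_F1a := st_f1a a_a2 a_qs a_sh a_f0 a_mb a_f1c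
theorem a_f1b : St_F1b := st_f1b a_a2 a_qs a_sh a_f0 a_mb a_f1c
theorem a_f3 : St_F3 := st_f3
theorem a_f2a : St_F2a := st_f2a a_kd a_nh a_sh a_f0 a_f1a a_f1b a_f3
theorem a_f2 : St_F2 := st_f2 a_kd a_nh a_sh a_f0 a_mb a_f1a a_f1b a_f3 a_f2a
theorem a_lay : St_LAY := st_lay a_a3 a_gc
theorem a_grn : St_GRN := st_grn a_a3 a_lay
theorem a_vp : St_VP := st_vp a_lay a_grn
theorem a_max : St_MAX := st_max a_gc
theorem a_jmp : St_JMP := st_jmp a_a3 a_qs a_gc a_grn a_vp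
theorem a_neu : St_NEU := st_neu a_a3 a_qs
theorem a_poi : St_POI := st_poi a_a3 a_lay a_max a_jmp a_neu
theorem a_gre : St_GRE := st_gre a_lay a_vp a_max a_poi
theorem a_res : St_RES := st_res a_a3 a_lay a_vp a_max a_poi a_gre
theorem a_ch : St_CH := st_ch a_a3 a_gc a_lnk a_neu
theorem a_tr1 : St_TR1 := st_tr1 a_a3 a_gc a_lay a_grn a_vp a_jmp a_neu
theorem a_tr : St_TR := st_tr a_a3 a_lay a_neu a_poi a_ch a_tr1
theorem a_teq : St_TEQ := st_teq a_lht a_lnk a_sh a_gre a_res a_tr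
theorem a_c1 : St_C1 := st_c1 a_a3 a_gc a_lay a_grn a_vp a_jmp a_poi a_gre
theorem a_c2 : St_C2 := st_c2 a_a1 a_a3 a_gc a_lnk a_kr a_kd a_jmp a_neu
theorem a_dbl : St_DBL := st_dbl a_gc a_lay a_vp a_max a_neu a_poi a_gre a_c1 a_c2
theorem a_c3 : St_C3 := st_c3 a_poi a_gre a_res a_c1 a_dbl
theorem a_c4 : St_C4 := st_c4 a_gc a_max a_poi a_gre a_dbl a_nh
theorem a_c5 : St_C5 := st_c5 a_gh a_hi a_cut a_lht a_lnk a_nh a_poi a_tr a_dbl a_c3 a_c4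
theorem a_tay : St_TAY := st_tay a_gh a_lht a_cut a_kill a_h1 a_tan a_c5 a_nh a_sh
theorem a_exp : St_EXP := st_exp a_sh a_h2 a_tay a_nh a_f2 a_g a_j1 a_j2
theorem a_sa : St_SA := st_sa a_tone a_teq a_exp
theorem a_div : St_DIV := st_div
theorem a_b0 : St_B0 := st_b0 a_div
theorem a_nce : St_NCE := st_nce
theorem a_hsq1 : St_HSQ1 := st_hsq1 a_lay a_vp a_neu a_poi a_gre
theorem a_hsq : St_HSQ := st_hsq a_lay a_gre a_res a_hsq1
theorem a_sca : St_SCA := st_sca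
theorem a_one : St_ONE := st_one ISO.All.a_inv ISO.All.a_tame ISO.st_fou a_nce
theorem a_t2 : St_T2 := st_t2 ISO.st_fou ISO.All.a_baire ISO.All.a_open ISO.All.a_dense
  ISO.st_geo1 ISO.st_cong a_sb a_sa a_b0 a_nce a_hsq a_sca a_one

end Pool.Agent.Lib.IS2.All
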