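import Pool.Agent.Lib.IS2.Blue

/-! Oscillatory integrals along branches of the curvature. -/

open scoped ContDiff ComplexConjugate Topology Real
open Complex MeasureTheory Set Filter

noncomputable section

namespace Pool.Agent.Lib.IS2

open Pool.Agent.Lib.ISO

namespace B34

variable {c1 c2 A B j σ σ0 : ℝ} {f g : ℝ → ℂ} {κ κ0 u v : ℝ → ℝ} {x : ℝ}

/-- bounds for a function and its derivative on an interval -/
def Bd (c1 c2 A : ℝ) (f : ℝ → ℂ) : Prop :=
  ∀ x ∈ Icc c1 c2, DifferentiableAt ℝ f x ∧ ‖f x‖ ≤ A ∧ ‖deriv f x‖ ≤ A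

theorem Bd.const {a : ℝ} (h : a = 1 ∨ a = -1) : Bd c1 c2 1 fun _ => (a : ℂ) := fun x _ =>
  ⟨differentiableAt_const _, by rcases h with rfl | rfl <;> simp, by simp⟩

theorem Bd.mul (hf : Bd c1 c2 A f) (hg : Bd c1 c2 B g) :
    Bd c1 c2 (2 * A * B) fun x => f x * g x := fun x hx => by
  obtain ⟨a1, a2, a3⟩ := hf x hx
  obtain ⟨b1, b2, b3⟩ := hg x hx
  have A0 := (norm_nonneg _).trans a2
  have h1 := mul_le_mul a2 b2 (norm_nonneg _) A0
  refine ⟨a1.mul b1, ?_, ?_⟩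
  · rw [norm_mul]
    linarith [mul_nonneg A0 ((norm_nonneg _).trans b2)]
  · rw [deriv_fun_mul a1 b1]
    refine (norm_add_le _ _).trans ?_
    rw [norm_mul, norm_mul]
    linarith [mul_le_mul a3 b2 (norm_nonneg _) A0, mul_le_mul a2 b3 (norm_nonneg _) A0]

theorem Bd.pow (hf : Bd c1 c2 A f) (n : ℕ) : Bd c1 c2 ((2 * A) ^ n) fun x => f x ^ n := by
  induction n with
  | zero => simpa using Bd.const (c1 := c1) (c2 := c2) (Or.inl rfl)
  | succ n ih =>
    have := ih.mul hf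
    rw [mul_comm 2, mul_assoc, ← pow_succ] at this
    simpa only [pow_succ] using this

theorem Bd.sub (hf : Bd c1 c2 A f) (hg : Bd c1 c2 B g) :
    Bd c1 c2 (A + B) fun x => f x - g x := fun x hx => by
  obtain ⟨a1, a2, a3⟩ := hf x hx
  obtain ⟨b1, b2, b3⟩ := hg x hx
  refine ⟨a1.sub b1, (norm_sub_le _ _).trans (add_le_add a2 b2), ?_⟩
  rw [deriv_fun_sub a1 b1]
  exact (norm_sub_le _ _).trans (add_le_add a3 b3)

theorem Bd.inv (hf : Bd c1 c2 A f) (hj : 1 ≤ j) (h : ∀ x ∈ Icc c1 c2, j⁻¹ ≤ ‖f x‖) :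
    Bd c1 c2 ((A + 1) * j ^ 2) fun x => (f x)⁻¹ := fun x hx => by
  obtain ⟨a1, a2, a3⟩ := hf x hx
  have j0 : 0 < j := one_pos.trans_le hj
  have h0 := (inv_pos.2 j0).trans_le (h x hx)
  have h1 : ‖f x‖⁻¹ ≤ j := inv_le_of_inv_le₀ j0 (h x hx)
  have A0 := (norm_nonneg _).trans a2
  have hd := (a1.hasDerivAt.inv (norm_pos_iff.1 h0))
  refine ⟨hd.differentiableAt, ?_, ?_⟩
  · rw [norm_inv]
    nlinarith [mul_nonneg A0 (sq_nonneg j)]
  · rw [show deriv (fun x => (f x)⁻¹) x = _ from hd.deriv, norm_div, norm_neg, norm_pow,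
      div_eq_mul_inv, ← inv_pow]
    exact mul_le_mul (by linarith) (pow_le_pow_left₀ (by positivity) h1 2) (by positivity)
      (by linarith)

theorem Bd.cont (hf : Bd c1 c2 A f) : ContinuousOn f (Icc c1 c2) := fun x hx =>
  (hf x hx).1.continuousAt.continuousWithinAt

theorem ii (h : c1 ≤ c2) (hf : ContinuousOn f (Icc c1 c2)) : IntervalIntegrable f volume c1 c2 :=
  hf.intervalIntegrable_of_Icc h

/-- one integration by parts -/
theorem ibp {φ ψ : ℝ → ℝ} {o : ℝ} (hc : c1 ≤ c2) (hf : Bd c1 c2 A f) (o0 : 0 < o)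
    (hφ : ∀ x ∈ Icc c1 c2, HasDerivAt φ (ψ x) x) (hψ : ContinuousOn ψ (Icc c1 c2)) :
    ‖∫ x in c1..c2, f x * ψ x * exp (I * o * φ x)‖ ≤ (2 + (c2 - c1)) * A / o := by
  have d : ∀ x ∈ uIcc c1 c2, HasDerivAt (fun x => exp (I * o * φ x))
      (exp (I * o * φ x) * (I * o * ψ x)) x := fun x hx =>
    ((hφ x (uIcc_of_le hc ▸ hx)).ofReal_comp.const_mul _).cexp
  have n1 : ∀ x, ‖exp (I * o * φ x)‖ = 1 := fun x => by
    rw [mul_assoc, ← ofReal_mul, norm_exp_I_mul_ofReal]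
  have c0 : ContinuousOn φ (Icc c1 c2) := fun x hx => (hφ x hx).continuousAt.continuousWithinAt
  have i1 : IntervalIntegrable (deriv f) volume c1 c2 := by
    rw [intervalIntegrable_iff_integrableOn_Icc_of_le hc]
    exact Measure.integrableOn_of_bounded (M := A) measure_Icc_lt_top.ne
      (measurable_deriv f).aestronglyMeasurable
      ((ae_restrict_mem measurableSet_Icc).mono fun x hx => (hf x hx).2.2)
  have e := intervalIntegral.integral_mul_deriv_eq_deriv_mul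
    (fun x hx => (hf x (uIcc_of_le hc ▸ hx)).1.hasDerivAt) d i1 (ii hc (by fun_prop))
  have e2 : ∀ x, f x * (exp (I * o * φ x) * (I * o * ψ x)) =
      I * o * (f x * ψ x * exp (I * o * φ x)) := fun x => by ring
  simp only [e2, intervalIntegral.integral_const_mul] at e
  have e3 := congrArg norm e
  rw [norm_mul, norm_mul, norm_I, one_mul, norm_real, Real.norm_of_nonneg o0.le] at e3
  have b := intervalIntegral.norm_integral_le_of_norm_le_const (a := c1) (b := c2) (C := A)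
    (f := fun x => deriv f x * exp (I * o * φ x)) fun x hx => by
      rw [norm_mul, n1, mul_one]
      exact (hf x (Ioc_subset_Icc_self (uIoc_of_le hc ▸ hx))).2.2
  rw [abs_of_nonneg (sub_nonneg.2 hc)] at b
  rw [le_div_iff₀' o0, e3]
  refine (norm_sub_le _ _).trans ((add_le_add_left (norm_sub_le _ _) _).trans ?_)
  rw [norm_mul, norm_mul, n1, n1]
  linarith [(hf c1 (left_mem_Icc.2 hc)).2.1, (hf c2 (right_mem_Icc.2 hc)).2.1]

/-- one branch on a compact interval -/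
structure B1 (j c1 c2 : ℝ) (κ u : ℝ → ℝ) (σ : ℝ) : Prop where
  j1 : 1 ≤ j
  per : Per (2 * π) κ
  bk : Bk j κ
  lev : ∀ x ∈ Icc c1 c2, κ (u x) = x
  der : ∀ x ∈ Icc c1 c2, HasDerivAt u (deriv κ (u x))⁻¹ x
  ne : ∀ x ∈ Icc c1 c2, deriv κ (u x) ≠ 0
  le : ∀ x ∈ Icc c1 c2, sl κ (u x) ≤ j
  sg : σ = 1 ∨ σ = -1
  ab : ∀ x ∈ Icc c1 c2, |deriv κ (u x)| = σ * deriv κ (u x)

namespace B1

variable (h : B1 j c1 c2 κ u σ)
include h

theorem cont : ContinuousOn u (Icc c1 c2) := fun x hx =>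
  (h.der x hx).continuousAt.continuousWithinAt

theorem s1 : ContDiff ℝ ∞ (deriv κ) := (contDiff_infty_iff_deriv.1 h.per.smooth).2

theorem b1 (t : ℝ) : |deriv κ t| ≤ j := by simpa using h.bk 1 (by norm_num) t

theorem b2 (t : ℝ) : |deriv (deriv κ) t| ≤ j := by
  have := h.bk 2 (by norm_num) t
  rwa [iteratedDeriv_succ, iteratedDeriv_one] at this

theorem len (hc : c1 ≤ c2) : c2 - c1 ≤ 2 * j := by
  have a := h.bk 0 (by norm_num) (u c1)
  have b := h.bk 0 (by norm_num) (u c2)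
  rw [iteratedDeriv_zero, h.lev _ (by simp [hc])] at a b
  linarith [(abs_le.1 a).1, (abs_le.1 b).2]

theorem sl_eq (hx : x ∈ Icc c1 c2) : sl κ (u x) = σ * (deriv κ (u x))⁻¹ := by
  rw [sl, h.ab x hx, mul_inv]
  rcases h.sg with rfl | rfl <;> norm_num

theorem comp {G : ℝ → ℂ} (hG : ∀ t, DifferentiableAt ℝ G t ∧ ‖G t‖ ≤ A ∧ ‖deriv G t‖ ≤ A) :
    Bd c1 c2 (A * j) fun x => G (u x) := fun x hx => by
  obtain ⟨a1, a2, a3⟩ := hG (u x)
  have d := a1.hasDerivAt.scomp x (h.der x hx)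
  have A0 := (norm_nonneg _).trans a2
  refine ⟨d.differentiableAt, a2.trans (le_mul_of_one_le_right A0 h.j1), ?_⟩
  rw [show deriv (fun x => G (u x)) x = _ from d.deriv, norm_smul, norm_inv, mul_comm]
  exact mul_le_mul a3 (h.le x hx) (by positivity) A0

theorem bdd : Bd c1 c2 (j * j) fun x => ((deriv κ (u x) : ℝ) : ℂ) :=
  h.comp (G := fun t => ((deriv κ t : ℝ) : ℂ)) fun t => by
    have d := (h.s1.differentiable (by simp) t).hasDerivAt.ofReal_comp
    exact ⟨d.differentiableAt, by simpa using h.b1 t, by rw [d.deriv]; simpa using h.b2 t⟩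

theorem bdq : Bd c1 c2 ((j * j + 1) * j ^ 2) fun x => ((deriv κ (u x) : ℝ) : ℂ)⁻¹ :=
  h.bdd.inv h.j1 fun x hx => by
    rw [norm_real]
    exact inv_le_of_inv_le₀ (abs_pos.2 (h.ne x hx)) (h.le x hx)

theorem cq : ContinuousOn (fun x => (deriv κ (u x))⁻¹) (Icc c1 c2) :=
  (h.s1.continuous.comp_continuousOn h.cont).inv₀ h.ne

theorem csl : ContinuousOn (fun x => sl κ (u x)) (Icc c1 c2) :=
  (continuousOn_const.mul h.cq).congr fun _ hx => h.sl_eq hx

/-- change of variables -/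
theorem chg {J : ℕ} (hJ : j = J) (hc : c1 ≤ c2) {g : ℝ → ℝ} (g0 : ∀ t, 0 ≤ g t) (gc : Continuous g)
    (gp : Function.Periodic g (2 * π)) :
    ∫ x in c1..c2, g (u x) ≤ j ^ 3 * ∫ t in (0 : ℝ)..(2 * π), g t := by
  have j0 : 0 ≤ j := zero_le_one.trans h.j1
  have p : ∀ a b : ℝ, a ≤ b → b - a ≤ 2 * j ^ 2 →
      |∫ t in a..b, g t| ≤ j ^ 2 * ∫ t in (0 : ℝ)..(2 * π), g t := fun a b hab hl => by
    rw [abs_of_nonneg (intervalIntegral.integral_nonneg hab fun t _ => g0 t)]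
    refine (intervalIntegral.integral_mono_interval (d := a + ((J : ℤ) ^ 2) • (2 * π)) le_rfl hab ?_
      (ae_of_all _ g0) (gc.intervalIntegrable _ _)).trans_eq ?_
    · rw [zsmul_eq_mul]
      push_cast
      rw [← hJ]
      nlinarith [mul_nonneg (sq_nonneg j) (sub_nonneg.2 Real.two_le_pi), sq_nonneg j]
    · rw [gp.intervalIntegral_add_zsmul_eq _ _ gc.intervalIntegrable,
        gp.intervalIntegral_add_eq a 0, zero_add, zsmul_eq_mul, hJ]
      norm_num
  have l : |u c2 - u c1| ≤ 2 * j ^ 2 := by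
    have := norm_image_sub_le_of_norm_deriv_le_segment' (C := j)
      (fun x hx => (h.der x hx).hasDerivWithinAt) (fun x hx => by
        rw [norm_inv]
        exact h.le x (Ico_subset_Icc_self hx)) c2 (right_mem_Icc.2 hc)
    nlinarith [h.len hc, Real.norm_eq_abs (u c2 - u c1)]
  have p2 : |∫ t in u c1..u c2, g t| ≤ j ^ 2 * ∫ t in (0 : ℝ)..(2 * π), g t := by
    rcases le_total (u c1) (u c2) with a | a
    · exact p _ _ a (le_of_abs_le l)
    · rw [intervalIntegral.integral_symm, abs_neg]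
      exact p _ _ a (by linarith [neg_le_of_abs_le l])
  have e := intervalIntegral.integral_comp_mul_deriv (g := g)
    (fun x hx => h.der x (uIcc_of_le hc ▸ hx)) (uIcc_of_le hc ▸ h.cq) gc
  have cg := gc.comp_continuousOn h.cont
  refine (intervalIntegral.integral_mono_on hc (cg.intervalIntegrable_of_Icc hc)
    (((cg.mul h.cq).intervalIntegrable_of_Icc hc).const_mul (j * σ)) fun x hx => ?_).trans ?_
  · have a1 := h.sl_eq hx
    have a2 : 1 ≤ j * sl κ (u x) := by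
      rw [sl, ← div_eq_mul_inv, one_le_div (abs_pos.2 (h.ne x hx))]
      exact h.b1 _
    have a3 := mul_le_mul_of_nonneg_left a2 (g0 (u x))
    rw [a1] at a3
    simp only [Function.comp_apply, Pi.mul_apply]
    linarith
  · rw [intervalIntegral.integral_const_mul]
    simp only [Pi.mul_apply]
    rw [e, mul_assoc, pow_succ' j 2, mul_assoc]
    refine mul_le_mul_of_nonneg_left (le_trans ?_ p2) j0
    rcases h.sg with rfl | rfl
    · simpa using le_abs_self _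
    · simpa using neg_le_abs _

end B1

/-- a phase without resonance -/
theorem osc (n : ℕ) (j : ℝ) : ∃ C, 0 ≤ C ∧ ∀ (c1 c2 σ σ0 ε o : ℝ) (κ κ0 u v : ℝ → ℝ) (G : ℝ → ℂ),
    B1 j c1 c2 κ u σ → B1 j c1 c2 κ0 v σ0 → c1 ≤ c2 → (ε = 1 ∨ ε = -1) → 0 < o →
    (∀ t, DifferentiableAt ℝ G t ∧ ‖G t‖ ≤ 4 ∧ ‖deriv G t‖ ≤ 4) →
    (∀ x ∈ Icc c1 c2, j⁻¹ ≤ |ε * (deriv κ (u x))⁻¹ - (deriv κ0 (v x))⁻¹|) →
    ‖∫ x in c1..c2, ((sl κ (u x) * |deriv κ0 (v x)| : ℝ) : ℂ) ^ n * G (u x) *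
      exp (I * o * (ε * u x - v x : ℝ))‖ ≤ C / o := by
  refine ⟨|(2 + 2 * j) * (2 * (2 * (2 * (2 * (2 * 1 * ((j * j + 1) * j ^ 2)) *
    (2 * 1 * (j * j)))) ^ n * (4 * j)) * ((2 * 1 * ((j * j + 1) * j ^ 2) + (j * j + 1) * j ^ 2 + 1) *
      j ^ 2))|, abs_nonneg _, fun c1 c2 σ σ0 ε o κ κ0 u v G h h0 hc hε o0 hG hn => ?_⟩
  have hb := (((((Bd.const h.sg).mul h.bdq).mul ((Bd.const h0.sg).mul h0.bdd)).pow n).mul
    (h.comp hG)).mul ((((Bd.const hε).mul h.bdq).sub h0.bdq).inv h.j1 fun x hx => by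
      have := hn x hx
      rw [← Real.norm_eq_abs, ← norm_real] at this
      simpa using this)
  have k := ibp hc hb o0 (φ := fun x => ε * u x - v x)
    (fun x hx => ((h.der x hx).const_mul ε).sub (h0.der x hx))
    ((continuousOn_const.mul h.cq).sub h0.cq)
  refine le_trans (le_of_eq ?_) (k.trans (div_le_div_of_nonneg_right (le_trans
    (mul_le_mul_of_nonneg_right (by linarith [h.len hc])
      ((norm_nonneg _).trans (hb c1 (left_mem_Icc.2 hc)).2.1)) (le_abs_self _)) o0.le))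
  refine congrArg norm (intervalIntegral.integral_congr fun x hx => ?_)
  rw [uIcc_of_le hc] at hx
  have a : ((ε * (deriv κ (u x))⁻¹ - (deriv κ0 (v x))⁻¹ : ℝ) : ℂ) ≠ 0 := ofReal_ne_zero.2
    (abs_pos.1 ((inv_pos.2 (one_pos.trans_le h.j1)).trans_le (hn x hx)))
  rw [h.sl_eq hx, h0.ab x hx]
  push_cast at a ⊢
  rw [inv_mul_cancel_right₀ a]

end B34

end Pool.Agent.Lib.IS2
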