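import Pool.Agent.Lib.IS2.Blue

/-! Row C1, tools: the gradient of the fundamental solution and of a single layer. -/

open scoped ContDiff ComplexConjugate Topology Real
open Complex MeasureTheory Set Filter

noncomputable section

namespace Pool.Agent.Lib.IS2.C1

lemma rd_le (u v : ℂ) : |rdot u v| ≤ ‖u‖ * ‖v‖ := by
  simpa [rdot, -mul_re] using abs_re_le_norm (u * conj v)

lemma g_le (hA : St_A3) (hL : St_LAY) {μ : ℝ} (hμ : 0 < μ) {z : ℂ} (hz : z ≠ 0) (w : ℂ) :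
    |fderiv ℝ (Gr μ) z w| ≤ ‖w‖ / ‖z‖ := by
  have hn : 0 < ‖z‖ := norm_pos_iff.2 hz
  obtain ⟨-, -, -, -, -, -, -, h, -⟩ := hA
  obtain ⟨-, -, -, h1, h2⟩ := h _ (mul_pos hμ hn)
  rw [((hL μ hμ).1.2.2.2.2.2.2 z hz).2 w, abs_div, abs_neg, abs_mul, abs_of_pos h1,
    abs_of_pos (by positivity : 0 < 2 * π * ‖z‖ ^ 2), div_le_div_iff₀ (by positivity) hn]
  have h4 := rd_le z w
  have h3 := Real.pi_gt_three
  calc l1 (μ * ‖z‖) * |rdot z w| * ‖z‖ ≤ 1 * (‖z‖ * ‖w‖) * ‖z‖ := by gcongr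
    _ ≤ _ := by nlinarith [mul_nonneg (norm_nonneg w) (sq_nonneg ‖z‖)]

lemma dlk (hL : St_LAY) {μ : ℝ} (hμ : 0 < μ) (γ : ℝ → ℂ) {x : ℂ} {v : ℝ} (h : x - γ v ≠ 0) :
    DLk μ γ x v = -fderiv ℝ (Gr μ) (x - γ v) (nr γ v) := by
  rw [((hL μ hμ).1.2.2.2.2.2.2 _ h).2, DLk, norm_sub_rev (γ v) x]
  have : rdot (-nr γ v) (γ v - x) = rdot (x - γ v) (nr γ v) := by
    simp [rdot]; ring
  rw [this]; ring

lemma g_cont (hL : St_LAY) {μ : ℝ} (hμ : 0 < μ) : ContinuousOn (fderiv ℝ (Gr μ)) {0}ᶜ :=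
  (hL μ hμ).1.2.1.continuousOn_fderiv_of_isOpen isOpen_compl_singleton (by simp)

lemma g_cv (hL : St_LAY) {μ : ℝ} (hμ : 0 < μ) {γ w : ℝ → ℂ} (hγ : Continuous γ)
    (hw : Continuous w) {x : ℂ} (h : ∀ v, x - γ v ≠ 0) :
    Continuous fun v => fderiv ℝ (Gr μ) (x - γ v) (w v) :=
  ((g_cont hL hμ).comp_continuous (continuous_const.sub hγ) h).clm_apply hw

lemma g_uc (hL : St_LAY) {μ : ℝ} (hμ : 0 < μ) {a t : ℝ} (R : ℝ) (ha : 0 < a) (ht : 0 < t) :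
    ∃ d > 0, ∀ z z' w : ℂ, a ≤ ‖z‖ → ‖z‖ ≤ R → a ≤ ‖z'‖ → ‖z'‖ ≤ R → ‖z - z'‖ < d →
      |fderiv ℝ (Gr μ) z w - fderiv ℝ (Gr μ) z' w| ≤ t * ‖w‖ := by
  have hK : IsCompact (Metric.closedBall (0 : ℂ) R ∩ {z | a ≤ ‖z‖}) :=
    (isCompact_closedBall _ _).inter_right (isClosed_le continuous_const continuous_norm)
  have hc := hK.uniformContinuousOn_of_continuous ((g_cont hL hμ).mono fun z hz h0 => by
    have h1 : a ≤ ‖z‖ := hz.2
    rw [mem_singleton_iff.1 h0, norm_zero] at h1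
    linarith)
  obtain ⟨d, hd, h⟩ := Metric.uniformContinuousOn_iff.1 hc t ht
  refine ⟨d, hd, fun z z' w h1 h2 h3 h4 h5 => ?_⟩
  have h6 := h z ⟨by simpa using h2, h1⟩ z' ⟨by simpa using h4, h3⟩ (by rwa [dist_eq_norm])
  rw [dist_eq_norm] at h6
  have h7 := (fderiv ℝ (Gr μ) z - fderiv ℝ (Gr μ) z').le_opNorm w
  rw [sub_apply, Real.norm_eq_abs] at h7
  exact h7.trans (by gcongr)

lemma hd_G (hL : St_LAY) {μ : ℝ} (hμ : 0 < μ) (p n q : ℂ) {ρ : ℝ} (h : p + ρ * n - q ≠ 0) :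
    HasDerivAt (fun ρ : ℝ => Gr μ (p + ρ * n - q)) (fderiv ℝ (Gr μ) (p + ρ * n - q) n) ρ := by
  have h1 : DifferentiableAt ℝ (Gr μ) (p + ρ * n - q) :=
    ((hL μ hμ).1.2.1.contDiffAt (isOpen_compl_singleton.mem_nhds h)).differentiableAt (by simp)
  have h2 : HasDerivAt (fun ρ : ℝ => p + ρ * n - q) n ρ := by
    simpa using (((ofRealCLM.hasDerivAt (x := ρ)).mul_const n).const_add p).sub_const q
  exact h1.hasFDerivAt.comp_hasDerivAt ρ h2

lemma hd_SL (hA : St_A3) (hL : St_LAY) {μ : ℝ} (hμ : 0 < μ) {γ : ℝ → ℂ} (hγ : Continuous γ)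
    {φ : ℝ → ℝ} (hφ : Continuous φ) (p n : ℂ) (hn : ‖n‖ = 1) {ρ0 a : ℝ} (ha : 0 < a)
    (h : ∀ v, 2 * a ≤ ‖p + ρ0 * n - γ v‖) :
    HasDerivAt (fun ρ : ℝ => SLo μ γ φ (p + ρ * n))
      (∫ v in (0 : ℝ)..(2 * π), fderiv ℝ (Gr μ) (p + ρ0 * n - γ v) n * φ v) ρ0 := by
  have h1 : ∀ ρ ∈ Metric.ball ρ0 a, ∀ v, a ≤ ‖p + ρ * n - γ v‖ := fun ρ hρ v => by
    have e : p + ρ0 * n - γ v = (p + ρ * n - γ v) + ((ρ0 - ρ : ℝ) : ℂ) * n := by push_cast; ring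
    have h2 := h v
    have h3 := norm_add_le (p + ρ * n - γ v) (((ρ0 - ρ : ℝ) : ℂ) * n)
    rw [← e, norm_mul, hn, norm_real, Real.norm_eq_abs, abs_sub_comm] at h3
    have h4 : |ρ - ρ0| < a := by simpa [Real.dist_eq] using hρ
    linarith
  have h2 : ∀ ρ ∈ Metric.ball ρ0 a, ∀ v, p + ρ * n - γ v ≠ 0 := fun ρ hρ v =>
    norm_pos_iff.1 (ha.trans_le (h1 ρ hρ v))
  have h3 : ∀ ρ ∈ Metric.ball ρ0 a, Continuous fun v => Gr μ (p + ρ * n - γ v) * φ v :=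
    fun ρ hρ => ((hL μ hμ).1.2.1.continuousOn.comp_continuous (continuous_const.sub hγ)
      (h2 ρ hρ)).mul hφ
  have h0 := Metric.mem_ball_self (x := ρ0) ha
  refine (intervalIntegral.hasDerivAt_integral_of_dominated_loc_of_deriv_le
    (F := fun (ρ : ℝ) v => Gr μ (p + ρ * n - γ v) * φ v)
    (F' := fun (ρ : ℝ) v => fderiv ℝ (Gr μ) (p + ρ * n - γ v) n * φ v)
    (bound := fun v => 1 / a * |φ v|) (Metric.ball_mem_nhds ρ0 ha) ?_
    ((h3 ρ0 h0).intervalIntegrable _ _)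
    ((g_cv hL hμ hγ continuous_const (h2 ρ0 h0)).mul hφ).aestronglyMeasurable
    (Eventually.of_forall fun v _ ρ hρ => ?_)
    ((continuous_const.mul hφ.abs).intervalIntegrable _ _)
    (Eventually.of_forall fun v _ ρ hρ => (hd_G hL hμ p n (γ v) (h2 ρ hρ v)).mul_const _)).2
  · filter_upwards [Metric.ball_mem_nhds ρ0 ha] with ρ hρ using (h3 ρ hρ).aestronglyMeasurable
  · rw [Real.norm_eq_abs, abs_mul]
    refine mul_le_mul_of_nonneg_right ((g_le hA hL hμ (h2 ρ hρ v) n).trans ?_) (abs_nonneg _)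
    rw [hn]
    exact one_div_le_one_div_of_le ha (h1 ρ hρ v)

lemma split {e : ℝ → ℝ} (hc : Continuous e) (hp : Function.Periodic e (2 * π)) (s : ℝ)
    {A w ε : ℝ} (h0 : 0 < ε) (h1 : ε ≤ 1) (hw : 0 ≤ w) (hA : ∀ v, |e v| ≤ A)
    (hf : ∀ v, ε ≤ dc s v → |e v| ≤ w) :
    |∫ v in (0 : ℝ)..(2 * π), e v| ≤ 2 * ε * A + 2 * π * w := by
  have hp3 := Real.pi_gt_three
  have e1 := hp.intervalIntegral_add_eq 0 (s - π)
  rw [zero_add, show s - π + 2 * π = s + π by ring] at e1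
  rw [e1, ← intervalIntegral.integral_add_adjacent_intervals (b := s - ε)
    (hc.intervalIntegrable _ _) (hc.intervalIntegrable _ _),
    ← intervalIntegral.integral_add_adjacent_intervals (a := s - ε) (b := s + ε)
    (hc.intervalIntegrable _ _) (hc.intervalIntegrable _ _)]
  have a1 := intervalIntegral.norm_integral_le_of_norm_le_const (a := s - π) (b := s - ε)
    (f := e) (C := w) fun v hv => by
      rw [uIoc_of_le (by linarith)] at hv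
      refine hf v ?_
      rw [dc_eq_abs (abs_le.2 ⟨by linarith [hv.2], by linarith [hv.1]⟩)]
      exact le_trans (by linarith [hv.2]) (le_abs_self _)
  have a2 := intervalIntegral.norm_integral_le_of_norm_le_const (a := s - ε) (b := s + ε)
    (f := e) (C := A) fun v _ => hA v
  have a3 := intervalIntegral.norm_integral_le_of_norm_le_const (a := s + ε) (b := s + π)
    (f := e) (C := w) fun v hv => by
      rw [uIoc_of_le (by linarith)] at hv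
      refine hf v ?_
      rw [dc_eq_abs (abs_le.2 ⟨by linarith [hv.2], by linarith [hv.1]⟩)]
      exact le_trans (by linarith [hv.1]) (neg_le_abs _)
  rw [Real.norm_eq_abs, show s - ε - (s - π) = π - ε by ring, abs_of_pos (a := π - ε) (by linarith)] at a1
  rw [Real.norm_eq_abs, show s + ε - (s - ε) = 2 * ε by ring, abs_of_pos (a := 2 * ε) (by linarith)] at a2
  rw [Real.norm_eq_abs, show s + π - (s + ε) = π - ε by ring, abs_of_pos (a := π - ε) (by linarith)] at a3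
  refine (abs_add_le _ _).trans ((add_le_add le_rfl (abs_add_le _ _)).trans ?_)
  nlinarith [mul_nonneg hw h0.le]

lemma ps_uc (hP : St_POI) {μ j : ℝ} {γ : ℝ → ℂ} {Ω : Set ℂ} (h : Pot μ γ Ω) (hN : Nc j γ)
    {δ t : ℝ} (hδ : 0 < δ) (ht : 0 < t) : ∃ ε > 0, ∀ y ∈ Ω, ∀ s v, δ ≤ ‖y - γ s‖ → dc s v < ε →
      |ps μ γ y v - ps μ γ y s| ≤ t := by
  obtain ⟨-, -, -, -, -, -, -, hc, hx⟩ := hP μ γ Ω h
  have hγ := hN.smooth.continuous
  have hK : IsCompact ((closure Ω ×ˢ Icc (-1 : ℝ) (2 * π + 1)) ∩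
      {p : ℂ × ℝ | δ / 2 ≤ ‖p.1 - γ p.2‖}) :=
    (h.cd.bdd.isCompact_closure.prod isCompact_Icc).inter_right
      (isClosed_le continuous_const (continuous_fst.sub (hγ.comp continuous_snd)).norm)
  have hu := hK.uniformContinuousOn_of_continuous (hc.mono fun p hp => ⟨hp.1.1, fun h0 => by
    have h1 : δ / 2 ≤ ‖p.1 - γ p.2‖ := hp.2
    rw [h0, sub_self, norm_zero] at h1
    linarith⟩)
  obtain ⟨d, hd, hd'⟩ := Metric.uniformContinuousOn_iff.1 hu t ht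
  refine ⟨min d (min 1 (δ / 2)), by positivity, fun y hy s v h1 h2 => ?_⟩
  obtain ⟨⟨-, hp⟩, -, -, he⟩ := hx y hy
  obtain ⟨s0, hs0, k0, rfl⟩ : ∃ s0 ∈ Ico 0 (2 * π), ∃ k0 : ℤ, s = s0 + k0 * (2 * π) :=
    ⟨_, toIcoMod_mem_Ico' Real.two_pi_pos s, toIcoDiv Real.two_pi_pos 0 s, by
      rw [← zsmul_eq_mul, toIcoMod_add_toIcoDiv_zsmul]⟩
  rw [dc_add_left] at h2
  rw [hN.per.int_mul k0 s0] at h1
  obtain ⟨k, hk⟩ := exists_dc s0 v
  rw [← hk] at h2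
  rw [hp.int_mul k0 s0, ← hp.int_mul k v, he, he]
  set v0 := v + k * (2 * π)
  have b1 := abs_lt.1 (h2.trans_le ((min_le_right _ _).trans (min_le_left _ _)))
  have b2 := h2.trans_le ((min_le_right _ _).trans (min_le_right _ _))
  have b3 : ‖γ s0 - γ v0‖ ≤ |s0 - v0| := hN.c0_le_abs s0 v0
  have b4 := norm_sub_le_norm_sub_add_norm_sub y (γ v0) (γ s0)
  rw [norm_sub_rev (γ v0)] at b4
  have := hd' (y, v0) ⟨⟨subset_closure hy, by linarith [hs0.1, b1.2], by linarith [hs0.2, b1.1]⟩,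
    show δ / 2 ≤ ‖y - γ v0‖ by linarith⟩ (y, s0)
    ⟨⟨subset_closure hy, by linarith [hs0.1], by linarith [hs0.2]⟩,
    show δ / 2 ≤ ‖y - γ s0‖ by linarith⟩ (by
      rw [Prod.dist_eq, dist_self, Real.dist_eq, abs_sub_comm, max_eq_right (abs_nonneg _)]
      exact h2.trans_le (min_le_left _ _))
  exact this.le

end Pool.Agent.Lib.IS2.C1
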