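import Pool.Agent.Lib.IS2.Blue

/-! Row C2, part a: calculus kit (mean value bounds, parametric integrals, kernels). -/

open scoped ContDiff ComplexConjugate Topology Real
open Complex MeasureTheory Set Filter

noncomputable section

namespace Pool.Agent.Lib.IS2.C2r

open Pool.Agent.Lib.ISO

lemma rdot_eq (u v : ℂ) : rdot u v = u.re * v.re + u.im * v.im := by simp [rdot]
lemma abs_rdot (u v : ℂ) : |rdot u v| ≤ ‖u‖ * ‖v‖ :=
  (abs_re_le_norm _).trans_eq (by rw [norm_mul, norm_conj])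
lemma cont_rdot : Continuous fun p : ℂ × ℂ => rdot p.1 p.2 := by
  simp only [rdot_eq]; fun_prop
lemma nsq (z : ℂ) : ‖z‖ ^ 2 = z.re * z.re + z.im * z.im := by
  rw [← normSq_eq_norm_sq, normSq_apply]

lemma hd_rdot {z : ℝ → ℂ} {w : ℂ} {r : ℝ} (h : HasDerivAt z w r) (b : ℂ) :
    HasDerivAt (fun r => rdot b (z r)) (rdot w b) r := by
  have h1 := reCLM.hasFDerivAt.comp_hasDerivAt r h
  have h2 := imCLM.hasFDerivAt.comp_hasDerivAt r h
  simp only [rdot_eq]
  refine ((h1.const_mul b.re).add (h2.const_mul b.im)).congr_deriv ?_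
  simp only [reCLM_apply, imCLM_apply]; ring

lemma hd_nsq {z : ℝ → ℂ} {w : ℂ} {r : ℝ} (h : HasDerivAt z w r) :
    HasDerivAt (fun r => ‖z r‖ ^ 2) (2 * rdot w (z r)) r := by
  have h1 := reCLM.hasFDerivAt.comp_hasDerivAt r h
  have h2 := imCLM.hasFDerivAt.comp_hasDerivAt r h
  simp only [nsq, rdot_eq]
  refine ((h1.mul h1).add (h2.mul h2)).congr_deriv ?_
  simp only [reCLM_apply, imCLM_apply, Function.comp]; ring

lemma hd_norm {z : ℝ → ℂ} {w : ℂ} {r : ℝ} (h : HasDerivAt z w r) (h0 : z r ≠ 0) :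
    HasDerivAt (fun r => ‖z r‖) (rdot w (z r) / ‖z r‖) r := by
  have hn : 0 < ‖z r‖ := norm_pos_iff.2 h0
  have := (hd_nsq h).sqrt (by positivity)
  simp only [Real.sqrt_sq (norm_nonneg _)] at this
  refine this.congr_deriv ?_
  field_simp

/-- minus the gradient of the fundamental solution -/
def P (μ : ℝ) (b z : ℂ) : ℝ := l1 (μ * ‖z‖) * rdot b z / (2 * π * ‖z‖ ^ 2)
/-- minus the Hessian of the fundamental solution -/
def H (μ : ℝ) (z w b : ℂ) : ℝ :=
  (-((μ ^ 2 * k0 (μ * ‖z‖) + 2 * l1 (μ * ‖z‖) / ‖z‖ ^ 2) * (rdot w z * rdot b z)) +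
    l1 (μ * ‖z‖) * rdot w b) / (2 * π * ‖z‖ ^ 2)

section
variable (h3 : St_A3) {μ : ℝ} (hμ : 0 < μ)
include h3 hμ

lemma hdG {z : ℝ → ℂ} {w : ℂ} {r : ℝ} (h : HasDerivAt z w r) (h0 : z r ≠ 0) :
    HasDerivAt (fun r => Gr μ (z r)) (-P μ w (z r)) r := by
  have hn : 0 < ‖z r‖ := norm_pos_iff.2 h0
  have hk := (h3.2.2.2.2.2.2.2.1 (μ * ‖z r‖) (by positivity)).1
  refine ((hk.comp r ((hd_norm h h0).const_mul μ)).div_const (2 * π)).congr_deriv ?_
  rw [P]; field_simp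

lemma hdP {z : ℝ → ℂ} {w : ℂ} {r : ℝ} (h : HasDerivAt z w r) (h0 : z r ≠ 0) (b : ℂ) :
    HasDerivAt (fun r => P μ b (z r)) (H μ (z r) w b) r := by
  have hn : 0 < ‖z r‖ := norm_pos_iff.2 h0
  have hl := (h3.2.2.2.2.2.2.2.1 (μ * ‖z r‖) (by positivity)).2.1
  refine (((hl.comp r ((hd_norm h h0).const_mul μ)).mul (hd_rdot h b)).div
    ((hd_nsq h).const_mul (2 * π)) (by positivity)).congr_deriv ?_
  simp only [H, Function.comp, Pi.mul_apply]; field_simp; ring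

lemma ca_k {z : ℂ} (h0 : z ≠ 0) : ContinuousAt (fun z : ℂ => k0 (μ * ‖z‖)) z :=
  ContinuousAt.comp (f := fun z : ℂ => μ * ‖z‖) (h3.2.2.2.2.2.2.2.1 (μ * ‖z‖)
    (mul_pos hμ (norm_pos_iff.2 h0))).1.continuousAt (by fun_prop)
lemma ca_l {z : ℂ} (h0 : z ≠ 0) : ContinuousAt (fun z : ℂ => l1 (μ * ‖z‖)) z :=
  ContinuousAt.comp (f := fun z : ℂ => μ * ‖z‖) (h3.2.2.2.2.2.2.2.1 (μ * ‖z‖)
    (mul_pos hμ (norm_pos_iff.2 h0))).2.1.continuousAt (by fun_prop)

variable {X : Type} [TopologicalSpace X] {z w b : X → ℂ} {x : X}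

lemma caG (hz : ContinuousAt z x) (h0 : z x ≠ 0) : ContinuousAt (fun x => Gr μ (z x)) x :=
  ((ca_k h3 hμ h0).comp hz).div_const _

lemma caP (hz : ContinuousAt z x) (hb : ContinuousAt b x) (h0 : z x ≠ 0) :
    ContinuousAt (fun x => P μ (b x) (z x)) x := by
  have hn : 0 < ‖z x‖ := norm_pos_iff.2 h0
  exact (((ca_l h3 hμ h0).comp hz).mul (cont_rdot.continuousAt.comp (hb.prodMk hz))).div
    (by fun_prop) (by positivity)

lemma caH (hz : ContinuousAt z x) (hw : ContinuousAt w x) (hb : ContinuousAt b x) (h0 : z x ≠ 0) :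
    ContinuousAt (fun x => H μ (z x) (w x) (b x)) x := by
  have hn : 0 < ‖z x‖ := norm_pos_iff.2 h0
  have k := (ca_k h3 hμ h0).comp hz
  have l := (ca_l h3 hμ h0).comp hz
  exact ((((k.const_mul _).add ((l.const_mul 2).div (hz.norm.pow 2) (pow_pos hn 2).ne')).mul
    ((cont_rdot.continuousAt.comp (hw.prodMk hz)).mul
      (cont_rdot.continuousAt.comp (hb.prodMk hz)))).neg.add
    (l.mul (cont_rdot.continuousAt.comp (hw.prodMk hb)))).div (by fun_prop) (by positivity)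

lemma absP (b : ℂ) {z : ℂ} (h0 : z ≠ 0) : |P μ b z| ≤ ‖b‖ / ‖z‖ := by
  have hn : 0 < ‖z‖ := norm_pos_iff.2 h0
  obtain ⟨-, -, -, l0, l1'⟩ := h3.2.2.2.2.2.2.2.1 (μ * ‖z‖) (by positivity)
  rw [P, abs_div, abs_mul, abs_of_pos l0, abs_of_pos (by positivity : 0 < 2 * π * ‖z‖ ^ 2),
    div_le_div_iff₀ (by positivity) hn]
  have a := abs_rdot b z
  have c : l1 (μ * ‖z‖) * |rdot b z| ≤ ‖b‖ * ‖z‖ := by nlinarith [abs_nonneg (rdot b z)]
  nlinarith [Real.pi_gt_three, mul_le_mul_of_nonneg_right c hn.le,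
    mul_nonneg (norm_nonneg b) (sq_nonneg ‖z‖)]

lemma absH : ∃ C, 0 ≤ C ∧ ∀ z w b : ℂ, z ≠ 0 → |H μ z w b| ≤ C * (‖w‖ * ‖b‖) / ‖z‖ ^ 2 := by
  obtain ⟨C, g, hC⟩ := h3.2.2.2.2.2.2.2.2
  refine ⟨2 * |C| + 3, by positivity, fun z w b h0 => ?_⟩
  have hn : 0 < ‖z‖ := norm_pos_iff.2 h0
  set x := μ * ‖z‖ with hx
  have x0 : 0 < x := by positivity
  obtain ⟨-, -, k0', l0, l1'⟩ := h3.2.2.2.2.2.2.2.1 x x0
  have hk : x ^ 2 * k0 x ≤ 2 * |C| := by
    have a : x ^ 2 * x ^ (-(1 / 4) : ℝ) ≤ 1 + x ^ 2 := by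
      rcases le_total x 1 with h | h
      · have : x ^ 2 * x ^ (-(1 / 4) : ℝ) = x ^ (7 / 4 : ℝ) := by
          rw [← Real.rpow_natCast, ← Real.rpow_add x0]; norm_num
        nlinarith [Real.rpow_le_one x0.le h (by norm_num : (0 : ℝ) ≤ 7 / 4)]
      · nlinarith [Real.rpow_le_one_of_one_le_of_nonpos h (by norm_num : (-(1 / 4) : ℝ) ≤ 0)]
    have e : (1 + x ^ 2) * Real.exp (-x) ≤ 2 := by
      rw [Real.exp_neg, ← div_eq_mul_inv, div_le_iff₀ (Real.exp_pos _)]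
      nlinarith [Real.quadratic_le_exp_of_nonneg x0.le]
    calc x ^ 2 * k0 x ≤ x ^ 2 * (|C| * x ^ (-(1 / 4) : ℝ) * Real.exp (-x)) := by
          gcongr; exact (hC x x0).1.trans (by gcongr; exact le_abs_self _)
      _ = |C| * (x ^ 2 * x ^ (-(1 / 4) : ℝ) * Real.exp (-x)) := by ring
      _ ≤ |C| * ((1 + x ^ 2) * Real.exp (-x)) := by gcongr
      _ ≤ 2 * |C| := by nlinarith [abs_nonneg C]
  have e1 : μ ^ 2 * k0 x + 2 * l1 x / ‖z‖ ^ 2 = (x ^ 2 * k0 x + 2 * l1 x) / ‖z‖ ^ 2 := by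
    rw [hx]; field_simp
  have b1 : |(μ ^ 2 * k0 x + 2 * l1 x / ‖z‖ ^ 2) * (rdot w z * rdot b z)| ≤
      (2 * |C| + 2) * (‖w‖ * ‖b‖) := by
    rw [abs_mul, abs_mul, e1, abs_of_pos (by positivity)]
    calc _ ≤ (2 * |C| + 2) / ‖z‖ ^ 2 * (‖w‖ * ‖z‖ * (‖b‖ * ‖z‖)) := by
          gcongr
          · linarith
          · exact abs_rdot _ _
          · exact abs_rdot _ _
      _ = _ := by field_simp
  have b2 : |l1 x * rdot w b| ≤ ‖w‖ * ‖b‖ := by
    rw [abs_mul, abs_of_pos l0]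
    nlinarith [abs_rdot w b, abs_nonneg (rdot w b)]
  rw [H, abs_div, abs_of_pos (by positivity : 0 < 2 * π * ‖z‖ ^ 2)]
  refine div_le_div₀ (by positivity) ((abs_add_le _ _).trans ?_) (by positivity) ?_
  · rw [abs_neg]; linarith
  · nlinarith [Real.pi_gt_three, sq_nonneg ‖z‖]

end

/-- the trace identity for the Hessian -/
lemma trH (μ : ℝ) {z : ℂ} (h0 : z ≠ 0) (a b : ℂ) :
    H μ z (I * a) (I * b) - H μ z (-b) a = -(μ ^ 2 * Gr μ z * rdot (I * a) (I * b)) := by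
  have hn : ‖z‖ ^ 2 ≠ 0 := by positivity
  have e : rdot (I * a) z * rdot (I * b) z + rdot b z * rdot a z = ‖z‖ ^ 2 * rdot (I * a) (I * b) := by
    simp only [rdot_eq, nsq, mul_re, mul_im, I_re, I_im]; ring
  have e2 : rdot (-b) a = -rdot (I * a) (I * b) := by
    simp only [rdot_eq, mul_re, mul_im, I_re, I_im, neg_re, neg_im]; ring
  have e3 : rdot (-b) z = -rdot b z := by simp only [rdot_eq, neg_re, neg_im]; ring
  have e4 : rdot (I * a) z * rdot (I * b) z = ‖z‖ ^ 2 * rdot (I * a) (I * b) - rdot b z * rdot a z := by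
    linarith
  rw [H, H, Gr, e2, e3, e4]
  field_simp
  ring

/-- a derivative of size `1 / (d + x)` -/
lemma quarter {f f' : ℝ → ℝ} {d r C : ℝ} (hd : 0 < d) (hr : 0 ≤ r) (hC : 0 ≤ C)
    (hf : ∀ x ∈ Icc 0 r, HasDerivAt f (f' x) x) (hb : ∀ x ∈ Icc 0 r, |f' x| ≤ C / (d + x)) :
    |f r - f 0| ≤ 4 * C * r ^ (1 / 4 : ℝ) * d ^ (-(1 / 4) : ℝ) := by
  have dp := Real.rpow_pos_of_pos hd (-(1 / 4) : ℝ)
  have hB : ∀ x ∈ Icc 0 r, HasDerivAt (fun x => 4 * C * ((d + x) ^ (1 / 4 : ℝ) - d ^ (1 / 4 : ℝ)) *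
      d ^ (-(1 / 4) : ℝ)) (C * (d + x) ^ (1 / 4 - 1 : ℝ) * d ^ (-(1 / 4) : ℝ)) x := fun x hx => by
    refine ((((((hasDerivAt_id x).const_add d).rpow_const (p := 1 / 4)
      (Or.inl (by have := hx.1; simp only [id]; positivity))).sub_const _).const_mul
      (4 * C)).mul_const _).congr_deriv ?_
    simp only [id]; ring
  have := image_norm_le_of_norm_deriv_right_le_deriv_boundary' (f := fun x => f x - f 0) (f' := f')
    (a := 0) (b := r) (fun x hx => ((hf x hx).sub_const _).continuousAt.continuousWithinAt)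
    (fun x hx => ((hf x (Ico_subset_Icc_self hx)).sub_const _).hasDerivWithinAt)
    (B := fun x => 4 * C * ((d + x) ^ (1 / 4 : ℝ) - d ^ (1 / 4 : ℝ)) * d ^ (-(1 / 4) : ℝ))
    (by simp) (fun x hx => (hB x hx).continuousAt.continuousWithinAt)
    (fun x hx => (hB x (Ico_subset_Icc_self hx)).hasDerivWithinAt)
    (fun x hx => (hb x (Ico_subset_Icc_self hx)).trans (by
      have x0 := hx.1
      have dx : 0 < d + x := by positivity
      have a : (d + x) ^ (-(1 / 4) : ℝ) ≤ d ^ (-(1 / 4) : ℝ) :=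
        Real.rpow_le_rpow_of_nonpos hd (by linarith) (by norm_num)
      calc C / (d + x) = C * (d + x) ^ (1 / 4 - 1 : ℝ) * (d + x) ^ (-(1 / 4) : ℝ) := by
            rw [mul_assoc, ← Real.rpow_add dx, show (1 / 4 - 1 + -(1 / 4) : ℝ) = -1 by norm_num,
              Real.rpow_neg_one, div_eq_mul_inv]
        _ ≤ _ := by gcongr)) (right_mem_Icc.2 hr)
  refine this.trans ?_
  have a := Real.rpow_add_le_add_rpow hd.le hr (by norm_num : (0 : ℝ) ≤ 1 / 4) (by norm_num)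
  gcongr
  linarith

/-- one sided mean value bound -/
lemma mv {f f' : ℝ → ℂ} {r η : ℝ} {a L : ℂ} (hr : 0 < r)
    (hd : ∀ x ∈ Ioc 0 r, HasDerivAt f (f' x) x) (hb : ∀ x ∈ Ioc 0 r, ‖f' x - L‖ ≤ η)
    (hl : Tendsto f (𝓝[>] 0) (𝓝 a)) : ‖(f r - a) / r - L‖ ≤ η := by
  have η0 : 0 ≤ η := (norm_nonneg _).trans (hb r ⟨hr, le_rfl⟩)
  have h1 : ∀ᶠ y in 𝓝[>] (0 : ℝ), ‖(f r - r * L) - (f y - y * L)‖ ≤ η * r := by
    filter_upwards [Ioc_mem_nhdsGT hr] with y hy
    have := norm_image_sub_le_of_norm_deriv_le_segment' (f := fun x : ℝ => f x - x * L)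
      (f' := fun x => f' x - L) (a := y) (b := r) (C := η) (fun x hx => by
        have := (hd x ⟨hy.1.trans_le hx.1, hx.2⟩).sub ((hasDerivAt_id x).ofReal_comp.mul_const L)
        simp only [id, ofReal_one, one_mul] at this
        exact this.hasDerivWithinAt)
      (fun x hx => hb x ⟨hy.1.trans_le hx.1, hx.2.le⟩) r ⟨hy.2, le_rfl⟩
    nlinarith [hy.1]
  have h2 : Tendsto (fun y : ℝ => ‖(f r - r * L) - (f y - y * L)‖) (𝓝[>] 0)
      (𝓝 ‖(f r - r * L) - (a - (0 : ℝ) * L)‖) :=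
    (tendsto_const_nhds.sub (hl.sub (((continuous_ofReal.mul continuous_const).tendsto 0).mono_left
      nhdsWithin_le_nhds))).norm
  have h3 := le_of_tendsto h2 h1
  have r0 : (r : ℂ) ≠ 0 := ofReal_ne_zero.2 hr.ne'
  rw [show (f r - a) / r - L = ((f r - r * L) - (a - (0 : ℝ) * L)) / r by
    simp only [ofReal_zero]; field_simp; ring, norm_div, norm_real, Real.norm_eq_abs, abs_of_pos hr, div_le_iff₀ hr]
  exact h3

/-- derivative of a parametric integral -/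
lemma hd_int {F F' : ℝ → ℝ → ℂ} {U : Set ℝ} (hU : IsOpen U) (hF : ∀ r ∈ U, Continuous (F r))
    (hF' : ContinuousOn (Function.uncurry F') (U ×ˢ univ))
    (hd : ∀ r ∈ U, ∀ v, HasDerivAt (fun r => F r v) (F' r v) r) (a b : ℝ) {r : ℝ} (hr : r ∈ U) :
    HasDerivAt (fun r => ∫ v in a..b, F r v) (∫ v in a..b, F' r v) r := by
  obtain ⟨ε, ε0, hε⟩ := Metric.nhds_basis_closedBall.mem_iff.1 (hU.mem_nhds hr)
  obtain ⟨B, hB⟩ := ((isCompact_closedBall r ε).prod (isCompact_uIcc (a := a) (b := b))).exists_bound_of_continuousOn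
    (hF'.mono (prod_mono hε (subset_univ _)))
  refine (intervalIntegral.hasDerivAt_integral_of_dominated_loc_of_deriv_le (bound := fun _ => B)
    (Metric.closedBall_mem_nhds r ε0) ?_ ((hF r hr).intervalIntegrable _ _) ?_ ?_
    intervalIntegrable_const ?_).2
  · filter_upwards [hU.mem_nhds hr] with x hx using (hF x hx).aestronglyMeasurable
  · exact (hF'.comp_continuous (Continuous.prodMk_right r) fun v => ⟨hr, mem_univ _⟩).aestronglyMeasurable
  · exact Eventually.of_forall fun v hv x hx => hB (x, v) ⟨hx, uIoc_subset_uIcc hv⟩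
  · exact Eventually.of_forall fun v _ x hx => hd x (hε hx) v

lemma swap {a b : ℝ → ℂ} {k : ℝ → ℝ → ℂ} (ha : Continuous a) (hb : Continuous b)
    (hk : Continuous (Function.uncurry k)) :
    ∫ u in (0 : ℝ)..(2 * π), a u * ∫ w in (0 : ℝ)..(2 * π), k u w * b w =
      ∫ w in (0 : ℝ)..(2 * π), (∫ u in (0 : ℝ)..(2 * π), a u * k u w) * b w := by
  have hc : Continuous (Function.uncurry fun u w => a u * (k u w * b w)) :=
    (ha.comp continuous_fst).mul (hk.mul (hb.comp continuous_snd))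
  simp only [← intervalIntegral.integral_const_mul, ← intervalIntegral.integral_mul_const, mul_assoc]
  simp only [intervalIntegral.integral_of_le Real.two_pi_pos.le]
  refine integral_integral_swap ?_
  rw [Measure.prod_restrict]
  exact (hc.continuousOn.integrableOn_compact (isCompact_Icc.prod isCompact_Icc)).mono_set
    (prod_mono Ioc_subset_Icc_self Ioc_subset_Icc_self)

/-- the weight -/
def M (t v : ℝ) : ℝ := dc t v ^ (-(1 / 4) : ℝ)

lemma M_nn (t v : ℝ) : 0 ≤ M t v := Real.rpow_nonneg (dc_nonneg _ _) _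
lemma M_comm (t v : ℝ) : M t v = M v t := by rw [M, M, dc_comm]

lemma int_M : ∃ B, ∀ t, (∀ a b, IntervalIntegrable (fun v => M t v ^ 2) volume a b) ∧
    ∫ v in (0 : ℝ)..(2 * π), M t v ^ 2 = B := by
  have e : ∀ t v, M t v ^ 2 = M 0 (v - t) ^ 2 := fun t v => by
    rw [M, M, dc, dc]; congr 4; ring
  have hp : Function.Periodic (fun v => M 0 v ^ 2) (2 * π) := fun v => by
    simpa [M] using congrArg (fun x : ℝ => (x ^ (-(1 / 4) : ℝ)) ^ 2) (dc_add_right 0 v 1)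
  have h1 : IntervalIntegrable (fun v => M 0 v ^ 2) volume 0 π := by
    refine (intervalIntegral.intervalIntegrable_rpow' (r := -(1 / 2)) (by norm_num)).congr
      fun v hv => ?_
    rw [uIoc_of_le Real.pi_pos.le] at hv
    simp only [M]
    rw [dc_eq_abs (by rw [zero_sub, abs_neg, abs_of_pos hv.1]; exact hv.2), zero_sub, abs_neg,
      abs_of_pos hv.1, ← Real.rpow_natCast, ← Real.rpow_mul hv.1.le]
    norm_num
  have h2 : IntervalIntegrable (fun v => M 0 v ^ 2) volume (-π) 0 := by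
    have := ((IntervalIntegrable.iff_comp_neg (by simp)).1 h1).symm
    rw [neg_zero] at this
    refine this.congr fun v _ => ?_
    simp only [M]
    rw [dc_comm, dc, dc]; congr 4; ring
  have h0 := hp.intervalIntegrable (t := -π) Real.two_pi_pos.ne'
    (by rw [show -π + 2 * π = π by ring]; exact h2.trans h1)
  refine ⟨∫ v in (0 : ℝ)..(2 * π), M 0 v ^ 2, fun t => ⟨fun a b => ?_, ?_⟩⟩
  · simp only [e t]
    simpa using (h0 (a - t) (b - t)).comp_sub_right t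
  · simp only [e t]
    rw [intervalIntegral.integral_comp_sub_right (fun v => M 0 v ^ 2)]
    simpa [sub_eq_add_neg, add_comm] using hp.intervalIntegral_add_eq (-t) 0

lemma ae_ne {j : ℝ} {γ : ℝ → ℂ} (h : Nc j γ) (t : ℝ) : ∀ᵐ v, γ t ≠ γ v := by
  refine measure_mono_null (t := range fun k : ℤ => t + k * (2 * π)) (fun v hv => ?_)
    ((countable_range _).measure_zero _)
  obtain ⟨k, hk⟩ := h.inj (not_not.1 hv)
  exact ⟨k, hk.symm⟩

end Pool.Agent.Lib.IS2.C2r
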