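import Pool.Agent.Lib.IS2.B_C2a

/-! Row C2, part b: the normal derivative of the double layer with density `K(·, u)`. -/

open scoped ContDiff ComplexConjugate Topology Real
open Complex MeasureTheory Set Filter

noncomputable section

namespace Pool.Agent.Lib.IS2.C2r

open Pool.Agent.Lib.ISO

lemma DLk_eq (μ : ℝ) (γ : ℝ → ℂ) (x : ℂ) (v : ℝ) : DLk μ γ x v = P μ (nr γ v) (x - γ v) := by
  rw [DLk, P, norm_sub_rev x]
  congr 2
  simp only [rdot_eq, neg_re, neg_im, sub_re, sub_im]; ring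

/-- the integrand after two integrations by parts -/
def RH (μ : ℝ) (γ : ℝ → ℂ) (t u : ℝ) (x : ℂ) (v : ℝ) : ℂ :=
  (Gr μ (x - γ v) : ℝ) * (fKb μ γ v u + μ ^ 2 * (1 - rdot (nr γ t) (nr γ v) : ℝ) * fK μ γ v u) -
    (P μ (deriv γ t - deriv γ v) (x - γ v) : ℝ) * fKn μ γ v u

lemma m1 {γ : ℝ → ℂ} {k : ℂ → ℝ → ℝ → ℂ} (hk : Kk γ k) (μ : ℂ) (t : ℝ) : Measurable fun v => k μ t v :=
  hk.1.comp (f := fun v : ℝ => (μ, t, v)) (by fun_prop)
lemma m2 {γ : ℝ → ℂ} {k : ℂ → ℝ → ℝ → ℂ} (hk : Kk γ k) (μ : ℂ) (u : ℝ) : Measurable fun v => k μ v u :=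
  hk.1.comp (f := fun v : ℝ => (μ, v, u)) (by fun_prop)

variable {j μ : ℝ} {γ : ℝ → ℂ} (h : Nc j γ)
include h

lemma norm_nr (s : ℝ) : ‖nr γ s‖ = 1 := by rw [nr, norm_mul, norm_I, h.unit, mul_one]
lemma cont_nr : Continuous (nr γ) := continuous_const.mul h.s1.continuous
lemma dc_pos {s t : ℝ} (e : γ s ≠ γ t) : 0 < dc s t :=
  (norm_pos_iff.2 (sub_ne_zero.2 e)).trans_le (h.c0_le s t)

lemma lip1 (s t : ℝ) : ‖deriv γ s - deriv γ t‖ ≤ j * dc s t := by
  obtain ⟨k, hk⟩ := exists_dc s t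
  have := (convex_univ (𝕜 := ℝ) (E := ℝ)).norm_image_sub_le_of_norm_deriv_le (C := j)
    (fun x _ => (h.hd1 x).differentiableAt) (fun x _ => h.b2 x) (mem_univ (t + k * (2 * π)))
    (mem_univ s)
  rwa [(per_deriv' h.per).int_mul k t, Real.norm_eq_abs, hk] at this

lemma kb (hR : St_KR) (hμ : 1 ≤ μ) : ∃ B, 0 ≤ B ∧ ∀ v u, γ v ≠ γ u → ‖fK μ γ v u‖ ≤ B ∧
    ‖fKn μ γ v u‖ ≤ B ∧ ‖fKb μ γ v u‖ ≤ B * M v u := by
  obtain ⟨C, hC⟩ := hR j
  have j0 := h.pos
  have hn : ‖(μ : ℂ)‖ = μ := by rw [norm_real, Real.norm_eq_abs, abs_of_pos (by linarith)]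
  have s0 := Real.sqrt_nonneg (μ * π)
  have p0 := Real.rpow_pos_of_pos j0 (1 / 4 : ℝ)
  refine ⟨|C| * (μ * (1 + √(μ * π)) + μ ^ 3 * j ^ (1 / 4 : ℝ)), by positivity, fun v u e => ?_⟩
  obtain ⟨-, -, a1, a2, -, a3, -⟩ := hC γ h μ v u (by rw [hn]; exact hμ) (by simp; linarith) e
  simp only [hn, ofReal_re] at a1 a2 a3
  have c0' : 0 < c0 γ v u := norm_pos_iff.2 (sub_ne_zero.2 e)
  have he : Real.exp (-(μ * c0 γ v u)) ≤ 1 := Real.exp_le_one_iff.2 (neg_nonpos.2 (by positivity))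
  have hs : √(μ * c0 γ v u) ≤ √(μ * π) := by
    gcongr; exact (h.c0_le v u).trans (dc_le_pi v u)
  have hC' := le_abs_self C
  have hM : c0 γ v u ^ (-(1 / 4) : ℝ) ≤ j ^ (1 / 4 : ℝ) * M v u := by
    have : c0 γ v u ^ (-(1 / 4) : ℝ) = j ^ (1 / 4 : ℝ) * (j * c0 γ v u) ^ (-(1 / 4) : ℝ) := by
      rw [Real.mul_rpow j0.le c0'.le, ← mul_assoc, ← Real.rpow_add j0]; norm_num
    rw [this]
    gcongr
    exact Real.rpow_le_rpow_of_nonpos (dc_pos h e) (h.arc v u) (by norm_num)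
  have m0 := M_nn v u
  refine ⟨a1.trans ?_, a2.trans ?_, a3.trans ?_⟩
  · calc _ ≤ |C| * (1 + √(μ * π)) * 1 := by gcongr
      _ ≤ _ := by
        rw [mul_one]
        exact mul_le_mul_of_nonneg_left (by nlinarith [mul_pos (pow_pos (by linarith : 0 < μ) 3) p0])
          (abs_nonneg _)
  · calc _ ≤ |C| * (μ * (1 + √(μ * π))) * 1 := by gcongr
      _ ≤ _ := by
        rw [mul_one]; gcongr
        exact le_add_of_nonneg_right (by positivity)
  · calc _ ≤ |C| * (μ ^ 3 * (j ^ (1 / 4 : ℝ) * M v u)) * 1 := by gcongr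
      _ = |C| * (μ ^ 3 * j ^ (1 / 4 : ℝ)) * M v u := by ring
      _ ≤ _ := by gcongr; exact le_add_of_nonneg_left (by positivity)

lemma int_kb (hR : St_KR) (hD : St_KD) (hμ : 1 ≤ μ) (u a b : ℝ) :
    IntervalIntegrable (fun v => fKb μ γ v u) volume a b := by
  obtain ⟨B, B0, hB⟩ := kb h hR hμ
  obtain ⟨_, hM⟩ := int_M
  have hm : Measurable fun v => fKb μ γ v u := m2 (hD j γ h).1.2.2.2.1 μ u
  refine (((intervalIntegrable_const (c := (1 : ℝ))).add ((hM u).1 a b)).const_mul B).mono_fun'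
    hm.aestronglyMeasurable (ae_restrict_of_ae ?_)
  filter_upwards [ae_ne h u] with v hv
  refine (hB v u hv.symm).2.2.trans ?_
  rw [M_comm]
  gcongr
  nlinarith [sq_nonneg (M u v - 1), M_nn u v]

lemma int_RH (h3 : St_A3) (hR : St_KR) (hD : St_KD) (hμ : 1 ≤ μ) (t u : ℝ) {x : ℂ}
    (hx : ∀ v, x - γ v ≠ 0) (a b : ℝ) : IntervalIntegrable (RH μ γ t u x) volume a b := by
  have μ0 : 0 < μ := by linarith
  obtain ⟨cK, cN, -⟩ := (hD j γ h).2 μ (by simpa using μ0)
  have cz : Continuous fun v => x - γ v := continuous_const.sub h.smooth.continuous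
  have cG : Continuous fun v => ((Gr μ (x - γ v) : ℝ) : ℂ) := continuous_ofReal.comp
    (continuous_iff_continuousAt.2 fun v => caG h3 μ0 cz.continuousAt (hx v))
  have cP : Continuous fun v => ((P μ (deriv γ t - deriv γ v) (x - γ v) : ℝ) : ℂ) :=
    continuous_ofReal.comp (continuous_iff_continuousAt.2 fun v => caP h3 μ0 cz.continuousAt
      (continuous_const.sub h.s1.continuous).continuousAt (hx v))
  have cn : Continuous fun v => rdot (nr γ t) (nr γ v) :=
    cont_rdot.comp (continuous_const.prodMk (cont_nr h))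
  exact (((int_kb h hR hD hμ u a b).add (((continuous_const.mul (continuous_ofReal.comp
    (continuous_const.sub cn))).mul (cK.uncurry_right u)).intervalIntegrable
    a b)).continuousOn_mul cG.continuousOn).sub
    ((cP.mul (cN.uncurry_right u)).intervalIntegrable a b)

lemma maue (h3 : St_A3) (hR : St_KR) (hD : St_KD) (hμ : 1 ≤ μ) (t u : ℝ) {x : ℂ}
    (hx : ∀ v, x - γ v ≠ 0) :
    ∫ v in (0 : ℝ)..(2 * π), (H μ (x - γ v) (nr γ t) (nr γ v) : ℝ) * fK μ γ v u =
      ∫ v in (0 : ℝ)..(2 * π), RH μ γ t u x v := by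
  have μ0 : 0 < μ := by linarith
  obtain ⟨⟨-, pK, pN, pB, -⟩, h2⟩ := hD j γ h
  obtain ⟨cK, cN, -, hd⟩ := h2 μ (by simpa using μ0)
  have cz : Continuous fun v => x - γ v := continuous_const.sub h.smooth.continuous
  have cL : Continuous fun v => ((H μ (x - γ v) (nr γ t) (nr γ v) : ℝ) : ℂ) * fK μ γ v u :=
    (continuous_ofReal.comp (continuous_iff_continuousAt.2 fun v => caH h3 μ0 cz.continuousAt
      continuousAt_const (cont_nr h).continuousAt (hx v))).mul (cK.uncurry_right u)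
  have iR := int_RH h h3 hR hD hμ t u hx
  have p1 := per_deriv' h.per
  have pk : ∀ v, fK μ γ (v + 2 * π) u = fK μ γ v u := fun v => (pK.2.1 μ v u).1
  have pn : ∀ v, fKn μ γ (v + 2 * π) u = fKn μ γ v u := fun v => (pN.2.1 μ v u).1
  have pb : ∀ v, fKb μ γ (v + 2 * π) u = fKb μ γ v u := fun v => (pB.2.1 μ v u).1
  have hp : Function.Periodic (fun v => RH μ γ t u x v -
      (H μ (x - γ v) (nr γ t) (nr γ v) : ℝ) * fK μ γ v u) (2 * π) := fun v => by
    simp only [RH, nr, h.per v, p1 v, pk, pn, pb]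
  have dz : ∀ v, HasDerivAt (fun v => x - γ v) (-deriv γ v) v := fun v => (h.hd v).const_sub x
  have dP := fun v => (hdP h3 μ0 (dz v) (hx v) (deriv γ t)).ofReal_comp
  have dG := fun v => (hdG h3 μ0 (dz v) (hx v)).ofReal_comp
  have key := intervalIntegral.integral_eq_sub_of_hasDerivAt_of_le (a := u) (b := u + 2 * π)
    (f := fun v => (Gr μ (x - γ v) : ℝ) * fKn μ γ v u - (P μ (deriv γ t) (x - γ v) : ℝ) * fK μ γ v u)
    (f' := fun v => RH μ γ t u x v - (H μ (x - γ v) (nr γ t) (nr γ v) : ℝ) * fK μ γ v u)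
    (by linarith [Real.pi_pos])
    (((continuous_iff_continuousAt.2 fun v => (dG v).continuousAt).mul
      (cN.uncurry_right u)).sub ((continuous_iff_continuousAt.2
      fun v => (dP v).continuousAt).mul (cK.uncurry_right u))).continuousOn
    (fun v hv => by
      have e : γ v ≠ γ u := fun e => by
        obtain ⟨k, hk⟩ := h.inj e.symm
        have a : (0 : ℝ) < k := by nlinarith [hv.1, Real.pi_pos]
        have b : (k : ℝ) < 1 := by nlinarith [hv.2, Real.pi_pos]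
        have a' : (0 : ℤ) < k := by exact_mod_cast a
        have b' : k < (1 : ℤ) := by exact_mod_cast b
        omega
      refine (((dG v).mul ((hd v u).2 e)).sub ((dP v).mul (hd v u).1)).congr_deriv ?_
      have e1 := trH μ (hx v) (deriv γ t) (deriv γ v)
      have e2 : P μ (deriv γ t - deriv γ v) (x - γ v) =
          P μ (deriv γ t) (x - γ v) + P μ (-deriv γ v) (x - γ v) := by
        simp only [P, rdot_eq, sub_re, sub_im, neg_re, neg_im]; ring
      rw [RH, e2, nr, nr, eq_add_of_sub_eq e1]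
      push_cast; ring)
    ((iR _ _).sub (cL.intervalIntegrable _ _))
  rw [hp.intervalIntegral_add_eq u 0, zero_add, intervalIntegral.integral_sub (iR _ _)
    (cL.intervalIntegrable _ _)] at key
  simp only [h.per u, pk, pn, sub_self] at key
  exact (sub_eq_zero.1 key).symm

lemma est (h1 : St_A1) (h3 : St_A3) (hR : St_KR) (hD : St_KD) (hμ : 1 ≤ μ) {c : ℝ} (c0' : 0 < c)
    (hc : ∀ s t r : ℝ, |r| ≤ c → c * (dc s t + |r|) ≤ ‖γ t - (γ s + r * nr γ s)‖) :
    ∃ C, 0 ≤ C ∧ ∀ t u r : ℝ, 0 < r → r ≤ c →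
      ‖(∫ v in (0 : ℝ)..(2 * π), RH μ γ t u (γ t + r * nr γ t) v) - ro μ γ 0 t u‖ ≤
        C * r ^ (1 / 4 : ℝ) := by
  have μ0 : 0 < μ := by linarith
  have j0 := h.pos
  obtain ⟨B, B0, hB⟩ := kb h hR hμ
  obtain ⟨A, hM⟩ := int_M
  obtain ⟨E, E0, hE⟩ := absH h3 μ0
  have A0 : 0 ≤ A := (hM 0).2 ▸ intervalIntegral.integral_nonneg Real.two_pi_pos.le
    fun _ _ => sq_nonneg _
  set K := 4 * B * (c⁻¹ * (1 + 2 * μ ^ 2) + E * j / c ^ 2) with hK
  have K0' : 0 ≤ K := by positivity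
  refine ⟨K * (A + A + 2 * π), by positivity, fun t u r r0 rc => ?_⟩
  have rp := Real.rpow_pos_of_pos r0 (1 / 4 : ℝ)
  have hx : ∀ v, γ t + r * nr γ t - γ v ≠ 0 := fun v e => by
    have := hc t v r (by rwa [abs_of_pos r0])
    rw [norm_sub_rev, e, norm_zero, abs_of_pos r0] at this
    nlinarith [dc_nonneg t v, mul_pos c0' r0]
  have iR := int_RH h h3 hR hD hμ t u hx 0 (2 * π)
  have iW : IntervalIntegrable (fun v => K * r ^ (1 / 4 : ℝ) * (M t v ^ 2 + M u v ^ 2 + 1)) volume 0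
      (2 * π) := ((((hM t).1 _ _).add ((hM u).1 _ _)).add intervalIntegrable_const).const_mul _
  set I0 : ℝ → ℂ := fun v => fS μ γ t v * fKb μ γ v u + fSb μ γ t v * fK μ γ v u +
    fS1 μ γ t v * fKn μ γ v u with hI
  have hb : ∀ᵐ v, ‖RH μ γ t u (γ t + r * nr γ t) v - I0 v‖ ≤
      K * r ^ (1 / 4 : ℝ) * (M t v ^ 2 + M u v ^ 2 + 1) := by
    filter_upwards [ae_ne h t, ae_ne h u] with v e1 e2
    have d0 := dc_pos h e1
    obtain ⟨b1, b2, b3⟩ := hB v u e2.symm
    obtain ⟨k1, k2, -⟩ := h1.2.2.2.2 (μ * c0 γ t v)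
      (mul_pos μ0 (norm_pos_iff.2 (sub_ne_zero.2 e1)))
    push_cast at k1 k2
    have dz : ∀ y : ℝ, HasDerivAt (fun y : ℝ => γ t + y * nr γ t - γ v) (nr γ t) y := fun y => by
      simpa using (((hasDerivAt_id y).ofReal_comp.mul_const (nr γ t)).const_add (γ t)).sub_const (γ v)
    have lz : ∀ y ∈ Icc 0 r, c * (dc t v + y) ≤ ‖γ t + y * nr γ t - γ v‖ := fun y hy => by
      have := hc t v y (by rw [abs_of_nonneg hy.1]; exact hy.2.trans rc)
      rwa [norm_sub_rev, abs_of_nonneg hy.1] at this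
    have pz : ∀ y ∈ Icc 0 r, 0 < c * (dc t v + y) := fun y hy => by have := hy.1; positivity
    have nz : ∀ y ∈ Icc 0 r, γ t + y * nr γ t - γ v ≠ 0 := fun y hy =>
      norm_pos_iff.1 ((pz y hy).trans_le (lz y hy))
    have q1 := quarter (C := c⁻¹) d0 r0.le (by positivity) (fun y hy => hdG h3 μ0 (dz y) (nz y hy))
      fun y hy => by
        rw [abs_neg]
        refine (absP h3 μ0 _ (nz y hy)).trans ?_
        rw [norm_nr h, inv_eq_one_div, div_div]
        exact one_div_le_one_div_of_le (pz y hy) (lz y hy)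
    have q2 := quarter (C := E * j / c ^ 2) d0 r0.le (by positivity)
      (fun y hy => hdP h3 μ0 (dz y) (nz y hy) (deriv γ t - deriv γ v)) fun y hy => by
        have y0 := hy.1
        refine (hE _ _ _ (nz y hy)).trans ?_
        rw [norm_nr h, one_mul]
        calc _ ≤ E * (j * (dc t v + y)) / (c * (dc t v + y)) ^ 2 := by
              gcongr
              · exact (lip1 h t v).trans (by gcongr; linarith)
              · exact lz y hy
          _ = _ := by field_simp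
    simp only [ofReal_zero, zero_mul, add_zero] at q1 q2
    have e : RH μ γ t u (γ t + r * nr γ t) v - I0 v =
        ((Gr μ (γ t + r * nr γ t - γ v) - Gr μ (γ t - γ v) : ℝ) : ℂ) *
          (fKb μ γ v u + μ ^ 2 * (1 - rdot (nr γ t) (nr γ v) : ℝ) * fK μ γ v u) -
        ((P μ (deriv γ t - deriv γ v) (γ t + r * nr γ t - γ v) -
          P μ (deriv γ t - deriv γ v) (γ t - γ v) : ℝ) : ℂ) * fKn μ γ v u := by
      simp only [hI, RH, fSb, fS, fS1, k1, k2]
      simp only [Gr, P, c0]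
      push_cast; ring
    have n1 : |1 - rdot (nr γ t) (nr γ v)| ≤ 2 := by
      have := abs_rdot (nr γ t) (nr γ v)
      rw [norm_nr h, norm_nr h] at this
      rw [abs_le] at this ⊢
      constructor <;> linarith
    have n2 : ‖fKb μ γ v u + μ ^ 2 * (1 - rdot (nr γ t) (nr γ v) : ℝ) * fK μ γ v u‖ ≤
        B * M u v + μ ^ 2 * 2 * B := by
      refine (norm_add_le _ _).trans (add_le_add (M_comm v u ▸ b3) ?_)
      rw [norm_mul, norm_mul, norm_pow, norm_real, norm_real, Real.norm_eq_abs, Real.norm_eq_abs,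
        sq_abs]
      gcongr
    have m1 := M_nn t v
    have m2 := M_nn u v
    have w1 : M t v * M u v ≤ M t v ^ 2 + M u v ^ 2 + 1 := by nlinarith [sq_nonneg (M t v - M u v)]
    have w2 : M t v ≤ M t v ^ 2 + M u v ^ 2 + 1 := by nlinarith [sq_nonneg (M t v - 1)]
    rw [e]
    refine (norm_sub_le _ _).trans ?_
    rw [norm_mul, norm_mul, norm_real, norm_real, Real.norm_eq_abs, Real.norm_eq_abs]
    calc _ ≤ 4 * c⁻¹ * r ^ (1 / 4 : ℝ) * M t v * (B * M u v + μ ^ 2 * 2 * B) +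
          4 * (E * j / c ^ 2) * r ^ (1 / 4 : ℝ) * M t v * B := by gcongr <;> assumption
      _ = 4 * B * r ^ (1 / 4 : ℝ) * (c⁻¹ * (M t v * M u v + 2 * μ ^ 2 * M t v) +
          E * j / c ^ 2 * M t v) := by ring
      _ ≤ 4 * B * r ^ (1 / 4 : ℝ) * (c⁻¹ * ((M t v ^ 2 + M u v ^ 2 + 1) +
          2 * μ ^ 2 * (M t v ^ 2 + M u v ^ 2 + 1)) + E * j / c ^ 2 * (M t v ^ 2 + M u v ^ 2 + 1)) := by
          gcongr
      _ = _ := by rw [hK]; ring
  have mI : Measurable I0 := by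
    obtain ⟨⟨a1, a2, a3, a4, a5, a6, -⟩, -⟩ := hD j γ h
    exact (((m1 a1 μ t).mul (m2 a4 μ u)).add ((m1 a5 μ t).mul (m2 a2 μ u))).add
      ((m1 a6 μ t).mul (m2 a3 μ u))
  have iI : IntervalIntegrable I0 volume 0 (2 * π) := by
    refine (iR.norm.add iW).mono_fun' mI.aestronglyMeasurable (ae_restrict_of_ae ?_)
    filter_upwards [hb] with v hv
    linarith [norm_sub_norm_le (I0 v) (RH μ γ t u (γ t + r * nr γ t) v),
      norm_sub_rev (I0 v) (RH μ γ t u (γ t + r * nr γ t) v)]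
  rw [show ro μ γ 0 t u = ∫ v in (0 : ℝ)..(2 * π), I0 v from rfl,
    ← intervalIntegral.integral_sub iR iI]
  refine (intervalIntegral.norm_integral_le_of_norm_le Real.two_pi_pos.le
    (hb.mono fun v hv _ => hv) iW).trans_eq ?_
  rw [intervalIntegral.integral_const_mul, intervalIntegral.integral_add
    (((hM t).1 _ _).add ((hM u).1 _ _)) intervalIntegrable_const,
    intervalIntegral.integral_add ((hM t).1 _ _) ((hM u).1 _ _), (hM t).2, (hM u).2]
  simp only [intervalIntegral.integral_const, smul_eq_mul]; ring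

end Pool.Agent.Lib.IS2.C2r
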