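import Pool.Agent.Lib.IS2.B_LAY

/-! The chains of a real curve as traces of the boundary kernels. -/

open scoped ContDiff ComplexConjugate Topology Real
open Complex MeasureTheory Set Filter

noncomputable section

namespace Pool.Agent.Lib.IS2

open Pool.Agent.Lib.ISO

namespace CH

abbrev nu : Measure ℝ := volume.restrict (Ioc 0 (2 * π))

lemma fin_box (n : ℕ) : IsFiniteMeasure (box n) := by
  unfold box
  infer_instance

lemma ii (f : ℝ → ℝ) : ∫ s in (0 : ℝ)..(2 * π), f s = ∫ s, f s ∂nu :=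
  intervalIntegral.integral_of_le Real.two_pi_pos.le

lemma mp (n : ℕ) : MeasurePreserving
    (MeasurableEquiv.piFinSuccAbove (fun _ : Fin (n + 1) => ℝ) (Fin.last n)).symm
    (nu.prod (box n)) (box (n + 1)) :=
  (measurePreserving_piFinSuccAbove (fun _ : Fin (n + 1) => nu) (Fin.last n)).symm _

lemma snoc_eq (n : ℕ) (p : ℝ × (Fin n → ℝ)) :
    (MeasurableEquiv.piFinSuccAbove (fun _ : Fin (n + 1) => ℝ) (Fin.last n)).symm p =
      Fin.snoc p.2 p.1 := Fin.insertNth_last' p.1 p.2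

lemma step (n : ℕ) {F : (Fin (n + 1) → ℝ) → ℝ} {H : ℝ → ℝ → ℝ → ℝ} {A B : ℝ} (hF : Measurable F)
    (bF : ∀ w, |F w| ≤ A) (hH : Measurable fun p : ℝ × ℝ × ℝ => H p.1 p.2.1 p.2.2)
    (bH : ∀ t s, Integrable (fun u => H t u s) nu ∧ ∫ u, |H t u s| ∂nu ≤ B) :
    ∫ v, F (Fin.init v) * H (v (Fin.last n).castSucc) (v (Fin.last (n + 1))) (v 0) ∂box (n + 2) =
      ∫ w, F w * (∫ u, H (w (Fin.last n)) u (w 0) ∂nu) ∂box (n + 1) := by
  have := fin_box (n + 1)
  rw [← (mp (n + 1)).integral_comp']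
  have e : ∀ p : ℝ × (Fin (n + 1) → ℝ), F (Fin.init (Fin.snoc (α := fun _ => ℝ) p.2 p.1)) *
      H (Fin.snoc (α := fun _ => ℝ) p.2 p.1 (Fin.last n).castSucc)
        (Fin.snoc (α := fun _ => ℝ) p.2 p.1 (Fin.last (n + 1)))
        (Fin.snoc (α := fun _ => ℝ) p.2 p.1 0) = F p.2 * H (p.2 (Fin.last n)) p.1 (p.2 0) :=
    fun p => by
      rw [Fin.init_snoc, Fin.snoc_castSucc, Fin.snoc_last, ← Fin.castSucc_zero, Fin.snoc_castSucc]
  simp only [snoc_eq, e]
  have m : Measurable fun p : ℝ × (Fin (n + 1) → ℝ) => F p.2 * H (p.2 (Fin.last n)) p.1 (p.2 0) :=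
    (hF.comp measurable_snd).mul (hH.comp (f := fun p : ℝ × (Fin (n + 1) → ℝ) =>
      (p.2 (Fin.last n), p.1, p.2 0)) (by fun_prop))
  rw [integral_prod_symm]
  · simp only [integral_const_mul]
  · refine (integrable_prod_iff' m.aestronglyMeasurable).2
      ⟨Eventually.of_forall fun w => (bH (w (Fin.last n)) (w 0)).1.const_mul (F w), ?_⟩
    refine Integrable.of_bound (m.norm.stronglyMeasurable.integral_prod_left').aestronglyMeasurable
      (A * B) (Eventually.of_forall fun w => ?_)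
    simp only [norm_mul, Real.norm_eq_abs, integral_const_mul, abs_abs]
    have p : 0 ≤ ∫ u, |H (w (Fin.last n)) u (w 0)| ∂nu := integral_nonneg fun _ => abs_nonneg _
    rw [abs_of_nonneg p]
    exact mul_le_mul (bF w) (bH _ _).2 p ((abs_nonneg _).trans (bF w))

def PK (K : ℝ → ℝ → ℝ) (n : ℕ) (w : Fin (n + 1) → ℝ) : ℝ := ∏ i : Fin n, K (w i.castSucc) (w i.succ)
def JJ (K : ℝ → ℝ → ℝ) (n : ℕ) (g : ℝ → ℝ → ℝ) : ℝ :=
  ∫ w, PK K n w * g (w (Fin.last n)) (w 0) ∂box (n + 1)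

lemma J0 (K g : ℝ → ℝ → ℝ) : JJ K 0 g = ∫ s, g s s ∂nu := by
  have := (measurePreserving_funUnique nu (Fin 1)).integral_comp' fun s => g s s
  rw [← this, JJ]
  simp only [PK, Finset.univ_eq_empty, Finset.prod_empty, one_mul]
  rfl

variable {K : ℝ → ℝ → ℝ} {A : ℝ}

lemma mPK (hK : Measurable (Function.uncurry K)) (n : ℕ) : Measurable (PK K n) :=
  Finset.measurable_prod _ fun i _ =>
    hK.comp (f := fun w : Fin (n + 1) → ℝ => (w i.castSucc, w i.succ)) (by fun_prop)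

lemma bPK (bK : ∀ s t, |K s t| ≤ A) (n : ℕ) (w : Fin (n + 1) → ℝ) : |PK K n w| ≤ A ^ n := by
  rw [PK, Finset.abs_prod]
  simpa using Finset.prod_le_prod (s := Finset.univ) (g := fun _ : Fin n => A)
    (fun i _ => abs_nonneg (K (w i.castSucc) (w i.succ))) fun i _ => bK _ _

lemma ib {f : ℝ → ℝ} {B : ℝ} (hf : Measurable f) (b : ∀ u, |f u| ≤ B) :
    Integrable f nu ∧ ∫ u, |f u| ∂nu ≤ B * nu.real univ := by
  refine ⟨Integrable.of_bound hf.aestronglyMeasurable B (Eventually.of_forall b), ?_⟩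
  exact (le_abs_self _).trans (norm_integral_le_of_norm_le_const (μ := nu) (f := fun u => |f u|)
    (Eventually.of_forall fun u => (abs_abs (f u)).trans_le (b u)))

lemma mb {f g : ℝ → ℝ → ℝ} {A B : ℝ} (bf : ∀ s t, |f s t| ≤ A) (bg : ∀ s t, |g s t| ≤ B)
    (a b c d : ℝ) : |f a b * g c d| ≤ A * B := by
  rw [abs_mul]
  exact mul_le_mul (bf _ _) (bg _ _) (abs_nonneg _) ((abs_nonneg _).trans (bf a b))

lemma mI {H : ℝ → ℝ → ℝ → ℝ} (hH : Measurable fun p : ℝ × ℝ × ℝ => H p.1 p.2.1 p.2.2) :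
    Measurable (Function.uncurry fun t s => ∫ u, H t u s ∂nu) :=
  ((hH.comp (f := fun p : (ℝ × ℝ) × ℝ => (p.1.1, p.2, p.1.2))
    (by fun_prop)).stronglyMeasurable.integral_prod_right' (ν := nu)).measurable

lemma m3 {f g : ℝ → ℝ → ℝ} (hf : Measurable (Function.uncurry f))
    (hg : Measurable (Function.uncurry g)) :
    Measurable fun p : ℝ × ℝ × ℝ => f p.1 p.2.1 * g p.2.1 p.2.2 :=
  (hf.comp (f := fun p : ℝ × ℝ × ℝ => (p.1, p.2.1)) (by fun_prop)).mul (hg.comp measurable_snd)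

lemma Js (hK : Measurable (Function.uncurry K)) (bK : ∀ s t, |K s t| ≤ A) (n : ℕ) {g : ℝ → ℝ → ℝ}
    {B : ℝ} (hg : Measurable (Function.uncurry g)) (bg : ∀ s t, |g s t| ≤ B) :
    JJ K (n + 1) g = JJ K n fun t s => ∫ u, K t u * g u s ∂nu := by
  have := step n (H := fun t u s => K t u * g u s) (mPK hK n) (bPK bK n) (m3 hK hg) fun t s =>
    ib ((m3 hK hg).comp (f := fun u : ℝ => (t, u, s)) (by fun_prop)) fun u => mb bK bg t u u s
  rw [JJ, JJ, ← this]
  refine integral_congr_ae (Eventually.of_forall fun v => ?_)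
  simp only [PK, Fin.prod_univ_castSucc, Fin.init, Fin.succ_last, Fin.succ_castSucc]
  ring

lemma chain {P : ℕ → ℝ → ℝ → ℝ} {C : ℕ → ℝ} (hP : ∀ n, Measurable (Function.uncurry (P n)))
    (bP : ∀ n s t, |P n s t| ≤ C n) (hs : ∀ n s t, P (n + 1) s t = ∫ u, P n s u * P 0 u t ∂nu)
    (n : ℕ) : ∀ (g : ℝ → ℝ → ℝ) (B : ℝ), Measurable (Function.uncurry g) → (∀ s t, |g s t| ≤ B) →
      JJ (P 0) (n + 1) g = ∫ s, (∫ t, P n s t * g t s ∂nu) ∂nu := by
  induction n with
  | zero => exact fun g B hg bg => by rw [Js (hP 0) (bP 0) 0 hg bg, J0]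
  | succ n ih =>
    intro g B hg bg
    rw [Js (hP 0) (bP 0) (n + 1) hg bg, ih _ (C 0 * B * nu.real univ) (mI (m3 (hP 0) hg))
      fun t s => norm_integral_le_of_norm_le_const (μ := nu) (f := fun u => P 0 t u * g u s)
        (Eventually.of_forall fun u => mb (bP 0) bg t u u s)]
    refine integral_congr_ae (Eventually.of_forall fun s => ?_)
    simp only [hs, ← integral_const_mul, ← integral_mul_const]
    rw [integral_integral_swap]
    · simp only [mul_assoc]
    · refine Integrable.of_bound (Measurable.aestronglyMeasurable ?_) (C n * (C 0 * B))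
        (Eventually.of_forall fun p => ?_)
      · exact ((hP n).comp (f := fun p : ℝ × ℝ => (s, p.1)) (by fun_prop)).mul
          ((m3 (hP 0) hg).comp (f := fun p : ℝ × ℝ => (p.1, p.2, s)) (by fun_prop))
      · rw [Function.uncurry, norm_mul]
        exact mul_le_mul (bP _ _ _) (mb (bP 0) bg _ _ _ _) (abs_nonneg _)
          ((abs_nonneg _).trans (bP n 0 0))

lemma ae_ne {Ω : Set ℂ} {γ : ℝ → ℂ} (h : CD Ω γ) (n : ℕ) :
    ∀ᵐ v ∂box n, ∀ i k, i ≠ k → γ (v i) ≠ γ (v k) := by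
  refine ae_all_iff.2 fun i => ae_all_iff.2 fun k => ?_
  by_cases e : i = k
  · exact Eventually.of_forall fun _ a => absurd e a
  rw [box, ← Measure.restrict_pi_pi]
  refine ae_restrict_of_ae ?_
  let L : (Fin n → ℝ) →ₗ[ℝ] ℝ := LinearMap.proj (R := ℝ) (φ := fun _ => ℝ) k -
    LinearMap.proj (R := ℝ) (φ := fun _ => ℝ) i
  have sj : Function.Surjective L := fun x => ⟨Pi.single k x, by simp [L, e]⟩
  have c := countable_range fun m : ℤ => (m : ℝ) * (2 * π)
  have := (ae_comp_linearMap_mem_iff L (volume : Measure (Fin n → ℝ)) volume sj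
    c.measurableSet.compl).2 (c.ae_notMem volume)
  filter_upwards [this] with v hv _ a
  obtain ⟨m, hm⟩ := h.inj _ _ a
  exact hv ⟨m, by simp [L, hm]⟩

lemma rd (u v : ℂ) : |rdot u v| ≤ ‖u‖ * ‖v‖ := by
  have := abs_re_le_norm (u * conj v)
  rwa [norm_mul, norm_conj] at this

lemma cF (hA : St_A3) {μ : ℝ} (hμ : 0 < μ) : Continuous fun z : ℂ => Gr μ z • z := by
  refine continuous_iff_continuousAt.2 fun z => ?_
  by_cases hz : z = 0
  · obtain ⟨C, -, hC⟩ := LAY.bd_k0' hA hμ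
    subst hz
    rw [ContinuousAt, smul_zero]
    refine squeeze_zero_norm (a := fun z : ℂ => C * ‖z‖ ^ (3 / 4 : ℝ)) (fun z => ?_) ?_
    · rw [norm_smul, show (3 / 4 : ℝ) = -(1 / 4) + 1 by norm_num,
        Real.rpow_add' (norm_nonneg _) (by norm_num), Real.rpow_one, ← mul_assoc]
      exact mul_le_mul_of_nonneg_right (hC _ (norm_nonneg _)) (norm_nonneg _)
    · have : Continuous fun z : ℂ => C * ‖z‖ ^ (3 / 4 : ℝ) :=
        continuous_const.mul (continuous_norm.rpow_const fun _ => Or.inr (by norm_num))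
      simpa using this.tendsto 0
  · exact ((LAY.cd_Gr hA hμ).continuousOn.continuousAt
      (isOpen_compl_singleton.mem_nhds hz)).smul continuousAt_id

lemma eKd (μ : ℝ) (γ : ℝ → ℂ) (s t : ℝ) :
    Kdr μ γ s t = -rdot (-nr γ t) (Gr μ (γ t - γ s) • (γ t - γ s)) / 2 := by
  rw [Kdr, Gr, c0, norm_sub_rev]
  simp only [rdot, real_smul, map_mul, conj_ofReal, mul_left_comm _ ((_ : ℝ) : ℂ), re_ofReal_mul]
  field_simp
  ring

end CH

open CH in
theorem st_ch (hA : St_A3) (hG : St_GC) (hL : St_LNK) (hN : St_NEU) : St_CH := by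
  intro μ γ Ω hP
  have h := hP.cd
  have hμ := hP.pos
  obtain ⟨cK, -, -, cP, ⟨CK, bP⟩, -⟩ := hN μ γ Ω hP
  have bK : ∀ s t, |Kr μ γ s t| ≤ CK / 4 ^ 0 := bP 0
  have cg := h.smooth.continuous
  have cn : Continuous (nr γ) := continuous_const.mul (h.smooth.continuous_deriv (by simp))
  obtain ⟨M, hM⟩ : ∃ M, ∀ s, ‖nr γ s‖ ≤ M := by
    have p : Function.Periodic (nr γ) (2 * π) := fun s => by rw [nr, nr, per_deriv' h.per s]
    obtain ⟨M, hM⟩ := (p.isBounded_of_continuous Real.two_pi_pos.ne' cn).exists_norm_le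
    exact ⟨M, fun s => hM _ ⟨s, rfl⟩⟩
  have M0 : 0 ≤ M := (norm_nonneg _).trans (hM 0)
  obtain ⟨R, hR⟩ := (h.per.isBounded_of_continuous Real.two_pi_pos.ne' cg).exists_norm_le
  obtain ⟨D, hD⟩ := (isCompact_closedBall (0 : ℂ) (R + R)).exists_bound_of_continuousOn
    (cF hA hμ).continuousOn
  have cKd : Continuous (Function.uncurry (Kdr μ γ)) := by
    have := cF hA hμ
    have e : Function.uncurry (Kdr μ γ) = fun p : ℝ × ℝ =>
        -(-nr γ p.2 * conj ((fun z : ℂ => Gr μ z • z) (γ p.2 - γ p.1))).re / 2 :=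
      funext fun p => eKd μ γ p.1 p.2
    rw [e]
    exact (continuous_re.comp ((cn.comp continuous_snd).neg.mul (continuous_conj.comp
      (this.comp (by fun_prop))))).neg.div_const _
  have bKd : ∀ s t, |Kdr μ γ s t| ≤ M * D := fun s t => by
    have d := hD (γ t - γ s) (mem_closedBall_zero_iff.2 ((norm_sub_le _ _).trans
      (add_le_add (hR _ ⟨t, rfl⟩) (hR _ ⟨s, rfl⟩))))
    have r := rd (-nr γ t) (Gr μ (γ t - γ s) • (γ t - γ s))
    rw [norm_neg] at r
    have := mul_le_mul (hM t) d (norm_nonneg _) M0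
    rw [eKd, abs_div, abs_neg, abs_two]
    linarith [abs_nonneg (rdot (-nr γ t) (Gr μ (γ t - γ s) • (γ t - γ s)))]
  have mS : Measurable (Function.uncurry (Sr μ γ)) :=
    (LAY.meas_Gr hA μ).comp (f := fun p : ℝ × ℝ => γ p.1 - γ p.2) (by fun_prop)
  have mNd : Measurable (Function.uncurry (Ndr μ γ)) := by
    have m0 := hA.2.2.2.2.2.1
    have m1 := hA.2.2.2.2.2.2.1
    have mg := cg.measurable
    have mn := cn.measurable
    have mc := continuous_conj.measurable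
    unfold Function.uncurry Ndr c0 rdot
    fun_prop
  obtain ⟨C, C0, hC⟩ := LAY.bd_k0' hA hμ
  obtain ⟨E, hE⟩ := LAY.sing hG h (a := 1 / 2) (by norm_num) (by norm_num)
  have sq : ∀ z : ℂ, |Gr μ z| ^ 2 ≤ C ^ 2 * ‖z‖ ^ (-(1 / 2) : ℝ) := fun z => by
    refine (pow_le_pow_left₀ (abs_nonneg _) (hC _ (norm_nonneg z)) 2).trans_eq ?_
    rw [mul_pow, ← Real.rpow_natCast (‖z‖ ^ _), ← Real.rpow_mul (norm_nonneg _)]
    norm_num
  have bN : ∀ u s, |Ndr μ γ u s| ≤ M ^ 2 * (|Gr μ (γ s - γ u)| + 1) := fun u s => by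
    have pi := Real.pi_gt_three
    have a1 : |-(k0 (μ * c0 γ u s) * rdot (nr γ u) (nr γ s)) / (4 * π)| ≤
        M ^ 2 * |Gr μ (γ s - γ u)| := by
      have e : -(k0 (μ * c0 γ u s) * rdot (nr γ u) (nr γ s)) / (4 * π) =
          -(rdot (nr γ u) (nr γ s) / 2 * Gr μ (γ s - γ u)) := by
        rw [Gr, c0, norm_sub_rev]
        field_simp
        ring
      rw [e, abs_neg, abs_mul, abs_div, abs_two]
      refine mul_le_mul_of_nonneg_right ?_ (abs_nonneg _)
      nlinarith [rd (nr γ u) (nr γ s), mul_le_mul (hM u) (hM s) (norm_nonneg _) M0]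
    have a2 : |l1 (μ * c0 γ u s) * rdot (nr γ u) (γ s - γ u) * rdot (nr γ s) (γ s - γ u) /
        (4 * π * c0 γ u s ^ 2)| ≤ M ^ 2 := by
      rcases (norm_nonneg (γ u - γ s)).eq_or_lt with e | e
      · rw [c0, ← e]
        simp [M0]
      · obtain ⟨-, -, -, l0, l1'⟩ := hA.2.2.2.2.2.2.2.1 _ (mul_pos hμ e)
        have r1 := (rd (nr γ u) (γ s - γ u)).trans (mul_le_mul_of_nonneg_right (hM u) (norm_nonneg _))
        have r2 := (rd (nr γ s) (γ s - γ u)).trans (mul_le_mul_of_nonneg_right (hM s) (norm_nonneg _))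
        rw [norm_sub_rev] at r1 r2
        rw [c0, abs_div, abs_mul, abs_mul, abs_of_pos l0, abs_of_pos (a := 4 * π * _) (by positivity),
          div_le_iff₀ (by positivity)]
        calc _ ≤ 1 * (M * ‖γ u - γ s‖) * (M * ‖γ u - γ s‖) := by gcongr
          _ = M ^ 2 * (1 * ‖γ u - γ s‖ ^ 2) := by ring
          _ ≤ _ := by gcongr; linarith
    exact (abs_add_le _ _).trans (by linarith)
  have bSN : ∀ t s, Integrable (fun u => Sr μ γ t u * Ndr μ γ u s) nu ∧
      ∫ u, |Sr μ γ t u * Ndr μ γ u s| ∂nu ≤ M ^ 2 * (C ^ 2 * E + C ^ 2 * E + nu.real univ) :=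
    fun t s => by
      have i1 := ((intervalIntegrable_iff_integrableOn_Ioc_of_le Real.two_pi_pos.le).1
        (hE (γ t)).1).const_mul (C ^ 2)
      have i2 := ((intervalIntegrable_iff_integrableOn_Ioc_of_le Real.two_pi_pos.le).1
        (hE (γ s)).1).const_mul (C ^ 2)
      have i3 := ((i1.add i2).add (integrable_const (1 : ℝ))).const_mul (M ^ 2)
      have b : ∀ u, |Sr μ γ t u * Ndr μ γ u s| ≤ M ^ 2 * (C ^ 2 * ‖γ t - γ u‖ ^ (-(1 / 2) : ℝ) +
          C ^ 2 * ‖γ s - γ u‖ ^ (-(1 / 2) : ℝ) + 1) := fun u => by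
        rw [abs_mul, Sr]
        refine (mul_le_mul_of_nonneg_left (bN u s) (abs_nonneg _)).trans ?_
        rw [mul_left_comm]
        refine mul_le_mul_of_nonneg_left ?_ (sq_nonneg _)
        nlinarith [sq (γ t - γ u), sq (γ s - γ u), sq_nonneg (|Gr μ (γ t - γ u)| - 1),
          sq_nonneg (|Gr μ (γ t - γ u)| - |Gr μ (γ s - γ u)|), sq_nonneg (|Gr μ (γ s - γ u)|)]
      have i := i3.mono' ((m3 mS mNd).comp (f := fun u : ℝ => (t, u, s))
        (by fun_prop)).aestronglyMeasurable (Eventually.of_forall b)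
      refine ⟨i, (integral_mono i.abs i3 b).trans ?_⟩
      have e1 := (hE (γ t)).2
      have e2 := (hE (γ s)).2
      rw [ii] at e1 e2
      simp only [Pi.add_apply]
      rw [integral_const_mul, integral_add (i1.fun_add i2) (integrable_const _), integral_add i1 i2,
        integral_const_mul, integral_const_mul, integral_const, smul_eq_mul, mul_one]
      gcongr
  have mH : Measurable fun p : ℝ × ℝ × ℝ => Sr μ γ p.1 p.2.1 * Ndr μ γ p.2.1 p.2.2 -
      2 * Kr μ γ p.1 p.2.1 * Kdr μ γ p.2.1 p.2.2 := by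
    simp only [mul_assoc]
    exact (m3 mS mNd).sub ((m3 cK.measurable cKd.measurable).const_mul 2)
  obtain ⟨B, bH⟩ : ∃ B, ∀ t s, Integrable (fun u => Sr μ γ t u * Ndr μ γ u s -
      2 * Kr μ γ t u * Kdr μ γ u s) nu ∧
      ∫ u, |Sr μ γ t u * Ndr μ γ u s - 2 * Kr μ γ t u * Kdr μ γ u s| ∂nu ≤ B := by
    refine ⟨M ^ 2 * (C ^ 2 * E + C ^ 2 * E + nu.real univ) +
      2 * (CK / 4 ^ 0 * (M * D)) * nu.real univ, fun t s => ?_⟩
    obtain ⟨i1, j1⟩ := bSN t s
    obtain ⟨i2, j2⟩ := ib (f := fun u => 2 * Kr μ γ t u * Kdr μ γ u s)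
      (B := 2 * (CK / 4 ^ 0 * (M * D))) (by
        simp only [mul_assoc]
        exact ((m3 cK.measurable cKd.measurable).comp (f := fun u : ℝ => (t, u, s))
          (by fun_prop)).const_mul 2) fun u => by
        rw [mul_assoc, abs_mul, abs_two]
        exact mul_le_mul_of_nonneg_left (mb bK bKd t u u s) zero_le_two
    refine ⟨i1.sub i2, (integral_mono (i1.sub i2).abs (i1.abs.add i2.abs)
      fun u => abs_sub _ _).trans ?_⟩
    simp only [Pi.add_apply]
    rw [integral_add i1.abs i2.abs]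
    exact add_le_add j1 j2
  have eL : Lm μ γ = fun t s => ∫ u, (Sr μ γ t u * Ndr μ γ u s -
      2 * Kr μ γ t u * Kdr μ γ u s) ∂nu := funext fun t => funext fun s => ii _
  have mL : Measurable (Function.uncurry (Lm μ γ)) := by
    rw [eL]
    exact mI (H := fun t u s => Sr μ γ t u * Ndr μ γ u s - 2 * Kr μ γ t u * Kdr μ γ u s) mH
  have bL : ∀ t s, |Lm μ γ t s| ≤ B := fun t s => by
    rw [eL]
    exact abs_integral_le_integral_abs.trans (bH t s).2
  have eT : ∀ n, Tn (fun _ _ => 1) μ (cp γ) n = (JJ (Kr μ γ) n (Lm μ γ) : ℝ) := fun n => by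
    have := step n (H := fun t u s => Sr μ γ t u * Ndr μ γ u s - 2 * Kr μ γ t u * Kdr μ γ u s)
      (mPK cK.measurable n) (bPK bK n) mH bH
    rw [JJ, eL, ← this, Tn, ← integral_complex_ofReal]
    refine integral_congr_ae ((ae_ne h (n + 2)).mono fun v hv => ?_)
    have k := fun i k a => hL.1 γ μ (v i) (v k) (h.smooth.differentiable (by simp)) hμ (hv i k a)
    have k1 := k (Fin.last n).castSucc (Fin.last (n + 1)) (Fin.castSucc_lt_last _).ne
    have k2 := k (Fin.last (n + 1)) 0 (by simp)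
    have k3 := fun i : Fin n => (k i.castSucc.castSucc i.succ.castSucc
      (fun a => (Fin.castSucc_lt_succ (i := i)).ne (Fin.castSucc_injective _ a))).2.2.1
    simp only [In, k1.2.1, k1.2.2.1, k2.2.2.2.1, k2.2.2.2.2, k3, PK, Fin.init, one_mul]
    push_cast
    rfl
  refine ⟨⟨max B (M * D), fun t s => ⟨(bL t s).trans (le_max_left _ _),
    (bKd t s).trans (le_max_right _ _), ?_⟩⟩, mL, cKd, ?_, fun n => ?_⟩
  · exact (intervalIntegrable_iff_integrableOn_Ioc_of_le Real.two_pi_pos.le).2 (bSN t s).1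
  · rw [eT, J0, ii]
  · rw [eT]
    simp only [ii]
    exact congrArg _ (chain (P := Kp μ γ) (C := fun n => CK / 4 ^ n) (fun n => (cP n).measurable) bP
      (fun n s t => ii _) n _ B mL bL)

end Pool.Agent.Lib.IS2
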