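import Pool.Agent.Lib.IS2.Blue

/-! The derivatives of the inverse slope with respect to the value of the function. -/

open scoped ContDiff ComplexConjugate Topology Real
open MeasureTheory Set Filter

noncomputable section

namespace Pool.Agent.Lib.IS2

namespace EN

/-- polynomials in the derivatives of order `2 .. A + 2` and in the inverse slope, with weight `w`
and degrees `d`, `e` -/
inductive Mo : ℕ → ℕ → ℕ → ℕ → ((ℝ → ℝ) → ℝ → ℝ) → Prop
  | cst (c : ℝ) : Mo 0 0 0 0 fun _ _ => c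
  | der (a : ℕ) : Mo a a 1 0 fun κ s => iteratedDeriv (a + 2) κ s
  | inv : Mo 0 0 0 1 fun κ s => (deriv κ s)⁻¹
  | mul {A w d e w' d' e' F G} : Mo A w d e F → Mo A w' d' e' G →
      Mo A (w + w') (d + d') (e + e') fun κ s => F κ s * G κ s
  | add {A w d e F G} : Mo A w d e F → Mo A w d e G → Mo A w d e fun κ s => F κ s + G κ s
  | up {A w d e A' w' d' e' F} : Mo A w d e F → A ≤ A' → w ≤ w' → d ≤ d' → e ≤ e' →
      Mo A' w' d' e' F

theorem Mo.bd {A w d e F} (h : Mo A w d e F) : ∃ C, 0 ≤ C ∧ ∀ (κ : ℝ → ℝ) (s L l j : ℝ),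
    1 ≤ L → 1 ≤ l → 1 ≤ j → sl κ s ≤ j → (∀ a ≤ A + 2, |iteratedDeriv a κ s| ≤ L * l ^ (a - 2)) →
    |F κ s| ≤ C * L ^ d * j ^ e * l ^ w := by
  induction h with
  | cst c => exact ⟨|c|, abs_nonneg c, fun κ s L l j _ _ _ _ _ => by simp⟩
  | der a => exact ⟨1, zero_le_one, fun κ s L l j _ _ _ _ h => by simpa using h (a + 2) le_rfl⟩
  | inv => exact ⟨1, zero_le_one, fun κ s L l j _ _ _ h _ => by simpa [sl, abs_inv] using h⟩
  | mul _ _ ih ih' =>
    obtain ⟨C, h0, hC⟩ := ih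
    obtain ⟨C', h0', hC'⟩ := ih'
    refine ⟨C * C', by positivity, fun κ s L l j hL hl hj h1 h2 => ?_⟩
    rw [abs_mul]
    refine (mul_le_mul (hC κ s L l j hL hl hj h1 h2) (hC' κ s L l j hL hl hj h1 h2)
      (abs_nonneg _) (by positivity)).trans_eq (by ring)
  | add _ _ ih ih' =>
    obtain ⟨C, h0, hC⟩ := ih
    obtain ⟨C', h0', hC'⟩ := ih'
    refine ⟨C + C', by positivity, fun κ s L l j hL hl hj h1 h2 => ?_⟩
    refine ((abs_add_le _ _).trans (add_le_add (hC κ s L l j hL hl hj h1 h2)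
      (hC' κ s L l j hL hl hj h1 h2))).trans_eq (by ring)
  | up _ hA hw hd he ih =>
    obtain ⟨C, h0, hC⟩ := ih
    refine ⟨C, h0, fun κ s L l j hL hl hj h1 h2 =>
      (hC κ s L l j hL hl hj h1 fun a ha => h2 a (by omega)).trans ?_⟩
    gcongr

theorem hd_iter {κ : ℝ → ℝ} (hκ : ContDiff ℝ ∞ κ) (a : ℕ) (s : ℝ) :
    HasDerivAt (iteratedDeriv a κ) (iteratedDeriv (a + 1) κ s) s := by
  rw [iteratedDeriv_succ]
  exact (hκ.differentiable_iteratedDeriv a (by exact_mod_cast ENat.natCast_lt_top a) s).hasDerivAt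

theorem hd_inv {κ : ℝ → ℝ} (hκ : ContDiff ℝ ∞ κ) {s : ℝ} (hs : deriv κ s ≠ 0) :
    HasDerivAt (fun s => (deriv κ s)⁻¹)
      (-1 * iteratedDeriv 2 κ s * ((deriv κ s)⁻¹ * (deriv κ s)⁻¹)) s := by
  have h1 := hd_iter hκ 1 s
  rw [iteratedDeriv_one] at h1
  refine (h1.fun_inv hs).congr_deriv ?_
  field_simp

theorem Mo.pw (k : ℕ) : Mo 0 0 0 k fun κ s => (deriv κ s)⁻¹ ^ k := by
  induction k with
  | zero => simpa using Mo.cst 1
  | succ k ih => simpa [pow_succ] using ih.mul Mo.inv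

theorem Mo.dv {A w d e F} (h : Mo A w d e F) : ∃ F', Mo (A + 1) (w + 1) (d + 1) (e + 1) F' ∧
    ∀ κ : ℝ → ℝ, ContDiff ℝ ∞ κ → ∀ s, deriv κ s ≠ 0 → HasDerivAt (F κ) (F' κ s) s := by
  induction h with
  | cst c =>
    exact ⟨_, (Mo.cst 0).up (by omega) (by omega) (by omega) (by omega),
      fun κ _ s _ => hasDerivAt_const s c⟩
  | der a =>
    exact ⟨_, (Mo.der (a + 1)).up le_rfl le_rfl (by omega) (by omega),
      fun κ hκ s _ => hd_iter hκ (a + 2) s⟩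
  | inv =>
    exact ⟨_, (((Mo.cst (-1)).mul (Mo.der 0)).mul (Mo.inv.mul Mo.inv)).up (by omega) (by omega)
      (by omega) (by omega), fun κ hκ s hs => hd_inv hκ hs⟩
  | @mul A w d e w' d' e' F G hF hG ih ih' =>
    obtain ⟨F', m, hd⟩ := ih
    obtain ⟨G', m', hd'⟩ := ih'
    refine ⟨_, ((m.mul (hG.up (Nat.le_succ A) le_rfl le_rfl le_rfl)).up le_rfl (by omega)
      (by omega) (by omega)).add (((hF.up (Nat.le_succ A) le_rfl le_rfl le_rfl).mul m').up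
      le_rfl (by omega) (by omega) (by omega)), fun κ hκ s hs => ?_⟩
    exact (hd κ hκ s hs).fun_mul (hd' κ hκ s hs)
  | add _ _ ih ih' =>
    obtain ⟨F', m, hd⟩ := ih
    obtain ⟨G', m', hd'⟩ := ih'
    exact ⟨_, m.add m', fun κ hκ s hs => (hd κ hκ s hs).fun_add (hd' κ hκ s hs)⟩
  | up _ hA hw hd he ih =>
    obtain ⟨F', m, h⟩ := ih
    exact ⟨F', m.up (by omega) (by omega) (by omega) (by omega), h⟩

theorem ev_ne {κ : ℝ → ℝ} (hκ : ContDiff ℝ ∞ κ) {s : ℝ} (hs : deriv κ s ≠ 0) :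
    ∀ᶠ t in 𝓝 s, deriv κ t ≠ 0 :=
  (hκ.continuous_deriv (by simp)).continuousAt.eventually_ne hs

theorem step {κ R : ℝ → ℝ} (hκ : ContDiff ℝ ∞ κ) (n : ℕ) {s R' : ℝ} (hs : deriv κ s ≠ 0)
    (h : ∀ t, deriv κ t ≠ 0 →
      En κ n t = -iteratedDeriv (n + 1) κ t * (deriv κ t)⁻¹ ^ (n + 2) + R t)
    (hR : HasDerivAt R R' s) :
    En κ (n + 1) s = -iteratedDeriv (n + 2) κ s * (deriv κ s)⁻¹ ^ (n + 3) +
      (((n : ℝ) + 2) * iteratedDeriv (n + 1) κ s * iteratedDeriv 2 κ s * (deriv κ s)⁻¹ ^ (n + 4) +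
        R' * (deriv κ s)⁻¹) := by
  have h1 := (((hd_iter hκ (n + 1) s).fun_neg.fun_mul ((hd_inv hκ hs).fun_pow (n + 2))).fun_add
    hR).congr_of_eventuallyEq (f₁ := En κ n) ((ev_ne hκ hs).mono h)
  change deriv (En κ n) s / deriv κ s = _
  rw [h1.deriv, div_eq_mul_inv]
  simp only [Nat.add_succ_sub_one]
  push_cast
  ring

theorem main (m : ℕ) : ∃ R, Mo m m (2 * m + 5) (2 * m + 5) R ∧ ∀ κ : ℝ → ℝ, ContDiff ℝ ∞ κ →
    ∀ s, deriv κ s ≠ 0 →
    En κ (m + 2) s = -iteratedDeriv (m + 2 + 1) κ s * (deriv κ s)⁻¹ ^ (m + 2 + 2) + R κ s := by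
  induction m with
  | zero =>
    refine ⟨_, ((((Mo.cst 3).mul (Mo.der 0)).mul (Mo.der 0)).mul (Mo.pw 5)).up le_rfl le_rfl
      (by omega) (by omega), fun κ hκ s hs => ?_⟩
    rw [step hκ 1 hs (R := fun _ => 0) (fun t ht => ?_) (hasDerivAt_const s 0)]
    · norm_num
    · change deriv (fun s => (deriv κ s)⁻¹) t / deriv κ t = _
      rw [(hd_inv hκ ht).deriv, div_eq_mul_inv]
      ring
  | succ m ih =>
    obtain ⟨R, mR, hR⟩ := ih
    obtain ⟨R', mR', hR'⟩ := mR.dv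
    have z := Nat.zero_le (m + 1)
    refine ⟨_, ((((((Mo.cst (((m + 2 : ℕ) : ℝ) + 2)).up z le_rfl le_rfl le_rfl).mul
      (Mo.der (m + 1))).mul ((Mo.der 0).up z le_rfl le_rfl le_rfl)).mul
      ((Mo.pw (m + 2 + 4)).up z le_rfl le_rfl le_rfl)).up le_rfl (by omega) (by omega)
      (by omega)).add ((mR'.mul (Mo.inv.up z le_rfl le_rfl le_rfl)).up le_rfl (by omega)
      (by omega) (by omega)), fun κ hκ s hs => ?_⟩
    exact step hκ (m + 2) hs (hR κ hκ) (hR' κ hκ s hs)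

theorem smooth {κ : ℝ → ℝ} (hκ : ContDiff ℝ ∞ κ) (n : ℕ) :
    ContDiffOn ℝ ∞ (En κ n) {s | deriv κ s ≠ 0} := by
  have hd : ContDiff ℝ ∞ (deriv κ) := (contDiff_infty_iff_deriv.1 hκ).2
  have ho : IsOpen {s | deriv κ s ≠ 0} := isOpen_ne_fun hd.continuous continuous_const
  induction n with
  | zero => exact hd.contDiffOn.inv fun s hs => hs
  | succ n ih =>
    exact ((contDiffOn_infty_iff_deriv_of_isOpen ho).1 ih).2.div hd.contDiffOn fun s hs => hs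

end EN

theorem st_en : St_EN := by
  refine ⟨fun κ hκ n s hs => (EN.smooth hκ n).contDiffAt (EN.ev_ne hκ hs), fun n hn => ?_⟩
  obtain ⟨m, rfl⟩ := Nat.exists_eq_add_of_le' hn
  obtain ⟨R, mR, hR⟩ := EN.main m
  obtain ⟨C, _, hC⟩ := mR.bd
  refine ⟨C, fun κ s L l j hκ hL hl hj hs h1 h2 => ?_⟩
  have e : En κ (m + 2) s + iteratedDeriv (m + 2 + 1) κ s / deriv κ s ^ (m + 2 + 2) = R κ s := by
    rw [hR κ hκ s hs, div_eq_mul_inv, inv_pow]
    ring
  rw [e]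
  refine (hC κ s L l j hL hl hj h1 h2).trans_eq ?_
  rw [Nat.add_sub_cancel]
  ring

end Pool.Agent.Lib.IS2
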