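import Pool.Agent.Lib.IS2.K78

/-! The single layer, double layer and corrected single layer kernels against their models. -/

open scoped ContDiff ComplexConjugate Topology Real
open Complex MeasureTheory Set Filter

noncomputable section

namespace Pool.Agent.Lib.IS2

namespace F1a

open K78

variable {K L Y X W : ℂ} {C a O r δ τ ε E Q k N : ℝ}

lemma pi_sq : (π : ℂ) = ((√π : ℝ) : ℂ) ^ 2 := by rw [← ofReal_pow, Real.sq_sqrt Real.pi_pos.le]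
lemma two_sq : ((√2 : ℝ) : ℂ) ^ 2 = 2 := by
  rw [← ofReal_pow, Real.sq_sqrt zero_le_two, ofReal_ofNat]
lemma p1 : 1 ≤ √π := Real.one_le_sqrt.2 (by linarith [Real.pi_gt_three])
lemma s1 : 1 ≤ √2 := Real.one_le_sqrt.2 one_le_two
lemma p0 : ((√π : ℝ) : ℂ) ≠ 0 := ofReal_ne_zero.2 (by linarith [p1])
lemma s0 : ((√2 : ℝ) : ℂ) ≠ 0 := ofReal_ne_zero.2 (by linarith [s1])
lemma div_pi (z : ℂ) : ‖z / (2 * π)‖ ≤ ‖z‖ / 6 := by
  rw [norm_div, norm_mul, norm_real, Real.norm_of_nonneg Real.pi_pos.le, Complex.norm_ofNat]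
  gcongr
  linarith [Real.pi_gt_three]
lemma div_sp (x : ℝ) : ‖((x / (2 * √2 * √π) : ℝ) : ℂ)‖ ≤ |x| := by
  rw [norm_real, Real.norm_eq_abs, abs_div, abs_of_pos (by positivity : 0 < 2 * √2 * √π)]
  exact div_le_self (abs_nonneg _) (by nlinarith [p1, s1])

lemma n1 (hC : 0 ≤ C) (hε : 0 ≤ ε) (hO : 0 < O) (hr : 0 < r) (hE : 0 ≤ E) (E1 : E ≤ 1)
    (hK : ‖K - X * ((√π : ℝ) * ((√2 : ℝ) * W * r)⁻¹)‖ ≤ C * ((a * r) ^ 3)⁻¹ * (E * E))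
    (hm : ‖Y - X * ((√π * δ)⁻¹ : ℝ)‖ ≤ C * ε * δ⁻¹ * E) (hX : ‖X‖ = E * E) (hW : ‖W‖ = a)
    (ha : O ≤ 2 * a) (h1 : |r - δ| ≤ C * ε * δ) (h2 : r ≤ δ) (h3 : 1 ≤ ε * (O * r) ^ 2) :
    ‖K / (2 * π) - (2 * √2 * W)⁻¹ * Y‖ ≤ 4 * C * ε * (O * r)⁻¹ * E := by
  have a0 : 0 < a := by linarith
  have d0 : 0 < δ := by linarith
  have W0 : W ≠ 0 := norm_pos_iff.1 (hW ▸ a0)
  have r0 : (r : ℂ) ≠ 0 := ofReal_ne_zero.2 hr.ne'
  have e : K / (2 * π) - (2 * √2 * W)⁻¹ * Y =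
      (K - X * ((√π : ℝ) * ((√2 : ℝ) * W * r)⁻¹)) / (2 * π) + (2 * √2 * W)⁻¹ *
        (X * (((√π * r)⁻¹ - (√π * δ)⁻¹ : ℝ) : ℂ) - (Y - X * ((√π * δ)⁻¹ : ℝ))) := by
    have := p0
    have := s0
    rw [pi_sq]
    push_cast
    field_simp
    ring
  have b1 : ((a * r) ^ 3)⁻¹ ≤ 8 * ε * (O * r)⁻¹ := by
    rw [inv_eq_one_div, ← div_eq_mul_inv, div_le_div_iff₀ (by positivity) (by positivity)]
    calc 1 * (O * r) ≤ ε * (O * r) ^ 2 * (O * r) := by gcongr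
      _ ≤ ε * (2 * a * r) ^ 2 * (2 * a * r) := by gcongr
      _ = _ := by ring
  have b2 : ‖(2 * √2 * W)⁻¹‖ ≤ O⁻¹ := by
    rw [norm_inv, norm_mul, norm_mul, hW, norm_real, Complex.norm_ofNat,
      Real.norm_of_nonneg (Real.sqrt_nonneg _)]
    gcongr
    nlinarith [s1]
  have b3 : |(√π * r)⁻¹ - (√π * δ)⁻¹| ≤ C * ε * r⁻¹ := by
    have := p1
    rw [show (√π * r)⁻¹ - (√π * δ)⁻¹ = -(r - δ) / (√π * (r * δ)) by field_simp; ring, abs_div,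
      abs_neg, abs_of_pos (by positivity : 0 < √π * (r * δ)), div_le_iff₀ (by positivity)]
    calc _ ≤ 1 * (C * ε * δ) := by rwa [one_mul]
      _ ≤ √π * (C * ε * δ) := by gcongr
      _ = _ := by field_simp
  have b4 : ‖X * (((√π * r)⁻¹ - (√π * δ)⁻¹ : ℝ) : ℂ)‖ ≤ 1 * E * (C * ε * r⁻¹) := by
    rw [norm_mul, hX, norm_real, Real.norm_eq_abs]
    gcongr
  have b5 : C * ε * δ⁻¹ * E ≤ C * ε * r⁻¹ * E := by gcongr
  have b6 : C * ((a * r) ^ 3)⁻¹ * (E * E) ≤ C * (8 * ε * (O * r)⁻¹) * (1 * E) := by gcongr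
  rw [e]
  refine (norm_add_le _ _).trans ?_
  rw [norm_mul]
  have b7 := mul_le_mul b2 ((norm_sub_le _ _).trans (add_le_add b4 (hm.trans b5))) (norm_nonneg _)
    (by positivity)
  have b8 := (div_pi _).trans (div_le_div_of_nonneg_right (hK.trans b6) (by norm_num))
  have b9 : 0 ≤ C * ε * (O⁻¹ * r⁻¹) * E := by positivity
  rw [mul_inv O r] at b8 ⊢
  linarith

lemma n2 (hC : 0 ≤ C) (hε : 0 ≤ ε) (hO : 0 < O) (hδ : 0 ≤ δ) (hE : 0 ≤ E) (E1 : E ≤ 1)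
    (hL : ‖L - X * ((√π : ℝ) * (W * r) / (√2 : ℝ))‖ ≤ C * (E * E))
    (hm : ‖Y - X * (W * (k * δ / (4 * √(2 * π)) : ℝ))‖ ≤ C * ε * (O * τ) * E) (hX : ‖X‖ = E * E)
    (hW : ‖W‖ ≤ O) (h1 : |r - δ| ≤ C * ε * δ) (h2 : |Q| ≤ C) (h3 : |Q - k / 2| ≤ C * ε)
    (h4 : δ * E ≤ 6 * τ) (h5 : 1 ≤ ε * (O * τ)) :
    ‖L * Q / (2 * π) - Y‖ ≤ (7 * C ^ 2 + 7 * C) * ε * (O * τ) * E := by
  have e : L * Q / (2 * π) - Y = (L - X * ((√π : ℝ) * (W * r) / (√2 : ℝ))) * Q / (2 * π) +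
      X * W * (((r * Q - k * δ / 2) / (2 * √2 * √π) : ℝ) : ℂ) -
      (Y - X * (W * (k * δ / (4 * √(2 * π)) : ℝ))) := by
    have := p0
    have := s0
    rw [pi_sq, Real.sqrt_mul zero_le_two]
    push_cast
    field_simp
    ring
  have b1 : |r * Q - k * δ / 2| ≤ (C ^ 2 + C) * ε * δ := by
    rw [show r * Q - k * δ / 2 = (r - δ) * Q + δ * (Q - k / 2) by ring]
    refine (abs_add_le _ _).trans ?_
    rw [abs_mul, abs_mul, abs_of_nonneg hδ]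
    calc _ ≤ C * ε * δ * C + δ * (C * ε) := by gcongr
      _ = _ := by ring
  have b2 : ‖X * W * (((r * Q - k * δ / 2) / (2 * √2 * √π) : ℝ) : ℂ)‖ ≤
      (C ^ 2 + C) * ε * O * E * (6 * τ) := by
    rw [norm_mul, norm_mul, hX]
    calc _ ≤ E * E * O * ((C ^ 2 + C) * ε * δ) := by gcongr; exact (div_sp _).trans b1
      _ = (C ^ 2 + C) * ε * O * E * (δ * E) := by ring
      _ ≤ _ := by gcongr
  have b3 : ‖(L - X * ((√π : ℝ) * (W * r) / (√2 : ℝ))) * Q‖ ≤ C * (ε * (O * τ) * E) * C := by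
    rw [norm_mul, norm_real, Real.norm_eq_abs]
    gcongr
    exact hL.trans (by gcongr; exact E1.trans h5)
  have b4 := div_pi ((L - X * ((√π : ℝ) * (W * r) / (√2 : ℝ))) * Q)
  have b5 := norm_nonneg ((L - X * ((√π : ℝ) * (W * r) / (√2 : ℝ))) * Q)
  rw [e]
  refine ((norm_sub_le _ _).trans (add_le_add (norm_add_le _ _) hm)).trans ?_
  linarith

lemma n3 (hC : 0 ≤ C) (hε : 0 ≤ ε) (ha : 0 < a) (hr : 0 < r) (hδ : 0 ≤ δ) (hτ : 0 ≤ τ)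
    (hE : 0 ≤ E)
    (hK : ‖K - X * ((√π : ℝ) * ((√2 : ℝ) * W * r)⁻¹)‖ ≤ C * ((a * r) ^ 3)⁻¹ * (E * E))
    (hm : ‖Y - X * (W ^ 2 * (k ^ 2 * (δ ^ 2 * δ) / (2 * √π) : ℝ))‖ ≤
      C * ε * (O ^ 2 * τ ^ 2 * τ) * E) (hX : ‖X‖ = E * E)
    (hW : ‖W‖ = a) (hO : a ≤ O) (h1 : |r - δ| ≤ C * ε * δ) (h2 : δ ≤ 2 * r) (h3 : |k| ≤ C)
    (h4 : |N| ≤ C * δ ^ 4) (h5 : |N - k ^ 2 * δ ^ 4 / 2| ≤ C * ε * δ ^ 4)
    (h6 : δ * E ≤ 6 * τ) (h7 : δ ^ 3 * E ≤ 144 * τ ^ 3) (h8 : 1 ≤ ε * (O * τ) ^ 2) :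
    ‖(W ^ 2) ^ 2 * N * (K / (2 * π)) - √2 * W / 4 * Y‖ ≤
      (144 * C ^ 3 + 8 * C ^ 2 + 289 * C) * ε * (O * τ) ^ 3 * E := by
  have O0 : 0 < O := by linarith
  have W0 : W ≠ 0 := norm_pos_iff.1 (hW ▸ ha)
  have r0 : (r : ℂ) ≠ 0 := ofReal_ne_zero.2 hr.ne'
  have e : (W ^ 2) ^ 2 * N * (K / (2 * π)) - √2 * W / 4 * Y =
      W ^ 4 * N * ((K - X * ((√π : ℝ) * ((√2 : ℝ) * W * r)⁻¹)) / (2 * π)) +
      X * W ^ 3 * (((N / r - k ^ 2 * δ ^ 3 / 2) / (2 * √2 * √π) : ℝ) : ℂ) -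
      √2 * W / 4 * (Y - X * (W ^ 2 * (k ^ 2 * (δ ^ 2 * δ) / (2 * √π) : ℝ))) := by
    have := p0
    have := s0
    rw [pi_sq]
    push_cast
    field_simp
    linear_combination (-(2 * W ^ 2 * X * ((√π : ℝ) : ℂ) * r * k ^ 2 * δ ^ 3)) * two_sq
  have k2 : k ^ 2 ≤ C ^ 2 := sq_le_sq' (abs_le.1 h3).1 (abs_le.1 h3).2
  have b1 : |N / r - k ^ 2 * δ ^ 3 / 2| ≤ (C ^ 3 + 2 * C) * ε * δ ^ 3 := by
    rw [show N / r - k ^ 2 * δ ^ 3 / 2 =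
      (N - k ^ 2 * δ ^ 4 / 2 - k ^ 2 * δ ^ 3 / 2 * (r - δ)) / r by field_simp; ring, abs_div,
      abs_of_pos hr, div_le_iff₀ hr]
    refine (abs_sub _ _).trans ?_
    rw [abs_mul, abs_of_nonneg (by positivity : 0 ≤ k ^ 2 * δ ^ 3 / 2)]
    calc _ ≤ C * ε * δ ^ 4 + C ^ 2 * δ ^ 3 / 2 * (C * ε * δ) := by gcongr
      _ = (C ^ 3 / 2 + C) * ε * δ ^ 3 * δ := by ring
      _ ≤ (C ^ 3 / 2 + C) * ε * δ ^ 3 * (2 * r) := by gcongr
      _ = _ := by ring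
  have b2 : ‖X * W ^ 3 * (((N / r - k ^ 2 * δ ^ 3 / 2) / (2 * √2 * √π) : ℝ) : ℂ)‖ ≤
      (C ^ 3 + 2 * C) * ε * O ^ 3 * E * (144 * τ ^ 3) := by
    rw [norm_mul, norm_mul, hX, norm_pow, hW]
    calc _ ≤ E * E * O ^ 3 * ((C ^ 3 + 2 * C) * ε * δ ^ 3) := by
          gcongr; exact (div_sp _).trans b1
      _ = (C ^ 3 + 2 * C) * ε * O ^ 3 * E * (δ ^ 3 * E) := by ring
      _ ≤ _ := by gcongr
  have b3 : ‖W ^ 4 * N * ((K - X * ((√π : ℝ) * ((√2 : ℝ) * W * r)⁻¹)) / (2 * π))‖ ≤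
      8 * C ^ 2 * (O * τ) * E * (ε * (O * τ) ^ 2) := by
    rw [norm_mul, norm_mul, norm_pow, hW, norm_real, Real.norm_eq_abs]
    calc _ ≤ a ^ 4 * (C * δ ^ 4) * (C * ((a * r) ^ 3)⁻¹ * (E * E) / 6) := by
          gcongr; exact (div_pi _).trans (by gcongr)
      _ = C ^ 2 * a * E * (δ * E) * δ ^ 3 / (6 * r ^ 3) := by field_simp
      _ ≤ C ^ 2 * O * E * (6 * τ) * (2 * r) ^ 3 / (6 * r ^ 3) := by gcongr
      _ = 8 * C ^ 2 * (O * τ) * E * 1 := by field_simp; ring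
      _ ≤ _ := by gcongr
  have b4 : ‖√2 * W / 4 * (Y - X * (W ^ 2 * (k ^ 2 * (δ ^ 2 * δ) / (2 * √π) : ℝ)))‖ ≤
      O * (C * ε * (O ^ 2 * τ ^ 2 * τ) * E) := by
    rw [norm_mul, norm_div, norm_mul, hW, norm_real, Complex.norm_ofNat,
      Real.norm_of_nonneg (Real.sqrt_nonneg _)]
    gcongr
    have : √2 ≤ 2 := Real.sqrt_le_iff.2 ⟨by norm_num, by norm_num⟩
    nlinarith
  rw [e]
  refine ((norm_sub_le _ _).trans (add_le_add (norm_add_le _ _) b4)).trans ?_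
  linarith

lemma cube {o T : ℝ} (ho : 0 ≤ o) (hT : 0 ≤ T) : o * T * √(o * T) = (√o * √T) ^ 3 := by
  rw [← Real.sqrt_mul ho, pow_succ, Real.sq_sqrt (mul_nonneg ho hT)]

/-- bounds without cancellation -/
lemma crude (hS : St_SH) (hF : St_F0) (hM : St_MB) (j : ℝ) {p q : ℕ}
    (hq : 9 * (p + 1) + 2 ≤ 2 * q) : ∃ C, 0 ≤ C ∧ ∃ h0, ∀ h, h0 ≤ h → ∀ γ (y s v u : ℝ), Nc j γ →
    |y| ≤ YY q h → γ v ≠ γ u →
    ‖fS (mu q h y) γ v u -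
      (2 * √2 * rt (mu q h y))⁻¹ * md (mu q h y) (kp γ s) (1 / 2) sP (p + 2) (u - v)‖ ≤
      C * (√(om q h * c0 γ v u))⁻¹ * Real.exp (-(c0 γ v u / (2 * Tt q h))) ∧
    ‖fK (mu q h y) γ v u - md (mu q h y) (kp γ s) 0 sA (p + 2) (u - v)‖ ≤
      C * √(om q h * Tt q h) * Real.exp (-(c0 γ v u / (2 * Tt q h))) ∧
    ‖fSb (mu q h y) γ v u -
      √2 * rt (mu q h y) / 4 * md (mu q h y) (kp γ s) (-(1 / 2)) sB (p + 2) (u - v)‖ ≤
      C * (om q h * Tt q h * √(om q h * Tt q h)) * Real.exp (-(c0 γ v u / (2 * Tt q h))) := by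
  have q4 : 4 ≤ q := by omega
  obtain ⟨h0, H0⟩ := par hS hq
  obtain ⟨C1, h1, H1⟩ := hF j q q4
  obtain ⟨C2, h2, H2⟩ := hM j (1 / 2) sP (p + 2) 0 q q4 (by simp)
  obtain ⟨C3, h3, H3⟩ := hM j 0 sA (p + 2) 1 q q4 fun n hn => by
    rw [Nat.lt_one_iff.1 hn]; simp [sA]
  obtain ⟨C4, h4, H4⟩ := hM j (-(1 / 2)) sB (p + 2) 2 q q4 fun n hn => by
    have : ¬2 ≤ n := by omega
    simp [sB, this]
  refine ⟨|C1| + |C2| + 3 * |C3| + 18 * |C4|, by positivity,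
    max (max h0 h1) (max h2 (max h3 h4)), fun h hh γ y s v u hγ hy hne => ?_⟩
  simp only [max_le_iff] at hh
  obtain ⟨o0, T0, -, -, -, P⟩ := H0 h hh.1.1
  obtain ⟨m0, m1, m2, -⟩ := P y hy
  obtain ⟨f1, f2, -, f3, -⟩ := H1 h hh.1.2 γ y v u hγ hy hne
  have uv : u - v ≠ 0 := fun e => hne (by rw [sub_eq_zero.1 e])
  have g1 := H2 h hh.2.1 y _ _ hy (hγ.bk s) uv
  have g2 := H3 h hh.2.2.1 y _ _ hy (hγ.bk s) uv
  have g3 := H4 h hh.2.2.2 y _ _ hy (hγ.bk s) uv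
  have d0 : 0 < |u - v| := abs_pos.2 uv
  have cd : c0 γ v u ≤ |u - v| := abs_sub_comm v u ▸ hγ.c0_le_abs v u
  have c0' : 0 < c0 γ v u := norm_pos_iff.2 (sub_ne_zero.2 hne)
  rw [show (1 / 2 + 3 * (0 : ℕ) / 2 - 1 : ℝ) = -(1 / 2) by norm_num, Real.rpow_neg d0.le,
    ← Real.sqrt_eq_rpow, pow_zero, mul_one] at g1
  rw [show (0 + 3 * (1 : ℕ) / 2 - 1 : ℝ) = 1 / 2 by norm_num, ← Real.sqrt_eq_rpow, pow_one] at g2
  rw [show (-(1 / 2) + 3 * (2 : ℕ) / 2 - 1 : ℝ) = 1 / 2 * (3 : ℕ) by norm_num,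
    Real.rpow_mul_natCast d0.le, ← Real.sqrt_eq_rpow] at g3
  have s1' := sqM 1 d0.le cd T0
  have s3 := sqM 3 d0.le cd T0
  have ex : Real.exp (-(3 * |u - v| / (4 * Tt q h))) ≤ Real.exp (-(c0 γ v u / (2 * Tt q h))) := by
    rw [Real.exp_le_exp, neg_le_neg_iff, div_le_div_iff₀ (by positivity) (by positivity)]
    linarith only [mul_le_mul_of_nonneg_right cd T0.le, mul_pos d0 T0]
  rw [cube o0.le T0.le] at f3 ⊢
  rw [Real.sqrt_mul o0.le] at f1 f2 ⊢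
  rw [Real.sqrt_mul o0.le]
  have O0 := Real.sqrt_pos.2 o0
  have r0 := Real.sqrt_pos.2 c0'
  have rd := Real.sqrt_le_sqrt cd
  have t0 := Real.sqrt_pos.2 T0
  norm_num [Nat.factorial] at s1' s3
  set O := √(om q h)
  set τ := √(Tt q h)
  set r := √(c0 γ v u)
  set δ := √|u - v|
  set E := Real.exp (-(c0 γ v u / (2 * Tt q h)))
  set E' := Real.exp (-(3 * |u - v| / (4 * Tt q h)))
  have E0 : 0 < E := Real.exp_pos _
  have E0' : 0 < E' := Real.exp_pos _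
  have a1 := abs_nonneg C1
  have a2 := abs_nonneg C2
  have a3 := abs_nonneg C3
  have a4 := abs_nonneg C4
  refine ⟨(norm_sub_le _ _).trans ?_, (norm_sub_le _ _).trans ?_, (norm_sub_le _ _).trans ?_⟩
  · have b2 : ‖(2 * √2 * rt (mu q h y))⁻¹‖ ≤ O⁻¹ := by
      rw [norm_inv, norm_mul, norm_mul, norm_rt, norm_real, Complex.norm_ofNat,
        Real.norm_of_nonneg (Real.sqrt_nonneg _)]
      gcongr
      nlinarith only [s1, m1, O0]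
    have b3 : C2 * δ⁻¹ * E' ≤ |C2| * r⁻¹ * E := by gcongr; exact le_abs_self _
    have b4 := mul_le_mul b2 (g1.trans b3) (norm_nonneg _) (by positivity)
    have b5 : C1 * (O * r)⁻¹ * E ≤ |C1| * (O * r)⁻¹ * E := by gcongr; exact le_abs_self _
    have b6 : 0 ≤ O⁻¹ * r⁻¹ * E := by positivity
    rw [norm_mul]
    rw [mul_inv O r] at f1 b5 ⊢
    linarith [mul_nonneg a3 b6, mul_nonneg a4 b6]
  · have b3 : C3 * O * δ * E' ≤ |C3| * O * (3 * τ * E) := by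
      rw [mul_assoc _ δ]
      exact mul_le_mul (by gcongr; exact le_abs_self _) s1' (by positivity) (by positivity)
    have b5 : C1 * (O * τ) * E ≤ |C1| * (O * τ) * E := by gcongr; exact le_abs_self _
    have b6 : 0 ≤ O * τ * E := by positivity
    linarith [mul_nonneg a2 b6, mul_nonneg a4 b6]
  · have b2 : ‖√2 * rt (mu q h y) / 4‖ ≤ O := by
      rw [norm_div, norm_mul, norm_rt, norm_real, Complex.norm_ofNat,
        Real.norm_of_nonneg (Real.sqrt_nonneg _)]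
      have : √2 ≤ 2 := Real.sqrt_le_iff.2 ⟨by norm_num, by norm_num⟩
      nlinarith only [Real.sqrt_nonneg ‖mu q h y‖, this, m2]
    have b3 : C4 * O ^ 2 * δ ^ 3 * E' ≤ |C4| * O ^ 2 * (18 * τ ^ 3 * E) := by
      rw [mul_assoc _ (δ ^ 3)]
      exact mul_le_mul (by gcongr; exact le_abs_self _) s3 (by positivity) (by positivity)
    have b4 := mul_le_mul b2 (g3.trans b3) (norm_nonneg _) (by positivity)
    have b5 : C1 * (O * τ) ^ 3 * E ≤ |C1| * (O * τ) ^ 3 * E := by gcongr; exact le_abs_self _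
    have b6 : 0 ≤ (O * τ) ^ 3 * E := by positivity
    rw [norm_mul]
    linarith [mul_nonneg a2 b6, mul_nonneg a3 b6]

/-- bounds near the diagonal -/
lemma near (hA : St_A2) (hQ : St_QS) (hS : St_SH) (hF : St_F1c) (j : ℝ) {p q : ℕ}
    (hq : 9 * (p + 1) + 2 ≤ 2 * q) : ∃ C, 0 ≤ C ∧ ∃ h0, ∀ h, h0 ≤ h → ∀ γ (y s v u : ℝ), Nc j γ →
    |y| ≤ YY q h → γ v ≠ γ u → |u - v| ≤ j⁻¹ →
    (Tt q h * eps p h ^ 2 ≤ c0 γ v u → ‖fS (mu q h y) γ v u -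
      (2 * √2 * rt (mu q h y))⁻¹ * md (mu q h y) (kp γ s) (1 / 2) sP (p + 2) (u - v)‖ ≤
      C * (eps p h + |v - s| + |u - s|) * (√(om q h * c0 γ v u))⁻¹ *
        Real.exp (-(c0 γ v u / (2 * Tt q h)))) ∧
    ‖fK (mu q h y) γ v u - md (mu q h y) (kp γ s) 0 sA (p + 2) (u - v)‖ ≤
      C * (eps p h + |v - s| + |u - s|) * √(om q h * Tt q h) *
        Real.exp (-(c0 γ v u / (2 * Tt q h))) ∧
    ‖fSb (mu q h y) γ v u -
      √2 * rt (mu q h y) / 4 * md (mu q h y) (kp γ s) (-(1 / 2)) sB (p + 2) (u - v)‖ ≤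
      C * (eps p h + |v - s| + |u - s|) * (om q h * Tt q h * √(om q h * Tt q h)) *
        Real.exp (-(c0 γ v u / (2 * Tt q h))) := by
  obtain ⟨h0, H0⟩ := par hS hq
  obtain ⟨C1, c1, H1⟩ := asy hA
  obtain ⟨C2, c2, H2⟩ := geo hQ j
  obtain ⟨C3, h3, H3⟩ := hF j p q hq
  obtain ⟨C, k1, k2, k3, k4⟩ : ∃ C, C1 ≤ C ∧ C2 + j ^ 2 ≤ C ∧ C3 ≤ C ∧ j ≤ C :=
    ⟨max (max C1 (C2 + j ^ 2)) (max C3 j), by simp, by simp, by simp, by simp⟩
  have C0 : 0 ≤ C := c1.trans k1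
  have k5 : C2 ≤ C := by linarith [sq_nonneg j]
  have k6 : 4 * C ≤ 144 * C ^ 3 + 8 * C ^ 2 + 289 * C := by
    linarith [pow_nonneg C0 3, sq_nonneg C]
  have k7 : 7 * C ^ 2 + 7 * C ≤ 144 * C ^ 3 + 8 * C ^ 2 + 289 * C := by
    linarith [pow_nonneg C0 3, sq_nonneg C]
  refine ⟨144 * C ^ 3 + 8 * C ^ 2 + 289 * C, by positivity, max h0 h3,
    fun h hh γ y s v u hγ hy hne hd => ?_⟩
  obtain ⟨o0, T0, e0, e1, e3, P⟩ := H0 h ((le_max_left _ _).trans hh)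
  obtain ⟨m0, m1, m2, m3⟩ := P y hy
  have vu : v ≠ u := fun e => hne (by rw [e])
  obtain ⟨f1, f2, -, f3, -⟩ := H3 h ((le_max_right _ _).trans hh) γ y s v u hγ hy vu hd
  obtain ⟨g1, g2, g3, g4, -, -, g5, -, -, g6⟩ := H2 γ s v u hγ vu hd
  obtain ⟨-, -, -, -, -, -, -, -, -, g7⟩ := H2 γ u v u hγ vu hd
  have cp : 0 < c0 γ v u := norm_pos_iff.2 (sub_ne_zero.2 hne)
  obtain ⟨l1, -, l2⟩ := H1 _ _ m0 cp
  have d0 : 0 < |u - v| := abs_pos.2 (sub_ne_zero.2 vu.symm)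
  have cd : c0 γ v u ≤ |u - v| := abs_sub_comm v u ▸ hγ.c0_le_abs v u
  have s1' := sqE 1 cp.le (show |u - v| ≤ 4 * c0 γ v u by linarith) T0
  have s3 := sqE 3 cp.le (show |u - v| ≤ 4 * c0 γ v u by linarith) T0
  norm_num [Nat.factorial] at s1' s3
  have x1 := m3 (c0 γ v u)
  rw [x1] at l1 l2
  have O0 := Real.sqrt_pos.2 o0
  have r0 := Real.sqrt_pos.2 cp
  have rd := Real.sqrt_le_sqrt cd
  have t0 := Real.sqrt_pos.2 T0
  have O2 := Real.sq_sqrt o0.le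
  have r2 := Real.sq_sqrt cp.le
  have t2 := Real.sq_sqrt T0.le
  have d2 := Real.sq_sqrt d0.le
  have d4 : (u - v) ^ 2 = √|u - v| ^ 4 := by
    rw [show 4 = 2 * 2 by rfl, pow_mul, d2, sq_abs]
  have E1 : Real.exp (-(c0 γ v u / (2 * Tt q h))) ≤ 1 :=
    Real.exp_le_one_iff.2 (neg_nonpos.2 (by positivity))
  have i1 : |v - s| + |u - s| ≤ eps p h + |v - s| + |u - s| := by linarith
  have i2 : eps p h ≤ eps p h + |v - s| + |u - s| := by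
    linarith [abs_nonneg (v - s), abs_nonneg (u - s)]
  have i3 : 1 ≤ eps p h ^ 2 * (om q h * Tt q h) :=
    e3.trans (by gcongr ?_ * _; exact pow_le_pow_of_le_one e0.le e1 (by norm_num))
  have i4 : 1 ≤ eps p h ^ 1 * (om q h * Tt q h) :=
    e3.trans (by gcongr ?_ * _; exact pow_le_pow_of_le_one e0.le e1 (by norm_num))
  have i5 : |1 - rdot (nr γ v) (nr γ u)| ≤ C * √|u - v| ^ 4 := by
    have k2' : kp γ u ^ 2 ≤ j ^ 2 := sq_le_sq' (abs_le.1 (hγ.bk u)).1 (abs_le.1 (hγ.bk u)).2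
    rw [sub_self, abs_zero, add_zero, abs_sub_comm v u] at g7
    have w1 : C2 * |u - v| * (u - v) ^ 2 ≤ C2 * 1 * (u - v) ^ 2 := by gcongr
    have w2 : kp γ u ^ 2 * (u - v) ^ 2 ≤ j ^ 2 * (u - v) ^ 2 := by gcongr
    have w3 : (C2 + j ^ 2) * (u - v) ^ 2 ≤ C * (u - v) ^ 2 := by gcongr
    have w4 : 0 ≤ kp γ u ^ 2 * (u - v) ^ 2 := by positivity
    rw [← d4]
    rw [abs_le] at g7 ⊢
    constructor <;> linarith
  rw [cube o0.le T0.le, Real.sqrt_mul o0.le, Real.sqrt_mul o0.le]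
  rw [Real.sqrt_mul o0.le] at f2
  rw [d4] at g6
  set ε := eps p h + |v - s| + |u - s|
  have ε0 : 0 ≤ ε := e0.le.trans i2
  have j1 : abs (√(c0 γ v u) - √|u - v|) ≤ C * ε * √|u - v| := g3.trans (by gcongr)
  refine ⟨fun hc => (n1 C0 ε0 O0 r0 (Real.exp_pos _).le E1 (l1.trans (by gcongr))
      (f1.trans (by gcongr)) x1 (norm_rt _) m1 j1 rd ?_).trans ?_,
    (n2 C0 ε0 O0 (Real.sqrt_nonneg _) (Real.exp_pos _).le E1 (l2.trans (by gcongr))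
      (f2.trans (by gcongr)) x1 ((norm_rt _).trans_le m2) j1 (g4.trans k5) (g5.trans (by gcongr))
      s1' ?_).trans ?_, ?_⟩
  · rw [mul_pow, O2, r2]
    calc 1 ≤ eps p h * (om q h * (Tt q h * eps p h ^ 2)) := e3.trans_eq (by ring)
      _ ≤ _ := by gcongr
  · gcongr
  · refine le_trans ?_ (mul_le_mul_of_nonneg_right i2 (by positivity))
    refine (one_le_sq_iff₀ (by positivity)).1 ?_
    rwa [mul_pow, mul_pow, O2, t2]
  · gcongr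
  · have := n3 (W := rt (mu q h y)) (Y := md (mu q h y) (kp γ s) (-(1 / 2)) sB (p + 2) (u - v))
      (k := kp γ s) C0 ε0 (by linarith only [O0, m1]) r0 (Real.sqrt_nonneg _) t0.le (Real.exp_pos _).le
      (l1.trans (by gcongr)) (by rw [rt_sq, d2, O2, t2]; exact f3.trans (by gcongr)) x1
      (norm_rt _) m2 j1 (abs_le_of_sq_le_sq' (by rw [mul_pow, d2, r2]; linarith) (by positivity)).2 ((hγ.bk s).trans k4) i5 (g6.trans (by gcongr)) s1' s3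
      (by rw [mul_pow, O2, t2]; exact i4.trans (by rw [pow_one]; gcongr))
    rwa [rt_sq] at this

end F1a

open F1a in
theorem st_f1a (hA : St_A2) (hQ : St_QS) (hS : St_SH) (h0 : St_F0) (hM : St_MB) (hc : St_F1c) :
    St_F1a := by
  intro j p q hq
  obtain ⟨C1, c1, h1, H1⟩ := crude hS h0 hM j hq
  obtain ⟨C2, c2, h2, H2⟩ := near hA hQ hS hc j hq
  obtain ⟨h3, H3⟩ := K78.par hS hq
  refine ⟨C1 * (|j| + 1) + C2, max h1 (max h2 h3), fun h hh γ y s v u hγ hy hne _ _ => ?_⟩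
  simp only [max_le_iff] at hh
  obtain ⟨a1, a2, a3⟩ := H1 h hh.1 γ y s v u hγ hy hne
  obtain ⟨o0, T0, e0, -⟩ := H3 h hh.2.2
  have ε0 : 0 ≤ eps p h + |v - s| + |u - s| := by positivity
  have i0 : (0 : ℝ) ≤ if c0 γ v u ≤ Tt q h * eps p h ^ 2 then 1 else 0 := by positivity
  have j0 := hγ.pos
  rw [abs_of_pos j0]
  intro μ o T k c E ε
  rcases le_total |u - v| j⁻¹ with hd | hd
  · obtain ⟨b1, b2, b3⟩ := H2 h hh.2.1 γ y s v u hγ hy hne hd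
    have k1 : C2 ≤ C1 * (j + 1) + C2 := le_add_of_nonneg_left (by positivity)
    refine ⟨?_, b2.trans (by gcongr), b3.trans (by gcongr)⟩
    split_ifs with hc
    · refine a1.trans ?_
      gcongr
      nlinarith [mul_nonneg c1 ε0, mul_nonneg c2 ε0, mul_nonneg c1 j0.le,
        mul_nonneg (mul_nonneg c1 j0.le) ε0]
    · rw [add_zero]
      exact (b1 (not_le.1 hc).le).trans (by gcongr)
  · have k0 : 1 ≤ j * ε := by
      rw [← inv_mul_le_iff₀ j0, mul_one]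
      have : |u - v| ≤ |u - s| + |v - s| := by
        rw [show u - v = u - s - (v - s) by ring]
        exact abs_sub _ _
      exact hd.trans (this.trans (by simp only [ε]; linarith))
    have k1 : C1 ≤ (C1 * (j + 1) + C2) * ε := by
      nlinarith [mul_nonneg c1 ε0, mul_nonneg c2 ε0, mul_le_mul_of_nonneg_left k0 c1]
    refine ⟨a1.trans ?_, a2.trans (by gcongr), a3.trans (by gcongr)⟩
    gcongr
    exact k1.trans (by gcongr; exact le_add_of_nonneg_right i0)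

end Pool.Agent.Lib.IS2
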