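import Pool.Agent.Lib.IS2.B_F2a

/-! One step of the Neumann series; the geometric tail; the algebra of the models. -/

open scoped ContDiff ComplexConjugate Topology Real
open Complex MeasureTheory Set Filter

noncomputable section

namespace Pool.Agent.Lib.IS2.F2

open F2a

variable {j h o T e N : ℝ} {γ : ℝ → ℂ}

lemma step (hγ : Nc j γ) (hT : 0 < T) {s κ α : ℝ} {m : ℕ} (hm : m ≤ 2) (hκ : 0 ≤ κ) {R : ℝ → ℂ}
    {k : ℝ → ℝ → ℂ} (hR : Integrable R (nu s)) (hα : ∫ v, ‖R v‖ * wX T (c0 γ s v) ^ m ∂nu s ≤ α)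
    (hk : Measurable (Function.uncurry k))
    (kb : ∀ v u, γ v ≠ γ u → ‖k v u‖ ≤ κ * Real.exp (-(c0 γ v u / (2 * T)))) :
    (∀ u, Integrable (fun v => R v * k v u) (nu s) ∧
      ‖∫ v, R v * k v u ∂nu s‖ * wX T (c0 γ s u) ^ m ≤ α * κ) ∧
    Integrable (fun u => ∫ v, R v * k v u ∂nu s) (nu s) ∧
    ∫ u, ‖∫ v, R v * k v u ∂nu s‖ * wX T (c0 γ s u) ^ m ∂nu s ≤ α * (36 * j * κ * T) := by
  have hj := hγ.pos
  have i1 := int_mul_w hR ((cont_w hγ T s).pow m)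
  have f0 : ∀ v, 0 ≤ ‖R v‖ * wX T (c0 γ s v) ^ m := fun v =>
    mul_nonneg (norm_nonneg _) (pow_pos (wX_pos _ _) _).le
  have k1 : ∀ v u, γ v ≠ γ u → ‖R v * k v u‖ * wX T (c0 γ s u) ^ m ≤ ‖R v‖ * wX T (c0 γ s v) ^ m *
      (κ * (Real.exp (-(c0 γ v u / (2 * T))) * wX T (c0 γ v u) ^ 2)) := fun v u hn => by
    have h1 := one_le_wX hT (c0_nn γ v u)
    have h2 := wX_pos T (c0 γ s u)
    have h3 := wX_pos T (c0 γ s v)
    have h4 := wX_tri hT γ s v u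
    have h5 := kb v u hn
    calc _ ≤ ‖R v‖ * (κ * Real.exp (-(c0 γ v u / (2 * T)))) *
          (wX T (c0 γ s v) * wX T (c0 γ v u)) ^ m := by rw [norm_mul]; gcongr
      _ = ‖R v‖ * wX T (c0 γ s v) ^ m *
          (κ * (Real.exp (-(c0 γ v u / (2 * T))) * wX T (c0 γ v u) ^ m)) := by ring
      _ ≤ _ := by gcongr
  have k2 : ∀ u, ∀ᵐ v ∂nu s,
      ‖R v * k v u‖ * wX T (c0 γ s u) ^ m ≤ ‖R v‖ * wX T (c0 γ s v) ^ m * κ := fun u =>
    (ae_ne hγ u s).mono fun v hv => (k1 v u hv.symm).trans (mul_le_mul_of_nonneg_left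
      (mul_le_of_le_one_right hκ (by
        have h1 := one_le_wX hT (c0_nn γ v u)
        rw [E_eq, inv_pow, inv_mul_le_one₀ (by positivity)]
        gcongr
        norm_num)) (f0 v))
  have hm2 : AEStronglyMeasurable (Function.uncurry fun v u => R v * k v u) ((nu s).prod (nu s)) :=
    hR.1.comp_fst.mul hk.aestronglyMeasurable
  obtain ⟨r1, r2⟩ : (∀ v, Integrable (fun u => 3 * √T * κ * pz (8 * T) (c0 γ v u)) (nu s)) ∧
      ∀ v, ∫ u, 3 * √T * κ * pz (8 * T) (c0 γ v u) ∂nu s ≤ 36 * j * κ * T :=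
    ⟨fun v => (row8 hγ hT v s).1.const_mul _, fun v => by
      rw [integral_const_mul]
      refine (mul_le_mul_of_nonneg_left (row8 hγ hT v s).2 (by positivity)).trans_eq ?_
      linear_combination 36 * j * κ * Real.mul_self_sqrt hT.le⟩
  obtain ⟨a1, a2, a3⟩ := prod_bd i1 f0 hα (by positivity)
    (meas2 hγ ((meas_pz (8 * T)).const_mul (3 * √T * κ)))
    (fun v u => mul_nonneg (by positivity) (pz_nn _ _)) fun v => ⟨r1 v, r2 v⟩
  have w1 : ∀ u, 1 ≤ wX T (c0 γ s u) ^ m := fun u => one_le_pow₀ (one_le_wX hT (c0_nn _ _ _))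
  obtain ⟨b1, b2⟩ := l1_of (H := fun u => ∫ v, R v * k v u ∂nu s) hm2.prod_swap.integral_prod_right'
    w1 a2 (a1.mono fun u i => int_w (one_pos.trans_le (w1 u)) i ((ae_ne hγ u s).mono fun v hv =>
      (k1 v u hv.symm).trans (mul_le_mul_of_nonneg_left (by
        rw [← PP_eq]
        have := nf2 hT (c := c0 γ v u) (norm_pos_iff.2 (sub_ne_zero.2 hv.symm))
        calc _ ≤ κ * (3 * √T * PP T (c0 γ v u) * wX T (c0 γ v u) ^ 2) := by gcongr
          _ = _ := by ring) (f0 v))))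
  refine ⟨fun u => ⟨(i1.mul_const κ).mono' (hR.1.mul (hk.comp (by fun_prop : Measurable
    fun v : ℝ => (v, u))).aestronglyMeasurable) ((k2 u).mono fun v hv =>
      (le_mul_of_one_le_right (norm_nonneg _) (w1 u)).trans hv),
    (int_w (one_pos.trans_le (w1 u)) (i1.mul_const κ) (k2 u)).trans ?_⟩, b1, b2.trans a3⟩
  rw [integral_mul_const]
  exact mul_le_mul_of_nonneg_right hα hκ

lemma km {k : ℂ → ℝ → ℝ → ℂ} (hk : Kk γ k) (μ : ℂ) : Measurable (Function.uncurry (k μ)) :=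
  hk.1.comp (by fun_prop : Measurable fun v : ℝ × ℝ => (μ, v.1, v.2))

lemma ro_succ (hKD : St_KD) (hNH : St_NH) (hγ : Nc j γ) (μ : ℂ) (n : ℕ) (s u : ℝ) :
    ro μ γ (n + 1) s u = ∫ v, ro μ γ n s v * fK μ γ v u ∂nu s := per_eq (fun v => by
  simp only [(((hNH j).1 γ hγ).2.2.1 μ n s v).2, ((hKD j γ hγ).1.2.1.2.1 μ v u).1]) s

lemma sx (P : Par j h o T e N) : √(o * T) * T = (h ^ 3)⁻¹ := by
  rw [← P.x, Real.sqrt_mul P.o0.le]
  ring

lemma kbd (h0 : St_F0) (j : ℝ) {q : ℕ} (hq : 4 ≤ q) : ∃ C, 0 ≤ C ∧ ∀ᶠ h in atTop, ∀ γ y, Nc j γ →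
    |y| ≤ YY q h → ∀ v u, γ v ≠ γ u → ‖fK (mu q h y) γ v u‖ ≤
      C * √(om q h * Tt q h) * Real.exp (-(c0 γ v u / (2 * Tt q h))) := by
  obtain ⟨C, k, H⟩ := h0 j q hq
  refine ⟨|C|, abs_nonneg _, (eventually_ge_atTop k).mono fun h a γ y hγ hy v u hn =>
    (H h a γ y v u hγ hy hn).2.1.trans ?_⟩
  have := le_abs_self C
  gcongr

lemma tail (hKD : St_KD) (hNH : St_NH) (h0 : St_F0) (h2 : St_F2a) (j : ℝ) {p q : ℕ}
    (hq : 9 * (p + 1) + 2 ≤ 2 * q) : ∃ A B, 0 ≤ A ∧ 0 ≤ B ∧ ∀ᶠ h in atTop, ∀ γ y s, Nc j γ →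
    |y| ≤ YY q h → ∀ n, Integrable (ro (mu q h y) γ n s) (nu s) ∧
      ∀ u, ‖ro (mu q h y) γ (n + 1) s u‖ * wX (Tt q h) (c0 γ s u) ≤
        A * N0 q h * (B * (h ^ 3)⁻¹) ^ n := by
  obtain ⟨C, hC, H⟩ := kbd h0 j (q := q) (by omega)
  obtain ⟨C1, k, H1⟩ := h2 j p q hq
  refine ⟨|C1| * C, 36 * |j| * C, by positivity, by positivity, ?_⟩
  filter_upwards [H, eventually_ge_atTop k, par j hq] with h H hk P γ y s hγ hy
  rw [abs_of_pos hγ.pos]
  obtain ⟨i1, -, i2, -⟩ := H1 h hk γ y s hγ hy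
  simp only [i_eq, w4_eq] at i2
  have hT := P.T0
  have hN := P.N0
  have hh := P.h0
  have hj := hγ.pos
  have st := fun n α a b => step hγ hT (s := s) (α := α) (m := 2) (R := ro (mu q h y) γ n s) le_rfl
    (by positivity) a b (km (hKD j γ hγ).1.2.1 (mu q h y)) (H γ y hγ hy)
  simp only [← ro_succ hKD hNH hγ] at st
  have key : ∀ n, Integrable (ro (mu q h y) γ n s) (nu s) ∧
      ∫ v, ‖ro (mu q h y) γ n s v‖ * wX (Tt q h) (c0 γ s v) ^ 2 ∂nu s ≤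
        |C1| * N0 q h * Tt q h * (36 * j * C * (h ^ 3)⁻¹) ^ n := fun n => by
    induction n with
    | zero =>
      refine ⟨ii_iff.1 i1, i2.trans ?_⟩
      have := le_abs_self C1
      rw [pow_zero, mul_one]
      exact le_trans (by gcongr) (div_le_self (by positivity) (one_le_pow₀ P.h1))
    | succ n ih =>
      obtain ⟨-, a, b⟩ := st n _ ih.1 ih.2
      refine ⟨a, b.trans_eq ?_⟩
      rw [← sx P]
      ring
  refine fun n => ⟨(key n).1, fun u => ?_⟩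
  have h1 := one_le_wX hT (c0_nn γ s u)
  refine (mul_le_mul_of_nonneg_left (le_self_pow₀ h1 two_ne_zero) (norm_nonneg _)).trans
    (((st n _ (key n).1 (key n).2).1 u).2.trans ?_)
  calc _ = |C1| * C * N0 q h * (36 * j * C * (h ^ 3)⁻¹) ^ n * (√(om q h * Tt q h) * Tt q h) := by ring
    _ ≤ _ := mul_le_of_le_one_right (by positivity) (by rw [sx P]; exact P.x1)

lemma md_sum (μ : ℂ) (k b : ℝ) (a : ℕ → ℝ) (F : ℕ → PowerSeries ℝ) (p : ℕ) (d : ℝ) (n : ℕ) :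
    md μ k b (∑ m ∈ Finset.range n, PowerSeries.C (a m) * F m) p d =
      ∑ m ∈ Finset.range n, a m * md μ k b (F m) p d := by
  induction n with
  | zero => simp [md]
  | succ n ih => rw [Finset.sum_range_succ, Finset.sum_range_succ, md_add, md_C, ih]

lemma coeff_sN (n i : ℕ) (hi : i < n) : PowerSeries.coeff i sN = PowerSeries.coeff i
    (∑ m ∈ Finset.range n, PowerSeries.C (2 * (-2) ^ m : ℝ) * (sN0 * sA ^ m)) := by
  have h1 : PowerSeries.constantCoeff sA = 0 := by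
    rw [← PowerSeries.coeff_zero_eq_constantCoeff_apply, sA0]
  have h2 := PowerSeries.mul_inv_cancel (PowerSeries.C (1 / 2 : ℝ) + sA) (by simp [h1])
  have h3 := mul_neg_geom_sum (PowerSeries.C (-2 : ℝ) * sA) n
  have h4 : PowerSeries.C (1 / 2 : ℝ) * PowerSeries.C (2 : ℝ) = 1 := by
    rw [← map_mul]
    norm_num
  have h5 : ∑ m ∈ Finset.range n, PowerSeries.C (2 * (-2) ^ m : ℝ) * (sN0 * sA ^ m) =
      sN0 * PowerSeries.C (2 : ℝ) * ∑ m ∈ Finset.range n, (PowerSeries.C (-2 : ℝ) * sA) ^ m := by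
    rw [Finset.mul_sum]
    refine Finset.sum_congr rfl fun m _ => ?_
    rw [map_mul, map_pow]
    ring
  have h6 : sN - ∑ m ∈ Finset.range n, PowerSeries.C (2 * (-2) ^ m : ℝ) * (sN0 * sA ^ m) =
      (PowerSeries.C (-2 : ℝ) * sA) ^ n * sN := by
    rw [h5, sN]
    rw [map_neg] at h3 ⊢
    set S := ∑ m ∈ Finset.range n, (-PowerSeries.C (2 : ℝ) * sA) ^ m
    set V := (PowerSeries.C (1 / 2 : ℝ) + sA)⁻¹
    linear_combination sN0 * PowerSeries.C (2 : ℝ) * S * h2 - sN0 * V * h3 - sN0 * V * S * h4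
  have h7 : PowerSeries.X ^ n ∣ (PowerSeries.C (-2 : ℝ) * sA) ^ n * sN :=
    (pow_dvd_pow_of_dvd ((PowerSeries.X_dvd_iff.2 h1).mul_left _) n).mul_right _
  rw [← sub_eq_zero, ← map_sub, h6]
  exact PowerSeries.X_pow_dvd_iff.1 h7 i hi

lemma Nm_sN (μ : ℂ) (k : ℝ) (p : ℕ) (d : ℝ) : Nm μ k sN p d = 2 * Nm μ k sN0 p d +
    ∑ n ∈ Finset.range p, 2 * (-2) ^ (n + 1) * Nm μ k (sN0 * sA ^ (n + 1)) p d := by
  have : md μ k (-(1 / 2)) sN p d = md μ k (-(1 / 2))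
      (∑ m ∈ Finset.range (p + 1), PowerSeries.C (2 * (-2) ^ m : ℝ) * (sN0 * sA ^ m)) p d :=
    Finset.sum_congr rfl fun i hi => by rw [coeff_sN (p + 1) i (Finset.mem_range.1 hi)]
  simp only [Nm]
  rw [this, md_sum, Finset.sum_range_succ', mul_add, Finset.mul_sum, add_comm]
  congr 1
  · simp only [pow_zero, mul_one, ofReal_ofNat]
    ring
  · refine Finset.sum_congr rfl fun n _ => ?_
    push_cast
    ring

lemma inv32 {L c : ℝ} (hL : 1 ≤ L) (hT : 0 < T) (hc : T / L ≤ c) :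
    (c * √c)⁻¹ ≤ L ^ 2 * (T * √T)⁻¹ := by
  have h0 : 0 < c := lt_of_lt_of_le (by positivity) hc
  have h1 : T ≤ L * c := (div_le_iff₀' (by positivity)).1 hc
  have h2 : √T ≤ L * √c := Real.sqrt_le_iff.2 ⟨by positivity, by
    rw [mul_pow, Real.sq_sqrt h0.le]
    exact h1.trans (by gcongr; exact le_self_pow₀ hL two_ne_zero)⟩
  rw [← div_eq_mul_inv, inv_eq_one_div, div_le_div_iff₀ (by positivity) (by positivity)]
  calc _ ≤ L * c * (L * √c) := by rw [one_mul]; gcongr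
    _ = _ := by ring

end Pool.Agent.Lib.IS2.F2
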