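import Pool.Agent.Lib.IS2.Blue

/-! Row integrals and convolution bounds used by the blocks `F2a` and `F2`. -/

open scoped ContDiff ComplexConjugate Topology Real
open Complex MeasureTheory Set Filter

noncomputable section

namespace Pool.Agent.Lib.IS2.F2a

/-- Lebesgue measure on the period centred at `s` -/
abbrev nu (s : ℝ) : Measure ℝ := volume.restrict (Ioc (s - π) (s + π))
def pz (τ c : ℝ) : ℝ := (√c)⁻¹ * Real.exp (-(c / τ))
def wX (T c : ℝ) : ℝ := Real.exp (c / (8 * T))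

lemma le_pi (s : ℝ) : s - π ≤ s + π := by linarith [Real.pi_pos]
lemma ii_iff {E : Type} [NormedAddCommGroup E] {f : ℝ → E} {s : ℝ} :
    IntervalIntegrable f volume (s - π) (s + π) ↔ Integrable f (nu s) :=
  intervalIntegrable_iff_integrableOn_Ioc_of_le (le_pi s)
lemma i_eq {E : Type} [NormedAddCommGroup E] [NormedSpace ℝ E] (f : ℝ → E) (s : ℝ) :
    ∫ u in (s - π)..(s + π), f u = ∫ u, f u ∂nu s := intervalIntegral.integral_of_le (le_pi s)
lemma per_eq {E : Type} [NormedAddCommGroup E] [NormedSpace ℝ E] {f : ℝ → E}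
    (hf : Function.Periodic f (2 * π)) (s : ℝ) : ∫ u in (0 : ℝ)..(2 * π), f u = ∫ u, f u ∂nu s := by
  have := hf.intervalIntegral_add_eq 0 (s - π)
  rw [zero_add, show s - π + 2 * π = s + π by ring] at this
  rw [this, i_eq]

lemma pz_nn (τ c : ℝ) : 0 ≤ pz τ c := by unfold pz; positivity
lemma wX_pos (T c : ℝ) : 0 < wX T c := Real.exp_pos _
lemma one_le_wX {T c : ℝ} (hT : 0 < T) (hc : 0 ≤ c) : 1 ≤ wX T c :=
  Real.one_le_exp (by positivity)
lemma c0_nn (γ : ℝ → ℂ) (a b : ℝ) : 0 ≤ c0 γ a b := norm_nonneg _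
lemma c0_tri (γ : ℝ → ℂ) (a b c : ℝ) : c0 γ a c ≤ c0 γ a b + c0 γ b c :=
  norm_sub_le_norm_sub_add_norm_sub _ _ _
lemma c0_comm (γ : ℝ → ℂ) (a b : ℝ) : c0 γ a b = c0 γ b a := norm_sub_rev _ _
lemma wX_tri {T : ℝ} (hT : 0 < T) (γ : ℝ → ℂ) (a b c : ℝ) :
    wX T (c0 γ a c) ≤ wX T (c0 γ a b) * wX T (c0 γ b c) := by
  rw [wX, wX, wX, ← Real.exp_add, ← add_div]
  exact Real.exp_le_exp.2 (div_le_div_of_nonneg_right (c0_tri γ a b c) (by positivity))

lemma cont_c0 {j : ℝ} {γ : ℝ → ℂ} (hγ : Nc j γ) : Continuous fun p : ℝ × ℝ => c0 γ p.1 p.2 :=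
  ((hγ.smooth.continuous.comp continuous_fst).sub (hγ.smooth.continuous.comp continuous_snd)).norm
lemma meas_pz (τ : ℝ) : Measurable (pz τ) := by unfold pz; fun_prop
lemma cont_wX (T : ℝ) : Continuous (wX T) := by unfold wX; fun_prop

lemma abs_le_c0 {j : ℝ} {γ : ℝ → ℂ} (hγ : Nc j γ) {s v : ℝ} (h : |v - s| ≤ π) :
    |v - s| ≤ j * c0 γ s v := by
  rw [← dc_eq_abs h, c0_comm]
  exact hγ.arc v s

lemma ae_mem (s : ℝ) : ∀ᵐ v ∂nu s, |v - s| ≤ π := by
  filter_upwards [ae_restrict_mem measurableSet_Ioc] with v hv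
  exact abs_le.2 ⟨by linarith [hv.1], by linarith [hv.2]⟩

lemma ae_ne {j : ℝ} {γ : ℝ → ℂ} (hγ : Nc j γ) (a s : ℝ) : ∀ᵐ v ∂nu s, γ a ≠ γ v := by
  refine ae_restrict_of_ae ?_
  have : ({v | ¬ γ a ≠ γ v} : Set ℝ).Countable :=
    (countable_range fun k : ℤ => a + k * (2 * π)).mono fun v hv => by
      obtain ⟨k, hk⟩ := hγ.inj (not_not.1 hv)
      exact ⟨k, hk.symm⟩
  exact this.measure_zero volume

lemma int_abs {f : ℝ → ℝ} (hf : IntegrableOn f (Ioi 0)) : Integrable fun x => f |x| := by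
  have h1 : IntegrableOn (fun x => f |x|) (Ioi 0) :=
    hf.congr_fun (fun x hx => by simp only [abs_of_pos (show 0 < x from hx)]) measurableSet_Ioi
  have h2 : IntegrableOn (fun x ↦ f |x|) (Iic 0) := by
    rw [← Measure.map_neg_eq_self (volume : Measure ℝ)]
    let m : MeasurableEmbedding fun x : ℝ => -x := (Homeomorph.neg ℝ).measurableEmbedding
    rw [m.integrableOn_map_iff]
    simp_rw [Function.comp_def, abs_neg, neg_preimage, neg_Iic, neg_zero]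
    exact Iff.mpr integrableOn_Ici_iff_integrableOn_Ioi h1
  rw [← integrableOn_univ, ← Iic_union_Ioi (a := (0 : ℝ))]
  exact h2.union h1

lemma pz_row {τ : ℝ} (hτ : 0 < τ) :
    IntegrableOn (pz τ) (Ioi 0) ∧ ∫ x in Ioi 0, pz τ x ≤ 2 * √τ := by
  have e : ∀ x ∈ Ioi (0 : ℝ), x ^ ((1 / 2 : ℝ) - 1) * Real.exp (-(τ⁻¹ * x)) = pz τ x := fun x hx => by
    rw [pz, Real.sqrt_eq_rpow, ← Real.rpow_neg (le_of_lt hx), div_eq_inv_mul x]
    norm_num
  refine ⟨?_, ?_⟩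
  · have := integrableOn_rpow_mul_exp_neg_mul_rpow (s := (1 / 2 : ℝ) - 1) (p := 1) (b := τ⁻¹)
      (by norm_num) one_pos (by positivity)
    refine this.congr_fun (fun x hx => ?_) measurableSet_Ioi
    simp only [Real.rpow_one, neg_mul]
    exact e x hx
  · rw [← setIntegral_congr_fun measurableSet_Ioi e,
      Real.integral_rpow_mul_exp_neg_mul_Ioi (by norm_num) (by positivity), Real.Gamma_one_half_eq,
      one_div, inv_inv, ← Real.sqrt_eq_rpow, mul_comm]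
    have : √π ≤ 2 := Real.sqrt_le_iff.2 ⟨by norm_num, by linarith [Real.pi_le_four]⟩
    gcongr

lemma pz_anti {τ c c' : ℝ} (hτ : 0 < τ) (h0 : 0 < c) (h : c ≤ c') : pz τ c' ≤ pz τ c := by
  unfold pz
  gcongr

lemma row {j : ℝ} {γ : ℝ → ℂ} (hγ : Nc j γ) {τ : ℝ} (hτ : 0 < τ) (a s : ℝ) :
    Integrable (fun v => pz τ (c0 γ a v)) (nu s) ∧ ∫ v, pz τ (c0 γ a v) ∂nu s ≤ 4 * j * √τ := by
  have hj := hγ.pos
  obtain ⟨i1, i2⟩ := pz_row (mul_pos hj hτ)
  have hp : Function.Periodic (fun v => pz τ (c0 γ a v)) (2 * π) := fun v => by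
    simp only [c0, hγ.per v]
  have i3 : Integrable fun v => √j * pz (j * τ) |v - a| :=
    ((int_abs i1).comp_sub_right a).const_mul _
  have hb : ∀ᵐ v ∂nu a, ‖pz τ (c0 γ a v)‖ ≤ √j * pz (j * τ) |v - a| := by
    filter_upwards [ae_mem a, ae_ne hγ a a] with v hv hn
    have h0 : 0 < |v - a| := abs_pos.2 (sub_ne_zero.2 fun e => hn (by rw [e]))
    rw [Real.norm_of_nonneg (pz_nn _ _)]
    refine (pz_anti hτ (c := |v - a| / j) (by positivity)
      ((div_le_iff₀' hj).2 (abs_le_c0 hγ hv))).trans_eq ?_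
    rw [pz, pz, Real.sqrt_div (abs_nonneg _), div_div]
    field_simp
  have hm : Measurable fun v => pz τ (c0 γ a v) :=
    (meas_pz τ).comp ((cont_c0 hγ).comp (Continuous.prodMk_right a)).measurable
  have i4 : Integrable (fun v => pz τ (c0 γ a v)) (nu a) :=
    i3.integrableOn.mono' hm.aestronglyMeasurable hb
  refine ⟨ii_iff.1 (hp.intervalIntegrable (t := a - π) Real.two_pi_pos.ne' ?_ _ _), ?_⟩
  · rw [show a - π + 2 * π = a + π by ring]
    exact ii_iff.2 i4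
  rw [← per_eq hp, per_eq hp a]
  calc _ ≤ ∫ v, √j * pz (j * τ) |v - a| ∂nu a :=
        integral_mono_ae i4 i3.integrableOn (hb.mono fun v hv => (le_abs_self _).trans hv)
    _ ≤ ∫ v, √j * pz (j * τ) |v - a| := setIntegral_le_integral i3
        (Eventually.of_forall fun v => mul_nonneg (Real.sqrt_nonneg _) (pz_nn _ _))
    _ = √j * (2 * ∫ x in Ioi 0, pz (j * τ) x) := by
        rw [integral_const_mul, integral_sub_right_eq_self (fun v => pz (j * τ) |v|) a,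
          integral_comp_abs]
    _ ≤ √j * (2 * (2 * √(j * τ))) := by gcongr
    _ = 4 * (√j * √j) * √τ := by rw [Real.sqrt_mul hj.le]; ring
    _ = _ := by rw [Real.mul_self_sqrt hj.le]

lemma prod_bd {ν : Measure ℝ} [SFinite ν] {f : ℝ → ℝ} {g : ℝ → ℝ → ℝ} {α β : ℝ}
    (hf : Integrable f ν) (f0 : ∀ v, 0 ≤ f v) (hα : ∫ v, f v ∂ν ≤ α) (hβ : 0 ≤ β)
    (hg : Measurable (Function.uncurry g)) (g0 : ∀ v u, 0 ≤ g v u)
    (hr : ∀ v, Integrable (g v) ν ∧ ∫ u, g v u ∂ν ≤ β) :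
    (∀ᵐ u ∂ν, Integrable (fun v => f v * g v u) ν) ∧
    Integrable (fun u => ∫ v, f v * g v u ∂ν) ν ∧ ∫ u, ∫ v, f v * g v u ∂ν ∂ν ≤ α * β := by
  have hm : AEStronglyMeasurable (Function.uncurry fun v u => f v * g v u) (ν.prod ν) :=
    hf.aestronglyMeasurable.comp_fst.mul hg.aestronglyMeasurable
  have e : ∀ v, ∫ u, f v * g v u ∂ν ≤ f v * β := fun v => by
    rw [integral_const_mul]
    exact mul_le_mul_of_nonneg_left (hr v).2 (f0 v)
  have hi : Integrable (Function.uncurry fun v u => f v * g v u) (ν.prod ν) := by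
    refine (integrable_prod_iff hm).2 ⟨Eventually.of_forall fun v => (hr v).1.const_mul (f v), ?_⟩
    refine (hf.mul_const β).mono' hm.norm.integral_prod_right' (Eventually.of_forall fun v => ?_)
    rw [Real.norm_of_nonneg (integral_nonneg fun u => norm_nonneg _)]
    refine le_of_eq_of_le (integral_congr_ae (Eventually.of_forall fun u => ?_)) (e v)
    exact Real.norm_of_nonneg (mul_nonneg (f0 v) (g0 v u))
  refine ⟨hi.prod_left_ae, hi.integral_prod_right, ?_⟩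
  rw [← integral_integral_swap hi]
  refine (integral_mono hi.integral_prod_left (hf.mul_const β) e).trans ?_
  rw [integral_mul_const]
  exact mul_le_mul_of_nonneg_right hα hβ

lemma l1_of {ν : Measure ℝ} {H : ℝ → ℂ} {W G : ℝ → ℝ} (hH : AEStronglyMeasurable H ν)
    (hW : ∀ u, 1 ≤ W u) (hG : Integrable G ν) (hb : ∀ᵐ u ∂ν, ‖H u‖ * W u ≤ G u) :
    Integrable H ν ∧ ∫ u, ‖H u‖ * W u ∂ν ≤ ∫ u, G u ∂ν :=
  ⟨hG.mono' hH (hb.mono fun u hu => (le_mul_of_one_le_right (norm_nonneg _) (hW u)).trans hu),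
    integral_mono_of_nonneg (Eventually.of_forall fun u =>
      mul_nonneg (norm_nonneg _) (zero_le_one.trans (hW u))) hG hb⟩

lemma int_w {ν : Measure ℝ} {F : ℝ → ℂ} {g : ℝ → ℝ} {w : ℝ} (hw : 0 < w) (hg : Integrable g ν)
    (hb : ∀ᵐ v ∂ν, ‖F v‖ * w ≤ g v) : ‖∫ v, F v ∂ν‖ * w ≤ ∫ v, g v ∂ν := by
  have := norm_integral_le_of_norm_le (hg.div_const w) (hb.mono fun v hv => (le_div_iff₀ hw).2 hv)
  rwa [integral_div, le_div_iff₀ hw] at this

lemma int_mul_w {s : ℝ} {H : ℝ → ℂ} {W : ℝ → ℝ} (hH : Integrable H (nu s)) (hW : Continuous W) :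
    Integrable (fun u => ‖H u‖ * W u) (nu s) :=
  ii_iff.1 ((ii_iff.2 hH).norm.mul_continuousOn hW.continuousOn)

/-- an error term: small in weighted mean, and small away from the diagonal -/
def Er (γ : ℝ → ℂ) (s T δ α β : ℝ) (H : ℝ → ℂ) : Prop :=
  Integrable H (nu s) ∧ ∫ u, ‖H u‖ * wX T (c0 γ s u) ∂nu s ≤ α ∧
    ∀ u, δ ≤ |u - s| → |u - s| ≤ π → ‖H u‖ * wX T (c0 γ s u) ≤ β

lemma cont_w {j : ℝ} {γ : ℝ → ℂ} (hγ : Nc j γ) (T s : ℝ) : Continuous fun u => wX T (c0 γ s u) :=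
  (cont_wX T).comp ((cont_c0 hγ).comp (Continuous.prodMk_right s))

lemma Er.add {j s T δ α β α' β' : ℝ} {γ H H' : ℝ → ℂ} (hγ : Nc j γ) (h : Er γ s T δ α β H)
    (h' : Er γ s T δ α' β' H') : Er γ s T δ (α + α') (β + β') fun u => H u + H' u := by
  have k : ∀ u, ‖H u + H' u‖ * wX T (c0 γ s u) ≤
      ‖H u‖ * wX T (c0 γ s u) + ‖H' u‖ * wX T (c0 γ s u) := fun u => by
    rw [← add_mul]
    exact mul_le_mul_of_nonneg_right (norm_add_le _ _) (wX_pos _ _).le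
  have i1 := int_mul_w h.1 (cont_w hγ T s)
  have i2 := int_mul_w h'.1 (cont_w hγ T s)
  refine ⟨h.1.add h'.1, ?_, fun u a b => (k u).trans (add_le_add (h.2.2 u a b) (h'.2.2 u a b))⟩
  refine (integral_mono_of_nonneg (Eventually.of_forall fun u =>
    mul_nonneg (norm_nonneg _) (wX_pos _ _).le) (i1.add i2) (Eventually.of_forall k)).trans ?_
  rw [integral_add' i1 i2]
  exact add_le_add h.2.1 h'.2.1

lemma Er.mono {s T δ α β α' β' : ℝ} {γ H : ℝ → ℂ} (h : Er γ s T δ α β H) (a : α ≤ α') (b : β ≤ β') :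
    Er γ s T δ α' β' H := ⟨h.1, h.2.1.trans a, fun u x y => (h.2.2 u x y).trans b⟩

lemma meas_md (μ : ℂ) (k b : ℝ) (F : PowerSeries ℝ) (p : ℕ) : Measurable (md μ k b F p) := by
  unfold md eb
  fun_prop

lemma md_add (μ : ℂ) (k b : ℝ) (F G : PowerSeries ℝ) (p : ℕ) (d : ℝ) :
    md μ k b (F + G) p d = md μ k b F p d + md μ k b G p d := by
  simp only [md, map_add, ofReal_add, add_mul, Finset.sum_add_distrib]

lemma md_C (μ : ℂ) (k b a : ℝ) (F : PowerSeries ℝ) (p : ℕ) (d : ℝ) :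
    md μ k b (PowerSeries.C a * F) p d = a * md μ k b F p d := by
  simp only [md, PowerSeries.coeff_C_mul, ofReal_mul, Finset.mul_sum, mul_assoc]

lemma sqrt_le_X {T c : ℝ} (hT : 0 < T) (hc : 0 ≤ c) : √c ≤ 3 * √T * wX T c := by
  have h1 : c / (8 * T) + 1 ≤ wX T c := Real.add_one_le_exp _
  have h2 : 0 ≤ c / (8 * T) := by positivity
  refine Real.sqrt_le_iff.2 ⟨by have := wX_pos T c; positivity, ?_⟩
  rw [mul_pow, mul_pow, Real.sq_sqrt hT.le]
  have h3 : c = 8 * T * (c / (8 * T)) := by field_simp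
  have h4 : c / (8 * T) ≤ wX T c ^ 2 := by nlinarith
  nlinarith

lemma le_X {T c : ℝ} (hT : 0 < T) : c ≤ 8 * T * wX T c := by
  have h1 : c / (8 * T) + 1 ≤ wX T c := Real.add_one_le_exp _
  have h3 : c = 8 * T * (c / (8 * T)) := by field_simp
  nlinarith

lemma E_eq {T : ℝ} (c : ℝ) : Real.exp (-(c / (2 * T))) = (wX T c)⁻¹ ^ 4 := by
  rw [wX, ← Real.exp_neg, ← Real.exp_nat_mul]
  congr 1
  push_cast
  ring

lemma w4_eq {T : ℝ} (c : ℝ) : Real.exp (c / (4 * T)) = wX T c ^ 2 := by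
  rw [wX, ← Real.exp_nat_mul]
  congr 1
  push_cast
  ring

lemma pz_eq {T : ℝ} (c : ℝ) : pz (8 * T) c = (√c)⁻¹ * (wX T c)⁻¹ := by
  rw [pz, wX, Real.exp_neg]

end Pool.Agent.Lib.IS2.F2a
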