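import Pool.Agent.Lib.IS2.B_F2a1

/-! Parameters, normal form of the kernel bounds, shifted model convolutions. -/

open scoped ContDiff ComplexConjugate Topology Real
open Complex MeasureTheory Set Filter

noncomputable section

namespace Pool.Agent.Lib.IS2.F2a

structure Par (j h o T e N : ℝ) : Prop where
  h1 : 1 ≤ h
  hj : 4 * j < h
  o0 : 0 < o
  T0 : 0 < T
  e0 : 0 < e
  Te : T ≤ e
  e3 : e ≤ (h ^ 3)⁻¹
  x : √o * T * √T = (h ^ 3)⁻¹
  N : N = √o / (T * √T)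

lemma par (j : ℝ) {p q : ℕ} (hq : 9 * (p + 1) + 2 ≤ 2 * q) :
    ∀ᶠ h in atTop, Par j h (om q h) (Tt q h) (eps p h) (N0 q h) := by
  filter_upwards [eventually_ge_atTop 1, eventually_gt_atTop (4 * j)] with h h1 hj
  have h0 : 0 < h := one_pos.trans_le h1
  have hT : 0 < Tt q h := by unfold Tt; positivity
  refine ⟨h1, hj, by unfold om; positivity, hT, by unfold eps; positivity,
    inv_anti₀ (by positivity) (pow_le_pow_right₀ h1 (by omega)),
    inv_anti₀ (by positivity) (pow_le_pow_right₀ h1 (by omega)), ?_, rfl⟩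
  refine (pow_left_inj₀ (by positivity) (by positivity) two_ne_zero).1 ?_
  rw [mul_pow, mul_pow, Real.sq_sqrt hT.le, Real.sq_sqrt (by unfold om; positivity), om, Tt]
  field_simp
  ring

namespace Par

variable {j h o T e N : ℝ} (P : Par j h o T e N)
include P

lemma h0 : 0 < h := one_pos.trans_le P.h1
lemma x1 : (h ^ 3)⁻¹ ≤ 1 := inv_le_one_of_one_le₀ (one_le_pow₀ P.h1)
lemma e1 : e ≤ 1 := P.e3.trans P.x1
lemma N0 : 0 < N := by
  have := P.o0
  have := P.T0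
  rw [P.N]
  positivity
lemma oT : o * T ^ 3 ≤ 1 := by
  have h1 : o * T ^ 3 = (√o * T * √T) ^ 2 := by
    rw [mul_pow, mul_pow, Real.sq_sqrt P.T0.le, Real.sq_sqrt P.o0.le]
    ring
  have := P.h0
  rw [h1, P.x]
  exact pow_le_one₀ (by positivity) P.x1
lemma Nx : N * (h ^ 3)⁻¹ = o := by
  have := P.T0
  rw [← P.x, P.N]
  nth_rewrite 3 [← Real.mul_self_sqrt P.o0.le]
  field_simp
lemma oN : o ≤ N := by
  rw [← P.Nx]
  exact mul_le_of_le_one_right P.N0.le P.x1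
lemma d0 (hj : 0 < j) : T * e ^ 2 < T / (4 * j * h) := by
  have h0 := P.h0
  have := P.e0
  have h1 := P.h1
  rw [lt_div_iff₀ (by positivity), mul_assoc]
  refine mul_lt_of_lt_one_right P.T0 ?_
  have h2 : e * h ^ 3 ≤ 1 := by
    have := mul_le_mul_of_nonneg_right P.e3 (pow_pos h0 3).le
    rwa [inv_mul_cancel₀ (by positivity)] at this
  have h3 : e ^ 2 * (4 * j * h) < e ^ 2 * h ^ 2 := by
    have := P.hj
    gcongr
    nlinarith
  have h4 : e * h ≤ 1 := le_trans (by gcongr; exact le_self_pow₀ h1 (by norm_num)) h2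
  have h5 : 0 ≤ e * h := by positivity
  nlinarith

end Par

def PP (T c : ℝ) : ℝ := (√c)⁻¹ * (wX T c)⁻¹ ^ 3
def io (d c : ℝ) : ℝ := if c ≤ d then 1 else 0

lemma PP_nn (T c : ℝ) : 0 ≤ PP T c := by
  have := wX_pos T c
  unfold PP
  positivity
lemma io_nn (d c : ℝ) : 0 ≤ io d c := by unfold io; split_ifs <;> norm_num
lemma io_le (d c : ℝ) : io d c ≤ 1 := by unfold io; split_ifs <;> norm_num

lemma nf1 {T c : ℝ} (hT : 0 < T) (hc : 0 ≤ c) :
    (√c)⁻¹ * Real.exp (-(c / (2 * T))) ≤ PP T c := by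
  have h1 := one_le_wX hT hc
  rw [E_eq, PP]
  exact mul_le_mul_of_nonneg_left (pow_le_pow_of_le_one (by positivity)
    (inv_le_one_of_one_le₀ h1) (by norm_num)) (by positivity)

lemma nf2 {T c : ℝ} (hT : 0 < T) (hc : 0 < c) :
    Real.exp (-(c / (2 * T))) ≤ 3 * √T * PP T c := by
  have h1 := wX_pos T c
  have h2 := sqrt_le_X hT hc.le
  have h3 : 0 < √c := Real.sqrt_pos.2 hc
  rw [E_eq, PP]
  calc _ = √c * ((√c)⁻¹ * (wX T c)⁻¹ ^ 4) := by field_simp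
    _ ≤ 3 * √T * wX T c * ((√c)⁻¹ * (wX T c)⁻¹ ^ 4) := by gcongr
    _ = _ := by field_simp

lemma g1 {x C C' η η' a T c : ℝ} (hT : 0 < T) (hc : 0 < c) (ha : 0 ≤ a) (hη : 0 ≤ η) (h' : η ≤ η')
    (hC : 3 * |C| ≤ C') (h : x ≤ C * η * (a * (√c)⁻¹) * Real.exp (-(c / (2 * T)))) :
    x ≤ η' * (a * (C' * PP T c)) := by
  have h1 := nf1 hT hc.le
  have h2 := PP_nn T c
  have h3 : C ≤ C' := by linarith [le_abs_self C, abs_nonneg C]
  have h4 : 0 ≤ C' := by linarith [abs_nonneg C]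
  have := hη.trans h'
  calc x ≤ η * (a * (C * ((√c)⁻¹ * Real.exp (-(c / (2 * T)))))) := h.trans_eq (by ring)
    _ ≤ η * (a * (C' * ((√c)⁻¹ * Real.exp (-(c / (2 * T)))))) := by gcongr
    _ ≤ _ := by gcongr

lemma g2 {x C C' η η' a a' T c : ℝ} (hT : 0 < T) (hc : 0 < c) (ha : 0 ≤ a) (hη : 0 ≤ η)
    (h' : η ≤ η') (hC : 3 * |C| ≤ C') (e : a * √T = a')
    (h : x ≤ C * η * a * Real.exp (-(c / (2 * T)))) : x ≤ η' * (a' * (C' * PP T c)) := by
  have h1 := nf2 hT hc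
  have h2 := PP_nn T c
  have h3 := le_abs_self C
  have := hη.trans h'
  calc x ≤ η * (a * (C * Real.exp (-(c / (2 * T))))) := h.trans_eq (by ring)
    _ ≤ η * (a * (|C| * Real.exp (-(c / (2 * T))))) := by gcongr
    _ ≤ η * (a * (|C| * (3 * √T * PP T c))) := by gcongr
    _ = η * (a * √T * (3 * |C| * PP T c)) := by ring
    _ ≤ η' * (a * √T * (C' * PP T c)) := by gcongr
    _ = _ := by rw [e]

/-- the kernel bounds in normal form -/
def NF (j : ℝ) (p q : ℕ) (C h : ℝ) : Prop := ∀ γ y s v u, Nc j γ → |y| ≤ YY q h → γ v ≠ γ u →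
  |v - s| ≤ π → |u - s| ≤ π →
  let μ := mu q h y
  let o := om q h
  let T := Tt q h
  let k := kp γ s
  let P := C * PP T (c0 γ v u)
  let η := eps p h + |v - s| + |u - s| + io (T * eps p h ^ 2) (c0 γ v u)
  (‖fS μ γ v u‖ ≤ (√o)⁻¹ * P ∧
    ‖fS μ γ v u - (2 * √2 * rt μ)⁻¹ * md μ k (1 / 2) sP (p + 2) (u - v)‖ ≤ η * ((√o)⁻¹ * P)) ∧
  (‖fKb μ γ v u‖ ≤ o * √o * P ∧
    ‖fKb μ γ v u - -(2 * μ) * md μ k (-1) sA (p + 2) (u - v)‖ ≤ η * (o * √o * P)) ∧
  (‖fSb μ γ v u‖ ≤ o * √o * T ^ 2 * P ∧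
    ‖fSb μ γ v u - √2 * rt μ / 4 * md μ k (-(1 / 2)) sB (p + 2) (u - v)‖ ≤
      η * (o * √o * T ^ 2 * P)) ∧
  (‖fK μ γ v u‖ ≤ √o * T * P ∧ ‖fK μ γ v u - md μ k 0 sA (p + 2) (u - v)‖ ≤ η * (√o * T * P)) ∧
  ‖fS1 μ γ v u‖ ≤ √o * T ^ 3 * P ∧ ‖fKn μ γ v u‖ ≤ o * √o * T * P

lemma nf (h0 : St_F0) (ha : St_F1a) (hb : St_F1b) (j : ℝ) {p q : ℕ}
    (hq : 9 * (p + 1) + 2 ≤ 2 * q) : ∃ C, 0 ≤ C ∧ ∀ᶠ h in atTop, NF j p q C h := by
  obtain ⟨C0, k0, H0⟩ := h0 j q (by omega)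
  obtain ⟨C1, k1, H1⟩ := ha j p q hq
  obtain ⟨C2, k2, H2⟩ := hb j p q hq
  refine ⟨3 * (|C0| + |C1| + |C2|), by positivity, ?_⟩
  filter_upwards [eventually_ge_atTop k0, eventually_ge_atTop k1, eventually_ge_atTop k2, par j hq]
    with h a0 a1 a2 P γ y s v u hγ hy hn hv hu
  obtain ⟨b1, b2, b3, b4, b5, b6, -⟩ := H0 h a0 γ y v u hγ hy hn
  obtain ⟨c1, c2, c3⟩ := H1 h a1 γ y s v u hγ hy hn hv hu
  obtain ⟨c4, -⟩ := H2 h a2 γ y s v u hγ hy hn hv hu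
  have hc : 0 < c0 γ v u := norm_pos_iff.2 (sub_ne_zero.2 hn)
  have hT := P.T0
  have ho := P.o0
  have he := P.e0
  have hi := io_nn (Tt q h * eps p h ^ 2) (c0 γ v u)
  have d0 : 3 * |C0| ≤ 3 * (|C0| + |C1| + |C2|) := by linarith [abs_nonneg C1, abs_nonneg C2]
  have d1 : 3 * |C1| ≤ 3 * (|C0| + |C1| + |C2|) := by linarith [abs_nonneg C0, abs_nonneg C2]
  have d2 : 3 * |C2| ≤ 3 * (|C0| + |C1| + |C2|) := by linarith [abs_nonneg C1, abs_nonneg C0]
  have s1 : √(om q h * Tt q h) * √(Tt q h) = √(om q h) * Tt q h := by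
    rw [Real.sqrt_mul ho.le, mul_assoc, Real.mul_self_sqrt hT.le]
  have s2 : (√(om q h * c0 γ v u))⁻¹ = (√(om q h))⁻¹ * (√(c0 γ v u))⁻¹ := by
    rw [Real.sqrt_mul ho.le, mul_inv]
  rw [s2] at b1 c1
  rw [← mul_one C0] at b1 b2 b3 b4 b5 b6
  refine ⟨⟨?_, g1 hT hc (by positivity) (by positivity) le_rfl d1 c1⟩, ⟨?_, ?_⟩,
    ⟨?_, g2 hT hc (by positivity) (by positivity) (by linarith) d1 ?_ c3⟩,
    ⟨?_, g2 hT hc (by positivity) (by positivity) (by linarith) d1 s1 c2⟩, ?_, ?_⟩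
  · simpa only [one_mul] using g1 hT hc (by positivity) zero_le_one le_rfl d0 b1
  · simpa only [one_mul] using g1 hT hc (by positivity) zero_le_one le_rfl d0 b3
  · rw [neg_mul, sub_neg_eq_add]
    exact g1 hT hc (by positivity) (by positivity) le_rfl d2 c4
  · simpa only [one_mul] using g2 hT hc (by positivity) zero_le_one le_rfl d0
      (by rw [mul_assoc, s1]; ring) b4
  · rw [mul_assoc, s1]; ring
  · simpa only [one_mul] using g2 hT hc (by positivity) zero_le_one le_rfl d0 s1 b2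
  · simpa only [one_mul] using g2 hT hc (by positivity) zero_le_one le_rfl d0
      (by rw [mul_assoc, s1]; ring) b5
  · simpa only [one_mul] using g2 hT hc (by positivity) zero_le_one le_rfl d0
      (by rw [mul_assoc, s1]; ring) b6

lemma f3s (h3 : St_F3) (j b1 b2 : ℝ) (F1 F2 : PowerSeries ℝ) {p q : ℕ}
    (H1 : ∀ n, PowerSeries.coeff n F1 ≠ 0 → 1 / 2 ≤ b1 + 3 * n / 2)
    (H2 : ∀ n, PowerSeries.coeff n F2 ≠ 0 → 1 / 2 ≤ b2 + 3 * n / 2)
    (hq : 9 * (p + 1) + 2 ≤ 2 * q) (hb : b1 + b2 = -(1 / 2)) :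
    ∃ C, ∀ᶠ h in atTop, ∀ γ y s (c : ℂ), Nc j γ → |y| ≤ YY q h → ‖c‖ ≤ 2 * √(om q h) →
      (∀ u ≠ s, Integrable (fun v => md (mu q h y) (kp γ s) b1 F1 (p + 2) (v - s) *
        md (mu q h y) (kp γ s) b2 F2 (p + 2) (u - v)) (nu s)) ∧
      Er γ s (Tt q h) (Tt q h / (2 * h)) (C * eps p h * N0 q h * Tt q h) (C * eps p h * h * N0 q h)
        fun u => c * ((∫ v, md (mu q h y) (kp γ s) b1 F1 (p + 2) (v - s) *
          md (mu q h y) (kp γ s) b2 F2 (p + 2) (u - v) ∂nu s) -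
          md (mu q h y) (kp γ s) (-(1 / 2)) (F1 * F2) (p + 2) (u - s)) := by
  obtain ⟨C, k, H⟩ := h3 j b1 b2 F1 F2 p q H1 H2 hq
  refine ⟨2 * C, ?_⟩
  filter_upwards [eventually_ge_atTop k, par j hq] with h a P γ y s c hγ hy hc
  obtain ⟨i1, i2, i3, i4⟩ := H h a y (kp γ s) hy (hγ.bk s)
  rw [hb] at i2 i3 i4
  have hT := P.T0
  have h0 := P.h0
  set f := md (mu q h y) (kp γ s) b1 F1 (p + 2)
  set g := md (mu q h y) (kp γ s) b2 F2 (p + 2)
  set m := md (mu q h y) (kp γ s) (-(1 / 2)) (F1 * F2) (p + 2)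
  have sh : ∀ {F : ℝ → ℂ}, IntervalIntegrable F volume (-π) π →
      Integrable (fun v => F (v - s)) (nu s) := fun hF => by
    have := hF.comp_sub_right s
    rw [show -π + s = s - π by ring, add_comm] at this
    exact ii_iff.1 this
  have si : ∀ {E : Type} [NormedAddCommGroup E] [NormedSpace ℝ E] (F : ℝ → E),
      ∫ v, F (v - s) ∂nu s = ∫ v in (-π)..π, F v := fun F => by
    rw [← i_eq, intervalIntegral.integral_comp_sub_right]
    congr 1 <;> ring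
  have e1 : ∀ u, ∫ v, f (v - s) * g (u - v) ∂nu s = ∫ v in (-π)..π, f v * g (u - s - v) := fun u => by
    rw [← si]
    simp only [sub_sub_sub_cancel_right]
  simp only [e1]
  set er : ℝ → ℂ := fun u => (∫ v in (-π)..π, f v * g (u - v)) - m u
  have kb : ∀ u, ‖c * er (u - s)‖ * wX (Tt q h) (c0 γ s u) ≤
      2 * √(om q h) * (‖er (u - s)‖ * Real.exp (|u - s| / (4 * Tt q h))) := fun u => by
    have : wX (Tt q h) (c0 γ s u) ≤ Real.exp (|u - s| / (4 * Tt q h)) := by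
      refine Real.exp_le_exp.2 (div_le_div₀ (abs_nonneg _) ?_ (by positivity) (by linarith))
      rw [abs_sub_comm]
      exact hγ.c0_le_abs s u
    have := wX_pos (Tt q h) (c0 γ s u)
    rw [norm_mul, mul_assoc]
    gcongr
  have t1 : Tt q h ^ (-(1 / 2) : ℝ) = (√(Tt q h))⁻¹ := by
    rw [Real.rpow_neg hT.le, Real.sqrt_eq_rpow]
  refine ⟨fun u hu => ?_, (sh i2).const_mul c, ?_, fun u a b => (kb u).trans ?_⟩
  · simpa only [sub_sub_sub_cancel_right] using sh (i1 (u - s) (sub_ne_zero.2 hu))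
  · have i5 := int_mul_w (sh i2) (W := fun u => Real.exp (|u - s| / (4 * Tt q h))) (by fun_prop)
    refine (integral_mono_of_nonneg (Eventually.of_forall fun u =>
      mul_nonneg (norm_nonneg _) (wX_pos _ _).le) (i5.const_mul _) (Eventually.of_forall kb)).trans ?_
    rw [integral_const_mul, si fun u => ‖er u‖ * Real.exp (|u| / (4 * Tt q h))]
    refine (mul_le_mul_of_nonneg_left i3 (by positivity)).trans_eq ?_
    rw [t1, P.N]
    field_simp
  · refine (mul_le_mul_of_nonneg_left (i4 (u - s) (le_trans ?_ a) b) (by positivity)).trans_eq ?_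
    · gcongr
      norm_num
    · rw [Real.rpow_sub_one hT.ne', t1, P.N]
      field_simp

end Pool.Agent.Lib.IS2.F2a
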