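import Pool.Agent.Lib.IS2.B_F2a2

/-! The convolution of two singular majorants. -/

open scoped ContDiff ComplexConjugate Topology Real
open Complex MeasureTheory Set Filter

noncomputable section

namespace Pool.Agent.Lib.IS2.F2a

lemma two {A B mA mB : ℂ} {a b η1 η2 : ℝ} (hA : ‖A‖ ≤ a ∧ ‖A - mA‖ ≤ η1 * a)
    (hB : ‖B‖ ≤ b ∧ ‖B - mB‖ ≤ η2 * b) (h1 : 0 ≤ η1) (h9 : η1 ≤ 9) :
    ‖A * B‖ ≤ a * b ∧ ‖A * B - mA * mB‖ ≤ 10 * (η1 + η2) * (a * b) := by
  have ha := (norm_nonneg _).trans hA.1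
  have hb := (norm_nonneg _).trans hB.1
  have h3 : ‖mA‖ ≤ 10 * a := by
    have := norm_sub_le A (A - mA)
    rw [sub_sub_cancel] at this
    nlinarith [hA.1, hA.2]
  refine ⟨(norm_mul_le _ _).trans (mul_le_mul hA.1 hB.1 (norm_nonneg _) ha), ?_⟩
  rw [show A * B - mA * mB = (A - mA) * B + mA * (B - mB) by ring]
  refine (norm_add_le _ _).trans ?_
  rw [norm_mul, norm_mul]
  have h4 := mul_le_mul hA.2 hB.1 (norm_nonneg _) (mul_nonneg h1 ha)
  have h5 := mul_le_mul h3 hB.2 (norm_nonneg _) (by positivity)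
  have h6 : 0 ≤ η1 * (a * b) := by positivity
  nlinarith

lemma PP_eq (T c : ℝ) : PP T c * wX T c ^ 2 = pz (8 * T) c := by
  have := wX_pos T c
  rw [pz_eq, PP]
  field_simp

lemma PP_w {T : ℝ} (γ : ℝ → ℂ) (s v u : ℝ) :
    PP T (c0 γ s v) * PP T (c0 γ v u) * (wX T (c0 γ s v) * wX T (c0 γ v u)) ^ 2 =
      pz (8 * T) (c0 γ s v) * pz (8 * T) (c0 γ v u) := by
  rw [← PP_eq, ← PP_eq]
  ring

lemma link {τ δ c : ℝ} (hτ : 0 < τ) (hδ : 0 < δ) (h : δ ≤ c) : pz τ c ≤ (√δ)⁻¹ :=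
  (pz_anti hτ hδ h).trans (mul_le_of_le_one_right (by positivity)
    (Real.exp_le_one_iff.2 (neg_nonpos.2 (by positivity))))

lemma io_pz {τ d c : ℝ} (hτ : 0 < τ) (hd : 0 < d) (hc : 0 ≤ c) : io d c * pz τ c ≤ 3 * pz d c := by
  unfold io
  split_ifs with h
  · have h1 : Real.exp (-(c / τ)) ≤ 1 := Real.exp_le_one_iff.2 (neg_nonpos.2 (by positivity))
    have h2 : 1 ≤ 3 * Real.exp (-(c / d)) := by
      have h3 : Real.exp (-1) ≤ Real.exp (-(c / d)) :=
        Real.exp_le_exp.2 (neg_le_neg ((div_le_one hd).2 h))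
      linarith [Real.exp_neg_one_gt_d9]
    rw [one_mul, pz, pz, mul_left_comm]
    exact mul_le_mul_of_nonneg_left (h1.trans h2) (by positivity)
  · rw [zero_mul]
    exact mul_nonneg (by norm_num) (pz_nn _ _)

variable {j h o T e N : ℝ} {γ : ℝ → ℂ}

lemma row8 (hγ : Nc j γ) (hT : 0 < T) (a s : ℝ) :
    Integrable (fun v => pz (8 * T) (c0 γ a v)) (nu s) ∧
      ∫ v, pz (8 * T) (c0 γ a v) ∂nu s ≤ 12 * j * √T := by
  obtain ⟨i1, i2⟩ := row hγ (τ := 8 * T) (by positivity) a s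
  refine ⟨i1, i2.trans ?_⟩
  have : √(8 * T) ≤ 3 * √T := Real.sqrt_le_iff.2 ⟨by positivity, by
    rw [mul_pow, Real.sq_sqrt hT.le]; linarith⟩
  nlinarith [hγ.pos]

lemma meas2 (hγ : Nc j γ) {f : ℝ → ℝ} (hf : Measurable f) :
    Measurable (Function.uncurry fun v u => f (c0 γ v u)) := hf.comp (cont_c0 hγ).measurable

lemma far (hγ : Nc j γ) {δ s u : ℝ} (a : δ ≤ |u - s|) (b : |u - s| ≤ π) (v : ℝ) :
    δ / (2 * j) ≤ c0 γ s v ∨ δ / (2 * j) ≤ c0 γ v u := by
  have h1 := abs_le_c0 hγ b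
  have h2 := c0_tri γ s v u
  have hj := hγ.pos
  by_contra hc
  rw [not_or, not_le, not_le, lt_div_iff₀ (by positivity), lt_div_iff₀ (by positivity)] at hc
  nlinarith [hc.1, hc.2]

lemma ne_of_far (hγ : Nc j γ) {s u : ℝ} (a : 0 < |u - s|) (b : |u - s| ≤ π) : γ s ≠ γ u := fun e => by
  have := abs_le_c0 hγ b
  rw [c0, e, sub_self, norm_zero, mul_zero] at this
  linarith

lemma eta (P : Par j h o T e N) (hγ : Nc j γ) {s v u i1 i2 : ℝ} (hv : |v - s| ≤ π)
    (hu : |u - s| ≤ π) (h1 : 0 ≤ i1) (h2 : 0 ≤ i2) :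
    e + |s - s| + |v - s| + i1 + (e + |v - s| + |u - s| + i2) ≤
      26 * j * (e + i1 + i2) * (wX T (c0 γ s v) * wX T (c0 γ v u)) := by
  have hT := P.T0
  have he := P.e0
  have hj := hγ.one_le
  have x1 := one_le_wX hT (c0_nn γ s v)
  have x2 := one_le_wX hT (c0_nn γ v u)
  have x3 := wX_tri hT γ s v u
  have x4 : wX T (c0 γ s v) ≤ wX T (c0 γ s v) * wX T (c0 γ v u) :=
    le_mul_of_one_le_right (by linarith) x2
  set X := wX T (c0 γ s v) * wX T (c0 γ v u)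
  have k : ∀ a, |a - s| ≤ π → wX T (c0 γ s a) ≤ X → |a - s| ≤ 8 * (j * X) * e := fun a ha hx => by
    have := P.Te
    have := wX_pos T (c0 γ s a)
    calc _ ≤ j * c0 γ s a := abs_le_c0 hγ ha
      _ ≤ j * (8 * T * wX T (c0 γ s a)) := by gcongr; exact le_X hT
      _ ≤ j * (8 * e * X) := by gcongr
      _ = _ := by ring
  have x5 : 1 ≤ j * X := one_le_mul_of_one_le_of_one_le hj (x1.trans x4)
  have := k v hv x4
  have := k u hu x3
  rw [sub_self, abs_zero, show 26 * j * (e + i1 + i2) * X = 26 * (j * X) * (e + i1 + i2) by ring]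
  nlinarith [mul_le_mul_of_nonneg_right x5 he.le, mul_le_mul_of_nonneg_right x5 h1,
    mul_le_mul_of_nonneg_right x5 h2]

lemma conv_er (P : Par j h o T e N) (hγ : Nc j γ) {s M : ℝ} (hM : 0 ≤ M) {D : ℝ → ℂ}
    (hD : AEStronglyMeasurable D (nu s))
    (H : ∀ u, |u - s| ≤ π → γ s ≠ γ u → ∃ F : ℝ → ℂ, D u = ∫ v, F v ∂nu s ∧ ∀ᵐ v ∂nu s,
      ‖F v‖ * wX T (c0 γ s u) ≤ M * ((e + io (T * e ^ 2) (c0 γ s v) + io (T * e ^ 2) (c0 γ v u)) *
        (pz (8 * T) (c0 γ s v) * pz (8 * T) (c0 γ v u)))) :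
    Er γ s T (T / (2 * h)) (M * (576 * j ^ 2 * e * T)) (M * (96 * j ^ 2 * e * h)) D := by
  have hT := P.T0
  have he := P.e0
  have h0 := P.h0
  have hj := hγ.pos
  have hd : 0 < T * e ^ 2 := by positivity
  set g : ℝ → ℝ := fun c => e * pz (8 * T) c + 3 * pz (T * e ^ 2) c with hg
  have g0 : ∀ c, 0 ≤ g c := fun c => by
    have := pz_nn (8 * T) c
    have := pz_nn (T * e ^ 2) c
    positivity
  have gm : Measurable g := ((meas_pz _).const_mul _).add ((meas_pz _).const_mul _)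
  have gr : ∀ a, Integrable (fun v => g (c0 γ a v)) (nu s) ∧
      ∫ v, g (c0 γ a v) ∂nu s ≤ 24 * j * e * √T := fun a => by
    obtain ⟨i1, i2⟩ := row8 hγ hT a s
    obtain ⟨i3, i4⟩ := row hγ hd a s
    refine ⟨(i1.const_mul e).add (i3.const_mul 3), ?_⟩
    rw [Real.sqrt_mul hT.le, Real.sqrt_sq he.le] at i4
    simp only [hg]
    rw [integral_add (i1.const_mul e) (i3.const_mul 3), integral_const_mul, integral_const_mul]
    nlinarith [mul_le_mul_of_nonneg_left i2 he.le]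
  have k1 : ∀ a b, (e + io (T * e ^ 2) (c0 γ a b)) * pz (8 * T) (c0 γ a b) ≤ g (c0 γ a b) :=
    fun a b => by
      rw [add_mul]
      exact add_le_add le_rfl (io_pz (by positivity) hd (c0_nn _ _ _))
  obtain ⟨a1, a2, a3⟩ := prod_bd (gr s).1 (fun v => g0 _) (gr s).2 (by positivity)
    (meas2 hγ (meas_pz (8 * T))) (fun v u => pz_nn _ _) fun v => row8 hγ hT v s
  obtain ⟨b1, b2, b3⟩ := prod_bd (row8 hγ hT s s).1 (fun v => pz_nn _ _) (row8 hγ hT s s).2
    (by positivity) (meas2 hγ gm) (fun v u => g0 _) gr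
  obtain ⟨c1, c2⟩ := l1_of hD (W := fun u => wX T (c0 γ s u)) (fun u => one_le_wX hT (c0_nn _ _ _))
    ((a2.add b2).const_mul M) (by
      filter_upwards [a1, b1, ae_mem s, ae_ne hγ s s] with u i1 i2 hu hn
      obtain ⟨F, e1, e2⟩ := H u hu hn
      rw [e1, Pi.add_apply, ← integral_add i1 i2, ← integral_const_mul]
      refine int_w (wX_pos _ _) ((i1.add i2).const_mul M) (e2.mono fun v hv => hv.trans ?_)
      refine mul_le_mul_of_nonneg_left ?_ hM
      nlinarith [mul_le_mul_of_nonneg_right (k1 s v) (pz_nn (8 * T) (c0 γ v u)),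
        mul_le_mul_of_nonneg_left (k1 v u) (pz_nn (8 * T) (c0 γ s v)),
        mul_nonneg he.le (mul_nonneg (pz_nn (8 * T) (c0 γ s v)) (pz_nn (8 * T) (c0 γ v u)))])
  have sT := Real.mul_self_sqrt hT.le
  refine ⟨c1, c2.trans ?_, fun u a b => ?_⟩
  · rw [integral_const_mul, integral_add' a2 b2]
    refine mul_le_mul_of_nonneg_left ((add_le_add a3 b3).trans_eq ?_) hM
    linear_combination 576 * j ^ 2 * e * sT
  obtain ⟨F, e1, e2⟩ := H u b (ne_of_far hγ (lt_of_lt_of_le (by positivity) a) b)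
  have hδ : 0 < T / (2 * h) / (2 * j) := by positivity
  have hdδ : T * e ^ 2 < T / (2 * h) / (2 * j) := (P.d0 hj).trans_eq (by field_simp; ring)
  set δ := T / (2 * h) / (2 * j) with dδ
  have i3 := (gr s).1.add (gr u).1
  rw [e1]
  refine (int_w (wX_pos _ _) ((i3.const_mul (√δ)⁻¹).const_mul M)
    (e2.mono fun v hv => hv.trans ?_)).trans ?_
  · refine mul_le_mul_of_nonneg_left ?_ hM
    rw [Pi.add_apply, c0_comm γ u v, mul_add]
    have q1 := mul_nonneg (inv_nonneg.2 (Real.sqrt_nonneg δ)) (g0 (c0 γ s v))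
    have q2 := mul_nonneg (inv_nonneg.2 (Real.sqrt_nonneg δ)) (g0 (c0 γ v u))
    rcases far hγ a b v with f | f
    · rw [show io (T * e ^ 2) (c0 γ s v) = 0 from if_neg (not_le.2 (hdδ.trans_le f))]
      nlinarith [mul_le_mul (link (τ := 8 * T) (by positivity) hδ f) (k1 v u)
        (mul_nonneg (add_nonneg he.le (io_nn _ _)) (pz_nn _ _)) (by positivity)]
    · rw [show io (T * e ^ 2) (c0 γ v u) = 0 from if_neg (not_le.2 (hdδ.trans_le f))]
      nlinarith [mul_le_mul (link (τ := 8 * T) (by positivity) hδ f) (k1 s v)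
        (mul_nonneg (add_nonneg he.le (io_nn _ _)) (pz_nn _ _)) (by positivity)]
  · rw [integral_const_mul, integral_const_mul, integral_add' (gr s).1 (gr u).1]
    refine mul_le_mul_of_nonneg_left ?_ hM
    have q : √T ≤ 2 * j * h * √δ := Real.sqrt_le_iff.2 ⟨by positivity, by
      rw [mul_pow, Real.sq_sqrt hδ.le, dδ]
      have : (2 * j * h) ^ 2 * (T / (2 * h) / (2 * j)) = T * (j * h) := by field_simp
      rw [this]
      exact le_mul_of_one_le_right hT.le (one_le_mul_of_one_le_of_one_le hγ.one_le P.h1)⟩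
    rw [inv_mul_le_iff₀ (Real.sqrt_pos.2 hδ)]
    nlinarith [(gr s).2, (gr u).2, mul_le_mul_of_nonneg_left q (by positivity : 0 ≤ 48 * j * e)]

end Pool.Agent.Lib.IS2.F2a
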