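import Pool.Agent.Lib.IS2.B_F2a

/-! Block `F2`: the kernel `N` against its model. -/

open scoped ContDiff ComplexConjugate Topology Real
open Complex MeasureTheory Set Filter

noncomputable section

namespace Pool.Agent.Lib.IS2

namespace F2x

open F2a PowerSeries

lemma md_sN (μ : ℂ) (k b : ℝ) (p : ℕ) (d : ℝ) : md μ k b sN p d =
    ∑ n ∈ Finset.range (p + 1), 2 * (-2) ^ n * md μ k b (sN0 * sA ^ n) p d := by
  have hU : (C (1 / 2 : ℝ) + sA) * (C (1 / 2 : ℝ) + sA)⁻¹ = 1 :=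
    PowerSeries.mul_inv_cancel _ (by
      rw [← coeff_zero_eq_constantCoeff_apply, map_add, sA0]; simp)
  have h2 : (C (2 : ℝ) : ℝ⟦X⟧) * C (1 / 2 : ℝ) = 1 := by rw [← map_mul]; norm_num
  have hg := mul_neg_geom_sum (-(C (2 : ℝ) * sA)) (p + 1)
  have e : sN = C (2 : ℝ) * sN0 * (∑ n ∈ Finset.range (p + 1), (-(C (2 : ℝ) * sA)) ^ n) +
      (-(C (2 : ℝ) * sA)) ^ (p + 1) * sN := by
    rw [sN]
    linear_combination (-(sN0 * (C (1 / 2 : ℝ) + sA)⁻¹)) * hg +
      (C (2 : ℝ) * sN0 * ∑ n ∈ Finset.range (p + 1), (-(C (2 : ℝ) * sA)) ^ n) * hU -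
      (sN0 * (C (1 / 2 : ℝ) + sA)⁻¹ * ∑ n ∈ Finset.range (p + 1), (-(C (2 : ℝ) * sA)) ^ n) * h2
  have hz : ∀ m < p + 1, coeff m ((-(C (2 : ℝ) * sA)) ^ (p + 1) * sN) = 0 :=
    X_pow_dvd_iff.1 ((pow_dvd_pow_of_dvd (((X_dvd_iff.2
      (by rw [← coeff_zero_eq_constantCoeff_apply, sA0])).mul_left _).neg_right) _).mul_right _)
  have c : ∀ m < p + 1, coeff m sN =
      ∑ n ∈ Finset.range (p + 1), 2 * (-2) ^ n * coeff m (sN0 * sA ^ n) := fun m hm => by
    rw [e, map_add, hz m hm, add_zero, Finset.mul_sum, map_sum]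
    refine Finset.sum_congr rfl fun n _ => ?_
    rw [← coeff_C_mul]
    congr 1
    rw [map_mul, map_pow, map_neg, ← neg_mul, mul_pow]
    ring
  simp only [md, Finset.mul_sum]
  rw [Finset.sum_comm]
  refine Finset.sum_congr rfl fun m hm => ?_
  rw [c m (Finset.mem_range.1 hm)]
  push_cast
  simp only [Finset.sum_mul, mul_assoc]

lemma c0A (n : ℕ) : coeff 0 (sN0 * sA ^ (n + 1)) = 0 := by
  rw [pow_succ, ← mul_assoc, coeff_zero_eq_constantCoeff_apply, map_mul,
    ← coeff_zero_eq_constantCoeff_apply sA, sA0, mul_zero]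

variable {j T : ℝ} {γ : ℝ → ℂ}

lemma row2 (hγ : Nc j γ) (hT : 0 < T) (a s : ℝ) :
    Integrable (fun v => (wX T (c0 γ a v))⁻¹ ^ 2) (nu s) ∧
      ∫ v, (wX T (c0 γ a v))⁻¹ ^ 2 ∂nu s ≤ 36 * j * T := by
  obtain ⟨i1, i2⟩ := row8 hγ hT a s
  have hb : ∀ᵐ v ∂nu s, (wX T (c0 γ a v))⁻¹ ^ 2 ≤ 3 * √T * pz (8 * T) (c0 γ a v) := by
    filter_upwards [ae_ne hγ a s] with v e
    have hc : 0 < √(c0 γ a v) := Real.sqrt_pos.2 (norm_pos_iff.2 (sub_ne_zero.2 e))
    have w0 := wX_pos T (c0 γ a v)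
    rw [pz_eq]
    calc _ = √(c0 γ a v) * ((√(c0 γ a v))⁻¹ * (wX T (c0 γ a v))⁻¹ ^ 2) := by field_simp
      _ ≤ 3 * √T * wX T (c0 γ a v) * ((√(c0 γ a v))⁻¹ * (wX T (c0 γ a v))⁻¹ ^ 2) := by
        gcongr; exact sqrt_le_X hT (c0_nn _ _ _)
      _ = _ := by field_simp
  refine ⟨(i1.const_mul _).mono' (((cont_w hγ T a).measurable.inv.pow_const 2).aestronglyMeasurable)
    (hb.mono fun v hv => by rwa [Real.norm_of_nonneg (sq_nonneg _)]),
    (integral_mono_of_nonneg (Eventually.of_forall fun v => sq_nonneg _) (i1.const_mul _) hb).trans ?_⟩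
  rw [integral_const_mul]
  refine (mul_le_mul_of_nonneg_left i2 (by positivity)).trans_eq ?_
  linear_combination 36 * j * Real.mul_self_sqrt hT.le

lemma step (hγ : Nc j γ) (hT : 0 < T) {s α B δ : ℝ} (hδ : 0 < δ) (hB : 0 ≤ B) {f : ℝ → ℝ}
    (hf : Integrable f (nu s)) (f0 : ∀ v, 0 ≤ f v) (hα : ∫ v, f v ∂nu s ≤ α) {D : ℝ → ℂ}
    (hD : AEStronglyMeasurable D (nu s)) (F : ℝ → ℝ → ℂ)
    (H : ∀ u, |u - s| ≤ π → u ≠ s → D u = ∫ v, F u v ∂nu s)
    (hb : ∀ u, |u - s| ≤ π → ∀ᵐ v ∂nu s,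
      ‖F u v‖ * wX T (c0 γ s u) ≤ f v * (B * (wX T (c0 γ v u))⁻¹ ^ 2)) :
    Er γ s T δ (α * (B * (36 * j * T))) (α * B) D := by
  have hj := hγ.pos
  obtain ⟨a1, a2, a3⟩ := prod_bd (g := fun v u => B * (wX T (c0 γ v u))⁻¹ ^ 2)
    (β := B * (36 * j * T)) hf f0 hα (by positivity)
    ((meas2 hγ ((cont_wX T).measurable.inv.pow_const 2)).const_mul _)
    (fun v u => mul_nonneg hB (sq_nonneg _)) fun v => ⟨(row2 hγ hT v s).1.const_mul _, by
      rw [integral_const_mul]; exact mul_le_mul_of_nonneg_left (row2 hγ hT v s).2 hB⟩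
  obtain ⟨c1, c2⟩ := l1_of hD (W := fun u => wX T (c0 γ s u)) (fun u => one_le_wX hT (c0_nn _ _ _))
    a2 (by
      filter_upwards [a1, ae_mem s, ae_ne hγ s s] with u i hu hn
      rw [H u hu fun e => hn (by rw [e])]
      exact int_w (wX_pos _ _) i (hb u hu))
  refine ⟨c1, c2.trans a3, fun u a b => ?_⟩
  rw [H u b fun e => by rw [e, sub_self, abs_zero] at a; linarith]
  refine (int_w (wX_pos _ _) (hf.mul_const B) ((hb u b).mono fun v hv => hv.trans ?_)).trans ?_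
  · have := one_le_wX hT (c0_nn γ v u)
    exact mul_le_mul_of_nonneg_left (mul_le_of_le_one_right hB
      (pow_le_one₀ (by positivity) (inv_le_one_of_one_le₀ this))) (f0 v)
  · rw [integral_mul_const]
    exact mul_le_mul_of_nonneg_right hα hB

lemma wk (hT : 0 < T) (γ : ℝ → ℂ) (s v u : ℝ) {a x B : ℝ} (ha : 0 ≤ a) (hB : 0 ≤ B)
    (hx : x ≤ B * Real.exp (-(c0 γ v u / (2 * T)))) :
    a * x * wX T (c0 γ s u) ≤ a * wX T (c0 γ s v) * (B * (wX T (c0 γ v u))⁻¹ ^ 3) := by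
  have w0 := wX_pos T (c0 γ v u)
  have w1 := wX_pos T (c0 γ s u)
  rw [E_eq] at hx
  calc _ ≤ a * (B * (wX T (c0 γ v u))⁻¹ ^ 4) * (wX T (c0 γ s v) * wX T (c0 γ v u)) := by
        gcongr; exact wX_tri hT γ s v u
    _ = _ := by field_simp

lemma w32 (hT : 0 < T) (γ : ℝ → ℂ) (v u : ℝ) :
    (wX T (c0 γ v u))⁻¹ ^ 3 ≤ (wX T (c0 γ v u))⁻¹ ^ 2 :=
  pow_le_pow_of_le_one (inv_nonneg.2 (wX_pos _ _).le)
    (inv_le_one_of_one_le₀ (one_le_wX hT (c0_nn _ _ _))) (by norm_num)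

lemma ro_eq (hD : St_KD) (hN : St_NH) (hγ : Nc j γ) (μ : ℂ) (n : ℕ) (s u : ℝ) :
    ro μ γ (n + 1) s u = ∫ v, ro μ γ n s v * fK μ γ v u ∂nu s := by
  refine per_eq (f := fun v => ro μ γ n s v * fK μ γ v u) (fun v => ?_) s
  have e : fK μ γ (v + 2 * π) u = fK μ γ v u := ((hD j γ hγ).1.2.1.2.1 μ v u).1
  simp only [(((hN j).1 γ hγ).2.2.1 μ n s v).2, e]

lemma m_ro (hN : St_NH) (hγ : Nc j γ) (μ : ℂ) (n : ℕ) (s : ℝ) : Measurable (ro μ γ n s) :=
  m3 (k := fun μ => ro μ γ n) (((hN j).1 γ hγ).1 n) μ s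

lemma sx {h o e N : ℝ} (P : Par j h o T e N) : √(o * T) * T = (h ^ 3)⁻¹ := by
  rw [← P.x, Real.sqrt_mul P.o0.le]; ring

lemma rows (hD : St_KD) (hN : St_NH) (hS : St_SH) (h0 : St_F0) (hM : St_MB) (ha : St_F1a)
    (h3 : St_F3) (h2 : St_F2a) (j : ℝ) {p q : ℕ} (hq : 9 * (p + 1) + 2 ≤ 2 * q) (n : ℕ) :
    ∃ A, 0 ≤ A ∧ ∀ᶠ h in atTop, ∀ γ y s, Nc j γ → |y| ≤ YY q h →
      Er γ s (Tt q h) (Tt q h / (2 * h)) (A * eps p h * N0 q h * Tt q h) (A * eps p h * h * N0 q h)
        fun u => ro (mu q h y) γ n s u -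
          Nm (mu q h y) (kp γ s) (sN0 * sA ^ (n + 1)) (p + 2) (u - s) := by
  induction n with
  | zero =>
    obtain ⟨A, k, H⟩ := h2 j p q hq
    refine ⟨|A|, abs_nonneg _, ?_⟩
    filter_upwards [eventually_ge_atTop k, par j hq] with h a P γ y s hγ hy
    obtain ⟨-, b1, -, b2, b3⟩ := H h a γ y s hγ hy
    have := P.e0
    have := P.N0
    have := P.T0
    have := P.h0
    have := le_abs_self A
    rw [zero_add, pow_one]
    exact Er.mono ⟨ii_iff.1 b1, (i_eq _ s).symm.trans_le b2, b3⟩ (by gcongr) (by gcongr)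
  | succ n ih =>
    obtain ⟨A, A0, HA⟩ := ih
    obtain ⟨C0, k0, H0⟩ := h0 j q (by omega)
    obtain ⟨C1, k1, H1⟩ := ha j p q hq
    obtain ⟨C2, k2, H2⟩ := hM j (-(1 / 2)) (sN0 * sA ^ (n + 1)) (p + 2) 1 q (by omega)
      fun m hm => by rw [Nat.lt_one_iff.1 hm, c0A]
    obtain ⟨C3, H3⟩ := f3s h3 j (-(1 / 2)) 0 (sN0 * sA ^ (n + 1)) sA
      (fun m hm => by linarith [one_le_of (c0A n) hm]) (fun m hm => by linarith [one_le_of sA0 hm])
      hq (by norm_num)
    obtain ⟨_, k4, H4⟩ := hS q (by omega)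
    refine ⟨(A + 26 * |j| * (2 * |C2| * (36 * |j|))) * (|C0| + |C1|) * (36 * |j|) + |C3|,
      by positivity, ?_⟩
    filter_upwards [HA, H3, eventually_ge_atTop k0, eventually_ge_atTop k1, eventually_ge_atTop k2,
      eventually_ge_atTop k4, par j hq] with h HA H3 a0 a1 a2 a4 P γ y s hγ hy
    have hj := hγ.one_le
    rw [abs_of_pos hγ.pos]
    have he := P.e0
    have N0' := P.N0
    have hT := P.T0
    have hh := P.h0
    have ho := P.o0
    have hn := rt_le ((H4 h a4).2.1 y hy).1.2.le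
    obtain ⟨E1, E2, -⟩ := HA γ y s hγ hy
    obtain ⟨I3, E3⟩ := H3 γ y s _ hγ hy hn
    set μ := mu q h y
    set T := Tt q h
    set o := om q h
    set e := eps p h
    set N := N0 q h
    set m1 := md μ (kp γ s) (-(1 / 2)) (sN0 * sA ^ (n + 1)) (p + 2) with hm1
    set m2 := md μ (kp γ s) 0 sA (p + 2)
    set c : ℂ := (√2 : ℝ) * rt μ with hc
    have eN : ∀ d, Nm μ (kp γ s) (sN0 * sA ^ (n + 1)) (p + 2) d = c * m1 d := fun d => rfl
    simp only [eN] at E1 E2
    have mm : Measurable fun v => c * m1 (v - s) :=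
      ((meas_md _ _ _ _ _).comp (measurable_id.sub_const s)).const_mul _
    have bm : ∀ᵐ v ∂nu s, ‖c * m1 (v - s)‖ * wX T (c0 γ s v) ^ 2 ≤
        2 * |C2| * o * (wX T (c0 γ s v))⁻¹ ^ 2 := by
      filter_upwards [ae_ne hγ s s] with v hv
      have b := H2 h a2 y (kp γ s) (v - s) hy (hγ.bk s) (sub_ne_zero.2 fun e => hv (by rw [e]))
      rw [show (-(1 / 2) + 3 * ((1 : ℕ) : ℝ) / 2 - 1 : ℝ) = 0 by norm_num, Real.rpow_zero, pow_one,
        mul_one] at b
      have b2 : Real.exp (-(3 * |v - s| / (4 * T))) ≤ (wX T (c0 γ s v))⁻¹ ^ 4 := by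
        rw [← E_eq]
        refine Real.exp_le_exp.2 (neg_le_neg ?_)
        rw [div_le_div_iff₀ (by positivity) (by positivity), abs_sub_comm]
        nlinarith [mul_le_mul_of_nonneg_left (hγ.c0_le_abs s v) hT.le, mul_nonneg hT.le (c0_nn γ s v)]
      have w0 := wX_pos T (c0 γ s v)
      have := le_abs_self C2
      rw [norm_mul]
      calc _ ≤ 2 * √o * (|C2| * √o * (wX T (c0 γ s v))⁻¹ ^ 4) * wX T (c0 γ s v) ^ 2 := by
            gcongr; exact b.trans (by gcongr)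
        _ = 2 * |C2| * (√o * √o) * (wX T (c0 γ s v))⁻¹ ^ 2 := by field_simp
        _ = _ := by rw [Real.mul_self_sqrt ho.le]
    obtain ⟨M1, M2⟩ := l1_of mm.aestronglyMeasurable (W := fun v => wX T (c0 γ s v) ^ 2)
      (fun v => one_le_pow₀ (one_le_wX hT (c0_nn _ _ _))) ((row2 hγ hT s s).1.const_mul _) bm
    rw [integral_const_mul] at M2
    replace M2 := M2.trans (mul_le_mul_of_nonneg_left (row2 hγ hT s s).2 (by positivity))
    have i1 := int_mul_w E1 (cont_w hγ T s)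
    have i2 := (int_mul_w M1 ((cont_w hγ T s).pow 2)).const_mul (26 * j * e)
    have iR : Integrable (ro μ γ n s) (nu s) :=
      (E1.add M1).congr (Eventually.of_forall fun v => sub_add_cancel _ _)
    have μ0 : 0 < μ.re := lt_trans (by positivity) ((H4 h a4).2.1 y hy).1.1
    have mE : Measurable fun u => ro μ γ (n + 1) s u -
        Nm μ (kp γ s) (sN0 * sA ^ (n + 1 + 1)) (p + 2) (u - s) := (m_ro hN hγ μ _ s).sub
      (((meas_md _ _ _ _ _).comp (measurable_id.sub_const s)).const_mul _)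
    have sq := Real.sqrt_nonneg (o * T)
    have D := step hγ hT (δ := T / (2 * h)) (B := (|C0| + |C1|) * √(o * T))
      (α := A * e * N * T + 26 * j * e * (2 * |C2| * o * (36 * j * T))) (by positivity)
      (by positivity) (i1.add i2) (fun v => add_nonneg (mul_nonneg (norm_nonneg _) (wX_pos _ _).le)
        (by simp only [Pi.pow_apply]; positivity))
      (by rw [integral_add' i1 i2, integral_const_mul]; exact add_le_add E2 (by gcongr; exact M2))
      (mE.aestronglyMeasurable.sub E3.1.1)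
      (fun u v => ro μ γ n s v * fK μ γ v u - c * (m1 (v - s) * m2 (u - v)))
      (fun u hu hs => by
        have iK : Integrable (fun v => ro μ γ n s v * fK μ γ v u) (nu s) := ii_iff.1
          ((ii_iff.2 iR).mul_continuousOn
            (((hD j γ hγ).2 μ μ0).1.uncurry_right u).continuousOn)
        rw [integral_sub iK ((I3 u hs).const_mul c), integral_const_mul, ← ro_eq hD hN hγ]
        simp only [Pi.sub_apply, Nm, pow_succ sA (n + 1), ← mul_assoc, hc]
        ring)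
      (fun u hu => by
        filter_upwards [ae_mem s, ae_ne hγ u s] with v hv hn
        have b0 := (H0 h a0 γ y v u hγ hy hn.symm).2.1
        have b1 := (H1 h a1 γ y s v u hγ hy hn.symm hv hu).2.1
        have hη := eta P hγ hv hu le_rfl le_rfl
        simp only [sub_self, abs_zero, add_zero] at hη
        have w0 := wX_pos T (c0 γ v u)
        have w1 := wX_pos T (c0 γ s v)
        have w2 := w32 hT γ v u
        have c0' := le_abs_self C0
        have c1' := le_abs_self C1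
        have k1 := wk hT γ s v u (norm_nonneg (ro μ γ n s v - c * m1 (v - s)))
          (B := |C0| * √(o * T)) (by positivity) (b0.trans (by gcongr))
        have k2 := wk hT γ s v u (norm_nonneg (c * m1 (v - s)))
          (B := |C1| * (26 * j * e * (wX T (c0 γ s v) * wX T (c0 γ v u))) * √(o * T))
          (by positivity) (b1.trans (by gcongr; linarith [abs_nonneg (v - s)]))
        rw [show ro μ γ n s v * fK μ γ v u - c * (m1 (v - s) * m2 (u - v)) =
          (ro μ γ n s v - c * m1 (v - s)) * fK μ γ v u + c * m1 (v - s) * (fK μ γ v u - m2 (u - v))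
          by ring]
        refine (mul_le_mul_of_nonneg_right (norm_add_le _ _) (wX_pos _ _).le).trans ?_
        rw [add_mul, norm_mul _ (fK μ γ v u), norm_mul (c * m1 (v - s)), Pi.add_apply, add_mul]
        refine add_le_add (k1.trans ?_) (k2.trans ?_)
        · gcongr
          exact le_add_of_nonneg_right (abs_nonneg _)
        · simp only [Pi.pow_apply]
          calc _ = 26 * j * e * (‖c * m1 (v - s)‖ * wX T (c0 γ s v) ^ 2) *
                (|C1| * √(o * T) * (wX T (c0 γ v u))⁻¹ ^ 2) := by field_simp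
            _ ≤ _ := by gcongr; exact le_add_of_nonneg_left (abs_nonneg _))
    have E := D.add hγ E3
    simp only [Pi.sub_apply, sub_add_cancel] at E
    have x1 : √(o * T) * T ≤ 1 := (sx P).trans_le P.x1
    have oN := P.oN
    have h1 := P.h1
    have c3 := le_abs_self C3
    have t : (A * e * N * T + 26 * j * e * (2 * |C2| * o * (36 * j * T))) *
        ((|C0| + |C1|) * √(o * T)) ≤
        (A + 26 * j * (2 * |C2| * (36 * j))) * (|C0| + |C1|) * (e * N) :=
      calc _ ≤ (A * e * N * T + 26 * j * e * (2 * |C2| * N * (36 * j * T))) *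
            ((|C0| + |C1|) * √(o * T)) := by gcongr
        _ = (A + 26 * j * (2 * |C2| * (36 * j))) * (|C0| + |C1|) * (e * N) * (√(o * T) * T) := by ring
        _ ≤ _ := mul_le_of_le_one_right (by positivity) x1
    refine E.mono ?_ ?_
    · rw [← mul_assoc _ _ (36 * j * T)]
      refine (add_le_add (mul_le_mul_of_nonneg_right t (by positivity))
        (show _ ≤ |C3| * e * N * T by gcongr)).trans_eq (by ring)
    · refine (add_le_add (t.trans (le_mul_of_one_le_right (b := 36 * j * h) (by positivity)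
        (by nlinarith))) (show _ ≤ |C3| * e * h * N by gcongr)).trans_eq (by ring)

lemma tail (hD : St_KD) (hN : St_NH) (h0 : St_F0) (h2 : St_F2a) (j : ℝ) {p q : ℕ}
    (hq : 9 * (p + 1) + 2 ≤ 2 * q) : ∃ A B, 0 ≤ A ∧ 0 ≤ B ∧ ∀ᶠ h in atTop, ∀ γ y s t, Nc j γ →
      |y| ≤ YY q h → 0 < |t - s| → |t - s| ≤ π → ∀ n,
      ‖ro (mu q h y) γ (n + 1) s t‖ * wX (Tt q h) (c0 γ s t) ≤
        A * N0 q h * (B * (h ^ 3)⁻¹) ^ n := by
  obtain ⟨A, k, H⟩ := h2 j p q hq
  obtain ⟨C0, k0, H0⟩ := h0 j q (by omega)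
  refine ⟨|A| * |C0|, |C0| * (36 * |j|), by positivity, by positivity, ?_⟩
  filter_upwards [eventually_ge_atTop k, eventually_ge_atTop k0, par j hq] with h a a0 P γ y s t hγ
    hy t0 ht
  obtain ⟨b1, -, b2, -⟩ := H h a γ y s hγ hy
  rw [abs_of_pos hγ.pos]
  have hj := hγ.pos
  have N0' := P.N0
  have hT := P.T0
  have hh := P.h0
  set μ := mu q h y
  set T := Tt q h
  have sq := Real.sqrt_nonneg (om q h * T)
  have st : ∀ n α, Integrable (ro μ γ n s) (nu s) →
      ∫ u, ‖ro μ γ n s u‖ * wX T (c0 γ s u) ∂nu s ≤ α →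
      Er γ s T |t - s| (α * (|C0| * √(om q h * T) * (36 * j * T))) (α * (|C0| * √(om q h * T)))
        (ro μ γ (n + 1) s) := fun n α i1 i2 =>
    step hγ hT t0 (by positivity) (int_mul_w i1 (cont_w hγ T s))
      (fun v => mul_nonneg (norm_nonneg _) (wX_pos _ _).le) i2
      (m_ro hN hγ μ _ s).aestronglyMeasurable (fun u v => ro μ γ n s v * fK μ γ v u)
      (fun u _ _ => ro_eq hD hN hγ μ n s u) fun u _ => by
        filter_upwards [ae_ne hγ u s] with v hn
        have b0 := (H0 h a0 γ y v u hγ hy hn.symm).2.1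
        have c0' := le_abs_self C0
        have w1 := wX_pos T (c0 γ s v)
        have w2 := w32 hT γ v u
        rw [norm_mul]
        exact (wk hT γ s v u (norm_nonneg _) (B := |C0| * √(om q h * T)) (by positivity)
          (b0.trans (by gcongr))).trans (by gcongr)
  have l1 : ∀ n, Integrable (ro μ γ n s) (nu s) ∧ ∫ u, ‖ro μ γ n s u‖ * wX T (c0 γ s u) ∂nu s ≤
      |A| * N0 q h * T * (|C0| * (36 * j) * (h ^ 3)⁻¹) ^ n := fun n => by
    induction n with
    | zero =>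
      have i := ii_iff.1 b1
      refine ⟨i, (integral_mono (int_mul_w i (cont_w hγ T s)) (int_mul_w i ((cont_w hγ T s).pow 2))
        fun u => mul_le_mul_of_nonneg_left (le_self_pow₀ (one_le_wX hT (c0_nn _ _ _)) two_ne_zero)
          (norm_nonneg _)).trans ?_⟩
      simp only [i_eq, w4_eq] at b2
      refine b2.trans ?_
      have := le_abs_self A
      rw [pow_zero, mul_one, div_eq_mul_inv]
      exact (by gcongr : _ ≤ |A| * N0 q h * T * (h ^ 3)⁻¹).trans
        (mul_le_of_le_one_right (by positivity) P.x1)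
    | succ n ih =>
      obtain ⟨e1, e2, -⟩ := st n _ ih.1 ih.2
      refine ⟨e1, e2.trans_eq ?_⟩
      rw [← sx P]; ring
  intro n
  refine ((st n _ (l1 n).1 (l1 n).2).2.2 t le_rfl ht).trans ?_
  calc _ = |A| * |C0| * N0 q h * (|C0| * (36 * j) * (h ^ 3)⁻¹) ^ n * (√(om q h * T) * T) := by ring
    _ ≤ _ := mul_le_of_le_one_right (by positivity) ((sx P).trans_le P.x1)

lemma csq {c d L : ℝ} (hT : 0 < T) (hL : 1 ≤ L) (hd : T / L ≤ d) (hc : d ≤ c) :
    (c * √c)⁻¹ ≤ L ^ 2 * (T * √T)⁻¹ := by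
  have h1 : T ≤ L * c := by
    have := (div_le_iff₀' (by positivity)).1 (hd.trans hc)
    exact this
  have c0 : 0 < c := pos_of_mul_pos_left (by nlinarith) (by positivity : 0 ≤ L)
  have h2 : √T ≤ L * √c := Real.sqrt_le_iff.2 ⟨by positivity, by
    rw [mul_pow, Real.sq_sqrt c0.le]; nlinarith⟩
  rw [← div_eq_mul_inv, le_div_iff₀ (by positivity), inv_mul_le_iff₀ (by positivity)]
  nlinarith [mul_le_mul h1 h2 (Real.sqrt_nonneg _) (by positivity)]

end F2x

open F2a F2x in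
theorem st_f2x (hD : St_KD) (hN : St_NH) (hS : St_SH) (h0 : St_F0) (hM : St_MB) (ha : St_F1a)
    (hb : St_F1b) (h3 : St_F3) (h2 : St_F2a) : St_F2 := by
  intro j p q hq
  choose A A0 HA using rows hD hN hS h0 hM ha h3 h2 j hq
  obtain ⟨A1, B, A10, B0, HT⟩ := tail hD hN h0 h2 j hq
  obtain ⟨C1, k1, H1⟩ := hb j p q hq
  obtain ⟨C2, k2, H2⟩ := hM j (-(1 / 2)) sN (p + 2) 0 q (by omega) (by simp)
  obtain ⟨_, k4, H4⟩ := hS q (by omega)
  have sm : ∀ᶠ h : ℝ in atTop, B * (h ^ 3)⁻¹ ≤ 1 / 4 :=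
    ((tendsto_inv_atTop_zero.comp (tendsto_pow_atTop three_ne_zero)).const_mul B).eventually_le_const
      (by norm_num)
  refine ⟨2 * (|C1| * (9 * |j|) * (2 * |j|) ^ 2) + ∑ n ∈ Finset.range (p + 2), 2 * 2 ^ (n + 1) * A n +
    2 ^ (p + 5) * A1 * B ^ (p + 1) + 8 * |C2|, eventually_atTop.1 ?_⟩
  filter_upwards [(Finset.range (p + 2)).eventually_all.2 fun n _ => HA n, HT, sm,
    eventually_ge_atTop k1, eventually_ge_atTop k2, eventually_ge_atTop k4, par j hq]
    with h HA HT sm a1 a2 a4 P γ y s t hγ hy t1 t2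
  have hj := hγ.one_le
  rw [abs_of_pos hγ.pos]
  have he := P.e0
  have N0' := P.N0
  have hT := P.T0
  have hh := P.h0
  have h1 := P.h1
  have ho := P.o0
  have t0 : 0 < |t - s| := lt_of_lt_of_le (by positivity) t1
  have hn := rt_le ((H4 h a4).2.1 y hy).1.2.le
  have S0 : 0 ≤ ∑ n ∈ Finset.range (p + 2), 2 * 2 ^ (n + 1) * A n :=
    Finset.sum_nonneg fun n _ => by have := A0 n; positivity
  have b1 := (H1 h a1 γ y s s t hγ hy (ne_of_far hγ t0 t2) (by simp [Real.pi_pos.le]) t2).2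
  have b2 := H2 h a2 y (kp γ s) (t - s) hy (hγ.bk s) (abs_pos.1 t0)
  replace HT := HT γ y s t hγ hy t0 t2
  have ee : eps p h = (h ^ 3)⁻¹ ^ (p + 1) := by rw [eps, pow_mul, inv_pow]
  set μ := mu q h y
  set T := Tt q h
  set o := om q h
  set e := eps p h
  set N := N0 q h
  have w0 := wX_pos T (c0 γ s t)
  have w1 := one_le_wX hT (c0_nn γ s t)
  have ew : Real.exp (-(c0 γ s t / (8 * T))) = (wX T (c0 γ s t))⁻¹ := Real.exp_neg _
  have eN : √o * (T * √T)⁻¹ = N := by rw [P.N, div_eq_mul_inv]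
  have hh2 : h ≤ h ^ 2 := le_self_pow₀ h1 two_ne_zero
  rw [ew, ← div_eq_mul_inv, ← div_eq_mul_inv, le_div_iff₀ w0, le_div_iff₀ w0]
  constructor
  · have tc := abs_le_c0 hγ t2
    have lc : T / (2 * j * h) ≤ c0 γ s t := by
      rw [div_le_iff₀ (by positivity)] at t1 ⊢
      nlinarith
    have f1 : ‖fNn μ γ s t - Nm μ (kp γ s) sN0 (p + 2) (t - s)‖ * wX T (c0 γ s t) ≤
        |C1| * (9 * j) * (2 * j) ^ 2 * (e * h ^ 2 * N) := by
      have b := b1 (((P.d0 hγ.pos).le.trans (by gcongr; norm_num)).trans lc)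
      rw [E_eq, sub_self, abs_zero, add_zero] at b
      have c1 := csq hT (by nlinarith : 1 ≤ 2 * j * h) le_rfl lc
      have c2 : e + |t - s| ≤ 9 * j * e * wX T (c0 γ s t) := by
        have := le_X (c := c0 γ s t) hT
        have := P.Te
        nlinarith [mul_le_mul_of_nonneg_left (le_X (c := c0 γ s t) hT) hγ.pos.le,
          mul_le_mul_of_nonneg_right P.Te (mul_pos hγ.pos w0).le,
          mul_le_mul_of_nonneg_left (one_le_mul_of_one_le_of_one_le hj w1) he.le]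
      have c3 := le_abs_self C1
      have c4 : (wX T (c0 γ s t))⁻¹ ^ 2 ≤ 1 := pow_le_one₀ (by positivity) (inv_le_one_of_one_le₀ w1)
      have := c0_nn γ s t
      calc _ ≤ |C1| * (9 * j * e * wX T (c0 γ s t)) * (√o * ((2 * j * h) ^ 2 * (T * √T)⁻¹)) *
            (wX T (c0 γ s t))⁻¹ ^ 4 * wX T (c0 γ s t) := by gcongr; exact b.trans (by gcongr)
        _ = |C1| * (9 * j) * (2 * j) ^ 2 * (e * h ^ 2 * (√o * (T * √T)⁻¹)) *
            (wX T (c0 γ s t))⁻¹ ^ 2 := by field_simp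
        _ ≤ _ := by rw [eN]; exact mul_le_of_le_one_right (by positivity) c4
    have tb : ∀ n, ‖2 * (-2) ^ (n + (p + 2) + 1) * ro μ γ (n + (p + 2)) s t‖ ≤
        2 ^ (p + 4) * A1 * B ^ (p + 1) * (e * N) / wX T (c0 γ s t) * (1 / 2) ^ n := fun n => by
      rw [div_mul_eq_mul_div, le_div_iff₀ w0, norm_mul, norm_mul, norm_pow, norm_neg, norm_ofNat,
        mul_assoc]
      calc _ ≤ 2 * 2 ^ (n + (p + 2) + 1) * (A1 * N * (B * (h ^ 3)⁻¹) ^ (n + (p + 1))) :=
            mul_le_mul_of_nonneg_left (HT (n + (p + 1))) (by positivity)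
        _ = 2 ^ (p + 4) * A1 * B ^ (p + 1) * (e * N) * (2 * (B * (h ^ 3)⁻¹)) ^ n := by
            rw [ee]; ring
        _ ≤ _ := by gcongr; linarith
    have sg := hasSum_geometric_two.mul_left
      (2 ^ (p + 4) * A1 * B ^ (p + 1) * (e * N) / wX T (c0 γ s t))
    have f3 := tsum_of_norm_bounded sg tb
    rw [div_mul_eq_mul_div, le_div_iff₀ w0] at f3
    have su : Summable fun n => 2 * (-2) ^ (n + 1) * ro μ γ n s t :=
      (summable_nat_add_iff (p + 2)).1 (Summable.of_norm_bounded sg.summable tb)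
    have f2 : ‖∑ n ∈ Finset.range (p + 2), 2 * (-2) ^ (n + 1) * (ro μ γ n s t -
        Nm μ (kp γ s) (sN0 * sA ^ (n + 1)) (p + 2) (t - s))‖ * wX T (c0 γ s t) ≤
        (∑ n ∈ Finset.range (p + 2), 2 * 2 ^ (n + 1) * A n) * (e * h ^ 2 * N) := by
      refine (mul_le_mul_of_nonneg_right (norm_sum_le _ _) w0.le).trans ?_
      rw [Finset.sum_mul, Finset.sum_mul]
      refine Finset.sum_le_sum fun n hn => ?_
      rw [norm_mul, norm_mul, norm_pow, norm_neg, norm_ofNat, mul_assoc, mul_assoc _ (A n)]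
      refine mul_le_mul_of_nonneg_left (((HA n hn γ y s hγ hy).2.2 t t1 t2).trans ?_) (by positivity)
      have := A0 n
      calc _ = A n * (e * h * N) := by ring
        _ ≤ _ := by gcongr
    have e1 : NN μ γ s t - Nm μ (kp γ s) sN (p + 2) (t - s) =
        2 * (fNn μ γ s t - Nm μ (kp γ s) sN0 (p + 2) (t - s)) +
        (∑ n ∈ Finset.range (p + 2), 2 * (-2) ^ (n + 1) * (ro μ γ n s t -
          Nm μ (kp γ s) (sN0 * sA ^ (n + 1)) (p + 2) (t - s))) +
        ∑' n, 2 * (-2) ^ (n + (p + 2) + 1) * ro μ γ (n + (p + 2)) s t := by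
      have e2 : Nm μ (kp γ s) sN (p + 2) (t - s) = ∑ n ∈ Finset.range (p + 2 + 1),
          2 * (-2) ^ n * Nm μ (kp γ s) (sN0 * sA ^ n) (p + 2) (t - s) := by
        rw [Nm, md_sN, Finset.mul_sum]
        exact Finset.sum_congr rfl fun n _ => mul_left_comm _ _ _
      rw [Finset.sum_range_succ'] at e2
      rw [NN, ← su.sum_add_tsum_nat_add (p + 2), e2]
      simp only [mul_sub, Finset.sum_sub_distrib, pow_zero, mul_one]
      ring
    rw [e1]
    refine (mul_le_mul_of_nonneg_right norm_add₃_le w0.le).trans ?_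
    rw [add_mul, add_mul, norm_mul, norm_ofNat, mul_assoc]
    have f4 : 2 ^ (p + 4) * A1 * B ^ (p + 1) * (e * N) * 2 ≤
        2 ^ (p + 5) * A1 * B ^ (p + 1) * (e * h ^ 2 * N) :=
      calc _ = 2 ^ (p + 5) * A1 * B ^ (p + 1) * (e * 1 * N) := by ring
        _ ≤ _ := by gcongr; linarith
    have f5 : 0 ≤ |C2| * (e * h ^ 2 * N) := by positivity
    nlinarith
  · rw [pow_zero, mul_one, show (-(1 / 2) + 3 * ((0 : ℕ) : ℝ) / 2 - 1 : ℝ) = -(1 + 1 / 2) by norm_num,
      Real.rpow_neg t0.le, Real.rpow_add t0, Real.rpow_one, ← Real.sqrt_eq_rpow] at b2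
    have c1 := csq hT (by linarith : 1 ≤ 2 * h) t1 le_rfl
    have c2 : Real.exp (-(3 * |t - s| / (4 * T))) ≤ (wX T (c0 γ s t))⁻¹ := by
      rw [← ew]
      refine Real.exp_le_exp.2 (neg_le_neg ?_)
      rw [div_le_div_iff₀ (by positivity) (by positivity), abs_sub_comm]
      nlinarith [mul_le_mul_of_nonneg_left (hγ.c0_le_abs s t) hT.le, mul_nonneg hT.le (c0_nn γ s t)]
    have c3 := le_abs_self C2
    rw [Nm, norm_mul]
    calc _ ≤ 2 * √o * (|C2| * ((2 * h) ^ 2 * (T * √T)⁻¹) * (wX T (c0 γ s t))⁻¹) *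
          wX T (c0 γ s t) := by gcongr; exact b2.trans (by gcongr)
      _ = 8 * |C2| * h ^ 2 * (√o * (T * √T)⁻¹) := by field_simp; ring
      _ ≤ _ := by
        rw [eN]
        gcongr
        exact le_add_of_nonneg_left (by positivity)

end Pool.Agent.Lib.IS2
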