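import Pool.Agent.Lib.IS2.B_H0

/-! Fourier coefficients of smooth periodic complex functions; trigonometric polynomials. -/

open scoped ContDiff ComplexConjugate Topology Real
open Complex MeasureTheory Set Filter

noncomputable section

namespace Pool.Agent.Lib.IS2

open Pool.Agent.Lib.ISO

namespace H1

variable {f g : ℝ → ℂ}

theorem pi_ne : (2 * π : ℂ) ≠ 0 := by
  have := Real.pi_pos
  exact_mod_cast (by positivity : (2 * π : ℝ) ≠ 0)

theorem norm_ex (ξ : ℤ) (s : ℝ) : ‖exp (I * ξ * s)‖ = 1 := by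
  rw [show I * ξ * s = ((ξ * s : ℝ) : ℂ) * I by push_cast; ring, norm_exp_ofReal_mul_I]

theorem fcc_on (f : ℝ → ℂ) (ξ : ℤ) : fcc f ξ = fourierCoeffOn Real.two_pi_pos f ξ := by
  rw [fourierCoeffOn_eq_integral, fcc, real_smul]
  congr 1
  · push_cast
    rw [sub_zero, one_div]
  · refine intervalIntegral.integral_congr fun x _ => ?_
    have := pi_ne
    simp only [fourier_coe_apply, smul_eq_mul]
    rw [mul_comm]
    congr 2
    push_cast
    rw [sub_zero]
    field_simp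

/-- Parseval. -/
theorem parseval (hf : Continuous f) :
    HasSum (fun ξ => ‖fcc f ξ‖ ^ 2) ((2 * π)⁻¹ * ∫ s in (0 : ℝ)..(2 * π), ‖f s‖ ^ 2) := by
  obtain ⟨C, hC⟩ := (isCompact_Icc (a := (0 : ℝ)) (b := 2 * π)).exists_bound_of_continuousOn
    hf.continuousOn
  have := hasSum_sq_fourierCoeffOn Real.two_pi_pos (f := f) (MemLp.of_bound
    hf.aestronglyMeasurable C ((ae_restrict_iff' measurableSet_Ioc).2
      (Eventually.of_forall fun x hx => hC x (Ioc_subset_Icc_self hx))))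
  simpa only [fcc_on, sub_zero, smul_eq_mul] using this

theorem ii (hf : Continuous f) (ξ : ℤ) :
    IntervalIntegrable (fun s : ℝ => f s * exp (-(I * ξ * s))) volume 0 (2 * π) :=
  Continuous.intervalIntegrable (by fun_prop) _ _

theorem fcc_add (hf : Continuous f) (hg : Continuous g) (ξ : ℤ) :
    fcc (fun s => f s + g s) ξ = fcc f ξ + fcc g ξ := by
  simp only [fcc, add_mul, intervalIntegral.integral_add (ii hf ξ) (ii hg ξ), mul_add]

theorem fcc_sub (hf : Continuous f) (hg : Continuous g) (ξ : ℤ) :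
    fcc (fun s => f s - g s) ξ = fcc f ξ - fcc g ξ := by
  simp only [fcc, sub_mul, intervalIntegral.integral_sub (ii hf ξ) (ii hg ξ), mul_sub]

theorem fcc_mul (c : ℂ) (f : ℝ → ℂ) (ξ : ℤ) : fcc (fun s => c * f s) ξ = c * fcc f ξ := by
  simp only [fcc, mul_assoc c, intervalIntegral.integral_const_mul]
  ring

theorem fcc_shift (k : ℤ) (f : ℝ → ℂ) (ξ : ℤ) :
    fcc (fun s => exp (I * k * s) * f s) ξ = fcc f (ξ - k) := by
  unfold fcc
  congr 1
  refine intervalIntegral.integral_congr fun s _ => ?_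
  simp only
  rw [mul_comm (exp _), mul_assoc, ← exp_add]
  congr 2
  push_cast
  ring

theorem ex_two_pi (ξ : ℤ) : exp (I * ξ * (2 * π)) = 1 := by
  rw [← exp_int_mul_two_pi_mul_I ξ]
  congr 1
  ring

theorem fcc_deriv (hf : ContDiff ℝ ∞ f) (hp : Function.Periodic f (2 * π)) (ξ : ℤ) :
    fcc (deriv f) ξ = I * ξ * fcc f ξ := by
  obtain ⟨hd, h1⟩ := contDiff_infty_iff_deriv.1 hf
  have h2 : ∀ s : ℝ, HasDerivAt (fun s : ℝ => f s * exp (-(I * ξ * s)))
      (deriv f s * exp (-(I * ξ * s)) - I * ξ * (f s * exp (-(I * ξ * s)))) s := fun s => by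
    have b : HasDerivAt (fun s : ℝ => -(I * ξ * (s : ℂ))) (-(I * ξ * 1)) s :=
      (((hasDerivAt_id s).ofReal_comp).const_mul (I * ξ)).neg
    exact ((hd s).hasDerivAt.mul b.cexp).congr_deriv (by ring)
  have c1 := ii h1.continuous ξ
  have c2 := (ii hf.continuous ξ).const_mul (I * ξ)
  have h3 := intervalIntegral.integral_eq_sub_of_hasDerivAt (fun s _ => h2 s) (c1.sub c2)
  have h4 : f (2 * π) = f 0 := by simpa using hp 0
  have h5 : exp (-(I * ξ * ((2 * π : ℝ) : ℂ))) = 1 := by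
    rw [← ex_two_pi (-ξ)]
    congr 1
    push_cast
    ring
  rw [intervalIntegral.integral_sub c1 c2, intervalIntegral.integral_const_mul, h4, h5] at h3
  simp only [ofReal_zero, mul_zero, neg_zero, exp_zero, sub_self] at h3
  unfold fcc
  rw [sub_eq_zero.1 h3]
  ring

theorem fcc_one (ξ : ℤ) : fcc (fun _ => 1) ξ = if ξ = 0 then 1 else 0 := by
  split_ifs with h
  · have := pi_ne
    simp only [fcc, h, Int.cast_zero, mul_zero, zero_mul, neg_zero, exp_zero, mul_one,
      intervalIntegral.integral_const, sub_zero, real_smul]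
    push_cast
    field_simp
  · have := fcc_deriv (f := fun _ => 1) contDiff_const (fun _ => rfl) ξ
    have e : fcc (deriv fun _ : ℝ => (1 : ℂ)) ξ = 0 := by simp [fcc]
    rw [e] at this
    exact (mul_eq_zero.1 this.symm).resolve_left (mul_ne_zero I_ne_zero (by exact_mod_cast h))

theorem sm_iter (hf : ContDiff ℝ ∞ f) (n : ℕ) : ContDiff ℝ ∞ (iteratedDeriv n f) := by
  induction n with
  | zero => simpa using hf
  | succ n ih =>
    rw [iteratedDeriv_succ]
    exact (contDiff_infty_iff_deriv.1 ih).2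

theorem per_iter (hp : Function.Periodic f (2 * π)) (n : ℕ) :
    Function.Periodic (iteratedDeriv n f) (2 * π) := by
  induction n with
  | zero => simpa using hp
  | succ n ih =>
    rw [iteratedDeriv_succ]
    exact per_deriv' ih

theorem fcc_iter (hf : ContDiff ℝ ∞ f) (hp : Function.Periodic f (2 * π)) (n : ℕ) (ξ : ℤ) :
    fcc (iteratedDeriv n f) ξ = (I * ξ) ^ n * fcc f ξ := by
  induction n with
  | zero => simp
  | succ n ih =>
    rw [iteratedDeriv_succ, fcc_deriv (sm_iter hf n) (per_iter hp n), ih]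
    ring

theorem norm_iter (hf : ContDiff ℝ ∞ f) (hp : Function.Periodic f (2 * π)) (n : ℕ) (ξ : ℤ) :
    ‖fcc (iteratedDeriv n f) ξ‖ = |(ξ : ℝ)| ^ n * ‖fcc f ξ‖ := by
  rw [fcc_iter hf hp, norm_mul, norm_pow, norm_mul, norm_I, one_mul, norm_intCast]

theorem fcc_le (hf : Continuous f) {A : ℝ} (hA : 0 ≤ A)
    (h : ∫ s in (0 : ℝ)..(2 * π), ‖f s‖ ^ 2 ≤ A ^ 2) (ξ : ℤ) : ‖fcc f ξ‖ ≤ A := by
  refine le_of_sq_le_sq ((le_hasSum (parseval hf) ξ fun _ _ => by positivity).trans ?_) hA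
  have h1 : (2 * π)⁻¹ ≤ 1 := inv_le_one_of_one_le₀ (by linarith [Real.pi_gt_three])
  exact (mul_le_mul_of_nonneg_left h (by positivity)).trans (mul_le_of_le_one_left (sq_nonneg A) h1)

theorem series (hf : ContDiff ℝ ∞ f) (hp : Function.Periodic f (2 * π)) (s : ℝ) :
    HasSum (fun ξ : ℤ => fcc f ξ * exp (I * ξ * s)) (f s) := by
  have hT : Fact (0 < 2 * π) := ⟨Real.two_pi_pos⟩
  let F : C(AddCircle (2 * π), ℂ) := ⟨hp.lift, continuous_coinduced_dom.mpr hf.continuous⟩
  have hF : ∀ x : ℝ, F x = f x := fun x => hp.lift_coe x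
  have he : ∀ (n : ℤ) (x : ℝ), fourier n (x : AddCircle (2 * π)) = exp (I * n * x) := by
    intro n x
    rw [fourier_coe_apply]
    congr 1
    have := pi_ne
    push_cast
    field_simp
  have hc : fourierCoeff F = fcc f := by
    funext n
    rw [fourierCoeff_eq_intervalIntegral F n 0, zero_add, fcc, real_smul]
    congr 1
    · push_cast
      rw [one_div]
    · refine intervalIntegral.integral_congr fun x _ => ?_
      simp only [he, hF, smul_eq_mul]
      push_cast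
      ring_nf
  have hs : Summable (fcc f) := by
    set A := √(∫ s in (0 : ℝ)..(2 * π), ‖iteratedDeriv 2 f s‖ ^ 2)
    have h1 := fcc_le (sm_iter hf 2).continuous (Real.sqrt_nonneg _) (Real.sq_sqrt
      (intervalIntegral.integral_nonneg Real.two_pi_pos.le fun _ _ => by positivity)).ge
    refine Summable.of_norm_bounded_eventually
      ((Real.summable_one_div_int_pow.2 one_lt_two).mul_left A) ?_
    filter_upwards [eventually_cofinite_ne (0 : ℤ)] with ξ hξ
    have h2 : (0 : ℝ) < (ξ : ℝ) ^ 2 := by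
      have : (ξ : ℝ) ≠ 0 := by exact_mod_cast hξ
      positivity
    rw [mul_one_div, le_div_iff₀ h2, ← sq_abs, mul_comm, ← norm_iter hf hp]
    exact h1 ξ
  have := has_pointwise_sum_fourier_series_of_summable (f := F) (hc ▸ hs) (s : AddCircle (2 * π))
  simpa only [hc, he, hF, smul_eq_mul] using this

/-- The tail of the series. -/
theorem tail_le (hf : ContDiff ℝ ∞ f) (hp : Function.Periodic f (2 * π)) (N : ℕ) {L : ℝ}
    (hL : 0 ≤ L) (h : ∀ ξ : ℤ, (N : ℤ) < |ξ| → ‖fcc f ξ‖ ≤ L * ((ξ : ℝ) ^ 2)⁻¹) (s : ℝ) :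
    ‖Zc N f s‖ ≤ 4 * L / (N + 1) := by
  set a : ℤ → ℂ := fun ξ => if ξ ∈ Finset.Icc (-(N : ℤ)) N then 0 else fcc f ξ * exp (I * ξ * s)
    with ha
  have h1 : HasSum a (Zc N f s) := by
    have := (series hf hp s).sub (hasSum_sum_of_ne_finset_zero (s := Finset.Icc (-(N : ℤ)) N)
      (f := fun ξ => if ξ ∈ Finset.Icc (-(N : ℤ)) N then fcc f ξ * exp (I * ξ * s) else 0)
      fun ξ hξ => if_neg hξ)
    rw [Finset.sum_congr rfl fun ξ hξ => if_pos hξ] at this
    refine (congrArg (fun a => HasSum a _) (funext fun ξ => ?_)).mp this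
    simp only [ha]
    split_ifs <;> simp
  have h2 := h1.nat_add_neg
  rw [show a 0 = 0 from if_pos (by simp), add_zero] at h2
  have h3 : ∀ ξ : ℤ, ‖a ξ‖ ≤ if (N : ℤ) < |ξ| then L * ((ξ : ℝ) ^ 2)⁻¹ else 0 := fun ξ => by
    simp only [ha, Finset.mem_Icc, ← abs_le]
    by_cases h4 : |ξ| ≤ N
    · rw [if_pos h4, if_neg (not_lt.2 h4), norm_zero]
    · rw [if_neg h4, if_pos (not_le.1 h4), norm_mul, norm_ex, mul_one]
      exact h ξ (not_le.1 h4)
  refine le_of_tendsto' h2.tendsto_sum_nat.norm fun n => (norm_sum_le _ _).trans ?_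
  calc _ ≤ ∑ k ∈ Finset.range n, if N < k then 2 * L * ((k : ℝ) ^ 2)⁻¹ else 0 :=
        Finset.sum_le_sum fun k _ => by
          refine (norm_add_le _ _).trans ((add_le_add (h3 _) (h3 _)).trans_eq ?_)
          simp only [abs_neg, Nat.abs_cast, Nat.cast_lt, Int.cast_neg, Int.cast_natCast, even_two,
            Even.neg_pow]
          split_ifs <;> ring
    _ = 2 * L * ∑ k ∈ Finset.Ioo N n, ((k : ℝ) ^ 2)⁻¹ := by
        rw [← Finset.sum_filter, Finset.mul_sum]
        refine Finset.sum_congr ?_ fun _ _ => rfl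
        ext k
        simp [and_comm]
    _ ≤ 2 * L * (2 / (N + 1)) := mul_le_mul_of_nonneg_left (sum_Ioo_inv_sq_le N n) (by positivity)
    _ = _ := by ring

theorem fcc_Zc (hf : Continuous f) (N : ℕ) (η : ℤ) :
    fcc (Zc N f) η = if |η| ≤ N then 0 else fcc f η := by
  have e : ∀ t : Finset ℤ, fcc (fun s : ℝ => ∑ ξ ∈ t, fcc f ξ * exp (I * ξ * s)) η =
      if η ∈ t then fcc f η else 0 := fun t => by
    induction t using Finset.induction_on with
    | empty => simp [fcc]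
    | insert ξ t hξ ih =>
      simp only [Finset.sum_insert hξ]
      rw [fcc_add (by fun_prop) (by fun_prop), ih, fcc_mul]
      have := fcc_shift ξ (fun _ => 1) η
      simp only [mul_one, fcc_one, sub_eq_zero] at this
      rw [this]
      by_cases h1 : η = ξ
      · simp [h1, hξ]
      · simp [h1]
  have := fcc_sub hf (g := fun s : ℝ => ∑ ξ ∈ Finset.Icc (-(N : ℤ)) N, fcc f ξ * exp (I * ξ * s))
    (by fun_prop) η
  rw [e] at this
  refine this.trans ?_
  simp only [Finset.mem_Icc, ← abs_le]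
  split_ifs <;> simp

/-- One half of the exponential type. -/
def Tp (ε : ℤ) (N : ℕ) (F : ℂ → ℂ) : Prop :=
  ∃ p : ℂ → ℂ, Differentiable ℂ p ∧ ∀ v, F v * exp (I * ε * v) ^ N = p (exp (I * ε * v))

theorem Tp.sum {ε : ℤ} (hε : ε = 1 ∨ ε = -1) (N : ℕ) (c : ℤ → ℂ) :
    Tp ε N fun v => ∑ ξ ∈ Finset.Icc (-(N : ℤ)) N, c ξ * exp (I * ξ * v) := by
  refine ⟨fun z => ∑ ξ ∈ Finset.Icc (-(N : ℤ)) N, c ξ * z ^ (ε * ξ + N).toNat, by fun_prop,
    fun v => ?_⟩
  rw [Finset.sum_mul]
  refine Finset.sum_congr rfl fun ξ hξ => ?_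
  rw [Finset.mem_Icc] at hξ
  have h0 : 0 ≤ ε * ξ + N := by rcases hε with rfl | rfl <;> omega
  have h1 : (((ε * ξ + N).toNat : ℕ) : ℂ) = ε * ξ + N := by exact_mod_cast Int.toNat_of_nonneg h0
  rw [mul_assoc, ← exp_nat_mul, ← exp_nat_mul, ← exp_add, h1]
  congr 2
  rcases hε with rfl | rfl <;> push_cast <;> ring

theorem Tp.mul_sub {ε : ℤ} {N : ℕ} {F G : ℂ → ℂ} (hF : Tp ε N F) (hG : Tp ε N G) :
    Tp ε (2 * N) fun v => F v * G v - 1 := by
  obtain ⟨p, hp, h1⟩ := hF
  obtain ⟨q, hq, h2⟩ := hG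
  refine ⟨fun z => p z * q z - z ^ (2 * N), by fun_prop, fun v => ?_⟩
  simp only [← h1, ← h2]
  ring

theorem Tp.half {ε : ℤ} (hε : ε = 1 ∨ ε = -1) {N : ℕ} {F : ℂ → ℂ} (hF : Tp ε N F) {A : ℝ}
    (h : ∀ s : ℝ, ‖F s‖ ≤ A) (v : ℂ) (hv : 0 ≤ ε * v.im) : ‖F v‖ ≤ A * Real.exp (N * |v.im|) := by
  obtain ⟨p, hp, h1⟩ := hF
  have e : ‖exp (I * ε * v)‖ = Real.exp (-|v.im|) := by
    rw [norm_exp]
    congr 1
    rcases hε with rfl | rfl
    · rw [abs_of_nonneg (by simpa using hv)]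
      simp
    · rw [abs_of_nonpos (by simpa using hv)]
      simp
  have h2 : ‖p (exp (I * ε * v))‖ ≤ A := by
    refine Complex.norm_le_of_forall_mem_frontier_norm_le (U := Metric.ball 0 1)
      Metric.isBounded_ball hp.diffContOnCl (fun z hz => ?_) ?_
    · rw [frontier_ball _ one_ne_zero, mem_sphere_zero_iff_norm] at hz
      have h3 : exp (I * ε * ((ε * arg z : ℝ) : ℂ)) = z := by
        have := norm_mul_exp_arg_mul_I z
        rw [hz, ofReal_one, one_mul] at this
        rw [← this]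
        congr 1
        rw [this]
        rcases hε with rfl | rfl <;> push_cast <;> ring
      rw [← h3, ← h1, norm_mul, norm_pow, norm_ex, one_pow, mul_one]
      exact h _
    · rw [closure_ball _ one_ne_zero, mem_closedBall_zero_iff, e]
      exact Real.exp_le_one_iff.2 (neg_nonpos.2 (abs_nonneg _))
  rw [← h1, norm_mul, norm_pow, e, ← Real.exp_nat_mul, mul_neg, Real.exp_neg,
    mul_inv_le_iff₀ (Real.exp_pos _)] at h2
  exact h2

/-- Growth of a trigonometric polynomial off the real line. -/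
theorem strip {N : ℕ} {F : ℂ → ℂ} (hF : ∀ ε : ℤ, ε = 1 ∨ ε = -1 → Tp ε N F) {A : ℝ}
    (h : ∀ s : ℝ, ‖F s‖ ≤ A) (v : ℂ) : ‖F v‖ ≤ A * Real.exp (N * |v.im|) := by
  rcases le_total 0 v.im with hv | hv
  · exact (hF 1 (Or.inl rfl)).half (Or.inl rfl) h v (by simpa using hv)
  · exact (hF (-1) (Or.inr rfl)).half (Or.inr rfl) h v (by simpa using hv)

end H1

end Pool.Agent.Lib.IS2
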