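import Pool.Agent.Lib.IS2.Blue

/-! One integration by parts and the two one dimensional integrals of the resonant term. -/

open scoped ContDiff ComplexConjugate Topology Real
open Complex MeasureTheory Set Filter

noncomputable section

namespace Pool.Agent.Lib.IS2.J2

open Pool.Agent.Lib.ISO intervalIntegral

lemma nle {E : Type} [NormedAddCommGroup E] [NormedSpace ℝ E] {f : ℝ → E} {g : ℝ → ℝ} {a b : ℝ}
    (hab : a ≤ b) (cg : Continuous g) (h : ∀ x ∈ Icc a b, ‖f x‖ ≤ g x) :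
    ‖∫ x in a..b, f x‖ ≤ ∫ x in a..b, g x :=
  norm_integral_le_of_norm_le hab (Eventually.of_forall fun x hx => h x (Ioc_subset_Icc_self hx))
    (cg.intervalIntegrable _ _)

lemma ibp {E : Type} [NormedAddCommGroup E] [NormedSpace ℝ E] [CompleteSpace E]
    {f f' B : ℝ → ℝ} {v v' : ℝ → E} {a b K : ℝ} (hab : a ≤ b)
    (hf : ∀ x ∈ Icc a b, HasDerivAt f (f' x) x) (cf : ContinuousOn f' (Icc a b))
    (hB : ∀ x ∈ Icc a b, |f' x| ≤ B x) (cB : Continuous B)
    (hv : ∀ x, HasDerivAt v (v' x) x) (cv : Continuous v') (hK : ∀ x, ‖v x‖ ≤ K) :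
    ‖∫ x in a..b, f x • v' x‖ ≤ K * (|f a| + |f b| + ∫ x in a..b, B x) := by
  rw [← uIcc_of_le hab] at hf cf
  rw [integral_smul_deriv_eq_deriv_smul hf (fun x _ => hv x) cf.intervalIntegrable
    (cv.intervalIntegrable _ _)]
  have b1 : ∀ x, ‖f x • v x‖ ≤ |f x| * K := fun x => by
    rw [norm_smul]; exact mul_le_mul_of_nonneg_left (hK x) (norm_nonneg _)
  have b2 : ‖∫ x in a..b, f' x • v x‖ ≤ ∫ x in a..b, K * B x :=
    nle hab (by fun_prop) fun x hx => by
      rw [norm_smul, mul_comm]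
      exact mul_le_mul (hK x) (hB x hx) (norm_nonneg _) ((norm_nonneg _).trans (hK x))
  rw [intervalIntegral.integral_const_mul] at b2
  linarith [norm_sub_le (f b • v b - f a • v a) (∫ x in a..b, f' x • v x),
    norm_sub_le (f b • v b) (f a • v a), b1 a, b1 b]

/-- the integral in the distance -/
lemma dint {Φ g : ℝ → ℝ} {o r m B0 B1 e1 e2 : ℝ} (cΦ : Continuous Φ) (cg : Continuous g)
    (ev : ∀ d, g (-d) = g d) (g0 : ∀ d, 0 ≤ g d) (r0 : 0 ≤ r) (rp : r ≤ π)
    (h0 : ∀ d, |Φ d| ≤ B0) (h1 : ∀ d, r ≤ |d| → |d| ≤ π → |Φ d - m * Real.cos (o * d)| ≤ B1)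
    (hm : ∀ d, |d| ≤ r → g d ≤ e1)
    (hR : ‖∫ d in r..π, g d • exp (-(I * (2 * o * d : ℝ)))‖ ≤ e2) :
    ‖(∫ d in (-π)..π, ((Φ d * g d : ℝ) : ℂ) * exp (-(I * o * (|d| : ℝ)))) -
      ((m * ∫ d in r..π, g d : ℝ) : ℂ)‖ ≤
      2 * r * (B0 * e1) + 2 * B1 * (∫ d in r..π, g d) + |m| * e2 := by
  set f : ℝ → ℂ := fun d => ((Φ d * g d : ℝ) : ℂ) * exp (-(I * o * (|d| : ℝ))) with hf
  have cf : Continuous f := by fun_prop
  have ne : ∀ x : ℝ, ‖exp (-(I * o * x))‖ = 1 := fun x => by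
    rw [norm_exp]; simp
  have i := fun a b => cf.intervalIntegrable (μ := volume) a b
  have e0 : ∫ d in (-π)..π, f d = (∫ d in (-r)..r, f d) + ∫ d in r..π, (f d + f (-d)) := by
    rw [intervalIntegral.integral_add (i _ _) ((cf.comp' continuous_neg).intervalIntegrable _ _),
      integral_comp_neg,
      ← integral_add_adjacent_intervals (i (-π) (-r)) (i (-r) π),
      ← integral_add_adjacent_intervals (i (-r) r) (i r π)]
    ring
  have b0 : ‖∫ d in (-r)..r, f d‖ ≤ B0 * e1 * |r - -r| :=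
    norm_integral_le_of_norm_le_const fun d hd => by
      rw [uIoc_of_le (by linarith)] at hd
      rw [hf, norm_mul, ne, mul_one, norm_real, Real.norm_eq_abs, abs_mul, abs_of_nonneg (g0 d)]
      exact mul_le_mul (h0 d) (hm d (abs_le.2 ⟨hd.1.le, hd.2⟩)) (g0 d) ((abs_nonneg _).trans (h0 d))
  set k : ℝ → ℂ := fun d => (((Φ d - m * Real.cos (o * d)) + (Φ (-d) - m * Real.cos (o * -d))) *
    g d : ℝ) * exp (-(I * o * d)) with hk
  have e1 : ∫ d in r..π, (f d + f (-d)) = (∫ d in r..π, k d) + (m * ∫ d in r..π, g d : ℝ) +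
      m * ∫ d in r..π, g d • exp (-(I * (2 * o * d : ℝ))) := by
    rw [← intervalIntegral.integral_const_mul, ← intervalIntegral.integral_ofReal,
      ← intervalIntegral.integral_const_mul, ← intervalIntegral.integral_add, ← intervalIntegral.integral_add]
    · refine integral_congr fun d hd => ?_
      rw [uIcc_of_le rp] at hd
      have a : exp (-(I * o * d)) * exp (I * o * d) = 1 := by rw [← exp_add]; simp
      have b : exp (-(I * (2 * o * d : ℝ))) = exp (-(I * o * d)) * exp (-(I * o * d)) := by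
        rw [← exp_add]; push_cast; ring_nf
      have c : 2 * cos (o * d) = exp (I * o * d) + exp (-(I * o * d)) := by
        rw [two_cos]; ring_nf
      simp only [hf, hk, abs_neg, abs_of_nonneg (r0.trans hd.1), ev, mul_neg, Real.cos_neg, b,
        real_smul]
      push_cast
      linear_combination (m * g d * exp (-(I * o * d))) * c + (m * g d) * a
    all_goals exact Continuous.intervalIntegrable (by fun_prop) _ _
  have b1 : ‖∫ d in r..π, k d‖ ≤ ∫ d in r..π, 2 * B1 * g d :=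
    nle rp (by fun_prop) fun d hd => by
      have hd' := abs_of_nonneg (r0.trans hd.1)
      rw [hk, norm_mul, ne, mul_one, norm_real, Real.norm_eq_abs, abs_mul, abs_of_nonneg (g0 d)]
      refine mul_le_mul_of_nonneg_right ((abs_add_le _ _).trans ?_) (g0 d)
      linarith [h1 d (hd'.symm ▸ hd.1) (hd'.symm ▸ hd.2),
        h1 (-d) (by rw [abs_neg, hd']; exact hd.1) (by rw [abs_neg, hd']; exact hd.2)]
  rw [intervalIntegral.integral_const_mul] at b1
  rw [e0, e1]
  rw [sub_neg_eq_add, abs_of_nonneg (by linarith : 0 ≤ r + r)] at b0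
  have b2 : ‖(m : ℂ) * ∫ d in r..π, g d • exp (-(I * (2 * o * d : ℝ)))‖ ≤ |m| * e2 := by
    rw [norm_mul, norm_real]; exact mul_le_mul_of_nonneg_left hR (norm_nonneg _)
  rw [show ∀ a b c d : ℂ, a + (b + c + d) - c = a + b + d from fun a b c d => by ring]
  linarith [norm_add₃_le (a := ∫ d in (-r)..r, f d) (b := ∫ d in r..π, k d)
    (c := (m : ℂ) * ∫ d in r..π, g d • exp (-(I * (2 * o * d : ℝ))))]

lemma shift {f : ℝ → ℝ} (hp : ∀ s, f (s + 2 * π) = f s) (d : ℝ) :
    ∫ s in (0 : ℝ)..(2 * π), f (s + d) = ∫ s in (0 : ℝ)..(2 * π), f s := by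
  have := Function.Periodic.intervalIntegral_add_eq (f := f) (T := 2 * π) hp d 0
  rw [integral_comp_add_right, zero_add, add_comm (2 * π), this, zero_add]

/-- the integrals along the curve -/
lemma sint {ρ τ k k' : ℝ → ℝ} {o φ β L e J : ℝ} (cρ : Continuous ρ) (ck' : Continuous k')
    (pρ : ∀ s, ρ (s + 2 * π) = ρ s) (pτ : ∀ s, τ (s + 2 * π) = τ s)
    (hτ : ∀ s, τ s = β * Real.cos (o * s + φ)) (hβ : β ^ 2 ≤ 16 * L)
    (hk : ∀ s, HasDerivAt k (k' s) s) (k0 : ∀ s, |k s| ≤ J) (k1 : ∀ s, |k' s| ≤ J)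
    (o0 : 0 < o) (eo : o⁻¹ ≤ e) (e2 : e ≤ 2)
    (hs : ∫ s in (0 : ℝ)..(2 * π), (ρ s - τ s) ^ 2 ≤ e ^ 2 * L) (d : ℝ) :
    (∀ w : ℝ → ℝ, (∀ s, |w s| ≤ 1) →
      |∫ s in (0 : ℝ)..(2 * π), w s * (ρ s * ρ (s + d)) * k s| ≤ 300 * J * L) ∧
    |(∫ s in (0 : ℝ)..(2 * π), ρ s * ρ (s + d) * k s) -
      β ^ 2 / 2 * (∫ s in (0 : ℝ)..(2 * π), k s) * Real.cos (o * d)| ≤ 300 * J * L * e := by
  have ck : Continuous k := continuous_iff_continuousAt.2 fun s => (hk s).continuousAt
  have cτ : Continuous τ := by rw [funext hτ]; fun_prop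
  have e0 : 0 < e := (inv_pos.2 o0).trans_le eo
  have J0 : 0 ≤ J := (abs_nonneg _).trans (k0 0)
  have L0 : 0 ≤ L := by nlinarith [sq_nonneg β]
  have p0 := Real.two_pi_pos.le
  have p4 := Real.pi_lt_four
  have t2 : ∀ s, τ s ^ 2 ≤ 16 * L := fun s => by
    rw [hτ, mul_pow]; nlinarith [Real.cos_sq_le_one (o * s + φ), sq_nonneg β]
  have hs' := (shift (f := fun s => (ρ s - τ s) ^ 2) (fun s => by rw [pρ, pτ]) d).trans_le hs
  have mj : ∀ a b : ℝ, 0 ≤ a → ∫ s in (0 : ℝ)..(2 * π),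
      J * (a * ((ρ s - τ s) ^ 2 + (ρ (s + d) - τ (s + d)) ^ 2) + b) ≤
      J * (a * (2 * (e ^ 2 * L)) + 2 * π * b) := fun a b ha => by
    rw [intervalIntegral.integral_const_mul, intervalIntegral.integral_add, intervalIntegral.integral_const_mul,
      intervalIntegral.integral_add, intervalIntegral.integral_const, sub_zero, smul_eq_mul]
    · gcongr; linarith
    all_goals exact Continuous.intervalIntegrable (by fun_prop) _ _
  refine ⟨fun w hw => (Real.norm_eq_abs _).symm.trans_le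
    (((nle p0 (by fun_prop) fun s _ => ?_).trans (mj 1 (32 * L) one_pos.le)).trans ?_), ?_⟩
  · rw [norm_mul, norm_mul, mul_comm]
    refine mul_le_mul (k0 s) ((mul_le_of_le_one_left (norm_nonneg _) (hw s)).trans (abs_le.2 ⟨?_, ?_⟩))
      (by positivity) J0 <;>
    nlinarith [t2 s, t2 (s + d), sq_nonneg (ρ s + ρ (s + d)), sq_nonneg (ρ s - ρ (s + d)),
      sq_nonneg (ρ s - 2 * τ s), sq_nonneg (ρ (s + d) - 2 * τ (s + d))]
  · have : e ^ 2 ≤ 4 := by nlinarith
    rw [mul_comm 300, mul_assoc J]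
    exact mul_le_mul_of_nonneg_left (by nlinarith) J0
  have b1 : |∫ s in (0 : ℝ)..(2 * π), (ρ s * ρ (s + d) - τ s * τ (s + d)) * k s| ≤ 132 * J * L * e := by
    refine (Real.norm_eq_abs _).symm.trans_le (((nle p0 (by fun_prop) fun s _ => ?_).trans
      (mj (2 / e) (16 * L * e) (by positivity))).trans ?_)
    · rw [norm_mul, mul_comm]
      refine mul_le_mul (k0 s) ?_ (norm_nonneg _) J0
      rw [← mul_le_mul_iff_right₀ e0, Real.norm_eq_abs, ← abs_of_pos e0, ← abs_mul, abs_of_pos e0]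
      have a := mul_le_mul_of_nonneg_left (t2 s) (sq_nonneg e)
      have b := mul_le_mul_of_nonneg_left (t2 (s + d)) (sq_nonneg e)
      generalize τ s = x, τ (s + d) = y at *
      obtain ⟨u, hu⟩ : ∃ u, ρ s = x + u := ⟨_, (add_sub_cancel _ _).symm⟩
      obtain ⟨v, hv⟩ : ∃ v, ρ (s + d) = y + v := ⟨_, (add_sub_cancel _ _).symm⟩
      rw [hu, hv, add_sub_cancel_left, add_sub_cancel_left, mul_add e (2 / e * _),
        ← mul_assoc e (2 / e), mul_div_cancel₀ _ e0.ne']
      have c := mul_le_mul_of_nonneg_right e2 (add_nonneg (sq_nonneg u) (sq_nonneg v))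
      refine abs_le.2 ⟨?_, ?_⟩ <;>
      nlinarith [sq_nonneg (e * x + v), sq_nonneg (e * x - v), sq_nonneg (e * y + u),
        sq_nonneg (e * y - u), mul_nonneg e0.le (sq_nonneg (u + v)), mul_nonneg e0.le (sq_nonneg (u - v))]
    · rw [show 2 / e * (2 * (e ^ 2 * L)) = 4 * (L * e) by field_simp; ring,
        show 132 * J * L * e = J * (132 * (L * e)) by ring]
      exact mul_le_mul_of_nonneg_left (by nlinarith [mul_nonneg L0 e0.le]) J0
  have b2 := ibp (f := k) (B := fun _ => J) (K := (2 * o)⁻¹) p0 (fun x _ => hk x) ck'.continuousOn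
    (fun x _ => k1 x) continuous_const
    (v := fun s => (2 * o)⁻¹ * Real.sin (2 * o * s + (o * d + 2 * φ)))
    (v' := fun s => Real.cos (2 * o * s + (o * d + 2 * φ))) (fun s => by
      refine (((((hasDerivAt_id' s).const_mul (2 * o)).add_const (o * d + 2 * φ)).sin).const_mul
        (2 * o)⁻¹).congr_deriv ?_
      field_simp) (by fun_prop) fun s => by
      rw [norm_mul, Real.norm_of_nonneg (by positivity)]
      exact mul_le_of_le_one_right (by positivity) (Real.abs_sin_le_one _)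
  have id : (∫ s in (0 : ℝ)..(2 * π), ρ s * ρ (s + d) * k s) -
      β ^ 2 / 2 * (∫ s in (0 : ℝ)..(2 * π), k s) * Real.cos (o * d) =
      (∫ s in (0 : ℝ)..(2 * π), (ρ s * ρ (s + d) - τ s * τ (s + d)) * k s) +
      β ^ 2 / 2 * ∫ s in (0 : ℝ)..(2 * π), k s • Real.cos (2 * o * s + (o * d + 2 * φ)) := by
    rw [← intervalIntegral.integral_const_mul, ← intervalIntegral.integral_const_mul,
      ← intervalIntegral.integral_mul_const, ← intervalIntegral.integral_sub, ← intervalIntegral.integral_add]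
    · refine integral_congr fun s _ => ?_
      have a := Real.cos_add (o * (s + d) + φ) (o * s + φ)
      have b := Real.cos_sub (o * (s + d) + φ) (o * s + φ)
      rw [show o * (s + d) + φ + (o * s + φ) = 2 * o * s + (o * d + 2 * φ) by ring] at a
      rw [show o * (s + d) + φ - (o * s + φ) = o * d by ring] at b
      simp only [hτ, smul_eq_mul, a, b]
      ring
    all_goals exact Continuous.intervalIntegrable (by fun_prop) _ _
  rw [id]
  refine (abs_add_le _ _).trans ?_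
  rw [intervalIntegral.integral_const, sub_zero, smul_eq_mul, Real.norm_eq_abs, mul_inv] at b2
  have b3 : 2⁻¹ * o⁻¹ * (|k 0| + |k (2 * π)| + 2 * π * J) ≤ 2⁻¹ * e * (10 * J) := by
    gcongr; nlinarith [k0 0, k0 (2 * π)]
  rw [abs_mul, abs_of_nonneg (by positivity : 0 ≤ β ^ 2 / 2)]
  have b4 := mul_le_mul (by linarith : β ^ 2 / 2 ≤ 8 * L) (b2.trans b3) (abs_nonneg _) (by positivity)
  nlinarith [mul_nonneg (mul_nonneg J0 L0) e0.le]

end Pool.Agent.Lib.IS2.J2
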