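import Pool.Agent.Lib.IS2.B_J21

/-! The Gaussian weight with a power. -/

open scoped ContDiff ComplexConjugate Topology Real
open Complex MeasureTheory Set Filter

noncomputable section

namespace Pool.Agent.Lib.IS2.J2

open Pool.Agent.Lib.ISO intervalIntegral

lemma pw (a : ℝ) : ∃ C, 0 ≤ C ∧ ∀ h x : ℝ, 4 ≤ h → (2 * h)⁻¹ ≤ x →
    x ^ a * Real.exp (-((h ^ 2 * (1 - 2 * x)) ^ 2 / 8)) ≤ C := by
  obtain ⟨n, hn⟩ := exists_nat_ge |a|
  refine ⟨n.factorial * Real.exp 5, by positivity, fun h x h4 hx => ?_⟩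
  have x0 : 0 < x := lt_of_lt_of_le (by positivity) hx
  have xi : 0 < x⁻¹ := inv_pos.2 x0
  have a1 : x ^ a ≤ (x + x⁻¹) ^ n := by
    rcases le_total 1 x with b | b
    · refine (Real.rpow_le_rpow_of_exponent_le b ((le_abs_self a).trans hn)).trans ?_
      rw [Real.rpow_natCast]; gcongr; linarith
    · refine (Real.rpow_le_rpow_of_exponent_ge x0 b (neg_le.1 ((neg_le_abs a).trans hn))).trans ?_
      rw [Real.rpow_neg x0.le, Real.rpow_natCast, ← inv_pow]; gcongr; linarith
  have a2 := Real.pow_div_factorial_le_exp (x + x⁻¹) (by positivity) n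
  rw [div_le_iff₀ (by positivity)] at a2
  have a3 : x + x⁻¹ + -((h ^ 2 * (1 - 2 * x)) ^ 2 / 8) ≤ 5 := by
    have h2 : 16 ≤ h ^ 2 := by nlinarith
    have h3 : 64 * h ≤ h ^ 2 * h ^ 2 := by nlinarith
    rw [mul_pow]
    rcases le_total x (1 / 4) with b | b
    · have := (inv_le_comm₀ (by positivity) x0).1 hx
      have : 1 / 4 ≤ (1 - 2 * x) ^ 2 := by nlinarith
      nlinarith
    · have := (inv_le_comm₀ x0 (by norm_num)).2 (show (4 : ℝ)⁻¹ ≤ x by linarith)
      have : 256 * (1 - 2 * x) ^ 2 ≤ (h ^ 2) ^ 2 * (1 - 2 * x) ^ 2 := by gcongr; nlinarith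
      nlinarith [sq_nonneg (x - 1)]
  calc _ ≤ Real.exp (x + x⁻¹) * n.factorial * Real.exp (-((h ^ 2 * (1 - 2 * x)) ^ 2 / 8)) := by
        gcongr; exact a1.trans a2
    _ = n.factorial * Real.exp (x + x⁻¹ + -((h ^ 2 * (1 - 2 * x)) ^ 2 / 8)) := by
        rw [Real.exp_add (x + x⁻¹)]; ring
    _ ≤ _ := by gcongr

def GG (a T w d : ℝ) : ℝ := 2 * √(2 * π) / w * d ^ a * Real.exp (-(((T - 2 * d) / w) ^ 2 / 2))

lemma gauss {T w a b : ℝ} (w0 : 0 < w) (hab : a ≤ b) :
    ∫ d in a..b, Real.exp (-(((T - 2 * d) / w) ^ 2 / 4)) ≤ 2 * w := by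
  have e : ∀ d, Real.exp (-(((T - 2 * d) / w) ^ 2 / 4)) =
      (fun x => Real.exp (-(w ^ 2)⁻¹ * x ^ 2)) (d - T / 2) := fun d => by
    congr 1; field_simp; ring
  simp only [e]
  rw [integral_comp_sub_right (fun x => Real.exp (-(w ^ 2)⁻¹ * x ^ 2)), integral_of_le (by linarith)]
  refine (setIntegral_le_integral (integrable_exp_neg_mul_sq (by positivity))
    (Eventually.of_forall fun x => (Real.exp_pos _).le)).trans ?_
  rw [integral_gaussian, Real.sqrt_le_left (by positivity), div_inv_eq_mul]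
  nlinarith [Real.pi_lt_four, sq_nonneg w]

lemma gf (a : ℝ) : ∃ c C, 0 < c ∧ 0 ≤ C ∧ ∀ h T w : ℝ, 8 ≤ h → 0 < T → T ≤ 1 → w = T / h ^ 2 →
    c * T ^ a ≤ ∫ d in (2 * T / h)..π, GG a T w d ∧ ∫ d in (2 * T / h)..π, GG a T w d ≤ C * T ^ a ∧
    (∀ d, T / (2 * h) ≤ d → d ≤ 2 * T / h → GG a T w d ≤ C * T ^ a / w * Real.exp (-(h ^ 4 / 32))) ∧
    ∀ o : ℝ, 0 < o → ‖∫ d in (2 * T / h)..π, GG a T w d • exp (-(I * (2 * o * d : ℝ)))‖ ≤
      C * T ^ a / (w * o) := by
  obtain ⟨K, K0, hK⟩ := pw a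
  set C := 2 * √(2 * π) * K with hC
  have C0 : 0 ≤ C := by positivity
  refine ⟨√(2 * π) * min 1 (2⁻¹ ^ a) * Real.exp (-(1 / 2)), C * (|a| + 5), by positivity,
    by positivity, fun h T w h8 T0 T1 hw => ?_⟩
  have h0 : 0 < h := by linarith
  have w0 : 0 < w := by rw [hw]; positivity
  have p3 := Real.pi_gt_three
  have h64 : 64 ≤ h ^ 2 := by nlinarith
  have wT : w * h ^ 2 = T := by rw [hw]; field_simp
  have wT' : 64 * w ≤ T := by nlinarith
  have r4 : 2 * T / h ≤ T / 4 := by rw [div_le_iff₀ h0]; nlinarith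
  have r0 : T / (2 * h) ≤ 2 * T / h := by
    rw [div_le_div_iff₀ (by positivity) h0]; nlinarith [mul_pos T0 h0]
  have r1 : 0 < T / (2 * h) := by positivity
  have rp : 2 * T / h ≤ π := by linarith
  set A := C * T ^ a / w with hA
  have A0 : 0 ≤ A := by positivity
  have a5 : 1 ≤ |a| + 5 := by linarith [abs_nonneg a]
  have pt : ∀ d, T / (2 * h) ≤ d → 0 ≤ GG a T w d ∧
      GG a T w d * Real.exp (((T - 2 * d) / w) ^ 2 / 8) ≤
        A * Real.exp (-(((T - 2 * d) / w) ^ 2 / 4)) := fun d hd => by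
    have d0 : 0 < d := r1.trans_le hd
    refine ⟨by unfold GG; positivity, ?_⟩
    have := hK h (d / T) (by linarith) (by rw [le_div_iff₀ T0, ← div_eq_inv_mul]; exact hd)
    rw [show h ^ 2 * (1 - 2 * (d / T)) = (T - 2 * d) / w by rw [hw]; field_simp,
      Real.div_rpow d0.le T0.le] at this
    unfold GG
    generalize (T - 2 * d) / w = u at this ⊢
    have e : Real.exp (-(u ^ 2 / 2)) * Real.exp (u ^ 2 / 8) =
        Real.exp (-(u ^ 2 / 8)) * Real.exp (-(u ^ 2 / 4)) := by
      rw [← Real.exp_add, ← Real.exp_add]; ring_nf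
    have Ta : 0 < T ^ a := by positivity
    calc _ = 2 * √(2 * π) * T ^ a / w * Real.exp (-(u ^ 2 / 4)) *
          (d ^ a / T ^ a * Real.exp (-(u ^ 2 / 8))) := by rw [mul_assoc, e]; field_simp
      _ ≤ 2 * √(2 * π) * T ^ a / w * Real.exp (-(u ^ 2 / 4)) * K := by gcongr
      _ = _ := by rw [hA, hC]; ring
  have p1 : ∀ d, T / (2 * h) ≤ d → GG a T w d ≤ A * Real.exp (-(((T - 2 * d) / w) ^ 2 / 4)) :=
    fun d hd => (le_mul_of_one_le_right (pt d hd).1 (Real.one_le_exp (by positivity))).trans (pt d hd).2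
  have p2 : ∀ d, T / (2 * h) ≤ d → GG a T w d ≤ A := fun d hd =>
    (p1 d hd).trans (mul_le_of_le_one_right A0 (Real.exp_le_one_iff.2 (neg_nonpos.2 (by positivity))))
  have hd : ∀ d ∈ Icc (2 * T / h) π, HasDerivAt (GG a T w)
      (GG a T w d * (a / d + 2 * ((T - 2 * d) / w) / w)) d := fun d hd => by
    have d0 : 0 < d := r1.trans_le (r0.trans hd.1)
    refine (((Real.hasDerivAt_rpow_const (p := a) (Or.inl d0.ne')).const_mul (2 * √(2 * π) / w)).fun_mul
      ((((((hasDerivAt_id' d).const_mul 2).const_sub T).div_const w).fun_pow 2).div_const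
        2).fun_neg.exp).congr_deriv ?_
    rw [Real.rpow_sub_one d0.ne', GG]
    simp only [Nat.cast_ofNat, Nat.add_one_sub_one, pow_one]
    ring
  have cg : ContinuousOn (GG a T w) (Icc (2 * T / h) π) := fun d h => (hd d h).continuousAt.continuousWithinAt
  have ig : IntervalIntegrable (GG a T w) volume (2 * T / h) π :=
    (uIcc_of_le rp ▸ cg).intervalIntegrable
  refine ⟨?_, ?_, fun d h1 h2 => ?_, fun o o0 => ?_⟩
  · have s1 : 2 * T / h ≤ T / 2 := by linarith
    have s2 : T / 2 ≤ T / 2 + w / 2 := by linarith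
    have s3 : T / 2 + w / 2 ≤ π := by linarith
    refine le_trans ?_ (integral_mono_interval s1 s2 s3 ((ae_restrict_mem measurableSet_Ioc).mono
      fun d hd => (pt d (r0.trans hd.1.le)).1) ig)
    refine le_trans (le_of_eq ?_) (integral_mono_on (f := fun _ => 2 * √(2 * π) / w *
      (min 1 (2⁻¹ ^ a) * T ^ a) * Real.exp (-(1 / 2))) s2 intervalIntegrable_const
      (ig.mono_set (by rw [uIcc_of_le s2, uIcc_of_le rp]; exact Icc_subset_Icc s1 s3)) fun d hd => ?_)
    · rw [intervalIntegral.integral_const, smul_eq_mul]; field_simp; ring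
    · have u1 : ((T - 2 * d) / w) ^ 2 ≤ 1 := by
        rw [div_pow, div_le_one (by positivity)]; nlinarith [hd.1, hd.2]
      have u2 : min 1 (2⁻¹ ^ a) * T ^ a ≤ d ^ a := by
        rcases le_total 0 a with b | b
        · refine le_trans (by gcongr; exact min_le_right _ _) ((Real.mul_rpow (by norm_num)
            T0.le).symm.trans_le (Real.rpow_le_rpow (by positivity) (by linarith [hd.1]) b))
        · exact (mul_le_of_le_one_left (by positivity) (min_le_left _ _)).trans
            (Real.rpow_le_rpow_of_nonpos (by linarith [hd.1]) (by linarith [hd.2]) b)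
      have d0 : 0 < d := by linarith [hd.1]
      unfold GG
      gcongr
  · refine (integral_mono_on rp ig (Continuous.intervalIntegrable (by fun_prop) _ _)
      fun d hd => p1 d (r0.trans hd.1)).trans ?_
    rw [intervalIntegral.integral_const_mul]
    refine (mul_le_mul_of_nonneg_left (gauss w0 rp) A0).trans ?_
    rw [hA, show C * T ^ a / w * (2 * w) = C * 2 * T ^ a by field_simp]
    gcongr; linarith [abs_nonneg a]
  · refine (p1 d h1).trans ?_
    have u1 : h ^ 2 / 2 ≤ (T - 2 * d) / w := by rw [le_div_iff₀ w0]; linarith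
    have u2 := pow_le_pow_left₀ (by positivity) u1 2
    rw [hA]
    gcongr ?_ * _ / _ * Real.exp ?_
    · exact le_mul_of_one_le_right C0 a5
    · nlinarith [pow_pos h0 4]
  · have := ibp (B := fun d => A * ((|a| + 4) / w) * Real.exp (-(((T - 2 * d) / w) ^ 2 / 4)))
      (K := (2 * o)⁻¹) rp hd (cg.mul (ContinuousOn.add (continuousOn_const.div continuousOn_id
        fun d hd => (r1.trans_le (r0.trans hd.1)).ne') (by fun_prop))) (fun d hd => ?_) (by fun_prop)
      (v := fun d => I / (2 * o) * exp (-(I * (2 * o * d : ℝ))))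
      (v' := fun d => exp (-(I * (2 * o * d : ℝ)))) (fun d => ?_) (by fun_prop) fun d => ?_
    · refine this.trans ?_
      rw [intervalIntegral.integral_const_mul, abs_of_nonneg (pt _ r0).1,
        abs_of_nonneg (pt _ (r0.trans rp)).1]
      calc _ ≤ (2 * o)⁻¹ * (A + A + A * ((|a| + 4) / w) * (2 * w)) := by
            gcongr
            exacts [p2 _ r0, p2 _ (r0.trans rp), gauss w0 rp]
        _ = _ := by rw [hA]; field_simp; ring
    · have d0 : 0 < d := r1.trans_le (r0.trans hd.1)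
      obtain ⟨q0, q1⟩ := pt d (r0.trans hd.1)
      generalize (T - 2 * d) / w = u at *
      have u1 : |u| ≤ 2 * Real.exp (u ^ 2 / 8) := by
        have := Real.add_one_le_exp (u ^ 2 / 8)
        rw [← sq_abs] at this ⊢
        nlinarith [sq_nonneg (|u| - 2)]
      have u2 : 1 ≤ Real.exp (u ^ 2 / 8) := Real.one_le_exp (by positivity)
      have u3 : w ≤ d := by
        refine le_trans ?_ hd.1
        rw [le_div_iff₀ h0]; nlinarith [mul_pos w0 h0]
      have u4 : |a / d + 2 * u / w| ≤ Real.exp (u ^ 2 / 8) * ((|a| + 4) / w) := by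
        refine (abs_add_le _ _).trans ?_
        rw [abs_div, abs_div, abs_mul, abs_of_pos d0, abs_of_pos w0, abs_two, ← mul_div_assoc, mul_add,
          add_div]
        gcongr ?_ / ?_ + ?_ / _
        · exact le_mul_of_one_le_left (abs_nonneg _) u2
        · linarith
      rw [abs_mul, abs_of_nonneg q0]
      calc _ ≤ GG a T w d * (Real.exp (u ^ 2 / 8) * ((|a| + 4) / w)) := by gcongr
        _ ≤ _ := by rw [← mul_assoc, mul_right_comm A]; gcongr
    · have : (o : ℂ) ≠ 0 := ofReal_ne_zero.2 o0.ne'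
      refine ((((((hasDerivAt_id' d).const_mul (2 * o)).ofReal_comp).const_mul I).fun_neg.cexp).const_mul
        (I / (2 * o))).congr_deriv ?_
      push_cast
      field_simp
      rw [I_sq]; ring
    · rw [norm_mul, norm_exp]
      simp [abs_of_pos o0]

end Pool.Agent.Lib.IS2.J2
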