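import Pool.Agent.Lib.IS2.Blue

/-! Bounds of the kernels of an admissible pair. -/

open scoped ContDiff ComplexConjugate Topology Real
open Complex MeasureTheory Set Filter

noncomputable section

namespace Pool.Agent.Lib.IS2

open Pool.Agent.Lib.ISO

namespace KBB

theorem red (s t : ℝ) : dc s t ≤ π ∧ ∃ k : ℤ, dc s t = |s - k * (2 * π) - t| := by
  refine ⟨?_, round ((2 * π)⁻¹ * (s - t)), ?_⟩
  · have := AddCircle.norm_le_half_period (2 * π) (x := ((s - t : ℝ) : AddCircle (2 * π)))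
      (by positivity)
    rwa [abs_of_pos (by positivity), mul_div_cancel_left₀ _ (two_ne_zero)] at this
  · rw [dc, AddCircle.norm_eq]
    congr 1
    ring

theorem lip {F : Type} [NormedAddCommGroup F] [NormedSpace ℝ F] {f : ℝ → F} {L : ℝ}
    (hd : Differentiable ℝ f) (hL : ∀ s, ‖deriv f s‖ ≤ L) (x y : ℝ) : ‖f y - f x‖ ≤ L * |y - x| :=
  convex_univ.norm_image_sub_le_of_norm_deriv_le (fun s _ => hd s) (fun s _ => hL s) trivial trivial

theorem lipc {F : Type} [NormedAddCommGroup F] [NormedSpace ℝ F] {f : ℝ → F} {L : ℝ}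
    (hd : Differentiable ℝ f) (hp : Function.Periodic f (2 * π)) (hL : ∀ s, ‖deriv f s‖ ≤ L)
    (s t : ℝ) : ‖f t - f s‖ ≤ L * dc s t := by
  obtain ⟨k, hk⟩ := (red s t).2
  rw [hk, ← hp.sub_int_mul_eq (x := s) k, abs_sub_comm]
  exact lip hd hL _ _

theorem tay {F : Type} [NormedAddCommGroup F] [NormedSpace ℝ F] {f : ℝ → F} {L : ℝ}
    (hd : Differentiable ℝ f) (hd' : Differentiable ℝ (deriv f))
    (hL : ∀ s, ‖deriv (deriv f) s‖ ≤ L) (x y : ℝ) :
    ‖f y - f x - (y - x) • deriv f x‖ ≤ L * |y - x| ^ 2 := by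
  have h0 : 0 ≤ L := (norm_nonneg _).trans (hL 0)
  have hc : Convex ℝ (Metric.closedBall x |y - x|) := convex_closedBall x |y - x|
  have := hc.norm_image_sub_le_of_norm_hasDerivWithin_le
    (f := fun u => f u - (u - x) • deriv f x) (f' := fun u => deriv f u - deriv f x)
    (C := L * |y - x|) (x := x) (y := y) (fun u _ => by
      have := (hd u).hasDerivAt.fun_sub (((hasDerivAt_id u).sub_const x).smul_const (deriv f x))
      rw [one_smul] at this
      exact this.hasDerivWithinAt)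
    (fun u hu => (lip hd' hL x u).trans (mul_le_mul_of_nonneg_left hu h0))
    (Metric.mem_closedBall_self (abs_nonneg _)) (Metric.mem_closedBall.2 (Real.dist_eq _ _).le)
  simp only [sub_self, zero_smul, sub_zero, Real.norm_eq_abs] at this
  rw [sub_right_comm, sq, ← mul_assoc]
  exact this

theorem hd_cp {γ : ℝ → ℂ} (h : Differentiable ℝ γ) (s : ℝ) :
    HasDerivAt (cp γ) (deriv γ s, conj (deriv γ s)) s :=
  (h s).hasDerivAt.prodMk (h s).hasDerivAt.star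

theorem dot_le (u v : C2) : ‖dot u v‖ ≤ ‖u‖ * ‖v‖ := by
  have h1 := mul_le_mul (norm_fst_le u) (norm_snd_le v) (norm_nonneg _) (norm_nonneg _)
  have h2 := mul_le_mul (norm_snd_le u) (norm_fst_le v) (norm_nonneg _) (norm_nonneg _)
  have h3 := norm_add_le (u.1 * v.2) (u.2 * v.1)
  rw [norm_mul, norm_mul] at h3
  rw [dot, norm_div, Complex.norm_two]
  linarith

theorem pn_norm (P : ℝ → C2) (s : ℝ) : ‖pn P s‖ = ‖deriv P s‖ := by
  simp [pn, Prod.norm_def]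

theorem geo {j B ϖ : ℝ} {γ : ℝ → ℂ} {P : ℝ → C2} (hγ : Nc j γ) (hP : Adm j B γ ϖ P) (s t : ℝ) :
    c0 γ s t ≤ 4 ∧ ‖dot (pD P s t) (pD P s t) - c0 γ s t ^ 2‖ ≤ c0 γ s t / 10 * c0 γ s t ∧
    ‖dot (pD P s t) (pD P s t) - c0 γ s t ^ 2‖ ≤ 6 * ϖ * c0 γ s t ∧
    ‖dot (pn P t) (pD P s t)‖ ≤ 2 * B * j ^ 2 * c0 γ s t ^ 2 ∧
    ‖dot (pn P s) (pD P s t)‖ ≤ 2 * B * j ^ 2 * c0 γ s t ^ 2 ∧ ‖dot (pn P s) (pn P t)‖ ≤ 4 := by
  have j1 := hγ.one_le
  have dγ : Differentiable ℝ γ := hγ.smooth.differentiable (by simp)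
  have dP : Differentiable ℝ P := hP.sp.1.differentiable (by simp)
  have dP' : Differentiable ℝ (deriv P) :=
    (contDiff_infty_iff_deriv.1 hP.sp.1).2.differentiable (by simp)
  have dC : Differentiable ℝ (cp γ) := fun s => (hd_cp dγ s).differentiableAt
  have B0 : 0 ≤ B := (norm_nonneg _).trans (hP.a2 0)
  have c0' : 0 ≤ c0 γ s t := norm_nonneg _
  have arc : dc s t ≤ j * c0 γ s t := hγ.arc s t
  have n2 : ∀ s, ‖deriv P s‖ ≤ 2 := fun s => by
    have h1 := hP.a1 s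
    have h2 : ‖deriv (cp γ) s‖ = 1 := by
      rw [(hd_cp dγ s).deriv]
      simp [Prod.norm_def, hγ.unit s]
    have h3 : (40 * j)⁻¹ ≤ 1 := inv_le_one_of_one_le₀ (by linarith)
    have := norm_sub_norm_le (deriv P s) (deriv (cp γ) s)
    linarith
  have q1 : ‖(P - cp γ) t - (P - cp γ) s‖ ≤ c0 γ s t / 40 := by
    refine (lipc (dP.sub dC) (hP.sp.2.sub fun s => by simp [cp, hγ.per s])
      (fun s => by rw [deriv_sub (dP s) (dC s)]; exact hP.a1 s) s t).trans ?_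
    calc (40 * j)⁻¹ * dc s t ≤ (40 * j)⁻¹ * (j * c0 γ s t) := by gcongr
      _ = c0 γ s t / 40 := by field_simp
  have q2 : ‖(P - cp γ) t - (P - cp γ) s‖ ≤ 2 * ϖ :=
    (norm_sub_le _ _).trans (by have := hP.a0 s; have := hP.a0 t; simp only [Pi.sub_apply]; linarith)
  have q3 : ‖dot (pD P s t) (pD P s t) - c0 γ s t ^ 2‖ ≤
      3 * ‖(P - cp γ) t - (P - cp γ) s‖ * c0 γ s t := by
    set Q := (P - cp γ) t - (P - cp γ) s with hQ
    have e : dot (pD P s t) (pD P s t) - c0 γ s t ^ 2 =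
        -((γ s - γ t) * Q.2) - Q.1 * conj (γ s - γ t) + Q.1 * Q.2 := by
      rw [c0, ← Complex.mul_conj']
      simp only [dot, pD, hQ, cp, Pi.sub_apply, Prod.fst_sub, Prod.snd_sub, map_sub]
      ring
    have h1 := norm_fst_le Q
    have h2 := norm_snd_le Q
    have h3 : ‖γ s - γ t‖ = c0 γ s t := rfl
    rw [e]
    refine (norm_add_le _ _).trans ((add_le_add_left (norm_sub_le _ _) _).trans ?_)
    simp only [norm_neg, norm_mul, RCLike.norm_conj, h3]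
    have := mul_le_mul h1 h2 (norm_nonneg _) (norm_nonneg _)
    nlinarith [norm_nonneg Q]
  obtain ⟨hπ, k, hk⟩ := red s t
  have nd : ∀ x y : ℝ, |y - x| = dc s t →
      ‖dot (pn P x) (P y - P x)‖ ≤ 2 * B * j ^ 2 * c0 γ s t ^ 2 := by
    intro x y hxy
    have e : dot (pn P x) (P y - P x) = dot (pn P x) (P y - P x - (y - x) • deriv P x) := by
      simp only [dot, pn, Prod.fst_sub, Prod.snd_sub, Prod.smul_fst, Prod.smul_snd, real_smul]
      ring
    rw [e]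
    refine (dot_le _ _).trans ?_
    rw [pn_norm]
    calc _ ≤ 2 * (B * |y - x| ^ 2) :=
          mul_le_mul (n2 x) (tay dP dP' hP.a2 x y) (norm_nonneg _) two_pos.le
      _ ≤ 2 * (B * (j * c0 γ s t) ^ 2) := by
          rw [hxy]
          have : 0 ≤ dc s t := norm_nonneg _
          gcongr
      _ = _ := by ring
  have pe : P (s - k * (2 * π)) = P s := hP.sp.2.sub_int_mul_eq k
  have pe' : pn P (s - k * (2 * π)) = pn P s := by
    have : Function.Periodic (deriv P) (2 * π) := fun x => by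
      rw [← deriv_comp_add_const, funext hP.sp.2]
    simp only [pn, this.sub_int_mul_eq k]
  refine ⟨?_, by nlinarith, by nlinarith, ?_, ?_, ?_⟩
  · have := lipc dγ hγ.per (fun s => (hγ.unit s).le) s t
    rw [norm_sub_rev] at this
    have := Real.pi_lt_four
    unfold c0
    linarith
  · have := nd t _ hk.symm
    rw [pe] at this
    rwa [show dot (pn P t) (pD P s t) = -dot (pn P t) (P s - P t) by
      simp only [dot, pD, Prod.fst_sub, Prod.snd_sub]; ring, norm_neg]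
  · have := nd (s - k * (2 * π)) t (by rw [hk, abs_sub_comm])
    rwa [pe, pe'] at this
  · refine (dot_le _ _).trans ?_
    rw [pn_norm, pn_norm]
    nlinarith [n2 s, n2 t, norm_nonneg (deriv P s), norm_nonneg (deriv P t)]

theorem root {w : ℂ} {c η : ℝ} (hc : 0 < c) (h : ‖w - c ^ 2‖ ≤ η * c) :
    ‖w ^ (1 / 2 : ℂ) - c‖ ≤ η := by
  have h1 : (w ^ (1 / 2 : ℂ)) ^ 2 = w := by
    rw [one_div]
    exact_mod_cast Complex.cpow_nat_inv_pow w two_ne_zero
  have h2 : 0 ≤ (w ^ (1 / 2 : ℂ)).re := by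
    rw [one_div, Complex.cpow_inv_two_re]
    positivity
  generalize w ^ (1 / 2 : ℂ) = z at h1 h2
  have h3 : c ≤ ‖z + c‖ := le_trans (by simpa using h2) (re_le_norm (z + c))
  rw [← h1, show z ^ 2 - c ^ 2 = (z - c) * (z + c) by ring, norm_mul] at h
  exact le_of_mul_le_mul_right ((mul_le_mul_of_nonneg_left h3 (norm_nonneg _)).trans h) hc

theorem sec {μ z : ℂ} {c : ℝ} (hc : 0 < c) (hμ : Sm μ) (hz : ‖z - c‖ ≤ c / 10) :
    Sec (μ * z) ∧ 9 / 10 * c ≤ ‖z‖ ∧ ‖z‖ ≤ 2 * c := by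
  have h1 := norm_sub_norm_le z c
  have h2 := norm_sub_norm_le (c : ℂ) z
  rw [norm_sub_rev] at h2
  rw [norm_real, Real.norm_of_nonneg hc.le] at h1 h2
  have h3 : 9 / 10 * c ≤ ‖z‖ := by linarith
  have h4 := hμ.1
  refine ⟨⟨mul_ne_zero (norm_pos_iff.1 (by linarith)) (norm_pos_iff.1 (by linarith)), ?_⟩, h3,
    by linarith⟩
  have h5 := (abs_le.1 (abs_re_le_norm (μ * (z - c)))).1
  have h6 : (μ * z).re = (μ * (z - c)).re + μ.re * c := by simp; ring
  rw [norm_mul] at h5 ⊢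
  have := hμ.2
  nlinarith [mul_le_mul_of_nonneg_left hz (norm_nonneg μ)]

/-- The bounds of the four kernels. -/
theorem ker (hA2 : St_A2) (j B : ℝ) : ∃ C, 6 ≤ C ∧ ∀ γ ϖ P, Nc j γ → Adm j B γ ϖ P →
    ∀ s t, γ s ≠ γ t → ‖pc P s t - c0 γ s t‖ ≤ c0 γ s t / 10 ∧ ‖pc P s t - c0 γ s t‖ ≤ C * ϖ ∧
    ∀ μ, Sm μ → ‖pK μ P s t‖ ≤ C * (1 + √(‖μ‖ * c0 γ s t)) * ‖exp (-(μ * pc P s t))‖ ∧
      ‖pS μ P s t‖ ≤ C * c0 γ s t ^ (-(1 / 4) : ℝ) * ‖exp (-(μ * pc P s t))‖ ∧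
      ‖pKd μ P s t‖ ≤ C / 2 * ‖exp (-(μ * pc P s t))‖ ∧
      ‖pNd μ P s t‖ ≤ C * √‖μ‖ * c0 γ s t ^ (-(1 / 4) : ℝ) * ‖exp (-(μ * pc P s t))‖ := by
  obtain ⟨A, hA⟩ := hA2
  set G := 2 * |B| * j ^ 2 with hG
  have G0 : 0 ≤ G := by positivity
  refine ⟨6 + |A| * (8 + 64 * G + 384 * G ^ 2), le_add_of_nonneg_right (by positivity),
    fun γ ϖ P hγ hP s t hst => ?_⟩
  obtain ⟨g1, g2, g3, g4, g5, g6⟩ := geo hγ hP s t
  have B0 : 0 ≤ B := (norm_nonneg _).trans (hP.a2 0)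
  have w0 : 0 ≤ ϖ := (norm_nonneg _).trans (hP.a0 0)
  rw [← abs_of_nonneg B0, ← hG] at g4 g5
  have hc : 0 < c0 γ s t := norm_pos_iff.2 (sub_ne_zero.2 hst)
  have r1 : ‖pc P s t - c0 γ s t‖ ≤ c0 γ s t / 10 := root hc g2
  refine ⟨r1, (root hc g3).trans (mul_le_mul_of_nonneg_right
    (le_add_of_nonneg_right (by positivity)) w0), fun μ hμ => ?_⟩
  obtain ⟨s1, s2, s3⟩ := sec hc hμ r1
  obtain ⟨k1, -, k2, -⟩ := hA _ s1
  have m1 := hμ.1
  have d1 : c0 γ s t ^ 2 / 2 ≤ ‖dot (pD P s t) (pD P s t)‖ := by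
    have := norm_sub_norm_le ((c0 γ s t : ℂ) ^ 2) (dot (pD P s t) (pD P s t))
    rw [norm_sub_rev, norm_pow, norm_real, Real.norm_of_nonneg hc.le] at this
    nlinarith
  simp only [pK, pS, pKd, pNd]
  generalize c0 γ s t = c at *
  generalize pc P s t = z at *
  generalize dot (pD P s t) (pD P s t) = D at *
  generalize dot (pn P t) (pD P s t) = a at *
  generalize dot (pn P s) (pD P s t) = b at *
  generalize dot (pn P s) (pn P t) = e at *
  set E := ‖exp (-(μ * z))‖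
  have E0 : 0 ≤ E := norm_nonneg _
  set r := c ^ (-(1 / 4) : ℝ) with hr
  have r0 : 0 < r := Real.rpow_pos_of_pos hc _
  have h16 : (16 : ℝ) ^ (-(1 / 4) : ℝ) = 1 / 2 := by
    rw [show (16 : ℝ) = 2 ^ (4 : ℝ) by norm_num, ← Real.rpow_mul two_pos.le]
    norm_num
  have r2 : 1 / 2 ≤ r := h16 ▸ Real.rpow_le_rpow_of_nonpos hc (by linarith) (by norm_num)
  have r3 : c * r ≤ 4 := by
    rw [hr, ← Real.rpow_one_add' hc.le (by norm_num)]
    calc _ ≤ (4 : ℝ) ^ (1 + -(1 / 4) : ℝ) := Real.rpow_le_rpow hc.le g1 (by norm_num)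
      _ ≤ 4 ^ (1 : ℝ) := Real.rpow_le_rpow_of_exponent_le (by norm_num) (by norm_num)
      _ = 4 := Real.rpow_one 4
  have K : ‖K0 (μ * z)‖ ≤ |A| * (2 * r) * E := by
    refine k1.trans (mul_le_mul_of_nonneg_right (mul_le_mul (le_abs_self A) ?_ (by positivity)
      (abs_nonneg _)) E0)
    calc ‖μ * z‖ ^ (-(1 / 4) : ℝ) ≤ (c / 16) ^ (-(1 / 4) : ℝ) :=
          Real.rpow_le_rpow_of_nonpos (by positivity) (by rw [norm_mul]; nlinarith) (by norm_num)
      _ = 2 * r := by rw [Real.div_rpow hc.le (by norm_num), h16, hr]; ring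
  have sq4 : √4 = 2 := by rw [show (4 : ℝ) = 2 ^ 2 by norm_num, Real.sqrt_sq two_pos.le]
  have L : ‖L1 (μ * z)‖ ≤ |A| * (2 * (1 + √(‖μ‖ * c))) * E := by
    refine k2.trans (mul_le_mul_of_nonneg_right (mul_le_mul (le_abs_self A) ?_ (by positivity)
      (abs_nonneg _)) E0)
    have : √‖μ * z‖ ≤ √(4 * (‖μ‖ * c)) := Real.sqrt_le_sqrt (by rw [norm_mul]; nlinarith)
    rw [Real.sqrt_mul (by norm_num), sq4] at this
    linarith
  have m2 : 1 ≤ √‖μ‖ := Real.one_le_sqrt.2 m1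
  have L' : 1 + √(‖μ‖ * c) ≤ 3 * √‖μ‖ := by
    have : √c ≤ 2 := sq4 ▸ Real.sqrt_le_sqrt g1
    rw [Real.sqrt_mul (norm_nonneg _)]
    nlinarith
  have p2 : 1 ≤ ‖(2 * π : ℂ)‖ := by simp [abs_of_pos Real.pi_pos]; linarith [Real.pi_gt_three]
  have p4 : 1 ≤ ‖(4 * π : ℂ)‖ := by simp [abs_of_pos Real.pi_pos]; linarith [Real.pi_gt_three]
  have A0 := abs_nonneg A
  have c2 : 0 < c ^ 2 / 2 := by positivity
  set X := |A|
  set Y := 1 + √(‖μ‖ * c)
  have Y0 : 0 ≤ Y := by positivity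
  refine ⟨?_, ?_, ?_, ?_⟩
  · rw [norm_div, norm_mul, norm_mul]
    calc _ ≤ X * (2 * Y) * E * (G * c ^ 2) / (1 * (c ^ 2 / 2)) := by gcongr
      _ = X * (4 * G) * Y * E := by field_simp; ring
      _ ≤ _ := by gcongr; nlinarith [mul_nonneg A0 G0, mul_nonneg A0 (sq_nonneg G)]
  · rw [norm_div]
    calc _ ≤ X * (2 * r) * E / 1 := by gcongr
      _ = X * 2 * r * E := by ring
      _ ≤ _ := by gcongr; nlinarith [mul_nonneg A0 G0, mul_nonneg A0 (sq_nonneg G)]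
  · rw [norm_div, norm_neg, norm_mul]
    calc _ ≤ X * (2 * r) * E * (G * c ^ 2) / 1 := by gcongr
      _ = X * (2 * G) * (c * r * c) * E := by ring
      _ ≤ X * (2 * G) * (4 * 4) * E := by gcongr
      _ ≤ _ := by gcongr; nlinarith [mul_nonneg A0 G0, mul_nonneg A0 (sq_nonneg G)]
  · refine (norm_add_le _ _).trans ?_
    rw [norm_div, norm_div, norm_neg, norm_mul, norm_mul _ a, norm_mul _ b, norm_mul _ D]
    have L2 : ‖L1 (μ * z)‖ ≤ X * (2 * (3 * √‖μ‖)) * E := L.trans (by gcongr)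
    calc _ ≤ X * (2 * r) * E * 4 / 1 +
          X * (2 * (3 * √‖μ‖)) * E * (G * c ^ 2) * (G * c ^ 2) / (1 * (c ^ 2 / 2)) := by
          gcongr
      _ = X * 8 * 1 * r * E + X * (24 * G ^ 2) * c ^ 2 * √‖μ‖ * (1 / 2) * E := by field_simp; ring
      _ ≤ X * 8 * √‖μ‖ * r * E + X * (24 * G ^ 2) * 4 ^ 2 * √‖μ‖ * r * E := by gcongr
      _ = X * (8 + 384 * G ^ 2) * √‖μ‖ * r * E := by ring
      _ ≤ _ := by gcongr; nlinarith [mul_nonneg A0 G0, mul_nonneg A0 (sq_nonneg G)]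

theorem cyc {M : Type} [CommMonoid M] {α : Type} (f : α → α → M) (n : ℕ) (v : Fin (n + 2) → α) :
    ∏ i, f (v i) (v (i + 1)) = (∏ i : Fin n, f (v i.castSucc.castSucc) (v i.succ.castSucc)) *
      f (v (Fin.last n).castSucc) (v (Fin.last (n + 1))) * f (v (Fin.last (n + 1))) (v 0) := by
  rw [Fin.prod_univ_castSucc, Fin.prod_univ_castSucc]
  simp only [Fin.coeSucc_eq_succ, Fin.succ_last, Fin.last_add_one, Fin.succ_castSucc]

theorem gv {γ : ℝ → ℂ} {n : ℕ} {v : Fin (n + 2) → ℝ} (h : Gv γ v) :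
    (∀ i : Fin n, γ (v i.castSucc.castSucc) ≠ γ (v i.succ.castSucc)) ∧
      γ (v (Fin.last n).castSucc) ≠ γ (v (Fin.last (n + 1))) ∧
      γ (v (Fin.last (n + 1))) ≠ γ (v 0) := by
  refine ⟨fun i => ?_, ?_, ?_⟩
  · simpa only [Fin.coeSucc_eq_succ, Fin.succ_castSucc] using h i.castSucc.castSucc
  · simpa only [Fin.coeSucc_eq_succ, Fin.succ_last] using h (Fin.last n).castSucc
  · simpa only [Fin.last_add_one] using h (Fin.last (n + 1))

end KBB

theorem st_kb (hA2 : St_A2) : St_KB := by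
  intro j B
  obtain ⟨C, hC, h⟩ := KBB.ker hA2 j B
  refine ⟨C, by linarith, fun γ ϖ P hγ hP => ⟨fun s t hst => ?_, fun n v μ o hv hμ ho => ⟨?_, ?_⟩⟩⟩
  · obtain ⟨h1, h2, h3⟩ := h γ ϖ P hγ hP s t hst
    exact ⟨h1, h2, fun μ hμ => (h3 μ hμ).1⟩
  · obtain ⟨v1, v2, v3⟩ := KBB.gv hv
    have hK : ∀ s t, γ s ≠ γ t →
        ‖pK μ P s t‖ ≤ C * (1 + √(o * c0 γ s t)) * ‖exp (-(μ * pc P s t))‖ := fun s t hst => by
      refine (((h γ ϖ P hγ hP s t hst).2.2 μ hμ).1).trans ?_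
      have : 0 ≤ c0 γ s t := norm_nonneg _
      gcongr
    have e : ‖exp (-(μ * elc P v))‖ = ∏ i, ‖exp (-(μ * pc P (v i) (v (i + 1))))‖ := by
      rw [elc, Finset.mul_sum, ← Finset.sum_neg_distrib, exp_sum, norm_prod]
    obtain ⟨-, a2, -⟩ := (h γ ϖ P hγ hP _ _ v2).2.2 μ hμ
    obtain ⟨-, -, a3, a4⟩ := (h γ ϖ P hγ hP _ _ v3).2.2 μ hμ
    have a1 := hK _ _ v2
    have a5 := a4.trans (mul_le_mul_of_nonneg_right (mul_le_mul_of_nonneg_right
      (mul_le_mul_of_nonneg_left (Real.sqrt_le_sqrt ho) (by linarith))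
      (Real.rpow_nonneg (norm_nonneg _) _)) (norm_nonneg _))
    have a0 : ∏ i : Fin n, ‖pK μ P (v i.castSucc.castSucc) (v i.succ.castSucc)‖ ≤
        ∏ i : Fin n, C * (1 + √(o * c0 γ (v i.castSucc.castSucc) (v i.succ.castSucc))) *
          ‖exp (-(μ * pc P (v i.castSucc.castSucc) (v i.succ.castSucc)))‖ :=
      Finset.prod_le_prod (fun _ _ => norm_nonneg _) fun i _ => hK _ _ (v1 i)
    rw [Finset.prod_mul_distrib, Finset.prod_mul_distrib, Finset.prod_const, Finset.card_univ,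
      Fintype.card_fin] at a0
    have c1 : 0 ≤ c0 γ (v (Fin.last n).castSucc) (v (Fin.last (n + 1))) := norm_nonneg _
    have c2 : 0 ≤ c0 γ (v (Fin.last (n + 1))) (v 0) := norm_nonneg _
    have C0 : 0 ≤ C := by linarith
    rw [e, KBB.cyc (fun s t => ‖exp (-(μ * pc P s t))‖), In, Mj, norm_mul, norm_prod]
    refine (mul_le_mul a0 ((norm_sub_le _ _).trans (add_le_add
      ((norm_mul_le _ _).trans (mul_le_mul a2 a5 (norm_nonneg _) (by positivity)))
      ((norm_mul_le _ _).trans (mul_le_mul ((norm_mul_le _ _).trans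
        (mul_le_mul_of_nonneg_left a1 (norm_nonneg _))) a3 (norm_nonneg _) (by positivity)))))
      (norm_nonneg _) (by positivity)).trans (le_of_eq ?_)
    rw [Complex.norm_two]
    ring
  · rw [norm_exp]
    refine Real.exp_le_exp.2 ?_
    have h1 : ‖elc P v - ell γ v‖ ≤ (n + 2) * (C * ϖ) := by
      rw [elc, ell, ofReal_sum, ← Finset.sum_sub_distrib]
      refine (norm_sum_le _ _).trans ((Finset.sum_le_card_nsmul _ _ (C * ϖ)
        fun i _ => (h γ ϖ P hγ hP _ _ (hv i)).2.1).trans ?_)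
      simp
    have h5 := (abs_le.1 (abs_re_le_norm (μ * (elc P v - ell γ v)))).1
    have h6 : (-(μ * elc P v)).re = -(μ * (elc P v - ell γ v)).re - μ.re * ell γ v := by
      simp; ring
    rw [norm_mul] at h5
    nlinarith [mul_le_mul_of_nonneg_left h1 (norm_nonneg μ)]

end Pool.Agent.Lib.IS2
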