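import Pool.Agent.Lib.IS2.BlueG
import Pool.Agent.Lib.IS2.Base

/-! A boundary curve has bounded geometry. -/

open scoped ContDiff ComplexConjugate Topology Real
open Complex MeasureTheory Set Filter

noncomputable section

namespace Pool.Agent.Lib.IS2

open Pool.Agent.Lib.ISO Pool.Agent.Lib.MP_312682_mp

namespace NCE

variable {E : Type} [NormedAddCommGroup E] [NormedSpace ℝ E]

theorem per_iter {f : ℝ → E} {L : ℝ} (h : Function.Periodic f L) (k : ℕ) :
    Function.Periodic (iteratedDeriv k f) L := by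
  induction k with
  | zero => simpa using h
  | succ k ih => rw [iteratedDeriv_succ]; exact per_deriv' ih

theorem bd_iter {f : ℝ → E} (hf : ContDiff ℝ ∞ f) (h : Function.Periodic f (2 * π)) (m : ℕ) :
    ∃ B : ℝ, ∀ k ≤ m, ∀ s, ‖iteratedDeriv k f s‖ ≤ B := by
  have h1 : ∀ k : ℕ, ∃ B : ℝ, ∀ s, ‖iteratedDeriv k f s‖ ≤ B := fun k => by
    obtain ⟨B, hB⟩ := ((per_iter h k).isBounded_of_continuous Real.two_pi_pos.ne'
      (hf.continuous_iteratedDeriv k (by exact_mod_cast le_top))).exists_norm_le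
    exact ⟨B, fun s => hB _ (mem_range_self s)⟩
  choose B hB using h1
  refine ⟨∑ k ∈ Finset.range (m + 1), B k, fun k hk s => (hB k s).trans ?_⟩
  exact Finset.single_le_sum (fun i _ => (norm_nonneg _).trans (hB i 0))
    (Finset.mem_range.2 (by omega))

theorem near {γ : ℝ → ℂ} (hγ : ContDiff ℝ ∞ γ) (hu : ∀ s, ‖deriv γ s‖ = 1) {B : ℝ} (hB0 : 0 < B)
    (hB : ∀ s, ‖deriv (deriv γ) s‖ ≤ B) {s t : ℝ} (hd : |s - t| ≤ (2 * B)⁻¹) :
    |s - t| ≤ 2 * ‖γ s - γ t‖ := by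
  have d0 : Differentiable ℝ γ := hγ.differentiable (by simp)
  have d1 : Differentiable ℝ (deriv γ) := (contDiff_infty_iff_deriv.1 hγ).2.differentiable (by simp)
  have h1 : ∀ x ∈ uIcc t s, ‖deriv γ x - deriv γ t‖ ≤ 1 / 2 := fun x hx => by
    have h2 := (convex_univ (𝕜 := ℝ) (E := ℝ)).norm_image_sub_le_of_norm_deriv_le (C := B)
      (fun x _ => d1 x) (fun x _ => hB x) (mem_univ t) (mem_univ x)
    have h3 : ‖x - t‖ ≤ (2 * B)⁻¹ := (abs_sub_left_of_mem_uIcc hx).trans hd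
    refine h2.trans ((mul_le_mul_of_nonneg_left h3 hB0.le).trans_eq ?_)
    field_simp
  have h2 := (convex_uIcc t s).norm_image_sub_le_of_norm_hasDerivWithin_le
    (f := fun x : ℝ => γ x - x * deriv γ t) (f' := fun x => deriv γ x - deriv γ t) (C := 1 / 2)
    (fun x _ => by
      have h3 := (d0 x).hasDerivAt.sub ((hasDerivAt_id x).ofReal_comp.mul_const (deriv γ t))
      simp only [ofReal_one, one_mul, id] at h3
      exact h3.hasDerivWithinAt) h1 left_mem_uIcc right_mem_uIcc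
  have h3 : ‖((s - t : ℝ) : ℂ) * deriv γ t‖ = |s - t| := by
    rw [norm_mul, hu, norm_real, Real.norm_eq_abs, mul_one]
  have h4 := norm_sub_le (γ s - γ t) (γ s - s * deriv γ t - (γ t - t * deriv γ t))
  rw [show γ s - γ t - (γ s - s * deriv γ t - (γ t - t * deriv γ t)) =
    ((s - t : ℝ) : ℂ) * deriv γ t by push_cast; ring, h3] at h4
  rw [Real.norm_eq_abs] at h2
  linarith

theorem far {γ : ℝ → ℂ} (hγ : Continuous γ) (hp : Function.Periodic γ (2 * π))
    (hi : ∀ s t, γ s = γ t → ∃ n : ℤ, t = s + n * (2 * π)) {d : ℝ} (hd : 0 < d) :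
    ∃ m > 0, ∀ s t, d ≤ dc s t → m ≤ ‖γ s - γ t‖ := by
  have hK : IsCompact ((Icc 0 (2 * π) ×ˢ Icc 0 (2 * π)) ∩ {p : ℝ × ℝ | d ≤ dc p.1 p.2}) :=
    (isCompact_Icc.prod isCompact_Icc).inter_right (isClosed_le continuous_const continuous_dc)
  obtain ⟨m, hm, h⟩ := hK.exists_forall_le' (f := fun p : ℝ × ℝ => ‖γ p.1 - γ p.2‖) (a := 0)
    (by fun_prop) (fun p hp => norm_pos_iff.2 (sub_ne_zero.2 fun e => by
      obtain ⟨n, hn⟩ := hi _ _ e
      have h1 : d ≤ dc p.1 p.2 := hp.2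
      rw [hn, dc_add_right, dc_self] at h1
      linarith))
  refine ⟨m, hm, fun s t hst => ?_⟩
  have red : ∀ s : ℝ, ∃ (k : ℤ) (u : ℝ), u ∈ Icc 0 (2 * π) ∧ s = u + k * (2 * π) := fun s => by
    have h1 := toIcoMod_mem_Ico' Real.two_pi_pos s
    exact ⟨toIcoDiv Real.two_pi_pos 0 s, _, Ico_subset_Icc_self h1, by
      rw [← zsmul_eq_mul, toIcoMod_add_toIcoDiv_zsmul]⟩
  obtain ⟨k, u, hu, rfl⟩ := red s
  obtain ⟨l, w, hw, rfl⟩ := red t
  rw [dc_add_left, dc_add_right] at hst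
  rw [hp.int_mul k u, hp.int_mul l w]
  exact h (u, w) ⟨⟨hu, hw⟩, hst⟩

end NCE

open NCE in
theorem st_nce : St_NCE := by
  intro Ω γ φ h
  have cv : Cv γ (2 * π) := h.cv 0
  have hp : Function.Periodic γ (2 * π) := cv.per
  have s1 : ContDiff ℝ ∞ (deriv γ) := (contDiff_infty_iff_deriv.1 cv.smooth).2
  have s2 : ContDiff ℝ ∞ (deriv (deriv γ)) := (contDiff_infty_iff_deriv.1 s1).2
  have hk : Per (2 * π) (kp γ) :=
    ⟨imCLM.contDiff.comp (s2.mul (conjCLE.contDiff.comp s1)), fun s => by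
      simp only [kp, per_deriv' hp s, per_deriv' (per_deriv' hp) s]⟩
  refine ⟨hk, ?_⟩
  obtain ⟨B, hB⟩ := bd_iter cv.smooth hp 6
  obtain ⟨B', hB'⟩ := bd_iter hk.smooth hk.per 4
  have hB1 : 1 ≤ B := by
    have h1 := hB 1 (by norm_num) 0
    rwa [iteratedDeriv_one, cv.unit] at h1
  have hB2 : ∀ s, ‖deriv (deriv γ) s‖ ≤ B := fun s => by
    have h1 := hB 2 (by norm_num) s
    rwa [iteratedDeriv_succ, iteratedDeriv_one] at h1
  obtain ⟨m, hm, hf⟩ := far cv.smooth.continuous hp (h.inj 0) (d := (2 * B)⁻¹) (by positivity)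
  refine ⟨max (max B B') (max 2 (π / m)), fun j hj => ?_⟩
  simp only [max_le_iff] at hj
  refine ⟨hB1.trans hj.1.1, cv.smooth, hp, cv.unit, fun k _ hk s => (hB k hk s).trans hj.1.1,
    fun s t => ?_, fun i hi s => (hB' i hi s).trans hj.1.2⟩
  rcases le_total (dc s t) (2 * B)⁻¹ with h1 | h1
  · obtain ⟨k, hk⟩ := exists_dc s t
    have h2 := near cv.smooth cv.unit (by linarith) hB2 (hk.trans_le h1)
    rw [hk, hp.int_mul k t] at h2
    exact h2.trans (mul_le_mul_of_nonneg_right hj.2.1 (norm_nonneg _))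
  · calc dc s t ≤ π / m * m := by rw [div_mul_cancel₀ _ hm.ne']; exact dc_le_pi s t
      _ ≤ j * ‖γ s - γ t‖ := mul_le_mul hj.2.2 (hf s t h1) hm.le (by linarith [hj.2.1])

end Pool.Agent.Lib.IS2
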