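import Pool.Agent.Lib.IS2.Blue

/-! Algebra and bookkeeping for the Taylor step. -/

open scoped ContDiff ComplexConjugate Topology Real
open Complex MeasureTheory Set Filter

noncomputable section

namespace Pool.Agent.Lib.IS2.TAY

open Pool.Agent.Lib.ISO

section
variable {E : Type} [AddCommGroup E] [Module ℂ E] {S : Submodule ℂ E}

lemma add_sum {ι : Type} {g : E → ℂ} (ha : ∀ y ∈ S, ∀ z ∈ S, g (y + z) = g y + g z) (y : ι → E)
    (hy : ∀ k, y k ∈ S) (A : Finset ι) : g (∑ k ∈ A, y k) = ∑ k ∈ A, g (y k) := by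
  classical
  induction A using Finset.induction_on with
  | empty =>
    have := ha 0 S.zero_mem 0 S.zero_mem
    rw [add_zero] at this
    simpa using this
  | insert a A h ih =>
    rw [Finset.sum_insert h, Finset.sum_insert h, ha _ (hy a) _ (S.sum_mem fun k _ => hy k), ih]

lemma bil_sum {ι : Type} [Fintype ι] {g : E → E → ℂ}
    (ha : ∀ y ∈ S, ∀ z ∈ S, ∀ y' ∈ S, g (y + y') z = g y z + g y' z)
    (hs : ∀ y ∈ S, ∀ z ∈ S, g y z = g z y) (y : ι → E) (hy : ∀ k, y k ∈ S) :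
    g (∑ k, y k) (∑ k, y k) = ∑ p : ι × ι, g (y p.1) (y p.2) := by
  have hZ : ∑ k, y k ∈ S := S.sum_mem fun k _ => hy k
  rw [add_sum (S := S) (g := fun a => g a (∑ k, y k)) (fun a ha' b hb => ha a ha' _ hZ b hb) y hy,
    Fintype.sum_prod_type]
  refine Finset.sum_congr rfl fun k _ => ?_
  rw [hs _ (hy k) _ hZ,
    add_sum (S := S) (g := fun a => g a (y k)) (fun a ha' b hb => ha a ha' _ (hy k) b hb) y hy]
  exact Finset.sum_congr rfl fun l _ => hs _ (hy l) _ (hy k)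
end

lemma comb {K : ℕ} (F : Finset (Fin K × Fin K)) (f1 f0 : ℂ) (a : Fin K → ℂ)
    (b c : Fin K × Fin K → ℂ) {η0 η1 η2 η3 n : ℝ} (hn : (K : ℝ) ≤ n) (p1 : 0 ≤ η1) (p2 : 0 ≤ η2)
    (h0 : ‖f0‖ ≤ η0) (h1 : ∀ k, ‖a k‖ ≤ η1) (h2 : ∀ p ∉ F, ‖b p‖ ≤ η1)
    (h3 : ∀ p, ‖c p - b p‖ ≤ η2) (h4 : ‖f1 - f0 - ∑ k, a k - (∑ p, b p) / 2‖ ≤ η3) :
    ‖f1 - 1 / 2 * ∑ p ∈ F, c p‖ ≤ η0 + n * η1 + n ^ 2 * η1 + n ^ 2 * η2 + η3 := by
  classical
  have K0 : (0 : ℝ) ≤ K := Nat.cast_nonneg _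
  have hc : ∀ G : Finset (Fin K × Fin K), (G.card : ℝ) ≤ n ^ 2 := fun G => by
    have h : G.card ≤ K * K := by simpa using G.card_le_univ
    have h' : (G.card : ℝ) ≤ K * K := by exact_mod_cast h
    nlinarith
  have a1 : ‖∑ k, a k‖ ≤ n * η1 := by
    refine (norm_sum_le_of_le _ fun k _ => h1 k).trans ?_
    simp only [Finset.sum_const, Finset.card_univ, Fintype.card_fin, nsmul_eq_mul]
    gcongr
  have a2 : ‖∑ p ∈ Fᶜ, b p‖ ≤ n ^ 2 * η1 := by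
    refine (norm_sum_le_of_le _ fun p hp => h2 p (Finset.mem_compl.1 hp)).trans ?_
    simp only [Finset.sum_const, nsmul_eq_mul]
    gcongr
    exact hc _
  have a3 : ‖∑ p ∈ F, (c p - b p)‖ ≤ n ^ 2 * η2 := by
    refine (norm_sum_le_of_le _ fun p _ => h3 p).trans ?_
    simp only [Finset.sum_const, nsmul_eq_mul]
    gcongr
    exact hc _
  have e : f1 - 1 / 2 * ∑ p ∈ F, c p = (f1 - f0 - ∑ k, a k - (∑ p, b p) / 2) + f0 + ∑ k, a k +
      (1 / 2 : ℂ) * (∑ p ∈ Fᶜ, b p) - (1 / 2 : ℂ) * ∑ p ∈ F, (c p - b p) := by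
    rw [← Finset.sum_add_sum_compl F b, Finset.sum_sub_distrib]
    ring
  have n2 : ‖(1 / 2 : ℂ)‖ = 1 / 2 := by simp
  rw [e]
  refine (norm_sub_le _ _).trans ?_
  have t1 := norm_add_le ((f1 - f0 - ∑ k, a k - (∑ p, b p) / 2) + f0 + ∑ k, a k)
    ((1 / 2 : ℂ) * (∑ p ∈ Fᶜ, b p))
  have t2 := norm_add_le ((f1 - f0 - ∑ k, a k - (∑ p, b p) / 2) + f0) (∑ k, a k)
  have t3 := norm_add_le (f1 - f0 - ∑ k, a k - (∑ p, b p) / 2) f0
  rw [norm_mul, n2] at t1 ⊢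
  have := norm_nonneg (∑ p ∈ Fᶜ, b p)
  have := norm_nonneg (∑ p ∈ F, (c p - b p))
  linarith

/-- double integrals of finite sums of bounded measurable functions -/
lemma dint_sum {ι : Type} (A : Finset ι) (F : ι → ℝ → ℝ → ℂ)
    (hm : ∀ i ∈ A, Measurable (Function.uncurry (F i)))
    (hb : ∀ i ∈ A, ∃ B, ∀ s ∈ Icc 0 (2 * π), ∀ t ∈ Icc 0 (2 * π), ‖F i s t‖ ≤ B) :
    ∫ s in (0 : ℝ)..(2 * π), ∫ t in (0 : ℝ)..(2 * π), ∑ i ∈ A, F i s t =
      ∑ i ∈ A, ∫ s in (0 : ℝ)..(2 * π), ∫ t in (0 : ℝ)..(2 * π), F i s t := by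
  have hπ : (0 : ℝ) ≤ 2 * π := Real.two_pi_pos.le
  have bi : ∀ (g : ℝ → ℂ) (B : ℝ), StronglyMeasurable g → (∀ t ∈ Icc 0 (2 * π), ‖g t‖ ≤ B) →
      IntervalIntegrable g volume 0 (2 * π) := fun g B hg hB => by
    rw [intervalIntegrable_iff_integrableOn_Ioc_of_le hπ]
    refine Measure.integrableOn_of_bounded (M := B) measure_Ioc_lt_top.ne hg.aestronglyMeasurable ?_
    exact (ae_restrict_iff' measurableSet_Ioc).2 (Eventually.of_forall fun t ht =>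
      hB t (Ioc_subset_Icc_self ht))
  rw [← intervalIntegral.integral_finsetSum]
  · refine intervalIntegral.integral_congr fun s hs => ?_
    rw [uIcc_of_le hπ] at hs
    refine intervalIntegral.integral_finsetSum fun i hi => ?_
    obtain ⟨B, hB⟩ := hb i hi
    exact bi _ B ((hm i hi).comp measurable_prodMk_left).stronglyMeasurable (hB s hs)
  · intro i hi
    obtain ⟨B, hB⟩ := hb i hi
    refine bi _ (B * |2 * π - 0|) ?_ fun s hs => ?_
    · simp only [intervalIntegral.integral_of_le hπ]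
      exact (hm i hi).stronglyMeasurable.integral_prod_right
    · refine intervalIntegral.norm_integral_le_of_norm_le_const fun t ht => hB s hs t ?_
      rw [uIoc_of_le hπ] at ht
      exact Ioc_subset_Icc_self ht

lemma gen_sum {ι : Type} (A : Finset ι) (G : ℂ → ℝ → ℝ → ℂ) (μ : ℂ) (w : ι → ℝ → ℝ → ℝ) {e C : ℝ}
    (hN : Measurable fun p : ℂ × ℝ × ℝ => G p.1 p.2.1 p.2.2)
    (hC : ∀ s t, e ≤ dc s t → ‖G μ s t‖ ≤ C)
    (hw : ∀ i ∈ A, Continuous (Function.uncurry (w i)))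
    (h0 : ∀ i ∈ A, ∀ s t, w i s t ≠ 0 → e ≤ dc s t) :
    ∫ s in (0 : ℝ)..(2 * π), ∫ t in (0 : ℝ)..(2 * π), ((∑ i ∈ A, w i s t : ℝ) : ℂ) * G μ s t ^ 2 =
      ∑ i ∈ A, ∫ s in (0 : ℝ)..(2 * π), ∫ t in (0 : ℝ)..(2 * π), (w i s t : ℂ) * G μ s t ^ 2 := by
  rw [← dint_sum A fun i s t => (w i s t : ℂ) * G μ s t ^ 2]
  · simp only [ofReal_sum, Finset.sum_mul]
  · intro i hi
    have h1 : Measurable fun p : ℝ × ℝ => G μ p.1 p.2 := hN.comp measurable_prodMk_left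
    exact (measurable_ofReal.comp (hw i hi).measurable).mul (h1.pow_const 2)
  · intro i hi
    obtain ⟨B, hB⟩ := ((isCompact_Icc (a := (0 : ℝ)) (b := 2 * π)).prod
      (isCompact_Icc (a := (0 : ℝ)) (b := 2 * π))).exists_bound_of_continuousOn
      (hw i hi).continuousOn
    refine ⟨B * C ^ 2, fun s hs t ht => ?_⟩
    have hB' : ‖w i s t‖ ≤ B := hB (s, t) ⟨hs, ht⟩
    by_cases hz : w i s t = 0
    · rw [hz, ofReal_zero, zero_mul, norm_zero]
      exact mul_nonneg ((norm_nonneg _).trans hB') (sq_nonneg _)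
    · rw [norm_mul, norm_real, norm_pow]
      have := hC s t (h0 i hi s t hz)
      have h2 := (norm_nonneg _).trans hB'
      gcongr

lemma psn_sum {ι : Type} (A : Finset ι) (γ : ℝ → ℂ) (μ : ℂ) (w : ι → ℝ → ℝ → ℝ) {e C : ℝ}
    (hN : Measurable fun p : ℂ × ℝ × ℝ => NN p.1 γ p.2.1 p.2.2)
    (hC : ∀ s t, e ≤ dc s t → ‖NN μ γ s t‖ ≤ C)
    (hw : ∀ i ∈ A, Continuous (Function.uncurry (w i)))
    (h0 : ∀ i ∈ A, ∀ s t, w i s t ≠ 0 → e ≤ dc s t) :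
    PsN γ (fun s t => ∑ i ∈ A, w i s t) μ = ∑ i ∈ A, PsN γ (w i) μ :=
  gen_sum A (fun μ => NN μ γ) μ w hN hC hw h0

lemma isOpen_DD (q : ℕ) (h : ℝ) : IsOpen (DD q h) :=
  (isOpen_lt continuous_const continuous_re).inter (isOpen_lt continuous_norm continuous_const)

lemma per_rdot {u v : ℝ → ℂ} (hu : ContDiff ℝ ∞ u) (hv : ContDiff ℝ ∞ v)
    (pu : Function.Periodic u (2 * π)) (pv : Function.Periodic v (2 * π)) :
    Per (2 * π) fun s => rdot (u s) (v s) :=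
  ⟨reCLM.contDiff.comp (hu.mul (conjCLE.contDiff.comp hv)), fun s => by simp only [pu s, pv s]⟩

lemma per_mul {a b : ℝ → ℝ} (ha : Per (2 * π) a) (hb : Per (2 * π) b) :
    Per (2 * π) fun s => a s * b s :=
  ⟨ha.smooth.mul hb.smooth, fun s => by simp only [ha.per s, hb.per s]⟩

lemma split (u v : ℂ) (hv : ‖v‖ = 1) : u = rdot u (I * v) * (I * v) + rdot u v * v := by
  have h : v.re ^ 2 + v.im ^ 2 = 1 := by
    have := Complex.sq_norm v
    rw [hv, normSq_apply] at this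
    nlinarith
  refine Complex.ext ?_ ?_ <;> simp [rdot]
  · linear_combination (-u.re) * h
  · linear_combination (-u.im) * h

lemma leg_mem {a : ℝ → ℝ} {v : ℝ → ℂ} (ha : Per (2 * π) a) (hv : ContDiff ℝ ∞ v)
    (pv : Function.Periodic v (2 * π)) : cp (fun s => a s * v s) ∈ SP :=
  cp_mem ((ofRealCLM.contDiff.comp ha.smooth).mul hv) fun s => by simp only [ha.per s, pv s]

lemma leg_split {j : ℝ} {γ : ℝ → ℂ} (hγ : Nc j γ) (φ : ℝ → ℝ) (Z : ℝ → ℂ) :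
    (fun s => φ s • cp Z s) = nl γ (fun s => φ s * rdot (Z s) (nr γ s)) +
      tg γ fun s => φ s * rdot (Z s) (deriv γ s) := by
  funext s
  have h := split (Z s) (deriv γ s) (hγ.unit s)
  have h1 : (φ s : ℂ) * Z s = ((φ s * rdot (Z s) (nr γ s) : ℝ) : ℂ) * nr γ s +
      ((φ s * rdot (Z s) (deriv γ s) : ℝ) : ℂ) * deriv γ s := by
    simp only [nr, ofReal_mul]
    linear_combination (φ s : ℂ) * h
  refine Prod.ext ?_ ?_
  · simpa [cp, nl, tg] using h1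
  · have h2 := congrArg conj h1
    simpa [cp, nl, tg] using h2

end Pool.Agent.Lib.IS2.TAY
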