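import Pool.Agent.Lib.IS2.B_TAY1

/-! The far pairs of the Taylor step. -/

open scoped ContDiff ComplexConjugate Topology Real
open Complex MeasureTheory Set Filter

noncomputable section

namespace Pool.Agent.Lib.IS2.TAY

open Pool.Agent.Lib.ISO

lemma far_pair {j : ℝ} {γ Z : ℝ → ℂ} (hγ : Nc j γ) (hZ : ContDiff ℝ ∞ Z)
    (pZ : Function.Periodic Z (2 * π)) {g : (ℝ → C2) → (ℝ → C2) → ℂ}
    (ha : ∀ y ∈ SP, ∀ z ∈ SP, ∀ y' ∈ SP, g (y + y') z = g y z + g y' z)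
    (hs : ∀ y ∈ SP, ∀ z ∈ SP, g y z = g z y)
    (hT : ∀ Q ∈ SP, ∀ τ e, 0 < e → Per (2 * π) τ → Sep e Q τ → g Q (tg γ τ) = 0)
    {φ ψ : ℝ → ℝ} {e : ℝ} (he : 0 < e) (hφ : Per (2 * π) φ) (hψ : Per (2 * π) ψ) (hS : Sep e φ ψ) :
    g (fun s => φ s • cp Z s) (fun s => ψ s • cp Z s) =
      g (nl γ fun s => φ s * rdot (Z s) (nr γ s)) (nl γ fun s => ψ s * rdot (Z s) (nr γ s)) := by
  have p1 : Function.Periodic (deriv γ) (2 * π) := per_deriv' hγ.per
  have sn : ContDiff ℝ ∞ (nr γ) := contDiff_const.mul hγ.s1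
  have pn' : Function.Periodic (nr γ) (2 * π) := fun s => by simp only [nr, p1 s]
  have hρ := per_rdot hZ sn pZ pn'
  have hτ := per_rdot hZ hγ.s1 pZ p1
  have mn : ∀ a, Per (2 * π) a → nl γ (fun s => a s * rdot (Z s) (nr γ s)) ∈ SP := fun a h =>
    leg_mem (per_mul h hρ) sn pn'
  have mt : ∀ a, Per (2 * π) a → tg γ (fun s => a s * rdot (Z s) (deriv γ s)) ∈ SP := fun a h =>
    leg_mem (per_mul h hτ) hγ.s1 p1
  have my : (fun s => φ s • cp Z s) ∈ SP := smul_mem_SP hφ (cp_mem hZ pZ)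
  have z1 : g (fun s => φ s • cp Z s) (tg γ fun s => ψ s * rdot (Z s) (deriv γ s)) = 0 :=
    hT _ my _ e he (per_mul hψ hτ) fun s t h1 h2 =>
      hS s t (fun h => h1 (by simp [h])) (left_ne_zero_of_mul h2)
  have z2 : g (nl γ fun s => ψ s * rdot (Z s) (nr γ s))
      (tg γ fun s => φ s * rdot (Z s) (deriv γ s)) = 0 :=
    hT _ (mn ψ hψ) _ e he (per_mul hφ hτ) fun s t h1 h2 => by
      rw [dc_comm]
      exact hS t s (left_ne_zero_of_mul h2) fun h => h1 (by simp [nl, cp, h])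
  rw [leg_split hγ ψ Z, hs _ my _ (SP.add_mem (mn ψ hψ) (mt ψ hψ)), ha _ (mn ψ hψ) _ my _ (mt ψ hψ),
    hs _ (mt ψ hψ) _ my, z1, add_zero, hs _ (mn ψ hψ) _ my, leg_split hγ φ Z,
    ha _ (mn φ hφ) _ (mn ψ hψ) _ (mt φ hφ), hs _ (mt φ hφ) _ (mn ψ hψ), z2, add_zero]

lemma ff_sum {ι : Type} (A : Finset ι) {q : ℕ} {h : ℝ} (Ψ : ℂ → ℂ) (P d : ι → ℂ → ℂ)
    (hY : 0 ≤ YY q h) (hm : ∀ y, |y| ≤ YY q h → mu q h y ∈ DD q h)
    (hΨ : ∀ μ ∈ DD q h, Ψ μ = ∑ i ∈ A, P i μ) (hP : ∀ i ∈ A, DifferentiableOn ℂ (P i) (DD q h))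
    (hd : ∀ i ∈ A, ∀ μ ∈ DD q h, 2 * μ * d i μ = -deriv (P i) μ) :
    DifferentiableOn ℂ Ψ (DD q h) ∧ ∑ i ∈ A, FF q h (d i) =
      -∫ y in (-YY q h)..YY q h, Gs q h (mu q h y) * deriv Ψ (mu q h y) := by
  have ho := isOpen_DD q h
  have hI : ∀ y ∈ uIcc (-YY q h) (YY q h), mu q h y ∈ DD q h := fun y hy => by
    rw [uIcc_of_le (by linarith)] at hy
    exact hm y (abs_le.2 hy)
  have cm : Continuous (mu q h) := by unfold mu; fun_prop
  have cG : Continuous (Gs q h) := by unfold Gs ze; fun_prop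
  refine ⟨(DifferentiableOn.fun_sum hP).congr hΨ, ?_⟩
  have e1 : ∀ i ∈ A, FF q h (d i) =
      ∫ y in (-YY q h)..YY q h, -(Gs q h (mu q h y) * deriv (P i) (mu q h y)) := fun i hi =>
    intervalIntegral.integral_congr fun y hy => by
      linear_combination Gs q h (mu q h y) * hd i hi _ (hI y hy)
  rw [Finset.sum_congr rfl e1, ← intervalIntegral.integral_finsetSum, ← intervalIntegral.integral_neg]
  · refine intervalIntegral.integral_congr fun y hy => ?_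
    have hy' := hI y hy
    have e2 : deriv Ψ (mu q h y) = ∑ i ∈ A, deriv (P i) (mu q h y) := by
      rw [← deriv_fun_sum fun i hi => (hP i hi).differentiableAt (ho.mem_nhds hy')]
      exact Filter.EventuallyEq.deriv_eq (eventually_of_mem (ho.mem_nhds hy') hΨ)
    simp only [e2, Finset.mul_sum, Finset.sum_neg_distrib]
  · intro i hi
    refine ContinuousOn.intervalIntegrable (ContinuousOn.neg ?_)
    exact (cG.comp cm).continuousOn.mul
      (((hP i hi).deriv ho).continuousOn.comp cm.continuousOn hI)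

section
variable {C e : ℝ} {K : ℕ} {α : Fin K → ℝ} {φ : Fin K → ℝ → ℝ} (h : Pu C e K α φ)
include h

lemma pu_lt {k : Fin K} {s : ℝ} (hs : φ k s ≠ 0) : dc s (α k) < e :=
  not_le.1 fun a => hs (h.supp k s a)

lemma pu_le (k : Fin K) (s : ℝ) : φ k s ≤ 1 :=
  (Finset.single_le_sum (fun i _ => h.nn i s) (Finset.mem_univ k)).trans_eq (h.sum s)

lemma pu_far {k l : Fin K} (hf : 4 * e < dc (α k) (α l)) {s t : ℝ} (hs : φ k s ≠ 0)
    (ht : φ l t ≠ 0) : 2 * e < dc s t := by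
  have h1 := pu_lt h hs
  have h2 := pu_lt h ht
  have h3 := dc_triangle (α k) s (α l)
  have h4 := dc_triangle s t (α l)
  rw [dc_comm (α k) s] at h3
  linarith

lemma pu_near {k l : Fin K} (hf : dc (α k) (α l) ≤ 4 * e) {s t : ℝ} (hs : φ k s ≠ 0)
    (ht : φ l t ≠ 0) : dc s t < 6 * e := by
  have h1 := pu_lt h hs
  have h2 := pu_lt h ht
  have h3 := dc_triangle s (α k) t
  have h4 := dc_triangle (α k) (α l) t
  rw [dc_comm (α l) t] at h4
  linarith

lemma pu_sum (s t : ℝ) : ∑ p : Fin K × Fin K, φ p.1 s * φ p.2 t = 1 := by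
  simp only [Fintype.sum_prod_type, ← Finset.mul_sum, h.sum, mul_one]

lemma pu_wf {q : ℕ} {x : ℝ} (he : 0 < e) (e1 : Tt q x / (2 * x) = 2 * e) (e2 : 2 * Tt q x / x = 8 * e)
    (F : Finset (Fin K × Fin K)) (hF : ∀ p, p ∈ F ↔ 4 * e < dc (α p.1) (α p.2)) :
    Wf q x fun s t => ∑ p ∈ F, φ p.1 s * φ p.2 t where
  cont := continuous_finsetSum _ fun p _ => ((h.per p.1).smooth.continuous.comp continuous_fst).mul
    ((h.per p.2).smooth.continuous.comp continuous_snd)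
  p1 s t := by simp only [(h.per _).per s]
  p2 s t := by simp only [(h.per _).per t]
  nn s t := Finset.sum_nonneg fun p _ => mul_nonneg (h.nn _ _) (h.nn _ _)
  le s t := (Finset.sum_le_univ_sum_of_nonneg fun p => mul_nonneg (h.nn _ _) (h.nn _ _)).trans_eq
    (pu_sum h s t)
  zero s t hd := Finset.sum_eq_zero fun p hp => by
    by_contra hne
    have := pu_far h ((hF p).1 hp) (left_ne_zero_of_mul hne) (right_ne_zero_of_mul hne)
    linarith
  one s t hd := by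
    rw [← pu_sum h s t]
    refine Finset.sum_subset (Finset.subset_univ _) fun p _ hp => ?_
    by_contra hne
    have := pu_near h (not_lt.1 fun a => hp ((hF p).2 a)) (left_ne_zero_of_mul hne)
      (right_ne_zero_of_mul hne)
    linarith

lemma pu_split (Q : ℝ → C2) : ∑ k, (fun s => φ k s • Q s) = Q := by
  funext s
  rw [Finset.sum_apply, ← Finset.sum_smul, h.sum, one_smul]

lemma pu_nm (hC : 1 ≤ C) (he : 0 < e) (he1 : e ≤ 1) {Q : ℝ → C2} (hQ : Q ∈ SP) (k : Fin K) :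
    nm (fun s => φ k s • Q s) ≤ 4 * (C / e ^ 2) * nm Q := by
  have a1 : C / e ≤ C / e ^ 2 := by
    gcongr
    nlinarith
  have a0 : 1 ≤ C / e := by rw [le_div_iff₀ he]; linarith
  exact nm_smul_le (h.per k) hQ (fun s => by
    rw [abs_of_nonneg (h.nn k s)]; linarith [pu_le h k s]) (fun s => (h.b1 k s).trans a1) (h.b2 k)
end

end Pool.Agent.Lib.IS2.TAY
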