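import Pool.Agent.Lib.IS2.Blue
import Pool.Agent.Lib.ISO.B_K44

/-! Block TONE, part 1: the tone and its coefficients. -/

open scoped ContDiff ComplexConjugate Topology Real
open Complex MeasureTheory Set Filter

noncomputable section

namespace Pool.Agent.Lib.IS2.TONE

open Pool.Agent.Lib.ISO Pool.Agent.Lib.ISO.K4

lemma nex (a : ℝ) : ‖exp (I * a)‖ = 1 := by rw [mul_comm, norm_exp_ofReal_mul_I]

lemma fc_le {g : ℝ → ℝ} {j : ℝ} (h : ∀ s, |g s| ≤ j) (ξ : ℤ) : ‖fc g ξ‖ ≤ j := by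
  have := intervalIntegral.norm_integral_le_of_norm_le_const (a := 0) (b := 2 * π) (C := j)
    (f := fun s => (g s : ℂ) * exp (-(I * ξ * s))) fun s _ => by
      rw [norm_mul, show -(I * ξ * s) = I * (-(ξ * s) : ℝ) by push_cast; ring, nex, mul_one, norm_real]
      exact h s
  rw [sub_zero, abs_of_pos Real.two_pi_pos] at this
  rw [fc, norm_mul, norm_inv, show (2 * π : ℂ) = (2 * π : ℝ) by push_cast; rfl, norm_real,
    Real.norm_of_nonneg Real.two_pi_pos.le, inv_mul_le_iff₀ Real.two_pi_pos]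
  exact this.trans_eq (mul_comm _ _)

lemma fc_sub {f g : ℝ → ℝ} (hf : Continuous f) (hg : Continuous g) (ξ : ℤ) :
    fc (fun s => f s - g s) ξ = fc f ξ - fc g ξ := by
  rw [fc, fc, fc, ← mul_sub, ← intervalIntegral.integral_sub]
  · simp only [ofReal_sub, sub_mul]
  all_goals exact Continuous.intervalIntegrable (by fun_prop) _ _

lemma int_ex (k ξ : ℤ) : ∫ s in (0 : ℝ)..(2 * π), exp (I * k * s) * exp (-(I * ξ * s)) =
    if ξ = k then (2 * π : ℂ) else 0 := by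
  simp only [← exp_add]
  split_ifs with h
  · simp [h]
  · have : I * ((k - ξ : ℤ) : ℂ) ≠ 0 := mul_ne_zero I_ne_zero (Int.cast_ne_zero.2 (by omega))
    rw [intervalIntegral.integral_congr (g := fun s : ℝ => exp (I * ((k - ξ : ℤ) : ℂ) * s))
      fun s _ => by push_cast; ring_nf, integral_exp_mul_complex this,
      show I * ((k - ξ : ℤ) : ℂ) * (2 * π : ℝ) = (k - ξ : ℤ) * (2 * π * I) by push_cast; ring,
      exp_int_mul_two_pi_mul_I]
    simp

/-- envelope with two modes -/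
def e2 (a0 a1 : ℂ) (t : ℤ) : ℂ := if t = 0 then a0 else if t = 1 then a1 else 0

variable (M W : ℕ) (a0 a1 : ℂ)

lemma fc_tn (ξ : ℤ) : fc (tn M W a0 a1) ξ = amp M W * gm (e2 a0 a1) W ξ := by
  have e : ∀ s : ℝ, (tn M W a0 a1 s : ℂ) * exp (-(I * ξ * s)) = amp M W *
      (a0 * (exp (I * ((W : ℤ) ^ 2 : ℤ) * s) * exp (-(I * ξ * s))) +
      a1 * (exp (I * ((W : ℤ) ^ 2 + 1 : ℤ) * s) * exp (-(I * ξ * s))) +
      conj a0 * (exp (I * (-(W : ℤ) ^ 2 : ℤ) * s) * exp (-(I * ξ * s))) +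
      conj a1 * (exp (I * (-(W : ℤ) ^ 2 - 1 : ℤ) * s) * exp (-(I * ξ * s)))) := fun s => by
    rw [tn, ofReal_mul, re_eq_add_conj]
    simp only [map_mul, map_add, ← exp_conj, conj_I, conj_ofReal, map_pow, conj_natCast]
    push_cast
    simp only [mul_add, add_mul, exp_add, sub_eq_add_neg, neg_mul, mul_neg, mul_one]
    ring
  have c : ∀ k : ℤ, Continuous fun s : ℝ => exp (I * k * s) * exp (-(I * ξ * s)) := fun k => by
    fun_prop
  rw [fc]
  simp_rw [e]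
  rw [intervalIntegral.integral_const_mul, intervalIntegral.integral_add,
    intervalIntegral.integral_add, intervalIntegral.integral_add]
  · simp only [intervalIntegral.integral_const_mul, int_ex, gm, e2]
    have p : (2 * π : ℂ) ≠ 0 := by exact_mod_cast Real.two_pi_pos.ne'
    have i1 : ξ - (W : ℤ) ^ 2 = 0 ↔ ξ = (W : ℤ) ^ 2 := by omega
    have i2 : ξ - (W : ℤ) ^ 2 = 1 ↔ ξ = (W : ℤ) ^ 2 + 1 := by omega
    have i3 : -ξ - (W : ℤ) ^ 2 = 0 ↔ ξ = -(W : ℤ) ^ 2 := by omega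
    have i4 : -ξ - (W : ℤ) ^ 2 = 1 ↔ ξ = -(W : ℤ) ^ 2 - 1 := by omega
    simp only [i1, i2, i3, i4]
    split_ifs <;> first | omega | (simp only [map_zero]; field_simp; ring) | (field_simp; ring)
  all_goals exact Continuous.intervalIntegrable (by fun_prop) _ _

def tk (k : ℕ) (s : ℝ) : ℝ := 2 * amp M W * ((I * W ^ 2) ^ k * a0 * exp (I * W ^ 2 * s) +
  (I * (W ^ 2 + 1)) ^ k * a1 * exp (I * (W ^ 2 + 1) * s)).re

lemma tk0 : tn M W a0 a1 = tk M W a0 a1 0 := funext fun s => by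
  rw [tn, tk, mul_add I, add_mul (I * _), exp_add]
  congr 2
  simp only [mul_one]
  ring

lemma hd_tk (k : ℕ) (s : ℝ) : HasDerivAt (tk M W a0 a1 k) (tk M W a0 a1 (k + 1) s) s := by
  have h : ∀ c : ℂ, HasDerivAt (fun z : ℂ => exp (c * z)) (exp (c * s) * c) s := fun c => by
    simpa using ((hasDerivAt_id (s : ℂ)).const_mul c).cexp
  refine ((((h _).const_mul _).add ((h _).const_mul _)).real_of_complex.const_mul _).congr_deriv ?_
  rw [tk]
  congr 2
  ring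

lemma it_tn (k : ℕ) : iteratedDeriv k (tn M W a0 a1) = tk M W a0 a1 k := by
  induction k with
  | zero => exact tk0 ..
  | succ k ih => rw [iteratedDeriv_succ, ih]; exact funext fun s => (hd_tk ..).deriv

lemma per_tn : Per (2 * π) (tn M W a0 a1) where
  smooth := contDiff_of_differentiable_iteratedDeriv fun k _ => by
    rw [it_tn]; exact fun s => (hd_tk ..).differentiableAt
  per s := by
    have : exp (I * (W : ℂ) ^ 2 * (2 * π)) = 1 := by
      rw [← exp_nat_mul_two_pi_mul_I (W ^ 2)]; congr 1; push_cast; ring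
    simp only [tn, ofReal_add, mul_add, exp_add, ofReal_mul, ofReal_ofNat, this,
      mul_comm I (2 * π : ℂ), exp_two_pi_mul_I, mul_one]

lemma tk_err (h1 : ‖a1‖ ≤ 2) (hW : 1 ≤ W) (s : ℝ) :
    |tk M W a0 a1 (2 * M + 4) s - (-1) ^ M * ((W : ℝ) ^ 2) ^ (2 * M + 4) * tn M W a0 a1 s| ≤
      4 * (2 * M + 4) * 2 ^ (2 * M + 4) * (XX M W / W ^ 2) := by
  have w : (1 : ℝ) ≤ (W : ℝ) ^ 2 := one_le_pow₀ (by exact_mod_cast hW)
  have A0 : 0 ≤ amp M W := by unfold amp; positivity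
  have i : I ^ (2 * M + 4) = ((-1 : ℝ) ^ M : ℝ) := by
    rw [pow_add, pow_mul, I_sq, I_pow_four]; simp
  have e : tk M W a0 a1 (2 * M + 4) s - (-1) ^ M * ((W : ℝ) ^ 2) ^ (2 * M + 4) * tn M W a0 a1 s =
      2 * amp M W * ((((-1) ^ M * (((W : ℝ) ^ 2 + 1) ^ (2 * M + 4) - ((W : ℝ) ^ 2) ^ (2 * M + 4)) : ℝ) :
        ℂ) * (a1 * exp (I * (((W : ℝ) ^ 2 + 1) * s : ℝ)))).re := by
    rw [tk0, tk, tk, mul_left_comm, ← mul_sub, ← re_ofReal_mul, ← sub_re, mul_pow I, mul_pow I, i]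
    congr 2
    push_cast
    ring_nf
  have b := abs_pow_sub_pow_le ((W : ℝ) ^ 2 + 1) ((W : ℝ) ^ 2) (2 * M + 4)
  rw [add_sub_cancel_left, abs_one, one_mul, abs_of_nonneg (a := (W : ℝ) ^ 2 + 1) (by linarith),
    abs_of_nonneg (a := (W : ℝ) ^ 2) (by linarith), max_eq_left (by linarith)] at b
  have b2 : ((W : ℝ) ^ 2 + 1) ^ (2 * M + 4 - 1) ≤ 2 ^ (2 * M + 4) * (((W : ℝ) ^ 2) ^ (2 * M + 4) / W ^ 2) := by
    rw [show 2 * M + 4 - 1 = 2 * M + 3 by omega, pow_succ ((W : ℝ) ^ 2),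
      mul_div_cancel_right₀ _ (by linarith)]
    refine (pow_le_pow_left₀ (by linarith) (show _ ≤ 2 * (W : ℝ) ^ 2 by linarith) _).trans ?_
    rw [mul_pow]
    gcongr
    · norm_num
    · omega
  rw [e, abs_mul, abs_of_nonneg (by positivity : 0 ≤ 2 * amp M W)]
  refine (mul_le_mul_of_nonneg_left (abs_re_le_norm _) (by positivity)).trans ?_
  rw [norm_mul, norm_mul, nex, norm_real, Real.norm_eq_abs, abs_mul, abs_neg_one_pow, one_mul, mul_one]
  push_cast at b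
  calc _ ≤ 2 * amp M W * (((2 * M + 4) * (2 ^ (2 * M + 4) *
        (((W : ℝ) ^ 2) ^ (2 * M + 4) / W ^ 2))) * 2) := by
        gcongr
        exact b.trans (mul_le_mul_of_nonneg_left b2 (by positivity))
    _ = _ := by rw [XX]; ring

end Pool.Agent.Lib.IS2.TONE
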