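import Pool.Agent.Lib.IS2.Base

/-! Statements of the blocks that need no operator theory. -/

open scoped ContDiff ComplexConjugate Topology Real
open Complex MeasureTheory Set Filter

noncomputable section

namespace Pool.Agent.Lib.IS2

open Pool.Agent.Lib.ISO

/-! ## A. Special functions -/

def St_A1 : Prop :=
  (∀ z ∈ slitPlane, HasDerivAt K0 (-(L1 z / z)) z ∧ HasDerivAt L1 (-(z * K0 z)) z) ∧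
  Measurable K0 ∧ Measurable L1 ∧ L1 0 = 1 ∧
  ∀ x : ℝ, 0 < x → K0 x = k0 x ∧ L1 x = l1 x ∧ 0 < k0 x ∧ 0 < l1 x

def St_A2 : Prop := ∃ C, ∀ z, Sec z →
  ‖K0 z‖ ≤ C * ‖z‖ ^ (-(1 / 4) : ℝ) * ‖exp (-z)‖ ∧ ‖K0 z‖ ≤ C * (√‖z‖)⁻¹ * ‖exp (-z)‖ ∧
  ‖L1 z‖ ≤ C * (1 + √‖z‖) * ‖exp (-z)‖ ∧
  ‖K0 z - exp (-z) * (√π * (2 * z) ^ (-(1 / 2) : ℂ))‖ ≤ C * (‖z‖ * √‖z‖)⁻¹ * ‖exp (-z)‖ ∧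
  ‖L1 z - exp (-z) * (z * √π * (2 * z) ^ (-(1 / 2) : ℂ))‖ ≤ C * (√‖z‖)⁻¹ * ‖exp (-z)‖ ∧
  (‖z‖ ≤ 1 → ‖L1 z - 1‖ ≤ C * (‖z‖ * √‖z‖))

/-- the real kit -/
def St_A3 : Prop := ContDiffOn ℝ ∞ k0 (Ioi 0) ∧ ContDiffOn ℝ ∞ l1 (Ioi 0) ∧ ContinuousOn l1 (Ici 0) ∧
  k0 0 = 0 ∧ l1 0 = 1 ∧ Measurable k0 ∧ Measurable l1 ∧
  (∀ x > 0, HasDerivAt k0 (-(l1 x / x)) x ∧ HasDerivAt l1 (-(x * k0 x)) x ∧ 0 < k0 x ∧ 0 < l1 x ∧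
    l1 x ≤ 1) ∧
  ∃ C g : ℝ, ∀ x > 0, k0 x ≤ C * x ^ (-(1 / 4) : ℝ) * Real.exp (-x) ∧ |l1 x - 1| ≤ C * (x * √x) ∧
    (x ≤ 1 → |k0 x + Real.log x - g| ≤ C * (x * √x))

/-! ## D. Chains -/

def St_KB : Prop := ∀ j B : ℝ, ∃ C, 1 ≤ C ∧ ∀ γ ϖ P, Nc j γ → Adm j B γ ϖ P →
  (∀ s t, γ s ≠ γ t → ‖pc P s t - c0 γ s t‖ ≤ c0 γ s t / 10 ∧ ‖pc P s t - c0 γ s t‖ ≤ C * ϖ ∧
    ∀ μ, Sm μ → ‖pK μ P s t‖ ≤ C * (1 + √(‖μ‖ * c0 γ s t)) * ‖exp (-(μ * pc P s t))‖) ∧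
  ∀ (n : ℕ) (v : Fin (n + 2) → ℝ) μ o, Gv γ v → Sm μ → ‖μ‖ ≤ o →
    ‖In μ P n v‖ ≤ C ^ (n + 2) * Mj o γ n v * ‖exp (-(μ * elc P v))‖ ∧
    ‖exp (-(μ * elc P v))‖ ≤ Real.exp (-(μ.re * ell γ v) + C * (n + 2) * ‖μ‖ * ϖ)

def St_KM : Prop :=
  (∀ P ∈ SP, ∀ n, Measurable fun p : ℂ × (Fin (n + 2) → ℝ) => In p.1 P n p.2) ∧
  ∀ j B γ ϖ (μ : ℂ → ℂ) (P : ℂ → ℝ → C2) ζ n (v : Fin (n + 2) → ℝ), Nc j γ → Adm j B γ ϖ (P ζ) →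
    Sm (μ ζ) → Gv γ v → DifferentiableAt ℂ μ ζ → (∀ s, DifferentiableAt ℂ (fun ζ => P ζ s) ζ ∧
      DifferentiableAt ℂ (fun ζ => deriv (P ζ) s) ζ) →
    DifferentiableAt ℂ (fun ζ => In (μ ζ) (P ζ) n v) ζ

def St_CR : Prop := ∀ (j : ℝ) (q : ℕ), 1 ≤ q → ∃ C h0, ∀ h, h0 ≤ h → ∀ γ, Nc j γ →
  (∀ n, (∀ᵐ v ∂box (n + 2), Gv γ v) ∧
    Integrable (fun v => Mj (om q h) γ n v * Real.exp (-(ell γ v / (2 * Tt q h)))) (box (n + 2)) ∧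
    ∫ v, Mj (om q h) γ n v * Real.exp (-(ell γ v / (2 * Tt q h))) ∂box (n + 2) ≤
      C * om q h * (C / h ^ 3) ^ n) ∧
  ∀ s, ∫ t in (0 : ℝ)..(2 * π), (1 + √(om q h * c0 γ s t)) * Real.exp (-(c0 γ s t / (2 * Tt q h))) ≤
    C / h ^ 3

/-- integrals of dominated holomorphic families -/
def St_HI : Prop := ∀ (α : Type) [MeasurableSpace α] (ν : Measure α) (F : ℂ → α → ℂ) (U : Set ℂ)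
  (g : α → ℝ), IsOpen U → Integrable g ν → (∀ ζ ∈ U, AEStronglyMeasurable (F ζ) ν) →
  (∀ᵐ a ∂ν, DifferentiableOn ℂ (fun ζ => F ζ a) U ∧ ∀ ζ ∈ U, ‖F ζ a‖ ≤ g a) →
  ∀ ζ ∈ U, HasDerivAt (fun ζ => ∫ a, F ζ a ∂ν) (∫ a, deriv (fun ζ => F ζ a) ζ ∂ν) ζ

def St_HOL : Prop := ∀ (j B : ℝ) (q : ℕ), 1 ≤ q → ∃ C h0, ∀ h, h0 ≤ h → ∀ γ ϖ wt n, Nc j γ → Wt wt →
  (∀ P μ, Adm j B γ ϖ P → μ ∈ DD q h →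
    Integrable (fun v => wt (n + 2) v * In μ P n v) (box (n + 2)) ∧
    ‖Tn wt μ P n‖ ≤ C * om q h * (C / h ^ 3) ^ n * Real.exp (C * (n + 2) * om q h * ϖ)) ∧
  ∀ (U : Set ℂ) (μ : ℂ → ℂ) (P : ℂ → ℝ → C2), IsOpen U → DifferentiableOn ℂ μ U →
    (∀ ζ ∈ U, μ ζ ∈ DD q h ∧ Adm j B γ ϖ (P ζ)) → (∀ s, DifferentiableOn ℂ (fun ζ => P ζ s) U ∧
      DifferentiableOn ℂ (fun ζ => deriv (P ζ) s) U) →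
    DifferentiableOn ℂ (fun ζ => Tn wt (μ ζ) (P ζ) n) U

def St_REP : Prop := ∀ P ∈ SP, ∀ (φ : ℝ → ℝ) wt μ n, ContDiff ℝ 1 φ → (∀ s, 0 < deriv φ s) →
  (∀ s, φ (s + 2 * π) = φ s + 2 * π) → Wt wt →
  Tn (fun n v => wt n fun i => φ (v i)) μ (fun s => P (φ s)) n = Tn wt μ P n

def St_GH : Prop := ∃ C : ℝ, ∀ (E : Type) [AddCommGroup E] [Module ℂ E] (S : Submodule ℂ E)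
  (p : E → ℝ) (f : E → ℂ) (x0 : E) (r M : ℝ), Sn S p → 0 < r → LH S p f x0 r M →
  (∀ y ∈ S, ∀ z ∈ S, D1 f x0 (y + z) = D1 f x0 y + D1 f x0 z) ∧
  (∀ x ∈ S, p x ≤ r / 4 → ∀ y ∈ S, ∀ z ∈ S,
    (∀ y' ∈ S, D2 f (x0 + x) (y + y') z = D2 f (x0 + x) y z + D2 f (x0 + x) y' z) ∧
    (∀ c : ℂ, D2 f (x0 + x) (c • y) z = c * D2 f (x0 + x) y z) ∧
    D2 f (x0 + x) y z = D2 f (x0 + x) z y ∧ ‖D2 f (x0 + x) y z‖ ≤ C * M * p y * p z / r ^ 2 ∧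
    ‖D2 f (x0 + x) y z - D2 f x0 y z‖ ≤ C * M * p x * p y * p z / r ^ 3 ∧
    (p y ≤ r / 8 → p z ≤ r / 8 → ‖mx f (x0 + x) y z‖ ≤ C * M * p y * p z / r ^ 2 ∧
      ‖mx f (x0 + x) y z - D2 f (x0 + x) y z‖ ≤ C * M * p y * p z * (p y + p z) / r ^ 3)) ∧
  (∀ y ∈ S, p y ≤ r / 8 →
    ‖f (x0 + y) - f x0 - D1 f x0 y - D2 f x0 y y / 2‖ ≤ C * M * p y ^ 3 / r ^ 3) ∧
  ∀ y ∈ S, ∀ z ∈ S, ∀ η : ℝ, p y + p z < r →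
    (∀ ε δ : ℂ, ‖ε‖ ≤ 1 → ‖δ‖ ≤ 1 → ‖f (x0 + (ε • y + δ • z)) - f x0‖ ≤ η) →
    ‖D1 f x0 y‖ ≤ C * η ∧ ‖D2 f x0 y z‖ ≤ C * η

def St_LHT : Prop := ∀ (j : ℝ) (q : ℕ), 4 ≤ q → ∃ C h0, ∀ h, h0 ≤ h → ∀ γ, Nc j γ →
  (∀ P ∈ SP, nm (P - cp γ) ≤ 2 / om q h → Adm j (j + 1) γ (2 / om q h) P ∧
    DifferentiableOn ℂ (fun μ => TT μ P) (DD q h) ∧ (∀ μ ∈ DD q h, ‖TT μ P‖ ≤ C * om q h) ∧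
    ∀ n0, ‖FT q h P - ∑ n ∈ Finset.range n0, 2 * (-2) ^ n * FF q h fun μ => Tn (fun _ _ => 1) μ P n‖ ≤
      C * om q h ^ 3 * (C / h ^ 3) ^ n0) ∧
  ∀ x0 ∈ SP, nm (x0 - cp γ) ≤ (om q h)⁻¹ →
    (∀ μ ∈ DD q h, LH SP nm (TT μ) x0 (om q h)⁻¹ (C * om q h)) ∧
    LH SP nm (FT q h) x0 (om q h)⁻¹ (C * om q h ^ 3) ∧
    ∀ y ∈ SP, ∀ z ∈ SP, DifferentiableOn ℂ (fun μ => D2 (TT μ) x0 y z) (DD q h) ∧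
      D2 (FT q h) x0 y z = FF q h fun μ => D2 (TT μ) x0 y z

/-- real curves: the kernels of the pair, and the Schur bounds near a nice curve -/
def St_LNK : Prop :=
  (∀ (γ : ℝ → ℂ) (μ : ℝ) s t, Differentiable ℝ γ → 0 < μ → γ s ≠ γ t →
    pc (cp γ) s t = c0 γ s t ∧ pS μ (cp γ) s t = Sr μ γ s t ∧ pK μ (cp γ) s t = Kr μ γ s t ∧
    pKd μ (cp γ) s t = Kdr μ γ s t ∧ pNd μ (cp γ) s t = Ndr μ γ s t) ∧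
  (∀ (γ : ℝ → ℂ) (μ : ℝ) s t, 0 < μ → fK μ γ s t = Kr μ γ s t) ∧
  ∀ (j : ℝ) (q : ℕ), 4 ≤ q → ∃ h0, ∀ h, h0 ≤ h → ∀ γ γ' Ω' (μ : ℝ), Nc j γ → CD Ω' γ' →
    nm (cp γ' - cp γ) ≤ 2 / om q h → (μ : ℂ) ∈ DD q h → Pot μ γ' Ω'

/-! ## E. Non-resonant terms -/

def St_CUT : Prop := ∃ C, 1 ≤ C ∧
  (∀ e1 e2 α : ℝ, 0 < e1 → 2 * e1 ≤ e2 → e2 ≤ 1 → ∃ b, Bf C e1 e2 α b) ∧
  ∀ e : ℝ, 0 < e → e ≤ 1 → ∃ K α φ, Pu C e K α φ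

def St_DEF : Prop := ∀ (j B Cb : ℝ) (q : ℕ), 6 ≤ q → ∃ B' C h0, ∀ h, h0 ≤ h → ∀ γ P p α b, Nc j γ →
  Str B (100 * h / om q h) (om q h)⁻¹ P → nm (rs P - cp γ) ≤ (om q h)⁻¹ → p ∈ SP →
  nm p ≤ (om q h)⁻¹ → Bf Cb (2 * Tt q h / h) (20 * Tt q h) α b →
  (∀ ζ : ℂ, ‖ζ‖ < 2 * vt q h → Adm j B' γ (C * h / om q h) (Pz P p b ζ)) ∧
  (∀ s, Differentiable ℂ (fun ζ => Pz P p b ζ s) ∧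
    Differentiable ℂ fun ζ => deriv (Pz P p b ζ) s) ∧
  Gain q h C α (Pz P p b (-I * vt q h))

def St_SH : Prop := ∀ q : ℕ, 4 ≤ q → ∃ C h0, ∀ h, h0 ≤ h →
  (∀ μ ∈ Rect q h, Sm μ ∧ ‖μ‖ ≤ om q h) ∧
  (∀ y, |y| ≤ YY q h → mu q h y ∈ DD q h ∧ mu q h y ∈ Rect q h ∧ om q h / 4 ≤ (mu q h y).im ∧
    ‖Gs q h (mu q h y)‖ ≤ C) ∧
  (∀ (f : ℂ → ℂ) (F : ℝ), (∀ y, |y| ≤ YY q h → ‖f (mu q h y)‖ ≤ F) →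
    ‖FF q h f‖ ≤ C * om q h ^ 2 * F) ∧
  ∀ (f : ℂ → ℂ) (l F : ℝ), DifferentiableOn ℂ f (Rect q h) →
    (∀ μ ∈ Rect q h, ‖f μ‖ ≤ F * Real.exp (-(μ.re * l))) → 0 ≤ l →
    (l ≤ Tt q h / 2 ∨ 4 * Tt q h ≤ l) →
    ‖FF q h f‖ ≤ C * om q h ^ 2 * F * Real.exp (-(h ^ 2 / 2)) * Real.exp (-(l / (2 * Tt q h)))

def St_EST : Prop := ∀ (j B C1 : ℝ) (q n : ℕ), 4 ≤ q → ∃ C h0, ∀ h, h0 ≤ h → ∀ γ P α wt, Nc j γ →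
  Adm j B γ (C1 * h / om q h) P → Gain q h C1 α P → Wt wt →
  (∀ v, wt (n + 2) v ≠ 0 → ∃ i, dc (v i) α ≤ 2 * Tt q h / h) →
  ‖FF q h fun μ => Tn wt μ P n‖ ≤ C * om q h ^ 3 * Real.exp (-(h / 8))

def St_KILL : Prop := ∀ (j B : ℝ) (q N : ℕ), 6 ≤ q → ∃ C h0, ∀ h, h0 ≤ h → ∀ γ P, Nc j γ →
  Str B (100 * h / om q h) (om q h)⁻¹ P → nm (rs P - cp γ) ≤ (om q h)⁻¹ →
  ‖FT q h (rs P)‖ ≤ C / om q h ^ N ∧ ∀ p ∈ SP, ∀ α, nm p ≤ (om q h)⁻¹ →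
    (∀ s, 2 * Tt q h / h ≤ dc s α → p s = 0) → ‖FT q h (rs P + p) - FT q h (rs P)‖ ≤ C / om q h ^ N

def St_H0 : Prop := ∀ (j K : ℝ) (M : ℕ), 2 ≤ M → ∃ C, ∀ (W : ℕ) γ a0, 1 ≤ W → Nc j γ →
  Ton M K W a0 0 (kp γ) →
  (∀ l ≤ 2 * M + 4, ∀ s, ‖iteratedDeriv (l + 1) γ s‖ ≤ C * lam M W ^ (l - 3)) ∧
  ∫ s in (0 : ℝ)..(2 * π), ‖iteratedDeriv (2 * M + 6) γ s‖ ^ 2 ≤ C * XX M W ^ 2 ∧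
  ∫ s in (0 : ℝ)..(2 * π), ‖iteratedDeriv (2 * M + 4)
    (fun s => ((kp γ s - tn M W a0 0 s : ℝ) : ℂ) * deriv γ s) s‖ ^ 2 ≤ C * XX M W ^ 2 / W

def St_H1 : Prop := ∀ j : ℝ, ∃ B, ∀ (K : ℝ) (M q : ℕ), 5 ≤ M → 2 * M + 4 ≤ q → ∃ C h0, ∀ h, h0 ≤ h →
  ∀ (W : ℕ) γ a0, (W : ℝ) ^ 2 = om q h → Nc j γ → Ton M K W a0 0 (kp γ) →
  Str B (100 * h / om q h) (om q h)⁻¹ (lo (Xi q h) γ) ∧ rs (lo (Xi q h) γ) ∈ SP ∧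
  ContDiff ℝ ∞ (Zc (Xi q h) γ) ∧ Function.Periodic (Zc (Xi q h) γ) (2 * π) ∧
  cp γ = rs (lo (Xi q h) γ) + cp (Zc (Xi q h) γ) ∧
  nm (cp (Zc (Xi q h) γ)) ≤ C * amp M W * om q h ^ 2

def St_H2 : Prop := ∀ (j K : ℝ) (M q : ℕ), 5 ≤ M → 2 * M + 4 ≤ q → ∃ C h0, ∀ h, h0 ≤ h →
  ∀ (W : ℕ) γ a0, (W : ℝ) ^ 2 = om q h → Nc j γ → Ton M K W a0 0 (kp γ) →
  Per (2 * π) (rho q h γ) ∧ ∫ s in (0 : ℝ)..(2 * π), (rho q h γ s + tn M W a0 0 s / om q h ^ 2) ^ 2 ≤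
    C * (amp M W ^ 2 / om q h ^ 4) * (h ^ (8 * M + 24) / W)

def St_TAN : Prop := ∀ (j : ℝ) (q : ℕ), 4 ≤ q → ∃ h0, ∀ h, h0 ≤ h → ∀ γ, Nc j γ → ∀ Q ∈ SP,
  ∀ τ e, 0 < e → Per (2 * π) τ → Sep e Q τ → ∀ μ ∈ DD q h, D2 (TT μ) (cp γ) Q (tg γ τ) = 0

def St_C5 : Prop := ∀ (j : ℝ) (q : ℕ), 4 ≤ q → ∃ h0, ∀ h, h0 ≤ h → ∀ Ω γ η, Dg Ω γ η → Nc j γ →
  ∀ ρ1 ρ2 e, 0 < e → Per (2 * π) ρ1 → Per (2 * π) ρ2 → Sep e ρ1 ρ2 →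
  DifferentiableOn ℂ (PsN γ fun s t => ρ1 s * ρ2 t) (DD q h) ∧ ∀ μ ∈ DD q h,
    2 * μ * D2 (TT μ) (cp γ) (nl γ ρ1) (nl γ ρ2) = -deriv (PsN γ fun s t => ρ1 s * ρ2 t) μ

def St_TAY : Prop := ∀ (j K : ℝ) (M q : ℕ), 25 ≤ M → 2 * M + 4 ≤ q → ∃ C h0, ∀ h, h0 ≤ h →
  ∀ (W : ℕ) Ω γ η a0, (W : ℝ) ^ 2 = om q h → Dg Ω γ η → Nc j γ → Ton M K W a0 0 (kp γ) →
  ∃ w, Wf q h w ∧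
    DifferentiableOn ℂ (PsN γ fun s t => w s t * (rho q h γ s * rho q h γ t)) (DD q h) ∧
    ‖FT q h (cp γ) + 1 / 2 * ∫ y in (-YY q h)..YY q h, Gs q h (mu q h y) *
      deriv (PsN γ fun s t => w s t * (rho q h γ s * rho q h γ t)) (mu q h y)‖ ≤
      C / om q h ^ (2 * M + 4)

/-! ## B. Potential theory -/

def St_QS : Prop :=
  (∀ γ : ℝ → ℂ, ContDiff ℝ ∞ γ → Function.Periodic γ (2 * π) → (∀ s, deriv γ s ≠ 0) →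
    (∀ s t, γ s = γ t → ∃ k : ℤ, t = s + k * (2 * π)) → ContDiff ℝ ∞ (Function.uncurry (qq γ))) ∧
  ∀ j : ℝ, ∃ C, ∀ γ, Nc j γ → ∀ v u : ℝ, |qq γ v u| ≤ C ∧ |q1 γ v u| ≤ C ∧ |q2 γ v u| ≤ C ∧
    |qq γ v u - kp γ u / 2| ≤ C * |u - v| ∧
    |c0 γ v u - (|u - v| - kp γ u ^ 2 * |u - v| ^ 3 / 24)| ≤ C * |u - v| ^ 4 ∧
    |rdot (nr γ v) (γ u - γ v) - kp γ u * (u - v) ^ 2 / 2| ≤ C * |u - v| ^ 3 ∧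
    |rdot (nr γ u) (γ u - γ v) + kp γ u * (u - v) ^ 2 / 2| ≤ C * |u - v| ^ 3 ∧
    |1 - rdot (nr γ v) (nr γ u) - kp γ u ^ 2 * (u - v) ^ 2 / 2| ≤ C * |u - v| ^ 3 ∧
    |rdot (deriv γ v - deriv γ u) (γ v - γ u)| ≤ C * |u - v| ^ 4

def St_GC : Prop := ∀ Ω γ, CD Ω γ → ∃ c > 0,
  (∀ s t r : ℝ, |r| ≤ c → c * (dc s t + |r|) ≤ ‖γ t - (γ s + r * nr γ s)‖) ∧
  (∀ x t, ‖x - γ t‖ < c → ∃ s r : ℝ, c * |r| ≤ ‖x - γ t‖ ∧ x = γ s + r * nr γ s ∧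
    (x ∈ Ω → 0 < r)) ∧
  (∀ s r : ℝ, 0 < r → r ≤ c → γ s + r * nr γ s ∈ Ω ∧ γ s - r * nr γ s ∉ closure Ω) ∧
  ∀ s, ∀ z ∈ Ω, c * ‖nr γ s‖ ≤ ‖z - (γ s - c * nr γ s)‖

def St_LAY : Prop := ∀ μ : ℝ, 0 < μ →
  (Har μ {0}ᶜ (Gr μ) ∧ ContDiffOn ℝ ∞ (Gr μ) {0}ᶜ ∧ Measurable (Gr μ) ∧ Integrable (Gr μ) ∧
    MemLp (Gr μ) 2 ∧ (∃ C, ∀ z ≠ 0, |Gr μ z| ≤ C * ‖z‖ ^ (-(1 / 4) : ℝ)) ∧ ∀ z ≠ 0, 0 < Gr μ z ∧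
    ∀ v, fderiv ℝ (Gr μ) z v = -(l1 (μ * ‖z‖) * rdot z v) / (2 * π * ‖z‖ ^ 2)) ∧
  ∀ Ω γ φ, CD Ω γ → Measurable φ → (∃ B, ∀ t, |φ t| ≤ B) → Continuous (SLo μ γ φ) ∧
    Har μ (range γ)ᶜ (SLo μ γ φ) ∧ Har μ (range γ)ᶜ (DLo μ γ φ)

def St_GRN : Prop := ∀ μ : ℝ, 0 < μ →
  (∀ f : ℂ → ℝ, ContDiff ℝ 2 f → HasCompactSupport f → ∀ x,
    Vp μ (fun z => μ ^ 2 * f z - lap f z) x = f x) ∧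
  ∀ Ω γ (O : Set ℂ) (u : ℂ → ℝ) x, CD Ω γ → IsOpen O → closure Ω ⊆ O → ContDiffOn ℝ 2 u O →
    x ∉ range γ → Ω.indicator u x = (∫ z in Ω, Gr μ (x - z) * (μ ^ 2 * u z - lap u z)) +
      ∫ t in (0 : ℝ)..(2 * π),
        (Gr μ (x - γ t) * fderiv ℝ u (γ t) (-nr γ t) + DLk μ γ x t * u (γ t))

def St_VP : Prop := ∀ (μ : ℝ) (F : ℂ → ℝ), 0 < μ → MemLp F 2 → (∃ R, ∀ z, R < ‖z‖ → F z = 0) →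
  Continuous (Vp μ F) ∧ ∀ O, IsOpen O → ContDiffOn ℝ 2 F O → ContDiffOn ℝ 2 (Vp μ F) O ∧
    ∀ x ∈ O, μ ^ 2 * Vp μ F x - lap (Vp μ F) x = F x

def St_JMP : Prop := ∀ (μ : ℝ) Ω γ, 0 < μ → CD Ω γ →
  (∃ C, ∀ x ∉ range γ, ∫ t in (0 : ℝ)..(2 * π), |DLk μ γ x t| ≤ C) ∧
  ∀ φ, CP φ → ∀ s, Tendsto (DLo μ γ φ) (𝓝[Ω] (γ s))
    (𝓝 (φ s / 2 + ∫ t in (0 : ℝ)..(2 * π), Kr μ γ s t * φ t))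

def St_MAX : Prop := ∀ μ : ℝ, 0 < μ →
  (∀ (U : Set ℂ) (u : ℂ → ℝ) (m : ℝ), IsOpen U → Bornology.IsBounded U → 0 ≤ m →
    ContinuousOn u (closure U) → ContDiffOn ℝ 2 u U → (∀ x ∈ U, μ ^ 2 * u x ≤ lap u x) →
    (∀ x ∈ frontier U, u x ≤ m) → ∀ x ∈ closure U, u x ≤ m) ∧
  (∀ (U : Set ℂ) (u : ℂ → ℝ) (m B : ℝ), ∀ y ∈ U, IsOpen U → Bornology.IsBounded U → 0 ≤ m →
    ContinuousOn u (closure U \ {y}) → ContDiffOn ℝ 2 u (U \ {y}) →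
    (∀ x ∈ U \ {y}, μ ^ 2 * u x ≤ lap u x ∧ u x ≤ B) → (∀ x ∈ frontier U, u x ≤ m) →
    ∀ x ∈ U \ {y}, u x ≤ m) ∧
  ∀ Ω γ (δ : ℝ), CD Ω γ → 0 < δ → ∃ C, 0 ≤ C ∧ ∀ s (U : Set ℂ) (u : ℂ → ℝ) (a η : ℝ), IsOpen U →
    U ⊆ Ω → 0 ≤ a → 0 ≤ η → ContinuousOn u (closure (U ∩ Metric.ball (γ s) δ)) →
    ContDiffOn ℝ 2 u (U ∩ Metric.ball (γ s) δ) →
    (∀ x ∈ U ∩ Metric.ball (γ s) δ, μ ^ 2 * u x - lap u x ≤ a ∧ u x ≤ η) →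
    (∀ x ∈ frontier U ∩ Metric.ball (γ s) δ, u x ≤ 0) →
    ∀ y ∈ U ∩ Metric.ball (γ s) δ, u y ≤ C * (η + a) * ‖y - γ s‖

def St_NEU : Prop := ∀ μ γ Ω, Pot μ γ Ω →
  Continuous (Function.uncurry (Kr μ γ)) ∧ (∀ s t, Kr μ γ (s + 2 * π) t = Kr μ γ s t ∧
    Kr μ γ s (t + 2 * π) = Kr μ γ s t) ∧ (∀ s t, γ s ≠ γ t → DLk μ γ (γ s) t = Kr μ γ s t) ∧
  (∀ n, Continuous (Function.uncurry (Kp μ γ n))) ∧ (∃ C, ∀ n s t, |Kp μ γ n s t| ≤ C / 4 ^ n) ∧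
  (∀ n s t, Kp μ γ (n + 1) s t = ∫ u in (0 : ℝ)..(2 * π), Kr μ γ s u * Kp μ γ n u t) ∧
  Continuous (Function.uncurry (Ph μ γ)) ∧ (∀ s t, Ph μ γ (s + 2 * π) t = Ph μ γ s t ∧
    Ph μ γ s (t + 2 * π) = Ph μ γ s t ∧
    Ph μ γ s t = -4 * Kr μ γ s t - 2 * (∫ u in (0 : ℝ)..(2 * π), Kr μ γ s u * Ph μ γ u t) ∧
    Ph μ γ s t = -4 * Kr μ γ s t - 2 * ∫ u in (0 : ℝ)..(2 * π), Ph μ γ s u * Kr μ γ u t) ∧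
  ∀ φ, CP φ → CP (Hop μ γ φ) ∧
    ∀ s, Hop μ γ φ s / 2 + ∫ t in (0 : ℝ)..(2 * π), Kr μ γ s t * Hop μ γ φ t = φ s

def St_POI : Prop := ∀ μ γ Ω, Pot μ γ Ω →
  (∀ φ, CP φ → ContinuousOn (Ue μ γ Ω φ) (closure Ω) ∧ Har μ Ω (Ue μ γ Ω φ) ∧
    (∀ t, Ue μ γ Ω φ (γ t) = φ t) ∧
    (∀ x ∈ Ω, Ue μ γ Ω φ x = DLo μ γ (Hop μ γ φ) x ∧
      Ue μ γ Ω φ x = ∫ t in (0 : ℝ)..(2 * π), ps μ γ x t * φ t) ∧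
    ∀ ψ m, CP ψ → (∀ t, |φ t - ψ t| ≤ m) → ∀ x ∈ closure Ω, |Ue μ γ Ω φ x - Ue μ γ Ω ψ x| ≤ m) ∧
  (∀ u, ContinuousOn u (closure Ω) → Har μ Ω u →
    ∀ x ∈ closure Ω, u x = Ue μ γ Ω (fun t => u (γ t)) x) ∧
  (∀ (X : Type) [TopologicalSpace X] (S : Set X) (F : X → ℝ → ℝ),
    ContinuousOn (Function.uncurry F) (S ×ˢ univ) → (∀ y ∈ S, Function.Periodic (F y) (2 * π)) →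
    ContinuousOn (fun p : ℂ × X => Ue μ γ Ω (F p.2) p.1) (closure Ω ×ˢ S)) ∧
  Measurable (Function.uncurry (ps μ γ)) ∧ ContinuousOn (Function.uncurry (ps μ γ)) (Ω ×ˢ univ) ∧
  (∀ v, Har μ Ω fun x => ps μ γ x v) ∧ (∃ C, ∀ x ∈ Ω, ∀ t, ps μ γ x t ≤ C * (1 + ‖x - γ t‖⁻¹)) ∧
  ContinuousOn (fun p : ℂ × ℝ => 2 * DLk μ γ p.1 p.2 - 2 * Ue μ γ Ω (fun u => Kr μ γ u p.2) p.1)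
    {p | p.1 ∈ closure Ω ∧ p.1 ≠ γ p.2} ∧
  ∀ x ∈ Ω, CP (ps μ γ x) ∧ (∀ t, 0 ≤ ps μ γ x t) ∧ ∫ t in (0 : ℝ)..(2 * π), ps μ γ x t ≤ 1 ∧
    ∀ v, ps μ γ x v = 2 * DLk μ γ x v - 2 * Ue μ γ Ω (fun u => Kr μ γ u v) x

def St_GRE : Prop := ∀ μ γ Ω, Pot μ γ Ω →
  ContinuousOn (Function.uncurry (hR μ γ Ω)) (closure Ω ×ˢ Ω) ∧
  IntegrableOn (fun x => hR μ γ Ω x x) Ω ∧
  (∀ F : ℂ → ℝ, MemLp F 2 → (∀ z ∉ Ω, F z = 0) → ∀ x ∈ Ω,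
    IntegrableOn (fun z => Rg μ γ Ω x z * F z) Ω ∧
    ∫ z in Ω, Rg μ γ Ω x z * F z = Vp μ F x - Ue μ γ Ω (fun t => Vp μ F (γ t)) x) ∧
  ∀ y ∈ Ω, Har μ Ω (fun x => hR μ γ Ω x y) ∧ (∀ t, Rg μ γ Ω (γ t) y = 0) ∧
    (∀ x ∈ Ω, hR μ γ Ω x y = hR μ γ Ω y x ∧ 0 ≤ hR μ γ Ω x y ∧ (x ≠ y → 0 ≤ Rg μ γ Ω x y) ∧
      SLo μ γ (ps μ γ y) x = hR μ γ Ω x y) ∧
    ∀ x ∉ Ω, SLo μ γ (ps μ γ y) x = Gr μ (x - y)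

def St_RES : Prop := ∀ μ μ' γ Ω, Pot μ γ Ω → Pot μ' γ Ω →
  (∀ x ∈ Ω, ∀ y ∈ Ω, x ≠ y → IntegrableOn (fun z => Rg μ γ Ω x z * Rg μ' γ Ω z y) Ω ∧
    Rg μ γ Ω x y - Rg μ' γ Ω x y = (μ' ^ 2 - μ ^ 2) * ∫ z in Ω, Rg μ γ Ω x z * Rg μ' γ Ω z y) ∧
  Integrable (fun p : ℂ × ℂ => Rg μ γ Ω p.1 p.2 * Rg μ' γ Ω p.1 p.2)
    ((volume.restrict Ω).prod (volume.restrict Ω)) ∧
  (μ' ^ 2 - μ ^ 2) * RR μ μ' γ Ω =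
    TB μ γ Ω - TB μ' γ Ω + volume.real Ω * Real.log (μ' / μ) / (2 * π)

def St_CH : Prop := ∀ μ γ Ω, Pot μ γ Ω →
  (∃ C, ∀ t s, |Lm μ γ t s| ≤ C ∧ |Kdr μ γ t s| ≤ C ∧
    IntervalIntegrable (fun u => Sr μ γ t u * Ndr μ γ u s) volume 0 (2 * π)) ∧
  Measurable (Function.uncurry (Lm μ γ)) ∧ Continuous (Function.uncurry (Kdr μ γ)) ∧
  Tn (fun _ _ => 1) μ (cp γ) 0 = (∫ s in (0 : ℝ)..(2 * π), Lm μ γ s s : ℝ) ∧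
  ∀ n, Tn (fun _ _ => 1) μ (cp γ) (n + 1) =
    (∫ s in (0 : ℝ)..(2 * π), ∫ t in (0 : ℝ)..(2 * π), Kp μ γ n s t * Lm μ γ t s : ℝ)

def St_TR1 : Prop := ∀ μ γ Ω, Pot μ γ Ω →
  (∃ C, ∀ s t, IntegrableOn (fun x => Gr μ (γ s - x) * DLk μ γ x t) Ω ∧
    ∫ x in Ω, |Gr μ (γ s - x) * DLk μ γ x t| ≤ C) ∧
  ∀ s t, ∫ x in Ω, Gr μ (γ s - x) * DLk μ γ x t = -Kdr μ γ s t / 2 +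
    (∫ u in (0 : ℝ)..(2 * π), Kr μ γ s u * Kdr μ γ u t) -
    ∫ u in (0 : ℝ)..(2 * π), Sr μ γ s u * Ndr μ γ u t

def St_TR : Prop := ∀ (μ : ℝ) γ Ω, Pot μ γ Ω → TT μ (cp γ) = TB μ γ Ω

def St_TEQ : Prop := ∀ (j : ℝ) (q N : ℕ), 4 ≤ q → ∃ C h0, ∀ h, h0 ≤ h → ∀ Ω Ω' γ γ', CD Ω γ →
  CD Ω' γ' → Nc j γ → Nc j γ' → volume.real Ω = volume.real Ω' →
  (∀ μ, 1 ≤ μ → Pot μ γ Ω → Pot μ γ' Ω' → RR μ μ γ Ω = RR μ μ γ' Ω') →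
  ‖FT q h (cp γ) - FT q h (cp γ')‖ ≤ C / om q h ^ N

/-! ## C. The mixed second variation -/

def St_C1 : Prop := ∀ j μ γ Ω, Pot μ γ Ω → Nc j γ → ∀ δ > 0, ∀ η > 0, ∃ r0 > 0, ∀ s, ∀ y ∈ Ω,
  ∀ r : ℝ, 0 < r → r < r0 → δ ≤ ‖y - γ s‖ →
  |Rg μ γ Ω (γ s + r * nr γ s) y / r - ps μ γ y s| ≤ η

def St_C2 : Prop := ∀ j (μ : ℝ) γ Ω, Pot μ γ Ω → Nc j γ → 1 ≤ μ → ∀ δ > 0, ∀ η > 0, ∃ r0 > 0,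
  ∀ t s r : ℝ, 0 < r → r < r0 → δ ≤ c0 γ t s →
  ‖((ps μ γ (γ t + r * nr γ t) s / r : ℝ) : ℂ) - NN μ γ t s‖ ≤ η

def St_DBL : Prop := ∀ j (μ : ℝ) γ Ω, Pot μ γ Ω → Nc j γ → 1 ≤ μ →
  (∀ δ > 0, ∀ η > 0, ∃ r0 > 0, ∀ s t r r' : ℝ, 0 < r → r < r0 → 0 < r' → r' < r0 → δ ≤ c0 γ s t →
    |Rg μ γ Ω (γ s + r * nr γ s) (γ t + r' * nr γ t) / (r * r') - (NN μ γ s t).re| ≤ η) ∧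
  (∀ δ > 0, ∃ C, ∀ s t, δ ≤ c0 γ s t → ∀ x ∈ Ω, ‖x - γ s‖ ≤ δ / 4 → ps μ γ x t ≤ C * ‖x - γ s‖ ∧
    ∀ y ∈ Ω, ‖y - γ t‖ ≤ δ / 4 → Rg μ γ Ω x y ≤ C * ‖x - γ s‖ * ‖y - γ t‖) ∧
  (∃ C, ∀ x ∈ Ω, ∀ s, IntegrableOn (Rg μ γ Ω x) Ω ∧ ∫ z in Ω, Rg μ γ Ω x z ≤ C * ‖x - γ s‖) ∧
  (∀ s t, γ s ≠ γ t → NN μ γ s t = NN μ γ t s ∧ (NN μ γ s t).im = 0 ∧ 0 ≤ (NN μ γ s t).re) ∧
  ContinuousOn (fun p : ℝ × ℝ => (NN μ γ p.1 p.2).re) {p | γ p.1 ≠ γ p.2}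

def St_C3 : Prop := ∀ j (μ μ' : ℝ) γ Ω, Pot μ γ Ω → Pot μ' γ Ω → Nc j γ → 1 ≤ μ → μ ≤ μ' →
  (∀ x ∈ Ω, ∀ t, ps μ' γ x t ≤ ps μ γ x t) ∧ ∀ s t, γ s ≠ γ t →
    IntegrableOn (fun x => ps μ γ x s * ps μ' γ x t) Ω ∧
    (NN μ γ s t).re - (NN μ' γ s t).re = (μ' ^ 2 - μ ^ 2) * ∫ x in Ω, ps μ γ x s * ps μ' γ x t

def tb (μ : ℝ) (γ : ℝ → ℂ) (Ω : Set ℂ) (ρ : ℝ → ℝ) : ℝ := TB μ (cs γ ρ) (Sh Ω γ ρ)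

def St_C4 : Prop := ∀ j (μ : ℝ) γ Ω η ρ1 ρ2 (e τ0 : ℝ), Dg Ω γ η → Nc j γ → 1 ≤ μ → Pot μ γ Ω →
  Per (2 * π) ρ1 → Per (2 * π) ρ2 → (∀ s, 0 ≤ ρ1 s) → (∀ s, 0 ≤ ρ2 s) → 0 < e → Sep e ρ1 ρ2 →
  0 < τ0 → (∀ a b : ℝ, 0 ≤ a → a ≤ τ0 → 0 ≤ b → b ≤ τ0 →
    Pot μ (cs γ fun s => a * ρ1 s + b * ρ2 s) (Sh Ω γ fun s => a * ρ1 s + b * ρ2 s)) →
  Tendsto (fun τ : ℝ => (tb μ γ Ω (fun s => τ * ρ1 s + τ * ρ2 s) -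
      tb μ γ Ω (fun s => τ * ρ1 s + 0 * ρ2 s) - tb μ γ Ω (fun s => 0 * ρ1 s + τ * ρ2 s) +
      TB μ γ Ω) / τ ^ 2) (𝓝[>] 0)
    (𝓝 (2 * ∫ s in (0 : ℝ)..(2 * π), ∫ t in (0 : ℝ)..(2 * π),
      ρ1 s * ρ2 t * ((NN μ γ s t).re * QI μ γ Ω s t)))

/-! ## F. The kernel `N` for complex `μ` -/

/-- jointly measurable, periodic, holomorphic off the diagonal -/
def Kk (γ : ℝ → ℂ) (k : ℂ → ℝ → ℝ → ℂ) : Prop :=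
  Measurable (fun p : ℂ × ℝ × ℝ => k p.1 p.2.1 p.2.2) ∧
  (∀ μ s t, k μ (s + 2 * π) t = k μ s t ∧ k μ s (t + 2 * π) = k μ s t) ∧
  ∀ s t, γ s ≠ γ t → DifferentiableOn ℂ (fun μ => k μ s t) {μ | 0 < μ.re}

def St_KR : Prop := ∀ j : ℝ, ∃ C, ∀ γ, Nc j γ → ∀ (μ : ℂ) s t, 1 ≤ ‖μ‖ → 0 < μ.re → γ s ≠ γ t →
  let a := ‖μ‖
  let c := c0 γ s t
  let e := Real.exp (-(μ.re * c))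
  ‖fS μ γ s t‖ ≤ C * (√(a * c))⁻¹ * e ∧ ‖fS μ γ s t‖ ≤ C * c ^ (-(1 / 4) : ℝ) * e ∧
  ‖fK μ γ s t‖ ≤ C * (1 + √(a * c)) * e ∧ ‖fKn μ γ s t‖ ≤ C * (a * (1 + √(a * c))) * e ∧
  ‖fKb μ γ s t‖ ≤ C * (a * √a * (√c)⁻¹ * (1 + a * c ^ 3)) * e ∧
  ‖fKb μ γ s t‖ ≤ C * (a ^ 3 * c ^ (-(1 / 4) : ℝ)) * e ∧
  ‖fSb μ γ s t‖ ≤ C * (a * c * √(a * c)) * e ∧ ‖fS1 μ γ s t‖ ≤ C * (c ^ 2 * (1 + √(a * c))) * e ∧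
  ‖fNn μ γ s t‖ ≤ C * ((c ^ 2)⁻¹ * (1 + √(a * c)) * (1 + a * c ^ 3)) * e

def St_KD : Prop := ∀ j γ, Nc j γ →
  (Kk γ (fun μ => fS μ γ) ∧ Kk γ (fun μ => fK μ γ) ∧ Kk γ (fun μ => fKn μ γ) ∧
    Kk γ (fun μ => fKb μ γ) ∧ Kk γ (fun μ => fSb μ γ) ∧ Kk γ (fun μ => fS1 μ γ) ∧
    Kk γ fun μ => fNn μ γ) ∧
  ∀ μ : ℂ, 0 < μ.re → Continuous (Function.uncurry (fK μ γ)) ∧
    Continuous (Function.uncurry (fKn μ γ)) ∧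
    ContinuousOn (Function.uncurry (fKb μ γ)) {p | γ p.1 ≠ γ p.2} ∧
    ∀ v u, HasDerivAt (fun v => fK μ γ v u) (fKn μ γ v u) v ∧
      (γ v ≠ γ u → HasDerivAt (fun v => fKn μ γ v u) (fKb μ γ v u + μ ^ 2 * fK μ γ v u) v)

def St_NH : Prop := ∀ j : ℝ,
  (∀ γ, Nc j γ → (∀ n, Measurable fun p : ℂ × ℝ × ℝ => ro p.1 γ n p.2.1 p.2.2) ∧
    (Measurable fun p : ℂ × ℝ × ℝ => NN p.1 γ p.2.1 p.2.2) ∧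
    (∀ μ n s t, ro μ γ n (s + 2 * π) t = ro μ γ n s t ∧ ro μ γ n s (t + 2 * π) = ro μ γ n s t) ∧
    ∀ μ s t, NN μ γ (s + 2 * π) t = NN μ γ s t ∧ NN μ γ s (t + 2 * π) = NN μ γ s t) ∧
  ∀ q : ℕ, 1 ≤ q → ∃ h0, ∀ h, h0 ≤ h → ∀ γ, Nc j γ →
    (∀ s t, γ s ≠ γ t → DifferentiableOn ℂ (fun μ => NN μ γ s t) (DD q h)) ∧
    ∀ e > 0, ∃ C, ∀ μ ∈ DD q h, ∀ s t, e ≤ dc s t → ‖NN μ γ s t‖ ≤ C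

/-- bounds on the segment -/
def St_F0 : Prop := ∀ (j : ℝ) (q : ℕ), 4 ≤ q → ∃ C h0, ∀ h, h0 ≤ h → ∀ γ y v u, Nc j γ →
  |y| ≤ YY q h → γ v ≠ γ u →
  let μ := mu q h y
  let o := om q h
  let T := Tt q h
  let c := c0 γ v u
  let E := Real.exp (-(c / (2 * T)))
  ‖fS μ γ v u‖ ≤ C * (√(o * c))⁻¹ * E ∧ ‖fK μ γ v u‖ ≤ C * √(o * T) * E ∧
  ‖fKb μ γ v u‖ ≤ C * (o * √o * (√c)⁻¹) * E ∧ ‖fSb μ γ v u‖ ≤ C * (o * T * √(o * T)) * E ∧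
  ‖fS1 μ γ v u‖ ≤ C * (T ^ 2 * √(o * T)) * E ∧ ‖fKn μ γ v u‖ ≤ C * (o * √(o * T)) * E ∧
  ((o)⁻¹ ≤ c → ‖fNn μ γ v u‖ ≤ C * (√o * (c * √c)⁻¹) * E)

/-- pointwise bound of a model -/
def St_MB : Prop := ∀ (j b : ℝ) (F : PowerSeries ℝ) (p n0 q : ℕ), 4 ≤ q →
  (∀ n < n0, PowerSeries.coeff n F = 0) → ∃ C h0, ∀ h, h0 ≤ h → ∀ y k d : ℝ, |y| ≤ YY q h →
  |k| ≤ j → d ≠ 0 → ‖md (mu q h y) k b F p d‖ ≤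
    C * √(om q h) ^ n0 * |d| ^ (b + 3 * n0 / 2 - 1) * Real.exp (-(3 * |d| / (4 * Tt q h)))

/-- the models in closed form -/
def St_F1c : Prop := ∀ (j : ℝ) (p q : ℕ), 9 * (p + 1) + 2 ≤ 2 * q → ∃ C h0, ∀ h, h0 ≤ h →
  ∀ γ y s v u, Nc j γ → |y| ≤ YY q h → v ≠ u → |u - v| ≤ j⁻¹ →
  let μ := mu q h y
  let o := om q h
  let T := Tt q h
  let k := kp γ s
  let d := |u - v|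
  let E := Real.exp (-(c0 γ v u / (2 * T)))
  let X := exp (-(μ * c0 γ v u))
  let ε := eps p h + |v - s| + |u - s|
  ‖md μ k (1 / 2) sP (p + 2) (u - v) - X * ((√π * √d)⁻¹ : ℝ)‖ ≤ C * ε * (√d)⁻¹ * E ∧
  ‖md μ k 0 sA (p + 2) (u - v) - X * (rt μ * (k * √d / (4 * √(2 * π)) : ℝ))‖ ≤
    C * ε * √(o * T) * E ∧
  ‖md μ k (-1) sA (p + 2) (u - v) - X * (rt μ * (k / (4 * √(2 * π) * √d) : ℝ) *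
    (1 / 2 + μ * (k ^ 2 * d ^ 3 / 8 : ℝ)))‖ ≤ C * ε * (√o * (√d)⁻¹) * E ∧
  ‖md μ k (-(1 / 2)) sB (p + 2) (u - v) - X * (μ * (k ^ 2 * (d * √d) / (2 * √π) : ℝ))‖ ≤
    C * ε * (o * T * √T) * E ∧
  ‖md μ k (-(1 / 2)) sN0 (p + 2) (u - v) - X * (((√π * (d * √d))⁻¹ : ℝ) *
    (1 / 4 + μ * (k ^ 2 * d ^ 3 / 16 : ℝ)))‖ ≤ C * ε * (d * √d)⁻¹ * E

def St_F1a : Prop := ∀ (j : ℝ) (p q : ℕ), 9 * (p + 1) + 2 ≤ 2 * q → ∃ C h0, ∀ h, h0 ≤ h →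
  ∀ γ y s v u, Nc j γ → |y| ≤ YY q h → γ v ≠ γ u → |v - s| ≤ π → |u - s| ≤ π →
  let μ := mu q h y
  let o := om q h
  let T := Tt q h
  let k := kp γ s
  let c := c0 γ v u
  let E := Real.exp (-(c / (2 * T)))
  let ε := eps p h + |v - s| + |u - s|
  ‖fS μ γ v u - (2 * √2 * rt μ)⁻¹ * md μ k (1 / 2) sP (p + 2) (u - v)‖ ≤
    C * (ε + if c ≤ T * eps p h ^ 2 then 1 else 0) * (√(o * c))⁻¹ * E ∧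
  ‖fK μ γ v u - md μ k 0 sA (p + 2) (u - v)‖ ≤ C * ε * √(o * T) * E ∧
  ‖fSb μ γ v u - √2 * rt μ / 4 * md μ k (-(1 / 2)) sB (p + 2) (u - v)‖ ≤
    C * ε * (o * T * √(o * T)) * E

def St_F1b : Prop := ∀ (j : ℝ) (p q : ℕ), 9 * (p + 1) + 2 ≤ 2 * q → ∃ C h0, ∀ h, h0 ≤ h →
  ∀ γ y s v u, Nc j γ → |y| ≤ YY q h → γ v ≠ γ u → |v - s| ≤ π → |u - s| ≤ π →
  let μ := mu q h y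
  let o := om q h
  let T := Tt q h
  let k := kp γ s
  let c := c0 γ v u
  let E := Real.exp (-(c / (2 * T)))
  let ε := eps p h + |v - s| + |u - s|
  ‖fKb μ γ v u + 2 * μ * md μ k (-1) sA (p + 2) (u - v)‖ ≤
    C * (ε + if c ≤ T * eps p h ^ 2 then 1 else 0) * (o * √o * (√c)⁻¹) * E ∧
  (T * eps p h ^ 2 ≤ c → ‖fNn μ γ v u - Nm μ k sN0 (p + 2) (u - v)‖ ≤
    C * ε * (√o * (c * √c)⁻¹) * E)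

/-- convolution of two monomial models -/
def St_F3a : Prop := ∀ (b1 b2 : ℝ) (p q : ℕ), 1 / 2 ≤ b1 → 1 / 2 ≤ b2 → 9 * (p + 1) + 2 ≤ 2 * q →
  ∃ C h0, ∀ h, h0 ≤ h → ∀ y, |y| ≤ YY q h →
  let μ := mu q h y
  let T := Tt q h
  let err : ℝ → ℂ := fun u => (∫ v in (-π)..π, eb μ b1 v * eb μ b2 (u - v)) - eb μ (b1 + b2) u
  (∀ u ≠ 0, IntervalIntegrable (fun v => eb μ b1 v * eb μ b2 (u - v)) volume (-π) π) ∧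
  IntervalIntegrable err volume (-π) π ∧
  ∫ u in (-π)..π, ‖err u‖ * Real.exp (|u| / (4 * T)) ≤ C * eps p h * T ^ (b1 + b2) ∧
  ∀ u, T / (4 * h) ≤ |u| → |u| ≤ π →
    ‖err u‖ * Real.exp (|u| / (4 * T)) ≤ C * eps p h * h * T ^ (b1 + b2 - 1)

def St_F3 : Prop := ∀ (j b1 b2 : ℝ) (F1 F2 : PowerSeries ℝ) (p q : ℕ),
  (∀ n, PowerSeries.coeff n F1 ≠ 0 → 1 / 2 ≤ b1 + 3 * n / 2) →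
  (∀ n, PowerSeries.coeff n F2 ≠ 0 → 1 / 2 ≤ b2 + 3 * n / 2) → 9 * (p + 1) + 2 ≤ 2 * q →
  ∃ C h0, ∀ h, h0 ≤ h → ∀ y k : ℝ, |y| ≤ YY q h → |k| ≤ j →
  let μ := mu q h y
  let T := Tt q h
  let err : ℝ → ℂ := fun u => (∫ v in (-π)..π,
    md μ k b1 F1 (p + 2) v * md μ k b2 F2 (p + 2) (u - v)) - md μ k (b1 + b2) (F1 * F2) (p + 2) u
  (∀ u ≠ 0, IntervalIntegrable (fun v => md μ k b1 F1 (p + 2) v * md μ k b2 F2 (p + 2) (u - v))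
    volume (-π) π) ∧ IntervalIntegrable err volume (-π) π ∧
  ∫ u in (-π)..π, ‖err u‖ * Real.exp (|u| / (4 * T)) ≤ C * eps p h * T ^ (b1 + b2) ∧
  ∀ u, T / (4 * h) ≤ |u| → |u| ≤ π →
    ‖err u‖ * Real.exp (|u| / (4 * T)) ≤ C * eps p h * h * T ^ (b1 + b2 - 1)

def St_F2a : Prop := ∀ (j : ℝ) (p q : ℕ), 9 * (p + 1) + 2 ≤ 2 * q → ∃ C h0, ∀ h, h0 ≤ h →
  ∀ γ y s, Nc j γ → |y| ≤ YY q h →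
  let μ := mu q h y
  let T := Tt q h
  let err : ℝ → ℂ := fun u => ro μ γ 0 s u - Nm μ (kp γ s) (sN0 * sA) (p + 2) (u - s)
  IntervalIntegrable (ro μ γ 0 s) volume (s - π) (s + π) ∧
  IntervalIntegrable err volume (s - π) (s + π) ∧
  ∫ u in (s - π)..(s + π), ‖ro μ γ 0 s u‖ * Real.exp (c0 γ s u / (4 * T)) ≤ C * N0 q h * T / h ^ 3 ∧
  ∫ u in (s - π)..(s + π), ‖err u‖ * Real.exp (c0 γ s u / (8 * T)) ≤ C * eps p h * N0 q h * T ∧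
  ∀ u, T / (2 * h) ≤ |u - s| → |u - s| ≤ π →
    ‖err u‖ * Real.exp (c0 γ s u / (8 * T)) ≤ C * eps p h * h * N0 q h

def St_F2 : Prop := ∀ (j : ℝ) (p q : ℕ), 9 * (p + 1) + 2 ≤ 2 * q → ∃ C h0, ∀ h, h0 ≤ h →
  ∀ γ y s t, Nc j γ → |y| ≤ YY q h → Tt q h / (2 * h) ≤ |t - s| → |t - s| ≤ π →
  ‖NN (mu q h y) γ s t - Nm (mu q h y) (kp γ s) sN (p + 2) (t - s)‖ ≤
    C * eps p h * h ^ 2 * N0 q h * Real.exp (-(c0 γ s t / (8 * Tt q h))) ∧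
  ‖Nm (mu q h y) (kp γ s) sN (p + 2) (t - s)‖ ≤
    C * h ^ 2 * N0 q h * Real.exp (-(c0 γ s t / (8 * Tt q h)))

def St_G : Prop := PowerSeries.coeff 0 sN = -1 ∧ ∀ n, 1 ≤ n → 0 < PowerSeries.coeff n sN

def St_J1 : Prop := ∀ q p : ℕ, 4 ≤ q → ∃ C h0, ∀ h, h0 ≤ h →
  (∀ d : ℝ, 0 ≤ d → ‖Mp q h p d - I * (om q h / 2 : ℝ) * rt (I * (om q h / 2 : ℝ)) ^ p *
      exp (-(I * om q h * d)) * ga q h d‖ ≤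
    C * √(om q h) ^ p * (h ^ 6 / Tt q h) * Real.exp (-(d / Tt q h))) ∧
  ∫ y in (-YY q h)..YY q h, ‖Gs' q h (mu q h y)‖ ≤ C * h ^ 2 ∧
  ‖Gs q h (mu q h (YY q h))‖ ≤ C * Real.exp (-(h ^ 4 / 2)) ∧
  ‖Gs q h (mu q h (-YY q h))‖ ≤ C * Real.exp (-(h ^ 4 / 2)) ∧
  ∀ μ, HasDerivAt (Gs q h) (Gs' q h μ) μ

def St_J2 : Prop := ∀ (j : ℝ) (q p : ℕ), 4 ≤ q → ∃ c C h0, 0 < c ∧ ∀ h, h0 ≤ h →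
  c * Tt q h ^ (3 * (p : ℝ) / 2 - 2) ≤ jp q h p ∧ jp q h p ≤ C * Tt q h ^ (3 * (p : ℝ) / 2 - 2) ∧
  ∀ (M W : ℕ) κ ρ w a0 (η : ℝ), (W : ℝ) ^ 2 = om q h → Per (2 * π) κ → Bk j κ → Per (2 * π) ρ →
    Wf q h w → ‖a0‖ ≤ 2 → 0 ≤ η → η ≤ 1 →
    ∫ s in (0 : ℝ)..(2 * π), (ρ s + tn M W a0 0 s / om q h ^ 2) ^ 2 ≤
      η ^ 2 * (amp M W ^ 2 / om q h ^ 4) →
    ‖(∫ s in (0 : ℝ)..(2 * π), ∫ d in (-π)..π,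
        ((w s (s + d) * (ρ s * ρ (s + d)) * κ s ^ p * g0 q h p |d| : ℝ) : ℂ) *
          exp (-(I * om q h * (|d| : ℝ)))) -
      ((amp M W ^ 2 / om q h ^ 4 * (2 * ‖a0‖ ^ 2 * jp q h p *
        ∫ s in (0 : ℝ)..(2 * π), κ s ^ p) : ℝ) : ℂ)‖ ≤
      C * (amp M W ^ 2 / om q h ^ 4) * Tt q h ^ (3 * (p : ℝ) / 2 - 2) *
        (η + h ^ 6 / (om q h * Tt q h))

def St_EXP : Prop := ∀ (j K : ℝ) (p0 M : ℕ), 25 ≤ M → ∃ q P : ℕ, 4 ≤ q ∧ p0 ≤ P ∧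
  ∃ (c C h0 : ℝ) (cf : ℕ → ℝ → ℂ), 0 < c ∧ ∀ h, h0 ≤ h →
  (∀ p ≤ P, ‖cf p h‖ ≤ C / h ^ (3 * p)) ∧ c / h ^ (3 * p0) ≤ ‖cf p0 h‖ ∧ h ^ (3 * p0 + 1) ≤ √(om q h) ∧
  ∀ (W : ℕ) Ω γ η a0, (W : ℝ) ^ 2 = om q h → Dg Ω γ η → Nc j γ → Ton M K W a0 0 (kp γ) →
    ‖FT q h (cp γ) / La M W q h - ‖a0‖ ^ 2 * ∑ p ∈ Finset.range (P + 1),
      cf p h * (∫ s in (0 : ℝ)..(2 * π), kp γ s ^ p : ℝ)‖ ≤ C / h ^ (3 * p0 + 1)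

/-- equal traces give equal moments -/
def St_SA : Prop := ∀ C : ℕ → ℝ, ∃ W0 : ℕ → ℕ → ℕ, ∀ Ω Ω' γ γ' η η' (j : ℝ), Dg Ω γ η →
  Dg Ω' γ' η' → Nc j γ → Nc j γ' → volume.real Ω = volume.real Ω' →
  (∀ μ, 1 ≤ μ → Pot μ γ Ω → Pot μ γ' Ω' → RR μ μ γ Ω = RR μ μ γ' Ω') →
  InvA C (fc (kp γ)) (fc (kp γ')) → Gm W0 (fc (kp γ)) → Mom (kp γ) (kp γ')

/-! ## Tones and step B -/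

def St_K4Q : Prop := ∀ (C : ℕ → ℝ) (M J : ℕ) (B : ℝ), ∃ (K : ℝ) (W1 : ℕ), ∀ W, W1 ≤ W → ∀ z z' a,
  Sq z → Sq z' → An z ≤ B → An z' ≤ B → Env J a → Inv C B z z' → Mk M W a z →
  J ≤ W ∧ Nr W z' ≤ K * amp M W ^ 2 ∧ Jk (2 * M + 4) W z' ≤ K * amp M W ^ 2 / (W : ℝ) ^ 4 ∧
  |mom 0 (sh z' W (amp M W)) W - mom 0 a J| ≤ K / W ∧
  |mom 1 (sh z' W (amp M W)) W - mom 1 a J| ≤ K / W ∧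
  mom 2 (sh z' W (amp M W)) W ≤ mom 2 a J + K / W ∧
  ∀ t ∈ win W, ‖sh z W (amp M W) t - a t‖ ≤ K / W

def St_TONE : Prop := ∀ (C : ℕ → ℝ) (M : ℕ) (j : ℝ), ∃ (K : ℝ) (W1 : ℕ), ∀ W, W1 ≤ W → ∀ κ κ' c,
  Per (2 * π) κ → Per (2 * π) κ' → Bk j κ → Bk j κ' → InvA C (fc κ) (fc κ') → ‖c‖ ≤ 1 →
  Mk M W (env c) (fc κ) → Ton M K W 1 c κ ∧
    ∃ a0 a1, Ton M K W a0 a1 κ' ∧ |‖a0‖ ^ 2 - 1| ≤ K / W ∧ (c = 0 → a1 = 0)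

def St_EN : Prop := (∀ κ : ℝ → ℝ, ContDiff ℝ ∞ κ → ∀ n s, deriv κ s ≠ 0 → ContDiffAt ℝ ∞ (En κ n) s) ∧
  ∀ n, 2 ≤ n → ∃ C, ∀ (κ : ℝ → ℝ) (s L l j : ℝ), ContDiff ℝ ∞ κ → 1 ≤ L → 1 ≤ l → 1 ≤ j →
    deriv κ s ≠ 0 → sl κ s ≤ j → (∀ a ≤ n, |iteratedDeriv a κ s| ≤ L * l ^ (a - 2)) →
    |En κ n s + iteratedDeriv (n + 1) κ s / deriv κ s ^ (n + 2)| ≤
      C * (L * j) ^ (2 * n + 1) * l ^ (n - 2)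

def St_B34 : Prop := ∀ (M j : ℕ) (K : ℝ), 1 ≤ j → ∃ W1 : ℕ, ∀ W, W1 ≤ W → ∀ κ κ' c a0 a1,
  Per (2 * π) κ → Per (2 * π) κ' → Bk j κ → Bk j κ' → Ton M K W 1 c κ → Ton M K W a0 a1 κ' →
  Tst κ κ' c j W a0 a1

def St_JET2 : Prop :=
  (∀ (M : ℕ) (j η : ℝ), 0 < η → ∃ W1 : ℕ, ∀ W, W1 ≤ W → ∀ κ c, Per (2 * π) κ → Bk j κ → ‖c‖ ≤ 1 →
    Mk M W (env c) (fc κ) → ∀ s, |iteratedDeriv (2 * M + 4) κ s ^ 2 +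
      (iteratedDeriv (2 * M + 5) κ s / (W : ℝ) ^ 2) ^ 2 -
      4 * XX M W ^ 2 * ‖1 + c * exp (I * s)‖ ^ 2| ≤ η * XX M W ^ 2) ∧
  ∀ κ, Per (2 * π) κ → (∀ c ∈ ({0, 1, I} : Set ℂ), ∀ η > 0, ∃ (m : ℕ) (o X : ℝ), 1 ≤ m ∧ 0 < X ∧
    ∀ s, |iteratedDeriv m κ s ^ 2 + (iteratedDeriv (m + 1) κ s / o) ^ 2 -
      4 * X ^ 2 * ‖1 + c * exp (I * s)‖ ^ 2| ≤ η * X ^ 2) → G01 κ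

def St_BR : Prop :=
  (∀ κ, Per (2 * π) κ → IsOpen {c | ∀ t, κ t = c → deriv κ t ≠ 0} ∧
    Dense {c | ∀ t, κ t = c → deriv κ t ≠ 0} ∧ ∀ c, (∀ t, κ t = c → deriv κ t ≠ 0) →
      ∃ ε > 0, ∃ N s, Br κ (c - ε) (c + ε) N s) ∧
  ∀ κ κ', Per (2 * π) κ → Per (2 * π) κ' → Mom κ κ' →
    ∀ a b N N' s s', Br κ a b N s → Br κ' a b N' s' →
      ∀ x ∈ Ioo a b, ∑ i, sl κ (s i x) = ∑ k, sl κ' (s' k x)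

def St_S12 : Prop := ∀ κ κ', Per (2 * π) κ → Per (2 * π) κ' → Mom κ κ' → G01 κ →
  (∀ c ∈ ({0, 1, I} : Set ℂ), ∀ j0 : ℕ, ∃ j W a0 a1, j0 ≤ j ∧ Tst κ κ' c j W a0 a1) →
  ∃ σ s0 : ℝ, (σ = 1 ∨ σ = -1) ∧ ∀ s, κ' s = κ (σ * s + s0)

def St_SB : Prop := ∀ C : ℕ → ℝ, ∃ W0 : ℕ → ℕ → ℕ, ∀ κ κ', Per (2 * π) κ → Per (2 * π) κ' →
  InvA C (fc κ) (fc κ') → Gm W0 (fc κ) → Mom κ κ' →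
  ∃ σ s0 : ℝ, (σ = 1 ∨ σ = -1) ∧ ∀ s, κ' s = κ (σ * s + s0)

end Pool.Agent.Lib.IS2
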