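import Pool.Agent.Lib.IS2.Blue
import Pool.Agent.Lib.ISO.BlueE

/-! Statements of the blocks that use the operator library. -/

open scoped ContDiff ComplexConjugate Topology Real
open Complex MeasureTheory Set Filter

noncomputable section

namespace Pool.Agent.Lib.IS2

open Pool.Agent.Lib.ISO Pool.Agent.Lib.MP_312682_mp

/-- a domain bounded by one curve of length `2π` -/
def G1 (Ω : Set ℂ) (γ : ℝ → ℂ) (φ : ℂ → ℝ) : Prop :=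
  Geo Ω (fun _ : Fin 1 => γ) (fun _ => 2 * π) φ

def St_DIV : Prop := ∀ Ω γ φ, G1 Ω γ φ → ∃ η > 0, ∀ ρ, Sml η ρ → ∀ X : ℂ → ℂ, ContDiff ℝ 1 X →
  ∫ z in Sh Ω γ ρ, ((fderiv ℝ X z 1).re + (fderiv ℝ X z I).im) =
    ∫ s in (0 : ℝ)..(2 * π), rdot (X (cs γ ρ s)) (-nr (cs γ ρ) s)

def St_B0 : Prop := ∀ Ω γ φ, G1 Ω γ φ → ∃ η, Dg Ω γ η

def St_NCE : Prop := ∀ Ω γ φ, G1 Ω γ φ → Per (2 * π) (kp γ) ∧ ∃ j0, ∀ j, j0 ≤ j → Nc j γ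

def St_HSQ1 : Prop := ∀ μ γ Ω, Pot μ γ Ω → ∀ f : ℂ → ℝ, ContDiff ℝ ∞ f → HasCompactSupport f →
  tsupport f ⊆ Ω → GO μ Ω (tl vol fun z => (!₂[(f z : ℂ), 0, 0] : E3)) = tl vol fun x =>
    (!₂[((Ω.indicator (fun x => μ ^ 2 * ∫ y in Ω, Rg μ γ Ω x y * f y) x : ℝ) : ℂ), 0, 0] : E3)

def St_HSQ : Prop := ∀ μ γ Ω, Pot μ γ Ω → hsq (GO μ Ω) = μ ^ 4 * RR μ μ γ Ω

def St_SCA : Prop := ∀ (c : ℝ) (Ω : Set ℂ), 0 < c →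
  (Defs.SmoothDomain Ω → Defs.SmoothDomain ((fun z : ℂ => (c : ℂ) * z) '' Ω)) ∧
  frontier ((fun z : ℂ => (c : ℂ) * z) '' Ω) = (fun z : ℂ => (c : ℂ) * z) '' frontier Ω ∧
  (∀ n, Defs.dirEig ((fun z : ℂ => (c : ℂ) * z) '' Ω) n = ENNReal.ofReal (c ^ 2)⁻¹ * Defs.dirEig Ω n) ∧
  ∀ f ∈ Jordan, ∃ g ∈ Jordan, kf g = kf f ∧
    (∀ t, UniformFun.toFun (g 0) t = c * UniformFun.toFun (f 0) t) ∧
    ‖UniformFun.toFun (g 1) 0‖ = c * ‖UniformFun.toFun (f 1) 0‖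

/-- an isospectral mate of a Jordan domain is a Jordan domain with the same invariants -/
def St_ONE : Prop := ∃ C : ℕ → ℝ, ∀ Ω Ω' γ φ, G1 Ω γ φ → Defs.SmoothDomain Ω →
  Defs.SmoothDomain Ω' → (∀ n, Defs.dirEig Ω n = Defs.dirEig Ω' n) →
  ∃ γ' φ', G1 Ω' γ' φ' ∧ volume.real Ω = volume.real Ω' ∧
    (∀ μ : ℝ, 1 ≤ μ → hsq (GO μ Ω) = hsq (GO μ Ω')) ∧ InvA C (fc (kp γ)) (fc (kp γ'))

def St_T2 : Prop := ∃ G : Set Jordan, IsGδ G ∧ Dense G ∧ ∀ f ∈ G, ∀ Ω Ω' : Set ℂ,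
  Defs.SmoothDomain Ω → Defs.SmoothDomain Ω' → frontier Ω = range (UniformFun.toFun (f.1 0)) →
  (∀ n, Defs.dirEig Ω n = Defs.dirEig Ω' n) → ∃ e : ℂ ≃ᵢ ℂ, e '' Ω = Ω'

end Pool.Agent.Lib.IS2
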