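import Pool.Agent.Lib.ISO.BlueK

/-! Definitions: Bessel kernels, boundary chains, layer potentials, models, branches. -/

open scoped ContDiff ComplexConjugate Topology Real
open Complex MeasureTheory Set Filter

noncomputable section

namespace Pool.Agent.Lib.IS2

open Pool.Agent.Lib.ISO

/-! ## Special functions -/

/-- the Macdonald function of order zero -/
def K0 (z : ℂ) : ℂ := exp (-z) * ∫ u in Ioi (0 : ℝ),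
  ((Real.exp (-u) * u ^ (-(1 / 2) : ℝ) : ℝ) : ℂ) * ((u : ℂ) + 2 * z) ^ (-(1 / 2) : ℂ)
/-- `z K₁(z)` -/
def L1 (z : ℂ) : ℂ := exp (-z) * ∫ u in Ioi (0 : ℝ),
  ((Real.exp (-u) * u ^ (1 / 2 : ℝ) : ℝ) : ℂ) * ((u : ℂ) + 2 * z) ^ (1 / 2 : ℂ)
def Sec (z : ℂ) : Prop := z ≠ 0 ∧ -(‖z‖ / 2) ≤ z.re
def k0 (x : ℝ) : ℝ := (K0 x).re
def l1 (x : ℝ) : ℝ := (L1 x).re

/-! ## Curves -/

/-- distance on the circle of length `2π` -/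
def dc (s t : ℝ) : ℝ := ‖((s - t : ℝ) : AddCircle (2 * π))‖
def kp (γ : ℝ → ℂ) (s : ℝ) : ℝ := (deriv (deriv γ) s * conj (deriv γ s)).im
def Bk (j : ℝ) (κ : ℝ → ℝ) : Prop := ∀ i ≤ 4, ∀ s, |iteratedDeriv i κ s| ≤ j

/-- unit speed curve of length `2π` with bounded geometry -/
structure Nc (j : ℝ) (γ : ℝ → ℂ) : Prop where
  one_le : 1 ≤ j
  smooth : ContDiff ℝ ∞ γ
  per : Function.Periodic γ (2 * π)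
  unit : ∀ s, ‖deriv γ s‖ = 1
  bd : ∀ k, 1 ≤ k → k ≤ 6 → ∀ s, ‖iteratedDeriv k γ s‖ ≤ j
  arc : ∀ s t, dc s t ≤ j * ‖γ s - γ t‖
  kb : Bk j (kp γ)

def c0 (γ : ℝ → ℂ) (s t : ℝ) : ℝ := ‖γ s - γ t‖
def rdot (u v : ℂ) : ℝ := (u * conj v).re
/-- inward normal -/
def nr (γ : ℝ → ℂ) (s : ℝ) : ℂ := I * deriv γ s

/-! ## Complexified curves and chains -/

abbrev C2 := ℂ × ℂ
def cp (γ : ℝ → ℂ) (s : ℝ) : C2 := (γ s, conj (γ s))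
def dot (u v : C2) : ℂ := (u.1 * v.2 + u.2 * v.1) / 2
def pn (P : ℝ → C2) (s : ℝ) : C2 := (-I * (deriv P s).1, I * (deriv P s).2)
def pD (P : ℝ → C2) (s t : ℝ) : C2 := P t - P s
def pc (P : ℝ → C2) (s t : ℝ) : ℂ := dot (pD P s t) (pD P s t) ^ (1 / 2 : ℂ)
def pS (μ : ℂ) (P : ℝ → C2) (s t : ℝ) : ℂ := K0 (μ * pc P s t) / (2 * π)
def pK (μ : ℂ) (P : ℝ → C2) (s t : ℝ) : ℂ :=
  L1 (μ * pc P s t) * dot (pn P t) (pD P s t) / (2 * π * dot (pD P s t) (pD P s t))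
def pKd (μ : ℂ) (P : ℝ → C2) (s t : ℝ) : ℂ :=
  -(K0 (μ * pc P s t) * dot (pn P t) (pD P s t)) / (4 * π)
def pNd (μ : ℂ) (P : ℝ → C2) (s t : ℝ) : ℂ :=
  -(K0 (μ * pc P s t) * dot (pn P s) (pn P t)) / (4 * π) +
    L1 (μ * pc P s t) * dot (pn P s) (pD P s t) * dot (pn P t) (pD P s t) /
      (4 * π * dot (pD P s t) (pD P s t))

/-- the integrand of the chain with `n + 2` vertices -/
def In (μ : ℂ) (P : ℝ → C2) (n : ℕ) (v : Fin (n + 2) → ℝ) : ℂ :=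
  (∏ i : Fin n, pK μ P (v i.castSucc.castSucc) (v i.succ.castSucc)) *
    (pS μ P (v (Fin.last n).castSucc) (v (Fin.last (n + 1))) * pNd μ P (v (Fin.last (n + 1))) (v 0) -
      2 * pK μ P (v (Fin.last n).castSucc) (v (Fin.last (n + 1))) *
        pKd μ P (v (Fin.last (n + 1))) (v 0))
def box (n : ℕ) : Measure (Fin n → ℝ) := Measure.pi fun _ => volume.restrict (Ioc 0 (2 * π))
def Tn (wt : ∀ n, (Fin n → ℝ) → ℂ) (μ : ℂ) (P : ℝ → C2) (n : ℕ) : ℂ :=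
  ∫ v, wt (n + 2) v * In μ P n v ∂box (n + 2)
/-- the regularised trace of the resolvent -/
def TT (μ : ℂ) (P : ℝ → C2) : ℂ := ∑' n, 2 * (-2) ^ n * Tn (fun _ _ => 1) μ P n
/-- consecutive vertices are different points of the curve -/
def Gv (γ : ℝ → ℂ) {n : ℕ} (v : Fin (n + 2) → ℝ) : Prop := ∀ i, γ (v i) ≠ γ (v (i + 1))
def ell (γ : ℝ → ℂ) {n : ℕ} (v : Fin (n + 2) → ℝ) : ℝ := ∑ i, c0 γ (v i) (v (i + 1))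
def elc (P : ℝ → C2) {n : ℕ} (v : Fin (n + 2) → ℝ) : ℂ := ∑ i, pc P (v i) (v (i + 1))
/-- majorant of the chain without the exponential -/
def Mj (o : ℝ) (γ : ℝ → ℂ) (n : ℕ) (v : Fin (n + 2) → ℝ) : ℝ :=
  (∏ i : Fin n, (1 + √(o * c0 γ (v i.castSucc.castSucc) (v i.succ.castSucc)))) *
    (√o * c0 γ (v (Fin.last n).castSucc) (v (Fin.last (n + 1))) ^ (-(1 / 4) : ℝ) *
      c0 γ (v (Fin.last (n + 1))) (v 0) ^ (-(1 / 4) : ℝ) +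
      (1 + √(o * c0 γ (v (Fin.last n).castSucc) (v (Fin.last (n + 1))))))
/-- bounded measurable periodic weight -/
def Wt (wt : ∀ n, (Fin n → ℝ) → ℂ) : Prop := ∀ n, Measurable (wt n) ∧ (∀ v, ‖wt n v‖ ≤ 1) ∧
  ∀ v (k : Fin n → ℤ), wt n (fun i => v i + k i * (2 * π)) = wt n v

/-- smooth periodic pairs -/
def SP : Submodule ℂ (ℝ → C2) where
  carrier := {P | ContDiff ℝ ∞ P ∧ Function.Periodic P (2 * π)}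
  add_mem' ha hb := ⟨ha.1.add hb.1, ha.2.add hb.2⟩
  zero_mem' := ⟨contDiff_const, fun _ => rfl⟩
  smul_mem' c _ h := ⟨h.1.const_smul c, h.2.smul c⟩
def nm (Q : ℝ → C2) : ℝ := ⨆ s, (‖Q s‖ + ‖deriv Q s‖ + ‖deriv (deriv Q) s‖)

structure Adm (j B : ℝ) (γ : ℝ → ℂ) (ϖ : ℝ) (P : ℝ → C2) : Prop where
  sp : P ∈ SP
  a0 : ∀ s, ‖P s - cp γ s‖ ≤ ϖ
  a1 : ∀ s, ‖deriv P s - deriv (cp γ) s‖ ≤ (40 * j)⁻¹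
  a2 : ∀ s, ‖deriv (deriv P) s‖ ≤ B

def Sm (μ : ℂ) : Prop := 1 ≤ ‖μ‖ ∧ -(‖μ‖ / 4) ≤ μ.re

/-- normal and tangential legs -/
def nl (γ : ℝ → ℂ) (ρ : ℝ → ℝ) : ℝ → C2 := cp fun s => ρ s * nr γ s
def tg (γ : ℝ → ℂ) (τ : ℝ → ℝ) : ℝ → C2 := cp fun s => τ s * deriv γ s

/-! ## Parameters and the test functional -/

def om (q : ℕ) (h : ℝ) : ℝ := h ^ (3 * q)
def Tt (q : ℕ) (h : ℝ) : ℝ := (h ^ (q + 2))⁻¹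
def ww (q : ℕ) (h : ℝ) : ℝ := Tt q h / h ^ 2
def gg (q : ℕ) (h : ℝ) : ℝ := h ^ 2 / Tt q h
def YY (q : ℕ) (h : ℝ) : ℝ := h ^ 4 / Tt q h
def vt (q : ℕ) (h : ℝ) : ℝ := h / (om q h * Tt q h)
def DD (q : ℕ) (h : ℝ) : Set ℂ := {μ | (2 * Tt q h)⁻¹ < μ.re ∧ ‖μ‖ < om q h}
def mu (q : ℕ) (h y : ℝ) : ℂ := ((Tt q h)⁻¹ : ℝ) + I * (om q h / 2 + y : ℝ)
def ze (q : ℕ) (h : ℝ) (μ : ℂ) : ℂ := μ - I * (om q h / 2 : ℝ)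
def Gs (q : ℕ) (h : ℝ) (μ : ℂ) : ℂ := exp (ze q h μ * Tt q h + ze q h μ ^ 2 * (ww q h) ^ 2 / 2)
def Gs' (q : ℕ) (h : ℝ) (μ : ℂ) : ℂ := (Tt q h + ze q h μ * (ww q h) ^ 2) * Gs q h μ
def FF (q : ℕ) (h : ℝ) (f : ℂ → ℂ) : ℂ :=
  ∫ y in (-YY q h)..YY q h, 2 * mu q h y * Gs q h (mu q h y) * f (mu q h y)
def FT (q : ℕ) (h : ℝ) (P : ℝ → C2) : ℂ := FF q h fun μ => TT μ P
def Rect (q : ℕ) (h : ℝ) : Set ℂ := {μ | |μ.re| ≤ gg q h ∧ |μ.im - om q h / 2| ≤ YY q h}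

/-! ## Gateaux derivatives -/

section
variable {E : Type} [AddCommGroup E] [Module ℂ E]
def D1 (f : E → ℂ) (x y : E) : ℂ := deriv (fun ε : ℂ => f (x + ε • y)) 0
def D2 (f : E → ℂ) (x y z : E) : ℂ := deriv (fun ε : ℂ => D1 f (x + ε • z) y) 0
def mx (f : E → ℂ) (x y z : E) : ℂ := f (x + y + z) - f (x + y) - f (x + z) + f x
structure Sn (S : Submodule ℂ E) (p : E → ℝ) : Prop where
  nn : ∀ x ∈ S, 0 ≤ p x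
  add : ∀ x ∈ S, ∀ y ∈ S, p (x + y) ≤ p x + p y
  smul : ∀ (c : ℂ), ∀ x ∈ S, p (c • x) ≤ ‖c‖ * p x
/-- bounded and holomorphic on lines in the ball of radius `r` about `x0` -/
structure LH (S : Submodule ℂ E) (p : E → ℝ) (f : E → ℂ) (x0 : E) (r M : ℝ) : Prop where
  hol : ∀ x ∈ S, ∀ y ∈ S, DifferentiableOn ℂ (fun ε : ℂ => f (x0 + x + ε • y)) {ε | p (x + ε • y) < r}
  bd : ∀ x ∈ S, p x < r → ‖f (x0 + x)‖ ≤ M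
end

/-! ## Entire pairs and deformations -/

structure Str (B y η : ℝ) (P : ℂ → C2) : Prop where
  hol : Differentiable ℂ P
  per : ∀ v, P (v + 2 * π) = P v
  s1 : ∀ v : ℂ, |v.im| ≤ y → ‖deriv P v‖ ≤ 2
  s2 : ∀ v : ℂ, |v.im| ≤ y → ‖deriv (deriv P) v‖ ≤ B
  s3 : ∀ v : ℂ, |v.im| ≤ y → ‖(deriv P v).1 * (deriv P v).2 - 1‖ ≤ η
def rs (P : ℂ → C2) (s : ℝ) : C2 := P s
def Pz (P : ℂ → C2) (p : ℝ → C2) (b : ℝ → ℝ) (ζ : ℂ) (s : ℝ) : C2 := P (s + ζ * b s) + p s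
/-- the profile of the deformation -/
structure Bf (C e1 e2 α : ℝ) (b : ℝ → ℝ) : Prop where
  per : Per (2 * π) b
  zero : ∀ s, dc s α ≤ e1 → b s = 0
  mono : ∀ s, |s - α| ≤ e2 → 0 ≤ deriv b s
  one : ∀ s, 3 / 2 * e1 ≤ |s - α| → |s - α| ≤ e2 → deriv b s = 1
  b0 : ∀ s, |b s| ≤ 2 * e2
  b1 : ∀ s, |deriv b s| ≤ C
  b2 : ∀ s, |deriv (deriv b) s| ≤ C / e1
def Gain (q : ℕ) (h C α : ℝ) (P : ℝ → C2) : Prop := ∀ s t, |s - α| ≤ 20 * Tt q h →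
  |t - α| ≤ 20 * Tt q h → vt q h * |t - s| - C / om q h ≤ -(pc P s t).im
/-- partition of unity at scale `e` -/
structure Pu (C e : ℝ) (K : ℕ) (α : Fin K → ℝ) (φ : Fin K → ℝ → ℝ) : Prop where
  card : (K : ℝ) ≤ C / e
  per : ∀ k, Per (2 * π) (φ k)
  nn : ∀ k s, 0 ≤ φ k s
  sum : ∀ s, ∑ k, φ k s = 1
  supp : ∀ k s, e ≤ dc s (α k) → φ k s = 0
  b1 : ∀ k s, |deriv (φ k) s| ≤ C / e
  b2 : ∀ k s, |deriv (deriv (φ k)) s| ≤ C / e ^ 2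

def fcc (f : ℝ → ℂ) (ξ : ℤ) : ℂ := (2 * π : ℂ)⁻¹ * ∫ s in (0 : ℝ)..(2 * π), f s * exp (-(I * ξ * s))
/-- low pass of the curve, continued to the complex plane -/
def lo (Ξ : ℕ) (γ : ℝ → ℂ) (v : ℂ) : C2 :=
  (∑ ξ ∈ Finset.Icc (-(Ξ : ℤ)) Ξ, fcc γ ξ * exp (I * ξ * v),
    ∑ ξ ∈ Finset.Icc (-(Ξ : ℤ)) Ξ, conj (fcc γ (-ξ)) * exp (I * ξ * v))
def Zc (Ξ : ℕ) (γ : ℝ → ℂ) (s : ℝ) : ℂ := γ s - (lo Ξ γ s).1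
def Xi (q : ℕ) (h : ℝ) : ℕ := ⌊om q h / h ^ 2⌋₊
def rho (q : ℕ) (h : ℝ) (γ : ℝ → ℂ) (s : ℝ) : ℝ := rdot (Zc (Xi q h) γ s) (nr γ s)

/-! ## Tones -/

def XX (M W : ℕ) : ℝ := amp M W * ((W : ℝ) ^ 2) ^ (2 * M + 4)
def lam (M W : ℕ) : ℝ := (W : ℝ) ^ (((2 * M + 6 : ℕ) : ℝ) / ((2 * M + 1 : ℕ) : ℝ))
def tn (M W : ℕ) (a0 a1 : ℂ) (s : ℝ) : ℝ :=
  2 * amp M W * ((a0 + a1 * exp (I * s)) * exp (I * (W : ℂ) ^ 2 * s)).re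
structure Ton (M : ℕ) (K : ℝ) (W : ℕ) (a0 a1 : ℂ) (κ : ℝ → ℝ) : Prop where
  l2 : ∫ s in (0 : ℝ)..(2 * π), (iteratedDeriv (2 * M + 4) κ s -
    (-1) ^ M * ((W : ℝ) ^ 2) ^ (2 * M + 4) * tn M W a0 a1 s) ^ 2 ≤ K * XX M W ^ 2 / W
  sup : ∀ a ≤ 2 * M + 3, ∀ s, |iteratedDeriv a κ s| ≤ K * lam M W ^ (a - 2)
  b0 : ‖a0‖ ≤ 2
  b1 : ‖a1‖ ≤ 2
def env (c : ℂ) (t : ℤ) : ℂ := if t = 0 then 1 else if t = 1 then c else 0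
def InvA (C : ℕ → ℝ) (z z' : ℤ → ℂ) : Prop := ∀ B, 1 ≤ B → An z ≤ B → An z' ≤ B → Inv C B z z'

/-! ## Kernels on a real curve -/

open Classical in
/-- `n_t · (γ t - γ s) / |γ t - γ s|²`, extended to the diagonal -/
def qq (γ : ℝ → ℂ) (s t : ℝ) : ℝ :=
  if γ s = γ t then rdot (nr γ t) (deriv (deriv γ) t) / (2 * ‖deriv γ t‖ ^ 2)
  else rdot (-nr γ t) (γ t - γ s) / ‖γ t - γ s‖ ^ 2
def q1 (γ : ℝ → ℂ) (v u : ℝ) : ℝ := deriv (fun v => qq γ v u) v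
def q2 (γ : ℝ → ℂ) (v u : ℝ) : ℝ := deriv (fun v => q1 γ v u) v
def ee (γ : ℝ → ℂ) (v u : ℝ) : ℝ := -rdot (deriv γ v) (γ u - γ v)
def e1v (γ : ℝ → ℂ) (v u : ℝ) : ℝ := 1 - rdot (deriv (deriv γ) v) (γ u - γ v)

section
variable (μ : ℂ) (γ : ℝ → ℂ)
def fS (s t : ℝ) : ℂ := K0 (μ * c0 γ s t) / (2 * π)
def fK (s t : ℝ) : ℂ := L1 (μ * c0 γ s t) * qq γ s t / (2 * π)
def fKn (v u : ℝ) : ℂ :=
  (-(μ ^ 2 * K0 (μ * c0 γ v u) * ee γ v u * qq γ v u) + L1 (μ * c0 γ v u) * q1 γ v u) / (2 * π)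
def fKb (v u : ℝ) : ℂ :=
  (-(μ ^ 2 * L1 (μ * c0 γ v u) * (qq γ v u * rdot (nr γ v) (γ u - γ v) ^ 2 / c0 γ v u ^ 2 : ℝ)) -
    μ ^ 2 * K0 (μ * c0 γ v u) * (e1v γ v u * qq γ v u + 2 * ee γ v u * q1 γ v u : ℝ) +
    L1 (μ * c0 γ v u) * q2 γ v u) / (2 * π)
def fSb (s t : ℝ) : ℂ := μ ^ 2 * (1 - rdot (nr γ s) (nr γ t) : ℝ) * fS μ γ s t
def fS1 (t v : ℝ) : ℂ :=
  -(L1 (μ * c0 γ t v) * (rdot (deriv γ t - deriv γ v) (γ t - γ v) / c0 γ t v ^ 2 : ℝ)) / (2 * π)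
def fNn (t s : ℝ) : ℂ :=
  (-((μ ^ 2 * K0 (μ * c0 γ t s) + 2 * L1 (μ * c0 γ t s) / (c0 γ t s : ℂ) ^ 2) *
      (rdot (nr γ t) (γ s - γ t) * rdot (nr γ s) (γ s - γ t) : ℝ)) +
    L1 (μ * c0 γ t s) * rdot (nr γ t) (nr γ s)) / (2 * π * (c0 γ t s : ℂ) ^ 2)
def ro : ℕ → ℝ → ℝ → ℂ
  | 0 => fun t u => ∫ v in (0 : ℝ)..(2 * π),
      (fS μ γ t v * fKb μ γ v u + fSb μ γ t v * fK μ γ v u + fS1 μ γ t v * fKn μ γ v u)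
  | n + 1 => fun t u => ∫ v in (0 : ℝ)..(2 * π), ro n t v * fK μ γ v u
/-- the kernel of the Dirichlet to Neumann map off the diagonal -/
def NN (t s : ℝ) : ℂ := 2 * fNn μ γ t s + ∑' n, 2 * (-2) ^ (n + 1) * ro μ γ n t s
end

theorem ro.rlz : True := by
  have := @ro.eq_def
  trivial

def PsN (γ : ℝ → ℂ) (w : ℝ → ℝ → ℝ) (μ : ℂ) : ℂ :=
  ∫ s in (0 : ℝ)..(2 * π), ∫ t in (0 : ℝ)..(2 * π), (w s t : ℂ) * NN μ γ s t ^ 2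
/-- the supports are at distance at least `e` -/
def Sep {A B : Type} [Zero A] [Zero B] (e : ℝ) (f : ℝ → A) (g : ℝ → B) : Prop :=
  ∀ s t, f s ≠ 0 → g t ≠ 0 → e ≤ dc s t
structure Wf (q : ℕ) (h : ℝ) (w : ℝ → ℝ → ℝ) : Prop where
  cont : Continuous (Function.uncurry w)
  p1 : ∀ s t, w (s + 2 * π) t = w s t
  p2 : ∀ s t, w s (t + 2 * π) = w s t
  nn : ∀ s t, 0 ≤ w s t
  le : ∀ s t, w s t ≤ 1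
  zero : ∀ s t, dc s t ≤ Tt q h / (2 * h) → w s t = 0
  one : ∀ s t, 2 * Tt q h / h ≤ dc s t → w s t = 1

/-! ## Models -/

def sj (j : ℕ) : ℝ := (∏ i ∈ Finset.range (3 * j), ((i : ℝ) + 1 / 2)) / (12 ^ j * j.factorial)
def sP : PowerSeries ℝ := PowerSeries.mk fun p => if Even p then sj (p / 2) else 0
def sA : PowerSeries ℝ := PowerSeries.mk fun p =>
  if Even p then 0 else (3 * (p / 2 : ℕ) + 1 / 2) * sj (p / 2) / 4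
def sB : PowerSeries ℝ := PowerSeries.mk fun p => if Even p ∧ 2 ≤ p then
  (3 * (p / 2 - 1 : ℕ) + 1 / 2) * (3 * (p / 2 - 1 : ℕ) + 3 / 2) * sj (p / 2 - 1) else 0
def sN0 : PowerSeries ℝ := PowerSeries.C (-(1 / 2) : ℝ) * sP + PowerSeries.C (1 / 4 : ℝ) * sB
def sN : PowerSeries ℝ := sN0 * (PowerSeries.C (1 / 2 : ℝ) + sA)⁻¹
def rt (μ : ℂ) : ℂ := μ ^ (1 / 2 : ℂ)
def eb (μ : ℂ) (b d : ℝ) : ℂ := exp (-(μ * |d|)) * (|d| ^ (b - 1) / Real.Gamma b : ℝ)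
def md (μ : ℂ) (k b : ℝ) (F : PowerSeries ℝ) (p1 : ℕ) (d : ℝ) : ℂ := ∑ p ∈ Finset.range (p1 + 1),
  (PowerSeries.coeff p F : ℝ) * (k * rt μ / √2) ^ p * eb μ (b + 3 * p / 2) d
def eps (p1 : ℕ) (h : ℝ) : ℝ := (h ^ (3 * (p1 + 1)))⁻¹
/-- `√omega T^{-3/2}` -/
def N0 (q : ℕ) (h : ℝ) : ℝ := √(om q h) / (Tt q h * √(Tt q h))
def Nm (μ : ℂ) (k : ℝ) (F : PowerSeries ℝ) (p1 : ℕ) (d : ℝ) : ℂ :=
  √2 * rt μ * md μ k (-(1 / 2)) F p1 d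
def Mp (q : ℕ) (h : ℝ) (p : ℕ) (d : ℝ) : ℂ := ∫ y in (-YY q h)..YY q h,
  Gs' q h (mu q h y) * (mu q h y * rt (mu q h y) ^ p) * exp (-(2 * mu q h y * d))
def ga (q : ℕ) (h d : ℝ) : ℝ :=
  2 * d * √(2 * π) / ww q h * Real.exp (-((Tt q h - 2 * d) ^ 2 / (2 * ww q h ^ 2)))
def g0 (q : ℕ) (h : ℝ) (p : ℕ) (d : ℝ) : ℝ := d ^ (3 * (p : ℝ) / 2 - 3) * ga q h d
def jp (q : ℕ) (h : ℝ) (p : ℕ) : ℝ := ∫ d in (2 * Tt q h / h)..π, g0 q h p d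
/-- the scale of the signal -/
def La (M W q : ℕ) (h : ℝ) : ℝ := amp M W ^ 2 / om q h ^ 4 * (om q h / Tt q h ^ 2)

/-! ## Potential theory for real `μ` -/

def lap (u : ℂ → ℝ) (x : ℂ) : ℝ :=
  fderiv ℝ (fun z => fderiv ℝ u z 1) x 1 + fderiv ℝ (fun z => fderiv ℝ u z I) x I
def Har (μ : ℝ) (U : Set ℂ) (u : ℂ → ℝ) : Prop := ContDiffOn ℝ 2 u U ∧ ∀ x ∈ U, lap u x = μ ^ 2 * u x
def CP (φ : ℝ → ℝ) : Prop := Continuous φ ∧ Function.Periodic φ (2 * π)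

/-- a domain bounded by one regular curve, with the divergence theorem -/
structure CD (Ω : Set ℂ) (γ : ℝ → ℂ) : Prop where
  opn : IsOpen Ω
  bdd : Bornology.IsBounded Ω
  smooth : ContDiff ℝ ∞ γ
  per : Function.Periodic γ (2 * π)
  reg : ∀ s, deriv γ s ≠ 0
  inj : ∀ s t, γ s = γ t → ∃ k : ℤ, t = s + k * (2 * π)
  fr : frontier Ω = range γ
  side : ∀ s, ∃ δ > 0, ∀ r : ℝ, 0 < r → r < δ → γ s + r * nr γ s ∈ Ω ∧ γ s - r * nr γ s ∉ closure Ω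
  div : ∀ X : ℂ → ℂ, ContDiff ℝ 1 X → ∫ z in Ω, ((fderiv ℝ X z 1).re + (fderiv ℝ X z I).im) =
    ∫ s in (0 : ℝ)..(2 * π), rdot (X (γ s)) (-nr γ s)

section
variable (μ : ℝ) (γ : ℝ → ℂ)
def Gr (z : ℂ) : ℝ := k0 (μ * ‖z‖) / (2 * π)
def DLk (x : ℂ) (t : ℝ) : ℝ :=
  l1 (μ * ‖γ t - x‖) * rdot (-nr γ t) (γ t - x) / (2 * π * ‖γ t - x‖ ^ 2)
def Kr (s t : ℝ) : ℝ := l1 (μ * c0 γ s t) * qq γ s t / (2 * π)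
def Sr (s t : ℝ) : ℝ := Gr μ (γ s - γ t)
def Kdr (s t : ℝ) : ℝ := -(k0 (μ * c0 γ s t) * rdot (-nr γ t) (γ t - γ s)) / (4 * π)
def Ndr (s t : ℝ) : ℝ := -(k0 (μ * c0 γ s t) * rdot (nr γ s) (nr γ t)) / (4 * π) +
  l1 (μ * c0 γ s t) * rdot (nr γ s) (γ t - γ s) * rdot (nr γ t) (γ t - γ s) / (4 * π * c0 γ s t ^ 2)
/-- `K^(n+1)` -/
def Kp : ℕ → ℝ → ℝ → ℝ
  | 0 => Kr μ γ
  | n + 1 => fun s t => ∫ u in (0 : ℝ)..(2 * π), Kp n s u * Kr μ γ u t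
def Ph (s t : ℝ) : ℝ := ∑' n, 2 * (-2) ^ (n + 1) * Kp μ γ n s t
def Lm (t s : ℝ) : ℝ :=
  ∫ u in (0 : ℝ)..(2 * π), (Sr μ γ t u * Ndr μ γ u s - 2 * Kr μ γ t u * Kdr μ γ u s)
def Hop (φ : ℝ → ℝ) (s : ℝ) : ℝ := 2 * φ s + ∫ t in (0 : ℝ)..(2 * π), Ph μ γ s t * φ t
def DLo (φ : ℝ → ℝ) (x : ℂ) : ℝ := ∫ t in (0 : ℝ)..(2 * π), DLk μ γ x t * φ t
def SLo (φ : ℝ → ℝ) (x : ℂ) : ℝ := ∫ t in (0 : ℝ)..(2 * π), Gr μ (x - γ t) * φ t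
/-- Poisson kernel -/
def ps (x : ℂ) (t : ℝ) : ℝ := 2 * DLk μ γ x t + ∫ u in (0 : ℝ)..(2 * π), DLk μ γ x u * Ph μ γ u t
variable (Ω : Set ℂ)
/-- solution of the Dirichlet problem, extended to the closure -/
def Ue (φ : ℝ → ℝ) : ℂ → ℝ := extendFrom Ω (DLo μ γ (Hop μ γ φ))
def hR (x y : ℂ) : ℝ := Ue μ γ Ω (fun t => Gr μ (γ t - y)) x
/-- Green function -/
def Rg (x y : ℂ) : ℝ := Gr μ (x - y) - hR μ γ Ω x y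
def TB : ℝ := -∫ x in Ω, hR μ γ Ω x x
def QI (s t : ℝ) : ℝ := ∫ x in Ω, ps μ γ x s * ps μ γ x t
end

theorem Kp.rlz : True := by
  have := @Kp.eq_def
  trivial

def Vp (μ : ℝ) (F : ℂ → ℝ) (x : ℂ) : ℝ := ∫ z, Gr μ (x - z) * F z
def RR (μ μ' : ℝ) (γ : ℝ → ℂ) (Ω : Set ℂ) : ℝ := ∫ x in Ω, ∫ y in Ω, Rg μ γ Ω x y * Rg μ' γ Ω x y

structure Pot (μ : ℝ) (γ : ℝ → ℂ) (Ω : Set ℂ) : Prop where
  cd : CD Ω γ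
  pos : 0 < μ
  row : ∀ s, ∫ t in (0 : ℝ)..(2 * π), |Kr μ γ s t| ≤ 1 / 4
  col : ∀ t, ∫ s in (0 : ℝ)..(2 * π), |Kr μ γ s t| ≤ 1 / 4

/-- the domain with the boundary pushed in by `ρ` -/
def Sh (Ω : Set ℂ) (γ : ℝ → ℂ) (ρ : ℝ → ℝ) : Set ℂ :=
  Ω \ {z | ∃ s r : ℝ, 0 ≤ r ∧ r ≤ ρ s ∧ z = γ s + r * nr γ s}
def cs (γ : ℝ → ℂ) (ρ : ℝ → ℝ) (s : ℝ) : ℂ := γ s + ρ s * nr γ s
def Sml (η : ℝ) (ρ : ℝ → ℝ) : Prop :=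
  Per (2 * π) ρ ∧ ∀ s, 0 ≤ ρ s ∧ ρ s ≤ η ∧ |deriv ρ s| ≤ η
structure Dg (Ω : Set ℂ) (γ : ℝ → ℂ) (η : ℝ) : Prop where
  pos : 0 < η
  cd0 : CD Ω γ
  cd : ∀ ρ, Sml η ρ → CD (Sh Ω γ ρ) (cs γ ρ)
  mem : ∀ ρ, Sml η ρ → ∀ s r : ℝ, ρ s < r → r ≤ η → γ s + r * nr γ s ∈ Sh Ω γ ρ

/-! ## Branches of the curvature -/

structure Br (κ : ℝ → ℝ) (a b : ℝ) (N : ℕ) (s : Fin N → ℝ → ℝ) : Prop where
  lev : ∀ i, ∀ c ∈ Ioo a b, κ (s i c) = c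
  ne : ∀ i, ∀ c ∈ Ioo a b, deriv κ (s i c) ≠ 0
  der : ∀ i, ∀ c ∈ Ioo a b, HasDerivAt (s i) (deriv κ (s i c))⁻¹ c
  inj : ∀ i k, ∀ c ∈ Ioo a b, ∀ n : ℤ, s i c = s k c + n * (2 * π) → i = k
  all : ∀ c ∈ Ioo a b, ∀ t, κ t = c → ∃ i, ∃ n : ℤ, t = s i c + n * (2 * π)
def sl (κ : ℝ → ℝ) (t : ℝ) : ℝ := |deriv κ t|⁻¹
def En (κ : ℝ → ℝ) : ℕ → ℝ → ℝ
  | 0 => fun s => (deriv κ s)⁻¹
  | n + 1 => fun s => deriv (En κ n) s / deriv κ s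

theorem En.rlz : True := by
  have := @En.eq_def
  trivial

def res (W : ℕ) (a0 a1 : ℂ) (τ β s : ℝ) : ℂ :=
  if τ = 1 then (a0 + a1 * exp (I * (s + β : ℝ))) * exp (I * (W : ℂ) ^ 2 * β)
  else conj ((a0 + a1 * exp (I * (β - s : ℝ))) * exp (I * (W : ℂ) ^ 2 * β))
/-- the outcome of testing the branch identity against one branch -/
def Tst (κ κ' : ℝ → ℝ) (c : ℂ) (j W : ℕ) (a0 a1 : ℂ) : Prop :=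
  ∀ (a b c1 c2 : ℝ) (N N' : ℕ) (s : Fin N → ℝ → ℝ) (s' : Fin N' → ℝ → ℝ) (i0 : Fin N)
    (A : Finset (Fin N')) (τ β : Fin N' → ℝ), Br κ a b N s → Br κ' a b N' s' →
    (∀ x ∈ Ioo a b, ∑ i, sl κ (s i x) = ∑ k, sl κ' (s' k x)) → N ≤ j → N' ≤ j → a < c1 → c1 < c2 →
    c2 < b → (∀ x ∈ Icc c1 c2, (∀ i, sl κ (s i x) ≤ j) ∧ (∀ k, sl κ' (s' k x) ≤ j) ∧
      (∀ i ≠ i0, (j : ℝ)⁻¹ ≤ |sl κ (s i x) - sl κ (s i0 x)|) ∧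
      (∀ k ∉ A, (j : ℝ)⁻¹ ≤ |sl κ' (s' k x) - sl κ (s i0 x)|) ∧
      ∀ k ∈ A, (τ k = 1 ∨ τ k = -1) ∧ s' k x = τ k * s i0 x + β k) →
    ‖∫ x in c1..c2, (1 + c * exp (I * s i0 x) - ∑ k ∈ A, res W a0 a1 (τ k) (β k) (s i0 x))‖ ≤
      (j : ℝ)⁻¹
def G01 (κ : ℝ → ℝ) : Prop := (∀ c, {t ∈ Icc 0 (2 * π) | κ t = c}.Finite) ∧
  ∀ s t, (∀ n, 1 ≤ n → |iteratedDeriv n κ s| = |iteratedDeriv n κ t|) → ∃ k : ℤ, t = s + k * (2 * π)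
def Mom (κ κ' : ℝ → ℝ) : Prop :=
  ∀ p : ℕ, ∫ s in (0 : ℝ)..(2 * π), κ s ^ p = ∫ s in (0 : ℝ)..(2 * π), κ' s ^ p

end Pool.Agent.Lib.IS2
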