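import Pool.Agent.Lib.IS2.Blue

/-! Project is2: Taylor facts for the kernels `fKb` and `fNn` near the diagonal. -/

open scoped ContDiff ComplexConjugate Topology Real
open Complex MeasureTheory Set Filter

noncomputable section

namespace Pool.Agent.Lib.IS2.K26

/-- `x` and `y` are bounded and close. -/
def Ap (R : ℝ) (n : ℕ) (ε x y : ℝ) : Prop := |x - y| ≤ R ^ n * ε ∧ |x| ≤ R ^ n ∧ |y| ≤ R ^ n

variable {R ε x y x' y' : ℝ} {m n : ℕ}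

theorem Ap.mul (hR : 2 ≤ R) (h : Ap R m ε x y) (h' : Ap R n ε x' y') :
    Ap R (m + n + 1) ε (x * x') (y * y') := by
  have h0 : 0 ≤ R ^ m := (abs_nonneg _).trans h.2.1
  have h1 : 0 ≤ R ^ n := (abs_nonneg _).trans h'.2.1
  have h2 : 0 ≤ R ^ m * ε := (abs_nonneg _).trans h.1
  have h3 : ∀ s t : ℝ, |s| ≤ R ^ m → |t| ≤ R ^ n → |s * t| ≤ R ^ (m + n + 1) := fun s t a b => by
    rw [abs_mul, pow_succ, pow_add]
    nlinarith [mul_le_mul a b (abs_nonneg _) h0, mul_nonneg h0 h1]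
  refine ⟨?_, h3 _ _ h.2.1 h'.2.1, h3 _ _ h.2.2 h'.2.2⟩
  rw [show x * x' - y * y' = x * (x' - y') + (x - y) * y' by ring, pow_succ, pow_add]
  refine (abs_add_le _ _).trans ?_
  rw [abs_mul, abs_mul]
  nlinarith [mul_le_mul h.2.1 h'.1 (abs_nonneg _) h0, mul_le_mul h.1 h'.2.2 (abs_nonneg _) h2,
    mul_nonneg h2 h1]

theorem Ap.mono (hR : 2 ≤ R) (hε : 0 ≤ ε) (h : Ap R m ε x y) (hn : m ≤ n) : Ap R n ε x y := by
  have h0 : R ^ m ≤ R ^ n := pow_le_pow_right₀ (by linarith) hn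
  exact ⟨h.1.trans (mul_le_mul_of_nonneg_right h0 hε), h.2.1.trans h0, h.2.2.trans h0⟩

theorem Ap.add (hR : 2 ≤ R) (h : Ap R n ε x y) (h' : Ap R n ε x' y') :
    Ap R (n + 1) ε (x + x') (y + y') := by
  have h1 : 0 ≤ R ^ n := (abs_nonneg _).trans h'.2.1
  have h2 : 0 ≤ R ^ n * ε := (abs_nonneg _).trans h.1
  rw [Ap, pow_succ, show x + x' - (y + y') = x - y + (x' - y') by ring]
  exact ⟨by nlinarith [abs_add_le (x - y) (x' - y'), h.1, h'.1],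
    by nlinarith [abs_add_le x x', h.2.1, h'.2.1], by nlinarith [abs_add_le y y', h.2.2, h'.2.2]⟩

theorem ap_one (h1 : |x - y| ≤ R * ε) (h2 : |x| ≤ R) (h3 : |y| ≤ R) : Ap R 1 ε x y := by
  rw [Ap, pow_one]
  exact ⟨h1, h2, h3⟩

theorem rdot_le (z w : ℂ) : |rdot z w| ≤ ‖z‖ * ‖w‖ :=
  (abs_re_le_norm _).trans_eq (by rw [norm_mul, norm_conj])

theorem kp_lip {j : ℝ} {γ : ℝ → ℂ} (h : Nc j γ) (s t : ℝ) : |kp γ s - kp γ t| ≤ j * |s - t| := by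
  have h1 : ContDiff ℝ ∞ (kp γ) := imCLM.contDiff.comp
    ((contDiff_infty_iff_deriv.1 h.s1).2.mul (conjCLE.contDiff.comp h.s1))
  exact (convex_univ (𝕜 := ℝ) (E := ℝ)).norm_image_sub_le_of_norm_deriv_le (C := j)
    (fun x _ => h1.differentiable (by simp) x)
    (fun x _ => by simpa using h.kb 1 (by norm_num) x) (mem_univ t) (mem_univ s)

/-- The real algebra behind the Taylor facts. -/
theorem alg {a b k α β β' B ν : ℝ} (hR : 2 ≤ R) (hε : 0 ≤ ε) (ha : 0 < a) (hab : a ≤ b)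
    (h1 : Ap R 1 ε α (k / 2)) (h2 : Ap R 1 ε β (k / 2)) (h3 : Ap R 1 ε β' (k / 2))
    (h4 : Ap R 1 ε (b / a) 1) (h5 : Ap R 6 ε B (k / 2)) (h6 : Ap R 1 ε ν 1)
    (h7 : Ap R 1 ε (b ^ 4) 0) :
    |k ^ 3 * b ^ 5 / 8 - a * (α * (β * b ^ 4) ^ 2 / a ^ 4)| ≤ R ^ 30 * ε * b ^ 5 ∧
    |k / (2 * b) - B / a| ≤ R ^ 30 * ε / a ∧ |α * (β * b ^ 4) ^ 2 / a ^ 4| ≤ R ^ 30 * ε ∧
    |B| ≤ R ^ 30 ∧ |β * β' * b ^ 8 / a ^ 4 / a - k ^ 2 * b ^ 3 / 4| ≤ R ^ 30 * ε * b ^ 3 ∧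
    |(2 * (β * β' * b ^ 8 / a ^ 4) + ν) / a ^ 3 - 1 / b ^ 3| ≤ R ^ 30 * ε / a ^ 3 ∧
    |β * β' * b ^ 8 / a ^ 4| ≤ R ^ 30 * ε ∧ |2 * (β * β' * b ^ 8 / a ^ 4) + ν| ≤ R ^ 30 := by
  have hb := ha.trans_le hab
  have t3 := (h4.mul hR h4).mul hR h4
  have t4 := t3.mul hR h4
  have u1 := (h1.mul hR h2).mul hR h2
  have u2 := (h2.mul hR h3).mul hR t4
  have u3 := u2.mul hR h7
  have u4 := (u3.add hR u3).add hR (h6.mono hR hε (by norm_num))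
  have e : β * β' * b ^ 8 / a ^ 4 = β * β' * (b / a * (b / a) * (b / a) * (b / a)) * b ^ 4 := by
    field_simp
  have dv : ∀ (z : ℝ) (i : ℕ), |z| ≤ R ^ 30 * ε → |z / b ^ i| ≤ R ^ 30 * ε / a ^ i := fun z i h => by
    rw [abs_div, abs_of_pos (pow_pos hb i)]
    have := (abs_nonneg _).trans h
    gcongr
  have ml : ∀ (z : ℝ) (i : ℕ), |z| ≤ R ^ 30 * ε → |z * b ^ i| ≤ R ^ 30 * ε * b ^ i := fun z i h => by
    rw [abs_mul, abs_of_pos (pow_pos hb i)]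
    gcongr
  refine ⟨?_, ?_, ?_, (h5.mono hR hε (by norm_num)).2.1, ?_, ?_, ?_, ?_⟩
  · rw [abs_sub_comm]
    refine (congrArg abs ?_).trans_le (ml _ 5 ((u1.mul hR t3).mono hR hε (by norm_num)).1)
    field_simp
    ring
  · rw [abs_sub_comm]
    refine ((congrArg abs ?_).trans_le
      (dv _ 1 ((h5.mul hR h4).mono hR hε (by norm_num)).1)).trans_eq (by rw [pow_one])
    field_simp
  · refine (congrArg abs ?_).trans_le (((u1.mul hR t4).mul hR h7).mono hR hε (by norm_num)).1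
    field_simp
    ring
  · refine (congrArg abs ?_).trans_le (ml _ 3 ((u2.mul hR h4).mono hR hε (by norm_num)).1)
    field_simp
    ring
  · refine (congrArg abs ?_).trans_le (dv _ 3 ((u4.mul hR t3).mono hR hε (by norm_num)).1)
    field_simp
    ring
  · refine (congrArg abs ?_).trans_le (u3.mono hR hε (by norm_num)).1
    rw [e]
    ring
  · refine (congrArg abs ?_).trans_le (u4.mono hR hε (by norm_num)).2.1
    rw [e]
    ring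

theorem geo (hQ : St_QS) (j : ℝ) : ∃ D : ℝ, ∀ (γ : ℝ → ℂ) (s v u ε a b : ℝ), Nc j γ → 0 < a →
    0 < b → a ^ 2 = c0 γ v u → b ^ 2 = |u - v| → |u - v| ≤ j⁻¹ → |v - s| + |u - s| ≤ ε →
    ∀ k A B P ν : ℝ, k = kp γ s → A = qq γ v u * rdot (nr γ v) (γ u - γ v) ^ 2 / c0 γ v u ^ 2 →
    B = e1v γ v u * qq γ v u + 2 * ee γ v u * q1 γ v u →
    P = -(rdot (nr γ v) (γ u - γ v) * rdot (nr γ u) (γ u - γ v)) / a ^ 4 →
    ν = rdot (nr γ v) (nr γ u) →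
    |q2 γ v u| ≤ D ∧ |k ^ 3 * b ^ 5 / 8 - a * A| ≤ D * ε * b ^ 5 ∧
    |k / (2 * b) - B / a| ≤ D * ε / a ∧ |A| ≤ D * ε ∧ |B| ≤ D ∧
    |P / a - k ^ 2 * b ^ 3 / 4| ≤ D * ε * b ^ 3 ∧
    |(2 * P + ν) / a ^ 3 - 1 / b ^ 3| ≤ D * ε / a ^ 3 ∧ |P| ≤ D * ε ∧ |2 * P + ν| ≤ D := by
  obtain ⟨Q, hQ⟩ := hQ.2 j
  refine ⟨(2 * (Q + j ^ 2 + 1)) ^ 30, ?_⟩
  rintro γ s v u ε a b h ha hb ea eb hd hε _ _ _ _ _ rfl rfl rfl rfl rfl
  obtain ⟨q0, q1', q2', q3, q4, q5, q6, q7, -⟩ := hQ γ h v u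
  have Q0 : 0 ≤ Q := (abs_nonneg _).trans q0
  have j1 := h.one_le
  have j2 : j ≤ j ^ 2 := by nlinarith
  set R := 2 * (Q + j ^ 2 + 1) with hR
  have R2 : 2 ≤ R := by nlinarith
  have s2 : (u - v) ^ 2 = b ^ 4 := by rw [← sq_abs, ← eb, ← pow_mul]
  have c1 : c0 γ v u ≤ |u - v| := (h.c0_le_abs v u).trans_eq (abs_sub_comm _ _)
  have c2 : |u - v| ≤ 2 * c0 γ v u := by
    rw [abs_sub_comm] at hd ⊢
    exact h.abs_le_two hd
  have k1 := h.bk u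
  have k2 := h.bk s
  have k3 := kp_lip h u s
  have k4 : kp γ u ^ 2 ≤ j ^ 2 := sq_le_sq' (abs_le.1 k1).1 (abs_le.1 k1).2
  have d1 : |u - v| ≤ 1 := hd.trans (inv_le_one_of_one_le₀ j1)
  have d2 : |u - v| ≤ ε := by
    have := abs_sub_le u s v
    rw [abs_sub_comm s v] at this
    linarith
  have us : |u - s| ≤ ε := by linarith [abs_nonneg (v - s)]
  have n1 : ‖γ u - γ v‖ = a ^ 2 := by rw [ea, c0, norm_sub_rev]
  rw [s2] at q5 q6 q7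
  rw [← eb, ← ea] at *
  have b2 : 0 < b ^ 2 := by positivity
  have a2 : 0 < a ^ 2 := by positivity
  have ε0 : 0 ≤ ε := b2.le.trans d2
  have hab : a ≤ b := (pow_le_pow_iff_left₀ ha.le hb.le two_ne_zero).1 c1
  have qe : Q * b ^ 2 ≤ Q * ε := by gcongr
  have je : j ^ 2 * b ^ 2 ≤ j ^ 2 * ε := by gcongr
  have qo : Q * b ^ 2 ≤ Q := mul_le_of_le_one_right Q0 d1
  have jo : j ^ 2 * b ^ 2 ≤ j ^ 2 := mul_le_of_le_one_right (sq_nonneg j) d1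
  have jε : j * |u - s| ≤ j ^ 2 * ε := by gcongr
  have Rε : R * ε = 2 * (Q * ε) + 2 * (j ^ 2 * ε) + 2 * ε := by rw [hR]; ring
  have Qε := mul_nonneg Q0 ε0
  have Jε := mul_nonneg (sq_nonneg j) ε0
  have base : ∀ x, |x - kp γ u / 2| ≤ Q * b ^ 2 → Ap R 1 ε x (kp γ s / 2) := fun x hx => by
    rw [abs_le] at hx k1 k2 k3
    refine ap_one ?_ ?_ ?_ <;> rw [abs_le] <;> constructor <;> linarith [hx.1, hx.2]
  have dv : ∀ x, |x - kp γ u * b ^ 4 / 2| ≤ Q * (b ^ 2) ^ 3 →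
      |x / b ^ 4 - kp γ u / 2| ≤ Q * b ^ 2 := fun x hx => by
    rw [show x / b ^ 4 - kp γ u / 2 = (x - kp γ u * b ^ 4 / 2) / b ^ 4 by field_simp, abs_div,
      abs_of_pos (pow_pos hb 4), div_le_iff₀ (pow_pos hb 4)]
    exact hx.trans_eq (by ring)
  have one : |(1 : ℝ)| ≤ R := by rw [abs_one]; linarith
  have zer : |(0 : ℝ)| ≤ R := by rw [abs_zero]; linarith
  have b4 : b ^ 4 ≤ b ^ 2 := by nlinarith
  have b6 : (b ^ 2) ^ 3 ≤ b ^ 4 := by nlinarith [pow_pos hb 4]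
  have b8 : (b ^ 2) ^ 4 ≤ b ^ 4 := by nlinarith [pow_pos hb 4, pow_pos b2 3]
  have h4 : Ap R 1 ε (b / a) 1 := by
    have t1 : 1 ≤ b / a := (one_le_div ha).2 hab
    have t2 : (b / a) ^ 2 * a ^ 2 = b ^ 2 := by field_simp
    have t3 : b ^ 2 - a ^ 2 ≤ (Q + j ^ 2) * b ^ 4 := by
      nlinarith [(abs_le.1 q4).1, mul_le_mul k4 b6 (by positivity) (sq_nonneg j),
        mul_le_mul_of_nonneg_left b8 Q0, mul_nonneg (sq_nonneg j) (pow_pos hb 4).le]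
    have t4 : (b / a) ^ 2 - 1 ≤ 2 * ((Q + j ^ 2) * b ^ 2) := by
      refine le_of_mul_le_mul_right ?_ a2
      nlinarith [mul_le_mul_of_nonneg_left c2 (show 0 ≤ (Q + j ^ 2) * b ^ 2 by positivity)]
    have t5 : (b / a) ^ 2 ≤ 2 := le_of_mul_le_mul_right (by linarith) a2
    refine ap_one ?_ ?_ one
    · rw [abs_of_nonneg (by linarith)]
      nlinarith
    · rw [abs_of_nonneg (by linarith)]
      nlinarith
  have r1 : |rdot (deriv (deriv γ) v) (γ u - γ v)| ≤ j ^ 2 * b ^ 2 := (rdot_le _ _).trans (by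
    rw [n1]
    exact mul_le_mul ((h.b2 v).trans j2) c1 a2.le (sq_nonneg j))
  have r2 : |rdot (deriv γ v) (γ u - γ v)| ≤ b ^ 2 := (rdot_le _ _).trans (by
    rw [n1, h.unit, one_mul]
    exact c1)
  have w1 : Ap R 1 ε (e1v γ v u) 1 := by
    rw [abs_le] at r1
    refine ap_one ?_ ?_ one <;> rw [e1v, abs_le] <;> constructor <;> linarith [r1.1, r1.2]
  have w2 : Ap R 1 ε (2 * ee γ v u) 0 := by
    rw [abs_le] at r2
    refine ap_one ?_ ?_ zer <;> rw [ee, abs_le] <;> constructor <;> linarith [r2.1, r2.2]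
  have w3 : Ap R 1 ε (q1 γ v u) (q1 γ v u) :=
    ap_one (by rw [sub_self, abs_zero]; linarith) (by linarith) (by linarith)
  have h5 := ((w1.mul R2 (base _ q3)).add R2 (w2.mul R2 w3)).mono R2 ε0 (n := 6) (by norm_num)
  rw [one_mul, zero_mul, add_zero] at h5
  have h6 : Ap R 1 ε (rdot (nr γ v) (nr γ u)) 1 := by
    have t1 := mul_le_mul k4 b4 (by positivity) (sq_nonneg j)
    have t2 := mul_le_mul_of_nonneg_left (b6.trans b4) Q0
    have t3 : 0 ≤ kp γ u ^ 2 * b ^ 4 := by positivity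
    rw [abs_le] at q7
    refine ap_one ?_ ?_ one <;> rw [abs_le] <;> constructor <;> linarith [q7.1, q7.2]
  have h7 : Ap R 1 ε (b ^ 4) 0 := by
    refine ap_one ?_ ?_ zer <;> simp only [sub_zero, abs_of_pos (pow_pos hb 4)] <;> linarith
  have h3 := base _ (dv (-rdot (nr γ u) (γ u - γ v)) (by
    rw [← abs_neg]
    exact (congrArg abs (by ring)).trans_le q6))
  have H := alg R2 ε0 ha hab (base _ q3) (base _ (dv _ q5)) h3 h4 h5 h6 h7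
  have e1 : rdot (nr γ v) (γ u - γ v) / b ^ 4 * (-rdot (nr γ u) (γ u - γ v) / b ^ 4) * b ^ 8 =
      -(rdot (nr γ v) (γ u - γ v) * rdot (nr γ u) (γ u - γ v)) := by field_simp
  rw [e1, div_mul_cancel₀ _ (pow_pos hb 4).ne'] at H
  rw [← pow_mul]
  exact ⟨(q2'.trans (by linarith)).trans (le_self_pow₀ (by linarith) (by norm_num)), H⟩

end Pool.Agent.Lib.IS2.K26
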