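import Pool.Agent.Lib.IS2.Blue
import Pool.Agent.Lib.IS2.Base

/-! Tools for the comparison of the kernels with their models. -/

open scoped ContDiff ComplexConjugate Topology Real
open Complex MeasureTheory Set Filter

noncomputable section

namespace Pool.Agent.Lib.IS2.K78

lemma pw (n : ℕ) {x : ℝ} (hx : 0 ≤ x) : x ^ n * Real.exp (-(x ^ 2 / 4)) ≤ 3 * n.factorial := by
  have h1 := Real.pow_div_factorial_le_exp x hx n
  have h2 : Real.exp x * Real.exp (-(x ^ 2 / 4)) ≤ 3 := by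
    rw [← Real.exp_add]
    exact (Real.exp_le_exp.2 (by nlinarith [sq_nonneg (x - 2)])).trans Real.exp_one_lt_three.le
  rw [div_le_iff₀ (by positivity)] at h1
  calc x ^ n * Real.exp (-(x ^ 2 / 4)) ≤ Real.exp x * n.factorial * Real.exp (-(x ^ 2 / 4)) := by
        gcongr
    _ = Real.exp x * Real.exp (-(x ^ 2 / 4)) * n.factorial := by ring
    _ ≤ _ := by gcongr

lemma sqw (n : ℕ) {c T : ℝ} (hc : 0 ≤ c) (hT : 0 < T) :
    √c ^ n * Real.exp (-(c / (4 * T))) ≤ 3 * n.factorial * √T ^ n := by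
  have h0 : 0 < √T := Real.sqrt_pos.2 hT
  have h := pw n (x := √c / √T) (by positivity)
  rw [div_pow, div_pow, Real.sq_sqrt hc, Real.sq_sqrt hT.le, div_mul_eq_mul_div,
    div_le_iff₀ (by positivity), div_div, mul_comm T 4] at h
  exact h

/-- powers of the distance against the exponential -/
lemma sqE (n : ℕ) {c d T : ℝ} (hc : 0 ≤ c) (hd : d ≤ 4 * c) (hT : 0 < T) :
    √d ^ n * Real.exp (-(c / (2 * T))) ≤ 2 ^ n * (3 * n.factorial) * √T ^ n := by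
  have h1 : √d ≤ 2 * √c := by
    rw [show 2 * √c = √(4 * c) by
      rw [Real.sqrt_mul (by norm_num), show (4 : ℝ) = 2 ^ 2 by norm_num,
        Real.sqrt_sq (by norm_num)]]
    exact Real.sqrt_le_sqrt hd
  have h2 : Real.exp (-(c / (2 * T))) ≤ Real.exp (-(c / (4 * T))) :=
    Real.exp_le_exp.2 (neg_le_neg (by gcongr; norm_num))
  calc √d ^ n * Real.exp (-(c / (2 * T))) ≤ (2 * √c) ^ n * Real.exp (-(c / (4 * T))) := by gcongr
    _ = 2 ^ n * (√c ^ n * Real.exp (-(c / (4 * T)))) := by ring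
    _ ≤ 2 ^ n * (3 * n.factorial * √T ^ n) :=
        mul_le_mul_of_nonneg_left (sqw n hc hT) (by positivity)
    _ = _ := by ring

lemma sqM (n : ℕ) {c d T : ℝ} (hd : 0 ≤ d) (hc : c ≤ d) (hT : 0 < T) :
    √d ^ n * Real.exp (-(3 * d / (4 * T))) ≤
      3 * n.factorial * √T ^ n * Real.exp (-(c / (2 * T))) := by
  have h1 : Real.exp (-(3 * d / (4 * T))) ≤
      Real.exp (-(d / (4 * T))) * Real.exp (-(c / (2 * T))) := by
    rw [← Real.exp_add, Real.exp_le_exp]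
    have : c / (2 * T) ≤ d / (2 * T) := by gcongr
    have e : 3 * d / (4 * T) = d / (4 * T) + d / (2 * T) := by field_simp; ring
    linarith
  calc _ ≤ √d ^ n * (Real.exp (-(d / (4 * T))) * Real.exp (-(c / (2 * T)))) := by gcongr
    _ = √d ^ n * Real.exp (-(d / (4 * T))) * Real.exp (-(c / (2 * T))) := by ring
    _ ≤ _ := mul_le_mul_of_nonneg_right (sqw n hd hT) (by positivity)

lemma rt_sq (μ : ℂ) : rt μ ^ 2 = μ := by
  rw [rt, one_div]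
  exact cpow_ofNat_inv_pow μ 2

lemma norm_rt (μ : ℂ) : ‖rt μ‖ = √‖μ‖ := by
  rw [eq_comm, Real.sqrt_eq_iff_mul_self_eq (norm_nonneg _) (norm_nonneg _), ← norm_mul, ← sq,
    rt_sq]

lemma half {μ : ℂ} (hμ : μ ≠ 0) {c : ℝ} (hc : 0 < c) :
    (2 * (μ * c)) ^ (-(1 / 2) : ℂ) = ((√2 : ℝ) * rt μ * (√c : ℝ))⁻¹ := by
  have h2 : (0 : ℝ) < 2 * c := by positivity
  have e : 2 * (μ * c) = ((2 * c : ℝ) : ℂ) * μ := by push_cast; ring
  have h0 : ((2 * c : ℝ) : ℂ) ≠ 0 := ofReal_ne_zero.2 h2.ne'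
  have e2 : ((√2 : ℝ) : ℂ) * (√c : ℝ) = exp (Real.log (2 * c) * (1 / 2)) := by
    rw [← ofReal_mul, ← Real.sqrt_mul (by norm_num), Real.sqrt_eq_rpow, Real.rpow_def_of_pos h2]
    push_cast
    rfl
  rw [cpow_neg, e, cpow_def_of_ne_zero (mul_ne_zero h0 hμ), log_ofReal_mul h2 hμ, add_mul, exp_add,
    mul_right_comm, e2, rt, cpow_def_of_ne_zero hμ]

/-- the asymptotics of the special functions on a ray -/
lemma asy (hA : St_A2) : ∃ C, 0 ≤ C ∧ ∀ (μ : ℂ) (c : ℝ), 0 < μ.re → 0 < c →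
    ‖K0 (μ * c) - exp (-(μ * c)) * ((√π : ℝ) * ((√2 : ℝ) * rt μ * (√c : ℝ))⁻¹)‖ ≤
      C * ((√‖μ‖ * √c) ^ 3)⁻¹ * ‖exp (-(μ * c))‖ ∧
    ‖L1 (μ * c) - exp (-(μ * c)) * ((√π : ℝ) * (rt μ * (√c : ℝ)) / (√2 : ℝ))‖ ≤
      C * (√‖μ‖ * √c)⁻¹ * ‖exp (-(μ * c))‖ ∧
    ‖L1 (μ * c) - exp (-(μ * c)) * ((√π : ℝ) * (rt μ * (√c : ℝ)) / (√2 : ℝ))‖ ≤
      C * ‖exp (-(μ * c))‖ := by
  obtain ⟨C, hC⟩ := hA
  refine ⟨2 * |C| + 2, by positivity, fun μ c hμ hc => ?_⟩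
  have m0 : μ ≠ 0 := fun h => by simp [h] at hμ
  have c0 : (c : ℂ) ≠ 0 := ofReal_ne_zero.2 hc.ne'
  obtain ⟨-, -, h3, h4, h5, -⟩ := hC (μ * c) ⟨mul_ne_zero m0 c0, by
    have : 0 < (μ * c).re := by simpa using mul_pos hμ hc
    linarith [norm_nonneg (μ * c)]⟩
  have n1 : √‖μ * c‖ = √‖μ‖ * √c := by
    rw [norm_mul, norm_real, Real.norm_eq_abs, abs_of_pos hc, Real.sqrt_mul (norm_nonneg _)]
  have p1 : 0 < √‖μ‖ * √c := mul_pos (Real.sqrt_pos.2 (norm_pos_iff.2 m0)) (Real.sqrt_pos.2 hc)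
  have n2 : ‖μ * c‖ * √‖μ * c‖ = (√‖μ‖ * √c) ^ 3 := by
    rw [← n1, pow_succ, Real.sq_sqrt (norm_nonneg _)]
  have r0 : rt μ ≠ 0 := fun h => m0 (by rw [← rt_sq μ, h]; ring)
  have s0 : ((√c : ℝ) : ℂ) ≠ 0 := ofReal_ne_zero.2 (Real.sqrt_pos.2 hc).ne'
  have s2 : ((√2 : ℝ) : ℂ) ≠ 0 := ofReal_ne_zero.2 (by positivity)
  have e : μ * c * (√π : ℝ) * ((√2 : ℝ) * rt μ * (√c : ℝ))⁻¹ =
      (√π : ℝ) * (rt μ * (√c : ℝ)) / (√2 : ℝ) := by
    have a : (c : ℂ) = (√c : ℝ) ^ 2 := by rw [← ofReal_pow, Real.sq_sqrt hc.le]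
    nth_rewrite 1 [← rt_sq μ, a]
    field_simp
  rw [half m0 hc] at h4 h5
  rw [n2] at h4
  rw [n1] at h3
  rw [n1, e] at h5
  have hC' : C ≤ 2 * |C| + 2 := by linarith [le_abs_self C, abs_nonneg C]
  refine ⟨h4.trans (by gcongr), h5.trans (by gcongr), ?_⟩
  rcases le_total 1 (√‖μ‖ * √c) with a | a
  · refine h5.trans ?_
    gcongr
    calc C * (√‖μ‖ * √c)⁻¹ ≤ |C| * 1 := by
          gcongr
          exacts [le_abs_self C, inv_le_one_of_one_le₀ a]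
      _ ≤ _ := by linarith [abs_nonneg C]
  · refine (norm_sub_le _ _).trans ?_
    have b1 : ‖((√π : ℝ) : ℂ) * (rt μ * (√c : ℝ)) / (√2 : ℝ)‖ ≤ 2 := by
      rw [norm_div, norm_mul, norm_mul, norm_rt, norm_real, norm_real, norm_real,
        Real.norm_of_nonneg (Real.sqrt_nonneg _), Real.norm_of_nonneg (Real.sqrt_nonneg _),
        Real.norm_of_nonneg (Real.sqrt_nonneg _), div_le_iff₀ (by positivity)]
      have : √π ≤ 2 := Real.sqrt_le_iff.2 ⟨by norm_num, by linarith [Real.pi_le_four]⟩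
      have : 1 ≤ √2 := Real.one_le_sqrt.2 one_le_two
      nlinarith
    have b2 : C * (1 + √‖μ‖ * √c) ≤ |C| * 2 := by
      gcongr
      exacts [le_abs_self C, by linarith]
    rw [norm_mul]
    nlinarith [norm_nonneg (exp (-(μ * c)))]

/-- the parameters for large `h` -/
lemma par (hS : St_SH) {p q : ℕ} (hq : 9 * (p + 1) + 2 ≤ 2 * q) : ∃ h0, ∀ h, h0 ≤ h →
    0 < om q h ∧ 0 < Tt q h ∧ 0 < eps p h ∧ eps p h ≤ 1 ∧ 1 ≤ eps p h ^ 3 * (om q h * Tt q h) ∧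
    ∀ y, |y| ≤ YY q h → 0 < (mu q h y).re ∧ √(om q h) ≤ 2 * √‖mu q h y‖ ∧
      √‖mu q h y‖ ≤ √(om q h) ∧ ∀ c : ℝ, ‖exp (-(mu q h y * c))‖ =
        Real.exp (-(c / (2 * Tt q h))) * Real.exp (-(c / (2 * Tt q h))) := by
  obtain ⟨C, h0, H⟩ := hS q (by omega)
  refine ⟨max h0 1, fun h hh => ?_⟩
  have h1 : 1 ≤ h := (le_max_right _ _).trans hh
  have hp : 0 < h := by linarith
  obtain ⟨a1, a2, -⟩ := H h ((le_max_left _ _).trans hh)
  have T0 : 0 < Tt q h := by unfold Tt; positivity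
  have re : ∀ y, (mu q h y).re = (Tt q h)⁻¹ := fun y => by
    simp only [mu, add_re, ofReal_re, mul_re, I_re, I_im, ofReal_im]
    ring
  refine ⟨by unfold om; positivity, T0, by unfold eps; positivity,
    inv_le_one_of_one_le₀ (one_le_pow₀ h1), ?_, fun y hy => ⟨?_, ?_, ?_, fun c => ?_⟩⟩
  · rw [eps, om, Tt, inv_pow, ← pow_mul, mul_left_comm, ← mul_inv, ← pow_add, ← div_eq_mul_inv,
      le_div_iff₀ (by positivity), one_mul]
    exact pow_le_pow_right₀ h1 (by omega)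
  · rw [re]; positivity
  · rw [show 2 * √‖mu q h y‖ = √(4 * ‖mu q h y‖) by
      rw [Real.sqrt_mul (by norm_num), show (4 : ℝ) = 2 ^ 2 by norm_num,
        Real.sqrt_sq (by norm_num)]]
    exact Real.sqrt_le_sqrt (by
      linarith [(a2 y hy).2.2.1, (le_abs_self _).trans (abs_im_le_norm (mu q h y))])
  · exact Real.sqrt_le_sqrt (a1 _ (a2 y hy).2.1).2
  · rw [norm_exp, ← Real.exp_add, neg_re, mul_re, re, ofReal_re, ofReal_im]
    congr 1
    field_simp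
    ring

lemma kp_lip {j : ℝ} {γ : ℝ → ℂ} (h : Nc j γ) (s t : ℝ) : |kp γ s - kp γ t| ≤ j * |s - t| := by
  have d : ContDiff ℝ ∞ (kp γ) := imCLM.contDiff.comp
    ((contDiff_infty_iff_deriv.1 h.s1).2.mul (conjCLE.contDiff.comp h.s1))
  simpa using (convex_univ (𝕜 := ℝ) (E := ℝ)).norm_image_sub_le_of_norm_deriv_le (C := j)
    (fun x _ => d.differentiable (by simp) x) (fun x _ => by simpa using h.kb 1 (by norm_num) x)
    (mem_univ t) (mem_univ s)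

/-- geometry near the diagonal -/
lemma geo (hQ : St_QS) (j : ℝ) : ∃ C, 0 ≤ C ∧ ∀ γ (s v u : ℝ), Nc j γ → v ≠ u → |u - v| ≤ j⁻¹ →
    |u - v| ≤ 2 * c0 γ v u ∧ |u - v| ≤ 1 ∧
    abs (√(c0 γ v u) - √|u - v|) ≤ C * (|v - s| + |u - s|) * √|u - v| ∧
    |qq γ v u| ≤ C ∧ |q1 γ v u| ≤ C ∧ |q2 γ v u| ≤ C ∧
    |qq γ v u - kp γ s / 2| ≤ C * (|v - s| + |u - s|) ∧
    |rdot (nr γ v) (γ u - γ v) - kp γ s * (u - v) ^ 2 / 2| ≤ C * (|v - s| + |u - s|) * (u - v) ^ 2 ∧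
    |rdot (nr γ u) (γ u - γ v) + kp γ s * (u - v) ^ 2 / 2| ≤ C * (|v - s| + |u - s|) * (u - v) ^ 2 ∧
    |1 - rdot (nr γ v) (nr γ u) - kp γ s ^ 2 * (u - v) ^ 2 / 2| ≤
      C * (|v - s| + |u - s|) * (u - v) ^ 2 := by
  obtain ⟨C, hC⟩ := hQ.2 j
  refine ⟨|C| + j ^ 2 + |j|, by positivity, fun γ s v u h hne hd => ?_⟩
  obtain ⟨a1, a2, a3, a4, a5, a6, a7, a8, -⟩ := hC γ h v u
  have j1 := h.one_le
  have d1 : |u - v| ≤ 1 := hd.trans (inv_le_one_of_one_le₀ j1)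
  have d0 : 0 < |u - v| := abs_pos.2 (sub_ne_zero.2 hne.symm)
  have de : |u - v| ≤ |v - s| + |u - s| := by
    rw [show u - v = u - s - (v - s) by ring, add_comm]
    exact abs_sub _ _
  have ue : |u - s| ≤ |v - s| + |u - s| := le_add_of_nonneg_left (abs_nonneg _)
  have C0 : 0 ≤ C := (abs_nonneg _).trans a1
  have k1 := kp_lip h u s
  have k2 := h.bk u
  have k3 := h.bk s
  have cd : c0 γ v u ≤ |u - v| := abs_sub_comm v u ▸ h.c0_le_abs v u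
  have dc2 : |u - v| ≤ 2 * c0 γ v u :=
    abs_sub_comm v u ▸ h.abs_le_two (abs_sub_comm u v ▸ hd)
  rw [abs_of_nonneg C0, abs_of_pos h.pos, ← sq_abs (u - v)] at *
  set d := |u - v|
  set e := |v - s| + |u - s|
  have e0 : 0 ≤ e := d0.le.trans de
  have k4 : |kp γ u - kp γ s| ≤ j * e := k1.trans (by gcongr)
  have cle : C ≤ C + j ^ 2 + j := by nlinarith
  have t3 : C * d ^ 3 ≤ C * e * d ^ 2 := by
    rw [mul_assoc, pow_succ']
    gcongr
  have u1 : |(kp γ u - kp γ s) * d ^ 2 / 2| ≤ j * e * d ^ 2 := by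
    rw [abs_div, abs_mul, abs_of_nonneg (sq_nonneg d), abs_two]
    have : |kp γ u - kp γ s| * d ^ 2 ≤ j * e * d ^ 2 := by gcongr
    linarith [show 0 ≤ j * e * d ^ 2 by positivity]
  have z1 : 0 ≤ j ^ 2 * e * d ^ 2 := by positivity
  have z2 : 0 ≤ j * e * d ^ 2 := by positivity
  refine ⟨dc2, d1, ?_, a1.trans cle,
    a2.trans cle, a3.trans cle, ?_, ?_, ?_, ?_⟩
  · have b0 : 0 < √d := Real.sqrt_pos.2 d0
    have b1 : √(c0 γ v u) ≤ √d := Real.sqrt_le_sqrt cd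
    have b2 : d - c0 γ v u ≤ (C + j ^ 2 + j) * e * d := by
      have k5 : kp γ u ^ 2 ≤ j ^ 2 := sq_le_sq' (abs_le.1 k2).1 (abs_le.1 k2).2
      have b3 : C * d ^ 4 ≤ C * (e * d) := by
        gcongr
        calc d ^ 4 ≤ d ^ 2 := pow_le_pow_of_le_one d0.le d1 (by norm_num)
          _ ≤ e * d := by rw [sq]; gcongr
      have b4 : kp γ u ^ 2 * d ^ 3 ≤ j ^ 2 * (e * d) := by
        gcongr
        calc d ^ 3 ≤ d ^ 2 := pow_le_pow_of_le_one d0.le d1 (by norm_num)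
          _ ≤ e * d := by rw [sq]; gcongr
      linarith [(abs_le.1 a5).1, show 0 ≤ j ^ 2 * (e * d) by positivity,
        show 0 ≤ j * (e * d) by positivity]
    rw [abs_sub_comm, abs_of_nonneg (sub_nonneg.2 b1)]
    refine le_of_mul_le_mul_right ?_ b0
    rw [mul_assoc _ √d, Real.mul_self_sqrt d0.le]
    nlinarith [Real.mul_self_sqrt d0.le, Real.mul_self_sqrt (show 0 ≤ c0 γ v u from norm_nonneg _),
      Real.sqrt_nonneg (c0 γ v u)]
  · have : C * d ≤ C * e := by gcongr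
    rw [abs_le] at a4 k4 ⊢
    constructor <;> linarith [show 0 ≤ j ^ 2 * e by positivity, show 0 ≤ j * e by positivity]
  · rw [abs_le] at a6 u1 ⊢
    constructor <;> linarith
  · rw [abs_le] at a7 u1 ⊢
    constructor <;> linarith
  · have u2 : |(kp γ u - kp γ s) * (kp γ u + kp γ s) * d ^ 2 / 2| ≤ j ^ 2 * e * d ^ 2 := by
      rw [abs_div, abs_mul, abs_mul, abs_of_nonneg (sq_nonneg d), abs_two]
      have : |kp γ u - kp γ s| * |kp γ u + kp γ s| * d ^ 2 ≤ j * e * (j + j) * d ^ 2 := by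
        gcongr
        exact (abs_add_le _ _).trans (add_le_add k2 k3)
      linarith
    rw [abs_le] at a8 u2 ⊢
    constructor <;> linarith

end Pool.Agent.Lib.IS2.K78
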