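import Pool.Agent.Lib.IS2.B_H0

/-! Double integrals over base point and displacement; the square of the model. -/

open scoped ContDiff ComplexConjugate Topology Real
open Complex MeasureTheory Set Filter

noncomputable section

namespace Pool.Agent.Lib.IS2

open Pool.Agent.Lib.ISO

namespace EXP

/-- base point in a period, displacement in `(-π, π]` -/
abbrev bx : Measure (ℝ × ℝ) :=
  (volume.restrict (Ioc (0 : ℝ) (2 * π))).prod (volume.restrict (Ioc (-π) π))

theorem bx_eq : bx = volume.restrict (Ioc (0 : ℝ) (2 * π) ×ˢ Ioc (-π) π) := Measure.prod_restrict _ _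

theorem int_c {E : Type} [NormedAddCommGroup E] {f : ℝ × ℝ → E} (hf : Continuous f) :
    Integrable f bx := by
  rw [bx_eq]
  exact (hf.continuousOn.integrableOn_compact (isCompact_Icc.prod isCompact_Icc)).mono_set
    (prod_mono Ioc_subset_Icc_self Ioc_subset_Icc_self)

theorem int_c3 {f : ℝ × ℝ × ℝ → ℂ} (hf : Continuous f) (a b : ℝ) :
    Integrable f ((volume.restrict (uIoc a b)).prod bx) := by
  rw [bx_eq, Measure.prod_restrict]
  exact (hf.continuousOn.integrableOn_compact (μ := volume)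
    (isCompact_uIcc.prod (isCompact_Icc.prod isCompact_Icc))).mono_set
    (prod_mono uIoc_subset_uIcc (prod_mono Ioc_subset_Icc_self Ioc_subset_Icc_self))

theorem ae_bx : ∀ᵐ z ∂bx, |z.2| ≤ π := by
  rw [bx_eq]
  filter_upwards [ae_restrict_mem (measurableSet_Ioc.prod measurableSet_Ioc)] with z hz
  exact abs_le.2 ⟨hz.2.1.le, hz.2.2⟩

theorem npi : -π ≤ π := by linarith [Real.pi_pos]

theorem dbl {f : ℝ × ℝ → ℂ} (hf : Integrable f bx) :
    ∫ s in (0 : ℝ)..(2 * π), ∫ d in (-π)..π, f (s, d) = ∫ z, f z ∂bx := by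
  simp only [intervalIntegral.integral_of_le npi,
    intervalIntegral.integral_of_le Real.two_pi_pos.le]
  exact (integral_prod _ hf).symm

theorem shift {F : ℝ → ℂ} (h : Function.Periodic F (2 * π)) (s : ℝ) :
    ∫ t in (0 : ℝ)..(2 * π), F t = ∫ d in (-π)..π, F (s + d) := by
  have := h.intervalIntegral_add_eq 0 (s + -π)
  rw [zero_add, show s + -π + 2 * π = s + π by ring] at this
  rw [this, intervalIntegral.integral_comp_add_left]

theorem rr {ρ φ : ℝ → ℝ} (hρ : Per (2 * π) ρ) (hφ : Continuous φ) (h0 : ∀ d, 0 ≤ φ d) :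
    ∫ z, |ρ z.1| * |ρ (z.1 + z.2)| * φ z.2 ∂bx ≤
      (∫ s in (0 : ℝ)..(2 * π), ρ s ^ 2) * ∫ d in (-π)..π, φ d := by
  have hc := hρ.smooth.continuous
  have i1 : Integrable (fun z : ℝ × ℝ => ρ z.1 ^ 2 * φ z.2) bx := int_c (by fun_prop)
  have i2 : Integrable (fun z : ℝ × ℝ => ρ (z.1 + z.2) ^ 2 * φ z.2) bx := int_c (by fun_prop)
  have e1 : ∫ z, ρ z.1 ^ 2 * φ z.2 ∂bx =
      (∫ s in (0 : ℝ)..(2 * π), ρ s ^ 2) * ∫ d in (-π)..π, φ d := by
    rw [intervalIntegral.integral_of_le npi, intervalIntegral.integral_of_le Real.two_pi_pos.le]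
    exact integral_prod_mul (fun s => ρ s ^ 2) φ
  have e2 : ∫ z, ρ (z.1 + z.2) ^ 2 * φ z.2 ∂bx =
      (∫ s in (0 : ℝ)..(2 * π), ρ s ^ 2) * ∫ d in (-π)..π, φ d := by
    rw [integral_prod_symm _ i2, intervalIntegral.integral_of_le npi, ← integral_const_mul]
    congr 1; ext d
    dsimp only
    rw [integral_mul_const, ← intervalIntegral.integral_of_le Real.two_pi_pos.le,
      intervalIntegral.integral_comp_add_right (fun s => ρ s ^ 2), zero_add, add_comm (2 * π)]
    have hp : Function.Periodic (fun s => ρ s ^ 2) (2 * π) := fun s => by simp only [hρ.per s]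
    rw [hp.intervalIntegral_add_eq d 0, zero_add]
  calc _ ≤ ∫ z, (ρ z.1 ^ 2 * φ z.2 + ρ (z.1 + z.2) ^ 2 * φ z.2) / 2 ∂bx := by
        refine integral_mono (int_c (by fun_prop)) ((i1.add i2).div_const 2) fun z => ?_
        have := mul_nonneg (sq_nonneg (|ρ z.1| - |ρ (z.1 + z.2)|)) (h0 z.2)
        simp only [sub_sq, sq_abs] at this
        show _ ≤ _
        nlinarith
    _ = _ := by rw [integral_div, integral_add i1 i2, e1, e2]; ring

theorem nb {ρ φ : ℝ → ℝ} (hρ : Per (2 * π) ρ) (hφ : Continuous φ) (h0 : ∀ d, 0 ≤ φ d)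
    {f : ℝ × ℝ → ℂ} {R S : ℝ} (hR : ∫ s in (0 : ℝ)..(2 * π), ρ s ^ 2 ≤ R)
    (hS : ∫ d in (-π)..π, φ d ≤ S)
    (hf : ∀ s d, |d| ≤ π → ‖f (s, d)‖ ≤ |ρ s| * |ρ (s + d)| * φ d) : ‖∫ z, f z ∂bx‖ ≤ R * S := by
  have hc := hρ.smooth.continuous
  have a : 0 ≤ ∫ d in (-π)..π, φ d := intervalIntegral.integral_nonneg npi fun d _ => h0 d
  have b : 0 ≤ ∫ s in (0 : ℝ)..(2 * π), ρ s ^ 2 :=
    intervalIntegral.integral_nonneg Real.two_pi_pos.le fun d _ => sq_nonneg _
  exact (norm_integral_le_of_norm_le (int_c (by fun_prop))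
    (ae_bx.mono fun z hz => hf z.1 z.2 hz)).trans
    ((rr hρ hφ h0).trans (mul_le_mul hR hS a (b.trans hR)))

theorem int_exp {a : ℝ} (ha : 0 < a) : ∫ d in (-π)..π, Real.exp (-(|d| / a)) ≤ 2 * a := by
  have c : Continuous fun d : ℝ => Real.exp (-(|d| / a)) := by fun_prop
  have h1 : ∫ d in (0 : ℝ)..π, Real.exp (-(|d| / a)) ≤ a := by
    have : ∫ d in (0 : ℝ)..π, Real.exp (-(|d| / a)) = ∫ d in (0 : ℝ)..π, Real.exp (-(d / a)) :=
      intervalIntegral.integral_congr fun d hd => by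
        rw [uIcc_of_le Real.pi_pos.le] at hd
        simp only [abs_of_nonneg hd.1]
    rw [this, intervalIntegral.integral_eq_sub_of_hasDerivAt
      (f := fun d => -a * Real.exp (-(d / a))) (fun d _ =>
        ((((hasDerivAt_id' d).div_const a).fun_neg.exp).const_mul (-a)).congr_deriv
          (by field_simp)) (Continuous.intervalIntegrable (by fun_prop) _ _)]
    have := mul_pos ha (Real.exp_pos (-(π / a)))
    simp only [zero_div, neg_zero, Real.exp_zero]
    linarith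
  have h2 : ∫ d in (-π)..0, Real.exp (-(|d| / a)) = ∫ d in (0 : ℝ)..π, Real.exp (-(|d| / a)) := by
    have := intervalIntegral.integral_comp_neg (a := 0) (b := π) fun d => Real.exp (-(|d| / a))
    simp only [abs_neg, neg_zero] at this
    exact this.symm
  rw [← intervalIntegral.integral_add_adjacent_intervals (b := 0) (c.intervalIntegrable _ _)
    (c.intervalIntegrable _ _), h2]
  linarith

theorem rho_le {M W : ℕ} {a0 : ℂ} {ρ : ℝ → ℝ} {o : ℝ} (hρ : Per (2 * π) ρ) (ha : ‖a0‖ ≤ 2)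
    (ho : 0 < o) (h : ∫ s in (0 : ℝ)..(2 * π), (ρ s + tn M W a0 0 s / o ^ 2) ^ 2 ≤
      amp M W ^ 2 / o ^ 4) : ∫ s in (0 : ℝ)..(2 * π), ρ s ^ 2 ≤ 258 * (amp M W ^ 2 / o ^ 4) := by
  have hc := hρ.smooth.continuous
  have ht := (H0.tn_sm M W a0).continuous
  have := H0.int_le (F := fun s => (ρ s : ℂ)) (u := fun s => ρ s + tn M W a0 0 s / o ^ 2)
    (A := 4 * amp M W / o ^ 2) (by fun_prop) (by fun_prop) (fun s => by
      have := H0.tn_le M W ha 0 s
      simp only [iteratedDeriv_zero, pow_zero, mul_one] at this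
      have h2 : |tn M W a0 0 s / o ^ 2| ≤ 4 * amp M W / o ^ 2 := by
        rw [abs_div, abs_of_pos (pow_pos ho 2)]; gcongr
      have := abs_sub (ρ s + tn M W a0 0 s / o ^ 2) (tn M W a0 0 s / o ^ 2)
      rw [add_sub_cancel_right] at this
      rw [norm_real, Real.norm_eq_abs]
      linarith) h
  simp only [norm_real, Real.norm_eq_abs, sq_abs] at this
  refine this.trans_eq ?_
  field_simp; ring

/-! the square of the model -/

def nu (a : ℕ) : ℝ := PowerSeries.coeff a sN / Real.Gamma (-(1 / 2) + 3 * a / 2)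
def ct (m n : ℕ) : ℝ :=
  ∑ a ∈ Finset.range (m + 1), ∑ b ∈ Finset.range (m + 1), if a + b = n then nu a * nu b else 0

theorem nu_pos (hG : St_G) (a : ℕ) : 0 < nu a := by
  rcases Nat.eq_zero_or_pos a with rfl | ha
  · have := Real.Gamma_add_one (s := -(1 / 2)) (by norm_num)
    have h2 := Real.Gamma_pos_of_pos (s := -(1 / 2) + 1) (by norm_num)
    rw [nu, hG.1]
    simp only [Nat.cast_zero, mul_zero, zero_div, add_zero]
    exact div_pos_of_neg_of_neg (by norm_num) (by linarith)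
  · have : (1 : ℝ) ≤ a := by exact_mod_cast ha
    exact div_pos (hG.2 a ha) (Real.Gamma_pos_of_pos (by linarith))

theorem ct_nn (hG : St_G) (m n : ℕ) : 0 ≤ ct m n :=
  Finset.sum_nonneg fun a _ => Finset.sum_nonneg fun b _ => by
    split_ifs
    exacts [(mul_pos (nu_pos hG a) (nu_pos hG b)).le, le_rfl]

theorem ct_pos (hG : St_G) {m n : ℕ} (h : n ≤ m) : 0 < ct m n := by
  have k : ∀ a b, 0 ≤ if a + b = n then nu a * nu b else 0 := fun a b => by
    split_ifs
    exacts [(mul_pos (nu_pos hG a) (nu_pos hG b)).le, le_rfl]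
  refine Finset.sum_pos' (fun a _ => Finset.sum_nonneg fun b _ => k a b)
    ⟨n, Finset.mem_range.2 (by omega), Finset.sum_pos' (fun b _ => k n b)
      ⟨0, by simp, by simpa using mul_pos (nu_pos hG n) (nu_pos hG 0)⟩⟩

theorem rt_sq {μ : ℂ} (h : μ ≠ 0) : rt μ ^ 2 = μ := by
  rw [rt, sq, ← cpow_add _ _ h]; norm_num

theorem Nm_sq {μ : ℂ} (h : μ ≠ 0) (k : ℝ) (m : ℕ) {d : ℝ} (hd : d ≠ 0) :
    Nm μ k sN m d ^ 2 = ∑ n ∈ Finset.range (2 * m + 1), ((2 * ct m n / √2 ^ n : ℝ) : ℂ) *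
      (((k ^ n * |d| ^ (3 * (n : ℝ) / 2 - 3) : ℝ) : ℂ) *
        (μ * rt μ ^ n * exp (-(2 * μ * (|d| : ℝ))))) := by
  have hd' : 0 < |d| := abs_pos.2 hd
  have s2 : ((√2 : ℝ) : ℂ) ^ 2 = 2 := by
    rw [← ofReal_pow, Real.sq_sqrt zero_le_two]; simp
  have s0 : ((√2 : ℝ) : ℂ) ≠ 0 := fun e => by rw [e] at s2; norm_num at s2
  rw [Nm, mul_pow, mul_pow, s2, rt_sq h, md, sq, Finset.sum_mul_sum, Finset.mul_sum]
  simp only [ct, Finset.mul_sum, Finset.sum_div, ofReal_sum, Finset.sum_mul]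
  rw [Finset.sum_comm (s := Finset.range (2 * m + 1))]
  refine Finset.sum_congr rfl fun a ha => ?_
  rw [Finset.sum_comm (s := Finset.range (2 * m + 1))]
  refine Finset.sum_congr rfl fun b hb => ?_
  rw [Finset.sum_eq_single_of_mem (a + b) (by simp only [Finset.mem_range] at *; omega)
    (fun n _ hn => by simp [hn.symm]), if_pos rfl]
  have e1 : |d| ^ (3 * ((a + b : ℕ) : ℝ) / 2 - 3) =
      |d| ^ (-(1 / 2) + 3 * (a : ℝ) / 2 - 1) * |d| ^ (-(1 / 2) + 3 * (b : ℝ) / 2 - 1) := by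
    rw [← Real.rpow_add hd']; congr 1; push_cast; ring
  have e2 : exp (-(2 * μ * (|d| : ℝ))) = exp (-(μ * (|d| : ℝ))) * exp (-(μ * (|d| : ℝ))) := by
    rw [← exp_add]; congr 1; ring
  rw [e1, e2, eb, eb, nu, nu]
  push_cast
  simp only [div_pow, mul_pow, pow_add]
  ring

end EXP

end Pool.Agent.Lib.IS2
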