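import Pool.Agent.Lib.IS2.K86

/-! Comparison of the second variation with its model. -/

open scoped ContDiff ComplexConjugate Topology Real
open Complex MeasureTheory Set Filter

noncomputable section

namespace Pool.Agent.Lib.IS2

open Pool.Agent.Lib.ISO

namespace EXP

variable {q : ℕ} {h : ℝ} {w : ℝ → ℝ → ℝ} {ρ κ : ℝ → ℝ}

def uw (w : ℝ → ℝ → ℝ) (ρ κ : ℝ → ℝ) (n : ℕ) (z : ℝ × ℝ) : ℝ :=
  w z.1 (z.1 + z.2) * (ρ z.1 * ρ (z.1 + z.2)) * (κ z.1 ^ n * |z.2| ^ (3 * (n : ℝ) / 2 - 3))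
def cn (m n : ℕ) : ℝ := 2 * ct m n / √2 ^ n
def fm (w : ℝ → ℝ → ℝ) (ρ κ : ℝ → ℝ) (m : ℕ) (μ : ℂ) (z : ℝ × ℝ) : ℂ :=
  ∑ n ∈ Finset.range (2 * m + 1), (cn m n : ℂ) *
    (uw w ρ κ n z * (μ * rt μ ^ n * exp (-(2 * μ * (|z.2| : ℝ)))))

theorem T_pos (q : ℕ) (hh : 0 < h) : 0 < Tt q h := by unfold Tt; positivity
theorem o_pos (q : ℕ) (hh : 0 < h) : 0 < om q h := by unfold om; positivity

theorem w0 (hw : Wf q h w) {s d : ℝ} (hd : |d| ≤ Tt q h / (2 * h)) : w s (s + d) = 0 :=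
  hw.zero _ _ ((dc_le_abs _ _).trans (by simpa using hd))

theorem uw_c (hh : 0 < h) (hw : Wf q h w) (hρ : Continuous ρ) (hκ : Continuous κ) (n : ℕ) :
    Continuous (uw w ρ κ n) := by
  have hδ : 0 < Tt q h / (2 * h) := by have := T_pos q hh; positivity
  have c1 : Continuous fun z : ℝ × ℝ => w z.1 (z.1 + z.2) :=
    hw.cont.comp (f := fun z : ℝ × ℝ => (z.1, z.1 + z.2)) (by fun_prop)
  have c2 : Continuous fun z : ℝ × ℝ => max |z.2| (Tt q h / (2 * h)) ^ (3 * (n : ℝ) / 2 - 3) :=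
    Continuous.rpow_const (by fun_prop) fun z => Or.inl (hδ.trans_le (le_max_right _ _)).ne'
  have : uw w ρ κ n = fun z => w z.1 (z.1 + z.2) * (ρ z.1 * ρ (z.1 + z.2)) *
      (κ z.1 ^ n * max |z.2| (Tt q h / (2 * h)) ^ (3 * (n : ℝ) / 2 - 3)) := by
    ext z
    rcases le_total |z.2| (Tt q h / (2 * h)) with e | e
    · simp only [uw, w0 hw e, zero_mul]
    · rw [uw, max_eq_left e]
  rw [this]
  exact (c1.mul (by fun_prop)).mul (Continuous.mul (by fun_prop) c2)

theorem mu_d (q : ℕ) (h y : ℝ) : HasDerivAt (mu q h) I y := by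
  have := (((hasDerivAt_id' y).const_add (om q h / 2)).ofReal_comp.const_mul I).const_add
    (((Tt q h)⁻¹ : ℝ) : ℂ)
  exact this.congr_deriv (by simp)

theorem mu_c (q : ℕ) (h : ℝ) : Continuous (mu q h) :=
  continuous_iff_continuousAt.2 fun y => (mu_d q h y).continuousAt

theorem mu_re (q : ℕ) (hh : 0 < h) (y : ℝ) : 0 < (mu q h y).re := by
  simpa [mu] using T_pos q hh

theorem rt_c (q : ℕ) (hh : 0 < h) : ∃ r : ℝ → ℂ, Continuous r ∧ ∀ y, rt (mu q h y) = r y :=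
  ⟨_, (mu_c q h).cpow continuous_const fun y => Or.inl (mu_re q hh y), fun _ => rfl⟩

theorem Gs_c (q : ℕ) (h : ℝ) : Continuous (Gs' q h) := by
  unfold Gs' Gs ze
  fun_prop

theorem Mp_c (q : ℕ) (hh : 0 < h) (n : ℕ) : Continuous (Mp q h n) := by
  have := mu_c q h
  obtain ⟨r, hr, e⟩ := rt_c q hh
  have := Gs_c q h
  unfold Mp
  simp only [e]
  exact intervalIntegral.continuous_parametric_intervalIntegral_of_continuous' (by fun_prop) _ _

theorem fm_c (hh : 0 < h) (hw : Wf q h w) (hρ : Continuous ρ) (hκ : Continuous κ) (m : ℕ) :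
    Continuous fun p : ℝ × ℝ × ℝ => fm w ρ κ m (mu q h p.1) p.2 := by
  have := mu_c q h
  obtain ⟨r, hr, e⟩ := rt_c q hh
  have := uw_c hh hw hρ hκ
  simp only [fm, e]
  fun_prop

theorem fub (hh : 0 < h) (hw : Wf q h w) (hρ : Continuous ρ) (hκ : Continuous κ) (m : ℕ) :
    IntervalIntegrable (fun y => Gs' q h (mu q h y) * ∫ z, fm w ρ κ m (mu q h y) z ∂bx) volume
      (-YY q h) (YY q h) ∧
    ∫ y in (-YY q h)..YY q h, Gs' q h (mu q h y) * ∫ z, fm w ρ κ m (mu q h y) z ∂bx =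
      ∑ n ∈ Finset.range (2 * m + 1), (cn m n : ℂ) * ∫ z, uw w ρ κ n z * Mp q h n |z.2| ∂bx := by
  have a1 := mu_c q h
  obtain ⟨r, hr, e⟩ := rt_c q hh
  have a3 := Gs_c q h
  have a4 := uw_c hh hw hρ hκ
  have a5 := Mp_c q hh
  have a6 := fm_c hh hw hρ hκ m
  have i := int_c3 (f := fun p => Gs' q h (mu q h p.1) * fm w ρ κ m (mu q h p.1) p.2) (by fun_prop)
    (-YY q h) (YY q h)
  simp only [← integral_const_mul]
  refine ⟨intervalIntegrable_iff.2 i.integral_prod_left, ?_⟩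
  rw [intervalIntegral_integral_swap i, ← integral_finsetSum _ fun n _ => int_c (by fun_prop)]
  congr 1; ext z
  simp only [fm, Finset.mul_sum, Mp, ← intervalIntegral.integral_const_mul, e]
  rw [intervalIntegral.integral_finsetSum fun n _ => Continuous.intervalIntegrable (by fun_prop) _ _]
  refine Finset.sum_congr rfl fun n _ => ?_
  congr 1; ext y; ring

theorem ibp {Ψ G G' : ℂ → ℂ} {U : Set ℂ} (hU : IsOpen U) (hΨ : DifferentiableOn ℂ Ψ U)
    (hG : ∀ μ, HasDerivAt G (G' μ) μ) (cG : Continuous G') {a b : ℝ} {μ : ℝ → ℂ}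
    (hμ : ∀ y, HasDerivAt μ I y) (hm : ∀ y ∈ uIcc a b, μ y ∈ U) :
    IntervalIntegrable (fun y => G' (μ y) * Ψ (μ y)) volume a b ∧
    ‖(∫ y in a..b, G (μ y) * deriv Ψ (μ y)) + ∫ y in a..b, G' (μ y) * Ψ (μ y)‖ ≤
      ‖G (μ b)‖ * ‖Ψ (μ b)‖ + ‖G (μ a)‖ * ‖Ψ (μ a)‖ := by
  have c0 : Continuous μ := continuous_iff_continuousAt.2 fun y => (hμ y).continuousAt
  have c1 : Continuous G := continuous_iff_continuousAt.2 fun y => (hG y).continuousAt
  have i1 : IntervalIntegrable (fun y => G (μ y) * deriv Ψ (μ y)) volume a b :=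
    ((c1.comp c0).continuousOn.mul
      ((hΨ.deriv hU).continuousOn.comp c0.continuousOn hm)).intervalIntegrable
  have i2 : IntervalIntegrable (fun y => G' (μ y) * Ψ (μ y)) volume a b :=
    ((cG.comp c0).continuousOn.mul (hΨ.continuousOn.comp c0.continuousOn hm)).intervalIntegrable
  refine ⟨i2, ?_⟩
  have := intervalIntegral.integral_eq_sub_of_hasDerivAt (f := fun y => G (μ y) * Ψ (μ y))
    (f' := fun y => (G (μ y) * deriv Ψ (μ y) + G' (μ y) * Ψ (μ y)) * I) (a := a) (b := b)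
    (fun y hy => (((hG (μ y)).mul (hΨ.differentiableAt
      (hU.mem_nhds (hm y hy))).hasDerivAt).comp y (hμ y)).congr_deriv (by ring))
    ((i1.add i2).mul_const I)
  rw [intervalIntegral.integral_mul_const, intervalIntegral.integral_add i1 i2] at this
  rw [← norm_mul, ← norm_mul]
  refine le_trans ?_ (norm_sub_le _ _)
  rw [← this, norm_mul, norm_I, mul_one]

theorem psi (hN : St_NH) (hF : St_F2) (j : ℝ) (p q : ℕ) (hq : 9 * (p + 1) + 2 ≤ 2 * q) :
    ∃ C, 0 ≤ C ∧ ∀ᶠ h in atTop, ∀ γ ρ w R y, Nc j γ → Per (2 * π) ρ → Wf q h w →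
      ∫ s in (0 : ℝ)..(2 * π), ρ s ^ 2 ≤ R → |y| ≤ YY q h →
      ‖PsN γ (fun s t => w s t * (ρ s * ρ t)) (mu q h y)‖ ≤
        C * h ^ 4 * (R * (om q h / Tt q h ^ 2)) ∧
      ‖PsN γ (fun s t => w s t * (ρ s * ρ t)) (mu q h y) -
        ∫ z, fm w ρ (kp γ) (p + 2) (mu q h y) z ∂bx‖ ≤
        C * (eps p h * h ^ 4) * (R * (om q h / Tt q h ^ 2)) := by
  obtain ⟨C, h0, hC⟩ := hF j p q hq
  refine ⟨32 * |j| * C ^ 2, by positivity, ?_⟩
  filter_upwards [eventually_ge_atTop h0, eventually_ge_atTop 1] with h h1 h2 γ ρ w R y hγ hρ hw hR hy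
  have hh : 0 < h := one_pos.trans_le h2
  have hT := T_pos q hh
  have ho := o_pos q hh
  have hj := hγ.pos
  have he0 : 0 < eps p h := by unfold eps; positivity
  have he1 : eps p h ≤ 1 := inv_le_one_of_one_le₀ (one_le_pow₀ h2)
  have hc := hρ.smooth.continuous
  have hκ := (H0.smk hγ).continuous
  obtain ⟨-, m1, -, m2⟩ := (hN j).1 γ hγ
  set μ := mu q h y with hμ
  have hμ0 : μ ≠ 0 := fun e => by simpa [← hμ, e] using mu_re q hh y
  set L := 4 * C ^ 2 * h ^ 4 * (om q h / Tt q h ^ 3) with hL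
  set φ : ℝ → ℝ := fun d => L * Real.exp (-(|d| / (4 * j * Tt q h))) with hφ
  have φc : Continuous φ := by fun_prop
  have φ0 : ∀ d, 0 ≤ φ d := fun d => by positivity
  have φi : ∫ d in (-π)..π, φ d ≤ 32 * |j| * C ^ 2 * h ^ 4 * (om q h / Tt q h ^ 2) := by
    rw [intervalIntegral.integral_const_mul, abs_of_pos hj]
    refine (mul_le_mul_of_nonneg_left (int_exp (by positivity)) (by positivity)).trans_eq ?_
    rw [hL]; field_simp; ring
  set f : ℝ × ℝ → ℂ := fun z => ((w z.1 (z.1 + z.2) * (ρ z.1 * ρ (z.1 + z.2)) : ℝ) : ℂ) *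
    NN μ γ z.1 (z.1 + z.2) ^ 2 with hf
  have key : ∀ s d, |d| ≤ π → ‖f (s, d)‖ ≤ |ρ s| * |ρ (s + d)| * φ d ∧
      ‖f (s, d) - fm w ρ (kp γ) (p + 2) μ (s, d)‖ ≤ |ρ s| * |ρ (s + d)| * (eps p h * φ d) := by
    intro s d hd
    have := φ0 d
    rcases le_total |d| (Tt q h / (2 * h)) with e | e
    · simp only [hf, fm, uw, w0 hw e, zero_mul, ofReal_zero, mul_zero, Finset.sum_const_zero,
        sub_zero, norm_zero]
      constructor <;> positivity
    have hd0 : d ≠ 0 := abs_pos.1 (lt_of_lt_of_le (by positivity) e)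
    obtain ⟨k1, k2⟩ := hC h h1 γ y s (s + d) hγ hy (by simpa using e) (by simpa using hd)
    rw [add_sub_cancel_left] at k1 k2
    set X := C * h ^ 2 * N0 q h * Real.exp (-(c0 γ s (s + d) / (8 * Tt q h))) with hX
    have X0 : 0 ≤ X := (norm_nonneg _).trans k2
    have k1' : ‖NN μ γ s (s + d) - Nm μ (kp γ s) sN (p + 2) d‖ ≤ eps p h * X :=
      k1.trans_eq (by rw [hX]; ring)
    have X2 : 4 * X ^ 2 ≤ φ d := by
      have a := hγ.arc s (s + d)
      rw [dc_eq_abs (by simpa using hd), sub_add_cancel_left, abs_neg] at a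
      have b : Real.exp (-(c0 γ s (s + d) / (8 * Tt q h))) ^ 2 ≤
          Real.exp (-(|d| / (4 * j * Tt q h))) := by
        rw [← Real.exp_nat_mul, Real.exp_le_exp]
        have : |d| / (4 * j * Tt q h) ≤ j * c0 γ s (s + d) / (4 * j * Tt q h) := by gcongr; exact a
        refine le_trans (le_of_eq ?_) (neg_le_neg this)
        push_cast; field_simp; ring
      have c : N0 q h ^ 2 = om q h / Tt q h ^ 3 := by
        rw [N0, div_pow, mul_pow, Real.sq_sqrt ho.le, Real.sq_sqrt hT.le]; ring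
      calc 4 * X ^ 2 = L * Real.exp (-(c0 γ s (s + d) / (8 * Tt q h))) ^ 2 := by
            rw [hX, hL, ← c]; ring
        _ ≤ _ := by simp only [hφ]; gcongr
    have n1 : ‖NN μ γ s (s + d)‖ ≤ 2 * X := by
      have := norm_add_le (NN μ γ s (s + d) - Nm μ (kp γ s) sN (p + 2) d) (Nm μ (kp γ s) sN (p + 2) d)
      rw [sub_add_cancel] at this
      nlinarith
    have wl : ‖((w s (s + d) * (ρ s * ρ (s + d)) : ℝ) : ℂ)‖ ≤ |ρ s| * |ρ (s + d)| := by
      rw [norm_real, Real.norm_eq_abs, abs_mul, abs_mul, abs_of_nonneg (hw.nn _ _)]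
      exact mul_le_of_le_one_left (by positivity) (hw.le _ _)
    have e1 : fm w ρ (kp γ) (p + 2) μ (s, d) =
        ((w s (s + d) * (ρ s * ρ (s + d)) : ℝ) : ℂ) * Nm μ (kp γ s) sN (p + 2) d ^ 2 := by
      rw [Nm_sq hμ0 _ _ hd0, Finset.mul_sum, fm]
      refine Finset.sum_congr rfl fun n _ => ?_
      simp only [uw, cn, ofReal_mul]
      ring
    constructor
    · rw [hf, norm_mul, norm_pow]
      exact mul_le_mul wl ((pow_le_pow_left₀ (norm_nonneg _) n1 2).trans (by linarith))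
        (by positivity) (by positivity)
    · rw [e1, hf, ← mul_sub, norm_mul, sq_sub_sq, norm_mul]
      refine mul_le_mul wl ?_ (by positivity) (by positivity)
      calc _ ≤ (2 * X + X) * (eps p h * X) :=
            mul_le_mul ((norm_add_le _ _).trans (add_le_add n1 k2)) k1' (norm_nonneg _) (by positivity)
        _ ≤ eps p h * (4 * X ^ 2) := by nlinarith [mul_nonneg he0.le (sq_nonneg X)]
        _ ≤ _ := by gcongr
  have c1 : Continuous fun z : ℝ × ℝ => w z.1 (z.1 + z.2) :=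
    hw.cont.comp (f := fun z : ℝ × ℝ => (z.1, z.1 + z.2)) (by fun_prop)
  have fi : Integrable f bx := by
    refine Integrable.mono' (int_c (f := fun z => |ρ z.1| * |ρ (z.1 + z.2)| * φ z.2) (by fun_prop))
      (Measurable.aestronglyMeasurable ?_) (ae_bx.mono fun z hz => (key z.1 z.2 hz).1)
    have b1 : Continuous fun z : ℝ × ℝ => ρ z.1 * ρ (z.1 + z.2) := by fun_prop
    have b2 : Measurable fun z : ℝ × ℝ => ((w z.1 (z.1 + z.2) * (ρ z.1 * ρ (z.1 + z.2)) : ℝ) : ℂ) :=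
      (continuous_ofReal.comp (c1.mul b1)).measurable
    have b3 : Measurable fun z : ℝ × ℝ => NN μ γ z.1 (z.1 + z.2) :=
      m1.comp (f := fun z : ℝ × ℝ => (μ, z.1, z.1 + z.2)) (by fun_prop)
    exact b2.mul (b3.pow_const 2)
  have eP : PsN γ (fun s t => w s t * (ρ s * ρ t)) μ = ∫ z, f z ∂bx := by
    rw [← dbl fi, PsN]
    congr 1; ext s
    exact shift (fun t => by simp only [hw.p2, hρ.per, (m2 μ s t).2]) s
  have gi : Integrable (fun z => fm w ρ (kp γ) (p + 2) μ z) bx :=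
    int_c (by
      have := (fm_c hh hw hc hκ (p + 2)).comp (Continuous.prodMk_right y)
      simpa only [Function.comp_def] using this)
  rw [eP, ← integral_sub fi gi]
  refine ⟨(nb hρ φc φ0 hR φi fun s d hd => (key s d hd).1).trans_eq (by ring),
    (nb hρ (φ := fun d => eps p h * φ d) (by fun_prop) (fun d => mul_nonneg he0.le (φ0 d)) hR
      (S := eps p h * (32 * |j| * C ^ 2 * h ^ 4 * (om q h / Tt q h ^ 2)))
      (by rw [intervalIntegral.integral_const_mul]; gcongr)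
      fun s d hd => (key s d hd).2).trans_eq (by ring)⟩

end EXP

end Pool.Agent.Lib.IS2
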